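import Pool.Agent.Helper28.GRC.Prof
import Pool.Agent.Helper73.SEM.LW1

/-!
# GRC-BASE: the base law of one piece

Model: Helper73/SEM/LW1.lean (`base_ind38`, `base_law`; `FL.ext38`, `FL.Ex_label38` etc. can be used).

Proof in words.  `t1 ≤ 10⁻³`.  Sample the labels of `Q` in increasing order:
* the top `τ` (parent label `c = lab (p τ)`, central): law `π x 1(ad c x ∈ S)/Z`, `Z ≥ 1 - t1` (`clZ`, `tot`);
* a vertex `v ≠ τ` which is not the parent of an exit: law `k (φ (p v)) ·`;
* the parent `v` of the exit `r ∈ ex` (`v ≠ τ`, at most one such `v`), `c = lab r` central: law `k (φ (p v)) x 1(ad c x ∈ S)/Z`, `Z ≥ 1 - t1` (`clB`).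
All labels are in `XC`, all differences in `S`.  JOINT: every conditional probability is `≤ (25/w)/(1-t1) ≤ 50/w = (50 n/w)/n`
(for the top: `π x = ∑_y π y k y x ≤ 25/w` by `rev`, `one`, `tot`, `psupp`).
MARGINALS (`h_v x = Pr (φ v = x)`, `g_v` = indicator of the good labels of an exceptional vertex `v`): `(1-t1)^j π g_v ≤ h_v ≤ (1-t1)^(-j) π` with `j ≤ 2` (`g_v = 1` if `v` is not exceptional):
top: `π g/Z`.  `v` not exceptional with parent `u`: `h_v x = ∑_y h_u y k y x`; upper bound by `rev`, `one`; lower bound: if `u` is not exceptional immediate, if `u` is exceptional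
`∑_y π y g_u y k y x = π x ∑_y k x y g_u y ≥ π x (1 - t1)` (`clB`).  The exit parent: `∑_y h_u y k y x g x/Z`.  (There are at most two exceptional vertices, so at most four factors `1 ± t1`; `(1-t1)^4 ≥ 1 - 8 t1`,
`(1-t1)^(-4) ≤ 1 + 8 t1`.)
EDGES: `i ≠ τ`, `u = p i`: `Pr (ad (φ i) (φ u) = s) = ∑_y h_u y ∑_{x : ad x y = s} (law of φ i given y)`: upper bound `(1-t1)^(-4) Dl s`; lower bound for `i` not exceptional: `(1-t1)^4 ∑_y g_u y ∑_x ..≥ (1-t1)^4 (Dl s - t1 κ)`
by `clD` (the pairs `(y, x)` with `y` bad for `u`).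
`eTop`: `∑_{x : ad x c = s} h x`, at most two labels `x`, each `π x ≤ κ (Psi + t1) ≤ 1.01 κ`-type bound: use the hypothesis `hpi`.  It is `0` for `100 s > 56 n` as `|x - c| ≤ 0.55 n`.
`low`: `∑_{10 x ≤ 3n} h_v x ≥ (1-t1)^4 (∑_{10 x ≤ 3 n} π x - t1) ≥ 0.27` (`low`, `clZ`), the same for `high`.
-/

set_option autoImplicit false

namespace Pool.Agent.GRC

open Finset Pool.Agent.SEM

section bs22

open Classical in
/-- base kernel (stationary law at the top) restricted to the good labels -/
private noncomputable def Kb22 (τ : ℕ) (k : ℕ → ℕ → ℝ) (π : ℕ → ℝ) (G : ℕ → ℕ → Prop) (v y x : ℕ) : ℝ :=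
  (if v = τ then π x else k y x) * (if G v x then 1 else 0)

private noncomputable def Zv22 (X : Finset ℕ) (τ : ℕ) (k : ℕ → ℕ → ℝ) (π : ℕ → ℝ) (G : ℕ → ℕ → Prop) (v y : ℕ) : ℝ :=
  ∑ x ∈ X, Kb22 τ k π G v y x

private noncomputable def Kv22 (X : Finset ℕ) (τ : ℕ) (k : ℕ → ℕ → ℝ) (π : ℕ → ℝ) (G : ℕ → ℕ → Prop)
    (v y x : ℕ) : ℝ := Kb22 τ k π G v y x / Zv22 X τ k π G v y

variable {n P w : ℕ} {X S : Finset ℕ} {e ξ t1 κ N : ℝ} {k : ℕ → ℕ → ℝ} {π : ℕ → ℝ} {τ : ℕ}
  {G : ℕ → ℕ → Prop}

private theorem base_nn22 (hk : Kr n P w X S e ξ t1 κ N k π) (v y x : ℕ) :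
    0 ≤ (if v = τ then π x else k y x) := by
  split_ifs
  · exact hk.pnn x
  · exact hk.knn y x

private theorem Kb_nn22 (hk : Kr n P w X S e ξ t1 κ N k π) (v y x : ℕ) :
    0 ≤ Kb22 τ k π G v y x := by
  unfold Kb22
  refine mul_nonneg (base_nn22 hk v y x) ?_
  split_ifs <;> norm_num

private theorem Kb_le22 (hk : Kr n P w X S e ξ t1 κ N k π) (v y x : ℕ) :
    Kb22 τ k π G v y x ≤ if v = τ then π x else k y x := by
  unfold Kb22
  have h := base_nn22 (τ := τ) hk v y x
  by_cases hG : G v x
  · rw [if_pos hG, mul_one]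
  · rw [if_neg hG, mul_zero]
    exact h

private theorem base_sum22 (hk : Kr n P w X S e ξ t1 κ N k π) (v y : ℕ)
    (hy : v = τ ∨ y ∈ XC n P X) : ∑ x ∈ X, (if v = τ then π x else k y x) = 1 := by
  by_cases hv : v = τ
  · simp only [if_pos hv]
    exact hk.tot
  · simp only [if_neg hv]
    exact hk.one y (hy.resolve_left hv)

private theorem Z_le22 (hk : Kr n P w X S e ξ t1 κ N k π) (v y : ℕ)
    (hy : v = τ ∨ y ∈ XC n P X) : Zv22 X τ k π G v y ≤ 1 := by
  rw [← base_sum22 hk v y hy]
  exact sum_le_sum fun x _ => Kb_le22 hk v y x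

private theorem Z_eq22 (hk : Kr n P w X S e ξ t1 κ N k π) (v y : ℕ)
    (hy : v = τ ∨ y ∈ XC n P X) (hG : ∀ x, G v x) : Zv22 X τ k π G v y = 1 := by
  rw [← base_sum22 hk v y hy]
  refine sum_congr rfl fun x _ => ?_
  unfold Kb22
  rw [if_pos (hG x), mul_one]

private theorem Z_ge22 (hk : Kr n P w X S e ξ t1 κ N k π) (v y : ℕ)
    (hy : v = τ ∨ y ∈ XC n P X) (hG : ∃ c, Ctr n c ∧ ∀ x, ¬ G v x → ad c x ∉ S) :
    1 - t1 ≤ Zv22 X τ k π G v y := by
  obtain ⟨c, hc, hcG⟩ := hG
  have h1 : ∑ x ∈ X.filter (fun x => ad c x ∉ S), (if v = τ then π x else k y x) ≤ t1 := by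
    by_cases hv : v = τ
    · simp only [if_pos hv]
      exact hk.clZ c hc
    · simp only [if_neg hv]
      exact hk.clB c hc y (hy.resolve_left hv)
  have h2 : ∑ x ∈ X, (if v = τ then π x else k y x) ≤ Zv22 X τ k π G v y +
      ∑ x ∈ X.filter (fun x => ad c x ∉ S), (if v = τ then π x else k y x) := by
    unfold Zv22
    rw [sum_filter, ← sum_add_distrib]
    refine sum_le_sum fun x _ => ?_
    have h3 := base_nn22 (τ := τ) hk v y x
    by_cases hG : G v x
    · have : Kb22 τ k π G v y x = if v = τ then π x else k y x := by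
        unfold Kb22
        rw [if_pos hG, mul_one]
      rw [this]
      have h4 : 0 ≤ (if ad c x ∉ S then (if v = τ then π x else k y x) else 0) := by
        split_ifs <;> first | exact hk.pnn x | exact hk.knn y x | exact le_rfl
      linarith
    · rw [if_pos (hcG x hG)]
      have := Kb_nn22 (τ := τ) (G := G) hk v y x
      linarith
  rw [base_sum22 hk v y hy] at h2
  linarith

private theorem Kv_nn22 (hk : Kr n P w X S e ξ t1 κ N k π) (v y x : ℕ) :
    0 ≤ Kv22 X τ k π G v y x :=
  div_nonneg (Kb_nn22 hk v y x) (sum_nonneg fun x _ => Kb_nn22 hk v y x)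

private theorem Kv_le22 (hk : Kr n P w X S e ξ t1 κ N k π) (ht : t1 ≤ 1 / 1000) (v y : ℕ)
    (hy : v = τ ∨ y ∈ XC n P X) (hG : ∃ c, Ctr n c ∧ ∀ x, ¬ G v x → ad c x ∉ S) (x : ℕ) :
    Kv22 X τ k π G v y x ≤ (if v = τ then π x else k y x) / (1 - t1) :=
  div_le_div₀ (base_nn22 hk v y x) (Kb_le22 hk v y x) (by linarith) (Z_ge22 hk v y hy hG)

private theorem Kv_ge22 (hk : Kr n P w X S e ξ t1 κ N k π) (ht : t1 ≤ 1 / 1000) (v y : ℕ)
    (hy : v = τ ∨ y ∈ XC n P X) (hG : ∃ c, Ctr n c ∧ ∀ x, ¬ G v x → ad c x ∉ S) (x : ℕ) :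
    Kb22 τ k π G v y x ≤ Kv22 X τ k π G v y x := by
  have h1 := Z_ge22 hk v y hy hG
  have h2 := Z_le22 (G := G) hk v y hy
  have h3 : 0 < Zv22 X τ k π G v y := by linarith
  unfold Kv22
  rw [le_div_iff₀ h3]
  calc Kb22 τ k π G v y x * Zv22 X τ k π G v y ≤ Kb22 τ k π G v y x * 1 :=
        mul_le_mul_of_nonneg_left h2 (Kb_nn22 hk v y x)
    _ = _ := mul_one _

private theorem Kv_sum22 (hk : Kr n P w X S e ξ t1 κ N k π) (ht : t1 ≤ 1 / 1000) (v y : ℕ)
    (hy : v = τ ∨ y ∈ XC n P X) (hG : ∃ c, Ctr n c ∧ ∀ x, ¬ G v x → ad c x ∉ S) :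
    ∑ x ∈ X, Kv22 X τ k π G v y x = 1 := by
  have h1 := Z_ge22 hk v y hy hG
  have h3 : 0 < Zv22 X τ k π G v y := by linarith
  unfold Kv22
  rw [← sum_div]
  exact div_self h3.ne'

private theorem Kv_eq22 (hk : Kr n P w X S e ξ t1 κ N k π) (v y : ℕ)
    (hy : v = τ ∨ y ∈ XC n P X) (hG : ∀ x, G v x) (x : ℕ) :
    Kv22 X τ k π G v y x = if v = τ then π x else k y x := by
  unfold Kv22
  rw [Z_eq22 hk v y hy hG, div_one]
  unfold Kb22
  rw [if_pos (hG x), mul_one]

private theorem Kv_supp22 {v y x : ℕ} (h : Kv22 X τ k π G v y x ≠ 0) :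
    (if v = τ then π x else k y x) ≠ 0 ∧ G v x := by
  constructor
  · intro h0
    apply h
    unfold Kv22 Kb22
    rw [h0, zero_mul, zero_div]
  · by_contra hG
    apply h
    unfold Kv22 Kb22
    rw [if_neg hG, mul_zero, zero_div]

private theorem pi_row22 (hk : Kr n P w X S e ξ t1 κ N k π) (x : ℕ) :
    ∑ y ∈ X, π y * k y x = π x := by
  have h1 : ∑ y ∈ X, π y * k y x = π x * ∑ y ∈ X, k x y := by
    rw [mul_sum]
    exact sum_congr rfl fun y _ => hk.rev y x
  rw [h1]
  by_cases hx : π x = 0
  · rw [hx, zero_mul]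
  · rw [hk.one x (hk.psupp x hx), mul_one]

private theorem pi_le22 (hk : Kr n P w X S e ξ t1 κ N k π) (x : ℕ) : π x ≤ 25 / w := by
  rw [← pi_row22 hk x]
  calc ∑ y ∈ X, π y * k y x ≤ ∑ y ∈ X, π y * (25 / w) :=
        sum_le_sum fun y _ => mul_le_mul_of_nonneg_left (hk.up y x) (hk.pnn y)
    _ = 25 / w := by rw [← sum_mul, hk.tot, one_mul]

private theorem Kv_up22 (hk : Kr n P w X S e ξ t1 κ N k π) (ht : t1 ≤ 1 / 1000) (v y : ℕ)
    (hy : v = τ ∨ y ∈ XC n P X) (hG : ∃ c, Ctr n c ∧ ∀ x, ¬ G v x → ad c x ∉ S) (x : ℕ) :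
    Kv22 X τ k π G v y x ≤ 50 / w := by
  refine (Kv_le22 hk ht v y hy hG x).trans ?_
  have h1 : (if v = τ then π x else k y x) ≤ 25 / w := by
    split_ifs
    · exact pi_le22 hk x
    · exact hk.up y x
  have h2 : (0 : ℝ) ≤ 25 / w := by positivity
  rw [div_le_iff₀ (by linarith)]
  have h3 : (50 : ℝ) / w * (1 - t1) = 25 / w * (2 * (1 - t1)) := by ring
  rw [h3]
  nlinarith

/-- base law of a part of a piece -/
private structure BL22 (n P w : ℕ) (p lab : ℕ → ℕ) (R X S : Finset ℕ) (τ : ℕ) (t1 κ : ℝ)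
    (k : ℕ → ℕ → ℝ) (π : ℕ → ℝ) (G : ℕ → ℕ → Prop) (E : ℕ → Prop) (A B : ℕ → ℝ) (Q : Finset ℕ)
    (L : FL) : Prop where
  nn : ∀ ω, 0 ≤ L.wt ω
  one : L.Ex (fun _ => 1) = 1
  onR : ∀ ω, ∀ r ∈ R, L.Φ ω r = lab r
  lbl : ∀ ω, L.wt ω ≠ 0 → ∀ v ∈ Q, L.Φ ω v ∈ XC n P X
  gd : ∀ ω, L.wt ω ≠ 0 → ∀ v ∈ Q, G v (L.Φ ω v)
  df : ∀ ω, L.wt ω ≠ 0 → ∀ i ∈ Q, i ≠ τ → ad (L.Φ ω i) (L.Φ ω (p i)) ∈ S
  joint : ∀ A' ⊆ Q, ∀ x : ℕ → ℕ, L.Pr (fun φ => ∀ v ∈ A', φ v = x v) ≤ (50 / w) ^ A'.card
  up : ∀ v ∈ Q, ∀ x, L.Pr (fun φ => φ v = x) ≤ B v * π x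
  lo : ∀ v ∈ Q, ∀ x, G v x → A v * π x ≤ L.Pr (fun φ => φ v = x)
  eUp : ∀ i ∈ Q, i ≠ τ → ∀ s,
    L.Pr (fun φ => ad (φ i) (φ (p i)) = s) ≤ B (p i) / (1 - t1) * Dl X k π s
  eLo : ∀ i ∈ Q, ¬ E i → ∀ s,
    A (p i) * (Dl X k π s - t1 * κ) ≤ L.Pr (fun φ => ad (φ i) (φ (p i)) = s)

private theorem ind22 (hk : Kr n P w X S e ξ t1 κ N k π) (hw : 0 < w) (ht0 : 0 < t1) (ht : t1 ≤ 1 / 1000)
    {E : ℕ → Prop} {A B : ℕ → ℝ} (p lab : ℕ → ℕ) (R Q₀ : Finset ℕ)
    (hGc : ∀ v, ∃ c, Ctr n c ∧ ∀ x, ¬ G v x → ad c x ∉ S)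
    (hGE : ∀ v, ¬ E v → ∀ x, G v x) (hEτ : E τ) (hA0 : ∀ v, 0 ≤ A v) (hB0 : ∀ v, 0 ≤ B v)
    (hAτ : A τ ≤ 1) (hBτ : 1 ≤ B τ * (1 - t1))
    (hB : ∀ a ∈ Q₀, a ≠ τ → B (p a) ≤ B a ∧ (E a → B (p a) ≤ B a * (1 - t1)))
    (hA : ∀ a ∈ Q₀, a ≠ τ → A a ≤ A (p a) ∧ (E (p a) → A a ≤ A (p a) * (1 - t1)))
    (Q : Finset ℕ) : Q ⊆ Q₀ → Disjoint Q R → (∀ v ∈ Q, p v < v ∧ (v ≠ τ → p v ∈ Q)) →
      ∃ L : FL, BL22 n P w p lab R X S τ t1 κ k π G E A B Q L := by
  have hq : (0 : ℝ) < 1 - t1 := by linarith
  have hw0 : (0 : ℝ) < w := by exact_mod_cast hw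
  induction Q using Finset.induction_on_max with
  | empty =>
    intro _ _ _
    refine ⟨⟨Unit, inferInstance, fun _ => 1, fun _ => lab⟩, ⟨fun _ => zero_le_one, ?_, fun _ _ _ => rfl,
      ?_, ?_, ?_, ?_, ?_, ?_, ?_, ?_⟩⟩
    · simp [FL.Ex]
    · intro _ _ v hv; exact absurd hv (notMem_empty v)
    · intro _ _ v hv; exact absurd hv (notMem_empty v)
    · intro _ _ v hv; exact absurd hv (notMem_empty v)
    · intro A hA x
      rw [subset_empty] at hA
      subst hA
      simp [FL.Pr, FL.Ex]
    · intro v hv; exact absurd hv (notMem_empty v)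
    · intro v hv; exact absurd hv (notMem_empty v)
    · intro v hv; exact absurd hv (notMem_empty v)
    · intro v hv; exact absurd hv (notMem_empty v)
  | insert a Q hmax ih =>
    intro hQ0 hQR hp
    have haQ : a ∉ Q := fun h => lt_irrefl _ (hmax a h)
    have haR : a ∉ R := fun h => (disjoint_left.mp hQR (mem_insert_self a Q)) h
    have hQR' : Disjoint Q R := hQR.mono_left (subset_insert a Q)
    have haQ0 : a ∈ Q₀ := hQ0 (mem_insert_self a Q)
    have hpa : p a < a := (hp a (mem_insert_self a Q)).1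
    have hpa' : a ≠ τ → p a ∈ Q := by
      intro ha
      rcases mem_insert.mp ((hp a (mem_insert_self a Q)).2 ha) with h1 | h1
      · omega
      · exact h1
    have hpQ : ∀ v ∈ Q, p v < v ∧ (v ≠ τ → p v ∈ Q) := by
      intro v hv
      obtain ⟨h1, h2⟩ := hp v (mem_insert_of_mem hv)
      refine ⟨h1, fun h => ?_⟩
      rcases mem_insert.mp (h2 h) with h3 | h3
      · have := hmax v hv; omega
      · exact h3
    obtain ⟨L, hL⟩ := ih ((subset_insert a Q).trans hQ0) hQR' hpQ
    have hva : ∀ v ∈ Q, v ≠ a := fun v hv => (hmax v hv).ne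
    have hpva : ∀ v ∈ Q, p v ≠ a := fun v hv => ((hpQ v hv).1.trans (hmax v hv)).ne
    have hqa : p a ≠ a := hpa.ne
    -- the label of the parent of `a`
    have hpar : ∀ ω, L.wt ω ≠ 0 → a = τ ∨ L.Φ ω (p a) ∈ XC n P X := by
      intro ω hω
      by_cases ha : a = τ
      · exact Or.inl ha
      · exact Or.inr (hL.lbl ω hω _ (hpa' ha))
    obtain ⟨K, hK⟩ : ∃ K : ℕ → ℕ → ℝ, K = Kv22 X τ k π G a := ⟨_, rfl⟩
    have hKnn : ∀ y x, 0 ≤ K y x := fun y x => by rw [hK]; exact Kv_nn22 hk a y x
    have hk1 : ∀ ω, L.wt ω ≠ 0 → ∑ y ∈ X, K (L.Φ ω (p a)) y = 1 := fun ω hω => by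
      rw [hK]; exact Kv_sum22 hk ht a _ (hpar ω hω) (hGc a)
    -- probabilities of events not involving `a`
    have hold : ∀ P' : (ℕ → ℕ) → Prop, (∀ φ y, P' (Function.update φ a y) ↔ P' φ) →
        (L.ext38 a (p a) X K).Pr P' = L.Pr P' := by
      intro P' hP'
      unfold FL.Pr
      rw [FL.ext_Ex38]
      refine L.Ex_congr38 fun ω hω => ?_
      have hPe : ∀ y : ℕ, (@ite ℝ (P' (Function.update (L.Φ ω) a y)) (Classical.propDecidable _) 1 0) =
          (@ite ℝ (P' (L.Φ ω)) (Classical.propDecidable _) 1 0) := by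
        intro y
        by_cases h : P' (L.Φ ω)
        · rw [if_pos h, if_pos ((hP' _ _).mpr h)]
        · rw [if_neg h, if_neg (fun h' => h ((hP' _ _).mp h'))]
      refine (sum_congr rfl fun y _ => by rw [hPe y]).trans ?_
      rw [← sum_mul, hk1 ω hω, one_mul]
    -- marginal of `a`
    have hm : ∀ x ∈ X, (L.ext38 a (p a) X K).Pr (fun φ => φ a = x) = L.Ex (fun φ => K (φ (p a)) x) := by
      intro x hx
      unfold FL.Pr
      rw [FL.ext_Ex38]
      refine L.Ex_congr38 fun ω _ => ?_
      simp only [Function.update_self]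
      rw [sum_eq_single_of_mem x hx]
      · rw [if_pos rfl, mul_one]
      · intro b _ hb
        rw [if_neg hb, mul_zero]
    have hXC : XC n P X ⊆ X := filter_subset _ _
    -- the law of the label of the parent
    have hlabel : a ≠ τ → ∀ g : ℕ → ℝ, L.Ex (fun φ => g (φ (p a))) =
        ∑ y ∈ X, L.Pr (fun φ => φ (p a) = y) * g y := by
      intro ha g
      exact L.Ex_label38 (X := X) (w := p a) (fun ω hω => hXC (hL.lbl ω hω _ (hpa' ha))) g
    have hpr0 : a ≠ τ → ∀ y, y ∉ XC n P X → L.Pr (fun φ => φ (p a) = y) = 0 := by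
      intro ha y hy
      have h1 := hL.up _ (hpa' ha) y
      have h2 : π y = 0 := by
        by_contra hcon
        exact hy (hk.psupp y hcon)
      rw [h2, mul_zero] at h1
      exact le_antisymm h1 (L.Pr_nonneg38 hL.nn _)
    refine ⟨L.ext38 a (p a) X K, ⟨?_, ?_, ?_, ?_, ?_, ?_, ?_, ?_, ?_, ?_, ?_⟩⟩
    · rintro ⟨ω, y⟩
      exact mul_nonneg (hL.nn ω) (hKnn _ _)
    · rw [FL.ext_Ex38]
      refine Eq.trans (L.Ex_congr38 (G := fun _ => 1) fun ω hω => ?_) hL.one
      simp only [mul_one]
      exact hk1 ω hω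
    · rintro ⟨ω, y⟩ r hr
      have hra : r ≠ a := fun h => haR (h ▸ hr)
      change Function.update (L.Φ ω) a y r = lab r
      rw [Function.update_of_ne hra]
      exact hL.onR ω r hr
    · rintro ⟨ω, y⟩ hω v hv
      have hω' : L.wt ω ≠ 0 := fun h => hω (by change L.wt ω * _ = 0; rw [h, zero_mul])
      have hky : K (L.Φ ω (p a)) y ≠ 0 := fun h => hω (by change L.wt ω * K (L.Φ ω (p a)) y = 0; rw [h, mul_zero])
      change Function.update (L.Φ ω) a y v ∈ XC n P X
      rcases mem_insert.mp hv with h | h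
      · rw [h, Function.update_self]
        rw [hK] at hky
        have h1 := (Kv_supp22 hky).1
        by_cases ha : a = τ
        · rw [if_pos ha] at h1
          exact hk.psupp _ h1
        · rw [if_neg ha] at h1
          exact (hk.ksupp _ _ h1).2.1
      · rw [Function.update_of_ne (hva v h)]; exact hL.lbl ω hω' v h
    · rintro ⟨ω, y⟩ hω v hv
      have hω' : L.wt ω ≠ 0 := fun h => hω (by change L.wt ω * _ = 0; rw [h, zero_mul])
      have hky : K (L.Φ ω (p a)) y ≠ 0 := fun h => hω (by change L.wt ω * K (L.Φ ω (p a)) y = 0; rw [h, mul_zero])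
      change G v (Function.update (L.Φ ω) a y v)
      rcases mem_insert.mp hv with h | h
      · rw [h, Function.update_self]
        rw [hK] at hky
        exact (Kv_supp22 hky).2
      · rw [Function.update_of_ne (hva v h)]; exact hL.gd ω hω' v h
    · rintro ⟨ω, y⟩ hω v hv hvτ
      have hω' : L.wt ω ≠ 0 := fun h => hω (by change L.wt ω * _ = 0; rw [h, zero_mul])
      have hky : K (L.Φ ω (p a)) y ≠ 0 := fun h => hω (by change L.wt ω * K (L.Φ ω (p a)) y = 0; rw [h, mul_zero])
      change ad (Function.update (L.Φ ω) a y v) (Function.update (L.Φ ω) a y (p v)) ∈ S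
      rcases mem_insert.mp hv with h | h
      · rw [h] at hvτ ⊢
        rw [Function.update_self, Function.update_of_ne hqa, ad_comm]
        rw [hK] at hky
        have h1 := (Kv_supp22 hky).1
        rw [if_neg hvτ] at h1
        exact (hk.ksupp _ _ h1).2.2.1
      · rw [Function.update_of_ne (hva v h), Function.update_of_ne (hpva v h)]
        exact hL.df ω hω' v h hvτ
    · intro A' hA' x
      by_cases haA : a ∈ A'
      · obtain ⟨A'', hA''⟩ : ∃ A'' : Finset ℕ, A'' = A'.erase a := ⟨_, rfl⟩
        have hA'Q : A'' ⊆ Q := by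
          intro v hv
          rw [hA''] at hv
          have h1 := mem_of_mem_erase hv
          rcases mem_insert.mp (hA' h1) with h | h
          · exact absurd h (ne_of_mem_erase hv)
          · exact h
        have hcard : A'.card = A''.card + 1 := by rw [hA'']; exact (card_erase_add_one haA).symm
        have h1 := hL.joint A'' hA'Q x
        have h2 : (L.ext38 a (p a) X K).Pr (fun φ => ∀ v ∈ A', φ v = x v) ≤
            L.Pr (fun φ => ∀ v ∈ A'', φ v = x v) * (50 / w) := by
          unfold FL.Pr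
          rw [FL.ext_Ex38, ← FL.Ex_mul38]
          refine L.Ex_mono38 hL.nn fun ω hω => ?_
          have h3 : ∀ y ∈ X, K (L.Φ ω (p a)) y * (@ite ℝ (∀ v ∈ A', Function.update (L.Φ ω) a y v = x v) (Classical.propDecidable _) 1 0) ≤
              if y = x a then (@ite ℝ (∀ v ∈ A'', L.Φ ω v = x v) (Classical.propDecidable _) 1 0) * (50 / w) else 0 := by
            intro y _
            by_cases hc : ∀ v ∈ A', Function.update (L.Φ ω) a y v = x v
            · have hy : y = x a := by
                have := hc a haA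
                rwa [Function.update_self] at this
              have hc' : ∀ v ∈ A'', L.Φ ω v = x v := by
                intro v hv
                rw [hA''] at hv
                have := hc v (mem_of_mem_erase hv)
                rwa [Function.update_of_ne (ne_of_mem_erase hv)] at this
              rw [if_pos hc, if_pos hy, if_pos hc', mul_one, one_mul, hK]
              exact Kv_up22 hk ht a _ (hpar ω hω) (hGc a) _
            · rw [if_neg hc, mul_zero]
              split_ifs <;> positivity
          refine (sum_le_sum h3).trans ?_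
          rw [sum_ite_eq']
          split_ifs <;> first | positivity | exact le_rfl
        rw [hcard, pow_succ]
        exact h2.trans (mul_le_mul_of_nonneg_right h1 (by positivity))
      · have hAQ : A' ⊆ Q := by
          intro v hv
          rcases mem_insert.mp (hA' hv) with h | h
          · exact absurd (by rw [← h]; exact hv) haA
          · exact h
        rw [hold]
        · exact hL.joint A' hAQ x
        · intro φ y
          have : ∀ v ∈ A', Function.update φ a y v = φ v := fun v hv =>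
            Function.update_of_ne (fun h => haA (by rw [← h]; exact hv)) _ _
          constructor
          · intro h v hv; rw [← this v hv]; exact h v hv
          · intro h v hv; rw [this v hv]; exact h v hv
    · -- upper bound for the marginals
      intro v hv x
      rcases mem_insert.mp hv with h | h
      · rw [h]
        by_cases hx : x ∈ X
        · rw [hm x hx]
          by_cases ha : a = τ
          · have h1 : L.Ex (fun φ => K (φ (p a)) x) ≤ L.Ex (fun _ => 1 * (B a * π x)) := by
              refine L.Ex_mono38 hL.nn fun ω hω => ?_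
              rw [one_mul, hK]
              refine (Kv_le22 hk ht a _ (hpar ω hω) (hGc a) x).trans ?_
              rw [if_pos ha, div_le_iff₀ hq, ha]
              have := mul_le_mul_of_nonneg_right hBτ (hk.pnn x)
              linarith
            rw [FL.Ex_mul38, hL.one, one_mul] at h1
            exact h1
          · rw [hlabel ha (fun y => K y x)]
            have h1 : ∀ y ∈ X, L.Pr (fun φ => φ (p a) = y) * K y x ≤ B a * (π y * k y x) := by
              intro y _
              by_cases hy : y ∈ XC n P X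
              · have h2 : K y x * B (p a) ≤ B a * k y x := by
                  by_cases hE : E a
                  · have h3 := Kv_le22 (τ := τ) (G := G) hk ht a y (Or.inr hy) (hGc a) x
                    rw [if_neg ha, ← hK, le_div_iff₀ hq] at h3
                    have h4 := (hB a haQ0 ha).2 hE
                    calc K y x * B (p a) ≤ K y x * (B a * (1 - t1)) :=
                          mul_le_mul_of_nonneg_left h4 (hKnn y x)
                      _ = B a * (K y x * (1 - t1)) := by ring
                      _ ≤ B a * k y x := mul_le_mul_of_nonneg_left h3 (hB0 a)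
                  · have h3 := Kv_eq22 (X := X) (τ := τ) (G := G) hk a y (Or.inr hy) (hGE a hE) x
                    rw [if_neg ha, ← hK] at h3
                    rw [h3, mul_comm]
                    exact mul_le_mul_of_nonneg_right (hB a haQ0 ha).1 (hk.knn y x)
                calc L.Pr (fun φ => φ (p a) = y) * K y x ≤ (B (p a) * π y) * K y x :=
                      mul_le_mul_of_nonneg_right (hL.up _ (hpa' ha) y) (hKnn y x)
                  _ = π y * (K y x * B (p a)) := by ring
                  _ ≤ π y * (B a * k y x) := mul_le_mul_of_nonneg_left h2 (hk.pnn y)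
                  _ = B a * (π y * k y x) := by ring
              · rw [hpr0 ha y hy, zero_mul]
                exact mul_nonneg (hB0 a) (mul_nonneg (hk.pnn y) (hk.knn y x))
            refine (sum_le_sum h1).trans ?_
            rw [← mul_sum, pi_row22 hk x]
        · have h1 : (L.ext38 a (p a) X K).Pr (fun φ => φ a = x) = 0 := by
            unfold FL.Pr
            rw [FL.ext_Ex38]
            refine Eq.trans (L.Ex_congr38 (G := fun _ => 0) fun ω _ => ?_) (by simp [FL.Ex])
            refine sum_eq_zero fun y hy => ?_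
            simp only [Function.update_self]
            rw [if_neg (fun h2 : y = x => hx (h2 ▸ hy)), mul_zero]
          rw [h1]
          exact mul_nonneg (hB0 a) (hk.pnn x)
      · rw [hold]
        · exact hL.up v h x
        · intro φ y; rw [Function.update_of_ne (hva v h)]
    · -- lower bound for the marginals
      intro v hv x hGv
      rcases mem_insert.mp hv with h | h
      · rw [h] at hGv ⊢
        by_cases hx : x ∈ XC n P X
        · rw [hm x (hXC hx)]
          by_cases ha : a = τ
          · have h1 : L.Ex (fun _ => 1 * (A a * π x)) ≤ L.Ex (fun φ => K (φ (p a)) x) := by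
              refine L.Ex_mono38 hL.nn fun ω hω => ?_
              rw [one_mul, hK]
              refine le_trans ?_ (Kv_ge22 hk ht a _ (hpar ω hω) (hGc a) x)
              unfold Kb22
              rw [if_pos ha, if_pos hGv, mul_one, ha]
              have := mul_le_mul_of_nonneg_right hAτ (hk.pnn x)
              linarith
            rw [FL.Ex_mul38, hL.one, one_mul] at h1
            exact h1
          · rw [hlabel ha (fun y => K y x)]
            obtain ⟨c, hc, hcG⟩ := hGc (p a)
            have h1 : ∀ y ∈ X, A (p a) * (π y * k y x) -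
                (if ad c y ∉ S then (@ite ℝ (E (p a)) (Classical.propDecidable _) (A (p a) * (π y * k y x)) 0) else 0) ≤
                L.Pr (fun φ => φ (p a) = y) * K y x := by
              intro y _
              have hnn : 0 ≤ L.Pr (fun φ => φ (p a) = y) * K y x :=
                mul_nonneg (L.Pr_nonneg38 hL.nn _) (hKnn y x)
              have hnn2 : 0 ≤ A (p a) * (π y * k y x) :=
                mul_nonneg (hA0 _) (mul_nonneg (hk.pnn y) (hk.knn y x))
              by_cases hy : y ∈ XC n P X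
              · by_cases hGy : G (p a) y
                · have h2 := hL.lo _ (hpa' ha) y hGy
                  have h3 := Kv_ge22 (τ := τ) (G := G) hk ht a y (Or.inr hy) (hGc a) x
                  unfold Kb22 at h3
                  rw [if_neg ha, if_pos hGv, mul_one, ← hK] at h3
                  have h4 : A (p a) * (π y * k y x) ≤ L.Pr (fun φ => φ (p a) = y) * K y x := by
                    calc A (p a) * (π y * k y x) = (A (p a) * π y) * k y x := by ring
                      _ ≤ _ := mul_le_mul h2 h3 (hk.knn y x) (L.Pr_nonneg38 hL.nn _)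
                  have h5 : 0 ≤ (if ad c y ∉ S then (@ite ℝ (E (p a)) (Classical.propDecidable _) (A (p a) * (π y * k y x)) 0) else 0) := by
                    split_ifs <;> first | exact hnn2 | exact le_rfl
                  linarith
                · have hE : E (p a) := by
                    by_contra hE
                    exact hGy (hGE _ hE y)
                  rw [if_pos (hcG y hGy), if_pos hE, sub_self]
                  exact hnn
              · have h2 : π y = 0 := by
                  by_contra hcon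
                  exact hy (hk.psupp y hcon)
                rw [h2]
                simp only [zero_mul, mul_zero, ite_self, sub_zero]
                exact hnn
            refine le_trans ?_ (sum_le_sum h1)
            rw [sum_sub_distrib, ← mul_sum, pi_row22 hk x]
            by_cases hE : E (p a)
            · simp only [if_pos hE]
              rw [← sum_filter, ← mul_sum]
              have h2 : ∑ y ∈ X.filter (fun y => ad c y ∉ S), π y * k y x ≤ t1 * π x := by
                have h3 : ∑ y ∈ X.filter (fun y => ad c y ∉ S), π y * k y x =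
                    π x * ∑ y ∈ X.filter (fun y => ad c y ∉ S), k x y := by
                  rw [mul_sum]
                  exact sum_congr rfl fun y _ => hk.rev y x
                rw [h3, mul_comm t1]
                exact mul_le_mul_of_nonneg_left (hk.clB c hc x hx) (hk.pnn x)
              have h3 := (hA a haQ0 ha).2 hE
              have h4 := mul_le_mul_of_nonneg_left h2 (hA0 (p a))
              have h5 := mul_le_mul_of_nonneg_right h3 (hk.pnn x)
              have h6 : A (p a) * (1 - t1) * π x = A (p a) * π x - A (p a) * (t1 * π x) := by ring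
              linarith
            · simp only [if_neg hE, ite_self, sum_const_zero, sub_zero]
              exact mul_le_mul_of_nonneg_right (hA a haQ0 ha).1 (hk.pnn x)
        · have h2 : π x = 0 := by
            by_contra hcon
            exact hx (hk.psupp x hcon)
          rw [h2, mul_zero]
          refine FL.Pr_nonneg38 _ ?_ _
          rintro ⟨ω, y⟩
          exact mul_nonneg (hL.nn ω) (hKnn _ _)
      · rw [hold]
        · exact hL.lo v h x hGv
        · intro φ y; rw [Function.update_of_ne (hva v h)]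
    · -- upper bound for the differences
      intro v hv hvτ s
      rcases mem_insert.mp hv with h | h
      · rw [h] at hvτ ⊢
        have h1 : (L.ext38 a (p a) X K).Pr (fun φ => ad (φ a) (φ (p a)) = s) =
            L.Ex (fun φ => (fun y => ∑ x ∈ X, if ad x y = s then K y x else 0) (φ (p a))) := by
          unfold FL.Pr
          rw [FL.ext_Ex38]
          refine L.Ex_congr38 fun ω _ => ?_
          simp only [Function.update_self, Function.update_of_ne hqa]
          refine sum_congr rfl fun x _ => ?_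
          by_cases hc : ad x (L.Φ ω (p a)) = s
          · rw [if_pos hc, if_pos hc, mul_one]
          · rw [if_neg hc, if_neg hc, mul_zero]
        rw [h1, hlabel hvτ (fun y => ∑ x ∈ X, if ad x y = s then K y x else 0)]
        have h2 : ∀ y ∈ X, L.Pr (fun φ => φ (p a) = y) * (∑ x ∈ X, if ad x y = s then K y x else 0) ≤
            B (p a) / (1 - t1) * ∑ x ∈ X, if ad y x = s then π y * k y x else 0 := by
          intro y _
          by_cases hy : y ∈ XC n P X
          · have h3 : (∑ x ∈ X, if ad x y = s then K y x else 0) * (1 - t1) ≤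
                ∑ x ∈ X, if ad y x = s then k y x else 0 := by
              rw [sum_mul]
              refine sum_le_sum fun x _ => ?_
              rw [ad_comm x y]
              by_cases hc : ad y x = s
              · rw [if_pos hc, if_pos hc]
                have h3 := Kv_le22 (τ := τ) (G := G) hk ht a y (Or.inr hy) (hGc a) x
                rw [if_neg hvτ, ← hK, le_div_iff₀ hq] at h3
                exact h3
              · rw [if_neg hc, if_neg hc, zero_mul]
            have h4 : (∑ x ∈ X, if ad y x = s then π y * k y x else 0) =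
                π y * ∑ x ∈ X, if ad y x = s then k y x else 0 := by
              rw [mul_sum]
              refine sum_congr rfl fun x _ => ?_
              split_ifs
              · rfl
              · rw [mul_zero]
            have h5 : 0 ≤ ∑ x ∈ X, if ad x y = s then K y x else 0 := sum_nonneg fun x _ => by
              split_ifs
              · exact hKnn y x
              · exact le_rfl
            rw [h4]
            calc L.Pr (fun φ => φ (p a) = y) * (∑ x ∈ X, if ad x y = s then K y x else 0)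
                ≤ (B (p a) * π y) * (∑ x ∈ X, if ad x y = s then K y x else 0) :=
                  mul_le_mul_of_nonneg_right (hL.up _ (hpa' hvτ) y) h5
              _ = B (p a) * π y / (1 - t1) * ((∑ x ∈ X, if ad x y = s then K y x else 0) * (1 - t1)) := by
                  field_simp
              _ ≤ B (p a) * π y / (1 - t1) * (∑ x ∈ X, if ad y x = s then k y x else 0) :=
                  mul_le_mul_of_nonneg_left h3 (div_nonneg (mul_nonneg (hB0 _) (hk.pnn y)) hq.le)
              _ = _ := by ring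
          · rw [hpr0 hvτ y hy, zero_mul]
            refine mul_nonneg (div_nonneg (hB0 _) hq.le) (sum_nonneg fun x _ => ?_)
            split_ifs
            · exact mul_nonneg (hk.pnn y) (hk.knn y x)
            · exact le_rfl
        refine (sum_le_sum h2).trans (le_of_eq ?_)
        rw [← mul_sum]
        rfl
      · rw [hold]
        · exact hL.eUp v h hvτ s
        · intro φ y; rw [Function.update_of_ne (hva v h), Function.update_of_ne (hpva v h)]
    · -- lower bound for the differences
      intro v hv hEv s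
      rcases mem_insert.mp hv with h | h
      · rw [h] at hEv ⊢
        have hvτ : a ≠ τ := fun h => hEv (by rw [h]; exact hEτ)
        have h1 : (L.ext38 a (p a) X K).Pr (fun φ => ad (φ a) (φ (p a)) = s) =
            L.Ex (fun φ => (fun y => ∑ x ∈ X, if ad x y = s then K y x else 0) (φ (p a))) := by
          unfold FL.Pr
          rw [FL.ext_Ex38]
          refine L.Ex_congr38 fun ω _ => ?_
          simp only [Function.update_self, Function.update_of_ne hqa]
          refine sum_congr rfl fun x _ => ?_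
          by_cases hc : ad x (L.Φ ω (p a)) = s
          · rw [if_pos hc, if_pos hc, mul_one]
          · rw [if_neg hc, if_neg hc, mul_zero]
        rw [h1, hlabel hvτ (fun y => ∑ x ∈ X, if ad x y = s then K y x else 0)]
        obtain ⟨c, hc, hcG⟩ := hGc (p a)
        have hin : ∀ y, 0 ≤ ∑ x ∈ X, (if ad y x = s then π y * k y x else 0) := fun y =>
          sum_nonneg fun x _ => by
            split_ifs
            · exact mul_nonneg (hk.pnn y) (hk.knn y x)
            · exact le_rfl
        have h2 : ∀ y ∈ X, A (p a) * ((∑ x ∈ X, if ad y x = s then π y * k y x else 0) -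
            (if ad c y ∉ S then (∑ x ∈ X, if ad y x = s then π y * k y x else 0) else 0)) ≤
            L.Pr (fun φ => φ (p a) = y) * (∑ x ∈ X, if ad x y = s then K y x else 0) := by
          intro y _
          have h5 : 0 ≤ ∑ x ∈ X, if ad x y = s then K y x else 0 := sum_nonneg fun x _ => by
            split_ifs
            · exact hKnn y x
            · exact le_rfl
          have h6 : 0 ≤ L.Pr (fun φ => φ (p a) = y) * (∑ x ∈ X, if ad x y = s then K y x else 0) :=
            mul_nonneg (L.Pr_nonneg38 hL.nn _) h5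
          by_cases hcy : ad c y ∉ S
          · rw [if_pos hcy, sub_self, mul_zero]
            exact h6
          · rw [if_neg hcy, sub_zero]
            have hGy : G (p a) y := by
              by_contra hcon
              exact hcy (hcG y hcon)
            by_cases hy : y ∈ XC n P X
            · have h3 : (∑ x ∈ X, if ad x y = s then K y x else 0) =
                  ∑ x ∈ X, if ad y x = s then k y x else 0 := by
                refine sum_congr rfl fun x _ => ?_
                rw [ad_comm x y]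
                have h3 := Kv_eq22 (X := X) (τ := τ) (G := G) hk a y (Or.inr hy) (hGE a hEv) x
                rw [if_neg hvτ, ← hK] at h3
                rw [h3]
              have h4 : (∑ x ∈ X, if ad y x = s then π y * k y x else 0) =
                  π y * ∑ x ∈ X, if ad y x = s then k y x else 0 := by
                rw [mul_sum]
                refine sum_congr rfl fun x _ => ?_
                split_ifs
                · rfl
                · rw [mul_zero]
              rw [h3] at h5 ⊢
              rw [h4, ← mul_assoc]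
              exact mul_le_mul_of_nonneg_right (hL.lo _ (hpa' hvτ) y hGy) h5
            · have h2 : π y = 0 := by
                by_contra hcon
                exact hy (hk.psupp y hcon)
              have h7 : (∑ x ∈ X, if ad y x = s then π y * k y x else 0) = 0 :=
                sum_eq_zero fun x _ => by rw [h2, zero_mul, ite_self]
              rw [h7, mul_zero]
              exact h6
        refine le_trans ?_ (sum_le_sum h2)
        rw [← mul_sum, sum_sub_distrib, ← sum_filter]
        refine mul_le_mul_of_nonneg_left ?_ (hA0 _)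
        have h8 := hk.clD c hc s
        have h9 : Dl X k π s = ∑ x ∈ X, ∑ y ∈ X, if ad x y = s then π x * k x y else 0 := rfl
        rw [h9]
        linarith
      · rw [hold]
        · exact hL.eLo v h hEv s
        · intro φ y; rw [Function.update_of_ne (hva v h), Function.update_of_ne (hpva v h)]

end bs22

section fin22

variable {n P w : ℕ} {X S : Finset ℕ} {e ξ t1 κ N : ℝ} {k : ℕ → ℕ → ℝ} {π : ℕ → ℝ}
  {p lab : ℕ → ℕ} {R Q ex : Finset ℕ} {τ : ℕ}

/-- the good labels of a vertex -/
private def G22 (p lab : ℕ → ℕ) (S ex : Finset ℕ) (τ v x : ℕ) : Prop :=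
  (v = τ → ad (lab (p τ)) x ∈ S) ∧ ∀ r ∈ ex, p r = v → ad (lab r) x ∈ S

/-- the parent function stopped at the top -/
private def p22 (p : ℕ → ℕ) (Q : Finset ℕ) (τ v : ℕ) : ℕ := if v ∈ Q ∧ v ≠ τ then p v else v

/-- below the parent of the exit -/
private def D22 (p : ℕ → ℕ) (Q ex : Finset ℕ) (τ v : ℕ) : Prop :=
  ∃ r ∈ ex, ∃ j : ℕ, (p22 p Q τ)^[j] v = p r

private theorem p22_le (hG : Geo p R Q ex τ) (v : ℕ) : p22 p Q τ v ≤ v := by
  unfold p22
  split_ifs with h
  · exact (hG.lt v h.1).le
  · exact le_rfl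

private theorem p22_iter_le (hG : Geo p R Q ex τ) (j v : ℕ) : (p22 p Q τ)^[j] v ≤ v := by
  induction j generalizing v with
  | zero => exact le_rfl
  | succ j ih =>
    rw [Function.iterate_succ_apply]
    exact (ih _).trans (p22_le hG v)

private theorem D22_of (a : ℕ) (ha : a ∈ Q) (haτ : a ≠ τ)
    (h : D22 p Q ex τ (p a)) : D22 p Q ex τ a := by
  obtain ⟨r, hr, j, hj⟩ := h
  refine ⟨r, hr, j + 1, ?_⟩
  have h1 : p22 p Q τ a = p a := if_pos ⟨ha, haτ⟩
  rw [Function.iterate_succ_apply, h1]
  exact hj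

private theorem D22_not (hG : Geo p R Q ex τ) (a : ℕ) (ha : a ∈ Q) (r : ℕ) (hr : r ∈ ex)
    (hra : p r = a) : ¬ D22 p Q ex τ (p a) := by
  rintro ⟨r', hr', j, hj⟩
  have h1 : r' = r := card_le_one.1 hG.ex1 r' hr' r hr
  have h2 := p22_iter_le hG j (p a)
  have h3 := hG.lt a ha
  rw [hj, h1, hra] at h2
  omega

private theorem Gc22 (hG : Geo p R Q ex τ) (hc : Ctr n (lab (p τ))) (hex : ∀ r ∈ ex, Ctr n (lab r))
    (v : ℕ) : ∃ c, Ctr n c ∧ ∀ x, ¬ G22 p lab S ex τ v x → ad c x ∉ S := by
  by_cases hv : v = τ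
  · refine ⟨_, hc, fun x hx hcon => hx ⟨fun _ => hcon, fun r hr hrv => ?_⟩⟩
    exact absurd (hrv.trans hv) (hG.exP r hr).2
  · by_cases h : ∃ r ∈ ex, p r = v
    · obtain ⟨r, hr, hrv⟩ := h
      refine ⟨_, hex r hr, fun x hx hcon => hx ⟨fun h => absurd h hv, fun r' hr' _ => ?_⟩⟩
      rw [card_le_one.1 hG.ex1 r' hr' r hr]
      exact hcon
    · refine ⟨_, hc, fun x hx _ => hx ⟨fun h => absurd h hv, fun r' hr' h' => ?_⟩⟩
      exact absurd ⟨r', hr', h'⟩ h

open Classical in
private noncomputable def A22 (p : ℕ → ℕ) (Q ex : Finset ℕ) (τ : ℕ) (q : ℝ) (v : ℕ) : ℝ :=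
  if v = τ then 1 else if D22 p Q ex τ v ∧ ¬ Exc p ex τ v then q ^ 2 else q

open Classical in
private noncomputable def B22 (p : ℕ → ℕ) (Q ex : Finset ℕ) (τ : ℕ) (q : ℝ) (v : ℕ) : ℝ :=
  if D22 p Q ex τ v then (q ^ 2)⁻¹ else q⁻¹

private theorem A22_ge {q : ℝ} (hq : 0 < q) (hq1 : q ≤ 1) (v : ℕ) : q ^ 2 ≤ A22 p Q ex τ q v := by
  unfold A22
  split_ifs
  · nlinarith
  · exact le_rfl
  · nlinarith

private theorem A22_le {q : ℝ} (hq : 0 < q) (hq1 : q ≤ 1) (v : ℕ) : A22 p Q ex τ q v ≤ 1 := by
  unfold A22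
  split_ifs
  · exact le_rfl
  · nlinarith
  · exact hq1

private theorem A22_le' {q : ℝ} (hq : 0 < q) (hq1 : q ≤ 1) (v : ℕ) (hv : v ≠ τ) :
    A22 p Q ex τ q v ≤ q := by
  unfold A22
  rw [if_neg hv]
  split_ifs
  · nlinarith
  · exact le_rfl

private theorem B22_ge {q : ℝ} (hq : 0 < q) (hq1 : q ≤ 1) (v : ℕ) : q⁻¹ ≤ B22 p Q ex τ q v := by
  unfold B22
  split_ifs
  · exact inv_anti₀ (by positivity) (by nlinarith)
  · exact le_rfl

private theorem B22_le {q : ℝ} (hq : 0 < q) (hq1 : q ≤ 1) (v : ℕ) : B22 p Q ex τ q v ≤ (q ^ 2)⁻¹ := by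
  unfold B22
  split_ifs
  · exact le_rfl
  · exact inv_anti₀ (by positivity) (by nlinarith)

private theorem Dl_nn22 (hk : Kr n P w X S e ξ t1 κ N k π) (s : ℕ) : 0 ≤ Dl X k π s := by
  unfold Dl
  refine sum_nonneg fun x _ => sum_nonneg fun y _ => ?_
  split_ifs
  · exact mul_nonneg (hk.pnn x) (hk.knn x y)
  · exact le_rfl

private theorem Pr_or22 (L : FL) (hn : ∀ ω, 0 ≤ L.wt ω) {P' P1 P2 : (ℕ → ℕ) → Prop}
    (h : ∀ ω, L.wt ω ≠ 0 → P' (L.Φ ω) → P1 (L.Φ ω) ∨ P2 (L.Φ ω)) : L.Pr P' ≤ L.Pr P1 + L.Pr P2 := by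
  unfold FL.Pr
  rw [← FL.Ex_add38]
  refine L.Ex_mono38 hn fun ω hω => ?_
  by_cases h0 : P' (L.Φ ω)
  · rw [if_pos h0]
    rcases h ω hω h0 with h1 | h1
    · rw [if_pos h1]
      split_ifs <;> norm_num
    · rw [if_pos h1]
      split_ifs <;> norm_num
  · rw [if_neg h0]
    split_ifs <;> norm_num

private theorem Pr_zero22 (L : FL) (hn : ∀ ω, 0 ≤ L.wt ω) {P' : (ℕ → ℕ) → Prop}
    (h : ∀ ω, L.wt ω ≠ 0 → ¬ P' (L.Φ ω)) : L.Pr P' = 0 := by
  refine le_antisymm ?_ (L.Pr_nonneg38 hn _)
  have h1 : L.Pr P' ≤ L.Ex (fun _ => 0) := by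
    unfold FL.Pr
    refine L.Ex_mono38 hn fun ω hω => ?_
    rw [if_neg (h ω hω)]
  refine h1.trans (le_of_eq ?_)
  simp [FL.Ex]

end fin22

theorem base_lawG {n P w : ℕ} {X S : Finset ℕ} {e ξ t1 κ N : ℝ} {k : ℕ → ℕ → ℝ} {π : ℕ → ℝ}
    (hk : Kr n P w X S e ξ t1 κ N k π) (hX : X ⊆ range (n + 1)) (hn : 0 < n) (hw : 0 < w)
    (ht0 : 0 < t1) (ht : t1 ≤ 1 / 1000) (hpi : ∀ x, π x ≤ 11 / 10 * κ)
    (p lab : ℕ → ℕ) (R Q ex : Finset ℕ) (τ : ℕ) (hG : Geo p R Q ex τ)
    (hc : Ctr n (lab (p τ))) (hex : ∀ r ∈ ex, Ctr n (lab r)) :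
    ∃ L : FL, BLaw n P w p lab R X S Q ex τ t1 κ k π L := by
  obtain ⟨q, hqd⟩ : ∃ q : ℝ, q = 1 - t1 := ⟨_, rfl⟩
  have hq : 0 < q := by rw [hqd]; linarith
  have hq1 : q ≤ 1 := by rw [hqd]; linarith
  have hGE : ∀ v, ¬ Exc p ex τ v → ∀ x, G22 p lab S ex τ v x := by
    intro v hv x
    refine ⟨fun h => absurd (Or.inl h) hv, fun r hr h => absurd (Or.inr ⟨r, hr, h⟩) hv⟩
  have hBB : ∀ a ∈ Q, a ≠ τ → B22 p Q ex τ q (p a) ≤ B22 p Q ex τ q a ∧
      (Exc p ex τ a → B22 p Q ex τ q (p a) ≤ B22 p Q ex τ q a * (1 - t1)) := by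
    intro a ha haτ
    constructor
    · by_cases h : D22 p Q ex τ (p a)
      · unfold B22
        rw [if_pos h, if_pos (D22_of a ha haτ h)]
      · have h1 := B22_ge (p := p) (Q := Q) (ex := ex) (τ := τ) hq hq1 a
        have h2 : B22 p Q ex τ q (p a) = q⁻¹ := if_neg h
        rw [h2]
        exact h1
    · intro hE
      rcases hE with h | ⟨r, hr, hra⟩
      · exact absurd h haτ
      · have h2 : B22 p Q ex τ q (p a) = q⁻¹ := if_neg (D22_not hG a ha r hr hra)
        have h3 : B22 p Q ex τ q a = (q ^ 2)⁻¹ := if_pos ⟨r, hr, 0, by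
          rw [Function.iterate_zero_apply, hra]⟩
        rw [h2, h3, ← hqd]
        refine le_of_eq ?_
        field_simp
  have hAA : ∀ a ∈ Q, a ≠ τ → A22 p Q ex τ q a ≤ A22 p Q ex τ q (p a) ∧
      (Exc p ex τ (p a) → A22 p Q ex τ q a ≤ A22 p Q ex τ q (p a) * (1 - t1)) := by
    intro a ha haτ
    have hle := A22_le' (p := p) (Q := Q) (ex := ex) hq hq1 a haτ
    by_cases hpτ : p a = τ
    · have h1 : A22 p Q ex τ q (p a) = 1 := if_pos hpτ
      rw [h1, one_mul, ← hqd]
      exact ⟨hle.trans hq1, fun _ => hle⟩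
    · constructor
      · by_cases h : D22 p Q ex τ (p a) ∧ ¬ Exc p ex τ (p a)
        · have hE : ¬ Exc p ex τ a := by
            rintro (h1 | ⟨r, hr, hra⟩)
            · exact haτ h1
            · exact D22_not hG a ha r hr hra h.1
          have h1 : A22 p Q ex τ q a = q ^ 2 := by
            unfold A22
            rw [if_neg haτ, if_pos ⟨D22_of a ha haτ h.1, hE⟩]
          rw [h1]
          exact A22_ge hq hq1 _
        · have h1 : A22 p Q ex τ q (p a) = q := by
            unfold A22
            rw [if_neg hpτ, if_neg h]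
          rw [h1]
          exact hle
      · intro hE
        have h1 : A22 p Q ex τ q (p a) = q := by
          unfold A22
          rw [if_neg hpτ, if_neg (fun h => h.2 hE)]
        rcases hE with h | ⟨r, hr, hra⟩
        · exact absurd h hpτ
        · have hE2 : ¬ Exc p ex τ a := by
            rintro (h2 | ⟨r', hr', hra'⟩)
            · exact haτ h2
            · have h3 : r' = r := card_le_one.1 hG.ex1 r' hr' r hr
              have h4 := hG.lt a ha
              rw [h3, hra] at hra'
              omega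
          have hD : D22 p Q ex τ a := by
            refine ⟨r, hr, 1, ?_⟩
            have h2 : p22 p Q τ a = p a := if_pos ⟨ha, haτ⟩
            rw [Function.iterate_one, h2, hra]
          have h2 : A22 p Q ex τ q a = q ^ 2 := by
            unfold A22
            rw [if_neg haτ, if_pos ⟨hD, hE2⟩]
          rw [h1, h2, ← hqd]
          exact le_of_eq (pow_two q)
  obtain ⟨L, hL⟩ := ind22 (G := G22 p lab S ex τ) (E := Exc p ex τ) (A := A22 p Q ex τ q)
    (B := B22 p Q ex τ q) hk hw ht0 ht p lab R Q (Gc22 hG hc hex) hGE (Or.inl rfl)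
    (fun v => le_trans (by positivity) (A22_ge hq hq1 v))
    (fun v => le_trans (by positivity) (B22_ge hq hq1 v))
    (A22_le hq hq1 τ)
    (by
      rw [← hqd]
      have h1 := mul_le_mul_of_nonneg_right (B22_ge (p := p) (Q := Q) (ex := ex) (τ := τ) hq hq1 τ) hq.le
      rw [inv_mul_cancel₀ hq.ne'] at h1
      exact h1)
    hBB hAA Q (Subset.refl Q) hG.PR (fun v hv => ⟨hG.lt v hv, hG.st v hv⟩)
  have hXC : XC n P X ⊆ X := filter_subset _ _
  have hn0 : (0 : ℝ) < n := by exact_mod_cast hn
  have hκ := hk.kpos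
  have hB2 : (q ^ 2)⁻¹ ≤ 1 + 8 * t1 := by
    rw [inv_le_comm₀ (by positivity) (by positivity), inv_le_iff_one_le_mul₀ (by positivity), hqd]
    nlinarith [mul_pos ht0 ht0, mul_pos (mul_pos ht0 ht0) ht0]
  have hB3 : (q ^ 2)⁻¹ / q ≤ 1 + 8 * t1 := by
    rw [div_le_iff₀ hq, inv_le_iff_one_le_mul₀ (by positivity), hqd]
    nlinarith [mul_pos ht0 ht0, mul_pos (mul_pos ht0 ht0) ht0]
  have hA2 : 1 - 2 * t1 ≤ q ^ 2 := by
    rw [hqd]
    nlinarith
  have hup : ∀ v ∈ Q, ∀ x, L.Pr (fun φ => φ v = x) ≤ (1 + 8 * t1) * π x := by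
    intro v hv x
    refine (hL.up v hv x).trans (mul_le_mul_of_nonneg_right ?_ (hk.pnn x))
    exact (B22_le hq hq1 v).trans hB2
  have hpart : ∀ (D : ℕ → Prop) [DecidablePred D], 28 / 100 ≤ ∑ x ∈ X.filter D, π x →
      ∀ v ∈ Q, 27 / 100 ≤ L.Pr (fun φ => D (φ v)) := by
    intro D _ hD v hv
    obtain ⟨c, hcc, hcG⟩ := Gc22 (S := S) (n := n) hG hc hex v
    have h1 : L.Pr (fun φ => D (φ v)) = ∑ x ∈ X, L.Pr (fun φ => φ v = x) *
        (@ite ℝ (D x) (Classical.propDecidable _) 1 0) := by
      have := L.Ex_label38 (X := X) (w := v) (fun ω hω => hXC (hL.lbl ω hω v hv))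
        (fun x => @ite ℝ (D x) (Classical.propDecidable _) 1 0)
      exact this
    rw [h1]
    have h2 : ∀ x ∈ X, q ^ 2 * ((if D x then π x else 0) - (if ad c x ∉ S then π x else 0)) ≤
        L.Pr (fun φ => φ v = x) * (@ite ℝ (D x) (Classical.propDecidable _) 1 0) := by
      intro x _
      have h3 : 0 ≤ L.Pr (fun φ => φ v = x) := L.Pr_nonneg38 hL.nn _
      have h4 := hk.pnn x
      by_cases hDx : D x
      · rw [if_pos hDx, if_pos hDx, mul_one]
        by_cases hcx : ad c x ∉ S
        · rw [if_pos hcx, sub_self, mul_zero]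
          exact h3
        · rw [if_neg hcx, sub_zero]
          have hGx : G22 p lab S ex τ v x := by
            by_contra hcon
            exact hcx (hcG x hcon)
          refine le_trans ?_ (hL.lo v hv x hGx)
          exact mul_le_mul_of_nonneg_right (A22_ge hq hq1 v) h4
      · rw [if_neg hDx, if_neg hDx, mul_zero, zero_sub]
        have h5 : 0 ≤ (if ad c x ∉ S then π x else 0) := by
          split_ifs <;> first | exact h4 | exact le_rfl
        have : 0 ≤ q ^ 2 := by positivity
        nlinarith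
    refine le_trans ?_ (sum_le_sum h2)
    rw [← mul_sum, sum_sub_distrib, ← sum_filter, ← sum_filter]
    have h6 := hk.clZ c hcc
    have h7 : 28 / 100 - t1 ≤ ∑ x ∈ X.filter D, π x - ∑ x ∈ X.filter (fun x => ad c x ∉ S), π x := by
      linarith
    calc (27 : ℝ) / 100 ≤ q ^ 2 * (28 / 100 - t1) := by nlinarith
      _ ≤ _ := mul_le_mul_of_nonneg_left h7 (by positivity)
  have htop : ∀ v ∈ Q, ∀ c s : ℕ, L.Pr (fun φ => ad c (φ v) = s) ≤ 5 * κ := by
    intro v hv c s
    refine (Pr_or22 L hL.nn (P1 := fun φ => φ v = c + s) (P2 := fun φ => φ v = c - s)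
      fun ω _ h => ?_).trans ?_
    · unfold ad at h
      omega
    · have h1 := hup v hv (c + s)
      have h2 := hup v hv (c - s)
      have h3 := hpi (c + s)
      have h4 := hpi (c - s)
      have h5 := hk.pnn (c + s)
      have h6 := hk.pnn (c - s)
      nlinarith
  refine ⟨L, ⟨⟨hL.nn, hL.one, hL.onR, fun ω hω v hv => hXC (hL.lbl ω hω v hv), ?_, ?_⟩, hL.lbl, hup,
    ?_, ?_, ?_, ?_, ?_, hpart (fun x => 10 * x ≤ 3 * n) hk.low, hpart (fun x => 7 * n ≤ 10 * x) hk.high⟩⟩
  · intro ω hω i hi
    rcases mem_union.mp hi with h | h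
    · by_cases hiτ : i = τ
      · rw [hiτ, hL.onR ω _ hG.tR, ad_comm]
        exact (hL.gd ω hω τ hG.tP).1 rfl
      · exact hL.df ω hω i h hiτ
    · rw [hL.onR ω i (hG.exR h)]
      exact (hL.gd ω hω (p i) (hG.exP i h).1).2 i h rfl
  · intro A hA x
    have h1 : (50 * (n : ℝ) / w) / n = 50 / w := by
      field_simp
    rw [h1]
    exact hL.joint A hA x
  · intro v hv hE x
    refine le_trans ?_ (hL.lo v hv x (hGE v hE x))
    refine mul_le_mul_of_nonneg_right ?_ (hk.pnn x)
    have := A22_ge (p := p) (Q := Q) (ex := ex) (τ := τ) hq hq1 v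
    linarith
  · intro i hi hiτ s
    refine (hL.eUp i hi hiτ s).trans (mul_le_mul_of_nonneg_right ?_ (Dl_nn22 hk s))
    rw [← hqd]
    exact (div_le_div_of_nonneg_right (B22_le hq hq1 (p i)) hq.le).trans hB3
  · intro i hi hE s
    refine le_trans ?_ (hL.eLo i hi hE s)
    have h1 := A22_ge (p := p) (Q := Q) (ex := ex) (τ := τ) hq hq1 (p i)
    have h2 := A22_le (p := p) (Q := Q) (ex := ex) (τ := τ) hq hq1 (p i)
    have h3 := Dl_nn22 hk s
    have h4 : 0 ≤ t1 * κ := by positivity
    have h5 := mul_le_mul_of_nonneg_right (hA2.trans h1) h3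
    have h6 := mul_le_mul_of_nonneg_right h2 h4
    have h7 : 0 ≤ t1 * Dl X k π s := by positivity
    nlinarith
  · intro i hi s
    rcases mem_insert.mp hi with h | h
    · rw [h]
      refine le_trans (L.Pr_mono38 hL.nn (Q := fun φ => ad (lab (p τ)) (φ τ) = s) fun ω _ h1 => ?_)
        (htop τ hG.tP _ s)
      rw [hL.onR ω _ hG.tR, ad_comm] at h1
      exact h1
    · refine le_trans (L.Pr_mono38 hL.nn (Q := fun φ => ad (lab i) (φ (p i)) = s) fun ω _ h1 => ?_)
        (htop (p i) (hG.exP i h).1 _ s)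
      rw [hL.onR ω _ (hG.exR h)] at h1
      exact h1
  · intro i hi s hs
    have hkey : ∀ c x, Ctr n c → x ∈ XC n P X → ad c x = s → False := by
      intro c x hcc hx hcx
      have h1 := mem_range.1 (hX (hXC hx))
      obtain ⟨h2, h3⟩ := hcc
      unfold ad at hcx
      omega
    refine Pr_zero22 L hL.nn fun ω hω h1 => ?_
    rcases mem_insert.mp hi with h | h
    · rw [h, hL.onR ω _ hG.tR, ad_comm] at h1
      exact hkey _ _ hc (hL.lbl ω hω τ hG.tP) h1
    · rw [hL.onR ω _ (hG.exR h)] at h1
      exact hkey _ _ (hex i h) (hL.lbl ω hω (p i) (hG.exP i h).1) h1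

end Pool.Agent.GRC
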