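import Mathlib

/-!
# GRC-BLK: the blocks of the ramp stars (definitions, existence, total mass)

Blocks `[β j, β (j+1))` of the values `s' = n - s`, `j < J`, from `P` to `⌈0.69 n⌉`.

`blk_exists`: put `g x = x + x/1000` (floor), iterate from `P` while `g (β j) + β j/1500 < E := (69n+99)/100`...: e.g. recursion: if `1002 β ≥ 1000 E` and `3000 (E - β) ≥ β` stop with `E`; choose the step so that
the last gap is between `β/3000` and `β/500`: take steps `⌊β/1000⌋` as long as `E - β > β/500`; when `E - β ≤ 2β/1000` for the first time, the previous step guarantees `E - β ≥ β/1001 - 1 ≥ β/3000`.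
`sg_sum`: `√(44P/s) ≤ √(44P) · 2 (√s - √(s-1))`, telescoping: `∑_{s=51P}^{E-1} ≤ 2 √(44 P) √E`, `2 √(44 · 0.69) = 11.02`, and `50 P ≤ 0.01 √(Pn)` by `100000000 * P ≤ n`.
-/

set_option autoImplicit false

namespace Pool.Agent.GRC

open Finset

structure Blk (n P J : ℕ) (β : ℕ → ℕ) : Prop where
  b0 : β 0 = P
  bJ : β J = (69 * n + 99) / 100
  mono : ∀ j < J, β j < β (j + 1)
  up : ∀ j < J, 1000 * β (j + 1) ≤ 1002 * β j
  gap : ∀ j < J, β j ≤ 3000 * (β (j + 1) - β j)

/-- share of the leaves with high labels (centre low) -/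
noncomputable def pH (P b : ℕ) : ℝ :=
  if 100 * b < 105 * P then 1 else if b < 10 * P then 55 / 100 else if b < 23 * P then 45 / 100 else 1 / 2

/-- zone of the low centres -/
def ZL (P b : ℕ) : Finset ℕ :=
  if b < 20 * P then Icc (7 * P / 100 + 1) (20 * P / 100) else Icc (52 * b / 1000 + 1) (b / 10)

/-- zone of the high centres (high coordinates) -/
def ZH (P b : ℕ) : Finset ℕ :=
  if b < 5 * P then Icc (20 * P / 1000 + 1) (58 * P / 1000) else Icc (52 * b / 1000 + 1) (b / 10)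

/-- upper profile of the star differences -/
noncomputable def sg2 (P s : ℕ) : ℝ := if s < 51 * P then 1 else Real.sqrt (44 * P / s)

theorem sg2_anti {P s s' : ℕ} (hP : 0 < P) (h : s ≤ s') : sg2 P s' ≤ sg2 P s := by
  have hPr : (0 : ℝ) < P := by exact_mod_cast hP
  unfold sg2
  by_cases h1 : s' < 51 * P
  · rw [if_pos h1, if_pos (lt_of_le_of_lt h h1)]
  · rw [if_neg h1]
    push Not at h1
    have h1r : (51 : ℝ) * P ≤ s' := by exact_mod_cast h1
    have hs' : (0 : ℝ) < s' := by nlinarith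
    by_cases h2 : s < 51 * P
    · rw [if_pos h2, Real.sqrt_le_one]
      rw [div_le_one hs']
      linarith
    · rw [if_neg h2]
      push Not at h2
      have h2r : (51 : ℝ) * P ≤ s := by exact_mod_cast h2
      have hs : (0 : ℝ) < s := by nlinarith
      have hr : (s : ℝ) ≤ s' := by exact_mod_cast h
      apply Real.sqrt_le_sqrt
      exact div_le_div_of_nonneg_left (by positivity) hs hr

private def h15cons (b : ℕ) (β : ℕ → ℕ) : ℕ → ℕ
  | 0 => b
  | k + 1 => β k

private theorem h15_blk (E : ℕ) : ∀ m b : ℕ, E - b ≤ m → 10 ^ 6 ≤ b → b ≤ E →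
    (b = E ∨ b ≤ 3000 * (E - b)) → ∃ (J : ℕ) (β : ℕ → ℕ), β 0 = b ∧ β J = E ∧
      (∀ j < J, β j < β (j + 1)) ∧ (∀ j < J, 1000 * β (j + 1) ≤ 1002 * β j) ∧
      (∀ j < J, β j ≤ 3000 * (β (j + 1) - β j)) := by
  intro m
  induction m with
  | zero =>
    intro b hm hb hbE _
    have : b = E := by omega
    exact ⟨0, fun _ => b, rfl, this, fun j hj => absurd hj (Nat.not_lt_zero _),
      fun j hj => absurd hj (Nat.not_lt_zero _), fun j hj => absurd hj (Nat.not_lt_zero _)⟩
  | succ m ih =>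
    intro b hm hb hbE hor
    by_cases hEq : b = E
    · exact ⟨0, fun _ => b, rfl, hEq, fun j hj => absurd hj (Nat.not_lt_zero _),
        fun j hj => absurd hj (Nat.not_lt_zero _), fun j hj => absurd hj (Nat.not_lt_zero _)⟩
    have hgap : b ≤ 3000 * (E - b) := by
      rcases hor with h | h
      · exact absurd h hEq
      · exact h
    by_cases hend : 1000 * E ≤ 1002 * b
    · refine ⟨1, fun j => if j = 0 then b else E, by simp, by simp, ?_, ?_, ?_⟩
      · intro j hj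
        have : j = 0 := by omega
        subst this
        simp; omega
      · intro j hj
        have : j = 0 := by omega
        subst this
        simpa using hend
      · intro j hj
        have : j = 0 := by omega
        subst this
        simpa using hgap
    · push Not at hend
      obtain ⟨J, β, h0, hJ, hmo, hup, hga⟩ := ih (b + b / 1000) (by omega) (by omega) (by omega)
        (Or.inr (by omega))
      refine ⟨J + 1, h15cons b β, rfl, hJ, ?_, ?_, ?_⟩
      · intro j hj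
        rcases j with _ | j
        · show b < β 0
          rw [h0]; omega
        · exact hmo j (by omega)
      · intro j hj
        rcases j with _ | j
        · show 1000 * β 0 ≤ 1002 * b
          rw [h0]; omega
        · exact hup j (by omega)
      · intro j hj
        rcases j with _ | j
        · show b ≤ 3000 * (β 0 - b)
          rw [h0]; omega
        · exact hga j (by omega)

theorem blk_exists {n P : ℕ} (hP : 10 ^ 6 ≤ P) (hn : 100 * P ≤ n) : ∃ (J : ℕ) (β : ℕ → ℕ), Blk n P J β := by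
  obtain ⟨J, β, h0, hJ, hmo, hup, hga⟩ := h15_blk ((69 * n + 99) / 100) _ P le_rfl hP (by omega)
    (Or.inr (by omega))
  exact ⟨J, β, ⟨h0, hJ, hmo, hup, hga⟩⟩

private theorem h15_inv_sqrt {s : ℕ} (hs : 1 ≤ s) :
    1 / Real.sqrt s ≤ 2 * (Real.sqrt s - Real.sqrt ((s - 1 : ℕ) : ℝ)) := by
  have hsr : (1 : ℝ) ≤ s := by exact_mod_cast hs
  have hc : ((s - 1 : ℕ) : ℝ) = (s : ℝ) - 1 := by push_cast [Nat.cast_sub hs]; ring
  rw [hc]
  set a := Real.sqrt s with ha
  set b := Real.sqrt ((s : ℝ) - 1) with hb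
  have ha2 : a ^ 2 = s := Real.sq_sqrt (by linarith)
  have hb2 : b ^ 2 = (s : ℝ) - 1 := Real.sq_sqrt (by linarith)
  have ha0 : 0 < a := Real.sqrt_pos.mpr (by linarith)
  have hb0 : 0 ≤ b := Real.sqrt_nonneg _
  have hba : b ≤ a := Real.sqrt_le_sqrt (by linarith)
  rw [div_le_iff₀ ha0]
  nlinarith [sq_nonneg (a - b)]

private theorem h15_tele (A : ℕ) (hA : 1 ≤ A) : ∀ B : ℕ, A ≤ B →
    ∑ s ∈ Ico A B, 1 / Real.sqrt s ≤ 2 * (Real.sqrt ((B - 1 : ℕ) : ℝ)
      - Real.sqrt ((A - 1 : ℕ) : ℝ)) := by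
  intro B hB
  induction B, hB using Nat.le_induction with
  | base => simp
  | succ B hB ih =>
    rw [Finset.sum_Ico_succ_top hB]
    have h := h15_inv_sqrt (le_trans hA hB)
    have h2 : B + 1 - 1 = B := by omega
    rw [h2]
    linarith

theorem sg_sum {n P : ℕ} (hP : 10 ^ 6 ≤ P) (hn : 10 ^ 8 * P ≤ n) :
    ∑ s ∈ Ico P ((69 * n + 99) / 100), sg2 P s ≤ 111 / 10 * Real.sqrt (P * n) := by
  set E := (69 * n + 99) / 100 with hE
  have hE51 : 51 * P ≤ E := by omega
  have hPr : (10 : ℝ) ^ 6 ≤ P := by exact_mod_cast hP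
  have hnr : (10 : ℝ) ^ 8 * P ≤ n := by exact_mod_cast hn
  have hP0 : (0 : ℝ) < P := by linarith [show (0 : ℝ) < 10 ^ 6 by norm_num]
  have hn0 : (0 : ℝ) < n := by nlinarith
  have hEr : 100 * (E : ℝ) ≤ 69 * n + 99 := by
    have : 100 * E ≤ 69 * n + 99 := by omega
    exact_mod_cast this
  rw [← Finset.sum_Ico_consecutive _ (by omega : P ≤ 51 * P) hE51]
  have h1 : ∑ s ∈ Ico P (51 * P), sg2 P s = 50 * P := by
    rw [Finset.sum_congr rfl (g := fun _ => (1 : ℝ))]
    · simp only [Finset.sum_const, Nat.card_Ico, nsmul_eq_mul, mul_one]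
      rw [Nat.cast_sub (by omega)]
      push_cast; ring
    · intro s hs
      rw [Finset.mem_Ico] at hs
      simp [sg2, hs.2]
  have h2 : ∑ s ∈ Ico (51 * P) E, sg2 P s =
      Real.sqrt (44 * P) * ∑ s ∈ Ico (51 * P) E, 1 / Real.sqrt s := by
    rw [Finset.mul_sum]
    apply Finset.sum_congr rfl
    intro s hs
    rw [Finset.mem_Ico] at hs
    unfold sg2
    rw [if_neg (by omega), Real.sqrt_div (by positivity)]
    ring
  have h3 := h15_tele (51 * P) (by omega) E hE51
  have h4 : Real.sqrt ((E - 1 : ℕ) : ℝ) ≤ Real.sqrt E :=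
    Real.sqrt_le_sqrt (by exact_mod_cast Nat.sub_le E 1)
  have h5 : 0 ≤ Real.sqrt ((51 * P - 1 : ℕ) : ℝ) := Real.sqrt_nonneg _
  have h6 : ∑ s ∈ Ico (51 * P) E, 1 / Real.sqrt s ≤ 2 * Real.sqrt E := by linarith
  have h7 : Real.sqrt (44 * P) * (2 * Real.sqrt E) ≤ 1105 / 100 * Real.sqrt (P * n) := by
    have e1 : Real.sqrt (44 * P) * (2 * Real.sqrt E) = Real.sqrt (44 * P * (4 * E)) := by
      have e0 : Real.sqrt (4 * (E : ℝ)) = 2 * Real.sqrt E := by
        rw [show (4 : ℝ) * E = 2 ^ 2 * E by ring, Real.sqrt_mul (by positivity : (0 : ℝ) ≤ 2 ^ 2) (E : ℝ),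
          Real.sqrt_sq (by norm_num)]
      rw [Real.sqrt_mul (by positivity : (0 : ℝ) ≤ 44 * P) (4 * (E : ℝ)), e0]
    have e2 : 1105 / 100 * Real.sqrt (P * n) = Real.sqrt ((1105 / 100) ^ 2 * (P * n)) := by
      rw [Real.sqrt_mul (by positivity : (0 : ℝ) ≤ (1105 / 100) ^ 2) ((P : ℝ) * n),
        Real.sqrt_sq (by norm_num)]
    rw [e1, e2]
    apply Real.sqrt_le_sqrt
    have e3 : 44 * (4 * (E : ℝ)) ≤ (1105 / 100) ^ 2 * n := by nlinarith
    calc 44 * (P : ℝ) * (4 * E) = P * (44 * (4 * E)) := by ring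
      _ ≤ P * ((1105 / 100) ^ 2 * n) := mul_le_mul_of_nonneg_left e3 hP0.le
      _ = (1105 / 100) ^ 2 * (P * n) := by ring
  have h8 : 50 * (P : ℝ) ≤ 1 / 200 * Real.sqrt (P * n) := by
    have : (10 : ℝ) ^ 4 * P ≤ Real.sqrt (P * n) := by
      apply Real.le_sqrt_of_sq_le
      nlinarith
    nlinarith
  rw [h1, h2]
  have h9 : Real.sqrt (44 * P) * ∑ s ∈ Ico (51 * P) E, 1 / Real.sqrt s ≤
      Real.sqrt (44 * P) * (2 * Real.sqrt E) :=
    mul_le_mul_of_nonneg_left h6 (Real.sqrt_nonneg _)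
  have h10 : 0 ≤ Real.sqrt ((P : ℝ) * n) := Real.sqrt_nonneg _
  linarith

/-- `|ZL|`, `|ZH|` and their position -/
theorem ZL_card {P b : ℕ} (hP : 10 ^ 6 ≤ P) (hb : P ≤ b) :
    13 / 100 * (P : ℝ) - 1 ≤ (ZL P b).card ∧ (20 * P ≤ b → 48 / 1000 * (b : ℝ) - 1 ≤ (ZL P b).card) := by
  have hbr : (P : ℝ) ≤ b := by exact_mod_cast hb
  have hP0 : (0 : ℝ) ≤ P := by positivity
  unfold ZL
  by_cases h : b < 20 * P
  · rw [if_pos h, Nat.card_Icc]
    constructor
    · have h1 : 13 * P ≤ 100 * (20 * P / 100 + 1 - (7 * P / 100 + 1)) + 100 := by omega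
      have h2 : 13 * (P : ℝ) ≤ 100 * ((20 * P / 100 + 1 - (7 * P / 100 + 1) : ℕ) : ℝ) + 100 := by
        exact_mod_cast h1
      linarith
    · intro h3; omega
  · rw [if_neg h, Nat.card_Icc]
    push Not at h
    have h0 : 20 * (P : ℝ) ≤ b := by exact_mod_cast h
    have h1 : 48 * b ≤ 1000 * (b / 10 + 1 - (52 * b / 1000 + 1)) + 1000 := by omega
    have h2 : 48 * (b : ℝ) ≤ 1000 * ((b / 10 + 1 - (52 * b / 1000 + 1) : ℕ) : ℝ) + 1000 := by
      exact_mod_cast h1
    constructor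
    · nlinarith
    · intro _; linarith

theorem ZH_card {P b : ℕ} (hP : 10 ^ 6 ≤ P) (hb : P ≤ b) :
    38 / 1000 * (P : ℝ) - 1 ≤ (ZH P b).card ∧ (5 * P ≤ b → 48 / 1000 * (b : ℝ) - 1 ≤ (ZH P b).card) := by
  have hbr : (P : ℝ) ≤ b := by exact_mod_cast hb
  have hP0 : (0 : ℝ) ≤ P := by positivity
  unfold ZH
  by_cases h : b < 5 * P
  · rw [if_pos h, Nat.card_Icc]
    constructor
    · have h1 : 38 * P ≤ 1000 * (58 * P / 1000 + 1 - (20 * P / 1000 + 1)) + 1000 := by omega
      have h2 : 38 * (P : ℝ) ≤ 1000 * ((58 * P / 1000 + 1 - (20 * P / 1000 + 1) : ℕ) : ℝ) + 1000 := by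
        exact_mod_cast h1
      linarith
    · intro h3; omega
  · rw [if_neg h, Nat.card_Icc]
    push Not at h
    have h0 : 5 * (P : ℝ) ≤ b := by exact_mod_cast h
    have h1 : 48 * b ≤ 1000 * (b / 10 + 1 - (52 * b / 1000 + 1)) + 1000 := by omega
    have h2 : 48 * (b : ℝ) ≤ 1000 * ((b / 10 + 1 - (52 * b / 1000 + 1) : ℕ) : ℝ) + 1000 := by
      exact_mod_cast h1
    constructor
    · nlinarith
    · intro _; linarith

end Pool.Agent.GRC
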