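import Pool.Agent.Helper28.GRC.Defs
import Pool.Agent.Helper73.SEM.CD

/-!
# GRC-CDG: cover-down (differences)

Model: Helper73/SEM/CD.lean.

`embed_leftG`: greedy in increasing order of the vertices, as `SEM.embed_left`; a used difference excludes at most two labels for the edge to the parent and at most two for the exit edge.

`cover2`: reserved paths `v ∈ Ve` (middle vertex with label `β v`, end vertex free) and `u ∈ Vin` (attached at a vertex with label `cc u`, both vertices free).  Greedy: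
(1) for `s ∈ JSe` choose an unused `v ∈ Ve` with `β v + s ∈ FX ∪ FXe` unused, `ze v = β v + s` (`β` injective, so every used label excludes at most one `v`);
(2) for every `x ∈ JX ∪ FXe` not used in (1): an unused `u ∈ Vin`, `z u = x`, `y u ∈ FX` with `ad (cc u) y ∈ FS`, `ad y x ∈ FS` (`h4` with `a = x`), unused, and `ad (cc u) y ≠ ad y x` (excludes at most one `y`, as `cc u ≠ x`);
(3) for `s ∈ JSi`: an unused `u ∈ Vin`, `y u = y`, `z u = y + s` by `h5` (`ad (cc u) y ∈ FS` is different from `s ∉ FS`);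
(4) the remaining `v ∈ Ve`: `ze v ∈ FX`, `ad (β v) (ze v) ∈ FS` by `h3`; the remaining `u ∈ Vin`: `y u ∈ FX` with `ad (cc u) (y u) ∈ FS` (`h4`), then `z u ∈ FX` with `ad (y u) (z u) ∈ FS` (`h4` with `a = y u`).
At every step at most `|Ve| + 2 |Vin|` labels and as many differences are used; one used difference excludes at most two labels for one edge.
-/

set_option autoImplicit false

namespace Pool.Agent.GRC

open Finset Pool.Agent.SEM

/-! ### counting forbidden labels -/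

private theorem adb50 (C B : Finset ℕ) (a : ℕ) : (C.filter fun x => ad a x ∈ B).card ≤ 2 * B.card := by
  have h : (C.filter fun x => ad a x ∈ B) ⊆ B.image (fun b => a + b) ∪ B.image (fun b => a - b) := by
    intro x hx
    obtain ⟨-, hx⟩ := mem_filter.1 hx
    rw [mem_union, mem_image, mem_image]
    rcases le_total a x with h | h
    · left
      refine ⟨ad a x, hx, ?_⟩
      unfold ad; omega
    · right
      refine ⟨ad a x, hx, ?_⟩
      unfold ad; omega
  have h1 := (card_le_card h).trans (card_union_le _ _)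
  have h2 : (B.image (fun b => a + b)).card ≤ B.card := card_image_le
  have h3 : (B.image (fun b => a - b)).card ≤ B.card := card_image_le
  omega

private theorem mid50 (C : Finset ℕ) (a : ℕ) : (C.filter fun x => 2 * x = a).card ≤ 1 := by
  rw [card_le_one]
  intro x hx y hy
  have h1 := (mem_filter.1 hx).2
  have h2 := (mem_filter.1 hy).2
  omega

private theorem pick50 (C A B : Finset ℕ) (a a' : ℕ) (h : A.card + 4 * B.card + 1 < C.card) :
    ∃ x ∈ C, x ∉ A ∧ ad a x ∉ B ∧ ad a' x ∉ B ∧ 2 * x ≠ a + a' := by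
  by_contra hcon
  push Not at hcon
  have h1 : C ⊆ ((A ∪ C.filter fun x => ad a x ∈ B) ∪ C.filter fun x => ad a' x ∈ B) ∪
      C.filter fun x => 2 * x = a + a' := by
    intro c hc
    rw [mem_union, mem_union, mem_union, mem_filter, mem_filter, mem_filter]
    by_cases hA : c ∈ A
    · exact Or.inl (Or.inl (Or.inl hA))
    · by_cases hB : ad a c ∈ B
      · exact Or.inl (Or.inl (Or.inr ⟨hc, hB⟩))
      · by_cases hB' : ad a' c ∈ B
        · exact Or.inl (Or.inr ⟨hc, hB'⟩)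
        · exact Or.inr ⟨hc, hcon c hc hA hB hB'⟩
  have h2 := (card_le_card h1).trans (card_union_le _ _)
  have h3 := card_union_le (A ∪ C.filter fun x => ad a x ∈ B) (C.filter fun x => ad a' x ∈ B)
  have h4 := card_union_le A (C.filter fun x => ad a x ∈ B)
  have h5 := adb50 C B a
  have h6 := adb50 C B a'
  have h7 := mid50 C (a + a')
  omega

/-- the edges which are complete when the vertices `< k` are labelled -/
private def EE50 (m : ℕ) (p : ℕ → ℕ) (R : Finset ℕ) (top : ℕ → ℕ) (T : Finset ℕ) (k : ℕ) : Finset ℕ :=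
  (EM m p R top T).filter fun i => (i ∉ R ∧ i < k) ∨ (i ∈ R ∧ p i < k)

private theorem aux50 {m K κ : ℕ} {p top lab : ℕ → ℕ} {R Tl FX FS Cn : Finset ℕ} (hp : Par m p)
    (hD : Dec m p K R top) (hlab : ∀ r ∈ R, lab r ∉ FX)
    (hC : ∀ a a' : ℕ, (a ∈ FX ∨ a ∈ Cn) → a' ∈ Cn → κ ≤ (FX.filter fun x => ad a x ∈ FS ∧ ad a' x ∈ FS).card)
    (htop : ∀ v ∈ MV m R top Tl, p v ∈ R → lab (p v) ∈ Cn)
    (hex : ∀ i ∈ EM m p R top Tl, i ∈ R → lab i ∈ Cn) (hCn : Cn.Nonempty)
    (hκ : (MV m R top Tl).card + 4 * (EM m p R top Tl).card < κ) (k : ℕ) :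
    ∃ f : ℕ → ℕ, (∀ r ∈ R, f r = lab r) ∧ (∀ v ∈ (MV m R top Tl).filter (· < k), f v ∈ FX) ∧
      (∀ i ∈ EE50 m p R top Tl k, ad (f i) (f (p i)) ∈ FS) ∧
      Set.InjOn f ((MV m R top Tl).filter (· < k)) ∧
      Set.InjOn (fun i => ad (f i) (f (p i))) (EE50 m p R top Tl k) := by
  classical
  have hpos : ∀ {v}, v ∉ R → 0 < v := fun {v} hv =>
    Nat.pos_of_ne_zero fun h => hv (h ▸ hD.zero)
  induction k with
  | zero =>
    refine ⟨lab, fun r _ => rfl, fun v hv => ?_, fun i hi => ?_, ?_, ?_⟩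
    · exact absurd (mem_filter.1 hv).2 (Nat.not_lt_zero _)
    · rcases (mem_filter.1 hi).2 with h | h
      · exact absurd h.2 (Nat.not_lt_zero _)
      · exact absurd h.2 (Nat.not_lt_zero _)
    · intro v hv
      have hv' : v ∈ (MV m R top Tl).filter (· < 0) := hv
      exact absurd (mem_filter.1 hv').2 (Nat.not_lt_zero _)
    · intro i hi
      have hi' : i ∈ EE50 m p R top Tl 0 := hi
      rcases (mem_filter.1 hi').2 with h | h
      · exact absurd h.2 (Nat.not_lt_zero _)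
      · exact absurd h.2 (Nat.not_lt_zero _)
  | succ k ih =>
    obtain ⟨f, hR, hF, hS, hfi, hsi⟩ := ih
    by_cases hk : k ∈ MV m R top Tl
    · -- the new vertex
      obtain ⟨hkn, hkR, hkT⟩ := mem_filter.1 hk
      have hkn : k < m := mem_range.1 hkn
      have hk0 : 0 < k := hpos hkR
      have hpk : p k < k := hp k hk0 hkn
      have ha : f (p k) ∈ FX ∨ f (p k) ∈ Cn := by
        by_cases hpR : p k ∈ R
        · right
          rw [hR _ hpR]
          exact htop k hk hpR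
        · left
          refine hF _ (mem_filter.2 ⟨mem_filter.2 ⟨mem_range.2 (hpk.trans hkn), hpR, ?_⟩, hpk⟩)
          rw [← hD.top_step k hkn hkR hpR]
          exact hkT
      -- the exit
      have hr : ∃ a' : ℕ, a' ∈ Cn ∧ ∀ r ∈ R, r < m → 0 < r → p r = k → lab r = a' ∧
          f (p k) ≠ a' := by
        by_cases hexi : ∃ r ∈ R, r < m ∧ 0 < r ∧ p r = k
        · obtain ⟨r, hrR, hrm', hr0, hrm⟩ := hexi
          have hrE : r ∈ EM m p R top Tl := by
            refine mem_filter.2 ⟨mem_range.2 hrm', hr0, Or.inr ⟨hrR, ?_, ?_⟩⟩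
            · rw [hrm]; exact hkR
            · rw [hrm]; exact hkT
          refine ⟨lab r, hex r hrE hrR, fun r' hr'R hr'm' hr'0 hr'm => ?_⟩
          have h1 : r' = r := by
            refine hD.exit_unique r' hr'R r hrR hr'0 hr0 ?_ ?_ ?_
            · rw [hr'm]; exact hkR
            · rw [hrm]; exact hkR
            · rw [hr'm, hrm]
          refine ⟨by rw [h1], ?_⟩
          have h2 : p k ∉ R := by
            have h3 := hD.exit_deep r hrR hr0 (by rw [hrm]; exact hkR)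
            rwa [hrm] at h3
          have h4 : f (p k) ∈ FX := by
            refine hF _ (mem_filter.2 ⟨mem_filter.2 ⟨mem_range.2 (hpk.trans hkn), h2, ?_⟩, hpk⟩)
            rw [← hD.top_step k hkn hkR h2]
            exact hkT
          intro h5
          exact hlab r hrR (h5 ▸ h4)
        · obtain ⟨c, hc⟩ := hCn
          refine ⟨c, hc, fun r hrR hrm' hr0 hrm => ?_⟩
          exact absurd ⟨r, hrR, hrm', hr0, hrm⟩ hexi
      obtain ⟨a', ha', hexit⟩ := hr
      have hcard := hC (f (p k)) a' ha ha'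
      have c1 : (((MV m R top Tl).filter (· < k)).image f).card + 1 ≤ (MV m R top Tl).card := by
        have h1 : (((MV m R top Tl).filter (· < k)).image f).card ≤
            ((MV m R top Tl).filter (· < k)).card := card_image_le
        have h2 : ((MV m R top Tl).filter (· < k)).card < (MV m R top Tl).card := by
          refine card_lt_card ⟨filter_subset _ _, fun h => ?_⟩
          exact lt_irrefl k (mem_filter.1 (h hk)).2
        omega
      have c2 : ((EE50 m p R top Tl k).image fun i => ad (f i) (f (p i))).card ≤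
          (EM m p R top Tl).card := card_image_le.trans (card_filter_le _ _)
      obtain ⟨x, hx, hxA, hxB, hxB', hx2⟩ := pick50
        (FX.filter fun x => ad (f (p k)) x ∈ FS ∧ ad a' x ∈ FS)
        (((MV m R top Tl).filter (· < k)).image f)
        ((EE50 m p R top Tl k).image fun i => ad (f i) (f (p i))) (f (p k)) a' (by omega)
      obtain ⟨hxF, hxS, hxS'⟩ := mem_filter.1 hx
      have hne : f (p k) ≠ a' → ad (f (p k)) x ≠ ad a' x := by
        intro h1 h2
        unfold ad at h2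
        omega
      let g := Function.update f k x
      have gm : g k = x := Function.update_self _ _ _
      have gne : ∀ v, v ≠ k → g v = f v := fun v hv => Function.update_of_ne hv _ _
      -- classification of the edges
      have hcl : ∀ i ∈ EE50 m p R top Tl (k + 1),
          (i ∈ EE50 m p R top Tl k ∧ ad (g i) (g (p i)) = ad (f i) (f (p i))) ∨
          (i = k ∧ ad (g i) (g (p i)) = ad (f (p k)) x) ∨
          (i ∈ R ∧ i < m ∧ 0 < i ∧ p i = k ∧ ad (g i) (g (p i)) = ad a' x) := by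
        intro i hi
        obtain ⟨hiE, hi2⟩ := mem_filter.1 hi
        obtain ⟨hin, hi0, hi3⟩ := mem_filter.1 hiE
        have hin : i < m := mem_range.1 hin
        have hpi : p i < i := hp i hi0 hin
        rcases hi2 with ⟨hiR, him⟩ | ⟨hiR, him⟩
        · rcases Nat.lt_succ_iff_lt_or_eq.1 him with him | him
          · left
            refine ⟨mem_filter.2 ⟨hiE, Or.inl ⟨hiR, him⟩⟩, ?_⟩
            rw [gne i (Nat.ne_of_lt him), gne (p i) (Nat.ne_of_lt (hpi.trans him))]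
          · right; left
            subst him
            refine ⟨rfl, ?_⟩
            rw [gm, gne (p i) (Nat.ne_of_lt hpi), ad_comm]
        · have hine : i ≠ k := fun h => hkR (h ▸ hiR)
          rcases Nat.lt_succ_iff_lt_or_eq.1 him with him | him
          · left
            refine ⟨mem_filter.2 ⟨hiE, Or.inr ⟨hiR, him⟩⟩, ?_⟩
            rw [gne i hine, gne (p i) (Nat.ne_of_lt him)]
          · right; right
            refine ⟨hiR, hin, hi0, him, ?_⟩
            rw [him, gm, gne i hine, hR i hiR, (hexit i hiR hin hi0 him).1]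
      have hMV : ∀ v ∈ (MV m R top Tl).filter (· < k + 1),
          v = k ∨ (v ∈ (MV m R top Tl).filter (· < k) ∧ g v = f v) := by
        intro v hv
        obtain ⟨hv1, hv2⟩ := mem_filter.1 hv
        rcases Nat.lt_succ_iff_lt_or_eq.1 hv2 with h | h
        · exact Or.inr ⟨mem_filter.2 ⟨hv1, h⟩, gne v (Nat.ne_of_lt h)⟩
        · exact Or.inl h
      refine ⟨g, fun r hrR => ?_, fun v hv => ?_, fun i hi => ?_, ?_, ?_⟩
      · rw [gne r fun h => hkR (h ▸ hrR)]
        exact hR r hrR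
      · rcases hMV v hv with rfl | ⟨h1, h2⟩
        · rw [gm]; exact hxF
        · rw [h2]; exact hF v h1
      · rcases hcl i hi with ⟨h1, h2⟩ | ⟨h1, h2⟩ | ⟨h1, h1', h2, h3, h4⟩
        · rw [h2]; exact hS i h1
        · rw [h2]; exact hxS
        · rw [h4]; exact hxS'
      · intro v hv w hw hvw
        rcases hMV v hv with rfl | ⟨h1, h2⟩
        · rcases hMV w hw with rfl | ⟨h3, h4⟩
          · rfl
          · rw [gm, h4] at hvw
            exact absurd (mem_image.2 ⟨w, h3, hvw.symm⟩) hxA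
        · rcases hMV w hw with rfl | ⟨h3, h4⟩
          · rw [gm, h2] at hvw
            exact absurd (mem_image.2 ⟨v, h1, hvw⟩) hxA
          · rw [h2, h4] at hvw
            exact hfi h1 h3 hvw
      · intro i hi j hj hij
        change ad (g i) (g (p i)) = ad (g j) (g (p j)) at hij
        rcases hcl i hi with ⟨h1, h2⟩ | ⟨h1, h2⟩ | ⟨h1, h1', h2, h3, h4⟩
        · rcases hcl j hj with ⟨k1, k2⟩ | ⟨k1, k2⟩ | ⟨k1, k1', k2, k3, k4⟩
          · rw [h2, k2] at hij
            exact hsi h1 k1 hij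
          · rw [h2, k2] at hij
            exact absurd (mem_image.2 ⟨i, h1, hij⟩) hxB
          · rw [h2, k4] at hij
            exact absurd (mem_image.2 ⟨i, h1, hij⟩) hxB'
        · rcases hcl j hj with ⟨k1, k2⟩ | ⟨k1, k2⟩ | ⟨k1, k1', k2, k3, k4⟩
          · rw [h2, k2] at hij
            exact absurd (mem_image.2 ⟨j, k1, hij.symm⟩) hxB
          · rw [h1, k1]
          · rw [h2, k4] at hij
            exact absurd hij (hne (hexit j k1 k1' k2 k3).2)
        · rcases hcl j hj with ⟨k1, k2⟩ | ⟨k1, k2⟩ | ⟨k1, k1', k2, k3, k4⟩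
          · rw [h4, k2] at hij
            exact absurd (mem_image.2 ⟨j, k1, hij.symm⟩) hxB'
          · rw [h4, k2] at hij
            exact absurd hij.symm (hne (hexit i h1 h1' h2 h3).2)
          · refine hD.exit_unique i h1 j k1 h2 k2 ?_ ?_ ?_
            · rw [h3]; exact hkR
            · rw [k3]; exact hkR
            · rw [h3, k3]
    · -- nothing new
      have h1 : (MV m R top Tl).filter (· < k + 1) = (MV m R top Tl).filter (· < k) := by
        refine filter_congr fun v hv => ?_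
        rw [Nat.lt_succ_iff_lt_or_eq]
        constructor
        · rintro (h | h)
          · exact h
          · exact absurd (h ▸ hv) hk
        · exact Or.inl
      have h2 : EE50 m p R top Tl (k + 1) = EE50 m p R top Tl k := by
        refine filter_congr fun i hi => ?_
        obtain ⟨hin, hi0, hi3⟩ := mem_filter.1 hi
        have hin : i < m := mem_range.1 hin
        have hpi : p i < i := hp i hi0 hin
        rw [Nat.lt_succ_iff_lt_or_eq, Nat.lt_succ_iff_lt_or_eq]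
        constructor
        · rintro (⟨h1, h2 | h2⟩ | ⟨h1, h2 | h2⟩)
          · exact Or.inl ⟨h1, h2⟩
          · exfalso
            rcases hi3 with h3 | h3
            · exact hk (h2 ▸ mem_filter.2 ⟨mem_range.2 hin, h3⟩)
            · exact h1 h3.1
          · exact Or.inr ⟨h1, h2⟩
          · exfalso
            rcases hi3 with h3 | h3
            · exact h3.1 h1
            · exact hk (h2 ▸ mem_filter.2 ⟨mem_range.2 (hpi.trans hin), h3.2⟩)
        · rintro (⟨h1, h2⟩ | ⟨h1, h2⟩)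
          · exact Or.inl ⟨h1, Or.inl h2⟩
          · exact Or.inr ⟨h1, Or.inl h2⟩
      rw [h1, h2]
      exact ⟨f, hR, hF, hS, hfi, hsi⟩

theorem embed_leftG {m K κ : ℕ} {p top lab : ℕ → ℕ} {R Tl FX FS Cn : Finset ℕ} (hp : Par m p)
    (hD : Dec m p K R top) (hlab : ∀ r ∈ R, lab r ∉ FX)
    (hC : ∀ a a' : ℕ, (a ∈ FX ∨ a ∈ Cn) → a' ∈ Cn → κ ≤ (FX.filter fun x => ad a x ∈ FS ∧ ad a' x ∈ FS).card)
    (htop : ∀ v ∈ MV m R top Tl, p v ∈ R → lab (p v) ∈ Cn)
    (hex : ∀ i ∈ EM m p R top Tl, i ∈ R → lab i ∈ Cn) (hCn : Cn.Nonempty)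
    (hκ : (MV m R top Tl).card + 4 * (EM m p R top Tl).card < κ) :
    ∃ f : ℕ → ℕ, (∀ r ∈ R, f r = lab r) ∧ (∀ v ∈ MV m R top Tl, f v ∈ FX) ∧
      (∀ i ∈ EM m p R top Tl, ad (f i) (f (p i)) ∈ FS) ∧ Set.InjOn f (MV m R top Tl) ∧
      Set.InjOn (fun i => ad (f i) (f (p i))) (EM m p R top Tl) := by
  obtain ⟨f, h1, h2, h3, h4, h5⟩ := aux50 hp hD hlab hC htop hex hCn hκ m
  have e1 : (MV m R top Tl).filter (· < m) = MV m R top Tl := by
    refine filter_true_of_mem fun v hv => ?_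
    exact mem_range.1 (mem_filter.1 hv).1
  have e2 : EE50 m p R top Tl m = EM m p R top Tl := by
    refine filter_true_of_mem fun i hi => ?_
    obtain ⟨hin, hi0, -⟩ := mem_filter.1 hi
    have hin : i < m := mem_range.1 hin
    by_cases hiR : i ∈ R
    · exact Or.inr ⟨hiR, (hp i hi0 hin).trans hin⟩
    · exact Or.inl ⟨hiR, hin⟩
  rw [e1] at h2 h4
  rw [e2] at h3 h5
  exact ⟨f, h1, h2, h3, h4, h5⟩

/-! ### states of the greedy covering -/

/-- the data of `cover2` -/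
private structure Pm50 where
  (Ve Vin FX FXE FS JX JSe JSi : Finset ℕ)
  (β cc : ℕ → ℕ)

/-- slots: `(0, v)` the end vertex of `v ∈ Ve`, `(1, u)` the middle and `(2, u)` the end vertex of `u ∈ Vin`; the difference of a slot -/
private def Df50 (P : Pm50) (L : ℕ × ℕ → ℕ) (s : ℕ × ℕ) : ℕ :=
  if s.1 = 0 then ad (P.β s.2) (L s) else if s.1 = 1 then ad (P.cc s.2) (L s) else ad (L (1, s.2)) (L s)

private def Mm50 (P : Pm50) (L : ℕ × ℕ → ℕ) (s : ℕ × ℕ) : Prop :=
  (s.1 = 0 ∧ s.2 ∈ P.Ve ∧ L s ∈ P.FX ∪ P.FXE ∧ ad (P.β s.2) (L s) ∈ P.FS ∪ P.JSe) ∨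
  (s.1 = 1 ∧ s.2 ∈ P.Vin ∧ L s ∈ P.FX ∧ ad (P.cc s.2) (L s) ∈ P.FS) ∨
  (s.1 = 2 ∧ s.2 ∈ P.Vin ∧ L s ∈ P.FX ∪ P.FXE ∪ P.JX ∧ ad (L (1, s.2)) (L s) ∈ P.FS ∪ P.JSi)

private structure St50 (P : Pm50) (W : Finset (ℕ × ℕ)) (L : ℕ × ℕ → ℕ) : Prop where
  dc : ∀ u, (2, u) ∈ W → (1, u) ∈ W
  inj : Set.InjOn L W
  dinj : Set.InjOn (Df50 P L) W
  mm : ∀ s ∈ W, Mm50 P L s

private def Ex50 (P : Pm50) (W W' : Finset (ℕ × ℕ)) (L L' : ℕ × ℕ → ℕ) : Prop :=
  W ⊆ W' ∧ (∀ t ∈ W, L' t = L t) ∧ ∀ t ∈ W, Df50 P L' t = Df50 P L t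

private theorem exrefl50 (P : Pm50) (W : Finset (ℕ × ℕ)) (L : ℕ × ℕ → ℕ) : Ex50 P W W L L :=
  ⟨Subset.refl _, fun _ _ => rfl, fun _ _ => rfl⟩

private theorem extrans50 {P : Pm50} {W W' W'' : Finset (ℕ × ℕ)} {L L' L'' : ℕ × ℕ → ℕ}
    (h : Ex50 P W W' L L') (h' : Ex50 P W' W'' L' L'') : Ex50 P W W'' L L'' :=
  ⟨h.1.trans h'.1, fun t ht => (h'.2.1 t (h.1 ht)).trans (h.2.1 t ht),
    fun t ht => (h'.2.2 t (h.1 ht)).trans (h.2.2 t ht)⟩

private theorem eximL50 {P : Pm50} {W W' : Finset (ℕ × ℕ)} {L L' : ℕ × ℕ → ℕ}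
    (h : Ex50 P W W' L L') : W.image L ⊆ W'.image L' := by
  intro x hx
  obtain ⟨t, ht, rfl⟩ := mem_image.1 hx
  exact mem_image.2 ⟨t, h.1 ht, h.2.1 t ht⟩

private theorem eximD50 {P : Pm50} {W W' : Finset (ℕ × ℕ)} {L L' : ℕ × ℕ → ℕ}
    (h : Ex50 P W W' L L') : W.image (Df50 P L) ⊆ W'.image (Df50 P L') := by
  intro x hx
  obtain ⟨t, ht, rfl⟩ := mem_image.1 hx
  exact mem_image.2 ⟨t, h.1 ht, h.2.2 t ht⟩

private theorem ext50 {P : Pm50} {W : Finset (ℕ × ℕ)} {L : ℕ × ℕ → ℕ} (h : St50 P W L) {s : ℕ × ℕ} {x : ℕ}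
    (hs : s ∉ W) (h2 : s.1 = 2 → (1, s.2) ∈ W) (hm : Mm50 P (Function.update L s x) s)
    (hx : x ∉ W.image L) (hd : Df50 P (Function.update L s x) s ∉ W.image (Df50 P L)) :
    St50 P (insert s W) (Function.update L s x) ∧ Ex50 P W (insert s W) L (Function.update L s x) := by
  have e1 : ∀ t ∈ W, Function.update L s x t = L t := by
    intro t ht
    rw [Function.update_of_ne]
    rintro rfl
    exact hs ht
  have e2 : Function.update L s x s = x := Function.update_self _ _ _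
  have e3 : ∀ t ∈ W, t.1 = 2 → Function.update L s x (1, t.2) = L (1, t.2) := by
    intro t ht ht2
    have h1 : (2, t.2) ∈ W := by
      have h0 : ((2 : ℕ), t.2) = t := Prod.ext ht2.symm rfl
      rw [h0]; exact ht
    exact e1 _ (h.dc _ h1)
  have e0 : ∀ t ∈ W, t.1 = 0 ∨ t.1 = 1 ∨ t.1 = 2 := by
    intro t ht
    rcases h.mm t ht with h1 | h1 | h1
    · exact Or.inl h1.1
    · exact Or.inr (Or.inl h1.1)
    · exact Or.inr (Or.inr h1.1)
  have e4 : ∀ t ∈ W, Df50 P (Function.update L s x) t = Df50 P L t := by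
    intro t ht
    unfold Df50
    rw [e1 t ht]
    by_cases h0 : t.1 = 0
    · rw [if_pos h0, if_pos h0]
    · rw [if_neg h0, if_neg h0]
      by_cases h1 : t.1 = 1
      · rw [if_pos h1, if_pos h1]
      · rw [if_neg h1, if_neg h1]
        rw [e3 t ht (by have := e0 t ht; omega)]
  refine ⟨⟨?_, ?_, ?_, ?_⟩, subset_insert _ _, e1, e4⟩
  · intro u hu
    rcases mem_insert.1 hu with hu | hu
    · have h3 : ((1 : ℕ), s.2) ∈ W := h2 (by rw [← hu])
      have h4 : u = s.2 := by rw [← hu]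
      rw [h4]
      exact mem_insert_of_mem h3
    · exact mem_insert_of_mem (h.dc u hu)
  · rw [coe_insert, Set.injOn_insert (by exact_mod_cast hs)]
    refine ⟨fun a ha b hb hab => ?_, ?_⟩
    · rw [e1 a ha, e1 b hb] at hab
      exact h.inj ha hb hab
    · rw [e2]
      rintro ⟨w, hw, hwx⟩
      rw [e1 w hw] at hwx
      exact hx (mem_image.2 ⟨w, hw, hwx⟩)
  · rw [coe_insert, Set.injOn_insert (by exact_mod_cast hs)]
    refine ⟨fun a ha b hb hab => ?_, ?_⟩
    · rw [e4 a ha, e4 b hb] at hab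
      exact h.dinj ha hb hab
    · rintro ⟨w, hw, hwx⟩
      rw [e4 w hw] at hwx
      exact hd (mem_image.2 ⟨w, hw, hwx⟩)
  · intro t ht
    rcases mem_insert.1 ht with rfl | ht
    · exact hm
    · have h3 := h.mm t ht
      unfold Mm50 at h3 ⊢
      rw [e1 t ht]
      rcases h3 with h3 | h3 | h3
      · exact Or.inl h3
      · exact Or.inr (Or.inl h3)
      · rw [e3 t ht h3.1]
        exact Or.inr (Or.inr h3)

private theorem card50 {P : Pm50} {W : Finset (ℕ × ℕ)} {L : ℕ × ℕ → ℕ} (h : St50 P W L) :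
    W.card ≤ P.Ve.card + 2 * P.Vin.card := by
  have h1 : W ⊆ (P.Ve.image fun v => ((0 : ℕ), v)) ∪ (P.Vin.image fun v => ((1 : ℕ), v)) ∪
      P.Vin.image fun v => ((2 : ℕ), v) := by
    intro s hs
    rw [mem_union, mem_union, mem_image, mem_image, mem_image]
    rcases h.mm s hs with h1 | h1 | h1
    · exact Or.inl (Or.inl ⟨s.2, h1.2.1, Prod.ext h1.1.symm rfl⟩)
    · exact Or.inl (Or.inr ⟨s.2, h1.2.1, Prod.ext h1.1.symm rfl⟩)
    · exact Or.inr ⟨s.2, h1.2.1, Prod.ext h1.1.symm rfl⟩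
  have h2 := (card_le_card h1).trans (card_union_le _ _)
  have h3 := card_union_le (P.Ve.image fun v => ((0 : ℕ), v)) (P.Vin.image fun v => ((1 : ℕ), v))
  have h4 : (P.Ve.image fun v => ((0 : ℕ), v)).card ≤ P.Ve.card := card_image_le
  have h5 : (P.Vin.image fun v => ((1 : ℕ), v)).card ≤ P.Vin.card := card_image_le
  have h6 : (P.Vin.image fun v => ((2 : ℕ), v)).card ≤ P.Vin.card := card_image_le
  omega

private def cnt50 (P : Pm50) (W : Finset (ℕ × ℕ)) : Finset ℕ := P.Vin.filter fun u => (1, u) ∈ W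

private theorem free50 {P : Pm50} {W : Finset (ℕ × ℕ)} (h : (cnt50 P W).card < P.Vin.card) :
    ∃ u ∈ P.Vin, (1, u) ∉ W := by
  by_contra hcon
  push Not at hcon
  have : cnt50 P W = P.Vin := filter_true_of_mem hcon
  rw [this] at h
  omega

/-- hypotheses of `cover2` -/
private structure Hy50 (P : Pm50) (n κe κ' : ℕ) : Prop where
  hβ : Set.InjOn P.β P.Ve
  dX1 : Disjoint P.FX P.FXE
  dX2 : Disjoint (P.FX ∪ P.FXE) P.JX
  dS1 : Disjoint P.FS (P.JSe ∪ P.JSi)
  dS2 : Disjoint P.JSe P.JSi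
  hS0 : ∀ s ∈ P.FS ∪ (P.JSe ∪ P.JSi), 1 ≤ s
  hn : ∀ x ∈ P.FX ∪ P.FXE ∪ P.JX, x ≤ n
  hcc : ∀ u ∈ P.Vin, P.cc u ∉ P.FX ∪ P.FXE ∪ P.JX
  h1 : ∀ s ∈ P.JSe, κe ≤ (P.Ve.filter fun v => P.β v + s ∈ P.FX ∪ P.FXE).card
  h3 : ∀ v ∈ P.Ve, κ' ≤ (P.FX.filter fun x => ad (P.β v) x ∈ P.FS).card
  h4 : ∀ u ∈ P.Vin, ∀ a ≤ n, κ' ≤ (P.FX.filter fun x => ad a x ∈ P.FS ∧ ad (P.cc u) x ∈ P.FS).card
  h5 : ∀ u ∈ P.Vin, ∀ s ∈ P.JSi, κ' ≤ (P.FX.filter fun x => ad (P.cc u) x ∈ P.FS ∧ x + s ∈ P.FX).card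
  hκe : 2 * P.JSe.card < κe
  hκ' : 10 * (P.Ve.card + 2 * P.Vin.card) + 20 < κ'
  hV : P.JX.card + P.FXE.card + P.JSi.card ≤ P.Vin.card

/-- step (1) -/
private theorem stepA50 {P : Pm50} {n κe κ' : ℕ} (H : Hy50 P n κe κ') {W : Finset (ℕ × ℕ)} {L : ℕ × ℕ → ℕ}
    (h : St50 P W L) {s : ℕ} (hs : s ∈ P.JSe) (hc : 2 * W.card < κe) :
    ∃ (W' : Finset (ℕ × ℕ)) (L' : ℕ × ℕ → ℕ), St50 P W' L' ∧ Ex50 P W W' L L' ∧
      s ∈ W'.image (Df50 P L') ∧ W'.card ≤ W.card + 1 ∧ (cnt50 P W').card ≤ (cnt50 P W).card := by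
  by_cases hsW : s ∈ W.image (Df50 P L)
  · exact ⟨W, L, h, exrefl50 _ _ _, hsW, Nat.le_succ _, le_refl _⟩
  · -- choose `v`
    have h1 := H.h1 s hs
    have : ∃ v ∈ P.Ve.filter fun v => P.β v + s ∈ P.FX ∪ P.FXE, (0, v) ∉ W ∧ P.β v + s ∉ W.image L := by
      by_contra hcon
      push Not at hcon
      have h2 : (P.Ve.filter fun v => P.β v + s ∈ P.FX ∪ P.FXE) ⊆
          (W.image Prod.snd) ∪ (P.Ve.filter fun v => P.β v + s ∈ W.image L) := by
        intro v hv
        rw [mem_union, mem_filter]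
        by_cases h0 : (0, v) ∈ W
        · exact Or.inl (mem_image.2 ⟨_, h0, rfl⟩)
        · exact Or.inr ⟨(mem_filter.1 hv).1, hcon v hv h0⟩
      have h3 := (card_le_card h2).trans (card_union_le _ _)
      have h4 : (W.image Prod.snd).card ≤ W.card := card_image_le
      have h5 : (P.Ve.filter fun v => P.β v + s ∈ W.image L).card ≤ (W.image L).card := by
        refine card_le_card_of_injOn (fun v => P.β v + s) (fun c hc => (mem_filter.1 hc).2) ?_
        intro a ha b hb hab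
        exact H.hβ (mem_filter.1 ha).1 (mem_filter.1 hb).1 (Nat.add_right_cancel hab)
      have h6 : (W.image L).card ≤ W.card := card_image_le
      omega
    obtain ⟨v, hv, hvW, hvL⟩ := this
    obtain ⟨hv1, hv2⟩ := mem_filter.1 hv
    have ead : ad (P.β v) (P.β v + s) = s := by unfold ad; omega
    have eD : Df50 P (Function.update L (0, v) (P.β v + s)) (0, v) = s := by
      unfold Df50
      rw [if_pos rfl, Function.update_self]
      exact ead
    have hm : Mm50 P (Function.update L (0, v) (P.β v + s)) (0, v) := by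
      left
      refine ⟨rfl, hv1, ?_, ?_⟩
      · rw [Function.update_self]; exact hv2
      · rw [Function.update_self]
        change ad (P.β v) (P.β v + s) ∈ _
        rw [ead]
        exact mem_union_right _ hs
    obtain ⟨k1, k2⟩ := ext50 h hvW (fun h0 => absurd h0 (by norm_num)) hm hvL (by rw [eD]; exact hsW)
    refine ⟨_, _, k1, k2, mem_image.2 ⟨_, mem_insert_self _ _, eD⟩, card_insert_le _ _, ?_⟩
    refine card_le_card fun u hu => ?_
    obtain ⟨hu1, hu2⟩ := mem_filter.1 hu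
    rcases mem_insert.1 hu2 with hu2 | hu2
    · exact absurd (congrArg Prod.fst hu2) (by norm_num)
    · exact mem_filter.2 ⟨hu1, hu2⟩

/-- insertion of both vertices of `u` -/
private theorem two50 {P : Pm50} {n κe κ' : ℕ} (H : Hy50 P n κe κ') {W : Finset (ℕ × ℕ)} {L : ℕ × ℕ → ℕ}
    (h : St50 P W L) {u y z : ℕ} (hu : u ∈ P.Vin) (huW : (1, u) ∉ W)
    (hy : y ∈ P.FX) (hyD : ad (P.cc u) y ∈ P.FS) (hz : z ∈ P.FX ∪ P.FXE ∪ P.JX) (hzD : ad y z ∈ P.FS ∪ P.JSi)
    (hyL : y ∉ W.image L) (hzL : z ∉ W.image L) (hyz : y ≠ z)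
    (hyd : ad (P.cc u) y ∉ W.image (Df50 P L)) (hzd : ad y z ∉ W.image (Df50 P L))
    (hdd : ad (P.cc u) y ≠ ad y z) :
    ∃ (W' : Finset (ℕ × ℕ)) (L' : ℕ × ℕ → ℕ), St50 P W' L' ∧ Ex50 P W W' L L' ∧
      z ∈ W'.image L' ∧ ad y z ∈ W'.image (Df50 P L') ∧ (cnt50 P W').card ≤ (cnt50 P W).card + 1 := by
  have eD : Df50 P (Function.update L (1, u) y) (1, u) = ad (P.cc u) y := by
    unfold Df50
    rw [if_neg (by norm_num), if_pos rfl, Function.update_self]
  have hm : Mm50 P (Function.update L (1, u) y) (1, u) := by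
    right; left
    refine ⟨rfl, hu, ?_, ?_⟩
    · rw [Function.update_self]; exact hy
    · rw [Function.update_self]; exact hyD
  obtain ⟨k1, k2⟩ := ext50 h huW (fun h0 => absurd h0 (by norm_num)) hm hyL (by rw [eD]; exact hyd)
  have hu2W : ((2 : ℕ), u) ∉ insert ((1 : ℕ), u) W := by
    intro h0
    rcases mem_insert.1 h0 with h0 | h0
    · exact absurd (congrArg Prod.fst h0) (by norm_num)
    · exact huW (h.dc u h0)
  set L1 := Function.update L (1, u) y with hL1
  have eL1 : L1 (1, u) = y := Function.update_self _ _ _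
  have e1 : Function.update L1 (2, u) z (1, u) = y := by
    rw [Function.update_of_ne, eL1]
    intro h0
    exact absurd (congrArg Prod.fst h0) (by norm_num)
  have eD2 : Df50 P (Function.update L1 (2, u) z) (2, u) = ad y z := by
    unfold Df50
    rw [if_neg (by norm_num), if_neg (by norm_num), Function.update_self]
    change ad (Function.update L1 (2, u) z (1, u)) z = _
    rw [e1]
  have hm2 : Mm50 P (Function.update L1 (2, u) z) (2, u) := by
    right; right
    refine ⟨rfl, hu, ?_, ?_⟩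
    · rw [Function.update_self]; exact hz
    · rw [Function.update_self]
      change ad (Function.update L1 (2, u) z (1, u)) z ∈ _
      rw [e1]; exact hzD
  have hzL1 : z ∉ (insert ((1 : ℕ), u) W).image L1 := by
    intro h0
    obtain ⟨t, ht, htz⟩ := mem_image.1 h0
    rcases mem_insert.1 ht with rfl | ht
    · rw [eL1] at htz
      exact hyz htz
    · rw [k2.2.1 t ht] at htz
      exact hzL (mem_image.2 ⟨t, ht, htz⟩)
  have hzd1 : Df50 P (Function.update L1 (2, u) z) (2, u) ∉ (insert ((1 : ℕ), u) W).image (Df50 P L1) := by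
    rw [eD2]
    intro h0
    obtain ⟨t, ht, htz⟩ := mem_image.1 h0
    rcases mem_insert.1 ht with rfl | ht
    · rw [eD] at htz
      exact hdd htz
    · rw [k2.2.2 t ht] at htz
      exact hzd (mem_image.2 ⟨t, ht, htz⟩)
  obtain ⟨k3, k4⟩ := ext50 k1 hu2W (fun _ => mem_insert_self _ _) hm2 hzL1 hzd1
  refine ⟨_, _, k3, extrans50 k2 k4, mem_image.2 ⟨_, mem_insert_self _ _, Function.update_self _ _ _⟩,
    mem_image.2 ⟨_, mem_insert_self _ _, eD2⟩, ?_⟩
  have h6 : cnt50 P (insert ((2 : ℕ), u) (insert ((1 : ℕ), u) W)) ⊆ insert u (cnt50 P W) := by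
    intro w hw
    obtain ⟨hw1, hw2⟩ := mem_filter.1 hw
    rcases mem_insert.1 hw2 with hw2 | hw2
    · exact absurd (congrArg Prod.fst hw2) (by norm_num)
    · rcases mem_insert.1 hw2 with hw2 | hw2
      · have : w = u := congrArg Prod.snd hw2
        rw [this]; exact mem_insert_self _ _
      · exact mem_insert_of_mem (mem_filter.2 ⟨hw1, hw2⟩)
  exact (card_le_card h6).trans (card_insert_le _ _)

/-- step (2) -/
private theorem stepB50 {P : Pm50} {n κe κ' : ℕ} (H : Hy50 P n κe κ') {W : Finset (ℕ × ℕ)} {L : ℕ × ℕ → ℕ}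
    (h : St50 P W L) {x : ℕ} (hx : x ∈ P.JX ∪ P.FXE) (hc : (cnt50 P W).card < P.Vin.card) :
    ∃ (W' : Finset (ℕ × ℕ)) (L' : ℕ × ℕ → ℕ), St50 P W' L' ∧ Ex50 P W W' L L' ∧
      x ∈ W'.image L' ∧ (cnt50 P W').card ≤ (cnt50 P W).card + 1 := by
  by_cases hxW : x ∈ W.image L
  · exact ⟨W, L, h, exrefl50 _ _ _, hxW, Nat.le_succ _⟩
  · obtain ⟨u, hu, huW⟩ := free50 hc
    have hxA : x ∈ P.FX ∪ P.FXE ∪ P.JX := by
      rcases mem_union.1 hx with h0 | h0
      · exact mem_union_right _ h0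
      · exact mem_union_left _ (mem_union_right _ h0)
    have hxF : x ∉ P.FX := by
      intro h0
      rcases mem_union.1 hx with h6 | h6
      · exact (disjoint_left.1 H.dX2) (mem_union_left _ h0) h6
      · exact (disjoint_left.1 H.dX1) h0 h6
    have hcx : P.cc u ≠ x := fun h0 => H.hcc u hu (h0 ▸ hxA)
    have h4 := H.h4 u hu x (H.hn x hxA)
    have hW := card50 h
    have h6 : (W.image L).card ≤ W.card := card_image_le
    have h7 : (W.image (Df50 P L)).card ≤ W.card := card_image_le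
    have h8 := H.hκ'
    obtain ⟨y, hy, hyA, hyB, hyB', hy2⟩ := pick50
      (P.FX.filter fun y => ad x y ∈ P.FS ∧ ad (P.cc u) y ∈ P.FS) (W.image L) (W.image (Df50 P L)) x (P.cc u)
      (by omega)
    obtain ⟨hyF, hyS, hyS'⟩ := mem_filter.1 hy
    have hyx : y ≠ x := fun h0 => hxF (h0 ▸ hyF)
    obtain ⟨W', L', k1, k2, k3, -, k4⟩ := two50 H h hu huW hyF hyS' hxA
      (mem_union_left _ (by rw [ad_comm]; exact hyS)) hyA hxW hyx hyB' (by rw [ad_comm]; exact hyB)
      (by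
        intro h0
        rw [ad_comm y x] at h0
        unfold ad at h0
        omega)
    exact ⟨W', L', k1, k2, k3, k4⟩

/-- step (3) -/
private theorem stepC50 {P : Pm50} {n κe κ' : ℕ} (H : Hy50 P n κe κ') {W : Finset (ℕ × ℕ)} {L : ℕ × ℕ → ℕ}
    (h : St50 P W L) {s : ℕ} (hs : s ∈ P.JSi) (hc : (cnt50 P W).card < P.Vin.card) :
    ∃ (W' : Finset (ℕ × ℕ)) (L' : ℕ × ℕ → ℕ), St50 P W' L' ∧ Ex50 P W W' L L' ∧
      s ∈ W'.image (Df50 P L') ∧ (cnt50 P W').card ≤ (cnt50 P W).card + 1 := by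
  by_cases hsW : s ∈ W.image (Df50 P L)
  · exact ⟨W, L, h, exrefl50 _ _ _, hsW, Nat.le_succ _⟩
  · obtain ⟨u, hu, huW⟩ := free50 hc
    have hs1 : 1 ≤ s := H.hS0 s (mem_union_right _ (mem_union_right _ hs))
    have h5 := H.h5 u hu s hs
    have hW := card50 h
    have h6 : (W.image L).card ≤ W.card := card_image_le
    have h7 : (W.image (Df50 P L)).card ≤ W.card := card_image_le
    have h9 : ((W.image L).image fun x => x - s).card ≤ (W.image L).card := card_image_le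
    have h10 := card_union_le (W.image L) ((W.image L).image fun x => x - s)
    have h8 := H.hκ'
    obtain ⟨y, hy, hyA, hyB, -, -⟩ := pick50
      (P.FX.filter fun y => ad (P.cc u) y ∈ P.FS ∧ y + s ∈ P.FX)
      (W.image L ∪ (W.image L).image fun x => x - s) (W.image (Df50 P L)) (P.cc u) (P.cc u)
      (by omega)
    obtain ⟨hyF, hyS, hyS'⟩ := mem_filter.1 hy
    rw [mem_union, not_or] at hyA
    have ead : ad y (y + s) = s := by unfold ad; omega
    have hyz : y ≠ y + s := by omega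
    have hsF : s ∉ P.FS := fun h0 => (disjoint_left.1 H.dS1) h0 (mem_union_right _ hs)
    have hzL : y + s ∉ W.image L := fun h0 => hyA.2 (mem_image.2 ⟨y + s, h0, Nat.add_sub_cancel y s⟩)
    obtain ⟨W', L', k1, k2, -, k3, k4⟩ := two50 H h hu huW hyF hyS (z := y + s)
      (mem_union_left _ (mem_union_left _ hyS')) (by rw [ead]; exact mem_union_right _ hs) hyA.1 hzL hyz hyB
      (by rw [ead]; exact hsW) (by rw [ead]; exact fun h0 => hsF (h0 ▸ hyS))
    rw [ead] at k3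
    exact ⟨W', L', k1, k2, k3, k4⟩

/-- step (4) -/
private theorem stepD50 {P : Pm50} {n κe κ' : ℕ} (H : Hy50 P n κe κ') {W : Finset (ℕ × ℕ)} {L : ℕ × ℕ → ℕ}
    (h : St50 P W L) {s : ℕ × ℕ}
    (hs : (s.1 = 0 ∧ s.2 ∈ P.Ve) ∨ (s.1 = 1 ∧ s.2 ∈ P.Vin) ∨ (s.1 = 2 ∧ s.2 ∈ P.Vin ∧ (1, s.2) ∈ W)) :
    ∃ (W' : Finset (ℕ × ℕ)) (L' : ℕ × ℕ → ℕ), St50 P W' L' ∧ Ex50 P W W' L L' ∧ s ∈ W' := by
  by_cases hsW : s ∈ W
  · exact ⟨W, L, h, exrefl50 _ _ _, hsW⟩
  · have hW := card50 h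
    have h6 : (W.image L).card ≤ W.card := card_image_le
    have h7 : (W.image (Df50 P L)).card ≤ W.card := card_image_le
    have h8 := H.hκ'
    -- the vertex at which `s` is attached has label `a`
    have key : ∃ a : ℕ, κ' ≤ (P.FX.filter fun x => ad a x ∈ P.FS).card ∧
        ∀ x, Df50 P (Function.update L s x) s = ad a x ∧
          (x ∈ P.FX → ad a x ∈ P.FS → Mm50 P (Function.update L s x) s) := by
      rcases hs with ⟨h1, h2⟩ | ⟨h1, h2⟩ | ⟨h1, h2, h3⟩
      · refine ⟨P.β s.2, H.h3 s.2 h2, fun x => ⟨?_, fun k1 k2 => ?_⟩⟩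
        · unfold Df50
          rw [if_pos h1, Function.update_self]
        · left
          rw [Function.update_self]
          exact ⟨h1, h2, mem_union_left _ k1, mem_union_left _ k2⟩
      · refine ⟨P.cc s.2, (H.h4 s.2 h2 0 (Nat.zero_le _)).trans (card_le_card fun x hx => ?_), fun x =>
          ⟨?_, fun k1 k2 => ?_⟩⟩
        · obtain ⟨k1, -, k2⟩ := mem_filter.1 hx
          exact mem_filter.2 ⟨k1, k2⟩
        · unfold Df50
          rw [if_neg (by omega), if_pos h1, Function.update_self]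
        · right; left
          rw [Function.update_self]
          exact ⟨h1, h2, k1, k2⟩
      · have h0 : L (1, s.2) ≤ n := by
          rcases h.mm _ h3 with k | k | k
          · exact absurd k.1 (by norm_num)
          · exact H.hn _ (mem_union_left _ (mem_union_left _ k.2.2.1))
          · exact absurd k.1 (by norm_num)
        have hne : ((1 : ℕ), s.2) ≠ s := fun h0 => hsW (h0 ▸ h3)
        refine ⟨L (1, s.2), (H.h4 s.2 h2 _ h0).trans (card_le_card fun x hx => ?_), fun x =>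
          ⟨?_, fun k1 k2 => ?_⟩⟩
        · obtain ⟨k1, k2, -⟩ := mem_filter.1 hx
          exact mem_filter.2 ⟨k1, k2⟩
        · unfold Df50
          rw [if_neg (by omega), if_neg (by omega), Function.update_self, Function.update_of_ne hne]
        · right; right
          rw [Function.update_self, Function.update_of_ne hne]
          exact ⟨h1, h2, mem_union_left _ (mem_union_left _ k1), mem_union_left _ k2⟩
    obtain ⟨a, ha, hax⟩ := key
    obtain ⟨x, hx, hxA, hxB, -, -⟩ := pick50 (P.FX.filter fun x => ad a x ∈ P.FS)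
      (W.image L) (W.image (Df50 P L)) a a (by omega)
    obtain ⟨hxF, hxS⟩ := mem_filter.1 hx
    obtain ⟨k1, k2⟩ := ext50 h hsW (x := x) (by
        intro h2
        rcases hs with k | k | k
        · omega
        · omega
        · exact k.2.2) ((hax x).2 hxF hxS) hxA (by rw [(hax x).1]; exact hxB)
    exact ⟨_, _, k1, k2, mem_insert_self _ _⟩

private theorem runA50 {P : Pm50} {n κe κ' : ℕ} (H : Hy50 P n κe κ') (J : Finset ℕ) (hJ : J ⊆ P.JSe) :
    ∃ (W : Finset (ℕ × ℕ)) (L : ℕ × ℕ → ℕ), St50 P W L ∧ J ⊆ W.image (Df50 P L) ∧ W.card ≤ J.card ∧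
      (cnt50 P W).card ≤ 0 := by
  induction J using Finset.induction_on with
  | empty =>
    refine ⟨∅, fun _ => 0, ⟨fun u hu => absurd hu (notMem_empty _), ?_, ?_, fun s hs => absurd hs (notMem_empty _)⟩,
      empty_subset _, le_refl _, ?_⟩
    · simp
    · simp
    · simp [cnt50]
  | insert s J hs ih =>
    obtain ⟨W, L, h, hJW, hc, hc'⟩ := ih ((subset_insert _ _).trans hJ)
    have h1 : J.card + 1 ≤ P.JSe.card := by
      rw [← card_insert_of_notMem hs]
      exact card_le_card hJ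
    have h2 := H.hκe
    obtain ⟨W', L', k1, k2, k3, k4, k5⟩ := stepA50 H h (hJ (mem_insert_self _ _)) (by omega)
    refine ⟨W', L', k1, insert_subset k3 (hJW.trans (eximD50 k2)), ?_, k5.trans hc'⟩
    rw [card_insert_of_notMem hs]
    omega

private theorem runB50 {P : Pm50} {n κe κ' : ℕ} (H : Hy50 P n κe κ') (J : Finset ℕ) (hJ : J ⊆ P.JX ∪ P.FXE) :
    ∃ (W : Finset (ℕ × ℕ)) (L : ℕ × ℕ → ℕ), St50 P W L ∧ P.JSe ⊆ W.image (Df50 P L) ∧ J ⊆ W.image L ∧
      (cnt50 P W).card ≤ J.card := by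
  induction J using Finset.induction_on with
  | empty =>
    obtain ⟨W, L, h, h1, h2, h3⟩ := runA50 H P.JSe (Subset.refl _)
    exact ⟨W, L, h, h1, empty_subset _, h3⟩
  | insert s J hs ih =>
    obtain ⟨W, L, h, hS, hJW, hc⟩ := ih ((subset_insert _ _).trans hJ)
    have h1 : J.card + 1 ≤ (P.JX ∪ P.FXE).card := by
      rw [← card_insert_of_notMem hs]
      exact card_le_card hJ
    have h3 := card_union_le P.JX P.FXE
    have h2 := H.hV
    obtain ⟨W', L', k1, k2, k3, k4⟩ := stepB50 H h (hJ (mem_insert_self _ _)) (by omega)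
    refine ⟨W', L', k1, hS.trans (eximD50 k2), insert_subset k3 (hJW.trans (eximL50 k2)), ?_⟩
    rw [card_insert_of_notMem hs]
    omega

private theorem runC50 {P : Pm50} {n κe κ' : ℕ} (H : Hy50 P n κe κ') (J : Finset ℕ) (hJ : J ⊆ P.JSi) :
    ∃ (W : Finset (ℕ × ℕ)) (L : ℕ × ℕ → ℕ), St50 P W L ∧ P.JSe ⊆ W.image (Df50 P L) ∧
      P.JX ∪ P.FXE ⊆ W.image L ∧ J ⊆ W.image (Df50 P L) ∧
      (cnt50 P W).card ≤ P.JX.card + P.FXE.card + J.card := by
  induction J using Finset.induction_on with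
  | empty =>
    obtain ⟨W, L, h, h1, h2, h3⟩ := runB50 H (P.JX ∪ P.FXE) (Subset.refl _)
    have h4 := card_union_le P.JX P.FXE
    exact ⟨W, L, h, h1, h2, empty_subset _, by rw [card_empty]; omega⟩
  | insert s J hs ih =>
    obtain ⟨W, L, h, hS, hX, hJW, hc⟩ := ih ((subset_insert _ _).trans hJ)
    have h1 : J.card + 1 ≤ P.JSi.card := by
      rw [← card_insert_of_notMem hs]
      exact card_le_card hJ
    have h2 := H.hV
    obtain ⟨W', L', k1, k2, k3, k4⟩ := stepC50 H h (hJ (mem_insert_self _ _)) (by omega)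
    refine ⟨W', L', k1, hS.trans (eximD50 k2), hX.trans (eximL50 k2),
      insert_subset k3 (hJW.trans (eximD50 k2)), ?_⟩
    rw [card_insert_of_notMem hs]
    omega

private theorem runD50 {P : Pm50} {n κe κ' : ℕ} (H : Hy50 P n κe κ') (J : Finset ℕ) (hJ : J ⊆ P.Ve) :
    ∃ (W : Finset (ℕ × ℕ)) (L : ℕ × ℕ → ℕ), St50 P W L ∧ P.JSe ⊆ W.image (Df50 P L) ∧
      P.JX ∪ P.FXE ⊆ W.image L ∧ P.JSi ⊆ W.image (Df50 P L) ∧ ∀ v ∈ J, (0, v) ∈ W := by
  induction J using Finset.induction_on with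
  | empty =>
    obtain ⟨W, L, h, h1, h2, h3, -⟩ := runC50 H P.JSi (Subset.refl _)
    exact ⟨W, L, h, h1, h2, h3, fun v hv => absurd hv (notMem_empty v)⟩
  | insert s J hs ih =>
    obtain ⟨W, L, h, hS, hX, hSi, hJW⟩ := ih ((subset_insert _ _).trans hJ)
    obtain ⟨W', L', k1, k2, k3⟩ := stepD50 H h (s := (0, s)) (Or.inl ⟨rfl, hJ (mem_insert_self _ _)⟩)
    refine ⟨W', L', k1, hS.trans (eximD50 k2), hX.trans (eximL50 k2), hSi.trans (eximD50 k2), fun v hv => ?_⟩
    rcases mem_insert.1 hv with rfl | hv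
    · exact k3
    · exact k2.1 (hJW v hv)

private theorem runE50 {P : Pm50} {n κe κ' : ℕ} (H : Hy50 P n κe κ') (J : Finset ℕ) (hJ : J ⊆ P.Vin) :
    ∃ (W : Finset (ℕ × ℕ)) (L : ℕ × ℕ → ℕ), St50 P W L ∧ P.JSe ⊆ W.image (Df50 P L) ∧
      P.JX ∪ P.FXE ⊆ W.image L ∧ P.JSi ⊆ W.image (Df50 P L) ∧ (∀ v ∈ P.Ve, (0, v) ∈ W) ∧
      ∀ u ∈ J, (1, u) ∈ W ∧ (2, u) ∈ W := by
  induction J using Finset.induction_on with
  | empty =>
    obtain ⟨W, L, h, h1, h2, h3, h4⟩ := runD50 H P.Ve (Subset.refl _)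
    exact ⟨W, L, h, h1, h2, h3, h4, fun v hv => absurd hv (notMem_empty v)⟩
  | insert s J hs ih =>
    obtain ⟨W, L, h, hS, hX, hSi, hVe, hJW⟩ := ih ((subset_insert _ _).trans hJ)
    have hsV : s ∈ P.Vin := hJ (mem_insert_self _ _)
    obtain ⟨W', L', k1, k2, k3⟩ := stepD50 H h (s := (1, s)) (Or.inr (Or.inl ⟨rfl, hsV⟩))
    obtain ⟨W'', L'', l1, l2, l3⟩ := stepD50 H k1 (s := (2, s)) (Or.inr (Or.inr ⟨rfl, hsV, k3⟩))
    have l4 := extrans50 k2 l2
    refine ⟨W'', L'', l1, hS.trans (eximD50 l4), hX.trans (eximL50 l4), hSi.trans (eximD50 l4),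
      fun v hv => l4.1 (hVe v hv), fun v hv => ?_⟩
    rcases mem_insert.1 hv with rfl | hv
    · exact ⟨l2.1 k3, l3⟩
    · exact ⟨l4.1 (hJW v hv).1, l4.1 (hJW v hv).2⟩

theorem cover2 {n κe κ' : ℕ} {Ve Vin FX FXE FS JX JSe JSi : Finset ℕ} {β cc : ℕ → ℕ}
    (hβ : Set.InjOn β Ve) (dX1 : Disjoint FX FXE) (dX2 : Disjoint (FX ∪ FXE) JX)
    (dS1 : Disjoint FS (JSe ∪ JSi)) (dS2 : Disjoint JSe JSi) (hS0 : ∀ s ∈ FS ∪ (JSe ∪ JSi), 1 ≤ s)
    (hn : ∀ x ∈ FX ∪ FXE ∪ JX, x ≤ n) (hcc : ∀ u ∈ Vin, cc u ∉ FX ∪ FXE ∪ JX)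
    (h1 : ∀ s ∈ JSe, κe ≤ (Ve.filter fun v => β v + s ∈ FX ∪ FXE).card)
    (h3 : ∀ v ∈ Ve, κ' ≤ (FX.filter fun x => ad (β v) x ∈ FS).card)
    (h4 : ∀ u ∈ Vin, ∀ a ≤ n, κ' ≤ (FX.filter fun x => ad a x ∈ FS ∧ ad (cc u) x ∈ FS).card)
    (h5 : ∀ u ∈ Vin, ∀ s ∈ JSi, κ' ≤ (FX.filter fun x => ad (cc u) x ∈ FS ∧ x + s ∈ FX).card)
    (hκe : 2 * JSe.card < κe) (hκ' : 10 * (Ve.card + 2 * Vin.card) + 20 < κ')
    (hV : JX.card + FXE.card + JSi.card ≤ Vin.card) :
    ∃ ze y z : ℕ → ℕ,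
      Set.InjOn ze Ve ∧ Set.InjOn y Vin ∧ Set.InjOn z Vin ∧
      (∀ v ∈ Ve, ∀ u ∈ Vin, ze v ≠ y u ∧ ze v ≠ z u) ∧ (∀ u ∈ Vin, ∀ u' ∈ Vin, y u ≠ z u') ∧
      (∀ v ∈ Ve, ze v ∈ FX ∪ FXE) ∧ (∀ u ∈ Vin, y u ∈ FX ∧ z u ∈ FX ∪ FXE ∪ JX) ∧
      Set.InjOn (fun v => ad (β v) (ze v)) Ve ∧ Set.InjOn (fun u => ad (cc u) (y u)) Vin ∧
      Set.InjOn (fun u => ad (y u) (z u)) Vin ∧
      (∀ v ∈ Ve, ∀ u ∈ Vin, ad (β v) (ze v) ≠ ad (cc u) (y u) ∧ ad (β v) (ze v) ≠ ad (y u) (z u)) ∧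
      (∀ u ∈ Vin, ∀ u' ∈ Vin, ad (cc u) (y u) ≠ ad (y u') (z u')) ∧
      (∀ v ∈ Ve, ad (β v) (ze v) ∈ FS ∪ JSe) ∧ (∀ u ∈ Vin, ad (cc u) (y u) ∈ FS ∧ ad (y u) (z u) ∈ FS ∪ JSi) ∧
      JX ∪ FXE ⊆ Ve.image ze ∪ Vin.image z ∧
      JSe ⊆ Ve.image (fun v => ad (β v) (ze v)) ∧ JSi ⊆ Vin.image fun u => ad (y u) (z u) := by
  have H : Hy50 ⟨Ve, Vin, FX, FXE, FS, JX, JSe, JSi, β, cc⟩ n κe κ' :=
    ⟨hβ, dX1, dX2, dS1, dS2, hS0, hn, hcc, h1, h3, h4, h5, hκe, hκ', hV⟩
  obtain ⟨W, L, h, hS, hX, hSi, hVe, hVin⟩ := runE50 H Vin (Subset.refl _)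
  -- projections
  have m0 : ∀ v ∈ Ve, L (0, v) ∈ FX ∪ FXE ∧ ad (β v) (L (0, v)) ∈ FS ∪ JSe := by
    intro v hv
    rcases h.mm _ (hVe v hv) with k | k | k
    · exact k.2.2
    · exact absurd k.1 (by norm_num)
    · exact absurd k.1 (by norm_num)
  have m1 : ∀ u ∈ Vin, L (1, u) ∈ FX ∧ ad (cc u) (L (1, u)) ∈ FS := by
    intro v hv
    rcases h.mm _ (hVin v hv).1 with k | k | k
    · exact absurd k.1 (by norm_num)
    · exact k.2.2
    · exact absurd k.1 (by norm_num)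
  have m2 : ∀ u ∈ Vin, L (2, u) ∈ FX ∪ FXE ∪ JX ∧ ad (L (1, u)) (L (2, u)) ∈ FS ∪ JSi := by
    intro v hv
    rcases h.mm _ (hVin v hv).2 with k | k | k
    · exact absurd k.1 (by norm_num)
    · exact absurd k.1 (by norm_num)
    · exact k.2.2
  let P : Pm50 := ⟨Ve, Vin, FX, FXE, FS, JX, JSe, JSi, β, cc⟩
  have d0 : ∀ v, Df50 P L (0, v) = ad (β v) (L (0, v)) := fun v => by
    unfold Df50
    rw [if_pos rfl]
  have d1 : ∀ v, Df50 P L (1, v) = ad (cc v) (L (1, v)) := fun v => by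
    unfold Df50
    rw [if_neg (by norm_num), if_pos rfl]
  have d2 : ∀ v, Df50 P L (2, v) = ad (L (1, v)) (L (2, v)) := fun v => by
    unfold Df50
    rw [if_neg (by norm_num), if_neg (by norm_num)]
  have sl : ∀ s ∈ W, (s.1 = 0 ∧ s.2 ∈ Ve) ∨ (s.1 = 1 ∧ s.2 ∈ Vin) ∨ (s.1 = 2 ∧ s.2 ∈ Vin) := by
    intro s hs
    rcases h.mm s hs with k | k | k
    · exact Or.inl ⟨k.1, k.2.1⟩
    · exact Or.inr (Or.inl ⟨k.1, k.2.1⟩)
    · exact Or.inr (Or.inr ⟨k.1, k.2.1⟩)
  refine ⟨fun v => L (0, v), fun u => L (1, u), fun u => L (2, u), ?_, ?_, ?_, ?_, ?_, fun v hv => (m0 v hv).1,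
    fun u hu => ⟨(m1 u hu).1, (m2 u hu).1⟩, ?_, ?_, ?_, ?_, ?_, fun v hv => (m0 v hv).2,
    fun u hu => ⟨(m1 u hu).2, (m2 u hu).2⟩, ?_, ?_, ?_⟩
  · intro a ha b hb hab
    exact congrArg Prod.snd (h.inj (hVe a ha) (hVe b hb) hab)
  · intro a ha b hb hab
    exact congrArg Prod.snd (h.inj (hVin a ha).1 (hVin b hb).1 hab)
  · intro a ha b hb hab
    exact congrArg Prod.snd (h.inj (hVin a ha).2 (hVin b hb).2 hab)
  · intro v hv u hu
    refine ⟨fun hab => ?_, fun hab => ?_⟩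
    · exact absurd (congrArg Prod.fst (h.inj (hVe v hv) (hVin u hu).1 hab)) (by norm_num)
    · exact absurd (congrArg Prod.fst (h.inj (hVe v hv) (hVin u hu).2 hab)) (by norm_num)
  · intro u hu u' hu' hab
    exact absurd (congrArg Prod.fst (h.inj (hVin u hu).1 (hVin u' hu').2 hab)) (by norm_num)
  · intro a ha b hb hab
    have hab' : Df50 P L (0, a) = Df50 P L (0, b) := by rw [d0, d0]; exact hab
    exact congrArg Prod.snd (h.dinj (hVe a ha) (hVe b hb) hab')
  · intro a ha b hb hab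
    have hab' : Df50 P L (1, a) = Df50 P L (1, b) := by rw [d1, d1]; exact hab
    exact congrArg Prod.snd (h.dinj (hVin a ha).1 (hVin b hb).1 hab')
  · intro a ha b hb hab
    have hab' : Df50 P L (2, a) = Df50 P L (2, b) := by rw [d2, d2]; exact hab
    exact congrArg Prod.snd (h.dinj (hVin a ha).2 (hVin b hb).2 hab')
  · intro v hv u hu
    refine ⟨fun hab => ?_, fun hab => ?_⟩
    · have hab' : Df50 P L (0, v) = Df50 P L (1, u) := by rw [d0, d1]; exact hab
      exact absurd (congrArg Prod.fst (h.dinj (hVe v hv) (hVin u hu).1 hab')) (by norm_num)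
    · have hab' : Df50 P L (0, v) = Df50 P L (2, u) := by rw [d0, d2]; exact hab
      exact absurd (congrArg Prod.fst (h.dinj (hVe v hv) (hVin u hu).2 hab')) (by norm_num)
  · intro u hu u' hu' hab
    have hab' : Df50 P L (1, u) = Df50 P L (2, u') := by rw [d1, d2]; exact hab
    exact absurd (congrArg Prod.fst (h.dinj (hVin u hu).1 (hVin u' hu').2 hab')) (by norm_num)
  · intro x hx
    obtain ⟨t, ht, htx⟩ := mem_image.1 (hX hx)
    have hxF : x ∉ FX := by
      intro h0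
      rcases mem_union.1 hx with h6 | h6
      · exact (disjoint_left.1 dX2) (mem_union_left _ h0) h6
      · exact (disjoint_left.1 dX1) h0 h6
    obtain ⟨i, v⟩ := t
    rcases sl _ ht with ⟨k, k'⟩ | ⟨k, k'⟩ | ⟨k, k'⟩
    · change i = 0 at k
      change v ∈ Ve at k'
      subst k
      exact mem_union_left _ (mem_image.2 ⟨v, k', htx⟩)
    · change i = 1 at k
      change v ∈ Vin at k'
      subst k
      exact absurd (htx ▸ (m1 v k').1) hxF
    · change i = 2 at k
      change v ∈ Vin at k'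
      subst k
      exact mem_union_right _ (mem_image.2 ⟨v, k', htx⟩)
  · intro x hx
    obtain ⟨t, ht, htx⟩ := mem_image.1 (hS hx)
    have hxF : x ∉ FS := fun h0 => (disjoint_left.1 dS1) h0 (mem_union_left _ hx)
    have hxI : x ∉ JSi := fun h0 => (disjoint_left.1 dS2) hx h0
    obtain ⟨i, v⟩ := t
    rcases sl _ ht with ⟨k, k'⟩ | ⟨k, k'⟩ | ⟨k, k'⟩
    · change i = 0 at k
      change v ∈ Ve at k'
      subst k
      exact mem_image.2 ⟨v, k', (d0 v).symm.trans htx⟩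
    · change i = 1 at k
      change v ∈ Vin at k'
      subst k
      have h9 : ad (cc v) (L (1, v)) = x := (d1 v).symm.trans htx
      exact absurd (h9 ▸ (m1 v k').2) hxF
    · change i = 2 at k
      change v ∈ Vin at k'
      subst k
      have h9 : ad (L (1, v)) (L (2, v)) = x := (d2 v).symm.trans htx
      have h8 := (m2 v k').2
      rw [h9] at h8
      rcases mem_union.1 h8 with h8 | h8
      · exact absurd h8 hxF
      · exact absurd h8 hxI
  · intro x hx
    obtain ⟨t, ht, htx⟩ := mem_image.1 (hSi hx)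
    have hxF : x ∉ FS := fun h0 => (disjoint_left.1 dS1) h0 (mem_union_right _ hx)
    have hxI : x ∉ JSe := fun h0 => (disjoint_left.1 dS2) h0 hx
    obtain ⟨i, v⟩ := t
    rcases sl _ ht with ⟨k, k'⟩ | ⟨k, k'⟩ | ⟨k, k'⟩
    · change i = 0 at k
      change v ∈ Ve at k'
      subst k
      have h9 : ad (β v) (L (0, v)) = x := (d0 v).symm.trans htx
      have h8 := (m0 v k').2
      rw [h9] at h8
      rcases mem_union.1 h8 with h8 | h8
      · exact absurd h8 hxF
      · exact absurd h8 hxI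
    · change i = 1 at k
      change v ∈ Vin at k'
      subst k
      have h9 : ad (cc v) (L (1, v)) = x := (d1 v).symm.trans htx
      exact absurd (h9 ▸ (m1 v k').2) hxF
    · change i = 2 at k
      change v ∈ Vin at k'
      subst k
      exact mem_image.2 ⟨v, k', (d2 v).symm.trans htx⟩

end Pool.Agent.GRC
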