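import Pool.Agent.Helper28.GRC.Q0M

/-!
# GRC-CH1: loads of the chain vertices and of the non-spread part of the flexible leaves

`N = ∑_τ (|Q τ| + |F τ|)`, `|T| ≤ t n`, `t1 = 1000 (t + w/P)`, `R0 ≤ mm`.  (Use `Prm_cons`; `Psi_up/lo/lip/big`, `q0_row`, `Bf_lip`, `Bf_symm`, `Bf_zero`; `N κ = 1 ± t1`, `N ≤ n`, so `κ ≥ 0.99/n`, `κ ≤ 1.02/n`.)

Proof in words.
`mm_bounds`: at most `2|T|` flexible leaves have an exceptional parent (`iF`, at most one top and one exit parent per piece: `Geo.ex1`), so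
`(∑|F τ| - 2|T|)(1 - 8 t1) π y ≤ mm y ≤ (∑|F τ|)(1 + 8 t1) π y`.  For `0.005 n ≤ y ≤ 0.995 n`, `y ∈ X`: `π y ≥ κ(0.9 - t1)`, so `mm y ≥ (ε/2 - 2t) n · 0.99 · 0.88 κ ≥ ε/4`, and `R0 y ≤ e Bf y ≤ 0.33 e ≤ ε/4`;
for the other `y`: `R0 y = 0`.
`chX_up` (`x ∈ XC`): `∑∑ Pr + ∑_y mm y k y x ≤ N (1 + 8 t1) π x ≤ (1 + 8t1) N κ (Psi(2 pos x) + t1)` (`∑_y π y k y x = π x`, `rev`, `one`).  Subtract `∑_y R0 y k y x`: if `Bf x ≠ 0` (so `pos x ≥ 0.005 n`), the `y` with
`k y x ≠ 0` have `|y - (n - x)| ≤ w`, `R0 y ≥ e (Bf x - 50 w/n) - 10 e t`, and `k y x = π x k x y/π y` with `π x/π y ≥ (Psi(2 pos x) - t1)/(Psi(2 pos y) + t1) ≥ 1 - 3 t1` (`|pos x - pos y| ≤ w`), so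
`∑_y k y x ≥ 1 - 3 t1`.  Outside `XC` everything is `0` (`xc`, `ksupp`).
`chS`: tops and exits: at most `2|T|` edges, each `≤ 5κ`, together `≤ 11 t`.  Other edges of the chain: `eUp`, `eLo`.  Flexible: `∑_{y,x : ad y x = s} mm y k y x` is between
`(∑|F| - 2|T|)(1 - 8 t1) Dl s` and `(∑|F|)(1 + 8 t1) Dl s`.  `∑_{y,x : ad y x = s} R0 y k y x`: if `Bf ((n-s)/2) = 0` and all `Bf y = 0` near it, it is between `0` and `..`; in general the `y` with
`ad y x = s`, `|x+y-n| ≤ w` satisfy `|y - (n-s)/2| ≤ w` or `|y - (n+s)/2| ≤ w`, so `R0 y = e Bf((n-s)/2) ± (10 e t + 50 e w/n)` (`Bf_symm`), and `∑_{ad y x = s} k y x = ∑ π y k y x/π y`, between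
`Dl s/(κ(Psi + 2 t1))` and `Dl s/(κ (Psi - 2 t1))`, i.e. `1 ± 10 t1` for `s ∈ S`, `s + 50P + w ≤ n`, when `n - s ≥ 0.009 n` (if `n - s < 0.009 n` then `R0 y = 0` for all these `y`).
-/

set_option autoImplicit false


namespace Pool.Agent.GRC

open Finset Pool.Agent.SEM

private theorem pr_nn7 {L : FL} (hnn : ∀ ω, 0 ≤ L.wt ω) (E : (ℕ → ℕ) → Prop) : 0 ≤ L.Pr E := by
  unfold FL.Pr FL.Ex
  let := L.fin
  refine Finset.sum_nonneg fun ω _ => mul_nonneg (hnn ω) ?_
  beta_reduce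
  split_ifs <;> norm_num

private theorem pr_zero7 {L : FL} {E : (ℕ → ℕ) → Prop}
    (h : ∀ ω, L.wt ω ≠ 0 → ¬ E (L.Φ ω)) : L.Pr E = 0 := by
  unfold FL.Pr FL.Ex
  let := L.fin
  refine Finset.sum_eq_zero fun ω _ => ?_
  by_cases hw : L.wt ω = 0
  · rw [hw, zero_mul]
  · beta_reduce
    rw [if_neg (h ω hw), mul_zero]

private theorem facts7 {n P w D : ℕ} {t μ e t1 : ℝ} (h : Prm n P w D t μ e)
    (ht1 : t1 = 1000 * (t + w / P)) :
    0 < t1 ∧ t1 ≤ 1 / 10 ^ 6 ∧ 1000 * t ≤ t1 ∧ 1000 * ((w : ℝ) / P) ≤ t1 ∧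
      1000 * ((w : ℝ) / n) ≤ t1 ∧ 10 ^ 14 * w ≤ P ∧ 10 ^ 18 * P ≤ n ∧ 10 ^ 6 ≤ n ∧ 0 < P := by
  obtain ⟨hs, hwP, hPn, hw9, -, -, -⟩ := Prm_cons h
  have hP : 0 < P := by omega
  have hn : 0 < n := by omega
  have hPR : (0 : ℝ) < P := by exact_mod_cast hP
  have hnR : (0 : ℝ) < n := by exact_mod_cast hn
  have hwR : (0 : ℝ) < w := by exact_mod_cast h.w0
  have hwP0 : 0 < (w : ℝ) / P := div_pos hwR hPR
  have ht0 := h.t0
  have hDR : (10 : ℝ) ^ 5 ≤ D := by exact_mod_cast h.D1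
  have hsum : 0 < t + (w : ℝ) / P := by linarith
  have hsm : (10 : ℝ) ^ 14 * (t + w / P) ≤ Real.sqrt μ := by
    have h1 := h.small
    have h2 : (10 : ℝ) ^ 14 * (t + w / P) ≤ 10 ^ 9 * D * (t + w / P) := by
      apply mul_le_mul_of_nonneg_right _ hsum.le
      linarith
    linarith
  have hnw : (w : ℝ) / n ≤ w / P := by
    apply div_le_div_of_nonneg_left hwR.le hPR
    have : P ≤ n := by omega
    exact_mod_cast this
  refine ⟨by rw [ht1]; linarith, ?_, ?_, ?_, ?_, hwP, hPn, by omega, hP⟩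
  · rw [ht1]; linarith
  · rw [ht1]; linarith
  · rw [ht1]; linarith
  · rw [ht1]; linarith

/-- `n κ ≥ 1 - t1`. -/
private theorem kap7 {n : ℕ} {t1 κ N : ℝ} (hk : 0 < κ) (hkN : |N * κ - 1| ≤ t1) (hN2 : N ≤ n) :
    1 - t1 ≤ n * κ := by
  have h1 := (abs_le.mp hkN).1
  have h2 : N * κ ≤ n * κ := mul_le_mul_of_nonneg_right hN2 hk.le
  linarith

section
variable {n P w D : ℕ} {t μ e ξ t1 κ N ε : ℝ} {p lab : ℕ → ℕ} {R X S T : Finset ℕ} {Q ex F : ℕ → Finset ℕ}
  {k : ℕ → ℕ → ℝ} {π : ℕ → ℝ} {L0 : ℕ → FL}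

private theorem mm_up7 (hB : BG n P w p lab R X S T Q ex F t1 κ k π L0) (y : ℕ) :
    mm p T F L0 y ≤ ((∑ τ ∈ T, (F τ).card : ℕ) : ℝ) * (1 + 8 * t1) * π y := by
  unfold mm
  have h1 : ∀ τ ∈ T, ∑ u ∈ F τ, (L0 τ).Pr (fun φ => φ (p u) = y) ≤
      ((F τ).card : ℝ) * ((1 + 8 * t1) * π y) := by
    intro τ hτ
    have h2 : ∀ u ∈ F τ, (L0 τ).Pr (fun φ => φ (p u) = y) ≤ (1 + 8 * t1) * π y := fun u hu =>
      (hB.law τ hτ).mUp (p u) (hB.pF τ hτ u hu) y
    calc ∑ u ∈ F τ, (L0 τ).Pr (fun φ => φ (p u) = y) ≤ ∑ u ∈ F τ, (1 + 8 * t1) * π y :=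
          Finset.sum_le_sum h2
      _ = ((F τ).card : ℝ) * ((1 + 8 * t1) * π y) := by
          rw [Finset.sum_const, nsmul_eq_mul]
  calc ∑ τ ∈ T, ∑ u ∈ F τ, (L0 τ).Pr (fun φ => φ (p u) = y)
      ≤ ∑ τ ∈ T, ((F τ).card : ℝ) * ((1 + 8 * t1) * π y) := Finset.sum_le_sum h1
    _ = ((∑ τ ∈ T, (F τ).card : ℕ) : ℝ) * (1 + 8 * t1) * π y := by
        rw [← Finset.sum_mul]
        push_cast
        ring

private theorem mm_nn7 (hB : BG n P w p lab R X S T Q ex F t1 κ k π L0) (y : ℕ) :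
    0 ≤ mm p T F L0 y := by
  unfold mm
  exact Finset.sum_nonneg fun τ hτ => Finset.sum_nonneg fun u _ =>
    pr_nn7 (hB.law τ hτ).law.nn _

private theorem mm_lo7 (hB : BG n P w p lab R X S T Q ex F t1 κ k π L0) (y : ℕ)
    (hc : 0 ≤ (1 - 8 * t1) * π y) :
    (((∑ τ ∈ T, (F τ).card : ℕ) : ℝ) - 2 * T.card) * ((1 - 8 * t1) * π y) ≤ mm p T F L0 y := by
  classical
  unfold mm
  have h1 : ∀ τ ∈ T, (((F τ).card : ℝ) - 2) * ((1 - 8 * t1) * π y) ≤
      ∑ u ∈ F τ, (L0 τ).Pr (fun φ => φ (p u) = y) := by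
    intro τ hτ
    set G := (F τ).filter (fun u => ¬ Exc p (ex τ) τ (p u)) with hG
    set B := (F τ).filter (fun u => Exc p (ex τ) τ (p u)) with hBd
    have hcard : G.card + B.card = (F τ).card := by
      rw [hG, hBd, add_comm]
      exact Finset.card_filter_add_card_filter_not _
    have hB2 : B.card ≤ 2 := by
      have hinj : Set.InjOn p (B : Set ℕ) := by
        intro a ha b hb hab
        have ha' : a ∈ F τ := (Finset.mem_filter.mp (Finset.mem_coe.mp ha)).1
        have hb' : b ∈ F τ := (Finset.mem_filter.mp (Finset.mem_coe.mp hb)).1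
        exact hB.iF τ hτ (Finset.mem_coe.mpr ha') (Finset.mem_coe.mpr hb') hab
      have hsub : B.image p ⊆ insert τ ((ex τ).image p) := by
        intro v hv
        obtain ⟨u, hu, rfl⟩ := Finset.mem_image.mp hv
        have hE : Exc p (ex τ) τ (p u) := (Finset.mem_filter.mp hu).2
        rcases hE with h | ⟨r, hr, hpr⟩
        · rw [h]; exact Finset.mem_insert_self _ _
        · exact Finset.mem_insert_of_mem (Finset.mem_image.mpr ⟨r, hr, hpr⟩)
      calc B.card = (B.image p).card := (Finset.card_image_of_injOn hinj).symm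
        _ ≤ (insert τ ((ex τ).image p)).card := Finset.card_le_card hsub
        _ ≤ ((ex τ).image p).card + 1 := Finset.card_insert_le _ _
        _ ≤ (ex τ).card + 1 := Nat.add_le_add_right Finset.card_image_le _
        _ ≤ 2 := by
            have := (hB.geo τ hτ).ex1
            omega
    have hGc : ((F τ).card : ℝ) - 2 ≤ (G.card : ℝ) := by
      have : (F τ).card ≤ G.card + 2 := by omega
      have h3 : ((F τ).card : ℝ) ≤ (G.card : ℝ) + 2 := by exact_mod_cast this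
      linarith
    calc (((F τ).card : ℝ) - 2) * ((1 - 8 * t1) * π y) ≤ (G.card : ℝ) * ((1 - 8 * t1) * π y) :=
          mul_le_mul_of_nonneg_right hGc hc
      _ = ∑ u ∈ G, (1 - 8 * t1) * π y := by rw [Finset.sum_const, nsmul_eq_mul]
      _ ≤ ∑ u ∈ G, (L0 τ).Pr (fun φ => φ (p u) = y) := by
          refine Finset.sum_le_sum fun u hu => ?_
          have hu' := Finset.mem_filter.mp hu
          exact (hB.law τ hτ).mLo (p u) (hB.pF τ hτ u hu'.1) hu'.2 y
      _ ≤ ∑ u ∈ F τ, (L0 τ).Pr (fun φ => φ (p u) = y) := by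
          apply Finset.sum_le_sum_of_subset_of_nonneg (Finset.filter_subset _ _)
          intro u _ _
          exact pr_nn7 (hB.law τ hτ).law.nn _
  calc (((∑ τ ∈ T, (F τ).card : ℕ) : ℝ) - 2 * T.card) * ((1 - 8 * t1) * π y)
      = ∑ τ ∈ T, (((F τ).card : ℝ) - 2) * ((1 - 8 * t1) * π y) := by
        rw [← Finset.sum_mul, Finset.sum_sub_distrib, Finset.sum_const, nsmul_eq_mul]
        push_cast
        ring
    _ ≤ _ := Finset.sum_le_sum h1

/-- lower bound for `π` in the middle -/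
private theorem pi_lo7 (h : Prm n P w D t μ e) (hξ : 0 ≤ ξ) (hξ2 : ξ ≤ 40 * Real.sqrt μ)
    (ht1 : t1 = 1000 * (t + w / P)) (hk : Kr n P w X S e ξ t1 κ N k π) {y : ℕ} (hy : y ∈ X)
    (h1 : 49 * n ≤ 10000 * y) (h2 : 10000 * y ≤ 9951 * n) :
    κ * (Psi n P e ξ (2 * (pos n y : ℝ)) - t1) ≤ π y ∧ 9 / 10 ≤ Psi n P e ξ (2 * (pos n y : ℝ)) ∧
      50 * (P : ℝ) ≤ 2 * (pos n y : ℝ) ∧ 2 * (pos n y : ℝ) ≤ n := by
  obtain ⟨-, -, -, -, -, hwP, hPn, hn6, hP⟩ := facts7 h ht1
  have hyn : y ≤ n := by omega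
  have hp1 : 49 * n ≤ 10000 * pos n y := by
    unfold pos
    rcases le_total y (n - y) with h3 | h3
    · rw [min_eq_left h3]; exact h1
    · rw [min_eq_right h3]; omega
  have hp2 : 2 * pos n y ≤ n := by
    unfold pos
    rcases le_total y (n - y) with h3 | h3
    · rw [min_eq_left h3]; omega
    · rw [min_eq_right h3]; omega
  have hp3 : 25 * P ≤ pos n y := by omega
  have hp1R : 49 * (n : ℝ) ≤ 10000 * (pos n y : ℝ) := by exact_mod_cast hp1
  have hp2R : 2 * (pos n y : ℝ) ≤ n := by exact_mod_cast hp2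
  have hp3R : 25 * (P : ℝ) ≤ (pos n y : ℝ) := by exact_mod_cast hp3
  have hn0 : (0 : ℝ) ≤ n := Nat.cast_nonneg n
  refine ⟨hk.piLo y hy (by omega) (by omega), ?_, by linarith, hp2R⟩
  exact Psi_big h hξ hξ2 (by linarith) hp2R

theorem mm_bounds (h : Prm n P w D t μ e) (hL : Loc n P w t X S) (hξ : 0 ≤ ξ) (hξ2 : ξ ≤ 40 * Real.sqrt μ)
    (ht1 : t1 = 1000 * (t + w / P)) (hk : Kr n P w X S e ξ t1 κ N k π)
    (hB : BG n P w p lab R X S T Q ex F t1 κ k π L0) (hT : (T.card : ℝ) ≤ t * n)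
    (hN : N = ((∑ τ ∈ T, ((Q τ).card + (F τ).card) : ℕ) : ℝ)) (hN1 : 99 / 100 * (n : ℝ) ≤ N) (hN2 : N ≤ n)
    (hε : 0 < ε) (he : 4 * e ≤ ε) (hF : ε / 2 * n ≤ ((∑ τ ∈ T, (F τ).card : ℕ) : ℝ)) (htε : 100 * t ≤ ε) :
    (∀ y, R0 n X S e y ≤ mm p T F L0 y) ∧ (∀ y, mm p T F L0 y ≤ ((∑ τ ∈ T, (F τ).card : ℕ) : ℝ) * (1 + 8 * t1) * π y) ∧
      (∀ y ∈ X, 5 * n ≤ 1000 * y → 1000 * y ≤ 995 * n → ε / 4 ≤ mm p T F L0 y) := by
  have _ := hN
  have _ := hN1
  obtain ⟨ht10, ht16, -, -, -, hwP, hPn, hn6, hP⟩ := facts7 h ht1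
  obtain ⟨hR0, hR1, -, hR3⟩ := q0_row h hL
  have hbig : ∀ y ∈ X, 5 * n ≤ 1000 * y → 1000 * y ≤ 995 * n → ε / 4 ≤ mm p T F L0 y := by
    intro y hy hy1 hy2
    obtain ⟨hpi, hPsi, -, -⟩ := pi_lo7 h hξ hξ2 ht1 hk hy (by omega) (by omega)
    have hκ := hk.kpos
    have hpi2 : κ * (89 / 100) ≤ π y := by
      refine le_trans (mul_le_mul_of_nonneg_left ?_ hκ.le) hpi
      linarith
    have hc : 0 ≤ (1 - 8 * t1) * π y := mul_nonneg (by linarith) (hk.pnn y)
    refine le_trans ?_ (mm_lo7 hB y hc)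
    have hn0 : (0 : ℝ) < n := by exact_mod_cast h.hn
    have hA : 48 / 100 * ε * n ≤ ((∑ τ ∈ T, (F τ).card : ℕ) : ℝ) - 2 * T.card := by
      have h3 : t * n ≤ ε / 100 * n := mul_le_mul_of_nonneg_right (by linarith) hn0.le
      linarith
    have hnκ := kap7 hk.kpos hk.kN hN2
    have hcc : 99 / 100 * (κ * (89 / 100)) ≤ (1 - 8 * t1) * π y := by
      apply mul_le_mul _ hpi2 (by positivity) (by linarith)
      linarith
    calc ε / 4 ≤ 48 / 100 * ε * (99 / 100 * (89 / 100)) * (99 / 100) := by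
          have : 0 < ε := hε
          nlinarith
      _ ≤ 48 / 100 * ε * (99 / 100 * (89 / 100)) * (n * κ) := by
          apply mul_le_mul_of_nonneg_left _ (by positivity)
          linarith
      _ = (48 / 100 * ε * n) * (99 / 100 * (κ * (89 / 100))) := by ring
      _ ≤ _ := by
          apply mul_le_mul hA hcc (by positivity)
          exact le_trans (by positivity) hA
  refine ⟨fun y => ?_, mm_up7 hB, hbig⟩
  by_cases hyX : y ∈ X
  · by_cases hy1 : 1000 * y ≤ 5 * n ∨ 995 * n ≤ 1000 * y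
    · rw [hR3 y hy1]
      exact mm_nn7 hB y
    · push Not at hy1
      have h1 := hbig y hyX hy1.1.le hy1.2.le
      have h2 := hR1 y
      have h3 := Bf_le hn6 (y : ℝ)
      have h4 : e * Bf n y ≤ e * (33 / 100) := mul_le_mul_of_nonneg_left h3 h.e0.le
      have := h.e0
      linarith
  · have hz : R0 n X S e y = 0 := by
      unfold R0 rowS
      refine Finset.sum_eq_zero fun z _ => ?_
      unfold q0f
      rw [if_neg]
      rintro ⟨h1, -⟩
      exact hyX h1
    rw [hz]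
    exact mm_nn7 hB y

/-- lower bound for the load of the spread part: `∑_y R0 y k y x`. -/
private theorem R0k_lo7 (h : Prm n P w D t μ e) (hL : Loc n P w t X S) (hξ : 0 ≤ ξ) (hξ2 : ξ ≤ 40 * Real.sqrt μ)
    (ht1 : t1 = 1000 * (t + w / P)) (hk : Kr n P w X S e ξ t1 κ N k π) {x : ℕ} (hx : x ∈ XC n P X) :
    e * Bf n x - t1 ≤ ∑ y ∈ X, R0 n X S e y * k y x := by
  obtain ⟨ht10, ht16, htt, hwPr, hwn, hwP, hPn, hn6, hP⟩ := facts7 h ht1
  obtain ⟨hR0, -, hR2, -⟩ := q0_row h hL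
  have hnonneg : 0 ≤ ∑ y ∈ X, R0 n X S e y * k y x :=
    Finset.sum_nonneg fun y _ => mul_nonneg (hR0 y) (hk.knn y x)
  have he0 := h.e0
  have he1 := h.e1
  have hn0 : (0 : ℝ) < n := by exact_mod_cast h.hn
  have hPR : (0 : ℝ) < P := by exact_mod_cast hP
  by_cases hBx : 1000 * x ≤ 5 * n ∨ 995 * n ≤ 1000 * x
  · have h0 : Bf n (x : ℝ) = 0 := by
      apply Bf_zero hn6
      rcases hBx with h1 | h1
      · left; exact_mod_cast h1
      · right; exact_mod_cast h1
    rw [h0]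
    linarith
  · push Not at hBx
    obtain ⟨hx1, hx2⟩ := hBx
    have hxX : x ∈ X := (Finset.mem_filter.mp hx).1
    obtain ⟨hpix, hPsix, hp50, hpn⟩ := pi_lo7 h hξ hξ2 ht1 hk hxX (by omega) (by omega)
    have hκ := hk.kpos
    have hxn : x ≤ n := by omega
    -- comparison of k y x with k x y
    have hcmp : ∀ y ∈ X, (1 - 3 * t1) * k x y ≤ k y x ∧
        (k y x ≠ 0 → e * Bf n x - e * (50 * (w / n)) - 10 * e * t ≤ R0 n X S e y) := by
      intro y hy
      have hside : k x y ≠ 0 ∨ k y x ≠ 0 → n ≤ x + y + w ∧ x + y ≤ n + w ∧ y ∈ XC n P X := by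
        rintro (h1 | h1)
        · obtain ⟨-, h2, -, h3, h4⟩ := hk.ksupp x y h1
          exact ⟨h3, h4, h2⟩
        · obtain ⟨h2, -, -, h3, h4⟩ := hk.ksupp y x h1
          exact ⟨by omega, by omega, h2⟩
      constructor
      · by_cases hxy : k x y = 0
        · rw [hxy, mul_zero]
          exact hk.knn y x
        · obtain ⟨h3, h4, hyXC⟩ := hside (Or.inl hxy)
          obtain ⟨hpiy, hPsiy, hp50y, hpny⟩ := pi_lo7 h hξ hξ2 ht1 hk hy (by omega) (by omega)
          have hpiyU := hk.piUp y hyXC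
          have hlip := Psi_lip h hξ hξ2 hp50y hpny hp50 hpn
          have hposd : |2 * (pos n y : ℝ) - 2 * (pos n x : ℝ)| ≤ 2 * w := by
            have hyn : y ≤ n := by omega
            have h5 : pos n y ≤ pos n x + w := by
              unfold pos
              rcases le_total y (n - y) with h6 | h6 <;> rcases le_total x (n - x) with h7 | h7
              · rw [min_eq_left h6, min_eq_left h7]; omega
              · rw [min_eq_left h6, min_eq_right h7]; omega
              · rw [min_eq_right h6, min_eq_left h7]; omega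
              · rw [min_eq_right h6, min_eq_right h7]; omega
            have h5' : pos n x ≤ pos n y + w := by
              unfold pos
              rcases le_total y (n - y) with h6 | h6 <;> rcases le_total x (n - x) with h7 | h7
              · rw [min_eq_left h6, min_eq_left h7]; omega
              · rw [min_eq_left h6, min_eq_right h7]; omega
              · rw [min_eq_right h6, min_eq_left h7]; omega
              · rw [min_eq_right h6, min_eq_right h7]; omega
            have h5R : (pos n y : ℝ) ≤ pos n x + w := by exact_mod_cast h5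
            have h5R' : (pos n x : ℝ) ≤ pos n y + w := by exact_mod_cast h5'
            rw [abs_le]
            constructor <;> linarith
          have hd : |Psi n P e ξ (2 * (pos n y : ℝ)) - Psi n P e ξ (2 * (pos n x : ℝ))| ≤ t1 / 1000 := by
            refine hlip.trans ?_
            calc |2 * (pos n y : ℝ) - 2 * (pos n x : ℝ)| / (50 * P) ≤ 2 * w / (50 * P) :=
                  div_le_div_of_nonneg_right hposd (by positivity)
              _ = (w / P) / 25 := by
                  field_simp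
                  ring
              _ ≤ t1 / 1000 := by linarith
          have hd1 := (abs_le.mp hd).2
          set a := Psi n P e ξ (2 * (pos n x : ℝ)) with ha
          set b := Psi n P e ξ (2 * (pos n y : ℝ)) with hb
          have hpiy0 : 0 < π y := by
            refine lt_of_lt_of_le ?_ hpiy
            apply mul_pos hκ
            linarith
          have hratio : (1 - 3 * t1) * π y ≤ π x := by
            refine le_trans ?_ hpix
            have h8 : (1 - 3 * t1) * (b + t1) ≤ a - t1 := by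
              nlinarith
            calc (1 - 3 * t1) * π y ≤ (1 - 3 * t1) * (κ * (b + t1)) :=
                  mul_le_mul_of_nonneg_left hpiyU (by linarith)
              _ = κ * ((1 - 3 * t1) * (b + t1)) := by ring
              _ ≤ κ * (a - t1) := mul_le_mul_of_nonneg_left h8 hκ.le
          have hrev := hk.rev x y
          have h9 : (1 - 3 * t1) * k x y * π y ≤ k y x * π y := by
            calc (1 - 3 * t1) * k x y * π y = ((1 - 3 * t1) * π y) * k x y := by ring
              _ ≤ π x * k x y := mul_le_mul_of_nonneg_right hratio (hk.knn x y)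
              _ = k y x * π y := by rw [hrev]; ring
          exact le_of_mul_le_mul_right h9 hpiy0
      · intro hyx
        obtain ⟨h3, h4, hyXC⟩ := hside (Or.inr hyx)
        refine le_trans ?_ (hR2 y hy)
        have h10 : |Bf n (y : ℝ) - Bf n ((n : ℝ) - x)| ≤ 50 * |(y : ℝ) - ((n : ℝ) - x)| / n :=
          Bf_lip hn6 _ _
        have h11 : |(y : ℝ) - ((n : ℝ) - x)| ≤ w := by
          have h3R : (n : ℝ) ≤ x + y + w := by exact_mod_cast h3
          have h4R : (x : ℝ) + y ≤ n + w := by exact_mod_cast h4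
          rw [abs_le]
          constructor <;> linarith
        have h12 : 50 * |(y : ℝ) - ((n : ℝ) - x)| / n ≤ 50 * (w / n) := by
          rw [← mul_div_assoc]
          apply div_le_div_of_nonneg_right _ hn0.le
          linarith
        have h13 : Bf n ((n : ℝ) - x) = Bf n x := Bf_symm h.hn _
        have h14 := (abs_le.mp (h10.trans h12)).1
        rw [h13] at h14
        have h15 : e * (Bf n x - 50 * (w / n)) ≤ e * Bf n y :=
          mul_le_mul_of_nonneg_left (by linarith) he0.le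
        linarith
    set c := e * Bf n x - e * (50 * (w / n)) - 10 * e * t with hc
    have hcb : e * (50 * ((w : ℝ) / n)) + 10 * e * t ≤ t1 / 10 := by
      have h16 : e * (50 * ((w : ℝ) / n)) ≤ 1 / 1000 * (50 * (w / n)) :=
        mul_le_mul_of_nonneg_right he1 (by positivity)
      have h17 : 10 * e * t ≤ 10 * (1 / 1000) * t :=
        mul_le_mul_of_nonneg_right (by linarith) h.t0.le
      linarith
    rcases le_or_gt c 0 with hc0 | hc0
    · have : e * Bf n x ≤ t1 / 10 := by linarith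
      linarith
    · have hterm : ∀ y ∈ X, c * ((1 - 3 * t1) * k x y) ≤ R0 n X S e y * k y x := by
        intro y hy
        obtain ⟨h18, h19⟩ := hcmp y hy
        by_cases hyx : k y x = 0
        · have h20 : (1 - 3 * t1) * k x y ≤ 0 := by rw [← hyx]; exact h18
          rw [hyx, mul_zero]
          exact mul_nonpos_of_nonneg_of_nonpos hc0.le h20
        · calc c * ((1 - 3 * t1) * k x y) ≤ c * k y x := mul_le_mul_of_nonneg_left h18 hc0.le
            _ ≤ R0 n X S e y * k y x := mul_le_mul_of_nonneg_right (h19 hyx) (hk.knn y x)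
      have hsum := Finset.sum_le_sum hterm
      have hone := hk.one x hx
      have h21 : ∑ y ∈ X, c * ((1 - 3 * t1) * k x y) = c * (1 - 3 * t1) := by
        rw [← Finset.mul_sum, ← Finset.mul_sum, hone, mul_one]
      rw [h21] at hsum
      have hBle := Bf_le hn6 (x : ℝ)
      have hc1 : c ≤ 1 / 1000 := by
        have h22 : e * Bf n x ≤ 1 / 1000 * (33 / 100) := by
          apply mul_le_mul he1 hBle (Bf_nonneg n _) (by norm_num)
        have h23 : 0 ≤ e * (50 * ((w : ℝ) / n)) + 10 * e * t := by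
          have := h.t0
          positivity
        linarith
      have h24 : c * (3 * t1) ≤ 1 / 1000 * (3 * t1) :=
        mul_le_mul_of_nonneg_right hc1 (by linarith)
      have h25 : c * (1 - 3 * t1) = c - c * (3 * t1) := by ring
      linarith

theorem chX_up (h : Prm n P w D t μ e) (hL : Loc n P w t X S) (hξ : 0 ≤ ξ) (hξ2 : ξ ≤ 40 * Real.sqrt μ)
    (ht1 : t1 = 1000 * (t + w / P)) (hk : Kr n P w X S e ξ t1 κ N k π)
    (hB : BG n P w p lab R X S T Q ex F t1 κ k π L0) (hT : (T.card : ℝ) ≤ t * n)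
    (hN : N = ((∑ τ ∈ T, ((Q τ).card + (F τ).card) : ℕ) : ℝ)) (hN1 : 99 / 100 * (n : ℝ) ≤ N) (hN2 : N ≤ n)
    (hm : ∀ y, R0 n X S e y ≤ mm p T F L0 y) :
    (∀ x ∈ XC n P X, chX n p X S T Q F e k L0 x ≤
      Psi n P e ξ (2 * (pos n x : ℝ)) - e * Bf n x + 100 * t1) ∧
    (∀ x, 0 ≤ chX n p X S T Q F e k L0 x) ∧
    (∀ x, x ∉ XC n P X → chX n p X S T Q F e k L0 x = 0) := by
  have _ := hT
  have _ := hN1
  have _ := hN2
  obtain ⟨ht10, ht16, htt, hwPr, hwn, hwP, hPn, hn6, hP⟩ := facts7 h ht1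
  refine ⟨fun x hx => ?_, fun x => ?_, fun x hx => ?_⟩
  · have hlow := R0k_lo7 h hL hξ hξ2 ht1 hk hx
    have hsplit : ∑ y ∈ X, (mm p T F L0 y - R0 n X S e y) * k y x
        = ∑ y ∈ X, mm p T F L0 y * k y x - ∑ y ∈ X, R0 n X S e y * k y x := by
      rw [← Finset.sum_sub_distrib]
      exact Finset.sum_congr rfl fun y _ => by ring
    have h1 : ∑ y ∈ X, mm p T F L0 y * k y x ≤
        ((∑ τ ∈ T, (F τ).card : ℕ) : ℝ) * (1 + 8 * t1) * π x := by
      calc ∑ y ∈ X, mm p T F L0 y * k y x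
          ≤ ∑ y ∈ X, (((∑ τ ∈ T, (F τ).card : ℕ) : ℝ) * (1 + 8 * t1) * π x) * k x y := by
            refine Finset.sum_le_sum fun y _ => ?_
            have h2 := mul_le_mul_of_nonneg_right (mm_up7 hB y) (hk.knn y x)
            have hrev := hk.rev x y
            calc mm p T F L0 y * k y x ≤ ((∑ τ ∈ T, (F τ).card : ℕ) : ℝ) * (1 + 8 * t1) * π y * k y x := h2
              _ = ((∑ τ ∈ T, (F τ).card : ℕ) : ℝ) * (1 + 8 * t1) * (π y * k y x) := by ring
              _ = _ := by rw [← hrev]; ring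
        _ = ((∑ τ ∈ T, (F τ).card : ℕ) : ℝ) * (1 + 8 * t1) * π x := by
            rw [← Finset.mul_sum, hk.one x hx, mul_one]
    have h2 : ∑ τ ∈ T, ∑ v ∈ Q τ, (L0 τ).Pr (fun φ => φ v = x) ≤
        ((∑ τ ∈ T, (Q τ).card : ℕ) : ℝ) * (1 + 8 * t1) * π x := by
      calc ∑ τ ∈ T, ∑ v ∈ Q τ, (L0 τ).Pr (fun φ => φ v = x)
          ≤ ∑ τ ∈ T, ((Q τ).card : ℝ) * ((1 + 8 * t1) * π x) := by
            refine Finset.sum_le_sum fun τ hτ => ?_
            calc ∑ v ∈ Q τ, (L0 τ).Pr (fun φ => φ v = x) ≤ ∑ v ∈ Q τ, (1 + 8 * t1) * π x :=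
                  Finset.sum_le_sum fun v hv => (hB.law τ hτ).mUp v hv x
              _ = ((Q τ).card : ℝ) * ((1 + 8 * t1) * π x) := by rw [Finset.sum_const, nsmul_eq_mul]
        _ = _ := by
            rw [← Finset.sum_mul]
            push_cast
            ring
    have hNs : N = ((∑ τ ∈ T, (Q τ).card : ℕ) : ℝ) + ((∑ τ ∈ T, (F τ).card : ℕ) : ℝ) := by
      rw [hN, Finset.sum_add_distrib]
      push_cast
      ring
    have h3 : chX n p X S T Q F e k L0 x ≤ N * (1 + 8 * t1) * π x - (e * Bf n x - t1) := by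
      unfold chX
      rw [hsplit, hNs]
      have : (((∑ τ ∈ T, (Q τ).card : ℕ) : ℝ) + ((∑ τ ∈ T, (F τ).card : ℕ) : ℝ)) * (1 + 8 * t1) * π x =
        ((∑ τ ∈ T, (Q τ).card : ℕ) : ℝ) * (1 + 8 * t1) * π x +
          ((∑ τ ∈ T, (F τ).card : ℕ) : ℝ) * (1 + 8 * t1) * π x := by ring
      rw [this]
      linarith
    have hxm := Finset.mem_filter.mp hx
    have hxX := hxm.1
    have hxn : x ≤ n := by omega
    have hp25 : 25 * P ≤ pos n x := by
      unfold pos
      rw [le_min_iff]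
      omega
    have hp2 : 2 * pos n x ≤ n := by
      unfold pos
      rcases le_total x (n - x) with h6 | h6
      · rw [min_eq_left h6]; omega
      · rw [min_eq_right h6]; omega
    have hp25R : 25 * (P : ℝ) ≤ (pos n x : ℝ) := by exact_mod_cast hp25
    have hp2R : 2 * (pos n x : ℝ) ≤ n := by exact_mod_cast hp2
    have hPsU := Psi_up h hξ hξ2 (s := 2 * (pos n x : ℝ)) (by linarith) hp2R
    have hPsL := Psi_lo h hξ hξ2 (s := 2 * (pos n x : ℝ)) (by linarith) hp2R
    set a := Psi n P e ξ (2 * (pos n x : ℝ)) with ha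
    have hNκ := (abs_le.mp hk.kN).2
    have hN0 : 0 ≤ N := by rw [hN]; exact Nat.cast_nonneg _
    have h4 : N * (1 + 8 * t1) * π x ≤ a + 20 * t1 := by
      calc N * (1 + 8 * t1) * π x ≤ N * (1 + 8 * t1) * (κ * (a + t1)) :=
            mul_le_mul_of_nonneg_left (hk.piUp x hx) (by positivity)
        _ = (N * κ) * ((1 + 8 * t1) * (a + t1)) := by ring
        _ ≤ (1 + t1) * ((1 + 8 * t1) * (a + t1)) := by
            apply mul_le_mul_of_nonneg_right (by linarith)
            apply mul_nonneg (by linarith) (by linarith)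
        _ ≤ a + 20 * t1 := by
            have h5 : (1 + t1) * (1 + 8 * t1) ≤ 1 + 10 * t1 := by nlinarith
            calc (1 + t1) * ((1 + 8 * t1) * (a + t1)) = ((1 + t1) * (1 + 8 * t1)) * (a + t1) := by ring
              _ ≤ (1 + 10 * t1) * (a + t1) := mul_le_mul_of_nonneg_right h5 (by linarith)
              _ ≤ a + 20 * t1 := by nlinarith
    linarith
  · unfold chX
    apply add_nonneg
    · exact Finset.sum_nonneg fun τ hτ => Finset.sum_nonneg fun v _ =>
        pr_nn7 (hB.law τ hτ).law.nn _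
    · exact Finset.sum_nonneg fun y _ => mul_nonneg (by linarith [hm y]) (hk.knn y x)
  · unfold chX
    have h1 : ∑ τ ∈ T, ∑ v ∈ Q τ, (L0 τ).Pr (fun φ => φ v = x) = 0 := by
      refine Finset.sum_eq_zero fun τ hτ => Finset.sum_eq_zero fun v hv => ?_
      apply pr_zero7
      intro ω hω hv2
      exact hx (hv2 ▸ (hB.law τ hτ).xc ω hω v hv)
    have h2 : ∑ y ∈ X, (mm p T F L0 y - R0 n X S e y) * k y x = 0 := by
      refine Finset.sum_eq_zero fun y _ => ?_
      by_cases hyx : k y x = 0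
      · rw [hyx, mul_zero]
      · exact absurd (hk.ksupp y x hyx).2.1 hx
    rw [h1, h2, add_zero]

end

end Pool.Agent.GRC
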