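import Pool.Agent.Helper28.GRC.Q0M

/-!
# GRC-CH2: loads of the chain vertices and of the non-spread part of the flexible leaves

`N = ∑_τ (|Q τ| + |F τ|)`, `|T| ≤ t n`, `t1 = 1000 (t + w/P)`, `R0 ≤ mm`.  (Use `Prm_cons`; `Psi_up/lo/lip/big`, `q0_row`, `Bf_lip`, `Bf_symm`, `Bf_zero`; `N κ = 1 ± t1`, `N ≤ n`, so `κ ≥ 0.99/n`, `κ ≤ 1.02/n`.)

Proof in words.
`mm_bounds`: at most `2|T|` flexible leaves have an exceptional parent (`iF`, at most one top and one exit parent per piece: `Geo.ex1`), so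
`(∑|F τ| - 2|T|)(1 - 8 t1) π y ≤ mm y ≤ (∑|F τ|)(1 + 8 t1) π y`.  For `0.005 n ≤ y ≤ 0.995 n`, `y ∈ X`: `π y ≥ κ(0.9 - t1)`, so `mm y ≥ (ε/2 - 2t) n · 0.99 · 0.88 κ ≥ ε/4`, and `R0 y ≤ e Bf y ≤ 0.33 e ≤ ε/4`;
for the other `y`: `R0 y = 0`.
`chX_up` (`x ∈ XC`): `∑∑ Pr + ∑_y mm y k y x ≤ N (1 + 8 t1) π x ≤ (1 + 8t1) N κ (Psi(2 pos x) + t1)` (`∑_y π y k y x = π x`, `rev`, `one`).  Subtract `∑_y R0 y k y x`: if `Bf x ≠ 0` (so `pos x ≥ 0.005 n`), the `y` with
`k y x ≠ 0` have `|y - (n - x)| ≤ w`, `R0 y ≥ e (Bf x - 50 w/n) - 10 e t`, and `k y x = π x k x y/π y` with `π x/π y ≥ (Psi(2 pos x) - t1)/(Psi(2 pos y) + t1) ≥ 1 - 3 t1` (`|pos x - pos y| ≤ w`), so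
`∑_y k y x ≥ 1 - 3 t1`.  Outside `XC` everything is `0` (`xc`, `ksupp`).
`chS`: tops and exits: at most `2|T|` edges, each `≤ 5κ`, together `≤ 11 t`.  Other edges of the chain: `eUp`, `eLo`.  Flexible: `∑_{y,x : ad y x = s} mm y k y x` is between
`(∑|F| - 2|T|)(1 - 8 t1) Dl s` and `(∑|F|)(1 + 8 t1) Dl s`.  `∑_{y,x : ad y x = s} R0 y k y x`: if `Bf ((n-s)/2) = 0` and all `Bf y = 0` near it, it is between `0` and `..`; in general the `y` with
`ad y x = s`, `|x+y-n| ≤ w` satisfy `|y - (n-s)/2| ≤ w` or `|y - (n+s)/2| ≤ w`, so `R0 y = e Bf((n-s)/2) ± (10 e t + 50 e w/n)` (`Bf_symm`), and `∑_{ad y x = s} k y x = ∑ π y k y x/π y`, between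
`Dl s/(κ(Psi + 2 t1))` and `Dl s/(κ (Psi - 2 t1))`, i.e. `1 ± 10 t1` for `s ∈ S`, `s + 50P + w ≤ n`, when `n - s ≥ 0.009 n` (if `n - s < 0.009 n` then `R0 y = 0` for all these `y`).
-/

set_option autoImplicit false

namespace Pool.Agent.GRC

open Finset Pool.Agent.SEM

section
variable {n P w D : ℕ} {t μ e ξ t1 κ N ε : ℝ} {p lab : ℕ → ℕ} {R X S T : Finset ℕ} {Q ex F : ℕ → Finset ℕ}
  {k : ℕ → ℕ → ℝ} {π : ℕ → ℝ} {L0 : ℕ → FL}

private theorem Pr_nonneg50 {L : FL} (hnn : ∀ ω, 0 ≤ L.wt ω) (E : (ℕ → ℕ) → Prop) : 0 ≤ L.Pr E := by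
  classical
  unfold FL.Pr FL.Ex
  letI := L.fin
  refine Finset.sum_nonneg fun ω _ => mul_nonneg (hnn ω) ?_
  dsimp only
  split_ifs <;> norm_num

/-- the part of the flexible leaves -/
private noncomputable def A50 (p : ℕ → ℕ) (X T : Finset ℕ) (F : ℕ → Finset ℕ)
    (k : ℕ → ℕ → ℝ) (L0 : ℕ → FL) (s : ℕ) : ℝ :=
  ∑ y ∈ X, ∑ x ∈ X, if ad y x = s then mm p T F L0 y * k y x else 0

private noncomputable def B50 (n : ℕ) (X S : Finset ℕ) (e : ℝ) (k : ℕ → ℕ → ℝ) (s : ℕ) : ℝ :=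
  ∑ y ∈ X, ∑ x ∈ X, if ad y x = s then R0 n X S e y * k y x else 0

private noncomputable def C50 (p : ℕ → ℕ) (T : Finset ℕ) (Q ex : ℕ → Finset ℕ)
    (L0 : ℕ → FL) (s : ℕ) : ℝ :=
  ∑ τ ∈ T, ∑ i ∈ Q τ ∪ ex τ, (L0 τ).Pr (fun φ => ad (φ i) (φ (p i)) = s)

private noncomputable def K50 (X : Finset ℕ) (k : ℕ → ℕ → ℝ) (s : ℕ) : ℝ :=
  ∑ y ∈ X, ∑ x ∈ X, if ad y x = s then k y x else 0

private theorem chS_eq50 (s : ℕ) : chS n p X S T Q ex F e k L0 s =
    C50 p T Q ex L0 s + (A50 p X T F k L0 s - B50 n X S e k s) := by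
  unfold chS A50 B50 C50
  congr 1
  rw [← Finset.sum_sub_distrib]
  refine Finset.sum_congr rfl fun y _ => ?_
  rw [← Finset.sum_sub_distrib]
  refine Finset.sum_congr rfl fun x _ => ?_
  split_ifs
  · ring
  · ring

private theorem Dl_nonneg50 (hk : Kr n P w X S e ξ t1 κ N k π) (s : ℕ) : 0 ≤ Dl X k π s := by
  unfold Dl
  refine Finset.sum_nonneg fun x _ => Finset.sum_nonneg fun y _ => ?_
  split_ifs
  · exact mul_nonneg (hk.pnn x) (hk.knn x y)
  · exact le_rfl

private theorem exc_card50 {Qτ exτ : Finset ℕ} {τ : ℕ} (hG : Geo p R Qτ exτ τ) :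
    (insert τ (exτ.image p)).card ≤ 2 := by
  refine (card_insert_le _ _).trans ?_
  have h1 := (card_image_le (s := exτ) (f := p)).trans hG.ex1
  omega

private theorem exc_mem50 {exτ : Finset ℕ} {τ v : ℕ} (h : Exc p exτ τ v) :
    v ∈ insert τ (exτ.image p) := by
  rcases h with h | ⟨r, hr, h⟩
  · rw [h]; exact mem_insert_self _ _
  · exact mem_insert_of_mem (mem_image.mpr ⟨r, hr, h⟩)

private theorem C_up50 (hk : Kr n P w X S e ξ t1 κ N k π) (ht1 : 0 ≤ t1)
    (hB : BG n P w p lab R X S T Q ex F t1 κ k π L0) (s : ℕ) :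
    C50 p T Q ex L0 s ≤ (∑ τ ∈ T, ((Q τ).card : ℝ)) * ((1 + 8 * t1) * Dl X k π s) +
      10 * κ * T.card := by
  classical
  have hD := Dl_nonneg50 hk s
  have hc : 0 ≤ (1 + 8 * t1) * Dl X k π s := by positivity
  have hκ := hk.kpos
  have h1 : ∀ τ ∈ T, ∑ i ∈ Q τ ∪ ex τ, (L0 τ).Pr (fun φ => ad (φ i) (φ (p i)) = s) ≤
      ((Q τ).card : ℝ) * ((1 + 8 * t1) * Dl X k π s) + 10 * κ := by
    intro τ hτ
    have hG := hB.geo τ hτ
    have hL := hB.law τ hτ
    have e1 : Q τ ∪ ex τ = (Q τ).erase τ ∪ insert τ (ex τ) := by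
      ext i
      simp only [mem_union, mem_erase, mem_insert]
      constructor
      · rintro (h | h)
        · by_cases hi : i = τ
          · exact Or.inr (Or.inl hi)
          · exact Or.inl ⟨hi, h⟩
        · exact Or.inr (Or.inr h)
      · rintro (h | h | h)
        · exact Or.inl h.2
        · rw [h]; exact Or.inl hG.tP
        · exact Or.inr h
    have e2 : Disjoint ((Q τ).erase τ) (insert τ (ex τ)) := by
      rw [Finset.disjoint_left]
      intro i hi hi'
      rw [mem_erase] at hi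
      rw [mem_insert] at hi'
      rcases hi' with hi' | hi'
      · exact hi.1 hi'
      · exact Finset.disjoint_left.mp hG.PR hi.2 (hG.exR hi')
    rw [e1, Finset.sum_union e2]
    refine add_le_add ?_ ?_
    · calc ∑ i ∈ (Q τ).erase τ, (L0 τ).Pr (fun φ => ad (φ i) (φ (p i)) = s)
          ≤ ∑ _i ∈ (Q τ).erase τ, (1 + 8 * t1) * Dl X k π s :=
            Finset.sum_le_sum fun i hi => by
              rw [mem_erase] at hi
              exact hL.eUp i hi.2 hi.1 s
        _ = (((Q τ).erase τ).card : ℝ) * ((1 + 8 * t1) * Dl X k π s) := by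
            rw [Finset.sum_const, nsmul_eq_mul]
        _ ≤ ((Q τ).card : ℝ) * ((1 + 8 * t1) * Dl X k π s) := by
            refine mul_le_mul_of_nonneg_right ?_ hc
            exact_mod_cast card_erase_le
    · calc ∑ i ∈ insert τ (ex τ), (L0 τ).Pr (fun φ => ad (φ i) (φ (p i)) = s)
          ≤ ∑ _i ∈ insert τ (ex τ), 5 * κ := Finset.sum_le_sum fun i hi => hL.eTop i hi s
        _ = ((insert τ (ex τ)).card : ℝ) * (5 * κ) := by rw [Finset.sum_const, nsmul_eq_mul]
        _ ≤ 2 * (5 * κ) := by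
            refine mul_le_mul_of_nonneg_right ?_ (by positivity)
            have h3 : (insert τ (ex τ)).card ≤ 2 := by
              refine (card_insert_le _ _).trans ?_
              have := hG.ex1
              omega
            exact_mod_cast h3
        _ = 10 * κ := by ring
  unfold C50
  refine (Finset.sum_le_sum h1).trans (le_of_eq ?_)
  rw [Finset.sum_add_distrib, ← Finset.sum_mul, Finset.sum_const, nsmul_eq_mul]
  ring

private theorem C_lo50 (hB : BG n P w p lab R X S T Q ex F t1 κ k π L0) (s : ℕ)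
    (hc : 0 ≤ (1 - 8 * t1) * Dl X k π s - 8 * t1 * κ) :
    ((∑ τ ∈ T, ((Q τ).card : ℝ)) - 2 * T.card) *
      ((1 - 8 * t1) * Dl X k π s - 8 * t1 * κ) ≤ C50 p T Q ex L0 s := by
  classical
  have h1 : ∀ τ ∈ T, (((Q τ).card : ℝ) - 2) * ((1 - 8 * t1) * Dl X k π s - 8 * t1 * κ) ≤
      ∑ i ∈ Q τ ∪ ex τ, (L0 τ).Pr (fun φ => ad (φ i) (φ (p i)) = s) := by
    intro τ hτ
    have hG := hB.geo τ hτ
    have hL := hB.law τ hτ
    set E := insert τ ((ex τ).image p) with hE
    have hcard : ((Q τ).card : ℝ) - 2 ≤ ((Q τ \ E).card : ℝ) := by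
      have h2 : (Q τ).card ≤ (Q τ \ E).card + E.card := by
        have := Finset.le_card_sdiff E (Q τ)
        omega
      have h3 : E.card ≤ 2 := exc_card50 hG
      have h4 : (Q τ).card ≤ (Q τ \ E).card + 2 := by omega
      have h5 : ((Q τ).card : ℝ) ≤ ((Q τ \ E).card : ℝ) + 2 := by exact_mod_cast h4
      linarith
    calc (((Q τ).card : ℝ) - 2) * ((1 - 8 * t1) * Dl X k π s - 8 * t1 * κ)
        ≤ ((Q τ \ E).card : ℝ) * ((1 - 8 * t1) * Dl X k π s - 8 * t1 * κ) :=
          mul_le_mul_of_nonneg_right hcard hc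
      _ = ∑ _i ∈ Q τ \ E, ((1 - 8 * t1) * Dl X k π s - 8 * t1 * κ) := by
          rw [Finset.sum_const, nsmul_eq_mul]
      _ ≤ ∑ i ∈ Q τ \ E, (L0 τ).Pr (fun φ => ad (φ i) (φ (p i)) = s) :=
          Finset.sum_le_sum fun i hi => by
            rw [mem_sdiff] at hi
            exact hL.eLo i hi.1 (fun hx => hi.2 (exc_mem50 hx)) s
      _ ≤ ∑ i ∈ Q τ ∪ ex τ, (L0 τ).Pr (fun φ => ad (φ i) (φ (p i)) = s) := by
          refine Finset.sum_le_sum_of_subset_of_nonneg ?_ fun i _ _ => Pr_nonneg50 hL.law.nn _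
          exact sdiff_subset.trans subset_union_left
  unfold C50
  refine le_trans (le_of_eq ?_) (Finset.sum_le_sum h1)
  rw [← Finset.sum_mul, Finset.sum_sub_distrib, Finset.sum_const, nsmul_eq_mul]
  ring

private theorem mm_up50 (hk : Kr n P w X S e ξ t1 κ N k π)
    (hB : BG n P w p lab R X S T Q ex F t1 κ k π L0) (y : ℕ) :
    mm p T F L0 y ≤ (∑ τ ∈ T, ((F τ).card : ℝ)) * ((1 + 8 * t1) * π y) := by
  unfold mm
  rw [Finset.sum_mul]
  refine Finset.sum_le_sum fun τ hτ => ?_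
  calc ∑ u ∈ F τ, (L0 τ).Pr (fun φ => φ (p u) = y) ≤ ∑ _u ∈ F τ, (1 + 8 * t1) * π y :=
        Finset.sum_le_sum fun u hu => (hB.law τ hτ).mUp _ (hB.pF τ hτ u hu) y
    _ = ((F τ).card : ℝ) * ((1 + 8 * t1) * π y) := by rw [Finset.sum_const, nsmul_eq_mul]

private theorem mm_lo50 (hk : Kr n P w X S e ξ t1 κ N k π) (ht1 : 8 * t1 ≤ 1)
    (hB : BG n P w p lab R X S T Q ex F t1 κ k π L0) (y : ℕ) :
    ((∑ τ ∈ T, ((F τ).card : ℝ)) - 2 * T.card) * ((1 - 8 * t1) * π y) ≤ mm p T F L0 y := by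
  classical
  have hc : 0 ≤ (1 - 8 * t1) * π y := mul_nonneg (by linarith) (hk.pnn y)
  have h1 : ∀ τ ∈ T, (((F τ).card : ℝ) - 2) * ((1 - 8 * t1) * π y) ≤
      ∑ u ∈ F τ, (L0 τ).Pr (fun φ => φ (p u) = y) := by
    intro τ hτ
    have hG := hB.geo τ hτ
    have hL := hB.law τ hτ
    set E := insert τ ((ex τ).image p) with hE
    set G := (F τ).filter (fun u => p u ∈ E) with hG'
    have hGE : G.card ≤ 2 := by
      refine le_trans ?_ (exc_card50 hG)
      refine Finset.card_le_card_of_injOn p ?_ ?_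
      · intro u hu
        rw [hG', mem_coe, mem_filter] at hu
        exact hu.2
      · intro u hu v hv huv
        rw [hG', mem_coe, mem_filter] at hu hv
        exact hB.iF τ hτ hu.1 hv.1 huv
    have hcard : ((F τ).card : ℝ) - 2 ≤ ((F τ \ G).card : ℝ) := by
      have h2 : (F τ).card ≤ (F τ \ G).card + G.card := by
        have := Finset.le_card_sdiff G (F τ)
        omega
      have h4 : (F τ).card ≤ (F τ \ G).card + 2 := by omega
      have h5 : ((F τ).card : ℝ) ≤ ((F τ \ G).card : ℝ) + 2 := by exact_mod_cast h4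
      linarith
    calc (((F τ).card : ℝ) - 2) * ((1 - 8 * t1) * π y)
        ≤ ((F τ \ G).card : ℝ) * ((1 - 8 * t1) * π y) := mul_le_mul_of_nonneg_right hcard hc
      _ = ∑ _i ∈ F τ \ G, (1 - 8 * t1) * π y := by rw [Finset.sum_const, nsmul_eq_mul]
      _ ≤ ∑ u ∈ F τ \ G, (L0 τ).Pr (fun φ => φ (p u) = y) :=
          Finset.sum_le_sum fun u hu => by
            rw [mem_sdiff] at hu
            refine hL.mLo _ (hB.pF τ hτ u hu.1) (fun hx => hu.2 ?_) y
            rw [hG', mem_filter]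
            exact ⟨hu.1, exc_mem50 hx⟩
      _ ≤ ∑ u ∈ F τ, (L0 τ).Pr (fun φ => φ (p u) = y) :=
          Finset.sum_le_sum_of_subset_of_nonneg sdiff_subset
            fun i _ _ => Pr_nonneg50 hL.law.nn _
  unfold mm
  refine le_trans (le_of_eq ?_) (Finset.sum_le_sum h1)
  rw [← Finset.sum_mul, Finset.sum_sub_distrib, Finset.sum_const, nsmul_eq_mul]
  ring

private theorem A_up50 (hk : Kr n P w X S e ξ t1 κ N k π)
    (hB : BG n P w p lab R X S T Q ex F t1 κ k π L0) (s : ℕ) :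
    A50 p X T F k L0 s ≤ (∑ τ ∈ T, ((F τ).card : ℝ)) * ((1 + 8 * t1) * Dl X k π s) := by
  unfold A50 Dl
  rw [Finset.mul_sum, Finset.mul_sum]
  refine Finset.sum_le_sum fun y _ => ?_
  rw [Finset.mul_sum, Finset.mul_sum]
  refine Finset.sum_le_sum fun x _ => ?_
  split_ifs
  · calc mm p T F L0 y * k y x ≤ ((∑ τ ∈ T, ((F τ).card : ℝ)) * ((1 + 8 * t1) * π y)) * k y x :=
          mul_le_mul_of_nonneg_right (mm_up50 hk hB y) (hk.knn y x)
      _ = _ := by ring
  · simp

private theorem A_lo50 (hk : Kr n P w X S e ξ t1 κ N k π) (ht1 : 8 * t1 ≤ 1)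
    (hB : BG n P w p lab R X S T Q ex F t1 κ k π L0) (s : ℕ) :
    ((∑ τ ∈ T, ((F τ).card : ℝ)) - 2 * T.card) * ((1 - 8 * t1) * Dl X k π s) ≤
      A50 p X T F k L0 s := by
  unfold A50 Dl
  rw [Finset.mul_sum, Finset.mul_sum]
  refine Finset.sum_le_sum fun y _ => ?_
  rw [Finset.mul_sum, Finset.mul_sum]
  refine Finset.sum_le_sum fun x _ => ?_
  split_ifs
  · calc ((∑ τ ∈ T, ((F τ).card : ℝ)) - 2 * T.card) * ((1 - 8 * t1) * (π y * k y x))
        = (((∑ τ ∈ T, ((F τ).card : ℝ)) - 2 * T.card) * ((1 - 8 * t1) * π y)) * k y x := by ring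
      _ ≤ mm p T F L0 y * k y x :=
          mul_le_mul_of_nonneg_right (mm_lo50 hk ht1 hB y) (hk.knn y x)
  · simp

/-- geometry of the pairs with difference `s` in the support of the kernel -/
private theorem rel50 (hk : Kr n P w X S e ξ t1 κ N k π) (hL : Loc n P w t X S)
    {y x s : ℕ} (hyx : k y x ≠ 0) (hs : ad y x = s) :
    y ≤ n ∧ s + 50 * P ≤ n ∧ 25 * P ≤ pos n y ∧
      (((n : ℝ) - s) - w ≤ 2 * (pos n y : ℝ) ∧ 2 * (pos n y : ℝ) ≤ ((n : ℝ) - s) + w) ∧
      (|(y : ℝ) - ((n : ℝ) - s) / 2| ≤ w / 2 ∨ |(n : ℝ) - y - ((n : ℝ) - s) / 2| ≤ w / 2) := by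
  obtain ⟨hy, hx, -, h1, h2⟩ := hk.ksupp y x hyx
  unfold XC at hy hx
  rw [mem_filter] at hy hx
  have hyn : y ≤ n := by omega
  have hxn : x ≤ n := by omega
  have hp : pos n y = min y (n - y) := rfl
  unfold ad at hs
  refine ⟨hyn, by omega, by rw [hp]; omega, ⟨?_, ?_⟩, ?_⟩
  · have h3 : n ≤ 2 * pos n y + s + w := by rw [hp]; omega
    have h4 : (n : ℝ) ≤ 2 * (pos n y : ℝ) + s + w := by exact_mod_cast h3
    linarith
  · have h3 : 2 * pos n y + s ≤ n + w := by rw [hp]; omega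
    have h4 : 2 * (pos n y : ℝ) + s ≤ n + w := by exact_mod_cast h3
    linarith
  · rcases le_total y x with hle | hle
    · left
      have h3 : n ≤ 2 * y + s + w := by omega
      have h5 : 2 * y + s ≤ n + w := by omega
      have h4 : (n : ℝ) ≤ 2 * (y : ℝ) + s + w := by exact_mod_cast h3
      have h6 : 2 * (y : ℝ) + s ≤ n + w := by exact_mod_cast h5
      rw [abs_le]
      constructor <;> linarith
    · right
      have h3 : 2 * y ≤ n + s + w := by omega
      have h5 : n + s ≤ 2 * y + w := by omega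
      have h4 : 2 * (y : ℝ) ≤ n + s + w := by exact_mod_cast h3
      have h6 : (n : ℝ) + s ≤ 2 * y + w := by exact_mod_cast h5
      rw [abs_le]
      constructor <;> linarith

private theorem Bf_rel50 (hn : 10 ^ 6 ≤ n) {y s : ℕ}
    (h : |(y : ℝ) - ((n : ℝ) - s) / 2| ≤ w / 2 ∨ |(n : ℝ) - y - ((n : ℝ) - s) / 2| ≤ w / 2) :
    |Bf n y - Bf n (((n : ℝ) - s) / 2)| ≤ 25 * w / n := by
  have hn0 : 0 < n := by omega
  have hn1 : (0 : ℝ) < n := by exact_mod_cast hn0
  rcases h with h | h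
  · refine (Bf_lip hn _ _).trans ?_
    rw [div_le_div_iff_of_pos_right hn1]
    linarith
  · rw [← Bf_symm hn0 (y : ℝ)]
    refine (Bf_lip hn _ _).trans ?_
    rw [div_le_div_iff_of_pos_right hn1]
    linarith

private theorem K_nonneg50 (hk : Kr n P w X S e ξ t1 κ N k π) (s : ℕ) : 0 ≤ K50 X k s := by
  unfold K50
  refine Finset.sum_nonneg fun x _ => Finset.sum_nonneg fun y _ => ?_
  split_ifs
  · exact hk.knn x y
  · exact le_rfl

/-- numerical consequences of the hypotheses -/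
private theorem num50 (h : Prm n P w D t μ e) (ht1 : t1 = 1000 * (t + w / P)) :
    0 ≤ t1 ∧ 10 ^ 10 * t1 ≤ 1 ∧ 1000 * t ≤ t1 ∧ 1000 * ((w : ℝ) / P) ≤ t1 ∧
      1000 * ((w : ℝ) / n) ≤ t1 ∧ 0 < (P : ℝ) ∧ 0 < (n : ℝ) ∧ 10 ^ 6 ≤ n ∧ 10 ^ 14 * w ≤ P ∧
      10 ^ 18 * P ≤ n := by
  obtain ⟨c1, c2, c3, c4, c5, c6, c7⟩ := Prm_cons h
  have hP : 0 < P := by omega
  have hP' : (0 : ℝ) < P := by exact_mod_cast hP
  have hn' : (0 : ℝ) < n := by exact_mod_cast h.hn
  have hw0 : (0 : ℝ) ≤ w := by positivity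
  have hwP : 0 ≤ (w : ℝ) / P := by positivity
  have ht := h.t0
  have hD : (10 : ℝ) ^ 5 ≤ D := by exact_mod_cast h.D1
  have hsm := h.small
  have h1 : 10 ^ 9 * (10 : ℝ) ^ 5 * (t + w / P) ≤ 10 ^ 9 * D * (t + w / P) := by
    refine mul_le_mul_of_nonneg_right ?_ (by positivity)
    linarith
  have h2 : (w : ℝ) / n ≤ w / P := by
    refine div_le_div_of_nonneg_left hw0 hP' ?_
    have : P ≤ n := by omega
    exact_mod_cast this
  refine ⟨by rw [ht1]; positivity, ?_, ?_, ?_, ?_, hP', hn', by omega, c2, c3⟩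
  · rw [ht1]
    linarith
  · rw [ht1]; linarith
  · rw [ht1]; linarith
  · rw [ht1]; linarith

private theorem B_lo50 (h : Prm n P w D t μ e) (hL : Loc n P w t X S) (hξ : 0 ≤ ξ)
    (hξ2 : ξ ≤ 40 * Real.sqrt μ) (ht1 : t1 = 1000 * (t + w / P))
    (hk : Kr n P w X S e ξ t1 κ N k π) {s : ℕ} (hs : s ∈ S) (hsP : s + 50 * P ≤ n) :
    e * Bf n (((n : ℝ) - s) / 2) - t1 ≤ B50 n X S e k s := by
  obtain ⟨q1, q2, q3, q4⟩ := q0_row h hL
  obtain ⟨n1, n2, n3, n4, n5, hP', hn', n6, n7, n8⟩ := num50 h ht1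
  have he0 := h.e0
  have he1 := h.e1
  have hB0 : 0 ≤ B50 n X S e k s := by
    unfold B50
    refine Finset.sum_nonneg fun y _ => Finset.sum_nonneg fun x _ => ?_
    split_ifs
    · exact mul_nonneg (q1 y) (hk.knn y x)
    · exact le_rfl
  have hBf1 := Bf_le n6 (((n : ℝ) - s) / 2)
  have hBf0 := Bf_nonneg n (((n : ℝ) - s) / 2)
  by_cases hsmall : 1000 * (((n : ℝ) - s) / 2) ≤ 5 * (n : ℝ)
  · rw [Bf_zero n6 (Or.inl hsmall)]
    linarith
  · push Not at hsmall
    set ψ := Psi n P e ξ ((n : ℝ) - s) with hψ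
    have hs0 : (0 : ℝ) ≤ s := by positivity
    have hψ9 : 9 / 10 ≤ ψ := Psi_big h hξ hξ2 (by linarith) (by linarith)
    have hPs : 50 * (P : ℝ) ≤ (n : ℝ) - s := by
      have : (s : ℝ) + 50 * P ≤ n := by exact_mod_cast hsP
      linarith
    have hsw : s + 50 * P + w ≤ n := by
      have h1 : (n : ℝ) < 100 * ((n : ℝ) - s) := by linarith
      have h2 : 100 * (s : ℝ) < 99 * n := by linarith
      have h3 : 100 * s < 99 * n := by exact_mod_cast h2
      omega
    have hK0 := K_nonneg50 hk s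
    have hDK : Dl X k π s ≤ κ * (ψ + w / (50 * P) + t1) * K50 X k s := by
      unfold Dl K50
      rw [Finset.mul_sum]
      refine Finset.sum_le_sum fun y _ => ?_
      rw [Finset.mul_sum]
      refine Finset.sum_le_sum fun x _ => ?_
      split_ifs with hyx
      · by_cases hz : k y x = 0
        · rw [hz]; simp
        · obtain ⟨r1, r2, r3, ⟨r4, r5⟩, r6⟩ := rel50 hk hL hz hyx
          have hyX := (hk.ksupp y x hz).1
          refine mul_le_mul_of_nonneg_right ?_ (hk.knn y x)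
          refine (hk.piUp y hyX).trans ?_
          refine mul_le_mul_of_nonneg_left ?_ hk.kpos.le
          have r3' : (25 : ℝ) * P ≤ (pos n y : ℝ) := by exact_mod_cast r3
          have r7 : 2 * (pos n y : ℝ) ≤ n := by
            have : 2 * pos n y ≤ n := by unfold pos; omega
            exact_mod_cast this
          have hl := Psi_lip h hξ hξ2 (s := 2 * (pos n y : ℝ)) (s' := (n : ℝ) - s)
            (by linarith) r7 hPs (by linarith)
          have hl2 : |2 * (pos n y : ℝ) - ((n : ℝ) - s)| / (50 * P) ≤ w / (50 * P) := by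
            rw [div_le_div_iff_of_pos_right (by positivity), abs_le]
            constructor <;> linarith
          have hl3 := (abs_le.mp (hl.trans hl2)).2
          linarith
      · simp
    have hDlo := hk.DLo s hs hsw
    have hwP : (w : ℝ) / (50 * P) ≤ t1 / 50000 := by
      have : (w : ℝ) / (50 * P) = (w / P) / 50 := by
        field_simp
      rw [this]; linarith
    have hKlo : 1 - 3 * t1 ≤ K50 X k s := by
      have h1 : κ * (ψ - t1) ≤ κ * ((ψ + w / (50 * P) + t1) * K50 X k s) := by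
        calc κ * (ψ - t1) ≤ Dl X k π s := hDlo
          _ ≤ _ := hDK
          _ = _ := by ring
      have h2 := le_of_mul_le_mul_left h1 hk.kpos
      have h3 : (ψ + w / (50 * P) + t1) * K50 X k s ≤ (ψ + 2 * t1 * (101 / 200)) * K50 X k s :=
        mul_le_mul_of_nonneg_right (by linarith) hK0
      by_contra hcon
      push Not at hcon
      have h4 : (ψ + 2 * t1 * (101 / 200)) * K50 X k s ≤
          (ψ + 2 * t1 * (101 / 200)) * (1 - 3 * t1) :=
        mul_le_mul_of_nonneg_left hcon.le (by positivity)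
      have h5 : (ψ + 2 * t1 * (101 / 200)) * (1 - 3 * t1) < ψ - t1 ∨ t1 = 0 := by
        rcases n1.eq_or_lt with h6 | h6
        · right; exact h6.symm
        · left
          nlinarith [mul_nonneg n1 n1, mul_le_mul_of_nonneg_left hψ9 n1]
      rcases h5 with h5 | h5
      · linarith
      · rw [h5] at h2 h3 hcon
        have h7 : (w : ℝ) / (50 * P) ≤ 0 := by rw [h5] at hwP; linarith
        have h8 : (ψ + w / (50 * P) + 0) * K50 X k s ≤ ψ * K50 X k s :=
          mul_le_mul_of_nonneg_right (by linarith) hK0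
        nlinarith
    set ρ := e * (Bf n (((n : ℝ) - s) / 2) - 25 * w / n) - 10 * e * t with hρ
    have hρ1 : e * Bf n (((n : ℝ) - s) / 2) - t1 / 10 ≤ ρ := by
      have h1 : e * (25 * w / n) ≤ 1 / 1000 * (25 * (t1 / 1000)) := by
        have h2 : 25 * (w : ℝ) / n = 25 * (w / n) := by ring
        rw [h2]
        refine mul_le_mul he1 (by linarith) (by positivity) (by norm_num)
      have h3 : 10 * e * t ≤ 10 * (1 / 1000) * (t1 / 1000) := by
        refine mul_le_mul (by linarith) (by linarith) h.t0.le (by norm_num)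
      rw [hρ]
      linarith
    have hρ2 : ρ ≤ 1 / 1000 := by
      have h1 : e * (Bf n (((n : ℝ) - s) / 2) - 25 * w / n) ≤ e * 1 := by
        refine mul_le_mul_of_nonneg_left ?_ he0.le
        have : 0 ≤ 25 * (w : ℝ) / n := by positivity
        linarith
      have h2 : 0 ≤ 10 * e * t := by have := h.t0; positivity
      linarith
    rcases le_total ρ 0 with hneg | hpos
    · linarith
    · have hBK : ρ * K50 X k s ≤ B50 n X S e k s := by
        unfold B50 K50
        rw [Finset.mul_sum]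
        refine Finset.sum_le_sum fun y hy => ?_
        rw [Finset.mul_sum]
        refine Finset.sum_le_sum fun x _ => ?_
        split_ifs with hyx
        · by_cases hz : k y x = 0
          · rw [hz]; simp
          · obtain ⟨r1, r2, r3, ⟨r4, r5⟩, r6⟩ := rel50 hk hL hz hyx
            refine mul_le_mul_of_nonneg_right ?_ (hk.knn y x)
            have h1 := (abs_le.mp (Bf_rel50 n6 r6)).1
            have h2 := q3 y hy
            have h3 : e * (Bf n (((n : ℝ) - s) / 2) - 25 * w / n) ≤ e * Bf n y :=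
              mul_le_mul_of_nonneg_left (by linarith) he0.le
            rw [hρ]
            linarith
        · simp
      have h1 : ρ * (1 - 3 * t1) ≤ ρ * K50 X k s := mul_le_mul_of_nonneg_left hKlo hpos
      have h2 : ρ * (3 * t1) ≤ 1 / 1000 * (3 * t1) :=
        mul_le_mul_of_nonneg_right hρ2 (by positivity)
      linarith

private theorem B_up50 (h : Prm n P w D t μ e) (hL : Loc n P w t X S) (hξ : 0 ≤ ξ)
    (hξ2 : ξ ≤ 40 * Real.sqrt μ) (ht1 : t1 = 1000 * (t + w / P))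
    (hk : Kr n P w X S e ξ t1 κ N k π) {s : ℕ} (hs : s ∈ S) (hsw : s + 50 * P + w ≤ n) :
    B50 n X S e k s ≤ e * Bf n (((n : ℝ) - s) / 2) + t1 := by
  obtain ⟨q1, q2, q3, q4⟩ := q0_row h hL
  obtain ⟨n1, n2, n3, n4, n5, hP', hn', n6, n7, n8⟩ := num50 h ht1
  have he0 := h.e0
  have he1 := h.e1
  have hBf1 := Bf_le n6 (((n : ℝ) - s) / 2)
  have hBf0 := Bf_nonneg n (((n : ℝ) - s) / 2)
  have hs0 : (0 : ℝ) ≤ s := by positivity
  by_cases hsmall : 1000 * (n - s) < 9 * n
  · have hz : B50 n X S e k s = 0 := by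
      unfold B50
      refine Finset.sum_eq_zero fun y _ => Finset.sum_eq_zero fun x _ => ?_
      split_ifs with hyx
      · by_cases hz : k y x = 0
        · rw [hz, mul_zero]
        · obtain ⟨r1, r2, r3, ⟨r4, r5⟩, r6⟩ := rel50 hk hL hz hyx
          have hc : 1000 * y ≤ 5 * n ∨ 995 * n ≤ 1000 * y := by
            have h1 : 2 * pos n y + s ≤ n + w := by
              have : 2 * (pos n y : ℝ) + s ≤ n + w := by linarith
              exact_mod_cast this
            unfold pos at h1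
            omega
          rw [q4 y hc, zero_mul]
      · rfl
    rw [hz]
    positivity
  · have hs9 : 9 * n ≤ 1000 * (n - s) := by omega
    have hs9' : 1000 * s ≤ 991 * n := by omega
    have hs9r : 1000 * (s : ℝ) ≤ 991 * n := by exact_mod_cast hs9'
    set ψ := Psi n P e ξ ((n : ℝ) - s) with hψ
    have hψ9 : 9 / 10 ≤ ψ := Psi_big h hξ hξ2 (by linarith) (by linarith)
    have hPs : 50 * (P : ℝ) ≤ (n : ℝ) - s := by
      have : (s : ℝ) + 50 * P + w ≤ n := by exact_mod_cast hsw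
      have : (0 : ℝ) ≤ w := by positivity
      linarith
    have hK0 := K_nonneg50 hk s
    have hDK : κ * (ψ - w / (50 * P) - t1) * K50 X k s ≤ Dl X k π s := by
      unfold Dl K50
      rw [Finset.mul_sum]
      refine Finset.sum_le_sum fun y hyX => ?_
      rw [Finset.mul_sum]
      refine Finset.sum_le_sum fun x _ => ?_
      split_ifs with hyx
      · by_cases hz : k y x = 0
        · rw [hz]; simp
        · obtain ⟨r1, r2, r3, ⟨r4, r5⟩, r6⟩ := rel50 hk hL hz hyx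
          refine mul_le_mul_of_nonneg_right ?_ (hk.knn y x)
          have h1 : n ≤ 2 * pos n y + s + w := by
            have : (n : ℝ) ≤ 2 * (pos n y : ℝ) + s + w := by linarith
            exact_mod_cast this
          have h2 : 25 * P + w ≤ y ∧ y + 25 * P + w ≤ n := by
            unfold pos at h1
            omega
          refine le_trans ?_ (hk.piLo y hyX h2.1 h2.2)
          refine mul_le_mul_of_nonneg_left ?_ hk.kpos.le
          have r3' : (25 : ℝ) * P ≤ (pos n y : ℝ) := by exact_mod_cast r3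
          have r7 : 2 * (pos n y : ℝ) ≤ n := by
            have : 2 * pos n y ≤ n := by unfold pos; omega
            exact_mod_cast this
          have hl := Psi_lip h hξ hξ2 (s := 2 * (pos n y : ℝ)) (s' := (n : ℝ) - s)
            (by linarith) r7 hPs (by linarith)
          have hl2 : |2 * (pos n y : ℝ) - ((n : ℝ) - s)| / (50 * P) ≤ w / (50 * P) := by
            rw [div_le_div_iff_of_pos_right (by positivity), abs_le]
            constructor <;> linarith
          have hl3 := (abs_le.mp (hl.trans hl2)).1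
          linarith
      · simp
    have hDup := hk.DUp s (by omega)
    have hwP : (w : ℝ) / (50 * P) ≤ t1 / 50000 := by
      have : (w : ℝ) / (50 * P) = (w / P) / 50 := by
        field_simp
      rw [this]; linarith
    have hKup : K50 X k s ≤ 1 + 3 * t1 := by
      have h1 : κ * ((ψ - w / (50 * P) - t1) * K50 X k s) ≤ κ * (ψ + t1) := by
        calc κ * ((ψ - w / (50 * P) - t1) * K50 X k s)
            = κ * (ψ - w / (50 * P) - t1) * K50 X k s := by ring
          _ ≤ Dl X k π s := hDK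
          _ ≤ _ := hDup
      have h2 := le_of_mul_le_mul_left h1 hk.kpos
      have h3 : (ψ - 101 / 100 * t1) * K50 X k s ≤ (ψ - w / (50 * P) - t1) * K50 X k s :=
        mul_le_mul_of_nonneg_right (by linarith) hK0
      by_contra hcon
      push Not at hcon
      have h4 : (ψ - 101 / 100 * t1) * (1 + 3 * t1) < (ψ - 101 / 100 * t1) * K50 X k s :=
        mul_lt_mul_of_pos_left hcon (by linarith)
      have h5 : ψ + t1 ≤ (ψ - 101 / 100 * t1) * (1 + 3 * t1) := by
        nlinarith [mul_nonneg n1 n1, mul_le_mul_of_nonneg_left hψ9 n1,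
          mul_le_mul_of_nonneg_left n2 n1]
      linarith
    have hBK : B50 n X S e k s ≤ e * (Bf n (((n : ℝ) - s) / 2) + 25 * w / n) * K50 X k s := by
      unfold B50 K50
      rw [Finset.mul_sum]
      refine Finset.sum_le_sum fun y hy => ?_
      rw [Finset.mul_sum]
      refine Finset.sum_le_sum fun x _ => ?_
      split_ifs with hyx
      · by_cases hz : k y x = 0
        · rw [hz]; simp
        · obtain ⟨r1, r2, r3, ⟨r4, r5⟩, r6⟩ := rel50 hk hL hz hyx
          refine mul_le_mul_of_nonneg_right ?_ (hk.knn y x)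
          have h1 := (abs_le.mp (Bf_rel50 n6 r6)).2
          refine (q2 y).trans ?_
          exact mul_le_mul_of_nonneg_left (by linarith) he0.le
      · simp
    have h2 : 25 * (w : ℝ) / n = 25 * (w / n) := by ring
    have hwn : 0 ≤ (w : ℝ) / n := by positivity
    have h3 : e * (Bf n (((n : ℝ) - s) / 2) + 25 * w / n) ≤
        e * Bf n (((n : ℝ) - s) / 2) + t1 / 1000 := by
      rw [mul_add, h2]
      have : e * (25 * ((w : ℝ) / n)) ≤ 1 / 1000 * (25 * (t1 / 1000)) :=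
        mul_le_mul he1 (by linarith) (by positivity) (by norm_num)
      linarith
    have h4 : e * Bf n (((n : ℝ) - s) / 2) ≤ 1 / 1000 := by
      calc e * Bf n (((n : ℝ) - s) / 2) ≤ 1 / 1000 * 1 :=
            mul_le_mul he1 (by linarith) hBf0 (by norm_num)
        _ = 1 / 1000 := by norm_num
    have h5 : 0 ≤ e * (Bf n (((n : ℝ) - s) / 2) + 25 * w / n) := by positivity
    calc B50 n X S e k s ≤ e * (Bf n (((n : ℝ) - s) / 2) + 25 * w / n) * K50 X k s := hBK
      _ ≤ e * (Bf n (((n : ℝ) - s) / 2) + 25 * w / n) * (1 + 3 * t1) :=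
          mul_le_mul_of_nonneg_left hKup h5
      _ ≤ (e * Bf n (((n : ℝ) - s) / 2) + t1 / 1000) * (1 + 3 * t1) :=
          mul_le_mul_of_nonneg_right h3 (by positivity)
      _ ≤ e * Bf n (((n : ℝ) - s) / 2) + t1 := by
          nlinarith [mul_nonneg n1 n1, mul_le_mul_of_nonneg_left n2 n1,
            mul_le_mul_of_nonneg_right h4 n1]

theorem chS_up (h : Prm n P w D t μ e) (hL : Loc n P w t X S) (hξ : 0 ≤ ξ) (hξ2 : ξ ≤ 40 * Real.sqrt μ)
    (ht1 : t1 = 1000 * (t + w / P)) (hk : Kr n P w X S e ξ t1 κ N k π)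
    (hB : BG n P w p lab R X S T Q ex F t1 κ k π L0) (hT : (T.card : ℝ) ≤ t * n)
    (hN : N = ((∑ τ ∈ T, ((Q τ).card + (F τ).card) : ℕ) : ℝ)) (hN1 : 99 / 100 * (n : ℝ) ≤ N) (hN2 : N ≤ n)
    (hm : ∀ y, R0 n X S e y ≤ mm p T F L0 y) :
    (∀ s ∈ S, s + 50 * P ≤ n → chS n p X S T Q ex F e k L0 s ≤
      Psi n P e ξ ((n : ℝ) - s) - e * Bf n (((n : ℝ) - s) / 2) + 100 * t1) ∧
    (∀ s, 0 ≤ chS n p X S T Q ex F e k L0 s) ∧
    (∀ s, n < s + 50 * P → chS n p X S T Q ex F e k L0 s = 0) := by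
  obtain ⟨q1, q2, q3, q4⟩ := q0_row h hL
  obtain ⟨n1, n2, n3, n4, n5, hP', hn', n6, n7, n8⟩ := num50 h ht1
  have hC0 : ∀ s, 0 ≤ C50 p T Q ex L0 s := fun s => by
    unfold C50
    exact Finset.sum_nonneg fun τ hτ => Finset.sum_nonneg fun i _ =>
      Pr_nonneg50 (hB.law τ hτ).law.nn _
  have hAB : ∀ s, B50 n X S e k s ≤ A50 p X T F k L0 s := fun s => by
    unfold A50 B50
    refine Finset.sum_le_sum fun y _ => Finset.sum_le_sum fun x _ => ?_
    split_ifs
    · exact mul_le_mul_of_nonneg_right (hm y) (hk.knn y x)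
    · exact le_rfl
  refine ⟨?_, ?_, ?_⟩
  · intro s hs hsP
    rw [chS_eq50]
    have hb := B_lo50 h hL hξ hξ2 ht1 hk hs hsP
    have hc := C_up50 hk n1 hB s
    have ha := A_up50 hk hB s
    have hD0 := Dl_nonneg50 hk s
    have hDu := hk.DUp s hsP
    set ψ := Psi n P e ξ ((n : ℝ) - s) with hψ
    have hs0 : (0 : ℝ) ≤ s := by positivity
    have hPs : 50 * (P : ℝ) ≤ (n : ℝ) - s := by
      have : (s : ℝ) + 50 * P ≤ n := by exact_mod_cast hsP
      linarith
    have hψu : ψ ≤ 1001 / 1000 := Psi_up h hξ hξ2 hPs (by linarith)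
    have hψl : 1 / 17 ≤ ψ := Psi_lo h hξ hξ2 hPs (by linarith)
    have hNs : (∑ τ ∈ T, ((Q τ).card : ℝ)) + (∑ τ ∈ T, ((F τ).card : ℝ)) = N := by
      rw [hN]; push_cast; rw [Finset.sum_add_distrib]
    have hκ := hk.kpos
    have hkN := abs_le.mp hk.kN
    have hκn : κ * (99 / 100 * n) ≤ 1 + t1 := by
      have : κ * (99 / 100 * (n : ℝ)) ≤ κ * N := mul_le_mul_of_nonneg_left hN1 hκ.le
      linarith [mul_comm κ N]
    have hκT : κ * T.card ≤ 2 * t := by
      have h1 : κ * T.card ≤ κ * (t * n) := mul_le_mul_of_nonneg_left hT hκ.le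
      have h2 : κ * (t * n) = t * (κ * (99 / 100 * n)) * (100 / 99) := by ring
      have h3 : t * (κ * (99 / 100 * n)) ≤ t * (1 + t1) := mul_le_mul_of_nonneg_left hκn h.t0.le
      have h4 : t * (1 + t1) ≤ t * (11 / 10) := mul_le_mul_of_nonneg_left (by linarith) h.t0.le
      have := h.t0
      linarith
    have h5 : N * ((1 + 8 * t1) * Dl X k π s) ≤ (1 + 10 * t1) * (ψ + t1) := by
      have hN0 : 0 ≤ N := by linarith
      calc N * ((1 + 8 * t1) * Dl X k π s) ≤ N * ((1 + 8 * t1) * (κ * (ψ + t1))) := by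
            refine mul_le_mul_of_nonneg_left ?_ hN0
            exact mul_le_mul_of_nonneg_left hDu (by positivity)
        _ = (N * κ) * ((1 + 8 * t1) * (ψ + t1)) := by ring
        _ ≤ (1 + t1) * ((1 + 8 * t1) * (ψ + t1)) := by
            refine mul_le_mul_of_nonneg_right (by linarith) (by positivity)
        _ = ((1 + t1) * (1 + 8 * t1)) * (ψ + t1) := by ring
        _ ≤ (1 + 10 * t1) * (ψ + t1) := by
            refine mul_le_mul_of_nonneg_right ?_ (by positivity)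
            nlinarith [mul_nonneg n1 n1, mul_le_mul_of_nonneg_left n2 n1]
    have h6 : (1 + 10 * t1) * (ψ + t1) ≤ ψ + 13 * t1 := by
      nlinarith [mul_nonneg n1 n1, mul_le_mul_of_nonneg_left n2 n1,
        mul_le_mul_of_nonneg_left hψu n1]
    have h7 : (∑ τ ∈ T, ((Q τ).card : ℝ)) * ((1 + 8 * t1) * Dl X k π s) +
        (∑ τ ∈ T, ((F τ).card : ℝ)) * ((1 + 8 * t1) * Dl X k π s) =
        N * ((1 + 8 * t1) * Dl X k π s) := by
      rw [← add_mul, hNs]
    have h8 : 10 * κ * (T.card : ℝ) = 10 * (κ * T.card) := by ring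
    linarith
  · intro s
    rw [chS_eq50]
    have := hC0 s
    have := hAB s
    linarith
  · intro s hs
    have hkz : ∀ y x, ad y x = s → k y x = 0 := by
      intro y x hyx
      by_contra hz
      have := (rel50 hk hL hz hyx).2.1
      omega
    unfold chS
    have e1 : ∑ y ∈ X, ∑ x ∈ X, (if ad y x = s then
        (mm p T F L0 y - R0 n X S e y) * k y x else 0) = 0 := by
      refine Finset.sum_eq_zero fun y _ => Finset.sum_eq_zero fun x _ => ?_
      split_ifs with hyx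
      · rw [hkz y x hyx, mul_zero]
      · rfl
    rw [e1, add_zero]
    refine Finset.sum_eq_zero fun τ hτ => Finset.sum_eq_zero fun i hi => ?_
    have hLw := hB.law τ hτ
    have h0 := Pr_nonneg50 hLw.law.nn (fun φ => ad (φ i) (φ (p i)) = s)
    by_cases hi2 : i ∈ insert τ (ex τ)
    · exact hLw.eTop0 i hi2 s (by omega)
    · rw [mem_insert, not_or] at hi2
      rcases mem_union.mp hi with hi3 | hi3
      · have h1 := hLw.eUp i hi3 hi2.1 s
        rw [hk.DZ s hs, mul_zero] at h1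
        exact le_antisymm h1 h0
      · exact absurd hi3 hi2.2

theorem chS_lo (h : Prm n P w D t μ e) (hL : Loc n P w t X S) (hξ : 0 ≤ ξ) (hξ2 : ξ ≤ 40 * Real.sqrt μ)
    (ht1 : t1 = 1000 * (t + w / P)) (hk : Kr n P w X S e ξ t1 κ N k π)
    (hB : BG n P w p lab R X S T Q ex F t1 κ k π L0) (hT : (T.card : ℝ) ≤ t * n)
    (hN : N = ((∑ τ ∈ T, ((Q τ).card + (F τ).card) : ℕ) : ℝ)) (hN1 : 99 / 100 * (n : ℝ) ≤ N) (hN2 : N ≤ n)
    (hm : ∀ y, R0 n X S e y ≤ mm p T F L0 y) :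
    ∀ s ∈ S, s + 50 * P + w ≤ n →
      Psi n P e ξ ((n : ℝ) - s) - e * Bf n (((n : ℝ) - s) / 2) - 100 * t1 ≤ chS n p X S T Q ex F e k L0 s := by
  intro s hs hsw
  obtain ⟨n1, n2, n3, n4, n5, hP', hn', n6, n7, n8⟩ := num50 h ht1
  rw [chS_eq50]
  have hb := B_up50 h hL hξ hξ2 ht1 hk hs hsw
  have hD0 := Dl_nonneg50 hk s
  have hDl := hk.DLo s hs hsw
  set ψ := Psi n P e ξ ((n : ℝ) - s) with hψ
  have hs0 : (0 : ℝ) ≤ s := by positivity
  have hPs : 50 * (P : ℝ) ≤ (n : ℝ) - s := by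
    have : (s : ℝ) + 50 * P + w ≤ n := by exact_mod_cast hsw
    have : (0 : ℝ) ≤ w := by positivity
    linarith
  have hψu : ψ ≤ 1001 / 1000 := Psi_up h hξ hξ2 hPs (by linarith)
  have hψl : 1 / 17 ≤ ψ := Psi_lo h hξ hξ2 hPs (by linarith)
  have hκ := hk.kpos
  have hkN := abs_le.mp hk.kN
  have hcpos : 0 ≤ (1 - 8 * t1) * Dl X k π s - 8 * t1 * κ := by
    have h1 : (1 - 8 * t1) * (κ * (ψ - t1)) ≤ (1 - 8 * t1) * Dl X k π s :=
      mul_le_mul_of_nonneg_left hDl (by linarith)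
    have h2 : (1 - 8 * t1) * (κ * (ψ - t1)) - 8 * t1 * κ = κ * ((1 - 8 * t1) * (ψ - t1) - 8 * t1) := by
      ring
    have h3 : 0 ≤ κ * ((1 - 8 * t1) * (ψ - t1) - 8 * t1) := by
      refine mul_nonneg hκ.le ?_
      nlinarith [mul_nonneg n1 n1, mul_le_mul_of_nonneg_left hψu n1]
    linarith
  have hc := C_lo50 hB s hcpos
  have ha := A_lo50 hk (by linarith) hB s
  have hNs : (∑ τ ∈ T, ((Q τ).card : ℝ)) + (∑ τ ∈ T, ((F τ).card : ℝ)) = N := by
    rw [hN]; push_cast; rw [Finset.sum_add_distrib]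
  have hQN : (∑ τ ∈ T, ((Q τ).card : ℝ)) ≤ N := by
    have : 0 ≤ (∑ τ ∈ T, ((F τ).card : ℝ)) := Finset.sum_nonneg fun τ _ => by positivity
    linarith
  have hκn : κ * (99 / 100 * n) ≤ 1 + t1 := by
    have : κ * (99 / 100 * (n : ℝ)) ≤ κ * N := mul_le_mul_of_nonneg_left hN1 hκ.le
    linarith [mul_comm κ N]
  have hκT : κ * T.card ≤ 2 * t := by
    have h1 : κ * T.card ≤ κ * (t * n) := mul_le_mul_of_nonneg_left hT hκ.le
    have h2 : κ * (t * n) = t * (κ * (99 / 100 * n)) * (100 / 99) := by ring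
    have h3 : t * (κ * (99 / 100 * n)) ≤ t * (1 + t1) := mul_le_mul_of_nonneg_left hκn h.t0.le
    have h4 : t * (1 + t1) ≤ t * (11 / 10) := mul_le_mul_of_nonneg_left (by linarith) h.t0.le
    have := h.t0
    linarith
  have hT0 : (0 : ℝ) ≤ T.card := by positivity
  have hN4 : 0 ≤ N - 4 * T.card := by
    have h1 : t * (n : ℝ) ≤ 1 / 100 * n := by
      refine mul_le_mul_of_nonneg_right ?_ hn'.le
      linarith
    linarith
  -- the main term
  have h1 : (N - 4 * T.card) * ((1 - 8 * t1) * (κ * (ψ - t1))) ≤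
      (N - 4 * T.card) * ((1 - 8 * t1) * Dl X k π s) := by
    refine mul_le_mul_of_nonneg_left ?_ hN4
    exact mul_le_mul_of_nonneg_left hDl (by linarith)
  have h2 : (1 - 2 * t1) * ((1 - 8 * t1) * (ψ - t1)) ≤
      (N - 4 * T.card) * ((1 - 8 * t1) * (κ * (ψ - t1))) := by
    have h3 : (N - 4 * T.card) * ((1 - 8 * t1) * (κ * (ψ - t1))) =
        (N * κ - 4 * (κ * T.card)) * ((1 - 8 * t1) * (ψ - t1)) := by ring
    rw [h3]
    refine mul_le_mul_of_nonneg_right (by linarith) ?_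
    refine mul_nonneg (by linarith) (by linarith)
  have h4 : ψ - 13 * t1 ≤ (1 - 2 * t1) * ((1 - 8 * t1) * (ψ - t1)) := by
    have h5 : (1 - 10 * t1) * (ψ - t1) ≤ (1 - 2 * t1) * ((1 - 8 * t1) * (ψ - t1)) := by
      rw [← mul_assoc]
      refine mul_le_mul_of_nonneg_right ?_ (by linarith)
      nlinarith [mul_nonneg n1 n1]
    have h6 : ψ - 13 * t1 ≤ (1 - 10 * t1) * (ψ - t1) := by
      nlinarith [mul_nonneg n1 n1, mul_le_mul_of_nonneg_left hψu n1]
    linarith
  have h7 : ((∑ τ ∈ T, ((Q τ).card : ℝ)) - 2 * T.card) * (8 * t1 * κ) ≤ 9 * t1 := by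
    calc ((∑ τ ∈ T, ((Q τ).card : ℝ)) - 2 * T.card) * (8 * t1 * κ)
        ≤ N * (8 * t1 * κ) := mul_le_mul_of_nonneg_right (by linarith) (by positivity)
      _ = (N * κ) * (8 * t1) := by ring
      _ ≤ (1 + t1) * (8 * t1) := mul_le_mul_of_nonneg_right (by linarith) (by positivity)
      _ ≤ 9 * t1 := by nlinarith [mul_nonneg n1 n1, mul_le_mul_of_nonneg_left n2 n1]
  have h8 : ((∑ τ ∈ T, ((Q τ).card : ℝ)) - 2 * T.card) *
      ((1 - 8 * t1) * Dl X k π s - 8 * t1 * κ) +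
      ((∑ τ ∈ T, ((F τ).card : ℝ)) - 2 * T.card) * ((1 - 8 * t1) * Dl X k π s) =
      (N - 4 * T.card) * ((1 - 8 * t1) * Dl X k π s) -
        ((∑ τ ∈ T, ((Q τ).card : ℝ)) - 2 * T.card) * (8 * t1 * κ) := by
    rw [← hNs]; ring
  linarith

end

end Pool.Agent.GRC
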