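import Pool.Agent.Helper28.GRC.Defs

/-!
# GRC-GD: absorbing gadgets made of pendant paths (differences): definitions and the union lemma

A path with index `i` is attached at a vertex with label `c i`; its two vertices get the labels `y i` (middle) and `z i` (end); its two edges have
the values `ad (c i) (y i)` and `ad (y i) (z i)`.  Copy of Helper73/SEM/GD.lean with `ad` instead of `+` (please copy that proof).
-/

set_option autoImplicit false

namespace Pool.Agent.GRC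

open Finset

/-- the paths `P` can be labelled with distinct labels from `L` and distinct differences from `S` -/
def AbsD (c : ℕ → ℕ) (P L S : Finset ℕ) : Prop :=
  ∃ y z : ℕ → ℕ, (∀ i ∈ P, y i ∈ L ∧ z i ∈ L ∧ ad (c i) (y i) ∈ S ∧ ad (y i) (z i) ∈ S) ∧
    Set.InjOn y P ∧ Set.InjOn z P ∧ (∀ i ∈ P, ∀ j ∈ P, y i ≠ z j) ∧
    Set.InjOn (fun i => ad (c i) (y i)) P ∧ Set.InjOn (fun i => ad (y i) (z i)) P ∧
    ∀ i ∈ P, ∀ j ∈ P, ad (c i) (y i) ≠ ad (y j) (z j)

/-- common hypotheses on the supply of paths and the used labels and differences -/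
structure SplyD (n h D u d : ℕ) (c : ℕ → ℕ) (Sp UX US : Finset ℕ) : Prop where
  mid : ∀ i ∈ Sp, n / 2 ≤ c i + h ∧ c i ≤ n / 2 + h
  hh : 1000 * h + 1000 ≤ n
  mult : ∀ a, (Sp.filter fun i => c i = a).card ≤ D
  big : 100 * (d + 1) ^ 2 * (D + 1) ≤ Sp.card
  cU : ∀ i ∈ Sp, c i ∈ UX
  uX : UX.card ≤ u
  uS : US.card ≤ u
  hu : 4000 * (d + 1) * (u + 10 * d + 10) ≤ n

private theorem h24_injU {P P' L L' : Finset ℕ} {f f' g : ℕ → ℕ} (hg : ∀ i ∈ P, g i = f i)
    (hg' : ∀ i ∈ P', g i = f' i) (h : Set.InjOn f P) (h' : Set.InjOn f' P')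
    (hf : ∀ i ∈ P, f i ∈ L) (hf' : ∀ i ∈ P', f' i ∈ L') (hL : Disjoint L L') :
    Set.InjOn g (P ∪ P' : Finset ℕ) := by
  intro i hi j hj hij
  rw [Finset.coe_union] at hi hj
  rcases hi with hi | hi <;> rcases hj with hj | hj
  · rw [hg i hi, hg j hj] at hij
    exact h hi hj hij
  · rw [hg i hi, hg' j hj] at hij
    exact absurd hij (Finset.disjoint_iff_ne.mp hL _ (hf i hi) _ (hf' j hj))
  · rw [hg' i hi, hg j hj] at hij
    exact absurd hij.symm (Finset.disjoint_iff_ne.mp hL _ (hf j hj) _ (hf' i hi))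
  · rw [hg' i hi, hg' j hj] at hij
    exact h' hi hj hij

private theorem h24_neU {P P' L L' : Finset ℕ} {f f' g k k' l : ℕ → ℕ} (hg : ∀ i ∈ P, g i = f i)
    (hg' : ∀ i ∈ P', g i = f' i) (hl : ∀ i ∈ P, l i = k i) (hl' : ∀ i ∈ P', l i = k' i)
    (h : ∀ i ∈ P, ∀ j ∈ P, f i ≠ k j) (h' : ∀ i ∈ P', ∀ j ∈ P', f' i ≠ k' j)
    (hf : ∀ i ∈ P, f i ∈ L) (hf' : ∀ i ∈ P', f' i ∈ L')
    (hk : ∀ i ∈ P, k i ∈ L) (hk' : ∀ i ∈ P', k' i ∈ L') (hL : Disjoint L L') :
    ∀ i ∈ P ∪ P', ∀ j ∈ P ∪ P', g i ≠ l j := by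
  intro i hi j hj hij
  rw [Finset.mem_union] at hi hj
  rcases hi with hi | hi <;> rcases hj with hj | hj
  · rw [hg i hi, hl j hj] at hij
    exact h i hi j hj hij
  · rw [hg i hi, hl' j hj] at hij
    exact absurd hij (Finset.disjoint_iff_ne.mp hL _ (hf i hi) _ (hk' j hj))
  · rw [hg' i hi, hl j hj] at hij
    exact absurd hij.symm (Finset.disjoint_iff_ne.mp hL _ (hk j hj) _ (hf' i hi))
  · rw [hg' i hi, hl' j hj] at hij
    exact h' i hi j hj hij

theorem AbsD.union {c : ℕ → ℕ} {P P' L L' S S' : Finset ℕ} (h : AbsD c P L S) (h' : AbsD c P' L' S')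
    (hP : Disjoint P P') (hL : Disjoint L L') (hS : Disjoint S S') :
    AbsD c (P ∪ P') (L ∪ L') (S ∪ S') := by
  classical
  obtain ⟨y, z, h1, h2, h3, h4, h5, h6, h7⟩ := h
  obtain ⟨y', z', h1', h2', h3', h4', h5', h6', h7'⟩ := h'
  have e1 : ∀ i ∈ P, (if i ∈ P then y i else y' i) = y i := fun i hi => if_pos hi
  have e1' : ∀ i ∈ P', (if i ∈ P then y i else y' i) = y' i := fun i hi =>
    if_neg fun hi' => (Finset.disjoint_left.mp hP hi') hi
  have e2 : ∀ i ∈ P, (if i ∈ P then z i else z' i) = z i := fun i hi => if_pos hi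
  have e2' : ∀ i ∈ P', (if i ∈ P then z i else z' i) = z' i := fun i hi =>
    if_neg fun hi' => (Finset.disjoint_left.mp hP hi') hi
  refine ⟨fun i => if i ∈ P then y i else y' i, fun i => if i ∈ P then z i else z' i, ?_, ?_, ?_,
    ?_, ?_, ?_, ?_⟩
  · intro i hi
    rcases Finset.mem_union.mp hi with hi | hi
    · simp only [e1 i hi, e2 i hi]
      obtain ⟨a, b, c, d⟩ := h1 i hi
      exact ⟨mem_union_left _ a, mem_union_left _ b, mem_union_left _ c, mem_union_left _ d⟩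
    · simp only [e1' i hi, e2' i hi]
      obtain ⟨a, b, c, d⟩ := h1' i hi
      exact ⟨mem_union_right _ a, mem_union_right _ b, mem_union_right _ c, mem_union_right _ d⟩
  · exact h24_injU e1 e1' h2 h2' (fun i hi => (h1 i hi).1) (fun i hi => (h1' i hi).1) hL
  · exact h24_injU e2 e2' h3 h3' (fun i hi => (h1 i hi).2.1) (fun i hi => (h1' i hi).2.1) hL
  · exact h24_neU e1 e1' e2 e2' h4 h4' (fun i hi => (h1 i hi).1) (fun i hi => (h1' i hi).1)
      (fun i hi => (h1 i hi).2.1) (fun i hi => (h1' i hi).2.1) hL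
  · refine h24_injU (f := fun i => ad (c i) (y i)) (f' := fun i => ad (c i) (y' i)) ?_ ?_ h5 h5'
      (fun i hi => (h1 i hi).2.2.1) (fun i hi => (h1' i hi).2.2.1) hS
    · intro i hi; simp only [e1 i hi]
    · intro i hi; simp only [e1' i hi]
  · refine h24_injU (f := fun i => ad (y i) (z i)) (f' := fun i => ad (y' i) (z' i)) ?_ ?_ h6 h6'
      (fun i hi => (h1 i hi).2.2.2) (fun i hi => (h1' i hi).2.2.2) hS
    · intro i hi; simp only [e1 i hi, e2 i hi]
    · intro i hi; simp only [e1' i hi, e2' i hi]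
  · refine h24_neU (f := fun i => ad (c i) (y i)) (f' := fun i => ad (c i) (y' i)) (k := fun i => ad (y i) (z i))
      (k' := fun i => ad (y' i) (z' i)) ?_ ?_ ?_ ?_ h7 h7'
      (fun i hi => (h1 i hi).2.2.1) (fun i hi => (h1' i hi).2.2.1)
      (fun i hi => (h1 i hi).2.2.2) (fun i hi => (h1' i hi).2.2.2) hS
    · intro i hi; simp only [e1 i hi]
    · intro i hi; simp only [e1' i hi]
    · intro i hi; simp only [e1 i hi, e2 i hi]
    · intro i hi; simp only [e1' i hi, e2' i hi]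

theorem AbsD.mono {c : ℕ → ℕ} {P L L' S S' : Finset ℕ} (h : AbsD c P L S) (hL : L ⊆ L')
    (hS : S ⊆ S') : AbsD c P L' S' := by
  obtain ⟨y, z, h1, h2⟩ := h
  exact ⟨y, z, fun i hi => ⟨hL (h1 i hi).1, hL (h1 i hi).2.1, hS (h1 i hi).2.2.1,
    hS (h1 i hi).2.2.2⟩, h2⟩

end Pool.Agent.GRC
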