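import Pool.Agent.Helper28.GRC.PForm
import Pool.Agent.Helper28.GRC.GD
import Pool.Agent.Helper28.GRC.CDG
import Pool.Agent.Helper73.SEM.FC
import Pool.Agent.Helper73.SEM.FB

/-!
# GRC-DATG: the data of the final assembly (definitions), cardinalities

Model: Helper73/SEM/FB.lean.  `R` is here the set `Rpl` (separating vertices and deterministic stars), `Ve` = reserved paths with a fixed label `β` of the middle vertex, `Vin` = reserved paths with two free
labels, `A` = paths of the absorber.  `n + 1 = m + g`.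

Cardinalities (`cardX`, `cardS`), proof in words: `SEM.MV_card`, `SEM.EM_card` with `Z = Ve ∪ Vin ∪ A`:
`|MV| + |R| + 2(|Ve| + |Vin| + |A|) = m` and `|EM| + #{r ∈ R : 0 < r, p r ∈ R} + 2 (|Ve| + |Vin| + |A|) + 1 = m`; `|EI| = #{r ∈ R : 0 < r, p r ∈ R} + g`.
Labels: `n + 1 = |XX| + |R| + |FX| + |FXE| + |YX| + |Ve| + |L|`; with `cX`, `cYX`, `cPX` and `n + 1 = m + g` this gives `|MV| = |XX|`.  Differences: `n = |SS| + |EI| + |FS| + |YS| + |Ve| + |Sm|`.
-/

set_option autoImplicit false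

namespace Pool.Agent.GRC

open Finset Pool.Agent.SEM

structure DatG (m g n K mX mS κe κ' P : ℕ) (p ea eb top lab β : ℕ → ℕ)
    (R Ve Vin A FX FXE FS YX YS L Sm : Finset ℕ) : Prop where
  hn : n + 1 = m + g
  par : Par m p
  dec : Dec m p K R top
  exR : ∀ j < g, ea j ∈ R ∧ eb j ∈ R
  sp : ∀ v ∈ Ve ∪ Vin ∪ A, Pend m p v ∧ p v ∈ R ∧ v ∉ R ∧ uc m p v ∉ R
  dV : Disjoint Ve Vin
  dA : Disjoint (Ve ∪ Vin) A
  labI : Set.InjOn lab R
  labR : ∀ r ∈ R, lab r ≤ n
  dvI : Set.InjOn (dv m p ea eb lab) (EI m g p R)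
  dvR : ∀ i ∈ EI m g p R, 1 ≤ dv m p ea eb lab i ∧ dv m p ea eb lab i ≤ n
  βI : Set.InjOn β Ve
  βR : ∀ v ∈ Ve, β v ≤ n
  cbI : Set.InjOn (fun v => ad (lab (p v)) (β v)) Ve
  cbR : ∀ v ∈ Ve, 1 ≤ ad (lab (p v)) (β v) ∧ ad (lab (p v)) (β v) ≤ n
  XR : FX ∪ FXE ∪ YX ∪ L ⊆ range (n + 1)
  SR : FS ∪ YS ∪ Sm ⊆ Icc 1 n
  x1 : Disjoint (R.image lab) (FX ∪ FXE ∪ YX ∪ Ve.image β ∪ L)
  x2 : Disjoint FX (FXE ∪ YX ∪ Ve.image β ∪ L)
  x3 : Disjoint FXE (YX ∪ Ve.image β ∪ L)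
  x4 : Disjoint YX (Ve.image β ∪ L)
  x5 : Disjoint (Ve.image β) L
  s1 : Disjoint ((EI m g p R).image (dv m p ea eb lab)) (FS ∪ YS ∪ Ve.image (fun v => ad (lab (p v)) (β v)) ∪ Sm)
  s2 : Disjoint FS (YS ∪ Ve.image (fun v => ad (lab (p v)) (β v)) ∪ Sm)
  s3 : Disjoint YS (Ve.image (fun v => ad (lab (p v)) (β v)) ∪ Sm)
  s4 : Disjoint (Ve.image (fun v => ad (lab (p v)) (β v))) Sm
  cX : FX.card + FXE.card = mX + Ve.card + 2 * Vin.card + g
  cYX : YX.card = 2 * mX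
  cPX : 2 * A.card = L.card + 3 * mX
  cS : FS.card = mS + Ve.card + 2 * Vin.card
  cYS : YS.card = 2 * mS
  cPS : 2 * A.card = Sm.card + 3 * mS
  absb : ∀ FX' ⊆ FX, FX'.card = mX → ∀ FS' ⊆ FS, FS'.card = mS → ∃ XL XS : Finset ℕ,
    XL ⊆ YX ∪ FX' ∧ XS ⊆ YS ∪ FS' ∧ AbsD (fun v => lab (p v)) A (L ∪ XL) (Sm ∪ XS)
  cov : ∀ s, n < s + P → s ≤ n → s ∈ (EI m g p R).image (dv m p ea eb lab)
  f1 : ∀ s, 72 * n < 100 * s → s + P ≤ n → κe ≤ (Ve.filter fun v => β v + s ∈ FX ∪ FXE).card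
  f3 : ∀ v ∈ Ve, κ' ≤ (FX.filter fun x => ad (β v) x ∈ FS).card
  f4 : ∀ a a', a ≤ n → 45 * n ≤ 100 * a' → 100 * a' ≤ 55 * n →
    κ' ≤ (FX.filter fun x => ad a x ∈ FS ∧ ad a' x ∈ FS).card
  f5 : ∀ s a', 100 * s ≤ 72 * n → 499 * n ≤ 1000 * a' → 1000 * a' ≤ 501 * n →
    κ' ≤ (FX.filter fun x => ad a' x ∈ FS ∧ x + s ∈ FX).card
  mid : ∀ v ∈ Ve ∪ Vin, 499 * n ≤ 1000 * lab (p v) ∧ 1000 * lab (p v) ≤ 501 * n
  ctr : ∀ r ∈ R, ((∃ v, 0 < v ∧ v < m ∧ v ∉ R ∧ p v = r) ∨ (0 < r ∧ p r ∉ R)) →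
    45 * n ≤ 100 * lab r ∧ 100 * lab r ≤ 55 * n

/-- main tops -/
def TTg (m : ℕ) (p : ℕ → ℕ) (R Ve Vin A : Finset ℕ) : Finset ℕ := tops m p R \ (Ve ∪ Vin ∪ A)

/-- main labels -/
def XXg (n : ℕ) (lab β : ℕ → ℕ) (R Ve FX FXE YX L : Finset ℕ) : Finset ℕ :=
  range (n + 1) \ (R.image lab ∪ FX ∪ FXE ∪ YX ∪ Ve.image β ∪ L)

/-- main differences -/
def SSg (m g n : ℕ) (p ea eb lab β : ℕ → ℕ) (R Ve FS YS Sm : Finset ℕ) : Finset ℕ :=
  Icc 1 n \ ((EI m g p R).image (dv m p ea eb lab) ∪ FS ∪ YS ∪ Ve.image (fun v => ad (lab (p v)) (β v)) ∪ Sm)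

section
variable {m g n K mX mS κe κ' P : ℕ} {p ea eb top lab β : ℕ → ℕ} {R Ve Vin A FX FXE FS YX YS L Sm : Finset ℕ}

theorem DatG.cardX (D : DatG m g n K mX mS κe κ' P p ea eb top lab β R Ve Vin A FX FXE FS YX YS L Sm) :
    (MV m R top (TTg m p R Ve Vin A)).card = (XXg n lab β R Ve FX FXE YX L).card := by
  classical
  have h1 := MV_card D.par D.dec (Z := Ve ∪ Vin ∪ A) D.sp
  rw [card_union_of_disjoint D.dA, card_union_of_disjoint D.dV] at h1
  have hβ : Ve.image β ⊆ range (n + 1) := by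
    intro x hx
    obtain ⟨v, hv, rfl⟩ := mem_image.1 hx
    exact mem_range.2 (Nat.lt_succ_of_le (D.βR v hv))
  have hlab : R.image lab ⊆ range (n + 1) := by
    intro x hx
    obtain ⟨v, hv, rfl⟩ := mem_image.1 hx
    exact mem_range.2 (Nat.lt_succ_of_le (D.labR v hv))
  have hXR := D.XR
  have hsub : R.image lab ∪ FX ∪ FXE ∪ YX ∪ Ve.image β ∪ L ⊆ range (n + 1) := by
    intro x hx
    simp only [mem_union] at hx
    rcases hx with ((((hx | hx) | hx) | hx) | hx) | hx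
    · exact hlab hx
    · exact hXR (by simp only [mem_union]; tauto)
    · exact hXR (by simp only [mem_union]; tauto)
    · exact hXR (by simp only [mem_union]; tauto)
    · exact hβ hx
    · exact hXR (by simp only [mem_union]; tauto)
  have h3 := card_sdiff_add_card_eq_card hsub
  have h4 : (R.image lab ∪ FX ∪ FXE ∪ YX ∪ Ve.image β ∪ L).card
      = R.card + (FX.card + (FXE.card + (YX.card + (Ve.card + L.card)))) := by
    have x1 := D.x1
    have x2 := D.x2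
    have x3 := D.x3
    have x4 := D.x4
    simp only [union_assoc] at x1 x2 x3 x4 ⊢
    rw [card_union_of_disjoint x1, card_union_of_disjoint x2, card_union_of_disjoint x3,
      card_union_of_disjoint x4, card_union_of_disjoint D.x5, card_image_of_injOn D.labI,
      card_image_of_injOn D.βI]
  rw [h4, card_range] at h3
  have := D.cX
  have := D.cYX
  have := D.cPX
  have := D.hn
  unfold TTg XXg
  omega

theorem DatG.cardS (D : DatG m g n K mX mS κe κ' P p ea eb top lab β R Ve Vin A FX FXE FS YX YS L Sm) :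
    (EM m p R top (TTg m p R Ve Vin A)).card = (SSg m g n p ea eb lab β R Ve FS YS Sm).card := by
  classical
  have hm : 0 < m := by simpa using D.dec.sub D.dec.zero
  have h1 := EM_card D.par D.dec hm (Z := Ve ∪ Vin ∪ A) D.sp
  rw [card_union_of_disjoint D.dA, card_union_of_disjoint D.dV] at h1
  have hEI : (EI m g p R).card = (R.filter fun r => 0 < r ∧ p r ∈ R).card + g := by
    have e : EI m g p R = (R.filter fun r => 0 < r ∧ p r ∈ R) ∪ Ico m (m + g) := by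
      ext i
      simp only [EI, mem_filter, mem_Ico, mem_union]
      constructor
      · rintro ⟨⟨h2, h3⟩, h4⟩
        rcases h4 with h4 | h4
        · exact Or.inr ⟨h4, h3⟩
        · exact Or.inl ⟨h4.1, h2, h4.2⟩
      · rintro (⟨h2, h3, h4⟩ | ⟨h2, h3⟩)
        · have : i < m := by simpa using D.dec.sub h2
          exact ⟨⟨h3, by omega⟩, Or.inr ⟨h2, h4⟩⟩
        · exact ⟨⟨by omega, h3⟩, Or.inl h2⟩
    have hd : Disjoint (R.filter fun r => 0 < r ∧ p r ∈ R) (Ico m (m + g)) := by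
      rw [disjoint_left]
      intro i hi hi2
      have h5 : i < m := by simpa using D.dec.sub (mem_filter.1 hi).1
      have h6 := (mem_Ico.1 hi2).1
      omega
    rw [e, card_union_of_disjoint hd, Nat.card_Ico]
    omega
  have hdv : (EI m g p R).image (dv m p ea eb lab) ⊆ Icc 1 n := by
    intro x hx
    obtain ⟨i, hi, rfl⟩ := mem_image.1 hx
    exact mem_Icc.2 (D.dvR i hi)
  have hcb : Ve.image (fun v => ad (lab (p v)) (β v)) ⊆ Icc 1 n := by
    intro x hx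
    obtain ⟨i, hi, rfl⟩ := mem_image.1 hx
    exact mem_Icc.2 (D.cbR i hi)
  have hSR := D.SR
  have hsub : (EI m g p R).image (dv m p ea eb lab) ∪ FS ∪ YS ∪
      Ve.image (fun v => ad (lab (p v)) (β v)) ∪ Sm ⊆ Icc 1 n := by
    intro x hx
    simp only [mem_union] at hx
    rcases hx with (((hx | hx) | hx) | hx) | hx
    · exact hdv hx
    · exact hSR (by simp only [mem_union]; tauto)
    · exact hSR (by simp only [mem_union]; tauto)
    · exact hcb hx
    · exact hSR (by simp only [mem_union]; tauto)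
  have h3 := card_sdiff_add_card_eq_card hsub
  have h4 : ((EI m g p R).image (dv m p ea eb lab) ∪ FS ∪ YS ∪
      Ve.image (fun v => ad (lab (p v)) (β v)) ∪ Sm).card
      = (EI m g p R).card + (FS.card + (YS.card + (Ve.card + Sm.card))) := by
    have s1 := D.s1
    have s2 := D.s2
    have s3 := D.s3
    simp only [union_assoc] at s1 s2 s3 ⊢
    rw [card_union_of_disjoint s1, card_union_of_disjoint s2, card_union_of_disjoint s3,
      card_union_of_disjoint D.s4, card_image_of_injOn D.dvI, card_image_of_injOn D.cbI]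
  rw [h4, hEI, Nat.card_Icc] at h3
  have := D.cS
  have := D.cYS
  have := D.cPS
  have := D.hn
  unfold TTg SSg
  omega

end

end Pool.Agent.GRC
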