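import Mathlib

/-!
# GRC-DS: the deterministic covering of the extreme differences by stars

A vertex with label `x` has low coordinate `x`, a vertex with label `n - j` has high coordinate `j`; an edge between low coordinate `i` and high coordinate `j` has the difference
`n - (i + j)`.  We cover all sums `i + j < P = 4^(B+1) D + 2` by: an edge `0 ~ 0` (low 0, high 0; sum 0), an edge low 0 ~ high 1 (sum 1), `D` low leaves `lc r` of the high vertex 0
(sums `lc r`), stars with low centre `x ∈ CL` and `D` high leaves `lH x r`, stars with high centre `j ∈ CH` and `D` low leaves `lL j r`.  `B ≥ 2` is even, `D ≥ 1000`.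

CONSTRUCTION (checked by a program for many `D, B`).
* `lc`: `2, 3, 4, 3D+5, 3D+6, .., 4D+1` (`lc r = r + 2` for `r < 3`, `lc r = 3D + 2 + r` for `3 ≤ r < D`).
* low centre `1`: `lH 1 r = 4 + r` (sums `5 .. D+4`); high centre `3`: `lL 3 r = D + 2 + r` (sums `D+5 .. 2D+4`); high centre `2`: `lL 2 r = 2D+3+r` (sums `2D+5 .. 3D+4`).
* block `b = 1, .., B`: `a_b = 4^b D + 2`, `n_b = 3·4^b`, `z_1 = 5`, `z_b = 4^(b-2) D + 4` (`b ≥ 2`); for `m < n_b` the centre `z_b + n_b - 1 - m` (LOW if `b` is odd, HIGH if `b` is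
  even) has the leaves (on the other side) `a_b + m D + r - centre = a_b - z_b - n_b + 1 + m (D+1) + r`, `r < D`, with the sums `a_b + m D + r`; so block `b` covers exactly the sums in
  `[a_b, a_{b+1})`.
Leaves of block `b` lie in `[a_b - z_b - n_b + 1, a_{b+1} - 1 - z_b]` and are strictly increasing in `m D + r`.  On each side the intervals of centres `C_b = [z_b, z_b + n_b)` and leaves `L_b`
are ordered: `C_b < L_{b-1} < C_{b+2}` (`b ≥ 2`; `4^(b-2) D + 3·4^b + 4 < 4^(b-1) D - 4^(b-3) D - 3·4^(b-1) - 1` and `a_b - 1 - z_{b-1} < 4^b D + 4`), and below them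
low: `0, 1, {2,3,4}, C_1 = [5,16], [D+2, 2D+1], [2D+3, 3D+2], [3D+5, 4D+1], C_3 = [4D+4, ..)`; high: `0, 1, 2, 3, [4, D+3], C_2 = [D+4, D+51], L_1 = [4D-14, 16D-4], ..`.
The low used coordinates are `< 0.99 P` and not in `[0.07 P, 0.2 P]` (`L_{B-2}` ends below `P/16`, `L_B` starts above `0.23 P`, `C_{B-1}` is near `P/256`), the high used coordinates are `< P/4` and not in
`[0.017 P, 0.058 P]` (`C_B` is near `P/64` and ends below `0.017 P` as `D ≥ 1000`; `L_{B-1}` starts above `0.058 P`).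
-/

set_option autoImplicit false

namespace Pool.Agent.GRC

open Finset

namespace DS56

/-- first centre of block `b` -/
def zz (D b : ℕ) : ℕ := if b = 1 then 5 else 4 ^ (b - 2) * D + 4

/-- number of centres of block `b` -/
def nn (b : ℕ) : ℕ := 3 * 4 ^ b

/-- first sum of block `b` -/
def aa (D b : ℕ) : ℕ := 4 ^ b * D + 2

/-- the block of a centre -/
def bl (D x : ℕ) : ℕ := if x < D then 1 else Nat.log 4 (x / D) + 2

/-- the leaves of the centre `x` of a block -/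
def LF (D x r : ℕ) : ℕ :=
  aa D (bl D x) + (zz D (bl D x) + nn (bl D x) - 1 - x) * D + r - x

def inB (D b x : ℕ) : Prop := zz D b ≤ x ∧ x < zz D b + nn b

theorem zz1 (D : ℕ) : zz D 1 = 5 := by simp [zz]

theorem zz2 (D c : ℕ) : zz D (c + 2) = 4 ^ c * D + 4 := by simp [zz]

theorem nn1 : nn 1 = 12 := by simp [nn]

theorem nn2 (c : ℕ) : nn (c + 2) = 48 * 4 ^ c := by
  unfold nn
  rw [pow_add]
  ring

theorem aa1 (D : ℕ) : aa D 1 = 4 * D + 2 := by simp [aa]

theorem aa2 (D c : ℕ) : aa D (c + 2) = 16 * (4 ^ c * D) + 2 := by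
  unfold aa
  rw [pow_add]
  ring

theorem aas (D b : ℕ) : aa D (b + 1) = aa D b + nn b * D := by
  unfold aa nn
  rw [pow_succ]
  ring

theorem aa3 (D c : ℕ) : aa D (c + 2 + 1) = 64 * (4 ^ c * D) + 2 := by
  rw [aas, aa2, nn2]
  ring

/-- the basic inequalities between `D`, `4 ^ c`, `4 ^ c * D` -/
theorem base {D : ℕ} (hD : 1000 ≤ D) (c : ℕ) :
    1 ≤ 4 ^ c ∧ 1000 * 4 ^ c ≤ 4 ^ c * D ∧ D ≤ 4 ^ c * D := by
  have h1 : 1 ≤ 4 ^ c := Nat.one_le_pow _ _ (by norm_num)
  refine ⟨h1, ?_, ?_⟩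
  · rw [mul_comm]
    exact Nat.mul_le_mul_left _ hD
  · calc D = 1 * D := (one_mul D).symm
      _ ≤ 4 ^ c * D := Nat.mul_le_mul_right _ h1

/-- comparison of two scales -/
theorem scale {D c c' k : ℕ} (h : c + k ≤ c') :
    4 ^ k * 4 ^ c ≤ 4 ^ c' ∧ 4 ^ k * (4 ^ c * D) ≤ 4 ^ c' * D := by
  have h1 : 4 ^ k * 4 ^ c ≤ 4 ^ c' := by
    rw [← pow_add]
    exact Nat.pow_le_pow_right (by norm_num) (by omega)
  refine ⟨h1, ?_⟩
  rw [← mul_assoc]
  exact Nat.mul_le_mul_right _ h1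

theorem blk_cases {b : ℕ} (hb : 1 ≤ b) : b = 1 ∨ ∃ c, b = c + 2 := by
  rcases Nat.lt_or_ge b 2 with h | h
  · left; omega
  · right; exact ⟨b - 2, by omega⟩

theorem inB1 {D x : ℕ} (h : inB D 1 x) : 5 ≤ x ∧ x ≤ 16 := by
  unfold inB at h
  rw [zz1, nn1] at h
  omega

theorem inB2 {D c x : ℕ} (h : inB D (c + 2) x) :
    4 ^ c * D + 4 ≤ x ∧ x ≤ 4 ^ c * D + 48 * 4 ^ c + 3 := by
  unfold inB at h
  rw [zz2, nn2] at h
  omega

theorem bl_eq {D b x : ℕ} (hD : 1000 ≤ D) (hb : 1 ≤ b) (h : inB D b x) : bl D x = b := by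
  rcases blk_cases hb with rfl | ⟨c, rfl⟩
  · have := inB1 h
    unfold bl
    rw [if_pos (by omega)]
  · obtain ⟨h1, h2⟩ := inB2 h
    obtain ⟨g1, g2, g3⟩ := base hD c
    unfold bl
    rw [if_neg (by omega)]
    congr 1
    apply Nat.log_eq_of_pow_le_of_lt_pow
    · rw [Nat.le_div_iff_mul_le (by omega)]
      omega
    · rw [Nat.div_lt_iff_lt_mul (by omega), pow_succ]
      have e : 4 ^ c * 4 * D = 4 * (4 ^ c * D) := by ring
      rw [e]
      omega

theorem zn_le {D b : ℕ} (hD : 1000 ≤ D) (hb : 1 ≤ b) : zz D b + nn b ≤ aa D b := by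
  rcases blk_cases hb with rfl | ⟨c, rfl⟩
  · rw [zz1, nn1, aa1]
    omega
  · obtain ⟨g1, g2, g3⟩ := base hD c
    rw [zz2, nn2, aa2]
    omega

/-- the sums and leaves of a block -/
theorem LF_main {D b x r : ℕ} (hD : 1000 ≤ D) (hb : 1 ≤ b) (hx : inB D b x) (hr : r < D) :
    ∃ m, m < nn b ∧ x + m + 1 = zz D b + nn b ∧ x + LF D x r = aa D b + m * D + r ∧
      aa D b + m * D + r < aa D (b + 1) := by
  have hzn := zn_le hD hb
  have hbl := bl_eq hD hb hx
  obtain ⟨h1, h2⟩ := hx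
  refine ⟨zz D b + nn b - 1 - x, by omega, by omega, ?_, ?_⟩
  · unfold LF
    rw [hbl]
    have : x ≤ aa D b := by omega
    omega
  · rw [aas]
    have h3 : zz D b + nn b - 1 - x + 1 ≤ nn b := by omega
    have h4 := Nat.mul_le_mul_right D h3
    rw [add_mul, one_mul] at h4
    omega

theorem LF_sum {D b x r : ℕ} (hD : 1000 ≤ D) (hb : 1 ≤ b) (hx : inB D b x) (hr : r < D) :
    aa D b ≤ x + LF D x r ∧ x + LF D x r < aa D (b + 1) := by
  obtain ⟨m, h1, h2, h3, h4⟩ := LF_main hD hb hx hr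
  omega

theorem LF_bd {D b x r : ℕ} (hD : 1000 ≤ D) (hb : 1 ≤ b) (hx : inB D b x) (hr : r < D) :
    aa D b + 1 ≤ LF D x r + zz D b + nn b ∧ LF D x r + zz D b < aa D (b + 1) := by
  obtain ⟨h1, h2⟩ := LF_sum hD hb hx hr
  obtain ⟨h3, h4⟩ := hx
  omega

theorem LF_bd1 {D x r : ℕ} (hD : 1000 ≤ D) (hx : inB D 1 x) (hr : r < D) :
    4 * D ≤ LF D x r + 14 ∧ LF D x r + 4 ≤ 16 * D := by
  obtain ⟨h1, h2⟩ := LF_bd hD le_rfl hx hr
  rw [aas, aa1, zz1, nn1] at h2
  rw [aa1, zz1, nn1] at h1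
  omega

theorem LF_bd2 {D c x r : ℕ} (hD : 1000 ≤ D) (hx : inB D (c + 2) x) (hr : r < D) :
    15 * (4 ^ c * D) ≤ LF D x r + 48 * 4 ^ c + 1 ∧ LF D x r + 3 ≤ 63 * (4 ^ c * D) := by
  obtain ⟨h1, h2⟩ := LF_bd hD (by omega) hx hr
  rw [aa3, zz2] at h2
  rw [aa2, zz2, nn2] at h1
  omega

theorem aa_mono {D b b' : ℕ} (h : b ≤ b') : aa D b ≤ aa D b' := by
  unfold aa
  have h1 : 4 ^ b ≤ 4 ^ b' := Nat.pow_le_pow_right (by norm_num) h
  have := Nat.mul_le_mul_right D h1
  omega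

/-- the sums of different blocks are different -/
theorem sum_blk {D b x r b' x' r' : ℕ} (hD : 1000 ≤ D) (hb : 1 ≤ b) (hx : inB D b x)
    (hr : r < D) (hb' : 1 ≤ b') (hx' : inB D b' x') (hr' : r' < D)
    (h : x + LF D x r = x' + LF D x' r') : b = b' := by
  obtain ⟨h1, h2⟩ := LF_sum hD hb hx hr
  obtain ⟨h3, h4⟩ := LF_sum hD hb' hx' hr'
  rcases lt_trichotomy b b' with hlt | heq | hgt
  · have := aa_mono (D := D) (show b + 1 ≤ b' from hlt)
    omega
  · exact heq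
  · have := aa_mono (D := D) (show b' + 1 ≤ b from hgt)
    omega

theorem eucl {D m r m' r' : ℕ} (hr : r < D) (hr' : r' < D) (h : m * D + r = m' * D + r') :
    m = m' ∧ r = r' := by
  rcases lt_trichotomy m m' with hlt | heq | hgt
  · have := Nat.mul_le_mul_right D (show m + 1 ≤ m' from hlt)
    rw [add_mul, one_mul] at this
    omega
  · subst heq
    exact ⟨rfl, by omega⟩
  · have := Nat.mul_le_mul_right D (show m' + 1 ≤ m from hgt)
    rw [add_mul, one_mul] at this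
    omega

theorem sum_inj {D b x r b' x' r' : ℕ} (hD : 1000 ≤ D) (hb : 1 ≤ b) (hx : inB D b x)
    (hr : r < D) (hb' : 1 ≤ b') (hx' : inB D b' x') (hr' : r' < D)
    (h : x + LF D x r = x' + LF D x' r') : x = x' ∧ r = r' := by
  have hbb := sum_blk hD hb hx hr hb' hx' hr' h
  subst hbb
  obtain ⟨m, h1, h2, h3, h4⟩ := LF_main hD hb hx hr
  obtain ⟨m', h1', h2', h3', h4'⟩ := LF_main hD hb hx' hr'
  obtain ⟨e1, e2⟩ := eucl hr hr' (show m * D + r = m' * D + r' by omega)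
  omega

/-- the leaves of blocks of the same parity: order -/
theorem leaf_lt {D b x r b' x' r' : ℕ} (hD : 1000 ≤ D) (hb : 1 ≤ b) (hx : inB D b x)
    (hr : r < D) (hx' : inB D b' x') (hr' : r' < D)
    (h : b + 2 ≤ b') : LF D x r < LF D x' r' := by
  obtain ⟨c', rfl⟩ : ∃ c', b' = c' + 2 := ⟨b' - 2, by omega⟩
  obtain ⟨l1, l2⟩ := LF_bd2 hD hx' hr'
  obtain ⟨g1, g2, g3⟩ := base hD c'
  rcases blk_cases hb with rfl | ⟨c, rfl⟩
  · obtain ⟨k1, k2⟩ := LF_bd1 hD hx hr
    obtain ⟨s1, s2⟩ := scale (D := D) (c := 0) (c' := c') (k := 1) (by omega)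
    norm_num at s1 s2
    omega
  · obtain ⟨k1, k2⟩ := LF_bd2 hD hx hr
    obtain ⟨s1, s2⟩ := scale (D := D) (c := c) (c' := c') (k := 2) (by omega)
    norm_num at s1 s2
    omega

theorem leaf_inj {D b x r b' x' r' : ℕ} (hD : 1000 ≤ D) (hb : 1 ≤ b) (hx : inB D b x)
    (hr : r < D) (hb' : 1 ≤ b') (hx' : inB D b' x') (hr' : r' < D) (hp : b ≠ b' → b + 2 ≤ b' ∨ b' + 2 ≤ b)
    (h : LF D x r = LF D x' r') : x = x' ∧ r = r' := by
  have hbb : b = b' := by
    by_contra hne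
    rcases hp hne with h1 | h1
    · have := leaf_lt hD hb hx hr hx' hr' h1
      omega
    · have := leaf_lt hD hb' hx' hr' hx hr h1
      omega
  subst hbb
  obtain ⟨m, h1, h2, h3, h4⟩ := LF_main hD hb hx hr
  obtain ⟨m', h1', h2', h3', h4'⟩ := LF_main hD hb hx' hr'
  have hE : m * (D + 1) + r = m' * (D + 1) + r' := by
    rw [mul_add, mul_add, mul_one, mul_one]
    omega
  obtain ⟨e1, e2⟩ := eucl (by omega) (by omega) hE
  omega

/-- centres below leaves -/
theorem cl1 {D b x r b' x' : ℕ} (hD : 1000 ≤ D) (hb : 1 ≤ b) (hx : inB D b x)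
    (hr : r < D) (hb' : 1 ≤ b') (hx' : inB D b' x') (h : b' ≤ b + 1) : x' < LF D x r := by
  rcases blk_cases hb with rfl | ⟨c, rfl⟩
  · obtain ⟨k1, k2⟩ := LF_bd1 hD hx hr
    rcases blk_cases hb' with rfl | ⟨c', rfl⟩
    · have := inB1 hx'
      omega
    · have hc : c' = 0 := by omega
      subst hc
      obtain ⟨j1, j2⟩ := inB2 hx'
      norm_num at j1 j2
      omega
  · obtain ⟨k1, k2⟩ := LF_bd2 hD hx hr
    obtain ⟨g1, g2, g3⟩ := base hD c
    rcases blk_cases hb' with rfl | ⟨c', rfl⟩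
    · have := inB1 hx'
      omega
    · obtain ⟨j1, j2⟩ := inB2 hx'
      obtain ⟨s1, s2⟩ := scale (D := D) (c := c') (c' := c + 1) (k := 0) (by omega)
      rw [pow_succ] at s1 s2
      have e : 4 ^ c * 4 * D = 4 * (4 ^ c * D) := by ring
      rw [e] at s2
      norm_num at s1 s2
      omega

/-- leaves below centres -/
theorem cl2 {D b x r b' x' : ℕ} (hD : 1000 ≤ D) (hb : 1 ≤ b) (hx : inB D b x)
    (hr : r < D) (hx' : inB D b' x') (h : b + 3 ≤ b') : LF D x r < x' := by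
  obtain ⟨c', rfl⟩ : ∃ c', b' = c' + 2 := ⟨b' - 2, by omega⟩
  obtain ⟨j1, j2⟩ := inB2 hx'
  rcases blk_cases hb with rfl | ⟨c, rfl⟩
  · obtain ⟨k1, k2⟩ := LF_bd1 hD hx hr
    obtain ⟨s1, s2⟩ := scale (D := D) (c := 0) (c' := c') (k := 2) (by omega)
    norm_num at s1 s2
    omega
  · obtain ⟨k1, k2⟩ := LF_bd2 hD hx hr
    obtain ⟨s1, s2⟩ := scale (D := D) (c := c) (c' := c') (k := 3) (by omega)
    norm_num at s1 s2
    omega

theorem leaf_ne {D b x r b' x' : ℕ} (hD : 1000 ≤ D) (hb : 1 ≤ b) (hx : inB D b x)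
    (hr : r < D) (hb' : 1 ≤ b') (hx' : inB D b' x') (h : b' ≠ b + 2) : LF D x r ≠ x' := by
  rcases Nat.lt_or_ge b' (b + 2) with h1 | h1
  · have := cl1 hD hb hx hr hb' hx' (by omega)
    omega
  · have := cl2 hD hb hx hr hx' (by omega)
    omega

/-- low centres -/
def CL (D B : ℕ) : Finset ℕ :=
  insert 1 (((range (B + 1)).filter fun b => Odd b).biUnion fun b =>
    Finset.Ico (zz D b) (zz D b + nn b))

/-- high centres -/
def CH (D B : ℕ) : Finset ℕ :=
  insert 2 (insert 3 (((range (B + 1)).filter fun b => Even b ∧ b ≠ 0).biUnion fun b =>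
    Finset.Ico (zz D b) (zz D b + nn b)))

theorem mem_CL {D B x : ℕ} : x ∈ CL D B ↔ x = 1 ∨ ∃ b, Odd b ∧ b ≤ B ∧ inB D b x := by
  unfold CL inB
  rw [mem_insert, mem_biUnion]
  refine or_congr Iff.rfl ⟨?_, ?_⟩
  · rintro ⟨b, hb, hx⟩
    rw [mem_filter, mem_range] at hb
    rw [mem_Ico] at hx
    exact ⟨b, hb.2, by omega, hx⟩
  · rintro ⟨b, hb, hB, hx⟩
    exact ⟨b, by rw [mem_filter, mem_range]; exact ⟨by omega, hb⟩, by rw [mem_Ico]; exact hx⟩

theorem mem_CH {D B x : ℕ} :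
    x ∈ CH D B ↔ x = 2 ∨ x = 3 ∨ ∃ b, Even b ∧ 2 ≤ b ∧ b ≤ B ∧ inB D b x := by
  unfold CH inB
  rw [mem_insert, mem_insert, mem_biUnion]
  refine or_congr Iff.rfl (or_congr Iff.rfl ⟨?_, ?_⟩)
  · rintro ⟨b, hb, hx⟩
    rw [mem_filter, mem_range] at hb
    rw [mem_Ico] at hx
    obtain ⟨k, hk⟩ := hb.2.1
    exact ⟨b, hb.2.1, by have := hb.2.2; omega, by omega, hx⟩
  · rintro ⟨b, hb, hb2, hB, hx⟩
    exact ⟨b, by rw [mem_filter, mem_range]; exact ⟨by omega, hb, by omega⟩,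
      by rw [mem_Ico]; exact hx⟩

theorem pdisj {D : ℕ} (hD : 1000 ≤ D) (s : Finset ℕ) (hs : ∀ b ∈ s, 1 ≤ b) :
    ∀ b ∈ s, ∀ b' ∈ s, b ≠ b' →
      Disjoint (Finset.Ico (zz D b) (zz D b + nn b)) (Finset.Ico (zz D b') (zz D b' + nn b')) := by
  intro b hb b' hb' hne
  rw [Finset.disjoint_left]
  intro x hx hx'
  rw [mem_Ico] at hx hx'
  have h1 := bl_eq hD (hs b hb) (show inB D b x from hx)
  have h2 := bl_eq hD (hs b' hb') (show inB D b' x from hx')
  exact hne (h1.symm.trans h2)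

theorem sum_nn (B : ℕ) :
    ∑ b ∈ (range (B + 1)).filter (fun b => Odd b), nn b +
      ∑ b ∈ (range (B + 1)).filter (fun b => Even b ∧ b ≠ 0), nn b + 4 = 4 ^ (B + 1) := by
  rw [sum_filter, sum_filter]
  induction B with
  | zero => simp
  | succ B ih =>
    rw [sum_range_succ, sum_range_succ (fun b => if Even b ∧ b ≠ 0 then nn b else 0)]
    have e : (if Odd (B + 1) then nn (B + 1) else 0) +
        (if Even (B + 1) ∧ B + 1 ≠ 0 then nn (B + 1) else 0) = nn (B + 1) := by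
      rcases Nat.even_or_odd (B + 1) with h | h
      · have h' : ¬ Odd (B + 1) := by rwa [Nat.not_odd_iff_even]
        rw [if_neg h', if_pos ⟨h, by omega⟩, zero_add]
      · have h' : ¬ Even (B + 1) := by rwa [Nat.not_even_iff_odd]
        rw [if_pos h, if_neg (fun h2 => h' h2.1), add_zero]
    have e2 : nn (B + 1) = 3 * 4 ^ (B + 1) := rfl
    have e3 : 4 ^ (B + 1 + 1) = 4 * 4 ^ (B + 1) := by rw [pow_succ 4 (B + 1)]; ring
    rw [e3]
    omega

theorem card_tot {D B : ℕ} (hD : 1000 ≤ D) :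
    (CL D B).card + (CH D B).card + 1 = 4 ^ (B + 1) := by
  have h1 : (CL D B).card = ∑ b ∈ (range (B + 1)).filter (fun b => Odd b), nn b + 1 := by
    unfold CL
    rw [card_insert_of_notMem, card_biUnion]
    · congr 1
      refine sum_congr rfl fun b _ => ?_
      rw [Nat.card_Ico]
      omega
    · exact pdisj hD _ fun b hb => by
        rw [mem_filter] at hb
        obtain ⟨k, hk⟩ := hb.2
        omega
    · rw [mem_biUnion]
      rintro ⟨b, hb, hx⟩
      rw [mem_Ico] at hx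
      rw [mem_filter] at hb
      obtain ⟨k, hk⟩ := hb.2
      rcases blk_cases (show 1 ≤ b by omega) with rfl | ⟨c, rfl⟩
      · have := inB1 (D := D) hx
        omega
      · have := inB2 (D := D) hx
        omega
  have h2 : (CH D B).card =
      ∑ b ∈ (range (B + 1)).filter (fun b => Even b ∧ b ≠ 0), nn b + 1 + 1 := by
    have hno : ∀ x, x ≤ 3 → x ∉ ((range (B + 1)).filter fun b => Even b ∧ b ≠ 0).biUnion fun b =>
        Finset.Ico (zz D b) (zz D b + nn b) := by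
      intro x hx3
      rw [mem_biUnion]
      rintro ⟨b, hb, hx⟩
      rw [mem_Ico] at hx
      rw [mem_filter] at hb
      rcases blk_cases (show 1 ≤ b by have := hb.2.2; omega) with rfl | ⟨c, rfl⟩
      · have := inB1 (D := D) hx
        omega
      · have := inB2 (D := D) hx
        omega
    unfold CH
    rw [card_insert_of_notMem, card_insert_of_notMem, card_biUnion]
    · congr 2
      refine sum_congr rfl fun b _ => ?_
      rw [Nat.card_Ico]
      omega
    · exact pdisj hD _ fun b hb => by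
        rw [mem_filter] at hb
        have := hb.2.2
        omega
    · exact hno 3 le_rfl
    · rw [mem_insert, not_or]
      exact ⟨by norm_num, hno 2 (by norm_num)⟩
  have h3 := sum_nn B
  omega

/-- high leaves of the low centres -/
def lH (D x r : ℕ) : ℕ := if x = 1 then 4 + r else LF D x r

/-- low leaves of the high centres -/
def lL (D j r : ℕ) : ℕ := if j = 3 then D + 2 + r else if j = 2 then 2 * D + 3 + r else LF D j r

/-- low leaves of the high centre `0` -/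
def lc (D r : ℕ) : ℕ := if r < 3 then r + 2 else 3 * D + 2 + r

theorem lc_cases {D r : ℕ} (hr : r < D) :
    (lc D r = r + 2 ∧ r < 3) ∨ (lc D r = 3 * D + 2 + r ∧ 3 ≤ r) := by
  unfold lc
  split_ifs with h
  · left; exact ⟨rfl, h⟩
  · right; exact ⟨rfl, by omega⟩

theorem lH_one (D r : ℕ) : lH D 1 r = 4 + r := by simp [lH]

theorem lL_three (D r : ℕ) : lL D 3 r = D + 2 + r := by simp [lL]

theorem lL_two (D r : ℕ) : lL D 2 r = 2 * D + 3 + r := by simp [lL]

theorem cen_ge {D b x : ℕ} (hb : 1 ≤ b) (hx : inB D b x) : 4 ≤ x := by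
  rcases blk_cases hb with rfl | ⟨c, rfl⟩
  · have := inB1 hx
    omega
  · have := inB2 hx
    omega

theorem lH_blk {D b x : ℕ} (hb : 1 ≤ b) (hx : inB D b x) (r : ℕ) : lH D x r = LF D x r := by
  have := cen_ge hb hx
  unfold lH
  rw [if_neg (by omega)]

theorem lL_blk {D b x : ℕ} (hb : 1 ≤ b) (hx : inB D b x) (r : ℕ) : lL D x r = LF D x r := by
  have := cen_ge hb hx
  unfold lL
  rw [if_neg (by omega), if_neg (by omega)]

/-- even blocks: centres and leaves are large -/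
theorem even_ge {D b x r : ℕ} (hD : 1000 ≤ D) (hb : 2 ≤ b) (hx : inB D b x) (hr : r < D) :
    D + 4 ≤ x ∧ 14 * D ≤ LF D x r := by
  obtain ⟨c, rfl⟩ : ∃ c, b = c + 2 := ⟨b - 2, by omega⟩
  obtain ⟨j1, j2⟩ := inB2 hx
  obtain ⟨k1, k2⟩ := LF_bd2 hD hx hr
  obtain ⟨g1, g2, g3⟩ := base hD c
  omega

/-- leaves of all blocks are large -/
theorem leaf_ge {D b x r : ℕ} (hD : 1000 ≤ D) (hb : 1 ≤ b) (hx : inB D b x) (hr : r < D) :
    3 * D ≤ LF D x r := by
  rcases blk_cases hb with rfl | ⟨c, rfl⟩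
  · obtain ⟨k1, k2⟩ := LF_bd1 hD hx hr
    omega
  · have := even_ge hD (by omega) hx hr
    omega

/-- odd blocks: centres are at most 16 or at least `4 D + 4` -/
theorem odd_cen {D b x : ℕ} (hD : 1000 ≤ D) (hb : Odd b) (hx : inB D b x) :
    (5 ≤ x ∧ x ≤ 16) ∨ 4 * D + 4 ≤ x := by
  obtain ⟨k, hk⟩ := hb
  rcases blk_cases (show 1 ≤ b by omega) with rfl | ⟨c, rfl⟩
  · left; exact inB1 hx
  · right
    obtain ⟨j1, j2⟩ := inB2 hx
    obtain ⟨s1, s2⟩ := scale (D := D) (c := 0) (c' := c) (k := 1) (by omega)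
    norm_num at s1 s2
    omega

theorem sum_ge {D b x r : ℕ} (hD : 1000 ≤ D) (hb : 1 ≤ b) (hx : inB D b x) (hr : r < D) :
    4 * D + 2 ≤ x + LF D x r := by
  have h1 := (LF_sum hD hb hx hr).1
  have h2 := aa_mono (D := D) hb
  rw [aa1] at h2
  omega

theorem sum_lt {D B b x r : ℕ} (hD : 1000 ≤ D) (hb : 1 ≤ b) (hB : b ≤ B) (hx : inB D b x)
    (hr : r < D) : x + LF D x r < 4 ^ (B + 1) * D + 2 := by
  have h1 := (LF_sum hD hb hx hr).2
  have h2 := aa_mono (D := D) (show b + 1 ≤ B + 1 by omega)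
  unfold aa at h1 h2
  omega

theorem P_ge {D B : ℕ} (hB : 2 ≤ B) : 64 * D ≤ 4 ^ (B + 1) * D := by
  obtain ⟨s1, s2⟩ := scale (D := D) (c := 0) (c' := B + 1) (k := 3) (by omega)
  norm_num at s1 s2
  omega

end DS56

open DS56

/-- the properties of the deterministic scheme -/
structure DetS (D M P : ℕ) (CL CH : Finset ℕ) (lH lL : ℕ → ℕ → ℕ) (lc : ℕ → ℕ) : Prop where
  card : CL.card + CH.card + 1 = M
  CLpos : ∀ x ∈ CL, 1 ≤ x
  CHpos : ∀ j ∈ CH, 2 ≤ j
  lLpos : ∀ j ∈ CH, ∀ r < D, 1 ≤ lL j r ∧ lL j r ∉ CL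
  lcpos : ∀ r < D, 1 ≤ lc r ∧ lc r ∉ CL ∧ ∀ j ∈ CH, ∀ r' < D, lL j r' ≠ lc r
  lHpos : ∀ x ∈ CL, ∀ r < D, 2 ≤ lH x r ∧ lH x r ∉ CH
  lLinj : ∀ j ∈ CH, ∀ r < D, ∀ j' ∈ CH, ∀ r' < D, lL j r = lL j' r' → j = j' ∧ r = r'
  lcinj : ∀ r < D, ∀ r' < D, lc r = lc r' → r = r'
  lHinj : ∀ x ∈ CL, ∀ r < D, ∀ x' ∈ CL, ∀ r' < D, lH x r = lH x' r' → x = x' ∧ r = r'
  s1 : ∀ x ∈ CL, ∀ r < D, 2 ≤ x + lH x r ∧ x + lH x r < P
  s2 : ∀ j ∈ CH, ∀ r < D, 2 ≤ j + lL j r ∧ j + lL j r < P
  s3 : ∀ r < D, 2 ≤ lc r ∧ lc r < P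
  s11 : ∀ x ∈ CL, ∀ r < D, ∀ x' ∈ CL, ∀ r' < D, x + lH x r = x' + lH x' r' → x = x' ∧ r = r'
  s22 : ∀ j ∈ CH, ∀ r < D, ∀ j' ∈ CH, ∀ r' < D, j + lL j r = j' + lL j' r' → j = j' ∧ r = r'
  s12 : ∀ x ∈ CL, ∀ r < D, ∀ j ∈ CH, ∀ r' < D, x + lH x r ≠ j + lL j r'
  s13 : ∀ x ∈ CL, ∀ r < D, ∀ r' < D, x + lH x r ≠ lc r'
  s23 : ∀ j ∈ CH, ∀ r < D, ∀ r' < D, j + lL j r ≠ lc r'
  zCL : ∀ x ∈ CL, 100 * x < 7 * P
  zCH : ∀ j ∈ CH, 1000 * j < 17 * P
  zlL : ∀ j ∈ CH, ∀ r < D, 100 * lL j r < 7 * P ∨ (20 * P < 100 * lL j r ∧ 100 * lL j r < 99 * P)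
  zlc : ∀ r < D, 100 * lc r < 7 * P
  zlH : ∀ x ∈ CL, ∀ r < D, 1000 * lH x r < 17 * P ∨ (58 * P < 1000 * lH x r ∧ 4 * lH x r < P)

theorem det_scheme (D B : ℕ) (hD : 1000 ≤ D) (hB : 2 ≤ B) (hB2 : Even B) :
    ∃ (CL CH : Finset ℕ) (lH lL : ℕ → ℕ → ℕ) (lc : ℕ → ℕ),
      DetS D (4 ^ (B + 1)) (4 ^ (B + 1) * D + 2) CL CH lH lL lc := by
  have hP := P_ge (D := D) hB
  obtain ⟨kB, hkB⟩ := hB2
  refine ⟨DS56.CL D B, DS56.CH D B, DS56.lH D, DS56.lL D, DS56.lc D, ?_⟩
  constructor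
  · exact card_tot hD
  · -- CLpos
    intro x hx
    rcases mem_CL.1 hx with rfl | ⟨b, hb, hbB, hxb⟩
    · exact le_rfl
    · obtain ⟨k, hk⟩ := hb
      have := cen_ge (show 1 ≤ b by omega) hxb
      omega
  · -- CHpos
    intro x hx
    rcases mem_CH.1 hx with rfl | rfl | ⟨b, hb, hb2, hbB, hxb⟩
    · exact le_rfl
    · omega
    · have := cen_ge (show 1 ≤ b by omega) hxb
      omega
  · -- lLpos
    intro j hj r hr
    rcases mem_CH.1 hj with rfl | rfl | ⟨b, hb, hb2, hbB, hxb⟩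
    · rw [lL_two]
      refine ⟨by omega, fun h => ?_⟩
      rcases mem_CL.1 h with h1 | ⟨b', hb', hbB', hxb'⟩
      · omega
      · have := odd_cen hD hb' hxb'
        omega
    · rw [lL_three]
      refine ⟨by omega, fun h => ?_⟩
      rcases mem_CL.1 h with h1 | ⟨b', hb', hbB', hxb'⟩
      · omega
      · have := odd_cen hD hb' hxb'
        omega
    · rw [lL_blk (show 1 ≤ b by omega) hxb]
      have hge := leaf_ge hD (show 1 ≤ b by omega) hxb hr
      refine ⟨by omega, fun h => ?_⟩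
      rcases mem_CL.1 h with h1 | ⟨b', hb', hbB', hxb'⟩
      · omega
      · obtain ⟨k, hk⟩ := hb
        obtain ⟨k', hk'⟩ := hb'
        exact leaf_ne hD (show 1 ≤ b by omega) hxb hr (show 1 ≤ b' by omega) hxb' (by omega) rfl
  · -- lcpos
    intro r hr
    have hlc := lc_cases hr
    refine ⟨by omega, fun h => ?_, ?_⟩
    · rcases mem_CL.1 h with h1 | ⟨b', hb', hbB', hxb'⟩
      · omega
      · have := odd_cen hD hb' hxb'
        omega
    · intro j hj r' hr'
      rcases mem_CH.1 hj with rfl | rfl | ⟨b, hb, hb2, hbB, hxb⟩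
      · rw [lL_two]
        omega
      · rw [lL_three]
        omega
      · rw [lL_blk (show 1 ≤ b by omega) hxb]
        have := even_ge hD hb2 hxb hr'
        omega
  · -- lHpos
    intro x hx r hr
    rcases mem_CL.1 hx with rfl | ⟨b, hb, hbB, hxb⟩
    · rw [lH_one]
      refine ⟨by omega, fun h => ?_⟩
      rcases mem_CH.1 h with h1 | h1 | ⟨b', hb', hb2', hbB', hxb'⟩
      · omega
      · omega
      · have := even_ge hD hb2' hxb' hr
        omega
    · obtain ⟨k, hk⟩ := hb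
      rw [lH_blk (show 1 ≤ b by omega) hxb]
      have hge := leaf_ge hD (show 1 ≤ b by omega) hxb hr
      refine ⟨by omega, fun h => ?_⟩
      rcases mem_CH.1 h with h1 | h1 | ⟨b', hb', hb2', hbB', hxb'⟩
      · omega
      · omega
      · obtain ⟨k', hk'⟩ := hb'
        exact leaf_ne hD (show 1 ≤ b by omega) hxb hr (show 1 ≤ b' by omega) hxb' (by omega) rfl
  · -- lLinj
    intro j hj r hr j' hj' r' hr' h
    rcases mem_CH.1 hj with rfl | rfl | ⟨b, hb, hb2, hbB, hxb⟩ <;>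
      rcases mem_CH.1 hj' with rfl | rfl | ⟨b', hb', hb2', hbB', hxb'⟩
    · rw [lL_two, lL_two] at h
      omega
    · rw [lL_two, lL_three] at h
      omega
    · rw [lL_two, lL_blk (show 1 ≤ b' by omega) hxb'] at h
      have := even_ge hD hb2' hxb' hr'
      omega
    · rw [lL_two, lL_three] at h
      omega
    · rw [lL_three, lL_three] at h
      omega
    · rw [lL_three, lL_blk (show 1 ≤ b' by omega) hxb'] at h
      have := even_ge hD hb2' hxb' hr'
      omega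
    · rw [lL_two, lL_blk (show 1 ≤ b by omega) hxb] at h
      have := even_ge hD hb2 hxb hr
      omega
    · rw [lL_three, lL_blk (show 1 ≤ b by omega) hxb] at h
      have := even_ge hD hb2 hxb hr
      omega
    · rw [lL_blk (show 1 ≤ b' by omega) hxb', lL_blk (show 1 ≤ b by omega) hxb] at h
      obtain ⟨k, hk⟩ := hb
      obtain ⟨k', hk'⟩ := hb'
      exact leaf_inj hD (show 1 ≤ b by omega) hxb hr (show 1 ≤ b' by omega) hxb' hr'
        (fun hne => by omega) h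
  · -- lcinj
    intro r hr r' hr' h
    have h1 := lc_cases hr
    have h2 := lc_cases hr'
    omega
  · -- lHinj
    intro j hj r hr j' hj' r' hr' h
    rcases mem_CL.1 hj with rfl | ⟨b, hb, hbB, hxb⟩ <;>
      rcases mem_CL.1 hj' with rfl | ⟨b', hb', hbB', hxb'⟩
    · rw [lH_one, lH_one] at h
      omega
    · obtain ⟨k', hk'⟩ := hb'
      rw [lH_one, lH_blk (show 1 ≤ b' by omega) hxb'] at h
      have := leaf_ge hD (show 1 ≤ b' by omega) hxb' hr'
      omega
    · obtain ⟨k, hk⟩ := hb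
      rw [lH_one, lH_blk (show 1 ≤ b by omega) hxb] at h
      have := leaf_ge hD (show 1 ≤ b by omega) hxb hr
      omega
    · obtain ⟨k, hk⟩ := hb
      obtain ⟨k', hk'⟩ := hb'
      rw [lH_blk (show 1 ≤ b' by omega) hxb', lH_blk (show 1 ≤ b by omega) hxb] at h
      exact leaf_inj hD (show 1 ≤ b by omega) hxb hr (show 1 ≤ b' by omega) hxb' hr'
        (fun hne => by omega) h
  · -- s1
    intro x hx r hr
    rcases mem_CL.1 hx with rfl | ⟨b, hb, hbB, hxb⟩
    · rw [lH_one]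
      omega
    · obtain ⟨k, hk⟩ := hb
      rw [lH_blk (show 1 ≤ b by omega) hxb]
      have h1 := sum_ge hD (show 1 ≤ b by omega) hxb hr
      have h2 := sum_lt hD (show 1 ≤ b by omega) hbB hxb hr
      omega
  · -- s2
    intro x hx r hr
    rcases mem_CH.1 hx with rfl | rfl | ⟨b, hb, hb2, hbB, hxb⟩
    · rw [lL_two]
      omega
    · rw [lL_three]
      omega
    · rw [lL_blk (show 1 ≤ b by omega) hxb]
      have h1 := sum_ge hD (show 1 ≤ b by omega) hxb hr
      have h2 := sum_lt hD (show 1 ≤ b by omega) hbB hxb hr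
      omega
  · -- s3
    intro r hr
    have h1 := lc_cases hr
    omega
  · -- s11
    intro j hj r hr j' hj' r' hr' h
    rcases mem_CL.1 hj with rfl | ⟨b, hb, hbB, hxb⟩ <;>
      rcases mem_CL.1 hj' with rfl | ⟨b', hb', hbB', hxb'⟩
    · rw [lH_one, lH_one] at h
      omega
    · obtain ⟨k', hk'⟩ := hb'
      rw [lH_one, lH_blk (show 1 ≤ b' by omega) hxb'] at h
      have := sum_ge hD (show 1 ≤ b' by omega) hxb' hr'
      omega
    · obtain ⟨k, hk⟩ := hb
      rw [lH_one, lH_blk (show 1 ≤ b by omega) hxb] at h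
      have := sum_ge hD (show 1 ≤ b by omega) hxb hr
      omega
    · obtain ⟨k, hk⟩ := hb
      obtain ⟨k', hk'⟩ := hb'
      rw [lH_blk (show 1 ≤ b' by omega) hxb', lH_blk (show 1 ≤ b by omega) hxb] at h
      exact sum_inj hD (show 1 ≤ b by omega) hxb hr (show 1 ≤ b' by omega) hxb' hr' h
  · -- s22
    intro j hj r hr j' hj' r' hr' h
    rcases mem_CH.1 hj with rfl | rfl | ⟨b, hb, hb2, hbB, hxb⟩ <;>
      rcases mem_CH.1 hj' with rfl | rfl | ⟨b', hb', hb2', hbB', hxb'⟩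
    · rw [lL_two, lL_two] at h
      omega
    · rw [lL_two, lL_three] at h
      omega
    · rw [lL_two, lL_blk (show 1 ≤ b' by omega) hxb'] at h
      have := sum_ge hD (show 1 ≤ b' by omega) hxb' hr'
      omega
    · rw [lL_two, lL_three] at h
      omega
    · rw [lL_three, lL_three] at h
      omega
    · rw [lL_three, lL_blk (show 1 ≤ b' by omega) hxb'] at h
      have := sum_ge hD (show 1 ≤ b' by omega) hxb' hr'
      omega
    · rw [lL_two, lL_blk (show 1 ≤ b by omega) hxb] at h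
      have := sum_ge hD (show 1 ≤ b by omega) hxb hr
      omega
    · rw [lL_three, lL_blk (show 1 ≤ b by omega) hxb] at h
      have := sum_ge hD (show 1 ≤ b by omega) hxb hr
      omega
    · rw [lL_blk (show 1 ≤ b' by omega) hxb', lL_blk (show 1 ≤ b by omega) hxb] at h
      exact sum_inj hD (show 1 ≤ b by omega) hxb hr (show 1 ≤ b' by omega) hxb' hr' h
  · -- s12
    intro x hx r hr j hj r' hr' h
    rcases mem_CL.1 hx with rfl | ⟨b, hb, hbB, hxb⟩ <;>
      rcases mem_CH.1 hj with rfl | rfl | ⟨b', hb', hb2', hbB', hxb'⟩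
    · rw [lH_one, lL_two] at h
      omega
    · rw [lH_one, lL_three] at h
      omega
    · rw [lH_one, lL_blk (show 1 ≤ b' by omega) hxb'] at h
      have := sum_ge hD (show 1 ≤ b' by omega) hxb' hr'
      omega
    · obtain ⟨k, hk⟩ := hb
      rw [lH_blk (show 1 ≤ b by omega) hxb, lL_two] at h
      have := sum_ge hD (show 1 ≤ b by omega) hxb hr
      omega
    · obtain ⟨k, hk⟩ := hb
      rw [lH_blk (show 1 ≤ b by omega) hxb, lL_three] at h
      have := sum_ge hD (show 1 ≤ b by omega) hxb hr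
      omega
    · obtain ⟨k, hk⟩ := hb
      obtain ⟨k', hk'⟩ := hb'
      rw [lH_blk (show 1 ≤ b by omega) hxb, lL_blk (show 1 ≤ b' by omega) hxb'] at h
      have := sum_blk hD (show 1 ≤ b by omega) hxb hr (show 1 ≤ b' by omega) hxb' hr' h
      omega
  · -- s13
    intro x hx r hr r' hr' h
    have h1 := lc_cases hr'
    rcases mem_CL.1 hx with rfl | ⟨b, hb, hbB, hxb⟩
    · rw [lH_one] at h
      omega
    · obtain ⟨k, hk⟩ := hb
      rw [lH_blk (show 1 ≤ b by omega) hxb] at h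
      have := sum_ge hD (show 1 ≤ b by omega) hxb hr
      omega
  · -- s23
    intro j hj r hr r' hr' h
    have h1 := lc_cases hr'
    rcases mem_CH.1 hj with rfl | rfl | ⟨b, hb, hb2, hbB, hxb⟩
    · rw [lL_two] at h
      omega
    · rw [lL_three] at h
      omega
    · rw [lL_blk (show 1 ≤ b by omega) hxb] at h
      have := sum_ge hD (show 1 ≤ b by omega) hxb hr
      omega
  · -- zCL
    intro x hx
    rcases mem_CL.1 hx with rfl | ⟨b, hb, hbB, hxb⟩
    · omega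
    · obtain ⟨k, hk⟩ := hb
      rcases blk_cases (show 1 ≤ b by omega) with rfl | ⟨c, rfl⟩
      · have := inB1 hxb
        omega
      · obtain ⟨j1, j2⟩ := inB2 hxb
        obtain ⟨g1, g2, g3⟩ := base hD c
        obtain ⟨s1, s2⟩ := scale (D := D) (c := c) (c' := B + 1) (k := 3) (by omega)
        norm_num at s1 s2
        omega
  · -- zCH
    intro x hx
    rcases mem_CH.1 hx with rfl | rfl | ⟨b, hb, hb2, hbB, hxb⟩
    · omega
    · omega
    · obtain ⟨c, rfl⟩ : ∃ c, b = c + 2 := ⟨b - 2, by omega⟩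
      obtain ⟨j1, j2⟩ := inB2 hxb
      obtain ⟨g1, g2, g3⟩ := base hD c
      obtain ⟨s1, s2⟩ := scale (D := D) (c := c) (c' := B + 1) (k := 3) (by omega)
      norm_num at s1 s2
      omega
  · -- zlL
    intro j hj r hr
    rcases mem_CH.1 hj with rfl | rfl | ⟨b, hb, hb2, hbB, hxb⟩
    · rw [lL_two]
      left
      omega
    · rw [lL_three]
      left
      omega
    · rw [lL_blk (show 1 ≤ b by omega) hxb]
      obtain ⟨c, rfl⟩ : ∃ c, b = c + 2 := ⟨b - 2, by omega⟩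
      obtain ⟨j1, j2⟩ := LF_bd2 hD hxb hr
      obtain ⟨g1, g2, g3⟩ := base hD c
      obtain ⟨k, hk⟩ := hb
      rcases Nat.lt_or_ge (c + 3) B with h1 | h1
      · left
        obtain ⟨s1, s2⟩ := scale (D := D) (c := c) (c' := B + 1) (k := 5) (by omega)
        norm_num at s1 s2
        omega
      · right
        have hBc : B + 1 = c + 3 := by omega
        rw [hBc, pow_add]
        have e : 4 ^ c * 4 ^ 3 * D = 64 * (4 ^ c * D) := by ring
        rw [e]
        omega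
  · -- zlc
    intro r hr
    have h1 := lc_cases hr
    omega
  · -- zlH
    intro x hx r hr
    rcases mem_CL.1 hx with rfl | ⟨b, hb, hbB, hxb⟩
    · rw [lH_one]
      left
      omega
    · obtain ⟨k, hk⟩ := hb
      rw [lH_blk (show 1 ≤ b by omega) hxb]
      rcases blk_cases (show 1 ≤ b by omega) with rfl | ⟨c, rfl⟩
      · obtain ⟨j1, j2⟩ := LF_bd1 hD hxb hr
        rcases Nat.lt_or_ge B 3 with h1 | h1
        · right
          have hB2 : B = 2 := by omega
          subst hB2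
          norm_num
          omega
        · left
          obtain ⟨s1, s2⟩ := scale (D := D) (c := 0) (c' := B + 1) (k := 5) (by omega)
          norm_num at s1 s2
          omega
      · obtain ⟨j1, j2⟩ := LF_bd2 hD hxb hr
        obtain ⟨g1, g2, g3⟩ := base hD c
        rcases Nat.lt_or_ge (c + 3) B with h1 | h1
        · left
          obtain ⟨s1, s2⟩ := scale (D := D) (c := c) (c' := B + 1) (k := 6) (by omega)
          norm_num at s1 s2
          omega
        · right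
          have hBc : B + 1 = c + 4 := by omega
          rw [hBc, pow_add]
          have e : 4 ^ c * 4 ^ 4 * D = 256 * (4 ^ c * D) := by ring
          rw [e]
          omega

end Pool.Agent.GRC
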