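import Mathlib
import Pool.Agent.Helper73.SEM.Defs
import Pool.Agent.Helper73.SEM.LWD

/-!
# Project GRC (MP_067c94): almost all unicyclic graphs are graceful — common definitions

Trees are given by a parent function `p` on `0..n-1` with root `0` (`SEM.Par`, `SEM.chl`, `SEM.Pend`, `SEM.uc`).
Labels are `0..n`, the value of an edge is the difference `ad x y = |x - y|`.
-/

set_option autoImplicit false

namespace Pool.Agent.GRC

open Finset Pool.Agent.SEM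

/-- the absolute difference -/
def ad (x y : ℕ) : ℕ := (x - y) + (y - x)

theorem ad_comm (x y : ℕ) : ad x y = ad y x := by unfold ad; omega

/-- `c` is not the root, has exactly `D` children, and they are all leaves. -/
def StarD (n : ℕ) (p : ℕ → ℕ) (D c : ℕ) : Prop :=
  0 < c ∧ c < n ∧ (chl n p c).card = D ∧ ∀ u ∈ chl n p c, chl n p u = ∅

/-- graceful labelling of the tree `p` plus the edge `ab` (`n` vertices, `n` edges) -/
def IsGr (n : ℕ) (p : ℕ → ℕ) (a b : ℕ) : Prop :=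
  ∃ f : ℕ → ℕ, (∀ i, i < n → f i ≤ n) ∧ Set.InjOn f (range n) ∧
    Set.InjOn (fun i => ad (f i) (f (p i))) (Ico 1 n) ∧
    ∀ i, 0 < i → i < n → ad (f i) (f (p i)) ≠ ad (f a) (f b)

/-- random labelling of the vertices `P` (given the labels `lab` on `R`) with labels in `X`, all differences on the edges
`(i, p i)`, `i ∈ P ∪ ex`, in `S`, and joint probabilities `≤ (U/n)^|A|`. -/
structure PD (n : ℕ) (p : ℕ → ℕ) (R : Finset ℕ) (lab : ℕ → ℕ) (X S P ex : Finset ℕ) (U : ℝ)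
    (L : FL) : Prop where
  nn : ∀ ω, 0 ≤ L.wt ω
  one : L.Ex (fun _ => 1) = 1
  onR : ∀ ω, ∀ r ∈ R, L.Φ ω r = lab r
  lbl : ∀ ω, L.wt ω ≠ 0 → ∀ v ∈ P, L.Φ ω v ∈ X
  df : ∀ ω, L.wt ω ≠ 0 → ∀ i ∈ P ∪ ex, ad (L.Φ ω i) (L.Φ ω (p i)) ∈ S
  joint : ∀ A ⊆ P, ∀ x : ℕ → ℕ, L.Pr (fun φ => ∀ v ∈ A, φ v = x v) ≤ (U / n) ^ A.card

/-! ### marginals of a function of two labels (leaf moves) -/

/-- row sum (parent label `y`) -/
noncomputable def rowS (X : Finset ℕ) (r : ℕ → ℕ → ℝ) (y : ℕ) : ℝ := ∑ z ∈ X, r y z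

/-- label marginal (leaf label `z`) -/
noncomputable def labS (X : Finset ℕ) (r : ℕ → ℕ → ℝ) (z : ℕ) : ℝ := ∑ y ∈ X, r y z

/-- difference marginal -/
noncomputable def difS (X : Finset ℕ) (r : ℕ → ℕ → ℝ) (d : ℕ) : ℝ :=
  ∑ y ∈ X, ∑ z ∈ X, if ad y z = d then r y z else 0

/-- admissible support: labels in `X`, difference in `S` -/
def AdmS (X S : Finset ℕ) (r : ℕ → ℕ → ℝ) : Prop :=
  ∀ y z, r y z ≠ 0 → y ∈ X ∧ z ∈ X ∧ ad y z ∈ S

/-- the adjustable pairs (parent label, leaf label) -/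
def Rg (n : ℕ) (X S : Finset ℕ) (y z : ℕ) : Prop :=
  y ∈ X ∧ z ∈ X ∧ ad y z ∈ S ∧ 34 * n ≤ 100 * z ∧ 100 * z ≤ 66 * n ∧ 100 * ad y z ≤ 31 * n

/-- adjustable labels -/
def XR (n : ℕ) (X : Finset ℕ) : Finset ℕ := X.filter fun z => 34 * n ≤ 100 * z ∧ 100 * z ≤ 66 * n

/-- adjustable differences -/
def SR (n : ℕ) (S : Finset ℕ) : Finset ℕ := S.filter fun d => 100 * d ≤ 31 * n

/-- density hypothesis: few labels in `[n/100, 99n/100]` and few differences in `[1, n/3]` are missing -/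
structure Dns (n : ℕ) (X S : Finset ℕ) : Prop where
  X_sub : X ⊆ range (n + 1)
  S_sub : S ⊆ Icc 1 n
  X_big : 10000 * ((range (n + 1)).filter fun x => n ≤ 100 * x ∧ 100 * x ≤ 99 * n ∧ x ∉ X).card ≤ n
  S_big : 10000 * ((Icc 1 n).filter fun d => 3 * d ≤ n ∧ d ∉ S).card ≤ n

end Pool.Agent.GRC
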