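import Pool.Agent.Helper28.GRC.Defs
import Pool.Agent.Helper73.SEM.LW1

/-!
# GRC-EXT: extension of a random labelling by independent units; mixtures

A unit `i` is a set `W i` of new vertices hanging at the vertex `par i` of the old part; given the label `y` of `par i` its labels have the law `κ i y`.

Proof in words.  One unit: `Ω' = Σ ω : L.Ω, (κ i (L.Φ ω (par i))).Ω`, weight = product, `Φ' (ω, ω') j = Φ ω' j` if `j ∈ W i`, else `Φ ω j`.  Then
`L'.Ex F = L.Ex (fun φ => (κ i (φ (par i))).Ex (fun ψ => F (fun j => if j ∈ W i then ψ j else φ j)))`.  Induction on the set of units (`Finset.induction_on`), as in `SEM.flex_law`.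
Joint bound: split `A` into `A ∩ W i` and the rest: `Pr ≤ (sup_y (κ i y).Pr(..)) (L.Pr ..)`.
`mix_FL`: `Ω = Σ j : {j // j ∈ J}, (L j).Ω`, weight `a j * wt`.
-/

set_option autoImplicit false

namespace Pool.Agent.GRC

open Finset Pool.Agent.SEM

theorem FL.Ex_zero31 (L : FL) : L.Ex (fun _ => 0) = 0 := by
  unfold FL.Ex
  simp

/-- the law of a unit, given the label `y` of its parent -/
structure UK (p : ℕ → ℕ) (X S W : Finset ℕ) (v : ℕ) (y : ℕ) (u : ℝ) (L : FL) : Prop where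
  nn : ∀ ω, 0 ≤ L.wt ω
  one : L.Ex (fun _ => 1) = 1
  lbl : ∀ ω, L.wt ω ≠ 0 → ∀ j ∈ W, L.Φ ω j ∈ X
  df : ∀ ω, L.wt ω ≠ 0 → ∀ j ∈ W, ad (L.Φ ω j) (if p j = v then y else L.Φ ω (p j)) ∈ S
  joint : ∀ A ⊆ W, ∀ x : ℕ → ℕ, L.Pr (fun φ => ∀ j ∈ A, φ j = x j) ≤ u ^ A.card

/-- extension of a law by a kernel on the vertices `W`, depending on the label of `v` -/
noncomputable def ext31 (L : FL) (v : ℕ) (W : Finset ℕ) (κ : ℕ → FL) : FL where
  Ω := Σ ω : L.Ω, (κ (L.Φ ω v)).Ω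
  fin := letI := L.fin; letI := fun ω : L.Ω => (κ (L.Φ ω v)).fin; inferInstance
  wt := fun o => L.wt o.1 * (κ (L.Φ o.1 v)).wt o.2
  Φ := fun o j => if j ∈ W then (κ (L.Φ o.1 v)).Φ o.2 j else L.Φ o.1 j

theorem ext_Ex31 (L : FL) (v : ℕ) (W : Finset ℕ) (κ : ℕ → FL) (F : (ℕ → ℕ) → ℝ) :
    (ext31 L v W κ).Ex F = L.Ex (fun φ => (κ (φ v)).Ex (fun ψ => F (fun j => if j ∈ W then ψ j else φ j))) := by
  unfold FL.Ex ext31
  simp only
  let := L.fin
  let := fun ω : L.Ω => (κ (L.Φ ω v)).fin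
  rw [Fintype.sum_sigma]
  refine Finset.sum_congr rfl fun ω _ => ?_
  rw [Finset.mul_sum]
  exact Finset.sum_congr rfl fun y _ => by ring

/-- one unit -/
theorem ext_step31 {n : ℕ} {p lab : ℕ → ℕ} {R X S P ex Y W : Finset ℕ} {U : ℝ} (hU : 0 ≤ U) {v : ℕ}
    (L : FL) (hL : PD n p R lab X S P ex U L) (hP : ∀ i ∈ P, p i ∈ P ∪ R) (hexR : ex ⊆ R)
    (hexP : ∀ r ∈ ex, p r ∈ P) (hv : v ∈ P) (hvY : ∀ ω, L.wt ω ≠ 0 → L.Φ ω v ∈ Y)
    (hW : Disjoint W (P ∪ R)) (hWp : ∀ i ∈ W, p i = v ∨ p i ∈ W) (κ : ℕ → FL)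
    (hκ : ∀ y ∈ Y, UK p X S W v y (U / n) (κ y)) :
    PD n p R lab X S (P ∪ W) ex U (ext31 L v W κ) := by
  classical
  have hn0 : (0 : ℝ) ≤ U / n := div_nonneg hU (Nat.cast_nonneg n)
  have hPW : ∀ i ∈ P, i ∉ W := fun i hi h => Finset.disjoint_left.1 hW h (Finset.mem_union_left _ hi)
  have hRW : ∀ i ∈ R, i ∉ W := fun i hi h => Finset.disjoint_left.1 hW h (Finset.mem_union_right _ hi)
  have hPRW : ∀ i ∈ P ∪ R, i ∉ W := fun i hi h => Finset.disjoint_left.1 hW h hi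
  refine ⟨?_, ?_, ?_, ?_, ?_, ?_⟩
  · rintro ⟨ω, o⟩
    change 0 ≤ L.wt ω * (κ (L.Φ ω v)).wt o
    rcases eq_or_ne (L.wt ω) 0 with h0 | h0
    · rw [h0, zero_mul]
    · exact mul_nonneg (hL.nn ω) ((hκ _ (hvY ω h0)).nn o)
  · rw [ext_Ex31]
    refine Eq.trans ?_ hL.one
    exact L.Ex_congr38 fun ω hω => (hκ _ (hvY ω hω)).one
  · rintro ⟨ω, o⟩ r hr
    change (if r ∈ W then (κ (L.Φ ω v)).Φ o r else L.Φ ω r) = lab r
    rw [if_neg (hRW r hr)]
    exact hL.onR ω r hr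
  · rintro ⟨ω, o⟩ h i hi
    have h1 : L.wt ω ≠ 0 := left_ne_zero_of_mul h
    have h2 : (κ (L.Φ ω v)).wt o ≠ 0 := right_ne_zero_of_mul h
    change (if i ∈ W then (κ (L.Φ ω v)).Φ o i else L.Φ ω i) ∈ X
    rcases Finset.mem_union.1 hi with hi | hi
    · rw [if_neg (hPW i hi)]
      exact hL.lbl ω h1 i hi
    · rw [if_pos hi]
      exact (hκ _ (hvY ω h1)).lbl o h2 i hi
  · rintro ⟨ω, o⟩ h i hi
    have h1 : L.wt ω ≠ 0 := left_ne_zero_of_mul h
    have h2 : (κ (L.Φ ω v)).wt o ≠ 0 := right_ne_zero_of_mul h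
    change ad (if i ∈ W then (κ (L.Φ ω v)).Φ o i else L.Φ ω i)
      (if p i ∈ W then (κ (L.Φ ω v)).Φ o (p i) else L.Φ ω (p i)) ∈ S
    rcases Finset.mem_union.1 hi with hi | hi
    · rcases Finset.mem_union.1 hi with hi | hi
      · rw [if_neg (hPW i hi), if_neg (hPRW _ (hP i hi))]
        exact hL.df ω h1 i (Finset.mem_union_left _ hi)
      · rw [if_pos hi]
        have h3 := (hκ _ (hvY ω h1)).df o h2 i hi
        rcases hWp i hi with h4 | h4
        · rw [if_pos h4] at h3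
          rw [h4, if_neg (hPW v hv)]
          exact h3
        · have h5 : p i ≠ v := fun h => hPW v hv (h ▸ h4)
          rw [if_neg h5] at h3
          rw [if_pos h4]
          exact h3
    · rw [if_neg (hRW i (hexR hi)), if_neg (hPW _ (hexP i hi))]
      exact hL.df ω h1 i (Finset.mem_union_right _ hi)
  · intro A hA x
    have hA0P : A \ W ⊆ P := by
      intro i hi
      rw [Finset.mem_sdiff] at hi
      rcases Finset.mem_union.1 (hA hi.1) with h | h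
      · exact h
      · exact absurd h hi.2
    have hcard : A.card = (A \ W).card + (A ∩ W).card := (Finset.card_sdiff_add_card_inter A W).symm
    rw [hcard, pow_add]
    have h8 : (ext31 L v W κ).Pr (fun φ => ∀ i ∈ A, φ i = x i)
        ≤ L.Pr (fun φ => ∀ i ∈ A \ W, φ i = x i) * (U / n) ^ (A ∩ W).card := by
      unfold FL.Pr
      rw [ext_Ex31, ← L.Ex_mul38]
      refine L.Ex_mono38 hL.nn fun ω hω => ?_
      by_cases h9 : ∀ i ∈ A \ W, L.Φ ω i = x i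
      · rw [if_pos h9, one_mul]
        refine le_trans (le_of_eq ?_) ((hκ _ (hvY ω hω)).joint (A ∩ W) Finset.inter_subset_right x)
        unfold FL.Pr
        refine FL.Ex_congr38 _ fun o _ => ?_
        have hiff : (∀ i ∈ A, (if i ∈ W then (κ (L.Φ ω v)).Φ o i else L.Φ ω i) = x i) ↔
            ∀ i ∈ A ∩ W, (κ (L.Φ ω v)).Φ o i = x i := by
          constructor
          · intro h i hi
            rw [Finset.mem_inter] at hi
            have := h i hi.1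
            rwa [if_pos hi.2] at this
          · intro h i hi
            by_cases hiW : i ∈ W
            · rw [if_pos hiW]
              exact h i (Finset.mem_inter.2 ⟨hi, hiW⟩)
            · rw [if_neg hiW]
              exact h9 i (Finset.mem_sdiff.2 ⟨hi, hiW⟩)
        by_cases h10 : ∀ i ∈ A ∩ W, (κ (L.Φ ω v)).Φ o i = x i
        · rw [if_pos (hiff.2 h10), if_pos h10]
        · rw [if_neg (fun h => h10 (hiff.1 h)), if_neg h10]
      · rw [if_neg h9, zero_mul]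
        refine le_of_eq (Eq.trans ?_ (FL.Ex_zero31 (κ (L.Φ ω v))))
        refine FL.Ex_congr38 _ fun o _ => ?_
        rw [if_neg]
        intro h
        apply h9
        intro i hi
        rw [Finset.mem_sdiff] at hi
        have := h i hi.1
        simp only at this
        rwa [if_neg hi.2] at this
    refine h8.trans ?_
    exact mul_le_mul_of_nonneg_right (hL.joint (A \ W) hA0P x) (pow_nonneg hn0 _)

/-- functions of the old labels -/
theorem ext_marg31 {p : ℕ → ℕ} {X S Y W : Finset ℕ} {u : ℝ} {v : ℕ} (L : FL)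
    (hvY : ∀ ω, L.wt ω ≠ 0 → L.Φ ω v ∈ Y) (κ : ℕ → FL) (hκ : ∀ y ∈ Y, UK p X S W v y u (κ y))
    (f : (ℕ → ℕ) → ℝ) (hf : ∀ φ ψ : ℕ → ℕ, (∀ j, j ∉ W → φ j = ψ j) → f φ = f ψ) :
    (ext31 L v W κ).Ex f = L.Ex f := by
  rw [ext_Ex31]
  refine L.Ex_congr38 fun ω hω => ?_
  have h1 : ∀ ψ : ℕ → ℕ, f (fun j => if j ∈ W then ψ j else L.Φ ω j) = 1 * f (L.Φ ω) := by
    intro ψ
    rw [one_mul]
    exact hf _ _ fun j hj => if_neg hj
  simp only [h1]
  rw [FL.Ex_mul38, (hκ _ (hvY ω hω)).one, one_mul]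

theorem ext_units31 {n : ℕ} {p lab : ℕ → ℕ} {R X S Q ex Y : Finset ℕ} {U : ℝ} (hU : 0 ≤ U) (L0 : FL)
    (hL0 : PD n p R lab X S Q ex U L0) (hpQ : ∀ v ∈ Q, p v ∈ Q ∪ R)
    (hexR : ex ⊆ R) (hexQ : ∀ r ∈ ex, p r ∈ Q)
    (hY : ∀ ω, L0.wt ω ≠ 0 → ∀ v ∈ Q, L0.Φ ω v ∈ Y)
    (I : Finset ℕ) (par : ℕ → ℕ) (W : ℕ → Finset ℕ) (κ : ℕ → ℕ → FL) :
    (∀ i ∈ I, par i ∈ Q) → (∀ i ∈ I, Disjoint (W i) (Q ∪ R)) →
    (∀ i ∈ I, ∀ j ∈ I, i ≠ j → Disjoint (W i) (W j)) →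
    (∀ i ∈ I, ∀ v ∈ W i, p v = par i ∨ p v ∈ W i) →
    (∀ i ∈ I, ∀ y ∈ Y, UK p X S (W i) (par i) y (U / n) (κ i y)) →
    ∃ L : FL, PD n p R lab X S (Q ∪ I.biUnion W) ex U L ∧
      (∀ ω, L.wt ω ≠ 0 → ∀ v ∈ Q, L.Φ ω v ∈ Y) ∧
      (∀ f : (ℕ → ℕ) → ℝ, (∀ φ ψ : ℕ → ℕ, (∀ j ∈ Q ∪ R, φ j = ψ j) → f φ = f ψ) → L.Ex f = L0.Ex f) ∧
      ∀ i ∈ I, ∀ f : ℕ → (ℕ → ℕ) → ℝ, (∀ y, ∀ φ ψ : ℕ → ℕ, (∀ j ∈ W i, φ j = ψ j) → f y φ = f y ψ) →
        L.Ex (fun φ => f (φ (par i)) φ) =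
          L0.Ex (fun φ => (κ i (φ (par i))).Ex (fun ψ => f (φ (par i)) ψ)) := by
  classical
  induction I using Finset.induction_on with
  | empty =>
    intro _ _ _ _ _
    refine ⟨L0, ?_, hY, fun f _ => rfl, fun i hi => absurd hi (Finset.notMem_empty i)⟩
    rw [Finset.biUnion_empty, Finset.union_empty]
    exact hL0
  | insert i I hiI ih =>
    intro hpar hWd hWW hWp hκ
    have hmem : ∀ j ∈ I, j ∈ insert i I := fun j hj => Finset.mem_insert_of_mem hj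
    obtain ⟨L1, hL1, hY1, hm1, hu1⟩ := ih (fun j hj => hpar j (hmem j hj)) (fun j hj => hWd j (hmem j hj))
      (fun j hj k hk => hWW j (hmem j hj) k (hmem k hk)) (fun j hj => hWp j (hmem j hj))
      (fun j hj => hκ j (hmem j hj))
    have hii := Finset.mem_insert_self i I
    have hQW : ∀ j ∈ Q ∪ R, j ∉ W i := fun j hj h => Finset.disjoint_left.1 (hWd i hii) h hj
    have hIW : ∀ k ∈ I, ∀ j ∈ W k, j ∉ W i := by
      intro k hk j hj h
      have hne : k ≠ i := fun h => hiI (h ▸ hk)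
      exact Finset.disjoint_left.1 (hWW k (hmem k hk) i hii hne) hj h
    have hdis : Disjoint (W i) ((Q ∪ I.biUnion W) ∪ R) := by
      rw [Finset.disjoint_right]
      intro j hj
      rcases Finset.mem_union.1 hj with hj | hj
      · rcases Finset.mem_union.1 hj with hj | hj
        · exact hQW j (Finset.mem_union_left _ hj)
        · obtain ⟨k, hk, hjk⟩ := Finset.mem_biUnion.1 hj
          exact hIW k hk j hjk
      · exact hQW j (Finset.mem_union_right _ hj)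
    have hP : ∀ j ∈ Q ∪ I.biUnion W, p j ∈ (Q ∪ I.biUnion W) ∪ R := by
      intro j hj
      rcases Finset.mem_union.1 hj with hj | hj
      · rcases Finset.mem_union.1 (hpQ j hj) with h | h
        · exact Finset.mem_union_left _ (Finset.mem_union_left _ h)
        · exact Finset.mem_union_right _ h
      · obtain ⟨k, hk, hjk⟩ := Finset.mem_biUnion.1 hj
        refine Finset.mem_union_left _ ?_
        rcases hWp k (hmem k hk) j hjk with h | h
        · rw [h]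
          exact Finset.mem_union_left _ (hpar k (hmem k hk))
        · exact Finset.mem_union_right _ (Finset.mem_biUnion.2 ⟨k, hk, h⟩)
    have hstep := ext_step31 (Y := Y) hU L1 hL1 hP hexR
      (fun r hr => Finset.mem_union_left _ (hexQ r hr))
      (Finset.mem_union_left _ (hpar i hii)) (fun ω hω => hY1 ω hω _ (hpar i hii))
      hdis (hWp i hii) (κ i) (hκ i hii)
    have hmarg := fun f hf => ext_marg31 L1 (fun ω hω => hY1 ω hω _ (hpar i hii)) (κ i) (hκ i hii) f hf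
    refine ⟨ext31 L1 (par i) (W i) (κ i), ?_, ?_, ?_, ?_⟩
    · have hset : Q ∪ (insert i I).biUnion W = (Q ∪ I.biUnion W) ∪ W i := by
        rw [Finset.biUnion_insert]
        ext j
        simp only [Finset.mem_union]
        tauto
      rw [hset]
      exact hstep
    · rintro ⟨ω, o⟩ h v hv
      change (if v ∈ W i then (κ i (L1.Φ ω (par i))).Φ o v else L1.Φ ω v) ∈ Y
      rw [if_neg (hQW v (Finset.mem_union_left _ hv))]
      exact hY1 ω (left_ne_zero_of_mul h) v hv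
    · intro f hf
      rw [hmarg f fun φ ψ h => hf φ ψ fun j hj => h j (hQW j hj)]
      exact hm1 f hf
    · intro k hk f hf
      rcases Finset.mem_insert.1 hk with rfl | hk
      · rw [ext_Ex31]
        have h1 : ∀ φ : ℕ → ℕ, (κ k (φ (par k))).Ex (fun ψ =>
            f ((fun j => if j ∈ W k then ψ j else φ j) (par k)) (fun j => if j ∈ W k then ψ j else φ j))
            = (κ k (φ (par k))).Ex (fun ψ => f (φ (par k)) ψ) := by
          intro φ
          refine FL.Ex_congr38 _ fun o _ => ?_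
          simp only
          rw [if_neg (hQW _ (Finset.mem_union_left _ (hpar k hii)))]
          exact hf _ _ _ fun j hj => if_pos hj
        simp only at h1
        simp only [h1]
        apply hm1
        intro φ ψ h
        rw [h _ (Finset.mem_union_left _ (hpar k hii))]
      · rw [hmarg _ ?_]
        · exact hu1 k hk f hf
        · intro φ ψ h
          rw [h (par k) (hQW _ (Finset.mem_union_left _ (hpar k (hmem k hk))))]
          exact hf _ _ _ fun j hj => h j (hIW k hk j hj)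

theorem ext_units {n : ℕ} {p lab : ℕ → ℕ} {R X S Q ex Y : Finset ℕ} {U : ℝ} (hU : 0 ≤ U) (L0 : FL)
    (hL0 : PD n p R lab X S Q ex U L0) (hQR : Disjoint Q R) (hpQ : ∀ v ∈ Q, p v ∈ Q ∪ R)
    (hexR : ex ⊆ R) (hexQ : ∀ r ∈ ex, p r ∈ Q)
    (hY : ∀ ω, L0.wt ω ≠ 0 → ∀ v ∈ Q, L0.Φ ω v ∈ Y)
    (I : Finset ℕ) (par : ℕ → ℕ) (W : ℕ → Finset ℕ) (κ : ℕ → ℕ → FL)
    (hpar : ∀ i ∈ I, par i ∈ Q) (hWd : ∀ i ∈ I, Disjoint (W i) (Q ∪ R))
    (hWW : ∀ i ∈ I, ∀ j ∈ I, i ≠ j → Disjoint (W i) (W j))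
    (hWp : ∀ i ∈ I, ∀ v ∈ W i, p v = par i ∨ p v ∈ W i)
    (hκ : ∀ i ∈ I, ∀ y ∈ Y, UK p X S (W i) (par i) y (U / n) (κ i y)) :
    ∃ L : FL, PD n p R lab X S (Q ∪ I.biUnion W) ex U L ∧
      (∀ f : (ℕ → ℕ) → ℝ, (∀ φ ψ : ℕ → ℕ, (∀ j ∈ Q ∪ R, φ j = ψ j) → f φ = f ψ) → L.Ex f = L0.Ex f) ∧
      ∀ i ∈ I, ∀ f : ℕ → (ℕ → ℕ) → ℝ, (∀ y, ∀ φ ψ : ℕ → ℕ, (∀ j ∈ W i, φ j = ψ j) → f y φ = f y ψ) →
        L.Ex (fun φ => f (φ (par i)) φ) =
          L0.Ex (fun φ => (κ i (φ (par i))).Ex (fun ψ => f (φ (par i)) ψ)) := by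
  obtain ⟨L, h1, _, h2, h3⟩ := ext_units31 hU L0 hL0 hpQ hexR hexQ hY I par W κ hpar hWd hWW hWp hκ
  exact ⟨L, h1, h2, h3⟩

theorem mix_FL (J : Finset ℕ) (a : ℕ → ℝ) (L : ℕ → FL) (ha : ∀ j ∈ J, 0 ≤ a j) (ha1 : ∑ j ∈ J, a j = 1)
    (hL : ∀ j ∈ J, ∀ ω, 0 ≤ (L j).wt ω) :
    ∃ M : FL, (∀ F : (ℕ → ℕ) → ℝ, M.Ex F = ∑ j ∈ J, a j * (L j).Ex F) ∧ (∀ ω, 0 ≤ M.wt ω) ∧
      ∀ ω, M.wt ω ≠ 0 → ∃ j ∈ J, a j ≠ 0 ∧ ∃ ω', (L j).wt ω' ≠ 0 ∧ M.Φ ω = (L j).Φ ω' := by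
  refine ⟨⟨Σ j : {j // j ∈ J}, (L j).Ω, letI := fun j : {j // j ∈ J} => (L j).fin; inferInstance,
    fun o => a o.1 * (L o.1).wt o.2, fun o => (L o.1).Φ o.2⟩, ?_, ?_, ?_⟩
  · intro F
    unfold FL.Ex
    simp only
    let := fun j : {j // j ∈ J} => (L j).fin
    rw [Fintype.sum_sigma]
    rw [← Finset.sum_coe_sort J]
    refine Finset.sum_congr rfl fun j _ => ?_
    rw [Finset.mul_sum]
    exact Finset.sum_congr rfl fun y _ => by ring
  · rintro ⟨j, o⟩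
    exact mul_nonneg (ha j j.2) (hL j j.2 o)
  · rintro ⟨j, o⟩ h
    exact ⟨j, j.2, left_ne_zero_of_mul h, o, right_ne_zero_of_mul h, rfl⟩

/-- a unit consisting of one vertex `j` with a given probability vector -/
theorem single_UK {p : ℕ → ℕ} {X S : Finset ℕ} {v y j : ℕ} {u : ℝ} (hj : p j = v) (a : ℕ → ℝ)
    (ha : ∀ x, 0 ≤ a x) (hu : ∀ x, a x ≤ u) (ha1 : ∑ x ∈ X, a x = 1) (hS : ∀ x, a x ≠ 0 → ad x y ∈ S) :
    ∃ L : FL, UK p X S {j} v y u L ∧ ∀ f : ℕ → ℝ, L.Ex (fun φ => f (φ j)) = ∑ x ∈ X, a x * f x := by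
  classical
  have hex : ∀ F : (ℕ → ℕ) → ℝ, FL.Ex ⟨{x // x ∈ X}, inferInstance, fun x => a x, fun x _ => x⟩ F
      = ∑ x ∈ X, a x * F (fun _ => x) := by
    intro F
    unfold FL.Ex
    simp only
    rw [← Finset.sum_coe_sort X]
  refine ⟨⟨{x // x ∈ X}, inferInstance, fun x => a x, fun x _ => x⟩, ⟨?_, ?_, ?_, ?_, ?_⟩, ?_⟩
  · exact fun ω => ha _
  · rw [hex]
    simpa using ha1
  · intro ω _ i _
    exact ω.2
  · intro ω hω i hi
    rw [Finset.mem_singleton] at hi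
    subst hi
    change ad ω.1 (if p i = v then y else ω.1) ∈ S
    rw [if_pos hj]
    exact hS _ hω
  · intro A hA x
    rcases Finset.subset_singleton_iff.1 hA with rfl | rfl
    · have h1 : ∀ φ : ℕ → ℕ, (∀ i ∈ (∅ : Finset ℕ), φ i = x i) := by simp
      unfold FL.Pr
      rw [hex]
      simp [ha1]
    · unfold FL.Pr
      rw [hex, Finset.card_singleton, pow_one]
      have hu0 : 0 ≤ u := (ha 0).trans (hu 0)
      have h1 : ∀ z : ℕ, (if ∀ i ∈ ({j} : Finset ℕ), (fun _ : ℕ => z) i = x i then (1 : ℝ) else 0)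
          = if z = x j then 1 else 0 := by
        intro z
        simp
      simp only [Finset.mem_singleton, forall_eq, mul_ite, mul_one, mul_zero]
      rw [Finset.sum_ite_eq']
      split_ifs
      · exact hu _
      · exact hu0
  · intro f
    rw [hex]

end Pool.Agent.GRC
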