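import Pool.Agent.Helper28.GRC.DATG

/-!
# GRC-FEG: the completion step

Model: Helper73/SEM/FE.lean (`Dat.complete`).

Proof in words.  `Tl = T \ T'`, `E = ` bound for `|MV Tl|`, `|EM Tl| ≤ 2 |MV Tl|` (`SEM.EM_le`).  `embed_leftG` with `Cn = {a : 45 n ≤ 100 a ≤ 55 n}` (as `(range (n+1)).filter ..`) gives `f2` (labels `UL ⊆ FX`, differences `US ⊆ FS`).
`JX = XX \ f1 '' MV T'`, `JS = SS \ (differences of T')`; `|JX| = |MV Tl| ≤ E`, `|JS| = |EM Tl| ≤ 2E` (`cardX`, `cardS`).  By `cov`, every `s ∈ JS` has `s + P ≤ n`.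
`JSe = {s ∈ JS : 72 n < 100 s}`, `JSi` the rest.  `cover2` with `FX \ UL`, `FXE`, `FS \ US`, `κe - 3E`, `κ' - 20 E` (the counting conditions lose at most `|UL| + 2·|US|..≤ 9E`), `cc v = lab (p v)`; `cc v ∉ FX ∪ FXE ∪ JX` by `x1` and `JX ⊆ XX`.
Then `FX2 = (FX \ UL) \ (used labels)`, `|FX2| = mX + g` (all the labels of `JX` and `FXE` are used, the `|Ve| + 2|Vin|` paths use `|Ve| + 2 |Vin|` labels of `JX ∪ FXE ∪ FX`; `cX`); take `FX3 ⊆ FX2` with `|FX3| = mX`;
`FS2 = (FS \ US) \ (used differences)`, `|FS2| = mS`.  Apply `absb` to `FX3`, `FS2`.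
-/

set_option autoImplicit false

namespace Pool.Agent.GRC

open Finset Pool.Agent.SEM

private theorem h38_ad_card (a : ℕ) (FX US : Finset ℕ) :
    (FX.filter fun x => ad a x ∈ US).card ≤ 2 * US.card := by
  classical
  have h : (FX.filter fun x => ad a x ∈ US) ⊆ (US.image fun s => a + s) ∪ US.image fun s => a - s := by
    intro x hx
    rw [mem_filter] at hx
    rw [mem_union, mem_image, mem_image]
    by_cases hax : a ≤ x
    · left
      exact ⟨ad a x, hx.2, by unfold ad; omega⟩
    · right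
      exact ⟨ad a x, hx.2, by unfold ad; omega⟩
  have h1 := card_le_card h
  have h2 := card_union_le (US.image fun s => a + s) (US.image fun s => a - s)
  have h3 : (US.image fun s => a + s).card ≤ US.card := card_image_le
  have h4 : (US.image fun s => a - s).card ≤ US.card := card_image_le
  omega

private theorem h38_card3 {V W : Finset ℕ} {a b c : ℕ → ℕ} (ha : Set.InjOn a V) (hb : Set.InjOn b W)
    (hc : Set.InjOn c W) (hab : ∀ v ∈ V, ∀ u ∈ W, a v ≠ b u ∧ a v ≠ c u)
    (hbc : ∀ u ∈ W, ∀ u' ∈ W, b u ≠ c u') :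
    (V.image a ∪ W.image b ∪ W.image c).card = V.card + 2 * W.card := by
  classical
  have d1 : Disjoint (V.image a) (W.image b) := by
    rw [disjoint_left]; intro x hx hx'
    obtain ⟨v, hv, rfl⟩ := mem_image.1 hx
    obtain ⟨u, hu, h⟩ := mem_image.1 hx'
    exact (hab v hv u hu).1 h.symm
  have d2 : Disjoint (V.image a ∪ W.image b) (W.image c) := by
    rw [disjoint_left]; intro x hx hx'
    obtain ⟨u, hu, h⟩ := mem_image.1 hx'
    rcases mem_union.1 hx with hx | hx
    · obtain ⟨v, hv, rfl⟩ := mem_image.1 hx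
      exact (hab v hv u hu).2 h.symm
    · obtain ⟨v, hv, rfl⟩ := mem_image.1 hx
      exact hbc v hv u hu h.symm
  rw [card_union_of_disjoint d2, card_union_of_disjoint d1, card_image_of_injOn ha,
    card_image_of_injOn hb, card_image_of_injOn hc]
  omega

section
variable {m g n K mX mS κe κ' P : ℕ} {p ea eb top lab β : ℕ → ℕ} {R Ve Vin A FX FXE FS YX YS L Sm : Finset ℕ}

/-- the completion step: after the main packing and the embedding of the leftover pieces -/
theorem DatG.complete (D : DatG m g n K mX mS κe κ' P p ea eb top lab β R Ve Vin A FX FXE FS YX YS L Sm)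
    {T' : Finset ℕ} {f1 : ℕ → ℕ} {E : ℕ} (hT' : T' ⊆ TTg m p R Ve Vin A)
    (hV1 : ∀ v ∈ MV m R top T', f1 v ∈ XXg n lab β R Ve FX FXE YX L)
    (hE1 : ∀ i ∈ EM m p R top T', ad (f1 i) (f1 (p i)) ∈ SSg m g n p ea eb lab β R Ve FS YS Sm)
    (hI1 : Set.InjOn f1 (MV m R top T'))
    (hJ1 : Set.InjOn (fun i => ad (f1 i) (f1 (p i))) (EM m p R top T'))
    (hleft : (MV m R top (TTg m p R Ve Vin A \ T')).card ≤ E) (hκe : 20 * E + 1 ≤ κe)
    (hκ' : 10 * (Ve.card + 2 * Vin.card) + 100 * E + 100 ≤ κ') (hV : FXE.card + 3 * E ≤ Vin.card) :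
    ∃ (f2 ze y z a a' : ℕ → ℕ) (XL XS FX3 FS2 : Finset ℕ),
      (∀ r ∈ R, f2 r = lab r) ∧
      (∀ v ∈ MV m R top (TTg m p R Ve Vin A \ T'), f2 v ∈ FX) ∧
      (∀ i ∈ EM m p R top (TTg m p R Ve Vin A \ T'), ad (f2 i) (f2 (p i)) ∈ FS) ∧
      Set.InjOn f2 (MV m R top (TTg m p R Ve Vin A \ T')) ∧
      Set.InjOn (fun i => ad (f2 i) (f2 (p i))) (EM m p R top (TTg m p R Ve Vin A \ T')) ∧
      -- reserved paths
      Set.InjOn ze Ve ∧ Set.InjOn y Vin ∧ Set.InjOn z Vin ∧
      (∀ v ∈ Ve, ∀ u ∈ Vin, ze v ≠ y u ∧ ze v ≠ z u) ∧ (∀ u ∈ Vin, ∀ u' ∈ Vin, y u ≠ z u') ∧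
      (∀ x ∈ Ve.image ze ∪ Vin.image y ∪ Vin.image z,
        (x ∈ XXg n lab β R Ve FX FXE YX L ∧ x ∉ (MV m R top T').image f1) ∨
        (x ∈ FX ∪ FXE ∧ x ∉ (MV m R top (TTg m p R Ve Vin A \ T')).image f2)) ∧
      Set.InjOn (fun v => ad (β v) (ze v)) Ve ∧ Set.InjOn (fun u => ad (lab (p u)) (y u)) Vin ∧
      Set.InjOn (fun u => ad (y u) (z u)) Vin ∧
      (∀ v ∈ Ve, ∀ u ∈ Vin, ad (β v) (ze v) ≠ ad (lab (p u)) (y u) ∧ ad (β v) (ze v) ≠ ad (y u) (z u)) ∧
      (∀ u ∈ Vin, ∀ u' ∈ Vin, ad (lab (p u)) (y u) ≠ ad (y u') (z u')) ∧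
      (∀ s ∈ Ve.image (fun v => ad (β v) (ze v)) ∪ Vin.image (fun u => ad (lab (p u)) (y u)) ∪
          Vin.image (fun u => ad (y u) (z u)),
        (s ∈ SSg m g n p ea eb lab β R Ve FS YS Sm ∧ s ∉ (EM m p R top T').image fun i => ad (f1 i) (f1 (p i))) ∨
        (s ∈ FS ∧ s ∉ (EM m p R top (TTg m p R Ve Vin A \ T')).image fun i => ad (f2 i) (f2 (p i)))) ∧
      -- what is left for the absorber
      FX3 ⊆ FX ∧ Disjoint FX3 ((MV m R top (TTg m p R Ve Vin A \ T')).image f2) ∧
      Disjoint FX3 (Ve.image ze ∪ Vin.image y ∪ Vin.image z) ∧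
      FS2 ⊆ FS ∧
      Disjoint FS2 ((EM m p R top (TTg m p R Ve Vin A \ T')).image fun i => ad (f2 i) (f2 (p i))) ∧
      Disjoint FS2 (Ve.image (fun v => ad (β v) (ze v)) ∪ Vin.image (fun u => ad (lab (p u)) (y u)) ∪
        Vin.image (fun u => ad (y u) (z u))) ∧
      XL ⊆ YX ∪ FX3 ∧ XS ⊆ YS ∪ FS2 ∧
      (∀ i ∈ A, a i ∈ L ∪ XL ∧ a' i ∈ L ∪ XL ∧ ad (lab (p i)) (a i) ∈ Sm ∪ XS ∧ ad (a i) (a' i) ∈ Sm ∪ XS) ∧
      Set.InjOn a A ∧ Set.InjOn a' A ∧ (∀ i ∈ A, ∀ j ∈ A, a i ≠ a' j) ∧
      Set.InjOn (fun i => ad (lab (p i)) (a i)) A ∧ Set.InjOn (fun i => ad (a i) (a' i)) A ∧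
      ∀ i ∈ A, ∀ j ∈ A, ad (lab (p i)) (a i) ≠ ad (a j) (a' j) := by
  classical
  set T := TTg m p R Ve Vin A with hTdef
  set X := XXg n lab β R Ve FX FXE YX L with hXdef
  set S := SSg m g n p ea eb lab β R Ve FS YS Sm with hSdef
  set Tl := T \ T' with hTl
  have hEl : (EM m p R top Tl).card ≤ 2 * (MV m R top Tl).card := EM_le D.par D.dec Tl
  have hlabFX : ∀ r ∈ R, lab r ∉ FX := by
    intro r hr h
    have h1 := D.x1
    rw [disjoint_left] at h1
    refine h1 (mem_image_of_mem lab hr) ?_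
    simp only [mem_union]; tauto
  have hlabFXE : ∀ r ∈ R, lab r ∉ FXE := by
    intro r hr h
    have h1 := D.x1
    rw [disjoint_left] at h1
    refine h1 (mem_image_of_mem lab hr) ?_
    simp only [mem_union]; tauto
  have hFXn : ∀ x ∈ FX ∪ FXE, x ≤ n := by
    intro x hx
    have h1 : x ∈ range (n + 1) := D.XR (mem_union_left _ (mem_union_left _ hx))
    rw [mem_range] at h1; omega
  have hTlops : ∀ t ∈ Tl, t < m ∧ t ∉ R ∧ p t ∈ R := by
    intro t ht
    have h1 : t ∈ T := (mem_sdiff.1 ht).1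
    rw [hTdef, TTg] at h1
    exact mem_tops.1 (mem_sdiff.1 h1).1
  -- embedding of the leftover pieces
  obtain ⟨f2, h20, h21, h22, h23, h24⟩ : ∃ f : ℕ → ℕ, (∀ r ∈ R, f r = lab r) ∧
      (∀ v ∈ MV m R top Tl, f v ∈ FX) ∧ (∀ i ∈ EM m p R top Tl, ad (f i) (f (p i)) ∈ FS) ∧
      Set.InjOn f (MV m R top Tl) ∧ Set.InjOn (fun i => ad (f i) (f (p i))) (EM m p R top Tl) := by
    rcases (MV m R top Tl).eq_empty_or_nonempty with h0 | ⟨v0, hv0⟩
    · have h1 : EM m p R top Tl = ∅ := by
        rw [← card_eq_zero]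
        rw [h0, card_empty] at hEl
        omega
      refine ⟨lab, fun _ _ => rfl, ?_, ?_, ?_, ?_⟩
      · rw [h0]; simp
      · rw [h1]; simp
      · rw [h0]; simp
      · rw [h1]; simp
    · refine embed_leftG (κ := κ')
        (Cn := (range (n + 1)).filter fun a => 45 * n ≤ 100 * a ∧ 100 * a ≤ 55 * n)
        D.par D.dec hlabFX ?_ ?_ ?_ ?_ ?_
      · intro a a' ha ha'
        rw [mem_filter, mem_range] at ha'
        refine D.f4 a a' ?_ ha'.2.1 ha'.2.2
        rcases ha with ha | ha
        · exact hFXn a (mem_union_left _ ha)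
        · rw [mem_filter, mem_range] at ha; omega
      · intro v hv hpv
        rw [mem_MV] at hv
        rw [mem_filter, mem_range]
        have h1 := D.ctr (p v) hpv (Or.inl ⟨v, D.dec.pos hv.2.1, hv.1, hv.2.1, rfl⟩)
        have h2 := D.labR (p v) hpv
        exact ⟨by omega, h1.1, h1.2⟩
      · intro i hi hiR
        rw [mem_EM] at hi
        rw [mem_filter, mem_range]
        have h3 : p i ∉ R := by
          rcases hi.2.2 with h | h
          · exact absurd hiR h.1
          · exact h.2.1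
        have h1 := D.ctr i hiR (Or.inr ⟨hi.2.1, h3⟩)
        have h2 := D.labR i hiR
        exact ⟨by omega, h1.1, h1.2⟩
      · rw [mem_MV] at hv0
        obtain ⟨h1, h2, h3⟩ := hTlops _ hv0.2.2
        have h4 := D.ctr (p (top v0)) h3 (Or.inl ⟨top v0, D.dec.pos h2, h1, h2, rfl⟩)
        have h5 := D.labR (p (top v0)) h3
        refine ⟨lab (p (top v0)), ?_⟩
        rw [mem_filter, mem_range]
        exact ⟨by omega, h4.1, h4.2⟩
      · omega
  -- leftover labels and differences
  set JX := X \ (MV m R top T').image f1 with hJX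
  set JS := S \ (EM m p R top T').image (fun i => ad (f1 i) (f1 (p i))) with hJS
  have hsub1 : (MV m R top T').image f1 ⊆ X := by
    intro x hx
    obtain ⟨v, hv, rfl⟩ := mem_image.1 hx
    exact hV1 v hv
  have hsub2 : (EM m p R top T').image (fun i => ad (f1 i) (f1 (p i))) ⊆ S := by
    intro x hx
    obtain ⟨v, hv, rfl⟩ := mem_image.1 hx
    exact hE1 v hv
  have hJXc : JX.card = (MV m R top Tl).card := by
    have h1 := card_sdiff_add_card_eq_card hsub1
    rw [card_image_of_injOn hI1] at h1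
    have h2 := MV_sdiff_card (n := m) (R := R) (top := top) hT'
    have h3 := D.cardX
    rw [← hTdef, ← hXdef] at h3
    rw [hJX, hTl]; omega
  have hJSc : JS.card = (EM m p R top Tl).card := by
    have h1 := card_sdiff_add_card_eq_card hsub2
    rw [card_image_of_injOn hJ1] at h1
    have h2 := EM_sdiff_card (n := m) (p := p) (R := R) (top := top) hT'
    have h3 := D.cardS
    rw [← hTdef, ← hSdef] at h3
    rw [hJS, hTl]; omega
  -- remaining flexible labels and differences
  set UL := (MV m R top Tl).image f2 with hUL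
  set US := (EM m p R top Tl).image (fun i => ad (f2 i) (f2 (p i))) with hUS
  have hULsub : UL ⊆ FX := by
    intro x hx
    obtain ⟨v, hv, rfl⟩ := mem_image.1 hx
    exact h21 v hv
  have hUSsub : US ⊆ FS := by
    intro x hx
    obtain ⟨v, hv, rfl⟩ := mem_image.1 hx
    exact h22 v hv
  have hULc : UL.card = (MV m R top Tl).card := card_image_of_injOn h23
  have hUSc : US.card = (EM m p R top Tl).card := card_image_of_injOn h24
  have hXr : X ⊆ range (n + 1) := sdiff_subset
  have hSr : S ⊆ Icc 1 n := sdiff_subset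
  have hFXX : Disjoint (FX ∪ FXE) X := by
    rw [disjoint_left]
    intro x hx hx'
    apply (mem_sdiff.1 hx').2
    simp only [mem_union] at hx ⊢
    tauto
  have hRX : ∀ r ∈ R, lab r ∉ X := by
    intro r hr hx'
    apply (mem_sdiff.1 hx').2
    have := mem_image_of_mem lab hr
    simp only [mem_union]
    tauto
  have hFSS : Disjoint FS S := by
    rw [disjoint_left]
    intro x hx hx'
    apply (mem_sdiff.1 hx').2
    simp only [mem_union]
    tauto
  have hSEI : ∀ s ∈ S, s + P ≤ n := by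
    intro s hs
    by_contra hcon
    have h1 := mem_Icc.1 (hSr hs)
    have h2 := D.cov s (by omega) h1.2
    apply (mem_sdiff.1 hs).2
    simp only [mem_union]
    tauto
  have hFXFXE : Disjoint FX FXE :=
    disjoint_of_subset_right (by intro x hx; simp only [mem_union]; tauto) D.x2
  -- large and small leftover differences
  set JSe := JS.filter (fun s => 72 * n < 100 * s) with hJSe
  set JSi := JS.filter (fun s => ¬ 72 * n < 100 * s) with hJSi
  have hJun : JSe ∪ JSi = JS := filter_union_filter_not_eq _ _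
  have hJdis : Disjoint JSe JSi := disjoint_filter_filter_not _ _ _
  have hJcard : JSe.card + JSi.card = JS.card := by
    rw [← card_union_of_disjoint hJdis, hJun]
  have hc1 : ∀ s ∈ JSe, κe - 3 * E ≤ (Ve.filter fun v => β v + s ∈ (FX \ UL) ∪ FXE).card := by
    intro s hs
    rw [hJSe, mem_filter] at hs
    have h1 := D.f1 s hs.2 (hSEI s (mem_sdiff.1 hs.1).1)
    have h2 : (Ve.filter fun v => β v + s ∈ FX ∪ FXE).card ≤
        (Ve.filter fun v => β v + s ∈ (FX \ UL) ∪ FXE).card + UL.card := by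
      have h3 : (Ve.filter fun v => β v + s ∈ FX ∪ FXE) ⊆
          (Ve.filter fun v => β v + s ∈ (FX \ UL) ∪ FXE) ∪ (Ve.filter fun v => β v + s ∈ UL) := by
        intro v hv
        simp only [mem_filter, mem_union, mem_sdiff] at hv ⊢
        tauto
      have h4 : (Ve.filter fun v => β v + s ∈ UL).card ≤ UL.card := by
        apply card_le_card_of_injOn (fun v => β v + s)
        · intro v hv
          rw [mem_coe, mem_filter] at hv
          exact hv.2
        · intro v hv w hw h
          rw [mem_coe, mem_filter] at hv hw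
          exact D.βI hv.1 hw.1 (by simpa using h)
      have h5 := card_le_card h3
      have h6 := card_union_le (Ve.filter fun v => β v + s ∈ (FX \ UL) ∪ FXE)
        (Ve.filter fun v => β v + s ∈ UL)
      omega
    omega
  have hc3 : ∀ v ∈ Ve, κ' - 20 * E ≤ ((FX \ UL).filter fun x => ad (β v) x ∈ FS \ US).card := by
    intro v hv
    have h1 := D.f3 v hv
    have h3 : (FX.filter fun x => ad (β v) x ∈ FS) ⊆
        ((FX \ UL).filter fun x => ad (β v) x ∈ FS \ US) ∪
          (UL ∪ (FX.filter fun x => ad (β v) x ∈ US)) := by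
      intro x hx
      simp only [mem_filter, mem_union, mem_sdiff] at hx ⊢
      tauto
    have h4 := h38_ad_card (β v) FX US
    have h5 := card_le_card h3
    have h6 := card_union_le ((FX \ UL).filter fun x => ad (β v) x ∈ FS \ US)
      (UL ∪ (FX.filter fun x => ad (β v) x ∈ US))
    have h7 := card_union_le UL (FX.filter fun x => ad (β v) x ∈ US)
    omega
  have hc4 : ∀ u ∈ Vin, ∀ a ≤ n, κ' - 20 * E ≤
      ((FX \ UL).filter fun x => ad a x ∈ FS \ US ∧ ad (lab (p u)) x ∈ FS \ US).card := by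
    intro u hu a ha
    have h0 := D.mid u (mem_union_right _ hu)
    have h1 := D.f4 a (lab (p u)) ha (by omega) (by omega)
    have h3 : (FX.filter fun x => ad a x ∈ FS ∧ ad (lab (p u)) x ∈ FS) ⊆
        ((FX \ UL).filter fun x => ad a x ∈ FS \ US ∧ ad (lab (p u)) x ∈ FS \ US) ∪
          (UL ∪ ((FX.filter fun x => ad a x ∈ US) ∪ (FX.filter fun x => ad (lab (p u)) x ∈ US))) := by
      intro x hx
      simp only [mem_filter, mem_union, mem_sdiff] at hx ⊢
      tauto
    have h4 := h38_ad_card a FX US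
    have h4' := h38_ad_card (lab (p u)) FX US
    have h5 := card_le_card h3
    have h6 := card_union_le ((FX \ UL).filter fun x => ad a x ∈ FS \ US ∧ ad (lab (p u)) x ∈ FS \ US)
      (UL ∪ ((FX.filter fun x => ad a x ∈ US) ∪ (FX.filter fun x => ad (lab (p u)) x ∈ US)))
    have h7 := card_union_le UL
      ((FX.filter fun x => ad a x ∈ US) ∪ (FX.filter fun x => ad (lab (p u)) x ∈ US))
    have h8 := card_union_le (FX.filter fun x => ad a x ∈ US) (FX.filter fun x => ad (lab (p u)) x ∈ US)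
    omega
  have hc5 : ∀ u ∈ Vin, ∀ s ∈ JSi, κ' - 20 * E ≤
      ((FX \ UL).filter fun x => ad (lab (p u)) x ∈ FS \ US ∧ x + s ∈ FX \ UL).card := by
    intro u hu s hs
    rw [hJSi, mem_filter] at hs
    have h0 := D.mid u (mem_union_right _ hu)
    have h1 := D.f5 s (lab (p u)) (by omega) h0.1 h0.2
    have h3 : (FX.filter fun x => ad (lab (p u)) x ∈ FS ∧ x + s ∈ FX) ⊆
        ((FX \ UL).filter fun x => ad (lab (p u)) x ∈ FS \ US ∧ x + s ∈ FX \ UL) ∪
          (UL ∪ ((FX.filter fun x => ad (lab (p u)) x ∈ US) ∪ (FX.filter fun x => x + s ∈ UL))) := by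
      intro x hx
      simp only [mem_filter, mem_union, mem_sdiff] at hx ⊢
      tauto
    have h4 := h38_ad_card (lab (p u)) FX US
    have h4' : (FX.filter fun x => x + s ∈ UL).card ≤ UL.card := by
      apply card_le_card_of_injOn (fun x => x + s)
      · intro x hx
        rw [mem_coe, mem_filter] at hx
        exact hx.2
      · intro x _ x' _ h
        simpa using h
    have h5 := card_le_card h3
    have h6 := card_union_le
      ((FX \ UL).filter fun x => ad (lab (p u)) x ∈ FS \ US ∧ x + s ∈ FX \ UL)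
      (UL ∪ ((FX.filter fun x => ad (lab (p u)) x ∈ US) ∪ (FX.filter fun x => x + s ∈ UL)))
    have h7 := card_union_le UL
      ((FX.filter fun x => ad (lab (p u)) x ∈ US) ∪ (FX.filter fun x => x + s ∈ UL))
    have h8 := card_union_le (FX.filter fun x => ad (lab (p u)) x ∈ US) (FX.filter fun x => x + s ∈ UL)
    omega
  have hJXX : JX ⊆ X := sdiff_subset
  have hJSS : JS ⊆ S := sdiff_subset
  obtain ⟨ze, y, z, g1, g2, g3, g4, g5, g6, g7, g8, g9, g10, g11, g12, g13, g14, g15, g16, g17⟩ :=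
    cover2 (n := n) (κe := κe - 3 * E) (κ' := κ' - 20 * E) (Ve := Ve) (Vin := Vin) (FX := FX \ UL)
      (FXE := FXE) (FS := FS \ US) (JX := JX) (JSe := JSe) (JSi := JSi) (β := β)
      (cc := fun u => lab (p u)) D.βI
      (disjoint_of_subset_left sdiff_subset hFXFXE)
      (disjoint_of_subset_left (union_subset_union_left sdiff_subset)
        (disjoint_of_subset_right hJXX hFXX))
      (by rw [hJun]; exact disjoint_of_subset_left sdiff_subset (disjoint_of_subset_right hJSS hFSS))
      hJdis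
      (by
        rw [hJun]; intro s hs
        rcases mem_union.1 hs with hs | hs
        · exact (mem_Icc.1 (D.SR (mem_union_left _ (mem_union_left _ (sdiff_subset hs))))).1
        · exact (mem_Icc.1 (hSr (hJSS hs))).1)
      (by
        intro x hx
        rcases mem_union.1 hx with hx | hx
        · exact hFXn x (union_subset_union_left sdiff_subset hx)
        · have := mem_range.1 (hXr (hJXX hx)); omega)
      (by
        intro u hu hx
        have hpu : p u ∈ R :=
          (D.sp u (mem_union_left _ (mem_union_right _ hu))).2.1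
        rcases mem_union.1 hx with hx | hx
        · rcases mem_union.1 hx with hx | hx
          · exact hlabFX _ hpu (sdiff_subset hx)
          · exact hlabFXE _ hpu hx
        · exact hRX _ hpu (hJXX hx))
      hc1 hc3 hc4 hc5 (by omega) (by omega) (by omega)
  -- the labels and differences used by the reserved paths
  set W := Ve.image ze ∪ Vin.image y ∪ Vin.image z with hW
  set WS := Ve.image (fun v => ad (β v) (ze v)) ∪ Vin.image (fun u => ad (lab (p u)) (y u)) ∪
          Vin.image (fun u => ad (y u) (z u)) with hWS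
  have hWc : W.card = Ve.card + 2 * Vin.card := h38_card3 g1 g2 g3 g4 g5
  have hWSc : WS.card = Ve.card + 2 * Vin.card := h38_card3 g8 g9 g10 g11 g12
  have hWsub : W ⊆ (FX \ UL) ∪ FXE ∪ JX := by
    intro x hx
    rw [hW, mem_union, mem_union] at hx
    rcases hx with (hx | hx) | hx
    · obtain ⟨v, hv, rfl⟩ := mem_image.1 hx
      exact mem_union_left _ (g6 v hv)
    · obtain ⟨v, hv, rfl⟩ := mem_image.1 hx
      exact mem_union_left _ (mem_union_left _ (g7 v hv).1)
    · obtain ⟨v, hv, rfl⟩ := mem_image.1 hx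
      exact (g7 v hv).2
  have hWSsub : WS ⊆ (FS \ US) ∪ JS := by
    rw [← hJun]
    intro x hx
    rw [hWS, mem_union, mem_union] at hx
    rcases hx with (hx | hx) | hx
    · obtain ⟨v, hv, rfl⟩ := mem_image.1 hx
      have := g13 v hv
      simp only [mem_union] at this ⊢; tauto
    · obtain ⟨v, hv, rfl⟩ := mem_image.1 hx
      exact mem_union_left _ (g14 v hv).1
    · obtain ⟨v, hv, rfl⟩ := mem_image.1 hx
      have := (g14 v hv).2
      simp only [mem_union] at this ⊢; tauto
  have hJXW : JX ∪ FXE ⊆ W := by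
    intro x hx
    have := g15 hx
    rw [hW]; simp only [mem_union] at this ⊢; tauto
  have hJSW : JS ⊆ WS := by
    rw [← hJun]
    intro x hx
    rw [hWS]
    rcases mem_union.1 hx with hx | hx
    · have := g16 hx
      simp only [mem_union]; tauto
    · have := g17 hx
      simp only [mem_union]; tauto
  set FX2 := (FX \ UL) \ W with hFX2
  set FS2 := (FS \ US) \ WS with hFS2
  have hFX2c : FX2.card = mX + g := by
    have h3 : Disjoint ((FX \ UL) ∪ FXE) JX :=
      disjoint_of_subset_left (union_subset_union_left sdiff_subset)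
        (disjoint_of_subset_right hJXX hFXX)
    have h3' : Disjoint (FX \ UL) FXE := disjoint_of_subset_left sdiff_subset hFXFXE
    have h4 : ((FX \ UL) ∪ FXE ∪ JX) \ W = FX2 := by
      ext x
      simp only [mem_sdiff, mem_union, hFX2]
      constructor
      · rintro ⟨(h5 | h5) | h5, h6⟩
        · exact ⟨h5, h6⟩
        · exact absurd (hJXW (mem_union_right _ h5)) h6
        · exact absurd (hJXW (mem_union_left _ h5)) h6
      · rintro ⟨h5, h6⟩
        exact ⟨Or.inl (Or.inl h5), h6⟩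
    have h5 := card_sdiff_add_card_eq_card hWsub
    rw [h4, card_union_of_disjoint h3, card_union_of_disjoint h3', hWc, hJXc] at h5
    have h6 := card_sdiff_add_card_eq_card hULsub
    have := D.cX
    omega
  have hFS2c : FS2.card = mS := by
    have h3 : Disjoint (FS \ US) JS :=
      disjoint_of_subset_left sdiff_subset (disjoint_of_subset_right hJSS hFSS)
    have h4 : ((FS \ US) ∪ JS) \ WS = FS2 := by
      ext x
      simp only [mem_sdiff, mem_union, hFS2]
      constructor
      · rintro ⟨h5 | h5, h6⟩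
        · exact ⟨h5, h6⟩
        · exact absurd (hJSW h5) h6
      · rintro ⟨h5, h6⟩
        exact ⟨Or.inl h5, h6⟩
    have h5 := card_sdiff_add_card_eq_card hWSsub
    rw [h4, card_union_of_disjoint h3, hWSc, hJSc] at h5
    have h6 := card_sdiff_add_card_eq_card hUSsub
    have := D.cS
    omega
  obtain ⟨FX3, hFX3, hFX3c⟩ := exists_subset_card_eq (show mX ≤ FX2.card by omega)
  have hFX3s : FX3 ⊆ FX := hFX3.trans (sdiff_subset.trans sdiff_subset)
  have hFS2s : FS2 ⊆ FS := sdiff_subset.trans sdiff_subset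
  obtain ⟨XL, XS, hXL, hXS, a, a', ha1, ha2, ha3, ha4, ha5, ha6, ha7⟩ :=
    D.absb FX3 hFX3s hFX3c FS2 hFS2s hFS2c
  refine ⟨f2, ze, y, z, a, a', XL, XS, FX3, FS2, h20, h21, h22, h23, h24, g1, g2, g3, g4, g5, ?_,
    g8, g9, g10, g11, g12, ?_, hFX3s, ?_, ?_, hFS2s, ?_, ?_, hXL, hXS, ha1, ha2, ha3, ha4, ha5, ha6,
    ha7⟩
  · intro x hx
    have h1 := hWsub hx
    rcases mem_union.1 h1 with h1 | h1
    · right
      rcases mem_union.1 h1 with h1 | h1
      · exact ⟨mem_union_left _ (mem_sdiff.1 h1).1, (mem_sdiff.1 h1).2⟩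
      · exact ⟨mem_union_right _ h1, fun h2 => disjoint_left.1 hFXFXE (hULsub h2) h1⟩
    · exact Or.inl (mem_sdiff.1 h1)
  · intro s hs
    rcases mem_union.1 (hWSsub hs) with h1 | h1
    · exact Or.inr (mem_sdiff.1 h1)
    · exact Or.inl (mem_sdiff.1 h1)
  · rw [disjoint_left]; intro x hx hx'
    exact (mem_sdiff.1 (mem_sdiff.1 (hFX3 hx)).1).2 hx'
  · rw [disjoint_left]; intro x hx hx'
    exact (mem_sdiff.1 (hFX3 hx)).2 hx'
  · rw [disjoint_left]; intro x hx hx'
    exact (mem_sdiff.1 (mem_sdiff.1 hx).1).2 hx'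
  · rw [disjoint_left]; intro x hx hx'
    exact (mem_sdiff.1 hx).2 hx'

end

end Pool.Agent.GRC
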