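import Pool.Agent.Helper28.GRC.FEG
import Pool.Agent.Helper73.SEM.FF

/-!
# GRC-FFG: the final labelling

Model: Helper73/SEM/FF.lean (`Dat.finish`; `injOn_classes` from FB).

Proof in words.  The final labelling `f`: `lab` on `R`; `f1` on the pieces of `T'`; `f2` on the pieces of `Tl = T \ T'`; `β v` on `v ∈ Ve`, `ze v` on `uc v`; `y u, z u` on `u, uc u`, `u ∈ Vin`; `a i, a' i` on `i, uc i`, `i ∈ A`.
The label sets of the classes are pairwise disjoint (`x1 .. x5`, the definition of `XXg`, the conclusions of `complete`), and `f` is injective on every class.  The same for the edge values: classes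
`EI m g p R` (with the extra edges, `exR`), `EM T'`, `EM Tl`, the edges `v` and `uc v` of the paths in `Ve` (values `ad (lab (p v)) (β v)`, `ad (β v) (ze v)`), `Vin`, `A`.
All labels are `≤ n`, `n + 1 = m + g`.
-/

set_option autoImplicit false

namespace Pool.Agent.GRC

open Finset Pool.Agent.SEM

open Classical in
/-- class of a vertex -/
noncomputable def clsG (top : ℕ → ℕ) (R T' Tl Ve Vin : Finset ℕ) (i : ℕ) : ℕ :=
  if i ∈ R then 0 else if top i ∈ T' then 1 else if top i ∈ Tl then 2 else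
    if top i ∈ Ve then (if i = top i then 3 else 4) else if top i ∈ Vin then 4 else 5

open Classical in
/-- class of an edge -/
noncomputable def eclG (m : ℕ) (p top : ℕ → ℕ) (R T' Tl Ve Vin : Finset ℕ) (i : ℕ) : ℕ :=
  if m ≤ i then 0 else if i ∈ R then (if p i ∈ R then 0 else if top (p i) ∈ T' then 1 else 2)
  else clsG top R T' Tl Ve Vin i

open Classical in
/-- the final labelling -/
noncomputable def FLG (top lab f1 f2 β ze y z a a' : ℕ → ℕ) (R T' Tl Ve Vin : Finset ℕ) (i : ℕ) :
    ℕ :=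
  if i ∈ R then lab i else if top i ∈ T' then f1 i else if top i ∈ Tl then f2 i else
    if top i ∈ Ve then (if i = top i then β i else ze (top i)) else
      if top i ∈ Vin then (if i = top i then y i else z (top i)) else
        if i = top i then a i else a' (top i)

section
variable {m g n K mX mS κe κ' P : ℕ} {p ea eb top lab β : ℕ → ℕ} {R Ve Vin A FX FXE FS YX YS L Sm : Finset ℕ}

theorem DatG.finish (D : DatG m g n K mX mS κe κ' P p ea eb top lab β R Ve Vin A FX FXE FS YX YS L Sm)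
    {T' : Finset ℕ} {f1 : ℕ → ℕ} {E : ℕ} (hT' : T' ⊆ TTg m p R Ve Vin A)
    (hR1 : ∀ r ∈ R, f1 r = lab r)
    (hV1 : ∀ v ∈ MV m R top T', f1 v ∈ XXg n lab β R Ve FX FXE YX L)
    (hE1 : ∀ i ∈ EM m p R top T', ad (f1 i) (f1 (p i)) ∈ SSg m g n p ea eb lab β R Ve FS YS Sm)
    (hI1 : Set.InjOn f1 (MV m R top T'))
    (hJ1 : Set.InjOn (fun i => ad (f1 i) (f1 (p i))) (EM m p R top T'))
    (hleft : (MV m R top (TTg m p R Ve Vin A \ T')).card ≤ E) (hκe : 20 * E + 1 ≤ κe)
    (hκ' : 10 * (Ve.card + 2 * Vin.card) + 100 * E + 100 ≤ κ') (hV : FXE.card + 3 * E ≤ Vin.card) :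
    IsGrG m g p ea eb := by
  classical
  obtain ⟨f2, ze, y, z, a, a', XL, XS, FX3, FS2, h20, h21, h22, h23, h24, hz1, hz2, hz3, hz4, hz5,
    hz6, hs1, hs2, hs3, hs4, hs5, hs6, hFX, hFX1, hFX2, hFS, hFS1, hFS2, hXL, hXS, ha1, ha2, ha3,
    ha4, ha5, ha6, ha7⟩ := D.complete hT' hV1 hE1 hI1 hJ1 hleft hκe hκ' hV
  set T := TTg m p R Ve Vin A with hTdef
  set X := XXg n lab β R Ve FX FXE YX L with hXdef
  set S := SSg m g n p ea eb lab β R Ve FS YS Sm with hSdef
  set Tl := T \ T' with hTl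
  set F := FLG top lab f1 f2 β ze y z a a' R T' Tl Ve Vin with hF
  have hZ := D.sp
  have hVe : ∀ v ∈ Ve, v ∈ Ve ∪ Vin ∪ A := fun v h => mem_union_left _ (mem_union_left _ h)
  have hVin : ∀ v ∈ Vin, v ∈ Ve ∪ Vin ∪ A := fun v h => mem_union_left _ (mem_union_right _ h)
  have hAA : ∀ v ∈ A, v ∈ Ve ∪ Vin ∪ A := fun v h => mem_union_right _ h
  -- basic facts on the classes
  have htop : ∀ i, i < m → i ∉ R → top i ∈ tops m p R := fun i hi hR => (D.dec.top_mem D.par i hi hR).1
  have hT'res : ∀ v, v ∈ T' → v ∉ Ve ∧ v ∉ Vin ∧ v ∉ A := by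
    intro v hv
    have := (mem_sdiff.1 (hT' hv)).2
    rw [mem_union, mem_union, not_or, not_or] at this
    exact ⟨this.1.1, this.1.2, this.2⟩
  have hTlres : ∀ v, v ∈ Tl → v ∉ Ve ∧ v ∉ Vin ∧ v ∉ A ∧ v ∉ T' := by
    intro v hv
    have h1 := mem_sdiff.1 hv
    have := (mem_sdiff.1 h1.1).2
    rw [mem_union, mem_union, not_or, not_or] at this
    exact ⟨this.1.1, this.1.2, this.2, h1.2⟩
  have hcase : ∀ i, i < m → i ∉ R →
      top i ∈ T' ∨ top i ∈ Tl ∨ top i ∈ Ve ∨ top i ∈ Vin ∨ top i ∈ A := by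
    intro i hi hR
    by_cases h1 : top i ∈ T'
    · exact Or.inl h1
    · by_cases h2 : top i ∈ Ve
      · exact Or.inr (Or.inr (Or.inl h2))
      · by_cases h3 : top i ∈ Vin
        · exact Or.inr (Or.inr (Or.inr (Or.inl h3)))
        · by_cases h4 : top i ∈ A
          · exact Or.inr (Or.inr (Or.inr (Or.inr h4)))
          · refine Or.inr (Or.inl ?_)
            rw [hTl, mem_sdiff, hTdef]
            refine ⟨?_, h1⟩
            unfold TTg
            rw [mem_sdiff, mem_union, mem_union, not_or, not_or]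
            exact ⟨htop i hi hR, ⟨h2, h3⟩, h4⟩
  have hV12 : ∀ v, v ∈ Vin → v ∉ Ve := fun v h h' => disjoint_left.1 D.dV h' h
  have hA12 : ∀ v, v ∈ A → v ∉ Ve ∧ v ∉ Vin := by
    intro v h
    have := disjoint_right.1 D.dA h
    rw [mem_union, not_or] at this
    exact this
  -- the special paths
  have hspt : ∀ v ∈ Ve ∪ Vin ∪ A, top v = v := by
    intro v hv
    obtain ⟨g1, g2, g3, g4⟩ := hZ v hv
    exact D.dec.top_root v g1.2.1 g3 g2
  have hspu : ∀ v ∈ Ve ∪ Vin ∪ A, top (uc m p v) = v := by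
    intro v hv
    obtain ⟨g1, g2, g3, g4⟩ := hZ v hv
    exact (D.dec.sp_piece D.par g1 g2 g3 g4 g1.uc_spec.1 g4).2 (Or.inr rfl)
  have hspn : ∀ v ∈ Ve ∪ Vin ∪ A, uc m p v ≠ v := by
    intro v hv h
    obtain ⟨g1, g2, g3, g4⟩ := hZ v hv
    have h4 := g1.uc_spec
    have h5 := D.par _ h4.2.1 h4.1
    rw [h4.2.2] at h5; omega
  have hspR : ∀ v ∈ Ve ∪ Vin ∪ A, v ∉ R ∧ uc m p v ∉ R ∧ p v ∈ R ∧ p (uc m p v) = v ∧ v < m ∧
      uc m p v < m := by
    intro v hv
    obtain ⟨g1, g2, g3, g4⟩ := hZ v hv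
    exact ⟨g3, g4, g2, g1.uc_spec.2.2, g1.2.1, g1.uc_spec.1⟩
  -- evaluation lemmas
  have F0 : ∀ r ∈ R, F r = lab r := by
    intro r hr; simp [hF, FLG, hr]
  have F1 : ∀ i, i ∉ R → top i ∈ T' → F i = f1 i := by
    intro i h1 h2; simp [hF, FLG, h1, h2]
  have F2 : ∀ i, i ∉ R → top i ∈ Tl → F i = f2 i := by
    intro i h1 h2
    have := (hTlres _ h2).2.2.2
    simp [hF, FLG, h1, h2, this]
  have F3 : ∀ v ∈ Ve, F v = β v := by
    intro v hv
    have ht := hspt v (hVe v hv)
    obtain ⟨g1, g2, g3, g4, g5, g6⟩ := hspR v (hVe v hv)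
    have h1 : v ∉ T' := fun h => (hT'res v h).1 hv
    have h2 : v ∉ Tl := fun h => (hTlres v h).1 hv
    simp [hF, FLG, g1, ht, h1, h2, hv]
  have F4 : ∀ v ∈ Ve, F (uc m p v) = ze v := by
    intro v hv
    have ht := hspu v (hVe v hv)
    obtain ⟨g1, g2, g3, g4, g5, g6⟩ := hspR v (hVe v hv)
    have h1 : v ∉ T' := fun h => (hT'res v h).1 hv
    have h2 : v ∉ Tl := fun h => (hTlres v h).1 hv
    have h3 := hspn v (hVe v hv)
    simp [hF, FLG, g2, ht, h1, h2, hv, h3]
  have F5 : ∀ v ∈ Vin, F v = y v := by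
    intro v hv
    have ht := hspt v (hVin v hv)
    obtain ⟨g1, g2, g3, g4, g5, g6⟩ := hspR v (hVin v hv)
    have h1 : v ∉ T' := fun h => (hT'res v h).2.1 hv
    have h2 : v ∉ Tl := fun h => (hTlres v h).2.1 hv
    have h3 := hV12 v hv
    simp [hF, FLG, g1, ht, h1, h2, h3, hv]
  have F6 : ∀ v ∈ Vin, F (uc m p v) = z v := by
    intro v hv
    have ht := hspu v (hVin v hv)
    obtain ⟨g1, g2, g3, g4, g5, g6⟩ := hspR v (hVin v hv)
    have h1 : v ∉ T' := fun h => (hT'res v h).2.1 hv
    have h2 : v ∉ Tl := fun h => (hTlres v h).2.1 hv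
    have h3 := hV12 v hv
    have h4 := hspn v (hVin v hv)
    simp [hF, FLG, g2, ht, h1, h2, h3, hv, h4]
  have F7 : ∀ v ∈ A, F v = a v := by
    intro v hv
    have ht := hspt v (hAA v hv)
    obtain ⟨g1, g2, g3, g4, g5, g6⟩ := hspR v (hAA v hv)
    have h1 : v ∉ T' := fun h => (hT'res v h).2.2 hv
    have h2 : v ∉ Tl := fun h => (hTlres v h).2.2.1 hv
    have h3 := hA12 v hv
    simp [hF, FLG, g1, ht, h1, h2, h3.1, h3.2]
  have F8 : ∀ v ∈ A, F (uc m p v) = a' v := by
    intro v hv
    have ht := hspu v (hAA v hv)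
    obtain ⟨g1, g2, g3, g4, g5, g6⟩ := hspR v (hAA v hv)
    have h1 : v ∉ T' := fun h => (hT'res v h).2.2 hv
    have h2 : v ∉ Tl := fun h => (hTlres v h).2.2.1 hv
    have h3 := hA12 v hv
    have h4 := hspn v (hAA v hv)
    simp [hF, FLG, g2, ht, h1, h2, h3.1, h3.2, h4]
  -- structure of the special vertices
  have hsp : ∀ i, i < m → i ∉ R → ∀ v ∈ Ve ∪ Vin ∪ A, top i = v → i = v ∨ i = uc m p v := by
    intro i hi hR v hv h
    obtain ⟨g1, g2, g3, g4⟩ := hZ v hv
    exact (D.dec.sp_piece D.par g1 g2 g3 g4 hi hR).1 h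
  -- label sets
  set B := Ve.image β with hB
  set CB := Ve.image (fun v => ad (lab (p v)) (β v)) with hCB
  set ES := (EI m g p R).image (dv m p ea eb lab) with hES
  set LR := Ve.image ze ∪ Vin.image y ∪ Vin.image z with hLR
  set DR := Ve.image (fun v => ad (β v) (ze v)) ∪ Vin.image (fun u => ad (lab (p u)) (y u)) ∪
    Vin.image (fun u => ad (y u) (z u)) with hDR
  let Λ : ℕ → Finset ℕ := fun c =>
    if c = 0 then R.image lab else if c = 1 then (MV m R top T').image f1
    else if c = 2 then (MV m R top Tl).image f2 else if c = 3 then B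
    else if c = 4 then LR else L ∪ XL
  let Sg : ℕ → Finset ℕ := fun c =>
    if c = 0 then ES
    else if c = 1 then (EM m p R top T').image (fun i => ad (f1 i) (f1 (p i)))
    else if c = 2 then (EM m p R top Tl).image (fun i => ad (f2 i) (f2 (p i)))
    else if c = 3 then CB
    else if c = 4 then DR else Sm ∪ XS
  -- disjointness facts, labels
  have hXn : ∀ x ∈ X, x ≤ n ∧ x ∉ R.image lab ∧ x ∉ FX ∧ x ∉ FXE ∧ x ∉ YX ∧ x ∉ B ∧ x ∉ L := by
    intro x hx
    have h := mem_sdiff.1 hx
    have h2 := h.2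
    rw [mem_union, mem_union, mem_union, mem_union, mem_union, not_or, not_or, not_or, not_or,
      not_or] at h2
    have h1 := mem_range.1 h.1
    exact ⟨by omega, h2.1.1.1.1.1, h2.1.1.1.1.2, h2.1.1.1.2, h2.1.1.2, h2.1.2, h2.2⟩
  have dA : ∀ x ∈ R.image lab, x ∉ FX ∧ x ∉ FXE ∧ x ∉ YX ∧ x ∉ B ∧ x ∉ L ∧ x ∉ X := by
    intro x hx
    have h1 := disjoint_left.1 D.x1 hx
    rw [mem_union, mem_union, mem_union, mem_union, not_or, not_or, not_or, not_or] at h1
    exact ⟨h1.1.1.1.1, h1.1.1.1.2, h1.1.1.2, h1.1.2, h1.2, fun h => (hXn x h).2.1 hx⟩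
  have dFX : ∀ x ∈ FX, x ∉ FXE ∧ x ∉ YX ∧ x ∉ B ∧ x ∉ L ∧ x ∉ X := by
    intro x hx
    have h1 := disjoint_left.1 D.x2 hx
    rw [mem_union, mem_union, mem_union, not_or, not_or, not_or] at h1
    exact ⟨h1.1.1.1, h1.1.1.2, h1.1.2, h1.2, fun h => (hXn x h).2.2.1 hx⟩
  have dFXE : ∀ x ∈ FXE, x ∉ YX ∧ x ∉ B ∧ x ∉ L ∧ x ∉ X := by
    intro x hx
    have h1 := disjoint_left.1 D.x3 hx
    rw [mem_union, mem_union, not_or, not_or] at h1
    exact ⟨h1.1.1, h1.1.2, h1.2, fun h => (hXn x h).2.2.2.1 hx⟩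
  have dYX : ∀ x ∈ YX, x ∉ B ∧ x ∉ L ∧ x ∉ X := by
    intro x hx
    have h1 := disjoint_left.1 D.x4 hx
    rw [mem_union, not_or] at h1
    exact ⟨h1.1, h1.2, fun h => (hXn x h).2.2.2.2.1 hx⟩
  have dB : ∀ x ∈ B, x ∉ L ∧ x ∉ X := by
    intro x hx
    exact ⟨disjoint_left.1 D.x5 hx, fun h => (hXn x h).2.2.2.2.2.1 hx⟩
  have dL : ∀ x ∈ L, x ∉ X := fun x hx h => (hXn x h).2.2.2.2.2.2 hx
  -- disjointness facts, differences
  have hSn : ∀ x ∈ S, x ∉ ES ∧ x ∉ FS ∧ x ∉ YS ∧ x ∉ CB ∧ x ∉ Sm := by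
    intro x hx
    have h2 := (mem_sdiff.1 hx).2
    rw [mem_union, mem_union, mem_union, mem_union, not_or, not_or, not_or, not_or] at h2
    exact ⟨h2.1.1.1.1, h2.1.1.1.2, h2.1.1.2, h2.1.2, h2.2⟩
  have eA : ∀ x ∈ ES, x ∉ FS ∧ x ∉ YS ∧ x ∉ CB ∧ x ∉ Sm ∧ x ∉ S := by
    intro x hx
    have h1 := disjoint_left.1 D.s1 hx
    rw [mem_union, mem_union, mem_union, not_or, not_or, not_or] at h1
    exact ⟨h1.1.1.1, h1.1.1.2, h1.1.2, h1.2, fun h => (hSn x h).1 hx⟩
  have eFS : ∀ x ∈ FS, x ∉ YS ∧ x ∉ CB ∧ x ∉ Sm ∧ x ∉ S := by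
    intro x hx
    have h1 := disjoint_left.1 D.s2 hx
    rw [mem_union, mem_union, not_or, not_or] at h1
    exact ⟨h1.1.1, h1.1.2, h1.2, fun h => (hSn x h).2.1 hx⟩
  have eYS : ∀ x ∈ YS, x ∉ CB ∧ x ∉ Sm ∧ x ∉ S := by
    intro x hx
    have h1 := disjoint_left.1 D.s3 hx
    rw [mem_union, not_or] at h1
    exact ⟨h1.1, h1.2, fun h => (hSn x h).2.2.1 hx⟩
  have eB : ∀ x ∈ CB, x ∉ Sm ∧ x ∉ S := by
    intro x hx
    exact ⟨disjoint_left.1 D.s4 hx, fun h => (hSn x h).2.2.2.1 hx⟩
  have eL : ∀ x ∈ Sm, x ∉ S := fun x hx h => (hSn x h).2.2.2.2 hx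
  -- members of the classes
  have m1 : ∀ x ∈ (MV m R top T').image f1, x ∈ X := by
    intro x hx; obtain ⟨v, hv, rfl⟩ := mem_image.1 hx; exact hV1 v hv
  have m2 : ∀ x ∈ (MV m R top Tl).image f2, x ∈ FX := by
    intro x hx; obtain ⟨v, hv, rfl⟩ := mem_image.1 hx; exact h21 v hv
  have m4 : ∀ x ∈ LR, (x ∈ X ∧ x ∉ (MV m R top T').image f1) ∨
      ((x ∈ FX ∨ x ∈ FXE) ∧ x ∉ (MV m R top Tl).image f2) := by
    intro x hx
    rcases hz6 x hx with h | h
    · exact Or.inl h
    · exact Or.inr ⟨mem_union.1 h.1, h.2⟩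
  have m5 : ∀ x ∈ L ∪ XL, x ∈ L ∨ x ∈ YX ∨ x ∈ FX3 := by
    intro x hx
    rcases mem_union.1 hx with h | h
    · exact Or.inl h
    · rcases mem_union.1 (hXL h) with h' | h'
      · exact Or.inr (Or.inl h')
      · exact Or.inr (Or.inr h')
  have s1 : ∀ x ∈ (EM m p R top T').image (fun i => ad (f1 i) (f1 (p i))), x ∈ S := by
    intro x hx; obtain ⟨v, hv, rfl⟩ := mem_image.1 hx; exact hE1 v hv
  have s2 : ∀ x ∈ (EM m p R top Tl).image (fun i => ad (f2 i) (f2 (p i))), x ∈ FS := by
    intro x hx; obtain ⟨v, hv, rfl⟩ := mem_image.1 hx; exact h22 v hv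
  have s4 : ∀ x ∈ DR,
      (x ∈ S ∧ x ∉ (EM m p R top T').image (fun i => ad (f1 i) (f1 (p i)))) ∨
      (x ∈ FS ∧ x ∉ (EM m p R top Tl).image (fun i => ad (f2 i) (f2 (p i)))) := hs6
  have s5 : ∀ x ∈ Sm ∪ XS, x ∈ Sm ∨ x ∈ YS ∨ x ∈ FS2 := by
    intro x hx
    rcases mem_union.1 hx with h | h
    · exact Or.inl h
    · rcases mem_union.1 (hXS h) with h' | h'
      · exact Or.inr (Or.inl h')
      · exact Or.inr (Or.inr h')
  -- pairwise disjointness of the label sets
  have D01 : Disjoint (R.image lab) ((MV m R top T').image f1) := by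
    rw [disjoint_left]; intro x hx h; exact (dA x hx).2.2.2.2.2 (m1 x h)
  have D02 : Disjoint (R.image lab) ((MV m R top Tl).image f2) := by
    rw [disjoint_left]; intro x hx h; exact (dA x hx).1 (m2 x h)
  have D03 : Disjoint (R.image lab) B := by
    rw [disjoint_left]; intro x hx h; exact (dA x hx).2.2.2.1 h
  have D04 : Disjoint (R.image lab) LR := by
    rw [disjoint_left]; intro x hx h
    rcases m4 x h with h1 | h1
    · exact (dA x hx).2.2.2.2.2 h1.1
    · rcases h1.1 with h2 | h2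
      · exact (dA x hx).1 h2
      · exact (dA x hx).2.1 h2
  have D05 : Disjoint (R.image lab) (L ∪ XL) := by
    rw [disjoint_left]; intro x hx h
    rcases m5 x h with h1 | h1 | h1
    · exact (dA x hx).2.2.2.2.1 h1
    · exact (dA x hx).2.2.1 h1
    · exact (dA x hx).1 (hFX h1)
  have D12 : Disjoint ((MV m R top T').image f1) ((MV m R top Tl).image f2) := by
    rw [disjoint_left]; intro x hx h; exact (dFX x (m2 x h)).2.2.2.2 (m1 x hx)
  have D13 : Disjoint ((MV m R top T').image f1) B := by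
    rw [disjoint_left]; intro x hx h; exact (dB x h).2 (m1 x hx)
  have D14 : Disjoint ((MV m R top T').image f1) LR := by
    rw [disjoint_left]; intro x hx h
    rcases m4 x h with h1 | h1
    · exact h1.2 hx
    · rcases h1.1 with h2 | h2
      · exact (dFX x h2).2.2.2.2 (m1 x hx)
      · exact (dFXE x h2).2.2.2 (m1 x hx)
  have D15 : Disjoint ((MV m R top T').image f1) (L ∪ XL) := by
    rw [disjoint_left]; intro x hx h
    rcases m5 x h with h1 | h1 | h1
    · exact dL x h1 (m1 x hx)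
    · exact (dYX x h1).2.2 (m1 x hx)
    · exact (dFX x (hFX h1)).2.2.2.2 (m1 x hx)
  have D23 : Disjoint ((MV m R top Tl).image f2) B := by
    rw [disjoint_left]; intro x hx h; exact (dFX x (m2 x hx)).2.2.1 h
  have D24 : Disjoint ((MV m R top Tl).image f2) LR := by
    rw [disjoint_left]; intro x hx h
    rcases m4 x h with h1 | h1
    · exact (dFX x (m2 x hx)).2.2.2.2 h1.1
    · exact h1.2 hx
  have D25 : Disjoint ((MV m R top Tl).image f2) (L ∪ XL) := by
    rw [disjoint_left]; intro x hx h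
    rcases m5 x h with h1 | h1 | h1
    · exact (dFX x (m2 x hx)).2.2.2.1 h1
    · exact (dFX x (m2 x hx)).2.1 h1
    · exact disjoint_left.1 hFX1 h1 hx
  have D34 : Disjoint B LR := by
    rw [disjoint_left]; intro x hx h
    rcases m4 x h with h1 | h1
    · exact (dB x hx).2 h1.1
    · rcases h1.1 with h2 | h2
      · exact (dFX x h2).2.2.1 hx
      · exact (dFXE x h2).2.1 hx
  have D35 : Disjoint B (L ∪ XL) := by
    rw [disjoint_left]; intro x hx h
    rcases m5 x h with h1 | h1 | h1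
    · exact (dB x hx).1 h1
    · exact (dYX x h1).1 hx
    · exact (dFX x (hFX h1)).2.2.1 hx
  have D45 : Disjoint LR (L ∪ XL) := by
    rw [disjoint_left]; intro x hx h
    rcases m5 x h with h1 | h1 | h1
    · rcases m4 x hx with h2 | h2
      · exact dL x h1 h2.1
      · rcases h2.1 with h3 | h3
        · exact (dFX x h3).2.2.2.1 h1
        · exact (dFXE x h3).2.2.1 h1
    · rcases m4 x hx with h2 | h2
      · exact (dYX x h1).2.2 h2.1
      · rcases h2.1 with h3 | h3
        · exact (dFX x h3).2.1 h1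
        · exact (dFXE x h3).1 h1
    · exact disjoint_left.1 hFX2 h1 hx
  -- pairwise disjointness of the difference sets
  have E01 : Disjoint ES ((EM m p R top T').image (fun i => ad (f1 i) (f1 (p i)))) := by
    rw [disjoint_left]; intro x hx h; exact (eA x hx).2.2.2.2 (s1 x h)
  have E02 : Disjoint ES ((EM m p R top Tl).image (fun i => ad (f2 i) (f2 (p i)))) := by
    rw [disjoint_left]; intro x hx h; exact (eA x hx).1 (s2 x h)
  have E03 : Disjoint ES CB := by
    rw [disjoint_left]; intro x hx h; exact (eA x hx).2.2.1 h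
  have E04 : Disjoint ES DR := by
    rw [disjoint_left]; intro x hx h
    rcases s4 x h with h1 | h1
    · exact (eA x hx).2.2.2.2 h1.1
    · exact (eA x hx).1 h1.1
  have E05 : Disjoint ES (Sm ∪ XS) := by
    rw [disjoint_left]; intro x hx h
    rcases s5 x h with h1 | h1 | h1
    · exact (eA x hx).2.2.2.1 h1
    · exact (eA x hx).2.1 h1
    · exact (eA x hx).1 (hFS h1)
  have E12 : Disjoint ((EM m p R top T').image (fun i => ad (f1 i) (f1 (p i))))
      ((EM m p R top Tl).image (fun i => ad (f2 i) (f2 (p i)))) := by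
    rw [disjoint_left]; intro x hx h; exact (eFS x (s2 x h)).2.2.2 (s1 x hx)
  have E13 : Disjoint ((EM m p R top T').image (fun i => ad (f1 i) (f1 (p i)))) CB := by
    rw [disjoint_left]; intro x hx h; exact (eB x h).2 (s1 x hx)
  have E14 : Disjoint ((EM m p R top T').image (fun i => ad (f1 i) (f1 (p i)))) DR := by
    rw [disjoint_left]; intro x hx h
    rcases s4 x h with h1 | h1
    · exact h1.2 hx
    · exact (eFS x h1.1).2.2.2 (s1 x hx)
  have E15 : Disjoint ((EM m p R top T').image (fun i => ad (f1 i) (f1 (p i)))) (Sm ∪ XS) := by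
    rw [disjoint_left]; intro x hx h
    rcases s5 x h with h1 | h1 | h1
    · exact eL x h1 (s1 x hx)
    · exact (eYS x h1).2.2 (s1 x hx)
    · exact (eFS x (hFS h1)).2.2.2 (s1 x hx)
  have E23 : Disjoint ((EM m p R top Tl).image (fun i => ad (f2 i) (f2 (p i)))) CB := by
    rw [disjoint_left]; intro x hx h; exact (eFS x (s2 x hx)).2.1 h
  have E24 : Disjoint ((EM m p R top Tl).image (fun i => ad (f2 i) (f2 (p i)))) DR := by
    rw [disjoint_left]; intro x hx h
    rcases s4 x h with h1 | h1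
    · exact (eFS x (s2 x hx)).2.2.2 h1.1
    · exact h1.2 hx
  have E25 : Disjoint ((EM m p R top Tl).image (fun i => ad (f2 i) (f2 (p i)))) (Sm ∪ XS) := by
    rw [disjoint_left]; intro x hx h
    rcases s5 x h with h1 | h1 | h1
    · exact (eFS x (s2 x hx)).2.2.1 h1
    · exact (eFS x (s2 x hx)).1 h1
    · exact disjoint_left.1 hFS1 h1 hx
  have E34 : Disjoint CB DR := by
    rw [disjoint_left]; intro x hx h
    rcases s4 x h with h1 | h1
    · exact (eB x hx).2 h1.1
    · exact (eFS x h1.1).2.1 hx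
  have E35 : Disjoint CB (Sm ∪ XS) := by
    rw [disjoint_left]; intro x hx h
    rcases s5 x h with h1 | h1 | h1
    · exact (eB x hx).1 h1
    · exact (eYS x h1).1 hx
    · exact (eFS x (hFS h1)).2.1 hx
  have E45 : Disjoint DR (Sm ∪ XS) := by
    rw [disjoint_left]; intro x hx h
    rcases s5 x h with h1 | h1 | h1
    · rcases s4 x hx with h2 | h2
      · exact eL x h1 h2.1
      · exact (eFS x h2.1).2.2.1 h1
    · rcases s4 x hx with h2 | h2
      · exact (eYS x h1).2.2 h2.1
      · exact (eFS x h2.1).1 h1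
    · exact disjoint_left.1 hFS2 h1 hx
  have hΛd : ∀ a b, a ≤ 5 → b ≤ 5 → a ≠ b → Disjoint (Λ a) (Λ b) := by
    have key : ∀ a b, a < b → b ≤ 5 → Disjoint (Λ a) (Λ b) := by
      intro a b hab hb
      interval_cases b <;> interval_cases a <;>
        first
          | exact D01
          | exact D02
          | exact D03
          | exact D04
          | exact D05
          | exact D12
          | exact D13
          | exact D14
          | exact D15
          | exact D23
          | exact D24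
          | exact D25
          | exact D34
          | exact D35
          | exact D45
    intro a b ha hb hab
    rcases lt_or_gt_of_ne hab with h | h
    · exact key a b h hb
    · exact (key b a h ha).symm
  have hSgd : ∀ a b, a ≤ 5 → b ≤ 5 → a ≠ b → Disjoint (Sg a) (Sg b) := by
    have key : ∀ a b, a < b → b ≤ 5 → Disjoint (Sg a) (Sg b) := by
      intro a b hab hb
      interval_cases b <;> interval_cases a <;>
        first
          | exact E01
          | exact E02
          | exact E03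
          | exact E04
          | exact E05
          | exact E12
          | exact E13
          | exact E14
          | exact E15
          | exact E23
          | exact E24
          | exact E25
          | exact E34
          | exact E35
          | exact E45
    intro a b ha hb hab
    rcases lt_or_gt_of_ne hab with h | h
    · exact key a b h hb
    · exact (key b a h ha).symm
  -- classes are at most 5
  have hcl : ∀ i, clsG top R T' Tl Ve Vin i ≤ 5 := by
    intro i; unfold clsG; split_ifs <;> omega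
  have hel : ∀ i, eclG m p top R T' Tl Ve Vin i ≤ 5 := by
    intro i; unfold eclG; split_ifs
    · omega
    · omega
    · omega
    · omega
    · exact hcl i
  -- description of the class of a vertex
  have hclass : ∀ i, i < m → i ∉ R →
      (top i ∈ T' ∧ clsG top R T' Tl Ve Vin i = 1) ∨ (top i ∈ Tl ∧ clsG top R T' Tl Ve Vin i = 2) ∨
      (i ∈ Ve ∧ clsG top R T' Tl Ve Vin i = 3) ∨
      (((∃ v ∈ Ve, i = uc m p v) ∨ i ∈ Vin ∨ (∃ v ∈ Vin, i = uc m p v)) ∧
        clsG top R T' Tl Ve Vin i = 4) ∨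
      ((i ∈ A ∨ ∃ v ∈ A, i = uc m p v) ∧ clsG top R T' Tl Ve Vin i = 5) := by
    intro i hi hR
    by_cases c1 : top i ∈ T'
    · left; exact ⟨c1, by simp [clsG, hR, c1]⟩
    · by_cases c2 : top i ∈ Tl
      · right; left; exact ⟨c2, by simp [clsG, hR, c1, c2]⟩
      · by_cases c3 : top i ∈ Ve
        · by_cases c4 : i = top i
          · right; right; left
            refine ⟨by rw [c4]; exact c3, ?_⟩
            simp only [clsG, hR, c1, c2, c3, if_false, if_true]
            rw [if_pos c4]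
          · right; right; right; left
            refine ⟨Or.inl ⟨top i, c3, ?_⟩, ?_⟩
            · rcases hsp i hi hR _ (hVe _ c3) rfl with h | h
              · exact absurd h c4
              · exact h
            · simp only [clsG, hR, c1, c2, c3, if_false, if_true]
              rw [if_neg c4]
        · by_cases c5 : top i ∈ Vin
          · right; right; right; left
            refine ⟨Or.inr ?_, by simp [clsG, hR, c1, c2, c3, c5]⟩
            rcases hsp i hi hR _ (hVin _ c5) rfl with h' | h'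
            · left; rw [h']; exact c5
            · right; exact ⟨top i, c5, h'⟩
          · right; right; right; right
            refine ⟨?_, by simp [clsG, hR, c1, c2, c3, c5]⟩
            rcases hcase i hi hR with h | h | h | h | h
            · exact absurd h c1
            · exact absurd h c2
            · exact absurd h c3
            · exact absurd h c5
            · rcases hsp i hi hR _ (hAA _ h) rfl with h' | h'
              · left; rw [h']; exact h
              · right; exact ⟨top i, h, h'⟩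
  have hclass0 : ∀ i ∈ R, clsG top R T' Tl Ve Vin i = 0 := by
    intro i hi; simp [clsG, hi]
  -- description of the class of an edge
  have hpar : ∀ i, 0 < i → i < m → p i < i := D.par
  have hdvT : ∀ (f : ℕ → ℕ) (i : ℕ), i < m → dv m p ea eb f i = ad (f i) (f (p i)) := by
    intro f i hi; unfold dv; rw [if_pos hi]
  have hedge : ∀ i, 0 < i → i < m + g →
      (i ∈ EI m g p R ∧ eclG m p top R T' Tl Ve Vin i = 0 ∧
        dv m p ea eb F i = dv m p ea eb lab i) ∨
      (i ∈ EM m p R top T' ∧ eclG m p top R T' Tl Ve Vin i = 1 ∧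
        dv m p ea eb F i = ad (f1 i) (f1 (p i))) ∨
      (i ∈ EM m p R top Tl ∧ eclG m p top R T' Tl Ve Vin i = 2 ∧
        dv m p ea eb F i = ad (f2 i) (f2 (p i))) ∨
      (i ∈ Ve ∧ eclG m p top R T' Tl Ve Vin i = 3) ∨
      (((∃ v ∈ Ve, i = uc m p v) ∨ i ∈ Vin ∨ (∃ v ∈ Vin, i = uc m p v)) ∧
        eclG m p top R T' Tl Ve Vin i = 4) ∨
      ((i ∈ A ∨ ∃ v ∈ A, i = uc m p v) ∧ eclG m p top R T' Tl Ve Vin i = 5) := by
    intro i hi0 hi'
    by_cases him : m ≤ i
    · left
      refine ⟨?_, by simp [eclG, him], ?_⟩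
      · unfold EI; rw [mem_filter, mem_Ico]; exact ⟨⟨by omega, hi'⟩, Or.inl him⟩
      · have hnot : ¬ i < m := by omega
        have hex := D.exR (i - m) (by omega)
        unfold dv
        rw [if_neg hnot, if_neg hnot, F0 _ hex.1, F0 _ hex.2]
    have hi : i < m := by omega
    by_cases hR : i ∈ R
    · by_cases hpR : p i ∈ R
      · left
        refine ⟨?_, by simp [eclG, hR, hpR], ?_⟩
        · unfold EI; rw [mem_filter, mem_Ico]; exact ⟨⟨by omega, hi'⟩, Or.inr ⟨hR, hpR⟩⟩
        · rw [hdvT F i hi, hdvT lab i hi, F0 _ hR, F0 _ hpR]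
      · have hpi := hpar i hi0 hi
        rcases hcase (p i) (by omega) hpR with h | h | h | h | h
        · right; left
          refine ⟨mem_EM.2 ⟨hi, hi0, Or.inr ⟨hR, hpR, h⟩⟩, by simp [eclG, hR, hpR, h, him], ?_⟩
          rw [hdvT F i hi, F0 i hR, F1 (p i) hpR h, hR1 i hR]
        · right; right; left
          have h' := (hTlres _ h).2.2.2
          refine ⟨mem_EM.2 ⟨hi, hi0, Or.inr ⟨hR, hpR, h⟩⟩, by simp [eclG, hR, hpR, h', him], ?_⟩
          rw [hdvT F i hi, F0 i hR, F2 (p i) hpR h, h20 i hR]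
        · exfalso
          obtain ⟨g1, g2, g3, g4⟩ := hZ _ (hVe _ h)
          exact D.dec.exit_not_sp D.par g1 g2 g3 g4 hR hi0 hpR rfl
        · exfalso
          obtain ⟨g1, g2, g3, g4⟩ := hZ _ (hVin _ h)
          exact D.dec.exit_not_sp D.par g1 g2 g3 g4 hR hi0 hpR rfl
        · exfalso
          obtain ⟨g1, g2, g3, g4⟩ := hZ _ (hAA _ h)
          exact D.dec.exit_not_sp D.par g1 g2 g3 g4 hR hi0 hpR rfl
    · have he : eclG m p top R T' Tl Ve Vin i = clsG top R T' Tl Ve Vin i := by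
        simp [eclG, hR, him]
      rw [he]
      right
      rcases hclass i hi hR with h | h | h | h | h
      · left
        refine ⟨mem_EM.2 ⟨hi, hi0, Or.inl ⟨hR, h.1⟩⟩, h.2, ?_⟩
        rw [hdvT F i hi, F1 i hR h.1]
        by_cases hpR : p i ∈ R
        · rw [F0 _ hpR, hR1 _ hpR]
        · rw [F1 (p i) hpR (by rw [← D.dec.top_step i hi hR hpR]; exact h.1)]
      · right; left
        refine ⟨mem_EM.2 ⟨hi, hi0, Or.inl ⟨hR, h.1⟩⟩, h.2, ?_⟩
        rw [hdvT F i hi, F2 i hR h.1]
        by_cases hpR : p i ∈ R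
        · rw [F0 _ hpR, h20 _ hpR]
        · rw [F2 (p i) hpR (by rw [← D.dec.top_step i hi hR hpR]; exact h.1)]
      · right; right; left; exact h
      · right; right; right; left; exact h
      · right; right; right; right; exact h
  -- differences of the special edges
  have Gv : ∀ v ∈ Ve ∪ Vin ∪ A, dv m p ea eb F v = ad (lab (p v)) (F v) := by
    intro v hv
    obtain ⟨g1, g2, g3, g4, g5, g6⟩ := hspR v hv
    rw [hdvT F v g5, F0 _ g3, ad_comm]
  have Gu : ∀ v ∈ Ve ∪ Vin ∪ A, dv m p ea eb F (uc m p v) = ad (F v) (F (uc m p v)) := by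
    intro v hv
    obtain ⟨g1, g2, g3, g4, g5, g6⟩ := hspR v hv
    rw [hdvT F _ g6, g4, ad_comm]
  have G3 : ∀ v ∈ Ve, dv m p ea eb F v = ad (lab (p v)) (β v) := by
    intro v hv; rw [Gv v (hVe v hv), F3 v hv]
  have G4 : ∀ v ∈ Ve, dv m p ea eb F (uc m p v) = ad (β v) (ze v) := by
    intro v hv; rw [Gu v (hVe v hv), F3 v hv, F4 v hv]
  have G5 : ∀ v ∈ Vin, dv m p ea eb F v = ad (lab (p v)) (y v) := by
    intro v hv; rw [Gv v (hVin v hv), F5 v hv]
  have G6 : ∀ v ∈ Vin, dv m p ea eb F (uc m p v) = ad (y v) (z v) := by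
    intro v hv; rw [Gu v (hVin v hv), F5 v hv, F6 v hv]
  have G7 : ∀ v ∈ A, dv m p ea eb F v = ad (lab (p v)) (a v) := by
    intro v hv; rw [Gv v (hAA v hv), F7 v hv]
  have G8 : ∀ v ∈ A, dv m p ea eb F (uc m p v) = ad (a v) (a' v) := by
    intro v hv; rw [Gu v (hAA v hv), F7 v hv, F8 v hv]
  have lr1 : ∀ v ∈ Ve, ze v ∈ LR := fun v hv =>
    mem_union_left _ (mem_union_left _ (mem_image_of_mem ze hv))
  have lr2 : ∀ v ∈ Vin, y v ∈ LR := fun v hv =>
    mem_union_left _ (mem_union_right _ (mem_image_of_mem y hv))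
  have lr3 : ∀ v ∈ Vin, z v ∈ LR := fun v hv => mem_union_right _ (mem_image_of_mem z hv)
  have dr1 : ∀ v ∈ Ve, ad (β v) (ze v) ∈ DR := fun v hv =>
    mem_union_left _ (mem_union_left _ (mem_image_of_mem (fun v => ad (β v) (ze v)) hv))
  have dr2 : ∀ v ∈ Vin, ad (lab (p v)) (y v) ∈ DR := fun v hv =>
    mem_union_left _ (mem_union_right _ (mem_image_of_mem (fun u => ad (lab (p u)) (y u)) hv))
  have dr3 : ∀ v ∈ Vin, ad (y v) (z v) ∈ DR := fun v hv =>
    mem_union_right _ (mem_image_of_mem (fun u => ad (y u) (z u)) hv)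
  have hXR : ∀ x, x ∈ FX ∨ x ∈ FXE ∨ x ∈ YX ∨ x ∈ L → x ≤ n := by
    intro x hx
    have h1 : x ∈ FX ∪ FXE ∪ YX ∪ L := by
      rw [mem_union, mem_union, mem_union]
      rcases hx with h | h | h | h
      · exact Or.inl (Or.inl (Or.inl h))
      · exact Or.inl (Or.inl (Or.inr h))
      · exact Or.inl (Or.inr h)
      · exact Or.inr h
    have := mem_range.1 (D.XR h1)
    omega
  have hn := D.hn
  refine ⟨F, ?_, ?_, ?_⟩
  · -- range of the labels
    have hLRn : ∀ x ∈ LR, x ≤ n := by
      intro x hx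
      rcases m4 x hx with h | h
      · exact (hXn x h.1).1
      · rcases h.1 with h1 | h1
        · exact hXR x (Or.inl h1)
        · exact hXR x (Or.inr (Or.inl h1))
    have hLXn : ∀ x ∈ L ∪ XL, x ≤ n := by
      intro x hx
      rcases m5 x hx with h1 | h1 | h1
      · exact hXR x (Or.inr (Or.inr (Or.inr h1)))
      · exact hXR x (Or.inr (Or.inr (Or.inl h1)))
      · exact hXR x (Or.inl (hFX h1))
    intro i hi
    have : F i ≤ n := by
      by_cases hR : i ∈ R
      · rw [F0 i hR]; exact D.labR i hR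
      · rcases hclass i hi hR with h | h | h | h | h
        · rw [F1 i hR h.1]
          exact (hXn _ (hV1 i (mem_MV.2 ⟨hi, hR, h.1⟩))).1
        · rw [F2 i hR h.1]
          exact hXR _ (Or.inl (h21 i (mem_MV.2 ⟨hi, hR, h.1⟩)))
        · rw [F3 i h.1]; exact D.βR i h.1
        · rcases h.1 with ⟨v, hv, rfl⟩ | h1 | ⟨v, hv, rfl⟩
          · rw [F4 v hv]; exact hLRn _ (lr1 v hv)
          · rw [F5 i h1]; exact hLRn _ (lr2 i h1)
          · rw [F6 v hv]; exact hLRn _ (lr3 v hv)
        · rcases h.1 with h1 | ⟨v, hv, rfl⟩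
          · rw [F7 i h1]; exact hLXn _ (ha1 i h1).1
          · rw [F8 v hv]; exact hLXn _ (ha1 v hv).2.1
    omega
  · -- injectivity of the labels
    apply injOn_classes F (clsG top R T' Tl Ve Vin) Λ
    · intro i hi
      rw [mem_range] at hi
      by_cases hR : i ∈ R
      · rw [hclass0 i hR, F0 i hR]
        exact mem_image_of_mem lab hR
      · rcases hclass i hi hR with h | h | h | h | h
        · rw [h.2, F1 i hR h.1]
          exact mem_image_of_mem f1 (mem_MV.2 ⟨hi, hR, h.1⟩)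
        · rw [h.2, F2 i hR h.1]
          exact mem_image_of_mem f2 (mem_MV.2 ⟨hi, hR, h.1⟩)
        · rw [h.2, F3 i h.1]
          exact mem_image_of_mem β h.1
        · rw [h.2]
          show F i ∈ LR
          rcases h.1 with ⟨v, hv, rfl⟩ | h1 | ⟨v, hv, rfl⟩
          · rw [F4 v hv]; exact lr1 v hv
          · rw [F5 i h1]; exact lr2 i h1
          · rw [F6 v hv]; exact lr3 v hv
        · rw [h.2]
          show F i ∈ L ∪ XL
          rcases h.1 with h1 | ⟨v, hv, rfl⟩
          · rw [F7 i h1]; exact (ha1 i h1).1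
          · rw [F8 v hv]; exact (ha1 v hv).2.1
    · intro i _ j _ hij
      exact hΛd _ _ (hcl i) (hcl j) hij
    · intro i hi j hj hc hF'
      rw [mem_range] at hi hj
      by_cases hR : i ∈ R
      · by_cases hR' : j ∈ R
        · rw [F0 i hR, F0 j hR'] at hF'
          exact D.labI hR hR' hF'
        · rw [hclass0 i hR] at hc
          rcases hclass j hj hR' with h | h | h | h | h <;> · rw [h.2] at hc; omega
      · by_cases hR' : j ∈ R
        · rw [hclass0 j hR'] at hc
          rcases hclass i hi hR with h | h | h | h | h <;> · rw [h.2] at hc; omega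
        · rcases hclass i hi hR with h | h | h | h | h <;>
          rcases hclass j hj hR' with h' | h' | h' | h' | h' <;>
          (rw [h.2, h'.2] at hc) <;> (try omega)
          · rw [F1 i hR h.1, F1 j hR' h'.1] at hF'
            exact hI1 (mem_coe.2 (mem_MV.2 ⟨hi, hR, h.1⟩)) (mem_coe.2 (mem_MV.2 ⟨hj, hR', h'.1⟩)) hF'
          · rw [F2 i hR h.1, F2 j hR' h'.1] at hF'
            exact h23 (mem_coe.2 (mem_MV.2 ⟨hi, hR, h.1⟩)) (mem_coe.2 (mem_MV.2 ⟨hj, hR', h'.1⟩)) hF'
          · rw [F3 i h.1, F3 j h'.1] at hF'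
            exact D.βI h.1 h'.1 hF'
          · rcases h.1 with ⟨v, hv, rfl⟩ | h1 | ⟨v, hv, rfl⟩ <;>
              rcases h'.1 with ⟨w, hw, rfl⟩ | h2 | ⟨w, hw, rfl⟩
            · rw [F4 v hv, F4 w hw] at hF'
              rw [hz1 hv hw hF']
            · rw [F4 v hv, F5 j h2] at hF'
              exact absurd hF' (hz4 v hv j h2).1
            · rw [F4 v hv, F6 w hw] at hF'
              exact absurd hF' (hz4 v hv w hw).2
            · rw [F5 i h1, F4 w hw] at hF'
              exact absurd hF'.symm (hz4 w hw i h1).1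
            · rw [F5 i h1, F5 j h2] at hF'
              exact hz2 h1 h2 hF'
            · rw [F5 i h1, F6 w hw] at hF'
              exact absurd hF' (hz5 i h1 w hw)
            · rw [F6 v hv, F4 w hw] at hF'
              exact absurd hF'.symm (hz4 w hw v hv).2
            · rw [F6 v hv, F5 j h2] at hF'
              exact absurd hF'.symm (hz5 j h2 v hv)
            · rw [F6 v hv, F6 w hw] at hF'
              rw [hz3 hv hw hF']
          · rcases h.1 with h1 | ⟨v, hv, rfl⟩ <;> rcases h'.1 with h2 | ⟨w, hw, rfl⟩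
            · rw [F7 i h1, F7 j h2] at hF'
              exact ha2 h1 h2 hF'
            · rw [F7 i h1, F8 w hw] at hF'
              exact absurd hF' (ha4 i h1 w hw)
            · rw [F8 v hv, F7 j h2] at hF'
              exact absurd hF'.symm (ha4 j h2 v hv)
            · rw [F8 v hv, F8 w hw] at hF'
              rw [ha3 hv hw hF']
  · -- injectivity of the differences
    apply injOn_classes (dv m p ea eb F) (eclG m p top R T' Tl Ve Vin) Sg
    · intro i hi
      rw [mem_Ico] at hi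
      rcases hedge i (by omega) hi.2 with h | h | h | h | h | h
      · rw [h.2.1, h.2.2]
        exact mem_image_of_mem (dv m p ea eb lab) h.1
      · rw [h.2.1, h.2.2]
        exact mem_image_of_mem (fun i => ad (f1 i) (f1 (p i))) h.1
      · rw [h.2.1, h.2.2]
        exact mem_image_of_mem (fun i => ad (f2 i) (f2 (p i))) h.1
      · rw [h.2, G3 i h.1]
        exact mem_image_of_mem (fun v => ad (lab (p v)) (β v)) h.1
      · rw [h.2]
        show dv m p ea eb F i ∈ DR
        rcases h.1 with ⟨v, hv, rfl⟩ | h1 | ⟨v, hv, rfl⟩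
        · rw [G4 v hv]; exact dr1 v hv
        · rw [G5 i h1]; exact dr2 i h1
        · rw [G6 v hv]; exact dr3 v hv
      · rw [h.2]
        show dv m p ea eb F i ∈ Sm ∪ XS
        rcases h.1 with h1 | ⟨v, hv, rfl⟩
        · rw [G7 i h1]; exact (ha1 i h1).2.2.1
        · rw [G8 v hv]; exact (ha1 v hv).2.2.2
    · intro i _ j _ hij
      exact hSgd _ _ (hel i) (hel j) hij
    · intro i hi j hj hc hF'
      rw [mem_Ico] at hi hj
      rcases hedge i (by omega) hi.2 with h | h | h | h | h | h <;>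
        rcases hedge j (by omega) hj.2 with h' | h' | h' | h' | h' | h'
      · rw [h.2.2, h'.2.2] at hF'
        exact D.dvI (mem_coe.2 h.1) (mem_coe.2 h'.1) hF'
      · rw [h.2.1, h'.2.1] at hc; omega
      · rw [h.2.1, h'.2.1] at hc; omega
      · rw [h.2.1, h'.2] at hc; omega
      · rw [h.2.1, h'.2] at hc; omega
      · rw [h.2.1, h'.2] at hc; omega
      · rw [h.2.1, h'.2.1] at hc; omega
      · rw [h.2.2, h'.2.2] at hF'
        exact hJ1 (mem_coe.2 h.1) (mem_coe.2 h'.1) hF'
      · rw [h.2.1, h'.2.1] at hc; omega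
      · rw [h.2.1, h'.2] at hc; omega
      · rw [h.2.1, h'.2] at hc; omega
      · rw [h.2.1, h'.2] at hc; omega
      · rw [h.2.1, h'.2.1] at hc; omega
      · rw [h.2.1, h'.2.1] at hc; omega
      · rw [h.2.2, h'.2.2] at hF'
        exact h24 (mem_coe.2 h.1) (mem_coe.2 h'.1) hF'
      · rw [h.2.1, h'.2] at hc; omega
      · rw [h.2.1, h'.2] at hc; omega
      · rw [h.2.1, h'.2] at hc; omega
      · rw [h.2, h'.2.1] at hc; omega
      · rw [h.2, h'.2.1] at hc; omega
      · rw [h.2, h'.2.1] at hc; omega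
      · rw [G3 i h.1, G3 j h'.1] at hF'
        exact D.cbI (mem_coe.2 h.1) (mem_coe.2 h'.1) hF'
      · rw [h.2, h'.2] at hc; omega
      · rw [h.2, h'.2] at hc; omega
      · rw [h.2, h'.2.1] at hc; omega
      · rw [h.2, h'.2.1] at hc; omega
      · rw [h.2, h'.2.1] at hc; omega
      · rw [h.2, h'.2] at hc; omega
      · rcases h.1 with ⟨v, hv, rfl⟩ | h1 | ⟨v, hv, rfl⟩ <;>
          rcases h'.1 with ⟨w, hw, rfl⟩ | h2 | ⟨w, hw, rfl⟩
        · rw [G4 v hv, G4 w hw] at hF'
          rw [hs1 hv hw hF']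
        · rw [G4 v hv, G5 j h2] at hF'
          exact absurd hF' (hs4 v hv j h2).1
        · rw [G4 v hv, G6 w hw] at hF'
          exact absurd hF' (hs4 v hv w hw).2
        · rw [G5 i h1, G4 w hw] at hF'
          exact absurd hF'.symm (hs4 w hw i h1).1
        · rw [G5 i h1, G5 j h2] at hF'
          exact hs2 h1 h2 hF'
        · rw [G5 i h1, G6 w hw] at hF'
          exact absurd hF' (hs5 i h1 w hw)
        · rw [G6 v hv, G4 w hw] at hF'
          exact absurd hF'.symm (hs4 w hw v hv).2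
        · rw [G6 v hv, G5 j h2] at hF'
          exact absurd hF'.symm (hs5 j h2 v hv)
        · rw [G6 v hv, G6 w hw] at hF'
          rw [hs3 hv hw hF']
      · rw [h.2, h'.2] at hc; omega
      · rw [h.2, h'.2.1] at hc; omega
      · rw [h.2, h'.2.1] at hc; omega
      · rw [h.2, h'.2.1] at hc; omega
      · rw [h.2, h'.2] at hc; omega
      · rw [h.2, h'.2] at hc; omega
      · rcases h.1 with h1 | ⟨v, hv, rfl⟩ <;> rcases h'.1 with h2 | ⟨w, hw, rfl⟩
        · rw [G7 i h1, G7 j h2] at hF'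
          exact ha5 h1 h2 hF'
        · rw [G7 i h1, G8 w hw] at hF'
          exact absurd hF' (ha7 i h1 w hw)
        · rw [G8 v hv, G7 j h2] at hF'
          exact absurd hF'.symm (ha7 j h2 v hv)
        · rw [G8 v hv, G8 w hw] at hF'
          rw [ha6 hv hw hF']

end

end Pool.Agent.GRC
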