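import Mathlib

/-!
# GRC-FIN1: the constants, numerical lemmas
-/

set_option autoImplicit false

namespace Pool.Agent.GRC

/-- the constants of the proof -/
structure Cst (D g : ℕ) (ε c1 G2 σ μ t ρ ν ω lam : ℝ) : Prop where
  hε : 0 < ε
  hε1 : ε ≤ 1
  D5 : (10 : ℝ) ^ 5 ≤ D
  G2e : G2 = 1 + 2 * ((g : ℝ) + 1) ^ 2
  G3 : 3 ≤ G2
  σ0 : 0 < σ
  σG : σ * G2 * 10 ^ 20 ≤ ε
  σc : σ * 4000 ≤ c1 * ε
  σε : σ * 10 ^ 20 ≤ ε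
  σ1 : σ * 10 ^ 20 ≤ 1
  μe : μ = σ ^ 2
  μ0 : 0 < μ
  μσ : μ * 10 ^ 20 ≤ σ
  μ1 : μ ≤ 1 / 10 ^ 30
  t0 : 0 < t
  tσ : 2 * 10 ^ 9 * D * t = σ
  tσ' : t * 10 ^ 14 ≤ σ
  t1 : t ≤ 1 / 10 ^ 30
  ρ0 : 0 < ρ
  ρt : ρ * G2 * 10 ^ 7 = t
  ρt' : ρ * 10 ^ 7 ≤ t
  ρ1 : ρ ≤ 1 / 10 ^ 30
  ν0 : 0 < ν
  νρ : ν * 100 = ε * ρ
  νρ' : ν * 100 ≤ ρ
  ν1 : ν ≤ 1 / 10 ^ 30
  ω0 : 0 < ω
  ωt : 32 * ω = t * μ
  ω1 : ω ≤ 1 / 10 ^ 30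
  l0 : 0 < lam
  lν : lam * 10 ^ 8 ≤ ν
  lt : lam * 10 ^ 8 ≤ t * ω
  lμ : lam * 10 ^ 8 ≤ μ
  lω : lam * 10 ^ 8 ≤ ω

theorem cst_exists (D g : ℕ) (hD5 : 10 ^ 5 ≤ D) (ε c1 : ℝ) (hc1 : 0 < c1) (hε : 0 < ε) (hε1 : ε ≤ 1) :
    ∃ G2 σ μ t ρ ν ω lam : ℝ, Cst D g ε c1 G2 σ μ t ρ ν ω lam := by
  obtain ⟨c, hc0, hcc, hc1'⟩ : ∃ c : ℝ, 0 < c ∧ c ≤ c1 ∧ c ≤ 1 :=
    ⟨min c1 1, by positivity, min_le_left _ _, min_le_right _ _⟩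
  have hDr : (10 : ℝ) ^ 5 ≤ D := by exact_mod_cast hD5
  have hD0 : (0 : ℝ) < D := by linarith
  obtain ⟨G2, hG2⟩ : ∃ G2 : ℝ, G2 = 1 + 2 * ((g : ℝ) + 1) ^ 2 := ⟨_, rfl⟩
  have hG3 : 3 ≤ G2 := by
    rw [hG2]
    have : (0 : ℝ) ≤ g := Nat.cast_nonneg g
    nlinarith
  obtain ⟨σ, hσ⟩ : ∃ σ : ℝ, σ = c * ε / (10 ^ 20 * G2) := ⟨_, rfl⟩
  have hσ0 : 0 < σ := by rw [hσ]; positivity
  have hσG : σ * G2 * 10 ^ 20 = c * ε := by rw [hσ]; field_simp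
  have hcε : c * ε ≤ ε := by nlinarith
  have hσG' : σ * G2 * 10 ^ 20 ≤ ε := by rw [hσG]; exact hcε
  have hσG1 : σ * 1 ≤ σ * G2 := mul_le_mul_of_nonneg_left (by linarith) hσ0.le
  have hσε : σ * 10 ^ 20 ≤ c * ε := by rw [← hσG]; linarith
  have hσc : σ * 4000 ≤ c1 * ε := by
    have h1 : c * ε ≤ c1 * ε := mul_le_mul_of_nonneg_right hcc hε.le
    linarith
  have hσε' : σ * 10 ^ 20 ≤ ε := hσε.trans hcε
  have hσ1 : σ * 10 ^ 20 ≤ 1 := hσε'.trans hε1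
  obtain ⟨μ, hμ⟩ : ∃ μ : ℝ, μ = σ ^ 2 := ⟨_, rfl⟩
  have hμ0 : 0 < μ := by rw [hμ]; positivity
  have hμσ : μ * 10 ^ 20 ≤ σ := by
    rw [hμ]
    have h1 : σ * (σ * 10 ^ 20) ≤ σ * 1 := mul_le_mul_of_nonneg_left hσ1 hσ0.le
    linarith
  obtain ⟨t, ht⟩ : ∃ t : ℝ, t = σ / (2 * 10 ^ 9 * D) := ⟨_, rfl⟩
  have ht0 : 0 < t := by rw [ht]; positivity
  have htσ : 2 * 10 ^ 9 * D * t = σ := by rw [ht]; field_simp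
  have htσ' : t * 10 ^ 14 ≤ σ := by
    have h1 : t * (10 ^ 5 : ℝ) ≤ t * D := mul_le_mul_of_nonneg_left hDr ht0.le
    linarith
  obtain ⟨ρ, hρ⟩ : ∃ ρ : ℝ, ρ = t / (10 ^ 7 * G2) := ⟨_, rfl⟩
  have hρ0 : 0 < ρ := by rw [hρ]; positivity
  have hρt : ρ * G2 * 10 ^ 7 = t := by rw [hρ]; field_simp
  have hρt' : ρ * 10 ^ 7 ≤ t := by
    have h1 : ρ * 1 ≤ ρ * G2 := mul_le_mul_of_nonneg_left (by linarith) hρ0.le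
    linarith
  obtain ⟨ν, hν⟩ : ∃ ν : ℝ, ν = ε * ρ / 100 := ⟨_, rfl⟩
  have hν0 : 0 < ν := by rw [hν]; positivity
  have hνρ : ν * 100 = ε * ρ := by rw [hν]; ring
  have hνρ' : ν * 100 ≤ ρ := by
    rw [hνρ]
    have h1 : ε * ρ ≤ 1 * ρ := mul_le_mul_of_nonneg_right hε1 hρ0.le
    linarith
  obtain ⟨ω, hω⟩ : ∃ ω : ℝ, ω = σ ^ 3 / (64 * 10 ^ 9 * D) := ⟨_, rfl⟩
  have hω0 : 0 < ω := by rw [hω]; positivity
  have hωt : 32 * ω = t * μ := by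
    rw [hω, ht, hμ]; field_simp; ring
  have ht1 : t ≤ 1 / 10 ^ 30 := by linarith
  have hμ1 : μ ≤ 1 / 10 ^ 30 := by linarith
  have hρ1 : ρ ≤ 1 / 10 ^ 30 := by linarith
  have hν1 : ν ≤ 1 / 10 ^ 30 := by linarith
  have hω1 : ω ≤ 1 / 10 ^ 30 := by
    have h1 : t * μ ≤ 1 * μ := mul_le_mul_of_nonneg_right (by linarith) hμ0.le
    linarith
  obtain ⟨lam, hlam⟩ : ∃ lam : ℝ, lam = ν * t * ω / 10 ^ 8 := ⟨_, rfl⟩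
  have hl0 : 0 < lam := by rw [hlam]; positivity
  have hl8 : lam * 10 ^ 8 = ν * t * ω := by rw [hlam]; ring
  have h1 : t * ω ≤ 1 * ω := mul_le_mul_of_nonneg_right (by linarith) hω0.le
  have hlν : lam * 10 ^ 8 ≤ ν := by
    rw [hl8]
    calc ν * t * ω = ν * (t * ω) := by ring
      _ ≤ ν * 1 := mul_le_mul_of_nonneg_left (by linarith) hν0.le
      _ = ν := mul_one _
  have hlt : lam * 10 ^ 8 ≤ t * ω := by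
    rw [hl8]
    calc ν * t * ω = ν * (t * ω) := by ring
      _ ≤ 1 * (t * ω) := mul_le_mul_of_nonneg_right (by linarith) (by positivity)
      _ = t * ω := one_mul _
  have hlω : lam * 10 ^ 8 ≤ ω := by linarith
  have hlμ : lam * 10 ^ 8 ≤ μ := by
    have h2 : t * μ ≤ 1 * μ := mul_le_mul_of_nonneg_right (by linarith) hμ0.le
    linarith
  exact ⟨G2, σ, μ, t, ρ, ν, ω, lam, hε, hε1, hDr, hG2, hG3, hσ0, hσG', hσc, hσε', hσ1, hμ, hμ0, hμσ, hμ1,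
    ht0, htσ, htσ', ht1, hρ0, hρt, hρt', hρ1, hν0, hνρ, hνρ', hν1, hω0, hωt, hω1, hl0, hlν, hlt, hlμ, hlω⟩

theorem fin_div {n q : ℕ} {lam : ℝ} (h : 10 ≤ lam * q) : ((n / q : ℕ) : ℝ) ≤ lam * n / 10 := by
  have h1 : ((n / q : ℕ) : ℝ) ≤ n / q := Nat.cast_div_le
  have hq : (0 : ℝ) < q := by
    rcases Nat.eq_zero_or_pos q with h0 | h0
    · subst h0; norm_num at h
    · exact_mod_cast h0
  refine h1.trans ?_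
  rw [div_le_div_iff₀ hq (by norm_num)]
  have hn : (0 : ℝ) ≤ n := Nat.cast_nonneg n
  nlinarith

section
variable {D g : ℕ} {ε c1 G2 σ μ t ρ ν ω lam : ℝ}

theorem fin_M (c : Cst D g ε c1 G2 σ μ t ρ ν ω lam) {M N : ℝ} (hN : 0 ≤ N) (h : M * D ≤ μ * N) :
    M ≤ ν * N / 50 := by
  have hD0 : (0 : ℝ) < D := by linarith [c.D5]
  have h1 : M * D ≤ (2 * 10 ^ 9 * (σ * t * N)) * D := by
    have h2 : μ * N = (2 * 10 ^ 9 * (σ * t * N)) * D := by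
      rw [c.μe]
      have h3 : σ ^ 2 = σ * (2 * 10 ^ 9 * D * t) := by rw [c.tσ]; ring
      rw [h3]; ring
    linarith
  have h2 : M ≤ 2 * 10 ^ 9 * (σ * t * N) := le_of_mul_le_mul_right h1 hD0
  have h3 : σ * t * N = 10 ^ 7 * ((σ * G2) * (ρ * N)) := by rw [← c.ρt]; ring
  have h4 : (σ * G2 * 10 ^ 20) * (ρ * N) ≤ ε * (ρ * N) :=
    mul_le_mul_of_nonneg_right c.σG (mul_nonneg c.ρ0.le hN)
  have h5 : ε * (ρ * N) = 100 * (ν * N) := by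
    have : ε * (ρ * N) = (ε * ρ) * N := by ring
    rw [this, ← c.νρ]; ring
  rw [h3] at h2
  rw [h5] at h4
  linarith

/-- linear facts at scale `N` -/
structure LF1 (ε σ μ t ρ ν ω lam N : ℝ) : Prop where
  lν : lam * N * 10 ^ 8 ≤ ν * N
  lt : lam * N * 10 ^ 8 ≤ t * ω * N
  lμ : lam * N * 10 ^ 8 ≤ μ * N
  lω : lam * N * 10 ^ 8 ≤ ω * N
  νρ : ν * N * 100 ≤ ρ * N
  ρt : ρ * N * 10 ^ 7 ≤ t * N
  tσ : t * N * 10 ^ 14 ≤ σ * N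
  μσ : μ * N * 10 ^ 20 ≤ σ * N
  σε : σ * N * 10 ^ 20 ≤ ε * N
  εN : ε * N ≤ N
  lN : 0 ≤ lam * N
  μN : μ * N * 10 ^ 30 ≤ N
  ωN : ω * N * 10 ^ 20 ≤ μ * N
  νε : ν * N * 10 ^ 20 ≤ ε ^ 2 * N

theorem Cst.lin (c : Cst D g ε c1 G2 σ μ t ρ ν ω lam) {N : ℝ} (hN : 0 ≤ N) :
    LF1 ε σ μ t ρ ν ω lam N := by
  have key : ∀ {a b k : ℝ}, a * k ≤ b → a * N * k ≤ b * N := by
    intro a b k h
    have := mul_le_mul_of_nonneg_right h hN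
    linarith
  have h1 : ν * 10 ^ 20 ≤ ε ^ 2 := by
    have h2 : ρ ≤ ε := by linarith [c.ρt', c.tσ', c.σε, c.ρ0, c.t0, c.σ0, c.hε]
    have h3 : ρ * 10 ^ 20 ≤ ε := by linarith [c.ρt', c.tσ', c.σε, c.ρ0, c.t0, c.σ0, c.hε]
    have h4 : ε * (ρ * 10 ^ 20) ≤ ε * ε := mul_le_mul_of_nonneg_left h3 c.hε.le
    have h5 := c.νρ
    nlinarith
  have h2 : ω * 10 ^ 20 ≤ μ := by
    have h3 := c.ωt
    have h4 : t * μ ≤ 1 / 10 ^ 30 * μ := mul_le_mul_of_nonneg_right c.t1 c.μ0.le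
    linarith [c.μ0]
  refine ⟨key c.lν, ?_, key c.lμ, key c.lω, key c.νρ', key c.ρt', key c.tσ', key c.μσ, key c.σε, ?_, ?_, ?_,
    key h2, key h1⟩
  · exact key c.lt
  · have := mul_le_mul_of_nonneg_right c.hε1 hN
    linarith
  · exact mul_nonneg c.l0.le hN
  · have := mul_le_mul_of_nonneg_right c.μ1 hN
    linarith

/-- bound for the number of separating vertices -/
theorem fin_Y (c : Cst D g ε c1 G2 σ μ t ρ ν ω lam) {m K Lam Fc N : ℝ} (hN : 0 ≤ N) (hm : m ≤ 2 * N)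
    (hm0 : 0 ≤ m) (hL : 0 ≤ Lam) (hK : 0 < K) (hKρ : 100 * (Lam + 1) ≤ ρ * K) (hF : 0 ≤ Fc)
    (hFc : (Lam + 1) * Fc ≤ lam * N / 10 ^ 9) (hLN : Lam + 1 ≤ lam * N / 10 ^ 12) :
    (Lam + 1) * (4 * m / K + 4 + 4 * Fc) ≤ 9 / 100 * (ρ * N) ∧
    Lam * (4 * m / K + 4 + 4 * Fc) ≤ 9 / 100 * (ρ * N) ∧ 4 * m / K + 4 + 4 * Fc ≤ 9 / 100 * (ρ * N) := by
  have l := c.lin hN
  have h0 : 0 ≤ 4 * m / K + 4 + 4 * Fc := by positivity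
  have h1 : (Lam + 1) * (4 * m / K) ≤ 8 / 100 * (ρ * N) := by
    have h2 : (Lam + 1) * (4 * m / K) = (4 * m * (Lam + 1)) / K := by ring
    rw [h2, div_le_iff₀ hK]
    have h3 : (4 * m) * (100 * (Lam + 1)) ≤ (4 * m) * (ρ * K) :=
      mul_le_mul_of_nonneg_left hKρ (by linarith)
    have h4 : (ρ * K) * m ≤ (ρ * K) * (2 * N) :=
      mul_le_mul_of_nonneg_left hm (mul_nonneg c.ρ0.le hK.le)
    linarith
  have h5 : (Lam + 1) * (4 * m / K + 4 + 4 * Fc) ≤ 9 / 100 * (ρ * N) := by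
    have h6 : (Lam + 1) * (4 * m / K + 4 + 4 * Fc) =
      (Lam + 1) * (4 * m / K) + 4 * (Lam + 1) + 4 * ((Lam + 1) * Fc) := by ring
    rw [h6]
    linarith [l.lν, l.νρ, l.lN]
  refine ⟨h5, ?_, ?_⟩
  · nlinarith
  · nlinarith

theorem fin_R (c : Cst D g ε c1 G2 σ μ t ρ ν ω lam) {Y S N : ℝ} (hN : 0 ≤ N) (hY : Y ≤ 9 / 100 * (ρ * N))
    (hS : S ≤ 205 / 100 * (ν * N)) : Y + 8 / ε * S ≤ 3 / 10 * (ρ * N) - 4 / 100 * (ρ * N) := by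
  have h1 : 8 / ε * S ≤ 8 / ε * (205 / 100 * (ν * N)) :=
    mul_le_mul_of_nonneg_left hS (div_nonneg (by norm_num) c.hε.le)
  have h2 : 8 / ε * (205 / 100 * (ν * N)) = 164 / 1000 * (ρ * N) := by
    have h3 : ν = ε * ρ / 100 := by linarith [c.νρ]
    rw [h3]
    have := c.hε.ne'
    field_simp
    ring
  have h4 : 0 ≤ ρ * N := mul_nonneg c.ρ0.le hN
  linarith

theorem fin_hc (c : Cst D g ε c1 G2 σ μ t ρ ν ω lam) {R w cap N : ℝ} (hN : 0 ≤ N)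
    (hR : R ≤ 31 / 100 * (ρ * N)) (hw : 0 ≤ w) (hcap : 0 ≤ cap) (hcw : cap ≤ w) (hwc : t * w ≤ 200 * cap)
    (hg : ((g : ℝ) + 1) ^ 2 ≤ N / 10 ^ 12) (hN8 : 10 ^ 8 ≤ N) :
    G2 * (R * (w + cap)) + cap * ((g : ℝ) + 1) ^ 2 ≤ cap * ((N - 1999) / 2000) := by
  have hG0 : 0 ≤ G2 := by linarith [c.G3]
  have h1 : R * (w + cap) ≤ (31 / 100 * (ρ * N)) * (2 * w) := by
    apply mul_le_mul hR (by linarith) (by linarith)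
    exact mul_nonneg (by norm_num) (mul_nonneg c.ρ0.le hN)
  have h2 : G2 * (R * (w + cap)) ≤ G2 * ((31 / 100 * (ρ * N)) * (2 * w)) :=
    mul_le_mul_of_nonneg_left h1 hG0
  have h3 : G2 * ((31 / 100 * (ρ * N)) * (2 * w)) = 62 / 10 ^ 9 * (N * (t * w)) := by
    rw [← c.ρt]; ring
  have h4 : N * (t * w) ≤ N * (200 * cap) := mul_le_mul_of_nonneg_left hwc hN
  have h5 : cap * ((g : ℝ) + 1) ^ 2 ≤ cap * (N / 10 ^ 12) := mul_le_mul_of_nonneg_left hg hcap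
  have h6 : cap * (10 ^ 8 : ℝ) ≤ cap * N := mul_le_mul_of_nonneg_left hN8 hcap
  nlinarith

end

end Pool.Agent.GRC
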