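import Pool.Agent.Helper28.GRC.Defs

/-!
# GRC-STF: the structured flexible sets (differences)

Model: Helper73/SEM/ST.lean (Chinese remainder theorem + counting in intervals; the lemmas `st97_low`, `st97_crt5` etc. there can be copied).

`M4 = q1 q2 q3 q4`.  Proof in words (all intervals are found by inspection, a computer check gives length `≥ 0.03 n` resp. `0.06 n`):
* (F4) for `a ≤ n` and `45 n ≤ 100 a' ≤ 55 n` there is an interval `I` of length `≥ 0.02 n` inside `[0.1n, 0.45n]` or `[0.55 n, 0.9 n]` on which `ad a x, ad a' x ∈ [0.11 n, 0.39 n]` (and the signs of `x - a`, `x - a'` are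
  constant).  By the symmetry `x ↦ n - x` assume `a' ≤ n/2` or treat cases on `a`.  E.g. the candidate intervals are `[a' - 0.39 n, a' - 0.11 n]`, `[a' + 0.11 n, a' + 0.39 n]` intersected with `[a - 0.39n, a - 0.11 n]`, `[a + 0.11n, a + 0.39n]`.
  Congruences: `x ≡ 0 (q3)`, `x ≡ a (q1)`, `x ≡ a' (q2)`: at least `0.02 n/(q1 q2 q3) - 1 ≥ n/(100 M4)` solutions.
* (F5) `100 s ≤ 72 n`, `a'` within `0.001 n` of `n/2`: `x` and `x + s` in `[0.1n,0.45n] ∪ [0.55n,0.9n]`, `ad a' x ∈ [0.11n, 0.39n]`: for `s ≤ 0.2 n`: `x ∈ [0.12 n, 0.24 n]`; for `0.2 n ≤ s`: `x ∈ [max(0.12n, 0.551n - s), min(0.38 n, 0.899 n - s)]`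
  (length `≥ 0.03 n`).  Congruences `x ≡ 0 (q3)`, `x + s ≡ 0 (q4)`, `x ≡ a' (q1)`.
* (F3) is (F4) with `a = b`, `a' = n/2`.
* (F1) `s' = n - s ∈ [P, 0.28 n)`: `b + s = n - (s' - b)`.  If `s' ≤ 0.1 n`: `b ≡ 0 (q7)`, `s' - b ≡ 0 (q6)`; `s' - b ≥ 0.8 P`.  If `s' ≥ 0.1 n + 0.2 P`: `b + s ≡ 0 (q3)`, `b ≡ 0 (q7)`, `b + s ∈ [0.72 n, 0.9 n]`.  In between one of the two conditions
  `s' - b < 0.1 n`, `s' - b ≥ 0.1 n` holds for half of the interval of the `b`.  At least `0.06 P/(q6 q7) - 1` resp. `0.06 P/(q3 q7) - 1` solutions.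
* sizes: multiples of `q` in an interval.
-/

set_option autoImplicit false

namespace Pool.Agent.GRC

open Finset

/-- flexible labels -/
def FXr (n q3 q4 : ℕ) : Finset ℕ :=
  (Icc (n / 10 + 1) (9 * n / 10)).filter fun x => (100 * x ≤ 45 * n ∨ 55 * n ≤ 100 * x) ∧ (x % q3 = 0 ∨ x % q4 = 0)

/-- extreme flexible labels -/
def FXe (n P q6 : ℕ) : Finset ℕ :=
  (Icc (9 * n / 10 + 1) n).filter fun x => 79 * P ≤ 100 * (n - x) ∧ (n - x) % q6 = 0

/-- flexible differences -/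
def FSr (n q1 q2 : ℕ) : Finset ℕ :=
  (Icc (11 * n / 100 + 1) (39 * n / 100)).filter fun s => s % q1 = 0 ∨ s % q2 = 0

/-- reserved low labels -/
def Bee (P q7 : ℕ) : Finset ℕ := (Icc (7 * P / 100 + 1) (20 * P / 100)).filter fun b => b % q7 = 0

/-- admissible moduli -/
structure Mod6 (q1 q2 q3 q4 q6 q7 : ℕ) : Prop where
  g1 : 100 ≤ q1
  g2 : 100 ≤ q2
  g3 : 100 ≤ q3
  g4 : 100 ≤ q4
  g6 : 10 ^ 6 * (q1 * q2 * q3 * q4) ≤ q6
  g7 : 10 ^ 6 * (q1 * q2 * q3 * q4) ≤ q7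
  c12 : Nat.Coprime q1 q2
  c13 : Nat.Coprime q1 q3
  c14 : Nat.Coprime q1 q4
  c23 : Nat.Coprime q2 q3
  c24 : Nat.Coprime q2 q4
  c34 : Nat.Coprime q3 q4
  c37 : Nat.Coprime q3 q7
  c67 : Nat.Coprime q6 q7

/-- A residue class meets an interval. -/
private theorem low31 {m : ℕ} (hm : 0 < m) (r A B k : ℕ) (h : A + k * m ≤ B) :
    k ≤ ((Ioc A B).filter fun x => x ≡ r [MOD m]).card := by
  classical
  set c : ℕ := (r + (m - 1) * (A + 1)) % m with hc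
  have hcm : c < m := Nat.mod_lt _ hm
  have hcong : A + 1 + c ≡ r [MOD m] := by
    have h1 : c ≡ r + (m - 1) * (A + 1) [MOD m] := Nat.mod_modEq _ _
    have h2 : A + 1 + c ≡ A + 1 + (r + (m - 1) * (A + 1)) [MOD m] := Nat.ModEq.add_left _ h1
    refine h2.trans ?_
    have h3 : A + 1 + (r + (m - 1) * (A + 1)) = r + m * (A + 1) := by
      obtain ⟨j, rfl⟩ : ∃ j, m = j + 1 := ⟨m - 1, by omega⟩
      rw [Nat.add_sub_cancel]
      ring
    rw [h3]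
    have h4 : r + m * (A + 1) ≡ r + 0 [MOD m] :=
      Nat.ModEq.add_left _ ((Nat.modEq_zero_iff_dvd).2 (dvd_mul_right _ _))
    simp only [add_zero] at h4
    exact h4
  have hinj : Set.InjOn (fun i : ℕ => A + 1 + c + i * m) (range k : Finset ℕ) := by
    intro i _ j _ hij
    have h1 : i * m = j * m := by
      have : A + 1 + c + i * m = A + 1 + c + j * m := hij
      omega
    exact Nat.eq_of_mul_eq_mul_right hm h1
  rw [← card_range k, ← card_image_of_injOn hinj]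
  refine card_le_card ?_
  intro y hy
  obtain ⟨i, hi, rfl⟩ := mem_image.1 hy
  rw [mem_range] at hi
  rw [mem_filter, mem_Ioc]
  have h1 : (i + 1) * m ≤ k * m := Nat.mul_le_mul_right m hi
  have h2 : (i + 1) * m = i * m + m := by ring
  refine ⟨⟨by omega, by omega⟩, ?_⟩
  have h3 : A + 1 + c + i * m ≡ A + 1 + c + 0 [MOD m] :=
    Nat.ModEq.add_left _ ((Nat.modEq_zero_iff_dvd).2 (dvd_mul_left _ _))
  exact h3.trans (by simpa using hcong)

/-- Multiples in an interval. -/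
private theorem mult31 {q : ℕ} (A B : ℕ) :
    ((Icc (A + 1) B).filter fun x => x % q = 0).card ≤ B / q - A / q := by
  classical
  have h0 : B / q - A / q = (Ioc (A / q) (B / q)).card := by rw [Nat.card_Ioc]
  rw [h0]
  have hinj : Set.InjOn (fun x : ℕ => x / q) ((Icc (A + 1) B).filter fun x => x % q = 0 : Finset ℕ) := by
    intro x hx y hy hxy
    have hx' := (mem_filter.1 (mem_coe.1 hx)).2
    have hy' := (mem_filter.1 (mem_coe.1 hy)).2
    have h1 := Nat.div_add_mod x q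
    have h2 := Nat.div_add_mod y q
    have h3 : x / q = y / q := hxy
    rw [hx', h3] at h1
    rw [hy'] at h2
    omega
  rw [← card_image_of_injOn hinj]
  refine card_le_card ?_
  intro t ht
  obtain ⟨x, hx, rfl⟩ := mem_image.1 ht
  obtain ⟨hx1, hx2⟩ := mem_filter.1 hx
  rw [mem_Icc] at hx1
  rw [mem_Ioc]
  refine ⟨?_, Nat.div_le_div_right hx1.2⟩
  by_contra h1
  push Not at h1
  have h2 := Nat.div_add_mod x q
  rw [hx2, add_zero] at h2
  have h3 : q * (x / q) ≤ q * (A / q) := Nat.mul_le_mul_left q h1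
  have h4 := Nat.mul_div_le A q
  omega

/-- Two congruences. -/
private theorem cnt2_31 {m1 m2 : ℕ} (h1 : 0 < m1) (h2 : 0 < m2) (hc : Nat.Coprime m1 m2)
    (c1 c2 A B k : ℕ) (hAB : A + k * (m1 * m2) ≤ B) (F : Finset ℕ)
    (hF : ∀ x, A < x → x ≤ B → x ≡ c1 [MOD m1] → x ≡ c2 [MOD m2] → x ∈ F) : k ≤ F.card := by
  obtain ⟨r, r1, r2⟩ := Nat.chineseRemainder hc c1 c2
  refine (low31 (Nat.mul_pos h1 h2) r A B k hAB).trans (card_le_card fun x hx => ?_)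
  obtain ⟨hx1, hx2⟩ := mem_filter.1 hx
  rw [mem_Ioc] at hx1
  exact hF x hx1.1 hx1.2 ((hx2.of_dvd (dvd_mul_right _ _)).trans r1)
    ((hx2.of_dvd (dvd_mul_left _ _)).trans r2)

/-- Three congruences. -/
private theorem cnt3_31 {m1 m2 m3 : ℕ} (h1 : 0 < m1) (h2 : 0 < m2) (h3 : 0 < m3)
    (c12 : Nat.Coprime m1 m2) (c13 : Nat.Coprime m1 m3) (c23 : Nat.Coprime m2 m3)
    (c1 c2 c3 A B k : ℕ) (hAB : A + k * (m1 * m2 * m3) ≤ B) (F : Finset ℕ)
    (hF : ∀ x, A < x → x ≤ B → x ≡ c1 [MOD m1] → x ≡ c2 [MOD m2] → x ≡ c3 [MOD m3] → x ∈ F) :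
    k ≤ F.card := by
  obtain ⟨r, r1, r2⟩ := Nat.chineseRemainder c12 c1 c2
  have hc : Nat.Coprime (m1 * m2) m3 := Nat.Coprime.mul_left c13 c23
  refine cnt2_31 (Nat.mul_pos h1 h2) h3 hc r c3 A B k hAB F fun x hx1 hx2 k1 k2 => ?_
  exact hF x hx1 hx2 ((k1.of_dvd (dvd_mul_right _ _)).trans r1)
    ((k1.of_dvd (dvd_mul_left _ _)).trans r2) k2

private theorem kk31 {n m M : ℕ} (h : m ≤ M) : n / (100 * M) * m ≤ n / 100 := by
  rw [← Nat.div_div_eq_div_mul]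
  exact (Nat.mul_le_mul_left _ h).trans (Nat.div_mul_le_self _ _)

/-- a congruence gives divisibility of the difference -/
private theorem ad31 {q a x : ℕ} (h : x ≡ a [MOD q]) : ad a x % q = 0 := by
  unfold ad
  rcases le_total a x with h1 | h1
  · have h2 : q ∣ x - a := (Nat.modEq_iff_dvd' h1).1 h.symm
    rw [Nat.sub_eq_zero_of_le h1, zero_add]
    exact Nat.mod_eq_zero_of_dvd h2
  · have h2 : q ∣ a - x := (Nat.modEq_iff_dvd' h1).1 h
    rw [Nat.sub_eq_zero_of_le h1, add_zero]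
    exact Nat.mod_eq_zero_of_dvd h2

private theorem sub31 {q a x : ℕ} (hxa : x ≤ a) (h : x ≡ a [MOD q]) : (a - x) % q = 0 :=
  Nat.mod_eq_zero_of_dvd ((Nat.modEq_iff_dvd' hxa).1 h)

private theorem neg31 {q a x : ℕ} (hq : 0 < q) (h : x ≡ (q - 1) * a [MOD q]) :
    (x + a) % q = 0 := by
  have h1 : x + a ≡ (q - 1) * a + a [MOD q] := Nat.ModEq.add_right _ h
  have h2 : (q - 1) * a + a = q * a := by
    obtain ⟨j, rfl⟩ : ∃ j, q = j + 1 := ⟨q - 1, by omega⟩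
    rw [Nat.add_sub_cancel]
    ring
  rw [h2] at h1
  have h3 : x + a ≡ 0 [MOD q] := h1.trans ((Nat.modEq_zero_iff_dvd).2 (dvd_mul_right _ _))
  exact h3

private theorem zero31 {q x : ℕ} (h : x ≡ 0 [MOD q]) : x % q = 0 := h

private theorem le4_31 {a b c d : ℕ} (hd : 0 < d) : a * b * c ≤ a * b * c * d :=
  Nat.le_mul_of_pos_right _ hd

section parts31

variable {q1 q2 q3 q4 q6 q7 : ℕ}

private theorem pos31 (hq : Mod6 q1 q2 q3 q4 q6 q7) :
    0 < q1 ∧ 0 < q2 ∧ 0 < q3 ∧ 0 < q4 ∧ 0 < q6 ∧ 0 < q7 := by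
  have h1 := hq.g1
  have h2 := hq.g2
  have h3 := hq.g3
  have h4 := hq.g4
  have h6 := hq.g6
  have h7 := hq.g7
  have : 0 < q1 * q2 * q3 * q4 := by positivity
  exact ⟨by omega, by omega, by omega, by omega, by omega, by omega⟩

private theorem part1_31 (hq : Mod6 q1 q2 q3 q4 q6 q7) {n P s : ℕ}
    (hs : 72 * n < 100 * s) (hs' : s + P ≤ n) : P / (100 * (q3 * q6 * q7)) ≤
      ((Bee P q7).filter fun b => b + s ∈ FXr n q3 q4 ∪ FXe n P q6).card := by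
  obtain ⟨-, -, z3, -, z6, z7⟩ := pos31 hq
  rcases le_or_gt (9 * n / 10) (s + 13 * P / 100) with hT | hT
  · -- above `9n/10`
    have hk : P / (100 * (q3 * q6 * q7)) * (q6 * q7) ≤ P / 100 := by
      refine kk31 ?_
      rw [mul_assoc]
      exact Nat.le_mul_of_pos_left _ z3
    refine cnt2_31 z6 z7 hq.c67 (n - s) 0 (13 * P / 100) (20 * P / 100) _ (by omega) _
      fun b hb1 hb2 k1 k2 => ?_
    have k2' : b % q7 = 0 := zero31 k2
    have k1' := sub31 (by omega) k1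
    clear k1 k2 hk
    rw [mem_filter]
    refine ⟨?_, mem_union_right _ ?_⟩
    · rw [Bee, mem_filter, mem_Icc]
      exact ⟨⟨by omega, by omega⟩, k2'⟩
    · rw [FXe, mem_filter, mem_Icc]
      refine ⟨⟨by omega, by omega⟩, by omega, ?_⟩
      have : n - (b + s) = n - s - b := by omega
      rw [this]; exact k1'
  · have hk : P / (100 * (q3 * q6 * q7)) * (q3 * q7) ≤ P / 100 := by
      refine kk31 ?_
      have : q3 * q6 * q7 = q3 * q7 * q6 := by ring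
      rw [this]
      exact Nat.le_mul_of_pos_right _ z6
    refine cnt2_31 z3 z7 hq.c37 ((q3 - 1) * s) 0 (7 * P / 100) (13 * P / 100) _ (by omega) _
      fun b hb1 hb2 k1 k2 => ?_
    have k2' : b % q7 = 0 := zero31 k2
    have k1' := neg31 z3 k1
    clear k1 k2 hk
    rw [mem_filter]
    refine ⟨?_, mem_union_left _ ?_⟩
    · rw [Bee, mem_filter, mem_Icc]
      exact ⟨⟨by omega, by omega⟩, k2'⟩
    · rw [FXr, mem_filter, mem_Icc]
      exact ⟨⟨by omega, by omega⟩, Or.inr (by omega), Or.inl k1'⟩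

private theorem part2_31 (hq : Mod6 q1 q2 q3 q4 q6 q7) {n P : ℕ} (hP : 1 ≤ P) (hn : 1000 * P ≤ n)
    {b : ℕ} (hb : 5 * b ≤ P) : n / (100 * (q1 * q2 * q3 * q4)) ≤
      ((FXr n q3 q4).filter fun x => ad b x ∈ FSr n q1 q2).card := by
  obtain ⟨z1, z2, z3, z4, -, -⟩ := pos31 hq
  have hk : n / (100 * (q1 * q2 * q3 * q4)) * (q1 * q3) ≤ n / 100 := by
    refine kk31 ?_
    have : q1 * q2 * q3 * q4 = q1 * q3 * (q2 * q4) := by ring
    rw [this]
    exact Nat.le_mul_of_pos_right _ (Nat.mul_pos z2 z4)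
  refine cnt2_31 z1 z3 hq.c13 b 0 (12 * n / 100) (38 * n / 100) _ (by omega) _
    fun x hx1 hx2 k1 k2 => ?_
  have k2' : x % q3 = 0 := zero31 k2
  have k1' := ad31 k1
  clear k1 k2 hk
  rw [mem_filter, FXr, FSr, mem_filter, mem_filter, mem_Icc, mem_Icc]
  refine ⟨⟨⟨by omega, by omega⟩, Or.inl (by omega), Or.inl k2'⟩, ⟨?_, ?_⟩, Or.inl k1'⟩
  · unfold ad; omega
  · unfold ad; omega

private theorem part3_31 (hq : Mod6 q1 q2 q3 q4 q6 q7) {n : ℕ} (hn : 1000 ≤ n)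
    {a a' : ℕ} (ha : a ≤ n) (ha1 : 45 * n ≤ 100 * a') (ha2 : 100 * a' ≤ 55 * n) :
    n / (100 * (q1 * q2 * q3 * q4)) ≤
      ((FXr n q3 q4).filter fun x => ad a x ∈ FSr n q1 q2 ∧ ad a' x ∈ FSr n q1 q2).card := by
  obtain ⟨z1, z2, z3, z4, -, -⟩ := pos31 hq
  have hk : n / (100 * (q1 * q2 * q3 * q4)) * (q1 * q2 * q3) ≤ n / 100 := kk31 (le4_31 z4)
  obtain ⟨A, B, hAB, hr, hA1, hA2, hB1, hB2⟩ : ∃ A B : ℕ, A + n / 100 ≤ B ∧
      ((n / 10 ≤ A ∧ 100 * B ≤ 45 * n) ∨ (55 * n ≤ 100 * (A + 1) ∧ B ≤ 9 * n / 10)) ∧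
      ((a + 11 * n / 100 ≤ A ∧ B ≤ a + 39 * n / 100) ∨
        (B + 11 * n / 100 + 1 ≤ a ∧ a ≤ A + 1 + 39 * n / 100)) ∧ True ∧
      ((a' + 11 * n / 100 ≤ A ∧ B ≤ a' + 39 * n / 100) ∨
        (B + 11 * n / 100 + 1 ≤ a' ∧ a' ≤ A + 1 + 39 * n / 100)) ∧ True := by
    rcases le_total a a' with h | h
    · rcases le_or_gt (100 * a + 25 * n) (100 * a') with h1 | h1
      · refine ⟨min (a' - 11 * n / 100 - 1) (a + 39 * n / 100) - 2 * n / 100,
          min (a' - 11 * n / 100 - 1) (a + 39 * n / 100), ?_, Or.inl ⟨?_, ?_⟩, Or.inl ⟨?_, ?_⟩,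
          trivial, Or.inr ⟨?_, ?_⟩, trivial⟩ <;> omega
      · refine ⟨a' + 11 * n / 100, a' + 11 * n / 100 + n / 100, ?_, Or.inr ⟨?_, ?_⟩, Or.inl ⟨?_, ?_⟩,
          trivial, Or.inl ⟨?_, ?_⟩, trivial⟩ <;> omega
    · rcases le_or_gt (100 * a' + 25 * n) (100 * a) with h1 | h1
      · refine ⟨max (a' + 11 * n / 100) (a - 39 * n / 100),
          max (a' + 11 * n / 100) (a - 39 * n / 100) + n / 100, ?_, Or.inr ⟨?_, ?_⟩, Or.inr ⟨?_, ?_⟩,
          trivial, Or.inl ⟨?_, ?_⟩, trivial⟩ <;> omega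
      · refine ⟨a' - 11 * n / 100 - 1 - n / 100, a' - 11 * n / 100 - 1, ?_, Or.inl ⟨?_, ?_⟩,
          Or.inr ⟨?_, ?_⟩, trivial, Or.inr ⟨?_, ?_⟩, trivial⟩ <;> omega
  refine cnt3_31 z1 z2 z3 hq.c12 hq.c13 hq.c23 a a' 0 A B _ (by omega) _
    fun x hx1 hx2 k1 k2 k3 => ?_
  have k1' := ad31 k1
  have k2' := ad31 k2
  have k3' : x % q3 = 0 := zero31 k3
  clear k1 k2 k3 hk hAB
  simp only [FXr, FSr, mem_filter, mem_Icc]
  refine ⟨⟨⟨by omega, by omega⟩, by omega, Or.inl k3'⟩, ⟨⟨?_, ?_⟩, Or.inl k1'⟩, ⟨?_, ?_⟩, Or.inr k2'⟩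
  · unfold ad; omega
  · unfold ad; omega
  · unfold ad; omega
  · unfold ad; omega

private theorem part4_31 (hq : Mod6 q1 q2 q3 q4 q6 q7) {n : ℕ} (hn : 1000 ≤ n)
    {s a' : ℕ} (hs : 100 * s ≤ 72 * n) (ha1 : 499 * n ≤ 1000 * a') (ha2 : 1000 * a' ≤ 501 * n) :
    n / (100 * (q1 * q2 * q3 * q4)) ≤
      ((FXr n q3 q4).filter fun x => ad a' x ∈ FSr n q1 q2 ∧ x + s ∈ FXr n q3 q4).card := by
  obtain ⟨z1, z2, z3, z4, -, -⟩ := pos31 hq
  have hk : n / (100 * (q1 * q2 * q3 * q4)) * (q1 * q3 * q4) ≤ n / 100 := by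
    refine kk31 ?_
    have : q1 * q2 * q3 * q4 = q1 * q3 * q4 * q2 := by ring
    rw [this]
    exact le4_31 z2
  obtain ⟨A, B, hAB, hA, hB, hr⟩ : ∃ A B : ℕ, A + n / 100 ≤ B ∧ 12 * n / 100 ≤ A ∧
      B ≤ 38 * n / 100 ∧
      (100 * (B + s) ≤ 45 * n ∨ (55 * n ≤ 100 * (A + 1 + s) ∧ B + s ≤ 9 * n / 10)) := by
    rcases le_or_gt (100 * s) (20 * n) with h1 | h1
    · exact ⟨12 * n / 100, 24 * n / 100, by omega, by omega, by omega, Or.inl (by omega)⟩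
    · refine ⟨max (12 * n / 100) (55 * n / 100 - s), max (12 * n / 100) (55 * n / 100 - s) + n / 100, ?_, ?_, ?_,
        Or.inr ⟨?_, ?_⟩⟩ <;> omega
  refine cnt3_31 z1 z3 z4 hq.c13 hq.c14 hq.c34 a' 0 ((q4 - 1) * s) A B _ (by omega) _
    fun x hx1 hx2 k1 k2 k3 => ?_
  have k1' := ad31 k1
  have k2' : x % q3 = 0 := zero31 k2
  have k3' := neg31 z4 k3
  clear k1 k2 k3 hk hAB
  simp only [FXr, FSr, mem_filter, mem_Icc]
  refine ⟨⟨⟨by omega, by omega⟩, by omega, Or.inl k2'⟩, ⟨⟨?_, ?_⟩, Or.inl k1'⟩,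
    ⟨by omega, by omega⟩, by omega, Or.inr k3'⟩
  · unfold ad; omega
  · unfold ad; omega

private theorem two31 {q q' A B : ℕ} (G : Finset ℕ)
    (hG : ∀ x ∈ G, A + 1 ≤ x ∧ x ≤ B ∧ (x % q = 0 ∨ x % q' = 0)) : G.card ≤ B / q + B / q' := by
  classical
  have h1 : G ⊆ ((Icc (A + 1) B).filter fun x => x % q = 0) ∪
      ((Icc (A + 1) B).filter fun x => x % q' = 0) := by
    intro x hx
    obtain ⟨a1, a2, a3⟩ := hG x hx
    rw [mem_union, mem_filter, mem_filter, mem_Icc]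
    rcases a3 with a3 | a3
    · exact Or.inl ⟨⟨a1, a2⟩, a3⟩
    · exact Or.inr ⟨⟨a1, a2⟩, a3⟩
  refine (card_le_card h1).trans ((card_union_le _ _).trans ?_)
  exact Nat.add_le_add ((mult31 A B).trans (Nat.sub_le _ _)) ((mult31 A B).trans (Nat.sub_le _ _))

private theorem part5_31 (hq : Mod6 q1 q2 q3 q4 q6 q7) {n P : ℕ} (hP : 1 ≤ P)
    (hn : 1000 * P ≤ n) :
    ((FXr n q3 q4).card ≤ n / q3 + n / q4 ∧ (FSr n q1 q2).card ≤ n / q1 + n / q2 ∧
      (FXe n P q6).card ≤ n / q6 + 1 ∧ (Bee P q7).card ≤ P / q7 + 1 ∧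
      n / (100 * (q1 * q2 * q3 * q4)) ≤ (FXr n q3 q4).card ∧
      n / (100 * (q1 * q2 * q3 * q4)) ≤ 2 * (FSr n q1 q2).card) := by
  obtain ⟨z1, z2, z3, z4, z6, z7⟩ := pos31 hq
  refine ⟨?_, ?_, ?_, ?_, ?_, ?_⟩
  · have h1 : (FXr n q3 q4).card ≤ 9 * n / 10 / q3 + 9 * n / 10 / q4 := by
      refine two31 (A := n / 10) _ fun x hx => ?_
      rw [FXr, mem_filter, mem_Icc] at hx
      exact ⟨hx.1.1, hx.1.2, hx.2.2⟩
    refine h1.trans (Nat.add_le_add (Nat.div_le_div_right (by omega)) (Nat.div_le_div_right (by omega)))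
  · have h1 : (FSr n q1 q2).card ≤ 39 * n / 100 / q1 + 39 * n / 100 / q2 := by
      refine two31 (A := 11 * n / 100) _ fun x hx => ?_
      rw [FSr, mem_filter, mem_Icc] at hx
      exact ⟨hx.1.1, hx.1.2, hx.2⟩
    refine h1.trans (Nat.add_le_add (Nat.div_le_div_right (by omega)) (Nat.div_le_div_right (by omega)))
  · classical
    have hinj : Set.InjOn (fun x : ℕ => (n - x) / q6) (FXe n P q6 : Finset ℕ) := by
      intro x hx y hy hxy
      rw [mem_coe, FXe, mem_filter, mem_Icc] at hx hy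
      have h1 := Nat.div_add_mod (n - x) q6
      have h2 := Nat.div_add_mod (n - y) q6
      have h3 : (n - x) / q6 = (n - y) / q6 := hxy
      rw [hx.2.2, h3] at h1
      rw [hy.2.2] at h2
      omega
    rw [← card_image_of_injOn hinj, ← card_range (n / q6 + 1)]
    refine card_le_card fun t ht => ?_
    obtain ⟨x, hx, rfl⟩ := mem_image.1 ht
    rw [mem_range]
    exact Nat.lt_succ_of_le (Nat.div_le_div_right (Nat.sub_le _ _))
  · refine (mult31 (q := q7) (7 * P / 100) (20 * P / 100)).trans ?_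
    have h1 : 20 * P / 100 / q7 ≤ P / q7 := Nat.div_le_div_right (by omega)
    exact (Nat.sub_le _ _).trans (h1.trans (Nat.le_succ _))
  · refine (part2_31 hq hP hn (b := 0) (by omega)).trans (card_le_card (filter_subset _ _))
  · have hk : n / (100 * (q1 * q2 * q3 * q4)) * q1 ≤ n / 100 := by
      refine kk31 ?_
      have : q1 * q2 * q3 * q4 = q1 * (q2 * q3 * q4) := by ring
      rw [this]
      exact Nat.le_mul_of_pos_right _ (Nat.mul_pos (Nat.mul_pos z2 z3) z4)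
    have h1 := low31 z1 0 (11 * n / 100) (39 * n / 100) (n / (100 * (q1 * q2 * q3 * q4))) (by omega)
    have h2 : ((Ioc (11 * n / 100) (39 * n / 100)).filter fun x => x ≡ 0 [MOD q1]) ⊆ FSr n q1 q2 := by
      intro x hx
      obtain ⟨hx1, hx2⟩ := mem_filter.1 hx
      rw [mem_Ioc] at hx1
      rw [FSr, mem_filter, mem_Icc]
      exact ⟨⟨hx1.1, hx1.2⟩, Or.inl hx2⟩
    have h3 := card_le_card h2
    omega

end parts31

theorem mod6_exists (Q0 : ℕ) : ∃ q1 q2 q3 q4 q6 q7 : ℕ, Mod6 q1 q2 q3 q4 q6 q7 ∧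
    Q0 ≤ q1 ∧ Q0 ≤ q2 ∧ Q0 ≤ q3 ∧ Q0 ≤ q4 := by
  obtain ⟨q1, g1, r1⟩ := Nat.exists_infinite_primes (100 + Q0)
  obtain ⟨q2, g2, r2⟩ := Nat.exists_infinite_primes (q1 + 1)
  obtain ⟨q3, g3, r3⟩ := Nat.exists_infinite_primes (q2 + 1)
  obtain ⟨q4, g4, r4⟩ := Nat.exists_infinite_primes (q3 + 1)
  obtain ⟨q6, g6, r6⟩ := Nat.exists_infinite_primes (10 ^ 6 * (q1 * q2 * q3 * q4) + q4 + 1)
  obtain ⟨q7, g7, r7⟩ := Nat.exists_infinite_primes (q6 + 1)
  refine ⟨q1, q2, q3, q4, q6, q7, ⟨by omega, by omega, by omega, by omega, by omega, by omega,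
    (Nat.coprime_primes r1 r2).2 (by omega), (Nat.coprime_primes r1 r3).2 (by omega),
    (Nat.coprime_primes r1 r4).2 (by omega), (Nat.coprime_primes r2 r3).2 (by omega),
    (Nat.coprime_primes r2 r4).2 (by omega), (Nat.coprime_primes r3 r4).2 (by omega),
    (Nat.coprime_primes r3 r7).2 (by omega), (Nat.coprime_primes r6 r7).2 (by omega)⟩,
    by omega, by omega, by omega, by omega⟩

theorem stf_sets (q1 q2 q3 q4 q6 q7 : ℕ) (hq : Mod6 q1 q2 q3 q4 q6 q7) : ∃ P0 : ℕ, ∀ n P : ℕ, P0 ≤ P →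
    1000 * P ≤ n →
    (∀ s, 72 * n < 100 * s → s + P ≤ n → P / (100 * (q3 * q6 * q7)) ≤
      ((Bee P q7).filter fun b => b + s ∈ FXr n q3 q4 ∪ FXe n P q6).card) ∧
    (∀ b ∈ Bee P q7, n / (100 * (q1 * q2 * q3 * q4)) ≤
      ((FXr n q3 q4).filter fun x => ad b x ∈ FSr n q1 q2).card) ∧
    (∀ a a', a ≤ n → 45 * n ≤ 100 * a' → 100 * a' ≤ 55 * n → n / (100 * (q1 * q2 * q3 * q4)) ≤
      ((FXr n q3 q4).filter fun x => ad a x ∈ FSr n q1 q2 ∧ ad a' x ∈ FSr n q1 q2).card) ∧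
    (∀ s a', 100 * s ≤ 72 * n → 499 * n ≤ 1000 * a' → 1000 * a' ≤ 501 * n → n / (100 * (q1 * q2 * q3 * q4)) ≤
      ((FXr n q3 q4).filter fun x => ad a' x ∈ FSr n q1 q2 ∧ x + s ∈ FXr n q3 q4).card) ∧
    ((FXr n q3 q4).card ≤ n / q3 + n / q4 ∧ (FSr n q1 q2).card ≤ n / q1 + n / q2 ∧
      (FXe n P q6).card ≤ n / q6 + 1 ∧ (Bee P q7).card ≤ P / q7 + 1 ∧
      n / (100 * (q1 * q2 * q3 * q4)) ≤ (FXr n q3 q4).card ∧
      n / (100 * (q1 * q2 * q3 * q4)) ≤ 2 * (FSr n q1 q2).card) := by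
  refine ⟨1, fun n P hP hn => ⟨?_, ?_, ?_, ?_, part5_31 hq hP hn⟩⟩
  · intro s h1 h2
    exact part1_31 hq h1 h2
  · intro b hb
    rw [Bee, mem_filter, mem_Icc] at hb
    exact part2_31 hq hP hn (by omega)
  · intro a a' h1 h2 h3
    exact part3_31 hq (by omega) h1 h2 h3
  · intro s a' h1 h2 h3
    exact part4_31 hq (by omega) h1 h2 h3

end Pool.Agent.GRC
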