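import Pool.Agent.Helper28.GRC.FIN0
import Pool.Agent.Helper28.GRC.FIN1
import Pool.Agent.Helper28.GRC.DS
import Pool.Agent.Helper28.GRC.STF

/-!
# GRC-FIN: the main theorem in parent form
-/

set_option autoImplicit false

namespace Pool.Agent.GRC

open Finset Pool.Agent.SEM

theorem fin_floor {x : ℝ} (hx : 0 ≤ x) : ((⌊x⌋₊ : ℕ) : ℝ) ≤ x ∧ x < (⌊x⌋₊ : ℕ) + 1 :=
  ⟨Nat.floor_le hx, Nat.lt_floor_add_one x⟩

theorem XXg_card (n : ℕ) (lab β : ℕ → ℕ) (R Ve FX FXE YX L : Finset ℕ) {u : ℕ}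
    (hu : (FX ∪ FXE ∪ YX ∪ Ve.image β ∪ L).card ≤ u) :
    n + 1 ≤ (XXg n lab β R Ve FX FXE YX L).card + (R.card + u) := by
  unfold XXg
  have h1 := card_le_card_sdiff_add_card (s := range (n + 1))
    (t := R.image lab ∪ FX ∪ FXE ∪ YX ∪ Ve.image β ∪ L)
  rw [card_range] at h1
  have h2 : (R.image lab ∪ FX ∪ FXE ∪ YX ∪ Ve.image β ∪ L).card ≤ R.card + u := by
    have h3 : R.image lab ∪ FX ∪ FXE ∪ YX ∪ Ve.image β ∪ L ⊆
        R.image lab ∪ (FX ∪ FXE ∪ YX ∪ Ve.image β ∪ L) := by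
      intro x hx
      simp only [mem_union] at hx ⊢
      tauto
    refine (card_le_card h3).trans ((card_union_le _ _).trans ?_)
    have := card_image_le (s := R) (f := lab)
    omega
  omega

theorem fin_union5 (A B C D E : Finset ℕ) {a b c d : ℕ} (hA : A.card ≤ a) (hB : B.card ≤ b)
    (hD : D.card ≤ d) (hCE : (C ∪ E).card ≤ c) : (A ∪ B ∪ C ∪ D ∪ E).card ≤ a + b + d + c := by
  have h : A ∪ B ∪ C ∪ D ∪ E ⊆ ((A ∪ B) ∪ D) ∪ (C ∪ E) := by
    intro x hx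
    simp only [mem_union] at hx ⊢
    tauto
  refine (card_le_card h).trans ((card_union_le _ _).trans ?_)
  have h1 := card_union_le (A ∪ B) D
  have h2 := card_union_le A B
  omega

theorem fin_union4 (A C D E : Finset ℕ) {a c d : ℕ} (hA : A.card ≤ a)
    (hD : D.card ≤ d) (hCE : (C ∪ E).card ≤ c) : (A ∪ C ∪ D ∪ E).card ≤ a + d + c := by
  have h : A ∪ C ∪ D ∪ E ⊆ (A ∪ D) ∪ (C ∪ E) := by
    intro x hx
    simp only [mem_union] at hx ⊢
    tauto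
  refine (card_le_card h).trans ((card_union_le _ _).trans ?_)
  have h1 := card_union_le A D
  omega

open Classical in
theorem grc_main (D g : ℕ) (hD5 : 10 ^ 5 ≤ D) (ε : ℝ) (hε : 0 < ε) (hε1 : ε ≤ 1) :
    ∃ η : ℝ, 0 < η ∧ ∀ Λ : ℕ, ∃ δ : ℝ, 0 < δ ∧ ∃ m0 : ℕ, ∀ (m : ℕ) (p ea eb : ℕ → ℕ) (w0 c0 : ℕ), m0 ≤ m →
      PForm m g D p ea eb w0 c0 → (∀ v, v < m → ((chl m p v).card : ℝ) ≤ δ * m) →
      ((∑ v ∈ (range m).filter (fun v => Λ < (chl m p v).card), (chl m p v).card : ℕ) : ℝ) ≤ η * m →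
      ε * m ≤ (((range m).filter fun v => Pend m p v ∧ p v ∉ Fset m g p ea eb w0 c0).card : ℝ) →
      ε * m ≤ (((range m).filter fun c => StarD m p D c).card : ℝ) →
      IsGrG m g p ea eb := by
  obtain ⟨c1, hc1, hpack⟩ := packG
  obtain ⟨G2, σ, μ, t, ρ, ν, ω, lam, c⟩ := cst_exists D g hD5 ε c1 hc1 hε hε1
  refine ⟨t / 8, div_pos c.t0 (by norm_num), fun Λ => ?_⟩
  have hρ0 := c.ρ0
  have hl0 := c.l0
  have hΛ0 : (0 : ℝ) ≤ Λ := Nat.cast_nonneg Λ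
  -- size of the pieces
  obtain ⟨K, hK⟩ : ∃ K : ℕ, K = ⌈100 * ((Λ : ℝ) + 1) / ρ⌉₊ + D + 2 := ⟨_, rfl⟩
  have hKρ : 100 * ((Λ : ℝ) + 1) ≤ ρ * K := by
    have h1 := Nat.le_ceil (100 * ((Λ : ℝ) + 1) / ρ)
    have h2 : 100 * ((Λ : ℝ) + 1) / ρ ≤ K := by
      rw [hK]; push_cast; linarith [c.D5]
    rw [div_le_iff₀ hρ0] at h2
    linarith
  have hKD : D + 2 ≤ K := by omega
  have hK0 : (0 : ℝ) < K := by
    have : 0 < K := by omega
    exact_mod_cast this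
  -- moduli
  obtain ⟨q1, q2, q3, q4, q6, q7, hq, hq1, hq2, hq3, hq4⟩ := mod6_exists ⌈10 / lam⌉₊
  obtain ⟨P0, hst⟩ := stf_sets q1 q2 q3 q4 q6 q7 hq
  obtain ⟨Q, hQ⟩ : ∃ Q : ℕ, Q = 100 * (q1 * q2 * q3 * q4) := ⟨_, rfl⟩
  obtain ⟨Qe, hQe⟩ : ∃ Qe : ℕ, Qe = 100 * (q3 * q6 * q7) := ⟨_, rfl⟩
  have g1 := hq.g1
  have g2 := hq.g2
  have g3 := hq.g3
  have g4 := hq.g4
  have g6 := hq.g6
  have g7 := hq.g7
  have hqp : 0 < q1 * q2 * q3 * q4 := by positivity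
  have hQ1 : 1 ≤ Q := by omega
  have hQr : (1 : ℝ) ≤ Q := by exact_mod_cast hQ1
  have hQe1 : 1 ≤ Qe := by
    rw [hQe]
    have h3 : 0 < q3 * q6 * q7 := by
      have : 0 < q6 := by omega
      have : 0 < q7 := by omega
      positivity
    omega
  have hQer : (1 : ℝ) ≤ Qe := by exact_mod_cast hQe1
  have hQq6 : 10 ^ 4 * Q ≤ q6 := by omega
  have hQq7 : 10 ^ 4 * Q ≤ q7 := by omega
  have hlq : ∀ q : ℕ, ⌈10 / lam⌉₊ ≤ q → 10 ≤ lam * q := by
    intro q hq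
    have h1 := Nat.le_ceil (10 / lam)
    have h2 : ((⌈10 / lam⌉₊ : ℕ) : ℝ) ≤ q := by exact_mod_cast hq
    have h3 : 10 / lam ≤ q := h1.trans h2
    rw [div_le_iff₀ hl0] at h3
    linarith only [h3]
  have hq1Q : q1 ≤ Q := by
    rw [hQ]
    have h0 : 0 < q2 * q3 * q4 := by positivity
    have h1 : q1 * 1 ≤ q1 * (q2 * q3 * q4) := Nat.mul_le_mul_left _ h0
    have h2 : q1 * (q2 * q3 * q4) = q1 * q2 * q3 * q4 := by ring
    omega
  have hlQ : 10 ≤ lam * Q := hlq Q (hq1.trans hq1Q)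
  have hlq6 : 10 ≤ lam * q6 := hlq q6 (by omega)
  have hlq7 : 10 ≤ lam * q7 := hlq q7 (by omega)
  -- packing
  obtain ⟨ε1, hε1d⟩ : ∃ ε1 : ℝ, ε1 = μ / (10 ^ 4 * Qe * Q) := ⟨_, rfl⟩
  have hμ0 := c.μ0
  have hε10 : 0 < ε1 := by rw [hε1d]; positivity
  have hε1e : ε1 * Qe * Q * 10 ^ 4 = μ := by rw [hε1d]; field_simp
  have hω1 : ω ≤ 1 := by linarith only [c.ω1]
  obtain ⟨δp, hδp, np, hpk⟩ := hpack K ω ε1 (by omega) c.ω0 hω1 hε10
  obtain ⟨δ, hδ0, hδ1, hδ2⟩ : ∃ δ : ℝ, 0 < δ ∧ 2 * δ ≤ δp ∧ δ * (10 ^ 10 * ((Λ : ℝ) + 1)) ≤ lam := by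
    refine ⟨min (δp / 2) (lam / (10 ^ 10 * ((Λ : ℝ) + 1))), by positivity, ?_, ?_⟩
    · have := min_le_left (δp / 2) (lam / (10 ^ 10 * ((Λ : ℝ) + 1)))
      linarith only [this]
    · have := min_le_right (δp / 2) (lam / (10 ^ 10 * ((Λ : ℝ) + 1)))
      rw [le_div_iff₀ (by positivity)] at this
      linarith only [this]
  have hg0 : (0 : ℝ) ≤ g := Nat.cast_nonneg g
  obtain ⟨C, hC⟩ : ∃ C : ℝ, C = (Λ + 1) * ((g : ℝ) + 1) ^ 2 + K + D + P0 + ((g : ℝ) + 1) * Q + Qe := ⟨_, rfl⟩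
  refine ⟨δ, hδ0, ⌈2 * (10 ^ 12 * C) / lam⌉₊ + 2 + np + g, ?_⟩
  intro m p ea eb w0 c0 hm hF hchl htail hpend hstar
  have hp := hF.par
  obtain ⟨n, hn⟩ : ∃ n : ℕ, n + 1 = m + g := ⟨m + g - 1, by omega⟩
  have hnr : (n : ℝ) + 1 = m + g := by exact_mod_cast hn
  have hn0 : (0 : ℝ) ≤ n := Nat.cast_nonneg n
  have hm0 : (0 : ℝ) ≤ m := Nat.cast_nonneg m
  have hm2n : (m : ℝ) ≤ 2 * n := by
    have : m ≤ 2 * n := by omega
    exact_mod_cast this
  have hn2m : (n : ℝ) ≤ 2 * m := by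
    have : n ≤ 2 * m := by omega
    exact_mod_cast this
  have hCn : 10 ^ 12 * C ≤ lam * n := by
    obtain ⟨z, hz⟩ : ∃ z : ℕ, z = ⌈2 * (10 ^ 12 * C) / lam⌉₊ := ⟨_, rfl⟩
    have hz1 := Nat.le_ceil (2 * (10 ^ 12 * C) / lam)
    rw [← hz] at hz1 hm
    have h1 : (z : ℝ) ≤ m := by
      have : z ≤ m := by omega
      exact_mod_cast this
    have h2 := hz1.trans h1
    rw [div_le_iff₀ hl0] at h2
    have h3 : m * lam ≤ (2 * n) * lam := mul_le_mul_of_nonneg_right hm2n hl0.le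
    linarith only [h2, h3]
  have l := c.lin hn0
  -- parts of `C`
  have hK00 : (0 : ℝ) ≤ K := hK0.le
  have hD0 : (0 : ℝ) < D := by linarith only [c.D5]
  have hP00 : (0 : ℝ) ≤ P0 := Nat.cast_nonneg P0
  have hΛg : 0 ≤ ((Λ : ℝ) + 1) * ((g : ℝ) + 1) ^ 2 := by positivity
  have hgQ : 0 ≤ ((g : ℝ) + 1) * Q := by positivity
  have cK : 10 ^ 12 * (K : ℝ) ≤ lam * n := by linarith only [hCn, hC, hK00, hD0, hP00, hΛg, hgQ, hQer]
  have cD : 10 ^ 12 * (D : ℝ) ≤ lam * n := by linarith only [hCn, hC, hK00, hD0, hP00, hΛg, hgQ, hQer]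
  have cP0 : 10 ^ 12 * (P0 : ℝ) ≤ lam * n := by linarith only [hCn, hC, hK00, hD0, hP00, hΛg, hgQ, hQer]
  have cgQ : 10 ^ 12 * (((g : ℝ) + 1) * Q) ≤ lam * n := by linarith only [hCn, hC, hK00, hD0, hP00, hΛg, hgQ, hQer]
  have cQe : 10 ^ 12 * (Qe : ℝ) ≤ lam * n := by linarith only [hCn, hC, hK00, hD0, hP00, hΛg, hgQ, hQer]
  have cΛg : 10 ^ 12 * (((Λ : ℝ) + 1) * ((g : ℝ) + 1) ^ 2) ≤ lam * n := by linarith only [hCn, hC, hK00, hD0, hP00, hΛg, hgQ, hQer]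
  have hg1 : (1 : ℝ) ≤ ((g : ℝ) + 1) ^ 2 := by nlinarith only [hg0]
  have cΛ : 10 ^ 12 * ((Λ : ℝ) + 1) ≤ lam * n := by
    have : ((Λ : ℝ) + 1) * 1 ≤ ((Λ : ℝ) + 1) * ((g : ℝ) + 1) ^ 2 :=
      mul_le_mul_of_nonneg_left hg1 (by linarith only [hΛ0])
    linarith only [this, cΛg]
  have cg2 : 10 ^ 12 * (((g : ℝ) + 1) ^ 2) ≤ lam * n := by
    have : 1 * ((g : ℝ) + 1) ^ 2 ≤ ((Λ : ℝ) + 1) * ((g : ℝ) + 1) ^ 2 :=
      mul_le_mul_of_nonneg_right (by linarith only [hΛ0]) (by linarith only [hg1])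
    linarith only [this, cΛg]
  have cg : 10 ^ 12 * ((g : ℝ) + 1) ≤ lam * n := by
    have : (g : ℝ) + 1 ≤ ((g : ℝ) + 1) ^ 2 := by nlinarith only [hg0]
    linarith only [this, cg2]
  have cΛgg : 10 ^ 12 * (((Λ : ℝ) + 1) * ((g : ℝ) + 1)) ≤ lam * n := by
    have h1 : (g : ℝ) + 1 ≤ ((g : ℝ) + 1) ^ 2 := by nlinarith only [hg0]
    have : ((Λ : ℝ) + 1) * ((g : ℝ) + 1) ≤ ((Λ : ℝ) + 1) * ((g : ℝ) + 1) ^ 2 :=
      mul_le_mul_of_nonneg_left h1 (by linarith only [hΛ0])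
    linarith only [this, cΛg]
  have cQ : 10 ^ 12 * (Q : ℝ) ≤ lam * n := by
    have : 1 * (Q : ℝ) ≤ ((g : ℝ) + 1) * Q := mul_le_mul_of_nonneg_right (by linarith only [hg0]) (by linarith only [hQr])
    linarith only [this, cgQ]
  have c1' : 10 ^ 12 ≤ lam * n := by linarith only [cΛ, hΛ0]
  have l1 := l.lν
  have l2 := l.lt
  have l3 := l.lμ
  have l4 := l.lω
  have l5 := l.νρ
  have l6 := l.ρt
  have l7 := l.tσ
  have l8 := l.μσ
  have l9 := l.σε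
  have l10 := l.εN
  have l11 := l.lN
  have l12 := l.μN
  have l13 := l.ωN
  have l14 := l.νε
  -- P and the deterministic scheme
  obtain ⟨B, hB2, hBe, hP1', hP2'⟩ := exists_B D (by omega) (μ * n) (by linarith only [cD, c1', l3, l11])
  obtain ⟨CLs, CHs, lH, lL, lc, hS⟩ := det_scheme D B (by omega) hB2 hBe
  obtain ⟨M, hM⟩ : ∃ M : ℕ, M = 4 ^ (B + 1) := ⟨_, rfl⟩
  rw [← hM] at hP1' hP2' hS
  obtain ⟨P, hPd⟩ : ∃ P : ℕ, P = M * D + 2 := ⟨_, rfl⟩
  rw [← hPd] at hP1' hP2' hS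
  have hP1 : (P : ℝ) ≤ μ * n := hP1'
  have hP2 : μ * n ≤ 16 * P := hP2'
  have hP6 : 10 ^ 6 ≤ P := by
    have : (10 : ℝ) ^ 6 ≤ P := by linarith only [hP2, l3, c1']
    exact_mod_cast this
  have hPn : 10 ^ 6 * P ≤ n := by
    have : (10 : ℝ) ^ 6 * P ≤ n := by linarith only [hP1, l12, hn0]
    exact_mod_cast this
  have hPP0 : P0 ≤ P := by
    have : (P0 : ℝ) ≤ P := by linarith only [cP0, l3, hP2, l11]
    exact_mod_cast this
  have hMD : (M : ℝ) * D + 2 = P := by rw [hPd]; push_cast; ring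
  have hMν : (M : ℝ) ≤ ν * n / 50 := fin_M c hn0 (by linarith only [hMD, hP1])
  have hNM : (CLs.card : ℝ) + CHs.card + 1 = M := by exact_mod_cast hS.card
  have hN20 : (0 : ℝ) ≤ CLs.card := Nat.cast_nonneg _
  have hN30 : (0 : ℝ) ≤ CHs.card := Nat.cast_nonneg _
  -- the window
  have hω0 := c.ω0
  have ht0 := c.t0
  obtain ⟨w, hw⟩ : ∃ w : ℕ, w = ⌊2 * (ω * n)⌋₊ := ⟨_, rfl⟩
  obtain ⟨hw1, hw2⟩ := fin_floor (x := 2 * (ω * n)) (by positivity)
  rw [← hw] at hw1 hw2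
  have hwω : ω * n ≤ w := by linarith only [hw2, l4, c1']
  have hw0 : 0 < w := by
    have : (0 : ℝ) < w := by linarith only [hwω, l4, c1']
    exact_mod_cast this
  have hwtP : (w : ℝ) ≤ t * P := by
    have h1 : 2 * (ω * n) = t * (μ * n) / 16 := by
      have := c.ωt
      have h2 : ω = t * μ / 32 := by linarith only [this]
      rw [h2]; ring
    have h2 : t * (μ * n) ≤ t * (16 * P) := mul_le_mul_of_nonneg_left hP2 ht0.le
    linarith only [hw1, h1, h2]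
  have hPr0 : (0 : ℝ) < P := by
    have : 0 < P := by omega
    exact_mod_cast this
  have hwP6 : 10 ^ 6 * w ≤ P := by
    have h1 : t * P ≤ 1 / 10 ^ 30 * P := mul_le_mul_of_nonneg_right c.t1 hPr0.le
    have : (10 : ℝ) ^ 6 * w ≤ P := by linarith only [h1, hwtP, hPr0]
    exact_mod_cast this
  have htw : t * ω * n ≤ t * w := by
    have := mul_le_mul_of_nonneg_left hwω ht0.le
    linarith only [this]
  have htw8 : lam * n * 10 ^ 8 ≤ t * w := by linarith only [l2, htw]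
  obtain ⟨cap, hcap⟩ : ∃ cap : ℕ, cap = ⌊t * w / 100⌋₊ := ⟨_, rfl⟩
  obtain ⟨hcap1, hcap2⟩ := fin_floor (x := t * w / 100) (by positivity)
  rw [← hcap] at hcap1 hcap2
  have hcap0 : 0 < cap := by
    have : (0 : ℝ) < cap := by linarith only [hcap2, htw8, c1']
    exact_mod_cast this
  have hcap3 : t * w ≤ 200 * cap := by linarith only [hcap2, htw8, c1']
  have hcapw : (cap : ℝ) ≤ w := by
    have hw00 : (0 : ℝ) ≤ w := Nat.cast_nonneg w
    have h1 : t * w ≤ 1 * w := mul_le_mul_of_nonneg_right (by linarith only [c.t1]) hw00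
    linarith only [hcap1, h1, hw00]
  -- the forced vertices
  obtain ⟨X, hX⟩ : ∃ X : ℕ, X = ⌊δ * m⌋₊ := ⟨_, rfl⟩
  obtain ⟨hX1, -⟩ := fin_floor (x := δ * m) (by positivity)
  rw [← hX] at hX1
  have hX0 : (0 : ℝ) ≤ X := Nat.cast_nonneg X
  have hchlX : ∀ v, v < m → (chl m p v).card ≤ X := by
    intro v hv
    rw [hX]
    exact Nat.le_floor (hchl v hv)
  have hΛX : ((Λ : ℝ) + 1) * X * 10 ^ 10 ≤ 2 * (lam * n) := by
    have h1 : ((Λ : ℝ) + 1) * X ≤ ((Λ : ℝ) + 1) * (δ * m) := mul_le_mul_of_nonneg_left hX1 (by linarith only [hΛ0])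
    have h2 : δ * (10 ^ 10 * ((Λ : ℝ) + 1)) * m ≤ lam * m := mul_le_mul_of_nonneg_right hδ2 hm0
    have h3 : lam * m ≤ lam * (2 * n) := mul_le_mul_of_nonneg_left hm2n hl0.le
    linarith only [h1, h2, h3]
  have hXl : (X : ℝ) * 10 ^ 10 ≤ 2 * (lam * n) := by
    have h1 : 1 * (X : ℝ) ≤ ((Λ : ℝ) + 1) * X := mul_le_mul_of_nonneg_right (by linarith only [hΛ0]) hX0
    linarith only [h1, hΛX]
  have hFs := Fset_sub hF
  have hFc := Fset_card hF hchlX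
  have hFr : ((Fset m g p ea eb w0 c0).card : ℝ) ≤ 3 + 3 * X + 2 * g := by exact_mod_cast hFc
  have hF0 : (0 : ℝ) ≤ (Fset m g p ea eb w0 c0).card := Nat.cast_nonneg _
  have hΛF : ((Λ : ℝ) + 1) * (Fset m g p ea eb w0 c0).card ≤ lam * n / 10 ^ 9 := by
    have h1 : ((Λ : ℝ) + 1) * (Fset m g p ea eb w0 c0).card ≤ ((Λ : ℝ) + 1) * (3 + 3 * X + 2 * g) :=
      mul_le_mul_of_nonneg_left hFr (by linarith only [hΛ0])
    have h2 : 0 ≤ ((Λ : ℝ) + 1) * (g + 1) := by positivity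
    have h3 : ((Λ : ℝ) + 1) * (3 + 3 * X + 2 * g) =
      2 * (((Λ : ℝ) + 1) * (g + 1)) + ((Λ : ℝ) + 1) + 3 * (((Λ : ℝ) + 1) * X) := by ring
    linarith only [h1, h3, hΛX, cΛgg, cΛ, l11]
  obtain ⟨hY1, hY2, hY3⟩ := fin_Y (m := (m : ℝ)) (K := (K : ℝ)) (Lam := (Λ : ℝ))
    (Fc := ((Fset m g p ea eb w0 c0).card : ℝ)) c hn0 hm2n hm0 hΛ0 hK0 hKρ hF0 hΛF (by linarith only [cΛ])
  -- number of special pendant paths
  have hν0 := c.ν0
  obtain ⟨N1, hN1⟩ : ∃ N1 : ℕ, N1 = ⌊ν * m⌋₊ := ⟨_, rfl⟩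
  obtain ⟨hN11, hN12⟩ := fin_floor (x := ν * m) (by positivity)
  rw [← hN1] at hN11 hN12
  have hνm : ν * m ≤ 2 * (ν * n) := by
    have := mul_le_mul_of_nonneg_left hm2n hν0.le
    linarith only [this]
  have hνm' : ν * n ≤ 2 * (ν * m) := by
    have := mul_le_mul_of_nonneg_left hn2m hν0.le
    linarith only [this]
  have hεm : ε * n ≤ 2 * (ε * m) := by
    have := mul_le_mul_of_nonneg_left hn2m hε.le
    linarith only [this]
  have htm : t * m ≤ 2 * (t * n) := by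
    have := mul_le_mul_of_nonneg_left hm2n ht0.le
    linarith only [this]
  have hε2m : ε ^ 2 * n ≤ 2 * (ε ^ 2 * m) := by
    have := mul_le_mul_of_nonneg_left hn2m (by positivity : (0 : ℝ) ≤ ε ^ 2)
    linarith only [this]
  obtain ⟨R, Sp, DL, DH, T, top, hDec, hR, hT, hSp1, hSp2, hDL, hDH⟩ :=
    decompG m p K D Λ N1 CLs.card CHs.card (Fset m g p ea eb w0 c0) ε (t / 8) hp (by omega) (by omega) hKD
      hFs hε hε1 (by positivity) hpend hstar htail (by linarith only [htm, hY2, l6, l7, l9, hεm, l11, l1, l5]) (by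
        have h1 : 1 * ((Fset m g p ea eb w0 c0).card : ℝ) ≤ ((Λ : ℝ) + 1) * (Fset m g p ea eb w0 c0).card :=
          mul_le_mul_of_nonneg_right (by linarith only [hΛ0]) hF0
        linarith only [h1, hΛF, l1, l5, l6, l7, l9, l11, hεm])
      (by push_cast; linarith only [hN11, hνm, cK, l1, l14, hε2m, l11]) (by push_cast; linarith only [hNM, hMν, hN30, cK, l1, l14, hε2m, l11]) (by push_cast; linarith only [hNM, hMν, hN20, cK, l1, l14, hε2m, l11])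
  have hRr : (R.card : ℝ) ≤ 3 / 10 * (ρ * n) := by
    have h1 := fin_R (Y := 4 * (m : ℝ) / K + 4 + 4 * (Fset m g p ea eb w0 c0).card)
      (S := (N1 : ℝ) + CLs.card + CHs.card + 3 * K) c hn0 hY3 (by linarith only [hN11, hνm, hNM, hMν, cK, l1, l11])
    have h2 : 0 ≤ ρ * n := by positivity
    linarith only [hR, h1, h2]
  have hTr : (T.card : ℝ) ≤ t * n / 3 := by
    have h2 : 0 ≤ ρ * n := by positivity
    linarith only [hT, htm, hY2, l6, h2]
  -- labels of the separating vertices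
  have hNr : (n : ℝ) ≤ n := le_rfl
  have hln : lam * n ≤ n := by linarith only [l3, l12, l11, hn0]
  obtain ⟨lab, hLab⟩ := labels_exist (cap := cap) hn hP6 hPn hw0 hwP6 hcap0 (by
      have : (10 : ℝ) ^ 6 * ((g : ℝ) + 1) ≤ n := by linarith only [cg, hln]
      exact_mod_cast this) hF hDec hS hPd (by omega) hDL hDH (by
      have h1 := fin_hc (R := (R.card : ℝ) + (CLs.card + CHs.card)) (w := (w : ℝ)) (cap := (cap : ℝ)) c hn0
        (by linarith only [hRr, hNM, hMν, l5, l1, l11]) (Nat.cast_nonneg w) (Nat.cast_nonneg cap) hcapw hcap3 (by linarith only [cg2, hln]) (by linarith only [c1', hln])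
      have h2 : (n : ℝ) - 1999 ≤ 2000 * ((n / 2000 : ℕ) : ℝ) := by
        have h3 : n ≤ 2000 * (n / 2000) + 1999 := by omega
        have h4 : (n : ℝ) ≤ 2000 * ((n / 2000 : ℕ) : ℝ) + 1999 := by exact_mod_cast h3
        linarith only [h4]
      have h3 : (cap : ℝ) * (((n : ℝ) - 1999) / 2000) ≤ cap * ((n / 2000 : ℕ) : ℝ) :=
        mul_le_mul_of_nonneg_left (by linarith only [h2]) (Nat.cast_nonneg cap)
      have h4 := h1.trans h3
      rw [c.G2e] at h4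
      rw [hDL, hDH]
      exact_mod_cast h4)
  obtain ⟨Rp, hRp⟩ : ∃ Rp : Finset ℕ, Rp = Rpl m p R DL DH := ⟨_, rfl⟩
  have hDec' := rpl_dec hp hDec.dec hDec.stc
  have hRpc := rpl_card hDec
  have hctr := rpl_ctr hDec
  have hSp' := hDec.sp' hp
  have hRRp : R ⊆ Rpl m p R DL DH := fun v hv => mem_Rpl.2 (Or.inl hv)
  have hmult := sp_mult hp (fun v hv => (hSp' v hv).1) hchlX
  have hRpr : ((Rpl m p R DL DH).card : ℝ) ≤ 3 / 10 * (ρ * n) + 2 * (μ * n) := by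
    have h1 : ((Rpl m p R DL DH).card : ℝ) ≤ R.card + ((DL.card : ℝ) + DH.card) * (D + 1) := by
      exact_mod_cast hRpc
    rw [hDL, hDH] at h1
    have h2 : ((CLs.card : ℝ) + CHs.card) * (D + 1) ≤ M * (D + 1) :=
      mul_le_mul_of_nonneg_right (by linarith only [hNM]) (by linarith only [hD0])
    have h3 : (M : ℝ) * 1 ≤ M * D := mul_le_mul_of_nonneg_left (by linarith only [c.D5]) (Nat.cast_nonneg M)
    linarith only [h1, h2, h3, hRr, hMD, hP1]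
  -- flexible sets
  obtain ⟨s1, s2, s3, s4, s5, s6, s7, s8, s9, s10⟩ := hst n P hPP0 (by omega)
  rw [← hQ] at s2 s3 s4 s9 s10
  rw [← hQe] at s1
  obtain ⟨fX, hfX⟩ : ∃ fX : ℕ, fX = (FXr n q3 q4).card := ⟨_, rfl⟩
  obtain ⟨fS, hfS⟩ : ∃ fS : ℕ, fS = (FSr n q1 q2).card := ⟨_, rfl⟩
  obtain ⟨fE, hfE⟩ : ∃ fE : ℕ, fE = (FXe n P q6).card := ⟨_, rfl⟩
  obtain ⟨fB, hfB⟩ : ∃ fB : ℕ, fB = (Bee P q7).card := ⟨_, rfl⟩
  rw [← hfX] at s5 s9
  rw [← hfS] at s6 s10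
  rw [← hfE] at s7
  rw [← hfB] at s8
  have rX : (fX : ℝ) ≤ 2 / 10 * (lam * n) := by
    have h1 : (fX : ℝ) ≤ ((n / q3 : ℕ) : ℝ) + ((n / q4 : ℕ) : ℝ) := by exact_mod_cast s5
    have h2 := fin_div (n := n) (hlq q3 hq3)
    have h3 := fin_div (n := n) (hlq q4 hq4)
    linarith only [h1, h2, h3]
  have rS : (fS : ℝ) ≤ 2 / 10 * (lam * n) := by
    have h1 : (fS : ℝ) ≤ ((n / q1 : ℕ) : ℝ) + ((n / q2 : ℕ) : ℝ) := by exact_mod_cast s6
    have h2 := fin_div (n := n) (hlq q1 hq1)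
    have h3 := fin_div (n := n) (hlq q2 hq2)
    linarith only [h1, h2, h3]
  have rE : (fE : ℝ) ≤ 1 / 10 * (lam * n) + 1 := by
    have h1 : (fE : ℝ) ≤ ((n / q6 : ℕ) : ℝ) + 1 := by exact_mod_cast s7
    have h2 := fin_div (n := n) hlq6
    linarith only [h1, h2]
  have rB : (fB : ℝ) ≤ 1 / 10 * (lam * n) + 1 := by
    have h0 : P / q7 ≤ n / q7 := Nat.div_le_div_right (by omega)
    have h1 : (fB : ℝ) ≤ ((n / q7 : ℕ) : ℝ) + 1 := by
      have : fB ≤ n / q7 + 1 := by omega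
      exact_mod_cast this
    have h2 := fin_div (n := n) hlq7
    linarith only [h1, h2]
  have b1 : 10 ^ 4 * (fB * Q) ≤ n + 10 ^ 4 * Q := by
    have h1 : P / q7 * q7 ≤ P := Nat.div_mul_le_self _ _
    have h2 : P / q7 * (10 ^ 4 * Q) ≤ P / q7 * q7 := Nat.mul_le_mul_left _ hQq7
    have h3 : fB * Q ≤ (P / q7 + 1) * Q := Nat.mul_le_mul_right _ s8
    have h4 : (P / q7 + 1) * Q = P / q7 * Q + Q := by ring
    have h5 : P / q7 * (10 ^ 4 * Q) = 10 ^ 4 * (P / q7 * Q) := by ring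
    omega
  have b2 : 10 ^ 4 * (fE * Q) ≤ n + 10 ^ 4 * Q := by
    have h1 : n / q6 * q6 ≤ n := Nat.div_mul_le_self _ _
    have h2 : n / q6 * (10 ^ 4 * Q) ≤ n / q6 * q6 := Nat.mul_le_mul_left _ hQq6
    have h3 : fE * Q ≤ (n / q6 + 1) * Q := Nat.mul_le_mul_right _ s7
    have h4 : (n / q6 + 1) * Q = n / q6 * Q + Q := by ring
    have h5 : n / q6 * (10 ^ 4 * Q) = 10 ^ 4 * (n / q6 * Q) := by ring
    omega
  -- left-over bound
  obtain ⟨E, hE⟩ : ∃ E : ℕ, E = ⌊ε1 * n⌋₊ := ⟨_, rfl⟩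
  obtain ⟨hE1, -⟩ := fin_floor (x := ε1 * n) (by positivity)
  rw [← hE] at hE1
  have hE0 : (0 : ℝ) ≤ E := Nat.cast_nonneg E
  have b3 : 10 ^ 4 * (E * Q) ≤ n := by
    have h1 : (E : ℝ) * Q ≤ ε1 * n * Q := mul_le_mul_of_nonneg_right hE1 (by linarith only [hQr])
    have h2 : (ε1 * n * Q) * 1 ≤ (ε1 * n * Q) * Qe :=
      mul_le_mul_of_nonneg_left hQer (by positivity)
    have h3 : (ε1 * n * Q) * Qe * 10 ^ 4 = μ * n := by rw [← hε1e]; ring
    have h4 : (10 : ℝ) ^ 4 * (E * Q) ≤ n := by linarith only [h1, h2, h3, l12, hn0]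
    exact_mod_cast h4
  have b4 : (20 * E + 1) * Qe ≤ P := by
    have h1 : (E : ℝ) * Qe ≤ ε1 * n * Qe := mul_le_mul_of_nonneg_right hE1 (by linarith only [hQer])
    have h2 : (ε1 * n * Qe) * 1 ≤ (ε1 * n * Qe) * Q :=
      mul_le_mul_of_nonneg_left hQr (by positivity)
    have h3 : (ε1 * n * Qe) * Q * 10 ^ 4 = μ * n := by rw [← hε1e]; ring
    have h4 : (20 * (E : ℝ) + 1) * Qe ≤ P := by linarith only [h1, h2, h3, cQe, l3, hP2, l11]
    exact_mod_cast h4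
  have b5 : (10 : ℝ) ^ 5 * E ≤ lam * n := by
    have h1 : (10 : ℝ) ^ 4 * (E * Q) ≤ n := by exact_mod_cast b3
    have h2 : lam * ((10 : ℝ) ^ 4 * (E * Q)) ≤ lam * n := mul_le_mul_of_nonneg_left h1 hl0.le
    have h3 : (10 : ℝ) * E ≤ (lam * Q) * E := mul_le_mul_of_nonneg_right hlQ hE0
    linarith only [h2, h3]
  have b6 : 10 ^ 6 * ((g + 1) * Q) ≤ n := by
    have h1 : (10 : ℝ) ^ 6 * (((g : ℝ) + 1) * Q) ≤ n := by linarith only [cgQ, hln, l11]
    exact_mod_cast h1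
  have b7 : Q ≤ (g + 1) * Q := Nat.le_mul_of_pos_left _ (by omega)
  obtain ⟨NV, hNV⟩ : ∃ NV : ℕ, NV = fE + 3 * E := ⟨_, rfl⟩
  have hNVr : (NV : ℝ) = fE + 3 * E := by rw [hNV]; push_cast; ring
  have hNVQ : NV * Q = fE * Q + 3 * (E * Q) := by rw [hNV]; ring
  have hQ0 : 0 < Q := by omega
  have hSpr : ν * m < Sp.card + 1 := by
    have : (N1 : ℝ) ≤ Sp.card := by exact_mod_cast hSp1
    linarith only [this, hN12]
  obtain ⟨β, Ve, Vin, A, YX, YS, L, Sm, hDat, hVe, hVin, hZ, hβ, hYX, hYS⟩ :=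
    mk_datG (NV := NV) (Dm := X) (κe := P / Qe) (κ' := n / Q) hn hp hDec' hRRp hLab
      (fun j hj => ⟨hRRp (hDec.FR (by
          unfold Fset
          exact mem_union_right _ (mem_union_left _ (mem_image_of_mem ea (mem_range.2 hj))))),
        hRRp (hDec.FR (by
          unfold Fset
          exact mem_union_right _ (mem_union_right _ (mem_image_of_mem eb (mem_range.2 hj)))))⟩)
      hSp' hmult hctr hP6 hPn s1 s2 s3 s4
      (by
        rw [← hfB, ← hfX]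
        refine le_trans ?_ s9
        rw [Nat.le_div_iff_mul_le hQ0]
        have h1 : 20 * (fB + 2 * NV + g + 1) * Q = 20 * (fB * Q) + 40 * (NV * Q) + 20 * ((g + 1) * Q) := by ring
        omega)
      (by
        rw [← hfB, ← hfS]
        have h1 : 40 * (fB + 2 * NV + 1) ≤ n / Q := by
          rw [Nat.le_div_iff_mul_le hQ0]
          have h1 : 40 * (fB + 2 * NV + 1) * Q = 40 * (fB * Q) + 80 * (NV * Q) + 40 * Q := by ring
          omega
        omega)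
      (by
        rw [← hfB, ← hfS, ← hfX, ← hfE]
        have h1 : 504100 * ((X : ℝ) + 1) + 213 * (fX + fE) + 633 * fS + fB + NV ≤ Sp.card := by
          rw [hNVr]
          linarith only [hXl, rX, rE, rS, rB, b5, hSpr, hνm', l1, c1']
        exact_mod_cast h1)
      (by
        rw [← hfS, ← hfX, ← hfE]
        have h1 : (10 : ℝ) ^ 6 * ((Rpl m p R DL DH).card + g + 2000 * (fX + fE + fS) + 1000) ≤ n := by
          linarith only [hRpr, cg, rX, rE, rS, c1', l6, l7, l9, l10, l12, l3, l11, l1, l5, hn0]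
        exact_mod_cast h1)
  rw [← hfX, ← hfE, ← hfS] at hYX hYS
  rw [← hfB] at hVe
  -- local density
  have hβc : (Ve.image β).card ≤ fB := by
    rw [hfB]
    exact card_le_card hβ
  obtain ⟨u, hu⟩ : ∃ u : ℕ, u = fX + fE + fS + fB + 2000 * (fX + fE + fS) := ⟨_, rfl⟩
  have hur : (u : ℝ) = fX + fE + fS + fB + 2000 * (fX + fE + fS) := by rw [hu]; push_cast; ring
  have hu1 : (FXr n q3 q4 ∪ FXe n P q6 ∪ YX ∪ Ve.image β ∪ L).card ≤ u := by
    have := fin_union5 (FXr n q3 q4) (FXe n P q6) YX (Ve.image β) L hfX.ge hfE.ge hβc hYX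
    omega
  have hu2 : (FSr n q1 q2 ∪ YS ∪ Ve.image (fun v => ad (lab (p v)) (β v)) ∪ Sm).card ≤ u := by
    have h1 : (Ve.image (fun v => ad (lab (p v)) (β v))).card ≤ fB := hVe ▸ card_image_le
    have := fin_union4 (FSr n q1 q2) YS (Ve.image (fun v => ad (lab (p v)) (β v))) Sm hfS.ge h1 hYS
    omega
  have hloc := loc_ok hLab hDat hu1 hu2 (t := t) (by linarith only [hcap1, cK, cg, hur, rX, rE, rS, rB, htw8, c1'])
  have hXc := XXg_card n lab β (Rpl m p R DL DH) Ve (FXr n q3 q4) (FXe n P q6) YX L hu1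
  obtain ⟨f1, f2⟩ := TTg_facts (Ve := Ve) (Vin := Vin) (A := A) hp hDec hZ
  have hflex := flex_sub (Ve := Ve) (Vin := Vin) (A := A) hp hDec hZ
  have hsta := star_sub (Ve := Ve) (Vin := Vin) (A := A) hp hDec hZ
  have hTT : ((TTg m p (Rpl m p R DL DH) Ve Vin A).card : ℝ) ≤ T.card + Sp.card := by
    have h1 := (card_le_card f2).trans (card_union_le _ _)
    exact_mod_cast h1
  have hSpr2 : (Sp.card : ℝ) ≤ N1 + K := by exact_mod_cast hSp2
  have hprm : Prm n P w D t μ (ε / 4000) := by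
    refine ⟨by exact_mod_cast (by linarith only [c1', hln] : (0 : ℝ) < n), c.μ0, by positivity, by linarith only [hε1], by linarith only [hP2], hP1,
      hD5, ht0, by linarith only [htw8, c1'], hw0, ?_, ?_⟩
    · have h1 : Real.sqrt μ = σ := by rw [c.μe]; exact Real.sqrt_sq c.σ0.le
      have h2 : (w : ℝ) / P ≤ t := by
        rw [div_le_iff₀ hPr0]
        exact hwtP
      rw [h1, ← c.tσ]
      have h3 : (10 : ℝ) ^ 9 * D * (t + w / P) ≤ 10 ^ 9 * D * (t + t) :=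
        mul_le_mul_of_nonneg_left (by linarith only [h2]) (by positivity)
      linarith only [h3]
    · have h1 : Real.sqrt μ = σ := by rw [c.μe]; exact Real.sqrt_sq c.σ0.le
      rw [h1]
      linarith only [c.σε, c.σ0]
  have hsqrt : σ * n / 4 ≤ Real.sqrt (P * n) := by
    apply Real.le_sqrt_of_sq_le
    have h1 : (σ * n / 4) ^ 2 = μ * n * n / 16 := by rw [c.μe]; ring
    have h2 : μ * n * n ≤ 16 * P * n := mul_le_mul_of_nonneg_right hP2 hn0
    linarith only [h1, h2]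
  obtain ⟨T', f, t1, t2, t3, t4, t5, t6, t7⟩ := hpk n m P w D t μ (ε / 4000) (ε / 2) p top lab
    (Rpl m p R DL DH) (TTg m p (Rpl m p R DL DH) Ve Vin A)
    (XXg n lab β (Rpl m p R DL DH) Ve (FXr n q3 q4) (FXe n P q6) YX L)
    (SSg m g n p ea eb lab β (Rpl m p R DL DH) Ve (FSr n q1 q2) YS Sm)
    (by omega) (by omega) hprm (by
      have h1 : Real.sqrt μ = σ := by rw [c.μe]; exact Real.sqrt_sq c.σ0.le
      rw [h1]
      linarith only [c.σc]) (by linarith only [hε]) (by linarith only [hε])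
    (by linarith only [c.tσ', c.σε, c.σ0, c.t0, hε]) (by linarith only [hw1, l13, l8, l9, l4, l11]) (by linarith only [hwω]) hloc hp hDec'
    (by
      intro v hv
      refine (hchl v hv).trans ?_
      have h1 : δ * m ≤ δ * (2 * n) := mul_le_mul_of_nonneg_left hm2n hδ0.le
      have h2 : 2 * δ * n ≤ δp * n := mul_le_mul_of_nonneg_right hδ1 hn0
      linarith only [h1, h2])
    (by
      intro τ hτ
      unfold TTg at hτ
      rw [mem_sdiff] at hτ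
      exact hτ.1)
    hDat.labI
    (by
      intro τ hτ
      unfold TTg at hτ
      rw [mem_sdiff, mem_tops] at hτ
      obtain ⟨⟨h1, h2, h3⟩, -⟩ := hτ
      exact hDat.ctr _ h3 (Or.inl ⟨τ, hDec'.pos h2, h1, h2, rfl⟩))
    (by
      intro τ hτ r hr
      unfold exs at hr
      rw [mem_filter] at hr
      exact hDat.ctr r hr.1 (Or.inr ⟨hr.2.1, hr.2.2.1⟩))
    (by
      have h2 : 0 ≤ ν * n := by positivity
      linarith only [hTT, hTr, hSpr2, hN11, hνm, cK, l1, l5, l6, h2, l11])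
    (by
      have h1 : (n : ℝ) + 1 ≤ (XXg n lab β (Rpl m p R DL DH) Ve (FXr n q3 q4) (FXe n P q6) YX L).card +
        ((Rpl m p R DL DH).card + u) := by exact_mod_cast hXc
      linarith only [h1, hsqrt, hRpr, hur, rX, rE, rS, rB, l6, l7, l8, l1, l5, l11, c1'])
    hDat.cardX hDat.cardS
    (by
      have h1 : ((((MV m R top T).filter fun v => Pend m p v ∧ uc m p v ∉ R).card : ℕ) : ℝ) ≤
        ((MV m (Rpl m p R DL DH) top (TTg m p (Rpl m p R DL DH) Ve Vin A)).filter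
          fun v => Pend m p v ∧ uc m p v ∉ Rpl m p R DL DH).card := by exact_mod_cast hflex
      have h2 := hDec.pend
      linarith only [h1, h2, hεm])
    (by
      have h1 : ((((MV m R top T).filter fun c' => StarD m p D c' ∧ p c' ∉ R ∧
          ∀ u ∈ chl m p c', u ∉ R).card : ℕ) : ℝ) ≤
        ((MV m (Rpl m p R DL DH) top (TTg m p (Rpl m p R DL DH) Ve Vin A)).filter
        fun c' => StarD m p D c' ∧ p c' ∉ Rpl m p R DL DH ∧
          ∀ u ∈ chl m p c', u ∉ Rpl m p R DL DH).card := by exact_mod_cast hsta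
      have h2 := hDec.star
      linarith only [h1, h2, hεm])
  refine hDat.finish (T' := T') (f1 := f) (E := E) t1 t2 t3 t4 t5 t6 ?_ ?_ ?_ ?_
  · rw [hE]
    exact Nat.le_floor t7
  · rw [Nat.le_div_iff_mul_le (by omega)]
    exact b4
  · rw [hVe, hVin, Nat.le_div_iff_mul_le hQ0]
    have h1 : (10 * (fB + 2 * NV) + 100 * E + 100) * Q =
      10 * (fB * Q) + 20 * (NV * Q) + 100 * (E * Q) + 100 * Q := by ring
    omega
  · rw [hVin, ← hfE]
    omega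

end Pool.Agent.GRC
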