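import Pool.Agent.Helper28.GRC.DATG
import Pool.Agent.Helper28.GRC.STF

/-!
# GRC-LOCG: local density of the main labels and differences; the deterministic stars and the decomposition

`loc_ok`, proof in words: a label of a free window which is not in `XXg` is a label of `R` (at most `τw`, `LabP.wX`, `lab` injective) or in `FX ∪ FXE ∪ YX ∪ Ve.image β ∪ L` (at most `u`); the same for the differences; `S_le` is `cov`.
`rpl_dec`: adding the deterministic stars `DL ∪ DH` (centres with parents in `R`, all leaves outside `R`) to `R` does not change the other pieces: `top` stays the same; `Dec` for `Rpl`.  (A vertex outside `Rpl` has its parent outside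
`DL ∪ DH ∪ leaves`, since the children of the centres are the leaves and the leaves have no children; the parent of a centre is in `R`.)
`rpl_tops`: the tops of `Rpl` are those of `R` without `DL ∪ DH`; the pieces of the tops in `T ∪ Sp` do not meet `Rpl`, so `MV`, `EM` of `T' ⊆ T` are the same for `R` and `Rpl`.
-/

set_option autoImplicit false

namespace Pool.Agent.GRC

open Finset Pool.Agent.SEM

theorem h34_P_le {m g n K mX mS κe κ' P : ℕ} {p ea eb top lab β : ℕ → ℕ}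
    {R Ve Vin A FX FXE FS YX YS L Sm : Finset ℕ}
    (D : DatG m g n K mX mS κe κ' P p ea eb top lab β R Ve Vin A FX FXE FS YX YS L Sm) : P ≤ n := by
  by_contra h
  have h0 := D.cov 0 (by omega) (by omega)
  obtain ⟨i, hi, hi0⟩ := mem_image.1 h0
  have := (D.dvR i hi).1
  omega

theorem h34_win {A B U : Finset ℕ} {f : ℕ → ℕ} {a w u : ℕ} {τw : ℝ}
    (hA : ((A.filter fun i => a ≤ f i ∧ f i ≤ a + w).card : ℝ) ≤ τw) (hU : U.card ≤ u)
    (hB : ∀ x ∈ Icc a (a + w), x ∉ B → x ∈ A.image f ∪ U) :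
    (((Icc a (a + w)).filter (· ∉ B)).card : ℝ) ≤ τw + u := by
  have h1 : (Icc a (a + w)).filter (· ∉ B) ⊆ (A.filter fun i => a ≤ f i ∧ f i ≤ a + w).image f ∪ U := by
    intro x hx
    obtain ⟨hx1, hx2⟩ := mem_filter.1 hx
    rcases mem_union.1 (hB x hx1 hx2) with h | h
    · obtain ⟨i, hi, rfl⟩ := mem_image.1 h
      exact mem_union_left _ (mem_image_of_mem _ (mem_filter.2 ⟨hi, (mem_Icc.1 hx1).1, (mem_Icc.1 hx1).2⟩))
    · exact mem_union_right _ h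
  have h2 := (card_le_card h1).trans (card_union_le _ _)
  have h3 : (((Icc a (a + w)).filter (· ∉ B)).card : ℝ) ≤
      ((A.filter fun i => a ≤ f i ∧ f i ≤ a + w).card : ℝ) + u := by
    exact_mod_cast h2.trans (add_le_add card_image_le hU)
  linarith

theorem loc_ok {m g n P w K mX mS κe κ' u : ℕ} {τw t : ℝ} {p ea eb top lab β : ℕ → ℕ}
    {R Rp Sp Ve Vin A FX FXE FS YX YS L Sm : Finset ℕ} (hL : LabP m g n P w τw p ea eb R Rp Sp lab)
    (D : DatG m g n K mX mS κe κ' P p ea eb top lab β Rp Ve Vin A FX FXE FS YX YS L Sm)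
    (hu1 : (FX ∪ FXE ∪ YX ∪ Ve.image β ∪ L).card ≤ u)
    (hu2 : (FS ∪ YS ∪ Ve.image (fun v => ad (lab (p v)) (β v)) ∪ Sm).card ≤ u) (ht : τw + u ≤ t * w) :
    Loc n P w t (XXg n lab β Rp Ve FX FXE YX L) (SSg m g n p ea eb lab β Rp Ve FS YS Sm) := by
  have hP := h34_P_le D
  refine ⟨?_, ?_, ?_, ?_, ?_⟩
  · intro x hx
    exact (mem_sdiff.1 hx).1
  · intro x hx
    exact (mem_sdiff.1 hx).1
  · intro s hs
    obtain ⟨h1, h2⟩ := mem_sdiff.1 hs
    by_contra hc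
    apply h2
    have h3 := D.cov s (by omega) (mem_Icc.1 h1).2
    exact mem_union_left _ (mem_union_left _ (mem_union_left _ (mem_union_left _ h3)))
  · intro a ha
    refine (h34_win (hL.wX a ha) hu1 ?_).trans ht
    intro x hx hxX
    by_contra hc
    apply hxX
    rw [mem_union, not_or] at hc
    obtain ⟨hc1, hc2⟩ := hc
    refine mem_sdiff.2 ⟨mem_range.2 ?_, ?_⟩
    · have := (mem_Icc.1 hx).2
      rcases ha with h | h | h <;> omega
    · simp only [mem_union, not_or] at hc2 ⊢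
      obtain ⟨⟨⟨⟨g1, g2⟩, g3⟩, g4⟩, g5⟩ := hc2
      exact ⟨⟨⟨⟨⟨hc1, g1⟩, g2⟩, g3⟩, g4⟩, g5⟩
  · intro a ha1 ha
    refine (h34_win (hL.wS a ha) hu2 ?_).trans ht
    intro x hx hxX
    by_contra hc
    apply hxX
    rw [mem_union, not_or] at hc
    obtain ⟨hc1, hc2⟩ := hc
    have hx' := mem_Icc.1 hx
    refine mem_sdiff.2 ⟨mem_Icc.2 ⟨by omega, by omega⟩, ?_⟩
    simp only [mem_union, not_or] at hc2 ⊢
    obtain ⟨⟨⟨g1, g2⟩, g3⟩, g4⟩ := hc2
    exact ⟨⟨⟨⟨hc1, g1⟩, g2⟩, g3⟩, g4⟩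

theorem h34_mem_rpl {m : ℕ} {p : ℕ → ℕ} {R DL DH : Finset ℕ} {v : ℕ} :
    v ∈ Rpl m p R DL DH ↔ v ∈ R ∨ v ∈ DL ∪ DH ∨ ∃ c ∈ DL ∪ DH, v ∈ chl m p c := by
  unfold Rpl
  rw [mem_union, mem_union, mem_biUnion, or_assoc]

/-- the parent of a vertex outside `Rpl` is in `R` or outside `Rpl` -/
theorem h34_par {m : ℕ} {p : ℕ → ℕ} {R DL DH : Finset ℕ} {v : ℕ} (h0 : 0 ∈ R)
    (h : ∀ c ∈ DL ∪ DH, c ∉ R ∧ 0 < c ∧ c < m ∧ p c ∈ R ∧ ∀ u ∈ chl m p c, u ∉ R ∧ chl m p u = ∅)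
    (hv : v < m) (hvR : v ∉ Rpl m p R DL DH) (hpv : p v ∈ Rpl m p R DL DH) : p v ∈ R := by
  have hv0 : 0 < v := by
    rcases Nat.eq_zero_or_pos v with h1 | h1
    · exact absurd (h34_mem_rpl.2 (Or.inl (h1 ▸ h0))) hvR
    · exact h1
  rcases h34_mem_rpl.1 hpv with h1 | h1 | ⟨c, hc, h1⟩
  · exact h1
  · exact absurd (h34_mem_rpl.2 (Or.inr (Or.inr ⟨p v, h1, mem_chl.2 ⟨hv, hv0, rfl⟩⟩))) hvR
  · have h2 := ((h c hc).2.2.2.2 _ h1).2
    have h3 : v ∈ chl m p (p v) := mem_chl.2 ⟨hv, hv0, rfl⟩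
    rw [h2] at h3
    simp at h3

/-- a positive vertex of `Rpl` with parent outside `Rpl` is in `R` -/
theorem h34_exit {m : ℕ} {p : ℕ → ℕ} {R DL DH : Finset ℕ} {r : ℕ}
    (h : ∀ c ∈ DL ∪ DH, c ∉ R ∧ 0 < c ∧ c < m ∧ p c ∈ R ∧ ∀ u ∈ chl m p c, u ∉ R ∧ chl m p u = ∅)
    (hr : r ∈ Rpl m p R DL DH) (hpr : p r ∉ Rpl m p R DL DH) : r ∈ R := by
  rcases h34_mem_rpl.1 hr with h1 | h1 | ⟨c, hc, h1⟩
  · exact h1
  · exact absurd (h34_mem_rpl.2 (Or.inl (h r h1).2.2.2.1)) hpr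
  · have h2 := (mem_chl.1 h1).2.2
    exact absurd (h34_mem_rpl.2 (Or.inr (Or.inl (h2 ▸ hc)))) hpr

theorem rpl_dec {m K : ℕ} {p top : ℕ → ℕ} {R DL DH : Finset ℕ} (hp : Par m p) (hD : Dec m p K R top)
    (h : ∀ c ∈ DL ∪ DH, c ∉ R ∧ 0 < c ∧ c < m ∧ p c ∈ R ∧ ∀ u ∈ chl m p c, u ∉ R ∧ chl m p u = ∅) :
    Dec m p K (Rpl m p R DL DH) top := by
  have hsubR : ∀ {v : ℕ}, v ∉ Rpl m p R DL DH → v ∉ R := fun hv hvR => hv (h34_mem_rpl.2 (Or.inl hvR))
  refine ⟨?_, ?_, ?_, ?_, ?_, ?_, ?_⟩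
  · intro v hv
    rcases h34_mem_rpl.1 hv with h1 | h1 | ⟨c, hc, h1⟩
    · exact hD.sub h1
    · exact mem_range.2 (h v h1).2.2.1
    · exact mem_range.2 (mem_chl.1 h1).1
  · exact h34_mem_rpl.2 (Or.inl hD.zero)
  · intro v hv hvR hpv
    exact hD.top_root v hv (hsubR hvR) (h34_par hD.zero h hv hvR hpv)
  · intro v hv hvR hpv
    exact hD.top_step v hv (hsubR hvR) (hsubR hpv)
  · intro t
    refine (card_le_card ?_).trans (hD.size t)
    intro v hv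
    obtain ⟨h1, h2, h3⟩ := mem_filter.1 hv
    exact mem_filter.2 ⟨h1, hsubR h2, h3⟩
  · intro r hr r' hr' h0 h0' hpr hpr' htop
    exact hD.exit_unique r (h34_exit h hr hpr) r' (h34_exit h hr' hpr') h0 h0' (hsubR hpr) (hsubR hpr') htop
  · intro r hr h0 hpr
    have hrR := h34_exit h hr hpr
    have h1 := hD.exit_deep r hrR h0 (hsubR hpr)
    intro h2
    have hrm : r < m := mem_range.1 (hD.sub hrR)
    have hprm : p r < m := (hp r h0 hrm).trans hrm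
    exact h1 (h34_par hD.zero h hprm hpr h2)

theorem rpl_tops {m K : ℕ} {p top : ℕ → ℕ} {R DL DH : Finset ℕ} (hp : Par m p) (hD : Dec m p K R top)
    (h : ∀ c ∈ DL ∪ DH, c ∉ R ∧ 0 < c ∧ c < m ∧ p c ∈ R ∧ ∀ u ∈ chl m p c, u ∉ R ∧ chl m p u = ∅) :
    tops m p (Rpl m p R DL DH) = tops m p R \ (DL ∪ DH) ∧
    (∀ T' : Finset ℕ, Disjoint T' (DL ∪ DH) → MV m (Rpl m p R DL DH) top T' = MV m R top T') ∧
    (∀ v < m, v ∉ R → top v ∉ DL ∪ DH → v ∉ Rpl m p R DL DH) := by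
  have hsubR : ∀ {v : ℕ}, v ∉ Rpl m p R DL DH → v ∉ R := fun hv hvR => hv (h34_mem_rpl.2 (Or.inl hvR))
  have key : ∀ v < m, v ∉ R → top v ∉ DL ∪ DH → v ∉ Rpl m p R DL DH := by
    intro v hv hvR htop hvRp
    rcases h34_mem_rpl.1 hvRp with h1 | h1 | ⟨c, hc, h1⟩
    · exact hvR h1
    · exact htop ((hD.top_root v hv hvR (h v h1).2.2.2.1).symm ▸ h1)
    · have h2 := (mem_chl.1 h1).2.2
      have hcR := (h c hc).1
      have h3 := hD.top_step v hv hvR (h2 ▸ hcR)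
      have h4 := hD.top_root c (h c hc).2.2.1 hcR (h c hc).2.2.2.1
      rw [h3, h2, h4] at htop
      exact htop hc
  refine ⟨?_, ?_, key⟩
  · ext t
    rw [mem_sdiff, mem_tops, mem_tops]
    constructor
    · rintro ⟨h1, h2, h3⟩
      exact ⟨⟨h1, hsubR h2, h34_par hD.zero h h1 h2 h3⟩, fun h4 => h2 (h34_mem_rpl.2 (Or.inr (Or.inl h4)))⟩
    · rintro ⟨⟨h1, h2, h3⟩, h4⟩
      refine ⟨h1, ?_, h34_mem_rpl.2 (Or.inl h3)⟩
      apply key t h1 h2
      rw [hD.top_root t h1 h2 h3]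
      exact h4
  · intro T' hT'
    ext v
    rw [mem_MV, mem_MV]
    constructor
    · rintro ⟨h1, h2, h3⟩
      exact ⟨h1, hsubR h2, h3⟩
    · rintro ⟨h1, h2, h3⟩
      exact ⟨h1, key v h1 h2 (fun h4 => (Finset.disjoint_left.1 hT') h3 h4), h3⟩

end Pool.Agent.GRC
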