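import Pool.Agent.Helper28.GRC.GS
import Pool.Agent.Helper73.SEM.RB3

/-!
# GRC-GA: the absorber for arbitrary subsets of the flexible sets (differences)

Model: Helper73/SEM/GA.lean (`absorber`) and Helper73/SEM/FP1.lean (`template`, `absorb_all`); please copy and modify (`template` can be copied literally, it uses only `SEM.rmbg`).

Proof in words.  `template` with `m = mX`, `Y = YX`, `F = FX` gives node neighbourhoods `Ns : Fin (3 mX) → Finset ℕ`, with `m = mS`, `Y = YS`, `F = FS` gives `Ms : Fin (3 mS) → Finset ℕ`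
(sizes `≤ 70`).  Treat the nodes one after the other (first the label nodes with `glab`, then the difference nodes with `gdif`, `d = 70`), always
with the remaining supply and with `UX, US` enlarged by the labels and differences of the previous gadgets.  All the gadgets have disjoint `P`, `L`, `S`.
Sizes: a label node uses `|N|+1 ≤ 71` paths, `2|N|+1 ≤ 141` labels, `2|N|+2 ≤ 142` differences; a difference node `3|M|+1 ≤ 211` paths, `6|M|+2 ≤ 422` labels, `6|M|+1 ≤ 421` differences.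
Given `FX', FS'` of sizes `mX, mS`: injective choices `x i ∈ Ns i`, `s j ∈ Ms j` with values in `YX ∪ FX'`, `YS ∪ FS'`; `AbsD.union` of the gadgets with
`L_i ∪ {x i}` resp. `S_j ∪ {s j}` (disjoint: `x` is injective, `x i ∈ UX`, `s j ∈ US`).
-/

set_option autoImplicit false

namespace Pool.Agent.GRC

open Finset

/-- the label nodes -/
private theorem labels43 {n h D : ℕ} {c : ℕ → ℕ} (hh : 1000 * h + 1000 ≤ n) (a : ℕ) :
    ∀ {u : ℕ} {Sup UX US : Finset ℕ},
    (∀ i ∈ Sup, n / 2 ≤ c i + h ∧ c i ≤ n / 2 + h) →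
    (∀ x, (Sup.filter fun i => c i = x).card ≤ D) →
    504100 * (D + 1) + 71 * a ≤ Sup.card →
    (∀ i ∈ Sup, c i ∈ UX) → UX.card ≤ u → US.card ≤ u →
    4000 * 71 * (u + 142 * a + 710) ≤ n →
    ∀ (Ns : Fin a → Finset ℕ),
    (∀ i, Ns i ⊆ UX ∧ (Ns i).card ≤ 70 ∧ (∀ x ∈ Ns i, 9 * n ≤ 100 * x ∧ 100 * x ≤ 91 * n) ∧
      ∀ j ∈ Sup, c j ∉ Ns i) →
    ∃ P L S : Finset ℕ, P ⊆ Sup ∧ Disjoint L UX ∧ Disjoint S US ∧ L ⊆ Icc 1 n ∧ S ⊆ Icc 1 n ∧
      (∀ x ∈ L, 9 * n ≤ 100 * x ∧ 100 * x ≤ 95 * n) ∧ (∀ s ∈ S, 100 * s ≤ 70 * n) ∧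
      P.card = (∑ i, ((Ns i).card + 1)) ∧
      L.card = (∑ i, (2 * (Ns i).card + 1)) ∧
      S.card = (∑ i, (2 * (Ns i).card + 2)) ∧
      P.card ≤ 71 * a ∧ L.card ≤ 141 * a ∧ S.card ≤ 142 * a ∧
      ∀ (x : Fin a → ℕ), Function.Injective x → (∀ i, x i ∈ Ns i) →
        AbsD c P (L ∪ univ.image x) S := by
  induction a with
  | zero =>
    intro u Sup UX US _ _ _ _ _ _ _ Ns _
    refine ⟨∅, ∅, ∅, by simp, by simp, by simp, by simp, by simp, by simp, by simp, by simp, by simp, by simp, by simp, by simp,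
      by simp, ?_⟩
    intro x _ _
    exact ⟨fun _ => 0, fun _ => 0, by simp, by simp, by simp, by simp, by simp, by simp, by simp⟩
  | succ a ih =>
    intro u Sup UX US hmid hmult hbig hcU huX huS hu Ns hN
    obtain ⟨P, L, S, h1, h2, h3, h4, h5, r1, r2, h6, h7, h8, h9, h10, h11, h12⟩ :=
      ih (u := u) (Sup := Sup) (UX := UX) (US := US) hmid hmult (by omega) hcU huX huS
        ((Nat.mul_le_mul (le_refl _) (by omega)).trans hu)
        (fun i => Ns i.castSucc) (fun i => hN i.castSucc)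
    obtain ⟨hNX, hNc, hNr, hNs⟩ := hN (Fin.last a)
    have hsp : SplyD n h D (u + 142 * a) 70 c (Sup \ P) (UX ∪ L) (US ∪ S) := by
      refine ⟨?_, hh, ?_, ?_, ?_, ?_, ?_, ?_⟩
      · intro i hi
        exact hmid i (Finset.mem_sdiff.mp hi).1
      · intro x
        refine (Finset.card_le_card ?_).trans (hmult x)
        exact Finset.filter_subset_filter _ Finset.sdiff_subset
      · rw [Finset.card_sdiff_of_subset h1]
        have e0 : 100 * (70 + 1) ^ 2 * (D + 1) = 504100 * (D + 1) := by norm_num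
        rw [e0]
        omega
      · intro i hi
        exact Finset.mem_union_left _ (hcU i (Finset.mem_sdiff.mp hi).1)
      · refine (Finset.card_union_le _ _).trans ?_
        omega
      · refine (Finset.card_union_le _ _).trans ?_
        omega
      · exact (Nat.mul_le_mul (by norm_num) (by omega)).trans hu
    obtain ⟨P', L', S', g1, g2, g3, g4, g5, g6, g7, g8, q1, q2, g9⟩ :=
      glab hsp (hNX.trans Finset.subset_union_left) hNc hNr
        (fun i hi => hNs i (Finset.mem_sdiff.mp hi).1)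
    rw [Finset.disjoint_union_right] at g3 g4
    have dP : Disjoint P P' := by
      rw [Finset.disjoint_left]
      intro i hi hi'
      exact (Finset.mem_sdiff.mp (g1 hi')).2 hi
    refine ⟨P ∪ P', L ∪ L', S ∪ S', ?_, ?_, ?_, ?_, ?_, ?_, ?_, ?_, ?_, ?_, ?_, ?_, ?_, ?_⟩
    · exact Finset.union_subset h1 (g1.trans Finset.sdiff_subset)
    · exact Finset.disjoint_union_left.mpr ⟨h2, g3.1⟩
    · exact Finset.disjoint_union_left.mpr ⟨h3, g4.1⟩
    · exact Finset.union_subset h4 g5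
    · exact Finset.union_subset h5 g6
    · intro x hx
      rcases Finset.mem_union.mp hx with hx | hx
      · exact r1 x hx
      · exact q1 x hx
    · intro x hx
      rcases Finset.mem_union.mp hx with hx | hx
      · exact r2 x hx
      · exact q2 x hx
    · rw [Finset.card_union_of_disjoint dP, h6, g2, Fin.sum_univ_castSucc]
    · rw [Finset.card_union_of_disjoint g3.2.symm, h7, g7, Fin.sum_univ_castSucc]
    · rw [Finset.card_union_of_disjoint g4.2.symm, h8, g8, Fin.sum_univ_castSucc]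
    · rw [Finset.card_union_of_disjoint dP]
      omega
    · rw [Finset.card_union_of_disjoint g3.2.symm]
      omega
    · rw [Finset.card_union_of_disjoint g4.2.symm]
      omega
    · intro x hx hxN
      have e1 := h12 (fun i => x i.castSucc) (fun i j hij => Fin.castSucc_injective a (hx hij)) (fun i => hxN i.castSucc)
      have e2 := g9 (x (Fin.last a)) (hxN (Fin.last a))
      have hxUX : ∀ i, x i ∈ UX := fun i => (hN i).1 (hxN i)
      have himg : ∀ y ∈ univ.image (fun i : Fin a => x i.castSucc), y ∈ UX ∧ y ≠ x (Fin.last a) := by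
        intro y hy
        rw [Finset.mem_image] at hy
        obtain ⟨i, _, rfl⟩ := hy
        exact ⟨hxUX _, fun hh' => (Fin.castSucc_lt_last i).ne (hx hh')⟩
      have dL : Disjoint (L ∪ univ.image (fun i : Fin a => x i.castSucc)) (insert (x (Fin.last a)) L') := by
        rw [Finset.disjoint_left]
        intro y hy hy'
        rw [Finset.mem_insert] at hy'
        rw [Finset.mem_union] at hy
        rcases hy with hy | hy <;> rcases hy' with hy' | hy'
        · exact (Finset.disjoint_left.mp h2 hy) (hy' ▸ hxUX _)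
        · exact (Finset.disjoint_left.mp g3.2 hy') hy
        · exact (himg y hy).2 hy'
        · exact (Finset.disjoint_left.mp g3.1 hy') (himg y hy).1
      have e3 := e1.union e2 dP dL g4.2.symm
      refine e3.mono ?_ (Finset.Subset.refl _)
      intro y hy
      simp only [Finset.mem_union, Finset.mem_image, Finset.mem_univ, true_and, Finset.mem_insert] at hy ⊢
      rcases hy with (hy | ⟨i, hi⟩) | hy | hy
      · exact Or.inl (Or.inl hy)
      · exact Or.inr ⟨i.castSucc, hi⟩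
      · exact Or.inr ⟨Fin.last a, hy.symm⟩
      · exact Or.inl (Or.inr hy)

/-- the sum nodes -/
private theorem sums43 {n h D : ℕ} {c : ℕ → ℕ} (hh : 1000 * h + 1000 ≤ n) (b : ℕ) :
    ∀ {u : ℕ} {Sup UX US : Finset ℕ},
    (∀ i ∈ Sup, n / 2 ≤ c i + h ∧ c i ≤ n / 2 + h) →
    (∀ x, (Sup.filter fun i => c i = x).card ≤ D) →
    504100 * (D + 1) + 211 * b ≤ Sup.card →
    (∀ i ∈ Sup, c i ∈ UX) → UX.card ≤ u → US.card ≤ u →
    4000 * 71 * (u + 422 * b + 710) ≤ n →
    ∀ (Ms : Fin b → Finset ℕ),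
    (∀ i, Ms i ⊆ US ∧ (Ms i).card ≤ 70 ∧ ∀ s ∈ Ms i, 1 ≤ s ∧ 100 * s ≤ 39 * n) →
    ∃ P L S : Finset ℕ, P ⊆ Sup ∧ Disjoint L UX ∧ Disjoint S US ∧ L ⊆ Icc 1 n ∧ S ⊆ Icc 1 n ∧
      (∀ x ∈ L, 9 * n ≤ 100 * x ∧ 100 * x ≤ 95 * n) ∧ (∀ s ∈ S, 100 * s ≤ 70 * n) ∧
      P.card = (∑ i, (3 * (Ms i).card + 1)) ∧
      L.card = (∑ i, (6 * (Ms i).card + 2)) ∧
      S.card = (∑ i, (6 * (Ms i).card + 1)) ∧
      P.card ≤ 211 * b ∧ L.card ≤ 422 * b ∧ S.card ≤ 421 * b ∧
      ∀ (s : Fin b → ℕ), Function.Injective s → (∀ i, s i ∈ Ms i) →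
        AbsD c P L (S ∪ univ.image s) := by
  induction b with
  | zero =>
    intro u Sup UX US _ _ _ _ _ _ _ Ns _
    refine ⟨∅, ∅, ∅, by simp, by simp, by simp, by simp, by simp, by simp, by simp, by simp, by simp, by simp, by simp, by simp,
      by simp, ?_⟩
    intro x _ _
    exact ⟨fun _ => 0, fun _ => 0, by simp, by simp, by simp, by simp, by simp, by simp, by simp⟩
  | succ b ih =>
    intro u Sup UX US hmid hmult hbig hcU huX huS hu Ms hM
    obtain ⟨P, L, S, h1, h2, h3, h4, h5, r1, r2, h6, h7, h8, h9, h10, h11, h12⟩ :=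
      ih (u := u) (Sup := Sup) (UX := UX) (US := US) hmid hmult (by omega) hcU huX huS
        ((Nat.mul_le_mul (le_refl _) (by omega)).trans hu)
        (fun i => Ms i.castSucc) (fun i => hM i.castSucc)
    obtain ⟨hMS, hMc, hMr⟩ := hM (Fin.last b)
    have hsp : SplyD n h D (u + 422 * b) 70 c (Sup \ P) (UX ∪ L) (US ∪ S) := by
      refine ⟨?_, hh, ?_, ?_, ?_, ?_, ?_, ?_⟩
      · intro i hi
        exact hmid i (Finset.mem_sdiff.mp hi).1
      · intro x
        refine (Finset.card_le_card ?_).trans (hmult x)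
        exact Finset.filter_subset_filter _ Finset.sdiff_subset
      · rw [Finset.card_sdiff_of_subset h1]
        have e0 : 100 * (70 + 1) ^ 2 * (D + 1) = 504100 * (D + 1) := by norm_num
        rw [e0]
        omega
      · intro i hi
        exact Finset.mem_union_left _ (hcU i (Finset.mem_sdiff.mp hi).1)
      · refine (Finset.card_union_le _ _).trans ?_
        omega
      · refine (Finset.card_union_le _ _).trans ?_
        omega
      · exact (Nat.mul_le_mul (by norm_num) (by omega)).trans hu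
    obtain ⟨P', L', S', g1, g2, g3, g4, g5, g6, g7, g8, q1, q2, g9⟩ :=
      gdif (by norm_num) hsp (hMS.trans Finset.subset_union_left) hMc hMr
    rw [Finset.disjoint_union_right] at g3 g4
    have dP : Disjoint P P' := by
      rw [Finset.disjoint_left]
      intro i hi hi'
      exact (Finset.mem_sdiff.mp (g1 hi')).2 hi
    refine ⟨P ∪ P', L ∪ L', S ∪ S', ?_, ?_, ?_, ?_, ?_, ?_, ?_, ?_, ?_, ?_, ?_, ?_, ?_, ?_⟩
    · exact Finset.union_subset h1 (g1.trans Finset.sdiff_subset)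
    · exact Finset.disjoint_union_left.mpr ⟨h2, g3.1⟩
    · exact Finset.disjoint_union_left.mpr ⟨h3, g4.1⟩
    · exact Finset.union_subset h4 g5
    · exact Finset.union_subset h5 g6
    · intro x hx
      rcases Finset.mem_union.mp hx with hx | hx
      · exact r1 x hx
      · exact q1 x hx
    · intro x hx
      rcases Finset.mem_union.mp hx with hx | hx
      · exact r2 x hx
      · exact q2 x hx
    · rw [Finset.card_union_of_disjoint dP, h6, g2, Fin.sum_univ_castSucc]
    · rw [Finset.card_union_of_disjoint g3.2.symm, h7, g7, Fin.sum_univ_castSucc]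
    · rw [Finset.card_union_of_disjoint g4.2.symm, h8, g8, Fin.sum_univ_castSucc]
    · rw [Finset.card_union_of_disjoint dP]
      omega
    · rw [Finset.card_union_of_disjoint g3.2.symm]
      omega
    · rw [Finset.card_union_of_disjoint g4.2.symm]
      omega
    · intro x hx hxN
      have e1 := h12 (fun i => x i.castSucc) (fun i j hij => Fin.castSucc_injective b (hx hij)) (fun i => hxN i.castSucc)
      have e2 := g9 (x (Fin.last b)) (hxN (Fin.last b))
      have hxUX : ∀ i, x i ∈ US := fun i => (hM i).1 (hxN i)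
      have himg : ∀ y ∈ univ.image (fun i : Fin b => x i.castSucc), y ∈ US ∧ y ≠ x (Fin.last b) := by
        intro y hy
        rw [Finset.mem_image] at hy
        obtain ⟨i, _, rfl⟩ := hy
        exact ⟨hxUX _, fun hh' => (Fin.castSucc_lt_last i).ne (hx hh')⟩
      have dL : Disjoint (S ∪ univ.image (fun i : Fin b => x i.castSucc)) (insert (x (Fin.last b)) S') := by
        rw [Finset.disjoint_left]
        intro y hy hy'
        rw [Finset.mem_insert] at hy'
        rw [Finset.mem_union] at hy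
        rcases hy with hy | hy <;> rcases hy' with hy' | hy'
        · exact (Finset.disjoint_left.mp h3 hy) (hy' ▸ hxUX _)
        · exact (Finset.disjoint_left.mp g4.2 hy') hy
        · exact (himg y hy).2 hy'
        · exact (Finset.disjoint_left.mp g4.1 hy') (himg y hy).1
      have e3 := e1.union e2 dP g3.2.symm dL
      refine e3.mono (Finset.Subset.refl _) ?_
      intro y hy
      simp only [Finset.mem_union, Finset.mem_image, Finset.mem_univ, true_and, Finset.mem_insert] at hy ⊢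
      rcases hy with (hy | ⟨i, hi⟩) | hy | hy
      · exact Or.inl (Or.inl hy)
      · exact Or.inr ⟨i.castSucc, hi⟩
      · exact Or.inr ⟨Fin.last b, hy.symm⟩
      · exact Or.inl (Or.inr hy)

private theorem absorber43 {n h D u a b : ℕ} {c : ℕ → ℕ} {Sup UX US : Finset ℕ}
    (hmid : ∀ i ∈ Sup, n / 2 ≤ c i + h ∧ c i ≤ n / 2 + h) (hh : 1000 * h + 1000 ≤ n)
    (hmult : ∀ x, (Sup.filter fun i => c i = x).card ≤ D)
    (hbig : 100 * 71 ^ 2 * (D + 1) + 71 * a + 211 * b ≤ Sup.card)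
    (hcU : ∀ i ∈ Sup, c i ∈ UX) (huX : UX.card ≤ u) (huS : US.card ≤ u)
    (hu2 : 4000 * 71 * (u + 422 * (a + b) + 710) ≤ n)
    (Ns : Fin a → Finset ℕ) (Ms : Fin b → Finset ℕ)
    (hN : ∀ i, Ns i ⊆ UX ∧ (Ns i).card ≤ 70 ∧ (∀ x ∈ Ns i, 9 * n ≤ 100 * x ∧ 100 * x ≤ 91 * n) ∧
      ∀ j ∈ Sup, c j ∉ Ns i)
    (hM : ∀ i, Ms i ⊆ US ∧ (Ms i).card ≤ 70 ∧ ∀ s ∈ Ms i, 1 ≤ s ∧ 100 * s ≤ 39 * n) :
    ∃ P L S : Finset ℕ, P ⊆ Sup ∧ Disjoint L UX ∧ Disjoint S US ∧ L ⊆ Icc 1 n ∧ S ⊆ Icc 1 n ∧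
      (∀ x ∈ L, 9 * n ≤ 100 * x ∧ 100 * x ≤ 95 * n) ∧ (∀ s ∈ S, 100 * s ≤ 70 * n) ∧
      P.card = (∑ i, ((Ns i).card + 1)) + ∑ i, (3 * (Ms i).card + 1) ∧
      L.card = (∑ i, (2 * (Ns i).card + 1)) + ∑ i, (6 * (Ms i).card + 2) ∧
      S.card = (∑ i, (2 * (Ns i).card + 2)) + ∑ i, (6 * (Ms i).card + 1) ∧
      ∀ (x : Fin a → ℕ) (s : Fin b → ℕ), Function.Injective x → Function.Injective s →
        (∀ i, x i ∈ Ns i) → (∀ i, s i ∈ Ms i) →
        AbsD c P (L ∪ univ.image x) (S ∪ univ.image s) := by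
  have e0 : 100 * 71 ^ 2 * (D + 1) = 504100 * (D + 1) := by norm_num
  rw [e0] at hbig
  obtain ⟨P, L, S, h1, h2, h3, h4, h5, r1, r2, h6, h7, h8, h9, h10, h11, h12⟩ :=
    labels43 hh a hmid hmult (by omega) hcU huX huS ((Nat.mul_le_mul (le_refl _) (by omega)).trans hu2) Ns hN
  obtain ⟨P', L', S', g1, g2, g3, g4, g5, q1, q2, g6, g7, g8, g9, g10, g11, g12⟩ :=
    sums43 (n := n) (h := h) (D := D) (c := c) hh b (u := u + 142 * a) (Sup := Sup \ P) (UX := UX ∪ L) (US := US ∪ S)
      (fun i hi => hmid i (Finset.mem_sdiff.mp hi).1)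
      (fun x => (Finset.card_le_card (Finset.filter_subset_filter _ Finset.sdiff_subset)).trans (hmult x))
      (by rw [Finset.card_sdiff_of_subset h1]; omega)
      (fun i hi => Finset.mem_union_left _ (hcU i (Finset.mem_sdiff.mp hi).1))
      ((Finset.card_union_le _ _).trans (by omega)) ((Finset.card_union_le _ _).trans (by omega))
      ((Nat.mul_le_mul (le_refl _) (by omega)).trans hu2)
      Ms (fun i => ⟨(hM i).1.trans Finset.subset_union_left, (hM i).2⟩)
  rw [Finset.disjoint_union_right] at g2 g3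
  have dP : Disjoint P P' := by
    rw [Finset.disjoint_left]
    intro i hi hi'
    exact (Finset.mem_sdiff.mp (g1 hi')).2 hi
  refine ⟨P ∪ P', L ∪ L', S ∪ S', ?_, ?_, ?_, ?_, ?_, ?_, ?_, ?_, ?_, ?_, ?_⟩
  · exact Finset.union_subset h1 (g1.trans Finset.sdiff_subset)
  · exact Finset.disjoint_union_left.mpr ⟨h2, g2.1⟩
  · exact Finset.disjoint_union_left.mpr ⟨h3, g3.1⟩
  · exact Finset.union_subset h4 g4
  · exact Finset.union_subset h5 g5
  · intro x hx
    rcases Finset.mem_union.mp hx with hx | hx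
    · exact r1 x hx
    · exact q1 x hx
  · intro x hx
    rcases Finset.mem_union.mp hx with hx | hx
    · exact r2 x hx
    · exact q2 x hx
  · rw [Finset.card_union_of_disjoint dP, h6, g6]
  · rw [Finset.card_union_of_disjoint g2.2.symm, h7, g7]
  · rw [Finset.card_union_of_disjoint g3.2.symm, h8, g8]
  · intro x s hx hs hxN hsM
    have e1 := h12 x hx hxN
    have e2 := g12 s hs hsM
    have hxUX : ∀ y ∈ univ.image x, y ∈ UX := by
      intro y hy
      rw [Finset.mem_image] at hy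
      obtain ⟨i, _, rfl⟩ := hy
      exact (hN i).1 (hxN i)
    have hsUS : ∀ y ∈ univ.image s, y ∈ US := by
      intro y hy
      rw [Finset.mem_image] at hy
      obtain ⟨i, _, rfl⟩ := hy
      exact (hM i).1 (hsM i)
    have dL : Disjoint (L ∪ univ.image x) L' := by
      rw [Finset.disjoint_left]
      intro y hy hy'
      rcases Finset.mem_union.mp hy with hy | hy
      · exact (Finset.disjoint_left.mp g2.2 hy') hy
      · exact (Finset.disjoint_left.mp g2.1 hy') (hxUX y hy)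
    have dS : Disjoint S (S' ∪ univ.image s) := by
      rw [Finset.disjoint_left]
      intro y hy hy'
      rcases Finset.mem_union.mp hy' with hy' | hy'
      · exact (Finset.disjoint_left.mp g3.2 hy') hy
      · exact (Finset.disjoint_left.mp h3 hy) (hsUS y hy')
    refine (e1.union e2 dP dL dS).mono ?_ ?_
    · intro y hy
      simp only [Finset.mem_union] at hy ⊢
      tauto
    · intro y hy
      simp only [Finset.mem_union] at hy ⊢
      tauto

/-- template side: neighbourhoods of the nodes inside `Y ∪ F` -/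
private theorem template43 (m : ℕ) (hm : 1 ≤ m) (Y F : Finset ℕ) (hY : Y.card = 2 * m) (hF : F.card ≤ 2 * m)
    (hd : Disjoint F Y) :
    ∃ Ns : Fin (3 * m) → Finset ℕ, (∀ i, Ns i ⊆ Y ∪ F) ∧ (∀ i, (Ns i).card ≤ 70) ∧
      ∀ F' ⊆ F, F'.card = m → ∃ x : Fin (3 * m) → ℕ, Function.Injective x ∧ (∀ i, x i ∈ Ns i) ∧
        ∀ i, x i ∈ Y ∪ F' := by
  classical
  obtain ⟨H, hH1, hH2⟩ := Pool.Agent.SEM.rmbg m F.card hm hF
  have eY : Fin (2 * m) ≃ Y := (Finset.equivFinOfCardEq hY).symm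
  have eF : Fin F.card ≃ F := (Finset.equivFin F).symm
  let g : Fin (2 * m) ⊕ Fin F.card → ℕ := Sum.elim (fun i => (eY i : ℕ)) (fun i => (eF i : ℕ))
  have hg : Function.Injective g := by
    intro a b hab
    rcases a with a | a <;> rcases b with b | b
    · have : (eY a : ℕ) = eY b := hab
      rw [eY.injective (Subtype.ext this)]
    · exfalso
      have : (eY a : ℕ) = eF b := hab
      exact disjoint_left.1 hd (eF b).2 (by rw [← this]; exact (eY a).2)
    · exfalso
      have : (eF a : ℕ) = eY b := hab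
      exact disjoint_left.1 hd (eF a).2 (by rw [this]; exact (eY b).2)
    · have : (eF a : ℕ) = eF b := hab
      rw [eF.injective (Subtype.ext this)]
  refine ⟨fun i => (H i).image g, ?_, ?_, ?_⟩
  · intro i x hx
    obtain ⟨a, _, rfl⟩ := mem_image.1 hx
    rcases a with a | a
    · exact mem_union_left _ (eY a).2
    · exact mem_union_right _ (eF a).2
  · intro i
    exact card_image_le.trans (hH1 i)
  · intro F' hF' hF'c
    let Z' : Finset (Fin F.card) := univ.filter fun j => (eF j : ℕ) ∈ F'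
    have hZ' : Z'.card = m := by
      rw [← hF'c]
      apply card_bij (fun j _ => (eF j : ℕ))
      · intro j hj
        exact (mem_filter.1 hj).2
      · intro j _ j' _ h
        exact eF.injective (Subtype.ext h)
      · intro x hx
        refine ⟨eF.symm ⟨x, hF' hx⟩, ?_, by simp⟩
        simp [Z', hx]
    obtain ⟨f, hf1, hf2⟩ := hH2 Z' hZ'
    refine ⟨fun i => g (f i), hg.comp hf1, fun i => mem_image_of_mem g (hf2 i).1, ?_⟩
    intro i
    have h2 := (hf2 i).2
    show g (f i) ∈ _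
    rcases hfi : f i with a | a
    · exact mem_union_left _ (eY a).2
    · have := h2 a hfi
      exact mem_union_right _ (mem_filter.1 this).2

theorem absorb_all {n h D u mX mS : ℕ} {c : ℕ → ℕ} {Sp UX US FX FS YX YS : Finset ℕ}
    (hmid : ∀ i ∈ Sp, n / 2 ≤ c i + h ∧ c i ≤ n / 2 + h) (hh : 1000 * h + 1000 ≤ n)
    (hmult : ∀ x, (Sp.filter fun i => c i = x).card ≤ D)
    (hbig : 100 * 71 ^ 2 * (D + 1) + 71 * (3 * mX) + 211 * (3 * mS) ≤ Sp.card)
    (hcU : ∀ i ∈ Sp, c i ∈ UX) (huX : UX.card ≤ u) (huS : US.card ≤ u)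
    (hu2 : 4000 * 71 * (u + 422 * (3 * mX + 3 * mS) + 710) ≤ n)
    (hmX : 1 ≤ mX) (hmS : 1 ≤ mS) (hYX : YX.card = 2 * mX) (hFX : FX.card ≤ 2 * mX)
    (hdX : Disjoint FX YX) (hYS : YS.card = 2 * mS) (hFS : FS.card ≤ 2 * mS) (hdS : Disjoint FS YS)
    (hFXU : FX ⊆ UX) (hYXU : YX ⊆ UX) (hFSU : FS ⊆ US) (hYSU : YS ⊆ US)
    (hrX : ∀ x ∈ YX ∪ FX, 9 * n ≤ 100 * x ∧ 100 * x ≤ 91 * n)
    (hrS : ∀ s ∈ YS ∪ FS, 1 ≤ s ∧ 100 * s ≤ 39 * n)
    (hcX : ∀ i ∈ Sp, c i ∉ YX ∪ FX) :
    ∃ P L S : Finset ℕ, P ⊆ Sp ∧ Disjoint L UX ∧ Disjoint S US ∧ L ⊆ Icc 1 n ∧ S ⊆ Icc 1 n ∧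
      (∀ x ∈ L, 9 * n ≤ 100 * x ∧ 100 * x ≤ 95 * n) ∧ (∀ s ∈ S, 100 * s ≤ 70 * n) ∧
      2 * P.card = L.card + 3 * mX ∧ 2 * P.card = S.card + 3 * mS ∧
      P.card ≤ 71 * (3 * mX) + 211 * (3 * mS) ∧
      ∀ FX' ⊆ FX, FX'.card = mX → ∀ FS' ⊆ FS, FS'.card = mS → ∃ XL XS : Finset ℕ,
        XL ⊆ YX ∪ FX' ∧ XS ⊆ YS ∪ FS' ∧ AbsD c P (L ∪ XL) (S ∪ XS) := by
  classical
  obtain ⟨Ns, hN1, hN2, hN3⟩ := template43 mX hmX YX FX hYX hFX hdX
  obtain ⟨Ms, hM1, hM2, hM3⟩ := template43 mS hmS YS FS hYS hFS hdS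
  obtain ⟨P, L, S, hP, hL, hS, hLr, hSr, rL, rS, cP, cL, cS, hab⟩ := absorber43 hmid hh hmult hbig hcU huX huS hu2
    Ns Ms
    (fun i => ⟨(hN1 i).trans (union_subset hYXU hFXU), hN2 i, fun x hx => hrX x (hN1 i hx),
      fun j hj h => hcX j hj (hN1 i h)⟩)
    (fun i => ⟨(hM1 i).trans (union_subset hYSU hFSU), hM2 i, fun s hs => hrS s (hM1 i hs)⟩)
  refine ⟨P, L, S, hP, hL, hS, hLr, hSr, rL, rS, ?_, ?_, ?_, ?_⟩
  · rw [cP, cL]
    simp only [sum_add_distrib, ← mul_sum, sum_const, card_univ, Fintype.card_fin, smul_eq_mul]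
    ring
  · rw [cP, cS]
    simp only [sum_add_distrib, ← mul_sum, sum_const, card_univ, Fintype.card_fin, smul_eq_mul]
    ring
  · rw [cP]
    have h1 : ∑ i, ((Ns i).card + 1) ≤ ∑ _i : Fin (3 * mX), 71 :=
      sum_le_sum fun i _ => by have := hN2 i; omega
    have h2 : ∑ i, (3 * (Ms i).card + 1) ≤ ∑ _i : Fin (3 * mS), 211 :=
      sum_le_sum fun i _ => by have := hM2 i; omega
    simp only [sum_const, card_univ, Fintype.card_fin, smul_eq_mul] at h1 h2
    omega
  · intro FX' hFX' hFX'c FS' hFS' hFS'c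
    obtain ⟨x, hx1, hx2, hx3⟩ := hN3 FX' hFX' hFX'c
    obtain ⟨s, hs1, hs2, hs3⟩ := hM3 FS' hFS' hFS'c
    refine ⟨univ.image x, univ.image s, ?_, ?_, hab x s hx1 hs1 hx2 hs2⟩
    · intro a ha
      obtain ⟨i, _, rfl⟩ := mem_image.1 ha
      exact hx3 i
    · intro a ha
      obtain ⟨i, _, rfl⟩ := mem_image.1 ha
      exact hs3 i

end Pool.Agent.GRC
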