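import Pool.Agent.Helper28.GRC.Defs

/-!
# GRC-MMX: monotone matchings

`match_inc`: sort `A` by `c` (ties arbitrary) and match with `B` in increasing order (induction: the element of `A` with maximal `c` gets `max B`; model `SEM.reserve`).  `match_dec`: apply it to
`{M - b : b ∈ B}`, `M = max B`.
`dec_window`: `c v - σ v` is injective and the `v` with `c v - σ v` in a window of length `w` have `c v` in a window of length `w`: if `c v < c v'` then `σ v' < σ v`, so `(c v' - σ v') - (c v - σ v) > c v' - c v`.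
`inc_window`: the same for `N - (c v + σ v)`.
-/

set_option autoImplicit false

namespace Pool.Agent.GRC

open Finset

/-- rank of `v` in `A` sorted by `(c v, v)` -/
private def rk10 (A : Finset ℕ) (c : ℕ → ℕ) (v : ℕ) : ℕ :=
  (A.filter fun u => c u < c v ∨ (c u = c v ∧ u < v)).card

private lemma rk10_lt {A : Finset ℕ} {c : ℕ → ℕ} {v : ℕ} (hv : v ∈ A) : rk10 A c v < A.card := by
  unfold rk10
  apply card_lt_card
  refine ⟨filter_subset _ _, fun h => ?_⟩
  have := mem_filter.mp (h hv)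
  omega

private lemma rk10_mono {A : Finset ℕ} {c : ℕ → ℕ} {v v' : ℕ} (hv : v ∈ A)
    (h : c v < c v' ∨ (c v = c v' ∧ v < v')) : rk10 A c v < rk10 A c v' := by
  unfold rk10
  apply card_lt_card
  refine ⟨fun u hu => ?_, fun hs => ?_⟩
  · rw [mem_filter] at hu ⊢
    refine ⟨hu.1, ?_⟩
    omega
  · have := mem_filter.mp (hs (mem_filter.mpr ⟨hv, h⟩))
    omega

theorem match_inc (A B : Finset ℕ) (c : ℕ → ℕ) (h : A.card = B.card) :
    ∃ σ : ℕ → ℕ, (∀ v ∈ A, σ v ∈ B) ∧ Set.InjOn σ A ∧ A.image σ = B ∧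
      ∀ v ∈ A, ∀ v' ∈ A, c v < c v' → σ v < σ v' := by
  have hval : ∀ v ∈ A, rk10 A c v < B.card := fun v hv => h ▸ rk10_lt hv
  let σ : ℕ → ℕ := fun v => if hv : rk10 A c v < B.card then
    B.orderEmbOfFin rfl ⟨rk10 A c v, hv⟩ else 0
  have hσ : ∀ v (hv : v ∈ A), σ v = B.orderEmbOfFin rfl ⟨rk10 A c v, hval v hv⟩ := by
    intro v hv
    simp only [σ]
    rw [dif_pos (hval v hv)]
  have hmono : ∀ v ∈ A, ∀ v' ∈ A, (c v < c v' ∨ (c v = c v' ∧ v < v')) → σ v < σ v' := by
    intro v hv v' hv' hlt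
    rw [hσ v hv, hσ v' hv']
    apply (B.orderEmbOfFin rfl).strictMono
    exact rk10_mono hv hlt
  have hmem : ∀ v ∈ A, σ v ∈ B := by
    intro v hv
    rw [hσ v hv]
    exact orderEmbOfFin_mem _ _ _
  have hinj : Set.InjOn σ A := by
    intro v hv v' hv' heq
    by_contra hne
    rcases lt_trichotomy (c v) (c v') with h1 | h1 | h1
    · have := hmono v hv v' hv' (Or.inl h1)
      omega
    · rcases lt_or_gt_of_ne hne with h2 | h2
      · have := hmono v hv v' hv' (Or.inr ⟨h1, h2⟩)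
        omega
      · have := hmono v' hv' v hv (Or.inr ⟨h1.symm, h2⟩)
        omega
    · have := hmono v' hv' v hv (Or.inl h1)
      omega
  refine ⟨σ, hmem, hinj, ?_, fun v hv v' hv' hlt => hmono v hv v' hv' (Or.inl hlt)⟩
  apply eq_of_subset_of_card_le
  · intro b hb
    obtain ⟨v, hv, rfl⟩ := mem_image.mp hb
    exact hmem v hv
  · rw [card_image_of_injOn hinj, h]

theorem match_dec (A B : Finset ℕ) (c : ℕ → ℕ) (h : A.card = B.card) :
    ∃ σ : ℕ → ℕ, (∀ v ∈ A, σ v ∈ B) ∧ Set.InjOn σ A ∧ A.image σ = B ∧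
      ∀ v ∈ A, ∀ v' ∈ A, c v < c v' → σ v' < σ v := by
  obtain ⟨σ, h1, h2, h3, h4⟩ := match_inc A B (fun v => A.sup c - c v) h
  refine ⟨σ, h1, h2, h3, fun v hv v' hv' hlt => h4 v' hv' v hv ?_⟩
  have h5 : c v' ≤ A.sup c := le_sup hv'
  show A.sup c - c v' < A.sup c - c v
  omega

theorem dec_window {A : Finset ℕ} {c σ : ℕ → ℕ} (hi : Set.InjOn σ A) (hle : ∀ v ∈ A, σ v ≤ c v)
    (h : ∀ v ∈ A, ∀ v' ∈ A, c v < c v' → σ v' < σ v) :
    Set.InjOn (fun v => c v - σ v) A ∧
      ∀ a w, ∃ a', (A.filter fun v => a ≤ c v - σ v ∧ c v - σ v ≤ a + w) ⊆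
        A.filter fun v => a' ≤ c v ∧ c v ≤ a' + w := by
  constructor
  · intro v hv v' hv' heq
    have e1 := hle v hv
    have e2 := hle v' hv'
    simp only at heq
    apply hi hv hv'
    rcases lt_trichotomy (c v) (c v') with h1 | h1 | h1
    · have := h v hv v' hv' h1
      omega
    · omega
    · have := h v' hv' v hv h1
      omega
  · intro a w
    rcases (A.filter fun v => a ≤ c v - σ v ∧ c v - σ v ≤ a + w).eq_empty_or_nonempty with he | hne
    · exact ⟨0, by rw [he]; exact empty_subset _⟩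
    · obtain ⟨v0, hv0, hmin⟩ := exists_min_image _ c hne
      refine ⟨c v0, fun v hv => ?_⟩
      have h1 := hmin v hv
      rw [mem_filter] at hv hv0 ⊢
      refine ⟨hv.1, h1, ?_⟩
      have e1 := hle v hv.1
      have e2 := hle v0 hv0.1
      rcases h1.lt_or_eq with h2 | h2
      · have := h v0 hv0.1 v hv.1 h2
        omega
      · omega

theorem inc_window {A : Finset ℕ} {c σ : ℕ → ℕ} {N : ℕ} (hi : Set.InjOn σ A) (hle : ∀ v ∈ A, c v + σ v ≤ N)
    (h : ∀ v ∈ A, ∀ v' ∈ A, c v < c v' → σ v < σ v') :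
    Set.InjOn (fun v => N - (c v + σ v)) A ∧
      ∀ a w, ∃ a', (A.filter fun v => a ≤ N - (c v + σ v) ∧ N - (c v + σ v) ≤ a + w) ⊆
        A.filter fun v => a' ≤ c v ∧ c v ≤ a' + w := by
  constructor
  · intro v hv v' hv' heq
    have e1 := hle v hv
    have e2 := hle v' hv'
    simp only at heq
    apply hi hv hv'
    rcases lt_trichotomy (c v) (c v') with h1 | h1 | h1
    · have := h v hv v' hv' h1
      omega
    · omega
    · have := h v' hv' v hv h1
      omega
  · intro a w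
    rcases (A.filter fun v => a ≤ N - (c v + σ v) ∧ N - (c v + σ v) ≤ a + w).eq_empty_or_nonempty
      with he | hne
    · exact ⟨0, by rw [he]; exact empty_subset _⟩
    · obtain ⟨v0, hv0, hmin⟩ := exists_min_image _ c hne
      refine ⟨c v0, fun v hv => ?_⟩
      have h1 := hmin v hv
      rw [mem_filter] at hv hv0 ⊢
      refine ⟨hv.1, h1, ?_⟩
      have e1 := hle v hv.1
      have e2 := hle v0 hv0.1
      rcases h1.lt_or_eq with h2 | h2
      · have := h v0 hv0.1 v hv.1 h2
        omega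
      · omega

end Pool.Agent.GRC
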