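import Pool.Agent.Helper28.GRC.DATG
import Pool.Agent.Helper28.GRC.STF
import Pool.Agent.Helper28.GRC.GA
import Pool.Agent.Helper28.GRC.MMX

/-!
# GRC-MKD: construction of the data of the final assembly

Model: Helper73/SEM/FP2.lean (`mk_dat`).  `Rp` = separating vertices and deterministic stars with the labels of `LabP`, `Sp` = special pendant paths.

Proof in words.  `FX = FXr n q3 q4`, `FXE = FXe n P q6`, `FS = FSr n q1 q2`, `B = Bee P q7`.  Choose `Ve ⊆ Sp` with `|Ve| = |B|`, `Vin ⊆ Sp \ Ve` with `|Vin| = NV`; `β` on `Ve`: `match_dec` (`c = lab ∘ p`, `σ = β`), so the differences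
`lab (p v) - β v ∈ [0.4992 n - 0.2 P, 0.5008 n]` are distinct (`dec_window`).  `mX = |FX| + |FXE| - |B| - 2 NV - g`, `mS = |FS| - |B| - 2 NV` (both `≥ 1`, `|FX| ≤ 2 mX`, `|FS| ≤ 2 mS` by `hbX`, `hbS`).
`YX ⊆ [n/10+1, 9n/10]`, `|YX| = 2 mX`, avoiding `lab '' Rp`, `FX`, `FXE`, `B`; `YS ⊆ [1, 39n/100]`, `|YS| = 2 mS`, avoiding the differences of `EI`, `FS`.
`absorb_all` with `Sp \ (Ve ∪ Vin)`, `c v = lab (p v)`, `h = n/1000 - 1`, `D = Dm`, `UX = lab '' Rp ∪ FX ∪ FXE ∪ YX ∪ B`, `US = dv '' EI ∪ FS ∪ YS ∪ (differences of Ve)`, `u = |Rp| + g + 4 (|FX| + |FXE| + |FS|)` gives `A, L, Sm`.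
Disjointness: `LabP.out`: the labels of `Rp` are `< 0.99 P` but not in `[0.07P, 0.2P]`, or strictly between `0.45 n` and `0.55 n`, or `> n - P/4`; `FX ⊆ [0.1n, 0.45n] ∪ [0.55n, 0.9n]`, `FXE ⊆ (0.9 n, n - 0.79 P]`, `B ⊆ (0.07 P, 0.2 P]`.
`LabP.dout`: differences of `EI` are `≤ 0.1 n`, in `[0.519n, 0.551n]` or `> n - P`; `FS ⊆ (0.11n, 0.39n]`, `YS ⊆ [1, 0.39n]`, `Ve`: `[0.499 n - , 0.501 n]`.
-/

set_option autoImplicit false

namespace Pool.Agent.GRC

open Finset Pool.Agent.SEM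

/-! numerical facts -/

private theorem n22a {fx fxe fs b NV g mX mS : ℕ} (hbX : 20 * (b + 2 * NV + g + 1) ≤ fx)
    (hbS : 20 * (b + 2 * NV + 1) ≤ fs) (hmX : mX = fx + fxe - (b + 2 * NV + g))
    (hmS : mS = fs - (b + 2 * NV)) :
    fx + fxe = mX + b + 2 * NV + g ∧ fs = mS + b + 2 * NV ∧ 1 ≤ mX ∧ 1 ≤ mS ∧ fx ≤ 2 * mX ∧
      fs ≤ 2 * mS ∧ mX ≤ fx + fxe ∧ mS ≤ fs ∧ 20 * b ≤ fx ∧ 20 * b ≤ fs := by
  refine ⟨?_, ?_, ?_, ?_, ?_, ?_, ?_, ?_, ?_, ?_⟩ <;> omega

private theorem n22b {Dm fx fxe fs b NV sp : ℕ}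
    (hbig : 504100 * (Dm + 1) + 213 * (fx + fxe) + 633 * fs + b + NV ≤ sp) :
    b ≤ sp ∧ ∀ t, t + b = sp → NV ≤ t := by
  refine ⟨by omega, fun t ht => by omega⟩

private theorem n22c {n P b l : ℕ} (hP : 10 ^ 6 ≤ P) (hPn : 10 ^ 6 * P ≤ n)
    (hb : 7 * P / 100 + 1 ≤ b ∧ b ≤ 20 * P / 100) (hl : 4992 * n ≤ 10000 * l ∧ 10000 * l ≤ 5008 * n) :
    b ≤ l ∧ b ≤ n ∧ 1 ≤ l - b ∧ l - b ≤ n ∧ 499 * n ≤ 1000 * (l - b) ∧ 1000 * (l - b) ≤ 501 * n := by
  refine ⟨?_, ?_, ?_, ?_, ?_, ?_⟩ <;> omega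

private theorem n22d {n R g fx fxe fs b mX t u v w : ℕ}
    (hu : 10 ^ 6 * (R + g + 2000 * (fx + fxe + fs) + 1000) ≤ n) (hm : mX ≤ fx + fxe) (hb : 20 * b ≤ fx)
    (h1 : 9 * n / 10 + 1 - (n / 10 + 1) - u ≤ t) (h2 : u ≤ w + v) (h3 : v ≤ fx + b) (h4 : w ≤ R) :
    2 * mX ≤ t := by
  omega

private theorem n22e {n R g fx fxe fs mS t u w : ℕ}
    (hu : 10 ^ 6 * (R + g + 2000 * (fx + fxe + fs) + 1000) ≤ n) (hm : mS ≤ fs)
    (h1 : 39 * n / 100 + 1 - 1 - u ≤ t) (h2 : u ≤ w + fs) (h4 : w ≤ R + g) :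
    2 * mS ≤ t := by
  omega

private theorem n22f {n l : ℕ} (hn : 10 ^ 6 ≤ n) (hl : 4992 * n ≤ 10000 * l ∧ 10000 * l ≤ 5008 * n) :
    n / 2 ≤ l + (n / 1000 - 1) ∧ l ≤ n / 2 + (n / 1000 - 1) := by
  constructor <;> omega

private theorem n22g {n R g fx fxe fs mX mS : ℕ}
    (hu : 10 ^ 6 * (R + g + 2000 * (fx + fxe + fs) + 1000) ≤ n) (hm : mX ≤ fx + fxe) (hs : mS ≤ fs) :
    4000 * 71 * (R + g + 4 * (fx + fxe + fs) + 422 * (3 * mX + 3 * mS) + 710) ≤ n := by
  exact (Nat.mul_le_mul (by norm_num) (by omega)).trans hu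

private theorem n22h {Dm fx fxe fs b NV sp t mX mS : ℕ}
    (hbig : 504100 * (Dm + 1) + 213 * (fx + fxe) + 633 * fs + b + NV ≤ sp) (ht : t + (b + NV) = sp)
    (hm : mX ≤ fx + fxe) (hs : mS ≤ fs) :
    100 * 71 ^ 2 * (Dm + 1) + 71 * (3 * mX) + 211 * (3 * mS) ≤ t := by
  have e0 : 100 * 71 ^ 2 * (Dm + 1) = 504100 * (Dm + 1) := by norm_num
  rw [e0]
  omega

private theorem n22i {fx fxe fs a l mX mS y t : ℕ} (h1 : 2 * a = l + 3 * mX)
    (h2 : a ≤ 71 * (3 * mX) + 211 * (3 * mS)) (hm : mX ≤ fx + fxe) (hs : mS ≤ fs) (hy : y = 2 * mX)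
    (ht : t ≤ y + l) : t ≤ 2000 * (fx + fxe + fs) := by
  omega

private theorem n22j {fx fxe fs a l mX mS y t : ℕ} (h1 : 2 * a = l + 3 * mS)
    (h2 : a ≤ 71 * (3 * mX) + 211 * (3 * mS)) (hm : mX ≤ fx + fxe) (hs : mS ≤ fs) (hy : y = 2 * mS)
    (ht : t ≤ y + l) : t ≤ 2000 * (fx + fxe + fs) := by
  omega

private theorem count_res22 {Res B : Finset ℕ} {β : ℕ → ℕ} (hc : Res.card = B.card)
    (hB : ∀ v ∈ Res, β v ∈ B) (hI : Set.InjOn β Res) (Q : ℕ → Prop) [DecidablePred Q] :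
    (B.filter Q).card ≤ (Res.filter fun v => Q (β v)).card := by
  have h1 : Res.image β = B := by
    apply eq_of_subset_of_card_le
    · intro b hb
      obtain ⟨v, hv, rfl⟩ := mem_image.1 hb
      exact hB v hv
    · rw [card_image_of_injOn hI, hc]
  rw [← h1]
  have h2 : (Res.image β).filter Q = (Res.filter fun v => Q (β v)).image β := by
    ext b
    simp only [mem_filter, mem_image]
    constructor
    · rintro ⟨⟨v, hv, rfl⟩, h⟩
      exact ⟨v, ⟨hv, h⟩, rfl⟩
    · rintro ⟨v, ⟨hv, h⟩, rfl⟩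
      exact ⟨⟨v, hv, rfl⟩, h⟩
  rw [h2]
  exact card_image_le

theorem mk_datG {m g n P w K Dm NV q1 q2 q3 q4 q6 q7 κe κ' : ℕ} {τw : ℝ} {p ea eb top lab : ℕ → ℕ} {R Rp Sp : Finset ℕ}
    (hn : n + 1 = m + g) (hp : Par m p) (hD : Dec m p K Rp top) (hRR : R ⊆ Rp)
    (hL : LabP m g n P w τw p ea eb R Rp Sp lab) (hex : ∀ j < g, ea j ∈ Rp ∧ eb j ∈ Rp)
    (hSp : ∀ v ∈ Sp, Pend m p v ∧ p v ∈ R ∧ v ∉ Rp ∧ uc m p v ∉ Rp)
    (hmult : ∀ r, (Sp.filter fun v => p v = r).card ≤ Dm)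
    (hctr : ∀ r ∈ Rp, ((∃ v, 0 < v ∧ v < m ∧ v ∉ Rp ∧ p v = r) ∨ (0 < r ∧ p r ∉ Rp)) → r ∈ R)
    (hP : 10 ^ 6 ≤ P) (hPn : 10 ^ 6 * P ≤ n)
    (f1 : ∀ s, 72 * n < 100 * s → s + P ≤ n → κe ≤
      ((Bee P q7).filter fun b => b + s ∈ FXr n q3 q4 ∪ FXe n P q6).card)
    (f3 : ∀ b ∈ Bee P q7, κ' ≤ ((FXr n q3 q4).filter fun x => ad b x ∈ FSr n q1 q2).card)
    (f4 : ∀ a a', a ≤ n → 45 * n ≤ 100 * a' → 100 * a' ≤ 55 * n → κ' ≤
      ((FXr n q3 q4).filter fun x => ad a x ∈ FSr n q1 q2 ∧ ad a' x ∈ FSr n q1 q2).card)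
    (f5 : ∀ s a', 100 * s ≤ 72 * n → 499 * n ≤ 1000 * a' → 1000 * a' ≤ 501 * n → κ' ≤
      ((FXr n q3 q4).filter fun x => ad a' x ∈ FSr n q1 q2 ∧ x + s ∈ FXr n q3 q4).card)
    (hbX : 20 * ((Bee P q7).card + 2 * NV + g + 1) ≤ (FXr n q3 q4).card)
    (hbS : 20 * ((Bee P q7).card + 2 * NV + 1) ≤ (FSr n q1 q2).card)
    (hbig : 504100 * (Dm + 1) + 213 * ((FXr n q3 q4).card + (FXe n P q6).card) + 633 * (FSr n q1 q2).card +
      (Bee P q7).card + NV ≤ Sp.card)
    (hu : 10 ^ 6 * (Rp.card + g + 2000 * ((FXr n q3 q4).card + (FXe n P q6).card + (FSr n q1 q2).card) + 1000) ≤ n) :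
    ∃ (β : ℕ → ℕ) (Ve Vin A YX YS L Sm : Finset ℕ),
      DatG m g n K ((FXr n q3 q4).card + (FXe n P q6).card - ((Bee P q7).card + 2 * NV + g))
        ((FSr n q1 q2).card - ((Bee P q7).card + 2 * NV)) κe κ' P p ea eb top lab β Rp Ve Vin A
        (FXr n q3 q4) (FXe n P q6) (FSr n q1 q2) YX YS L Sm ∧
      Ve.card = (Bee P q7).card ∧ Vin.card = NV ∧ Ve ∪ Vin ∪ A ⊆ Sp ∧ Ve.image β ⊆ Bee P q7 ∧
      (YX ∪ L).card ≤ 2000 * ((FXr n q3 q4).card + (FXe n P q6).card + (FSr n q1 q2).card) ∧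
      (YS ∪ Sm).card ≤ 2000 * ((FXr n q3 q4).card + (FXe n P q6).card + (FSr n q1 q2).card) := by
  classical
  set FX := FXr n q3 q4 with hFXdef
  set FXE := FXe n P q6 with hFXEdef
  set FS := FSr n q1 q2 with hFSdef
  set B := Bee P q7 with hBdef
  set mX := FX.card + FXE.card - (B.card + 2 * NV + g) with hmX
  set mS := FS.card - (B.card + 2 * NV) with hmS
  obtain ⟨e1, e2, e3, e4, e5, e6, e7, e8, e9, e10⟩ := n22a hbX hbS hmX hmS
  have hc1 := (n22b hbig).1
  have hc2 := (n22b hbig).2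
  have hn6 : 10 ^ 6 ≤ n := hP.trans ((Nat.le_mul_of_pos_left P (by norm_num)).trans hPn)
  clear_value mX mS
  clear hmX hmS hbX hbS
  -- membership facts
  have hFXm : ∀ x ∈ FX, n / 10 + 1 ≤ x ∧ x ≤ 9 * n / 10 ∧ (100 * x ≤ 45 * n ∨ 55 * n ≤ 100 * x) := by
    intro x hx
    rw [hFXdef, FXr, mem_filter, mem_Icc] at hx
    exact ⟨hx.1.1, hx.1.2, hx.2.1⟩
  have hFXEm : ∀ x ∈ FXE, 9 * n / 10 + 1 ≤ x ∧ x ≤ n ∧ 79 * P ≤ 100 * (n - x) := by
    intro x hx
    rw [hFXEdef, FXe, mem_filter, mem_Icc] at hx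
    exact ⟨hx.1.1, hx.1.2, hx.2.1⟩
  have hFSm : ∀ s ∈ FS, 11 * n / 100 + 1 ≤ s ∧ s ≤ 39 * n / 100 := by
    intro s hs
    rw [hFSdef, FSr, mem_filter, mem_Icc] at hs
    exact hs.1
  have hBm : ∀ b ∈ B, 7 * P / 100 + 1 ≤ b ∧ b ≤ 20 * P / 100 := by
    intro b hb
    rw [hBdef, Bee, mem_filter, mem_Icc] at hb
    exact hb.1
  have hmid : ∀ v ∈ Sp, 4992 * n ≤ 10000 * lab (p v) ∧ 10000 * lab (p v) ≤ 5008 * n := hL.mid
  have hSpR : ∀ v ∈ Sp, p v ∈ Rp := fun v hv => hRR (hSp v hv).2.1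
  -- the reserved paths
  obtain ⟨Ve, hVe1, hVe2⟩ := exists_subset_card_eq (s := Sp) (n := B.card) hc1
  obtain ⟨Vin, hVin1, hVin2⟩ := exists_subset_card_eq (s := Sp \ Ve) (n := NV) (by
    have h1 : (Sp \ Ve).card + Ve.card = Sp.card := card_sdiff_add_card_eq_card hVe1
    rw [hVe2] at h1
    exact hc2 _ h1)
  have hVinS : Vin ⊆ Sp := hVin1.trans sdiff_subset
  have dVV : Disjoint Ve Vin := by
    rw [disjoint_left]; intro v h1 h2
    exact (mem_sdiff.1 (hVin1 h2)).2 h1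
  obtain ⟨β, b1, b2, b3, b4⟩ := match_dec Ve B (fun v => lab (p v)) hVe2
  have hβm : ∀ v ∈ Ve, 7 * P / 100 + 1 ≤ β v ∧ β v ≤ 20 * P / 100 := fun v hv => hBm _ (b1 v hv)
  have hle : ∀ v ∈ Ve, β v ≤ (fun v => lab (p v)) v := by
    intro v hv
    exact (n22c hP hPn (hβm v hv) (hmid v (hVe1 hv))).1
  have hcb0 := (dec_window (A := Ve) (c := fun v => lab (p v)) (σ := β) b2 hle b4).1
  have hade : ∀ v ∈ Ve, ad (lab (p v)) (β v) = lab (p v) - β v := by
    intro v hv
    have h1 : β v ≤ lab (p v) := hle v hv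
    unfold ad; omega
  have hcbI : Set.InjOn (fun v => ad (lab (p v)) (β v)) Ve := by
    intro v hv v' hv' h
    have h' : ad (lab (p v)) (β v) = ad (lab (p v')) (β v') := h
    rw [hade v hv, hade v' hv'] at h'
    exact hcb0 hv hv' h'
  have hcbm : ∀ v ∈ Ve, 499 * n ≤ 1000 * ad (lab (p v)) (β v) ∧
      1000 * ad (lab (p v)) (β v) ≤ 501 * n := by
    intro v hv
    rw [hade v hv]
    exact (n22c hP hPn (hβm v hv) (hmid v (hVe1 hv))).2.2.2.2
  set CB := Ve.image (fun v => ad (lab (p v)) (β v)) with hCB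
  set ES := (EI m g p Rp).image (dv m p ea eb lab) with hES
  have hCBm : ∀ s ∈ CB, 499 * n ≤ 1000 * s ∧ 1000 * s ≤ 501 * n := by
    intro s hs
    obtain ⟨v, hv, rfl⟩ := mem_image.1 hs
    exact hcbm v hv
  have hESm : ∀ s ∈ ES, (10 * s ≤ n ∨ (519 * n ≤ 1000 * s ∧ 1000 * s ≤ 551 * n) ∨ n < s + P) ∧
      1 ≤ s ∧ s ≤ n := by
    intro s hs
    obtain ⟨i, hi, rfl⟩ := mem_image.1 hs
    exact ⟨hL.dout i hi, hL.dR i hi⟩
  have hRXm : ∀ x ∈ Rp.image lab, x ≤ n ∧ (100 * x < 7 * P ∨ (20 * P < 100 * x ∧ 100 * x < 99 * P) ∨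
      (45 * n < 100 * x ∧ 100 * x < 55 * n) ∨ (1000 * (n - x) < 17 * P) ∨
      (58 * P < 1000 * (n - x) ∧ 4 * (n - x) < P)) := by
    intro x hx
    obtain ⟨r, hr, rfl⟩ := mem_image.1 hx
    exact ⟨hL.le r hr, hL.out r hr⟩
  have hRc : (Rp.image lab).card ≤ Rp.card := card_image_le
  have hEIc : (EI m g p Rp).card ≤ Rp.card + g := by
    have h1 : EI m g p Rp ⊆ Rp ∪ Ico m (m + g) := by
      intro i hi
      rw [EI, mem_filter, mem_Ico] at hi
      rw [mem_union, mem_Ico]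
      rcases hi.2 with h | h
      · right; omega
      · left; exact h.1
    have h2 := (card_le_card h1).trans (card_union_le _ _)
    rw [Nat.card_Ico] at h2
    omega
  have hESc : ES.card ≤ Rp.card + g := card_image_le.trans hEIc
  have hCBc : CB.card ≤ B.card := by
    rw [← hVe2]; exact card_image_le
  -- the sets YX, YS
  obtain ⟨YX, hYX1, hYX2⟩ := exists_subset_card_eq (s := Icc (n / 10 + 1) (9 * n / 10) \
      (Rp.image lab ∪ (FX ∪ B))) (n := 2 * mX) (by
    have h1 := le_card_sdiff (Rp.image lab ∪ (FX ∪ B)) (Icc (n / 10 + 1) (9 * n / 10))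
    rw [Nat.card_Icc] at h1
    have h2 := card_union_le (Rp.image lab) (FX ∪ B)
    have h3 := card_union_le FX B
    exact n22d hu e7 e9 h1 h2 h3 hRc)
  obtain ⟨YS, hYS1, hYS2⟩ := exists_subset_card_eq (s := Icc 1 (39 * n / 100) \
      (ES ∪ FS)) (n := 2 * mS) (by
    have h1 := le_card_sdiff (ES ∪ FS) (Icc 1 (39 * n / 100))
    rw [Nat.card_Icc] at h1
    have h2 := card_union_le ES FS
    exact n22e hu e8 h1 h2 hESc)
  have hYXm : ∀ x ∈ YX, n / 10 + 1 ≤ x ∧ x ≤ 9 * n / 10 ∧ x ∉ Rp.image lab ∧ x ∉ FX ∧ x ∉ B := by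
    intro x hx
    have := hYX1 hx
    rw [mem_sdiff, mem_Icc, mem_union, mem_union, not_or, not_or] at this
    exact ⟨this.1.1, this.1.2, this.2.1, this.2.2.1, this.2.2.2⟩
  have hYSm : ∀ x ∈ YS, 1 ≤ x ∧ x ≤ 39 * n / 100 ∧ x ∉ ES ∧ x ∉ FS := by
    intro x hx
    have := hYS1 hx
    rw [mem_sdiff, mem_Icc, mem_union, not_or] at this
    exact ⟨this.1.1, this.1.2, this.2.1, this.2.2⟩
  set UX := Rp.image lab ∪ (FX ∪ (FXE ∪ (YX ∪ B))) with hUX
  set US := ES ∪ (FS ∪ (YS ∪ CB)) with hUS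
  have hUXc : UX.card ≤ Rp.card + 3 * (FX.card + FXE.card) + B.card := by
    rw [hUX]
    have h1 := card_union_le (Rp.image lab) (FX ∪ (FXE ∪ (YX ∪ B)))
    have h2 := card_union_le FX (FXE ∪ (YX ∪ B))
    have h3 := card_union_le FXE (YX ∪ B)
    have h4 := card_union_le YX B
    omega
  have hUSc : US.card ≤ Rp.card + g + 3 * FS.card + B.card := by
    rw [hUS]
    have h1 := card_union_le ES (FS ∪ (YS ∪ CB))
    have h2 := card_union_le FS (YS ∪ CB)
    have h3 := card_union_le YS CB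
    omega
  have hVV : Ve ∪ Vin ⊆ Sp := union_subset hVe1 hVinS
  have hVVc : (Ve ∪ Vin).card = B.card + NV := by
    rw [card_union_of_disjoint dVV, hVe2, hVin2]
  have hSupc : (Sp \ (Ve ∪ Vin)).card + (B.card + NV) = Sp.card := by
    rw [← hVVc]; exact card_sdiff_add_card_eq_card hVV
  have hlabR : ∀ v ∈ Sp, lab (p v) ∈ Rp.image lab := fun v hv => mem_image_of_mem lab (hSpR v hv)
  obtain ⟨A, L, Sm, a1, a2, a3, a4, a5, _, _, a6, a7, a8, a9⟩ := absorb_all (n := n) (h := n / 1000 - 1)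
    (D := Dm) (u := Rp.card + g + 4 * (FX.card + FXE.card + FS.card)) (mX := mX) (mS := mS)
    (c := fun v => lab (p v)) (Sp := Sp \ (Ve ∪ Vin)) (UX := UX) (US := US) (FX := FX) (FS := FS)
    (YX := YX) (YS := YS)
    (fun i hi => by
      exact n22f hn6 (hmid i (mem_sdiff.1 hi).1))
    (by clear hu hbig; omega)
    (by
      intro x
      rcases ((Sp \ (Ve ∪ Vin)).filter fun i => lab (p i) = x).eq_empty_or_nonempty with h0 | ⟨v, hv⟩
      · rw [h0, card_empty]; omega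
      · rw [mem_filter, mem_sdiff] at hv
        refine (card_le_card ?_).trans (hmult (p v))
        intro w hw
        rw [mem_filter, mem_sdiff] at hw
        rw [mem_filter]
        refine ⟨hw.1.1, hL.inj (hSpR w hw.1.1) (hSpR v hv.1.1) ?_⟩
        rw [hw.2, hv.2])
    (n22h hbig hSupc e7 e8)
    (fun i hi => mem_union_left _ (hlabR i (mem_sdiff.1 hi).1))
    (by clear hu hbig; omega) (by clear hu hbig; omega)
    (n22g hu e7 e8)
    e3 e4 hYX2 e5
    (by rw [disjoint_left]; intro x h1 h2; exact (hYXm x h2).2.2.2.1 h1)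
    hYS2 e6
    (by rw [disjoint_left]; intro x h1 h2; exact (hYSm x h2).2.2.2 h1)
    (fun x hx => mem_union_right _ (mem_union_left _ hx))
    (fun x hx => mem_union_right _ (mem_union_right _ (mem_union_right _ (mem_union_left _ hx))))
    (fun x hx => mem_union_right _ (mem_union_left _ hx))
    (fun x hx => mem_union_right _ (mem_union_right _ (mem_union_left _ hx)))
    (by
      intro x hx
      rcases mem_union.1 hx with h1 | h1
      · have := hYXm x h1; omega
      · have := hFXm x h1; omega)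
    (by
      intro x hx
      rcases mem_union.1 hx with h1 | h1
      · have := hYSm x h1; omega
      · have := hFSm x h1; omega)
    (by
      intro i hi h1
      have h2 := hlabR i (mem_sdiff.1 hi).1
      rcases mem_union.1 h1 with h3 | h3
      · exact (hYXm _ h3).2.2.1 h2
      · have h4 := hFXm _ h3
        have h5 := hmid i (mem_sdiff.1 hi).1
        omega)
  have hAS : ∀ v ∈ A, v ∈ Sp ∧ v ∉ Ve ∪ Vin := fun v hv => mem_sdiff.1 (a1 hv)
  have hall : Ve ∪ Vin ∪ A ⊆ Sp := union_subset hVV (fun v hv => (hAS v hv).1)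
  have hβB : Ve.image β ⊆ B := by
    intro x hx
    obtain ⟨v, hv, rfl⟩ := mem_image.1 hx
    exact b1 v hv
  have hLX : ∀ x ∈ L, x ∉ Rp.image lab ∧ x ∉ FX ∧ x ∉ FXE ∧ x ∉ YX ∧ x ∉ B := by
    intro x hx
    have h1 := disjoint_left.1 a2 hx
    rw [hUX] at h1
    simp only [mem_union, not_or] at h1
    exact ⟨h1.1, h1.2.1, h1.2.2.1, h1.2.2.2.1, h1.2.2.2.2⟩
  have hSmS : ∀ s ∈ Sm, s ∉ ES ∧ s ∉ FS ∧ s ∉ YS ∧ s ∉ CB := by
    intro s hs
    have h1 := disjoint_left.1 a3 hs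
    rw [hUS] at h1
    simp only [mem_union, not_or] at h1
    exact ⟨h1.1, h1.2.1, h1.2.2.1, h1.2.2.2⟩
  clear hu hbig
  refine ⟨β, Ve, Vin, A, YX, YS, L, Sm, ?_, hVe2, hVin2, hall, hβB, ?_, ?_⟩
  · exact
      { hn := hn
        par := hp
        dec := hD
        exR := hex
        sp := fun v hv => by
          have h1 := hSp v (hall hv)
          exact ⟨h1.1, hRR h1.2.1, h1.2.2⟩
        dV := dVV
        dA := by
          rw [disjoint_left]; intro v h1 h2
          exact (hAS v h2).2 h1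
        labI := hL.inj
        labR := hL.le
        dvI := hL.dInj
        dvR := hL.dR
        βI := b2
        βR := fun v hv => (n22c hP hPn (hβm v hv) (hmid v (hVe1 hv))).2.1
        cbI := hcbI
        cbR := fun v hv => by
          have h1 := n22c hP hPn (hβm v hv) (hmid v (hVe1 hv))
          show 1 ≤ ad (lab (p v)) (β v) ∧ ad (lab (p v)) (β v) ≤ n
          rw [hade v hv]
          exact ⟨h1.2.2.1, h1.2.2.2.1⟩
        XR := by
          intro x hx
          rw [mem_range]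
          rcases mem_union.1 hx with hx | hx
          · rcases mem_union.1 hx with hx | hx
            · rcases mem_union.1 hx with hx | hx
              · have := hFXm x hx; omega
              · have := hFXEm x hx; omega
            · have := hYXm x hx; omega
          · have := mem_Icc.1 (a4 hx); omega
        SR := by
          intro s hs
          rw [mem_Icc]
          rcases mem_union.1 hs with hs | hs
          · rcases mem_union.1 hs with hs | hs
            · have := hFSm s hs; omega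
            · have := hYSm s hs; omega
          · exact mem_Icc.1 (a5 hs)
        x1 := by
          rw [disjoint_left]
          intro x h1 h2
          have hr := hRXm x h1
          rcases mem_union.1 h2 with h2 | h2
          · rcases mem_union.1 h2 with h2 | h2
            · rcases mem_union.1 h2 with h2 | h2
              · rcases mem_union.1 h2 with h2 | h2
                · have := hFXm x h2; omega
                · have := hFXEm x h2; omega
              · exact (hYXm x h2).2.2.1 h1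
            · have := hBm x (hβB h2); omega
          · exact (hLX x h2).1 h1
        x2 := by
          rw [disjoint_left]
          intro x h1 h2
          have hr := hFXm x h1
          rcases mem_union.1 h2 with h2 | h2
          · rcases mem_union.1 h2 with h2 | h2
            · rcases mem_union.1 h2 with h2 | h2
              · have := hFXEm x h2; omega
              · exact (hYXm x h2).2.2.2.1 h1
            · have := hBm x (hβB h2); omega
          · exact (hLX x h2).2.1 h1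
        x3 := by
          rw [disjoint_left]
          intro x h1 h2
          have hr := hFXEm x h1
          rcases mem_union.1 h2 with h2 | h2
          · rcases mem_union.1 h2 with h2 | h2
            · have := hYXm x h2; omega
            · have := hBm x (hβB h2); omega
          · exact (hLX x h2).2.2.1 h1
        x4 := by
          rw [disjoint_left]
          intro x h1 h2
          rcases mem_union.1 h2 with h2 | h2
          · exact (hYXm x h1).2.2.2.2 (hβB h2)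
          · exact (hLX x h2).2.2.2.1 h1
        x5 := by
          rw [disjoint_left]
          intro x h1 h2
          exact (hLX x h2).2.2.2.2 (hβB h1)
        s1 := by
          rw [disjoint_left]
          intro s h1 h2
          have hr := hESm s h1
          rcases mem_union.1 h2 with h2 | h2
          · rcases mem_union.1 h2 with h2 | h2
            · rcases mem_union.1 h2 with h2 | h2
              · have := hFSm s h2; omega
              · exact (hYSm s h2).2.2.1 h1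
            · have := hCBm s h2; omega
          · exact (hSmS s h2).1 h1
        s2 := by
          rw [disjoint_left]
          intro s h1 h2
          have hr := hFSm s h1
          rcases mem_union.1 h2 with h2 | h2
          · rcases mem_union.1 h2 with h2 | h2
            · exact (hYSm s h2).2.2.2 h1
            · have := hCBm s h2; omega
          · exact (hSmS s h2).2.1 h1
        s3 := by
          rw [disjoint_left]
          intro s h1 h2
          have hr := hYSm s h1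
          rcases mem_union.1 h2 with h2 | h2
          · have := hCBm s h2; omega
          · exact (hSmS s h2).2.2.1 h1
        s4 := by
          rw [disjoint_left]
          intro s h1 h2
          exact (hSmS s h2).2.2.2 h1
        cX := by omega
        cYX := hYX2
        cPX := a6
        cS := by omega
        cYS := hYS2
        cPS := a7
        absb := a9
        cov := hL.cov
        f1 := fun s h1 h2 => (f1 s h1 h2).trans (count_res22 hVe2 b1 b2 (fun b => b + s ∈ FX ∪ FXE))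
        f3 := fun v hv => f3 _ (b1 v hv)
        f4 := f4
        f5 := f5
        mid := fun v hv => by
          have := hmid v (hVV hv)
          omega
        ctr := fun r hr h => by
          have := hL.ctr r (hctr r hr h) h
          omega }
  · exact n22i a6 a8 e7 e8 hYX2 (card_union_le YX L)
  · exact n22j a7 a8 e7 e8 hYS2 (card_union_le YS Sm)

end Pool.Agent.GRC
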