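import Pool.Agent.Helper28.GRC.LWG
import Pool.Agent.Helper28.GRC.PKL
import Pool.Agent.Helper73.SEM.PK

/-!
# GRC-PKG: the packing theorem (almost all the main pieces are embedded)

Model: Helper73/SEM/PK.lean (please copy and modify; the lemmas `h85_*` are general).

Proof in words.  Combine `lawsG` and `pack_laws` (with `U = 50/ω`; `PD` is monotone in `U`, and `50 n/w ≤ 50/ω`).  `m` = number of vertices of the tree, `n` = label scale, `m ≤ n + 1`.
`P τ = pc m R top τ`, `ex τ = exs p R top τ`.  Good stars `c`: `StarD m p D c`, `p c ∉ R`, no child in `R`; choose a set `I` of exactly `A = ⌈24 √(Pn)/D⌉` good stars in the pieces of `T`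
(`A ≤ ε n/2`: `24 √μ n/D + 1`); `ST τ = I ∩ P τ`, `lf c = chl m p c`, `F τ = {uc v : v ∈ P τ, Pend m p v, uc v ∉ R}`, `Q τ = P τ \ (F τ ∪ ST τ ∪ ⋃ lf c)`.  `PGeo`: the parent of a flexible leaf is the `Pend` vertex `v`: it is not a star centre
(`D ≥ 2` children), not a leaf; so `v ∈ Q τ`.  `p c ∈ P τ` (`p c ∉ R`), it has the child `c` which is not a leaf, so `p c` is not a star centre, not a `Pend` vertex's leaf, not a leaf: `p c ∈ Q τ`.
`τ ∈ Q τ`: `p τ ∈ R`, but the parents of the vertices of `F τ`, of the star centres and of their leaves are not in `R`.  Exits: `p r ∈ Q τ` (the children of star centres and of `Pend` vertices of `F` are not in `R`).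
`uc` is injective on `Pend` vertices.  Cardinalities: `MV = ⋃ P τ`, `EM = ⋃ (P τ ∪ ex τ)`, `|P τ| = |Q τ| + |F τ| + (D+1)|ST τ|`.
`P τ ⊆ Icc 1 n` since `0 ∈ R` and `m ≤ n + 1`.
-/

set_option autoImplicit false

namespace Pool.Agent.GRC

open Finset Pool.Agent.SEM

section h36aux

variable {m K D : ℕ} {p top : ℕ → ℕ} {R I : Finset ℕ}

/-- a good star centre -/
def h36G (m D : ℕ) (p : ℕ → ℕ) (R : Finset ℕ) (c : ℕ) : Prop :=
  StarD m p D c ∧ p c ∉ R ∧ ∀ u ∈ chl m p c, u ∉ R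

/-- the flexible leaves of a piece -/
noncomputable def h36F (m : ℕ) (p : ℕ → ℕ) (R : Finset ℕ) (top : ℕ → ℕ) (τ : ℕ) : Finset ℕ :=
  (h85F m p R top τ).image (uc m p)

open Classical in
/-- the chosen star centres of a piece -/
noncomputable def h36S (m : ℕ) (R : Finset ℕ) (top : ℕ → ℕ) (I : Finset ℕ) (τ : ℕ) : Finset ℕ :=
  I.filter fun c => c ∈ pc m R top τ

/-- the other vertices of a piece -/
noncomputable def h36Q (m : ℕ) (p : ℕ → ℕ) (R : Finset ℕ) (top : ℕ → ℕ) (I : Finset ℕ) (τ : ℕ) :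
    Finset ℕ :=
  pc m R top τ \ (h36F m p R top τ ∪ (h36S m R top I τ).biUnion fun c => insert c (chl m p c))

theorem h36_mem_S {c τ : ℕ} : c ∈ h36S m R top I τ ↔ c ∈ I ∧ c ∈ pc m R top τ := by
  rw [h36S, mem_filter]

theorem h36_mem_F {u τ : ℕ} : u ∈ h36F m p R top τ ↔ ∃ v ∈ h85F m p R top τ, uc m p v = u := by
  rw [h36F, mem_image]

theorem h36_mem_Q {v τ : ℕ} : v ∈ h36Q m p R top I τ ↔ v ∈ pc m R top τ ∧
    v ∉ h36F m p R top τ ∧ ∀ c ∈ h36S m R top I τ, v ≠ c ∧ v ∉ chl m p c := by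
  rw [h36Q, mem_sdiff, mem_union, not_or, mem_biUnion]
  constructor
  · rintro ⟨h1, h2, h3⟩
    refine ⟨h1, h2, fun c hc => ⟨fun h => h3 ⟨c, hc, ?_⟩, fun h => h3 ⟨c, hc, ?_⟩⟩⟩
    · rw [h]; exact mem_insert_self _ _
    · exact mem_insert_of_mem h
  · rintro ⟨h1, h2, h3⟩
    refine ⟨h1, h2, ?_⟩
    rintro ⟨c, hc, h⟩
    rcases mem_insert.1 h with h | h
    · exact (h3 c hc).1 h
    · exact (h3 c hc).2 h

theorem h36_chl {i : ℕ} (h0 : 0 < i) (hi : i < m) : i ∈ chl m p (p i) :=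
  mem_filter.2 ⟨mem_range.2 hi, h0, rfl⟩

theorem h36_not_leaf {i : ℕ} (h0 : 0 < i) (hi : i < m) : chl m p (p i) ≠ ∅ := fun h => by
  have h1 := h36_chl (p := p) h0 hi
  rw [h] at h1
  exact absurd h1 (notMem_empty _)

theorem h36_leafF {u τ : ℕ} (hu : u ∈ h36F m p R top τ) : chl m p u = ∅ := by
  obtain ⟨v, hv, rfl⟩ := h36_mem_F.1 hu
  exact (h85_uc (h85_mem_F.1 hv).2.1).2.2.2.1

theorem h36_star_ne (hD2 : 2 ≤ D) {c : ℕ} (hc : StarD m p D c) : chl m p c ≠ ∅ := by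
  intro h
  have h1 := hc.2.2.1
  rw [h, card_empty] at h1
  omega

theorem h36_leaf_pc (hD : Dec m p K R top) {c u τ : ℕ} (hc : h36G m D p R c)
    (hcp : c ∈ pc m R top τ) (hu : u ∈ chl m p c) : u ∈ pc m R top τ := by
  obtain ⟨h1, h2, h3⟩ := h85_mem_pc.1 hcp
  obtain ⟨h4, h5, h6⟩ := mem_filter.1 hu
  have h7 := hc.2.2 u hu
  refine h85_mem_pc.2 ⟨mem_range.1 h4, h7, ?_⟩
  rw [hD.top_step u (mem_range.1 h4) h7 (by rw [h6]; exact h2), h6, h3]

theorem h36_key (hI : ∀ c ∈ I, h36G m D p R c) {i τ : ℕ} (h0 : 0 < i) (hi : i < m)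
    (hpi : p i ∈ pc m R top τ) (hs : p i ∉ I) : p i ∈ h36Q m p R top I τ := by
  refine h36_mem_Q.2 ⟨hpi, fun h => h36_not_leaf h0 hi (h36_leafF h), fun c hc =>
    ⟨fun h => hs (h ▸ (h36_mem_S.1 hc).1), fun h => ?_⟩⟩
  exact h36_not_leaf h0 hi ((hI c (h36_mem_S.1 hc).1).1.2.2.2 _ h)

theorem h36_geo (hp : Par m p) (hD : Dec m p K R top) (hD2 : 2 ≤ D)
    (hI : ∀ c ∈ I, h36G m D p R c) {τ : ℕ} (hτn : τ < m) (hτ : τ ∉ R) (hτR : p τ ∈ R) :
    PGeo D p R (h36Q m p R top I τ) (exs p R top τ) (h36F m p R top τ) (h36S m R top I τ)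
      (chl m p) τ where
  geo :=
    { tP := by
        refine h36_mem_Q.2 ⟨(h85_geo hp hD hτn hτ hτR).tP, fun h => ?_, fun c hc => ⟨?_, ?_⟩⟩
        · obtain ⟨v, hv, h1⟩ := h36_mem_F.1 h
          have h2 := (h85_uc (h85_mem_F.1 hv).2.1).2.2.1
          rw [h1] at h2
          have h3 := (h85_mem_pc.1 (h85_mem_F.1 hv).1).2.1
          rw [← h2] at h3
          exact h3 hτR
        · rintro rfl
          exact (hI _ (h36_mem_S.1 hc).1).2.1 hτR
        · intro h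
          have h1 := (mem_filter.1 h).2.2
          have h3 := (h85_mem_pc.1 (h36_mem_S.1 hc).2).2.1
          rw [← h1] at h3
          exact h3 hτR
      tR := hτR
      st := fun v hv hne => by
        obtain ⟨h1, h2, h3⟩ := h36_mem_Q.1 hv
        obtain ⟨h4, h5, h6⟩ := h85_mem_pc.1 h1
        have h7 := (h85_geo hp hD hτn hτ hτR).st v h1 hne
        refine h36_key hI (h85_pos hD h5) h4 h7 fun h => ?_
        exact (h3 (p v) (h36_mem_S.2 ⟨h, h7⟩)).2 (h36_chl (h85_pos hD h5) h4)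
      lt := fun v hv => (h85_geo hp hD hτn hτ hτR).lt v (h36_mem_Q.1 hv).1
      PR := by
        rw [disjoint_left]
        intro v hv
        exact (h85_mem_pc.1 (h36_mem_Q.1 hv).1).2.1
      exR := (h85_geo hp hD hτn hτ hτR).exR
      ex1 := (h85_geo hp hD hτn hτ hτR).ex1
      exP := fun r hr => by
        obtain ⟨h1, h2⟩ := (h85_geo hp hD hτn hτ hτR).exP r hr
        obtain ⟨h3, h4, h5, h6⟩ := h85_mem_exs.1 hr
        have h7 := h85_ltR hD h3
        refine ⟨h36_key hI h4 h7 h1 fun h => ?_, h2⟩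
        exact (hI _ h).2.2 r (h36_chl h4 h7) h3 }
  pF := fun u hu => by
    obtain ⟨v, hv, rfl⟩ := h36_mem_F.1 hu
    obtain ⟨h1, h2, h3⟩ := h85_mem_F.1 hv
    obtain ⟨h4, h5, h6, h7, h8⟩ := h85_uc h2
    refine h36_key hI h5 h4 (by rw [h6]; exact h1) fun h => ?_
    rw [h6] at h
    obtain ⟨-, -, w, hw, -⟩ := h2
    have h9 := (hI v h).1.2.2.1
    rw [hw, card_singleton] at h9
    omega
  iF := by
    intro a ha b hb hab
    obtain ⟨v, hv, rfl⟩ := h36_mem_F.1 ha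
    obtain ⟨w, hw, rfl⟩ := h36_mem_F.1 hb
    have h1 := (h85_uc (h85_mem_F.1 hv).2.1).2.2.1
    have h2 := (h85_uc (h85_mem_F.1 hw).2.1).2.2.1
    rw [h1, h2] at hab
    rw [hab]
  pS := fun c hc => by
    obtain ⟨h1, h2⟩ := h36_mem_S.1 hc
    obtain ⟨h3, h4, h5⟩ := hI c h1
    refine h36_key hI h3.1 h3.2.1 (h85_par_pc hp hD h2 h4) fun h => ?_
    exact h36_star_ne hD2 h3 ((hI _ h).1.2.2.2 c (h36_chl h3.1 h3.2.1))
  hlf := fun c hc => ⟨(hI c (h36_mem_S.1 hc).1).1.2.2.1, fun l hl => (mem_filter.1 hl).2.2⟩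
  dF := by
    rw [disjoint_left]
    intro u hu h
    rcases mem_union.1 h with h | h
    · exact (h36_mem_Q.1 h).2.1 hu
    · obtain ⟨v, hv, rfl⟩ := h36_mem_F.1 hu
      exact (h85_mem_F.1 hv).2.2 h
  dS := by
    rw [disjoint_left]
    intro c hc h
    obtain ⟨h1, h2⟩ := h36_mem_S.1 hc
    rcases mem_union.1 h with h | h
    · rcases mem_union.1 h with h | h
      · exact ((h36_mem_Q.1 h).2.2 c hc).1 rfl
      · exact (h85_mem_pc.1 h2).2.1 h
    · exact h36_star_ne hD2 (hI c h1).1 (h36_leafF h)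
  dL := fun c hc => by
    rw [disjoint_left]
    intro l hl h
    obtain ⟨h1, h2⟩ := h36_mem_S.1 hc
    rcases mem_union.1 h with h | h
    · rcases mem_union.1 h with h | h
      · rcases mem_union.1 h with h | h
        · exact ((h36_mem_Q.1 h).2.2 c hc).2 hl
        · exact (hI c h1).2.2 l hl h
      · obtain ⟨v, hv, rfl⟩ := h36_mem_F.1 h
        obtain ⟨h3, h4, h5⟩ := h85_mem_F.1 hv
        have h6 := (h85_uc h4).2.2.1
        have h7 := (mem_filter.1 hl).2.2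
        obtain ⟨-, -, w, hw, -⟩ := h4
        have h9 := (hI c h1).1.2.2.1
        rw [← h7, h6, hw, card_singleton] at h9
        omega
    · exact h36_star_ne hD2 (hI l (h36_mem_S.1 h).1).1 ((hI c h1).1.2.2.2 l hl)

theorem h36_union (hD : Dec m p K R top) (hI : ∀ c ∈ I, h36G m D p R c) (τ : ℕ) :
    h36Q m p R top I τ ∪ h36F m p R top τ ∪
      ((h36S m R top I τ).biUnion fun c => insert c (chl m p c)) = pc m R top τ := by
  ext v
  rw [mem_union, mem_union]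
  constructor
  · rintro ((h | h) | h)
    · exact (h36_mem_Q.1 h).1
    · obtain ⟨w, hw, rfl⟩ := h36_mem_F.1 h
      exact h85_im_pc hD hw
    · obtain ⟨c, hc, h⟩ := mem_biUnion.1 h
      obtain ⟨h1, h2⟩ := h36_mem_S.1 hc
      rcases mem_insert.1 h with h | h
      · rw [h]; exact h2
      · exact h36_leaf_pc hD (hI c h1) h2 h
  · intro h
    by_cases h1 : v ∈ h36F m p R top τ
    · exact Or.inl (Or.inr h1)
    · by_cases h2 : v ∈ (h36S m R top I τ).biUnion fun c => insert c (chl m p c)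
      · exact Or.inr h2
      · refine Or.inl (Or.inl ?_)
        rw [h36Q, mem_sdiff, mem_union, not_or]
        exact ⟨h, h1, h2⟩

theorem h36_F_card (τ : ℕ) : (h36F m p R top τ).card = (h85F m p R top τ).card := by
  rw [h36F, card_image_of_injOn (h85_inj τ)]

theorem h36_card (hp : Par m p) (hD : Dec m p K R top) (hD2 : 2 ≤ D)
    (hI : ∀ c ∈ I, h36G m D p R c) (τ : ℕ) :
    (h36Q m p R top I τ).card + (h36F m p R top τ).card + (D + 1) * (h36S m R top I τ).card =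
      (pc m R top τ).card := by
  have hB : ((h36S m R top I τ).biUnion fun c => insert c (chl m p c)).card =
      (D + 1) * (h36S m R top I τ).card := by
    rw [card_biUnion, mul_comm, ← smul_eq_mul, ← sum_const]
    · refine sum_congr rfl fun c hc => ?_
      obtain ⟨h1, h2⟩ := h36_mem_S.1 hc
      have h3 := (hI c h1).1
      rw [card_insert_of_notMem, h3.2.2.1]
      intro h
      have h4 := (mem_filter.1 h).2.2
      have h5 := hp c h3.1 h3.2.1
      omega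
    · intro c hc c' hc' hne
      obtain ⟨h1, h2⟩ := h36_mem_S.1 hc
      obtain ⟨h1', h2'⟩ := h36_mem_S.1 hc'
      change Disjoint (insert c (chl m p c)) (insert c' (chl m p c'))
      rw [disjoint_left]
      intro x hx hx'
      rcases mem_insert.1 hx with hx | hx
      · rcases mem_insert.1 hx' with hx' | hx'
        · exact hne (hx.symm.trans hx')
        · rw [hx] at hx'
          exact h36_star_ne hD2 (hI c h1).1 ((hI c' h1').1.2.2.2 c hx')
      · rcases mem_insert.1 hx' with hx' | hx'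
        · rw [hx'] at hx
          exact h36_star_ne hD2 (hI c' h1').1 ((hI c h1).1.2.2.2 c' hx)
        · exact hne ((mem_filter.1 hx).2.2.symm.trans (mem_filter.1 hx').2.2)
  rw [← h36_union hD hI τ, card_union_of_disjoint, card_union_of_disjoint, hB]
  · rw [disjoint_left]
    intro v hv
    exact (h36_mem_Q.1 hv).2.1
  · rw [disjoint_left]
    intro v hv h
    obtain ⟨c, hc, h⟩ := mem_biUnion.1 h
    obtain ⟨h1, h2⟩ := h36_mem_S.1 hc
    rcases mem_union.1 hv with hv | hv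
    · rcases mem_insert.1 h with h | h
      · exact ((h36_mem_Q.1 hv).2.2 c hc).1 h
      · exact ((h36_mem_Q.1 hv).2.2 c hc).2 h
    · rcases mem_insert.1 h with h | h
      · rw [h] at hv
        exact h36_star_ne hD2 (hI c h1).1 (h36_leafF hv)
      · obtain ⟨w, hw, rfl⟩ := h36_mem_F.1 hv
        obtain ⟨h3, h4, h5⟩ := h85_mem_F.1 hw
        have h6 := (h85_uc h4).2.2.1
        have h7 := (mem_filter.1 h).2.2
        obtain ⟨-, -, w', hw', -⟩ := h4
        have h9 := (hI c h1).1.2.2.1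
        rw [← h7, h6, hw', card_singleton] at h9
        omega

theorem h36_S_disj {τ τ' : ℕ} (h : τ ≠ τ') :
    Disjoint (h36S m R top I τ) (h36S m R top I τ') := by
  rw [disjoint_left]
  intro c hc hc'
  exact Finset.disjoint_left.1 (h85_pc_disj h) (h36_mem_S.1 hc).2 (h36_mem_S.1 hc').2

theorem h36_S_sum {T : Finset ℕ} (hIT : I ⊆ MV m R top T) :
    ∑ τ ∈ T, (h36S m R top I τ).card = I.card := by
  rw [← card_biUnion fun τ _ τ' _ h => h36_S_disj h]
  congr 1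
  ext c
  rw [mem_biUnion]
  constructor
  · rintro ⟨τ, _, h⟩
    exact (h36_mem_S.1 h).1
  · intro h
    have h1 := hIT h
    rw [h85_MV, mem_biUnion] at h1
    obtain ⟨τ, hτ, h1⟩ := h1
    exact ⟨τ, hτ, h36_mem_S.2 ⟨h, h1⟩⟩

theorem h36_PD_mono {n : ℕ} {lab : ℕ → ℕ} {X S P ex : Finset ℕ} {U V : ℝ} {L : FL} (hU : 0 ≤ U)
    (hUV : U ≤ V) (h : PD n p R lab X S P ex U L) : PD n p R lab X S P ex V L where
  nn := h.nn
  one := h.one
  onR := h.onR
  lbl := h.lbl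
  df := h.df
  joint A hA x := (h.joint A hA x).trans (by gcongr)

end h36aux

open Classical in
theorem packG : ∃ c1 : ℝ, 0 < c1 ∧ ∀ (K : ℕ) (ω ε1 : ℝ), 1 ≤ K → 0 < ω → ω ≤ 1 → 0 < ε1 → ∃ δ : ℝ, 0 < δ ∧ ∃ n0 : ℕ,
    ∀ (n m P w D : ℕ) (t μ e ε : ℝ) (p top lab : ℕ → ℕ) (R T X S : Finset ℕ), n0 ≤ n → m ≤ n + 1 →
    Prm n P w D t μ e → Real.sqrt μ ≤ c1 * e → 0 < ε → 4 * e ≤ ε → 100 * t ≤ ε → 1000 * (w : ℝ) ≤ ε * n → ω * n ≤ w →
    Loc n P w t X S → Par m p → Dec m p K R top → (∀ v, v < m → ((chl m p v).card : ℝ) ≤ δ * n) →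
    T ⊆ (range m).filter (fun τ => τ ∉ R ∧ p τ ∈ R) → Set.InjOn lab R →
    (∀ τ ∈ T, Ctr n (lab (p τ))) → (∀ τ ∈ T, ∀ r ∈ exs p R top τ, Ctr n (lab r)) →
    (T.card : ℝ) ≤ t * n → (n : ℝ) - Real.sqrt (P * n) / 10 ≤ (X.card : ℝ) →
    (MV m R top T).card = X.card → (EM m p R top T).card = S.card →
    ε / 2 * n ≤ (((MV m R top T).filter fun v => Pend m p v ∧ uc m p v ∉ R).card : ℝ) →
    ε / 2 * n ≤ (((MV m R top T).filter fun c => StarD m p D c ∧ p c ∉ R ∧ ∀ u ∈ chl m p c, u ∉ R).card : ℝ) →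
    ∃ (T' : Finset ℕ) (f : ℕ → ℕ), T' ⊆ T ∧ (∀ r ∈ R, f r = lab r) ∧
      (∀ v ∈ MV m R top T', f v ∈ X) ∧ (∀ i ∈ EM m p R top T', ad (f i) (f (p i)) ∈ S) ∧
      Set.InjOn f (MV m R top T') ∧
      Set.InjOn (fun i => ad (f i) (f (p i))) (EM m p R top T') ∧
      ((MV m R top (T \ T')).card : ℝ) ≤ ε1 * n := by
  obtain ⟨c1, hc1, n1, hlaws⟩ := lawsG
  refine ⟨c1, hc1, fun K ω ε1 hK hω hω1 hε1 => ?_⟩
  have hU : (1 : ℝ) ≤ 50 / ω := by
    rw [le_div_iff₀ hω]
    linarith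
  obtain ⟨δ, hδ, n2, hpack⟩ := pack_laws K (50 / ω) ε1 hK hU hε1
  refine ⟨δ, hδ, max n1 n2, fun n m P w D t μ e ε p top lab R T X S hn hmn hPr hμ hε heε htε hwε hωw
    hLoc hp hD hdeg hT hinj hctr hctrx hTc hXlo hMV hEM hF hSt => ?_⟩
  have hn1 : n1 ≤ n := (le_max_left _ _).trans hn
  have hn2 : n2 ≤ n := (le_max_right _ _).trans hn
  have hnr : (0 : ℝ) < n := by exact_mod_cast hPr.hn
  have hwr : (0 : ℝ) < w := by exact_mod_cast hPr.w0
  have hDr : (10 : ℝ) ^ 5 ≤ D := by exact_mod_cast hPr.D1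
  have hD2 : 2 ≤ D := le_trans (by norm_num) hPr.D1
  have hD0 : (0 : ℝ) < D := by linarith
  -- the chosen stars
  obtain ⟨r, hr⟩ : ∃ r : ℝ, r = Real.sqrt (P * n) := ⟨_, rfl⟩
  have hr0 : 0 ≤ r := by rw [hr]; positivity
  have hrn : r ≤ Real.sqrt μ * n := by
    rw [hr]
    refine Real.sqrt_le_iff.2 ⟨by positivity, ?_⟩
    rw [mul_pow, Real.sq_sqrt hPr.μ0.le]
    have := hPr.P2
    nlinarith
  obtain ⟨A, hA⟩ : ∃ A : ℕ, A = ⌈24 * r / D⌉₊ := ⟨_, rfl⟩
  have hA1 : 24 * r ≤ D * (A : ℝ) := by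
    have h1 := Nat.le_ceil (24 * r / D)
    rw [← hA, div_le_iff₀ hD0] at h1
    linarith
  have hA2 : D * (A : ℝ) ≤ 24 * r + D := by
    have h1 := (Nat.ceil_lt_add_one (show 0 ≤ 24 * r / D by positivity)).le
    rw [← hA] at h1
    have h2 : D * (A : ℝ) ≤ D * (24 * r / D + 1) := mul_le_mul_of_nonneg_left h1 hD0.le
    have h3 : D * (24 * r / D + 1) = 24 * r + D := by field_simp
    linarith
  have hA3 : (A : ℝ) ≤ ε / 2 * n := by
    have h1 : (A : ℝ) ≤ 24 * r / D + 1 := by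
      rw [hA]
      exact (Nat.ceil_lt_add_one (by positivity)).le
    have h2 : 24 * r / D ≤ 24 * r := div_le_self (by positivity) (by linarith)
    have h3 := hPr.μe
    have h4 : Real.sqrt μ * n ≤ ε / 4000000 * n := by
      apply mul_le_mul_of_nonneg_right _ hnr.le
      linarith
    have h5 : (1 : ℝ) ≤ w := by exact_mod_cast hPr.w0
    nlinarith
  have hAle : A ≤ ((MV m R top T).filter fun c => StarD m p D c ∧ p c ∉ R ∧
      ∀ u ∈ chl m p c, u ∉ R).card := by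
    have h1 := hA3.trans hSt
    exact_mod_cast h1
  obtain ⟨I, hIs, hIc⟩ := Finset.exists_subset_card_eq hAle
  have hI : ∀ c ∈ I, h36G m D p R c := fun c hc => (mem_filter.1 (hIs hc)).2
  have hIT : I ⊆ MV m R top T := fun c hc => (mem_filter.1 (hIs hc)).1
  have hsum := h36_S_sum (I := I) hIT
  have hTm : ∀ τ ∈ T, τ < m ∧ τ ∉ R ∧ p τ ∈ R := fun τ hτ => by
    obtain ⟨k1, k2, k3⟩ := mem_filter.1 (hT hτ)
    exact ⟨mem_range.1 k1, k2, k3⟩
  obtain ⟨L, hL, hLX, hLS⟩ := hlaws n P w D t μ e ε p lab R X S T (h36Q m p R top I)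
    (exs p R top) (h36F m p R top) (h36S m R top I) (chl m p) hn1 hPr hμ hε heε htε hwε hLoc
    (fun τ hτ => h36_geo hp hD hD2 hI (hTm τ hτ).1 (hTm τ hτ).2.1 (hTm τ hτ).2.2)
    (fun τ _ τ' _ h => h36_S_disj h)
    hctr hctrx hTc hXlo
    (by
      rw [← hMV, h85_MV_card]
      exact sum_congr rfl fun τ _ => h36_card hp hD hD2 hI τ)
    (by
      rw [← hEM, h85_EM_card hD]
      refine sum_congr rfl fun τ _ => ?_
      rw [← h36_card hp hD hD2 hI τ]
      ring)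
    (by rw [hsum, hIc, ← hr]; exact hA1)
    (by rw [hsum, hIc, ← hr]; exact hA2)
    (by
      refine hF.trans (le_of_eq ?_)
      congr 1
      rw [h85_MV, filter_biUnion, card_biUnion]
      · exact sum_congr rfl fun τ _ => (h36_F_card τ).symm
      · intro τ _ τ' _ h
        exact disjoint_filter_filter (h85_pc_disj h))
  have hu : ∀ τ, h36Q m p R top I τ ∪ h36F m p R top τ ∪
      ((h36S m R top I τ).biUnion fun c => insert c (chl m p c)) = pc m R top τ :=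
    h36_union hD hI
  simp only [hu] at hL hLX hLS
  have hUU : 50 * (n : ℝ) / w ≤ 50 / ω := by
    rw [div_le_div_iff₀ hwr hω]
    nlinarith
  obtain ⟨T', f, h1, h2, h3, h4, h5, h6, h7⟩ := hpack n p lab R X S T (pc m R top)
    (exs p R top) L hn2 hLoc.X_sub hLoc.S_sub
    (fun τ hτ => h85_geo hp hD (hTm τ hτ).1 (hTm τ hτ).2.1 (hTm τ hτ).2.2)
    (fun τ _ => hD.size τ)
    (fun τ _ v hv => by
      obtain ⟨k1, k2, k3⟩ := h85_mem_pc.1 hv
      have k4 := h85_pos hD k2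
      rw [mem_Icc]
      omega)
    (fun τ _ τ' _ h => h85_pc_disj h)
    (fun τ _ τ' _ h => h85_ex_disj h)
    hinj
    (fun r hr => by
      refine le_trans ?_ (hdeg r (h85_ltR hD hr))
      have h8 : (T.filter fun τ => p τ = r).card ≤ (chl m p r).card := by
        refine card_le_card fun τ hτ => ?_
        obtain ⟨k1, k2⟩ := mem_filter.1 hτ
        obtain ⟨k3, k4, k5⟩ := mem_filter.1 (hT k1)
        exact mem_filter.2 ⟨k3, h85_pos hD k4, k2⟩
      exact_mod_cast h8)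
    (fun τ hτ => h36_PD_mono (by positivity) hUU (hL τ hτ)) hLX hLS
  refine ⟨T', f, h1, h2, ?_, ?_, ?_, ?_, ?_⟩
  · intro v hv
    rw [h85_MV, mem_biUnion] at hv
    obtain ⟨τ, hτ, hv⟩ := hv
    exact h3 τ hτ v hv
  · intro i hi
    rw [h85_EM hD, mem_biUnion] at hi
    obtain ⟨τ, hτ, hi⟩ := hi
    exact h4 τ hτ i hi
  · rw [h85_MV]
    exact h5
  · rw [h85_EM hD]
    exact h6
  · rw [h85_MV_card]
    exact h7

end Pool.Agent.GRC
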