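import Pool.Agent.Helper28.GRC.T2
import Pool.Agent.Helper73.SEM.T3

/-!
# GRC-T3: decomposition with special pendant paths and special stars

Model: `SEM.decomp` (Helper73/SEM/T3.lean; `T3_greedy`, `T3_uc` can be used).

Proof in words.  Take `R₀, top₀` from `cutF`.  `M₀ := ∑_{r ∈ R₀} |chl r| ≤ η n + Λ |R₀| ≤ η n + Λ (4n/K + 4 + 4|F|) ≤ (ε/8) n` (vertices with more than `Λ` children contribute at most `η n`).
For a top `t` (`t < n`, `t ∉ R₀`, `p t ∈ R₀`) let `P_t` be its piece, `|P_t| ≤ K`; the pieces partition the complement of `R₀`.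
GOOD pendant vertices: `Pend v` with `v, uc v ∉ F` (at least `ε n - 2|F|`; `v, uc v ∉ R₀`, same piece).  GOOD stars: `StarD c` with `c` and its children not in `F` and `p c ∉ R₀` (at least
`ε n - |F| - M₀`; an element of `F` kills at most one star; `c`, its children and `p c` are in the same piece).
(1) `q_t` = number of good pendant `v` in `P_t`.  The tops with `(ε/8)|P_t| ≤ q_t` contain at least `ε n - 2|F| - (ε/8) n ≥ N1` of them; choose (`T3_greedy`) a set `T1` of such tops with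
`N1 ≤ ∑_{T1} q_t ≤ N1 + K`; so `∑_{T1} |P_t| ≤ (8/ε)(N1 + K) ≤ (ε/100) n`.
(2) the same with the good stars in the pieces of the tops outside `T1`: `T2` with `N2 ≤ ∑_{T2} q'_t ≤ N2 + K`, `DL` = exactly `N2` of these stars.
(3) the same outside `T1 ∪ T2`: `T3`, `DH` = exactly `N3` good stars.
`R = R₀ ∪ (⋃_{T1} P_t \ {v, uc v : v good pendant}) ∪ (⋃_{T2} P_t \ {c, children : c ∈ DL}) ∪ (⋃_{T3} P_t \ {c, children : c ∈ DH})`; `Sp` = the good pendant vertices of the pieces `T1`;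
`T` = the tops outside `T1 ∪ T2 ∪ T3`; `top` = `top₀` on the pieces of `T`, `v` on `{v, uc v}`, `c` on `{c} ∪ chl c`.
Check of `Dec`: for `c ∈ DL`, `p c ∈ P_t`, it is not the centre or a leaf of a star of `DL` (the children of a centre are leaves, `c` is not a leaf as `D ≥ 1`), so `p c ∈ R`; similarly for the
pendant vertices (`p v` may be in `R₀`).  A vertex of `R \ R₀` has its parent in `P_t ∪ R₀` (`t ∈ T1 ∪ T2 ∪ T3`), and the parent is not in one of the removed sets, so it is in `R`: it is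
not an exit.  The pieces `{v, uc v}`, `{c} ∪ chl c` have no exits.  The other pieces and exits are unchanged.  Sizes `≤ max(K, D+1) ≤ K`.
The tops of `R` are exactly `T ∪ Sp ∪ DL ∪ DH`; `|T| ≤ M₀` since every `t ∈ T` is a child of a vertex of `R₀`.
`|R| ≤ |R₀| + (8/ε)(N1 + N2 + N3 + 3K)`.  Parents: `p c ∈ P_t` for `c ∈ DL ∪ DH`, so `p c ∉ R₀ ⊇ F`, the parents of `DL`, `DH`, `Sp` are in different pieces or in `R₀`; at most `K` stars of
`DL ∪ DH` have the same parent (all in one piece).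
Remaining: at least `ε n - 2|F| - 3 (ε/100) n ≥ (ε/2) n` good pendant vertices and at least `ε n - |F| - M₀ - 3(ε/100) n ≥ (ε/2) n` good stars are in the pieces of `T`.
-/

set_option autoImplicit false

namespace Pool.Agent.GRC

open Finset Pool.Agent.SEM

open Classical in
/-- decomposition with special pendant paths `Sp`, special stars `DL`, `DH` and main tops `T` -/
structure DecG (n : ℕ) (p : ℕ → ℕ) (K D : ℕ) (ε : ℝ) (F R Sp DL DH T : Finset ℕ) (top : ℕ → ℕ) : Prop where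
  dec : Dec n p K R top
  FR : F ⊆ R
  tops : (range n).filter (fun τ => τ ∉ R ∧ p τ ∈ R) = T ∪ Sp ∪ DL ∪ DH
  dTS : Disjoint T Sp
  dTL : Disjoint T DL
  dTH : Disjoint T DH
  dSL : Disjoint Sp DL
  dSH : Disjoint Sp DH
  dLH : Disjoint DL DH
  sp : ∀ v ∈ Sp, Pend n p v ∧ uc n p v ∉ R
  spF : ∀ v ∈ Sp, p v ∉ F
  dl : ∀ c ∈ DL, StarD n p D c ∧ (∀ u ∈ chl n p c, u ∉ R) ∧ p c ∉ F
  dh : ∀ c ∈ DH, StarD n p D c ∧ (∀ u ∈ chl n p c, u ∉ R) ∧ p c ∉ F
  pLH : ∀ c ∈ DL, ∀ c' ∈ DH, p c ≠ p c'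
  pLS : ∀ c ∈ DL, ∀ v ∈ Sp, p c ≠ p v
  pHS : ∀ c ∈ DH, ∀ v ∈ Sp, p c ≠ p v
  mL : ∀ r, (DL.filter fun c => p c = r).card ≤ K
  mH : ∀ r, (DH.filter fun c => p c = r).card ≤ K
  pend : ε / 2 * n ≤ (((MV n R top T).filter fun v => Pend n p v ∧ uc n p v ∉ R).card : ℝ)
  star : ε / 2 * n ≤ (((MV n R top T).filter fun c => StarD n p D c ∧ p c ∉ R ∧
    ∀ u ∈ chl n p c, u ∉ R).card : ℝ)

theorem cut67_uc (n : ℕ) (p : ℕ → ℕ) (v : ℕ) (h : Pend n p v) :
    chl n p v = {uc n p v} ∧ chl n p (uc n p v) = ∅ ∧ 0 < uc n p v ∧ uc n p v < n ∧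
      p (uc n p v) = v := T3_uc n p v h

theorem mem_chl67 {n : ℕ} {p : ℕ → ℕ} {v w : ℕ} : w ∈ chl n p v ↔ w < n ∧ 0 < w ∧ p w = v := by
  simp only [chl, mem_filter, mem_range]

/-- opening the pieces with top in `TS`, keeping the stars with centres `Z` -/
theorem open67 (n : ℕ) (p : ℕ → ℕ) (K : ℕ) (R₀ TS Z : Finset ℕ) (top₀ : ℕ → ℕ) (hp : Par n p)
    (hD : Dec n p K R₀ top₀)
    (hZ : ∀ z ∈ Z, 0 < z ∧ z < n ∧ (chl n p z).Nonempty ∧ (∀ u ∈ chl n p z, chl n p u = ∅) ∧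
      (chl n p z).card + 1 ≤ K ∧ z ∉ R₀ ∧ (∀ u ∈ chl n p z, u ∉ R₀) ∧ top₀ z ∈ TS) :
    ∃ (R : Finset ℕ) (top : ℕ → ℕ), Dec n p K R top ∧ R₀ ⊆ R ∧
      R ⊆ R₀ ∪ (range n).filter (fun w => w ∉ R₀ ∧ top₀ w ∈ TS) ∧
      (∀ v, v < n → v ∉ R₀ → top₀ v ∉ TS → v ∉ R ∧ top v = top₀ v) ∧
      (∀ z ∈ Z, z ∉ R ∧ ∀ u ∈ chl n p z, u ∉ R) ∧
      (range n).filter (fun τ => τ ∉ R ∧ p τ ∈ R) =
        (range n).filter (fun τ => τ ∉ R₀ ∧ p τ ∈ R₀ ∧ τ ∉ TS) ∪ Z := by
  classical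
  have h0 : 0 ∈ R₀ := hD.zero
  have ht₀ : ∀ v, v < n → v ∉ R₀ → (p v ∈ R₀ → top₀ v = v) ∧ (p v ∉ R₀ → top₀ v = top₀ (p v)) :=
    fun v hv hvR => ⟨hD.top_root v hv hvR, hD.top_step v hv hvR⟩
  have hist := T2_istop n p R₀ top₀ hp h0 ht₀
  have hpos : ∀ v, v ∉ R₀ → 0 < v := by
    intro v hv
    rcases Nat.eq_zero_or_pos v with h | h
    · subst h; exact absurd h0 hv
    · exact h
  set C : Finset ℕ := Z ∪ Z.biUnion (chl n p) with hC
  have hCmem : ∀ w, w ∈ C ↔ w ∈ Z ∨ ∃ z ∈ Z, w ∈ chl n p z := by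
    intro w
    rw [hC, mem_union, mem_biUnion]
  set UU := (range n).filter fun w => w ∉ R₀ ∧ top₀ w ∈ TS ∧ w ∉ C with hUU
  set R := R₀ ∪ UU with hR
  have hRR : R₀ ⊆ R := subset_union_left
  have hnR : ∀ v, v ∉ R → v ∉ R₀ ∧ v ∉ UU := by
    intro v hv
    rw [hR, mem_union, not_or] at hv
    exact hv
  have hCR : ∀ w ∈ C, w ∉ R := by
    intro w hw
    rw [hR, mem_union, not_or]
    refine ⟨?_, ?_⟩
    · rcases (hCmem w).1 hw with h | ⟨z, hz, h⟩
      · exact (hZ w h).2.2.2.2.2.1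
      · exact (hZ z hz).2.2.2.2.2.2.1 w h
    · intro h
      exact (mem_filter.1 h).2.2.2 hw
  have hZR : ∀ z ∈ Z, z ∉ R := fun z hz => hCR z ((hCmem z).2 (Or.inl hz))
  have hchR : ∀ z ∈ Z, ∀ u ∈ chl n p z, u ∉ R := fun z hz u hu =>
    hCR u ((hCmem u).2 (Or.inr ⟨z, hz, hu⟩))
  have hspec : ∀ v, v < n → v ∉ R → top₀ v ∈ TS → v ∈ Z ∨ p v ∈ Z := by
    intro v hv hvR ht
    obtain ⟨h1, h2⟩ := hnR v hvR
    have h3 : v ∈ C := by
      by_contra hc
      exact h2 (mem_filter.2 ⟨mem_range.2 hv, h1, ht, hc⟩)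
    rcases (hCmem v).1 h3 with h | ⟨z, hz, h⟩
    · exact Or.inl h
    · right
      rw [(mem_chl67.1 h).2.2]
      exact hz
  -- children of `Z` and of children
  have hnoZ : ∀ v, 0 < v → v < n → (chl n p v).Nonempty → p v ∉ Z := by
    intro v hv0 hvn hne hpv
    have h1 : v ∈ chl n p (p v) := mem_chl67.2 ⟨hvn, hv0, rfl⟩
    have h2 := (hZ _ hpv).2.2.2.1 v h1
    rw [h2] at hne
    simp at hne
  have hppZ : ∀ v, 0 < v → v < n → 0 < p v → p (p v) ∉ Z := by
    intro v hv0 hvn hpv0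
    have h1 : v ∈ chl n p (p v) := mem_chl67.2 ⟨hvn, hv0, rfl⟩
    have := hp v hv0 hvn
    exact hnoZ (p v) hpv0 (by omega) ⟨v, h1⟩
  have hZpar : ∀ z ∈ Z, p z ∈ R := by
    intro z hz
    obtain ⟨hz0, hzn, hzne, _, _, hzR, _, hzT⟩ := hZ z hz
    by_contra hc
    have hc₀ := (hnR _ hc).1
    have hpz := hp z hz0 hzn
    have h3 : top₀ (p z) ∈ TS := by
      rw [← (ht₀ z hzn hzR).2 hc₀]; exact hzT
    rcases hspec (p z) (by omega) hc h3 with h4 | h4
    · exact hnoZ z hz0 hzn hzne h4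
    · exact hppZ z hz0 hzn (hpos _ hc₀) h4
  set top : ℕ → ℕ := fun v => if v ∈ Z then v else if p v ∈ Z then p v else top₀ v with htop
  have htopZ : ∀ v ∈ Z, top v = v := by
    intro v hv; rw [htop]; simp only [if_pos hv]
  have htopch : ∀ v, v ∉ Z → p v ∈ Z → top v = p v := by
    intro v h1 h2; rw [htop]; simp only [if_neg h1, if_pos h2]
  have htopelse : ∀ v, v ∉ Z → p v ∉ Z → top v = top₀ v := by
    intro v h1 h2; rw [htop]; simp only [if_neg h1, if_neg h2]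
  have htopnot : ∀ v, v < n → v ∉ R₀ → top₀ v ∉ TS → top v = top₀ v := by
    intro v hv hvR hvT
    apply htopelse
    · intro h; exact hvT (hZ v h).2.2.2.2.2.2.2
    · intro h
      apply hvT
      rw [(ht₀ v hv hvR).2 (hZ _ h).2.2.2.2.2.1]
      exact (hZ _ h).2.2.2.2.2.2.2
  have hnotR : ∀ v, v < n → v ∉ R₀ → top₀ v ∉ TS → v ∉ R := by
    intro v hv hvR hvT
    rw [hR, mem_union, not_or]
    exact ⟨hvR, fun h => hvT (mem_filter.1 h).2.2.1⟩
  have hZno : ∀ v, 0 < v → v < n → p v ∈ Z → v ∉ Z := by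
    intro v hv0 hvn h1 h2
    exact hnoZ v hv0 hvn (hZ v h2).2.2.1 h1
  -- exits
  have hexit : ∀ r ∈ R, 0 < r → p r ∉ R → r ∈ R₀ ∧ top₀ (p r) ∉ TS := by
    intro r hr hr0 hpr
    have hRn : R ⊆ range n := by rw [hR]; exact union_subset hD.sub (filter_subset _ _)
    have hrn : r < n := mem_range.1 (hRn hr)
    have hprn : p r < n := by have := hp r hr0 hrn; omega
    have hpr₀ := (hnR _ hpr).1
    have key : top₀ (p r) ∉ TS := by
      intro h
      rcases hspec (p r) hprn hpr h with h4 | h4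
      · exact hchR _ h4 r (mem_chl67.2 ⟨hrn, hr0, rfl⟩) hr
      · exact hppZ r hr0 hrn (hpos _ hpr₀) h4
    refine ⟨?_, key⟩
    rw [hR, mem_union] at hr
    rcases hr with hr | hr
    · exact hr
    · exfalso
      rw [hUU, mem_filter] at hr
      obtain ⟨_, g1, g2, g3⟩ := hr
      rw [(ht₀ r hrn g1).2 hpr₀] at g2
      exact key g2
  have htopR : ∀ v, v < n → v ∉ R → p v ∈ R → top v = v := by
    intro v hv hvR hpv
    have hv₀ := (hnR _ hvR).1
    by_cases h1 : v ∈ Z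
    · exact htopZ v h1
    · by_cases h2 : p v ∈ Z
      · exact absurd hpv (hZR _ h2)
      · rw [htopelse v h1 h2]
        by_cases hpv₀ : p v ∈ R₀
        · exact (ht₀ v hv hv₀).1 hpv₀
        · exfalso
          rw [hR, mem_union] at hpv
          rcases hpv with hpv | hpv
          · exact hpv₀ hpv
          · rw [hUU, mem_filter] at hpv
            have h3 : top₀ v ∈ TS := by rw [(ht₀ v hv hv₀).2 hpv₀]; exact hpv.2.2.1
            rcases hspec v hv hvR h3 with h4 | h4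
            · exact h1 h4
            · exact h2 h4
  refine ⟨R, top, ⟨?_, hRR h0, htopR, ?_, ?_, ?_, ?_⟩, hRR, ?_, ?_, ?_, ?_⟩
  · rw [hR]; exact union_subset hD.sub (filter_subset _ _)
  · -- top_step
    intro v hv hvR hpvR
    have hv₀ := (hnR _ hvR).1
    have hv0 := hpos v hv₀
    by_cases h1 : v ∈ Z
    · exact absurd (hZpar v h1) hpvR
    · by_cases h2 : p v ∈ Z
      · rw [htopch v h1 h2, htopZ _ h2]
      · rw [htopelse v h1 h2, (ht₀ v hv hv₀).2 (hnR _ hpvR).1]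
        symm
        apply htopelse _ h2
        exact hppZ v hv0 hv (hpos _ (hnR _ hpvR).1)
  · -- size
    intro t
    by_cases hex : ∃ v₀, v₀ < n ∧ v₀ ∉ R ∧ top v₀ = t ∧ top₀ v₀ ∉ TS
    · obtain ⟨v₀, g1, g2, g3, g4⟩ := hex
      have g5 : top₀ v₀ = t := by rw [← htopnot v₀ g1 (hnR _ g2).1 g4]; exact g3
      obtain ⟨_, _, _, k4⟩ := hist v₀ g1 (hnR _ g2).1
      refine le_trans (Finset.card_le_card ?_) (hD.size t)
      intro v hv
      rw [mem_filter] at hv ⊢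
      obtain ⟨hvn, hvR, hvt⟩ := hv
      refine ⟨hvn, (hnR _ hvR).1, ?_⟩
      by_cases h1 : top₀ v ∈ TS
      · exfalso
        have h2 : t ∈ Z := by
          rcases hspec v (mem_range.1 hvn) hvR h1 with h4 | h4
          · rw [htopZ v h4] at hvt; rw [← hvt]; exact h4
          · rw [htopch v (hZno v (hpos v (hnR _ hvR).1) (mem_range.1 hvn) h4) h4] at hvt
            rw [← hvt]; exact h4
        have h3 := (hZ t h2).2.2.2.2.2.2.2
        rw [← g5, k4] at h3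
        exact g4 h3
      · rw [← htopnot v (mem_range.1 hvn) (hnR _ hvR).1 h1]; exact hvt
    · push Not at hex
      rcases Finset.eq_empty_or_nonempty ((range n).filter fun v => v ∉ R ∧ top v = t) with
        he | ⟨v₁, hv₁⟩
      · rw [he]; simp
      · have hsub : ∀ v ∈ (range n).filter (fun v => v ∉ R ∧ top v = t),
            (v = t ∧ t ∈ Z) ∨ (v ∈ chl n p t ∧ t ∈ Z) := by
          intro v hv
          rw [mem_filter, mem_range] at hv
          obtain ⟨hvn, hvR, hvt⟩ := hv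
          have h1 := hex v hvn hvR hvt
          have hv0 := hpos v (hnR _ hvR).1
          rcases hspec v hvn hvR h1 with h4 | h4
          · left; rw [htopZ v h4] at hvt; rw [← hvt]; exact ⟨rfl, h4⟩
          · right
            rw [htopch v (hZno v hv0 hvn h4) h4] at hvt
            rw [← hvt]
            exact ⟨mem_chl67.2 ⟨hvn, hv0, rfl⟩, h4⟩
        have htZ : t ∈ Z := by
          rcases hsub v₁ hv₁ with h | h
          · exact h.2
          · exact h.2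
        refine le_trans (Finset.card_le_card (t := insert t (chl n p t)) ?_) ?_
        · intro v hv
          rw [mem_insert]
          rcases hsub v hv with h | h
          · exact Or.inl h.1
          · exact Or.inr h.1
        · exact (Finset.card_insert_le _ _).trans (hZ t htZ).2.2.2.2.1
  · -- exit_unique
    intro r hr r' hr' hr0 hr'0 hpr hpr' htt
    have hRn : R ⊆ range n := by rw [hR]; exact union_subset hD.sub (filter_subset _ _)
    obtain ⟨a1, a2⟩ := hexit r hr hr0 hpr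
    obtain ⟨b1, b2⟩ := hexit r' hr' hr'0 hpr'
    have hrn : r < n := mem_range.1 (hRn hr)
    have hrn' : r' < n := mem_range.1 (hRn hr')
    rw [htopnot _ (by have := hp r hr0 hrn; omega) (hnR _ hpr).1 a2,
      htopnot _ (by have := hp r' hr'0 hrn'; omega) (hnR _ hpr').1 b2] at htt
    exact hD.exit_unique r a1 r' b1 hr0 hr'0 (hnR _ hpr).1 (hnR _ hpr').1 htt
  · -- exit_deep
    intro r hr hr0 hpr hpp
    obtain ⟨a1, a2⟩ := hexit r hr hr0 hpr
    have hrn : r < n := mem_range.1 (hD.sub a1)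
    have hprn : p r < n := by have := hp r hr0 hrn; omega
    have hpr₀ := (hnR _ hpr).1
    have h1 := hD.exit_deep r a1 hr0 hpr₀
    rw [hR, mem_union] at hpp
    rcases hpp with hpp | hpp
    · exact h1 hpp
    · rw [hUU, mem_filter] at hpp
      apply a2
      rw [(ht₀ (p r) hprn hpr₀).2 h1]
      exact hpp.2.2.1
  · -- R ⊆
    intro w hw
    rw [hR, mem_union] at hw
    rw [mem_union]
    rcases hw with hw | hw
    · exact Or.inl hw
    · right
      rw [hUU, mem_filter] at hw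
      exact mem_filter.2 ⟨hw.1, hw.2.1, hw.2.2.1⟩
  · intro v hv hvR hvT
    exact ⟨hnotR v hv hvR hvT, htopnot v hv hvR hvT⟩
  · intro z hz
    exact ⟨hZR z hz, hchR z hz⟩
  · -- tops
    ext τ
    rw [mem_union, mem_filter, mem_filter, mem_range]
    constructor
    · rintro ⟨h1, h2, h3⟩
      have h2₀ := (hnR _ h2).1
      by_cases h4 : top₀ τ ∈ TS
      · right
        rcases hspec τ h1 h2 h4 with h5 | h5
        · exact h5
        · exact absurd h3 (hZR _ h5)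
      · left
        have h5 := htopR τ h1 h2 h3
        rw [htopnot τ h1 h2₀ h4] at h5
        refine ⟨h1, h2₀, ?_, ?_⟩
        · rw [hR, mem_union] at h3
          rcases h3 with h3 | h3
          · exact h3
          · exfalso
            rw [hUU, mem_filter] at h3
            apply h4
            rw [(ht₀ τ h1 h2₀).2 h3.2.1]
            exact h3.2.2.1
        · rw [h5] at h4; exact h4
    · rintro (⟨h1, h2, h3, h4⟩ | h)
      · refine ⟨h1, ?_, hRR h3⟩
        apply hnotR τ h1 h2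
        rw [(ht₀ τ h1 h2).1 h3]
        exact h4
      · exact ⟨(hZ τ h).2.1, hZR τ h, hZpar τ h⟩

/-- greedy choice of tops -/
theorem sel67 (A : Finset ℕ) (P q : ℕ → ℕ) (K N n : ℕ) (ε : ℝ) (hε : 0 < ε)
    (hP : ∑ t ∈ A, P t ≤ n) (hq : ∀ t, q t ≤ K)
    (hN : (N : ℝ) + ε / 8 * n ≤ ((∑ t ∈ A, q t : ℕ) : ℝ)) :
    ∃ T₀ ⊆ A, N ≤ ∑ t ∈ T₀, q t ∧ ∑ t ∈ T₀, q t ≤ N + K ∧
      ((∑ t ∈ T₀, P t : ℕ) : ℝ) ≤ 8 / ε * (N + K) := by
  classical
  set G := A.filter fun t => ε / 8 * (P t : ℝ) ≤ (q t : ℝ) with hG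
  have hGsum : N ≤ ∑ t ∈ G, q t := by
    have h1 : ((∑ t ∈ A, q t : ℕ) : ℝ) = ∑ t ∈ G, (q t : ℝ) +
        ∑ t ∈ A.filter (fun t => ¬ (ε / 8 * (P t : ℝ) ≤ (q t : ℝ))), (q t : ℝ) := by
      rw [hG, Finset.sum_filter_add_sum_filter_not]
      push_cast
      rfl
    have h2 : ∑ t ∈ A.filter (fun t => ¬ (ε / 8 * (P t : ℝ) ≤ (q t : ℝ))), (q t : ℝ) ≤
        ε / 8 * n := by
      calc ∑ t ∈ A.filter (fun t => ¬ (ε / 8 * (P t : ℝ) ≤ (q t : ℝ))), (q t : ℝ)
          ≤ ∑ t ∈ A.filter (fun t => ¬ (ε / 8 * (P t : ℝ) ≤ (q t : ℝ))),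
            ε / 8 * (P t : ℝ) :=
            Finset.sum_le_sum fun t ht => (not_le.1 (mem_filter.1 ht).2).le
        _ ≤ ∑ t ∈ A, ε / 8 * (P t : ℝ) := by
            apply Finset.sum_le_sum_of_subset_of_nonneg (filter_subset _ _)
            intro t _ _; positivity
        _ = ε / 8 * ((∑ t ∈ A, P t : ℕ) : ℝ) := by
            rw [← Finset.mul_sum]; push_cast; rfl
        _ ≤ ε / 8 * n := by
            have : ((∑ t ∈ A, P t : ℕ) : ℝ) ≤ n := by exact_mod_cast hP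
            gcongr
    have h3 : (N : ℝ) ≤ ∑ t ∈ G, (q t : ℝ) := by linarith
    exact_mod_cast h3
  obtain ⟨T₀, hT₀, hT1, hT2⟩ := T3_greedy q K N G (fun t _ => hq t) hGsum
  refine ⟨T₀, hT₀.trans (filter_subset _ _), hT1, hT2, ?_⟩
  have h2 : ∀ t ∈ T₀, (P t : ℝ) ≤ 8 / ε * (q t : ℝ) := by
    intro t ht
    have := (mem_filter.1 (hT₀ ht)).2
    rw [div_mul_eq_mul_div, le_div_iff₀ hε]
    linarith
  calc ((∑ t ∈ T₀, P t : ℕ) : ℝ) = ∑ t ∈ T₀, (P t : ℝ) := by push_cast; rfl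
    _ ≤ ∑ t ∈ T₀, 8 / ε * (q t : ℝ) := Finset.sum_le_sum h2
    _ = 8 / ε * ((∑ t ∈ T₀, q t : ℕ) : ℝ) := by rw [← Finset.mul_sum]; push_cast; rfl
    _ ≤ 8 / ε * ((N + K : ℕ) : ℝ) := by
        have : ((∑ t ∈ T₀, q t : ℕ) : ℝ) ≤ ((N + K : ℕ) : ℝ) := by exact_mod_cast hT2
        gcongr
    _ = _ := by push_cast; rfl

/-- number of elements of `S` in the pieces with top in `A` -/
theorem fib67 (S A : Finset ℕ) (top : ℕ → ℕ) :
    (S.filter fun v => top v ∈ A).card = ∑ t ∈ A, (S.filter fun v => top v = t).card := by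
  classical
  rw [Finset.card_eq_sum_card_fiberwise (s := S.filter fun v => top v ∈ A) (t := A) (f := top)]
  · refine Finset.sum_congr rfl fun t ht => ?_
    congr 1
    ext v
    simp only [mem_filter]
    constructor
    · rintro ⟨⟨h1, h2⟩, h3⟩; exact ⟨h1, h3⟩
    · rintro ⟨h1, h3⟩; exact ⟨⟨h1, by rw [h3]; exact ht⟩, h3⟩
  · intro v hv
    exact (mem_filter.1 (mem_coe.1 hv)).2

open Classical in
theorem decompG (n : ℕ) (p : ℕ → ℕ) (K D Λ N1 N2 N3 : ℕ) (F : Finset ℕ) (ε η : ℝ) (hp : Par n p) (hn : 0 < n)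
    (hD : 1 ≤ D) (hK : D + 2 ≤ K) (hF : F ⊆ range n) (hε : 0 < ε) (hε1 : ε ≤ 1) (hη : 0 ≤ η)
    (hpend : ε * n ≤ (((range n).filter fun v => Pend n p v ∧ p v ∉ F).card : ℝ))
    (hstar : ε * n ≤ (((range n).filter fun c => StarD n p D c).card : ℝ))
    (htail : ((∑ v ∈ (range n).filter (fun v => Λ < (chl n p v).card), (chl n p v).card : ℕ) : ℝ) ≤ η * n)
    (hM : η * n + Λ * (4 * n / K + 4 + 4 * F.card) ≤ ε / 8 * n)
    (hF2 : (F.card : ℝ) ≤ ε / 100 * n)
    (hN1 : ((N1 + K : ℕ) : ℝ) ≤ ε ^ 2 / 1000 * n) (hN2 : ((N2 + K : ℕ) : ℝ) ≤ ε ^ 2 / 1000 * n)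
    (hN3 : ((N3 + K : ℕ) : ℝ) ≤ ε ^ 2 / 1000 * n) :
    ∃ (R Sp DL DH T : Finset ℕ) (top : ℕ → ℕ), DecG n p K D ε F R Sp DL DH T top ∧
      (R.card : ℝ) ≤ 4 * n / K + 4 + 4 * F.card + 8 / ε * (N1 + N2 + N3 + 3 * K) ∧
      (T.card : ℝ) ≤ η * n + Λ * (4 * n / K + 4 + 4 * F.card) ∧
      N1 ≤ Sp.card ∧ Sp.card ≤ N1 + K ∧ DL.card = N2 ∧ DH.card = N3 := by
  classical
  obtain ⟨R₀, top₀, hDec, hFR₀, hcard, hP₀⟩ := cutF n p K F hp hn (by omega) hF
  have h0 : 0 ∈ R₀ := hDec.zero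
  have ht₀ : ∀ v, v < n → v ∉ R₀ → (p v ∈ R₀ → top₀ v = v) ∧ (p v ∉ R₀ → top₀ v = top₀ (p v)) :=
    fun v hv hvR => ⟨hDec.top_root v hv hvR, hDec.top_step v hv hvR⟩
  have hist := T2_istop n p R₀ top₀ hp h0 ht₀
  have hpos : ∀ v, v ∉ R₀ → 0 < v := by
    intro v hv
    rcases Nat.eq_zero_or_pos v with h | h
    · subst h; exact absurd h0 hv
    · exact h
  have hKpos : (0 : ℝ) < K := by
    have : 0 < K := by omega
    exact_mod_cast this
  have hnpos : (0 : ℝ) < n := by exact_mod_cast hn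
  have hR₀c : (R₀.card : ℝ) ≤ 4 * n / K + 4 + 4 * F.card := by
    have h3 : (R₀.card : ℝ) * K ≤ 4 * n + 4 * K + 4 * K * F.card := by exact_mod_cast hcard
    have h4 : (4 * (n : ℝ) / K + 4 + 4 * F.card) = (4 * n + 4 * K + 4 * K * F.card) / K := by
      field_simp
    rw [h4, le_div_iff₀ hKpos]
    exact h3
  -- children of `R₀`
  have hMle : ((R₀.biUnion (chl n p)).card : ℝ) ≤ η * n + Λ * (4 * n / K + 4 + 4 * F.card) := by
    have h1 : (R₀.biUnion (chl n p)).card ≤ ∑ r ∈ R₀, (chl n p r).card := card_biUnion_le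
    have h2 : ∑ r ∈ R₀, (chl n p r).card ≤
        ∑ v ∈ (range n).filter (fun v => Λ < (chl n p v).card), (chl n p v).card +
          R₀.card * Λ := by
      rw [← Finset.sum_filter_add_sum_filter_not R₀ (fun r => Λ < (chl n p r).card)]
      apply Nat.add_le_add
      · apply Finset.sum_le_sum_of_subset
        intro r hr
        rw [mem_filter] at hr ⊢
        exact ⟨hDec.sub hr.1, hr.2⟩
      · calc ∑ r ∈ R₀.filter (fun r => ¬ Λ < (chl n p r).card), (chl n p r).card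
            ≤ ∑ r ∈ R₀.filter (fun r => ¬ Λ < (chl n p r).card), Λ :=
              Finset.sum_le_sum fun r hr => not_lt.1 (mem_filter.1 hr).2
          _ = (R₀.filter (fun r => ¬ Λ < (chl n p r).card)).card * Λ := by
              rw [Finset.sum_const, smul_eq_mul]
          _ ≤ R₀.card * Λ := Nat.mul_le_mul_right _ (Finset.card_le_card (filter_subset _ _))
    have h3 : ((R₀.biUnion (chl n p)).card : ℝ) ≤
        ((∑ v ∈ (range n).filter (fun v => Λ < (chl n p v).card), (chl n p v).card : ℕ) : ℝ) +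
          (R₀.card : ℝ) * Λ := by exact_mod_cast h1.trans h2
    have h4 : (R₀.card : ℝ) * Λ ≤ Λ * (4 * n / K + 4 + 4 * F.card) := by
      rw [mul_comm]
      exact mul_le_mul_of_nonneg_left hR₀c (Nat.cast_nonneg _)
    linarith
  -- good pendant vertices, good stars
  set GP := (range n).filter (fun v => Pend n p v ∧ v ∉ F ∧ uc n p v ∉ F ∧ p v ∉ F) with hGP
  set GS := (range n).filter (fun c => StarD n p D c ∧ c ∉ F ∧ (∀ u ∈ chl n p c, u ∉ F) ∧
    p c ∉ R₀) with hGS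
  have hGPc : ε * n ≤ (GP.card : ℝ) + 2 * F.card := by
    have h1 : (range n).filter (fun v => Pend n p v ∧ p v ∉ F) ⊆ GP ∪ F ∪ F.image p := by
      intro v hv
      rw [mem_filter] at hv
      rw [mem_union, mem_union, mem_image]
      by_cases h2 : v ∈ F
      · exact Or.inl (Or.inr h2)
      · by_cases h3 : uc n p v ∈ F
        · right
          exact ⟨_, h3, (T3_uc n p v hv.2.1).2.2.2.2⟩
        · exact Or.inl (Or.inl (mem_filter.2 ⟨hv.1, hv.2.1, h2, h3, hv.2.2⟩))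
    have h2 := Finset.card_le_card h1
    have h3 : (GP ∪ F ∪ F.image p).card ≤ GP.card + F.card + F.card :=
      (Finset.card_union_le _ _).trans (Nat.add_le_add (Finset.card_union_le _ _)
        Finset.card_image_le)
    have h4 : (((range n).filter (fun v => Pend n p v ∧ p v ∉ F)).card : ℝ) ≤ GP.card + F.card + F.card := by
      exact_mod_cast h2.trans h3
    linarith
  have hGSc : ε * n ≤ (GS.card : ℝ) + 2 * F.card + ((R₀.biUnion (chl n p)).card : ℝ) := by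
    have h1 : (range n).filter (fun c => StarD n p D c) ⊆
        GS ∪ F ∪ F.image p ∪ R₀.biUnion (chl n p) := by
      intro c hc
      rw [mem_filter] at hc
      rw [mem_union, mem_union, mem_union, mem_image, mem_biUnion]
      by_cases h2 : c ∈ F
      · exact Or.inl (Or.inl (Or.inr h2))
      · by_cases h3 : ∃ u ∈ chl n p c, u ∈ F
        · obtain ⟨u, hu, huF⟩ := h3
          exact Or.inl (Or.inr ⟨u, huF, (mem_chl67.1 hu).2.2⟩)
        · by_cases h4 : p c ∈ R₀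
          · exact Or.inr ⟨_, h4, mem_chl67.2 ⟨hc.2.2.1, hc.2.1, rfl⟩⟩
          · push Not at h3
            exact Or.inl (Or.inl (Or.inl (mem_filter.2 ⟨hc.1, hc.2, h2, h3, h4⟩)))
    have h2 := Finset.card_le_card h1
    have h3 : (GS ∪ F ∪ F.image p ∪ R₀.biUnion (chl n p)).card ≤
        GS.card + F.card + F.card + (R₀.biUnion (chl n p)).card :=
      (Finset.card_union_le _ _).trans (Nat.add_le_add_right ((Finset.card_union_le _ _).trans
        (Nat.add_le_add (Finset.card_union_le _ _) Finset.card_image_le)) _)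
    have h4 : (((range n).filter (fun c => StarD n p D c)).card : ℝ) ≤
        GS.card + F.card + F.card + ((R₀.biUnion (chl n p)).card : ℝ) := by
      exact_mod_cast h2.trans h3
    linarith
  have hGPR : ∀ v ∈ GP, v < n ∧ Pend n p v ∧ v ∉ R₀ ∧ uc n p v ∉ R₀ := by
    intro v hv
    rw [hGP, mem_filter, mem_range] at hv
    obtain ⟨hvn, hP, h1, h2, _⟩ := hv
    obtain ⟨k1, k2, k3, k4, k5⟩ := T3_uc n p v hP
    have h3 := hP₀ v hP.1 hvn h1 (by
      intro u hu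
      rw [k1, mem_singleton] at hu
      subst hu
      exact ⟨h2, k2⟩) (by rw [k1, card_singleton]; omega)
    exact ⟨hvn, hP, h3.1, h3.2 _ (by rw [k1]; exact mem_singleton_self _)⟩
  have hGSR : ∀ c ∈ GS, c < n ∧ StarD n p D c ∧ c ∉ R₀ ∧ (∀ u ∈ chl n p c, u ∉ R₀) ∧ p c ∉ R₀ := by
    intro c hc
    rw [hGS, mem_filter, mem_range] at hc
    obtain ⟨hcn, hS, h1, h2, h3⟩ := hc
    have h4 := hP₀ c hS.1 hcn h1 (fun u hu => ⟨h2 u hu, hS.2.2.2 u hu⟩)
      (by rw [hS.2.2.1]; omega)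
    exact ⟨hcn, hS, h4.1, h4.2, h3⟩
  -- pieces
  set W := (range n).filter (fun v => v ∉ R₀) with hW
  set P : ℕ → Finset ℕ := fun t => W.filter fun v => top₀ v = t with hP
  set TT := W.image top₀ with hTT
  have hPK : ∀ t, (P t).card ≤ K := by
    intro t
    refine le_trans (Finset.card_le_card ?_) (hDec.size t)
    intro v hv
    rw [hP] at hv
    simp only [hW, mem_filter] at hv ⊢
    exact ⟨hv.1.1, hv.1.2, hv.2⟩
  have hWc : ∀ A : Finset ℕ, (W.filter fun v => top₀ v ∈ A).card = ∑ t ∈ A, (P t).card :=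
    fun A => fib67 W A top₀
  have hPn : ∀ A : Finset ℕ, ∑ t ∈ A, (P t).card ≤ n := by
    intro A
    rw [← hWc A]
    refine (Finset.card_le_card ((filter_subset _ _).trans (filter_subset _ _))).trans ?_
    rw [card_range]
  have hrem : ∀ S ⊆ W, ∀ TS : Finset ℕ, S.card ≤
      (S.filter fun v => top₀ v ∈ TT \ TS).card + ∑ t ∈ TS, (P t).card := by
    intro S hS TS
    rw [← hWc TS]
    have h1 : S ⊆ (S.filter fun v => top₀ v ∈ TT \ TS) ∪ (W.filter fun v => top₀ v ∈ TS) := by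
      intro v hv
      rw [mem_union, mem_filter, mem_filter]
      by_cases h : top₀ v ∈ TS
      · exact Or.inr ⟨hS hv, h⟩
      · exact Or.inl ⟨hv, mem_sdiff.2 ⟨mem_image_of_mem _ (hS hv), h⟩⟩
    exact (Finset.card_le_card h1).trans (Finset.card_union_le _ _)
  have hGPW : GP ⊆ W := by
    intro v hv
    obtain ⟨h1, h2, h3, h4⟩ := hGPR v hv
    exact mem_filter.2 ⟨mem_range.2 h1, h3⟩
  have hGSW : GS ⊆ W := by
    intro v hv
    obtain ⟨h1, h2, h3, h4⟩ := hGSR v hv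
    exact mem_filter.2 ⟨mem_range.2 h1, h3⟩
  have hqK : ∀ S ⊆ W, ∀ t, (S.filter fun v => top₀ v = t).card ≤ K := by
    intro S hS t
    refine le_trans (Finset.card_le_card ?_) (hPK t)
    intro v hv
    rw [mem_filter] at hv
    exact mem_filter.2 ⟨hS hv.1, hv.2⟩
  -- numerics
  have hε2 : ε ^ 2 * n ≤ ε * n := by
    have : ε ^ 2 ≤ ε := by nlinarith
    exact mul_le_mul_of_nonneg_right this hnpos.le
  have hKn : (0 : ℝ) ≤ K := hKpos.le
  have hbd : ∀ N : ℕ, ((N + K : ℕ) : ℝ) ≤ ε ^ 2 / 1000 * n →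
      (N : ℝ) ≤ ε / 1000 * n ∧ 8 / ε * ((N : ℝ) + K) ≤ ε / 100 * n := by
    intro N hN
    push_cast at hN
    constructor
    · linarith
    · rw [div_mul_eq_mul_div, div_le_iff₀ hε]
      nlinarith
  obtain ⟨hN1a, hN1b⟩ := hbd N1 hN1
  obtain ⟨hN2a, hN2b⟩ := hbd N2 hN2
  obtain ⟨hN3a, hN3b⟩ := hbd N3 hN3
  have hεn : 0 ≤ ε * n := by positivity
  -- first choice
  obtain ⟨T1, hT1s, hT1a, hT1b, hT1c⟩ := sel67 (TT \ ∅) (fun t => (P t).card)
    (fun t => (GP.filter fun v => top₀ v = t).card) K N1 n ε hε (hPn _) (hqK GP hGPW) (by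
      rw [← fib67]
      have h1 := hrem GP hGPW ∅
      rw [Finset.sum_empty, add_zero] at h1
      have h2 : (GP.card : ℝ) ≤ ((GP.filter fun v => top₀ v ∈ TT \ ∅).card : ℝ) := by
        exact_mod_cast h1
      linarith)
  obtain ⟨T2, hT2s, hT2a, hT2b, hT2c⟩ := sel67 (TT \ T1) (fun t => (P t).card)
    (fun t => (GS.filter fun v => top₀ v = t).card) K N2 n ε hε (hPn _) (hqK GS hGSW) (by
      rw [← fib67]
      have h1 := hrem GS hGSW T1
      have h2 : (GS.card : ℝ) ≤ ((GS.filter fun v => top₀ v ∈ TT \ T1).card : ℝ) +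
          ((∑ t ∈ T1, (P t).card : ℕ) : ℝ) := by
        exact_mod_cast h1
      linarith)
  have hdis12 : Disjoint T1 T2 := by
    rw [Finset.disjoint_left]
    intro t h1 h2
    exact (mem_sdiff.1 (hT2s h2)).2 h1
  obtain ⟨T3, hT3s, hT3a, hT3b, hT3c⟩ := sel67 (TT \ (T1 ∪ T2)) (fun t => (P t).card)
    (fun t => (GS.filter fun v => top₀ v = t).card) K N3 n ε hε (hPn _) (hqK GS hGSW) (by
      rw [← fib67]
      have h1 := hrem GS hGSW (T1 ∪ T2)
      rw [Finset.sum_union hdis12] at h1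
      have h2 : (GS.card : ℝ) ≤ ((GS.filter fun v => top₀ v ∈ TT \ (T1 ∪ T2)).card : ℝ) +
          (((∑ t ∈ T1, (P t).card : ℕ) : ℝ) + ((∑ t ∈ T2, (P t).card : ℕ) : ℝ)) := by
        exact_mod_cast h1
      linarith)
  have hdis13 : Disjoint T1 T3 := by
    rw [Finset.disjoint_left]
    intro t h1 h2
    exact (mem_sdiff.1 (hT3s h2)).2 (mem_union_left _ h1)
  have hdis23 : Disjoint T2 T3 := by
    rw [Finset.disjoint_left]
    intro t h1 h2
    exact (mem_sdiff.1 (hT3s h2)).2 (mem_union_right _ h1)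
  set TS := T1 ∪ T2 ∪ T3 with hTS
  have hdis123 : Disjoint (T1 ∪ T2) T3 := Finset.disjoint_union_left.2 ⟨hdis13, hdis23⟩
  have hTSsum : ((∑ t ∈ TS, (P t).card : ℕ) : ℝ) ≤
      8 / ε * ((N1 : ℝ) + K) + 8 / ε * ((N2 : ℝ) + K) + 8 / ε * ((N3 : ℝ) + K) := by
    rw [hTS, Finset.sum_union hdis123, Finset.sum_union hdis12]
    push_cast at hT1c hT2c hT3c ⊢
    linarith
  -- special stars
  set Sp := GP.filter (fun v => top₀ v ∈ T1) with hSp
  have hSpc : Sp.card = ∑ t ∈ T1, (GP.filter fun v => top₀ v = t).card := fib67 GP T1 top₀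
  obtain ⟨DL, hDLs, hDLc⟩ := Finset.exists_subset_card_eq
    (s := GS.filter fun v => top₀ v ∈ T2) (n := N2) (by rw [fib67]; exact hT2a)
  obtain ⟨DH, hDHs, hDHc⟩ := Finset.exists_subset_card_eq
    (s := GS.filter fun v => top₀ v ∈ T3) (n := N3) (by rw [fib67]; exact hT3a)
  have hSpm : ∀ v ∈ Sp, v ∈ GP ∧ top₀ v ∈ T1 := fun v hv => mem_filter.1 hv
  have hDLm : ∀ v ∈ DL, v ∈ GS ∧ top₀ v ∈ T2 := fun v hv => mem_filter.1 (hDLs hv)
  have hDHm : ∀ v ∈ DH, v ∈ GS ∧ top₀ v ∈ T3 := fun v hv => mem_filter.1 (hDHs hv)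
  have hT1S : T1 ⊆ TS := subset_union_left.trans subset_union_left
  have hT2S : T2 ⊆ TS := subset_union_right.trans subset_union_left
  have hT3S : T3 ⊆ TS := subset_union_right
  have hZstar : ∀ c ∈ GS, top₀ c ∈ TS → 0 < c ∧ c < n ∧ (chl n p c).Nonempty ∧
      (∀ u ∈ chl n p c, chl n p u = ∅) ∧ (chl n p c).card + 1 ≤ K ∧ c ∉ R₀ ∧
      (∀ u ∈ chl n p c, u ∉ R₀) ∧ top₀ c ∈ TS := by
    intro c hc ht
    obtain ⟨h1, h2, h3, h4, h5⟩ := hGSR c hc
    refine ⟨h2.1, h1, ?_, h2.2.2.2, ?_, h3, h4, ht⟩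
    · rw [← Finset.card_pos, h2.2.2.1]; omega
    · rw [h2.2.2.1]; omega
  obtain ⟨R, top, hRD, hRR, hRsub, hRout, hRZ, hRtop⟩ := open67 n p K R₀ TS (Sp ∪ DL ∪ DH) top₀
    hp hDec (by
      intro z hz
      rw [mem_union, mem_union] at hz
      rcases hz with (hz | hz) | hz
      · obtain ⟨h1, h2⟩ := hSpm z hz
        obtain ⟨g1, g2, g3, g4⟩ := hGPR z h1
        obtain ⟨k1, k2, k3, k4, k5⟩ := T3_uc n p z g2
        refine ⟨g2.1, g1, ?_, ?_, ?_, g3, ?_, hT1S h2⟩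
        · rw [k1]; exact singleton_nonempty _
        · intro u hu
          rw [k1, mem_singleton] at hu
          subst hu
          exact k2
        · rw [k1, card_singleton]; omega
        · intro u hu
          rw [k1, mem_singleton] at hu
          subst hu
          exact g4
      · obtain ⟨h1, h2⟩ := hDLm z hz
        exact hZstar z h1 (hT2S h2)
      · obtain ⟨h1, h2⟩ := hDHm z hz
        exact hZstar z h1 (hT3S h2))
  have hSpZ : ∀ v ∈ Sp, v ∉ R ∧ ∀ u ∈ chl n p v, u ∉ R := fun v hv =>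
    hRZ v (mem_union_left _ (mem_union_left _ hv))
  have hDLZ : ∀ v ∈ DL, v ∉ R ∧ ∀ u ∈ chl n p v, u ∉ R := fun v hv =>
    hRZ v (mem_union_left _ (mem_union_right _ hv))
  have hDHZ : ∀ v ∈ DH, v ∉ R ∧ ∀ u ∈ chl n p v, u ∉ R := fun v hv =>
    hRZ v (mem_union_right _ hv)
  set T := (range n).filter (fun τ => τ ∉ R₀ ∧ p τ ∈ R₀ ∧ τ ∉ TS) with hT
  have hTm : ∀ τ ∈ T, top₀ τ ∉ TS := by
    intro τ hτ
    rw [hT, mem_filter, mem_range] at hτ
    rw [(ht₀ τ hτ.1 hτ.2.1).1 hτ.2.2.1]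
    exact hτ.2.2.2
  have htopT : ∀ v, v < n → v ∉ R₀ → top₀ v ∉ TS → v ∈ MV n R top T := by
    intro v hv hvR hvT
    obtain ⟨k1, k2, k3, k4⟩ := hist v hv hvR
    obtain ⟨h1, h2⟩ := hRout v hv hvR hvT
    rw [MV, mem_filter, mem_range]
    refine ⟨hv, h1, ?_⟩
    rw [h2, hT, mem_filter, mem_range]
    exact ⟨k1, k2, k3, hvT⟩
  have hpc : ∀ c ∈ GS, top₀ c = top₀ (p c) := by
    intro c hc
    obtain ⟨h1, h2, h3, h4, h5⟩ := hGSR c hc
    exact (ht₀ c h1 h3).2 h5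
  have hFp : ∀ c ∈ GS, p c ∉ F := by
    intro c hc h
    exact (hGSR c hc).2.2.2.2 (hFR₀ h)
  have hd : ∀ {A B : Finset ℕ}, Disjoint A B → ∀ {x y : ℕ}, x ∈ A → y ∈ B → x ≠ y := by
    intro A B h x y hx hy hxy
    rw [hxy] at hx
    exact (Finset.disjoint_left.1 h) hx hy
  have hcount : ∀ S ⊆ W, ε / 2 * n + 3 * (ε / 100 * n) ≤ (S.card : ℝ) →
      ε / 2 * n ≤ ((S.filter fun v => top₀ v ∈ TT \ TS).card : ℝ) := by
    intro S hS h
    have h1 := hrem S hS TS
    have h2 : (S.card : ℝ) ≤ ((S.filter fun v => top₀ v ∈ TT \ TS).card : ℝ) +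
        ((∑ t ∈ TS, (P t).card : ℕ) : ℝ) := by exact_mod_cast h1
    linarith
  refine ⟨R, Sp, DL, DH, T, top, ⟨hRD, hFR₀.trans hRR, ?_, ?_, ?_, ?_, ?_, ?_, ?_, ?_, ?_, ?_, ?_, ?_,
    ?_, ?_, ?_, ?_, ?_, ?_⟩, ?_, ?_, ?_, ?_, hDLc, hDHc⟩
  · -- tops
    rw [hRtop, hT, Finset.union_assoc, Finset.union_assoc, Finset.union_assoc]
  · rw [Finset.disjoint_left]
    intro v hv hv'
    exact hTm v hv (hT1S (hSpm v hv').2)
  · rw [Finset.disjoint_left]
    intro v hv hv'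
    exact hTm v hv (hT2S (hDLm v hv').2)
  · rw [Finset.disjoint_left]
    intro v hv hv'
    exact hTm v hv (hT3S (hDHm v hv').2)
  · rw [Finset.disjoint_left]
    intro v hv hv'
    exact hd hdis12 (hSpm v hv).2 (hDLm v hv').2 rfl
  · rw [Finset.disjoint_left]
    intro v hv hv'
    exact hd hdis13 (hSpm v hv).2 (hDHm v hv').2 rfl
  · rw [Finset.disjoint_left]
    intro v hv hv'
    exact hd hdis23 (hDLm v hv).2 (hDHm v hv').2 rfl
  · -- sp
    intro v hv
    have h1 := (hGPR v (hSpm v hv).1).2.1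
    refine ⟨h1, (hSpZ v hv).2 _ ?_⟩
    rw [(T3_uc n p v h1).1]
    exact mem_singleton_self _
  · -- spF
    intro v hv
    have h1 := (hSpm v hv).1
    rw [hGP, mem_filter] at h1
    exact h1.2.2.2.2
  · -- dl
    intro c hc
    have h1 := (hDLm c hc).1
    exact ⟨(hGSR c h1).2.1, (hDLZ c hc).2, hFp c h1⟩
  · -- dh
    intro c hc
    have h1 := (hDHm c hc).1
    exact ⟨(hGSR c h1).2.1, (hDHZ c hc).2, hFp c h1⟩
  · -- pLH
    intro c hc c' hc' h
    apply hd hdis23 (hDLm c hc).2 (hDHm c' hc').2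
    rw [hpc c (hDLm c hc).1, hpc c' (hDHm c' hc').1, h]
  · -- pLS
    intro c hc v hv h
    obtain ⟨g1, g2, g3, g4⟩ := hGPR v (hSpm v hv).1
    have h5 := (hGSR c (hDLm c hc).1).2.2.2.2
    rw [h] at h5
    apply hd hdis12 (hSpm v hv).2 (hDLm c hc).2
    rw [hpc c (hDLm c hc).1, h, (ht₀ v g1 g3).2 h5]
  · -- pHS
    intro c hc v hv h
    obtain ⟨g1, g2, g3, g4⟩ := hGPR v (hSpm v hv).1
    have h5 := (hGSR c (hDHm c hc).1).2.2.2.2
    rw [h] at h5
    apply hd hdis13 (hSpm v hv).2 (hDHm c hc).2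
    rw [hpc c (hDHm c hc).1, h, (ht₀ v g1 g3).2 h5]
  · -- mL
    intro r
    refine le_trans (Finset.card_le_card ?_) (hqK GS hGSW (top₀ r))
    intro c hc
    rw [mem_filter] at hc ⊢
    obtain ⟨h1, h2⟩ := hc
    refine ⟨(hDLm c h1).1, ?_⟩
    rw [hpc c (hDLm c h1).1, h2]
  · -- mH
    intro r
    refine le_trans (Finset.card_le_card ?_) (hqK GS hGSW (top₀ r))
    intro c hc
    rw [mem_filter] at hc ⊢
    obtain ⟨h1, h2⟩ := hc
    refine ⟨(hDHm c h1).1, ?_⟩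
    rw [hpc c (hDHm c h1).1, h2]
  · -- pend
    have h1 := hcount GP hGPW (by linarith)
    refine h1.trans ?_
    have h2 : (GP.filter fun v => top₀ v ∈ TT \ TS) ⊆
        (MV n R top T).filter fun v => Pend n p v ∧ uc n p v ∉ R := by
      intro v hv
      rw [mem_filter, mem_sdiff] at hv
      obtain ⟨h3, h4, h5⟩ := hv
      obtain ⟨g1, g2, g3, g4⟩ := hGPR v h3
      obtain ⟨k1, k2, k3, k4, k5⟩ := T3_uc n p v g2
      rw [mem_filter]
      refine ⟨htopT v g1 g3 h5, g2, (hRout _ k4 g4 ?_).1⟩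
      rw [(ht₀ _ k4 g4).2 (by rw [k5]; exact g3), k5]
      exact h5
    exact_mod_cast Finset.card_le_card h2
  · -- star
    have h1 := hcount GS hGSW (by linarith)
    refine h1.trans ?_
    have h2 : (GS.filter fun v => top₀ v ∈ TT \ TS) ⊆
        (MV n R top T).filter fun c => StarD n p D c ∧ p c ∉ R ∧ ∀ u ∈ chl n p c, u ∉ R := by
      intro c hc
      rw [mem_filter, mem_sdiff] at hc
      obtain ⟨h3, h4, h5⟩ := hc
      obtain ⟨g1, g2, g3, g4, g5⟩ := hGSR c h3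
      rw [mem_filter]
      refine ⟨htopT c g1 g3 h5, g2, ?_, ?_⟩
      · have := hp c g2.1 g1
        refine (hRout _ (by omega) g5 ?_).1
        rw [← hpc c h3]
        exact h5
      · intro u hu
        obtain ⟨k1, k2, k3⟩ := mem_chl67.1 hu
        have g6 := g4 u hu
        refine (hRout _ k1 g6 ?_).1
        rw [(ht₀ _ k1 g6).2 (by rw [k3]; exact g3), k3]
        exact h5
    exact_mod_cast Finset.card_le_card h2
  · -- card of R
    have h1 : R.card ≤ R₀.card + ∑ t ∈ TS, (P t).card := by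
      refine (Finset.card_le_card hRsub).trans ((Finset.card_union_le _ _).trans ?_)
      apply Nat.add_le_add_left
      rw [← hWc TS, hW, filter_filter]
    have h2 : (R.card : ℝ) ≤ (R₀.card : ℝ) + ((∑ t ∈ TS, (P t).card : ℕ) : ℝ) := by
      exact_mod_cast h1
    have h3 : 8 / ε * ((N1 : ℝ) + N2 + N3 + 3 * K) =
        8 / ε * ((N1 : ℝ) + K) + 8 / ε * ((N2 : ℝ) + K) + 8 / ε * ((N3 : ℝ) + K) := by ring
    rw [h3]
    linarith
  · -- card of T
    refine le_trans ?_ hMle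
    have h1 : T ⊆ R₀.biUnion (chl n p) := by
      intro τ hτ
      rw [hT, mem_filter, mem_range] at hτ
      rw [mem_biUnion]
      exact ⟨p τ, hτ.2.2.1, mem_chl67.2 ⟨hτ.1, hpos τ hτ.2.1, rfl⟩⟩
    exact_mod_cast Finset.card_le_card h1
  · rw [hSpc]; exact hT1a
  · rw [hSpc]; exact hT1b

end Pool.Agent.GRC
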