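import Pool.Agent.Helper28.GRC.LABG
import Pool.Agent.Helper28.GRC.MKD
import Pool.Agent.Helper28.GRC.LOCG
import Pool.Agent.Helper28.GRC.PKG
import Pool.Agent.Helper28.GRC.FFG
import Pool.Agent.Helper28.GRC.T3

/-!
# GRC-FIN0: structural lemmas for the final assembly
-/

set_option autoImplicit false

namespace Pool.Agent.GRC

open Finset Pool.Agent.SEM

/-- choice of the number of blocks -/
theorem exists_B (D : ℕ) (hD : 1 ≤ D) (x : ℝ) (hx : 64 * (D : ℝ) + 2 ≤ x) :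
    ∃ B : ℕ, 2 ≤ B ∧ Even B ∧ ((4 ^ (B + 1) * D + 2 : ℕ) : ℝ) ≤ x ∧
      x ≤ 16 * ((4 ^ (B + 1) * D + 2 : ℕ) : ℝ) := by
  classical
  have hex : ∃ k : ℕ, x < ((4 ^ (2 * k + 5) * D + 2 : ℕ) : ℝ) := by
    obtain ⟨k, hk⟩ := exists_nat_gt x
    refine ⟨k, hk.trans_le ?_⟩
    have h1 : k ≤ 4 ^ (2 * k + 5) := by
      have h2 : k < 4 ^ k := Nat.lt_pow_self (by norm_num)
      have h3 : 4 ^ k ≤ 4 ^ (2 * k + 5) := Nat.pow_le_pow_right (by norm_num) (by omega)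
      omega
    have h4 : 4 ^ (2 * k + 5) * 1 ≤ 4 ^ (2 * k + 5) * D := Nat.mul_le_mul_left _ hD
    exact_mod_cast (by omega : k ≤ 4 ^ (2 * k + 5) * D + 2)
  set k := Nat.find hex with hk
  have h1 : x < ((4 ^ (2 * k + 5) * D + 2 : ℕ) : ℝ) := Nat.find_spec hex
  refine ⟨2 * k + 2, by omega, ⟨k + 1, by omega⟩, ?_, ?_⟩
  · rcases Nat.eq_zero_or_pos k with h0 | h0
    · rw [h0]
      push_cast
      norm_num
      linarith
    · have h2 := Nat.find_min hex (m := k - 1) (by omega)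
      rw [not_lt] at h2
      have h3 : 2 * (k - 1) + 5 = 2 * k + 2 + 1 := by omega
      rw [h3] at h2
      exact h2
  · refine h1.le.trans ?_
    have h2 : 4 ^ (2 * k + 5) * D + 2 ≤ 16 * (4 ^ (2 * k + 2 + 1) * D + 2) := by
      have h3 : 4 ^ (2 * k + 5) = 16 * 4 ^ (2 * k + 2 + 1) := by ring
      rw [h3]
      have h4 : 16 * 4 ^ (2 * k + 2 + 1) * D = 16 * (4 ^ (2 * k + 2 + 1) * D) := by ring
      omega
    exact_mod_cast h2

section
variable {m g n K D : ℕ} {ε : ℝ} {p ea eb top lab : ℕ → ℕ} {w c : ℕ} {R Sp DL DH T : Finset ℕ}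

theorem Fset_sub (h : PForm m g D p ea eb w c) : Fset m g p ea eb w c ⊆ range m := by
  intro v hv
  rw [mem_range]
  unfold Fset at hv
  simp only [mem_union, mem_insert, mem_singleton, mem_image, mem_range] at hv
  have h1 := h.hw.2.1
  have h2 := h.hc.2.1
  rcases hv with (((hv | hv) | hv) | hv) | (⟨j, hj, hv⟩ | ⟨j, hj, hv⟩)
  · rcases hv with rfl | rfl | rfl <;> omega
  · exact (mem_chl.1 hv).1
  · exact (mem_chl.1 hv).1
  · exact (mem_chl.1 hv).1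
  · have := h.ext j hj; omega
  · have := h.ext j hj; omega

theorem Fset_card {X : ℕ} (h : PForm m g D p ea eb w c) (hX : ∀ v, v < m → (chl m p v).card ≤ X) :
    (Fset m g p ea eb w c).card ≤ 3 + 3 * X + 2 * g := by
  unfold Fset
  have h1 := h.hw.2.1
  have h2 := h.hc.2.1
  refine (card_union_le _ _).trans ?_
  have a1 : ((({0, w, c} : Finset ℕ) ∪ chl m p 0 ∪ chl m p w ∪ chl m p c).card) ≤ 3 + 3 * X := by
    refine (card_union_le _ _).trans ?_
    have b1 := hX c h2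
    have b2 : ((({0, w, c} : Finset ℕ) ∪ chl m p 0 ∪ chl m p w).card) ≤ 3 + 2 * X := by
      refine (card_union_le _ _).trans ?_
      have c1 := hX w h1
      have c2 : ((({0, w, c} : Finset ℕ) ∪ chl m p 0).card) ≤ 3 + X := by
        refine (card_union_le _ _).trans ?_
        have d1 := hX 0 (by omega)
        have d2 := card_le_three (a := 0) (b := w) (c := c)
        omega
      omega
    omega
  have a2 : ((range g).image ea ∪ (range g).image eb).card ≤ 2 * g := by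
    refine (card_union_le _ _).trans ?_
    have b1 : ((range g).image ea).card ≤ g := card_image_le.trans (card_range g).le
    have b2 : ((range g).image eb).card ≤ g := card_image_le.trans (card_range g).le
    omega
  omega

theorem DecG.stc (hD : DecG m p K D ε (Fset m g p ea eb w c) R Sp DL DH T top) :
    ∀ c' ∈ DL ∪ DH, c' ∉ R ∧ 0 < c' ∧ c' < m ∧ p c' ∈ R ∧ ∀ u ∈ chl m p c', u ∉ R ∧ chl m p u = ∅ := by
  intro c' hc'
  have h1 : c' ∈ (range m).filter (fun τ => τ ∉ R ∧ p τ ∈ R) := by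
    rw [hD.tops]
    simp only [mem_union] at hc' ⊢
    tauto
  rw [mem_filter, mem_range] at h1
  rcases mem_union.1 hc' with h | h
  · obtain ⟨h2, h3, -⟩ := hD.dl c' h
    exact ⟨h1.2.1, h2.1, h1.1, h1.2.2, fun u hu => ⟨h3 u hu, h2.2.2.2 u hu⟩⟩
  · obtain ⟨h2, h3, -⟩ := hD.dh c' h
    exact ⟨h1.2.1, h2.1, h1.1, h1.2.2, fun u hu => ⟨h3 u hu, h2.2.2.2 u hu⟩⟩

theorem DecG.sp' (hp : Par m p) (hD : DecG m p K D ε (Fset m g p ea eb w c) R Sp DL DH T top) :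
    ∀ v ∈ Sp, Pend m p v ∧ p v ∈ R ∧ v ∉ Rpl m p R DL DH ∧ uc m p v ∉ Rpl m p R DL DH := by
  intro v hv
  have h1 : v ∈ (range m).filter (fun τ => τ ∉ R ∧ p τ ∈ R) := by
    rw [hD.tops]
    simp only [mem_union]
    tauto
  rw [mem_filter, mem_range] at h1
  obtain ⟨h2, h3⟩ := hD.sp v hv
  obtain ⟨k1, k2, k3⟩ := rpl_tops hp hD.dec hD.stc
  have h4 : top v = v := hD.dec.top_root v h1.1 h1.2.1 h1.2.2
  have h5 : v ∉ DL ∪ DH := by
    rw [mem_union, not_or]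
    exact ⟨fun h => disjoint_left.1 hD.dSL hv h, fun h => disjoint_left.1 hD.dSH hv h⟩
  obtain ⟨u1, u2, u3⟩ := h2.uc_spec
  have h6 : top (uc m p v) = v := by
    rw [hD.dec.top_step _ u1 h3 (by rw [u3]; exact h1.2.1), u3, h4]
  refine ⟨h2, h1.2.2, k3 v h1.1 h1.2.1 (by rw [h4]; exact h5), k3 _ u1 h3 (by rw [h6]; exact h5)⟩

theorem mem_Rpl {v : ℕ} : v ∈ Rpl m p R DL DH ↔ v ∈ R ∨ v ∈ DL ∪ DH ∨ ∃ c' ∈ DL ∪ DH, v ∈ chl m p c' := by
  unfold Rpl
  rw [mem_union, mem_union, mem_biUnion, or_assoc]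

theorem rpl_ctr (hD : DecG m p K D ε (Fset m g p ea eb w c) R Sp DL DH T top) :
    ∀ r ∈ Rpl m p R DL DH, ((∃ v, 0 < v ∧ v < m ∧ v ∉ Rpl m p R DL DH ∧ p v = r) ∨
      (0 < r ∧ p r ∉ Rpl m p R DL DH)) → r ∈ R := by
  intro r hr h
  rcases mem_Rpl.1 hr with h1 | h1 | ⟨c', hc', h1⟩
  · exact h1
  · exfalso
    rcases h with ⟨v, hv0, hvm, hv, hpv⟩ | ⟨_, h2⟩
    · exact hv (mem_Rpl.2 (Or.inr (Or.inr ⟨r, h1, mem_chl.2 ⟨hvm, hv0, hpv⟩⟩)))
    · exact h2 (mem_Rpl.2 (Or.inl (hD.stc r h1).2.2.2.1))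
  · exfalso
    rcases h with ⟨v, hv0, hvm, hv, hpv⟩ | ⟨_, h2⟩
    · have h3 := ((hD.stc c' hc').2.2.2.2 r h1).2
      have h4 : v ∈ chl m p r := mem_chl.2 ⟨hvm, hv0, hpv⟩
      rw [h3] at h4
      simp at h4
    · rw [(mem_chl.1 h1).2.2] at h2
      exact h2 (mem_Rpl.2 (Or.inr (Or.inl hc')))

theorem sp_mult {X : ℕ} (hp : Par m p) (hSp : ∀ v ∈ Sp, Pend m p v)
    (hX : ∀ v, v < m → (chl m p v).card ≤ X) : ∀ r, (Sp.filter fun v => p v = r).card ≤ X := by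
  intro r
  by_cases hr : r < m
  · refine (card_le_card ?_).trans (hX r hr)
    intro v hv
    rw [mem_filter] at hv
    obtain ⟨h1, h2⟩ := hv
    have h3 := hSp v h1
    exact mem_chl.2 ⟨h3.2.1, h3.1, h2⟩
  · have : Sp.filter (fun v => p v = r) = ∅ := by
      rw [filter_eq_empty_iff]
      intro v hv h
      have h3 := hSp v hv
      have := hp v h3.1 h3.2.1
      have := h3.2.1
      omega
    rw [this]
    simp

theorem rpl_card (hD : DecG m p K D ε (Fset m g p ea eb w c) R Sp DL DH T top) :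
    (Rpl m p R DL DH).card ≤ R.card + (DL.card + DH.card) * (D + 1) := by
  unfold Rpl
  have h1 : ((DL ∪ DH).biUnion (chl m p)).card ≤ (DL.card + DH.card) * D := by
    refine card_biUnion_le.trans ?_
    have h2 : ∀ c' ∈ DL ∪ DH, (chl m p c').card ≤ D := by
      intro c' hc'
      rcases mem_union.1 hc' with h | h
      · exact (hD.dl c' h).1.2.2.1.le
      · exact (hD.dh c' h).1.2.2.1.le
    refine (sum_le_card_nsmul _ _ _ h2).trans ?_
    rw [smul_eq_mul]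
    exact Nat.mul_le_mul_right _ (card_union_le _ _)
  have h3 := card_union_le DL DH
  have h4 := card_union_le (R ∪ (DL ∪ DH)) ((DL ∪ DH).biUnion (chl m p))
  have h5 := card_union_le R (DL ∪ DH)
  have h6 : (DL.card + DH.card) * (D + 1) = (DL.card + DH.card) * D + (DL.card + DH.card) := by ring
  omega

/-- the main tops -/
theorem TTg_facts {Ve Vin A : Finset ℕ} (hp : Par m p)
    (hD : DecG m p K D ε (Fset m g p ea eb w c) R Sp DL DH T top) (hZ : Ve ∪ Vin ∪ A ⊆ Sp) :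
    T ⊆ TTg m p (Rpl m p R DL DH) Ve Vin A ∧ TTg m p (Rpl m p R DL DH) Ve Vin A ⊆ T ∪ Sp := by
  obtain ⟨k1, k2, k3⟩ := rpl_tops hp hD.dec hD.stc
  have h0 : SEM.tops m p R = T ∪ Sp ∪ DL ∪ DH := by
    rw [← hD.tops]; rfl
  constructor
  · intro τ hτ
    unfold TTg
    rw [k1, h0, mem_sdiff, mem_sdiff]
    refine ⟨⟨by simp only [mem_union]; tauto, ?_⟩, ?_⟩
    · rw [mem_union, not_or]
      exact ⟨fun h => disjoint_left.1 hD.dTL hτ h, fun h => disjoint_left.1 hD.dTH hτ h⟩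
    · intro h
      exact disjoint_left.1 hD.dTS hτ (hZ h)
  · intro τ hτ
    unfold TTg at hτ
    rw [k1, h0, mem_sdiff, mem_sdiff] at hτ
    obtain ⟨⟨h1, h2⟩, -⟩ := hτ
    simp only [mem_union, not_or] at h1 h2 ⊢
    tauto

open Classical in
theorem flex_sub {Ve Vin A : Finset ℕ} (hp : Par m p)
    (hD : DecG m p K D ε (Fset m g p ea eb w c) R Sp DL DH T top) (hZ : Ve ∪ Vin ∪ A ⊆ Sp) :
    ((MV m R top T).filter fun v => Pend m p v ∧ uc m p v ∉ R).card ≤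
      ((MV m (Rpl m p R DL DH) top (TTg m p (Rpl m p R DL DH) Ve Vin A)).filter
        fun v => Pend m p v ∧ uc m p v ∉ Rpl m p R DL DH).card := by
  obtain ⟨k1, k2, k3⟩ := rpl_tops hp hD.dec hD.stc
  obtain ⟨f1, f2⟩ := TTg_facts (Ve := Ve) (Vin := Vin) (A := A) hp hD hZ
  have hT : ∀ τ ∈ T, τ ∉ DL ∪ DH := by
    intro τ hτ
    rw [mem_union, not_or]
    exact ⟨fun h => disjoint_left.1 hD.dTL hτ h, fun h => disjoint_left.1 hD.dTH hτ h⟩
  apply card_le_card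
  intro v hv
  rw [mem_filter, mem_MV] at hv ⊢
  obtain ⟨⟨h1, h2, h3⟩, h4, h5⟩ := hv
  obtain ⟨u1, u2, u3⟩ := h4.uc_spec
  have h6 : top (uc m p v) = top v := by
    rw [hD.dec.top_step _ u1 h5 (by rw [u3]; exact h2), u3]
  exact ⟨⟨h1, k3 v h1 h2 (hT _ h3), f1 h3⟩, h4, k3 _ u1 h5 (by rw [h6]; exact hT _ h3)⟩

open Classical in
theorem star_sub {Ve Vin A : Finset ℕ} (hp : Par m p)
    (hD : DecG m p K D ε (Fset m g p ea eb w c) R Sp DL DH T top) (hZ : Ve ∪ Vin ∪ A ⊆ Sp) :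
    ((MV m R top T).filter fun c' => StarD m p D c' ∧ p c' ∉ R ∧ ∀ u ∈ chl m p c', u ∉ R).card ≤
      ((MV m (Rpl m p R DL DH) top (TTg m p (Rpl m p R DL DH) Ve Vin A)).filter
        fun c' => StarD m p D c' ∧ p c' ∉ Rpl m p R DL DH ∧
          ∀ u ∈ chl m p c', u ∉ Rpl m p R DL DH).card := by
  obtain ⟨k1, k2, k3⟩ := rpl_tops hp hD.dec hD.stc
  obtain ⟨f1, f2⟩ := TTg_facts (Ve := Ve) (Vin := Vin) (A := A) hp hD hZ
  have hT : ∀ τ ∈ T, τ ∉ DL ∪ DH := by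
    intro τ hτ
    rw [mem_union, not_or]
    exact ⟨fun h => disjoint_left.1 hD.dTL hτ h, fun h => disjoint_left.1 hD.dTH hτ h⟩
  apply card_le_card
  intro v hv
  rw [mem_filter, mem_MV] at hv ⊢
  obtain ⟨⟨h1, h2, h3⟩, h4, h5, h5'⟩ := hv
  have h6 : top (p v) = top v := (hD.dec.top_step v h1 h2 h5).symm
  have h7 : p v < m := (hp v h4.1 h1).trans h1
  refine ⟨⟨h1, k3 v h1 h2 (hT _ h3), f1 h3⟩, h4, k3 _ h7 h5 (by rw [h6]; exact hT _ h3), ?_⟩
  intro u hu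
  obtain ⟨u1, u2, u3⟩ := mem_chl.1 hu
  have h8 : top u = top v := by
    rw [hD.dec.top_step _ u1 (h5' u hu) (by rw [u3]; exact h2), u3]
  exact k3 u u1 (h5' u hu) (by rw [h8]; exact hT _ h3)

end

end Pool.Agent.GRC
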