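import Pool.Agent.Helper28.GRC.GD

/-!
# GRC-GL: gadget absorbing exactly one of the labels of a set `N` (differences)

Model: Helper73/SEM/GL.lean (`SEM.glab`); copy the averaging lemma `avg20`, the greedy lemma `greedy20` etc. from there.

Proof in words.  `k = |N| ≤ d`, `N = {x_1, .., x_k}`, `s = n/100 ≥ 40 (d+1)(u+10d+10)`.  Choose `i₀ ∈ Sp` arbitrary, `c₀ = c i₀`.
(1) Choose `b ∈ [n/2 - s, n/2 + s]` with `b ∉ UX`, `|c₀ - b| ∉ US`, `σ_j := |b - x_j| ∉ US` for all `j`, `2b ≠ x_j + x_l` (`j ≠ l`; so the `σ_j` are distinct), `2b ≠ c₀ + x_j`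
(so `|c₀-b| ≠ σ_j`; `x_j ≠ c₀`), and for every `j`: `#{i ∈ Sp : c i + σ_j ∈ UX} ≤ |Sp|/10` (for each `i` at most `2u` values `b` are bad, so by double counting at most `20 u`
values `b` violate this).  Excluded in total: at most `u + 2u + 2ku + k² + k + 20ku < 2s+1`.
(2) Choose `τ ∈ [n/5, n/5 + 2s]`, `τ ∉ US`, `τ + σ_j ∉ US`, `τ ≠ σ_j`, `τ + σ_j ≠ σ_l`, `τ ≠ |c₀ - b|` (also `τ + σ_j ≠ |c₀-b|`, automatic as `|c₀-b| ≤ 0.011 n + 1 < τ`), with
`#{i ∈ Sp : c i - τ ∈ UX} ≤ |Sp|/10`.  Excluded: at most `(1 + k + 10) u + k² + k + 1`.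
(3) For `j = 1..k` choose successively `i_j ∈ Sp`, different from `i₀` and the previous ones, with `c_j + σ_j ∉ UX`, `c_j - τ ∉ UX` (at least `0.8 |Sp|` choices), and with
`c_j = c i_j` not equal to the at most `6k+6` values for which one of the new labels `c_j + σ_j`, `c_j - τ` coincides with `b` or with a previous new label
(each coincidence fixes the value of `c_j`, so excludes at most `D` paths).
`P = {i₀, i_1, .., i_k}`, `L = {b} ∪ {c_j + σ_j, c_j - τ}` (`2k+1` labels), `S = {|c₀ - b|, τ} ∪ {σ_j} ∪ {σ_j + τ}` (`2k+2` differences; `σ_j > 0` since `b ∉ UX ∋ x_j`).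
To absorb `x_j`: path `i₀`: labels `b, x_j`, differences `|c₀-b|, σ_j`; path `i_l`, `l ≠ j`: `y = c_l + σ_l`, `z = c_l - τ`, differences `σ_l`, `σ_l + τ`;
path `i_j`: `y = c_j - τ`, `z = c_j + σ_j`, differences `τ`, `σ_j + τ`.
Ranges: `c ∈ [0.499n - 1, 0.501n]`, `x ∈ [0.09 n, 0.91 n]`: `σ ≤ 0.43 n`, `c + σ ≤ 0.94 n`, `c - τ ≥ 0.27 n`, `σ + τ ≤ 0.66 n`.
-/

set_option autoImplicit false

namespace Pool.Agent.GRC

open Finset

private theorem avgGLd {I Sup : Finset ℕ} {bad : ℕ → ℕ → Prop}
    [∀ b i, Decidable (bad b i)] {u : ℕ}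
    (hS : 0 < Sup.card) (h : ∀ i ∈ Sup, (I.filter fun b => bad b i).card ≤ u) :
    (I.filter fun b => Sup.card < 10 * (Sup.filter fun i => bad b i).card).card ≤ 10 * u := by
  set J := I.filter fun b => Sup.card < 10 * (Sup.filter fun i => bad b i).card with hJ
  have h1 : J.card * Sup.card ≤ ∑ b ∈ J, 10 * (Sup.filter fun i => bad b i).card := by
    rw [← smul_eq_mul]
    refine Finset.card_nsmul_le_sum _ _ _ fun b hb => ?_
    exact (Finset.mem_filter.mp hb).2.le
  have h2 : ∑ b ∈ J, (Sup.filter fun i => bad b i).card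
      = ∑ i ∈ Sup, (J.filter fun b => bad b i).card := by
    simp only [Finset.card_filter]
    exact Finset.sum_comm
  have h3 : ∑ i ∈ Sup, (J.filter fun b => bad b i).card ≤ Sup.card * u := by
    rw [← smul_eq_mul]
    refine Finset.sum_le_card_nsmul _ _ _ fun i hi => ?_
    refine le_trans (Finset.card_le_card ?_) (h i hi)
    intro b hb
    rw [Finset.mem_filter] at hb ⊢
    exact ⟨(Finset.mem_filter.mp hb.1).1, hb.2⟩
  rw [← Finset.mul_sum, h2] at h1
  have h4 : J.card * Sup.card ≤ (10 * u) * Sup.card := by nlinarith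
  exact Nat.le_of_mul_le_mul_right h4 hS

private theorem greedyGLd (Sup : Finset ℕ) (bad : ℕ → ℕ → Prop) (conf : ℕ → ℕ → ℕ → ℕ → Prop)
    [∀ x i, Decidable (bad x i)] [∀ x i y j, Decidable (conf x i y j)] (a e : ℕ) (hsymm : ∀ x i y j, conf x i y j → conf y j x i) (N : Finset ℕ) :
    (∀ x ∈ N, (Sup.filter fun i => bad x i).card ≤ a) →
    (∀ x ∈ N, ∀ y ∈ N, ∀ j ∈ Sup, (Sup.filter fun i => conf x i y j).card ≤ e) →
    a + N.card * e < Sup.card →
    ∃ g : ℕ → ℕ, (∀ x ∈ N, g x ∈ Sup ∧ ¬ bad x (g x)) ∧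
      ∀ x ∈ N, ∀ y ∈ N, x ≠ y → ¬ conf x (g x) y (g y) := by
  induction N using Finset.induction_on with
  | empty => intro _ _ _; exact ⟨fun _ => 0, by simp, by simp⟩
  | insert x N hx ih =>
    intro h1 h2 h3
    rw [Finset.card_insert_of_notMem hx] at h3
    obtain ⟨g, hg1, hg2⟩ := ih (fun y hy => h1 y (mem_insert_of_mem hy))
      (fun y hy z hz => h2 y (mem_insert_of_mem hy) z (mem_insert_of_mem hz))
      (by nlinarith)
    have hb : ((Sup.filter fun i => bad x i) ∪
        N.biUnion fun y => Sup.filter fun i => conf x i y (g y)).card < Sup.card := by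
      refine lt_of_le_of_lt (Finset.card_union_le _ _) ?_
      have e1 := h1 x (mem_insert_self _ _)
      have e2 : (N.biUnion fun y => Sup.filter fun i => conf x i y (g y)).card ≤ N.card * e :=
        Finset.card_biUnion_le_card_mul _ _ _ fun y hy =>
          h2 x (mem_insert_self _ _) y (mem_insert_of_mem hy) _ (hg1 y hy).1
      nlinarith
    obtain ⟨i, hiS, hi⟩ : ∃ i ∈ Sup, i ∉ ((Sup.filter fun i => bad x i) ∪
        N.biUnion fun y => Sup.filter fun i => conf x i y (g y)) := by
      by_contra hcon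
      push Not at hcon
      exact absurd (Finset.card_le_card hcon) (not_le.mpr hb)
    rw [Finset.mem_union, not_or, Finset.mem_biUnion] at hi
    obtain ⟨hi1, hi2⟩ := hi
    have hi1' : ¬ bad x i := fun h => hi1 (Finset.mem_filter.mpr ⟨hiS, h⟩)
    have hi2' : ∀ y ∈ N, ¬ conf x i y (g y) := fun y hy h =>
      hi2 ⟨y, hy, Finset.mem_filter.mpr ⟨hiS, h⟩⟩
    have hu : ∀ y ∈ N, Function.update g x i y = g y := fun y hy =>
      Function.update_of_ne (by rintro rfl; exact hx hy) _ _
    refine ⟨Function.update g x i, ?_, ?_⟩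
    · intro y hy
      rcases Finset.mem_insert.mp hy with rfl | hy
      · rw [Function.update_self]; exact ⟨hiS, hi1'⟩
      · rw [hu y hy]; exact hg1 y hy
    · intro y hy z hz hyz
      rcases Finset.mem_insert.mp hy with rfl | hy'
      · rcases Finset.mem_insert.mp hz with rfl | hz'
        · exact absurd rfl hyz
        · rw [Function.update_self, hu z hz']; exact hi2' z hz'
      · rcases Finset.mem_insert.mp hz with rfl | hz'
        · rw [Function.update_self, hu y hy']
          exact fun h => hi2' y hy' (hsymm _ _ _ _ h)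
        · rw [hu y hy', hu z hz']; exact hg2 y hy' z hz' hyz

/-- choice outside of finitely many bad sets -/
private theorem pickGLd {I B : Finset ℕ} (h : B.card < I.card) : ∃ b ∈ I, b ∉ B := by
  by_contra hcon
  push Not at hcon
  exact absurd (Finset.card_le_card hcon) (not_le.mpr h)

private theorem cardleGLd {I T : Finset ℕ} {f : ℕ → ℕ} {u : ℕ} (hT : T.card ≤ u)
    (hf : Set.InjOn f I) : (I.filter fun b => f b ∈ T).card ≤ u := by
  refine le_trans ?_ hT
  refine Finset.card_le_card_of_injOn f (fun b hb => (Finset.mem_filter.mp hb).2) ?_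
  intro a ha b hb hab
  exact hf (Finset.mem_filter.mp ha).1 (Finset.mem_filter.mp hb).1 hab

private theorem adleGLd {I T : Finset ℕ} {a u : ℕ} (hT : T.card ≤ u) :
    (I.filter fun b => ad b a ∈ T).card ≤ 2 * u := by
  classical
  have h1 : (I.filter fun b => ad b a ∈ T) ⊆ ((I.filter fun b => a ≤ b).filter fun b => b - a ∈ T) ∪
      ((I.filter fun b => b < a).filter fun b => a - b ∈ T) := by
    intro b hb
    obtain ⟨hb1, hb2⟩ := Finset.mem_filter.mp hb
    rcases le_or_gt a b with h | h
    · refine Finset.mem_union_left _ (Finset.mem_filter.mpr ⟨Finset.mem_filter.mpr ⟨hb1, h⟩, ?_⟩)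
      have : ad b a = b - a := by unfold ad; omega
      rwa [this] at hb2
    · refine Finset.mem_union_right _ (Finset.mem_filter.mpr ⟨Finset.mem_filter.mpr ⟨hb1, h⟩, ?_⟩)
      have : ad b a = a - b := by unfold ad; omega
      rwa [this] at hb2
  refine le_trans (Finset.card_le_card h1) (le_trans (Finset.card_union_le _ _) ?_)
  have h2 : ((I.filter fun b => a ≤ b).filter fun b => b - a ∈ T).card ≤ u :=
    cardleGLd (f := fun b => b - a) hT (by
      intro x hx y hy hxy
      have hx := (Finset.mem_filter.mp (Finset.mem_coe.mp hx)).2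
      have hy := (Finset.mem_filter.mp (Finset.mem_coe.mp hy)).2
      simp only at hxy
      omega)
  have h3 : ((I.filter fun b => b < a).filter fun b => a - b ∈ T).card ≤ u :=
    cardleGLd (f := fun b => a - b) hT (by
      intro x hx y hy hxy
      have hx := (Finset.mem_filter.mp (Finset.mem_coe.mp hx)).2
      have hy := (Finset.mem_filter.mp (Finset.mem_coe.mp hy)).2
      simp only at hxy
      omega)
  omega

private theorem adle2GLd {I T : Finset ℕ} {a v u : ℕ} (hT : T.card ≤ u) :
    (I.filter fun b => v + ad b a ∈ T).card ≤ 2 * u := by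
  classical
  refine le_trans (Finset.card_le_card (t := I.filter fun b => ad b a ∈
    (T.filter fun t => v ≤ t).image fun t => t - v) ?_) (adleGLd ?_)
  · intro b hb
    obtain ⟨hb1, hb2⟩ := Finset.mem_filter.mp hb
    refine Finset.mem_filter.mpr ⟨hb1, Finset.mem_image.mpr ⟨v + ad b a,
      Finset.mem_filter.mpr ⟨hb2, by omega⟩, by omega⟩⟩
  · exact le_trans Finset.card_image_le (le_trans (Finset.card_le_card (Finset.filter_subset _ _)) hT)

theorem glab {n h D u d : ℕ} {c : ℕ → ℕ} {Sp N UX US : Finset ℕ}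
    (hs : SplyD n h D u d c Sp UX US) (hN : N ⊆ UX) (hNd : N.card ≤ d)
    (hN1 : ∀ x ∈ N, 9 * n ≤ 100 * x ∧ 100 * x ≤ 91 * n) (hNc : ∀ i ∈ Sp, c i ∉ N) :
    ∃ P L S : Finset ℕ, P ⊆ Sp ∧ P.card = N.card + 1 ∧ Disjoint L UX ∧ Disjoint S US ∧
      L ⊆ Icc 1 n ∧ S ⊆ Icc 1 n ∧ L.card = 2 * N.card + 1 ∧ S.card = 2 * N.card + 2 ∧
      (∀ x ∈ L, 9 * n ≤ 100 * x ∧ 100 * x ≤ 95 * n) ∧ (∀ s ∈ S, 100 * s ≤ 70 * n) ∧
      ∀ x ∈ N, AbsD c P (insert x L) S := by
  classical
  obtain ⟨mid, hh, mult, big, cU, uX, uS, hu⟩ := hs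
  set k := N.card with hk
  set s := n / 100 with hs
  have hSpos : 0 < Sp.card := by
    refine lt_of_lt_of_le ?_ big
    positivity
  have hsu : 40 * (d + 1) * (u + 10 * d + 10) ≤ s := by
    rw [hs, Nat.le_div_iff_mul_le (by norm_num)]
    calc 40 * (d + 1) * (u + 10 * d + 10) * 100 = 4000 * (d + 1) * (u + 10 * d + 10) := by ring
      _ ≤ n := hu
  obtain ⟨i₀, hi₀⟩ := Finset.card_pos.mp hSpos
  -- ranges
  have hs1 : 100 * s ≤ n := by rw [hs]; omega
  have hs2 : n < 100 * s + 100 := by rw [hs]; omega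
  have hs3 : 400 ≤ s := by
    refine le_trans ?_ hsu
    nlinarith [Nat.zero_le (d * u), Nat.zero_le (d * d), Nat.zero_le d, Nat.zero_le u]
  have hmid : ∀ i ∈ Sp, n / 2 ≤ c i + h ∧ c i ≤ n / 2 + h := mid
  -- choice of b
  have hI1 : ((Icc (n / 2 - s) (n / 2 + s)).card) = 2 * s + 1 := by
    rw [Nat.card_Icc]; omega
  obtain ⟨b, hbI, hb⟩ : ∃ b ∈ Icc (n / 2 - s) (n / 2 + s), b ∉
      ((Icc (n / 2 - s) (n / 2 + s)).filter fun b => b ∈ UX) ∪
      (((Icc (n / 2 - s) (n / 2 + s)).filter fun b => ad b (c i₀) ∈ US) ∪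
      ((N.biUnion fun x => (Icc (n / 2 - s) (n / 2 + s)).filter fun b => ad b x ∈ US) ∪
      (((N ×ˢ N).image fun q => (q.1 + q.2) / 2) ∪ ((N.image fun x => (c i₀ + x) / 2) ∪
      (N.biUnion fun x => (Icc (n / 2 - s) (n / 2 + s)).filter fun b =>
        Sp.card < 10 * (Sp.filter fun i => c i + ad b x ∈ UX).card))))) := by
    refine pickGLd ?_
    rw [hI1]
    have e1 : ((Icc (n / 2 - s) (n / 2 + s)).filter fun b => b ∈ UX).card ≤ u :=
      cardleGLd (f := fun b => b) uX (fun a _ b _ hab => hab)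
    have e2 : ((Icc (n / 2 - s) (n / 2 + s)).filter fun b => ad b (c i₀) ∈ US).card ≤ 2 * u :=
      adleGLd uS
    have e3 : (N.biUnion fun x => (Icc (n / 2 - s) (n / 2 + s)).filter
        fun b => ad b x ∈ US).card ≤ k * (2 * u) :=
      Finset.card_biUnion_le_card_mul _ _ _ fun x hx => adleGLd uS
    have e5 : ((N ×ˢ N).image fun q => (q.1 + q.2) / 2).card ≤ k * k := by
      refine le_trans Finset.card_image_le ?_
      rw [Finset.card_product]
    have e6 : (N.image fun x => (c i₀ + x) / 2).card ≤ k := Finset.card_image_le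
    have e4 : (N.biUnion fun x => (Icc (n / 2 - s) (n / 2 + s)).filter fun b =>
        Sp.card < 10 * (Sp.filter fun i => c i + ad b x ∈ UX).card).card
        ≤ k * (10 * (2 * u)) := by
      refine Finset.card_biUnion_le_card_mul _ _ _ fun x hx => ?_
      exact avgGLd (bad := fun b i => c i + ad b x ∈ UX) hSpos fun i hi => adle2GLd uX
    refine lt_of_le_of_lt (Finset.card_union_le _ _) ?_
    refine lt_of_le_of_lt (Nat.add_le_add e1 (le_trans (Finset.card_union_le _ _)
      (Nat.add_le_add e2 (le_trans (Finset.card_union_le _ _) (Nat.add_le_add e3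
      (le_trans (Finset.card_union_le _ _) (Nat.add_le_add e5
      (le_trans (Finset.card_union_le _ _) (Nat.add_le_add e6 e4))))))))) ?_
    have h5 : k * u ≤ d * u := Nat.mul_le_mul_right _ hNd
    have h6 : k * k ≤ d * d := Nat.mul_le_mul hNd hNd
    nlinarith [Nat.zero_le (d * u), Nat.zero_le (d * d), Nat.zero_le d, Nat.zero_le u]
  simp only [Finset.mem_union, Finset.mem_filter, Finset.mem_biUnion, hbI, true_and, not_or,
    not_exists, not_and, not_lt, Finset.mem_image, Finset.mem_product, Prod.forall] at hb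
  obtain ⟨hb1, hb2, hb3, hb5, hb6, hb4⟩ := hb
  rw [Finset.mem_Icc] at hbI
  obtain ⟨σ, hσ⟩ : ∃ σ : ℕ → ℕ, σ = fun x => ad b x := ⟨_, rfl⟩
  have hσ' : ∀ x, ad b x = σ x := fun x => by rw [hσ]
  have hσ1 : ∀ x, σ x = (b - x) + (x - b) := fun x => by rw [hσ]; rfl
  have hxb : ∀ x ∈ N, x ≠ b := fun x hx h => hb1 (h ▸ hN hx)
  have hcb : c i₀ ≠ b := fun h => hb1 (h ▸ cU _ hi₀)
  have hc0 : ∀ w ∈ N, c i₀ ≠ w := fun w hw h => hNc _ hi₀ (h ▸ hw)
  have hσpos : ∀ x ∈ N, 1 ≤ σ x := by
    intro x hx
    have h1 := hxb x hx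
    have h2 := hσ1 x
    omega
  have hσle : ∀ x ∈ N, 100 * σ x ≤ 43 * n := by
    intro x hx
    have h1 := hN1 x hx
    have h2 := hσ1 x
    omega
  have hσinj : ∀ x ∈ N, ∀ y ∈ N, σ x = σ y → x = y := by
    intro x hx y hy hxy
    by_contra hne
    have h1 := hσ1 x
    have h2 := hσ1 y
    have h3 := hb5 x y ⟨hx, hy⟩
    omega
  obtain ⟨e₀, he₀⟩ : ∃ e₀ : ℕ, e₀ = ad b (c i₀) := ⟨_, rfl⟩
  have he1 : e₀ = (b - c i₀) + (c i₀ - b) := he₀
  have he0 : ad (c i₀) b = e₀ := by rw [he₀, ad_comm]
  have hepos : 1 ≤ e₀ := by omega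
  have hele : 100 * e₀ ≤ 2 * n := by
    have h2 := hmid _ hi₀
    omega
  have heσ : ∀ x ∈ N, e₀ ≠ σ x := by
    intro x hx h
    have h1 := hσ1 x
    have h2 := hb6 x hx
    have h3 := hc0 x hx
    omega
  rw [← he₀] at hb2
  simp only [hσ'] at hb3 hb4
  -- choice of τ
  have hI2 : ((Icc (n / 5) (n / 5 + 2 * s)).card) = 2 * s + 1 := by
    rw [Nat.card_Icc]; omega
  obtain ⟨τ, hτI, hτ⟩ : ∃ τ ∈ Icc (n / 5) (n / 5 + 2 * s), τ ∉
      ((Icc (n / 5) (n / 5 + 2 * s)).filter fun τ => τ ∈ US) ∪
      ((N.biUnion fun x => (Icc (n / 5) (n / 5 + 2 * s)).filter fun τ => τ + σ x ∈ US) ∪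
      ((N.image σ) ∪ (((N ×ˢ N).image fun q => σ q.1 - σ q.2) ∪
      ((Icc (n / 5) (n / 5 + 2 * s)).filter fun τ =>
        Sp.card < 10 * (Sp.filter fun i => c i - τ ∈ UX).card)))) := by
    refine pickGLd ?_
    rw [hI2]
    have e1 : ((Icc (n / 5) (n / 5 + 2 * s)).filter fun τ => τ ∈ US).card ≤ u :=
      cardleGLd (f := fun b => b) uS (fun a _ b _ hab => hab)
    have e5 : (N.biUnion fun x => (Icc (n / 5) (n / 5 + 2 * s)).filter
        fun τ => τ + σ x ∈ US).card ≤ k * u :=
      Finset.card_biUnion_le_card_mul _ _ _ fun x hx =>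
        cardleGLd (f := fun τ => τ + σ x) uS (fun a _ b _ hab => by simpa using hab)
    have e2 : (N.image σ).card ≤ k := Finset.card_image_le
    have e3 : ((N ×ˢ N).image fun q => σ q.1 - σ q.2).card ≤ k * k := by
      refine le_trans Finset.card_image_le ?_
      rw [Finset.card_product]
    have e4 : ((Icc (n / 5) (n / 5 + 2 * s)).filter fun τ =>
        Sp.card < 10 * (Sp.filter fun i => c i - τ ∈ UX).card).card ≤ 10 * u := by
      refine avgGLd (bad := fun τ i => c i - τ ∈ UX) hSpos fun i hi => ?_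
      refine cardleGLd (f := fun τ => c i - τ) uX ?_
      intro a ha b hb hab
      rw [Finset.coe_Icc, Set.mem_Icc] at ha hb
      have h2 := hmid i hi
      simp only at hab
      omega
    refine lt_of_le_of_lt (Finset.card_union_le _ _) ?_
    refine lt_of_le_of_lt (Nat.add_le_add e1 (le_trans (Finset.card_union_le _ _)
      (Nat.add_le_add e5 (le_trans (Finset.card_union_le _ _) (Nat.add_le_add e2
      (le_trans (Finset.card_union_le _ _) (Nat.add_le_add e3 e4))))))) ?_
    have h5 : k * u ≤ d * u := Nat.mul_le_mul_right _ hNd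
    have h6 : k * k ≤ d * d := Nat.mul_le_mul hNd hNd
    nlinarith [Nat.zero_le (d * u), Nat.zero_le (d * d), Nat.zero_le d, Nat.zero_le u]
  simp only [Finset.mem_union, Finset.mem_filter, Finset.mem_biUnion, hτI, true_and, not_or,
    not_exists, not_and, not_lt, Finset.mem_image, Finset.mem_product, Prod.forall] at hτ
  obtain ⟨hτ1, hτ5, hτ2, hτ3, hτ4⟩ := hτ
  rw [Finset.mem_Icc] at hτI
  have hτe : e₀ < τ := by omega
  have hτσ : ∀ x ∈ N, ∀ y ∈ N, τ + σ x ≠ σ y := by
    intro x hx y hy h
    exact hτ3 y x ⟨hy, hx⟩ (by omega)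
  -- choice of the paths
  obtain ⟨g, hg1, hg2⟩ := greedyGLd Sp
    (fun x i => i = i₀ ∨ (c i + σ x ∈ UX ∨ (c i - τ ∈ UX ∨ c i + σ x = b)))
    (fun x i y j => i = j ∨ (c i = c j ∨ c i + σ x = c j + σ y))
    (1 + 2 * (Sp.card / 10) + D) (1 + 2 * D)
    (by
      intro x i y j h
      rcases h with h | h | h
      · exact Or.inl h.symm
      · exact Or.inr (Or.inl h.symm)
      · exact Or.inr (Or.inr h.symm))
    N
    (by
      intro x hx
      have hD : ∀ (Q : ℕ → Prop) [DecidablePred Q] (a : ℕ), (∀ i ∈ Sp, Q i → c i = a) →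
          (Sp.filter Q).card ≤ D := by
        intro Q _ a hQ
        refine le_trans (Finset.card_le_card ?_) (mult a)
        intro i hi
        rw [Finset.mem_filter] at hi ⊢
        exact ⟨hi.1, hQ i hi.1 hi.2⟩
      have f1 : (Sp.filter fun i => i = i₀).card ≤ 1 := by
        refine le_trans (Finset.card_le_card (t := {i₀}) ?_) (by simp)
        intro i hi
        rw [Finset.mem_singleton]; exact (Finset.mem_filter.mp hi).2
      have f2 : (Sp.filter fun i => c i + σ x ∈ UX).card ≤ Sp.card / 10 := by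
        have := hb4 x hx; omega
      have f3 : (Sp.filter fun i => c i - τ ∈ UX).card ≤ Sp.card / 10 := by
        have := hτ4; omega
      have f5 : (Sp.filter fun i => c i + σ x = b).card ≤ D :=
        hD _ (b - σ x) (fun i hi h => by omega)
      simp only [Finset.filter_or]
      refine le_trans (Finset.card_union_le _ _) ?_
      refine le_trans (Nat.add_le_add f1 (le_trans (Finset.card_union_le _ _)
        (Nat.add_le_add f2 (le_trans (Finset.card_union_le _ _)
        (Nat.add_le_add f3 f5))))) ?_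
      omega)
    (by
      intro x hx y hy j hj
      have hD : ∀ (Q : ℕ → Prop) [DecidablePred Q] (a : ℕ), (∀ i ∈ Sp, Q i → c i = a) →
          (Sp.filter Q).card ≤ D := by
        intro Q _ a hQ
        refine le_trans (Finset.card_le_card ?_) (mult a)
        intro i hi
        rw [Finset.mem_filter] at hi ⊢
        exact ⟨hi.1, hQ i hi.1 hi.2⟩
      have f1 : (Sp.filter fun i => i = j).card ≤ 1 := by
        refine le_trans (Finset.card_le_card (t := {j}) ?_) (by simp)
        intro i hi
        rw [Finset.mem_singleton]; exact (Finset.mem_filter.mp hi).2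
      have f2 : (Sp.filter fun i => c i = c j).card ≤ D := mult _
      have f3 : (Sp.filter fun i => c i + σ x = c j + σ y).card ≤ D :=
        hD _ (c j + σ y - σ x) (fun i hi h => by omega)
      simp only [Finset.filter_or]
      refine le_trans (Finset.card_union_le _ _) ?_
      refine le_trans (Nat.add_le_add f1 (le_trans (Finset.card_union_le _ _)
        (Nat.add_le_add f2 f3))) ?_
      omega)
    (by
      have h6 : 10 * (Sp.card / 10) ≤ Sp.card := by omega
      have h7 : k * D ≤ d * D := Nat.mul_le_mul_right _ hNd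
      have h8 : (d + 1) ^ 2 * (D + 1) = d * d * D + d * d + 2 * (d * D) + 2 * d + D + 1 := by ring
      have h9 : 100 * (d * d * D + d * d + 2 * (d * D) + 2 * d + D + 1) ≤ Sp.card := by
        rw [← h8]; linarith [big]
      have h10 : 0 ≤ d * d * D := Nat.zero_le _
      have h11 : 0 ≤ d * d := Nat.zero_le _
      have h13 : N.card * (1 + 2 * D) = k + 2 * (k * D) := by rw [← hk]; ring
      rw [h13]
      omega)
  -- facts about the choice
  have hgS : ∀ w ∈ N, g w ∈ Sp := fun w hw => (hg1 w hw).1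
  have hg3 : ∀ w ∈ N, g w ≠ i₀ ∧ c (g w) + σ w ∉ UX ∧ c (g w) - τ ∉ UX ∧
      c (g w) + σ w ≠ b := by
    intro w hw
    have h1 := (hg1 w hw).2
    simp only [not_or] at h1
    exact h1
  have hg4 : ∀ w ∈ N, ∀ v ∈ N, w ≠ v → g w ≠ g v ∧ c (g w) ≠ c (g v) ∧
      c (g w) + σ w ≠ c (g v) + σ v := by
    intro w hw v hv hwv
    have h1 := hg2 w hw v hv hwv
    simp only [not_or] at h1
    exact h1
  -- names
  obtain ⟨a, ha⟩ : ∃ a : ℕ → ℕ, a = fun w => c (g w) + σ w := ⟨_, rfl⟩
  obtain ⟨β, hβ⟩ : ∃ β : ℕ → ℕ, β = fun w => c (g w) - τ := ⟨_, rfl⟩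
  obtain ⟨t, ht⟩ : ∃ t : ℕ → ℕ, t = fun w => τ + σ w := ⟨_, rfl⟩
  have ha' : ∀ w, c (g w) + σ w = a w := fun w => by rw [ha]
  have hβ' : ∀ w, c (g w) - τ = β w := fun w => by rw [hβ]
  have ht' : ∀ w, τ + σ w = t w := fun w => by rw [ht]
  have hR : ∀ w ∈ N, ad (c (g w)) (a w) = σ w ∧ ad (c (g w)) (β w) = τ ∧
      ad (a w) (β w) = t w ∧ c (g w) = β w + τ ∧
      9 * n ≤ 100 * a w ∧ 100 * a w ≤ 95 * n ∧ 9 * n ≤ 100 * β w ∧ 100 * β w ≤ 31 * n ∧
      40 * n ≤ 100 * a w ∧ 1 ≤ t w ∧ 100 * t w ≤ 70 * n := by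
    intro w hw
    have h1 := hσle w hw
    have h2 := hmid _ (hgS w hw)
    have h3 := hσpos w hw
    have h4 := ha' w
    have h5 := hβ' w
    have h6 := ht' w
    unfold ad
    omega
  have hR0 : 9 * n ≤ 100 * b ∧ 100 * b ≤ 95 * n ∧ 40 * n ≤ 100 * b ∧ 1 ≤ τ ∧ 100 * τ ≤ 70 * n := by
    omega
  simp only [ha', hβ'] at hg3 hg4
  have hab : ∀ w ∈ N, a w ≠ b := fun w hw => (hg3 w hw).2.2.2
  have hβb : ∀ w ∈ N, β w ≠ b := by
    intro w hw
    have h1 := hR w hw
    omega
  have haβ : ∀ w ∈ N, ∀ v ∈ N, a w ≠ β v := by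
    intro w hw v hv
    have h1 := hR w hw
    have h2 := hR v hv
    omega
  have hββ : ∀ w ∈ N, ∀ v ∈ N, w ≠ v → β w ≠ β v := by
    intro w hw v hv hwv h
    have h1 := (hR w hw).2.2.2.1
    have h2 := (hR v hv).2.2.2.1
    exact (hg4 w hw v hv hwv).2.1 (by omega)
  have haa : ∀ w ∈ N, ∀ v ∈ N, w ≠ v → a w ≠ a v := fun w hw v hv hwv =>
    (hg4 w hw v hv hwv).2.2
  have ginj : Set.InjOn g N := by
    intro w hw v hv h
    by_contra hne
    exact (hg4 w hw v hv hne).1 h
  have htt : ∀ w ∈ N, ∀ v ∈ N, t w = t v → w = v := by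
    intro w hw v hv h
    rw [← ht', ← ht'] at h
    exact hσinj w hw v hv (by omega)
  have htσ : ∀ w ∈ N, ∀ v ∈ N, t w ≠ σ v := by
    intro w hw v hv
    rw [← ht']
    exact hτσ w hw v hv
  have htτ : ∀ w ∈ N, t w ≠ τ := by
    intro w hw
    rw [← ht']
    have := hσpos w hw
    omega
  have hte : ∀ w ∈ N, t w ≠ e₀ := by
    intro w hw
    rw [← ht']
    omega
  have hL0 : b ∉ N.image a ∪ N.image β := by
    intro h
    rcases Finset.mem_union.mp h with h | h
    · obtain ⟨w, hw, h⟩ := Finset.mem_image.mp h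
      exact hab w hw h
    · obtain ⟨w, hw, h⟩ := Finset.mem_image.mp h
      exact hβb w hw h
  have hL1 : Disjoint (N.image a) (N.image β) := by
    rw [Finset.disjoint_left]
    intro v hv hv'
    obtain ⟨w, hw, h⟩ := Finset.mem_image.mp hv
    obtain ⟨w', hw', h'⟩ := Finset.mem_image.mp hv'
    exact haβ w hw w' hw' (h.trans h'.symm)
  have hS2 : Disjoint (N.image σ) (N.image t) := by
    rw [Finset.disjoint_left]
    intro v hv hv'
    obtain ⟨w, hw, h⟩ := Finset.mem_image.mp hv
    obtain ⟨w', hw', h'⟩ := Finset.mem_image.mp hv'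
    exact htσ w' hw' w hw (h'.trans h.symm)
  have hS1 : τ ∉ (N.image σ) ∪ N.image t := by
    intro h
    rcases Finset.mem_union.mp h with h | h
    · obtain ⟨w, hw, h⟩ := Finset.mem_image.mp h
      exact hτ2 w hw h
    · obtain ⟨w, hw, h⟩ := Finset.mem_image.mp h
      exact htτ w hw h
  have hS0 : e₀ ∉ insert τ ((N.image σ) ∪ N.image t) := by
    intro h
    rcases Finset.mem_insert.mp h with h | h
    · omega
    rcases Finset.mem_union.mp h with h | h
    · obtain ⟨w, hw, h⟩ := Finset.mem_image.mp h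
      exact heσ w hw h.symm
    · obtain ⟨w, hw, h⟩ := Finset.mem_image.mp h
      exact hte w hw h
  have hP0 : i₀ ∉ N.image g := by
    intro h
    obtain ⟨w, hw, h⟩ := Finset.mem_image.mp h
    exact (hg3 w hw).1 h
  refine ⟨insert i₀ (N.image g), insert b (N.image a ∪ N.image β),
    insert e₀ (insert τ ((N.image σ) ∪ N.image t)),
    ?_, ?_, ?_, ?_, ?_, ?_, ?_, ?_, ?_, ?_, ?_⟩
  · intro i hi
    rcases Finset.mem_insert.mp hi with rfl | hi
    · exact hi₀
    · obtain ⟨w, hw, rfl⟩ := Finset.mem_image.mp hi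
      exact hgS w hw
  · rw [Finset.card_insert_of_notMem hP0, Finset.card_image_of_injOn ginj]
  · rw [Finset.disjoint_left]
    intro v hv hvU
    rcases Finset.mem_insert.mp hv with rfl | hv
    · exact hb1 hvU
    rcases Finset.mem_union.mp hv with hv | hv
    · obtain ⟨w, hw, rfl⟩ := Finset.mem_image.mp hv
      exact (hg3 w hw).2.1 hvU
    · obtain ⟨w, hw, rfl⟩ := Finset.mem_image.mp hv
      exact (hg3 w hw).2.2.1 hvU
  · rw [Finset.disjoint_left]
    intro v hv hvU
    rcases Finset.mem_insert.mp hv with rfl | hv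
    · exact hb2 hvU
    rcases Finset.mem_insert.mp hv with rfl | hv
    · exact hτ1 hvU
    rcases Finset.mem_union.mp hv with hv | hv
    · obtain ⟨w, hw, rfl⟩ := Finset.mem_image.mp hv
      exact hb3 w hw hvU
    · obtain ⟨w, hw, rfl⟩ := Finset.mem_image.mp hv
      rw [← ht'] at hvU
      exact hτ5 w hw hvU
  · intro v hv
    rw [Finset.mem_Icc]
    rcases Finset.mem_insert.mp hv with rfl | hv
    · omega
    rcases Finset.mem_union.mp hv with hv | hv
    · obtain ⟨w, hw, rfl⟩ := Finset.mem_image.mp hv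
      have := hR w hw
      omega
    · obtain ⟨w, hw, rfl⟩ := Finset.mem_image.mp hv
      have := hR w hw
      omega
  · intro v hv
    rw [Finset.mem_Icc]
    rcases Finset.mem_insert.mp hv with rfl | hv
    · omega
    rcases Finset.mem_insert.mp hv with rfl | hv
    · omega
    rcases Finset.mem_union.mp hv with hv | hv
    · obtain ⟨w, hw, rfl⟩ := Finset.mem_image.mp hv
      have h1 := hσpos w hw
      have h2 := hσle w hw
      omega
    · obtain ⟨w, hw, rfl⟩ := Finset.mem_image.mp hv
      have := hR w hw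
      omega
  · rw [Finset.card_insert_of_notMem hL0, Finset.card_union_of_disjoint hL1,
      Finset.card_image_of_injOn, Finset.card_image_of_injOn]
    · omega
    · intro w hw v hv h
      by_contra hne
      exact hββ w hw v hv hne h
    · intro w hw v hv h
      by_contra hne
      exact haa w hw v hv hne h
  · rw [Finset.card_insert_of_notMem hS0, Finset.card_insert_of_notMem hS1,
      Finset.card_union_of_disjoint hS2, Finset.card_image_of_injOn, Finset.card_image_of_injOn]
    · omega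
    · intro w hw v hv h
      exact htt w hw v hv h
    · intro w hw v hv h
      exact hσinj w hw v hv h
  · intro v hv
    rcases Finset.mem_insert.mp hv with rfl | hv
    · exact ⟨hR0.1, hR0.2.1⟩
    rcases Finset.mem_union.mp hv with hv | hv
    · obtain ⟨w, hw, rfl⟩ := Finset.mem_image.mp hv
      have := hR w hw
      omega
    · obtain ⟨w, hw, rfl⟩ := Finset.mem_image.mp hv
      have := hR w hw
      omega
  · intro v hv
    rcases Finset.mem_insert.mp hv with rfl | hv
    · omega
    rcases Finset.mem_insert.mp hv with rfl | hv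
    · omega
    rcases Finset.mem_union.mp hv with hv | hv
    · obtain ⟨w, hw, rfl⟩ := Finset.mem_image.mp hv
      have h2 := hσle w hw
      omega
    · obtain ⟨w, hw, rfl⟩ := Finset.mem_image.mp hv
      have := hR w hw
      omega
  · intro x hx
    have hxU : x ∈ UX := hN hx
    have hxa : ∀ w ∈ N, a w ≠ x := fun w hw h => (hg3 w hw).2.1 (h ▸ hxU)
    have hxβ : ∀ w ∈ N, β w ≠ x := fun w hw h => (hg3 w hw).2.2.1 (h ▸ hxU)
    have hxb : b ≠ x := fun h => hb1 (h ▸ hxU)
    obtain ⟨W, hW⟩ : ∃ W : ℕ → ℕ, ∀ w ∈ N, W (g w) = w :=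
      ⟨Function.invFunOn g N, fun w hw => ginj.leftInvOn_invFunOn hw⟩
    obtain ⟨y, hy⟩ : ∃ y : ℕ → ℕ, y = fun i => if i = i₀ then b else
      if W i = x then β (W i) else a (W i) := ⟨_, rfl⟩
    obtain ⟨z, hz⟩ : ∃ z : ℕ → ℕ, z = fun i => if i = i₀ then x else
      if W i = x then a (W i) else β (W i) := ⟨_, rfl⟩
    have y0 : y i₀ = b := by rw [hy]; simp
    have z0 : z i₀ = x := by rw [hz]; simp
    have y1 : ∀ w ∈ N, y (g w) = if w = x then β w else a w := by
      intro w hw
      rw [hy]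
      simp only [(hg3 w hw).1, if_false, hW w hw]
    have z1 : ∀ w ∈ N, z (g w) = if w = x then a w else β w := by
      intro w hw
      rw [hz]
      simp only [(hg3 w hw).1, if_false, hW w hw]
    have cy0 : ad (c i₀) (y i₀) = e₀ := by rw [y0]; exact he0
    have yz0 : ad (y i₀) (z i₀) = σ x := by rw [y0, z0]; exact hσ' x
    have cy1 : ∀ w ∈ N, ad (c (g w)) (y (g w)) = if w = x then τ else σ w := by
      intro w hw
      rw [y1 w hw]
      split_ifs
      · exact (hR w hw).2.1
      · exact (hR w hw).1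
    have yz1 : ∀ w ∈ N, ad (y (g w)) (z (g w)) = t w := by
      intro w hw
      rw [y1 w hw, z1 w hw]
      split_ifs
      · rw [ad_comm]; exact (hR w hw).2.2.1
      · exact (hR w hw).2.2.1
    have hP : ∀ i ∈ insert i₀ (N.image g), i = i₀ ∨ ∃ w ∈ N, i = g w := by
      intro i hi
      rcases Finset.mem_insert.mp hi with h | h
      · exact Or.inl h
      · obtain ⟨w, hw, h⟩ := Finset.mem_image.mp h
        exact Or.inr ⟨w, hw, h.symm⟩
    have mA : ∀ w ∈ N, a w ∈ insert x (insert b (N.image a ∪ N.image β)) := fun w hw =>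
      mem_insert_of_mem (mem_insert_of_mem (mem_union_left _ (mem_image_of_mem _ hw)))
    have mB : ∀ w ∈ N, β w ∈ insert x (insert b (N.image a ∪ N.image β)) := fun w hw =>
      mem_insert_of_mem (mem_insert_of_mem (mem_union_right _ (mem_image_of_mem _ hw)))
    refine ⟨y, z, ?_, ?_, ?_, ?_, ?_, ?_, ?_⟩
    · intro i hi
      rcases hP i hi with rfl | ⟨w, hw, rfl⟩
      · rw [cy0, yz0, y0, z0]
        refine ⟨mem_insert_of_mem (mem_insert_self _ _), mem_insert_self _ _,
          mem_insert_self _ _, ?_⟩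
        exact mem_insert_of_mem (mem_insert_of_mem (mem_union_left _
          (mem_image_of_mem _ hx)))
      · rw [cy1 w hw, yz1 w hw, y1 w hw, z1 w hw]
        refine ⟨?_, ?_, ?_, ?_⟩
        · split_ifs
          · exact mB w hw
          · exact mA w hw
        · split_ifs
          · exact mA w hw
          · exact mB w hw
        · split_ifs
          · exact mem_insert_of_mem (mem_insert_self _ _)
          · exact mem_insert_of_mem (mem_insert_of_mem (mem_union_left _
              (mem_image_of_mem _ hw)))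
        · exact mem_insert_of_mem (mem_insert_of_mem (mem_union_right _
              (mem_image_of_mem _ hw)))
    · intro i hi j hj hij
      rcases hP i hi with rfl | ⟨w, hw, rfl⟩ <;> rcases hP j hj with rfl | ⟨v, hv, rfl⟩
      · rfl
      · exfalso
        rw [y0, y1 v hv] at hij
        split_ifs at hij
        · exact hβb v hv hij.symm
        · exact hab v hv hij.symm
      · exfalso
        rw [y0, y1 w hw] at hij
        split_ifs at hij
        · exact hβb w hw hij
        · exact hab w hw hij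
      · by_cases hwv : w = v
        · rw [hwv]
        exfalso
        rw [y1 w hw, y1 v hv] at hij
        split_ifs at hij
        · exact hββ w hw v hv hwv hij
        · exact haβ v hv w hw hij.symm
        · exact haβ w hw v hv hij
        · exact haa w hw v hv hwv hij
    · intro i hi j hj hij
      rcases hP i hi with rfl | ⟨w, hw, rfl⟩ <;> rcases hP j hj with rfl | ⟨v, hv, rfl⟩
      · rfl
      · exfalso
        rw [z0, z1 v hv] at hij
        split_ifs at hij
        · exact hxa v hv hij.symm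
        · exact hxβ v hv hij.symm
      · exfalso
        rw [z0, z1 w hw] at hij
        split_ifs at hij
        · exact hxa w hw hij
        · exact hxβ w hw hij
      · by_cases hwv : w = v
        · rw [hwv]
        exfalso
        rw [z1 w hw, z1 v hv] at hij
        split_ifs at hij
        · exact haa w hw v hv hwv hij
        · exact haβ w hw v hv hij
        · exact haβ v hv w hw hij.symm
        · exact hββ w hw v hv hwv hij
    · intro i hi j hj hij
      rcases hP i hi with rfl | ⟨w, hw, rfl⟩ <;> rcases hP j hj with rfl | ⟨v, hv, rfl⟩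
      · rw [y0, z0] at hij; exact hxb hij
      · rw [y0, z1 v hv] at hij
        split_ifs at hij
        · exact hab v hv hij.symm
        · exact hβb v hv hij.symm
      · rw [z0, y1 w hw] at hij
        split_ifs at hij
        · exact hxβ w hw hij
        · exact hxa w hw hij
      · rw [y1 w hw, z1 v hv] at hij
        split_ifs at hij with e1 e2 e2
        · exact haβ v hv w hw hij.symm
        · exact hββ w hw v hv (by rintro rfl; exact e2 e1) hij
        · exact haa w hw v hv (by rintro rfl; exact e1 e2) hij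
        · exact haβ w hw v hv hij
    · intro i hi j hj hij
      simp only at hij
      rcases hP i hi with rfl | ⟨w, hw, rfl⟩ <;> rcases hP j hj with rfl | ⟨v, hv, rfl⟩
      · rfl
      · exfalso
        rw [cy0, cy1 v hv] at hij
        split_ifs at hij
        · omega
        · exact heσ v hv hij
      · exfalso
        rw [cy0, cy1 w hw] at hij
        split_ifs at hij
        · omega
        · exact heσ w hw hij.symm
      · by_cases hwv : w = v
        · rw [hwv]
        exfalso
        rw [cy1 w hw, cy1 v hv] at hij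
        split_ifs at hij with e1 e2 e2
        · exact hwv (e1.trans e2.symm)
        · exact hτ2 v hv hij.symm
        · exact hτ2 w hw hij
        · exact hwv (hσinj w hw v hv hij)
    · intro i hi j hj hij
      simp only at hij
      rcases hP i hi with rfl | ⟨w, hw, rfl⟩ <;> rcases hP j hj with rfl | ⟨v, hv, rfl⟩
      · rfl
      · exfalso
        rw [yz0, yz1 v hv] at hij
        exact htσ v hv x hx hij.symm
      · exfalso
        rw [yz0, yz1 w hw] at hij
        exact htσ w hw x hx hij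
      · by_cases hwv : w = v
        · rw [hwv]
        exfalso
        rw [yz1 w hw, yz1 v hv] at hij
        exact hwv (htt w hw v hv hij)
    · intro i hi j hj hij
      rcases hP i hi with rfl | ⟨w, hw, rfl⟩ <;> rcases hP j hj with rfl | ⟨v, hv, rfl⟩
      · rw [cy0, yz0] at hij; exact heσ x hx hij
      · rw [cy0, yz1 v hv] at hij
        exact hte v hv hij.symm
      · rw [yz0, cy1 w hw] at hij
        split_ifs at hij with e1
        · exact hτ2 x hx hij.symm
        · exact e1 (hσinj w hw x hx hij)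
      · rw [cy1 w hw, yz1 v hv] at hij
        split_ifs at hij
        · exact htτ v hv hij.symm
        · exact htσ v hv w hw hij.symm

end Pool.Agent.GRC
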