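import Pool.Agent.Helper28.GRC.UND

/-!
# GRC-UNA: choice of the special path `c - w - w'` (double counting)

Proof in words.  `δ = ε/(16 (K+1))`, `K = 16 Λ²/ε + 2 g`, `m0` large.  `V_ex` = vertices with an edge outside `T`: at most `2 g` (`G` has `g` more edges than `T`, `IsTree.card_edgeFinset`).
For a vertex `x` let `A x` (`A43`) be the set of the leaves hanging at `x` by a vertex of degree 2: `|A x| ≤ deg x`.
For a vertex `z` let `b z` (`b43`) be the sum of `|A x|` over the neighbours `x` of `z` with `deg x ≤ Λ`: `∑_z b z ≤ Λ² m`, so `Bad0 = {z : b z > (ε/16) m}` has at most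
`16 Λ²/ε` elements.  `Bad = Bad0 ∪ V_ex`.  For a star `c` (`StG`) let `w(c)` be its unique neighbour of degree `≠ 1`; its degree is `≥ 2` (a neighbour has degree `≥ 1`).
Suppose no star `c ∉ Bad` has `w(c) ∉ Bad` and a neighbour `w' ≠ c` of `w(c)` outside `Bad`.  Stars in `Bad`: `≤ |Bad|`; stars with `w(c) ∈ Bad`: `≤ |Bad| δ m`; for the other stars `c`, all the neighbours of `w(c)` different from `c` are in
`Bad` (and there is at least one); so `w(c)` is a neighbour of `Bad`, and `c ↦ w(c)` is injective on these stars (if `w(c) = w(c')`, `c ≠ c'` then `c' ∈ Bad`): `≤ |Bad| δ m`.  Total `< ε m`, contradiction.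
Take such `c, w, w'`.  The `u` with `PL2 G u`, `BadP`: attachment `x` of degree `> Λ`: the number of such `u` is at most `∑_{deg x > Λ} deg x ≤ (ε/16) m` (different `u` have different neighbours `v` of `x`; `u` is determined by `v`);
`x` adjacent to `w` or `w'` of degree `≤ Λ`: `≤ 2 (ε/16) m`; `x ∈ {w, w', c} ∪ V_ex`: `≤ (3 + 2g) δ m`; `x` adjacent to `c`: `x = w` or `x` is a leaf adjacent to `c` (then `v = c`, impossible as `deg v = 2`, `deg c = D + 1 ≥ 3`).
-/

set_option autoImplicit false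

namespace Pool.Agent.GRC

open Finset Pool.Agent.SEM

section
variable {m : ℕ}

open Classical in
/-- the leaves which hang at `x` by a vertex of degree 2 -/
noncomputable def A43 (G : SimpleGraph (Fin m)) (x : Fin m) : Finset (Fin m) :=
  univ.filter fun u => ∃ v, G.Adj u v ∧ G.degree v = 2 ∧ G.Adj v x ∧ x ≠ u

open Classical in
theorem card_A43 (G : SimpleGraph (Fin m)) (x : Fin m) : (A43 G x).card ≤ G.degree x := by
  have h1 : A43 G x ⊆ ((G.neighborFinset x).filter fun v => G.degree v = 2).biUnion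
      (fun v => (G.neighborFinset v).erase x) := by
    intro u hu
    unfold A43 at hu
    rw [mem_filter] at hu
    obtain ⟨-, v, h1, h2, h3, h4⟩ := hu
    rw [mem_biUnion]
    refine ⟨v, ?_, ?_⟩
    · rw [mem_filter, SimpleGraph.mem_neighborFinset]
      exact ⟨h3.symm, h2⟩
    · rw [mem_erase, SimpleGraph.mem_neighborFinset]
      exact ⟨Ne.symm h4, h1.symm⟩
  calc (A43 G x).card ≤ _ := card_le_card h1
    _ ≤ ∑ v ∈ (G.neighborFinset x).filter (fun v => G.degree v = 2),
        ((G.neighborFinset v).erase x).card := card_biUnion_le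
    _ = ∑ v ∈ (G.neighborFinset x).filter (fun v => G.degree v = 2), 1 := by
        apply sum_congr rfl
        intro v hv
        rw [mem_filter, SimpleGraph.mem_neighborFinset] at hv
        rw [card_erase_of_mem (by rw [SimpleGraph.mem_neighborFinset]; exact hv.1.symm),
          SimpleGraph.card_neighborFinset_eq_degree, hv.2]
    _ = ((G.neighborFinset x).filter (fun v => G.degree v = 2)).card := by simp
    _ ≤ (G.neighborFinset x).card := card_filter_le _ _
    _ = G.degree x := SimpleGraph.card_neighborFinset_eq_degree G x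

open Classical in
/-- the number (with multiplicity) of leaves whose pendant path is attached at a neighbour of `z` of
small degree -/
noncomputable def b43 (G : SimpleGraph (Fin m)) (Λ : ℕ) (z : Fin m) : ℕ :=
  ∑ x ∈ univ.filter (fun x => G.Adj z x ∧ G.degree x ≤ Λ), (A43 G x).card

open Classical in
theorem sum_b43 (G : SimpleGraph (Fin m)) (Λ : ℕ) : ∑ z, b43 G Λ z ≤ Λ * Λ * m := by
  unfold b43
  simp_rw [sum_filter]
  rw [sum_comm]
  have h : ∀ x : Fin m, (∑ z : Fin m, if G.Adj z x ∧ G.degree x ≤ Λ then (A43 G x).card else 0)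
      ≤ Λ * Λ := by
    intro x
    by_cases hx : G.degree x ≤ Λ
    · have h1 : (∑ z : Fin m, if G.Adj z x ∧ G.degree x ≤ Λ then (A43 G x).card else 0)
          = G.degree x * (A43 G x).card := by
        rw [← sum_filter, sum_const, smul_eq_mul]
        congr 1
        rw [← SimpleGraph.card_neighborFinset_eq_degree]
        congr 1
        ext z
        rw [mem_filter, SimpleGraph.mem_neighborFinset]
        constructor
        · rintro ⟨-, h1, -⟩; exact h1.symm
        · intro h1; exact ⟨mem_univ _, h1.symm, hx⟩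
      rw [h1]
      exact Nat.mul_le_mul hx (le_trans (card_A43 G x) hx)
    · have h1 : (∑ z : Fin m, if G.Adj z x ∧ G.degree x ≤ Λ then (A43 G x).card else 0) = 0 := by
        apply sum_eq_zero
        intro z _
        rw [if_neg]
        rintro ⟨-, h2⟩
        exact hx h2
      rw [h1]
      exact Nat.zero_le _
  calc _ ≤ ∑ x : Fin m, Λ * Λ := sum_le_sum fun x _ => h x
    _ = Λ * Λ * m := by simp [mul_comm]

open Classical in
theorem card_bad43 (G : SimpleGraph (Fin m)) (Λ : ℕ) {ε : ℝ} (hε : 0 < ε) (hm : 0 < m) :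
    ((univ.filter fun z => ε / 16 * m < (b43 G Λ z : ℝ)).card : ℝ) ≤ 16 * (Λ : ℝ) ^ 2 / ε := by
  have hm' : (0 : ℝ) < m := by exact_mod_cast hm
  have h1 : ((univ.filter fun z => ε / 16 * m < (b43 G Λ z : ℝ)).card : ℝ) * (ε / 16 * m)
      ≤ (Λ : ℝ) * Λ * m := by
    calc ((univ.filter fun z => ε / 16 * m < (b43 G Λ z : ℝ)).card : ℝ) * (ε / 16 * m)
        = ∑ z ∈ univ.filter (fun z => ε / 16 * m < (b43 G Λ z : ℝ)), (ε / 16 * m) := by
          rw [sum_const, nsmul_eq_mul]
      _ ≤ ∑ z ∈ univ.filter (fun z => ε / 16 * m < (b43 G Λ z : ℝ)), (b43 G Λ z : ℝ) := by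
          apply sum_le_sum
          intro z hz
          rw [mem_filter] at hz
          exact hz.2.le
      _ ≤ ∑ z, (b43 G Λ z : ℝ) :=
          sum_le_sum_of_subset_of_nonneg (filter_subset _ _) fun _ _ _ => Nat.cast_nonneg _
      _ ≤ (Λ : ℝ) * Λ * m := by exact_mod_cast sum_b43 G Λ
  rw [le_div_iff₀ hε]
  have h2 : (((univ.filter fun z => ε / 16 * m < (b43 G Λ z : ℝ)).card : ℝ) * ε) * (m / 16)
      ≤ (16 * (Λ : ℝ) ^ 2) * (m / 16) := by
    calc _ = ((univ.filter fun z => ε / 16 * m < (b43 G Λ z : ℝ)).card : ℝ) * (ε / 16 * m) := by ring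
      _ ≤ _ := h1
      _ = _ := by ring
  exact le_of_mul_le_mul_right h2 (by positivity)

open Classical in
theorem card_vex43 {g : ℕ} (G T : SimpleGraph (Fin m)) (hTG : T ≤ G) (hT : T.IsTree)
    (he : G.edgeFinset.card + 1 = m + g) :
    (univ.filter fun x => ¬ AllT G T x).card ≤ 2 * g := by
  have hTe : T.edgeFinset.card + 1 = m := by
    have := hT.card_edgeFinset
    rwa [Fintype.card_fin] at this
  have hsub : ∀ x, T.neighborFinset x ⊆ G.neighborFinset x := by
    intro x y hy
    rw [SimpleGraph.mem_neighborFinset] at hy ⊢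
    exact hTG hy
  have h1 : ∀ x, T.degree x + (if ¬ AllT G T x then 1 else 0) ≤ G.degree x := by
    intro x
    rw [← SimpleGraph.card_neighborFinset_eq_degree, ← SimpleGraph.card_neighborFinset_eq_degree]
    split_ifs with hx
    · have := card_le_card (hsub x)
      omega
    · have hss : T.neighborFinset x ⊂ G.neighborFinset x := by
        refine (ssubset_iff_of_subset (hsub x)).2 ?_
        unfold AllT at hx
        push Not at hx
        obtain ⟨v, hv1, hv2⟩ := hx
        exact ⟨v, by rwa [SimpleGraph.mem_neighborFinset], by rwa [SimpleGraph.mem_neighborFinset]⟩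
      have := card_lt_card hss
      omega
  have h2 : ∑ x, T.degree x + (univ.filter fun x => ¬ AllT G T x).card ≤ ∑ x, G.degree x := by
    rw [card_filter, ← sum_add_distrib]
    exact sum_le_sum fun x _ => h1 x
  rw [SimpleGraph.sum_degrees_eq_twice_card_edges, SimpleGraph.sum_degrees_eq_twice_card_edges] at h2
  omega

open Classical in
/-- the unique neighbour of a star which is not a leaf -/
theorem star_w43 {G : SimpleGraph (Fin m)} {D : ℕ} {c : Fin m} (hc : StG G D c) :
    ∃ w, G.Adj c w ∧ G.degree w ≠ 1 ∧ ∀ y, G.Adj c y → G.degree y ≠ 1 → y = w := by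
  obtain ⟨h1, h2⟩ := hc
  have h3 : ((G.neighborFinset c).filter fun u => G.degree u = 1).card = D := by
    rw [← h2]
    congr 1
    ext u
    rw [mem_filter, mem_filter, SimpleGraph.mem_neighborFinset]
    simp
  have h4 := card_filter_add_card_filter_not (s := G.neighborFinset c) (fun u => G.degree u = 1)
  rw [h3, SimpleGraph.card_neighborFinset_eq_degree, h1] at h4
  have h5 : ((G.neighborFinset c).filter fun u => ¬ G.degree u = 1).card = 1 := by omega
  obtain ⟨w, hw⟩ := card_eq_one.1 h5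
  have hw' : w ∈ (G.neighborFinset c).filter fun u => ¬ G.degree u = 1 := by
    rw [hw]; exact mem_singleton_self w
  rw [mem_filter, SimpleGraph.mem_neighborFinset] at hw'
  refine ⟨w, hw'.1, hw'.2, ?_⟩
  intro y hy1 hy2
  have : y ∈ (G.neighborFinset c).filter fun u => ¬ G.degree u = 1 := by
    rw [mem_filter, SimpleGraph.mem_neighborFinset]; exact ⟨hy1, hy2⟩
  rw [hw] at this
  exact mem_singleton.1 this

open Classical in
/-- the number of vertices adjacent to `B` -/
theorem card_nb43 (G : SimpleGraph (Fin m)) (B : Finset (Fin m)) {d : ℝ}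
    (hd : ∀ v, (G.degree v : ℝ) ≤ d) :
    ((B.biUnion fun z => G.neighborFinset z).card : ℝ) ≤ B.card * d := by
  calc ((B.biUnion fun z => G.neighborFinset z).card : ℝ)
      ≤ ((∑ z ∈ B, (G.neighborFinset z).card : ℕ) : ℝ) := by exact_mod_cast card_biUnion_le
    _ = ∑ z ∈ B, (G.degree z : ℝ) := by
        push_cast
        apply sum_congr rfl
        intro z _
        rw [SimpleGraph.card_neighborFinset_eq_degree]
    _ ≤ ∑ z ∈ B, d := sum_le_sum fun z _ => hd z
    _ = B.card * d := by rw [sum_const, nsmul_eq_mul]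

open Classical in
theorem card_AB43 (G : SimpleGraph (Fin m)) (B : Finset (Fin m)) {d : ℝ}
    (hd : ∀ v, (G.degree v : ℝ) ≤ d) :
    ((B.biUnion fun z => A43 G z).card : ℝ) ≤ B.card * d := by
  calc ((B.biUnion fun z => A43 G z).card : ℝ)
      ≤ ((∑ z ∈ B, (A43 G z).card : ℕ) : ℝ) := by exact_mod_cast card_biUnion_le
    _ = ∑ z ∈ B, ((A43 G z).card : ℝ) := by push_cast; rfl
    _ ≤ ∑ z ∈ B, d := sum_le_sum fun z _ => le_trans (by exact_mod_cast card_A43 G z) (hd z)
    _ = B.card * d := by rw [sum_const, nsmul_eq_mul]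

open Classical in
/-- the star with `w(c)` and a second neighbour outside `Bad` -/
theorem exists_path43 (G : SimpleGraph (Fin m)) (D : ℕ) (Bad : Finset (Fin m)) {d : ℝ}
    (hd : ∀ v, (G.degree v : ℝ) ≤ d)
    (hcard : (Bad.card : ℝ) * (1 + 2 * d) < ((univ.filter fun c => StG G D c).card : ℝ)) :
    ∃ c w w' : Fin m, StG G D c ∧ G.Adj c w ∧ G.degree w ≠ 1 ∧ G.Adj w w' ∧ w' ≠ c ∧
      c ∉ Bad ∧ w ∉ Bad ∧ w' ∉ Bad := by
  by_contra hno
  push Not at hno
  -- the function `w`
  have hex : ∀ c : Fin m, ∃ w, StG G D c → (G.Adj c w ∧ G.degree w ≠ 1) := by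
    intro c
    by_cases hc : StG G D c
    · obtain ⟨w, h1, h2, -⟩ := star_w43 hc
      exact ⟨w, fun _ => ⟨h1, h2⟩⟩
    · exact ⟨c, fun h => absurd h hc⟩
  choose wf hwf using hex
  set S := univ.filter fun c => StG G D c with hS
  set NB := Bad.biUnion fun z => G.neighborFinset z with hNB
  set S3 := S.filter fun c => c ∉ Bad ∧ wf c ∉ Bad with hS3
  have hbad : ∀ c, StG G D c → c ∉ Bad → wf c ∉ Bad → ∀ y, G.Adj (wf c) y → y ≠ c → y ∈ Bad := by
    intro c hc h1 h2 y hy hyc
    by_contra h3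
    exact h3 (hno c (wf c) y hc (hwf c hc).1 (hwf c hc).2 hy hyc h1 h2)
  have hcov : S ⊆ Bad ∪ NB ∪ S3 := by
    intro c hc
    have hc' : StG G D c := (mem_filter.1 hc).2
    by_cases h1 : c ∈ Bad
    · exact mem_union_left _ (mem_union_left _ h1)
    by_cases h2 : wf c ∈ Bad
    · refine mem_union_left _ (mem_union_right _ ?_)
      rw [hNB, mem_biUnion]
      exact ⟨wf c, h2, by rw [SimpleGraph.mem_neighborFinset]; exact (hwf c hc').1.symm⟩
    · exact mem_union_right _ (mem_filter.2 ⟨hc, h1, h2⟩)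
  have h3 : S3.card ≤ NB.card := by
    apply card_le_card_of_injOn wf
    · intro c hc
      have hc1 := mem_filter.1 hc
      have hc2 : StG G D c := (mem_filter.1 hc1.1).2
      obtain ⟨ha, hdeg⟩ := hwf c hc2
      have hpos : 0 < G.degree (wf c) := by
        rw [SimpleGraph.degree_pos_iff_exists_adj]
        exact ⟨c, ha.symm⟩
      have h1lt : 1 < (G.neighborFinset (wf c)).card := by
        rw [SimpleGraph.card_neighborFinset_eq_degree]; omega
      obtain ⟨y, hy1, hy2⟩ := exists_mem_ne h1lt c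
      rw [SimpleGraph.mem_neighborFinset] at hy1
      have hyB := hbad c hc2 hc1.2.1 hc1.2.2 y hy1 hy2
      rw [hNB]
      rw [mem_coe, mem_biUnion]
      exact ⟨y, hyB, by rw [SimpleGraph.mem_neighborFinset]; exact hy1.symm⟩
    · intro c hc c' hc' heq
      have hc1 := mem_filter.1 (mem_coe.1 hc)
      have hc2 : StG G D c := (mem_filter.1 hc1.1).2
      have hc1' := mem_filter.1 (mem_coe.1 hc')
      have hc2' : StG G D c' := (mem_filter.1 hc1'.1).2
      by_contra hne
      have := hbad c hc2 hc1.2.1 hc1.2.2 c' (by rw [heq]; exact (hwf c' hc2').1.symm) (Ne.symm hne)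
      exact hc1'.2.1 this
  have h4 : S.card ≤ Bad.card + NB.card + NB.card := by
    calc S.card ≤ _ := card_le_card hcov
      _ ≤ (Bad ∪ NB).card + S3.card := card_union_le _ _
      _ ≤ Bad.card + NB.card + NB.card := by
        have := card_union_le Bad NB
        omega
  have h5 : (NB.card : ℝ) ≤ Bad.card * d := card_nb43 G Bad hd
  have h6 : (S.card : ℝ) ≤ Bad.card + NB.card + NB.card := by exact_mod_cast h4
  linarith

open Classical in
/-- the bad pendant paths -/
theorem badP_sub43 (G T : SimpleGraph (Fin m)) {D : ℕ} (hD : 2 ≤ D) (Λ : ℕ) {c w w' : Fin m}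
    (hc : StG G D c) (hcw : G.Adj c w) (hw1 : G.degree w ≠ 1) :
    (univ.filter fun u => PL2 G u ∧ BadP G T c w w' u) ⊆
      (univ.filter (fun x => Λ < G.degree x)).biUnion (fun x => A43 G x) ∪
      (univ.filter (fun x => G.Adj w x ∧ G.degree x ≤ Λ)).biUnion (fun x => A43 G x) ∪
      (univ.filter (fun x => G.Adj w' x ∧ G.degree x ≤ Λ)).biUnion (fun x => A43 G x) ∪
      (({w, w', c} : Finset (Fin m)) ∪ univ.filter (fun x => ¬ AllT G T x)).biUnion
        (fun x => A43 G x) := by
  intro u hu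
  rw [mem_filter] at hu
  obtain ⟨-, ⟨hu1, -⟩, v, x, h1, h2, h3, h4, h5⟩ := hu
  have hA : u ∈ A43 G x := by
    unfold A43
    rw [mem_filter]
    exact ⟨mem_univ _, v, h1, h2, h3, h4⟩
  have hbig : Λ < G.degree x →
      u ∈ (univ.filter (fun x => Λ < G.degree x)).biUnion (fun x => A43 G x) := by
    intro hx
    rw [mem_biUnion]
    exact ⟨x, mem_filter.2 ⟨mem_univ _, hx⟩, hA⟩
  have hspec : x ∈ (({w, w', c} : Finset (Fin m)) ∪ univ.filter (fun x => ¬ AllT G T x)) →
      u ∈ (({w, w', c} : Finset (Fin m)) ∪ univ.filter (fun x => ¬ AllT G T x)).biUnion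
        (fun x => A43 G x) := by
    intro hx
    rw [mem_biUnion]
    exact ⟨x, hx, hA⟩
  rcases h5 with rfl | rfl | rfl | h5 | h5 | h5 | h5
  · exact mem_union_right _ (hspec (by simp))
  · exact mem_union_right _ (hspec (by simp))
  · exact mem_union_right _ (hspec (by simp))
  · rcases le_or_gt (G.degree x) Λ with hx | hx
    · refine mem_union_left _ (mem_union_left _ (mem_union_right _ ?_))
      rw [mem_biUnion]
      exact ⟨x, mem_filter.2 ⟨mem_univ _, h5, hx⟩, hA⟩
    · exact mem_union_left _ (mem_union_left _ (mem_union_left _ (hbig hx)))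
  · rcases le_or_gt (G.degree x) Λ with hx | hx
    · refine mem_union_left _ (mem_union_right _ ?_)
      rw [mem_biUnion]
      exact ⟨x, mem_filter.2 ⟨mem_univ _, h5, hx⟩, hA⟩
    · exact mem_union_left _ (mem_union_left _ (mem_union_left _ (hbig hx)))
  · -- `x` is a neighbour of `c`
    by_cases hx1 : G.degree x = 1
    · exfalso
      -- `v = c`
      have hvc : v = c := by
        rw [← SimpleGraph.card_neighborFinset_eq_degree] at hx1
        obtain ⟨y, hy⟩ := card_eq_one.1 hx1
        have hv : v ∈ G.neighborFinset x := by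
          rw [SimpleGraph.mem_neighborFinset]; exact h3.symm
        have hcx : c ∈ G.neighborFinset x := by
          rw [SimpleGraph.mem_neighborFinset]; exact h5.symm
        rw [hy, mem_singleton] at hv hcx
        rw [hv, hcx]
      have hdc := hc.1
      rw [← hvc, h2] at hdc
      omega
    · obtain ⟨w0, -, -, huniq⟩ := star_w43 hc
      have e1 := huniq x h5 hx1
      have e2 := huniq w hcw hw1
      exact mem_union_right _ (hspec (by rw [e1, ← e2]; simp))
  · exact mem_union_right _ (hspec (by simp [h5]))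

end

open Classical in
theorem choose_path (ε : ℝ) (D g Λ : ℕ) (hε : 0 < ε) (hε1 : ε ≤ 1) (hD : 2 ≤ D) :
    ∃ δ : ℝ, 0 < δ ∧ ∃ m0 : ℕ, ∀ (m : ℕ) (G T : SimpleGraph (Fin m)), m0 ≤ m → T ≤ G → T.IsTree →
      G.edgeFinset.card + 1 = m + g → (∀ v, (G.degree v : ℝ) ≤ δ * m) →
      ((∑ v ∈ univ.filter (fun v => Λ < G.degree v), G.degree v : ℕ) : ℝ) ≤ ε / 16 * m →
      ε * m ≤ ((univ.filter fun c => StG G D c).card : ℝ) →
      ∃ c w w' : Fin m, StG G D c ∧ G.Adj c w ∧ G.degree w ≠ 1 ∧ G.Adj w w' ∧ w' ≠ c ∧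
        AllT G T c ∧ AllT G T w ∧ AllT G T w' ∧
        (((univ.filter fun u => PL2 G u ∧ BadP G T c w w' u).card : ℝ)) ≤ ε / 2 * m := by
  set K : ℝ := 16 * (Λ : ℝ) ^ 2 / ε + 2 * g with hK
  have hK0 : 0 ≤ K := by positivity
  refine ⟨ε / (16 * (K + 1)), by positivity, ⌈2 * K / ε⌉₊ + 1, ?_⟩
  intro m G T hm hTG hT he hdeg hbig hst
  have hm0 : 0 < m := by omega
  have hmR : (0 : ℝ) < m := by exact_mod_cast hm0
  set δ : ℝ := ε / (16 * (K + 1)) with hδ
  have hδ0 : 0 < δ := by positivity
  have hδK : δ * (K + 1) = ε / 16 := by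
    rw [hδ]
    have : K + 1 ≠ 0 := by positivity
    field_simp
  set Bad0 := univ.filter fun z => ε / 16 * m < (b43 G Λ z : ℝ) with hBad0
  set Vex := univ.filter fun x => ¬ AllT G T x with hVex
  have hb0 : (Bad0.card : ℝ) ≤ 16 * (Λ : ℝ) ^ 2 / ε := card_bad43 G Λ hε hm0
  have hvex : (Vex.card : ℝ) ≤ 2 * g := by exact_mod_cast card_vex43 G T hTG hT he
  have hBadc : ((Bad0 ∪ Vex).card : ℝ) ≤ K := by
    have h1 : ((Bad0 ∪ Vex).card : ℝ) ≤ Bad0.card + Vex.card := by
      exact_mod_cast card_union_le Bad0 Vex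
    rw [hK]; linarith
  have hmK : 2 * K < ε * m := by
    have h1 : 2 * K / ε ≤ ⌈2 * K / ε⌉₊ := Nat.le_ceil _
    have h2 : ((⌈2 * K / ε⌉₊ + 1 : ℕ) : ℝ) ≤ m := by exact_mod_cast hm
    push_cast at h2
    have h3 : 2 * K / ε < m := by linarith
    rw [div_lt_iff₀ hε] at h3
    linarith
  have hcard : ((Bad0 ∪ Vex).card : ℝ) * (1 + 2 * (δ * m))
      < ((univ.filter fun c => StG G D c).card : ℝ) := by
    refine lt_of_lt_of_le ?_ hst
    have h1 : ((Bad0 ∪ Vex).card : ℝ) * (1 + 2 * (δ * m)) ≤ K * (1 + 2 * (δ * m)) :=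
      mul_le_mul_of_nonneg_right hBadc (by positivity)
    have h2 : K * δ ≤ ε / 16 := by
      rw [← hδK]; nlinarith
    have h3 : K * δ * m ≤ ε / 16 * m := mul_le_mul_of_nonneg_right h2 hmR.le
    have h4 : 0 < ε * m := by positivity
    nlinarith
  obtain ⟨c, w, w', hc, hcw, hw1, hww, hwc, hcB, hwB, hwB'⟩ :=
    exists_path43 G D (Bad0 ∪ Vex) hdeg hcard
  have hnot : ∀ x, x ∉ Bad0 ∪ Vex → AllT G T x ∧ (b43 G Λ x : ℝ) ≤ ε / 16 * m := by
    intro x hx
    rw [mem_union, not_or, hBad0, hVex, mem_filter, mem_filter] at hx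
    obtain ⟨h1, h2⟩ := hx
    constructor
    · by_contra h3
      exact h2 ⟨mem_univ _, h3⟩
    · by_contra h3
      exact h1 ⟨mem_univ _, not_le.1 h3⟩
  refine ⟨c, w, w', hc, hcw, hw1, hww, hwc, (hnot c hcB).1, (hnot w hwB).1, (hnot w' hwB').1, ?_⟩
  have hsub := badP_sub43 G T hD Λ (w' := w') hc hcw hw1
  have hU := card_le_card hsub
  set U1 := (univ.filter (fun x => Λ < G.degree x)).biUnion (fun x => A43 G x) with hU1
  set U2 := (univ.filter (fun x => G.Adj w x ∧ G.degree x ≤ Λ)).biUnion (fun x => A43 G x) with hU2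
  set U3 := (univ.filter (fun x => G.Adj w' x ∧ G.degree x ≤ Λ)).biUnion (fun x => A43 G x) with hU3
  set U4 := (({w, w', c} : Finset (Fin m)) ∪ univ.filter (fun x => ¬ AllT G T x)).biUnion
    (fun x => A43 G x) with hU4
  have c1 : (U1.card : ℝ) ≤ ε / 16 * m := by
    refine le_trans ?_ hbig
    have : U1.card ≤ ∑ v ∈ univ.filter (fun v => Λ < G.degree v), G.degree v := by
      calc U1.card ≤ ∑ x ∈ univ.filter (fun x => Λ < G.degree x), (A43 G x).card := card_biUnion_le
        _ ≤ _ := sum_le_sum fun x _ => card_A43 G x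
    exact_mod_cast this
  have c2 : (U2.card : ℝ) ≤ ε / 16 * m := by
    refine le_trans ?_ (hnot w hwB).2
    have : U2.card ≤ b43 G Λ w := card_biUnion_le
    exact_mod_cast this
  have c3 : (U3.card : ℝ) ≤ ε / 16 * m := by
    refine le_trans ?_ (hnot w' hwB').2
    have : U3.card ≤ b43 G Λ w' := card_biUnion_le
    exact_mod_cast this
  have c4 : (U4.card : ℝ) ≤ 3 * (ε / 16 * m) := by
    have h1 := card_AB43 G (({w, w', c} : Finset (Fin m)) ∪ univ.filter (fun x => ¬ AllT G T x)) hdeg
    have h2 : ((({w, w', c} : Finset (Fin m)) ∪ univ.filter (fun x => ¬ AllT G T x)).card : ℝ)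
        ≤ 3 + 2 * g := by
      have h3 : (({w, w', c} : Finset (Fin m)) ∪ univ.filter (fun x => ¬ AllT G T x)).card
          ≤ ({w, w', c} : Finset (Fin m)).card + Vex.card := card_union_le _ _
      have h4 : ({w, w', c} : Finset (Fin m)).card ≤ 3 := card_le_three
      have h5 : ((({w, w', c} : Finset (Fin m)) ∪ univ.filter (fun x => ¬ AllT G T x)).card : ℝ)
          ≤ 3 + Vex.card := by
        have : (({w, w', c} : Finset (Fin m)) ∪ univ.filter (fun x => ¬ AllT G T x)).card
          ≤ 3 + Vex.card := by omega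
        exact_mod_cast this
      linarith
    have h6 : (3 + 2 * (g : ℝ)) ≤ 3 * (K + 1) := by
      have : (2 : ℝ) * g ≤ K := by
        rw [hK]
        have : 0 ≤ 16 * (Λ : ℝ) ^ 2 / ε := by positivity
        linarith
      have hg : (0 : ℝ) ≤ g := Nat.cast_nonneg g
      linarith
    calc (U4.card : ℝ) ≤ _ := h1
      _ ≤ (3 + 2 * g) * (δ * m) := mul_le_mul_of_nonneg_right h2 (by positivity)
      _ ≤ (3 * (K + 1)) * (δ * m) := mul_le_mul_of_nonneg_right h6 (by positivity)
      _ = 3 * (δ * (K + 1) * m) := by ring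
      _ = 3 * (ε / 16 * m) := by rw [hδK]
  have hUR : (((univ.filter fun u => PL2 G u ∧ BadP G T c w w' u).card : ℝ))
      ≤ U1.card + U2.card + U3.card + U4.card := by
    have h1 : (U1 ∪ U2 ∪ U3 ∪ U4).card ≤ U1.card + U2.card + U3.card + U4.card := by
      have a1 := card_union_le (U1 ∪ U2 ∪ U3) U4
      have a2 := card_union_le (U1 ∪ U2) U3
      have a3 := card_union_le U1 U2
      omega
    exact_mod_cast le_trans hU h1
  have hfin : 0 < ε * m := by positivity
  nlinarith

end Pool.Agent.GRC
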