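import Pool.Agent.Helper28.GRC.UND
import Pool.Agent.Helper73.SEM.T4

/-!
# GRC-UNB: numbering along a spanning tree; transfer of the labelling

`num_exists`: `SEM.tree_parent` (T1) or the private lemma `h15_num` of T4 (copy) for `T` with root `r`; the extra edges are `G.edgeFinset \ T.edgeFinset` (`g` elements since `T` has `m - 1` edges), enumerate them
(`Finset.equivFin`), each is `s(u,v)` with `E v < E u`.
`gr_of`: `f = F ∘ E` where `F` is the labelling of `IsGrG`.  An edge `u v` of `G` is a tree edge (index `max (E u) (E v)`, the other end is its parent) or an extra edge (index `m + j`); `dv` of the index is the difference of the labels; `dv` is injective on the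
indices, so equal differences give the same index and the same edge.
-/

set_option autoImplicit false

namespace Pool.Agent.GRC

open Finset Pool.Agent.SEM

open Classical in
theorem num_exists {m g : ℕ} (G T : SimpleGraph (Fin m)) (hT : T.IsTree) (hle : T ≤ G)
    (hc : G.edgeFinset.card + 1 = m + g) (r : Fin m) :
    ∃ (E : Fin m → ℕ) (p ea eb : ℕ → ℕ), NumG g G T r E p ea eb := by
  obtain ⟨e, p, h1, h2, h3⟩ := tree_parent T hT r
  rw [Fintype.card_fin] at h1
  set E : Fin m → ℕ := fun v => (e v : ℕ) with hE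
  have hlt : ∀ v, E v < m := fun v => (e v).isLt.trans_le (Fintype.card_fin m).le
  have hinj : Function.Injective E := fun u v h => e.injective (Fin.ext h)
  have hsurj : ∀ i, i < m → ∃ v, E v = i := by
    intro i hi
    have hi' : i < Fintype.card (Fin m) := by rwa [Fintype.card_fin]
    exact ⟨e.symm ⟨i, hi'⟩, by simp [hE]⟩
  -- the extra edges
  set X : Finset (Fin m × Fin m) :=
    univ.filter fun q => G.Adj q.1 q.2 ∧ ¬ T.Adj q.1 q.2 ∧ E q.2 < E q.1 with hX
  have hXm : ∀ q, q ∈ X ↔ G.Adj q.1 q.2 ∧ ¬ T.Adj q.1 q.2 ∧ E q.2 < E q.1 := by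
    intro q; rw [hX, mem_filter]; exact and_iff_right (mem_univ _)
  have hTc : T.edgeFinset.card + 1 = m := by
    have := hT.card_edgeFinset
    rwa [Fintype.card_fin] at this
  have hsub : T.edgeFinset ⊆ G.edgeFinset := SimpleGraph.edgeFinset_subset_edgeFinset.2 hle
  have hXc : X.card = g := by
    have hd : (G.edgeFinset \ T.edgeFinset).card = g := by
      rw [card_sdiff_of_subset hsub]; omega
    rw [← hd]
    refine card_bij (fun q _ => s(q.1, q.2)) ?_ ?_ ?_
    · intro q hq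
      rw [hXm] at hq
      rw [mem_sdiff, SimpleGraph.mem_edgeFinset, SimpleGraph.mem_edgeFinset,
        SimpleGraph.mem_edgeSet, SimpleGraph.mem_edgeSet]
      exact ⟨hq.1, hq.2.1⟩
    · intro q hq q' hq' heq
      rw [hXm] at hq hq'
      rcases Sym2.eq_iff.1 heq with ⟨h4, h5⟩ | ⟨h4, h5⟩
      · exact Prod.ext h4 h5
      · exfalso
        have h6 := hq.2.2
        have h7 := hq'.2.2
        rw [h4, h5] at h6
        omega
    · intro s hs
      induction s using Sym2.ind with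
      | _ u v =>
        rw [mem_sdiff, SimpleGraph.mem_edgeFinset, SimpleGraph.mem_edgeFinset,
          SimpleGraph.mem_edgeSet, SimpleGraph.mem_edgeSet] at hs
        have hne : E u ≠ E v := fun h => hs.1.ne (hinj h)
        rcases lt_or_gt_of_ne hne with h | h
        · refine ⟨(v, u), (hXm _).2 ⟨hs.1.symm, fun h' => hs.2 h'.symm, h⟩, Sym2.eq_swap⟩
        · exact ⟨(u, v), (hXm _).2 ⟨hs.1, hs.2, h⟩, rfl⟩
  let φ : X ≃ Fin g := X.equivFinOfCardEq hXc
  refine ⟨E, p, fun j => if h : j < g then E (φ.symm ⟨j, h⟩).1.1 else 0,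
    fun j => if h : j < g then E (φ.symm ⟨j, h⟩).1.2 else 0,
    { par := h1, root := h2, lt := hlt, inj := hinj, surj := hsurj, adjT := h3,
      ex1 := ?_, ex2 := ?_, exi := ?_ }⟩
  · intro j hj
    have hm := (hXm _).1 (φ.symm ⟨j, hj⟩).2
    refine ⟨(φ.symm ⟨j, hj⟩).1.1, (φ.symm ⟨j, hj⟩).1.2, hm.1, hm.2.1, ?_, ?_, ?_⟩
    · simp only [dif_pos hj]
    · simp only [dif_pos hj]
    · simp only [dif_pos hj]
      exact hm.2.2
  · intro u v huv hT' hEv
    have hq : (u, v) ∈ X := (hXm _).2 ⟨huv, hT', hEv⟩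
    refine ⟨φ ⟨(u, v), hq⟩, (φ ⟨(u, v), hq⟩).2, ?_, ?_⟩
    · simp
    · simp
  · intro i hi j hj ha hb
    simp only [dif_pos hi, dif_pos hj] at ha hb
    have h4 : (φ.symm ⟨i, hi⟩).1 = (φ.symm ⟨j, hj⟩).1 := Prod.ext (hinj ha) (hinj hb)
    have h5 := φ.symm.injective (Subtype.ext h4)
    exact congrArg Fin.val h5

open Classical in
theorem gr_of {m g : ℕ} {G T : SimpleGraph (Fin m)} {r : Fin m} {E : Fin m → ℕ} {p ea eb : ℕ → ℕ} (hle : T ≤ G)
    (hN : NumG g G T r E p ea eb) (hc : G.edgeFinset.card + 1 = m + g) (h : IsGrG m g p ea eb) :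
    ∃ f : Fin m → ℕ, Function.Injective f ∧ (∀ v, f v ≤ G.edgeFinset.card) ∧
      ∀ u v u' v' : Fin m, G.Adj u v → G.Adj u' v' →
        Int.natAbs ((f u : ℤ) - (f v : ℤ)) = Int.natAbs ((f u' : ℤ) - (f v' : ℤ)) →
        s(u, v) = s(u', v') := by
  obtain ⟨F, hF1, hF2, hF3⟩ := h
  have hnat : ∀ x y : ℕ, Int.natAbs ((x : ℤ) - (y : ℤ)) = ad x y := by
    intro x y
    unfold ad
    omega
  -- every edge has an index
  have key : ∀ u v, G.Adj u v → ∃ i ∈ Ico 1 (m + g), ∃ a b : ℕ,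
      (a, b) = (if i < m then (i, p i) else (ea (i - m), eb (i - m))) ∧
      dv m p ea eb F i = ad (F a) (F b) ∧ ((E u = a ∧ E v = b) ∨ (E u = b ∧ E v = a)) := by
    intro u v huv
    by_cases hT' : T.Adj u v
    · rcases (hN.adjT u v).1 hT' with ⟨h1, h2⟩ | ⟨h1, h2⟩
      · refine ⟨E v, mem_Ico.2 ⟨h1, by have := hN.lt v; omega⟩, E v, p (E v), ?_, ?_, ?_⟩
        · rw [if_pos (hN.lt v)]
        · unfold dv; rw [if_pos (hN.lt v)]
        · exact Or.inr ⟨h2.symm, rfl⟩
      · refine ⟨E u, mem_Ico.2 ⟨h1, by have := hN.lt u; omega⟩, E u, p (E u), ?_, ?_, ?_⟩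
        · rw [if_pos (hN.lt u)]
        · unfold dv; rw [if_pos (hN.lt u)]
        · exact Or.inl ⟨rfl, h2.symm⟩
    · have hne : E u ≠ E v := fun h => huv.ne (hN.inj h)
      have hm : 0 < m := by have := hN.lt u; omega
      rcases lt_or_gt_of_ne hne with h1 | h1
      · obtain ⟨j, hj, h2, h3⟩ := hN.ex2 v u huv.symm (fun h' => hT' h'.symm) h1
        refine ⟨m + j, mem_Ico.2 ⟨by omega, by omega⟩, ea j, eb j, ?_, ?_, ?_⟩
        · rw [if_neg (by omega), Nat.add_sub_cancel_left]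
        · unfold dv; rw [if_neg (by omega), Nat.add_sub_cancel_left]
        · exact Or.inr ⟨h3.symm, h2.symm⟩
      · obtain ⟨j, hj, h2, h3⟩ := hN.ex2 u v huv hT' h1
        refine ⟨m + j, mem_Ico.2 ⟨by omega, by omega⟩, ea j, eb j, ?_, ?_, ?_⟩
        · rw [if_neg (by omega), Nat.add_sub_cancel_left]
        · unfold dv; rw [if_neg (by omega), Nat.add_sub_cancel_left]
        · exact Or.inl ⟨h2.symm, h3.symm⟩
  refine ⟨fun v => F (E v), ?_, ?_, ?_⟩
  · intro u v huv
    exact hN.inj (hF2 (mem_coe.2 (mem_range.2 (hN.lt u))) (mem_coe.2 (mem_range.2 (hN.lt v))) huv)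
  · intro v
    have h1 := hF1 (E v) (hN.lt v)
    change F (E v) ≤ G.edgeFinset.card
    omega
  · intro u v u' v' huv huv' heq
    rw [hnat, hnat] at heq
    obtain ⟨i, hi, a, b, hab, hd, hor⟩ := key u v huv
    obtain ⟨i', hi', a', b', hab', hd', hor'⟩ := key u' v' huv'
    have e1 : ad (F (E u)) (F (E v)) = ad (F a) (F b) := by
      rcases hor with ⟨h1, h2⟩ | ⟨h1, h2⟩
      · rw [h1, h2]
      · rw [h1, h2, ad_comm]
    have e2 : ad (F (E u')) (F (E v')) = ad (F a') (F b') := by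
      rcases hor' with ⟨h1, h2⟩ | ⟨h1, h2⟩
      · rw [h1, h2]
      · rw [h1, h2, ad_comm]
    have e3 : dv m p ea eb F i = dv m p ea eb F i' := by rw [hd, hd', ← e1, ← e2, heq]
    have e4 : i = i' := hF3 (mem_coe.2 hi) (mem_coe.2 hi') e3
    rw [← e4, ← hab] at hab'
    have e5 : a' = a := congrArg Prod.fst hab'
    have e6 : b' = b := congrArg Prod.snd hab'
    rw [e5, e6] at hor'
    rw [Sym2.eq_iff]
    rcases hor with ⟨h1, h2⟩ | ⟨h1, h2⟩ <;> rcases hor' with ⟨h3, h4⟩ | ⟨h3, h4⟩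
    · exact Or.inl ⟨hN.inj (h1.trans h3.symm), hN.inj (h2.trans h4.symm)⟩
    · exact Or.inr ⟨hN.inj (h1.trans h4.symm), hN.inj (h2.trans h3.symm)⟩
    · exact Or.inr ⟨hN.inj (h1.trans h4.symm), hN.inj (h2.trans h3.symm)⟩
    · exact Or.inl ⟨hN.inj (h1.trans h3.symm), hN.inj (h2.trans h4.symm)⟩

end Pool.Agent.GRC
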