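import Pool.Agent.Helper28.GRC.UND
import Pool.Agent.Helper73.SEM.T4

/-!
# GRC-UNC: the parent form with the special path

Proof in words.  `NumG` with root `r = w'`.  The neighbours of `x` in `T` are the children of `E x` and its parent, `T ≤ G`: `|chl (E x)| ≤ deg_G x`.  Since all edges at `w'`, `w`, `c` are in `T`: `p (E w) = 0` (`w'` is the root), `p (E c) = E w` (`w` and `c` are
adjacent in `T`, the parent of `E w` is `0 ≠ E c`), and the children of `E c` are its `D` neighbours different from `w`, which are exactly its `D` leaf neighbours (`deg w ≠ 1`), and they have no children (degree 1 in `G`).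
`PForm.av`: `ea j, eb j` are ends of edges not in `T`, so they are not `E w', E w, E c` (`AllT`), and not leaves of `G` (the edge of a leaf is in the connected spanning graph `T`, `m ≥ 3`).  `ext`: `ea j` and `eb j` are not adjacent in `T`.
`pend`: let `PL2 G u`, not `BadP`, with `v`, `x` (`deg v = 2`, neighbours `u` and `x`); the edges `uv`, `vx` are in `T` (connectedness of `T`, `m ≥ 3`); `x ≠ w'`, and `v ≠ w'`, `u ≠ w'` (else `x` is adjacent to `w'`, or `v = w` and `x` adjacent to `w`);
the parent of `E u` is `E v` (`u` has only one neighbour and is not the root), the parent of `E v` is `E x` (else `u` would be the parent), so `Pend m p (E v)`, and `p (E v) = E x ∉ Fset`: the elements of `Fset` are `E` of `w', w, c`, neighbours of `w'`, `w`, `c`, and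
ends of extra edges.  `u ↦ E v` is injective.
`star`: every `c'` with `StG G D c'` other than `w'`, and whose non-leaf neighbour... : if `E c' ≠ 0` and the parent of `E c'` is its unique neighbour of degree `≠ 1`, then `StarD`; the parent of `E c'` is not a leaf unless it is the root `w'` and a leaf: then `c' = w`.  So at most two are lost.
-/

set_option autoImplicit false

namespace Pool.Agent.GRC

open Finset Pool.Agent.SEM

section
variable {m g : ℕ} {G T : SimpleGraph (Fin m)} {r : Fin m} {E : Fin m → ℕ} {p ea eb : ℕ → ℕ}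

open Classical in
private theorem h99_nb_one {u v y : Fin m} (h : G.degree u = 1) (h1 : G.Adj u v) (h2 : G.Adj u y) :
    y = v := by
  obtain ⟨a, _, ha⟩ := SimpleGraph.degree_eq_one_iff_existsUnique_adj.1 h
  rw [ha v h1, ha y h2]

open Classical in
private theorem h99_nb_two {u v : Fin m} (h : G.degree v = 2) (h1 : G.Adj v u) :
    ∃ x, x ≠ u ∧ G.Adj v x ∧ ∀ y, G.Adj v y → y = u ∨ y = x := by
  rw [← SimpleGraph.card_neighborFinset_eq_degree, card_eq_two] at h
  obtain ⟨a, b, hab, hs⟩ := h
  have hm : ∀ y, G.Adj v y ↔ y = a ∨ y = b := by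
    intro y
    rw [← SimpleGraph.mem_neighborFinset, hs, mem_insert, mem_singleton]
  rcases (hm u).1 h1 with rfl | rfl
  · exact ⟨b, hab.symm, (hm b).2 (Or.inr rfl), fun y hy => (hm y).1 hy⟩
  · exact ⟨a, hab, (hm a).2 (Or.inl rfl), fun y hy => ((hm y).1 hy).symm⟩

open Classical in
/-- all neighbours but one of the centre of a star are leaves -/
private theorem h99_star_nb {D : ℕ} {c z : Fin m} (h : StG G D c) (hz : G.Adj c z)
    (hz1 : G.degree z ≠ 1) {y : Fin m} (hy : G.Adj c y) (hyz : y ≠ z) : G.degree y = 1 := by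
  by_contra hy1
  obtain ⟨h1, h2⟩ := h
  have h3 : insert z (insert y (univ.filter fun u => G.Adj c u ∧ G.degree u = 1)) ⊆
      G.neighborFinset c := by
    intro u hu
    rw [SimpleGraph.mem_neighborFinset]
    rcases mem_insert.1 hu with rfl | hu
    · exact hz
    · rcases mem_insert.1 hu with rfl | hu
      · exact hy
      · exact (mem_filter.1 hu).2.1
  have h4 := card_le_card h3
  rw [SimpleGraph.card_neighborFinset_eq_degree, h1, card_insert_of_notMem, card_insert_of_notMem, h2]
    at h4
  · omega
  · intro h5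
    exact hy1 (mem_filter.1 h5).2.2
  · intro h5
    rcases mem_insert.1 h5 with h5 | h5
    · exact hyz h5.symm
    · exact hz1 (mem_filter.1 h5).2.2

open Classical in
/-- a star has a neighbour which is not a leaf -/
private theorem h99_star_ex {D : ℕ} {c : Fin m} (h : StG G D c) : ∃ z, G.Adj c z ∧ G.degree z ≠ 1 := by
  by_contra hcon
  push Not at hcon
  obtain ⟨h1, h2⟩ := h
  have h3 : (univ.filter fun u => G.Adj c u ∧ G.degree u = 1) = G.neighborFinset c := by
    ext u
    rw [mem_filter, SimpleGraph.mem_neighborFinset]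
    exact ⟨fun hu => hu.2.1, fun hu => ⟨mem_univ _, hu, hcon u hu⟩⟩
  rw [h3, SimpleGraph.card_neighborFinset_eq_degree, h1] at h2
  omega

private theorem h99_parent (hN : NumG g G T r E p ea eb) {v : Fin m} (hv : 0 < E v) :
    ∃ u, E u = p (E v) ∧ T.Adj u v := by
  obtain ⟨u, hu⟩ := hN.surj (p (E v)) ((hN.par _ hv (hN.lt v)).trans (hN.lt v))
  exact ⟨u, hu, (hN.adjT u v).2 (Or.inl ⟨hv, hu.symm⟩)⟩

private theorem h99_no_two (hN : NumG g G T r E p ea eb) {u v : Fin m} (hu : 0 < E u) (hv : 0 < E v)
    (h1 : p (E u) = E v) (h2 : p (E v) = E u) : False := by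
  have h3 := hN.par _ hu (hN.lt u)
  have h4 := hN.par _ hv (hN.lt v)
  omega

private theorem h99_mem_chl (hN : NumG g G T r E p ea eb) {x : Fin m} {j : ℕ} :
    j ∈ chl m p (E x) ↔ ∃ y, E y = j ∧ 0 < E y ∧ p (E y) = E x := by
  unfold chl
  rw [mem_filter, mem_range]
  constructor
  · rintro ⟨h1, h2, h3⟩
    obtain ⟨y, rfl⟩ := hN.surj j h1
    exact ⟨y, rfl, h2, h3⟩
  · rintro ⟨y, rfl, h2, h3⟩
    exact ⟨hN.lt y, h2, h3⟩

private theorem h99_child (hN : NumG g G T r E p ea eb) {x y : Fin m} (hy : 0 < E y)
    (h : p (E y) = E x) : T.Adj x y := (hN.adjT x y).2 (Or.inl ⟨hy, h⟩)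

private theorem h99_pos (hN : NumG g G T r E p ea eb) {v : Fin m} (h : v ≠ r) : 0 < E v := by
  rcases Nat.eq_zero_or_pos (E v) with h0 | h0
  · exact absurd (hN.inj (h0.trans hN.root.symm)) h
  · exact h0

open Classical in
private theorem h99_chl_card (hN : NumG g G T r E p ea eb) (hle : T ≤ G) (v : Fin m) :
    (chl m p (E v)).card ≤ G.degree v := by
  rw [← SimpleGraph.card_neighborFinset_eq_degree]
  have h1 : chl m p (E v) ⊆ (G.neighborFinset v).image E := by
    intro j hj
    obtain ⟨y, rfl, h2, h3⟩ := (h99_mem_chl hN).1 hj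
    exact mem_image.2 ⟨y, (SimpleGraph.mem_neighborFinset _ _ _).2 (hle (h99_child hN h2 h3)), rfl⟩
  exact (card_le_card h1).trans card_image_le

open Classical in
/-- stars in parent form -/
private theorem h99_starD {D : ℕ} (hN : NumG g G T r E p ea eb) (hle : T ≤ G) (hr : AllT G T r)
    {w c z : Fin m} (hrw : G.Adj w r) (hc : 0 < E c) (hst : StG G D c) (hz : p (E c) = E z)
    (hz1 : G.degree z ≠ 1) : StarD m p D (E c) := by
  have hcz : G.Adj c z := (hle (h99_child hN hc hz)).symm
  have hkey : chl m p (E c) = (univ.filter fun u => G.Adj c u ∧ G.degree u = 1).image E := by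
    ext j
    rw [h99_mem_chl hN, mem_image]
    constructor
    · rintro ⟨y, rfl, h2, h3⟩
      refine ⟨y, ?_, rfl⟩
      have hcy : G.Adj c y := hle (h99_child hN h2 h3)
      have hyz : y ≠ z := by
        rintro rfl
        exact h99_no_two hN hc h2 hz h3
      exact mem_filter.2 ⟨mem_univ _, hcy, h99_star_nb hst hcz hz1 hcy hyz⟩
    · rintro ⟨y, hy, rfl⟩
      obtain ⟨_, hcy, hy1⟩ := mem_filter.1 hy
      have hyr : y ≠ r := by
        rintro rfl
        have h5 : w = c := h99_nb_one hy1 hcy.symm hrw.symm
        subst h5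
        have h6 : T.Adj y w := hr w hrw.symm
        rcases (hN.adjT y w).1 h6 with ⟨_, h7⟩ | ⟨h7, _⟩
        · have : z = y := hN.inj (hz.symm.trans h7)
          exact hz1 (this ▸ hy1)
        · rw [hN.root] at h7
          omega
      have hy0 := h99_pos hN hyr
      obtain ⟨u, hu, hTu⟩ := h99_parent hN hy0
      have h7 : u = c := h99_nb_one hy1 hcy.symm (hle hTu).symm
      exact ⟨y, rfl, hy0, by rw [← hu, h7]⟩
  refine ⟨hc, hN.lt c, ?_, ?_⟩
  · rw [hkey, card_image_of_injective _ hN.inj]
    exact hst.2
  · intro j hj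
    rw [hkey] at hj
    obtain ⟨y, hy, rfl⟩ := mem_image.1 hj
    obtain ⟨_, hcy, hy1⟩ := mem_filter.1 hy
    rw [eq_empty_iff_forall_notMem]
    intro k hk
    obtain ⟨y', rfl, h2, h3⟩ := (h99_mem_chl hN).1 hk
    have h4 : y' = c := h99_nb_one hy1 hcy.symm (hle (h99_child hN h2 h3))
    subst h4
    have : z = y := hN.inj (hz.symm.trans h3)
    exact hz1 (this ▸ hy1)

/-- the ends of extra edges have an edge outside the tree -/
private theorem h99_ext (hN : NumG g G T r E p ea eb) {j : ℕ} (hj : j < g) {x : Fin m}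
    (hx : E x = ea j ∨ E x = eb j) : ∃ y, G.Adj x y ∧ ¬ T.Adj x y := by
  obtain ⟨u, v, h1, h2, h3, h4, _⟩ := hN.ex1 j hj
  rcases hx with hx | hx
  · have : x = u := hN.inj (hx.trans h3.symm)
    subst this
    exact ⟨v, h1, h2⟩
  · have : x = v := hN.inj (hx.trans h4.symm)
    subst this
    exact ⟨u, h1.symm, fun h => h2 h.symm⟩

end

open Classical in
theorem pform_of {m g D : ℕ} (hm : 4 ≤ m) (hD : 2 ≤ D) {G T : SimpleGraph (Fin m)} {E : Fin m → ℕ} {p ea eb : ℕ → ℕ}
    (hT : T.IsTree) (hle : T ≤ G) {c w w' : Fin m} (hN : NumG g G T w' E p ea eb)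
    (h1 : StG G D c) (h2 : G.Adj c w) (h3 : G.degree w ≠ 1) (h4 : G.Adj w w') (h5 : w' ≠ c)
    (h6 : AllT G T c) (h7 : AllT G T w) (h8 : AllT G T w') :
    PForm m g D p ea eb (E w) (E c) ∧ (∀ v, (chl m p (E v)).card ≤ G.degree v) ∧
      (univ.filter fun u => PL2 G u ∧ ¬ BadP G T c w w' u).card ≤
        ((range m).filter fun v => Pend m p v ∧ p v ∉ Fset m g p ea eb (E w) (E c)).card ∧
      (univ.filter fun c' => StG G D c').card ≤ ((range m).filter fun c' => StarD m p D c').card + 2 := by
  have hw0 : 0 < E w := h99_pos hN h4.ne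
  have hc0 : 0 < E c := h99_pos hN h5.symm
  have hpw : p (E w) = 0 := by
    rcases (hN.adjT w' w).1 (h8 w h4.symm) with ⟨_, h⟩ | ⟨h, _⟩
    · rw [h, hN.root]
    · rw [hN.root] at h
      omega
  have hpc : p (E c) = E w := by
    rcases (hN.adjT w c).1 (h7 c h2.symm) with ⟨_, h⟩ | ⟨_, h⟩
    · exact h
    · rw [hpw] at h
      omega
  have hst : StarD m p D (E c) := h99_starD hN hle h8 h4 hc0 h1 hpc h3
  have hallc : ∀ y, E y ∈ chl m p (E c) → AllT G T y := by
    intro y hy v hv
    obtain ⟨y', hy', h9, h10⟩ := (h99_mem_chl hN).1 hy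
    have : y' = y := hN.inj hy'
    subst this
    have hyw : y' ≠ w := by
      rintro rfl
      rw [hpw] at h10
      omega
    have h11 : G.degree y' = 1 := h99_star_nb h1 h2 h3 (hle (h99_child hN h9 h10)) hyw
    have h12 : v = c := h99_nb_one h11 (hle (h99_child hN h9 h10)).symm hv
    subst h12
    exact (h99_child hN h9 h10).symm
  refine ⟨⟨hN.par, ⟨hw0, hN.lt w, hpw⟩, ⟨hc0, hN.lt c, hpc⟩, hst, ?_, hN.exi, ?_⟩,
    h99_chl_card hN hle, ?_, ?_⟩
  · intro j hj
    obtain ⟨u, v, e1, e2, e3, e4, e5⟩ := hN.ex1 j hj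
    refine ⟨e5, by rw [← e3]; exact hN.lt u, ?_⟩
    intro h
    apply e2
    refine (hN.adjT u v).2 (Or.inr ⟨?_, ?_⟩)
    · rw [e3]
      omega
    · rw [e3, e4]
      exact h
  · intro j hj v hv
    have key : ∀ x : Fin m, AllT G T x → ea j ≠ E x ∧ eb j ≠ E x := by
      intro x hx
      constructor
      · intro h
        obtain ⟨y, e1, e2⟩ := h99_ext hN hj (x := x) (Or.inl h.symm)
        exact e2 (hx y e1)
      · intro h
        obtain ⟨y, e1, e2⟩ := h99_ext hN hj (x := x) (Or.inr h.symm)
        exact e2 (hx y e1)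
    rcases mem_union.1 hv with hv | hv
    · rcases mem_insert.1 hv with rfl | hv
      · have := key w' h8
        rwa [hN.root] at this
      · rcases mem_insert.1 hv with rfl | hv
        · exact key w h7
        · rw [mem_singleton] at hv
          subst hv
          exact key c h6
    · obtain ⟨y, hy, _, _⟩ := (h99_mem_chl hN).1 hv
      subst hy
      exact key y (hallc y hv)
  · -- pendant paths
    have hmain : ∀ u, PL2 G u → ¬ BadP G T c w w' u → ∃ v x : Fin m, 0 < E u ∧ p (E u) = E v ∧
        chl m p (E v) = {E u} ∧ Pend m p (E v) ∧ p (E v) ∉ Fset m g p ea eb (E w) (E c) := by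
      intro u hu hB
      obtain ⟨hu1, v, huv, hv2⟩ := hu
      obtain ⟨x, hxu, hvx, hvy⟩ := h99_nb_two hv2 huv.symm
      have hBx : ¬ (x = w ∨ x = w' ∨ x = c ∨ G.Adj w x ∨ G.Adj w' x ∨ G.Adj c x ∨ ¬ AllT G T x) :=
        fun h => hB ⟨v, x, huv, hv2, hvx, hxu, h⟩
      push Not at hBx
      obtain ⟨b1, b2, b3, b4, b5, b6, b7⟩ := hBx
      have hvr : v ≠ w' := by
        rintro rfl
        exact b5 hvx
      have hur : u ≠ w' := by
        rintro rfl
        have : w = v := h99_nb_one hu1 huv h4.symm
        subst this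
        exact b4 hvx
      have hu0 := h99_pos hN hur
      have hv0 := h99_pos hN hvr
      have hpu : p (E u) = E v := by
        obtain ⟨y, hy, hTy⟩ := h99_parent hN hu0
        have : y = v := h99_nb_one hu1 huv (hle hTy).symm
        rw [← hy, this]
      have hpv : p (E v) = E x := by
        obtain ⟨y, hy, hTy⟩ := h99_parent hN hv0
        rcases hvy y (hle hTy).symm with h | h
        · exfalso
          rw [h] at hy
          exact h99_no_two hN hu0 hv0 hpu hy.symm
        · rw [← hy, h]
      have hch : chl m p (E v) = {E u} := by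
        ext j
        rw [h99_mem_chl hN, mem_singleton]
        constructor
        · rintro ⟨y, rfl, e1, e2⟩
          rcases hvy y (hle (h99_child hN e1 e2)) with h | h
          · rw [h]
          · exfalso
            rw [h] at e1 e2
            exact h99_no_two hN hv0 e1 hpv e2
        · rintro rfl
          exact ⟨u, rfl, hu0, hpu⟩
      have hcu : chl m p (E u) = ∅ := by
        rw [eq_empty_iff_forall_notMem]
        intro j hj
        obtain ⟨y, rfl, e1, e2⟩ := (h99_mem_chl hN).1 hj
        have : y = v := h99_nb_one hu1 huv (hle (h99_child hN e1 e2))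
        subst this
        exact h99_no_two hN hu0 hv0 hpu e2
      refine ⟨v, x, hu0, hpu, hch, ⟨hv0, hN.lt v, E u, hch, hcu⟩, ?_⟩
      rw [hpv]
      intro hF
      have hch' : ∀ y : Fin m, E x ∈ chl m p (E y) → G.Adj y x := by
        intro y hy
        obtain ⟨x', hx', e1, e2⟩ := (h99_mem_chl hN).1 hy
        have : x' = x := hN.inj hx'
        subst this
        exact hle (h99_child hN e1 e2)
      unfold Fset at hF
      rcases mem_union.1 hF with hF | hF
      · rcases mem_union.1 hF with hF | hF
        · rcases mem_union.1 hF with hF | hF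
          · rcases mem_union.1 hF with hF | hF
            · rcases mem_insert.1 hF with hF | hF
              · exact b2 (hN.inj (hF.trans hN.root.symm))
              · rcases mem_insert.1 hF with hF | hF
                · exact b1 (hN.inj hF)
                · exact b3 (hN.inj (mem_singleton.1 hF))
            · rw [← hN.root] at hF
              exact b5 (hch' w' hF)
          · exact b4 (hch' w hF)
        · exact b6 (hch' c hF)
      · rcases mem_union.1 hF with hF | hF
        · obtain ⟨j, hj, hjx⟩ := mem_image.1 hF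
          obtain ⟨y, e1, e2⟩ := h99_ext hN (mem_range.1 hj) (x := x) (Or.inl hjx.symm)
          exact e2 (b7 y e1)
        · obtain ⟨j, hj, hjx⟩ := mem_image.1 hF
          obtain ⟨y, e1, e2⟩ := h99_ext hN (mem_range.1 hj) (x := x) (Or.inr hjx.symm)
          exact e2 (b7 y e1)
    refine card_le_card_of_injOn (fun u => p (E u)) ?_ ?_
    · intro u hu
      obtain ⟨_, hu1, hu2⟩ := mem_filter.1 (mem_coe.1 hu)
      obtain ⟨v, x, _, e2, _, e4, e5⟩ := hmain u hu1 hu2
      change p (E u) ∈ _
      rw [e2]
      exact mem_coe.2 (mem_filter.2 ⟨mem_range.2 (hN.lt v), e4, e5⟩)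
    · intro u hu u' hu' huu
      obtain ⟨_, hu1, hu2⟩ := mem_filter.1 (mem_coe.1 hu)
      obtain ⟨_, hu1', hu2'⟩ := mem_filter.1 (mem_coe.1 hu')
      obtain ⟨v, x, _, e2, e3, _, _⟩ := hmain u hu1 hu2
      obtain ⟨v', x', _, e2', e3', _, _⟩ := hmain u' hu1' hu2'
      change p (E u) = p (E u') at huu
      rw [e2, e2'] at huu
      rw [huu, e3'] at e3
      exact (hN.inj (singleton_injective e3)).symm
  · -- stars
    have hsub : (univ.filter fun c' => StG G D c') ⊆
        (univ.filter fun c' => StarD m p D (E c')) ∪ {w, w'} := by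
      intro c' hc'
      have hs := (mem_filter.1 hc').2
      rw [mem_union, mem_filter, mem_insert, mem_singleton]
      by_cases hr : c' = w'
      · exact Or.inr (Or.inr hr)
      · have hc'0 := h99_pos hN hr
        obtain ⟨y, hy, hTy⟩ := h99_parent hN hc'0
        by_cases hy1 : G.degree y = 1
        · by_cases hyr : y = w'
          · right
            left
            subst hyr
            exact h99_nb_one hy1 h4.symm (hle hTy)
          · exfalso
            have hy0 := h99_pos hN hyr
            obtain ⟨y2, hy2, hTy2⟩ := h99_parent hN hy0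
            have : y2 = c' := h99_nb_one hy1 (hle hTy) (hle hTy2).symm
            subst this
            exact h99_no_two hN hc'0 hy0 hy.symm hy2.symm
        · left
          exact ⟨mem_univ _, h99_starD hN hle h8 h4 hc'0 hs hy.symm hy1⟩
    have h9 : (univ.filter fun c' => StarD m p D (E c')).card ≤
        ((range m).filter fun c' => StarD m p D c').card := by
      refine card_le_card_of_injOn E ?_ (hN.inj.injOn)
      intro v hv
      exact mem_coe.2 (mem_filter.2 ⟨mem_range.2 (hN.lt v), (mem_filter.1 (mem_coe.1 hv)).2⟩)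
    have h10 := (card_le_card hsub).trans (card_union_le _ _)
    have h11 : ({w, w'} : Finset (Fin m)).card ≤ 2 := card_le_two
    omega

end Pool.Agent.GRC
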