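import Pool.Agent.Helper28.GRC.FIN
import Pool.Agent.Helper28.GRC.UNA
import Pool.Agent.Helper28.GRC.UNB
import Pool.Agent.Helper28.GRC.UNC

/-!
# GRC-GRM: the main theorem for graphs
-/

set_option autoImplicit false

namespace Pool.Agent.GRC

open Finset Pool.Agent.SEM

open Classical in
/-- the sum over the vertices with many children is at most the sum over the vertices of large degree -/
theorem grm_tail {m g : ℕ} {G T : SimpleGraph (Fin m)} {r : Fin m} {E : Fin m → ℕ} {p ea eb : ℕ → ℕ}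
    (hN : NumG g G T r E p ea eb) (Λ : ℕ) (h : ∀ v, (chl m p (E v)).card ≤ G.degree v) :
    ∑ v ∈ (range m).filter (fun v => Λ < (chl m p v).card), (chl m p v).card ≤
      ∑ v ∈ univ.filter (fun v => Λ < G.degree v), G.degree v := by
  have h1 : (range m).filter (fun v => Λ < (chl m p v).card) ⊆
      (univ.filter (fun v => Λ < G.degree v)).image E := by
    intro i hi
    rw [mem_filter, mem_range] at hi
    obtain ⟨v, hv⟩ := hN.surj i hi.1
    rw [mem_image]
    refine ⟨v, mem_filter.2 ⟨mem_univ v, ?_⟩, hv⟩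
    have h2 := h v
    rw [hv] at h2
    omega
  calc ∑ v ∈ (range m).filter (fun v => Λ < (chl m p v).card), (chl m p v).card
      ≤ ∑ v ∈ (univ.filter (fun v => Λ < G.degree v)).image E, (chl m p v).card :=
        sum_le_sum_of_subset h1
    _ = ∑ v ∈ univ.filter (fun v => Λ < G.degree v), (chl m p (E v)).card :=
        sum_image fun a _ b _ hab => hN.inj hab
    _ ≤ ∑ v ∈ univ.filter (fun v => Λ < G.degree v), G.degree v := sum_le_sum fun v _ => h v

open Classical in
theorem grc_fin (D g : ℕ) (hD5 : 10 ^ 5 ≤ D) (ε : ℝ) (hε : 0 < ε) (hε1 : ε ≤ 1) :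
    ∃ η : ℝ, 0 < η ∧ ∀ Λ : ℕ, ∃ δ : ℝ, 0 < δ ∧ ∃ m0 : ℕ, ∀ (m : ℕ) (G : SimpleGraph (Fin m)), m0 ≤ m →
      G.Connected → G.edgeFinset.card + 1 = m + g → (∀ v, (G.degree v : ℝ) ≤ δ * m) →
      ((∑ v ∈ univ.filter (fun v => Λ < G.degree v), G.degree v : ℕ) : ℝ) ≤ η * m →
      ε * m ≤ ((univ.filter fun u => PL2 G u).card : ℝ) →
      ε * m ≤ ((univ.filter fun c => StG G D c).card : ℝ) →
      ∃ f : Fin m → ℕ, Function.Injective f ∧ (∀ v, f v ≤ G.edgeFinset.card) ∧
        ∀ u v u' v' : Fin m, G.Adj u v → G.Adj u' v' →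
          Int.natAbs ((f u : ℤ) - (f v : ℤ)) = Int.natAbs ((f u' : ℤ) - (f v' : ℤ)) →
          s(u, v) = s(u', v') := by
  obtain ⟨η, hη, hmain⟩ := grc_main D g hD5 (ε / 4) (by linarith) (by linarith)
  refine ⟨min η (ε / 16), by positivity, fun Λ => ?_⟩
  obtain ⟨δ1, hδ1, m1, h1⟩ := hmain Λ
  obtain ⟨δ2, hδ2, m2, h2⟩ := choose_path ε D g Λ hε hε1 (by omega)
  refine ⟨min δ1 δ2, by positivity, max (max m1 m2) (⌈4 / ε⌉₊ + 4), ?_⟩
  intro m G hm hconn hcard hdeg htail hpend hstar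
  have hm1 : m1 ≤ m := ((le_max_left _ _).trans (le_max_left _ _)).trans hm
  have hm2 : m2 ≤ m := ((le_max_right _ _).trans (le_max_left _ _)).trans hm
  have hm3 : ⌈4 / ε⌉₊ + 4 ≤ m := (le_max_right _ _).trans hm
  have hm0 : (0 : ℝ) ≤ m := Nat.cast_nonneg m
  have hεm : 4 ≤ ε * m := by
    have h3 : ((⌈4 / ε⌉₊ : ℕ) : ℝ) ≤ m := by
      have : ⌈4 / ε⌉₊ ≤ m := by omega
      exact_mod_cast this
    have h4 := (Nat.le_ceil (4 / ε)).trans h3
    rw [div_le_iff₀ hε] at h4
    linarith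
  obtain ⟨T, hTG, hT⟩ := hconn.exists_isTree_le
  obtain ⟨c, w, w', c1, c2, c3, c4, c5, c6, c7, c8, c9⟩ := h2 m G T hm2 hTG hT hcard
    (fun v => (hdeg v).trans (mul_le_mul_of_nonneg_right (min_le_right _ _) hm0))
    (htail.trans (mul_le_mul_of_nonneg_right (min_le_right _ _) hm0)) hstar
  obtain ⟨E, p, ea, eb, hN⟩ := num_exists G T hT hTG hcard w'
  obtain ⟨hF, hchl, hP, hS⟩ := pform_of (by omega) (by omega) hT hTG hN c1 c2 c3 c4 c5 c6 c7 c8
  refine gr_of hTG hN hcard (h1 m p ea eb (E w) (E c) hm1 hF ?_ ?_ ?_ ?_)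
  · intro v hv
    obtain ⟨x, hx⟩ := hN.surj v hv
    rw [← hx]
    have h3 : ((chl m p (E x)).card : ℝ) ≤ G.degree x := by exact_mod_cast hchl x
    exact (h3.trans (hdeg x)).trans (mul_le_mul_of_nonneg_right (min_le_left _ _) hm0)
  · have h3 := grm_tail hN Λ hchl
    have h4 : ((∑ v ∈ (range m).filter (fun v => Λ < (chl m p v).card), (chl m p v).card : ℕ) : ℝ) ≤
      ((∑ v ∈ univ.filter (fun v => Λ < G.degree v), G.degree v : ℕ) : ℝ) := by exact_mod_cast h3
    exact (h4.trans htail).trans (mul_le_mul_of_nonneg_right (min_le_left _ _) hm0)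
  · have h3 : ((univ.filter fun u => PL2 G u).card : ℝ) ≤
        ((univ.filter fun u => PL2 G u ∧ BadP G T c w w' u).card : ℝ) +
        ((univ.filter fun u => PL2 G u ∧ ¬ BadP G T c w w' u).card : ℝ) := by
      have h4 : (univ.filter fun u => PL2 G u).card =
        (univ.filter fun u => PL2 G u ∧ BadP G T c w w' u).card +
          (univ.filter fun u => PL2 G u ∧ ¬ BadP G T c w w' u).card := by
        rw [← card_filter_add_card_filter_not (s := univ.filter fun u => PL2 G u)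
          (p := fun u => BadP G T c w w' u), filter_filter, filter_filter]
      exact_mod_cast h4.le
    have h5 : ((univ.filter fun u => PL2 G u ∧ ¬ BadP G T c w w' u).card : ℝ) ≤
        ((range m).filter fun v => Pend m p v ∧ p v ∉ Fset m g p ea eb (E w) (E c)).card := by
      exact_mod_cast hP
    linarith
  · have h5 : ((univ.filter fun c' => StG G D c').card : ℝ) ≤
        ((range m).filter fun c' => StarD m p D c').card + 2 := by exact_mod_cast hS
    linarith

end Pool.Agent.GRC
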