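import Pool.Agent.Helper28.GRC.PF1

/-!
# GRC-PF2: facts on the profile `Psi`

`√μ ≤ 10⁻⁹`.  `phi P s = 1 - √(44 P/s)`: `phi (50 P) = 1 - √0.88 ≥ 0.0619`, increasing, `phi' = √(44 P)/(2 s^{3/2}) ≤ 0.0094/P` for `s ≥ 50 P`
(elementary: `|√(44P/s) - √(44P/s')| = √(44P) |s - s'|/(√s √s' (√s + √s'))`).  The other terms have Lipschitz constants `≤ (0.65 e · 100 + 25 e + 100 ξ)/n ≤ 1/n ≤ 0.01/P`.
`lin n s = 0` for `100 s ≤ 69 n`; for `100 s ≥ 69 n` `phi ≥ 1 - √(64 μ)` and `ξ ≤ 40 √μ`, so `Psi ≥ 0.99`.  `Psi ≤ phi + e Bf ≤ 1 + 0.33 e`.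
-/

set_option autoImplicit false

namespace Pool.Agent.GRC

open Finset

private theorem pf94_cons {n P w D : ℕ} {t μ e : ℝ} (h : Prm n P w D t μ e) :
    Real.sqrt μ ≤ 1 / 10 ^ 9 ∧ 10 ^ 14 * w ≤ P ∧ 10 ^ 18 * P ≤ n ∧ 10 ^ 9 ≤ w ∧ t ≤ 1 / 10 ^ 14 * Real.sqrt μ ∧
      (D : ℝ) ≤ 1 / 10 ^ 9 * P ∧ 1 / (n : ℝ) ≤ t / 10 ^ 9 := by
  have hn : (0 : ℝ) < n := by exact_mod_cast h.hn
  have hw : (0 : ℝ) < w := by exact_mod_cast h.w0
  have hμ := h.μ0
  have hP : (0 : ℝ) < P := by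
    have h1 := h.P1
    have h2 : 0 < μ * n := mul_pos hμ hn
    linarith
  have hD : (10 : ℝ) ^ 5 ≤ D := by exact_mod_cast h.D1
  have hs0 : 0 ≤ Real.sqrt μ := Real.sqrt_nonneg _
  have hs1 : Real.sqrt μ ≤ 1 / 10 ^ 9 := by
    have h1 := h.μe
    have h2 := h.e1
    linarith
  have ht0 := h.t0
  have hsmall := h.small
  have hwP : 0 < (w : ℝ) / P := div_pos hw hP
  have hDt : 10 ^ 9 * (D : ℝ) * t ≤ Real.sqrt μ := by
    have h1 : 0 ≤ 10 ^ 9 * (D : ℝ) * (w / P) := by positivity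
    nlinarith
  have hDw : 10 ^ 9 * (D : ℝ) * (w / P) ≤ Real.sqrt μ := by
    have h1 : 0 ≤ 10 ^ 9 * (D : ℝ) * t := by positivity
    nlinarith
  have hDw' : 10 ^ 9 * (D : ℝ) * w ≤ Real.sqrt μ * P := by
    have h1 : 10 ^ 9 * (D : ℝ) * w = 10 ^ 9 * (D : ℝ) * (w / P) * P := by
      field_simp
    rw [h1]
    exact mul_le_mul_of_nonneg_right hDw hP.le
  have ht14 : t ≤ 1 / 10 ^ 14 * Real.sqrt μ := by
    have h1 : 10 ^ 9 * (10 : ℝ) ^ 5 * t ≤ 10 ^ 9 * (D : ℝ) * t := by gcongr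
    have h2 : 10 ^ 9 * (10 : ℝ) ^ 5 * t ≤ Real.sqrt μ := h1.trans hDt
    linarith
  have hwP14 : (10 : ℝ) ^ 14 * w ≤ P := by
    have h1 : 10 ^ 9 * (10 : ℝ) ^ 5 * w ≤ 10 ^ 9 * (D : ℝ) * w := by gcongr
    have h2 : Real.sqrt μ * P ≤ 1 * P := by
      apply mul_le_mul_of_nonneg_right _ hP.le
      linarith
    linarith
  have hμ18 : μ ≤ 1 / 10 ^ 18 := by
    have h1 : μ = Real.sqrt μ * Real.sqrt μ := (Real.mul_self_sqrt hμ.le).symm
    rw [h1]
    calc Real.sqrt μ * Real.sqrt μ ≤ (1 / 10 ^ 9) * (1 / 10 ^ 9) := by gcongr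
      _ = 1 / 10 ^ 18 := by norm_num
  have hPn : (10 : ℝ) ^ 18 * P ≤ n := by
    have h1 := h.P2
    have h2 : μ * n ≤ 1 / 10 ^ 18 * n := mul_le_mul_of_nonneg_right hμ18 hn.le
    linarith
  have htw := h.tw
  have ht23 : t ≤ 1 / 10 ^ 23 := by linarith
  have hw23 : (10 : ℝ) ^ 23 ≤ w := by
    have h1 : t * w ≤ 1 / 10 ^ 23 * w := mul_le_mul_of_nonneg_right ht23 hw.le
    linarith
  refine ⟨hs1, by exact_mod_cast hwP14, by exact_mod_cast hPn, ?_, ht14, ?_, ?_⟩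
  · have : (10 : ℝ) ^ 9 ≤ w := by linarith
    exact_mod_cast this
  · have h1 : 10 ^ 9 * (D : ℝ) * 1 ≤ 10 ^ 9 * (D : ℝ) * w := by
      apply mul_le_mul_of_nonneg_left _ (by positivity)
      linarith
    have h2 : Real.sqrt μ * P ≤ 1 * P := by
      apply mul_le_mul_of_nonneg_right _ hP.le
      linarith
    linarith
  · rw [div_le_div_iff₀ hn (by norm_num)]
    have h1 : (10 : ℝ) ^ 32 * w ≤ n := by linarith
    have h2 : t * (10 ^ 32 * w) ≤ t * n := mul_le_mul_of_nonneg_left h1 ht0.le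
    have h3 : t * (10 ^ 32 * w) = 10 ^ 32 * (t * w) := by ring
    linarith

private theorem pf94_n6 {n P w D : ℕ} {t μ e : ℝ} (h : Prm n P w D t μ e) : 10 ^ 6 ≤ n := by
  obtain ⟨_, h1, h2, h3, _, _, _⟩ := pf94_cons h
  have hw := h.w0
  omega

private theorem pf94_P {n P w D : ℕ} {t μ e : ℝ} (h : Prm n P w D t μ e) : (0 : ℝ) < P := by
  obtain ⟨_, h1, h2, h3, _, _, _⟩ := pf94_cons h
  have : 0 < P := by omega
  exact_mod_cast this

private theorem pf94_eta (n : ℕ) (z : ℝ) : 0 ≤ eta n z ∧ eta n z ≤ 1 := cl01_range _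

private theorem pf94_lin (n : ℕ) (z : ℝ) : 0 ≤ lin n z ∧ lin n z ≤ 1 := cl01_range _

private theorem pf94_phi_le (P : ℕ) (s : ℝ) : phi P s ≤ 1 := by
  unfold phi
  linarith [Real.sqrt_nonneg (44 * P / s)]

private theorem pf94_phi_lo {P : ℕ} (hP : (0 : ℝ) < P) {s : ℝ} (h1 : 50 * (P : ℝ) ≤ s) :
    619 / 10000 ≤ phi P s := by
  unfold phi
  have hs : 0 < s := by linarith
  have h2 : Real.sqrt (44 * P / s) ≤ 9381 / 10000 := by
    rw [Real.sqrt_le_left (by norm_num), div_le_iff₀ hs]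
    nlinarith
  linarith

private theorem pf94_phi_big {n P w D : ℕ} {t μ e s : ℝ} (h : Prm n P w D t μ e)
    (h1 : 8 * (n : ℝ) ≤ 1000 * s) : 999 / 1000 ≤ phi P s := by
  have hn : (0 : ℝ) < n := by exact_mod_cast h.hn
  have hs : 0 < s := by linarith
  obtain ⟨_, _, h2, _, _, _, _⟩ := pf94_cons h
  have h3 : (10 : ℝ) ^ 18 * P ≤ n := by exact_mod_cast h2
  unfold phi
  have h4 : Real.sqrt (44 * P / s) ≤ 1 / 1000 := by
    rw [Real.sqrt_le_left (by norm_num), div_le_iff₀ hs]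
    linarith
  linarith

theorem Psi_lo {n P w D : ℕ} {t μ e ξ s : ℝ} (h : Prm n P w D t μ e) (hξ : 0 ≤ ξ) (hξ2 : ξ ≤ 40 * Real.sqrt μ)
    (h1 : 50 * (P : ℝ) ≤ s) (h2 : s ≤ n) : 1 / 17 ≤ Psi n P e ξ s := by
  obtain ⟨hs1, _, _, _, _, _, _⟩ := pf94_cons h
  have hphi := pf94_phi_lo (pf94_P h) h1
  have heta := pf94_eta n (s / 2)
  have hlin := pf94_lin n s
  have hB := Bf_nonneg n (s / 2)
  have he0 := h.e0
  have he1 := h.e1
  unfold Psi
  have h3 : 999 / 1000 ≤ 1 - 65 / 100 * e * eta n (s / 2) := by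
    have : e * eta n (s / 2) ≤ 1 / 1000 * 1 := mul_le_mul he1 heta.2 heta.1 (by norm_num)
    linarith
  have h4 : 619 / 10000 * (999 / 1000) ≤ phi P s * (1 - 65 / 100 * e * eta n (s / 2)) :=
    mul_le_mul hphi h3 (by norm_num) (by linarith)
  have h5 : 0 ≤ e * Bf n (s / 2) := mul_nonneg he0.le hB
  have h6 : ξ * lin n s ≤ (40 * Real.sqrt μ) * 1 := mul_le_mul hξ2 hlin.2 hlin.1 (by positivity)
  linarith

theorem Psi_up {n P w D : ℕ} {t μ e ξ s : ℝ} (h : Prm n P w D t μ e) (hξ : 0 ≤ ξ) (hξ2 : ξ ≤ 40 * Real.sqrt μ)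
    (h1 : 50 * (P : ℝ) ≤ s) (h2 : s ≤ n) : Psi n P e ξ s ≤ 1001 / 1000 := by
  have hphi := pf94_phi_lo (pf94_P h) h1
  have hphi1 := pf94_phi_le P s
  have heta := pf94_eta n (s / 2)
  have hlin := pf94_lin n s
  have hB := Bf_le (pf94_n6 h) (s / 2)
  have hB0 := Bf_nonneg n (s / 2)
  have he0 := h.e0
  have he1 := h.e1
  unfold Psi
  have h3 : 0 ≤ e * eta n (s / 2) := mul_nonneg he0.le heta.1
  have h4 : phi P s * (1 - 65 / 100 * e * eta n (s / 2)) ≤ 1 * 1 := by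
    apply mul_le_mul hphi1 (by linarith) _ (by norm_num)
    have : e * eta n (s / 2) ≤ 1 / 1000 * 1 := mul_le_mul he1 heta.2 heta.1 (by norm_num)
    linarith
  have h5 : e * Bf n (s / 2) ≤ 1 / 1000 * (33 / 100) := mul_le_mul he1 hB hB0 (by norm_num)
  have h6 : 0 ≤ ξ * lin n s := mul_nonneg hξ hlin.1
  linarith

private theorem pf94_phi_lip {P : ℕ} (hP : (0 : ℝ) < P) {s s' : ℝ} (h1 : 50 * (P : ℝ) ≤ s)
    (h1' : 50 * (P : ℝ) ≤ s') : |phi P s - phi P s'| ≤ |s - s'| / (100 * P) := by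
  have hs : 0 < s := by linarith
  have hs' : 0 < s' := by linarith
  set c := Real.sqrt (44 * P) with hc
  set u := Real.sqrt s with hu
  set v := Real.sqrt s' with hv
  set m := Real.sqrt (50 * P) with hm
  have hc0 : 0 < c := Real.sqrt_pos.mpr (by positivity)
  have hu0 : 0 < u := Real.sqrt_pos.mpr hs
  have hv0 : 0 < v := Real.sqrt_pos.mpr hs'
  have hm0 : 0 < m := Real.sqrt_pos.mpr (by positivity)
  have hmu : m ≤ u := Real.sqrt_le_sqrt h1
  have hmv : m ≤ v := Real.sqrt_le_sqrt h1'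
  have hcm : c ≤ m := Real.sqrt_le_sqrt (by linarith)
  have hus : u * u = s := Real.mul_self_sqrt hs.le
  have hvs : v * v = s' := Real.mul_self_sqrt hs'.le
  have hmm : m * m = 50 * P := Real.mul_self_sqrt (by positivity)
  have e1 : Real.sqrt (44 * P / s) = c / u := Real.sqrt_div (by positivity) s
  have e2 : Real.sqrt (44 * P / s') = c / v := Real.sqrt_div (by positivity) s'
  unfold phi
  rw [e1, e2]
  have h3 : 1 - c / u - (1 - c / v) = c * (s - s') / (u * v * (u + v)) := by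
    rw [← hus, ← hvs]
    have : u + v ≠ 0 := by positivity
    field_simp
    ring
  rw [h3, abs_div, abs_mul, abs_of_pos hc0, abs_of_pos (by positivity : 0 < u * v * (u + v))]
  rw [div_le_div_iff₀ (by positivity) (by positivity)]
  have h4 : c * (100 * P) ≤ u * v * (u + v) := by
    have h5 : m * m ≤ u * v := mul_le_mul hmu hmv hm0.le hu0.le
    have h6 : (m * m) * (m + m) ≤ u * v * (u + v) := by
      apply mul_le_mul h5 (by linarith) (by positivity) (by positivity)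
    have h7 : c * (100 * P) ≤ (m * m) * (m + m) := by
      rw [hmm]
      nlinarith
    linarith
  calc c * |s - s'| * (100 * P) = |s - s'| * (c * (100 * P)) := by ring
    _ ≤ |s - s'| * (u * v * (u + v)) := mul_le_mul_of_nonneg_left h4 (abs_nonneg _)

theorem Psi_lip {n P w D : ℕ} {t μ e ξ s s' : ℝ} (h : Prm n P w D t μ e) (hξ : 0 ≤ ξ) (hξ2 : ξ ≤ 40 * Real.sqrt μ)
    (h1 : 50 * (P : ℝ) ≤ s) (h2 : s ≤ n) (h1' : 50 * (P : ℝ) ≤ s') (h2' : s' ≤ n) :
    |Psi n P e ξ s - Psi n P e ξ s'| ≤ |s - s'| / (50 * P) := by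
  obtain ⟨hs1, _, hPn', _, _, _, _⟩ := pf94_cons h
  have hP := pf94_P h
  have hn : (0 : ℝ) < n := by exact_mod_cast h.hn
  have hPn : (10 : ℝ) ^ 18 * P ≤ n := by exact_mod_cast hPn'
  have he0 := h.e0
  have he1 := h.e1
  have hd0 : 0 ≤ |s - s'| := abs_nonneg _
  have hphid := pf94_phi_lip hP h1 h1'
  have hphi := pf94_phi_lo hP h1'
  have hphi1 := pf94_phi_le P s'
  have heta := pf94_eta n (s / 2)
  have hel := eta_lip h.hn (s / 2) (s' / 2)
  have hBl := Bf_lip (pf94_n6 h) (s / 2) (s' / 2)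
  have hhalf : |s / 2 - s' / 2| = |s - s'| / 2 := by
    rw [← sub_div, abs_div, abs_two]
  rw [hhalf] at hel hBl
  have hll : |lin n s - lin n s'| ≤ 100 * |s - s'| / n := by
    unfold lin
    refine (cl01_lip _ _).trans (le_of_eq ?_)
    have h3 : 100 * (s / n) - 69 - (100 * (s' / n) - 69) = 100 * (s - s') / n := by
      field_simp
      ring
    rw [h3, abs_div, abs_mul, abs_of_pos hn]
    norm_num
  set d := |s - s'| with hd
  have hA : |phi P s * (1 - 65 / 100 * e * eta n (s / 2)) -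
      phi P s' * (1 - 65 / 100 * e * eta n (s' / 2))| ≤ d / (100 * P) + 65 / 100 * e * (200 * (d / 2) / n) := by
    have h3 : phi P s * (1 - 65 / 100 * e * eta n (s / 2)) -
      phi P s' * (1 - 65 / 100 * e * eta n (s' / 2)) =
      (phi P s - phi P s') * (1 - 65 / 100 * e * eta n (s / 2)) -
        phi P s' * (65 / 100 * e * (eta n (s / 2) - eta n (s' / 2))) := by ring
    rw [h3]
    refine (abs_sub _ _).trans (add_le_add ?_ ?_)
    · rw [abs_mul]
      have h4 : |1 - 65 / 100 * e * eta n (s / 2)| ≤ 1 := by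
        have h5 : 0 ≤ e * eta n (s / 2) := mul_nonneg he0.le heta.1
        have h6 : e * eta n (s / 2) ≤ 1 / 1000 * 1 := mul_le_mul he1 heta.2 heta.1 (by norm_num)
        rw [abs_le]
        constructor <;> linarith
      calc |phi P s - phi P s'| * |1 - 65 / 100 * e * eta n (s / 2)|
          ≤ (d / (100 * P)) * 1 := mul_le_mul hphid h4 (abs_nonneg _) (by positivity)
        _ = d / (100 * P) := mul_one _
    · rw [abs_mul, abs_mul, abs_of_pos (by positivity : (0 : ℝ) < 65 / 100 * e)]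
      have h4 : |phi P s'| ≤ 1 := by
        rw [abs_le]
        constructor <;> linarith
      calc |phi P s'| * (65 / 100 * e * |eta n (s / 2) - eta n (s' / 2)|)
          ≤ 1 * (65 / 100 * e * (200 * (d / 2) / n)) := by
            apply mul_le_mul h4 _ (by positivity) (by norm_num)
            exact mul_le_mul_of_nonneg_left hel (by positivity)
        _ = _ := one_mul _
  have hBB : |e * Bf n (s / 2) - e * Bf n (s' / 2)| ≤ e * (50 * (d / 2) / n) := by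
    rw [← mul_sub, abs_mul, abs_of_pos he0]
    exact mul_le_mul_of_nonneg_left hBl he0.le
  have hL : |ξ * lin n s - ξ * lin n s'| ≤ (40 * Real.sqrt μ) * (100 * d / n) := by
    rw [← mul_sub, abs_mul, abs_of_nonneg hξ]
    exact mul_le_mul hξ2 hll (abs_nonneg _) (by positivity)
  have htot : |Psi n P e ξ s - Psi n P e ξ s'| ≤ (d / (100 * P) + 65 / 100 * e * (200 * (d / 2) / n)) +
      e * (50 * (d / 2) / n) + (40 * Real.sqrt μ) * (100 * d / n) := by
    unfold Psi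
    have h3 : phi P s * (1 - 65 / 100 * e * eta n (s / 2)) + e * Bf n (s / 2) - ξ * lin n s -
        (phi P s' * (1 - 65 / 100 * e * eta n (s' / 2)) + e * Bf n (s' / 2) - ξ * lin n s') =
        (phi P s * (1 - 65 / 100 * e * eta n (s / 2)) -
          phi P s' * (1 - 65 / 100 * e * eta n (s' / 2))) +
        (e * Bf n (s / 2) - e * Bf n (s' / 2)) - (ξ * lin n s - ξ * lin n s') := by ring
    rw [h3]
    refine (abs_sub _ _).trans (add_le_add ((abs_add_le _ _).trans (add_le_add hA hBB)) hL)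
  refine htot.trans ?_
  have hdn : d / n ≤ d / (10 ^ 18 * P) := by
    apply div_le_div_of_nonneg_left hd0 (by positivity) hPn
  have hdn0 : 0 ≤ d / n := by positivity
  have h7 : (d / (100 * P) + 65 / 100 * e * (200 * (d / 2) / n)) +
      e * (50 * (d / 2) / n) + (40 * Real.sqrt μ) * (100 * d / n) =
      d / (100 * P) + (90 * e + 4000 * Real.sqrt μ) * (d / n) := by ring
  rw [h7]
  have h8 : (90 * e + 4000 * Real.sqrt μ) * (d / n) ≤ 1 * (d / (10 ^ 18 * P)) := by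
    apply mul_le_mul _ hdn hdn0 (by norm_num)
    linarith
  have h9 : d / (10 ^ 18 * P) ≤ d / (100 * P) := by
    apply div_le_div_of_nonneg_left hd0 (by positivity)
    nlinarith
  have h10 : d / (50 * P) = d / (100 * P) + d / (100 * P) := by
    field_simp
    ring
  rw [h10]
  linarith

theorem Psi_big {n P w D : ℕ} {t μ e ξ s : ℝ} (h : Prm n P w D t μ e) (hξ : 0 ≤ ξ) (hξ2 : ξ ≤ 40 * Real.sqrt μ)
    (h1 : 8 * (n : ℝ) ≤ 1000 * s) (h2 : s ≤ n) : 9 / 10 ≤ Psi n P e ξ s := by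
  obtain ⟨hs1, _, _, _, _, _, _⟩ := pf94_cons h
  have hphi := pf94_phi_big h h1
  have heta := pf94_eta n (s / 2)
  have hlin := pf94_lin n s
  have hB := Bf_nonneg n (s / 2)
  have he0 := h.e0
  have he1 := h.e1
  unfold Psi
  have h3 : 999 / 1000 ≤ 1 - 65 / 100 * e * eta n (s / 2) := by
    have : e * eta n (s / 2) ≤ 1 / 1000 * 1 := mul_le_mul he1 heta.2 heta.1 (by norm_num)
    linarith
  have h4 : 999 / 1000 * (999 / 1000) ≤ phi P s * (1 - 65 / 100 * e * eta n (s / 2)) :=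
    mul_le_mul hphi h3 (by norm_num) (by linarith)
  have h5 : 0 ≤ e * Bf n (s / 2) := mul_nonneg he0.le hB
  have h6 : ξ * lin n s ≤ (40 * Real.sqrt μ) * 1 := mul_le_mul hξ2 hlin.2 hlin.1 (by positivity)
  linarith

/-- basic consequences of `Prm` -/
theorem Prm_cons {n P w D : ℕ} {t μ e : ℝ} (h : Prm n P w D t μ e) :
    Real.sqrt μ ≤ 1 / 10 ^ 9 ∧ 10 ^ 14 * w ≤ P ∧ 10 ^ 18 * P ≤ n ∧ 10 ^ 9 ≤ w ∧ t ≤ 1 / 10 ^ 14 * Real.sqrt μ ∧
      (D : ℝ) ≤ 1 / 10 ^ 9 * P ∧ 1 / (n : ℝ) ≤ t / 10 ^ 9 :=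
  pf94_cons h

end Pool.Agent.GRC
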