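import Pool.Agent.Helper28.GRC.LC
import Pool.Agent.Helper28.GRC.PF2

/-!
# GRC-KA: the chain weights `aw` and their row sums

`aw x y = Psi (n - |x-y|)` on the pairs of chain labels with `|x + y - n| ≤ w` and `|x-y| ∈ S`.

Proof in words (use `Prm_cons`, `lc_X`, `lc_S`, `lc_ad`, `Psi_lo`, `Psi_up`, `Psi_lip`).
For chain labels `x, y` with `|x+y-n| ≤ w`: `ad x y ≤ n - 50 P`, so `n - ad x y ∈ [50P, n]`, and `|n - ad x y - 2 pos x| ≤ w` (for `x ≤ n/2`: if `y ≥ x` it is `|n-x-y|`; if `y < x` then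
`n - (x-y) - 2x = n - 3x + y` is `< n - 2x ≤ w` (as `n - w ≤ x + y < 2x`) and `≥ 2n - 4x - w ≥ -w`; for `x > n/2` by symmetry `x ↦ n-x, y ↦ n-y`); so every term is within
`w/(50P)` of `Psi (2 pos x)` (if `2 pos x > n`: impossible).
`AA_up`: at most `2w+1` terms.  `AA_lo` (`pos x ≥ 25P + w`): the window `[n-x-w, n-x+w]` is inside `[25P, n-25P]` (free region), it has at most `t(3w)` elements not in `X` and at most
`2t(3w)+1` elements `y` with `ad x y ∉ S`; so at least `(2w+1) - 10 t w - 1` terms; `1 ≤ t w`.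
`AA_min`: for every chain label one of the two halves `[n-x-w, n-x]`, `[n-x, n-x+w]` of the window is inside `[25P, n-25P]`; it has at least `w + 1 - 6 t w - 1` good elements, each term `≥ 1/17`; so
`AA x ≥ w/18`.
`pairs`: for `s` with `s + 50P + w ≤ n`, `s ∈ S`: the `x` with `x, x+s` chain labels and `|2x + s - n| ≤ w` are an interval of `w` or `w+1` integers (inside `[25P, n-25P]`) minus at most `2 · 2 t w`; the same for the
pairs `(x+s, x)`.  For every `s`: at most `2(w+1)` pairs.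
-/

set_option autoImplicit false

namespace Pool.Agent.GRC

open Finset

open Classical in
noncomputable def aw (n P w : ℕ) (X S : Finset ℕ) (e ξ : ℝ) (x y : ℕ) : ℝ :=
  if x ∈ XC n P X ∧ y ∈ XC n P X ∧ ad x y ∈ S ∧ n ≤ x + y + w ∧ x + y ≤ n + w then
    Psi n P e ξ ((n : ℝ) - (ad x y : ℝ)) else 0

noncomputable def AA (n P w : ℕ) (X S : Finset ℕ) (e ξ : ℝ) (x : ℕ) : ℝ := ∑ y ∈ X, aw n P w X S e ξ x y

private theorem basic6 {n P w D : ℕ} {t μ e : ℝ} (h : Prm n P w D t μ e) :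
    0 < w ∧ 0 ≤ t ∧ 10 ^ 6 * w ≤ P ∧ 100 * P ≤ n ∧ 1 ≤ t * w ∧ t ≤ 1 / 1000 ∧ 0 < P := by
  obtain ⟨h1, h2, h3, h4, h5, h6, h7⟩ := Prm_cons h
  have hw := h.w0
  have ht := h.t0
  refine ⟨hw, ht.le, by omega, by omega, h.tw, ?_, by omega⟩
  have h8 : 1 / 10 ^ 14 * Real.sqrt μ ≤ 1 / 10 ^ 14 * (1 / 10 ^ 9) :=
    mul_le_mul_of_nonneg_left h1 (by positivity)
  have h9 : (1 : ℝ) / 10 ^ 14 * (1 / 10 ^ 9) ≤ 1 / 1000 := by norm_num
  linarith

private theorem mem_XC6 {n P : ℕ} {X : Finset ℕ} {x : ℕ} :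
    x ∈ XC n P X ↔ x ∈ X ∧ 25 * P ≤ x ∧ x + 25 * P ≤ n := by
  unfold XC
  rw [Finset.mem_filter]

private theorem rg6 {n P x y : ℕ} (hx : 25 * P ≤ x ∧ x + 25 * P ≤ n)
    (hy : 25 * P ≤ y ∧ y + 25 * P ≤ n) :
    50 * (P : ℝ) ≤ (n : ℝ) - (ad x y : ℝ) ∧ (n : ℝ) - (ad x y : ℝ) ≤ n := by
  have h1 : ad x y + 50 * P ≤ n := by unfold ad; omega
  have h2 : ((ad x y : ℕ) : ℝ) + 50 * P ≤ n := by exact_mod_cast h1
  constructor
  · linarith
  · have : (0 : ℝ) ≤ (ad x y : ℝ) := Nat.cast_nonneg _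
    linarith

private theorem rgp6 {n P x : ℕ} (hx : 25 * P ≤ x ∧ x + 25 * P ≤ n) :
    50 * (P : ℝ) ≤ 2 * (pos n x : ℝ) ∧ 2 * (pos n x : ℝ) ≤ n := by
  have h1 : 50 * P ≤ 2 * pos n x := by unfold pos; omega
  have h2 : 2 * pos n x ≤ n := by unfold pos; omega
  exact ⟨by exact_mod_cast h1, by exact_mod_cast h2⟩

private theorem near6 {n P w D : ℕ} {t μ e ξ : ℝ} (h : Prm n P w D t μ e) (hξ : 0 ≤ ξ)
    (hξ2 : ξ ≤ 40 * Real.sqrt μ) {x y : ℕ} (hx : 25 * P ≤ x ∧ x + 25 * P ≤ n)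
    (hy : 25 * P ≤ y ∧ y + 25 * P ≤ n) (h1 : n ≤ x + y + w) (h2 : x + y ≤ n + w) :
    |Psi n P e ξ ((n : ℝ) - (ad x y : ℝ)) - Psi n P e ξ (2 * (pos n x : ℝ))| ≤ w / (50 * P) := by
  obtain ⟨a1, a2⟩ := rg6 hx hy
  obtain ⟨b1, b2⟩ := rgp6 hx
  refine (Psi_lip h hξ hξ2 a1 a2 b1 b2).trans ?_
  refine div_le_div_of_nonneg_right ?_ (by positivity)
  have c1 : n ≤ ad x y + 2 * pos n x + w := by unfold ad pos; omega
  have c2 : ad x y + 2 * pos n x ≤ n + w := by unfold ad pos; omega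
  have c3 : (n : ℝ) ≤ (ad x y : ℝ) + 2 * (pos n x : ℝ) + w := by exact_mod_cast c1
  have c4 : (ad x y : ℝ) + 2 * (pos n x : ℝ) ≤ n + w := by exact_mod_cast c2
  rw [abs_le]
  constructor <;> linarith

theorem aw_symm (n P w : ℕ) (X S : Finset ℕ) (e ξ : ℝ) (x y : ℕ) :
    aw n P w X S e ξ x y = aw n P w X S e ξ y x := by
  unfold aw
  rw [ad_comm x y, add_comm x y]
  congr 1
  rw [← and_assoc, and_comm (a := x ∈ XC n P X), and_assoc]

theorem aw_range {n P w D : ℕ} {t μ e ξ : ℝ} {X S : Finset ℕ} (h : Prm n P w D t μ e)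
    (hξ : 0 ≤ ξ) (hξ2 : ξ ≤ 40 * Real.sqrt μ) (x y : ℕ) :
    0 ≤ aw n P w X S e ξ x y ∧ aw n P w X S e ξ x y ≤ 1001 / 1000 := by
  unfold aw
  split_ifs with hc
  · obtain ⟨hx, hy, -⟩ := hc
    rw [mem_XC6] at hx hy
    obtain ⟨a1, a2⟩ := rg6 hx.2 hy.2
    have h1 := Psi_lo h hξ hξ2 a1 a2
    have h2 := Psi_up h hξ hξ2 a1 a2
    constructor <;> linarith
  · norm_num

theorem AA_up {n P w D : ℕ} {t μ e ξ : ℝ} {X S : Finset ℕ} (h : Prm n P w D t μ e) (hL : Loc n P w t X S)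
    (hξ : 0 ≤ ξ) (hξ2 : ξ ≤ 40 * Real.sqrt μ) {x : ℕ} (hx : x ∈ XC n P X) :
    AA n P w X S e ξ x ≤ (2 * w + 1) * (Psi n P e ξ (2 * (pos n x : ℝ)) + (w : ℝ) / P) := by
  classical
  obtain ⟨hw, ht, hwP, hPn, htw, ht1, hP⟩ := basic6 h
  have hx' := (mem_XC6.mp hx).2
  have hP' : (0 : ℝ) < P := by exact_mod_cast hP
  have hpsi : 0 ≤ Psi n P e ξ (2 * (pos n x : ℝ)) := by
    have := Psi_lo h hξ hξ2 (rgp6 hx').1 (rgp6 hx').2
    linarith
  have hwP' : (w : ℝ) / (50 * P) ≤ (w : ℝ) / P := by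
    refine div_le_div_of_nonneg_left (Nat.cast_nonneg _) hP' ?_
    linarith
  have h1 : AA n P w X S e ξ x ≤ ∑ y ∈ X.filter (fun y => n ≤ x + y + w ∧ x + y ≤ n + w),
      (Psi n P e ξ (2 * (pos n x : ℝ)) + (w : ℝ) / P) := by
    unfold AA
    rw [← Finset.sum_filter_add_sum_filter_not X (fun y => n ≤ x + y + w ∧ x + y ≤ n + w)]
    have h2 : ∑ y ∈ X.filter (fun y => ¬ (n ≤ x + y + w ∧ x + y ≤ n + w)), aw n P w X S e ξ x y = 0 := by
      refine Finset.sum_eq_zero fun y hy => ?_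
      unfold aw
      rw [if_neg]
      rintro ⟨-, -, -, hc⟩
      exact (Finset.mem_filter.mp hy).2 hc
    rw [h2, add_zero]
    refine Finset.sum_le_sum fun y hy => ?_
    unfold aw
    split_ifs with hc
    · have hy' := (mem_XC6.mp hc.2.1).2
      have := near6 h hξ hξ2 hx' hy' hc.2.2.2.1 hc.2.2.2.2
      rw [abs_le] at this
      linarith [this.2]
    · positivity
  refine h1.trans ?_
  rw [Finset.sum_const, nsmul_eq_mul]
  refine mul_le_mul_of_nonneg_right ?_ (by positivity)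
  have h3 : (X.filter (fun y => n ≤ x + y + w ∧ x + y ≤ n + w)).card ≤ 2 * w + 1 := by
    refine (Finset.card_le_card (t := Icc (n - x - w) (n - x + w)) ?_).trans ?_
    · intro y hy
      obtain ⟨-, h4, h5⟩ := Finset.mem_filter.mp hy
      rw [Finset.mem_Icc]
      omega
    · rw [Nat.card_Icc]
      omega
  exact_mod_cast h3

/-- good labels in an interval -/
private theorem good6 {n P w D : ℕ} {t μ e : ℝ} {X S : Finset ℕ} (h : Prm n P w D t μ e)
    (hL : Loc n P w t X S) {x a b : ℕ} (hx : 25 * P ≤ x ∧ x + 25 * P ≤ n) (hab : a ≤ b)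
    (ha : 25 * P ≤ a) (hb : b + 25 * P ≤ n) :
    ((b : ℝ) - a + 1) - 3 * t * ((b : ℝ) - a + w) - 1 ≤
      (((Icc a b).filter fun y => y ∈ X ∧ ad x y ∈ S).card : ℝ) := by
  classical
  obtain ⟨hw, ht, hwP, hPn, htw, ht1, hP⟩ := basic6 h
  have h1 := lc_X hL hw ht hwP hPn hab (Or.inr (Or.inl ⟨by omega, by omega⟩))
  have h2 := lc_ad hL hw ht hwP hPn x hab
  have h3 : (Icc a b) ⊆ ((Icc a b).filter fun y => y ∈ X ∧ ad x y ∈ S) ∪
      (((Icc a b).filter (· ∉ X)) ∪ ((Icc a b).filter fun y => ad x y ∉ S ∧ ad x y + P ≤ n)) := by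
    intro y hy
    have hy' := Finset.mem_Icc.mp hy
    rw [Finset.mem_union, Finset.mem_union, Finset.mem_filter, Finset.mem_filter, Finset.mem_filter]
    by_cases h4 : y ∈ X
    · by_cases h5 : ad x y ∈ S
      · exact Or.inl ⟨hy, h4, h5⟩
      · refine Or.inr (Or.inr ⟨hy, h5, ?_⟩)
        unfold ad
        omega
    · exact Or.inr (Or.inl ⟨hy, h4⟩)
  have h4 := (Finset.card_le_card h3).trans ((Finset.card_union_le _ _).trans
    (Nat.add_le_add_left (Finset.card_union_le _ _) _))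
  rw [Nat.card_Icc] at h4
  have h5 : ((b + 1 - a : ℕ) : ℝ) ≤
      (((Icc a b).filter fun y => y ∈ X ∧ ad x y ∈ S).card : ℝ) +
      ((((Icc a b).filter (· ∉ X)).card : ℝ) +
      (((Icc a b).filter fun y => ad x y ∉ S ∧ ad x y + P ≤ n).card : ℝ)) := by exact_mod_cast h4
  rw [Nat.cast_sub (by omega)] at h5
  push_cast at h5
  linarith

private theorem AAge6 {n P w D : ℕ} {t μ e ξ : ℝ} {X S : Finset ℕ} (h : Prm n P w D t μ e)
    (hξ : 0 ≤ ξ) (hξ2 : ξ ≤ 40 * Real.sqrt μ) {x a b : ℕ} (hx : x ∈ XC n P X)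
    (ha : 25 * P ≤ a) (hb : b + 25 * P ≤ n) (h1 : n ≤ x + a + w) (h2 : x + b ≤ n + w) {v : ℝ}
    (hv : ∀ y, a ≤ y → y ≤ b → v ≤ Psi n P e ξ ((n : ℝ) - (ad x y : ℝ))) :
    (((Icc a b).filter fun y => y ∈ X ∧ ad x y ∈ S).card : ℝ) * v ≤ AA n P w X S e ξ x := by
  classical
  rw [← nsmul_eq_mul, ← Finset.sum_const]
  unfold AA
  refine le_trans (Finset.sum_le_sum (g := fun y => aw n P w X S e ξ x y) ?_)
    (Finset.sum_le_sum_of_subset_of_nonneg ?_ ?_)
  · intro y hy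
    obtain ⟨hy1, hy2, hy3⟩ := Finset.mem_filter.mp hy
    rw [Finset.mem_Icc] at hy1
    show v ≤ aw n P w X S e ξ x y
    unfold aw
    rw [if_pos]
    · exact hv y hy1.1 hy1.2
    · refine ⟨hx, mem_XC6.mpr ⟨hy2, by omega, by omega⟩, hy3, by omega, by omega⟩
  · intro y hy
    exact (Finset.mem_filter.mp hy).2.1
  · intro y _ _
    exact (aw_range h hξ hξ2 x y).1

theorem AA_lo {n P w D : ℕ} {t μ e ξ : ℝ} {X S : Finset ℕ} (h : Prm n P w D t μ e) (hL : Loc n P w t X S)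
    (hξ : 0 ≤ ξ) (hξ2 : ξ ≤ 40 * Real.sqrt μ) {x : ℕ} (hx : x ∈ X) (h1 : 25 * P + w ≤ x)
    (h2 : x + 25 * P + w ≤ n) :
    (2 * w + 1) * (Psi n P e ξ (2 * (pos n x : ℝ)) - (10 * t + (w : ℝ) / P)) ≤ AA n P w X S e ξ x := by
  classical
  obtain ⟨hw, ht, hwP, hPn, htw, ht1, hP⟩ := basic6 h
  have hx' : 25 * P ≤ x ∧ x + 25 * P ≤ n := by omega
  have hxC : x ∈ XC n P X := mem_XC6.mpr ⟨hx, hx'⟩
  have hP' : (0 : ℝ) < P := by exact_mod_cast hP
  have hpsi := Psi_lo h hξ hξ2 (rgp6 hx').1 (rgp6 hx').2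
  have hpsi2 := Psi_up h hξ hξ2 (rgp6 hx').1 (rgp6 hx').2
  set Ps := Psi n P e ξ (2 * (pos n x : ℝ)) with hPs
  have hwPr : (w : ℝ) / P ≤ 1 / 100 := by
    rw [div_le_iff₀ hP']
    have : (10 : ℝ) ^ 6 * w ≤ P := by exact_mod_cast hwP
    have hw0 : (0 : ℝ) ≤ w := Nat.cast_nonneg _
    linarith
  have hwP0 : 0 ≤ (w : ℝ) / P := by positivity
  have hwP50 : (w : ℝ) / (50 * P) = 1 / 50 * (w / P) := by
    field_simp
  have hG := good6 h hL hx' (a := n - x - w) (b := n - x + w) (by omega) (by omega) (by omega)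
  have hA := AAge6 (S := S) h hξ hξ2 hxC (a := n - x - w) (b := n - x + w)
    (v := Ps - w / P) (by omega) (by omega) (by omega) (by omega) (by
      intro y hy1 hy2
      have := near6 h hξ hξ2 hx' (y := y) (by omega) (by omega) (by omega)
      rw [abs_le, ← hPs, hwP50] at this
      linarith [this.1])
  refine le_trans ?_ hA
  have e1 : ((n - x + w : ℕ) : ℝ) - ((n - x - w : ℕ) : ℝ) = 2 * w := by
    have : n - x + w = n - x - w + 2 * w := by omega
    rw [this]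
    push_cast
    ring
  rw [e1] at hG
  have hv0 : 0 ≤ Ps - w / P := by linarith
  have hc : (2 * w + 1) - 10 * (t * w) ≤
      (((Icc (n - x - w) (n - x + w)).filter fun y => y ∈ X ∧ ad x y ∈ S).card : ℝ) := by
    linarith
  refine le_trans ?_ (mul_le_mul_of_nonneg_right hc hv0)
  have htw0 : 0 ≤ t * w := by positivity
  have h3 : t * w * (Ps - w / P) ≤ t * w * 2 := by
    refine mul_le_mul_of_nonneg_left ?_ htw0
    linarith
  have e2 : (2 * (w : ℝ) + 1) * (Ps - (10 * t + (w : ℝ) / P)) =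
      (2 * w + 1) * (Ps - w / P) - 20 * (t * w) - 10 * t := by ring
  have e3 : ((2 * (w : ℝ) + 1) - 10 * (t * w)) * (Ps - w / P) =
      (2 * w + 1) * (Ps - w / P) - 10 * (t * w * (Ps - w / P)) := by ring
  rw [e2, e3]
  linarith

theorem AA_min {n P w D : ℕ} {t μ e ξ : ℝ} {X S : Finset ℕ} (h : Prm n P w D t μ e) (hL : Loc n P w t X S)
    (hξ : 0 ≤ ξ) (hξ2 : ξ ≤ 40 * Real.sqrt μ) {x : ℕ} (hx : x ∈ XC n P X) :
    (w : ℝ) / 18 ≤ AA n P w X S e ξ x := by
  classical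
  obtain ⟨hw, ht, hwP, hPn, htw, ht1, hP⟩ := basic6 h
  have hx' := (mem_XC6.mp hx).2
  have hw0 : (0 : ℝ) ≤ w := Nat.cast_nonneg _
  have key : ∀ a b : ℕ, b = a + w → 25 * P ≤ a → b + 25 * P ≤ n → n ≤ x + a + w → x + b ≤ n + w →
      (w : ℝ) / 18 ≤ AA n P w X S e ξ x := by
    intro a b hab ha hb h1 h2
    have hG := good6 h hL hx' (a := a) (b := b) (by omega) ha hb
    have hA := AAge6 (S := S) h hξ hξ2 hx (a := a) (b := b) (v := 1 / 17) ha hb h1 h2 (by
      intro y hy1 hy2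
      obtain ⟨a1, a2⟩ := rg6 hx' (y := y) (by omega)
      exact Psi_lo h hξ hξ2 a1 a2)
    refine le_trans ?_ hA
    have e1 : (b : ℝ) - a = w := by rw [hab]; push_cast; ring
    rw [e1] at hG
    have h3 : t * w ≤ 1 / 1000 * w := mul_le_mul_of_nonneg_right ht1 hw0
    linarith
  rcases Nat.lt_or_ge (2 * x) n with h1 | h1
  · exact key (n - x - w) (n - x) (by omega) (by omega) (by omega) (by omega) (by omega)
  · exact key (n - x) (n - x + w) (by omega) (by omega) (by omega) (by omega) (by omega)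

/-- the pairs with weight and a given difference -/
private def prs6 (n P w : ℕ) (A X S : Finset ℕ) (s : ℕ) : Finset (ℕ × ℕ) :=
  (A ×ˢ X).filter fun q => q.1 ∈ XC n P X ∧ q.2 ∈ XC n P X ∧ ad q.1 q.2 ∈ S ∧ n ≤ q.1 + q.2 + w ∧
    q.1 + q.2 ≤ n + w ∧ ad q.1 q.2 = s

private theorem sum_prs6 (n P w : ℕ) (A X S : Finset ℕ) (e ξ : ℝ) (s : ℕ) :
    ∑ x ∈ A, ∑ y ∈ X, (if ad x y = s then aw n P w X S e ξ x y else 0) =
      ((prs6 n P w A X S s).card : ℝ) * Psi n P e ξ ((n : ℝ) - s) := by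
  classical
  rw [← Finset.sum_product' (f := fun x y => if ad x y = s then aw n P w X S e ξ x y else 0),
    ← nsmul_eq_mul, ← Finset.sum_const, prs6, Finset.sum_filter]
  refine Finset.sum_congr rfl fun q _ => ?_
  by_cases h1 : ad q.1 q.2 = s
  · rw [if_pos h1]
    unfold aw
    by_cases h2 : q.1 ∈ XC n P X ∧ q.2 ∈ XC n P X ∧ ad q.1 q.2 ∈ S ∧ n ≤ q.1 + q.2 + w ∧
        q.1 + q.2 ≤ n + w
    · rw [if_pos h2, if_pos ⟨h2.1, h2.2.1, h2.2.2.1, h2.2.2.2.1, h2.2.2.2.2, h1⟩, h1]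
    · rw [if_neg h2, if_neg fun h3 => h2 ⟨h3.1, h3.2.1, h3.2.2.1, h3.2.2.2.1, h3.2.2.2.2.1⟩]
  · rw [if_neg h1, if_neg fun h3 => h1 h3.2.2.2.2.2]

/-- total weight of the pairs with a given difference -/
theorem aw_pairs {n P w D : ℕ} {t μ e ξ : ℝ} {X S : Finset ℕ} (h : Prm n P w D t μ e) (hL : Loc n P w t X S)
    (hξ : 0 ≤ ξ) (hξ2 : ξ ≤ 40 * Real.sqrt μ) :
    (∀ s, s + 50 * P ≤ n → ∑ x ∈ X, ∑ y ∈ X, (if ad x y = s then aw n P w X S e ξ x y else 0) ≤
      (2 * w + 2) * Psi n P e ξ ((n : ℝ) - s)) ∧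
    (∀ s, n < s + 50 * P → ∑ x ∈ X, ∑ y ∈ X, (if ad x y = s then aw n P w X S e ξ x y else 0) = 0) ∧
    (∀ s ∈ S, s + 50 * P + w ≤ n → (2 * w - 8 * t * w) * Psi n P e ξ ((n : ℝ) - s) ≤
      ∑ x ∈ X, ∑ y ∈ X, (if ad x y = s then aw n P w X S e ξ x y else 0)) := by
  classical
  obtain ⟨hw, ht, hwP, hPn, htw, ht1, hP⟩ := basic6 h
  have hpos : ∀ s : ℕ, s + 50 * P ≤ n → 0 ≤ Psi n P e ξ ((n : ℝ) - s) := by
    intro s hs
    have h1 : (s : ℝ) + 50 * P ≤ n := by exact_mod_cast hs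
    have h2 : (0 : ℝ) ≤ s := Nat.cast_nonneg _
    have := Psi_lo h hξ hξ2 (s := (n : ℝ) - s) (by linarith) (by linarith)
    linarith
  refine ⟨fun s hs => ?_, fun s hs => ?_, fun s hsS hs => ?_⟩
  · rw [sum_prs6]
    refine mul_le_mul_of_nonneg_right ?_ (hpos s hs)
    have h1 : (prs6 n P w X X S s).card ≤ 2 * w + 2 := by
      have h2 : prs6 n P w X X S s ⊆
          ((Icc ((n - s - w + 1) / 2) ((n - s + w) / 2)).image fun x => (x, x + s)) ∪
          ((Icc ((n - s - w + 1) / 2) ((n - s + w) / 2)).image fun x => (x + s, x)) := by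
        rintro ⟨x, y⟩ hq
        obtain ⟨-, -, -, -, q1, q2, q3⟩ := Finset.mem_filter.mp hq
        simp only at q1 q2 q3
        unfold ad at q3
        rw [Finset.mem_union, Finset.mem_image, Finset.mem_image]
        rcases le_total x y with hxy | hxy
        · refine Or.inl ⟨x, Finset.mem_Icc.mpr (by omega), ?_⟩
          rw [Prod.mk.injEq]
          omega
        · refine Or.inr ⟨y, Finset.mem_Icc.mpr (by omega), ?_⟩
          rw [Prod.mk.injEq]
          omega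
      refine (Finset.card_le_card h2).trans ((Finset.card_union_le _ _).trans
        ((Nat.add_le_add Finset.card_image_le Finset.card_image_le).trans ?_))
      rw [Nat.card_Icc]
      omega
    exact_mod_cast h1
  · rw [sum_prs6]
    have h1 : prs6 n P w X X S s = ∅ := by
      rw [Finset.eq_empty_iff_forall_notMem]
      rintro ⟨x, y⟩ hq
      obtain ⟨-, q4, q5, -, q1, q2, q3⟩ := Finset.mem_filter.mp hq
      rw [mem_XC6] at q4 q5
      simp only at q1 q2 q3 q4 q5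
      unfold ad at q3
      omega
    rw [h1]
    simp
  · rw [sum_prs6]
    refine mul_le_mul_of_nonneg_right ?_ (hpos s (by omega))
    have hs1 : 1 ≤ s := (Finset.mem_Icc.mp (hL.S_sub hsS)).1
    obtain ⟨lo, hlo⟩ : ∃ lo, lo = (n - s - w + 1) / 2 := ⟨_, rfl⟩
    obtain ⟨hi, hhi⟩ : ∃ hi, hi = (n - s + w) / 2 := ⟨_, rfl⟩
    obtain ⟨A, hA⟩ : ∃ A : Finset ℕ, A = (Icc lo hi).filter fun x => x ∈ X ∧ x + s ∈ X := ⟨_, rfl⟩
    have h1 : (A.image fun x => (x, x + s)) ∪ (A.image fun x => (x + s, x)) ⊆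
        prs6 n P w X X S s := by
      intro q hq
      have h2 : ∀ x ∈ A, x ∈ XC n P X ∧ x + s ∈ XC n P X ∧ n ≤ 2 * x + s + w ∧
          2 * x + s ≤ n + w := by
        intro x hx
        rw [hA, Finset.mem_filter, Finset.mem_Icc] at hx
        rw [mem_XC6, mem_XC6]
        refine ⟨⟨hx.2.1, by omega, by omega⟩, ⟨hx.2.2, by omega, by omega⟩, by omega, by omega⟩
      rw [Finset.mem_union, Finset.mem_image, Finset.mem_image] at hq
      rcases hq with ⟨x, hx, rfl⟩ | ⟨x, hx, rfl⟩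
      · obtain ⟨a1, a2, a3, a4⟩ := h2 x hx
        have e1 : ad x (x + s) = s := by unfold ad; omega
        refine Finset.mem_filter.mpr ⟨Finset.mem_product.mpr ⟨(mem_XC6.mp a1).1,
          (mem_XC6.mp a2).1⟩, a1, a2, ?_, ?_, ?_, e1⟩
        · rw [e1]; exact hsS
        · simp only; omega
        · simp only; omega
      · obtain ⟨a1, a2, a3, a4⟩ := h2 x hx
        have e1 : ad (x + s) x = s := by unfold ad; omega
        refine Finset.mem_filter.mpr ⟨Finset.mem_product.mpr ⟨(mem_XC6.mp a2).1,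
          (mem_XC6.mp a1).1⟩, a2, a1, ?_, ?_, ?_, e1⟩
        · rw [e1]; exact hsS
        · simp only; omega
        · simp only; omega
    have h2 : Disjoint (A.image fun x => (x, x + s)) (A.image fun x => (x + s, x)) := by
      rw [Finset.disjoint_left]
      intro q hq1 hq2
      rw [Finset.mem_image] at hq1 hq2
      obtain ⟨x, -, rfl⟩ := hq1
      obtain ⟨y, -, hy⟩ := hq2
      rw [Prod.mk.injEq] at hy
      omega
    have h3 : 2 * A.card ≤ (prs6 n P w X X S s).card := by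
      refine le_trans ?_ (Finset.card_le_card h1)
      rw [Finset.card_union_of_disjoint h2, Finset.card_image_of_injective,
        Finset.card_image_of_injective]
      · omega
      · intro x y hxy
        simp only [Prod.mk.injEq] at hxy
        exact hxy.2
      · intro x y hxy
        simp only [Prod.mk.injEq] at hxy
        exact hxy.1
    have h4 := lc_X hL hw ht hwP hPn (a := lo) (b := hi) (by omega)
      (Or.inr (Or.inl ⟨by omega, by omega⟩))
    have h5 := lc_X hL hw ht hwP hPn (a := lo + s) (b := hi + s) (by omega)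
      (Or.inr (Or.inl ⟨by omega, by omega⟩))
    have h6 : (Icc lo hi) ⊆ A ∪ (((Icc lo hi).filter (· ∉ X)) ∪
        ((Icc lo hi).filter fun x => x + s ∉ X)) := by
      intro x hx
      rw [Finset.mem_union, Finset.mem_union, hA, Finset.mem_filter, Finset.mem_filter,
        Finset.mem_filter]
      by_cases h7 : x ∈ X
      · by_cases h8 : x + s ∈ X
        · exact Or.inl ⟨hx, h7, h8⟩
        · exact Or.inr (Or.inr ⟨hx, h8⟩)
      · exact Or.inr (Or.inl ⟨hx, h7⟩)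
    have h7 : ((Icc lo hi).filter fun x => x + s ∉ X).card ≤
        ((Icc (lo + s) (hi + s)).filter (· ∉ X)).card := by
      refine Finset.card_le_card_of_injOn (fun x => x + s) ?_ ?_
      · intro x hx
        obtain ⟨x1, x2⟩ := Finset.mem_filter.mp (Finset.mem_coe.mp hx)
        rw [Finset.mem_Icc] at x1
        refine Finset.mem_coe.mpr (Finset.mem_filter.mpr ⟨Finset.mem_Icc.mpr ?_, x2⟩)
        show lo + s ≤ x + s ∧ x + s ≤ hi + s
        omega
      · intro x _ y _ hxy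
        simpa using hxy
    have h8 := (Finset.card_le_card h6).trans ((Finset.card_union_le _ _).trans
      (Nat.add_le_add_left ((Finset.card_union_le _ _).trans (Nat.add_le_add_left h7 _)) _))
    rw [Nat.card_Icc] at h8
    have h9 : ((w : ℕ) : ℝ) ≤ (A.card : ℝ) + ((((Icc lo hi).filter (· ∉ X)).card : ℝ) +
        (((Icc (lo + s) (hi + s)).filter (· ∉ X)).card : ℝ)) := by
      have : w ≤ A.card + (((Icc lo hi).filter (· ∉ X)).card +
        ((Icc (lo + s) (hi + s)).filter (· ∉ X)).card) := by omega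
      exact_mod_cast this
    have h10 : (hi : ℝ) ≤ lo + w := by
      have : hi ≤ lo + w := by omega
      exact_mod_cast this
    have h11 : t * ((hi : ℝ) - lo + w) ≤ t * (2 * w) :=
      mul_le_mul_of_nonneg_left (by linarith) ht
    push_cast at h5
    have h12 : t * (((hi : ℝ) + s) - (lo + s) + w) ≤ t * (2 * w) :=
      mul_le_mul_of_nonneg_left (by linarith) ht
    have h13 : (2 : ℝ) * A.card ≤ ((prs6 n P w X X S s).card : ℝ) := by exact_mod_cast h3
    linarith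

/-- weights of the pairs with a given difference whose first label has a missing difference to `c` -/
theorem aw_bad {n P w D : ℕ} {t μ e ξ : ℝ} {X S : Finset ℕ} (h : Prm n P w D t μ e) (hL : Loc n P w t X S)
    (hξ : 0 ≤ ξ) (hξ2 : ξ ≤ 40 * Real.sqrt μ) {c : ℕ} (hc : Ctr n c) :
    (∀ s, ∑ x ∈ X.filter (fun x => ad c x ∉ S), ∑ y ∈ X, (if ad x y = s then aw n P w X S e ξ x y else 0) ≤
      50 * t * w) ∧
    (∀ x ∈ XC n P X, ∑ y ∈ X.filter (fun y => ad c y ∉ S), aw n P w X S e ξ x y ≤ 20 * t * w) ∧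
    (((XC n P X).filter fun x => ad c x ∉ S).card : ℝ) ≤ 3 * t * n := by
  classical
  obtain ⟨hw, ht, hwP, hPn, htw, ht1, hP⟩ := basic6 h
  obtain ⟨hc1, hc2⟩ := hc
  have hcx : ∀ x, 25 * P ≤ x → x + 25 * P ≤ n → ad c x + P ≤ n := by
    intro x hx1 hx2
    unfold ad
    omega
  have htw0 : 0 ≤ t * w := by linarith
  refine ⟨fun s => ?_, fun x hx => ?_, ?_⟩
  · rw [sum_prs6]
    rcases Nat.lt_or_ge n (s + 50 * P) with hs | hs
    · have h1 : prs6 n P w (X.filter (fun x => ad c x ∉ S)) X S s = ∅ := by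
        rw [Finset.eq_empty_iff_forall_notMem]
        rintro ⟨x, y⟩ hq
        obtain ⟨-, q4, q5, -, q1, q2, q3⟩ := Finset.mem_filter.mp hq
        rw [mem_XC6] at q4 q5
        simp only at q1 q2 q3 q4 q5
        unfold ad at q3
        omega
      rw [h1]
      simp only [Finset.card_empty, Nat.cast_zero, zero_mul]
      linarith
    obtain ⟨lo, hlo⟩ : ∃ lo, lo = (n - s - w + 1) / 2 := ⟨_, rfl⟩
    obtain ⟨hi, hhi⟩ : ∃ hi, hi = (n - s + w) / 2 := ⟨_, rfl⟩
    have h1 : prs6 n P w (X.filter (fun x => ad c x ∉ S)) X S s ⊆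
        (((Icc lo hi).filter fun x => ad c x ∉ S ∧ ad c x + P ≤ n).image fun x => (x, x + s)) ∪
        (((Icc (lo + s) (hi + s)).filter fun x => ad c x ∉ S ∧ ad c x + P ≤ n).image
          fun x => (x, x - s)) := by
      rintro ⟨x, y⟩ hq
      obtain ⟨q0, q4, q5, -, q1, q2, q3⟩ := Finset.mem_filter.mp hq
      have q6 := (Finset.mem_filter.mp (Finset.mem_product.mp q0).1).2
      rw [mem_XC6] at q4 q5
      simp only at q1 q2 q3 q4 q5 q6
      have q7 := hcx x q4.2.1 q4.2.2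
      unfold ad at q3
      rw [Finset.mem_union, Finset.mem_image, Finset.mem_image]
      rcases le_total x y with hxy | hxy
      · refine Or.inl ⟨x, Finset.mem_filter.mpr ⟨Finset.mem_Icc.mpr (by omega), q6, q7⟩, ?_⟩
        rw [Prod.mk.injEq]
        omega
      · refine Or.inr ⟨x, Finset.mem_filter.mpr ⟨Finset.mem_Icc.mpr (by omega), q6, q7⟩, ?_⟩
        rw [Prod.mk.injEq]
        omega
    have h2 := (Finset.card_le_card h1).trans ((Finset.card_union_le _ _).trans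
      (Nat.add_le_add Finset.card_image_le Finset.card_image_le))
    have h2' : ((prs6 n P w (X.filter (fun x => ad c x ∉ S)) X S s).card : ℝ) ≤
        (((Icc lo hi).filter fun x => ad c x ∉ S ∧ ad c x + P ≤ n).card : ℝ) +
        (((Icc (lo + s) (hi + s)).filter fun x => ad c x ∉ S ∧ ad c x + P ≤ n).card : ℝ) := by
      exact_mod_cast h2
    have h3 := lc_ad hL hw ht hwP hPn c (a := lo) (b := hi) (by omega)
    have h4 := lc_ad hL hw ht hwP hPn c (a := lo + s) (b := hi + s) (by omega)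
    have h10 : (hi : ℝ) ≤ lo + w := by
      have : hi ≤ lo + w := by omega
      exact_mod_cast this
    have h11 : t * ((hi : ℝ) - lo + w) ≤ t * (2 * w) :=
      mul_le_mul_of_nonneg_left (by linarith) ht
    push_cast at h4
    have h12 : t * (((hi : ℝ) + s) - (lo + s) + w) ≤ t * (2 * w) :=
      mul_le_mul_of_nonneg_left (by linarith) ht
    have hs' : (s : ℝ) + 50 * P ≤ n := by exact_mod_cast hs
    have hs0 : (0 : ℝ) ≤ s := Nat.cast_nonneg _
    have h13 := Psi_lo h hξ hξ2 (s := (n : ℝ) - s) (by linarith) (by linarith)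
    have h14 := Psi_up h hξ hξ2 (s := (n : ℝ) - s) (by linarith) (by linarith)
    have h15 : ((prs6 n P w (X.filter (fun x => ad c x ∉ S)) X S s).card : ℝ) ≤ 10 * (t * w) := by
      linarith
    calc _ ≤ (10 * (t * w)) * 2 := mul_le_mul h15 (by linarith) (by linarith) (by positivity)
      _ ≤ 50 * t * w := by linarith
  · have hx' := (mem_XC6.mp hx).2
    have h1 : ∑ y ∈ X.filter (fun y => ad c y ∉ S), aw n P w X S e ξ x y ≤
        ∑ y ∈ (Icc (n - x - w) (n - x + w)).filter (fun y => ad c y ∉ S ∧ ad c y + P ≤ n),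
          (2 : ℝ) := by
      have h2 : ∑ y ∈ X.filter (fun y => ad c y ∉ S), aw n P w X S e ξ x y =
          ∑ y ∈ (X.filter (fun y => ad c y ∉ S)).filter (fun y => y ∈ XC n P X ∧
            n ≤ x + y + w ∧ x + y ≤ n + w), aw n P w X S e ξ x y := by
        refine (Finset.sum_filter_of_ne ?_).symm
        intro y _ hy
        unfold aw at hy
        by_contra hcon
        rw [if_neg fun h3 => hcon ⟨h3.2.1, h3.2.2.2⟩] at hy
        exact hy rfl
      rw [h2]
      refine (Finset.sum_le_sum (g := fun _ => (2 : ℝ)) fun y _ => ?_).trans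
        (Finset.sum_le_sum_of_subset_of_nonneg ?_ (fun _ _ _ => by norm_num))
      · have := (aw_range (X := X) (S := S) h hξ hξ2 x y).2
        linarith
      · intro y hy
        rw [Finset.mem_filter, Finset.mem_filter] at hy
        obtain ⟨⟨-, q1⟩, q2, q3, q4⟩ := hy
        rw [mem_XC6] at q2
        exact Finset.mem_filter.mpr ⟨Finset.mem_Icc.mpr (by omega), q1, hcx y q2.2.1 q2.2.2⟩
    refine h1.trans ?_
    rw [Finset.sum_const, nsmul_eq_mul]
    have h3 := lc_ad hL hw ht hwP hPn c (a := n - x - w) (b := n - x + w) (by omega)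
    have e1 : ((n - x + w : ℕ) : ℝ) - ((n - x - w : ℕ) : ℝ) = 2 * w := by
      have : n - x + w = n - x - w + 2 * w := by omega
      rw [this]
      push_cast
      ring
    rw [e1] at h3
    linarith
  · have h1 : ((XC n P X).filter fun x => ad c x ∉ S) ⊆
        (Icc (25 * P) (n - 25 * P)).filter fun x => ad c x ∉ S ∧ ad c x + P ≤ n := by
      intro x hx
      rw [Finset.mem_filter, mem_XC6] at hx
      exact Finset.mem_filter.mpr ⟨Finset.mem_Icc.mpr (by omega), hx.2, hcx x hx.1.2.1 hx.1.2.2⟩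
    have h2 : (((XC n P X).filter fun x => ad c x ∉ S).card : ℝ) ≤
        (((Icc (25 * P) (n - 25 * P)).filter fun x => ad c x ∉ S ∧ ad c x + P ≤ n).card : ℝ) := by
      exact_mod_cast Finset.card_le_card h1
    have h3 := lc_ad hL hw ht hwP hPn c (a := 25 * P) (b := n - 25 * P) (by omega)
    have h4 : ((n - 25 * P : ℕ) : ℝ) - ((25 * P : ℕ) : ℝ) + w ≤ n := by
      have h5 : (n - 25 * P : ℕ) + w ≤ n := by omega
      have h6 : ((n - 25 * P : ℕ) : ℝ) + w ≤ n := by exact_mod_cast h5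
      have h7 : (0 : ℝ) ≤ ((25 * P : ℕ) : ℝ) := Nat.cast_nonneg _
      linarith
    have h5 : t * (((n - 25 * P : ℕ) : ℝ) - ((25 * P : ℕ) : ℝ) + w) ≤ t * n :=
      mul_le_mul_of_nonneg_left h4 ht
    have h6 : t * w ≤ t * n := by
      refine mul_le_mul_of_nonneg_left ?_ ht
      have : w ≤ n := by omega
      exact_mod_cast this
    linarith

end Pool.Agent.GRC
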