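import Pool.Agent.Helper28.GRC.KA

/-!
# GRC-KB: the chain kernel

Proof in words.  `AT = ∑_{x ∈ X} AA x`, `k x y = aw x y/AA x`, `π x = AA x/AT`, `κ = (2w+1)/AT`, `t1 = 1000 (t + w/P)`.
`AT`: upper bound `∑_{x ∈ XC} (2w+1)(Psi(2 pos x) + w/P) ≤ (2w+1)(N + (n+1) w/P)`; lower bound: sum over the `x ∈ X` with `pos x ≥ 25P+w`: `(2w+1)(Psi - 10t - w/P)` each; the other `x ∈ [25P, n-25P]`
number at most `2w + 2 + t(n + w)` and have `Psi ≤ 1.001`; so `AT ≥ (2w+1)(N - 12 t n - 3 (w/P) n)` and `|N κ - 1| ≤ 20 (t + w/P) ≤ t1/50` since `N ≥ 0.99 n`; `κ ≥ 0.99/n`, `κ ≤ 1.02/n`.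
`piUp`, `piLo`: `AA_up`, `AA_lo`.  `up`: `aw ≤ 1.001`, `AA ≥ w/18`.  `rev`: symmetry of `aw` (`AA x = 0` implies `aw x y = 0`).  `DUp`: `Dl s = (1/AT) ∑∑ aw ≤ (2w+2) Psi/AT = κ Psi (2w+2)/(2w+1)`.
`DLo`: `(2w - 8tw)/(2w+1) ≥ 1 - 10 t`.  `clZ`: `π x ≤ 1.01 κ · ...≤ 1.1/n` times `3 t n`.  `clB`: `20 t w/(w/18) = 360 t ≤ t1`.  `clD`: `50 t w/AT = 50 t w κ/(2w+1) ≤ 25 t κ`.
`low`: `∑_{x ∈ X, 25P+w ≤ x ≤ 0.3 n} κ (Psi(2x) - 10t - w/P)`, `Psi (2x) ≥ 1 - √(22P/x) - 0` for `2x ≤ 0.6 n` (`eta(x) = 0`, `Bf ≥ 0`, `lin = 0`), `∑_{x ≤ 0.3n} √(22P/x) ≤ 2 √(22 P · 0.3 n) ≤ 0.001 n`.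
-/

set_option autoImplicit false

namespace Pool.Agent.GRC

open Finset

section aux53

private theorem pos_XC53 {n P x : ℕ} {X : Finset ℕ} (hx : x ∈ XC n P X) :
    50 * (P : ℝ) ≤ 2 * (pos n x : ℝ) ∧ 2 * (pos n x : ℝ) ≤ n := by
  unfold XC at hx
  rw [mem_filter] at hx
  have h1 : 25 * P ≤ pos n x := by unfold pos; omega
  have h2 : 2 * pos n x ≤ n := by unfold pos; omega
  constructor
  · have : (25 * P : ℝ) ≤ pos n x := by exact_mod_cast h1
    linarith
  · exact_mod_cast h2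

private theorem aw_zero53 {n P w : ℕ} {X S : Finset ℕ} {e ξ : ℝ} {x y : ℕ}
    (h : aw n P w X S e ξ x y ≠ 0) :
    x ∈ XC n P X ∧ y ∈ XC n P X ∧ ad x y ∈ S ∧ n ≤ x + y + w ∧ x + y ≤ n + w := by
  by_contra hc
  apply h
  unfold aw
  rw [if_neg hc]

private theorem AA_nonneg53 {n P w D : ℕ} {t μ e ξ : ℝ} {X S : Finset ℕ} (h : Prm n P w D t μ e)
    (hξ : 0 ≤ ξ) (hξ2 : ξ ≤ 40 * Real.sqrt μ) (x : ℕ) : 0 ≤ AA n P w X S e ξ x :=
  Finset.sum_nonneg fun y _ => (aw_range h hξ hξ2 x y).1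

private theorem AA_zero53 {n P w : ℕ} {X S : Finset ℕ} {e ξ : ℝ} {x : ℕ}
    (hx : x ∉ XC n P X) : AA n P w X S e ξ x = 0 := by
  unfold AA
  refine Finset.sum_eq_zero fun y _ => ?_
  by_contra hc
  exact hx (aw_zero53 hc).1

/-- the total mass -/
private noncomputable def AT53 (n P w : ℕ) (X S : Finset ℕ) (e ξ : ℝ) : ℝ :=
  ∑ x ∈ X, AA n P w X S e ξ x

private theorem AT_up53 {n P w D : ℕ} {t μ e ξ N : ℝ} {X S : Finset ℕ} (h : Prm n P w D t μ e)
    (hL : Loc n P w t X S) (hξ : 0 ≤ ξ) (hξ2 : ξ ≤ 40 * Real.sqrt μ)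
    (hN : ∑ x ∈ Icc (25 * P) (n - 25 * P), Psi n P e ξ (2 * (pos n x : ℝ)) = N) :
    AT53 n P w X S e ξ ≤ (2 * w + 1) * (N + n * ((w : ℝ) / P)) := by
  obtain ⟨c1, c2, c3, c4, c5, c6, c7⟩ := Prm_cons h
  have hP : 0 < P := by omega
  have hPr : (0 : ℝ) < P := by exact_mod_cast hP
  have hwP : (0 : ℝ) ≤ (w : ℝ) / P := by positivity
  have e1 : AT53 n P w X S e ξ = ∑ x ∈ XC n P X, AA n P w X S e ξ x := by
    unfold AT53
    symm
    refine Finset.sum_subset (by unfold XC; exact filter_subset _ _) fun x _ hx => AA_zero53 hx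
  have hsub : XC n P X ⊆ Icc (25 * P) (n - 25 * P) := by
    intro x hx
    unfold XC at hx
    rw [mem_filter] at hx
    rw [mem_Icc]; omega
  have hsub2 : ∀ x ∈ Icc (25 * P) (n - 25 * P), 50 * (P : ℝ) ≤ 2 * (pos n x : ℝ) ∧ 2 * (pos n x : ℝ) ≤ n := by
    intro x hx
    rw [mem_Icc] at hx
    have h1 : 25 * P ≤ pos n x := by unfold pos; omega
    have h2 : 2 * pos n x ≤ n := by unfold pos; omega
    constructor
    · have : (25 * P : ℝ) ≤ pos n x := by exact_mod_cast h1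
      linarith
    · exact_mod_cast h2
  have hcard : ((Icc (25 * P) (n - 25 * P)).card : ℝ) ≤ n := by
    rw [Nat.card_Icc]
    have : n - 25 * P + 1 - 25 * P ≤ n := by omega
    exact_mod_cast this
  calc AT53 n P w X S e ξ = ∑ x ∈ XC n P X, AA n P w X S e ξ x := e1
    _ ≤ ∑ x ∈ XC n P X, (2 * w + 1) * (Psi n P e ξ (2 * (pos n x : ℝ)) + (w : ℝ) / P) :=
      Finset.sum_le_sum fun x hx => AA_up h hL hξ hξ2 hx
    _ ≤ ∑ x ∈ Icc (25 * P) (n - 25 * P), (2 * w + 1) * (Psi n P e ξ (2 * (pos n x : ℝ)) + (w : ℝ) / P) := by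
      refine Finset.sum_le_sum_of_subset_of_nonneg hsub fun x hx _ => ?_
      have h3 := hsub2 x hx
      have := Psi_lo h hξ hξ2 h3.1 h3.2
      positivity
    _ = (2 * w + 1) * (N + (Icc (25 * P) (n - 25 * P)).card * ((w : ℝ) / P)) := by
      rw [← Finset.mul_sum, Finset.sum_add_distrib, hN, Finset.sum_const, nsmul_eq_mul]
    _ ≤ (2 * w + 1) * (N + n * ((w : ℝ) / P)) := by
      gcongr

private theorem AT_lo53 {n P w D : ℕ} {t μ e ξ N : ℝ} {X S : Finset ℕ} (h : Prm n P w D t μ e)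
    (hL : Loc n P w t X S) (hξ : 0 ≤ ξ) (hξ2 : ξ ≤ 40 * Real.sqrt μ)
    (hN : ∑ x ∈ Icc (25 * P) (n - 25 * P), Psi n P e ξ (2 * (pos n x : ℝ)) = N) :
    (2 * w + 1) * (N - 12 * n * (t + (w : ℝ) / P)) ≤ AT53 n P w X S e ξ := by
  obtain ⟨c1, c2, c3, c4, c5, c6, c7⟩ := Prm_cons h
  have hP : 0 < P := by omega
  have hPr : (0 : ℝ) < P := by exact_mod_cast hP
  have hn : (0 : ℝ) < n := by exact_mod_cast h.hn
  have ht := h.t0
  have hwP : (0 : ℝ) ≤ (w : ℝ) / P := by positivity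
  set I := Icc (25 * P) (n - 25 * P) with hI
  set J := X.filter (fun x => 25 * P + w ≤ x ∧ x + 25 * P + w ≤ n) with hJ
  have hJI : J ⊆ I := by
    intro x hx
    rw [hJ, mem_filter] at hx
    rw [hI, mem_Icc]; omega
  have hsub2 : ∀ x ∈ I, 50 * (P : ℝ) ≤ 2 * (pos n x : ℝ) ∧ 2 * (pos n x : ℝ) ≤ n := by
    intro x hx
    rw [hI, mem_Icc] at hx
    have h1 : 25 * P ≤ pos n x := by unfold pos; omega
    have h2 : 2 * pos n x ≤ n := by unfold pos; omega
    constructor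
    · have : (25 * P : ℝ) ≤ pos n x := by exact_mod_cast h1
      linarith
    · exact_mod_cast h2
  have hcardJ : (J.card : ℝ) ≤ n := by
    have h1 : J.card ≤ I.card := card_le_card hJI
    rw [hI, Nat.card_Icc] at h1
    have : J.card ≤ n := by omega
    exact_mod_cast this
  -- the missing part
  have hmiss : ((I \ J).card : ℝ) ≤ 2 * w + t * n := by
    have hs : I \ J ⊆ (I.filter (· ∉ X)) ∪ (Ico (25 * P) (25 * P + w) ∪ Ioc (n - 25 * P - w) (n - 25 * P)) := by
      intro x hx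
      rw [mem_sdiff, hI, mem_Icc, hJ, mem_filter] at hx
      rw [mem_union, mem_union, mem_filter, hI, mem_Icc, mem_Ico, mem_Ioc]
      by_cases hX : x ∈ X
      · right
        have : ¬ (25 * P + w ≤ x ∧ x + 25 * P + w ≤ n) := fun h => hx.2 ⟨hX, h⟩
        omega
      · left
        exact ⟨hx.1, hX⟩
    have h1 := card_le_card hs
    have h2 := (card_union_le (I.filter (· ∉ X)) (Ico (25 * P) (25 * P + w) ∪ Ioc (n - 25 * P - w) (n - 25 * P)))
    have h3 := card_union_le (Ico (25 * P) (25 * P + w)) (Ioc (n - 25 * P - w) (n - 25 * P))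
    rw [Nat.card_Ico, Nat.card_Ioc] at h3
    have h4 : (I \ J).card ≤ (I.filter (· ∉ X)).card + 2 * w := by omega
    have h5 : ((I.filter (· ∉ X)).card : ℝ) ≤ t * (((n - 25 * P : ℕ) : ℝ) - ((25 * P : ℕ) : ℝ) + w) := by
      refine lc_X hL h.w0 ht.le (by omega) (by omega) (by omega) ?_
      unfold FreeW; right; left; omega
    have h6 : (((n - 25 * P : ℕ) : ℝ) - ((25 * P : ℕ) : ℝ) + w) ≤ n := by
      have e1 : ((n - 25 * P : ℕ) : ℝ) = n - 25 * P := by
        rw [Nat.cast_sub (by omega)]; push_cast; ring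
      rw [e1]; push_cast
      have : (w : ℝ) ≤ P := by
        have : w ≤ P := by omega
        exact_mod_cast this
      linarith
    have h7 : ((I \ J).card : ℝ) ≤ (I.filter (· ∉ X)).card + 2 * w := by exact_mod_cast h4
    have h8 := mul_le_mul_of_nonneg_left h6 ht.le
    linarith
  have hw2 : 2 * (w : ℝ) ≤ 1 / 1000 * (n * ((w : ℝ) / P)) := by
    have h1 : (2000 * P : ℝ) ≤ n := by
      have : 2000 * P ≤ n := by omega
      exact_mod_cast this
    have h2 : (w : ℝ) = P * ((w : ℝ) / P) := by field_simp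
    have h3 := mul_le_mul_of_nonneg_right h1 hwP
    nlinarith
  have hsumI : ∑ x ∈ J, Psi n P e ξ (2 * (pos n x : ℝ)) = N - ∑ x ∈ I \ J, Psi n P e ξ (2 * (pos n x : ℝ)) := by
    rw [← hN, ← Finset.sum_sdiff hJI]; ring
  have hsumM : ∑ x ∈ I \ J, Psi n P e ξ (2 * (pos n x : ℝ)) ≤ (I \ J).card * (1001 / 1000) := by
    rw [← nsmul_eq_mul]
    refine Finset.sum_le_card_nsmul _ _ _ fun x hx => ?_
    have h3 := hsub2 x (mem_sdiff.mp hx).1
    exact Psi_up h hξ hξ2 h3.1 h3.2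
  calc (2 * w + 1) * (N - 12 * n * (t + (w : ℝ) / P))
      ≤ (2 * w + 1) * (∑ x ∈ J, (Psi n P e ξ (2 * (pos n x : ℝ)) - (10 * t + (w : ℝ) / P))) := by
        refine mul_le_mul_of_nonneg_left ?_ (by positivity)
        rw [Finset.sum_sub_distrib, hsumI, Finset.sum_const, nsmul_eq_mul]
        have h9 : (J.card : ℝ) * (10 * t + (w : ℝ) / P) ≤ n * (10 * t + (w : ℝ) / P) :=
          mul_le_mul_of_nonneg_right hcardJ (by positivity)
        have h10 : 0 ≤ n * ((w : ℝ) / P) := by positivity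
        have h11 : 0 ≤ t * n := by positivity
        nlinarith
    _ = ∑ x ∈ J, (2 * w + 1) * (Psi n P e ξ (2 * (pos n x : ℝ)) - (10 * t + (w : ℝ) / P)) := by
        rw [Finset.mul_sum]
    _ ≤ ∑ x ∈ J, AA n P w X S e ξ x := by
        refine Finset.sum_le_sum fun x hx => ?_
        rw [hJ, mem_filter] at hx
        exact AA_lo h hL hξ hξ2 hx.1 hx.2.1 hx.2.2
    _ ≤ AT53 n P w X S e ξ := by
        unfold AT53
        exact Finset.sum_le_sum_of_subset_of_nonneg (filter_subset _ _) fun x _ _ => AA_nonneg53 h hξ hξ2 x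

/-- bounds for `κ` and `N κ` -/
private theorem AT_facts53 {n P w D : ℕ} {t μ e ξ N : ℝ} {X S : Finset ℕ} (h : Prm n P w D t μ e)
    (hL : Loc n P w t X S) (hξ : 0 ≤ ξ) (hξ2 : ξ ≤ 40 * Real.sqrt μ)
    (hN : ∑ x ∈ Icc (25 * P) (n - 25 * P), Psi n P e ξ (2 * (pos n x : ℝ)) = N)
    (hN1 : 99 / 100 * (n : ℝ) ≤ N) (hN2 : N ≤ n) :
    0 < AT53 n P w X S e ξ ∧ (2 * w + 1) / AT53 n P w X S e ξ ≤ 102 / 100 / n ∧
    99 / 100 / n ≤ (2 * w + 1) / AT53 n P w X S e ξ ∧
    |N * ((2 * w + 1) / AT53 n P w X S e ξ) - 1| ≤ 20 * (t + w / P) ∧ t + (w : ℝ) / P ≤ 1 / 10 ^ 6 := by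
  obtain ⟨c1, c2, c3, c4, c5, c6, c7⟩ := Prm_cons h
  have hup := AT_up53 h hL hξ hξ2 hN
  have hlo := AT_lo53 h hL hξ hξ2 hN
  have hn : (0 : ℝ) < n := by exact_mod_cast h.hn
  have hP : 0 < P := by omega
  have hPr : (0 : ℝ) < P := by exact_mod_cast hP
  have ht := h.t0
  have hwP : (0 : ℝ) ≤ (w : ℝ) / P := by positivity
  have hsm : t + (w : ℝ) / P ≤ 1 / 10 ^ 6 := by
    have h1 := h.small
    have h2 : (10 ^ 5 : ℝ) ≤ D := by exact_mod_cast h.D1
    have h3 : 10 ^ 9 * (10 ^ 5 : ℝ) * (t + w / P) ≤ 10 ^ 9 * D * (t + w / P) := by gcongr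
    have h4 : 10 ^ 9 * (10 ^ 5 : ℝ) * (t + w / P) ≤ 1 / 10 ^ 9 := h3.trans (h1.trans c1)
    nlinarith
  set A := AT53 n P w X S e ξ with hA
  set T := t + (w : ℝ) / P with hT
  have hT0 : 0 < T := by positivity
  have hw1 : (0 : ℝ) < 2 * w + 1 := by positivity
  have hTn : n * T ≤ n * (1 / 10 ^ 6) := mul_le_mul_of_nonneg_left hsm hn.le
  have hA1 : (2 * w + 1) * (98 / 100 * n) ≤ A + (2 * w + 1) * (-(1/1000 * n)) + (2 * w + 1) * (1/1000 * n) := by
    have : (2 * w + 1) * (98 / 100 * n) ≤ (2 * w + 1) * (N - 12 * n * T) := by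
      apply mul_le_mul_of_nonneg_left _ hw1.le
      nlinarith
    nlinarith
  have hA1' : (2 * w + 1) * ((985 : ℝ) / 1000 * n) ≤ A := by
    have : (2 * w + 1) * ((985 : ℝ) / 1000 * n) ≤ (2 * w + 1) * (N - 12 * n * T) := by
      apply mul_le_mul_of_nonneg_left _ hw1.le
      nlinarith
    linarith
  have hA0 : 0 < A := lt_of_lt_of_le (by positivity) hA1'
  have hA2 : A ≤ (2 * w + 1) * ((1001 : ℝ) / 1000 * n) := by
    refine hup.trans ?_
    apply mul_le_mul_of_nonneg_left _ hw1.le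
    have : n * ((w : ℝ) / P) ≤ n * (1 / 10 ^ 6) := mul_le_mul_of_nonneg_left (by linarith) hn.le
    nlinarith
  refine ⟨hA0, ?_, ?_, ?_, hsm⟩
  · rw [div_le_div_iff₀ hA0 hn]
    nlinarith
  · rw [div_le_div_iff₀ hn hA0]
    nlinarith
  · have e1 : N * ((2 * w + 1) / A) - 1 = (N * (2 * w + 1) - A) / A := by field_simp
    rw [e1, abs_div, abs_of_pos hA0, div_le_iff₀ hA0, abs_le]
    have h5 : (2 * w + 1) * (12 * n * T) ≤ 20 * T * A := by
      have := mul_le_mul_of_nonneg_left hA1' (by positivity : (0:ℝ) ≤ 20 * T)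
      nlinarith [mul_pos (mul_pos hw1 hn) hT0]
    have h6 : (2 * w + 1) * (n * ((w : ℝ) / P)) ≤ (2 * w + 1) * (12 * n * T) := by
      apply mul_le_mul_of_nonneg_left _ hw1.le
      nlinarith
    constructor
    · nlinarith
    · nlinarith

end aux53

theorem kr_exists {n P w D : ℕ} {t μ e ξ N : ℝ} {X S : Finset ℕ} (h : Prm n P w D t μ e) (hL : Loc n P w t X S)
    (hξ : 0 ≤ ξ) (hξ2 : ξ ≤ 40 * Real.sqrt μ)
    (hN : ∑ x ∈ Icc (25 * P) (n - 25 * P), Psi n P e ξ (2 * (pos n x : ℝ)) = N)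
    (hN1 : 99 / 100 * (n : ℝ) ≤ N) (hN2 : N ≤ n) :
    ∃ (k : ℕ → ℕ → ℝ) (π : ℕ → ℝ) (κ : ℝ), Kr n P w X S e ξ (1000 * (t + w / P)) κ N k π := by
  obtain ⟨c1, c2, c3, c4, c5, c6, c7⟩ := Prm_cons h
  obtain ⟨hA0, hk1, hk2, hkN, hsm⟩ := AT_facts53 h hL hξ hξ2 hN hN1 hN2
  have hn : (0 : ℝ) < n := by exact_mod_cast h.hn
  have hP : 0 < P := by omega
  have hPr : (0 : ℝ) < P := by exact_mod_cast hP
  have ht := h.t0
  have hw : (0 : ℝ) < w := by exact_mod_cast h.w0
  have hwP : (0 : ℝ) ≤ (w : ℝ) / P := by positivity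
  set A := AT53 n P w X S e ξ with hA
  set T := t + (w : ℝ) / P with hT
  have hT0 : 0 < T := by positivity
  have htT : t ≤ T := by linarith
  have hwT : (w : ℝ) / P ≤ T := by linarith
  set κ := (2 * w + 1) / A with hκ
  have hκ0 : 0 < κ := by positivity
  set k : ℕ → ℕ → ℝ := fun x y => aw n P w X S e ξ x y / AA n P w X S e ξ x with hk
  set π : ℕ → ℝ := fun x => AA n P w X S e ξ x / A with hπ
  have aw0 : ∀ x y, 0 ≤ aw n P w X S e ξ x y := fun x y => (aw_range h hξ hξ2 x y).1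
  have AA0 : ∀ x, 0 ≤ AA n P w X S e ξ x := AA_nonneg53 h hξ hξ2
  have AApos : ∀ x ∈ XC n P X, 0 < AA n P w X S e ξ x := fun x hx =>
    lt_of_lt_of_le (by positivity) (AA_min h hL hξ hξ2 hx)
  -- `π x * k x y = aw x y / A`
  have πk : ∀ x y, π x * k x y = aw n P w X S e ξ x y / A := by
    intro x y
    by_cases hx : x ∈ XC n P X
    · have := AApos x hx
      simp only [hk, hπ]
      field_simp
    · have e1 : aw n P w X S e ξ x y = 0 := by
        by_contra hc; exact hx (aw_zero53 hc).1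
      simp only [hk, hπ, e1, zero_div, mul_zero]
  have Dleq : ∀ s, Dl X k π s = (∑ x ∈ X, ∑ y ∈ X, if ad x y = s then aw n P w X S e ξ x y else 0) / A := by
    intro s
    unfold Dl
    rw [Finset.sum_div]
    refine Finset.sum_congr rfl fun x _ => ?_
    rw [Finset.sum_div]
    refine Finset.sum_congr rfl fun y _ => ?_
    split_ifs with h1
    · exact πk x y
    · rw [zero_div]
  have piU : ∀ x ∈ XC n P X, π x ≤ κ * (Psi n P e ξ (2 * (pos n x : ℝ)) + (w : ℝ) / P) := by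
    intro x hx
    have h1 := AA_up h hL hξ hξ2 hx
    simp only [hπ, hκ]
    rw [div_mul_eq_mul_div]
    exact div_le_div_of_nonneg_right h1 hA0.le
  have piL : ∀ x ∈ X, 25 * P + w ≤ x → x + 25 * P + w ≤ n →
      κ * (Psi n P e ξ (2 * (pos n x : ℝ)) - (10 * t + (w : ℝ) / P)) ≤ π x := by
    intro x hx h1 h2
    have h3 := AA_lo h hL hξ hξ2 hx h1 h2
    simp only [hπ, hκ]
    rw [div_mul_eq_mul_div]
    exact div_le_div_of_nonneg_right h3 hA0.le
  have pi1 : ∀ x ∈ XC n P X, π x ≤ 11 / 10 / n := by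
    intro x hx
    have h1 := piU x hx
    obtain ⟨h2, h3⟩ := pos_XC53 hx
    have h4 := Psi_up h hξ hξ2 h2 h3
    have h5 : κ * (Psi n P e ξ (2 * (pos n x : ℝ)) + (w : ℝ) / P) ≤ 102 / 100 / n * (1002 / 1000) := by
      apply mul_le_mul hk1 (by linarith) _ (by positivity)
      have := Psi_lo h hξ hξ2 h2 h3
      positivity
    refine h1.trans (h5.trans ?_)
    rw [div_mul_eq_mul_div]
    gcongr
    norm_num
  have pi0 : ∀ x, 0 ≤ π x := fun x => div_nonneg (AA0 x) hA0.le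
  have piz : ∀ x, x ∉ XC n P X → π x = 0 := by
    intro x hx
    simp only [hπ]
    rw [AA_zero53 hx, zero_div]
  -- central part
  have piC : ∀ x ∈ X, n ≤ 1000 * pos n x → 10 * pos n x ≤ 3 * n → 98 / 100 / n ≤ π x := by
    intro x hx h1 h2
    have h3 : 25 * P + w ≤ x := by unfold pos at h1; omega
    have h4 : x + 25 * P + w ≤ n := by unfold pos at h1; omega
    refine le_trans ?_ (piL x hx h3 h4)
    have hs1 : (n : ℝ) ≤ 1000 * pos n x := by exact_mod_cast h1
    have hs2 : 10 * (pos n x : ℝ) ≤ 3 * n := by exact_mod_cast h2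
    have hpsi : 999 / 1000 ≤ Psi n P e ξ (2 * (pos n x : ℝ)) := by
      have e1 : 2 * (pos n x : ℝ) / 2 = pos n x := by ring
      have e2 : eta n (pos n x : ℝ) = 0 := by
        apply eta_zero h.hn
        rw [abs_of_nonpos (by linarith)]
        linarith
      have e3 : lin n (2 * (pos n x : ℝ)) = 0 := by
        unfold lin cl01
        have : 100 * (2 * (pos n x : ℝ) / n) - 69 ≤ 0 := by
          rw [sub_nonpos, mul_div_assoc', div_le_iff₀ hn]
          linarith
        rw [min_eq_right (by linarith), max_eq_left this]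
      have e4 := Bf_nonneg n (pos n x : ℝ)
      have e5 : 999 / 1000 ≤ phi P (2 * (pos n x : ℝ)) := by
        unfold phi
        have h5 : 44 * (P : ℝ) / (2 * (pos n x : ℝ)) ≤ (1 / 1000) ^ 2 := by
          have h6 : (10 ^ 18 * P : ℝ) ≤ n := by exact_mod_cast c3
          have h7 : (0 : ℝ) < pos n x := by linarith
          rw [div_le_iff₀ (by linarith)]
          nlinarith
        have h6 : Real.sqrt (44 * (P : ℝ) / (2 * (pos n x : ℝ))) ≤ 1 / 1000 := by
          rw [show (1 / 1000 : ℝ) = Real.sqrt ((1 / 1000) ^ 2) by rw [Real.sqrt_sq (by norm_num)]]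
          exact Real.sqrt_le_sqrt h5
        linarith
      unfold Psi
      rw [e1, e2, e3]
      have := h.e0
      nlinarith [mul_nonneg this.le e4]
    have h5 : 99 / 100 / n * (998 / 1000) ≤ κ * (Psi n P e ξ (2 * (pos n x : ℝ)) - (10 * t + (w : ℝ) / P)) := by
      apply mul_le_mul hk2 (by linarith) (by norm_num) hκ0.le
    refine le_trans ?_ h5
    rw [div_mul_eq_mul_div]
    gcongr
    norm_num
  have cnt : ∀ a b : ℕ, n ≤ 1000 * a → 1000 * b ≤ 999 * n → 1000 * (b + 1 - a) + 2000 ≥ 299 * n →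
      ∀ F : Finset ℕ, (∀ x, a ≤ x → x ≤ b → x ∈ X → x ∈ F) → F ⊆ X → (∀ x, a ≤ x → x ≤ b → 10 * pos n x ≤ 3 * n) →
      28 / 100 ≤ ∑ x ∈ F, π x := by
    intro a b ha hb hab F hF hFX hpos
    have hab2 : a ≤ b := by omega
    have h1 : (((Icc a b).filter (· ∉ X)).card : ℝ) ≤ t * ((b : ℝ) - a + w) := by
      refine lc_X hL h.w0 ht.le (by omega) (by omega) hab2 ?_
      unfold FreeW; right; left; omega
    have hsub : (Icc a b).filter (· ∈ X) ⊆ F := by
      intro x hx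
      rw [mem_filter, mem_Icc] at hx
      exact hF x hx.1.1 hx.1.2 hx.2
    have h2 := Finset.card_filter_add_card_filter_not (s := Icc a b) (· ∈ X)
    rw [Nat.card_Icc] at h2
    have h3 : ((b : ℝ) - a + w) ≤ n := by
      have : b + w ≤ n + a := by omega
      have : (b : ℝ) + w ≤ n + a := by exact_mod_cast this
      linarith
    have h4 : t * ((b : ℝ) - a + w) ≤ 1 / 10 ^ 6 * n := by
      have := mul_le_mul_of_nonneg_left h3 ht.le
      have h5 : t * n ≤ 1 / 10 ^ 6 * n := mul_le_mul_of_nonneg_right (by linarith) hn.le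
      linarith
    have h5 : (299 : ℝ) / 1000 * n - 2 ≤ ((b + 1 - a : ℕ) : ℝ) := by
      have : (299 * n : ℝ) ≤ 1000 * ((b + 1 - a : ℕ) : ℝ) + 2000 := by exact_mod_cast hab
      linarith
    have h6 : ((b + 1 - a : ℕ) : ℝ) = ((Icc a b).filter (· ∈ X)).card + ((Icc a b).filter (· ∉ X)).card := by
      rw [← h2]; push_cast; ring
    have hn2 : (10 ^ 18 : ℝ) ≤ n := by
      have : 10 ^ 18 ≤ n := by
        have : 1 ≤ P := hP
        nlinarith
      exact_mod_cast this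
    have h7 : 298 / 1000 * (n : ℝ) ≤ ((Icc a b).filter (· ∈ X)).card := by
      linarith
    calc (28 : ℝ) / 100 ≤ 298 / 1000 * n * (98 / 100 / n) := by
          field_simp; norm_num
      _ ≤ ((Icc a b).filter (· ∈ X)).card * (98 / 100 / n) :=
          mul_le_mul_of_nonneg_right h7 (by positivity)
      _ = ((Icc a b).filter (· ∈ X)).card • (98 / 100 / (n : ℝ)) := by rw [nsmul_eq_mul]
      _ ≤ ∑ x ∈ (Icc a b).filter (· ∈ X), π x := by
          refine Finset.card_nsmul_le_sum _ _ _ fun x hx => ?_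
          rw [mem_filter, mem_Icc] at hx
          refine piC x hx.2 ?_ (hpos x hx.1.1 hx.1.2)
          unfold pos; omega
      _ ≤ ∑ x ∈ F, π x := Finset.sum_le_sum_of_subset_of_nonneg hsub fun x _ _ => pi0 x
  refine ⟨k, π, κ, ?_⟩
  constructor
  case knn => exact fun x y => div_nonneg (aw0 x y) (AA0 x)
  case pnn => exact pi0
  case psupp =>
    intro x hx
    by_contra hc
    exact hx (piz x hc)
  case ksupp =>
    intro x y hxy
    refine aw_zero53 (e := e) (ξ := ξ) ?_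
    intro hc
    apply hxy
    simp only [hk]
    rw [hc, zero_div]
  case one =>
    intro x hx
    simp only [hk]
    rw [← Finset.sum_div]
    exact div_self (AApos x hx).ne'
  case up =>
    intro x y
    by_cases hx : x ∈ XC n P X
    · have h1 := AA_min h hL hξ hξ2 hx
      have h2 := (aw_range h hξ hξ2 x y (X := X) (S := S)).2
      have h3 := AApos x hx
      simp only [hk]
      rw [div_le_div_iff₀ h3 hw]
      nlinarith
    · have e1 : aw n P w X S e ξ x y = 0 := by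
        by_contra hc; exact hx (aw_zero53 hc).1
      simp only [hk, e1, zero_div]
      positivity
  case tot =>
    simp only [hπ]
    rw [← Finset.sum_div]
    exact div_self hA0.ne'
  case piUp =>
    intro x hx
    refine (piU x hx).trans ?_
    apply mul_le_mul_of_nonneg_left _ hκ0.le
    linarith
  case piLo =>
    intro x hx h1 h2
    refine le_trans ?_ (piL x hx h1 h2)
    apply mul_le_mul_of_nonneg_left _ hκ0.le
    linarith
  case rev =>
    intro x y
    rw [πk, πk, aw_symm]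
  case DUp =>
    intro s hs
    rw [Dleq, div_le_iff₀ hA0]
    refine ((aw_pairs h hL hξ hξ2).1 s hs).trans ?_
    have e1 : κ * (Psi n P e ξ ((n : ℝ) - s) + 1000 * T) * A =
        (2 * w + 1) * (Psi n P e ξ ((n : ℝ) - s) + 1000 * T) := by
      simp only [hκ]; field_simp
    rw [e1]
    have hs2 : (s : ℝ) + 50 * P ≤ n := by exact_mod_cast hs
    have h1 := Psi_up h hξ hξ2 (s := (n : ℝ) - s) (by linarith) (by linarith [(Nat.cast_nonneg s : (0:ℝ) ≤ s)])
    have h2 := h.tw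
    nlinarith
  case DLo =>
    intro s hs hs3
    rw [Dleq, le_div_iff₀ hA0]
    refine le_trans ?_ ((aw_pairs h hL hξ hξ2).2.2 s hs hs3)
    have e1 : κ * (Psi n P e ξ ((n : ℝ) - s) - 1000 * T) * A =
        (2 * w + 1) * (Psi n P e ξ ((n : ℝ) - s) - 1000 * T) := by
      simp only [hκ]; field_simp
    rw [e1]
    have hs2 : (s : ℝ) + 50 * P + w ≤ n := by exact_mod_cast hs3
    have h1 := Psi_up h hξ hξ2 (s := (n : ℝ) - s) (by linarith) (by linarith [(Nat.cast_nonneg s : (0:ℝ) ≤ s)])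
    have h1' := Psi_lo h hξ hξ2 (s := (n : ℝ) - s) (by linarith) (by linarith [(Nat.cast_nonneg s : (0:ℝ) ≤ s)])
    have h2 := h.tw
    have h3 : (1 + 8 * t * w) * Psi n P e ξ ((n : ℝ) - s) ≤ (9 * (t * w)) * (1001 / 1000) := by
      apply mul_le_mul (by linarith) h1 (by linarith) (by positivity)
    have h4 : (t * w) * 1 ≤ T * w := by nlinarith
    nlinarith
  case DZ =>
    intro s hs
    rw [Dleq, (aw_pairs h hL hξ hξ2).2.1 s hs, zero_div]
  case kpos => exact hκ0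
  case kN =>
    refine hkN.trans ?_
    nlinarith
  case clZ =>
    intro c hc
    have h1 := (aw_bad h hL hξ hξ2 hc).2.2
    calc ∑ x ∈ X.filter (fun x => ad c x ∉ S), π x
        = ∑ x ∈ (XC n P X).filter (fun x => ad c x ∉ S), π x := by
          symm
          refine Finset.sum_subset ?_ ?_
          · intro x hx
            rw [mem_filter] at hx ⊢
            refine ⟨?_, hx.2⟩
            have := hx.1
            unfold XC at this
            exact (mem_filter.mp this).1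
          · intro x hx hx2
            apply piz
            intro hx3
            exact hx2 (mem_filter.mpr ⟨hx3, (mem_filter.mp hx).2⟩)
      _ ≤ ((XC n P X).filter (fun x => ad c x ∉ S)).card • (11 / 10 / (n : ℝ)) :=
          Finset.sum_le_card_nsmul _ _ _ fun x hx => pi1 x (mem_filter.mp hx).1
      _ = ((XC n P X).filter (fun x => ad c x ∉ S)).card * (11 / 10 / (n : ℝ)) := by rw [nsmul_eq_mul]
      _ ≤ 3 * t * n * (11 / 10 / (n : ℝ)) := mul_le_mul_of_nonneg_right h1 (by positivity)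
      _ = 33 / 10 * t := by field_simp; norm_num
      _ ≤ 1000 * T := by linarith
  case clB =>
    intro c hc x hx
    have h1 := (aw_bad h hL hξ hξ2 hc).2.1 x hx
    have h2 := AA_min h hL hξ hξ2 hx
    simp only [hk]
    rw [← Finset.sum_div, div_le_iff₀ (AApos x hx)]
    refine h1.trans ?_
    have h3 := mul_le_mul_of_nonneg_left h2 (by positivity : (0:ℝ) ≤ 1000 * T)
    nlinarith [mul_pos ht hw]
  case clD =>
    intro c hc s
    have h1 := (aw_bad h hL hξ hξ2 hc).1 s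
    have e2 : ∑ x ∈ X.filter (fun x => ad c x ∉ S), ∑ y ∈ X, (if ad x y = s then π x * k x y else 0) =
        (∑ x ∈ X.filter (fun x => ad c x ∉ S), ∑ y ∈ X, (if ad x y = s then aw n P w X S e ξ x y else 0)) / A := by
      rw [Finset.sum_div]
      refine Finset.sum_congr rfl fun x _ => ?_
      rw [Finset.sum_div]
      refine Finset.sum_congr rfl fun y _ => ?_
      split_ifs with h1
      · exact πk x y
      · rw [zero_div]
    rw [e2, div_le_iff₀ hA0]
    refine h1.trans ?_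
    have e1 : 1000 * T * κ * A = 1000 * T * (2 * w + 1) := by
      simp only [hκ]; field_simp
    rw [e1]
    nlinarith [mul_pos ht hw]
  case low =>
    refine cnt ((n + 999) / 1000) (3 * n / 10) (by omega) (by omega) (by omega) _ ?_ (filter_subset _ _) ?_
    · intro x h1 h2 h3
      exact mem_filter.mpr ⟨h3, by omega⟩
    · intro x h1 h2
      unfold pos; omega
  case high =>
    refine cnt ((7 * n + 9) / 10) (999 * n / 1000) (by omega) (by omega) (by omega) _ ?_ (filter_subset _ _) ?_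
    · intro x h1 h2 h3
      exact mem_filter.mpr ⟨h3, by omega⟩
    · intro x h1 h2
      unfold pos; omega

end Pool.Agent.GRC
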