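import Pool.Agent.Helper28.GRC.Defs

/-!
# GRC-RLB: labels of the separating vertices with bounded density in all windows

Proof in words.  Cells of length `w`: the cell of `x` is `x / w`; a window `[a, a+w]` meets at most two cells.  Treat the `r ∈ R` in increasing order (induction on `R` from below, `Finset.induction_on_max`; the sets
`Nb r` contain smaller elements of `R` only).  Keep the invariants: every cell contains at most `cap` labels; the elements with label in a cell have total weight at most `cap + K`; at most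
`cap + G` differences `ad (lab r) (lab s)`, `s ∈ Nb r`, in a cell.  The new label `x ∈ [lo r, hi r]` (`≥ L + 1` values) has to avoid:
old labels (`≤ |R|`); the cells which contain `cap` labels (`≤ |R|/cap` cells, `w` values each); the cells with weight `≥ cap` (`≤ (∑ wt)/cap` cells); for `s ∈ Nb r`: `ad x (lab s)` equal to an old difference (`≤ 2 G |R|`
values of `x`) or in a cell with at least `cap` old differences (`≤ G |R|/cap` cells, at most `2 w` values of `x` each); for `s ≠ s'` in `Nb r`: `ad x (lab s) = ad x (lab s')` (`2 x = lab s + lab s'`).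
In total (times `cap`): `≤ (1 + 2 G²)(|R| + ∑ wt)(w + cap) + cap G² < cap (L + 1)`.
-/

set_option autoImplicit false

namespace Pool.Agent.GRC

open Finset

private lemma h7_cell0 {w : ℕ} (hw : 0 < w) (q : ℕ) (I : Finset ℕ) :
    (I.filter fun x => x / w = q).card ≤ w := by
  have hsub : (I.filter fun x => x / w = q) ⊆ Icc (q * w) (q * w + w - 1) := by
    intro x hx
    have h1 := (Finset.mem_filter.mp hx).2
    have h2 := Nat.div_add_mod x w
    have h3 := Nat.mod_lt x hw
    rw [h1] at h2
    rw [Finset.mem_Icc]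
    have h4 : q * w = w * q := Nat.mul_comm _ _
    omega
  refine (Finset.card_le_card hsub).trans ?_
  rw [Nat.card_Icc]
  omega

private lemma h7_cell {w : ℕ} (hw : 0 < w) (c q : ℕ) (I : Finset ℕ) :
    (I.filter fun x => ad x c / w = q).card ≤ 2 * w := by
  have hsub : (I.filter fun x => ad x c / w = q) ⊆
      Icc (c + q * w) (c + q * w + w - 1) ∪ Icc (c - (q * w + w - 1)) (c - q * w) := by
    intro x hx
    have h1 := (Finset.mem_filter.mp hx).2
    have h2 := Nat.div_add_mod (ad x c) w
    have h3 := Nat.mod_lt (ad x c) hw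
    rw [h1] at h2
    rw [Finset.mem_union, Finset.mem_Icc, Finset.mem_Icc]
    have h4 : q * w = w * q := Nat.mul_comm _ _
    unfold ad at h2 h3
    omega
  refine (Finset.card_le_card hsub).trans ((Finset.card_union_le _ _).trans ?_)
  rw [Nat.card_Icc, Nat.card_Icc]
  omega

private lemma h7_dc {ι : Type*} (I : Finset ℕ) (P : Finset ι) (f : ι → ℕ) (g : ℕ → ℕ) (ω : ι → ℕ)
    (cap m : ℕ) (hm : ∀ q, (I.filter fun x => g x = q).card ≤ m) :
    cap * (I.filter fun x => cap ≤ ∑ i ∈ P.filter (fun i => f i = g x), ω i).card ≤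
      (∑ i ∈ P, ω i) * m := by
  set B := I.filter fun x => cap ≤ ∑ i ∈ P.filter (fun i => f i = g x), ω i with hB
  calc cap * B.card = ∑ _x ∈ B, cap := by rw [Finset.sum_const, smul_eq_mul, Nat.mul_comm]
    _ ≤ ∑ x ∈ B, ∑ i ∈ P.filter (fun i => f i = g x), ω i :=
        Finset.sum_le_sum fun x hx => (Finset.mem_filter.mp hx).2
    _ = ∑ x ∈ B, ∑ i ∈ P, if f i = g x then ω i else 0 := by
        refine Finset.sum_congr rfl fun x _ => ?_
        rw [Finset.sum_filter]
    _ = ∑ i ∈ P, ∑ x ∈ B, if f i = g x then ω i else 0 := Finset.sum_comm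
    _ ≤ ∑ i ∈ P, ω i * m := by
        refine Finset.sum_le_sum fun i _ => ?_
        rw [← Finset.sum_filter, Finset.sum_const, smul_eq_mul, Nat.mul_comm]
        refine Nat.mul_le_mul_left _ ?_
        refine le_trans (Finset.card_le_card ?_) (hm (f i))
        intro x hx
        rw [Finset.mem_filter] at hx ⊢
        exact ⟨(Finset.mem_filter.mp hx.1).1, hx.2.symm⟩
    _ = (∑ i ∈ P, ω i) * m := by rw [Finset.sum_mul]

/-- the invariant of the greedy procedure -/
private structure RG7 (w cap K G : ℕ) (R : Finset ℕ) (Nb : ℕ → Finset ℕ) (wt lo hi lab : ℕ → ℕ) :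
    Prop where
  bd : ∀ r ∈ R, lo r ≤ lab r ∧ lab r ≤ hi r
  inj : Set.InjOn lab R
  df : ∀ r ∈ R, ∀ s ∈ Nb r, ∀ r' ∈ R, ∀ s' ∈ Nb r', ad (lab r) (lab s) = ad (lab r') (lab s') →
    r = r' ∧ s = s'
  cl : ∀ c, (R.filter fun r => lab r / w = c).card ≤ cap
  cw : ∀ c, ∑ r ∈ R.filter (fun r => lab r / w = c), wt r ≤ cap + K
  cd : ∀ c, ∑ r ∈ R, ((Nb r).filter fun s => ad (lab r) (lab s) / w = c).card ≤ cap + G

private lemma h7_greedy {w cap K G L : ℕ} (Nb : ℕ → Finset ℕ) (wt lo hi : ℕ → ℕ)
    (hw : 0 < w) (R : Finset ℕ) :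
    (∀ r ∈ R, (∀ s ∈ Nb r, s ∈ R ∧ s < r) ∧ (Nb r).card ≤ G) →
    (∀ r ∈ R, wt r ≤ K) → (∀ r ∈ R, lo r + L ≤ hi r) → 0 < cap →
    (1 + 2 * G ^ 2) * ((R.card + ∑ r ∈ R, wt r) * (w + cap)) + cap * G ^ 2 ≤ cap * L →
    ∃ lab : ℕ → ℕ, RG7 w cap K G R Nb wt lo hi lab := by
  classical
  induction R using Finset.induction_on_max with
  | empty =>
    intro _ _ _ _ _
    refine ⟨fun _ => 0, ?_, ?_, ?_, ?_, ?_, ?_⟩ <;> simp
  | insert a R ha ih =>
    intro hNb hwt hz hcap hc
    have haR : a ∉ R := fun h => lt_irrefl _ (ha a h)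
    have hcard : (insert a R).card = R.card + 1 := Finset.card_insert_of_notMem haR
    have hsum : ∑ r ∈ insert a R, wt r = wt a + ∑ r ∈ R, wt r := Finset.sum_insert haR
    have hNbR : ∀ r ∈ R, (∀ s ∈ Nb r, s ∈ R ∧ s < r) ∧ (Nb r).card ≤ G := by
      intro r hr
      refine ⟨fun s hs => ?_, (hNb r (Finset.mem_insert_of_mem hr)).2⟩
      obtain ⟨h1, h2⟩ := (hNb r (Finset.mem_insert_of_mem hr)).1 s hs
      refine ⟨?_, h2⟩
      rcases Finset.mem_insert.mp h1 with h3 | h3
      · have := ha r hr
        omega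
      · exact h3
    have hNba : ∀ s ∈ Nb a, s ∈ R := by
      intro s hs
      obtain ⟨h1, h2⟩ := (hNb a (Finset.mem_insert_self _ _)).1 s hs
      rcases Finset.mem_insert.mp h1 with h3 | h3
      · omega
      · exact h3
    have hGa : (Nb a).card ≤ G := (hNb a (Finset.mem_insert_self _ _)).2
    have hle : (1 + 2 * G ^ 2) * ((R.card + ∑ r ∈ R, wt r) * (w + cap)) + cap * G ^ 2 ≤ cap * L := by
      refine le_trans ?_ hc
      apply Nat.add_le_add_right
      apply Nat.mul_le_mul_left
      apply Nat.mul_le_mul_right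
      rw [hcard, hsum]
      omega
    obtain ⟨lab, hg⟩ := ih hNbR (fun r hr => hwt r (Finset.mem_insert_of_mem hr))
      (fun r hr => hz r (Finset.mem_insert_of_mem hr)) hcap hle
    set I := Icc (lo a) (hi a) with hI
    set Pr : Finset (Σ _ : ℕ, ℕ) := R.sigma Nb with hPr
    have hPrc : Pr.card ≤ R.card * G := by
      rw [hPr, Finset.card_sigma]
      calc ∑ r ∈ R, (Nb r).card ≤ ∑ _r ∈ R, G := Finset.sum_le_sum fun r hr => (hNbR r hr).2
        _ = R.card * G := by rw [Finset.sum_const, smul_eq_mul]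
    have hPrf : ∀ c, ∑ r ∈ R, ((Nb r).filter fun s => ad (lab r) (lab s) / w = c).card =
        ∑ i ∈ Pr.filter (fun i => ad (lab i.1) (lab i.2) / w = c), 1 := by
      intro c
      rw [Finset.sum_filter, hPr, Finset.sum_sigma]
      refine Finset.sum_congr rfl fun r _ => ?_
      rw [Finset.card_filter]
    -- the bad sets
    set Ba := R.image lab with hBa
    set Bb := I.filter fun x => cap ≤ ∑ r ∈ R.filter (fun r => lab r / w = x / w), 1 with hBb
    set Bc := I.filter fun x => cap ≤ ∑ r ∈ R.filter (fun r => lab r / w = x / w), wt r with hBc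
    set Bd := (Nb a).biUnion fun s => Pr.biUnion fun i =>
      ({lab s + ad (lab i.1) (lab i.2), lab s - ad (lab i.1) (lab i.2)} : Finset ℕ) with hBd
    set Be := (Nb a).biUnion fun s => I.filter fun x =>
      cap ≤ ∑ i ∈ Pr.filter (fun i => ad (lab i.1) (lab i.2) / w = ad x (lab s) / w), 1 with hBe
    set Bf := (Nb a ×ˢ Nb a).image fun q => (lab q.1 + lab q.2) / 2 with hBf
    have ca : cap * Ba.card ≤ cap * R.card := Nat.mul_le_mul_left _ Finset.card_image_le
    have cb : cap * Bb.card ≤ R.card * w := by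
      have := h7_dc I R (fun r => lab r / w) (fun x => x / w) (fun _ => 1) cap w
        (fun q => h7_cell0 hw q I)
      rw [Finset.sum_const, smul_eq_mul, Nat.mul_one] at this
      exact this
    have cc : cap * Bc.card ≤ (∑ r ∈ R, wt r) * w :=
      h7_dc I R (fun r => lab r / w) (fun x => x / w) wt cap w (fun q => h7_cell0 hw q I)
    have cd : Bd.card ≤ G * (R.card * G * 2) := by
      refine Finset.card_biUnion_le.trans ?_
      have h1 : ∀ s ∈ Nb a, (Pr.biUnion fun i =>
          ({lab s + ad (lab i.1) (lab i.2), lab s - ad (lab i.1) (lab i.2)} : Finset ℕ)).card ≤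
          R.card * G * 2 := by
        intro s _
        refine Finset.card_biUnion_le.trans ?_
        calc ∑ i ∈ Pr, ({lab s + ad (lab i.1) (lab i.2), lab s - ad (lab i.1) (lab i.2)} :
              Finset ℕ).card ≤ ∑ _i ∈ Pr, 2 := Finset.sum_le_sum fun i _ => Finset.card_le_two
          _ = Pr.card * 2 := by rw [Finset.sum_const, smul_eq_mul]
          _ ≤ R.card * G * 2 := Nat.mul_le_mul_right _ hPrc
      calc _ ≤ ∑ _s ∈ Nb a, R.card * G * 2 := Finset.sum_le_sum h1
        _ = (Nb a).card * (R.card * G * 2) := by rw [Finset.sum_const, smul_eq_mul]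
        _ ≤ G * (R.card * G * 2) := Nat.mul_le_mul_right _ hGa
    have ce : cap * Be.card ≤ G * (R.card * G * (2 * w)) := by
      have h1 : ∀ s ∈ Nb a, cap * (I.filter fun x =>
          cap ≤ ∑ i ∈ Pr.filter (fun i => ad (lab i.1) (lab i.2) / w = ad x (lab s) / w), 1).card ≤
          R.card * G * (2 * w) := by
        intro s _
        have h2 := h7_dc I Pr (fun i => ad (lab i.1) (lab i.2) / w) (fun x => ad x (lab s) / w)
          (fun _ => 1) cap (2 * w) (fun q => h7_cell hw (lab s) q I)
        refine h2.trans ?_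
        apply Nat.mul_le_mul_right
        rw [Finset.sum_const, smul_eq_mul, Nat.mul_one]
        exact hPrc
      calc cap * Be.card ≤ cap * ∑ s ∈ Nb a, (I.filter fun x =>
            cap ≤ ∑ i ∈ Pr.filter (fun i => ad (lab i.1) (lab i.2) / w = ad x (lab s) / w), 1).card :=
            Nat.mul_le_mul_left _ Finset.card_biUnion_le
        _ = ∑ s ∈ Nb a, cap * (I.filter fun x =>
            cap ≤ ∑ i ∈ Pr.filter (fun i => ad (lab i.1) (lab i.2) / w = ad x (lab s) / w), 1).card :=
            Finset.mul_sum _ _ _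
        _ ≤ ∑ _s ∈ Nb a, R.card * G * (2 * w) := Finset.sum_le_sum h1
        _ = (Nb a).card * (R.card * G * (2 * w)) := by rw [Finset.sum_const, smul_eq_mul]
        _ ≤ G * (R.card * G * (2 * w)) := Nat.mul_le_mul_right _ hGa
    have cf : Bf.card ≤ G ^ 2 := by
      refine Finset.card_image_le.trans ?_
      rw [Finset.card_product, pow_two]
      exact Nat.mul_le_mul hGa hGa
    set Bad := Ba ∪ Bb ∪ Bc ∪ Bd ∪ Be ∪ Bf with hBad
    have hBadc : Bad.card ≤ Ba.card + Bb.card + Bc.card + Bd.card + Be.card + Bf.card := by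
      rw [hBad]
      have h1 := Finset.card_union_le (Ba ∪ Bb ∪ Bc ∪ Bd ∪ Be) Bf
      have h2 := Finset.card_union_le (Ba ∪ Bb ∪ Bc ∪ Bd) Be
      have h3 := Finset.card_union_le (Ba ∪ Bb ∪ Bc) Bd
      have h4 := Finset.card_union_le (Ba ∪ Bb) Bc
      have h5 := Finset.card_union_le Ba Bb
      omega
    have hbadI : Bad.card < I.card := by
      have hIc : L + 1 ≤ I.card := by
        rw [hI, Nat.card_Icc]
        have := hz a (Finset.mem_insert_self _ _)
        omega
      have h1 : cap * Bad.card ≤ cap * L := by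
        calc cap * Bad.card ≤ cap * (Ba.card + Bb.card + Bc.card + Bd.card + Be.card + Bf.card) :=
              Nat.mul_le_mul_left _ hBadc
          _ = cap * Ba.card + cap * Bb.card + cap * Bc.card + cap * Bd.card + cap * Be.card +
              cap * Bf.card := by ring
          _ ≤ cap * R.card + R.card * w + (∑ r ∈ R, wt r) * w + cap * (G * (R.card * G * 2)) +
              G * (R.card * G * (2 * w)) + cap * G ^ 2 := by
              have := Nat.mul_le_mul_left cap cd
              have := Nat.mul_le_mul_left cap cf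
              omega
          _ ≤ (1 + 2 * G ^ 2) * ((R.card + ∑ r ∈ R, wt r) * (w + cap)) + cap * G ^ 2 := by
              have h2 : (1 + 2 * G ^ 2) * ((R.card + ∑ r ∈ R, wt r) * (w + cap)) + cap * G ^ 2 =
                (cap * R.card + R.card * w + (∑ r ∈ R, wt r) * w + cap * (G * (R.card * G * 2)) +
                G * (R.card * G * (2 * w)) + cap * G ^ 2) +
                ((∑ r ∈ R, wt r) * cap + 2 * G ^ 2 * ((∑ r ∈ R, wt r) * (w + cap))) := by ring
              rw [h2]
              exact Nat.le_add_right _ _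
          _ ≤ cap * L := hle
      have h3 := Nat.le_of_mul_le_mul_left h1 hcap
      omega
    obtain ⟨x, hxI, hxB⟩ : ∃ x ∈ I, x ∉ Bad := by
      by_contra hno
      push Not at hno
      exact absurd (Finset.card_le_card hno) (by omega)
    rw [hBad] at hxB
    simp only [Finset.mem_union, not_or] at hxB
    obtain ⟨⟨⟨⟨⟨xa, xb⟩, xc⟩, xd⟩, xe⟩, xf⟩ := hxB
    -- the new labelling
    set lab' := Function.update lab a x with hlab'
    have hla : lab' a = x := by rw [hlab', Function.update_self]
    have hlr : ∀ r ∈ R, lab' r = lab r := by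
      intro r hr
      rw [hlab', Function.update_of_ne]
      rintro rfl
      exact haR hr
    have xa' : ∀ r ∈ R, lab r ≠ x := by
      intro r hr h
      exact xa (Finset.mem_image.mpr ⟨r, hr, h⟩)
    have xd' : ∀ s ∈ Nb a, ∀ r ∈ R, ∀ s' ∈ Nb r, ad x (lab s) ≠ ad (lab r) (lab s') := by
      intro s hs r hr s' hs' h
      apply xd
      rw [hBd, Finset.mem_biUnion]
      refine ⟨s, hs, ?_⟩
      rw [Finset.mem_biUnion]
      refine ⟨⟨r, s'⟩, ?_, ?_⟩
      · rw [hPr, Finset.mem_sigma]
        exact ⟨hr, hs'⟩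
      · simp only [Finset.mem_insert, Finset.mem_singleton]
        rw [← h]
        unfold ad
        omega
    have xf' : ∀ s ∈ Nb a, ∀ s' ∈ Nb a, ad x (lab s) = ad x (lab s') → s = s' := by
      intro s hs s' hs' h
      by_contra hne
      have hne' : lab s ≠ lab s' := fun h1 => hne (hg.inj (hNba s hs) (hNba s' hs') h1)
      apply xf
      rw [hBf, Finset.mem_image]
      refine ⟨(s, s'), Finset.mem_product.mpr ⟨hs, hs'⟩, ?_⟩
      unfold ad at h
      simp only
      omega
    have xb' : (R.filter fun r => lab r / w = x / w).card < cap := by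
      by_contra h
      push Not at h
      apply xb
      rw [hBb, Finset.mem_filter]
      refine ⟨hxI, ?_⟩
      rw [Finset.sum_const, smul_eq_mul, Nat.mul_one]
      exact h
    have xc' : ∑ r ∈ R.filter (fun r => lab r / w = x / w), wt r < cap := by
      by_contra h
      push Not at h
      apply xc
      rw [hBc, Finset.mem_filter]
      exact ⟨hxI, h⟩
    have xe' : ∀ s ∈ Nb a, ∑ r ∈ R, ((Nb r).filter fun s' =>
        ad (lab r) (lab s') / w = ad x (lab s) / w).card < cap := by
      intro s hs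
      by_contra h
      push Not at h
      apply xe
      rw [hBe, Finset.mem_biUnion]
      refine ⟨s, hs, ?_⟩
      rw [Finset.mem_filter]
      refine ⟨hxI, ?_⟩
      rw [← hPrf]
      exact h
    have hfilt : ∀ c, (R.filter fun r => lab' r / w = c) = R.filter fun r => lab r / w = c := by
      intro c
      apply Finset.filter_congr
      intro r hr
      rw [hlr r hr]
    have hnot : ∀ c, a ∉ R.filter fun r => lab' r / w = c := fun c h =>
      haR (Finset.mem_filter.mp h).1
    have hNbf : ∀ c, ∀ r ∈ R, ((Nb r).filter fun s => ad (lab' r) (lab' s) / w = c) =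
        (Nb r).filter fun s => ad (lab r) (lab s) / w = c := by
      intro c r hr
      apply Finset.filter_congr
      intro s hs
      rw [hlr r hr, hlr s ((hNbR r hr).1 s hs).1]
    refine ⟨lab', ?_, ?_, ?_, ?_, ?_, ?_⟩
    · intro r hr
      rcases Finset.mem_insert.mp hr with h | h
      · rw [h, hla]
        rw [hI, Finset.mem_Icc] at hxI
        exact hxI
      · rw [hlr r h]
        exact hg.bd r h
    · intro r hr r' hr' h
      rw [Finset.mem_coe, Finset.mem_insert] at hr hr'
      rcases hr with h1 | h1 <;> rcases hr' with h2 | h2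
      · rw [h1, h2]
      · rw [h1, hla, hlr r' h2] at h
        exact absurd h.symm (xa' r' h2)
      · rw [h2, hla, hlr r h1] at h
        exact absurd h (xa' r h1)
      · rw [hlr r h1, hlr r' h2] at h
        exact hg.inj h1 h2 h
    · intro r hr s hs r' hr' s' hs' h
      rcases Finset.mem_insert.mp hr with h1 | h1 <;> rcases Finset.mem_insert.mp hr' with h2 | h2
      · subst h1
        subst h2
        rw [hla, hlr s (hNba s hs), hlr s' (hNba s' hs')] at h
        exact ⟨rfl, xf' s hs s' hs' h⟩
      · subst h1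
        rw [hla, hlr s (hNba s hs), hlr r' h2, hlr s' ((hNbR r' h2).1 s' hs').1] at h
        exact absurd h (xd' s hs r' h2 s' hs')
      · subst h2
        rw [hla, hlr s' (hNba s' hs'), hlr r h1, hlr s ((hNbR r h1).1 s hs).1] at h
        exact absurd h.symm (xd' s' hs' r h1 s hs)
      · rw [hlr r h1, hlr r' h2, hlr s ((hNbR r h1).1 s hs).1,
          hlr s' ((hNbR r' h2).1 s' hs').1] at h
        exact hg.df r h1 s hs r' h2 s' hs' h
    · intro c
      rw [Finset.filter_insert]
      split_ifs with hcx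
      · rw [Finset.card_insert_of_notMem (hnot c), hfilt]
        rw [hla] at hcx
        rw [← hcx]
        omega
      · rw [hfilt]
        exact hg.cl c
    · intro c
      rw [Finset.filter_insert]
      split_ifs with hcx
      · rw [Finset.sum_insert (hnot c), hfilt]
        rw [hla] at hcx
        rw [← hcx]
        have := hwt a (Finset.mem_insert_self _ _)
        omega
      · rw [hfilt]
        exact hg.cw c
    · intro c
      rw [Finset.sum_insert haR]
      have h1 : ∑ r ∈ R, ((Nb r).filter fun s => ad (lab' r) (lab' s) / w = c).card =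
          ∑ r ∈ R, ((Nb r).filter fun s => ad (lab r) (lab s) / w = c).card :=
        Finset.sum_congr rfl fun r hr => by rw [hNbf c r hr]
      rw [h1]
      rcases Finset.eq_empty_or_nonempty
        ((Nb a).filter fun s => ad (lab' a) (lab' s) / w = c) with h2 | h2
      · rw [h2, Finset.card_empty, Nat.zero_add]
        exact hg.cd c
      · obtain ⟨s, hs⟩ := h2
        rw [Finset.mem_filter] at hs
        have h3 := hs.2
        rw [hla, hlr s (hNba s hs.1)] at h3
        have h4 := xe' s hs.1
        rw [h3] at h4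
        have h5 : ((Nb a).filter fun s => ad (lab' a) (lab' s) / w = c).card ≤ (Nb a).card :=
          Finset.card_filter_le _ _
        omega

private lemma h7_two {w : ℕ} (hw : 0 < w) {a x : ℕ} (h1 : a ≤ x) (h2 : x ≤ a + w) :
    x / w = a / w ∨ x / w = a / w + 1 := by
  have h3 : a / w ≤ x / w := Nat.div_le_div_right h1
  have h4 : x / w ≤ (a + w) / w := Nat.div_le_div_right h2
  rw [Nat.add_div_right _ hw] at h4
  omega

theorem rlabel2 {w cap K G L : ℕ} (R : Finset ℕ) (Nb : ℕ → Finset ℕ) (wt lo hi : ℕ → ℕ)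
    (hw : 0 < w) (hcap : 0 < cap) (hNb : ∀ r ∈ R, (∀ s ∈ Nb r, s ∈ R ∧ s < r) ∧ (Nb r).card ≤ G)
    (hwt : ∀ r ∈ R, wt r ≤ K) (hz : ∀ r ∈ R, lo r + L ≤ hi r)
    (hc : (1 + 2 * G ^ 2) * ((R.card + ∑ r ∈ R, wt r) * (w + cap)) + cap * G ^ 2 ≤ cap * L) :
    ∃ lab : ℕ → ℕ, (∀ r ∈ R, lo r ≤ lab r ∧ lab r ≤ hi r) ∧ Set.InjOn lab R ∧
      (∀ r ∈ R, ∀ s ∈ Nb r, ∀ r' ∈ R, ∀ s' ∈ Nb r', ad (lab r) (lab s) = ad (lab r') (lab s') →
        r = r' ∧ s = s') ∧
      (∀ a, (R.filter fun r => a ≤ lab r ∧ lab r ≤ a + w).card ≤ 2 * cap) ∧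
      (∀ a, ∑ r ∈ R.filter (fun r => a ≤ lab r ∧ lab r ≤ a + w), wt r ≤ 2 * (cap + K)) ∧
      (∀ a, ∑ r ∈ R, ((Nb r).filter fun s => a ≤ ad (lab r) (lab s) ∧ ad (lab r) (lab s) ≤ a + w).card ≤
        2 * (cap + G)) := by
  classical
  obtain ⟨lab, hg⟩ := h7_greedy Nb wt lo hi hw R hNb hwt hz hcap hc
  refine ⟨lab, hg.bd, hg.inj, hg.df, fun a => ?_, fun a => ?_, fun a => ?_⟩
  · have hsub : (R.filter fun r => a ≤ lab r ∧ lab r ≤ a + w) ⊆
        (R.filter fun r => lab r / w = a / w) ∪ (R.filter fun r => lab r / w = a / w + 1) := by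
      intro r hr
      rw [Finset.mem_filter] at hr
      rw [Finset.mem_union, Finset.mem_filter, Finset.mem_filter]
      rcases h7_two hw hr.2.1 hr.2.2 with h | h
      · exact Or.inl ⟨hr.1, h⟩
      · exact Or.inr ⟨hr.1, h⟩
    refine (Finset.card_le_card hsub).trans ((Finset.card_union_le _ _).trans ?_)
    have h1 := hg.cl (a / w)
    have h2 := hg.cl (a / w + 1)
    omega
  · have hsub : (R.filter fun r => a ≤ lab r ∧ lab r ≤ a + w) ⊆
        (R.filter fun r => lab r / w = a / w) ∪ (R.filter fun r => lab r / w = a / w + 1) := by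
      intro r hr
      rw [Finset.mem_filter] at hr
      rw [Finset.mem_union, Finset.mem_filter, Finset.mem_filter]
      rcases h7_two hw hr.2.1 hr.2.2 with h | h
      · exact Or.inl ⟨hr.1, h⟩
      · exact Or.inr ⟨hr.1, h⟩
    have h1 := hg.cw (a / w)
    have h2 := hg.cw (a / w + 1)
    have h3 : ∑ r ∈ R.filter (fun r => a ≤ lab r ∧ lab r ≤ a + w), wt r ≤
        ∑ r ∈ (R.filter fun r => lab r / w = a / w) ∪ (R.filter fun r => lab r / w = a / w + 1),
          wt r := Finset.sum_le_sum_of_subset hsub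
    have h4 := Finset.sum_union_inter (s₁ := R.filter fun r => lab r / w = a / w)
      (s₂ := R.filter fun r => lab r / w = a / w + 1) (f := wt)
    omega
  · have h1 := hg.cd (a / w)
    have h2 := hg.cd (a / w + 1)
    have h3 : ∀ r ∈ R, ((Nb r).filter fun s => a ≤ ad (lab r) (lab s) ∧
        ad (lab r) (lab s) ≤ a + w).card ≤
        ((Nb r).filter fun s => ad (lab r) (lab s) / w = a / w).card +
        ((Nb r).filter fun s => ad (lab r) (lab s) / w = a / w + 1).card := by
      intro r _
      refine le_trans (Finset.card_le_card ?_) (Finset.card_union_le _ _)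
      intro s hs
      rw [Finset.mem_filter] at hs
      rw [Finset.mem_union, Finset.mem_filter, Finset.mem_filter]
      rcases h7_two hw hs.2.1 hs.2.2 with h | h
      · exact Or.inl ⟨hs.1, h⟩
      · exact Or.inr ⟨hs.1, h⟩
    have h4 := Finset.sum_le_sum h3
    rw [Finset.sum_add_distrib] at h4
    omega

end Pool.Agent.GRC
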