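import Pool.Agent.Helper28.GRC.PForm
import Pool.Agent.Helper28.GRC.RLB
import Pool.Agent.Helper28.GRC.MMX
import Pool.Agent.Helper28.GRC.DS
import Pool.Agent.Helper28.GRC.T3

/-!
# GRC-LABG: labels of the separating vertices and of the deterministic stars (medium assembly)

Proof in words.  `Rs = R \ ({0, w0, c0} ∪ chl c0)`; `w0 - 0`, `c0 - w0` are the special edges.  `rlabel2` for `Rs` with window length `w`, `K`, `G = g + 1`,
`Nb r = {p r if p r ∈ Rs} ∪ {eb j : j < g, ea j = r}` (`⊆ Rs`: `F ⊆ R`, `av`), `wt r = #{c ∈ DL ∪ DH : p c = r} ≤ 2K` (by `pLH` even `≤ K`), and the zones `[lo r, hi r]`: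
 * `r ∈ p '' DL`: `[0.520 n, 0.529 n]`; `r ∈ p '' DH`: `[0.461 n, 0.470 n]` (these `r` are not in `F`, different by `pLH`);
 * `r ∈ chl w0 \ {c0}`: `[0.542 n, 0.545 n]`; `r ∈ chl 0 \ {w0}`: `[0.4505 n, 0.453 n]`;
 * all other `r` (in particular the parents of `Sp`: `spF`, `pLS`, `pHS`): `[0.4993 n, 0.5007 n]`.  All lengths `≥ L = n/2000`.
`0 ↦ n - 1`, `w0 ↦ 0`, `c0 ↦ n`, the leaves of `c0` `↦ lc 0 .. lc (D-1)` (any enumeration).  `DL`: `match_dec` with `c = lab ∘ p`, `B = CL`: `σ v`, the leaves of `v` `↦ n - lH (σ v) r`; `DH`: `match_inc` with `B = CH`: `lab v = n - σ v`,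
leaves `↦ lL (σ v) r`.
Differences: `(w0,0)`: `n-1`; `(c0,w0)`: `n`; leaves of `c0`: `n - lc r`; `chl w0`: `lab r ∈ [0.542n, 0.545n]`; `chl 0`: `n - 1 - lab r ∈ [0.547 n - 1, 0.5495 n]`; `DL`: `lab (p v) - σ v ∈ [0.519 n, 0.529 n]`; `DH`: `n - σ v - lab (p v) ∈ [0.529 n+, 0.539 n]`;
inside `Rs` and extra edges: `≤ 0.0945 n`, distinct by `rlabel2`; leaves of the det stars: `n - (σ v + lH (σ v) r)`, `n - (σ v + lL (σ v) r)`.  The zones are disjoint, in each zone the differences are distinct (`DetS`, `dec_window`, `inc_window`);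
by counting, the `P` edges at `c0`, `w0-0` and the det stars cover all `s > n - P` (`DetS.card`: `(CL.card + CH.card + 1) D + 2 = P` distinct values of `s' < P`).
Windows: the labels outside the central zone are outside the free region (`DetS.zCL` etc.; `w < 13P/100`), so `wX` is `2 cap`; `wS`: `2 (cap + g + 1)` (inside `Rs`), `2 cap` (`chl w0`), `2 cap` (`chl 0`), `2 (cap + K)` each for `DL`, `DH`:
together `≤ 10 (cap + K + g + 1)`.  `ctr`: a vertex of `R` with a child outside `Rp`, or whose parent is outside `Rp`, is in `Rs` (`chl 0`, `chl w0`, `chl c0` are in `R`, the leaves of `c0` have no children, `p 0`..: `0 < r`).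
-/

set_option autoImplicit false

namespace Pool.Agent.GRC

open Finset Pool.Agent.SEM

/-- rank among the siblings -/
def ix67 (m : ℕ) (p : ℕ → ℕ) (u : ℕ) : ℕ := ((chl m p (p u)).filter (· < u)).card

theorem ix67_lt {m : ℕ} {p : ℕ → ℕ} {c u : ℕ} (hu : u ∈ chl m p c) :
    ix67 m p u < (chl m p c).card := by
  have hp : p u = c := (mem_chl67.1 hu).2.2
  unfold ix67
  rw [hp]
  apply card_lt_card
  refine ⟨filter_subset _ _, fun h => ?_⟩
  have := (mem_filter.1 (h hu)).2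
  omega

theorem ix67_inj {m : ℕ} {p : ℕ → ℕ} {c u u' : ℕ} (hu : u ∈ chl m p c) (hu' : u' ∈ chl m p c)
    (h : ix67 m p u = ix67 m p u') : u = u' := by
  have aux : ∀ a b, a ∈ chl m p c → b ∈ chl m p c → a < b → ix67 m p a < ix67 m p b := by
    intro a b ha hb hab
    have hpa := (mem_chl67.1 ha).2.2
    have hpb := (mem_chl67.1 hb).2.2
    unfold ix67
    rw [hpa, hpb]
    apply card_lt_card
    refine ⟨fun x hx => ?_, fun hs => ?_⟩
    · rw [mem_filter] at hx ⊢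
      exact ⟨hx.1, hx.2.trans hab⟩
    · have := (mem_filter.1 (hs (mem_filter.2 ⟨ha, hab⟩))).2
      omega
  rcases lt_trichotomy u u' with h1 | h1 | h1
  · have := aux u u' hu hu' h1
    omega
  · exact h1
  · have := aux u' u hu' hu h1
    omega

/-- the data of the labelling and their properties -/
structure Ct67 where
  (m g n P w D K M cap w0 c0 : ℕ)
  (p ea eb : ℕ → ℕ)
  (R Rs DL DH CL CH : Finset ℕ)
  (lH lL : ℕ → ℕ → ℕ)
  (lc σL σH lab ix : ℕ → ℕ)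
  (Nb : ℕ → Finset ℕ)
  hP : 1000000 ≤ P
  hPn : 1000000 * P ≤ n
  par : Par m p
  w1 : 0 < w0
  w2 : w0 < m
  w3 : p w0 = 0
  c1 : 0 < c0
  c2 : c0 < m
  c3 : p c0 = w0
  stc : StarD m p D c0
  ext : ∀ j < g, eb j < ea j ∧ ea j < m ∧ p (ea j) ≠ eb j
  exi : ∀ i < g, ∀ j < g, ea i = ea j → eb i = eb j → i = j
  zR : 0 ∈ R
  wR : w0 ∈ R
  cR : c0 ∈ R
  ch0R : ∀ u ∈ chl m p 0, u ∈ R
  chwR : ∀ u ∈ chl m p w0, u ∈ R
  chcR : ∀ u ∈ chl m p c0, u ∈ R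
  Rlt : ∀ r ∈ R, r < m
  mRs : ∀ r, r ∈ Rs ↔ r ∈ R ∧ r ≠ 0 ∧ r ≠ w0 ∧ r ≠ c0 ∧ r ∉ chl m p c0
  exs : ∀ j < g, ea j ∈ Rs ∧ eb j ∈ Rs ∧ eb j ∈ Nb (ea j)
  nbp : ∀ r ∈ Rs, p r ∈ Rs → p r ∈ Nb r
  nbR : ∀ r ∈ Rs, ∀ s ∈ Nb r, s ∈ Rs ∧ s < r
  dl : ∀ c ∈ DL, 0 < c ∧ c < m ∧ c ∉ R ∧ p c ∈ Rs ∧ StarD m p D c ∧ ∀ u ∈ chl m p c, u ∉ R
  dh : ∀ c ∈ DH, 0 < c ∧ c < m ∧ c ∉ R ∧ p c ∈ Rs ∧ StarD m p D c ∧ ∀ u ∈ chl m p c, u ∉ R
  dLH : Disjoint DL DH
  hDLc : DL.card = CL.card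
  hDHc : DH.card = CH.card
  hMP : P = M * D + 2
  S : DetS D M P CL CH lH lL lc
  ixlt : ∀ c, StarD m p D c → ∀ u ∈ chl m p c, ix u < D
  ixin : ∀ c, ∀ u ∈ chl m p c, ∀ u' ∈ chl m p c, ix u = ix u' → u = u'
  sL : ∀ v ∈ DL, σL v ∈ CL
  sLi : Set.InjOn σL DL
  sH : ∀ v ∈ DH, σH v ∈ CH
  sHi : Set.InjOn σH DH
  v0 : lab 0 = n - 1
  vw : lab w0 = 0
  vc : lab c0 = n
  vl : ∀ v ∈ chl m p c0, lab v = lc (ix v)
  vL : ∀ v ∈ DL, lab v = σL v
  vH : ∀ v ∈ DH, lab v = n - σH v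
  vlL : ∀ c ∈ DL, ∀ v ∈ chl m p c, lab v = n - lH (σL c) (ix v)
  vlH : ∀ c ∈ DH, ∀ v ∈ chl m p c, lab v = lL (σH c) (ix v)
  zg : ∀ r ∈ Rs, 4505 * n < 10000 * lab r ∧ 10000 * lab r ≤ 5450 * n
  zL : ∀ c ∈ DL, 5200 * n < 10000 * lab (p c) ∧ 10000 * lab (p c) ≤ 5290 * n
  zH : ∀ c ∈ DH, 4610 * n < 10000 * lab (p c) ∧ 10000 * lab (p c) ≤ 4700 * n
  zw : ∀ r ∈ chl m p w0, r ≠ c0 → 5420 * n < 10000 * lab r ∧ 10000 * lab r ≤ 5450 * n
  z0 : ∀ r ∈ chl m p 0, r ≠ w0 → 4505 * n < 10000 * lab r ∧ 10000 * lab r ≤ 4530 * n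
  rin : Set.InjOn lab Rs
  rdi : ∀ r ∈ Rs, ∀ s ∈ Nb r, ∀ r' ∈ Rs, ∀ s' ∈ Nb r', ad (lab r) (lab s) = ad (lab r') (lab s') →
    r = r' ∧ s = s'
  dLi : Set.InjOn (fun v => lab (p v) - σL v) DL
  dHi : Set.InjOn (fun v => n - (lab (p v) + σH v)) DH
  wr : ∀ a, (Rs.filter fun r => a ≤ lab r ∧ lab r ≤ a + w).card ≤ 2 * cap
  wL : ∀ a, (DL.filter fun v => a ≤ lab (p v) - σL v ∧ lab (p v) - σL v ≤ a + w).card ≤
    2 * (cap + K)
  wH : ∀ a, (DH.filter fun v => a ≤ n - (lab (p v) + σH v) ∧ n - (lab (p v) + σH v) ≤ a + w).card ≤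
    2 * (cap + K)
  wJ : ∀ a, ∑ r ∈ Rs, ((Nb r).filter fun s => a ≤ ad (lab r) (lab s) ∧
    ad (lab r) (lab s) ≤ a + w).card ≤ 2 * (cap + (g + 1))

namespace Ct67

variable (C : Ct67)

/-- low label -/
def Lw (v a : ℕ) : Prop :=
  (v = C.w0 ∧ a = 0) ∨ (v ∈ chl C.m C.p C.c0 ∧ a = C.lc (C.ix v)) ∨ (v ∈ C.DL ∧ a = C.σL v) ∨
    (∃ c ∈ C.DH, v ∈ chl C.m C.p c ∧ a = C.lL (C.σH c) (C.ix v))

/-- high label -/
def Hg (v j : ℕ) : Prop :=
  (v = C.c0 ∧ j = 0) ∨ (v = 0 ∧ j = 1) ∨ (v ∈ C.DH ∧ j = C.σH v) ∨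
    (∃ c ∈ C.DL, v ∈ chl C.m C.p c ∧ j = C.lH (C.σL c) (C.ix v))

/-- extreme difference -/
def Exx (i s : ℕ) : Prop :=
  (i = C.c0 ∧ s = 0) ∨ (i = C.w0 ∧ s = 1) ∨ (i ∈ chl C.m C.p C.c0 ∧ s = C.lc (C.ix i)) ∨
    (∃ c ∈ C.DL, i ∈ chl C.m C.p c ∧ s = C.σL c + C.lH (C.σL c) (C.ix i)) ∨
    (∃ c ∈ C.DH, i ∈ chl C.m C.p c ∧ s = C.σH c + C.lL (C.σH c) (C.ix i))

theorem cls {r : ℕ} (hr : r ∈ Rpl C.m C.p C.R C.DL C.DH) :
    r ∈ C.Rs ∨ (∃ a, C.Lw r a) ∨ ∃ j, C.Hg r j := by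
  unfold Rpl at hr
  rw [mem_union, mem_union, mem_union, mem_biUnion] at hr
  rcases hr with (hr | hr | hr) | ⟨c, hc, hr⟩
  · by_cases h0 : r = 0
    · exact Or.inr (Or.inr ⟨1, Or.inr (Or.inl ⟨h0, rfl⟩)⟩)
    by_cases hw : r = C.w0
    · exact Or.inr (Or.inl ⟨0, Or.inl ⟨hw, rfl⟩⟩)
    by_cases hc : r = C.c0
    · exact Or.inr (Or.inr ⟨0, Or.inl ⟨hc, rfl⟩⟩)
    by_cases hl : r ∈ chl C.m C.p C.c0
    · exact Or.inr (Or.inl ⟨_, Or.inr (Or.inl ⟨hl, rfl⟩)⟩)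
    · exact Or.inl ((C.mRs r).2 ⟨hr, h0, hw, hc, hl⟩)
  · exact Or.inr (Or.inl ⟨_, Or.inr (Or.inr (Or.inl ⟨hr, rfl⟩))⟩)
  · exact Or.inr (Or.inr ⟨_, Or.inr (Or.inr (Or.inl ⟨hr, rfl⟩))⟩)
  · rw [mem_union] at hc
    rcases hc with hc | hc
    · exact Or.inr (Or.inr ⟨_, Or.inr (Or.inr (Or.inr ⟨c, hc, hr, rfl⟩))⟩)
    · exact Or.inr (Or.inl ⟨_, Or.inr (Or.inr (Or.inr ⟨c, hc, hr, rfl⟩))⟩)

theorem ixc {v : ℕ} (h : v ∈ chl C.m C.p C.c0) : C.ix v < C.D := C.ixlt _ C.stc v h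

theorem ixL {c v : ℕ} (hc : c ∈ C.DL) (h : v ∈ chl C.m C.p c) : C.ix v < C.D :=
  C.ixlt _ (C.dl c hc).2.2.2.2.1 v h

theorem ixH {c v : ℕ} (hc : c ∈ C.DH) (h : v ∈ chl C.m C.p c) : C.ix v < C.D :=
  C.ixlt _ (C.dh c hc).2.2.2.2.1 v h

theorem lwv {r a : ℕ} (h : C.Lw r a) :
    C.lab r = a ∧ (100 * a < 7 * C.P ∨ (20 * C.P < 100 * a ∧ 100 * a < 99 * C.P)) := by
  have hP := C.hP
  rcases h with ⟨h1, h2⟩ | ⟨h1, h2⟩ | ⟨h1, h2⟩ | ⟨c, h0, h1, h2⟩
  · rw [h1, C.vw, h2]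
    omega
  · rw [C.vl r h1, h2]
    exact ⟨rfl, Or.inl (C.S.zlc _ (C.ixc h1))⟩
  · rw [C.vL r h1, h2]
    exact ⟨rfl, Or.inl (C.S.zCL _ (C.sL r h1))⟩
  · rw [C.vlH c h0 r h1, h2]
    exact ⟨rfl, C.S.zlL _ (C.sH c h0) _ (C.ixH h0 h1)⟩

theorem hgv {r j : ℕ} (h : C.Hg r j) :
    C.lab r = C.n - j ∧ (1000 * j < 17 * C.P ∨ (58 * C.P < 1000 * j ∧ 4 * j < C.P)) := by
  have hP := C.hP
  rcases h with ⟨h1, h2⟩ | ⟨h1, h2⟩ | ⟨h1, h2⟩ | ⟨c, h0, h1, h2⟩
  · rw [h1, C.vc, h2]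
    omega
  · rw [h1, C.v0, h2]
    omega
  · rw [C.vH r h1, h2]
    exact ⟨rfl, Or.inl (C.S.zCH _ (C.sH r h1))⟩
  · rw [C.vlL c h0 r h1, h2]
    exact ⟨rfl, C.S.zlH _ (C.sL c h0) _ (C.ixL h0 h1)⟩

theorem lwi {r r' a : ℕ} (h : C.Lw r a) (h' : C.Lw r' a) : r = r' := by
  rcases h with ⟨h1, h2⟩ | ⟨h1, h2⟩ | ⟨h1, h2⟩ | ⟨c, h0, h1, h2⟩ <;>
    rcases h' with ⟨k1, k2⟩ | ⟨k1, k2⟩ | ⟨k1, k2⟩ | ⟨c', k0, k1, k2⟩
  · rw [h1, k1]
  · have := (C.S.lcpos _ (C.ixc k1)).1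
    omega
  · have := C.S.CLpos _ (C.sL r' k1)
    omega
  · have := (C.S.lLpos _ (C.sH c' k0) _ (C.ixH k0 k1)).1
    omega
  · have := (C.S.lcpos _ (C.ixc h1)).1
    omega
  · exact C.ixin _ r h1 r' k1 (C.S.lcinj _ (C.ixc h1) _ (C.ixc k1) (by omega))
  · exfalso
    apply (C.S.lcpos _ (C.ixc h1)).2.1
    rw [← h2, k2]
    exact C.sL r' k1
  · exfalso
    exact (C.S.lcpos _ (C.ixc h1)).2.2 _ (C.sH c' k0) _ (C.ixH k0 k1) (by omega)
  · have := C.S.CLpos _ (C.sL r h1)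
    omega
  · exfalso
    apply (C.S.lcpos _ (C.ixc k1)).2.1
    rw [← k2, h2]
    exact C.sL r h1
  · exact C.sLi h1 k1 (by omega)
  · exfalso
    apply (C.S.lLpos _ (C.sH c' k0) _ (C.ixH k0 k1)).2
    rw [← k2, h2]
    exact C.sL r h1
  · have := (C.S.lLpos _ (C.sH c h0) _ (C.ixH h0 h1)).1
    omega
  · exfalso
    exact (C.S.lcpos _ (C.ixc k1)).2.2 _ (C.sH c h0) _ (C.ixH h0 h1) (by omega)
  · exfalso
    apply (C.S.lLpos _ (C.sH c h0) _ (C.ixH h0 h1)).2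
    rw [← h2, k2]
    exact C.sL r' k1
  · obtain ⟨e1, e2⟩ := C.S.lLinj _ (C.sH c h0) _ (C.ixH h0 h1) _ (C.sH c' k0) _ (C.ixH k0 k1)
      (by omega)
    have e3 : c = c' := C.sHi h0 k0 e1
    subst e3
    exact C.ixin _ r h1 r' k1 e2

theorem hgi {r r' j : ℕ} (h : C.Hg r j) (h' : C.Hg r' j) : r = r' := by
  rcases h with ⟨h1, h2⟩ | ⟨h1, h2⟩ | ⟨h1, h2⟩ | ⟨c, h0, h1, h2⟩ <;>
    rcases h' with ⟨k1, k2⟩ | ⟨k1, k2⟩ | ⟨k1, k2⟩ | ⟨c', k0, k1, k2⟩
  · rw [h1, k1]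
  · omega
  · have := C.S.CHpos _ (C.sH r' k1)
    omega
  · have := (C.S.lHpos _ (C.sL c' k0) _ (C.ixL k0 k1)).1
    omega
  · omega
  · rw [h1, k1]
  · have := C.S.CHpos _ (C.sH r' k1)
    omega
  · have := (C.S.lHpos _ (C.sL c' k0) _ (C.ixL k0 k1)).1
    omega
  · have := C.S.CHpos _ (C.sH r h1)
    omega
  · have := C.S.CHpos _ (C.sH r h1)
    omega
  · exact C.sHi h1 k1 (by omega)
  · exfalso
    apply (C.S.lHpos _ (C.sL c' k0) _ (C.ixL k0 k1)).2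
    rw [← k2, h2]
    exact C.sH r h1
  · have := (C.S.lHpos _ (C.sL c h0) _ (C.ixL h0 h1)).1
    omega
  · have := (C.S.lHpos _ (C.sL c h0) _ (C.ixL h0 h1)).1
    omega
  · exfalso
    apply (C.S.lHpos _ (C.sL c h0) _ (C.ixL h0 h1)).2
    rw [← h2, k2]
    exact C.sH r' k1
  · obtain ⟨e1, e2⟩ := C.S.lHinj _ (C.sL c h0) _ (C.ixL h0 h1) _ (C.sL c' k0) _ (C.ixL k0 k1)
      (by omega)
    have e3 : c = c' := C.sLi h0 k0 e1
    subst e3
    exact C.ixin _ r h1 r' k1 e2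

theorem inj : Set.InjOn C.lab (Rpl C.m C.p C.R C.DL C.DH) := by
  intro r hr r' hr' he
  have hP := C.hP
  have hPn := C.hPn
  rcases C.cls hr with h | ⟨a, h⟩ | ⟨a, h⟩ <;> rcases C.cls hr' with k | ⟨b, k⟩ | ⟨b, k⟩
  · exact C.rin h k he
  · have h1 := C.zg r h
    have k1 := C.lwv k
    omega
  · have h1 := C.zg r h
    have k1 := C.hgv k
    omega
  · have h1 := C.lwv h
    have k1 := C.zg r' k
    omega
  · have h1 := C.lwv h
    have k1 := C.lwv k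
    have e : a = b := by omega
    subst e
    exact C.lwi h k
  · have h1 := C.lwv h
    have k1 := C.hgv k
    omega
  · have h1 := C.hgv h
    have k1 := C.zg r' k
    omega
  · have h1 := C.hgv h
    have k1 := C.lwv k
    omega
  · have h1 := C.hgv h
    have k1 := C.hgv k
    have e : a = b := by omega
    subst e
    exact C.hgi h k

theorem le {r : ℕ} (hr : r ∈ Rpl C.m C.p C.R C.DL C.DH) : C.lab r ≤ C.n := by
  have hP := C.hP
  have hPn := C.hPn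
  rcases C.cls hr with h | ⟨a, h⟩ | ⟨a, h⟩
  · have := C.zg r h
    omega
  · have := C.lwv h
    omega
  · have := C.hgv h
    omega

theorem out {r : ℕ} (hr : r ∈ Rpl C.m C.p C.R C.DL C.DH) :
    100 * C.lab r < 7 * C.P ∨ (20 * C.P < 100 * C.lab r ∧ 100 * C.lab r < 99 * C.P) ∨
    (45 * C.n < 100 * C.lab r ∧ 100 * C.lab r < 55 * C.n) ∨ (1000 * (C.n - C.lab r) < 17 * C.P) ∨
      (58 * C.P < 1000 * (C.n - C.lab r) ∧ 4 * (C.n - C.lab r) < C.P) := by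
  have hP := C.hP
  have hPn := C.hPn
  rcases C.cls hr with h | ⟨a, h⟩ | ⟨a, h⟩
  · have := C.zg r h
    omega
  · have := C.lwv h
    omega
  · have := C.hgv h
    omega

theorem wX {a : ℕ} (ha : FreeW C.n C.P a (a + C.w)) :
    ((Rpl C.m C.p C.R C.DL C.DH).filter fun r => a ≤ C.lab r ∧ C.lab r ≤ a + C.w).card ≤
      2 * C.cap := by
  refine (card_le_card ?_).trans (C.wr a)
  intro r hr
  rw [mem_filter] at hr ⊢
  obtain ⟨hr, h1, h2⟩ := hr
  have hP := C.hP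
  have hPn := C.hPn
  unfold FreeW at ha
  rcases C.cls hr with h | ⟨b, h⟩ | ⟨b, h⟩
  · exact ⟨h, h1, h2⟩
  · exfalso
    have := C.lwv h
    omega
  · exfalso
    have := C.hgv h
    omega

theorem ctr {r : ℕ} (hr : r ∈ C.R)
    (h : (∃ v, 0 < v ∧ v < C.m ∧ v ∉ Rpl C.m C.p C.R C.DL C.DH ∧ C.p v = r) ∨
      (0 < r ∧ C.p r ∉ Rpl C.m C.p C.R C.DL C.DH)) :
    45 * C.n < 100 * C.lab r ∧ 100 * C.lab r < 55 * C.n := by
  have hP := C.hP
  have hPn := C.hPn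
  have hsub : ∀ v ∈ C.R, v ∈ Rpl C.m C.p C.R C.DL C.DH := by
    intro v hv
    unfold Rpl
    exact mem_union_left _ (mem_union_left _ hv)
  have hRs : r ∈ C.Rs := by
    rw [C.mRs]
    refine ⟨hr, ?_, ?_, ?_, ?_⟩
    · rintro rfl
      rcases h with ⟨v, h1, h2, h3, h4⟩ | ⟨h1, h2⟩
      · exact h3 (hsub v (C.ch0R v (mem_chl67.2 ⟨h2, h1, h4⟩)))
      · omega
    · rintro rfl
      rcases h with ⟨v, h1, h2, h3, h4⟩ | ⟨h1, h2⟩
      · exact h3 (hsub v (C.chwR v (mem_chl67.2 ⟨h2, h1, h4⟩)))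
      · rw [C.w3] at h2
        exact h2 (hsub 0 C.zR)
    · rintro rfl
      rcases h with ⟨v, h1, h2, h3, h4⟩ | ⟨h1, h2⟩
      · exact h3 (hsub v (C.chcR v (mem_chl67.2 ⟨h2, h1, h4⟩)))
      · rw [C.c3] at h2
        exact h2 (hsub C.w0 C.wR)
    · intro hl
      rcases h with ⟨v, h1, h2, h3, h4⟩ | ⟨h1, h2⟩
      · have h5 := C.stc.2.2.2 r hl
        have h6 : v ∈ chl C.m C.p r := mem_chl67.2 ⟨h2, h1, h4⟩
        rw [h5] at h6
        exact absurd h6 (notMem_empty v)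
      · rw [(mem_chl67.1 hl).2.2] at h2
        exact h2 (hsub C.c0 C.cR)
  have := C.zg r hRs
  omega

theorem w0c : C.w0 ≠ C.c0 := by
  have h := C.par C.c0 C.c1 C.c2
  rw [C.c3] at h
  omega

theorem exi2 {i i' s : ℕ} (h : C.Exx i s) (h' : C.Exx i' s) : i = i' := by
  rcases h with ⟨h1, h2⟩ | ⟨h1, h2⟩ | ⟨h1, h2⟩ | ⟨c, h0, h1, h2⟩ | ⟨c, h0, h1, h2⟩ <;>
    rcases h' with ⟨k1, k2⟩ | ⟨k1, k2⟩ | ⟨k1, k2⟩ | ⟨c', k0, k1, k2⟩ | ⟨c', k0, k1, k2⟩
  · rw [h1, k1]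
  · omega
  · have := (C.S.s3 _ (C.ixc k1)).1
    omega
  · have := (C.S.s1 _ (C.sL c' k0) _ (C.ixL k0 k1)).1
    omega
  · have := (C.S.s2 _ (C.sH c' k0) _ (C.ixH k0 k1)).1
    omega
  · omega
  · rw [h1, k1]
  · have := (C.S.s3 _ (C.ixc k1)).1
    omega
  · have := (C.S.s1 _ (C.sL c' k0) _ (C.ixL k0 k1)).1
    omega
  · have := (C.S.s2 _ (C.sH c' k0) _ (C.ixH k0 k1)).1
    omega
  · have := (C.S.s3 _ (C.ixc h1)).1
    omega
  · have := (C.S.s3 _ (C.ixc h1)).1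
    omega
  · exact C.ixin _ i h1 i' k1 (C.S.lcinj _ (C.ixc h1) _ (C.ixc k1) (by omega))
  · exfalso
    exact C.S.s13 _ (C.sL c' k0) _ (C.ixL k0 k1) _ (C.ixc h1) (by omega)
  · exfalso
    exact C.S.s23 _ (C.sH c' k0) _ (C.ixH k0 k1) _ (C.ixc h1) (by omega)
  · have := (C.S.s1 _ (C.sL c h0) _ (C.ixL h0 h1)).1
    omega
  · have := (C.S.s1 _ (C.sL c h0) _ (C.ixL h0 h1)).1
    omega
  · exfalso
    exact C.S.s13 _ (C.sL c h0) _ (C.ixL h0 h1) _ (C.ixc k1) (by omega)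
  · obtain ⟨e1, e2⟩ := C.S.s11 _ (C.sL c h0) _ (C.ixL h0 h1) _ (C.sL c' k0) _ (C.ixL k0 k1)
      (by omega)
    have e3 : c = c' := C.sLi h0 k0 e1
    subst e3
    exact C.ixin _ i h1 i' k1 e2
  · exfalso
    exact C.S.s12 _ (C.sL c h0) _ (C.ixL h0 h1) _ (C.sH c' k0) _ (C.ixH k0 k1) (by omega)
  · have := (C.S.s2 _ (C.sH c h0) _ (C.ixH h0 h1)).1
    omega
  · have := (C.S.s2 _ (C.sH c h0) _ (C.ixH h0 h1)).1
    omega
  · exfalso
    exact C.S.s23 _ (C.sH c h0) _ (C.ixH h0 h1) _ (C.ixc k1) (by omega)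
  · exfalso
    exact C.S.s12 _ (C.sL c' k0) _ (C.ixL k0 k1) _ (C.sH c h0) _ (C.ixH h0 h1) (by omega)
  · obtain ⟨e1, e2⟩ := C.S.s22 _ (C.sH c h0) _ (C.ixH h0 h1) _ (C.sH c' k0) _ (C.ixH k0 k1)
      (by omega)
    have e3 : c = c' := C.sHi h0 k0 e1
    subst e3
    exact C.ixin _ i h1 i' k1 e2

theorem dvt {i : ℕ} (h : i < C.m) :
    dv C.m C.p C.ea C.eb C.lab i = ad (C.lab i) (C.lab (C.p i)) := by
  unfold dv
  rw [if_pos h]

theorem exv {i s : ℕ} (h : C.Exx i s) :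
    1 ≤ i ∧ i < C.m ∧ s < C.P ∧ dv C.m C.p C.ea C.eb C.lab i = C.n - s ∧
      i ∈ Rpl C.m C.p C.R C.DL C.DH ∧ C.p i ∈ Rpl C.m C.p C.R C.DL C.DH := by
  have hP := C.hP
  have hPn := C.hPn
  have hR : ∀ v ∈ C.R, v ∈ Rpl C.m C.p C.R C.DL C.DH := by
    intro v hv
    unfold Rpl
    exact mem_union_left _ (mem_union_left _ hv)
  have hL : ∀ v ∈ C.DL ∪ C.DH, v ∈ Rpl C.m C.p C.R C.DL C.DH := by
    intro v hv
    unfold Rpl
    exact mem_union_left _ (mem_union_right _ hv)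
  have hl : ∀ c ∈ C.DL ∪ C.DH, ∀ v ∈ chl C.m C.p c, v ∈ Rpl C.m C.p C.R C.DL C.DH := by
    intro c hc v hv
    unfold Rpl
    exact mem_union_right _ (mem_biUnion.2 ⟨c, hc, hv⟩)
  rcases h with ⟨h1, h2⟩ | ⟨h1, h2⟩ | ⟨h1, h2⟩ | ⟨c, h0, h1, h2⟩ | ⟨c, h0, h1, h2⟩
  · subst h1
    refine ⟨C.c1, C.c2, by omega, ?_, hR _ C.cR, ?_⟩
    · rw [C.dvt C.c2, C.c3, C.vc, C.vw, h2]
      unfold ad
      omega
    · rw [C.c3]
      exact hR _ C.wR
  · subst h1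
    refine ⟨C.w1, C.w2, by omega, ?_, hR _ C.wR, ?_⟩
    · rw [C.dvt C.w2, C.w3, C.v0, C.vw, h2]
      unfold ad
      omega
    · rw [C.w3]
      exact hR _ C.zR
  · obtain ⟨k1, k2, k3⟩ := mem_chl67.1 h1
    have k4 := C.S.s3 _ (C.ixc h1)
    refine ⟨k2, k1, by omega, ?_, hR _ (C.chcR _ h1), ?_⟩
    · rw [C.dvt k1, k3, C.vc, C.vl i h1, h2]
      unfold ad
      omega
    · rw [k3]
      exact hR _ C.cR
  · obtain ⟨k1, k2, k3⟩ := mem_chl67.1 h1
    have k4 := C.S.s1 _ (C.sL c h0) _ (C.ixL h0 h1)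
    have hcu : c ∈ C.DL ∪ C.DH := mem_union_left _ h0
    refine ⟨k2, k1, by omega, ?_, hl c hcu i h1, ?_⟩
    · rw [C.dvt k1, k3, C.vL c h0, C.vlL c h0 i h1, h2]
      unfold ad
      omega
    · rw [k3]
      exact hL c hcu
  · obtain ⟨k1, k2, k3⟩ := mem_chl67.1 h1
    have k4 := C.S.s2 _ (C.sH c h0) _ (C.ixH h0 h1)
    have hcu : c ∈ C.DL ∪ C.DH := mem_union_right _ h0
    refine ⟨k2, k1, by omega, ?_, hl c hcu i h1, ?_⟩
    · rw [C.dvt k1, k3, C.vH c h0, C.vlH c h0 i h1, h2]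
      unfold ad
      omega
    · rw [k3]
      exact hL c hcu

theorem exE {i s : ℕ} (h : C.Exx i s) : i ∈ EI C.m C.g C.p (Rpl C.m C.p C.R C.DL C.DH) := by
  obtain ⟨h1, h2, h3, h4, h5, h6⟩ := C.exv h
  unfold EI
  rw [mem_filter, mem_Ico]
  exact ⟨⟨h1, by omega⟩, Or.inr ⟨h5, h6⟩⟩

/-- edges inside `Rs` -/
def Jd (i : ℕ) : Prop := (1 ≤ i ∧ i < C.m ∧ i ∈ C.Rs ∧ C.p i ∈ C.Rs) ∨ (C.m ≤ i ∧ i < C.m + C.g)

theorem ecls {i : ℕ} (hi : i ∈ EI C.m C.g C.p (Rpl C.m C.p C.R C.DL C.DH)) :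
    (∃ s, C.Exx i s) ∨ i ∈ C.DL ∨ i ∈ C.DH ∨ (i ∈ chl C.m C.p C.w0 ∧ i ≠ C.c0) ∨
      (i ∈ chl C.m C.p 0 ∧ i ≠ C.w0) ∨ C.Jd i := by
  unfold EI at hi
  rw [mem_filter, mem_Ico] at hi
  obtain ⟨⟨h1, h2⟩, h3⟩ := hi
  by_cases hm : C.m ≤ i
  · exact Or.inr (Or.inr (Or.inr (Or.inr (Or.inr (Or.inr ⟨hm, h2⟩)))))
  obtain ⟨h4, h5⟩ : i ∈ Rpl C.m C.p C.R C.DL C.DH ∧ C.p i ∈ Rpl C.m C.p C.R C.DL C.DH := by
    rcases h3 with h3 | h3
    · omega
    · exact h3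
  have hch : i ∈ chl C.m C.p (C.p i) := mem_chl67.2 ⟨by omega, by omega, rfl⟩
  rcases C.cls h4 with k | ⟨a, k⟩ | ⟨a, k⟩
  · -- `i ∈ Rs`
    obtain ⟨k1, k2, k3, k4, k5⟩ := (C.mRs i).1 k
    by_cases e1 : C.p i = C.w0
    · rw [e1] at hch
      exact Or.inr (Or.inr (Or.inr (Or.inl ⟨hch, k4⟩)))
    by_cases e2 : C.p i = 0
    · rw [e2] at hch
      exact Or.inr (Or.inr (Or.inr (Or.inr (Or.inl ⟨hch, k3⟩))))
    refine Or.inr (Or.inr (Or.inr (Or.inr (Or.inr (Or.inl ⟨h1, by omega, k, ?_⟩)))))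
    rw [C.mRs]
    refine ⟨?_, e2, e1, ?_, ?_⟩
    · unfold Rpl at h5
      rw [mem_union, mem_union, mem_union, mem_biUnion] at h5
      rcases h5 with (h5 | h5 | h5) | ⟨c, hc, h5⟩
      · exact h5
      · exact absurd k1 ((C.dl _ h5).2.2.2.2.2 i hch)
      · exact absurd k1 ((C.dh _ h5).2.2.2.2.2 i hch)
      · exfalso
        have hem : chl C.m C.p (C.p i) = ∅ := by
          rw [mem_union] at hc
          rcases hc with hc | hc
          · exact (C.dl _ hc).2.2.2.2.1.2.2.2 _ h5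
          · exact (C.dh _ hc).2.2.2.2.1.2.2.2 _ h5
        rw [hem] at hch
        exact absurd hch (notMem_empty i)
    · intro e
      rw [e] at hch
      exact k5 hch
    · intro e
      have hem := C.stc.2.2.2 _ e
      rw [hem] at hch
      exact absurd hch (notMem_empty i)
  · rcases k with ⟨k1, k2⟩ | ⟨k1, k2⟩ | ⟨k1, k2⟩ | ⟨c, k0, k1, k2⟩
    · exact Or.inl ⟨1, Or.inr (Or.inl ⟨k1, rfl⟩)⟩
    · exact Or.inl ⟨_, Or.inr (Or.inr (Or.inl ⟨k1, rfl⟩))⟩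
    · exact Or.inr (Or.inl k1)
    · exact Or.inl ⟨_, Or.inr (Or.inr (Or.inr (Or.inr ⟨c, k0, k1, rfl⟩)))⟩
  · rcases k with ⟨k1, k2⟩ | ⟨k1, k2⟩ | ⟨k1, k2⟩ | ⟨c, k0, k1, k2⟩
    · exact Or.inl ⟨0, Or.inl ⟨k1, rfl⟩⟩
    · omega
    · exact Or.inr (Or.inr (Or.inl k1))
    · exact Or.inl ⟨_, Or.inr (Or.inr (Or.inr (Or.inl ⟨c, k0, k1, rfl⟩)))⟩

theorem dvL {i : ℕ} (h : i ∈ C.DL) :
    dv C.m C.p C.ea C.eb C.lab i = C.lab (C.p i) - C.σL i ∧
      5199 * C.n < 10000 * (C.lab (C.p i) - C.σL i) ∧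
      10000 * (C.lab (C.p i) - C.σL i) ≤ 5290 * C.n := by
  have hP := C.hP
  have hPn := C.hPn
  have h1 := C.zL i h
  have h2 := C.S.zCL _ (C.sL i h)
  refine ⟨?_, by omega, by omega⟩
  rw [C.dvt (C.dl i h).2.1, C.vL i h]
  unfold ad
  omega

theorem dvH {i : ℕ} (h : i ∈ C.DH) :
    dv C.m C.p C.ea C.eb C.lab i = C.n - (C.lab (C.p i) + C.σH i) ∧
      5299 * C.n < 10000 * (C.n - (C.lab (C.p i) + C.σH i)) ∧
      10000 * (C.n - (C.lab (C.p i) + C.σH i)) ≤ 5390 * C.n := by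
  have hP := C.hP
  have hPn := C.hPn
  have h1 := C.zH i h
  have h2 := C.S.zCH _ (C.sH i h)
  refine ⟨?_, by omega, by omega⟩
  rw [C.dvt (C.dh i h).2.1, C.vH i h]
  unfold ad
  omega

theorem dvw {i : ℕ} (h : i ∈ chl C.m C.p C.w0) (hc : i ≠ C.c0) :
    dv C.m C.p C.ea C.eb C.lab i = C.lab i ∧ 5420 * C.n < 10000 * C.lab i ∧
      10000 * C.lab i ≤ 5450 * C.n := by
  obtain ⟨k1, k2, k3⟩ := mem_chl67.1 h
  refine ⟨?_, C.zw i h hc⟩
  rw [C.dvt k1, k3, C.vw]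
  unfold ad
  omega

theorem dv0 {i : ℕ} (h : i ∈ chl C.m C.p 0) (hc : i ≠ C.w0) :
    dv C.m C.p C.ea C.eb C.lab i = C.n - 1 - C.lab i ∧ 5469 * C.n < 10000 * (C.n - 1 - C.lab i) ∧
      10000 * (C.n - 1 - C.lab i) ≤ 5495 * C.n := by
  have hP := C.hP
  have hPn := C.hPn
  obtain ⟨k1, k2, k3⟩ := mem_chl67.1 h
  have h1 := C.z0 i h hc
  refine ⟨?_, by omega, by omega⟩
  rw [C.dvt k1, k3, C.v0]
  unfold ad
  omega

theorem rsw {i : ℕ} (h : i ∈ chl C.m C.p C.w0) (hc : i ≠ C.c0) : i ∈ C.Rs := by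
  obtain ⟨k1, k2, k3⟩ := mem_chl67.1 h
  rw [C.mRs]
  refine ⟨C.chwR i h, by omega, ?_, hc, ?_⟩
  · rintro rfl
    rw [C.w3] at k3
    have := C.w1
    omega
  · intro e
    have := (mem_chl67.1 e).2.2
    exact C.w0c (by rw [← k3, this])

theorem rs0 {i : ℕ} (h : i ∈ chl C.m C.p 0) (hc : i ≠ C.w0) : i ∈ C.Rs := by
  obtain ⟨k1, k2, k3⟩ := mem_chl67.1 h
  rw [C.mRs]
  refine ⟨C.ch0R i h, by omega, hc, ?_, ?_⟩
  · rintro rfl
    rw [C.c3] at k3
    have := C.w1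
    omega
  · intro e
    have := (mem_chl67.1 e).2.2
    have := C.c1
    omega

/-- upper end of an edge -/
def er (i : ℕ) : ℕ := if i < C.m then i else C.ea (i - C.m)

/-- lower end of an edge -/
def es (i : ℕ) : ℕ := if i < C.m then C.p i else C.eb (i - C.m)

theorem jrs {i : ℕ} (h : C.Jd i) : C.er i ∈ C.Rs ∧ C.es i ∈ C.Nb (C.er i) ∧
    dv C.m C.p C.ea C.eb C.lab i = ad (C.lab (C.er i)) (C.lab (C.es i)) := by
  unfold er es dv
  rcases h with ⟨h1, h2, h3, h4⟩ | ⟨h1, h2⟩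
  · rw [if_pos h2, if_pos h2, if_pos h2]
    exact ⟨h3, C.nbp i h3 h4, rfl⟩
  · rw [if_neg (by omega), if_neg (by omega), if_neg (by omega)]
    obtain ⟨k1, k2, k3⟩ := C.exs (i - C.m) (by omega)
    exact ⟨k1, k3, rfl⟩

theorem jin {i i' : ℕ} (h : C.Jd i) (h' : C.Jd i') (e1 : C.er i = C.er i') (e2 : C.es i = C.es i') :
    i = i' := by
  unfold er at e1
  unfold es at e2
  rcases h with ⟨h1, h2, h3, h4⟩ | ⟨h1, h2⟩ <;> rcases h' with ⟨k1, k2, k3, k4⟩ | ⟨k1, k2⟩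
  · rw [if_pos h2, if_pos k2] at e1
    exact e1
  · rw [if_pos h2, if_neg (by omega)] at e1 e2
    exfalso
    have h5 := (C.ext (i' - C.m) (by omega)).2.2
    rw [← e1] at h5
    exact h5 e2
  · rw [if_neg (by omega), if_pos k2] at e1 e2
    exfalso
    have h5 := (C.ext (i - C.m) (by omega)).2.2
    rw [e1] at h5
    exact h5 e2.symm
  · rw [if_neg (by omega), if_neg (by omega)] at e1 e2
    have := C.exi (i - C.m) (by omega) (i' - C.m) (by omega) e1 e2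
    omega

theorem jdv {i : ℕ} (h : C.Jd i) : 1 ≤ dv C.m C.p C.ea C.eb C.lab i ∧
    10 * dv C.m C.p C.ea C.eb C.lab i ≤ C.n := by
  have hP := C.hP
  have hPn := C.hPn
  obtain ⟨h1, h2, h3⟩ := C.jrs h
  obtain ⟨h4, h5⟩ := C.nbR _ h1 _ h2
  have h6 := C.zg _ h1
  have h7 := C.zg _ h4
  have h8 : C.lab (C.er i) ≠ C.lab (C.es i) := fun e => by
    have := C.rin h1 h4 e
    omega
  rw [h3]
  unfold ad
  omega

theorem jdi {i i' : ℕ} (h : C.Jd i) (h' : C.Jd i')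
    (e : dv C.m C.p C.ea C.eb C.lab i = dv C.m C.p C.ea C.eb C.lab i') : i = i' := by
  obtain ⟨h1, h2, h3⟩ := C.jrs h
  obtain ⟨k1, k2, k3⟩ := C.jrs h'
  rw [h3, k3] at e
  obtain ⟨e1, e2⟩ := C.rdi _ h1 _ h2 _ k1 _ k2 e
  exact C.jin h h' e1 e2

theorem dInj : Set.InjOn (dv C.m C.p C.ea C.eb C.lab)
    (EI C.m C.g C.p (Rpl C.m C.p C.R C.DL C.DH)) := by
  intro i hi i' hi' he
  have hP := C.hP
  have hPn := C.hPn
  rcases C.ecls hi with ⟨s, h⟩ | h | h | ⟨h, h0⟩ | ⟨h, h0⟩ | h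
  · have h1 := C.exv h
    rcases C.ecls hi' with ⟨s', k⟩ | k | k | ⟨k, k0⟩ | ⟨k, k0⟩ | k
    · have k1 := C.exv k
      have e : s = s' := by omega
      subst e
      exact C.exi2 h k
    · have k1 := C.dvL k
      omega
    · have k1 := C.dvH k
      omega
    · have k1 := C.dvw k k0
      omega
    · have k1 := C.dv0 k k0
      omega
    · have k1 := C.jdv k
      omega
  · have h1 := C.dvL h
    rcases C.ecls hi' with ⟨s', k⟩ | k | k | ⟨k, k0⟩ | ⟨k, k0⟩ | k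
    · have k1 := C.exv k
      omega
    · have k1 := C.dvL k
      apply C.dLi h k
      show C.lab (C.p i) - C.σL i = C.lab (C.p i') - C.σL i'
      omega
    · have k1 := C.dvH k
      omega
    · have k1 := C.dvw k k0
      omega
    · have k1 := C.dv0 k k0
      omega
    · have k1 := C.jdv k
      omega
  · have h1 := C.dvH h
    rcases C.ecls hi' with ⟨s', k⟩ | k | k | ⟨k, k0⟩ | ⟨k, k0⟩ | k
    · have k1 := C.exv k
      omega
    · have k1 := C.dvL k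
      omega
    · have k1 := C.dvH k
      apply C.dHi h k
      show C.n - (C.lab (C.p i) + C.σH i) = C.n - (C.lab (C.p i') + C.σH i')
      omega
    · have k1 := C.dvw k k0
      omega
    · have k1 := C.dv0 k k0
      omega
    · have k1 := C.jdv k
      omega
  · have h1 := C.dvw h h0
    rcases C.ecls hi' with ⟨s', k⟩ | k | k | ⟨k, k0⟩ | ⟨k, k0⟩ | k
    · have k1 := C.exv k
      omega
    · have k1 := C.dvL k
      omega
    · have k1 := C.dvH k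
      omega
    · have k1 := C.dvw k k0
      exact C.rin (C.rsw h h0) (C.rsw k k0) (by omega)
    · have k1 := C.dv0 k k0
      omega
    · have k1 := C.jdv k
      omega
  · have h1 := C.dv0 h h0
    rcases C.ecls hi' with ⟨s', k⟩ | k | k | ⟨k, k0⟩ | ⟨k, k0⟩ | k
    · have k1 := C.exv k
      omega
    · have k1 := C.dvL k
      omega
    · have k1 := C.dvH k
      omega
    · have k1 := C.dvw k k0
      omega
    · have k1 := C.dv0 k k0
      exact C.rin (C.rs0 h h0) (C.rs0 k k0) (by omega)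
    · have k1 := C.jdv k
      omega
  · have h1 := C.jdv h
    rcases C.ecls hi' with ⟨s', k⟩ | k | k | ⟨k, k0⟩ | ⟨k, k0⟩ | k
    · have k1 := C.exv k
      omega
    · have k1 := C.dvL k
      omega
    · have k1 := C.dvH k
      omega
    · have k1 := C.dvw k k0
      omega
    · have k1 := C.dv0 k k0
      omega
    · exact C.jdi h k he

theorem dout {i : ℕ} (hi : i ∈ EI C.m C.g C.p (Rpl C.m C.p C.R C.DL C.DH)) :
    10 * dv C.m C.p C.ea C.eb C.lab i ≤ C.n ∨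
    (519 * C.n ≤ 1000 * dv C.m C.p C.ea C.eb C.lab i ∧
      1000 * dv C.m C.p C.ea C.eb C.lab i ≤ 551 * C.n) ∨
    C.n < dv C.m C.p C.ea C.eb C.lab i + C.P := by
  have hP := C.hP
  have hPn := C.hPn
  rcases C.ecls hi with ⟨s, h⟩ | h | h | ⟨h, h0⟩ | ⟨h, h0⟩ | h
  · have h1 := C.exv h
    omega
  · have h1 := C.dvL h
    omega
  · have h1 := C.dvH h
    omega
  · have h1 := C.dvw h h0
    omega
  · have h1 := C.dv0 h h0
    omega
  · have h1 := C.jdv h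
    omega

theorem dR {i : ℕ} (hi : i ∈ EI C.m C.g C.p (Rpl C.m C.p C.R C.DL C.DH)) :
    1 ≤ dv C.m C.p C.ea C.eb C.lab i ∧ dv C.m C.p C.ea C.eb C.lab i ≤ C.n := by
  have hP := C.hP
  have hPn := C.hPn
  rcases C.ecls hi with ⟨s, h⟩ | h | h | ⟨h, h0⟩ | ⟨h, h0⟩ | h
  · have h1 := C.exv h
    omega
  · have h1 := C.dvL h
    omega
  · have h1 := C.dvH h
    omega
  · have h1 := C.dvw h h0
    omega
  · have h1 := C.dv0 h h0
    omega
  · have h1 := C.jdv h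
    omega

theorem cov {s : ℕ} (hs : C.n < s + C.P) (hs2 : s ≤ C.n) :
    s ∈ (EI C.m C.g C.p (Rpl C.m C.p C.R C.DL C.DH)).image (dv C.m C.p C.ea C.eb C.lab) := by
  have hP := C.hP
  have hPn := C.hPn
  set CC : Finset ℕ := insert C.c0 (C.DL ∪ C.DH) with hCC
  set EX : Finset ℕ := insert C.c0 (insert C.w0 (CC.biUnion (chl C.m C.p))) with hEX
  have hst : ∀ c ∈ CC, StarD C.m C.p C.D c := by
    intro c hc
    rw [hCC, mem_insert, mem_union] at hc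
    rcases hc with rfl | hc | hc
    · exact C.stc
    · exact (C.dl c hc).2.2.2.2.1
    · exact (C.dh c hc).2.2.2.2.1
  have hdu : ∀ v ∈ C.R, v ∉ C.DL ∪ C.DH := by
    intro v hv hv'
    rw [mem_union] at hv'
    rcases hv' with hv' | hv'
    · exact (C.dl v hv').2.2.1 hv
    · exact (C.dh v hv').2.2.1 hv
  have hCCc : CC.card = C.M := by
    rw [hCC, card_insert_of_notMem (hdu _ C.cR), card_union_of_disjoint C.dLH, C.hDLc, C.hDHc]
    exact C.S.card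
  have hbc : (CC.biUnion (chl C.m C.p)).card = C.M * C.D := by
    rw [card_biUnion, sum_congr rfl (fun c hc => (hst c hc).2.2.1), sum_const, smul_eq_mul, hCCc]
    intro c _ c' _ hne
    show Disjoint (chl C.m C.p c) (chl C.m C.p c')
    rw [Finset.disjoint_left]
    intro v hv hv'
    exact hne (by rw [← (mem_chl67.1 hv).2.2, (mem_chl67.1 hv').2.2])
  have hwn : C.w0 ∉ CC.biUnion (chl C.m C.p) := by
    rw [mem_biUnion]
    rintro ⟨c, hc, h⟩
    have h1 := (mem_chl67.1 h).2.2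
    rw [C.w3] at h1
    rw [hCC, mem_insert, ← h1] at hc
    rcases hc with hc | hc
    · have := C.c1
      omega
    · exact hdu 0 C.zR hc
  have hcn : C.c0 ∉ insert C.w0 (CC.biUnion (chl C.m C.p)) := by
    rw [mem_insert, mem_biUnion, not_or]
    refine ⟨fun e => C.w0c e.symm, ?_⟩
    rintro ⟨c, hc, h⟩
    have h1 := (mem_chl67.1 h).2.2
    rw [C.c3] at h1
    rw [hCC, mem_insert, ← h1] at hc
    rcases hc with hc | hc
    · exact C.w0c hc
    · exact hdu _ C.wR hc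
  have hEXc : EX.card = C.P := by
    rw [hEX, card_insert_of_notMem hcn, card_insert_of_notMem hwn, hbc]
    exact C.hMP.symm
  have hEXx : ∀ i ∈ EX, ∃ s, C.Exx i s := by
    intro i hi
    rw [hEX, mem_insert, mem_insert, mem_biUnion] at hi
    rcases hi with hi | hi | ⟨c, hc, hi⟩
    · exact ⟨0, Or.inl ⟨hi, rfl⟩⟩
    · exact ⟨1, Or.inr (Or.inl ⟨hi, rfl⟩)⟩
    · rw [hCC, mem_insert, mem_union] at hc
      rcases hc with rfl | hc | hc
      · exact ⟨_, Or.inr (Or.inr (Or.inl ⟨hi, rfl⟩))⟩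
      · exact ⟨_, Or.inr (Or.inr (Or.inr (Or.inl ⟨c, hc, hi, rfl⟩)))⟩
      · exact ⟨_, Or.inr (Or.inr (Or.inr (Or.inr ⟨c, hc, hi, rfl⟩)))⟩
  have himg : EX.image (fun i => C.n - dv C.m C.p C.ea C.eb C.lab i) = range C.P := by
    apply eq_of_subset_of_card_le
    · intro x hx
      obtain ⟨i, hi, rfl⟩ := mem_image.1 hx
      obtain ⟨s', h⟩ := hEXx i hi
      have h1 := C.exv h
      rw [mem_range]
      show C.n - dv C.m C.p C.ea C.eb C.lab i < C.P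
      omega
    · rw [card_range, card_image_of_injOn, hEXc]
      intro i hi i' hi' he
      obtain ⟨s', h⟩ := hEXx i hi
      obtain ⟨s'', k⟩ := hEXx i' hi'
      have h1 := C.exv h
      have k1 := C.exv k
      have e : C.n - dv C.m C.p C.ea C.eb C.lab i = C.n - dv C.m C.p C.ea C.eb C.lab i' := he
      have e2 : s' = s'' := by omega
      subst e2
      exact C.exi2 h k
  have hmem : C.n - s ∈ EX.image (fun i => C.n - dv C.m C.p C.ea C.eb C.lab i) := by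
    rw [himg, mem_range]
    omega
  obtain ⟨i, hi, he⟩ := mem_image.1 hmem
  obtain ⟨s', h⟩ := hEXx i hi
  have h1 := C.exv h
  rw [mem_image]
  refine ⟨i, C.exE h, ?_⟩
  have he' : C.n - dv C.m C.p C.ea C.eb C.lab i = C.n - s := he
  omega

theorem wJc (a : ℕ) : ((((EI C.m C.g C.p (Rpl C.m C.p C.R C.DL C.DH)).filter fun i =>
    a ≤ dv C.m C.p C.ea C.eb C.lab i ∧ dv C.m C.p C.ea C.eb C.lab i ≤ a + C.w ∧ C.er i ∈ C.Rs ∧
      C.es i ∈ C.Nb (C.er i) ∧ 10 * dv C.m C.p C.ea C.eb C.lab i ≤ C.n).card)) ≤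
      2 * (C.cap + (C.g + 1)) := by
  have hP := C.hP
  have hPn := C.hPn
  refine le_trans ?_ (C.wJ a)
  rw [← card_sigma]
  apply card_le_card_of_injOn (fun i => (⟨C.er i, C.es i⟩ : (_ : ℕ) × ℕ))
  · intro i hi
    have hi' := mem_filter.1 (mem_coe.1 hi)
    obtain ⟨h1, h2, h3, h4, h5, h6⟩ := hi'
    have hJ : C.Jd i := by
      rcases C.ecls h1 with ⟨s, h⟩ | h | h | ⟨h, h0⟩ | ⟨h, h0⟩ | h
      · have h1 := C.exv h
        omega
      · have h1 := C.dvL h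
        omega
      · have h1 := C.dvH h
        omega
      · have h1 := C.dvw h h0
        omega
      · have h1 := C.dv0 h h0
        omega
      · exact h
    obtain ⟨k1, k2, k3⟩ := C.jrs hJ
    rw [k3] at h2 h3
    rw [mem_coe, mem_sigma]
    exact ⟨h4, mem_filter.2 ⟨h5, h2, h3⟩⟩
  · intro i hi i' hi' he
    have hJ : ∀ i ∈ ((EI C.m C.g C.p (Rpl C.m C.p C.R C.DL C.DH)).filter fun i =>
        a ≤ dv C.m C.p C.ea C.eb C.lab i ∧ dv C.m C.p C.ea C.eb C.lab i ≤ a + C.w ∧ C.er i ∈ C.Rs ∧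
          C.es i ∈ C.Nb (C.er i) ∧ 10 * dv C.m C.p C.ea C.eb C.lab i ≤ C.n), C.Jd i := by
      intro i hi
      obtain ⟨h1, h2, h3, h4, h5, h6⟩ := mem_filter.1 hi
      rcases C.ecls h1 with ⟨s, h⟩ | h | h | ⟨h, h0⟩ | ⟨h, h0⟩ | h
      · have h1 := C.exv h
        omega
      · have h1 := C.dvL h
        omega
      · have h1 := C.dvH h
        omega
      · have h1 := C.dvw h h0
        omega
      · have h1 := C.dv0 h h0
        omega
      · exact h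
    simp only [Sigma.mk.injEq, heq_eq_eq] at he
    exact C.jin (hJ i (mem_coe.1 hi)) (hJ i' (mem_coe.1 hi')) he.1 he.2

theorem wS {a : ℕ} (ha : a + C.w + C.P ≤ C.n) :
    ((EI C.m C.g C.p (Rpl C.m C.p C.R C.DL C.DH)).filter fun i =>
      a ≤ dv C.m C.p C.ea C.eb C.lab i ∧ dv C.m C.p C.ea C.eb C.lab i ≤ a + C.w).card ≤
      10 * (C.cap + C.K + C.g + 1) := by
  have hP := C.hP
  have hPn := C.hPn
  set AL := C.DL.filter fun v => a ≤ C.lab (C.p v) - C.σL v ∧ C.lab (C.p v) - C.σL v ≤ a + C.w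
    with hAL
  set AH := C.DH.filter fun v => a ≤ C.n - (C.lab (C.p v) + C.σH v) ∧
    C.n - (C.lab (C.p v) + C.σH v) ≤ a + C.w with hAH
  set AW := C.Rs.filter fun r => a ≤ C.lab r ∧ C.lab r ≤ a + C.w with hAW
  set A0 := C.Rs.filter fun r => C.n - 1 - (a + C.w) ≤ C.lab r ∧
    C.lab r ≤ C.n - 1 - (a + C.w) + C.w with hA0
  set AJ := (EI C.m C.g C.p (Rpl C.m C.p C.R C.DL C.DH)).filter fun i =>
    a ≤ dv C.m C.p C.ea C.eb C.lab i ∧ dv C.m C.p C.ea C.eb C.lab i ≤ a + C.w ∧ C.er i ∈ C.Rs ∧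
      C.es i ∈ C.Nb (C.er i) ∧ 10 * dv C.m C.p C.ea C.eb C.lab i ≤ C.n with hAJ
  have b1 : AL.card ≤ 2 * (C.cap + C.K) := C.wL a
  have b2 : AH.card ≤ 2 * (C.cap + C.K) := C.wH a
  have b3 : AW.card ≤ 2 * C.cap := C.wr a
  have b4 : A0.card ≤ 2 * C.cap := C.wr (C.n - 1 - (a + C.w))
  have b5 : AJ.card ≤ 2 * (C.cap + (C.g + 1)) := C.wJc a
  have hsub : ((EI C.m C.g C.p (Rpl C.m C.p C.R C.DL C.DH)).filter fun i =>
      a ≤ dv C.m C.p C.ea C.eb C.lab i ∧ dv C.m C.p C.ea C.eb C.lab i ≤ a + C.w) ⊆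
      (((AL ∪ AH) ∪ AW) ∪ A0) ∪ AJ := by
    intro i hi
    obtain ⟨hE, h1, h2⟩ := mem_filter.1 hi
    rw [mem_union, mem_union, mem_union, mem_union]
    rcases C.ecls hE with ⟨s, h⟩ | h | h | ⟨h, h0⟩ | ⟨h, h0⟩ | h
    · have h3 := C.exv h
      omega
    · have h3 := C.dvL h
      exact Or.inl (Or.inl (Or.inl (Or.inl (mem_filter.2 ⟨h, by omega, by omega⟩))))
    · have h3 := C.dvH h
      exact Or.inl (Or.inl (Or.inl (Or.inr (mem_filter.2 ⟨h, by omega, by omega⟩))))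
    · have h3 := C.dvw h h0
      exact Or.inl (Or.inl (Or.inr (mem_filter.2 ⟨C.rsw h h0, by omega, by omega⟩)))
    · have h3 := C.dv0 h h0
      exact Or.inl (Or.inr (mem_filter.2 ⟨C.rs0 h h0, by omega, by omega⟩))
    · have h3 := C.jdv h
      obtain ⟨k1, k2, k3⟩ := C.jrs h
      exact Or.inr (mem_filter.2 ⟨hE, h1, h2, k1, k2, h3.2⟩)
  have e1 := card_le_card hsub
  have e2 := card_union_le (((AL ∪ AH) ∪ AW) ∪ A0) AJ
  have e3 := card_union_le ((AL ∪ AH) ∪ AW) A0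
  have e4 := card_union_le (AL ∪ AH) AW
  have e5 := card_union_le AL AH
  omega

end Ct67

/-- the zones -/
def zn67 (m w0 : ℕ) (p : ℕ → ℕ) (DL DH : Finset ℕ) (r : ℕ) : ℕ × ℕ :=
  if r ∈ DL.image p then (5200, 5290) else if r ∈ DH.image p then (4610, 4700) else
    if r ∈ chl m p w0 then (5420, 5450) else if r ∈ chl m p 0 then (4505, 4530) else (4993, 5007)

theorem zn67_bd (m w0 : ℕ) (p : ℕ → ℕ) (DL DH : Finset ℕ) (r : ℕ) :
    4505 ≤ (zn67 m w0 p DL DH r).1 ∧ (zn67 m w0 p DL DH r).1 + 14 ≤ (zn67 m w0 p DL DH r).2 ∧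
      (zn67 m w0 p DL DH r).2 ≤ 5450 := by
  unfold zn67
  split_ifs <;> norm_num

theorem labels_exist {m g n P w D K M cap w0 c0 : ℕ} {ε : ℝ} {p ea eb top : ℕ → ℕ} {R Sp DL DH T CL CH : Finset ℕ}
    {lH lL : ℕ → ℕ → ℕ} {lc : ℕ → ℕ} (hn : n + 1 = m + g) (hP : 10 ^ 6 ≤ P) (hPn : 10 ^ 6 * P ≤ n)
    (hw : 0 < w) (hwP : 10 ^ 6 * w ≤ P) (hcap : 0 < cap) (hg : 10 ^ 6 * (g + 1) ≤ n)
    (hF : PForm m g D p ea eb w0 c0)
    (hD : DecG m p K D ε (Fset m g p ea eb w0 c0) R Sp DL DH T top)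
    (hS : DetS D M P CL CH lH lL lc) (hMP : P = M * D + 2) (hD1 : 1 ≤ D)
    (hDL : DL.card = CL.card) (hDH : DH.card = CH.card)
    (hc : (1 + 2 * (g + 1) ^ 2) * ((R.card + (DL.card + DH.card)) * (w + cap)) + cap * (g + 1) ^ 2 ≤ cap * (n / 2000)) :
    ∃ lab : ℕ → ℕ, LabP m g n P w (10 * ((cap : ℝ) + K + g + 1)) p ea eb R (Rpl m p R DL DH) Sp lab := by
  classical
  have hP' : 1000000 ≤ P := by simpa using hP
  have hPn' : 1000000 * P ≤ n := by simpa using hPn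
  obtain ⟨w1, w2, w3⟩ := hF.hw
  obtain ⟨c1, c2, c3⟩ := hF.hc
  have hpar := hF.par
  have hst := hF.st
  have hFs := hD.FR
  -- `F ⊆ R`
  have f0 : (0 : ℕ) ∈ Fset m g p ea eb w0 c0 := by simp [Fset]
  have fw : w0 ∈ Fset m g p ea eb w0 c0 := by simp [Fset]
  have fc : c0 ∈ Fset m g p ea eb w0 c0 := by simp [Fset]
  have fch0 : ∀ u ∈ chl m p 0, u ∈ Fset m g p ea eb w0 c0 := by
    intro u hu
    simp [Fset, hu]
  have fchw : ∀ u ∈ chl m p w0, u ∈ Fset m g p ea eb w0 c0 := by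
    intro u hu
    simp [Fset, hu]
  have fchc : ∀ u ∈ chl m p c0, u ∈ Fset m g p ea eb w0 c0 := by
    intro u hu
    simp [Fset, hu]
  have fea : ∀ j < g, ea j ∈ Fset m g p ea eb w0 c0 := by
    intro j hj
    unfold Fset
    exact mem_union_right _ (mem_union_left _ (mem_image.2 ⟨j, mem_range.2 hj, rfl⟩))
  have feb : ∀ j < g, eb j ∈ Fset m g p ea eb w0 c0 := by
    intro j hj
    unfold Fset
    exact mem_union_right _ (mem_union_right _ (mem_image.2 ⟨j, mem_range.2 hj, rfl⟩))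
  have hRlt : ∀ r ∈ R, r < m := fun r hr => mem_range.1 (hD.dec.sub hr)
  -- `Rs`
  set Rs : Finset ℕ := R \ ({0, w0, c0} ∪ chl m p c0) with hRs
  have mRs : ∀ r, r ∈ Rs ↔ r ∈ R ∧ r ≠ 0 ∧ r ≠ w0 ∧ r ≠ c0 ∧ r ∉ chl m p c0 := by
    intro r
    rw [hRs, mem_sdiff, mem_union]
    simp only [mem_insert, mem_singleton, not_or]
    tauto
  have mRsF : ∀ r ∈ R, r ∉ Fset m g p ea eb w0 c0 → r ∈ Rs := by
    intro r hr hrF
    rw [mRs]
    refine ⟨hr, ?_, ?_, ?_, fun h => hrF (fchc r h)⟩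
    · rintro rfl
      exact hrF f0
    · rintro rfl
      exact hrF fw
    · rintro rfl
      exact hrF fc
  have hav : ∀ j < g, ea j ∈ Rs ∧ eb j ∈ Rs := by
    intro j hj
    have h := hF.av j hj
    have h0 := h 0 (by simp)
    have h1 := h w0 (by simp)
    have h2 := h c0 (by simp)
    refine ⟨(mRs _).2 ⟨hFs (fea j hj), h0.1, h1.1, h2.1, ?_⟩,
      (mRs _).2 ⟨hFs (feb j hj), h0.2, h1.2, h2.2, ?_⟩⟩
    · intro h3
      exact (h _ (mem_union_right _ h3)).1 rfl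
    · intro h3
      exact (h _ (mem_union_right _ h3)).2 rfl
  have htop : ∀ τ ∈ T ∪ Sp ∪ DL ∪ DH, τ < m ∧ τ ∉ R ∧ p τ ∈ R := by
    intro τ hτ
    rw [← hD.tops, mem_filter, mem_range] at hτ
    exact hτ
  have hdl : ∀ c ∈ DL, 0 < c ∧ c < m ∧ c ∉ R ∧ p c ∈ Rs ∧ StarD m p D c ∧
      ∀ u ∈ chl m p c, u ∉ R := by
    intro c hc
    obtain ⟨h1, h2, h3⟩ := htop c (by simp [hc])
    obtain ⟨h4, h5, h6⟩ := hD.dl c hc
    exact ⟨h4.1, h1, h2, mRsF _ h3 h6, h4, h5⟩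
  have hdh : ∀ c ∈ DH, 0 < c ∧ c < m ∧ c ∉ R ∧ p c ∈ Rs ∧ StarD m p D c ∧
      ∀ u ∈ chl m p c, u ∉ R := by
    intro c hc
    obtain ⟨h1, h2, h3⟩ := htop c (by simp [hc])
    obtain ⟨h4, h5, h6⟩ := hD.dh c hc
    exact ⟨h4.1, h1, h2, mRsF _ h3 h6, h4, h5⟩
  -- neighbours and weights
  set Nb : ℕ → Finset ℕ := fun r => (if p r ∈ Rs then {p r} else ∅) ∪
    ((range g).filter fun j => ea j = r).image eb with hNb
  set wt : ℕ → ℕ := fun r => ((DL ∪ DH).filter fun c => p c = r).card with hwt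
  set lo : ℕ → ℕ := fun r => (zn67 m w0 p DL DH r).1 * n / 10000 + 1 with hlo
  set hi : ℕ → ℕ := fun r => (zn67 m w0 p DL DH r).2 * n / 10000 with hhi
  have nbp : ∀ r ∈ Rs, p r ∈ Rs → p r ∈ Nb r := by
    intro r _ h
    rw [hNb]
    refine mem_union_left _ ?_
    rw [if_pos h]
    exact mem_singleton_self _
  have nbe : ∀ j < g, eb j ∈ Nb (ea j) := by
    intro j hj
    rw [hNb]
    exact mem_union_right _ (mem_image.2 ⟨j, mem_filter.2 ⟨mem_range.2 hj, rfl⟩, rfl⟩)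
  have nbR : ∀ r ∈ Rs, ∀ s ∈ Nb r, s ∈ Rs ∧ s < r := by
    intro r hr s hs
    rw [hNb] at hs
    rcases mem_union.1 hs with hs | hs
    · split_ifs at hs with h
      · rw [mem_singleton] at hs
        subst hs
        obtain ⟨k1, k2, _⟩ := (mRs r).1 hr
        exact ⟨h, hpar r (by omega) (hRlt r k1)⟩
      · exact absurd hs (notMem_empty s)
    · obtain ⟨j, hj0, rfl⟩ := mem_image.1 hs
      obtain ⟨hj, rfl⟩ := mem_filter.1 hj0
      have hj' := mem_range.1 hj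
      exact ⟨(hav j hj').2, (hF.ext j hj').1⟩
  have nbc : ∀ r, (Nb r).card ≤ g + 1 := by
    intro r
    have h1 : (Nb r).card ≤ _ := card_union_le _ _
    have h2 : (if p r ∈ Rs then ({p r} : Finset ℕ) else ∅).card ≤ 1 := by
      split_ifs
      · simp
      · simp
    have h3 : (((range g).filter fun j => ea j = r).image eb).card ≤ g :=
      card_image_le.trans ((card_filter_le _ _).trans (by simp))
    omega
  have hwtK : ∀ r, wt r ≤ K := by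
    intro r
    by_cases h : ∃ c ∈ DL, p c = r
    · obtain ⟨c, hc, rfl⟩ := h
      refine (card_le_card ?_).trans (hD.mL (p c))
      intro c' hc'
      obtain ⟨h1, h2⟩ := mem_filter.1 hc'
      rcases mem_union.1 h1 with h1 | h1
      · exact mem_filter.2 ⟨h1, h2⟩
      · exact absurd h2.symm (hD.pLH c hc c' h1)
    · refine (card_le_card ?_).trans (hD.mH r)
      intro c' hc'
      obtain ⟨h1, h2⟩ := mem_filter.1 hc'
      rcases mem_union.1 h1 with h1 | h1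
      · exact absurd ⟨c', h1, h2⟩ h
      · exact mem_filter.2 ⟨h1, h2⟩
  have hwts : ∀ A : Finset ℕ, ∑ r ∈ A, wt r = ((DL ∪ DH).filter fun c => p c ∈ A).card := by
    intro A
    exact sum_card_fiberwise_eq_card_filter (DL ∪ DH) A p
  have hz : ∀ r ∈ Rs, lo r + n / 2000 ≤ hi r := by
    intro r _
    obtain ⟨h1, h2, h3⟩ := zn67_bd m w0 p DL DH r
    show (zn67 m w0 p DL DH r).1 * n / 10000 + 1 + n / 2000 ≤ (zn67 m w0 p DL DH r).2 * n / 10000
    have h4 : ((zn67 m w0 p DL DH r).1 + 14) * n ≤ (zn67 m w0 p DL DH r).2 * n :=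
      Nat.mul_le_mul_right _ h2
    rw [add_mul] at h4
    set X := (zn67 m w0 p DL DH r).1 * n with hX
    set Y := (zn67 m w0 p DL DH r).2 * n with hY
    omega
  have hc' : (1 + 2 * (g + 1) ^ 2) * ((Rs.card + ∑ r ∈ Rs, wt r) * (w + cap)) + cap * (g + 1) ^ 2 ≤
      cap * (n / 2000) := by
    refine le_trans ?_ hc
    apply Nat.add_le_add_right
    apply Nat.mul_le_mul_left
    apply Nat.mul_le_mul_right
    apply Nat.add_le_add
    · exact card_le_card sdiff_subset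
    · rw [hwts]
      exact (card_filter_le _ _).trans (card_union_le _ _)
  obtain ⟨lab0, r1, r2, r3, r4, r5, r6⟩ := rlabel2 (w := w) (cap := cap) (K := K) (G := g + 1)
    (L := n / 2000) Rs Nb wt lo hi hw hcap (fun r hr => ⟨nbR r hr, nbc r⟩) (fun r _ => hwtK r) hz hc'
  have r1' : ∀ r ∈ Rs, (zn67 m w0 p DL DH r).1 * n < 10000 * lab0 r ∧
      10000 * lab0 r ≤ (zn67 m w0 p DL DH r).2 * n := by
    intro r hr
    obtain ⟨h1, h2⟩ := r1 r hr
    have h1' : (zn67 m w0 p DL DH r).1 * n / 10000 + 1 ≤ lab0 r := h1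
    have h2' : lab0 r ≤ (zn67 m w0 p DL DH r).2 * n / 10000 := h2
    set X := (zn67 m w0 p DL DH r).1 * n with hX
    set Y := (zn67 m w0 p DL DH r).2 * n with hY
    omega
  obtain ⟨σL, sL1, sL2, sL3, sL4⟩ := match_dec DL CL (fun v => lab0 (p v)) hDL
  obtain ⟨σH, sH1, sH2, sH3, sH4⟩ := match_inc DH CH (fun v => lab0 (p v)) hDH
  -- the zones
  have zzL : ∀ c ∈ DL, 5200 * n < 10000 * lab0 (p c) ∧ 10000 * lab0 (p c) ≤ 5290 * n := by
    intro c hc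
    have h := r1' _ (hdl c hc).2.2.2.1
    have e : zn67 m w0 p DL DH (p c) = (5200, 5290) := by
      unfold zn67
      rw [if_pos (mem_image_of_mem p hc)]
    rw [e] at h
    exact h
  have hnL : ∀ c ∈ DH, p c ∉ DL.image p := by
    intro c hc h
    obtain ⟨c', hc', h'⟩ := mem_image.1 h
    exact hD.pLH c' hc' c hc h'
  have zzH : ∀ c ∈ DH, 4610 * n < 10000 * lab0 (p c) ∧ 10000 * lab0 (p c) ≤ 4700 * n := by
    intro c hc
    have h := r1' _ (hdh c hc).2.2.2.1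
    have e : zn67 m w0 p DL DH (p c) = (4610, 4700) := by
      unfold zn67
      rw [if_neg (hnL c hc), if_pos (mem_image_of_mem p hc)]
    rw [e] at h
    exact h
  have hnF : ∀ r ∈ Fset m g p ea eb w0 c0, r ∉ DL.image p ∧ r ∉ DH.image p := by
    intro r hr
    constructor
    · intro h
      obtain ⟨c', hc', h'⟩ := mem_image.1 h
      rw [← h'] at hr
      exact (hD.dl c' hc').2.2 hr
    · intro h
      obtain ⟨c', hc', h'⟩ := mem_image.1 h
      rw [← h'] at hr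
      exact (hD.dh c' hc').2.2 hr
  have w0c : w0 ≠ c0 := by
    have h := hpar c0 c1 c2
    rw [c3] at h
    omega
  have rsw : ∀ r ∈ chl m p w0, r ≠ c0 → r ∈ Rs := by
    intro r hr hrc
    obtain ⟨k1, k2, k3⟩ := mem_chl67.1 hr
    rw [mRs]
    refine ⟨hFs (fchw r hr), by omega, ?_, hrc, ?_⟩
    · rintro rfl
      omega
    · intro e
      have := (mem_chl67.1 e).2.2
      exact w0c (by rw [← k3, this])
  have rs0 : ∀ r ∈ chl m p 0, r ≠ w0 → r ∈ Rs := by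
    intro r hr hrc
    obtain ⟨k1, k2, k3⟩ := mem_chl67.1 hr
    rw [mRs]
    refine ⟨hFs (fch0 r hr), by omega, hrc, ?_, ?_⟩
    · rintro rfl
      omega
    · intro e
      have := (mem_chl67.1 e).2.2
      omega
  have zzw : ∀ r ∈ chl m p w0, r ≠ c0 → 5420 * n < 10000 * lab0 r ∧ 10000 * lab0 r ≤ 5450 * n := by
    intro r hr hrc
    have h := r1' _ (rsw r hr hrc)
    have e : zn67 m w0 p DL DH r = (5420, 5450) := by
      unfold zn67
      rw [if_neg (hnF r (fchw r hr)).1, if_neg (hnF r (fchw r hr)).2, if_pos hr]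
    rw [e] at h
    exact h
  have zz0 : ∀ r ∈ chl m p 0, r ≠ w0 → 4505 * n < 10000 * lab0 r ∧ 10000 * lab0 r ≤ 4530 * n := by
    intro r hr hrc
    have h := r1' _ (rs0 r hr hrc)
    have e : zn67 m w0 p DL DH r = (4505, 4530) := by
      unfold zn67
      rw [if_neg (hnF r (fch0 r hr)).1, if_neg (hnF r (fch0 r hr)).2, if_neg, if_pos hr]
      intro h'
      have h1 := (mem_chl67.1 hr).2.2
      have h2 := (mem_chl67.1 h').2.2
      omega
    rw [e] at h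
    exact h
  have zzg : ∀ r ∈ Rs, 4505 * n < 10000 * lab0 r ∧ 10000 * lab0 r ≤ 5450 * n := by
    intro r hr
    obtain ⟨h1, h2, h3⟩ := zn67_bd m w0 p DL DH r
    obtain ⟨h4, h5⟩ := r1' r hr
    have h6 : 4505 * n ≤ (zn67 m w0 p DL DH r).1 * n := Nat.mul_le_mul_right _ h1
    have h7 : (zn67 m w0 p DL DH r).2 * n ≤ 5450 * n := Nat.mul_le_mul_right _ h3
    omega
  -- the labelling
  set lab : ℕ → ℕ := fun v =>
    if v = 0 then n - 1 else if v = w0 then 0 else if v = c0 then n else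
      if v ∈ chl m p c0 then lc (ix67 m p v) else if v ∈ DL then σL v else
        if v ∈ DH then n - σH v else if p v ∈ DL then n - lH (σL (p v)) (ix67 m p v) else
          if p v ∈ DH then lL (σH (p v)) (ix67 m p v) else lab0 v with hlab
  have hRDL : ∀ r ∈ R, r ∉ DL := fun r hr h => (hdl r h).2.2.1 hr
  have hRDH : ∀ r ∈ R, r ∉ DH := fun r hr h => (hdh r h).2.2.1 hr
  have hchR : ∀ v ∈ chl m p c0, v ∈ R := fun v hv => hFs (fchc v hv)
  have v0 : lab 0 = n - 1 := by simp [hlab]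
  have vw : lab w0 = 0 := by
    show (if w0 = 0 then n - 1 else if w0 = w0 then 0 else _) = 0
    rw [if_neg (by omega), if_pos rfl]
  have vc : lab c0 = n := by
    show (if c0 = 0 then n - 1 else if c0 = w0 then 0 else if c0 = c0 then n else _) = n
    rw [if_neg (by omega), if_neg w0c.symm, if_pos rfl]
  have nch : ∀ v ∈ chl m p c0, v ≠ 0 ∧ v ≠ w0 ∧ v ≠ c0 := by
    intro v hv
    obtain ⟨k1, k2, k3⟩ := mem_chl67.1 hv
    refine ⟨by omega, ?_, ?_⟩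
    · rintro rfl
      omega
    · rintro rfl
      exact w0c (by rw [← c3, k3])
  have vl : ∀ v ∈ chl m p c0, lab v = lc (ix67 m p v) := by
    intro v hv
    obtain ⟨h1, h2, h3⟩ := nch v hv
    simp only [hlab]
    rw [if_neg h1, if_neg h2, if_neg h3, if_pos hv]
  have nR : ∀ v, v ∉ R → v ≠ 0 ∧ v ≠ w0 ∧ v ≠ c0 ∧ v ∉ chl m p c0 := by
    intro v hv
    refine ⟨?_, ?_, ?_, fun h => hv (hchR v h)⟩
    · rintro rfl
      exact hv (hFs f0)
    · rintro rfl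
      exact hv (hFs fw)
    · rintro rfl
      exact hv (hFs fc)
  have vL : ∀ v ∈ DL, lab v = σL v := by
    intro v hv
    obtain ⟨h1, h2, h3, h4⟩ := nR v (hdl v hv).2.2.1
    simp only [hlab]
    rw [if_neg h1, if_neg h2, if_neg h3, if_neg h4, if_pos hv]
  have vH : ∀ v ∈ DH, lab v = n - σH v := by
    intro v hv
    obtain ⟨h1, h2, h3, h4⟩ := nR v (hdh v hv).2.2.1
    have h5 : v ∉ DL := fun h => (Finset.disjoint_left.1 hD.dLH) h hv
    simp only [hlab]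
    rw [if_neg h1, if_neg h2, if_neg h3, if_neg h4, if_neg h5, if_pos hv]
  have nD : ∀ c, c ∉ R → ∀ v ∈ chl m p c, v ∉ DL ∧ v ∉ DH := by
    intro c hc v hv
    have h1 := (mem_chl67.1 hv).2.2
    constructor
    · intro h
      have h2 := (hdl v h).2.2.2.1
      rw [h1] at h2
      exact hc ((mRs _).1 h2).1
    · intro h
      have h2 := (hdh v h).2.2.2.1
      rw [h1] at h2
      exact hc ((mRs _).1 h2).1
  have vlL : ∀ c ∈ DL, ∀ v ∈ chl m p c, lab v = n - lH (σL c) (ix67 m p v) := by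
    intro c hc v hv
    obtain ⟨h1, h2, h3, h4⟩ := nR v ((hdl c hc).2.2.2.2.2 v hv)
    obtain ⟨h5, h6⟩ := nD c (hdl c hc).2.2.1 v hv
    have h7 := (mem_chl67.1 hv).2.2
    simp only [hlab]
    rw [if_neg h1, if_neg h2, if_neg h3, if_neg h4, if_neg h5, if_neg h6, h7, if_pos hc]
  have vlH : ∀ c ∈ DH, ∀ v ∈ chl m p c, lab v = lL (σH c) (ix67 m p v) := by
    intro c hc v hv
    obtain ⟨h1, h2, h3, h4⟩ := nR v ((hdh c hc).2.2.2.2.2 v hv)
    obtain ⟨h5, h6⟩ := nD c (hdh c hc).2.2.1 v hv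
    have h7 := (mem_chl67.1 hv).2.2
    have h8 : c ∉ DL := fun h => (Finset.disjoint_left.1 hD.dLH) h hc
    simp only [hlab]
    rw [if_neg h1, if_neg h2, if_neg h3, if_neg h4, if_neg h5, if_neg h6, h7, if_neg h8, if_pos hc]
  have vR : ∀ v ∈ Rs, lab v = lab0 v := by
    intro v hv
    obtain ⟨h0, h1, h2, h3, h4⟩ := (mRs v).1 hv
    have hch : v ∈ chl m p (p v) := mem_chl67.2 ⟨hRlt v h0, by omega, rfl⟩
    have h7 : p v ∉ DL := fun h => (hdl _ h).2.2.2.2.2 v hch h0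
    have h8 : p v ∉ DH := fun h => (hdh _ h).2.2.2.2.2 v hch h0
    simp only [hlab]
    rw [if_neg h1, if_neg h2, if_neg h3, if_neg h4, if_neg (hRDL v h0), if_neg (hRDH v h0),
      if_neg h7, if_neg h8]
  have leL : ∀ v ∈ DL, σL v ≤ lab0 (p v) := by
    intro v hv
    have h1 := hS.zCL _ (sL1 v hv)
    have h2 := zzL v hv
    omega
  have leH : ∀ v ∈ DH, lab0 (p v) + σH v ≤ n := by
    intro v hv
    have h1 := hS.zCH _ (sH1 v hv)
    have h2 := zzH v hv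
    omega
  obtain ⟨dL1, dL2⟩ := dec_window sL2 leL sL4
  obtain ⟨dH1, dH2⟩ := inc_window (N := n) sH2 leH sH4
  have wR : ∀ a, (Rs.filter fun r => a ≤ lab r ∧ lab r ≤ a + w) =
      Rs.filter fun r => a ≤ lab0 r ∧ lab0 r ≤ a + w := by
    intro a
    apply filter_congr
    intro r hr
    rw [vR r hr]
  have vRL : ∀ v ∈ DL, lab (p v) = lab0 (p v) := fun v hv => vR _ (hdl v hv).2.2.2.1
  have vRH : ∀ v ∈ DH, lab (p v) = lab0 (p v) := fun v hv => vR _ (hdh v hv).2.2.2.1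
  have cL : ∀ a', (DL.filter fun v => a' ≤ lab0 (p v) ∧ lab0 (p v) ≤ a' + w).card ≤
      2 * (cap + K) := by
    intro a'
    refine le_trans ?_ (r5 a')
    rw [hwts]
    apply card_le_card
    intro v hv
    obtain ⟨h1, h2⟩ := mem_filter.1 hv
    exact mem_filter.2 ⟨mem_union_left _ h1, mem_filter.2 ⟨(hdl v h1).2.2.2.1, h2⟩⟩
  have cH : ∀ a', (DH.filter fun v => a' ≤ lab0 (p v) ∧ lab0 (p v) ≤ a' + w).card ≤
      2 * (cap + K) := by
    intro a'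
    refine le_trans ?_ (r5 a')
    rw [hwts]
    apply card_le_card
    intro v hv
    obtain ⟨h1, h2⟩ := mem_filter.1 hv
    exact mem_filter.2 ⟨mem_union_right _ h1, mem_filter.2 ⟨(hdh v h1).2.2.2.1, h2⟩⟩
  let C : Ct67 :=
    { m := m, g := g, n := n, P := P, w := w, D := D, K := K, M := M, cap := cap, w0 := w0, c0 := c0
      p := p, ea := ea, eb := eb, R := R, Rs := Rs, DL := DL, DH := DH, CL := CL, CH := CH
      lH := lH, lL := lL, lc := lc, σL := σL, σH := σH, lab := lab, ix := ix67 m p, Nb := Nb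
      hP := hP', hPn := hPn', par := hpar, w1 := w1, w2 := w2, w3 := w3, c1 := c1, c2 := c2
      c3 := c3, stc := hst, ext := hF.ext, exi := hF.exi, zR := hFs f0, wR := hFs fw, cR := hFs fc
      ch0R := fun u hu => hFs (fch0 u hu), chwR := fun u hu => hFs (fchw u hu), chcR := hchR
      Rlt := hRlt, mRs := mRs, exs := fun j hj => ⟨(hav j hj).1, (hav j hj).2, nbe j hj⟩
      nbp := nbp, nbR := nbR, dl := hdl, dh := hdh, dLH := hD.dLH, hDLc := hDL, hDHc := hDH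
      hMP := hMP, S := hS
      ixlt := fun c hc u hu => by
        have := ix67_lt hu
        rw [hc.2.2.1] at this
        exact this
      ixin := fun c u hu u' hu' h => ix67_inj hu hu' h
      sL := sL1, sLi := sL2, sH := sH1, sHi := sH2
      v0 := v0, vw := vw, vc := vc, vl := vl, vL := vL, vH := vH, vlL := vlL, vlH := vlH
      zg := fun r hr => by rw [vR r hr]; exact zzg r hr
      zL := fun c hc => by rw [vRL c hc]; exact zzL c hc
      zH := fun c hc => by rw [vRH c hc]; exact zzH c hc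
      zw := fun r hr hrc => by rw [vR r (rsw r hr hrc)]; exact zzw r hr hrc
      z0 := fun r hr hrc => by rw [vR r (rs0 r hr hrc)]; exact zz0 r hr hrc
      rin := fun r hr r' hr' h => by
        rw [vR r hr, vR r' hr'] at h
        exact r2 hr hr' h
      rdi := fun r hr s hs r' hr' s' hs' h => by
        rw [vR r hr, vR r' hr', vR s (nbR r hr s hs).1, vR s' (nbR r' hr' s' hs').1] at h
        exact r3 r hr s hs r' hr' s' hs' h
      dLi := fun v hv v' hv' h => by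
        have h' : lab (p v) - σL v = lab (p v') - σL v' := h
        rw [vRL v hv, vRL v' hv'] at h'
        exact dL1 hv hv' h'
      dHi := fun v hv v' hv' h => by
        have h' : n - (lab (p v) + σH v) = n - (lab (p v') + σH v') := h
        rw [vRH v hv, vRH v' hv'] at h'
        exact dH1 hv hv' h'
      wr := fun a => by rw [wR a]; exact r4 a
      wL := fun a => by
        obtain ⟨a', ha'⟩ := dL2 a w
        refine le_trans (card_le_card ?_) (cL a')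
        intro v hv
        apply ha'
        obtain ⟨h1, h2⟩ := mem_filter.1 hv
        rw [vRL v h1] at h2
        exact mem_filter.2 ⟨h1, h2⟩
      wH := fun a => by
        obtain ⟨a', ha'⟩ := dH2 a w
        refine le_trans (card_le_card ?_) (cH a')
        intro v hv
        apply ha'
        obtain ⟨h1, h2⟩ := mem_filter.1 hv
        rw [vRH v h1] at h2
        exact mem_filter.2 ⟨h1, h2⟩
      wJ := fun a => by
        refine le_trans (le_of_eq ?_) (r6 a)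
        apply sum_congr rfl
        intro r hr
        congr 1
        apply filter_congr
        intro s hs
        rw [vR r hr, vR s (nbR r hr s hs).1] }
  refine ⟨lab, ?_⟩
  constructor
  · exact fun r hr => C.le hr
  · exact C.inj
  · exact C.dInj
  · exact fun i hi => C.dR hi
  · exact fun s hs hs2 => C.cov hs hs2
  · exact fun r hr h => C.ctr hr h
  · intro v hv
    obtain ⟨h1, h2, h3⟩ := htop v (by simp [hv])
    have h4 : p v ∈ Rs := mRsF _ h3 (hD.spF v hv)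
    have h5 := r1' _ h4
    have e : zn67 m w0 p DL DH (p v) = (4993, 5007) := by
      unfold zn67
      rw [if_neg, if_neg, if_neg, if_neg]
      · exact fun h => hD.spF v hv (fch0 _ h)
      · exact fun h => hD.spF v hv (fchw _ h)
      · intro h
        obtain ⟨c', hc', h'⟩ := mem_image.1 h
        exact hD.pHS c' hc' v hv h'
      · intro h
        obtain ⟨c', hc', h'⟩ := mem_image.1 h
        exact hD.pLS c' hc' v hv h'
    rw [e] at h5
    simp only at h5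
    rw [vR _ h4]
    omega
  · exact fun r hr => C.out hr
  · exact fun i hi => C.dout hi
  · intro a ha
    have h1 := C.wX (a := a) ha
    have h2 : (((Rpl m p R DL DH).filter fun r => a ≤ lab r ∧ lab r ≤ a + w).card : ℝ) ≤
        2 * (cap : ℝ) := by exact_mod_cast h1
    have h3 : (0 : ℝ) ≤ cap := Nat.cast_nonneg _
    have h4 : (0 : ℝ) ≤ K := Nat.cast_nonneg _
    have h5 : (0 : ℝ) ≤ g := Nat.cast_nonneg _
    linarith
  · intro a ha
    have h1 := C.wS (a := a) ha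
    have h2 : (((EI m g p (Rpl m p R DL DH)).filter fun i => a ≤ dv m p ea eb lab i ∧
        dv m p ea eb lab i ≤ a + w).card : ℝ) ≤ 10 * ((cap : ℝ) + K + g + 1) := by
      exact_mod_cast h1
    exact h2

end Pool.Agent.GRC
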