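import Pool.Agent.Helper28.GRC.Prof

/-!
# GRC-LC: counting missing labels and differences in intervals

`Loc` bounds the number of missing elements in windows `[a, a+w]`.
Proof in words.  If `b - a < w` extend `[a,b]` to a window of length `w` inside the same part of the free region (all three parts have length `≥ w` as `10^6 w ≤ P`, `100 P ≤ n`); the count
is `≤ t w`.  Otherwise cover `[a,b]` by the windows starting at `a, a+w, .., a + (q-1) w` (`q = (b-a)/w`) and the window `[b-w, b]`: `≤ (q+1) t w ≤ t (b - a + w)`.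
`lc_ad`: the `x > c` give differences in an interval of length `≤ b - a` contained in `[1, n-P]`, the same for `x < c`, and `x = c` is one more element.
-/

set_option autoImplicit false

namespace Pool.Agent.GRC

open Finset

namespace LC56

/-- covering of a long interval by windows -/
theorem cover {p : ℕ → Prop} [DecidablePred p] {t : ℝ} {w : ℕ} (hw : 0 < w) (ht : 0 ≤ t) (m : ℕ) :
    ∀ a b : ℕ, b - a ≤ m → a + w ≤ b →
      (∀ i, a ≤ i → i + w ≤ b → (((Icc i (i + w)).filter p).card : ℝ) ≤ t * w) →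
      (((Icc a b).filter p).card : ℝ) ≤ t * ((b : ℝ) - a + w) := by
  induction m with
  | zero =>
    intro a b hm hab
    omega
  | succ m ih =>
    intro a b hm hab H
    have hab' : (a : ℝ) + w ≤ b := by exact_mod_cast hab
    rcases Nat.lt_or_ge (a + 2 * w) b with h2 | h2
    · have h1 := H a le_rfl hab
      have h3 := ih (a + w) b (by omega) (by omega) fun i hi hib => H i (by omega) hib
      have hsub : (Icc a b).filter p ⊆ (Icc a (a + w)).filter p ∪ (Icc (a + w) b).filter p := by
        intro x hx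
        rw [mem_filter, mem_Icc] at hx
        rw [mem_union, mem_filter, mem_filter, mem_Icc, mem_Icc]
        rcases Nat.lt_or_ge x (a + w) with h | h
        · left; exact ⟨⟨hx.1.1, h.le⟩, hx.2⟩
        · right; exact ⟨⟨h, hx.1.2⟩, hx.2⟩
      have hc := (card_le_card hsub).trans (card_union_le _ _)
      have hc' : (((Icc a b).filter p).card : ℝ) ≤
          (((Icc a (a + w)).filter p).card : ℝ) + (((Icc (a + w) b).filter p).card : ℝ) := by
        exact_mod_cast hc
      push_cast at h3
      nlinarith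
    · have h1 := H a le_rfl hab
      have h3 := H (b - w) (by omega) (by omega)
      have hsub : (Icc a b).filter p ⊆
          (Icc a (a + w)).filter p ∪ (Icc (b - w) (b - w + w)).filter p := by
        intro x hx
        rw [mem_filter, mem_Icc] at hx
        rw [mem_union, mem_filter, mem_filter, mem_Icc, mem_Icc]
        rcases Nat.lt_or_ge x (a + w) with h | h
        · left; exact ⟨⟨hx.1.1, h.le⟩, hx.2⟩
        · right; exact ⟨⟨by omega, by omega⟩, hx.2⟩
      have hc := (card_le_card hsub).trans (card_union_le _ _)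
      have hc' : (((Icc a b).filter p).card : ℝ) ≤
          (((Icc a (a + w)).filter p).card : ℝ) +
            (((Icc (b - w) (b - w + w)).filter p).card : ℝ) := by
        exact_mod_cast hc
      have h4 : t * (w + w) ≤ t * ((b : ℝ) - a + w) := mul_le_mul_of_nonneg_left (by linarith) ht
      linarith

/-- an interval inside one window -/
theorem inWin {p : ℕ → Prop} [DecidablePred p] {t : ℝ} {w a b a' : ℕ} (ht : 0 ≤ t) (hab : a ≤ b)
    (h1 : a' ≤ a) (h2 : b ≤ a' + w)
    (H : (((Icc a' (a' + w)).filter p).card : ℝ) ≤ t * w) :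
    (((Icc a b).filter p).card : ℝ) ≤ t * ((b : ℝ) - a + w) := by
  have hab' : (a : ℝ) ≤ b := by exact_mod_cast hab
  have hsub : (Icc a b).filter p ⊆ (Icc a' (a' + w)).filter p := by
    intro x hx
    rw [mem_filter, mem_Icc] at hx ⊢
    exact ⟨⟨by omega, by omega⟩, hx.2⟩
  have hc : (((Icc a b).filter p).card : ℝ) ≤ (((Icc a' (a' + w)).filter p).card : ℝ) := by
    exact_mod_cast card_le_card hsub
  have h4 : t * (w : ℝ) ≤ t * ((b : ℝ) - a + w) := mul_le_mul_of_nonneg_left (by linarith) ht
  linarith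

theorem free_mono {n P a b a' b' : ℕ} (h : FreeW n P a b) (ha : a ≤ a') (hb : b' ≤ b) :
    FreeW n P a' b' := by
  unfold FreeW at *
  omega

theorem free_ext {n P w a b : ℕ} (hw : 0 < w) (hwP : 10 ^ 6 * w ≤ P) (hPn : 100 * P ≤ n)
    (h : FreeW n P a b) (hab : a ≤ b) (hlt : b < a + w) :
    ∃ a', a' ≤ a ∧ b ≤ a' + w ∧ FreeW n P a' (a' + w) := by
  norm_num at hwP
  by_cases h1 : FreeW n P a (a + w)
  · exact ⟨a, le_rfl, by omega, h1⟩
  · refine ⟨b - w, ?_, ?_, ?_⟩
    · omega
    · omega
    · unfold FreeW at *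
      omega

end LC56

open LC56

theorem lc_X {n P w : ℕ} {t : ℝ} {X S : Finset ℕ} (h : Loc n P w t X S) (hw : 0 < w) (ht : 0 ≤ t)
    (hwP : 10 ^ 6 * w ≤ P) (hPn : 100 * P ≤ n) {a b : ℕ} (hab : a ≤ b) (hf : FreeW n P a b) :
    (((Icc a b).filter (· ∉ X)).card : ℝ) ≤ t * ((b : ℝ) - a + w) := by
  rcases Nat.lt_or_ge b (a + w) with h1 | h1
  · obtain ⟨a', h2, h3, h4⟩ := free_ext hw hwP hPn hf hab h1
    exact inWin ht hab h2 h3 (h.locX a' h4)
  · exact cover hw ht (b - a) a b le_rfl h1 fun i hi hib => h.locX i (free_mono hf hi hib)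

theorem lc_S {n P w : ℕ} {t : ℝ} {X S : Finset ℕ} (h : Loc n P w t X S) (hw : 0 < w) (ht : 0 ≤ t)
    (hwP : 10 ^ 6 * w ≤ P) (hPn : 100 * P ≤ n) {a b : ℕ} (ha : 1 ≤ a) (hab : a ≤ b) (hb : b + P ≤ n) :
    (((Icc a b).filter (· ∉ S)).card : ℝ) ≤ t * ((b : ℝ) - a + w) := by
  have hwP' := hwP
  norm_num at hwP'
  rcases Nat.lt_or_ge b (a + w) with h1 | h1
  · by_cases h2 : a + w + P ≤ n
    · exact inWin ht hab le_rfl (by omega) (h.locS a ha h2)
    · exact inWin (a' := b - w) ht hab (by omega) (by omega)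
        (h.locS (b - w) (by omega) (by omega))
  · exact cover hw ht (b - a) a b le_rfl h1 fun i hi hib => h.locS i (by omega) (by omega)

namespace LC56

theorem cS {n P w : ℕ} {t : ℝ} {X S : Finset ℕ} (h : Loc n P w t X S) (hw : 0 < w) (ht : 0 ≤ t)
    (hwP : 10 ^ 6 * w ≤ P) (hPn : 100 * P ≤ n) {lo hi : ℕ} {L : ℝ} (hL : (hi : ℝ) - lo ≤ L)
    (hL0 : 0 ≤ L) (F : Finset ℕ) (f : ℕ → ℕ) (inj : Set.InjOn f F)
    (hf : ∀ x ∈ F, lo ≤ f x ∧ f x ≤ hi ∧ 1 ≤ f x ∧ f x ∉ S ∧ f x + P ≤ n) :
    (F.card : ℝ) ≤ t * (L + w) := by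
  have hw0 : (0 : ℝ) ≤ w := Nat.cast_nonneg w
  rcases Nat.lt_or_ge (min hi (n - P)) (max lo 1) with h1 | h1
  · have hF : F = ∅ := by
      rw [eq_empty_iff_forall_notMem]
      intro x hx
      have := hf x hx
      omega
    rw [hF, card_empty]
    push_cast
    positivity
  · have h2 := lc_S h hw ht hwP hPn (le_max_right lo 1) h1 (by omega)
    have h3 : F.card ≤ ((Icc (max lo 1) (min hi (n - P))).filter (· ∉ S)).card := by
      refine card_le_card_of_injOn f ?_ inj
      intro x hx
      have := hf x hx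
      simp only [coe_filter, mem_Icc, Set.mem_ofPred_eq]
      exact ⟨⟨by omega, by omega⟩, this.2.2.2.1⟩
    have h4 : (F.card : ℝ) ≤ (((Icc (max lo 1) (min hi (n - P))).filter (· ∉ S)).card : ℝ) := by
      exact_mod_cast h3
    have h5 : ((min hi (n - P) : ℕ) : ℝ) ≤ hi := by exact_mod_cast min_le_left _ _
    have h6 : (lo : ℝ) ≤ ((max lo 1 : ℕ) : ℝ) := by exact_mod_cast le_max_left _ _
    have h7 : t * (((min hi (n - P) : ℕ) : ℝ) - ((max lo 1 : ℕ) : ℝ) + w) ≤ t * (L + w) :=
      mul_le_mul_of_nonneg_left (by linarith) ht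
    linarith

end LC56

theorem lc_ad {n P w : ℕ} {t : ℝ} {X S : Finset ℕ} (h : Loc n P w t X S) (hw : 0 < w) (ht : 0 ≤ t)
    (hwP : 10 ^ 6 * w ≤ P) (hPn : 100 * P ≤ n) (c : ℕ) {a b : ℕ} (hab : a ≤ b) :
    (((Icc a b).filter fun x => ad c x ∉ S ∧ ad c x + P ≤ n).card : ℝ) ≤ 2 * t * ((b : ℝ) - a + w) + 1 := by
  have hab' : (a : ℝ) ≤ b := by exact_mod_cast hab
  set F := (Icc a b).filter fun x => ad c x ∉ S ∧ ad c x + P ≤ n with hF
  have hsub : F ⊆ F.filter (fun x => c < x) ∪ (F.filter (fun x => x < c) ∪ {c}) := by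
    intro x hx
    rcases lt_trichotomy x c with h1 | h1 | h1
    · exact mem_union_right _ (mem_union_left _ (mem_filter.2 ⟨hx, h1⟩))
    · exact mem_union_right _ (mem_union_right _ (mem_singleton.2 h1))
    · exact mem_union_left _ (mem_filter.2 ⟨hx, h1⟩)
  have hcard : (F.card : ℝ) ≤ ((F.filter (fun x => c < x)).card : ℝ) +
      (((F.filter (fun x => x < c)).card : ℝ) + 1) := by
    have h1 := (card_le_card hsub).trans (card_union_le _ _)
    have h2 := card_union_le (F.filter (fun x => x < c)) {c}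
    rw [card_singleton] at h2
    have h3 : F.card ≤ (F.filter (fun x => c < x)).card + ((F.filter (fun x => x < c)).card + 1) := by
      omega
    exact_mod_cast h3
  have hG : ((F.filter (fun x => c < x)).card : ℝ) ≤ t * ((b : ℝ) - a + w) := by
    rcases Nat.lt_or_ge b c with hbc | hbc
    · have hE : F.filter (fun x => c < x) = ∅ := by
        rw [eq_empty_iff_forall_notMem]
        intro x hx
        rw [mem_filter, hF, mem_filter, mem_Icc] at hx
        omega
      rw [hE, card_empty]
      push_cast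
      have : (0 : ℝ) ≤ w := Nat.cast_nonneg w
      exact mul_nonneg ht (by linarith)
    · refine cS h hw ht hwP hPn (lo := a - c) (hi := b - c) (L := (b : ℝ) - a) ?_ (by linarith)
        _ (fun x => x - c) ?_ ?_
      · rw [Nat.cast_sub hbc]
        have : (a : ℝ) - c ≤ ((a - c : ℕ) : ℝ) := by
          rcases Nat.lt_or_ge a c with h1 | h1
          · have h2 : (a : ℝ) < c := by exact_mod_cast h1
            have h3 : (0 : ℝ) ≤ ((a - c : ℕ) : ℝ) := Nat.cast_nonneg _
            linarith
          · rw [Nat.cast_sub h1]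
        linarith
      · intro x hx y hy hxy
        simp only [coe_filter, Set.mem_ofPred_eq] at hx hy hxy
        omega
      · intro x hx
        rw [mem_filter, hF, mem_filter, mem_Icc] at hx
        have e : ad c x = x - c := by
          unfold ad
          omega
        rw [e] at hx
        exact ⟨by omega, by omega, by omega, hx.1.2.1, hx.1.2.2⟩
  have hL : ((F.filter (fun x => x < c)).card : ℝ) ≤ t * ((b : ℝ) - a + w) := by
    rcases Nat.lt_or_ge c a with hac | hac
    · have hE : F.filter (fun x => x < c) = ∅ := by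
        rw [eq_empty_iff_forall_notMem]
        intro x hx
        rw [mem_filter, hF, mem_filter, mem_Icc] at hx
        omega
      rw [hE, card_empty]
      push_cast
      have : (0 : ℝ) ≤ w := Nat.cast_nonneg w
      exact mul_nonneg ht (by linarith)
    · refine cS h hw ht hwP hPn (lo := c - b) (hi := c - a) (L := (b : ℝ) - a) ?_ (by linarith)
        _ (fun x => c - x) ?_ ?_
      · rw [Nat.cast_sub hac]
        have : (c : ℝ) - b ≤ ((c - b : ℕ) : ℝ) := by
          rcases Nat.lt_or_ge c b with h1 | h1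
          · have h2 : (c : ℝ) < b := by exact_mod_cast h1
            have h3 : (0 : ℝ) ≤ ((c - b : ℕ) : ℝ) := Nat.cast_nonneg _
            linarith
          · rw [Nat.cast_sub h1]
        linarith
      · intro x hx y hy hxy
        simp only [coe_filter, Set.mem_ofPred_eq] at hx hy hxy
        omega
      · intro x hx
        rw [mem_filter, hF, mem_filter, mem_Icc] at hx
        have e : ad c x = c - x := by
          unfold ad
          omega
        rw [e] at hx
        exact ⟨by omega, by omega, by omega, hx.1.2.1, hx.1.2.2⟩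
  linarith

end Pool.Agent.GRC
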