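import Pool.Agent.Helper28.GRC.Defs

/-!
# GRC-LPA: leaf moves, step A: filling deficits of labels and of (small) differences

A leaf move changes a function `r y z` (`y` = label of the parent, `z` = label of the leaf) with row sums `0`.
Given deficits `a z` of the labels and `c d` of the differences `d ≤ 31n/100`, with small totals, we fill them with leaves taken uniformly from
the adjustable pairs `Rg`.

Proof in words.  All counts: `n ≥ n0` large; `Dns` says that at most `n/10000` labels of `[n/100, 99n/100]` and at most `n/10000` differences of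
`[1, n/3]` are missing.
* `Y z = {y ∈ X : n ≤ 10 y ≤ 9 n, n ≤ 10 ad y z ≤ 3 n, ad y z ∈ S}`: `|Y z| ≥ 0.19 n` for every `z ≤ n` (if `2z ≤ n` the interval
  `[z + n/10, z + 3n/10] ⊆ [n/10, 8n/10]` has at least `n/5 - 1` elements, at most `n/10000` of them are not in `X` and for at most `n/10000`
  of them the difference is not in `S`; if `2 z > n` use `[z - 3n/10, z - n/10]`).
* `Z y = {z ∈ XR n X : ad y z ∈ S, 100 ad y z ≤ 31 n}` for `n ≤ 10 y ≤ 9 n`: `|Z y| ≥ 0.065 n` (the interval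
  `[max(0.34 n, y - 0.31 n), min(0.66 n, y + 0.31 n)]` has length `≥ 0.07 n`; at most `n/10000` missing labels and at most `2 n/10000`
  labels with missing difference, and `z ≠ y`).
* `N d = {z ∈ X : 34 n ≤ 100 z ≤ 50 n, z + d ∈ X}` for `100 d ≤ 31 n`: `|N d| ≥ 0.15 n`.
`r1 y z = a z 1(z ∈ X, y ∈ Y z)/|Y z| - R1 y 1(z ∈ Z y)/|Z y|` with `R1 y = ∑_{z ∈ X, y ∈ Y z} a z/|Y z| ≤ ζ/0.19` (so the rows vanish).
`r2 y z = c (y - z) 1(z < y, y - z ∈ SR, z ∈ N (y-z))/|N (y-z)| - R2 y 1(z ∈ Z y)/|Z y|`, `R2 y = ∑_{d ∈ SR, y - d ∈ N d} c d/|N d| ≤ ζ/0.15`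
(`y = z + d ∈ [0.34 n, 0.81 n]`, so `Z y` is large).  `r = r1 + r2`.
Negative parts live on pairs `z ∈ Z y`, which satisfy `Rg`, and are `≥ -(5.3 + 6.7) ζ/(0.065 n) ≥ -200 ζ/n`; positive parts `≤ 1/(0.19 n) + 1/(0.15 n) ≤ 15/n`.
Labels: `∑_{y ∈ X} r1 y z = a z - ∑_y R1 y 1(z ∈ Z y)/|Z y|`, the last sum is `0` for `z ∉ XR` and `≤ (∑ R1)/(0.065 n) = (∑ a)/(0.065 n) ≤ 16 ζ`;
`r2` gives `≤ 6.7 ζ + 16 ζ` on `XR` and `0` elsewhere.  Differences: `r1` gives `≤ 2 ∑a/(0.19 n) + 2 ∑ R1/(0.065 n) ≤ 11 ζ + 31 ζ` for `100 d ≤ 31 n`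
and `0` otherwise (`Y z` uses `ad ≤ 3n/10`); `r2` gives `c d` up to `31 ζ` for `d ∈ SR`, `0` otherwise.
-/

set_option autoImplicit false

namespace Pool.Agent.GRC

open Finset

theorem lpa_missX {n : ℕ} {X S : Finset ℕ} (h : Dns n X S) (A : Finset ℕ) (f : ℕ → ℕ)
    (hf : Set.InjOn f A) (hA : ∀ e ∈ A, n ≤ 100 * f e ∧ 100 * f e ≤ 99 * n) :
    10000 * (A.filter fun e => f e ∉ X).card ≤ n := by
  refine le_trans (Nat.mul_le_mul_left _ ?_) h.X_big
  refine card_le_card_of_injOn f ?_ ?_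
  · intro e he
    have he' := mem_filter.1 (mem_coe.1 he)
    have h1 := hA e he'.1
    exact mem_coe.2 (mem_filter.2 ⟨mem_range.2 (by omega), h1.1, h1.2, he'.2⟩)
  · intro x hx y hy hxy
    exact hf (mem_coe.2 (mem_filter.1 (mem_coe.1 hx)).1) (mem_coe.2 (mem_filter.1 (mem_coe.1 hy)).1) hxy

theorem lpa_missS {n : ℕ} {X S : Finset ℕ} (h : Dns n X S) (A : Finset ℕ) (f : ℕ → ℕ)
    (hf : Set.InjOn f A) (hA : ∀ e ∈ A, 1 ≤ f e ∧ 3 * f e ≤ n) :
    10000 * (A.filter fun e => f e ∉ S).card ≤ n := by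
  refine le_trans (Nat.mul_le_mul_left _ ?_) h.S_big
  refine card_le_card_of_injOn f ?_ ?_
  · intro e he
    have he' := mem_filter.1 (mem_coe.1 he)
    have h1 := hA e he'.1
    exact mem_coe.2 (mem_filter.2 ⟨mem_Icc.2 ⟨h1.1, by omega⟩, h1.2, he'.2⟩)
  · intro x hx y hy hxy
    exact hf (mem_coe.2 (mem_filter.1 (mem_coe.1 hx)).1) (mem_coe.2 (mem_filter.1 (mem_coe.1 hy)).1) hxy

/-- the admissible parents of a filling leaf `z` -/
def lpaY (n : ℕ) (X S : Finset ℕ) (z : ℕ) : Finset ℕ :=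
  X.filter fun y => n ≤ 10 * y ∧ 10 * y ≤ 9 * n ∧ 10 * ad y z ≤ 3 * n ∧ ad y z ∈ S

/-- the adjustable leaves of the parent `y` -/
def lpaZ (n : ℕ) (X S : Finset ℕ) (y : ℕ) : Finset ℕ :=
  (XR n X).filter fun z => ad y z ∈ S ∧ 100 * ad y z ≤ 31 * n

/-- the positions of a filling edge with difference `d` -/
def lpaN (n : ℕ) (X : Finset ℕ) (d : ℕ) : Finset ℕ :=
  X.filter fun z => 34 * n ≤ 100 * z ∧ 100 * z ≤ 50 * n ∧ z + d ∈ X

theorem lpa_card {A B C D : Finset ℕ} {n k : ℕ} (h : A ⊆ B ∪ (C ∪ D)) (hA : k ≤ A.card)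
    (hC : 10000 * C.card ≤ n) (hD : 10000 * D.card ≤ n) : 5000 * k ≤ 5000 * B.card + n := by
  have h4 := (card_le_card h).trans ((card_union_le _ _).trans
    (Nat.add_le_add_left (card_union_le _ _) _))
  omega

theorem lpa_cntN {n : ℕ} {X S : Finset ℕ} (h : Dns n X S) (hn : 10000 ≤ n) {d : ℕ}
    (hd : 100 * d ≤ 31 * n) : 15 * n ≤ 100 * (lpaN n X d).card := by
  set A : Finset ℕ := Icc (34 * n / 100 + 1) (50 * n / 100) with hA
  have hAmem : ∀ y ∈ A, 34 * n ≤ 100 * y ∧ 100 * y ≤ 50 * n := by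
    intro y hy
    have := mem_Icc.1 hy
    omega
  have hAc : 16 * n ≤ 100 * A.card + 200 := by
    rw [hA, Nat.card_Icc]; omega
  have h1 : 10000 * (A.filter fun y => y ∉ X).card ≤ n := by
    apply lpa_missX h A (fun y => y) (fun x _ y _ hxy => hxy)
    intro y hy
    have := hAmem y hy
    omega
  have h2 : 10000 * (A.filter fun y => y + d ∉ X).card ≤ n := by
    apply lpa_missX h A (fun y => y + d) (fun x _ y _ hxy => by simpa using hxy)
    intro y hy
    have := hAmem y hy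
    change n ≤ 100 * (y + d) ∧ 100 * (y + d) ≤ 99 * n
    omega
  have h3 : A ⊆ (lpaN n X d) ∪ ((A.filter fun y => y ∉ X) ∪ (A.filter fun y => y + d ∉ X)) := by
    intro y hy
    have hy' := hAmem y hy
    rw [mem_union, mem_union, mem_filter, mem_filter, lpaN, mem_filter]
    by_cases hX : y ∈ X
    · by_cases hX' : y + d ∈ X
      · exact Or.inl ⟨hX, hy'.1, hy'.2, hX'⟩
      · exact Or.inr (Or.inr ⟨hy, hX'⟩)
    · exact Or.inr (Or.inl ⟨hy, hX⟩)
  have h4 := lpa_card h3 le_rfl h1 h2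
  omega

theorem lpa_cntY {n : ℕ} {X S : Finset ℕ} (h : Dns n X S) (hn : 10000 ≤ n) {z : ℕ}
    (hz : z ≤ n) : 19 * n ≤ 100 * (lpaY n X S z).card := by
  by_cases hz2 : 2 * z ≤ n
  · set A : Finset ℕ := Icc (z + n / 10 + 1) (z + 3 * n / 10) with hA
    have hAmem : ∀ y ∈ A, z < y ∧ n ≤ 10 * y ∧ 10 * y ≤ 9 * n ∧ 10 * (y - z) ≤ 3 * n := by
      intro y hy
      have := mem_Icc.1 hy
      omega
    have hAc : 20 * n ≤ 100 * A.card + 200 := by
      rw [hA, Nat.card_Icc]; omega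
    have h1 : 10000 * (A.filter fun y => y ∉ X).card ≤ n := by
      apply lpa_missX h A (fun y => y) (fun x _ y _ hxy => hxy)
      intro y hy
      have := hAmem y hy
      omega
    have h2 : 10000 * (A.filter fun y => y - z ∉ S).card ≤ n := by
      apply lpa_missS h A (fun y => y - z)
      · intro x hx y hy hxy
        have h1 := hAmem x (mem_coe.1 hx)
        have h2 := hAmem y (mem_coe.1 hy)
        change x - z = y - z at hxy
        omega
      · intro y hy
        have := hAmem y hy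
        change 1 ≤ y - z ∧ 3 * (y - z) ≤ n
        omega
    have h3 : A ⊆ (lpaY n X S z) ∪ ((A.filter fun y => y ∉ X) ∪ (A.filter fun y => y - z ∉ S)) := by
      intro y hy
      have hy' := hAmem y hy
      have had : ad y z = y - z := by unfold ad; omega
      rw [mem_union, mem_union, mem_filter, mem_filter, lpaY, mem_filter, had]
      by_cases hX : y ∈ X
      · by_cases hX' : y - z ∈ S
        · exact Or.inl ⟨hX, hy'.2.1, hy'.2.2.1, hy'.2.2.2, hX'⟩
        · exact Or.inr (Or.inr ⟨hy, hX'⟩)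
      · exact Or.inr (Or.inl ⟨hy, hX⟩)
    have h4 := lpa_card h3 le_rfl h1 h2
    omega
  · set A : Finset ℕ := Icc (z - 3 * n / 10) (z - (n / 10 + 1)) with hA
    have hAmem : ∀ y ∈ A, y < z ∧ n ≤ 10 * y ∧ 10 * y ≤ 9 * n ∧ 10 * (z - y) ≤ 3 * n := by
      intro y hy
      have := mem_Icc.1 hy
      omega
    have hAc : 20 * n ≤ 100 * A.card + 200 := by
      rw [hA, Nat.card_Icc]; omega
    have h1 : 10000 * (A.filter fun y => y ∉ X).card ≤ n := by
      apply lpa_missX h A (fun y => y) (fun x _ y _ hxy => hxy)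
      intro y hy
      have := hAmem y hy
      omega
    have h2 : 10000 * (A.filter fun y => z - y ∉ S).card ≤ n := by
      apply lpa_missS h A (fun y => z - y)
      · intro x hx y hy hxy
        have h1 := hAmem x (mem_coe.1 hx)
        have h2 := hAmem y (mem_coe.1 hy)
        change z - x = z - y at hxy
        omega
      · intro y hy
        have := hAmem y hy
        change 1 ≤ z - y ∧ 3 * (z - y) ≤ n
        omega
    have h3 : A ⊆ (lpaY n X S z) ∪ ((A.filter fun y => y ∉ X) ∪ (A.filter fun y => z - y ∉ S)) := by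
      intro y hy
      have hy' := hAmem y hy
      have had : ad y z = z - y := by unfold ad; omega
      rw [mem_union, mem_union, mem_filter, mem_filter, lpaY, mem_filter, had]
      by_cases hX : y ∈ X
      · by_cases hX' : z - y ∈ S
        · exact Or.inl ⟨hX, hy'.2.1, hy'.2.2.1, hy'.2.2.2, hX'⟩
        · exact Or.inr (Or.inr ⟨hy, hX'⟩)
      · exact Or.inr (Or.inl ⟨hy, hX⟩)
    have h4 := lpa_card h3 le_rfl h1 h2
    omega

theorem lpa_cntZ {n : ℕ} {X S : Finset ℕ} (h : Dns n X S) (hn : 10000 ≤ n) {y : ℕ}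
    (hy1 : n ≤ 10 * y) (hy2 : 10 * y ≤ 9 * n) : 65 * n ≤ 1000 * (lpaZ n X S y).card := by
  by_cases hz2 : 2 * y ≤ n
  · set A : Finset ℕ := Icc (max (34 * n / 100 + 1) (y + 1)) (min (66 * n / 100) (y + 31 * n / 100)) with hA
    have hAmem : ∀ z ∈ A, y < z ∧ 34 * n ≤ 100 * z ∧ 100 * z ≤ 66 * n ∧ 100 * (z - y) ≤ 31 * n := by
      intro z hz
      have := mem_Icc.1 hz
      omega
    have hAc : 70 * n ≤ 1000 * A.card + 3000 := by
      rw [hA, Nat.card_Icc]; omega
    have h1 : 10000 * (A.filter fun z => z ∉ X).card ≤ n := by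
      apply lpa_missX h A (fun z => z) (fun x _ y _ hxy => hxy)
      intro z hz
      have := hAmem z hz
      omega
    have h2 : 10000 * (A.filter fun z => z - y ∉ S).card ≤ n := by
      apply lpa_missS h A (fun z => z - y)
      · intro x hx x' hx' hxy
        have h1 := hAmem x (mem_coe.1 hx)
        have h2 := hAmem x' (mem_coe.1 hx')
        change x - y = x' - y at hxy
        omega
      · intro z hz
        have := hAmem z hz
        change 1 ≤ z - y ∧ 3 * (z - y) ≤ n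
        omega
    have h3 : A ⊆ (lpaZ n X S y) ∪ ((A.filter fun z => z ∉ X) ∪ (A.filter fun z => z - y ∉ S)) := by
      intro z hz
      have hz' := hAmem z hz
      have had : ad y z = z - y := by unfold ad; omega
      rw [mem_union, mem_union, mem_filter, mem_filter, lpaZ, mem_filter, XR, mem_filter, had]
      by_cases hX : z ∈ X
      · by_cases hX' : z - y ∈ S
        · exact Or.inl ⟨⟨hX, hz'.2.1, hz'.2.2.1⟩, hX', hz'.2.2.2⟩
        · exact Or.inr (Or.inr ⟨hz, hX'⟩)
      · exact Or.inr (Or.inl ⟨hz, hX⟩)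
    have h4 := lpa_card h3 le_rfl h1 h2
    omega
  · set A : Finset ℕ := Icc (max (34 * n / 100 + 1) (y - 31 * n / 100)) (min (66 * n / 100) (y - 1)) with hA
    have hAmem : ∀ z ∈ A, z < y ∧ 34 * n ≤ 100 * z ∧ 100 * z ≤ 66 * n ∧ 100 * (y - z) ≤ 31 * n := by
      intro z hz
      have := mem_Icc.1 hz
      omega
    have hAc : 70 * n ≤ 1000 * A.card + 3000 := by
      rw [hA, Nat.card_Icc]; omega
    have h1 : 10000 * (A.filter fun z => z ∉ X).card ≤ n := by
      apply lpa_missX h A (fun z => z) (fun x _ y _ hxy => hxy)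
      intro z hz
      have := hAmem z hz
      omega
    have h2 : 10000 * (A.filter fun z => y - z ∉ S).card ≤ n := by
      apply lpa_missS h A (fun z => y - z)
      · intro x hx x' hx' hxy
        have h1 := hAmem x (mem_coe.1 hx)
        have h2 := hAmem x' (mem_coe.1 hx')
        change y - x = y - x' at hxy
        omega
      · intro z hz
        have := hAmem z hz
        change 1 ≤ y - z ∧ 3 * (y - z) ≤ n
        omega
    have h3 : A ⊆ (lpaZ n X S y) ∪ ((A.filter fun z => z ∉ X) ∪ (A.filter fun z => y - z ∉ S)) := by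
      intro z hz
      have hz' := hAmem z hz
      have had : ad y z = y - z := by unfold ad; omega
      rw [mem_union, mem_union, mem_filter, mem_filter, lpaZ, mem_filter, XR, mem_filter, had]
      by_cases hX : z ∈ X
      · by_cases hX' : y - z ∈ S
        · exact Or.inl ⟨⟨hX, hz'.2.1, hz'.2.2.1⟩, hX', hz'.2.2.2⟩
        · exact Or.inr (Or.inr ⟨hz, hX'⟩)
      · exact Or.inr (Or.inl ⟨hz, hX⟩)
    have h4 := lpa_card h3 le_rfl h1 h2
    omega

/-- at most two labels have a given difference with `y` -/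
theorem lpa_two (X : Finset ℕ) (y d : ℕ) : (X.filter fun z => ad y z = d).card ≤ 2 := by
  have h1 : (X.filter fun z => ad y z = d) ⊆ {y + d, y - d} := by
    intro z hz
    have hz' := (mem_filter.1 hz).2
    unfold ad at hz'
    rw [mem_insert, mem_singleton]
    omega
  exact (card_le_card h1).trans (card_le_two)

theorem lpa_sum_two (X : Finset ℕ) (y d : ℕ) {f : ℕ → ℝ} {K : ℝ} (hK : 0 ≤ K) (hf : ∀ z ∈ X, f z ≤ K) :
    (∑ z ∈ X, if ad y z = d then f z else 0) ≤ 2 * K := by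
  rw [← sum_filter]
  have h1 : ∑ z ∈ X.filter (fun z => ad y z = d), f z ≤ ((X.filter fun z => ad y z = d).card : ℝ) * K := by
    rw [← nsmul_eq_mul]
    exact sum_le_card_nsmul _ _ _ (fun z hz => hf z (mem_filter.1 hz).1)
  have h2 : ((X.filter fun z => ad y z = d).card : ℝ) ≤ 2 := by exact_mod_cast lpa_two X y d
  exact h1.trans (mul_le_mul_of_nonneg_right h2 hK)

theorem lpa_sum_two' (X : Finset ℕ) (z d : ℕ) {f : ℕ → ℝ} {K : ℝ} (hK : 0 ≤ K) (hf : ∀ y ∈ X, f y ≤ K) :
    (∑ y ∈ X, if ad y z = d then f y else 0) ≤ 2 * K := by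
  have := lpa_sum_two X z d hK hf
  refine le_trans (le_of_eq ?_) this
  refine sum_congr rfl fun y _ => ?_
  rw [ad_comm]

/-- the sum of the indicator of a subset divided by its cardinality -/
theorem lpa_avg {X A : Finset ℕ} (hA : A ⊆ X) (hc : A.card ≠ 0) (K : ℝ) :
    (∑ z ∈ X, if z ∈ A then K / (A.card : ℝ) else 0) = K := by
  rw [← sum_filter, filter_mem_eq_inter, inter_eq_right.2 hA, sum_const, nsmul_eq_mul]
  have : (A.card : ℝ) ≠ 0 := by exact_mod_cast hc
  field_simp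

theorem stepA : ∃ n0 : ℕ, ∀ (n : ℕ) (X S : Finset ℕ) (a c : ℕ → ℝ) (ζ : ℝ), n0 ≤ n → Dns n X S → 0 ≤ ζ →
    (∀ z ∈ X, 0 ≤ a z ∧ a z ≤ 1) → ∑ z ∈ X, a z ≤ ζ * n →
    (∀ d ∈ SR n S, 0 ≤ c d ∧ c d ≤ 1) → ∑ d ∈ SR n S, c d ≤ ζ * n →
    ∃ r : ℕ → ℕ → ℝ, AdmS X S r ∧ (∀ y ∈ X, rowS X r y = 0) ∧ (∀ y z, ¬ Rg n X S y z → 0 ≤ r y z) ∧
      (∀ y z, -(200 * ζ / n) ≤ r y z ∧ r y z ≤ 15 / n) ∧
      (∀ z ∈ X, z ∉ XR n X → labS X r z = a z) ∧ (∀ z ∈ XR n X, |labS X r z - a z| ≤ 200 * ζ) ∧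
      (∀ d, d ∉ SR n S → difS X r d = 0) ∧ (∀ d ∈ SR n S, |difS X r d - c d| ≤ 200 * ζ) ∧
      (∀ y z, r y z ≠ 0 → 3 * n ≤ 100 * y ∧ 100 * y ≤ 97 * n) := by
  classical
  refine ⟨10000, fun n X S a c ζ hn hD hζ ha hsa hc hsc => ?_⟩
  have hn0 : (0 : ℝ) < n := by
    have : 0 < n := by omega
    exact_mod_cast this
  have hSRmem : ∀ d, d ∈ SR n S ↔ d ∈ S ∧ 100 * d ≤ 31 * n := fun d => by
    rw [SR, mem_filter]
  have hXRmem : ∀ z, z ∈ XR n X ↔ z ∈ X ∧ 34 * n ≤ 100 * z ∧ 100 * z ≤ 66 * n := fun d => by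
    rw [XR, mem_filter]
  have hSR1 : ∀ d ∈ SR n S, 1 ≤ d := fun d hd => (mem_Icc.1 (hD.S_sub ((hSRmem d).1 hd).1)).1
  have hYmem : ∀ y z, y ∈ lpaY n X S z ↔ y ∈ X ∧ n ≤ 10 * y ∧ 10 * y ≤ 9 * n ∧ 10 * ad y z ≤ 3 * n ∧
      ad y z ∈ S := fun y z => by rw [lpaY, mem_filter]
  have hZmem : ∀ y z, z ∈ lpaZ n X S y ↔ z ∈ XR n X ∧ ad y z ∈ S ∧ 100 * ad y z ≤ 31 * n := fun y z => by
    rw [lpaZ, mem_filter]
  have hNmem : ∀ d z, z ∈ lpaN n X d ↔ z ∈ X ∧ 34 * n ≤ 100 * z ∧ 100 * z ≤ 50 * n ∧ z + d ∈ X :=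
    fun d z => by rw [lpaN, mem_filter]
  -- cardinalities
  have hYc : ∀ z ∈ X, 19 / 100 * (n : ℝ) ≤ ((lpaY n X S z).card : ℝ) := by
    intro z hz
    have hz1 := mem_range.1 (hD.X_sub hz)
    have h1 := lpa_cntY hD hn (z := z) (by omega)
    have h2 : (19 : ℝ) * n ≤ 100 * ((lpaY n X S z).card : ℝ) := by exact_mod_cast h1
    linarith
  have hZc : ∀ y, n ≤ 10 * y → 10 * y ≤ 9 * n → 65 / 1000 * (n : ℝ) ≤ ((lpaZ n X S y).card : ℝ) := by
    intro y h1 h2
    have h3 := lpa_cntZ hD hn h1 h2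
    have h4 : (65 : ℝ) * n ≤ 1000 * ((lpaZ n X S y).card : ℝ) := by exact_mod_cast h3
    linarith
  have hNc : ∀ d ∈ SR n S, 15 / 100 * (n : ℝ) ≤ ((lpaN n X d).card : ℝ) := by
    intro d hd
    have h1 := lpa_cntN hD hn ((hSRmem d).1 hd).2
    have h2 : (15 : ℝ) * n ≤ 100 * ((lpaN n X d).card : ℝ) := by exact_mod_cast h1
    linarith
  -- the filling
  set q1 : ℕ → ℕ → ℝ := fun y z => if z ∈ X ∧ y ∈ lpaY n X S z then a z / ((lpaY n X S z).card : ℝ) else 0
    with hq1
  set q2 : ℕ → ℕ → ℝ := fun y z => if z < y ∧ y - z ∈ SR n S ∧ z ∈ lpaN n X (y - z) then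
    c (y - z) / ((lpaN n X (y - z)).card : ℝ) else 0 with hq2
  set R : ℕ → ℝ := fun y => ∑ z ∈ X, (q1 y z + q2 y z) with hR
  set E : ℕ → ℕ → ℝ := fun y z => if z ∈ lpaZ n X S y then R y / ((lpaZ n X S y).card : ℝ) else 0 with hE
  have hdiv : ∀ (b m k : ℝ), 0 ≤ b → 0 < k → k * n ≤ m → b / m ≤ b / (k * n) := by
    intro b m k hb hk hm
    exact div_le_div_of_nonneg_left hb (by positivity) hm
  have hq1p : ∀ y z, 0 ≤ q1 y z := by
    intro y z
    simp only [hq1]
    split_ifs with h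
    · exact div_nonneg (ha z h.1).1 (Nat.cast_nonneg _)
    · exact le_rfl
  have hq2p : ∀ y z, 0 ≤ q2 y z := by
    intro y z
    simp only [hq2]
    split_ifs with h
    · exact div_nonneg (hc _ h.2.1).1 (Nat.cast_nonneg _)
    · exact le_rfl
  have hq1u : ∀ y, ∀ z ∈ X, q1 y z ≤ a z / (19 / 100 * n) := by
    intro y z hz
    simp only [hq1]
    split_ifs with h
    · exact hdiv _ _ _ (ha z hz).1 (by norm_num) (hYc z hz)
    · exact div_nonneg (ha z hz).1 (by positivity)
  have hq1u' : ∀ y z, q1 y z ≤ 1 / (19 / 100 * n) := by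
    intro y z
    by_cases hz : z ∈ X
    · refine (hq1u y z hz).trans ?_
      exact div_le_div_of_nonneg_right (ha z hz).2 (by positivity)
    · have : q1 y z = 0 := by
        simp only [hq1]
        rw [if_neg]
        exact fun h => hz h.1
      rw [this]
      positivity
  have hq2u' : ∀ y z, q2 y z ≤ 1 / (15 / 100 * n) := by
    intro y z
    simp only [hq2]
    split_ifs with h
    · refine (hdiv _ _ _ (hc _ h.2.1).1 (by norm_num) (hNc _ h.2.1)).trans ?_
      exact div_le_div_of_nonneg_right (hc _ h.2.1).2 (by positivity)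
    · positivity
  have hq2u : ∀ y z, q2 y z ≤ if z < y ∧ y - z ∈ SR n S then c (y - z) / (15 / 100 * n) else 0 := by
    intro y z
    simp only [hq2]
    by_cases h : z < y ∧ y - z ∈ SR n S
    · rw [if_pos h]
      split_ifs with h'
      · exact hdiv _ _ _ (hc _ h.2).1 (by norm_num) (hNc _ h.2)
      · exact div_nonneg (hc _ h.2).1 (by positivity)
    · rw [if_neg h, if_neg]
      exact fun h' => h ⟨h'.1, h'.2.1⟩
  -- supports
  have hq1s : ∀ y z, q1 y z ≠ 0 → z ∈ X ∧ y ∈ lpaY n X S z := by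
    intro y z h
    by_contra h'
    exact h (by simp only [hq1]; rw [if_neg h'])
  have hq2s : ∀ y z, q2 y z ≠ 0 → z < y ∧ y - z ∈ SR n S ∧ z ∈ lpaN n X (y - z) := by
    intro y z h
    by_contra h'
    exact h (by simp only [hq2]; rw [if_neg h'])
  have hRp : ∀ y, 0 ≤ R y := fun y => sum_nonneg fun z _ => add_nonneg (hq1p y z) (hq2p y z)
  have hRs : ∀ y, R y ≠ 0 → y ∈ X ∧ n ≤ 10 * y ∧ 10 * y ≤ 9 * n := by
    intro y h
    obtain ⟨z, hz, hz'⟩ := exists_ne_zero_of_sum_ne_zero h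
    by_cases h1 : q1 y z = 0
    · have h2 : q2 y z ≠ 0 := fun h2 => hz' (by rw [h1, h2, add_zero])
      obtain ⟨ha1, ha2, ha3⟩ := hq2s y z h2
      rw [hNmem] at ha3
      rw [hSRmem] at ha2
      have : z + (y - z) = y := by omega
      rw [this] at ha3
      refine ⟨ha3.2.2.2, ?_, ?_⟩ <;> omega
    · obtain ⟨_, h2⟩ := hq1s y z h1
      rw [hYmem] at h2
      exact ⟨h2.1, h2.2.1, h2.2.2.1⟩
  have hEs : ∀ y z, E y z ≠ 0 → z ∈ lpaZ n X S y ∧ R y ≠ 0 := by
    intro y z h
    by_contra h'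
    apply h
    simp only [hE]
    split_ifs with h1
    · have : R y = 0 := by
        by_contra h2
        exact h' ⟨h1, h2⟩
      rw [this, zero_div]
    · rfl
  have hEp : ∀ y z, 0 ≤ E y z := by
    intro y z
    simp only [hE]
    split_ifs with h
    · exact div_nonneg (hRp y) (Nat.cast_nonneg _)
    · exact le_rfl
  have hEu : ∀ y z, E y z ≤ R y / (65 / 1000 * n) := by
    intro y z
    by_cases h : E y z = 0
    · rw [h]
      exact div_nonneg (hRp y) (by positivity)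
    · obtain ⟨h1, h2⟩ := hEs y z h
      obtain ⟨_, h3, h4⟩ := hRs y h2
      have h5 : E y z = R y / ((lpaZ n X S y).card : ℝ) := by
        simp only [hE]
        rw [if_pos h1]
      rw [h5]
      exact hdiv _ _ _ (hRp y) (by norm_num) (hZc y h3 h4)
  -- sums over `z` and `y` of `q2`
  have hinj1 : ∀ y, (∑ z ∈ X, if z < y ∧ y - z ∈ SR n S then c (y - z) / (15 / 100 * n) else 0) ≤
      ζ / (15 / 100) := by
    intro y
    rw [← sum_filter, ← sum_div]
    have h1 : ∑ z ∈ X.filter (fun z => z < y ∧ y - z ∈ SR n S), c (y - z) ≤ ∑ d ∈ SR n S, c d := by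
      have h2 : ∑ z ∈ X.filter (fun z => z < y ∧ y - z ∈ SR n S), c (y - z) =
          ∑ d ∈ (X.filter (fun z => z < y ∧ y - z ∈ SR n S)).image (fun z => y - z), c d := by
        rw [sum_image]
        intro x hx x' hx' hxx
        have h3 := (mem_filter.1 (mem_coe.1 hx)).2
        have h4 := (mem_filter.1 (mem_coe.1 hx')).2
        change y - x = y - x' at hxx
        omega
      rw [h2]
      refine sum_le_sum_of_subset_of_nonneg ?_ (fun d hd _ => (hc d hd).1)
      intro d hd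
      obtain ⟨z, hz, rfl⟩ := mem_image.1 hd
      exact (mem_filter.1 hz).2.2
    calc (∑ z ∈ X.filter (fun z => z < y ∧ y - z ∈ SR n S), c (y - z)) / (15 / 100 * (n : ℝ))
        ≤ (ζ * n) / (15 / 100 * (n : ℝ)) := div_le_div_of_nonneg_right (h1.trans hsc) (by positivity)
      _ = ζ / (15 / 100) := by field_simp
  have hinj2 : ∀ z, (∑ y ∈ X, if z < y ∧ y - z ∈ SR n S then c (y - z) / (15 / 100 * n) else 0) ≤
      ζ / (15 / 100) := by
    intro z
    rw [← sum_filter, ← sum_div]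
    have h1 : ∑ y ∈ X.filter (fun y => z < y ∧ y - z ∈ SR n S), c (y - z) ≤ ∑ d ∈ SR n S, c d := by
      have h2 : ∑ y ∈ X.filter (fun y => z < y ∧ y - z ∈ SR n S), c (y - z) =
          ∑ d ∈ (X.filter (fun y => z < y ∧ y - z ∈ SR n S)).image (fun y => y - z), c d := by
        rw [sum_image]
        intro x hx x' hx' hxx
        have h3 := (mem_filter.1 (mem_coe.1 hx)).2
        have h4 := (mem_filter.1 (mem_coe.1 hx')).2
        change x - z = x' - z at hxx
        omega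
      rw [h2]
      refine sum_le_sum_of_subset_of_nonneg ?_ (fun d hd _ => (hc d hd).1)
      intro d hd
      obtain ⟨y, hy, rfl⟩ := mem_image.1 hd
      exact (mem_filter.1 hy).2.2
    calc (∑ y ∈ X.filter (fun y => z < y ∧ y - z ∈ SR n S), c (y - z)) / (15 / 100 * (n : ℝ))
        ≤ (ζ * n) / (15 / 100 * (n : ℝ)) := div_le_div_of_nonneg_right (h1.trans hsc) (by positivity)
      _ = ζ / (15 / 100) := by field_simp
  have hRu : ∀ y, R y ≤ 12 * ζ := by
    intro y
    have h1 : R y = ∑ z ∈ X, q1 y z + ∑ z ∈ X, q2 y z := sum_add_distrib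
    have h2 : ∑ z ∈ X, q1 y z ≤ ζ / (19 / 100) := by
      calc ∑ z ∈ X, q1 y z ≤ ∑ z ∈ X, a z / (19 / 100 * n) := sum_le_sum fun z hz => hq1u y z hz
        _ = (∑ z ∈ X, a z) / (19 / 100 * n) := by rw [sum_div]
        _ ≤ (ζ * n) / (19 / 100 * n) := div_le_div_of_nonneg_right hsa (by positivity)
        _ = ζ / (19 / 100) := by field_simp
    have h3 : ∑ z ∈ X, q2 y z ≤ ζ / (15 / 100) := (sum_le_sum fun z _ => hq2u y z).trans (hinj1 y)
    rw [h1]
    linarith
  have hlab1 : ∀ z ∈ X, ∑ y ∈ X, q1 y z = a z := by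
    intro z hz
    have h0 : (lpaY n X S z).card ≠ 0 := by
      intro h0
      have h1 := hYc z hz
      rw [h0] at h1
      simp only [Nat.cast_zero] at h1
      nlinarith
    have h1 : lpaY n X S z ⊆ X := filter_subset _ _
    rw [← lpa_avg h1 h0 (a z)]
    refine sum_congr rfl fun y _ => ?_
    simp only [hq1, hz, true_and]
  have hlab2 : ∀ z, ∑ y ∈ X, q2 y z ≤ ζ / (15 / 100) := fun z =>
    (sum_le_sum fun y _ => hq2u y z).trans (hinj2 z)
  have hlab2' : ∀ z, z ∉ XR n X → ∑ y ∈ X, q2 y z = 0 := by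
    intro z hz
    refine sum_eq_zero fun y _ => ?_
    by_contra h
    obtain ⟨_, _, h3⟩ := hq2s y z h
    rw [hNmem] at h3
    exact hz ((hXRmem z).2 ⟨h3.1, h3.2.1, by omega⟩)
  have hdif2 : ∀ d ∈ SR n S, (∑ y ∈ X, ∑ z ∈ X, if ad y z = d then q2 y z else 0) = c d := by
    intro d hd
    have hd1 := hSR1 d hd
    have h0 : (lpaN n X d).card ≠ 0 := by
      intro h0
      have h1 := hNc d hd
      rw [h0] at h1
      simp only [Nat.cast_zero] at h1
      nlinarith
    have h1 : lpaN n X d ⊆ X := filter_subset _ _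
    rw [sum_comm, ← lpa_avg h1 h0 (c d)]
    refine sum_congr rfl fun z hz => ?_
    by_cases hzN : z ∈ lpaN n X d
    · rw [if_pos hzN]
      have h2 := (hNmem d z).1 hzN
      rw [sum_eq_single (z + d)]
      · have h3 : ad (z + d) z = d := by unfold ad; omega
        have h4 : z + d - z = d := by omega
        rw [if_pos h3]
        simp only [hq2]
        rw [h4, if_pos ⟨by omega, hd, hzN⟩]
      · intro y _ hyz
        split_ifs with h3
        · by_contra h4
          obtain ⟨h5, _, _⟩ := hq2s y z h4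
          apply hyz
          unfold ad at h3
          omega
        · rfl
      · intro h3
        exact absurd h2.2.2.2 h3
    · rw [if_neg hzN]
      refine sum_eq_zero fun y _ => ?_
      split_ifs with h3
      · by_contra h4
        obtain ⟨h5, _, h6⟩ := hq2s y z h4
        have h7 : y - z = d := by
          unfold ad at h3
          omega
        rw [h7] at h6
        exact hzN h6
      · rfl
  have hq2ad : ∀ y z, q2 y z ≠ 0 → ad y z ∈ SR n S := by
    intro y z h
    obtain ⟨h1, h2, _⟩ := hq2s y z h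
    have : ad y z = y - z := by unfold ad; omega
    rw [this]
    exact h2
  have hq1ad : ∀ y z, q1 y z ≠ 0 → ad y z ∈ SR n S := by
    intro y z h
    obtain ⟨_, h2⟩ := hq1s y z h
    rw [hYmem] at h2
    exact (hSRmem _).2 ⟨h2.2.2.2.2, by omega⟩
  have hEad : ∀ y z, E y z ≠ 0 → ad y z ∈ SR n S := by
    intro y z h
    obtain ⟨h1, _⟩ := hEs y z h
    rw [hZmem] at h1
    exact (hSRmem _).2 ⟨h1.2.1, h1.2.2⟩
  have htot2 : ∑ y ∈ X, ∑ z ∈ X, q2 y z ≤ ζ * n := by
    have h1 : ∑ y ∈ X, ∑ z ∈ X, q2 y z =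
        ∑ y ∈ X, ∑ z ∈ X, ∑ d ∈ SR n S, if ad y z = d then q2 y z else 0 := by
      refine sum_congr rfl fun y _ => sum_congr rfl fun z _ => ?_
      rw [sum_ite_eq]
      split_ifs with h
      · rfl
      · by_contra h'
        exact h (hq2ad y z h')
    have h2 : ∑ y ∈ X, ∑ z ∈ X, ∑ d ∈ SR n S, (if ad y z = d then q2 y z else 0) =
        ∑ d ∈ SR n S, ∑ y ∈ X, ∑ z ∈ X, if ad y z = d then q2 y z else 0 := by
      have h3 : ∀ y ∈ X, (∑ z ∈ X, ∑ d ∈ SR n S, (if ad y z = d then q2 y z else 0)) =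
          ∑ d ∈ SR n S, ∑ z ∈ X, if ad y z = d then q2 y z else 0 := fun y _ => sum_comm
      rw [sum_congr rfl h3, sum_comm]
    rw [h1, h2]
    calc ∑ d ∈ SR n S, ∑ y ∈ X, ∑ z ∈ X, (if ad y z = d then q2 y z else 0) = ∑ d ∈ SR n S, c d :=
        sum_congr rfl fun d hd => hdif2 d hd
      _ ≤ ζ * n := hsc
  have htot1 : ∑ y ∈ X, ∑ z ∈ X, q1 y z ≤ ζ * n := by
    rw [sum_comm]
    calc ∑ z ∈ X, ∑ y ∈ X, q1 y z = ∑ z ∈ X, a z := sum_congr rfl fun z hz => hlab1 z hz
      _ ≤ ζ * n := hsa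
  have htotR : ∑ y ∈ X, R y ≤ 2 * (ζ * n) := by
    have : ∑ y ∈ X, R y = ∑ y ∈ X, ∑ z ∈ X, q1 y z + ∑ y ∈ X, ∑ z ∈ X, q2 y z := by
      simp only [hR, sum_add_distrib]
    rw [this]
    linarith
  have htotR' : (∑ y ∈ X, R y / (65 / 1000 * n)) ≤ 31 * ζ := by
    rw [← sum_div]
    calc (∑ y ∈ X, R y) / (65 / 1000 * n) ≤ (2 * (ζ * n)) / (65 / 1000 * n) :=
        div_le_div_of_nonneg_right htotR (by positivity)
      _ = 2 * ζ / (65 / 1000) := by field_simp
      _ ≤ 31 * ζ := by linarith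
  have hlabE : ∀ z, ∑ y ∈ X, E y z ≤ 31 * ζ := fun z => (sum_le_sum fun y _ => hEu y z).trans htotR'
  have hlabE' : ∀ z, z ∉ XR n X → ∑ y ∈ X, E y z = 0 := by
    intro z hz
    refine sum_eq_zero fun y _ => ?_
    by_contra h
    obtain ⟨h1, _⟩ := hEs y z h
    rw [hZmem] at h1
    exact hz h1.1
  have hdif1 : ∀ d, (∑ y ∈ X, ∑ z ∈ X, if ad y z = d then q1 y z else 0) ≤ 11 * ζ := by
    intro d
    rw [sum_comm]
    have h1 : ∀ z ∈ X, (∑ y ∈ X, if ad y z = d then q1 y z else 0) ≤ 2 * (a z / (19 / 100 * n)) := by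
      intro z hz
      exact lpa_sum_two' X z d (div_nonneg (ha z hz).1 (by positivity)) (fun y _ => hq1u y z hz)
    calc (∑ z ∈ X, ∑ y ∈ X, if ad y z = d then q1 y z else 0) ≤ ∑ z ∈ X, 2 * (a z / (19 / 100 * n)) :=
        sum_le_sum h1
      _ = 2 * ((∑ z ∈ X, a z) / (19 / 100 * n)) := by rw [← mul_sum, sum_div]
      _ ≤ 2 * ((ζ * n) / (19 / 100 * n)) := by
        have := div_le_div_of_nonneg_right hsa (show (0 : ℝ) ≤ 19 / 100 * n by positivity)
        linarith
      _ = 2 * ζ / (19 / 100) := by field_simp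
      _ ≤ 11 * ζ := by linarith
  have hdif1p : ∀ d, 0 ≤ (∑ y ∈ X, ∑ z ∈ X, if ad y z = d then q1 y z else 0) := by
    intro d
    refine sum_nonneg fun y _ => sum_nonneg fun z _ => ?_
    split_ifs
    · exact hq1p y z
    · exact le_rfl
  have hdifE : ∀ d, (∑ y ∈ X, ∑ z ∈ X, if ad y z = d then E y z else 0) ≤ 62 * ζ := by
    intro d
    have h1 : ∀ y ∈ X, (∑ z ∈ X, if ad y z = d then E y z else 0) ≤ 2 * (R y / (65 / 1000 * n)) := by
      intro y _
      exact lpa_sum_two X y d (div_nonneg (hRp y) (by positivity)) (fun z _ => hEu y z)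
    calc (∑ y ∈ X, ∑ z ∈ X, if ad y z = d then E y z else 0) ≤ ∑ y ∈ X, 2 * (R y / (65 / 1000 * n)) :=
        sum_le_sum h1
      _ = 2 * ∑ y ∈ X, (R y / (65 / 1000 * n)) := by rw [← mul_sum]
      _ ≤ 62 * ζ := by linarith
  have hdifEp : ∀ d, 0 ≤ (∑ y ∈ X, ∑ z ∈ X, if ad y z = d then E y z else 0) := by
    intro d
    refine sum_nonneg fun y _ => sum_nonneg fun z _ => ?_
    split_ifs
    · exact hEp y z
    · exact le_rfl
  -- the solution
  refine ⟨fun y z => q1 y z + q2 y z - E y z, ?_, ?_, ?_, ?_, ?_, ?_, ?_, ?_, ?_⟩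
  · intro y z h
    by_cases h1 : q1 y z = 0
    · by_cases h2 : q2 y z = 0
      · have h3 : E y z ≠ 0 := fun h3 => h (by simp only [h1, h2, h3]; norm_num)
        obtain ⟨h4, h5⟩ := hEs y z h3
        rw [hZmem, hXRmem] at h4
        exact ⟨(hRs y h5).1, h4.1.1, h4.2.1⟩
      · obtain ⟨h3, h4, h5⟩ := hq2s y z h2
        have h6 := ((hSRmem _).1 (hq2ad y z h2)).1
        rw [hNmem] at h5
        have h7 : z + (y - z) = y := by omega
        rw [h7] at h5
        exact ⟨h5.2.2.2, h5.1, h6⟩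
    · obtain ⟨h3, h4⟩ := hq1s y z h1
      rw [hYmem] at h4
      exact ⟨h4.1, h3, h4.2.2.2.2⟩
  · intro y _
    have h1 : rowS X (fun y z => q1 y z + q2 y z - E y z) y = R y - ∑ z ∈ X, E y z := by
      unfold rowS
      rw [sum_sub_distrib]
    rw [h1]
    by_cases h2 : R y = 0
    · have h3 : ∑ z ∈ X, E y z = 0 := by
        refine sum_eq_zero fun z _ => ?_
        by_contra h
        exact (hEs y z h).2 h2
      rw [h2, h3, sub_zero]
    · obtain ⟨_, h3, h4⟩ := hRs y h2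
      have h0 : (lpaZ n X S y).card ≠ 0 := by
        intro h0
        have h1 := hZc y h3 h4
        rw [h0] at h1
        simp only [Nat.cast_zero] at h1
        nlinarith
      have h5 : lpaZ n X S y ⊆ X := (filter_subset _ _).trans (filter_subset _ _)
      have h6 : ∑ z ∈ X, E y z = R y := lpa_avg h5 h0 (R y)
      rw [h6, sub_self]
  · intro y z h
    have h1 : E y z = 0 := by
      by_contra h1
      obtain ⟨h2, h3⟩ := hEs y z h1
      rw [hZmem, hXRmem] at h2
      exact h ⟨(hRs y h3).1, h2.1.1, h2.2.1, h2.1.2.1, h2.1.2.2, h2.2.2⟩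
    change 0 ≤ q1 y z + q2 y z - E y z
    rw [h1, sub_zero]
    exact add_nonneg (hq1p y z) (hq2p y z)
  · intro y z
    change -(200 * ζ / n) ≤ q1 y z + q2 y z - E y z ∧ q1 y z + q2 y z - E y z ≤ 15 / n
    constructor
    · have h1 : E y z ≤ 200 * ζ / n := by
        refine (hEu y z).trans ?_
        have h2 : R y / (65 / 1000 * n) ≤ (12 * ζ) / (65 / 1000 * n) :=
          div_le_div_of_nonneg_right (hRu y) (by positivity)
        refine h2.trans ?_
        have h3 : (12 * ζ) / (65 / 1000 * n) = (12 / (65 / 1000) * ζ) / n := by field_simp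
        rw [h3]
        refine div_le_div_of_nonneg_right ?_ hn0.le
        norm_num
        linarith
      have h2 := hq1p y z
      have h3 := hq2p y z
      linarith
    · have h1 := hq1u' y z
      have h2 := hq2u' y z
      have h3 := hEp y z
      have h4 : 1 / (19 / 100 * (n : ℝ)) = (100 / 19) * (1 / n) := by field_simp
      have h5 : 1 / (15 / 100 * (n : ℝ)) = (100 / 15) * (1 / n) := by field_simp
      have h6 : (15 : ℝ) / n = 15 * (1 / n) := by field_simp
      have h7 : (0 : ℝ) < 1 / n := by positivity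
      rw [h4] at h1
      rw [h5] at h2
      rw [h6]
      linarith
  · intro z hz hzR
    have h1 : labS X (fun y z => q1 y z + q2 y z - E y z) z =
        ∑ y ∈ X, q1 y z + ∑ y ∈ X, q2 y z - ∑ y ∈ X, E y z := by
      unfold labS
      rw [sum_sub_distrib, sum_add_distrib]
    rw [h1, hlab1 z hz, hlab2' z hzR, hlabE' z hzR]
    ring
  · intro z hzR
    have hz : z ∈ X := ((hXRmem z).1 hzR).1
    have h1 : labS X (fun y z => q1 y z + q2 y z - E y z) z =
        ∑ y ∈ X, q1 y z + ∑ y ∈ X, q2 y z - ∑ y ∈ X, E y z := by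
      unfold labS
      rw [sum_sub_distrib, sum_add_distrib]
    rw [h1, hlab1 z hz]
    have h2 := hlab2 z
    have h3 := hlabE z
    have h4 : 0 ≤ ∑ y ∈ X, q2 y z := sum_nonneg fun y _ => hq2p y z
    have h5 : 0 ≤ ∑ y ∈ X, E y z := sum_nonneg fun y _ => hEp y z
    rw [abs_le]
    constructor <;> linarith
  · intro d hd
    unfold difS
    refine sum_eq_zero fun y _ => sum_eq_zero fun z _ => ?_
    split_ifs with h
    · have h1 : q1 y z = 0 := by
        by_contra h1
        exact hd (h ▸ hq1ad y z h1)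
      have h2 : q2 y z = 0 := by
        by_contra h1
        exact hd (h ▸ hq2ad y z h1)
      have h3 : E y z = 0 := by
        by_contra h1
        exact hd (h ▸ hEad y z h1)
      change q1 y z + q2 y z - E y z = 0
      rw [h1, h2, h3]
      norm_num
    · rfl
  · intro d hd
    have h1 : difS X (fun y z => q1 y z + q2 y z - E y z) d =
        (∑ y ∈ X, ∑ z ∈ X, if ad y z = d then q1 y z else 0) +
        (∑ y ∈ X, ∑ z ∈ X, if ad y z = d then q2 y z else 0) -
        (∑ y ∈ X, ∑ z ∈ X, if ad y z = d then E y z else 0) := by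
      unfold difS
      rw [← sum_add_distrib, ← sum_sub_distrib]
      refine sum_congr rfl fun y _ => ?_
      rw [← sum_add_distrib, ← sum_sub_distrib]
      refine sum_congr rfl fun z _ => ?_
      split_ifs
      · rfl
      · norm_num
    rw [h1, hdif2 d hd]
    have h2 := hdif1 d
    have h3 := hdifE d
    have h4 := hdif1p d
    have h5 := hdifEp d
    rw [abs_le]
    constructor <;> linarith
  · intro y z h
    by_cases h1 : q1 y z = 0
    · by_cases h2 : q2 y z = 0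
      · have h3 : E y z ≠ 0 := fun h3 => h (by simp only [h1, h2, h3]; norm_num)
        obtain ⟨h4, h5⟩ := hEs y z h3
        have h6 := hRs y h5
        omega
      · obtain ⟨h3, h4, h5⟩ := hq2s y z h2
        rw [hNmem] at h5
        rw [hSRmem] at h4
        omega
    · obtain ⟨h3, h4⟩ := hq1s y z h1
      rw [hYmem] at h4
      omega

end Pool.Agent.GRC
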