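import Pool.Agent.Helper28.GRC.Defs

/-!
# GRC-LPP: leaf moves, step P: exchange of even and odd labels

Proof in words.  `n ≥ n0`.  `Y3 = {y ∈ X : 34 n ≤ 100 y ≤ 50 n}`, `D3 = {d ∈ S : 100 d ≤ 15 n}`; a pair `(y,d)` is valid if `y + d ∈ X` (then `y + d ∈ [0.34 n, 0.65 n]` and
`Rg n X S y (y+d)`).  A rectangle is `(y, y', d, d')` with `y, y' ∈ Y3`, `d, d' ∈ D3`, `y` even, `y'` odd, `d` even, `d'` odd, all four pairs valid.
Number of rectangles: `N ≥ (0.079 n)² (0.073 n)² ≥ 3.3·10⁻⁵ n⁴` (even/odd elements of an interval of length `0.16 n` resp. `0.15 n` minus the missing ones;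
for given `y, y'` at most `2 n/10000` values `d` are not valid for both).  With `θ = E/(2N)` put `+θ` on `(y, y+d)`, `-θ` on `(y, y+d')`,
`+θ` on `(y', y'+d')`, `-θ` on `(y', y'+d)`, for every rectangle.  Rows `y`, `y'` and differences `d`, `d'` have sum `0`; the labels `y + d`, `y' + d'`
are even and get `+θ`, the labels `y + d'`, `y' + d` are odd and get `-θ`; total on the even labels `2 θ N = E`.
A given pair is in at most `(0.081 n)(0.076 n) ≤ 0.0062 n²` rectangles, so `|r y z| ≤ 0.0062 n² · ζ n/(2 · 3.3·10⁻⁵ n⁴) ≤ 100 ζ/n`; a label `z` is met by at most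
`0.17 n` values `y`, so `|labS r z| ≤ 20 ζ`.
-/

set_option autoImplicit false

namespace Pool.Agent.GRC

open Finset

namespace P53

/-- parent labels of parity `c` -/
def Y (n : ℕ) (X : Finset ℕ) (c : ℕ) : Finset ℕ :=
  X.filter fun y => 34 * n ≤ 100 * y ∧ 100 * y ≤ 50 * n ∧ y % 2 = c

/-- differences of parity `c` valid for `y0` and `y1` -/
def V (n : ℕ) (X S : Finset ℕ) (c : ℕ) (y0 y1 : ℕ) : Finset ℕ :=
  S.filter fun d => 100 * d ≤ 15 * n ∧ d % 2 = c ∧ y0 + d ∈ X ∧ y1 + d ∈ X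

theorem card_par (a b c : ℕ) (I : Finset ℕ) (h : ∀ x ∈ I, a ≤ x ∧ x ≤ b ∧ x % 2 = c) :
    I.card ≤ b / 2 - a / 2 + 1 := by
  have h1 : I.card = (I.image fun x => x / 2).card := by
    rw [card_image_of_injOn]
    intro x hx y hy hxy
    have hx' := (h x (by simpa using hx)).2.2
    have hy' := (h y (by simpa using hy)).2.2
    simp only at hxy
    omega
  rw [h1]
  have h2 : (I.image fun x => x / 2) ⊆ Icc (a / 2) (b / 2) := by
    intro z hz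
    rw [mem_image] at hz
    obtain ⟨x, hx, rfl⟩ := hz
    have := h x hx
    rw [mem_Icc]
    omega
  refine (card_le_card h2).trans ?_
  rw [Nat.card_Icc]
  omega

theorem Y_upper (n : ℕ) (X : Finset ℕ) (c : ℕ) (hn : 1000000 ≤ n) :
    ((Y n X c).card : ℝ) ≤ 801 / 10000 * n := by
  have h := card_par (34 * n / 100) (50 * n / 100) c (Y n X c) (by
    intro x hx
    rw [Y, mem_filter] at hx
    omega)
  have h2 : 10000 * (Y n X c).card ≤ 801 * n := by omega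
  have h3 : (10000 : ℝ) * (Y n X c).card ≤ 801 * n := by exact_mod_cast h2
  linarith

theorem V_upper (n : ℕ) (X S : Finset ℕ) (c y0 y1 : ℕ) (hn : 1000000 ≤ n) :
    ((V n X S c y0 y1).card : ℝ) ≤ 751 / 10000 * n := by
  have h := card_par 0 (15 * n / 100) c (V n X S c y0 y1) (by
    intro x hx
    rw [V, mem_filter] at hx
    omega)
  have h2 : 10000 * (V n X S c y0 y1).card ≤ 751 * n := by omega
  have h3 : (10000 : ℝ) * (V n X S c y0 y1).card ≤ 751 * n := by exact_mod_cast h2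
  linarith

theorem Y_lower (n : ℕ) (X S : Finset ℕ) (c : ℕ) (hn : 1000000 ≤ n) (hD : Dns n X S) (hc : c < 2) :
    798 / 10000 * (n : ℝ) ≤ ((Y n X c).card : ℝ) := by
  set m := n / 200 with hm
  have hX := hD.X_big
  set bX := (range (n + 1)).filter fun x => n ≤ 100 * x ∧ 100 * x ≤ 99 * n ∧ x ∉ X with hbX
  have h1 : ((Icc (34 * m + 34) (50 * m - 1)).image fun k => 2 * k + c).card = 16 * m - 34 := by
    rw [card_image_of_injective _ (fun a b h => by have h' : 2 * a + c = 2 * b + c := h; omega), Nat.card_Icc]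
    omega
  have h2 : ((Icc (34 * m + 34) (50 * m - 1)).image fun k => 2 * k + c) ⊆ Y n X c ∪ bX := by
    intro z hz
    rw [mem_image] at hz
    obtain ⟨k, hk, rfl⟩ := hz
    rw [mem_Icc] at hk
    rw [mem_union]
    by_cases hzX : 2 * k + c ∈ X
    · left
      rw [Y, mem_filter]
      refine ⟨hzX, ?_, ?_, ?_⟩ <;> omega
    · right
      rw [hbX, mem_filter, mem_range]
      refine ⟨?_, ?_, ?_, hzX⟩ <;> omega
  have h3 := (card_le_card h2).trans (card_union_le _ _)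
  rw [h1] at h3
  have h4 : 798 * n ≤ 10000 * (Y n X c).card := by omega
  have h5 : (798 : ℝ) * n ≤ 10000 * (Y n X c).card := by exact_mod_cast h4
  linarith

theorem V_lower (n : ℕ) (X S : Finset ℕ) (c y0 y1 : ℕ) (hn : 1000000 ≤ n) (hD : Dns n X S)
    (hc : c < 2) (h0 : 34 * n ≤ 100 * y0 ∧ 100 * y0 ≤ 50 * n)
    (h0' : 34 * n ≤ 100 * y1 ∧ 100 * y1 ≤ 50 * n) :
    746 / 10000 * (n : ℝ) ≤ ((V n X S c y0 y1).card : ℝ) := by
  set m := n / 200 with hm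
  have hX := hD.X_big
  have hS := hD.S_big
  set bX := (range (n + 1)).filter fun x => n ≤ 100 * x ∧ 100 * x ≤ 99 * n ∧ x ∉ X with hbX
  set bS := (Icc 1 n).filter fun d => 3 * d ≤ n ∧ d ∉ S with hbS
  set I := (range (15 * m)).image fun k => 2 * k + (2 - c) with hI
  have h1 : I.card = 15 * m := by
    rw [hI, card_image_of_injective _ (fun a b h => by
      have h' : 2 * a + (2 - c) = 2 * b + (2 - c) := h; omega), card_range]
  have hbad : ∀ y, 34 * n ≤ 100 * y ∧ 100 * y ≤ 50 * n → (I.filter fun d => y + d ∉ X).card ≤ bX.card := by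
    intro y hy
    rw [← card_image_of_injective (I.filter fun d => y + d ∉ X) (add_right_injective y)]
    refine card_le_card ?_
    intro z hz
    rw [mem_image] at hz
    obtain ⟨d, hd, rfl⟩ := hz
    rw [mem_filter, hI, mem_image] at hd
    obtain ⟨⟨k, hk, rfl⟩, hd2⟩ := hd
    rw [mem_range] at hk
    rw [hbX, mem_filter, mem_range]
    refine ⟨?_, ?_, ?_, hd2⟩ <;> omega
  have h2 : I ⊆ V n X S c y0 y1 ∪ (bS ∪ ((I.filter fun d => y0 + d ∉ X) ∪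
      (I.filter fun d => y1 + d ∉ X))) := by
    intro d hd
    rw [mem_union, mem_union, mem_union]
    have hd' := hd
    rw [hI, mem_image] at hd'
    obtain ⟨k, hk, hkd⟩ := hd'
    rw [mem_range] at hk
    by_cases a1 : d ∈ S
    · by_cases a2 : y0 + d ∈ X
      · by_cases a3 : y1 + d ∈ X
        · left
          rw [V, mem_filter]
          refine ⟨a1, ?_, ?_, a2, a3⟩ <;> omega
        · exact Or.inr (Or.inr (Or.inr (mem_filter.2 ⟨hd, a3⟩)))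
      · exact Or.inr (Or.inr (Or.inl (mem_filter.2 ⟨hd, a2⟩)))
    · right; left
      rw [hbS, mem_filter, mem_Icc]
      refine ⟨⟨?_, ?_⟩, ?_, a1⟩ <;> omega
  have h3 := card_le_card h2
  have h4 := card_union_le (V n X S c y0 y1) (bS ∪ ((I.filter fun d => y0 + d ∉ X) ∪
      (I.filter fun d => y1 + d ∉ X)))
  have h5 := card_union_le bS ((I.filter fun d => y0 + d ∉ X) ∪ (I.filter fun d => y1 + d ∉ X))
  have h6 := card_union_le (I.filter fun d => y0 + d ∉ X) (I.filter fun d => y1 + d ∉ X)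
  have h7 := hbad y0 h0
  have h8 := hbad y1 h0'
  rw [h1] at h3
  have h9 : 746 * n ≤ 10000 * (V n X S c y0 y1).card := by omega
  have h10 : (746 : ℝ) * n ≤ 10000 * (V n X S c y0 y1).card := by exact_mod_cast h9
  linarith

/-- the rectangles -/
def Rc (n : ℕ) (X S : Finset ℕ) : Finset (Σ _ : ℕ × ℕ, ℕ × ℕ) :=
  (Y n X 0 ×ˢ Y n X 1).sigma fun p => V n X S 0 p.1 p.2 ×ˢ V n X S 1 p.1 p.2

theorem mem_Rc (n : ℕ) (X S : Finset ℕ) (ρ : Σ _ : ℕ × ℕ, ℕ × ℕ) : ρ ∈ Rc n X S ↔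
    (ρ.1.1 ∈ Y n X 0 ∧ ρ.1.2 ∈ Y n X 1) ∧ ρ.2.1 ∈ V n X S 0 ρ.1.1 ρ.1.2 ∧
      ρ.2.2 ∈ V n X S 1 ρ.1.1 ρ.1.2 := by
  rw [Rc, mem_sigma, mem_product, mem_product]

theorem Rc_card (n : ℕ) (X S : Finset ℕ) (hn : 1000000 ≤ n) (hD : Dns n X S) :
    (798 / 10000 * (n : ℝ)) ^ 2 * (746 / 10000 * (n : ℝ)) ^ 2 ≤ ((Rc n X S).card : ℝ) := by
  rw [Rc, card_sigma]
  push_cast
  have h1 : ∀ p ∈ Y n X 0 ×ˢ Y n X 1, (746 / 10000 * (n : ℝ)) ^ 2 ≤
      ((V n X S 0 p.1 p.2 ×ˢ V n X S 1 p.1 p.2).card : ℝ) := by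
    intro p hp
    rw [mem_product, Y, Y, mem_filter, mem_filter] at hp
    rw [card_product]
    push_cast
    have a := V_lower n X S 0 p.1 p.2 hn hD (by norm_num) ⟨hp.1.2.1, hp.1.2.2.1⟩
      ⟨hp.2.2.1, hp.2.2.2.1⟩
    have b := V_lower n X S 1 p.1 p.2 hn hD (by norm_num) ⟨hp.1.2.1, hp.1.2.2.1⟩
      ⟨hp.2.2.1, hp.2.2.2.1⟩
    rw [sq]
    exact mul_le_mul a b (by positivity) (Nat.cast_nonneg _)
  refine le_trans ?_ (card_nsmul_le_sum _ _ _ h1)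
  rw [nsmul_eq_mul, card_product]
  push_cast
  have a := Y_lower n X S 0 hn hD (by norm_num)
  have b := Y_lower n X S 1 hn hD (by norm_num)
  have c : (798 / 10000 * (n : ℝ)) ^ 2 ≤ ((Y n X 0).card : ℝ) * (Y n X 1).card := by
    rw [sq]
    exact mul_le_mul a b (by positivity) (Nat.cast_nonneg _)
  exact mul_le_mul_of_nonneg_right c (by positivity)

/-- the move on one rectangle -/
def ee (ρ : Σ _ : ℕ × ℕ, ℕ × ℕ) (y z : ℕ) : ℝ :=
  (if y = ρ.1.1 ∧ z = ρ.1.1 + ρ.2.1 then 1 else 0) - (if y = ρ.1.1 ∧ z = ρ.1.1 + ρ.2.2 then 1 else 0) +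
  (if y = ρ.1.2 ∧ z = ρ.1.2 + ρ.2.2 then 1 else 0) - (if y = ρ.1.2 ∧ z = ρ.1.2 + ρ.2.1 then 1 else 0)

theorem ee_supp (n : ℕ) (X S : Finset ℕ) (ρ : Σ _ : ℕ × ℕ, ℕ × ℕ) (hρ : ρ ∈ Rc n X S) (y z : ℕ)
    (h : ee ρ y z ≠ 0) : Rg n X S y z ∧ |ee ρ y z| ≤ 1 ∧
      (y % 2 = 0 → z % 2 = 0 → y = ρ.1.1 ∧ z = y + ρ.2.1) ∧
      (y % 2 = 0 → z % 2 = 1 → y = ρ.1.1 ∧ z = y + ρ.2.2) ∧
      (y % 2 = 1 → z % 2 = 0 → y = ρ.1.2 ∧ z = y + ρ.2.2) ∧
      (y % 2 = 1 → z % 2 = 1 → y = ρ.1.2 ∧ z = y + ρ.2.1) := by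
  obtain ⟨⟨y0, y1⟩, ⟨d0, d1⟩⟩ := ρ
  rw [mem_Rc] at hρ
  simp only [Y, V, mem_filter] at hρ
  obtain ⟨⟨⟨a1, a2, a3, a4⟩, ⟨b1, b2, b3, b4⟩⟩, ⟨c1, c2, c3, c4, c5⟩, ⟨e1, e2, e3, e4, e5⟩⟩ := hρ
  unfold ee at h ⊢
  simp only at h ⊢
  by_cases g1 : y = y0 ∧ z = y0 + d0
  · obtain ⟨rfl, rfl⟩ := g1
    have f1 : ¬ (y = y ∧ y + d0 = y + d1) := by omega
    have f2 : ¬ (y = y1 ∧ y + d0 = y1 + d1) := by omega
    have f3 : ¬ (y = y1 ∧ y + d0 = y1 + d0) := by omega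
    rw [if_pos ⟨rfl, rfl⟩, if_neg f1, if_neg f2, if_neg f3]
    refine ⟨⟨a1, c4, ?_, ?_, ?_, ?_⟩, by norm_num, ?_, ?_, ?_, ?_⟩
    · have : ad y (y + d0) = d0 := by unfold ad; omega
      rw [this]; exact c1
    · omega
    · omega
    · unfold ad; omega
    · intro _ _; exact ⟨rfl, rfl⟩
    all_goals (intro _ _; omega)
  · rw [if_neg g1] at h ⊢
    by_cases g2 : y = y0 ∧ z = y0 + d1
    · obtain ⟨rfl, rfl⟩ := g2
      have f2 : ¬ (y = y1 ∧ y + d1 = y1 + d1) := by omega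
      have f3 : ¬ (y = y1 ∧ y + d1 = y1 + d0) := by omega
      rw [if_pos ⟨rfl, rfl⟩, if_neg f2, if_neg f3]
      refine ⟨⟨a1, e4, ?_, ?_, ?_, ?_⟩, by norm_num, ?_, ?_, ?_, ?_⟩
      · have : ad y (y + d1) = d1 := by unfold ad; omega
        rw [this]; exact e1
      · omega
      · omega
      · unfold ad; omega
      all_goals (intro _ _; omega)
    · rw [if_neg g2] at h ⊢
      by_cases g3 : y = y1 ∧ z = y1 + d1
      · obtain ⟨rfl, rfl⟩ := g3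
        have f3 : ¬ (y = y ∧ y + d1 = y + d0) := by omega
        rw [if_pos ⟨rfl, rfl⟩, if_neg f3]
        refine ⟨⟨b1, e5, ?_, ?_, ?_, ?_⟩, by norm_num, ?_, ?_, ?_, ?_⟩
        · have : ad y (y + d1) = d1 := by unfold ad; omega
          rw [this]; exact e1
        · omega
        · omega
        · unfold ad; omega
        all_goals (intro _ _; omega)
      · rw [if_neg g3] at h ⊢
        by_cases g4 : y = y1 ∧ z = y1 + d0
        · obtain ⟨rfl, rfl⟩ := g4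
          rw [if_pos ⟨rfl, rfl⟩]
          refine ⟨⟨b1, c5, ?_, ?_, ?_, ?_⟩, by norm_num, ?_, ?_, ?_, ?_⟩
          · have : ad y (y + d0) = d0 := by unfold ad; omega
            rw [this]; exact c1
          · omega
          · omega
          · unfold ad; omega
          all_goals (intro _ _; omega)
        · rw [if_neg g4] at h
          norm_num at h

theorem sum_ind (A B : Finset ℕ) (a b : ℕ) (ha : a ∈ A) (hb : b ∈ B) :
    ∑ y ∈ A, ∑ z ∈ B, (if y = a ∧ z = b then (1 : ℝ) else 0) = 1 := by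
  rw [sum_eq_single_of_mem a ha, sum_eq_single_of_mem b hb]
  · simp
  · intro z _ hz
    rw [if_neg]
    exact fun h => hz h.2
  · intro y _ hy
    exact sum_eq_zero fun z _ => if_neg fun h => hy h.1

/-- marginals of one rectangle -/
theorem ee_row (n : ℕ) (X S : Finset ℕ) (ρ : Σ _ : ℕ × ℕ, ℕ × ℕ) (hρ : ρ ∈ Rc n X S) (y : ℕ) :
    ∑ z ∈ X, ee ρ y z = 0 := by
  obtain ⟨⟨y0, y1⟩, ⟨d0, d1⟩⟩ := ρ
  rw [mem_Rc] at hρ
  simp only [Y, V, mem_filter] at hρ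
  obtain ⟨⟨⟨a1, a2, a3, a4⟩, ⟨b1, b2, b3, b4⟩⟩, ⟨c1, c2, c3, c4, c5⟩, ⟨e1, e2, e3, e4, e5⟩⟩ := hρ
  have key : ∀ a b : ℕ, b ∈ X → ∑ z ∈ X, (if y = a ∧ z = b then (1 : ℝ) else 0) =
      if y = a then 1 else 0 := by
    intro a b hb
    by_cases hy : y = a
    · rw [if_pos hy, sum_eq_single_of_mem b hb, if_pos ⟨hy, rfl⟩]
      intro z _ hz
      exact if_neg fun h => hz h.2
    · rw [if_neg hy]
      exact sum_eq_zero fun z _ => if_neg fun h => hy h.1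
  unfold ee
  simp only [sum_sub_distrib, sum_add_distrib]
  rw [key _ _ c4, key _ _ e4, key _ _ e5, key _ _ c5]
  ring

theorem ee_dif (n : ℕ) (X S : Finset ℕ) (ρ : Σ _ : ℕ × ℕ, ℕ × ℕ) (hρ : ρ ∈ Rc n X S) (d : ℕ) :
    ∑ y ∈ X, ∑ z ∈ X, (if ad y z = d then ee ρ y z else 0) = 0 := by
  obtain ⟨⟨y0, y1⟩, ⟨d0, d1⟩⟩ := ρ
  rw [mem_Rc] at hρ
  simp only [Y, V, mem_filter] at hρ
  obtain ⟨⟨⟨a1, a2, a3, a4⟩, ⟨b1, b2, b3, b4⟩⟩, ⟨c1, c2, c3, c4, c5⟩, ⟨e1, e2, e3, e4, e5⟩⟩ := hρ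
  have key : ∀ a e : ℕ, a ∈ X → a + e ∈ X → ∑ y ∈ X, ∑ z ∈ X,
      (if ad y z = d then (if y = a ∧ z = a + e then (1 : ℝ) else 0) else 0) =
      if e = d then 1 else 0 := by
    intro a e ha hb
    have had : ad a (a + e) = e := by unfold ad; omega
    by_cases hy : e = d
    · rw [if_pos hy, sum_eq_single_of_mem a ha, sum_eq_single_of_mem (a + e) hb, had, if_pos hy,
        if_pos ⟨rfl, rfl⟩]
      · intro z _ hz
        rw [ite_eq_right_iff]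
        exact fun _ => if_neg fun h => hz h.2
      · intro y _ hy
        refine sum_eq_zero fun z _ => ?_
        rw [ite_eq_right_iff]
        exact fun _ => if_neg fun h => hy h.1
    · rw [if_neg hy]
      refine sum_eq_zero fun y _ => sum_eq_zero fun z _ => ?_
      rw [ite_eq_right_iff]
      intro h1
      refine if_neg fun h => hy ?_
      rw [h.1, h.2, had] at h1
      exact h1
  have e0 : ∀ y z, (if ad y z = d then ee ⟨(y0, y1), (d0, d1)⟩ y z else 0) =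
      (if ad y z = d then (if y = y0 ∧ z = y0 + d0 then (1 : ℝ) else 0) else 0) -
      (if ad y z = d then (if y = y0 ∧ z = y0 + d1 then (1 : ℝ) else 0) else 0) +
      (if ad y z = d then (if y = y1 ∧ z = y1 + d1 then (1 : ℝ) else 0) else 0) -
      (if ad y z = d then (if y = y1 ∧ z = y1 + d0 then (1 : ℝ) else 0) else 0) := by
    intro y z
    unfold ee
    by_cases h : ad y z = d
    · simp only [if_pos h]
    · simp only [if_neg h]; norm_num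
  simp only [e0, sum_sub_distrib, sum_add_distrib]
  rw [key _ _ a1 c4, key _ _ a1 e4, key _ _ b1 e5, key _ _ b1 c5]
  ring

theorem ee_lab (n : ℕ) (X S : Finset ℕ) (ρ : Σ _ : ℕ × ℕ, ℕ × ℕ) (hρ : ρ ∈ Rc n X S) :
    ∑ z ∈ (XR n X).filter (fun z => z % 2 = 0), ∑ y ∈ X, ee ρ y z = 2 ∧
    ∑ z ∈ (XR n X).filter (fun z => z % 2 = 1), ∑ y ∈ X, ee ρ y z = -2 := by
  obtain ⟨⟨y0, y1⟩, ⟨d0, d1⟩⟩ := ρ
  rw [mem_Rc] at hρ
  simp only [Y, V, mem_filter] at hρ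
  obtain ⟨⟨⟨a1, a2, a3, a4⟩, ⟨b1, b2, b3, b4⟩⟩, ⟨c1, c2, c3, c4, c5⟩, ⟨e1, e2, e3, e4, e5⟩⟩ := hρ
  have key : ∀ (B : Finset ℕ) (a e : ℕ), a ∈ X → ∑ z ∈ B, ∑ y ∈ X,
      (if y = a ∧ z = e then (1 : ℝ) else 0) = if e ∈ B then 1 else 0 := by
    intro B a e ha
    by_cases he : e ∈ B
    · rw [if_pos he, sum_eq_single_of_mem e he, sum_eq_single_of_mem a ha, if_pos ⟨rfl, rfl⟩]
      · intro y _ hy
        exact if_neg fun h => hy h.1
      · intro z _ hz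
        exact sum_eq_zero fun y _ => if_neg fun h => hz h.2
    · rw [if_neg he]
      refine sum_eq_zero fun z hz => sum_eq_zero fun y _ => if_neg fun h => he ?_
      rw [← h.2]; exact hz
  have m1 : y0 + d0 ∈ (XR n X).filter (fun z => z % 2 = 0) := by
    rw [XR, filter_filter, mem_filter]; exact ⟨c4, ⟨by omega, by omega⟩, by omega⟩
  have m2 : y0 + d1 ∉ (XR n X).filter (fun z => z % 2 = 0) := by
    rw [mem_filter]; rintro ⟨_, h⟩; omega
  have m3 : y1 + d1 ∈ (XR n X).filter (fun z => z % 2 = 0) := by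
    rw [XR, filter_filter, mem_filter]; exact ⟨e5, ⟨by omega, by omega⟩, by omega⟩
  have m4 : y1 + d0 ∉ (XR n X).filter (fun z => z % 2 = 0) := by
    rw [mem_filter]; rintro ⟨_, h⟩; omega
  have k1 : y0 + d0 ∉ (XR n X).filter (fun z => z % 2 = 1) := by
    rw [mem_filter]; rintro ⟨_, h⟩; omega
  have k2 : y0 + d1 ∈ (XR n X).filter (fun z => z % 2 = 1) := by
    rw [XR, filter_filter, mem_filter]; exact ⟨e4, ⟨by omega, by omega⟩, by omega⟩
  have k3 : y1 + d1 ∉ (XR n X).filter (fun z => z % 2 = 1) := by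
    rw [mem_filter]; rintro ⟨_, h⟩; omega
  have k4 : y1 + d0 ∈ (XR n X).filter (fun z => z % 2 = 1) := by
    rw [XR, filter_filter, mem_filter]; exact ⟨c5, ⟨by omega, by omega⟩, by omega⟩
  unfold ee
  simp only [sum_sub_distrib, sum_add_distrib]
  constructor
  · rw [key _ _ _ a1, key _ _ _ a1, key _ _ _ b1, key _ _ _ b1, if_pos m1, if_neg m2, if_pos m3,
      if_neg m4]
    norm_num
  · rw [key _ _ _ a1, key _ _ _ a1, key _ _ _ b1, key _ _ _ b1, if_neg k1, if_pos k2, if_neg k3,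
      if_pos k4]
    norm_num

/-- few rectangles contain a given pair -/
theorem ee_count (n : ℕ) (X S : Finset ℕ) (hn : 1000000 ≤ n) (y z : ℕ) :
    ∑ ρ ∈ Rc n X S, |ee ρ y z| ≤ (801 / 10000 * (n : ℝ)) * (751 / 10000 * n) := by
  have h1 : ∑ ρ ∈ Rc n X S, |ee ρ y z| ≤ (((Rc n X S).filter fun ρ => ee ρ y z ≠ 0).card : ℝ) := by
    rw [card_filter]
    push_cast
    refine sum_le_sum fun ρ hρ => ?_
    by_cases h : ee ρ y z = 0
    · rw [h, abs_zero, if_neg (by simpa using h)]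
    · rw [if_pos h]
      exact (ee_supp n X S ρ hρ y z h).2.1
  refine h1.trans ?_
  -- general injection
  have key : ∀ (c c' : ℕ) (f : (Σ _ : ℕ × ℕ, ℕ × ℕ) → ℕ × ℕ) (A : Finset ℕ) (B : ℕ → Finset ℕ),
      (A.card : ℝ) ≤ 801 / 10000 * n → (∀ a, ((B a).card : ℝ) ≤ 751 / 10000 * n) →
      Set.InjOn f ((Rc n X S).filter fun ρ => ee ρ y z ≠ 0 : Finset _) →
      (∀ ρ ∈ (Rc n X S).filter fun ρ => ee ρ y z ≠ 0, (f ρ).1 ∈ A ∧ (f ρ).2 ∈ B (f ρ).1) →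
      (((Rc n X S).filter fun ρ => ee ρ y z ≠ 0).card : ℝ) ≤
        (801 / 10000 * (n : ℝ)) * (751 / 10000 * n) := by
    intro c c' f A B hA hB hf hm
    rw [← card_image_of_injOn hf]
    have h2 : (((Rc n X S).filter fun ρ => ee ρ y z ≠ 0).image f).card ≤ ∑ a ∈ A, (B a).card := by
      rw [← card_sigma]
      refine card_le_card_of_injOn (fun q => ⟨q.1, q.2⟩) ?_ ?_
      · intro q hq
        rw [mem_coe, mem_image] at hq
        obtain ⟨ρ, hρ, rfl⟩ := hq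
        rw [mem_coe, mem_sigma]
        exact hm ρ hρ
      · intro q _ q' _ h
        simp only [Sigma.mk.injEq, heq_eq_eq] at h
        exact Prod.ext h.1 h.2
    have h3 : (((((Rc n X S).filter fun ρ => ee ρ y z ≠ 0).image f).card : ℕ) : ℝ) ≤
        ((∑ a ∈ A, (B a).card : ℕ) : ℝ) := by exact_mod_cast h2
    refine h3.trans ?_
    push_cast
    refine (sum_le_card_nsmul _ _ _ fun a _ => hB a).trans ?_
    rw [nsmul_eq_mul]
    exact mul_le_mul_of_nonneg_right hA (by positivity)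
  have hmem : ∀ ρ ∈ (Rc n X S).filter fun ρ => ee ρ y z ≠ 0, ρ ∈ Rc n X S ∧ ee ρ y z ≠ 0 :=
    fun ρ hρ => mem_filter.1 hρ
  rcases Nat.mod_two_eq_zero_or_one y with hy | hy <;>
  rcases Nat.mod_two_eq_zero_or_one z with hz | hz
  · refine key 0 0 (fun ρ => (ρ.1.2, ρ.2.2)) (Y n X 1) (fun a => V n X S 1 y a) (Y_upper n X 1 hn)
      (fun a => V_upper n X S 1 y a hn) ?_ ?_
    · intro ρ hρ ρ' hρ' h
      obtain ⟨r1, r2⟩ := hmem ρ (mem_coe.1 hρ)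
      obtain ⟨r1', r2'⟩ := hmem ρ' (mem_coe.1 hρ')
      obtain ⟨s1, s2⟩ := (ee_supp n X S ρ r1 y z r2).2.2.1 hy hz
      obtain ⟨s1', s2'⟩ := (ee_supp n X S ρ' r1' y z r2').2.2.1 hy hz
      obtain ⟨⟨u0, u1⟩, ⟨v0, v1⟩⟩ := ρ
      obtain ⟨⟨u0', u1'⟩, ⟨v0', v1'⟩⟩ := ρ'
      simp only [Prod.mk.injEq] at h s1 s2 s1' s2'
      obtain ⟨h1, h2⟩ := h
      have h3 : u0 = u0' := by omega
      have h4 : v0 = v0' := by omega
      rw [h1, h2, h3, h4]
    · intro ρ hρ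
      obtain ⟨r1, r2⟩ := hmem ρ hρ
      obtain ⟨s1, s2⟩ := (ee_supp n X S ρ r1 y z r2).2.2.1 hy hz
      rw [mem_Rc] at r1
      exact ⟨r1.1.2, by rw [s1]; exact r1.2.2⟩
  · refine key 0 0 (fun ρ => (ρ.1.2, ρ.2.1)) (Y n X 1) (fun a => V n X S 0 y a) (Y_upper n X 1 hn)
      (fun a => V_upper n X S 0 y a hn) ?_ ?_
    · intro ρ hρ ρ' hρ' h
      obtain ⟨r1, r2⟩ := hmem ρ (mem_coe.1 hρ)
      obtain ⟨r1', r2'⟩ := hmem ρ' (mem_coe.1 hρ')
      obtain ⟨s1, s2⟩ := (ee_supp n X S ρ r1 y z r2).2.2.2.1 hy hz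
      obtain ⟨s1', s2'⟩ := (ee_supp n X S ρ' r1' y z r2').2.2.2.1 hy hz
      obtain ⟨⟨u0, u1⟩, ⟨v0, v1⟩⟩ := ρ
      obtain ⟨⟨u0', u1'⟩, ⟨v0', v1'⟩⟩ := ρ'
      simp only [Prod.mk.injEq] at h s1 s2 s1' s2'
      obtain ⟨h1, h2⟩ := h
      have h3 : u0 = u0' := by omega
      have h4 : v1 = v1' := by omega
      rw [h1, h2, h3, h4]
    · intro ρ hρ
      obtain ⟨r1, r2⟩ := hmem ρ hρ
      obtain ⟨s1, s2⟩ := (ee_supp n X S ρ r1 y z r2).2.2.2.1 hy hz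
      rw [mem_Rc] at r1
      exact ⟨r1.1.2, by rw [s1]; exact r1.2.1⟩
  · refine key 0 0 (fun ρ => (ρ.1.1, ρ.2.1)) (Y n X 0) (fun a => V n X S 0 a y) (Y_upper n X 0 hn)
      (fun a => V_upper n X S 0 a y hn) ?_ ?_
    · intro ρ hρ ρ' hρ' h
      obtain ⟨r1, r2⟩ := hmem ρ (mem_coe.1 hρ)
      obtain ⟨r1', r2'⟩ := hmem ρ' (mem_coe.1 hρ')
      obtain ⟨s1, s2⟩ := (ee_supp n X S ρ r1 y z r2).2.2.2.2.1 hy hz
      obtain ⟨s1', s2'⟩ := (ee_supp n X S ρ' r1' y z r2').2.2.2.2.1 hy hz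
      obtain ⟨⟨u0, u1⟩, ⟨v0, v1⟩⟩ := ρ
      obtain ⟨⟨u0', u1'⟩, ⟨v0', v1'⟩⟩ := ρ'
      simp only [Prod.mk.injEq] at h s1 s2 s1' s2'
      obtain ⟨h1, h2⟩ := h
      have h3 : u1 = u1' := by omega
      have h4 : v1 = v1' := by omega
      rw [h1, h2, h3, h4]
    · intro ρ hρ
      obtain ⟨r1, r2⟩ := hmem ρ hρ
      obtain ⟨s1, s2⟩ := (ee_supp n X S ρ r1 y z r2).2.2.2.2.1 hy hz
      rw [mem_Rc] at r1
      exact ⟨r1.1.1, by rw [s1]; exact r1.2.1⟩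
  · refine key 0 0 (fun ρ => (ρ.1.1, ρ.2.2)) (Y n X 0) (fun a => V n X S 1 a y) (Y_upper n X 0 hn)
      (fun a => V_upper n X S 1 a y hn) ?_ ?_
    · intro ρ hρ ρ' hρ' h
      obtain ⟨r1, r2⟩ := hmem ρ (mem_coe.1 hρ)
      obtain ⟨r1', r2'⟩ := hmem ρ' (mem_coe.1 hρ')
      obtain ⟨s1, s2⟩ := (ee_supp n X S ρ r1 y z r2).2.2.2.2.2 hy hz
      obtain ⟨s1', s2'⟩ := (ee_supp n X S ρ' r1' y z r2').2.2.2.2.2 hy hz
      obtain ⟨⟨u0, u1⟩, ⟨v0, v1⟩⟩ := ρ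
      obtain ⟨⟨u0', u1'⟩, ⟨v0', v1'⟩⟩ := ρ'
      simp only [Prod.mk.injEq] at h s1 s2 s1' s2'
      obtain ⟨h1, h2⟩ := h
      have h3 : u1 = u1' := by omega
      have h4 : v0 = v0' := by omega
      rw [h1, h2, h3, h4]
    · intro ρ hρ
      obtain ⟨r1, r2⟩ := hmem ρ hρ
      obtain ⟨s1, s2⟩ := (ee_supp n X S ρ r1 y z r2).2.2.2.2.2 hy hz
      rw [mem_Rc] at r1
      exact ⟨r1.1.1, by rw [s1]; exact r1.2.2⟩

end P53

open P53 in
theorem stepP : ∃ n0 : ℕ, ∀ (n : ℕ) (X S : Finset ℕ) (E ζ : ℝ), n0 ≤ n → Dns n X S → 0 ≤ ζ → |E| ≤ ζ * n →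
    ∃ r : ℕ → ℕ → ℝ, (∀ y z, r y z ≠ 0 → Rg n X S y z) ∧ (∀ y z, |r y z| ≤ 200 * ζ / n) ∧
      (∀ y ∈ X, rowS X r y = 0) ∧ (∀ d, difS X r d = 0) ∧ (∀ z ∈ X, |labS X r z| ≤ 200 * ζ) ∧
      ∑ z ∈ (XR n X).filter (fun z => z % 2 = 0), labS X r z = E ∧
      ∑ z ∈ (XR n X).filter (fun z => z % 2 = 1), labS X r z = -E := by
  refine ⟨1000000, ?_⟩
  intro n X S E ζ hn hD hζ hE
  have hN := Rc_card n X S hn hD
  have hn1 : (1000000 : ℝ) ≤ n := by exact_mod_cast hn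
  have hn0 : (0 : ℝ) < n := by linarith
  obtain ⟨N, hNd⟩ : ∃ N : ℝ, N = ((Rc n X S).card : ℝ) := ⟨_, rfl⟩
  rw [← hNd] at hN
  have hN0 : 0 < N := lt_of_lt_of_le (by positivity) hN
  obtain ⟨θ, hθ⟩ : ∃ θ, θ = E / (2 * N) := ⟨_, rfl⟩
  have hθ2 : θ * (2 * N) = E := by rw [hθ]; field_simp
  have hbd : ∀ y z, |∑ ρ ∈ Rc n X S, θ * ee ρ y z| ≤ 100 * ζ / n := by
    intro y z
    rw [← mul_sum, abs_mul]
    have h1 : |∑ ρ ∈ Rc n X S, ee ρ y z| ≤ (801 / 10000 * (n : ℝ)) * (751 / 10000 * n) :=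
      (abs_sum_le_sum_abs _ _).trans (ee_count n X S hn y z)
    have h2 : |θ| ≤ ζ * n / (2 * N) := by
      rw [hθ, abs_div, abs_of_pos (by positivity : (0 : ℝ) < 2 * N)]
      gcongr
    calc |θ| * |∑ ρ ∈ Rc n X S, ee ρ y z|
        ≤ ζ * n / (2 * N) * ((801 / 10000 * (n : ℝ)) * (751 / 10000 * n)) :=
          mul_le_mul h2 h1 (abs_nonneg _) (by positivity)
      _ ≤ 100 * ζ / n := by
        rw [div_mul_eq_mul_div, div_le_div_iff₀ (by positivity) hn0]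
        have h3 : (n : ℝ) ^ 4 * (801 / 10000 * (751 / 10000)) ≤ 200 * N := by
          have : (n : ℝ) ^ 4 * (801 / 10000 * (751 / 10000)) ≤
              200 * ((798 / 10000 * (n : ℝ)) ^ 2 * (746 / 10000 * (n : ℝ)) ^ 2) := by
            have : (0 : ℝ) ≤ (n : ℝ) ^ 4 := by positivity
            nlinarith
          linarith
        calc ζ * n * ((801 / 10000 * (n : ℝ)) * (751 / 10000 * n)) * n
            = ζ * ((n : ℝ) ^ 4 * (801 / 10000 * (751 / 10000))) := by ring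
          _ ≤ ζ * (200 * N) := by gcongr
          _ = 100 * ζ * (2 * N) := by ring
  refine ⟨fun y z => ∑ ρ ∈ Rc n X S, θ * ee ρ y z, ?_, ?_, ?_, ?_, ?_, ?_, ?_⟩
  · intro y z h
    by_contra hc
    apply h
    refine sum_eq_zero fun ρ hρ => ?_
    by_cases h0 : ee ρ y z = 0
    · rw [h0, mul_zero]
    · exact absurd (ee_supp n X S ρ hρ y z h0).1 hc
  · intro y z
    refine (hbd y z).trans ?_
    gcongr
    linarith
  · intro y _
    unfold rowS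
    rw [sum_comm]
    refine sum_eq_zero fun ρ hρ => ?_
    rw [← mul_sum, ee_row n X S ρ hρ y, mul_zero]
  · intro d
    unfold difS
    have h1 : ∀ y z, (if ad y z = d then ∑ ρ ∈ Rc n X S, θ * ee ρ y z else 0) =
        ∑ ρ ∈ Rc n X S, θ * (if ad y z = d then ee ρ y z else 0) := by
      intro y z
      by_cases h : ad y z = d
      · simp only [if_pos h]
      · simp only [if_neg h, mul_zero, sum_const_zero]
    simp only [h1]
    have h2 : ∀ y, ∑ z ∈ X, ∑ ρ ∈ Rc n X S, θ * (if ad y z = d then ee ρ y z else 0) =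
        ∑ ρ ∈ Rc n X S, ∑ z ∈ X, θ * (if ad y z = d then ee ρ y z else 0) := fun y => sum_comm
    simp only [h2]
    rw [sum_comm]
    refine sum_eq_zero fun ρ hρ => ?_
    simp only [← mul_sum]
    rw [ee_dif n X S ρ hρ d, mul_zero]
  · intro z _
    unfold labS
    refine (abs_sum_le_sum_abs _ _).trans ?_
    refine (sum_le_card_nsmul _ _ _ fun y _ => hbd y z).trans ?_
    rw [nsmul_eq_mul]
    have hc : (X.card : ℝ) ≤ n + 1 := by
      have := card_le_card hD.X_sub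
      rw [card_range] at this
      exact_mod_cast this
    calc (X.card : ℝ) * (100 * ζ / n) ≤ (2 * n) * (100 * ζ / n) := by
          gcongr
          linarith
      _ = 200 * ζ := by field_simp; ring
  · unfold labS
    have h1 : ∀ z, ∑ y ∈ X, ∑ ρ ∈ Rc n X S, θ * ee ρ y z = ∑ ρ ∈ Rc n X S, ∑ y ∈ X, θ * ee ρ y z :=
      fun z => sum_comm
    simp only [h1]
    rw [sum_comm]
    have h2 : ∀ ρ ∈ Rc n X S, ∑ z ∈ (XR n X).filter (fun z => z % 2 = 0), ∑ y ∈ X, θ * ee ρ y z =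
        θ * 2 := by
      intro ρ hρ
      simp only [← mul_sum]
      rw [(ee_lab n X S ρ hρ).1]
    rw [sum_congr rfl h2, sum_const, nsmul_eq_mul, ← hNd, ← hθ2]
    ring
  · unfold labS
    have h1 : ∀ z, ∑ y ∈ X, ∑ ρ ∈ Rc n X S, θ * ee ρ y z = ∑ ρ ∈ Rc n X S, ∑ y ∈ X, θ * ee ρ y z :=
      fun z => sum_comm
    simp only [h1]
    rw [sum_comm]
    have h2 : ∀ ρ ∈ Rc n X S, ∑ z ∈ (XR n X).filter (fun z => z % 2 = 1), ∑ y ∈ X, θ * ee ρ y z =
        θ * -2 := by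
      intro ρ hρ
      simp only [← mul_sum]
      rw [(ee_lab n X S ρ hρ).2]
    rw [sum_congr rfl h2, sum_const, nsmul_eq_mul, ← hNd, ← hθ2]
    ring

end Pool.Agent.GRC
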