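import Pool.Agent.Helper28.GRC.Defs

/-!
# GRC-LPR: leaf moves, step R: prescribed change of the labels (reflections)

Proof in words.  `n ≥ n0`.  Let `z, w ∈ XR` be distinct of the same parity, `y = (z+w)/2`; the pair is VALID if `y ∈ X` and `ad y z = ad y w = |z-w|/2 ∈ S`.  Then
`Rg n X S y z` and `Rg n X S y w` (the difference is `≤ 0.16 n`), and the move `M(z,w)`: `-1` at `(y,z)`, `+1` at `(y,w)` has row sums `0`, difference
marginals `0` and changes the label marginal by `-1` at `z` and `+1` at `w`.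
For `z ≠ z'` of the same parity in `XR` let `W z z'` be the set of `w ∈ XR` of this parity, `(z,w)` and `(w,z')` valid: `|W| ≥ 0.15 n` (there are at least
`0.16 n - 1 - n/10000` elements of the parity class in `XR`; for given `z` at most `n/10000 + 2 n/10000 + 1` of them are not valid with `z`: the map `w ↦ (z+w)/2` is
injective with values in `[0.34 n, 0.66 n]`, and every missing difference excludes at most two `w`).
For each parity class: `T = ∑ δ⁺ = ∑ δ⁻` over the class; if `T ≠ 0` put `f z z' = δ⁻ z δ⁺ z'/T` (mass to be moved from `z` to `z'`) and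
`r = ∑_{z,z'} ∑_{w ∈ W z z'} f z z'/|W z z'| (M(z,w) + M(w,z'))`.  The label marginal is `-δ⁻ + δ⁺ = δ`.
For given `(y,z)` the partner is `w = 2 y - z`; the total flow on the ordered pair `(z,w)` is at most `δ⁻ z/(0.15 n)` (first moves) plus `δ⁺ w/(0.15 n)` (second moves), the
same for `(w,z)`; so `|r y z| ≤ 4 ζ/(0.15 n) ≤ 100 ζ/n`.
-/

set_option autoImplicit false

namespace Pool.Agent.GRC

open Finset

/-- valid pairs of labels -/
private def Vld (n : ℕ) (X S : Finset ℕ) (z w : ℕ) : Prop :=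
  z ∈ XR n X ∧ w ∈ XR n X ∧ z % 2 = w % 2 ∧ z ≠ w ∧ (z + w) / 2 ∈ X ∧ ad z w / 2 ∈ S

private theorem Vld_symm {n : ℕ} {X S : Finset ℕ} {z w : ℕ} (h : Vld n X S z w) : Vld n X S w z := by
  obtain ⟨h1, h2, h3, h4, h5, h6⟩ := h
  exact ⟨h2, h1, h3.symm, h4.symm, by rwa [add_comm], by rwa [ad_comm]⟩

open Classical in
/-- an antisymmetric flow along the edges of a graph with many common neighbours -/
private theorem flow_h22 (C : Finset ℕ) (V : ℕ → ℕ → Prop) (hV : ∀ a b, V a b → V b a)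
    (K : ℝ) (hK : 0 < K)
    (hW : ∀ a ∈ C, ∀ c ∈ C, K ≤ ((C.filter fun b => V a b ∧ V c b).card : ℝ))
    (δ : ℕ → ℝ) (ζ : ℝ) (hζ : 0 ≤ ζ) (hδ : ∀ a ∈ C, |δ a| ≤ ζ) (hs : ∑ a ∈ C, δ a = 0) :
    ∃ G : ℕ → ℕ → ℝ, (∀ a b, G a b = - G b a) ∧ (∀ a b, G a b ≠ 0 → a ∈ C ∧ b ∈ C ∧ V a b) ∧
      (∀ a b, |G a b| ≤ 4 * ζ / K) ∧ ∀ a ∈ C, ∑ b ∈ C, G a b = - δ a := by
  obtain ⟨N, hN⟩ : ∃ N : ℝ, N = (C.card : ℝ) := ⟨_, rfl⟩
  rcases C.eq_empty_or_nonempty with hC | hC
  · refine ⟨fun _ _ => 0, fun _ _ => by simp, fun _ _ h => absurd rfl h, fun _ _ => ?_, ?_⟩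
    · rw [abs_zero]; positivity
    · intro a ha
      rw [hC] at ha
      exact absurd ha (notMem_empty a)
  have hN0 : 0 < N := by
    rw [hN]
    exact_mod_cast card_pos.2 hC
  obtain ⟨w, hw⟩ : ∃ w : ℕ → ℕ → ℝ, ∀ a c, w a c = ((C.filter fun b => V a b ∧ V c b).card : ℝ) :=
    ⟨_, fun _ _ => rfl⟩
  have wsymm : ∀ a c, w a c = w c a := by
    intro a c
    rw [hw, hw]
    congr 2
    ext b
    simp only [mem_filter, and_comm (a := V a b)]
  obtain ⟨H, hH⟩ : ∃ H : ℕ → ℕ → ℝ, ∀ a c, H a c = (δ c - δ a) / N := ⟨_, fun _ _ => rfl⟩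
  have Hsymm : ∀ a c, H a c = - H c a := by
    intro a c
    rw [hH, hH]
    ring
  obtain ⟨P, hP⟩ : ∃ P : ℕ → ℕ → ℕ → ℝ, ∀ a b c, P a b c = if V a b ∧ V c b then H a c / w a c else 0 :=
    ⟨_, fun _ _ _ => rfl⟩
  have Psymm : ∀ a b c, P a b c = - P c b a := by
    intro a b c
    rw [hP, hP, Hsymm a c, wsymm a c]
    by_cases h1 : V a b ∧ V c b
    · rw [if_pos h1, if_pos (And.intro h1.2 h1.1)]
      ring
    · rw [if_neg h1, if_neg (fun h2 : V c b ∧ V a b => h1 ⟨h2.2, h2.1⟩), neg_zero]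
  have Pbd : ∀ a ∈ C, ∀ b, ∀ c ∈ C, |P a b c| ≤ 2 * ζ / N / K := by
    intro a ha b c hc
    rw [hP]
    split_ifs
    · rw [abs_div]
      have h1 : |H a c| ≤ 2 * ζ / N := by
        rw [hH, abs_div, abs_of_pos hN0]
        refine div_le_div_of_nonneg_right ?_ hN0.le
        have h2 := abs_sub (δ c) (δ a)
        have h3 := hδ a ha
        have h4 := hδ c hc
        linarith
      have h5 : K ≤ |w a c| := by
        rw [hw]
        exact (hW a ha c hc).trans (le_abs_self _)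
      exact div_le_div₀ (by positivity) h1 hK h5
    · rw [abs_zero]; positivity
  have sbd : ∀ a ∈ C, ∀ b, |∑ c ∈ C, P a b c| ≤ 2 * ζ / K := by
    intro a ha b
    calc |∑ c ∈ C, P a b c| ≤ ∑ c ∈ C, |P a b c| := abs_sum_le_sum_abs _ _
      _ ≤ ∑ c ∈ C, 2 * ζ / N / K := sum_le_sum fun c hc => Pbd a ha b c hc
      _ = 2 * ζ / K := by
        rw [sum_const, nsmul_eq_mul, ← hN]
        field_simp
  refine ⟨fun a b => if a ∈ C ∧ b ∈ C then ∑ c ∈ C, P a b c - ∑ c ∈ C, P b a c else 0, ?_, ?_, ?_, ?_⟩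
  · intro a b
    by_cases h : a ∈ C ∧ b ∈ C
    · simp only [if_pos h, if_pos (And.intro h.2 h.1)]
      ring
    · have h' : ¬ (b ∈ C ∧ a ∈ C) := fun h2 => h ⟨h2.2, h2.1⟩
      simp only [if_neg h, if_neg h', neg_zero]
  · intro a b h
    by_cases hc : a ∈ C ∧ b ∈ C
    · refine ⟨hc.1, hc.2, ?_⟩
      by_contra hab
      apply h
      simp only [if_pos hc]
      have e1 : ∑ c ∈ C, P a b c = 0 := sum_eq_zero fun c _ => by
        rw [hP, if_neg (fun h2 => hab h2.1)]
      have e2 : ∑ c ∈ C, P b a c = 0 := sum_eq_zero fun c _ => by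
        rw [hP, if_neg (fun h2 => hab (hV _ _ h2.1))]
      rw [e1, e2, sub_zero]
    · exact absurd (if_neg hc) h
  · intro a b
    by_cases hc : a ∈ C ∧ b ∈ C
    · simp only [if_pos hc]
      have h1 := sbd a hc.1 b
      have h2 := sbd b hc.2 a
      have h3 := abs_sub (∑ c ∈ C, P a b c) (∑ c ∈ C, P b a c)
      have h4 : 4 * ζ / K = 2 * ζ / K + 2 * ζ / K := by ring
      linarith
    · simp only [if_neg hc, abs_zero]
      positivity
  · intro a ha
    have e0 : ∑ b ∈ C, (if a ∈ C ∧ b ∈ C then ∑ c ∈ C, P a b c - ∑ c ∈ C, P b a c else 0) =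
        ∑ b ∈ C, ∑ c ∈ C, P a b c - ∑ b ∈ C, ∑ c ∈ C, P b a c := by
      rw [← sum_sub_distrib]
      exact sum_congr rfl fun b hb => if_pos ⟨ha, hb⟩
    have e1 : ∑ b ∈ C, ∑ c ∈ C, P a b c = - δ a := by
      rw [sum_comm]
      have e2 : ∀ c ∈ C, ∑ b ∈ C, P a b c = H a c := by
        intro c hc
        have h1 : 0 < w a c := by
          rw [hw]
          exact lt_of_lt_of_le hK (hW a ha c hc)
        have h2 : ∑ b ∈ C, P a b c = ∑ b ∈ C.filter (fun b => V a b ∧ V c b), H a c / w a c := by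
          rw [sum_filter]
          exact sum_congr rfl fun b _ => hP a b c
        rw [h2, sum_const, nsmul_eq_mul, ← hw]
        field_simp
      rw [sum_congr rfl e2]
      have e3 : ∑ c ∈ C, H a c = (∑ c ∈ C, δ c - N * δ a) / N := by
        rw [hN, ← nsmul_eq_mul, ← sum_const, ← sum_sub_distrib, sum_div]
        exact sum_congr rfl fun c _ => by rw [hH, hN]
      rw [e3, hs]
      field_simp
      ring
    have e4 : ∑ b ∈ C, ∑ c ∈ C, P b a c = 0 := by
      have h1 : ∑ b ∈ C, ∑ c ∈ C, P b a c = - ∑ b ∈ C, ∑ c ∈ C, P b a c := by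
        conv_lhs => rw [sum_comm]
        rw [← sum_neg_distrib]
        refine sum_congr rfl fun b _ => ?_
        rw [← sum_neg_distrib]
        exact sum_congr rfl fun c _ => Psymm c a b
      linarith
    rw [e0, e1, e4, sub_zero]

open Classical in
/-- many common neighbours -/
private theorem count_h22 {n : ℕ} {X S : Finset ℕ} (hn : 1000 ≤ n) (h : Dns n X S) {c : ℕ} (hc : c < 2)
    {z z' : ℕ} (hz : z ∈ (XR n X).filter fun z => z % 2 = c)
    (hz' : z' ∈ (XR n X).filter fun z => z % 2 = c) :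
    n ≤ 12 * (((XR n X).filter fun z => z % 2 = c).filter
      fun w => Vld n X S z w ∧ Vld n X S z' w).card := by
  obtain ⟨W, hWd⟩ : ∃ W : Finset ℕ, W = ((XR n X).filter fun z => z % 2 = c).filter
      (fun w => Vld n X S z w ∧ Vld n X S z' w) := ⟨_, rfl⟩
  rw [← hWd]
  obtain ⟨B, hB⟩ : ∃ B : Finset ℕ, B = (range (n + 1)).filter fun x => n ≤ 100 * x ∧ 100 * x ≤ 99 * n ∧ x ∉ X :=
    ⟨_, rfl⟩
  obtain ⟨D, hD⟩ : ∃ D : Finset ℕ, D = (Icc 1 n).filter fun d => 3 * d ≤ n ∧ d ∉ S := ⟨_, rfl⟩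
  have cB : 10000 * B.card ≤ n := by rw [hB]; exact h.X_big
  have cD : 10000 * D.card ≤ n := by rw [hD]; exact h.S_big
  have mB : ∀ x, x ∈ B ↔ x < n + 1 ∧ n ≤ 100 * x ∧ 100 * x ≤ 99 * n ∧ x ∉ X := by
    intro x
    rw [hB, mem_filter, mem_range]
  have mD : ∀ x, x ∈ D ↔ (1 ≤ x ∧ x ≤ n) ∧ 3 * x ≤ n ∧ x ∉ S := by
    intro x
    rw [hD, mem_filter, mem_Icc]
  obtain ⟨I, hI⟩ : ∃ I : Finset ℕ, I = (Icc (n / 5) (3 * n / 10)).image fun k => 2 * k + c := ⟨_, rfl⟩
  have cI : I.card = 3 * n / 10 + 1 - n / 5 := by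
    rw [hI, card_image_of_injective _ (by intro a b hab; simp only at hab; omega), Nat.card_Icc]
  have mXR : ∀ x, x ∈ XR n X ↔ x ∈ X ∧ 34 * n ≤ 100 * x ∧ 100 * x ≤ 66 * n := by
    intro x
    unfold XR
    rw [mem_filter]
  have key : ∀ u, u ∈ (XR n X).filter (fun z => z % 2 = c) → ∀ x ∈ (XR n X).filter (fun z => z % 2 = c),
      x ∉ B.image (fun y => 2 * y - u) → x ∉ D.image (fun d => u + 2 * d) →
      x ∉ D.image (fun d => u - 2 * d) → x ≠ u → Vld n X S u x := by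
    intro u hu x hx h1 h2 h3 h4
    rw [mem_filter] at hu hx
    obtain ⟨hu1, hu2⟩ := hu
    obtain ⟨hx1, hx2⟩ := hx
    have hu' := (mXR u).1 hu1
    have hx' := (mXR x).1 hx1
    refine ⟨hu1, hx1, by omega, h4.symm, ?_, ?_⟩
    · by_contra hcon
      apply h1
      rw [mem_image]
      exact ⟨(u + x) / 2, (mB _).2 ⟨by omega, by omega, by omega, hcon⟩, by omega⟩
    · by_contra hcon
      have hd : ad u x / 2 ∈ D := by
        rw [mD]
        unfold ad at hcon ⊢
        exact ⟨⟨by omega, by omega⟩, by omega, hcon⟩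
      rcases le_total u x with hux | hux
      · apply h2
        rw [mem_image]
        refine ⟨_, hd, ?_⟩
        unfold ad
        omega
      · apply h3
        rw [mem_image]
        refine ⟨_, hd, ?_⟩
        unfold ad
        omega
  have hsub : I ⊆ W ∪ (B ∪ (B.image (fun y => 2 * y - z) ∪ (B.image (fun y => 2 * y - z') ∪
      (D.image (fun d => z + 2 * d) ∪ (D.image (fun d => z - 2 * d) ∪ (D.image (fun d => z' + 2 * d) ∪
        (D.image (fun d => z' - 2 * d) ∪ {z, z'}))))))) := by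
    intro x hx
    rw [hI, mem_image] at hx
    obtain ⟨k, hk, rfl⟩ := hx
    rw [mem_Icc] at hk
    by_contra hcon
    simp only [mem_union, mem_insert, mem_singleton, not_or] at hcon
    obtain ⟨q1, q2, q3, q4, q5, q6, q7, q8, q9, q10⟩ := hcon
    have hxX : 2 * k + c ∈ X := by
      by_contra hc2
      exact q2 ((mB _).2 ⟨by omega, by omega, by omega, hc2⟩)
    have hxC : 2 * k + c ∈ (XR n X).filter (fun z => z % 2 = c) := by
      rw [mem_filter, mXR]
      exact ⟨⟨hxX, by omega, by omega⟩, by omega⟩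
    apply q1
    rw [hWd, mem_filter]
    exact ⟨hxC, key z hz _ hxC q3 q5 q6 q9, key z' hz' _ hxC q4 q7 q8 q10⟩
  have hcard := card_le_card hsub
  have b1 : (B.image (fun y => 2 * y - z)).card ≤ B.card := card_image_le
  have b2 : (B.image (fun y => 2 * y - z')).card ≤ B.card := card_image_le
  have b3 : (D.image (fun d => z + 2 * d)).card ≤ D.card := card_image_le
  have b4 : (D.image (fun d => z - 2 * d)).card ≤ D.card := card_image_le
  have b5 : (D.image (fun d => z' + 2 * d)).card ≤ D.card := card_image_le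
  have b6 : (D.image (fun d => z' - 2 * d)).card ≤ D.card := card_image_le
  have b7 : ({z, z'} : Finset ℕ).card ≤ 2 := card_le_two
  have hfin : I.card ≤ W.card + (B.card + (B.card + (B.card + (D.card + (D.card + (D.card +
      (D.card + 2))))))) := by
    refine hcard.trans ((card_union_le _ _).trans (Nat.add_le_add_left ?_ _))
    refine (card_union_le _ _).trans (Nat.add_le_add_left ?_ _)
    refine (card_union_le _ _).trans (Nat.add_le_add b1 ?_)
    refine (card_union_le _ _).trans (Nat.add_le_add b2 ?_)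
    refine (card_union_le _ _).trans (Nat.add_le_add b3 ?_)
    refine (card_union_le _ _).trans (Nat.add_le_add b4 ?_)
    refine (card_union_le _ _).trans (Nat.add_le_add b5 ?_)
    exact (card_union_le _ _).trans (Nat.add_le_add b6 b7)
  rw [cI] at hfin
  omega

/-- a function which is odd under a reflection has sum zero -/
private theorem refl_sum_h22 (X : Finset ℕ) (y : ℕ) (h : ℕ → ℝ) (h1 : ∀ z, h z ≠ 0 → z ∈ X ∧ z ≤ 2 * y)
    (h2 : ∀ z, z ≤ 2 * y → h (2 * y - z) = - h z) : ∑ z ∈ X, h z = 0 := by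
  have e1 : ∑ z ∈ X, h z = ∑ z ∈ X ∪ range (2 * y + 1), h z :=
    sum_subset subset_union_left fun z _ hz => by
      by_contra hcon
      exact hz (h1 z hcon).1
  have e2 : ∑ z ∈ range (2 * y + 1), h z = ∑ z ∈ X ∪ range (2 * y + 1), h z :=
    sum_subset subset_union_right fun z _ hz => by
      by_contra hcon
      exact hz (mem_range.2 (Nat.lt_succ_of_le (h1 z hcon).2))
  have e3 : ∑ z ∈ range (2 * y + 1), h z = - ∑ z ∈ range (2 * y + 1), h z := by
    conv_lhs => rw [← sum_flip]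
    rw [← sum_neg_distrib]
    exact sum_congr rfl fun z hz => h2 z (Nat.le_of_lt_succ (mem_range.1 hz))
  rw [e1, ← e2]
  linarith

theorem stepR : ∃ n0 : ℕ, ∀ (n : ℕ) (X S : Finset ℕ) (δ : ℕ → ℝ) (ζ : ℝ), n0 ≤ n → Dns n X S → 0 ≤ ζ →
    (∀ z ∈ XR n X, |δ z| ≤ ζ) →
    ∑ z ∈ (XR n X).filter (fun z => z % 2 = 0), δ z = 0 →
    ∑ z ∈ (XR n X).filter (fun z => z % 2 = 1), δ z = 0 →
    ∃ r : ℕ → ℕ → ℝ, (∀ y z, r y z ≠ 0 → Rg n X S y z) ∧ (∀ y z, |r y z| ≤ 100 * ζ / n) ∧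
      (∀ y ∈ X, rowS X r y = 0) ∧ (∀ d, difS X r d = 0) ∧ (∀ z ∈ XR n X, labS X r z = δ z) := by
  classical
  refine ⟨1000, fun n X S δ ζ hn h hζ hδ hs0 hs1 => ?_⟩
  have hn0 : (0 : ℝ) < n := by
    have : 0 < n := by omega
    exact_mod_cast this
  have mXR : ∀ x, x ∈ XR n X ↔ x ∈ X ∧ 34 * n ≤ 100 * x ∧ 100 * x ≤ 66 * n := by
    intro x
    unfold XR
    rw [mem_filter]
  have hcl : ∀ c : ℕ, c < 2 → ∑ z ∈ (XR n X).filter (fun z => z % 2 = c), δ z = 0 →
      ∃ G : ℕ → ℕ → ℝ, (∀ a b, G a b = - G b a) ∧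
        (∀ a b, G a b ≠ 0 → a ∈ (XR n X).filter (fun z => z % 2 = c) ∧
          b ∈ (XR n X).filter (fun z => z % 2 = c) ∧ Vld n X S a b) ∧
        (∀ a b, |G a b| ≤ 4 * ζ / (n / 12)) ∧
        ∀ a ∈ (XR n X).filter (fun z => z % 2 = c),
          ∑ b ∈ (XR n X).filter (fun z => z % 2 = c), G a b = - δ a := by
    intro c hc hs
    refine flow_h22 _ (Vld n X S) (fun a b => Vld_symm) (n / 12) (by positivity) ?_ δ ζ hζ
      (fun a ha => hδ a (mem_filter.1 ha).1) hs
    intro a ha b hb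
    have h1 := count_h22 hn h hc ha hb
    have h2 : (n : ℝ) ≤ 12 * ((((XR n X).filter fun z => z % 2 = c).filter
      fun w => Vld n X S a w ∧ Vld n X S b w).card : ℝ) := by exact_mod_cast h1
    linarith
  obtain ⟨G0, a0, s0, b0, d0⟩ := hcl 0 (by omega) hs0
  obtain ⟨G1, a1, s1, b1, d1⟩ := hcl 1 (by omega) hs1
  obtain ⟨G, hG⟩ : ∃ G : ℕ → ℕ → ℝ, ∀ a b, G a b = G0 a b + G1 a b := ⟨_, fun _ _ => rfl⟩
  have Ga : ∀ a b, G a b = - G b a := by
    intro a b
    rw [hG, hG, a0 a b, a1 a b]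
    ring
  have Gs : ∀ a b, G a b ≠ 0 → Vld n X S a b := by
    intro a b hab
    by_cases h1 : G0 a b = 0
    · have h2 : G1 a b ≠ 0 := by
        intro h2
        exact hab (by rw [hG, h1, h2, add_zero])
      exact (s1 a b h2).2.2
    · exact (s0 a b h1).2.2
  have Gb : ∀ a b, |G a b| ≤ 100 * ζ / n := by
    intro a b
    rw [hG]
    have h1 := abs_add_le (G0 a b) (G1 a b)
    have h2 := b0 a b
    have h3 := b1 a b
    have h4 : 4 * ζ / ((n : ℝ) / 12) + 4 * ζ / ((n : ℝ) / 12) = 96 * ζ / n := by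
      field_simp
      ring
    have h5 : 96 * ζ / n ≤ 100 * ζ / n := div_le_div_of_nonneg_right (by linarith) hn0.le
    linarith
  have Gd : ∀ a ∈ XR n X, ∑ b ∈ XR n X, G a b = - δ a := by
    intro a ha
    have e : ∀ (G' : ℕ → ℕ → ℝ) (c : ℕ), (∀ a b, G' a b ≠ 0 → a ∈ (XR n X).filter (fun z => z % 2 = c) ∧
        b ∈ (XR n X).filter (fun z => z % 2 = c) ∧ Vld n X S a b) →
        ∑ b ∈ XR n X, G' a b = ∑ b ∈ (XR n X).filter (fun z => z % 2 = c), G' a b := by
      intro G' c hs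
      refine (sum_subset (filter_subset _ _) fun b _ hb => ?_).symm
      by_contra hcon
      exact hb (hs a b hcon).2.1
    have e' : ∀ (G' : ℕ → ℕ → ℝ) (c : ℕ), (∀ a b, G' a b ≠ 0 → a ∈ (XR n X).filter (fun z => z % 2 = c) ∧
        b ∈ (XR n X).filter (fun z => z % 2 = c) ∧ Vld n X S a b) → a % 2 ≠ c →
        ∑ b ∈ XR n X, G' a b = 0 := by
      intro G' c hs hac
      refine sum_eq_zero fun b _ => ?_
      by_contra hcon
      exact hac (mem_filter.1 (hs a b hcon).1).2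
    simp only [hG, sum_add_distrib]
    rcases Nat.mod_two_eq_zero_or_one a with h0 | h1
    · rw [e' G1 1 s1 (by omega), e G0 0 s0, d0 a (mem_filter.2 ⟨ha, h0⟩), add_zero]
    · rw [e' G0 0 s0 (by omega), e G1 1 s1, d1 a (mem_filter.2 ⟨ha, h1⟩), zero_add]
  obtain ⟨r, hr⟩ : ∃ r : ℕ → ℕ → ℝ, ∀ y z, r y z = if z ≤ 2 * y then - G z (2 * y - z) else 0 :=
    ⟨_, fun _ _ => rfl⟩
  have rs : ∀ y z, r y z ≠ 0 → z ≤ 2 * y ∧ Vld n X S z (2 * y - z) := by
    intro y z hyz
    rw [hr] at hyz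
    by_cases h1 : z ≤ 2 * y
    · rw [if_pos h1] at hyz
      exact ⟨h1, Gs _ _ fun h2 => hyz (by rw [h2, neg_zero])⟩
    · exact absurd (if_neg h1) hyz
  have rR : ∀ y z, r y z ≠ 0 → Rg n X S y z := by
    intro y z hyz
    obtain ⟨h1, h2, h3, h4, h5, h6, h7⟩ := rs y z hyz
    have h2' := (mXR z).1 h2
    have h3' := (mXR _).1 h3
    have e1 : (z + (2 * y - z)) / 2 = y := by omega
    have e2 : ad z (2 * y - z) / 2 = ad y z := by
      unfold ad
      omega
    rw [e1] at h6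
    rw [e2] at h7
    refine ⟨h6, h2'.1, h7, h2'.2.1, h2'.2.2, ?_⟩
    unfold ad
    omega
  have radd : ∀ y z, z ≤ 2 * y → r y (2 * y - z) = - r y z := by
    intro y z hz
    have h1 : 2 * y - z ≤ 2 * y := Nat.sub_le _ _
    have h2 : 2 * y - (2 * y - z) = z := by omega
    rw [hr, hr, if_pos h1, if_pos hz, h2, Ga (2 * y - z) z]
  refine ⟨r, rR, ?_, ?_, ?_, ?_⟩
  · intro y z
    rw [hr]
    split_ifs
    · rw [abs_neg]
      exact Gb _ _
    · rw [abs_zero]
      positivity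
  · intro y _
    unfold rowS
    exact refl_sum_h22 X y (r y) (fun z hz => ⟨(rR y z hz).2.1, (rs y z hz).1⟩) (radd y)
  · intro d
    unfold difS
    refine sum_eq_zero fun y _ => ?_
    refine refl_sum_h22 X y (fun z => if ad y z = d then r y z else 0) ?_ ?_
    · intro z hz
      have hz' : r y z ≠ 0 := by
        intro h1
        apply hz
        simp only [h1, ite_self]
      exact ⟨(rR y z hz').2.1, (rs y z hz').1⟩
    · intro z hz
      have e1 : ad y (2 * y - z) = ad y z := by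
        unfold ad
        omega
      simp only [e1, radd y z hz]
      split_ifs
      · rfl
      · simp
  · intro z hz
    unfold labS
    have h1 : δ z = ∑ w ∈ XR n X, - G z w := by
      rw [sum_neg_distrib, Gd z hz, neg_neg]
    rw [h1]
    refine sum_bij_ne_zero (fun y _ _ => 2 * y - z) ?_ ?_ ?_ ?_
    · intro y _ h2
      exact (rs y z h2).2.2.1
    · intro y1 _ h2 y2 _ h3 h4
      have h5 := (rs y1 z h2).1
      have h6 := (rs y2 z h3).1
      omega
    · intro w hw h2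
      have h3 : G z w ≠ 0 := fun h4 => h2 (by rw [h4, neg_zero])
      obtain ⟨v1, v2, v3, v4, v5, v6⟩ := Gs z w h3
      have e1 : 2 * ((z + w) / 2) - z = w := by omega
      have e2 : z ≤ 2 * ((z + w) / 2) := by omega
      refine ⟨(z + w) / 2, v5, ?_, e1⟩
      rw [hr, if_pos e2, e1]
      exact h2
    · intro y _ h2
      rw [hr, if_pos (rs y z h2).1]

end Pool.Agent.GRC
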