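import Pool.Agent.Helper28.GRC.Defs

/-!
# GRC-LPS: leaf moves, step S: prescribed change of the differences

Proof in words.  `n ≥ n0`.  `Y2 = {y ∈ X : 34 n ≤ 100 y, 1000 y ≤ 345 n}`.  For `y ∈ Y2`, `d ∈ SR` the pair is VALID if `y + d ∈ X`; then `z = y + d`
is in `[0.34 n, 0.655 n]`, so `Rg n X S y (y+d)`.  By `Dns`: `N d = #{y ∈ Y2 : y + d ∈ X} ≥ 0.0047 n` for every `d ∈ SR`, and for `y, y' ∈ Y2` the set
`D y y' = {d ∈ SR : y + d ∈ X, y' + d ∈ X}` has at least `0.3 n` elements.
With `ρ y = ∑_{d valid} σ d / N d` (so `|ρ y| ≤ 66 ζ`, `∑_y ρ y = ∑ σ = 0`) put for valid pairs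
`r y (y+d) = σ d / N d + ∑_{y' : y' + d ∈ X} (ρ y' - ρ y) / (|Y2| |D y y'|)`.
-/

set_option autoImplicit false

namespace Pool.Agent.GRC

open Finset

/-- the parent labels used by step S -/
def lpsY (n : ℕ) (X : Finset ℕ) : Finset ℕ := X.filter fun y => 34 * n ≤ 100 * y ∧ 1000 * y ≤ 345 * n

theorem lps_missX {n : ℕ} {X S : Finset ℕ} (h : Dns n X S) (A : Finset ℕ) (y : ℕ)
    (hA : ∀ d ∈ A, n ≤ 100 * (y + d) ∧ 100 * (y + d) ≤ 99 * n) :
    10000 * (A.filter fun d => y + d ∉ X).card ≤ n := by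
  refine le_trans (Nat.mul_le_mul_left _ ?_) h.X_big
  refine card_le_card_of_injOn (fun d => y + d) ?_ ?_
  · intro d hd
    have hd' := mem_filter.1 (mem_coe.1 hd)
    have h1 := hA d hd'.1
    refine mem_coe.2 (mem_filter.2 ⟨mem_range.2 ?_, h1.1, h1.2, hd'.2⟩)
    change y + d < n + 1
    omega
  · intro a _ b _ hab
    simpa using hab

theorem lps_N {n : ℕ} {X S : Finset ℕ} (h : Dns n X S) (hn : 10000 ≤ n) {d : ℕ}
    (hd : 100 * d ≤ 31 * n) :
    47 * n ≤ 10000 * ((lpsY n X).filter fun y => y + d ∈ X).card := by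
  set A : Finset ℕ := Icc ((34 * n + 99) / 100) (345 * n / 1000) with hA
  have hAmem : ∀ y ∈ A, 34 * n ≤ 100 * y ∧ 1000 * y ≤ 345 * n := by
    intro y hy
    have := mem_Icc.1 hy
    omega
  have hAc : 5 * n ≤ 1000 * A.card + 989 := by
    rw [hA, Nat.card_Icc]; omega
  have h1 : 10000 * (A.filter fun y => 0 + y ∉ X).card ≤ n := by
    apply lps_missX h
    intro y hy
    have := hAmem y hy
    omega
  have h2 : 10000 * (A.filter fun y => d + y ∉ X).card ≤ n := by
    apply lps_missX h
    intro y hy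
    have := hAmem y hy
    omega
  have h3 : A ⊆ ((lpsY n X).filter fun y => y + d ∈ X) ∪
      ((A.filter fun y => 0 + y ∉ X) ∪ (A.filter fun y => d + y ∉ X)) := by
    intro y hy
    have hy' := hAmem y hy
    rw [mem_union, mem_union, mem_filter, mem_filter, mem_filter, lpsY, mem_filter, zero_add,
      add_comm d y]
    by_cases hX : y ∈ X
    · by_cases hX' : y + d ∈ X
      · exact Or.inl ⟨⟨hX, hy'⟩, hX'⟩
      · exact Or.inr (Or.inr ⟨hy, hX'⟩)
    · exact Or.inr (Or.inl ⟨hy, hX⟩)
  have h4 := (card_le_card h3).trans ((card_union_le _ _).trans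
    (Nat.add_le_add_left (card_union_le _ _) _))
  omega

theorem lps_M {n : ℕ} {X S : Finset ℕ} (h : Dns n X S) (hn : 10000 ≤ n) {y y' : ℕ}
    (hy : y ∈ lpsY n X) (hy' : y' ∈ lpsY n X) :
    3 * n ≤ 10 * ((SR n S).filter fun d => y + d ∈ X ∧ y' + d ∈ X).card := by
  set A : Finset ℕ := Icc 1 (31 * n / 100) with hA
  have hy1 := (mem_filter.1 hy).2
  have hy2 := (mem_filter.1 hy').2
  have hAmem : ∀ d ∈ A, 1 ≤ d ∧ 100 * d ≤ 31 * n := by
    intro d hd
    have := mem_Icc.1 hd
    omega
  have hAc : 31 * n ≤ 100 * A.card + 99 := by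
    rw [hA, Nat.card_Icc]; omega
  have h1 : 10000 * (A.filter fun d => y + d ∉ X).card ≤ n := by
    apply lps_missX h
    intro d hd
    have := hAmem d hd
    omega
  have h2 : 10000 * (A.filter fun d => y' + d ∉ X).card ≤ n := by
    apply lps_missX h
    intro d hd
    have := hAmem d hd
    omega
  have h0 : 10000 * (A.filter fun d => d ∉ S).card ≤ n := by
    refine le_trans (Nat.mul_le_mul_left _ (card_le_card ?_)) h.S_big
    intro d hd
    have hd' := mem_filter.1 hd
    have := hAmem d hd'.1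
    exact mem_filter.2 ⟨mem_Icc.2 (by omega), by omega, hd'.2⟩
  have h3 : A ⊆ ((SR n S).filter fun d => y + d ∈ X ∧ y' + d ∈ X) ∪
      ((A.filter fun d => d ∉ S) ∪ ((A.filter fun d => y + d ∉ X) ∪
        (A.filter fun d => y' + d ∉ X))) := by
    intro d hd
    have hd' := hAmem d hd
    rw [mem_union, mem_union, mem_union, mem_filter, mem_filter, mem_filter, mem_filter, SR,
      mem_filter]
    by_cases hS : d ∈ S
    · by_cases hX : y + d ∈ X
      · by_cases hX' : y' + d ∈ X
        · exact Or.inl ⟨⟨hS, hd'.2⟩, hX, hX'⟩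
        · exact Or.inr (Or.inr (Or.inr ⟨hd, hX'⟩))
      · exact Or.inr (Or.inr (Or.inl ⟨hd, hX⟩))
    · exact Or.inr (Or.inl ⟨hd, hS⟩)
  have h4 := (card_le_card h3).trans ((card_union_le _ _).trans
    (Nat.add_le_add_left ((card_union_le _ _).trans
      (Nat.add_le_add_left (card_union_le _ _) _)) _))
  omega

theorem stepS : ∃ n0 : ℕ, ∀ (n : ℕ) (X S : Finset ℕ) (σ : ℕ → ℝ) (ζ : ℝ), n0 ≤ n → Dns n X S → 0 ≤ ζ →
    (∀ d ∈ SR n S, |σ d| ≤ ζ) → ∑ d ∈ SR n S, σ d = 0 →
    ∃ r : ℕ → ℕ → ℝ, (∀ y z, r y z ≠ 0 → Rg n X S y z) ∧ (∀ y z, |r y z| ≤ 1000 * ζ / n) ∧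
      (∀ y ∈ X, rowS X r y = 0) ∧ (∀ d ∈ SR n S, difS X r d = σ d) ∧
      (∀ z ∈ X, |labS X r z| ≤ 1000 * ζ) := by
  classical
  refine ⟨10000, fun n X S σ ζ hn hD hζ hσ hσ0 => ?_⟩
  have hn0 : (0 : ℝ) < n := by
    have : 0 < n := by omega
    exact_mod_cast this
  set Y := lpsY n X with hY
  have hYmem : ∀ y, y ∈ Y ↔ y ∈ X ∧ 34 * n ≤ 100 * y ∧ 1000 * y ≤ 345 * n := fun y => by
    rw [hY, lpsY, mem_filter]
  have hSRmem : ∀ d, d ∈ SR n S ↔ d ∈ S ∧ 100 * d ≤ 31 * n := fun d => by
    rw [SR, mem_filter]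
  have hSR1 : ∀ d ∈ SR n S, 1 ≤ d := fun d hd => (mem_Icc.1 (hD.S_sub ((hSRmem d).1 hd).1)).1
  set N : ℕ → ℝ := fun d => ((Y.filter fun y => y + d ∈ X).card : ℝ) with hN
  set M : ℕ → ℕ → ℝ := fun y y' =>
    (((SR n S).filter fun d => y + d ∈ X ∧ y' + d ∈ X).card : ℝ) with hM
  have hNlow : ∀ d ∈ SR n S, 47 / 10000 * (n : ℝ) ≤ N d := by
    intro d hd
    have h1 := lps_N hD hn ((hSRmem d).1 hd).2
    have h2 : (47 : ℝ) * n ≤ 10000 * N d := by
      simp only [hN]
      exact_mod_cast h1
    linarith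
  have hMlow : ∀ y ∈ Y, ∀ y' ∈ Y, 3 / 10 * (n : ℝ) ≤ M y y' := by
    intro y hy y' hy'
    have h1 := lps_M hD hn hy hy'
    have h2 : (3 : ℝ) * n ≤ 10 * M y y' := by
      simp only [hM]
      exact_mod_cast h1
    linarith
  have hMsymm : ∀ y y', M y y' = M y' y := by
    intro y y'
    simp only [hM]
    congr 2
    ext d
    simp only [and_comm]
  have hSRcard : ((SR n S).card : ℝ) ≤ 31 / 100 * n := by
    have h1 : (SR n S) ⊆ Icc 1 (31 * n / 100) := by
      intro d hd
      have h2 := hSR1 d hd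
      have h3 := ((hSRmem d).1 hd).2
      exact mem_Icc.2 ⟨h2, by omega⟩
    have h2 := card_le_card h1
    rw [Nat.card_Icc] at h2
    have h3 : 100 * (SR n S).card ≤ 31 * n := by omega
    have h4 : (100 : ℝ) * ((SR n S).card : ℝ) ≤ 31 * n := by exact_mod_cast h3
    linarith
  set c : ℝ := (Y.card : ℝ) with hc
  set ρ : ℕ → ℝ := fun y => ∑ d ∈ SR n S, if y + d ∈ X then σ d / N d else 0 with hρ
  set h : ℕ → ℕ → ℝ := fun y y' => (ρ y' - ρ y) / (c * M y y') with hh
  set g : ℕ → ℕ → ℝ := fun y d => if y + d ∈ X then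
    σ d / N d + ∑ y' ∈ Y, (if y' + d ∈ X then h y y' else 0) else 0 with hg
  have hσN : ∀ d ∈ SR n S, |σ d / N d| ≤ 213 * ζ / n := by
    intro d hd
    have h1 := hNlow d hd
    have h2 : 0 < 47 / 10000 * (n : ℝ) := by positivity
    rw [abs_div, abs_of_pos (h2.trans_le h1)]
    calc |σ d| / N d ≤ ζ / (47 / 10000 * (n : ℝ)) :=
          div_le_div₀ hζ (hσ d hd) h2 h1
      _ ≤ 213 * ζ / n := by
          rw [div_le_div_iff₀ h2 hn0]
          nlinarith [mul_nonneg hζ hn0.le]
  have hρb : ∀ y, |ρ y| ≤ 67 * ζ := by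
    intro y
    calc |ρ y| ≤ ∑ d ∈ SR n S, |if y + d ∈ X then σ d / N d else 0| := abs_sum_le_sum_abs _ _
      _ ≤ ∑ d ∈ SR n S, 213 * ζ / n := by
          refine sum_le_sum fun d hd => ?_
          split_ifs
          · exact hσN d hd
          · rw [abs_zero]; positivity
      _ = (SR n S).card * (213 * ζ / n) := by rw [sum_const, nsmul_eq_mul]
      _ ≤ 31 / 100 * n * (213 * ζ / n) := by gcongr
      _ = 31 / 100 * 213 * ζ := by field_simp
      _ ≤ 67 * ζ := by nlinarith
  have hρ0 : ∑ y ∈ Y, ρ y = 0 := by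
    simp only [hρ]
    rw [sum_comm]
    refine Eq.trans ?_ hσ0
    refine sum_congr rfl fun d hd => ?_
    rw [← sum_filter, sum_const, nsmul_eq_mul]
    have h1 := hNlow d hd
    have h2 : 0 < 47 / 10000 * (n : ℝ) := by positivity
    have h3 : N d ≠ 0 := (h2.trans_le h1).ne'
    change N d * (σ d / N d) = σ d
    field_simp
  have hcol : ∀ d ∈ SR n S, ∑ y ∈ Y, g y d = σ d := by
    intro d hd
    have h1 := hNlow d hd
    have h2 : 0 < 47 / 10000 * (n : ℝ) := by positivity
    have h3 : N d ≠ 0 := (h2.trans_le h1).ne'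
    simp only [hg]
    rw [← sum_filter, sum_add_distrib, sum_const, nsmul_eq_mul]
    have e1 : ∑ y ∈ Y with y + d ∈ X, ∑ y' ∈ Y, (if y' + d ∈ X then h y y' else 0) = 0 := by
      have e2 : ∀ y, ∑ y' ∈ Y, (if y' + d ∈ X then h y y' else 0)
          = ∑ y' ∈ Y with y' + d ∈ X, h y y' := fun y => (sum_filter _ _).symm
      simp_rw [e2]
      set Z := Y.filter fun y => y + d ∈ X with hZ
      have e3 : ∑ y ∈ Z, ∑ y' ∈ Z, h y y' = - ∑ y ∈ Z, ∑ y' ∈ Z, h y y' := by
        conv_lhs => rw [sum_comm]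
        rw [← sum_neg_distrib]
        refine sum_congr rfl fun y _ => ?_
        rw [← sum_neg_distrib]
        refine sum_congr rfl fun y' _ => ?_
        simp only [hh]
        rw [hMsymm y' y]
        ring
      linarith
    rw [e1, add_zero]
    change N d * (σ d / N d) = σ d
    field_simp
  have hcpos : ∀ y ∈ Y, 0 < c := by
    intro y hy
    rw [hc]
    exact_mod_cast card_pos.2 ⟨y, hy⟩
  have hrow : ∀ y ∈ Y, ∑ d ∈ SR n S, g y d = 0 := by
    intro y hy
    have hcp := hcpos y hy
    have e1 : ∀ d, g y d = (if y + d ∈ X then σ d / N d else 0)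
        + ∑ y' ∈ Y, (if y + d ∈ X ∧ y' + d ∈ X then h y y' else 0) := by
      intro d
      simp only [hg]
      by_cases h1 : y + d ∈ X
      · simp [h1]
      · simp [h1]
    simp_rw [e1]
    rw [sum_add_distrib, sum_comm]
    have e2 : ∀ y' ∈ Y, ∑ d ∈ SR n S, (if y + d ∈ X ∧ y' + d ∈ X then h y y' else 0)
        = (ρ y' - ρ y) / c := by
      intro y' hy'
      rw [← sum_filter, sum_const, nsmul_eq_mul]
      have h1 := hMlow y hy y' hy'
      have h2 : 0 < 3 / 10 * (n : ℝ) := by positivity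
      have h3 : M y y' ≠ 0 := (h2.trans_le h1).ne'
      change M y y' * ((ρ y' - ρ y) / (c * M y y')) = _
      field_simp
    rw [sum_congr rfl e2, ← sum_div, sum_sub_distrib, hρ0, sum_const, nsmul_eq_mul]
    change ρ y + (0 - c * ρ y) / c = 0
    field_simp
    ring
  have hgb : ∀ y ∈ Y, ∀ d ∈ SR n S, |g y d| ≤ 700 * ζ / n := by
    intro y hy d hd
    have hcp := hcpos y hy
    simp only [hg]
    by_cases h1 : y + d ∈ X
    · rw [if_pos h1]
      have h2 : |∑ y' ∈ Y, (if y' + d ∈ X then h y y' else 0)| ≤ 450 * ζ / n := by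
        calc |∑ y' ∈ Y, (if y' + d ∈ X then h y y' else 0)|
            ≤ ∑ y' ∈ Y, |if y' + d ∈ X then h y y' else 0| := abs_sum_le_sum_abs _ _
          _ ≤ ∑ y' ∈ Y, (134 * ζ) / (c * (3 / 10 * n)) := by
              refine sum_le_sum fun y' hy' => ?_
              split_ifs
              · simp only [hh]
                have h3 := hMlow y hy y' hy'
                have h4 : 0 < 3 / 10 * (n : ℝ) := by positivity
                rw [abs_div, abs_of_pos (mul_pos hcp (h4.trans_le h3))]
                apply div_le_div₀ (by positivity) _ (by positivity) (by gcongr)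
                calc |ρ y' - ρ y| ≤ |ρ y'| + |ρ y| := abs_sub _ _
                  _ ≤ 134 * ζ := by linarith [hρb y, hρb y']
              · rw [abs_zero]; positivity
          _ = c * ((134 * ζ) / (c * (3 / 10 * n))) := by rw [sum_const, nsmul_eq_mul]
          _ = 134 * 10 / 3 * ζ / n := by field_simp
          _ ≤ 450 * ζ / n := by gcongr; norm_num
      calc |σ d / N d + ∑ y' ∈ Y, (if y' + d ∈ X then h y y' else 0)|
          ≤ |σ d / N d| + |∑ y' ∈ Y, (if y' + d ∈ X then h y y' else 0)| := abs_add_le _ _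
        _ ≤ 213 * ζ / n + 450 * ζ / n := add_le_add (hσN d hd) h2
        _ = 663 * ζ / n := by ring
        _ ≤ 700 * ζ / n := by gcongr; norm_num
    · rw [if_neg h1, abs_zero]; positivity
  set r : ℕ → ℕ → ℝ := fun y z => if y ∈ Y ∧ z ∈ X ∧ y < z ∧ z - y ∈ SR n S then g y (z - y) else 0
    with hr
  have hrb : ∀ y z, |r y z| ≤ 700 * ζ / n := by
    intro y z
    simp only [hr]
    split_ifs with h1
    · exact hgb y h1.1 _ h1.2.2.2
    · rw [abs_zero]; positivity
  refine ⟨r, ?_, ?_, ?_, ?_, ?_⟩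
  · intro y z hne
    simp only [hr] at hne
    have h1 : y ∈ Y ∧ z ∈ X ∧ y < z ∧ z - y ∈ SR n S := by
      by_contra hc'
      exact hne (if_neg hc')
    obtain ⟨h2, h3, h4, h5⟩ := h1
    have h6 := (hYmem y).1 h2
    have h7 := (hSRmem _).1 h5
    have h8 : ad y z = z - y := by unfold ad; omega
    refine ⟨h6.1, h3, by rw [h8]; exact h7.1, by omega, ?_, by rw [h8]; exact h7.2⟩
    have := h7.2
    omega
  · intro y z
    refine (hrb y z).trans ?_
    gcongr
    norm_num
  · intro y hy
    unfold rowS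
    by_cases hyY : y ∈ Y
    · rw [← hrow y hyY]
      have e1 : ∑ z ∈ X, r y z = ∑ z ∈ X.filter (fun z => y < z ∧ z - y ∈ SR n S), g y (z - y) := by
        rw [sum_filter]
        refine sum_congr rfl fun z hz => ?_
        simp only [hr, hyY, hz, true_and]
      have e2 : ∑ d ∈ SR n S, g y d = ∑ d ∈ (SR n S).filter (fun d => y + d ∈ X), g y d := by
        rw [sum_filter]
        refine sum_congr rfl fun d _ => ?_
        by_cases h1 : y + d ∈ X
        · rw [if_pos h1]
        · rw [if_neg h1]; simp only [hg]; rw [if_neg h1]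
      rw [e1, e2]
      refine sum_nbij' (fun z => z - y) (fun d => y + d) ?_ ?_ ?_ ?_ ?_
      · intro z hz
        have h1 := mem_filter.1 hz
        refine mem_filter.2 ⟨h1.2.2, ?_⟩
        have h2 : y + (z - y) = z := by omega
        rw [h2]; exact h1.1
      · intro d hd
        have h1 := mem_filter.1 hd
        have h2 := hSR1 d h1.1
        refine mem_filter.2 ⟨h1.2, by omega, ?_⟩
        have h3 : y + d - y = d := by omega
        rw [h3]; exact h1.1
      · intro z hz
        have h1 := mem_filter.1 hz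
        change y + (z - y) = z
        omega
      · intro d hd
        omega
      · intro z hz
        rfl
    · refine sum_eq_zero fun z _ => ?_
      simp only [hr]
      rw [if_neg (fun h => hyY h.1)]
  · intro d hd
    rw [← hcol d hd]
    unfold difS
    have hd1 := hSR1 d hd
    have e1 : ∀ y ∈ X, ∑ z ∈ X, (if ad y z = d then r y z else 0)
        = if y ∈ Y then g y d else 0 := by
      intro y hy
      by_cases hyY : y ∈ Y
      · rw [if_pos hyY]
        by_cases hX : y + d ∈ X
        · rw [sum_eq_single_of_mem (y + d) hX]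
          · have h1 : ad y (y + d) = d := by unfold ad; omega
            have h2 : y + d - y = d := by omega
            rw [if_pos h1]
            simp only [hr]
            rw [h2, if_pos ⟨hyY, hX, by omega, hd⟩]
          · intro z hz hne
            by_cases h1 : ad y z = d
            · rw [if_pos h1]
              simp only [hr]
              rw [if_neg]
              rintro ⟨-, -, h2, -⟩
              unfold ad at h1
              omega
            · rw [if_neg h1]
        · have h3 : g y d = 0 := by simp only [hg]; rw [if_neg hX]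
          rw [h3]
          refine sum_eq_zero fun z hz => ?_
          by_cases h1 : ad y z = d
          · rw [if_pos h1]
            simp only [hr]
            rw [if_neg]
            rintro ⟨-, -, h2, -⟩
            apply hX
            have h4 : y + d = z := by unfold ad at h1; omega
            rw [h4]; exact hz
          · rw [if_neg h1]
      · rw [if_neg hyY]
        refine sum_eq_zero fun z _ => ?_
        have h5 : r y z = 0 := by
          simp only [hr]
          rw [if_neg (fun h => hyY h.1)]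
        rw [h5, ite_self]
    rw [sum_congr rfl e1, ← sum_filter]
    congr 1
    ext y
    rw [mem_filter, hYmem]
    constructor
    · exact fun h => h.2
    · exact fun h => ⟨h.1, h⟩
  · intro z _
    unfold labS
    have hXc : (X.card : ℝ) ≤ n + 1 := by
      have h1 := card_le_card hD.X_sub
      rw [card_range] at h1
      exact_mod_cast h1
    have hn1 : (1 : ℝ) ≤ n / 10000 := by
      rw [le_div_iff₀ (by norm_num)]
      have : (10000 : ℝ) ≤ n := by exact_mod_cast hn
      linarith
    calc |∑ y ∈ X, r y z| ≤ ∑ y ∈ X, |r y z| := abs_sum_le_sum_abs _ _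
      _ ≤ ∑ y ∈ X, 700 * ζ / n := sum_le_sum fun y _ => hrb y z
      _ = X.card * (700 * ζ / n) := by rw [sum_const, nsmul_eq_mul]
      _ ≤ (n + 1) * (700 * ζ / n) := by gcongr
      _ ≤ (n + n / 10000) * (700 * ζ / n) := by gcongr
      _ = (1 + 1 / 10000) * 700 * ζ := by field_simp
      _ ≤ 1000 * ζ := by nlinarith

end Pool.Agent.GRC
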