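import Pool.Agent.Helper28.GRC.LPA
import Pool.Agent.Helper28.GRC.LPS
import Pool.Agent.Helper28.GRC.LPP
import Pool.Agent.Helper28.GRC.LPR

/-!
# GRC-LPM: exact correction of the loads by leaf moves

`q0` = base law of the spread leaves (`q0 y z` = expected number of spread leaves with label `z` whose parent has label `y`), `devX x`, `devS d` = (total load) - 1 of the
label `x ∈ X` and of the difference `d ∈ S`.  Conclusion: a law `q` with the same row sums, whose label loads and difference loads are smaller by exactly `devX`, `devS`.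

Proof in words.  `c0 = 10⁻¹¹`.  `a = devX⁻` on `X`, `c = devS⁻` on `SR`; `∑_X devX⁻ = ∑_X devX⁺ ≤ c0 e (n+1)` (only `z ∈ XR` have `devX > 0`, `|XR| ≤ n+1`), the same for `S`; so
`stepA` applies with `ζA = 2 c0 e`.  `δ1 z = -devX z - labS rA z` (`z ∈ XR`), `σ1 d = -devS d - difS rA d` (`d ∈ SR`): both are `≤ c0 e + 200 ζA =: ζ1` in absolute value.
`∑_{SR} σ1 = 0`: `∑_{d ∈ S} difS X rA d = ∑_{y,z} rA y z = ∑_y rowS = 0` (support `ad y z ∈ S`), `difS rA = 0` off `SR`, `∑_S devS = 0` and `devS = 0` off `SR`.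
`stepS` with `σ1`, `ζ1`.  `δ2 = δ1 - labS rS` on `XR` (`labS rS = 0` off `XR` as `Rg` forces `z ∈ XR`), `|δ2| ≤ 1001 ζ1 =: ζ2`, `∑_{XR} δ2 = 0` (`∑_X labS r = ∑ rowS = 0`).
`stepP` with `E = ∑_{even} δ2`, `|E| ≤ |XR| ζ2 ≤ ζ2 n`; `δ3 = δ2 - labS rP`, `|δ3| ≤ 201 ζ2 =: ζ3`, both parity sums vanish.  `stepR` with `δ3`.
`q = q0 + rA + rS + rP + rR`: rows unchanged; `labS`: off `XR` `labS rA z = a z = -devX z` (as `devX z ≤ 0`), on `XR` the sum is `-devX z`; `difS`: off `SR` everything is `0 = devS d`, on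
`SR`: `difS rA + σ1 = -devS d`.  `q ≥ 0`: off `Rg` only `q0 ≥ 0` and `rA ≥ 0`; on `Rg`: `q0 ≥ e/(2n)` and the corrections are at least
`-(200 ζA + 1000 ζ1 + 200 ζ2 + 100 ζ3)/n ≥ -e/(4n)` (`ζ1 ≤ 441 c0 e`, `ζ2 ≤ 4.5·10⁵ c0 e`, `ζ3 ≤ 9.1·10⁷ c0 e`).  Upper bound: `q ≤ q0 + 15/n + e/(4n) ≤ q0 + 30/n`.
-/

set_option autoImplicit false

namespace Pool.Agent.GRC

open Finset

theorem h34_rowS_add (X : Finset ℕ) (r s : ℕ → ℕ → ℝ) (y : ℕ) :
    rowS X (fun y z => r y z + s y z) y = rowS X r y + rowS X s y := by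
  unfold rowS; rw [sum_add_distrib]

theorem h34_labS_add (X : Finset ℕ) (r s : ℕ → ℕ → ℝ) (z : ℕ) :
    labS X (fun y z => r y z + s y z) z = labS X r z + labS X s z := by
  unfold labS; rw [sum_add_distrib]

theorem h34_difS_add (X : Finset ℕ) (r s : ℕ → ℕ → ℝ) (d : ℕ) :
    difS X (fun y z => r y z + s y z) d = difS X r d + difS X s d := by
  unfold difS
  rw [← sum_add_distrib]
  refine sum_congr rfl fun y _ => ?_
  rw [← sum_add_distrib]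
  refine sum_congr rfl fun z _ => ?_
  split_ifs <;> simp

theorem h34_sum_labS (X : Finset ℕ) (r : ℕ → ℕ → ℝ) :
    ∑ z ∈ X, labS X r z = ∑ y ∈ X, rowS X r y := by
  unfold labS rowS; exact Finset.sum_comm

theorem h34_sum_difS (X S : Finset ℕ) (r : ℕ → ℕ → ℝ) (h : AdmS X S r) :
    ∑ d ∈ S, difS X r d = ∑ y ∈ X, rowS X r y := by
  unfold difS rowS
  rw [Finset.sum_comm]
  refine Finset.sum_congr rfl fun y _ => ?_
  rw [Finset.sum_comm]
  refine Finset.sum_congr rfl fun z _ => ?_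
  rw [Finset.sum_ite_eq]
  by_cases hr : r y z = 0
  · simp [hr]
  · rw [if_pos (h y z hr).2.2]

theorem h34_adm_of_Rg {n : ℕ} {X S : Finset ℕ} {r : ℕ → ℕ → ℝ}
    (h : ∀ y z, r y z ≠ 0 → Rg n X S y z) : AdmS X S r := fun y z hr =>
  ⟨(h y z hr).1, (h y z hr).2.1, (h y z hr).2.2.1⟩

theorem h34_labS_zero {n : ℕ} {X S : Finset ℕ} {r : ℕ → ℕ → ℝ}
    (h : ∀ y z, r y z ≠ 0 → Rg n X S y z) (z : ℕ) (hz : z ∉ XR n X) : labS X r z = 0 := by
  unfold labS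
  refine Finset.sum_eq_zero fun y _ => ?_
  by_contra hne
  obtain ⟨_, h2, _, h4, h5, _⟩ := h y z hne
  exact hz (by unfold XR; simp [h2, h4, h5])

theorem h34_difS_zero {n : ℕ} {X S : Finset ℕ} {r : ℕ → ℕ → ℝ}
    (h : ∀ y z, r y z ≠ 0 → Rg n X S y z) (d : ℕ) (hd : d ∉ SR n S) : difS X r d = 0 := by
  unfold difS
  refine Finset.sum_eq_zero fun y _ => Finset.sum_eq_zero fun z _ => ?_
  split_ifs with h1
  · by_contra hne
    obtain ⟨_, _, h3, _, _, h6⟩ := h y z hne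
    rw [h1] at h3 h6
    exact hd (by unfold SR; simp [h3, h6])
  · rfl

theorem h34_Rg_y {n : ℕ} {X S : Finset ℕ} {y z : ℕ} (h : Rg n X S y z) :
    3 * n ≤ 100 * y ∧ 100 * y ≤ 97 * n := by
  obtain ⟨_, _, _, h4, h5, h6⟩ := h
  unfold ad at h6
  omega

theorem h34_lpMain
    (hA : ∃ n0 : ℕ, ∀ (n : ℕ) (X S : Finset ℕ) (a c : ℕ → ℝ) (ζ : ℝ), n0 ≤ n → Dns n X S → 0 ≤ ζ →
    (∀ z ∈ X, 0 ≤ a z ∧ a z ≤ 1) → ∑ z ∈ X, a z ≤ ζ * n →
    (∀ d ∈ SR n S, 0 ≤ c d ∧ c d ≤ 1) → ∑ d ∈ SR n S, c d ≤ ζ * n →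
    ∃ r : ℕ → ℕ → ℝ, AdmS X S r ∧ (∀ y ∈ X, rowS X r y = 0) ∧ (∀ y z, ¬ Rg n X S y z → 0 ≤ r y z) ∧
      (∀ y z, -(200 * ζ / n) ≤ r y z ∧ r y z ≤ 15 / n) ∧
      (∀ z ∈ X, z ∉ XR n X → labS X r z = a z) ∧ (∀ z ∈ XR n X, |labS X r z - a z| ≤ 200 * ζ) ∧
      (∀ d, d ∉ SR n S → difS X r d = 0) ∧ (∀ d ∈ SR n S, |difS X r d - c d| ≤ 200 * ζ) ∧
      (∀ y z, r y z ≠ 0 → 3 * n ≤ 100 * y ∧ 100 * y ≤ 97 * n)) :
    ∃ c0 : ℝ, 0 < c0 ∧ ∃ n0 : ℕ, ∀ (n : ℕ) (X S : Finset ℕ) (e : ℝ) (q0 : ℕ → ℕ → ℝ) (devX devS : ℕ → ℝ),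
    n0 ≤ n → Dns n X S → 0 < e → e ≤ 1 → AdmS X S q0 → (∀ y z, 0 ≤ q0 y z) →
    (∀ y z, Rg n X S y z → e / (2 * n) ≤ q0 y z) →
    (∀ z ∈ X, -1 ≤ devX z) → (∀ z ∈ X, z ∉ XR n X → devX z ≤ 0) → (∀ z ∈ XR n X, devX z ≤ c0 * e) →
    ∑ z ∈ X, devX z = 0 →
    (∀ d ∈ S, -1 ≤ devS d) → (∀ d ∈ S, d ∉ SR n S → devS d = 0) → (∀ d ∈ SR n S, devS d ≤ c0 * e) →
    ∑ d ∈ S, devS d = 0 →
    ∃ q : ℕ → ℕ → ℝ, AdmS X S q ∧ (∀ y z, 0 ≤ q y z) ∧ (∀ y z, q y z ≤ q0 y z + 30 / n) ∧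
      (∀ y ∈ X, rowS X q y = rowS X q0 y) ∧ (∀ z ∈ X, labS X q z = labS X q0 z - devX z) ∧
      (∀ d ∈ S, difS X q d = difS X q0 d - devS d) ∧
      (∀ y z, q y z ≠ q0 y z → 3 * n ≤ 100 * y ∧ 100 * y ≤ 97 * n) := by
  obtain ⟨nA, hA⟩ := hA
  obtain ⟨nS, hS⟩ := stepS
  obtain ⟨nP, hP⟩ := stepP
  obtain ⟨nR, hR⟩ := stepR
  refine ⟨1 / 10 ^ 12, by positivity, nA + nS + nP + nR + 1, ?_⟩
  intro n X S e q0 devX devS hn hD he he1 hAdm hq0 hq0R hX1 hX2 hX3 hX4 hS1 hS2 hS3 hS4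
  obtain ⟨c0, hc0⟩ : ∃ c0 : ℝ, c0 = 1 / 10 ^ 12 := ⟨_, rfl⟩
  rw [← hc0] at hX3 hS3
  have hn1 : 1 ≤ n := by omega
  have hnpos : (0:ℝ) < n := by exact_mod_cast hn1
  have hn1r : (1:ℝ) ≤ n := by exact_mod_cast hn1
  have hc0pos : 0 < c0 := by rw [hc0]; positivity
  obtain ⟨ce, hce_def⟩ : ∃ ce : ℝ, ce = c0 * e := ⟨_, rfl⟩
  have hce : 0 < ce := by rw [hce_def]; exact mul_pos hc0pos he
  have hce1 : 10 ^ 12 * ce = e := by rw [hce_def, hc0]; ring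
  rw [← hce_def] at hX3 hS3
  have hXRsub : XR n X ⊆ X := filter_subset _ _
  have hSRsub : SR n S ⊆ S := filter_subset _ _
  have hXRcard : ((XR n X).card : ℝ) ≤ 2 * n := by
    have h1 : (XR n X).card ≤ n + 1 := by
      calc _ ≤ X.card := card_le_card hXRsub
        _ ≤ (range (n+1)).card := card_le_card hD.X_sub
        _ = n + 1 := card_range _
    have : ((XR n X).card : ℝ) ≤ n + 1 := by exact_mod_cast h1
    linarith
  have hSRcard : ((SR n S).card : ℝ) ≤ 2 * n := by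
    have h1 : (SR n S).card ≤ n := by
      calc _ ≤ S.card := card_le_card hSRsub
        _ ≤ (Icc 1 n).card := card_le_card hD.S_sub
        _ = n := by simp
    have : ((SR n S).card : ℝ) ≤ n := by exact_mod_cast h1
    linarith
  have hdec : ∀ x : ℝ, max x 0 - max (-x) 0 = x := by
    intro x
    rcases le_total x 0 with h | h
    · rw [max_eq_right h, max_eq_left (by linarith)]; ring
    · rw [max_eq_left h, max_eq_right (by linarith)]; ring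
  obtain ⟨a, ha⟩ : ∃ a : ℕ → ℝ, ∀ z, a z = max (-devX z) 0 := ⟨_, fun _ => rfl⟩
  obtain ⟨c, hc⟩ : ∃ c : ℕ → ℝ, ∀ z, c z = max (-devS z) 0 := ⟨_, fun _ => rfl⟩
  have hS4' : ∑ d ∈ SR n S, devS d = 0 := by
    rw [← hS4]
    exact sum_subset hSRsub fun d hd hd' => hS2 d hd hd'
  have hsa : ∑ z ∈ X, a z ≤ (2 * ce) * n := by
    have h1 : ∑ z ∈ X, a z = ∑ z ∈ X, max (devX z) 0 := by
      have h0 : ∑ z ∈ X, (max (devX z) 0 - a z) = 0 := by
        refine Eq.trans (sum_congr rfl fun z _ => ?_) hX4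
        rw [ha]; exact hdec _
      rw [sum_sub_distrib] at h0; linarith
    rw [h1]
    have h2 : ∑ z ∈ X, max (devX z) 0 = ∑ z ∈ XR n X, max (devX z) 0 := by
      symm; refine sum_subset hXRsub fun z hz hz' => ?_
      exact max_eq_right (hX2 z hz hz')
    rw [h2]
    calc ∑ z ∈ XR n X, max (devX z) 0 ≤ ∑ z ∈ XR n X, ce :=
          sum_le_sum fun z hz => max_le (hX3 z hz) hce.le
      _ = (XR n X).card * ce := by rw [sum_const, nsmul_eq_mul]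
      _ ≤ (2 * n) * ce := by gcongr
      _ = _ := by ring
  have hsc : ∑ z ∈ SR n S, c z ≤ (2 * ce) * n := by
    have h1 : ∑ z ∈ SR n S, c z = ∑ z ∈ SR n S, max (devS z) 0 := by
      have h0 : ∑ z ∈ SR n S, (max (devS z) 0 - c z) = 0 := by
        refine Eq.trans (sum_congr rfl fun z _ => ?_) hS4'
        rw [hc]; exact hdec _
      rw [sum_sub_distrib] at h0; linarith
    rw [h1]
    calc ∑ z ∈ SR n S, max (devS z) 0 ≤ ∑ z ∈ SR n S, ce :=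
          sum_le_sum fun z hz => max_le (hS3 z hz) hce.le
      _ = (SR n S).card * ce := by rw [sum_const, nsmul_eq_mul]
      _ ≤ (2 * n) * ce := by gcongr
      _ = _ := by ring
  obtain ⟨rA, hA1, hA2, hA3, hA4, hA5, hA6, hA7, hA8, hA9⟩ := hA n X S a c (2 * ce) (by omega) hD
    (by positivity)
    (fun z hz => by rw [ha]; exact ⟨le_max_right _ _, max_le (by linarith [hX1 z hz]) (by norm_num)⟩)
    hsa
    (fun z hz => by
      rw [hc]; exact ⟨le_max_right _ _, max_le (by linarith [hS1 z (hSRsub hz)]) (by norm_num)⟩)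
    hsc
  obtain ⟨σ1, hσ1d⟩ : ∃ σ1 : ℕ → ℝ, ∀ d, σ1 d = -devS d - difS X rA d := ⟨_, fun _ => rfl⟩
  have hσ1 : ∀ d ∈ SR n S, |σ1 d| ≤ 401 * ce := by
    intro d hd
    have h1 := abs_le.1 (hA8 d hd)
    have h2 : max (devS d) 0 ≤ ce := max_le (hS3 d hd) hce.le
    have h2' : 0 ≤ max (devS d) 0 := le_max_right _ _
    have h3 := hdec (devS d)
    rw [← hc] at h3
    rw [hσ1d, abs_le]
    constructor <;> linarith [h1.1, h1.2]
  have hσ1s : ∑ d ∈ SR n S, σ1 d = 0 := by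
    have h1 : ∑ d ∈ SR n S, difS X rA d = 0 := by
      have h2 : ∑ d ∈ SR n S, difS X rA d = ∑ d ∈ S, difS X rA d :=
        sum_subset hSRsub fun d _ hd' => hA7 d hd'
      rw [h2, h34_sum_difS X S rA hA1]
      exact sum_eq_zero hA2
    simp only [hσ1d]
    rw [sum_sub_distrib, sum_neg_distrib, hS4', h1]; simp
  obtain ⟨rS, hS5, hS6, hS7, hS8, hS9⟩ := hS n X S σ1 (401 * ce) (by omega) hD (by positivity) hσ1 hσ1s
  obtain ⟨δ2, hδ2d⟩ : ∃ δ2 : ℕ → ℝ, ∀ z, δ2 z = -devX z - labS X rA z - labS X rS z :=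
    ⟨_, fun _ => rfl⟩
  have hδ2 : ∀ z ∈ XR n X, |δ2 z| ≤ 401401 * ce := by
    intro z hz
    have h1 := abs_le.1 (hA6 z hz)
    have h1' := abs_le.1 (hS9 z (hXRsub hz))
    have h2 : max (devX z) 0 ≤ ce := max_le (hX3 z hz) hce.le
    have h2' : 0 ≤ max (devX z) 0 := le_max_right _ _
    have h3 := hdec (devX z)
    rw [← ha] at h3
    rw [hδ2d, abs_le]
    constructor <;> linarith [h1.1, h1.2, h1'.1, h1'.2]
  have hlabS0 : ∑ z ∈ XR n X, labS X rS z = 0 := by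
    have h2 : ∑ z ∈ XR n X, labS X rS z = ∑ z ∈ X, labS X rS z :=
      sum_subset hXRsub fun z _ hz' => h34_labS_zero hS5 z hz'
    rw [h2, h34_sum_labS]
    exact sum_eq_zero hS7
  have haX : ∀ z ∈ X, z ∉ XR n X → a z = -devX z := by
    intro z hz hz'
    rw [ha]; exact max_eq_left (by linarith [hX2 z hz hz'])
  have hδ2s : ∑ z ∈ XR n X, δ2 z = 0 := by
    simp only [hδ2d]
    rw [sum_sub_distrib, hlabS0, sub_zero]
    have h2 : ∑ z ∈ XR n X, (-devX z - labS X rA z) = ∑ z ∈ X, (-devX z - labS X rA z) := by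
      refine sum_subset hXRsub fun z hz hz' => ?_
      rw [hA5 z hz hz', haX z hz hz']; ring
    rw [h2, sum_sub_distrib, sum_neg_distrib, hX4, h34_sum_labS, sum_eq_zero hA2]; simp
  have hsplit : ∀ f : ℕ → ℝ, ∑ z ∈ XR n X, f z =
      ∑ z ∈ (XR n X).filter (fun z => z % 2 = 0), f z +
      ∑ z ∈ (XR n X).filter (fun z => z % 2 = 1), f z := by
    intro f
    rw [← sum_filter_add_sum_filter_not (XR n X) (fun z => z % 2 = 0)]
    congr 1
    refine sum_congr ?_ fun _ _ => rfl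
    ext z; simp only [mem_filter]
    constructor
    · rintro ⟨h1, h2⟩; exact ⟨h1, by omega⟩
    · rintro ⟨h1, h2⟩; exact ⟨h1, by omega⟩
  obtain ⟨E, hE⟩ : ∃ E : ℝ, E = ∑ z ∈ (XR n X).filter (fun z => z % 2 = 0), δ2 z := ⟨_, rfl⟩
  have hEb : |E| ≤ (802802 * ce) * n := by
    rw [hE]
    calc |∑ z ∈ (XR n X).filter (fun z => z % 2 = 0), δ2 z|
        ≤ ∑ z ∈ (XR n X).filter (fun z => z % 2 = 0), |δ2 z| := abs_sum_le_sum_abs _ _
      _ ≤ ∑ z ∈ XR n X, |δ2 z| :=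
          sum_le_sum_of_subset_of_nonneg (filter_subset _ _) fun _ _ _ => abs_nonneg _
      _ ≤ ∑ z ∈ XR n X, 401401 * ce := sum_le_sum hδ2
      _ = (XR n X).card * (401401 * ce) := by rw [sum_const, nsmul_eq_mul]
      _ ≤ (2 * n) * (401401 * ce) := by gcongr
      _ = _ := by ring
  obtain ⟨rP, hP1, hP2, hP3, hP4, hP5, hP6, hP7⟩ := hP n X S E (802802 * ce) (by omega) hD
    (by positivity) hEb
  obtain ⟨δ3, hδ3d⟩ : ∃ δ3 : ℕ → ℝ, ∀ z, δ3 z = δ2 z - labS X rP z := ⟨_, fun _ => rfl⟩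
  have hδ3 : ∀ z ∈ XR n X, |δ3 z| ≤ 160961801 * ce := by
    intro z hz
    have h1 := abs_le.1 (hδ2 z hz)
    have h1' := abs_le.1 (hP5 z (hXRsub hz))
    rw [hδ3d, abs_le]
    constructor <;> linarith [h1.1, h1.2, h1'.1, h1'.2]
  have hδ3e : ∑ z ∈ (XR n X).filter (fun z => z % 2 = 0), δ3 z = 0 := by
    simp only [hδ3d]
    rw [sum_sub_distrib, hP6, hE]; ring
  have hδ3o : ∑ z ∈ (XR n X).filter (fun z => z % 2 = 1), δ3 z = 0 := by
    simp only [hδ3d]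
    rw [sum_sub_distrib, hP7]
    have h1 := hsplit δ2
    rw [hδ2s, ← hE] at h1
    linarith
  obtain ⟨rR, hR1, hR2, hR3, hR4, hR5⟩ := hR n X S δ3 (160961801 * ce) (by omega) hD
    (by positivity) hδ3 hδ3e hδ3o
  have hzS : ∀ y z, ¬ Rg n X S y z → rS y z = 0 := fun y z h => by
    by_contra h'; exact h (hS5 y z h')
  have hzP : ∀ y z, ¬ Rg n X S y z → rP y z = 0 := fun y z h => by
    by_contra h'; exact h (hP1 y z h')
  have hzR : ∀ y z, ¬ Rg n X S y z → rR y z = 0 := fun y z h => by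
    by_contra h'; exact h (hR1 y z h')
  -- bound of the corrections
  have hb : ∀ k : ℝ, k * ce / n = k * (ce / n) := fun k => by ring
  obtain ⟨t, ht⟩ : ∃ t : ℝ, t = ce / n := ⟨_, rfl⟩
  have htpos : 0 < t := by rw [ht]; positivity
  have hte : e / (2 * n) = 5 * 10 ^ 11 * t := by
    rw [ht, ← hce1]; field_simp; ring
  have ht1 : 10 ^ 12 * t ≤ 1 / n := by
    rw [ht, ← mul_div_assoc, hce1]
    gcongr
  have hbA : ∀ y z, -(400 * t) ≤ rA y z ∧ rA y z ≤ 15 * (1 / n) := by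
    intro y z
    have h1 := hA4 y z
    have e1 : 200 * (2 * ce) / n = 400 * t := by rw [ht]; ring
    have e2 : (15:ℝ) / n = 15 * (1 / n) := by ring
    rw [e1, e2] at h1
    exact h1
  have hbS : ∀ y z, |rS y z| ≤ 401000 * t := by
    intro y z
    have h1 := hS6 y z
    have e1 : 1000 * (401 * ce) / n = 401000 * t := by rw [ht]; ring
    rwa [e1] at h1
  have hbP : ∀ y z, |rP y z| ≤ 160560400 * t := by
    intro y z
    have h1 := hP2 y z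
    have e1 : 200 * (802802 * ce) / n = 160560400 * t := by rw [ht]; ring
    rwa [e1] at h1
  have hbR : ∀ y z, |rR y z| ≤ 16096180100 * t := by
    intro y z
    have h1 := hR2 y z
    have e1 : 100 * (160961801 * ce) / n = 16096180100 * t := by rw [ht]; ring
    rwa [e1] at h1
  refine ⟨fun y z => (((q0 y z + rA y z) + rS y z) + rP y z) + rR y z, ?_, ?_, ?_, ?_, ?_, ?_, ?_⟩
  · intro y z h
    by_cases hg : Rg n X S y z
    · exact ⟨hg.1, hg.2.1, hg.2.2.1⟩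
    · simp only [hzS y z hg, hzP y z hg, hzR y z hg, add_zero] at h
      by_cases h0 : q0 y z = 0
      · exact hA1 y z (by intro h'; exact h (by rw [h0, h', add_zero]))
      · exact hAdm y z h0
  · intro y z
    by_cases hg : Rg n X S y z
    · have h0 := hq0R y z hg
      rw [hte] at h0
      have h1 := (hbA y z).1
      have h2 := (abs_le.1 (hbS y z)).1
      have h3 := (abs_le.1 (hbP y z)).1
      have h4 := (abs_le.1 (hbR y z)).1
      show 0 ≤ (((q0 y z + rA y z) + rS y z) + rP y z) + rR y z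
      linarith
    · simp only [hzS y z hg, hzP y z hg, hzR y z hg, add_zero]
      have := hq0 y z
      have := hA3 y z hg
      linarith
  · intro y z
    have h1 := (hbA y z).2
    have h2 := (abs_le.1 (hbS y z)).2
    have h3 := (abs_le.1 (hbP y z)).2
    have h4 := (abs_le.1 (hbR y z)).2
    have e2 : (30:ℝ) / n = 30 * (1 / n) := by ring
    show (((q0 y z + rA y z) + rS y z) + rP y z) + rR y z ≤ q0 y z + 30 / n
    rw [e2]
    linarith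
  · intro y hy
    rw [h34_rowS_add, h34_rowS_add, h34_rowS_add, h34_rowS_add, hA2 y hy, hS7 y hy, hP3 y hy, hR3 y hy]
    ring
  · intro z hz
    rw [h34_labS_add, h34_labS_add, h34_labS_add, h34_labS_add]
    by_cases hzr : z ∈ XR n X
    · rw [hR5 z hzr, hδ3d, hδ2d]; ring
    · rw [hA5 z hz hzr, haX z hz hzr, h34_labS_zero hS5 z hzr, h34_labS_zero hP1 z hzr,
        h34_labS_zero hR1 z hzr]; ring
  · intro d hd
    rw [h34_difS_add, h34_difS_add, h34_difS_add, h34_difS_add, hP4 d, hR4 d]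
    by_cases hdr : d ∈ SR n S
    · rw [hS8 d hdr, hσ1d]; ring
    · rw [hA7 d hdr, h34_difS_zero hS5 d hdr, hS2 d hd hdr]; ring
  · intro y z h
    by_cases hg : Rg n X S y z
    · exact h34_Rg_y hg
    · refine hA9 y z ?_
      intro h'
      apply h
      simp only [hzS y z hg, hzP y z hg, hzR y z hg, h', add_zero]

theorem lpMain : ∃ c0 : ℝ, 0 < c0 ∧ ∃ n0 : ℕ, ∀ (n : ℕ) (X S : Finset ℕ) (e : ℝ) (q0 : ℕ → ℕ → ℝ) (devX devS : ℕ → ℝ),
    n0 ≤ n → Dns n X S → 0 < e → e ≤ 1 → AdmS X S q0 → (∀ y z, 0 ≤ q0 y z) →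
    (∀ y z, Rg n X S y z → e / (2 * n) ≤ q0 y z) →
    (∀ z ∈ X, -1 ≤ devX z) → (∀ z ∈ X, z ∉ XR n X → devX z ≤ 0) → (∀ z ∈ XR n X, devX z ≤ c0 * e) →
    ∑ z ∈ X, devX z = 0 →
    (∀ d ∈ S, -1 ≤ devS d) → (∀ d ∈ S, d ∉ SR n S → devS d = 0) → (∀ d ∈ SR n S, devS d ≤ c0 * e) →
    ∑ d ∈ S, devS d = 0 →
    ∃ q : ℕ → ℕ → ℝ, AdmS X S q ∧ (∀ y z, 0 ≤ q y z) ∧ (∀ y z, q y z ≤ q0 y z + 30 / n) ∧
      (∀ y ∈ X, rowS X q y = rowS X q0 y) ∧ (∀ z ∈ X, labS X q z = labS X q0 z - devX z) ∧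
      (∀ d ∈ S, difS X q d = difS X q0 d - devS d) ∧
      (∀ y z, q y z ≠ q0 y z → 3 * n ≤ 100 * y ∧ 100 * y ≤ 97 * n) :=
  h34_lpMain stepA

end Pool.Agent.GRC
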