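import Pool.Agent.Helper28.GRC.PF2

/-!
# GRC-PF3: the total mass of the profile and the choice of `ξ`

Proof in words.  `∑_{x = 25P}^{n-25P} Psi n P e ξ (2 pos x) = M0 - ξ Λ`, `Λ = ∑ lin n (2 pos x)`, `0.3 n ≤ Λ ≤ 0.32 n` (`lin (2 pos x) = 1` iff `pos x ≥ 0.35 n`).
`M0 = ∑ phi (2 pos x) + 0.65 e ∑ (1 - phi) eta(pos x) + e (∑ Bf (pos x) - 0.65 ∑ eta (pos x))`.  The last bracket is `≤ 301` in absolute value: `Bf (pos x) = Bf x`, `Bf = 0` outside `[25P, n-25P]`,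
`∑_x Bf x = ∑_z eta z (∑_x etad |x-z|)/n` and `labm` (`eta z = 0` unless `0.335 n < z < 0.665 n`).  The second term is between `0` and `0.65 e (0.34 n) √(44P/(0.67 n)) ≤ 0.01 √(Pn)`.
`∑ phi (2 pos x) = (n - 50P + 1) - ∑ √(22P/pos x)`, and `∑_{x=a}^{b} 1/√x` is between `2(√(b+1) - √a)` and `2(√b - √(a-1))`; so `∑ √(22P/pos x) = 4 √(11 P n) ± (50 P + ...)`,
`4 √11 = 13.266..`.  Since `50 P + 301 ≤ 10⁻³ √(Pn)`: `n - 13.3 √(Pn) ≤ M0 ≤ n - 13.2 √(Pn)`.  Put `ξ = (M0 - N)/Λ ∈ [0, (24.3 - 13.2) √(Pn)/(0.3 n)]`, `√(P/n) ≤ √μ`.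
-/

set_option autoImplicit false

namespace Pool.Agent.GRC

open Finset

private theorem h24_step (b : ℕ) :
    2 * (Real.sqrt ((b : ℝ) + 1) - Real.sqrt b) ≤ 1 / Real.sqrt ((b : ℝ)) ∨ b = 0 := by
  rcases Nat.eq_zero_or_pos b with h | h
  · exact Or.inr h
  · left
    have hb : (0 : ℝ) < b := by exact_mod_cast h
    have h1 : 0 < Real.sqrt b := Real.sqrt_pos.mpr hb
    have h2 : Real.sqrt b ≤ Real.sqrt ((b : ℝ) + 1) := Real.sqrt_le_sqrt (by linarith)
    have h3 : Real.sqrt b ^ 2 = b := Real.sq_sqrt hb.le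
    have h4 : Real.sqrt ((b : ℝ) + 1) ^ 2 = b + 1 := Real.sq_sqrt (by linarith)
    rw [le_div_iff₀ h1]
    nlinarith

private theorem h24_step2 (b : ℕ) :
    1 / Real.sqrt ((b : ℝ) + 1) ≤ 2 * (Real.sqrt ((b : ℝ) + 1) - Real.sqrt b) := by
  have hb : (0 : ℝ) ≤ b := Nat.cast_nonneg b
  have h1 : 0 < Real.sqrt ((b : ℝ) + 1) := Real.sqrt_pos.mpr (by linarith)
  have h2 : Real.sqrt b ≤ Real.sqrt ((b : ℝ) + 1) := Real.sqrt_le_sqrt (by linarith)
  have h3 : Real.sqrt b ^ 2 = b := Real.sq_sqrt hb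
  have h4 : Real.sqrt ((b : ℝ) + 1) ^ 2 = b + 1 := Real.sq_sqrt (by linarith)
  have h5 : 0 ≤ Real.sqrt b := Real.sqrt_nonneg _
  rw [div_le_iff₀ h1]
  nlinarith

/-- lower bound for the sum of `1/√x` -/
private theorem h24_low (a c : ℕ) (ha : 1 ≤ a) (hc : a ≤ c) :
    2 * (Real.sqrt c - Real.sqrt a) ≤ ∑ x ∈ Ico a c, 1 / Real.sqrt (x : ℝ) := by
  induction c, hc using Nat.le_induction with
  | base => simp
  | succ c hc ih =>
    rw [Finset.sum_Ico_succ_top hc]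
    have h := (h24_step c).resolve_right (by omega)
    push_cast
    linarith

/-- upper bound for the sum of `1/√x` -/
private theorem h24_upp (a c : ℕ) (ha : 1 ≤ a) (hc : a ≤ c + 1) :
    ∑ x ∈ Ico a (c + 1), 1 / Real.sqrt (x : ℝ) ≤ 2 * Real.sqrt c := by
  induction c with
  | zero =>
    have : a = 1 := by omega
    subst this
    simp
  | succ c ih =>
    rcases Nat.lt_or_ge (c + 1) a with h | h
    · have : a = c + 1 + 1 := by omega
      subst this
      simp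
    · rw [Finset.sum_Ico_succ_top h]
      have h1 := ih h
      have h2 := h24_step2 c
      push_cast
      linarith

/-- sum over the positions -/
private theorem h24_pos_sum (g : ℕ → ℝ) (n a : ℕ) (ha : 2 * a ≤ n) (hn : 1 ≤ a) :
    ∑ x ∈ Icc a (n - a), g (pos n x) =
      ∑ x ∈ Ico a (n / 2 + 1), g x + ∑ x ∈ Ico a (n - n / 2), g x := by
  have e0 : Icc a (n - a) = Ico a (n - a + 1) := by
    ext x; simp only [mem_Icc, mem_Ico]; omega
  rw [e0, ← Finset.sum_Ico_consecutive (fun x => g (pos n x)) (show a ≤ n / 2 + 1 by omega)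
    (show n / 2 + 1 ≤ n - a + 1 by omega)]
  congr 1
  · refine Finset.sum_congr rfl fun x hx => ?_
    rw [mem_Ico] at hx
    congr 1
    unfold pos
    omega
  · have h1 : ∀ x ∈ Ico (n / 2 + 1) (n - a + 1), g (pos n x) = g (n - x) := by
      intro x hx
      rw [mem_Ico] at hx
      congr 1
      unfold pos
      omega
    rw [Finset.sum_congr rfl h1, Finset.sum_Ico_reflect g (n / 2 + 1) (show n - a + 1 ≤ n + 1 by omega)]
    have e1 : n + 1 - (n - a + 1) = a := by omega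
    have e2 : n + 1 - (n / 2 + 1) = n - n / 2 := by omega
    rw [e1, e2]

private theorem h24_invsum (n a : ℕ) (ha : 2 * a ≤ n) (ha1 : 1 ≤ a) :
    4 * Real.sqrt ((n : ℝ) / 2) - 4 * Real.sqrt a ≤
        ∑ x ∈ Icc a (n - a), 1 / Real.sqrt (pos n x : ℝ) ∧
      ∑ x ∈ Icc a (n - a), 1 / Real.sqrt (pos n x : ℝ) ≤ 4 * Real.sqrt ((n : ℝ) / 2) := by
  rw [h24_pos_sum (fun p => 1 / Real.sqrt (p : ℝ)) n a ha ha1]
  constructor
  · have h1 := h24_low a (n / 2 + 1) ha1 (by omega)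
    have h2 := h24_low a (n - n / 2) ha1 (by omega)
    have h3 : Real.sqrt ((n : ℝ) / 2) ≤ Real.sqrt ((n / 2 + 1 : ℕ) : ℝ) := by
      apply Real.sqrt_le_sqrt
      rw [div_le_iff₀ (by norm_num)]
      have : n ≤ (n / 2 + 1) * 2 := by omega
      exact_mod_cast this
    have h4 : Real.sqrt ((n : ℝ) / 2) ≤ Real.sqrt ((n - n / 2 : ℕ) : ℝ) := by
      apply Real.sqrt_le_sqrt
      rw [div_le_iff₀ (by norm_num)]
      have : n ≤ (n - n / 2) * 2 := by omega
      exact_mod_cast this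
    linarith
  · have h1 := h24_upp a (n / 2) ha1 (by omega)
    have h2 := h24_upp a (n - n / 2 - 1) ha1 (by omega)
    have e : n - n / 2 - 1 + 1 = n - n / 2 := by omega
    rw [e] at h2
    have h3 : Real.sqrt ((n / 2 : ℕ) : ℝ) ≤ Real.sqrt ((n : ℝ) / 2) := by
      apply Real.sqrt_le_sqrt
      rw [le_div_iff₀ (by norm_num)]
      have : (n / 2) * 2 ≤ n := by omega
      exact_mod_cast this
    have h4 : Real.sqrt ((n - n / 2 - 1 : ℕ) : ℝ) ≤ Real.sqrt ((n : ℝ) / 2) := by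
      apply Real.sqrt_le_sqrt
      rw [le_div_iff₀ (by norm_num)]
      have : (n - n / 2 - 1) * 2 ≤ n := by omega
      exact_mod_cast this
    linarith

private theorem h24_pos_cast (n x : ℕ) (hx : x ≤ n) :
    (pos n x : ℝ) = x ∨ (pos n x : ℝ) = n - x := by
  unfold pos
  rcases le_total x (n - x) with h | h
  · left
    rw [min_eq_left h]
  · right
    rw [min_eq_right h, Nat.cast_sub hx]

private theorem h24_eta_range (n : ℕ) (z : ℝ) : 0 ≤ eta n z ∧ eta n z ≤ 1 := cl01_range _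

private theorem h24_eta_sum {n P : ℕ} (hn : 10 ^ 6 ≤ n) (hP : 10 ^ 4 * P ≤ n) :
    ∑ x ∈ Icc (25 * P) (n - 25 * P), eta n (pos n x) = ∑ z ∈ range (n + 1), eta n z := by
  have h0 : 0 < n := by omega
  have hP' : (10 : ℝ) ^ 4 * P ≤ n := by exact_mod_cast hP
  have h1 : ∀ x ∈ Icc (25 * P) (n - 25 * P), eta n (pos n x) = eta n x := by
    intro x hx
    rw [mem_Icc] at hx
    rcases h24_pos_cast n x (by omega) with h | h
    · rw [h]
    · rw [h, eta_symm h0]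
  rw [Finset.sum_congr rfl h1]
  refine Finset.sum_subset ?_ ?_
  · intro x hx
    rw [mem_Icc] at hx
    rw [mem_range]
    omega
  · intro x hx hx2
    rw [mem_range] at hx
    rw [mem_Icc] at hx2
    apply eta_zero h0
    rcases Nat.lt_or_ge x (25 * P) with h | h
    · have hx3 : (x : ℝ) < 25 * P := by exact_mod_cast h
      rw [abs_of_nonpos (by linarith)]
      linarith
    · have h2 : n < x + 25 * P := by omega
      have hx3 : (n : ℝ) < x + 25 * P := by exact_mod_cast h2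
      rw [abs_of_nonneg (by linarith)]
      linarith

private theorem h24_Bf_sum {n P : ℕ} (hn : 10 ^ 6 ≤ n) (hP : 10 ^ 4 * P ≤ n) :
    ∑ x ∈ Icc (25 * P) (n - 25 * P), Bf n (pos n x) = ∑ z ∈ range (n + 1), Bf n z := by
  have h0 : 0 < n := by omega
  have hP' : (10 : ℝ) ^ 4 * P ≤ n := by exact_mod_cast hP
  have h1 : ∀ x ∈ Icc (25 * P) (n - 25 * P), Bf n (pos n x) = Bf n x := by
    intro x hx
    rw [mem_Icc] at hx
    rcases h24_pos_cast n x (by omega) with h | h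
    · rw [h]
    · rw [h, Bf_symm h0]
  rw [Finset.sum_congr rfl h1]
  refine Finset.sum_subset ?_ ?_
  · intro x hx
    rw [mem_Icc] at hx
    rw [mem_range]
    omega
  · intro x hx hx2
    rw [mem_range] at hx
    rw [mem_Icc] at hx2
    apply Bf_zero hn
    rcases Nat.lt_or_ge x (25 * P) with h | h
    · have hx3 : (x : ℝ) < 25 * P := by exact_mod_cast h
      left
      linarith
    · have h2 : n < x + 25 * P := by omega
      have hx3 : (n : ℝ) < x + 25 * P := by exact_mod_cast h2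
      right
      linarith

private theorem h24_bracket {n P : ℕ} (hn : 10 ^ 6 ≤ n) (hP : 10 ^ 4 * P ≤ n) :
    |∑ x ∈ Icc (25 * P) (n - 25 * P), Bf n (pos n x) -
      65 / 100 * ∑ x ∈ Icc (25 * P) (n - 25 * P), eta n (pos n x)| ≤ 600 := by
  have h0 : 0 < n := by omega
  have hn0 : (0 : ℝ) < n := by exact_mod_cast h0
  have hn1 : (1 : ℝ) ≤ n := by exact_mod_cast h0
  rw [h24_eta_sum hn hP, h24_Bf_sum hn hP]
  have e1 : ∑ z ∈ range (n + 1), Bf n z =
      ∑ z ∈ range (n + 1), eta n z * ((∑ y ∈ range (n + 1), etad n |(y : ℝ) - z|) / n) := by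
    unfold Bf
    rw [← Finset.sum_div, Finset.sum_comm, Finset.sum_div]
    refine Finset.sum_congr rfl fun z _ => ?_
    rw [← Finset.mul_sum, mul_div_assoc]
  rw [e1, Finset.mul_sum, ← Finset.sum_sub_distrib]
  refine (Finset.abs_sum_le_sum_abs _ _).trans ?_
  have h2 : ∀ z ∈ range (n + 1),
      |eta n z * ((∑ y ∈ range (n + 1), etad n |(y : ℝ) - z|) / n) - 65 / 100 * eta n z| ≤
        300 / n := by
    intro z _
    have hr := h24_eta_range n z
    have e2 : eta n z * ((∑ y ∈ range (n + 1), etad n |(y : ℝ) - z|) / n) - 65 / 100 * eta n z =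
        eta n z * ((∑ y ∈ range (n + 1), etad n |(y : ℝ) - z|) / n - 65 / 100) := by ring
    rw [e2, abs_mul, abs_of_nonneg hr.1]
    by_cases hz : eta n z = 0
    · rw [hz, zero_mul]
      positivity
    · have h3 : ¬ (165 * (n : ℝ) ≤ 1000 * |(z : ℝ) - n / 2|) := fun h => hz (eta_zero h0 h)
      push Not at h3
      have h4 : |(z : ℝ) - n / 2| < 165 * n / 1000 := by linarith
      rw [abs_lt] at h4
      have h5 := labm hn (z := z) (by linarith [h4.1]) (by linarith [h4.2])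
      calc eta n z * |(∑ y ∈ range (n + 1), etad n |(y : ℝ) - z|) / n - 65 / 100|
          ≤ 1 * (300 / n) := by
            apply mul_le_mul hr.2 h5 (abs_nonneg _) zero_le_one
        _ = 300 / n := one_mul _
  refine (Finset.sum_le_sum h2).trans ?_
  rw [Finset.sum_const, card_range, nsmul_eq_mul]
  push_cast
  rw [mul_div_assoc', div_le_iff₀ hn0]
  linarith

private theorem h24_lin_sum {n P : ℕ} (hn : 10 ^ 6 ≤ n) (hP : 10 ^ 4 * P ≤ n) :
    29 / 100 * (n : ℝ) ≤ ∑ x ∈ Icc (25 * P) (n - 25 * P), lin n (2 * (pos n x : ℝ)) := by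
  have h0 : 0 < n := by omega
  have hn0 : (0 : ℝ) < n := by exact_mod_cast h0
  obtain ⟨a, ha⟩ : ∃ a : ℕ, a = 35 * n / 100 + 1 := ⟨_, rfl⟩
  have hsub : Icc a (n - a) ⊆ Icc (25 * P) (n - 25 * P) := by
    apply Icc_subset_Icc <;> omega
  have h1 : ∀ x ∈ Icc a (n - a), (1 : ℝ) ≤ lin n (2 * (pos n x : ℝ)) := by
    intro x hx
    rw [mem_Icc] at hx
    have h2 : 35 * n ≤ 100 * pos n x := by
      unfold pos
      omega
    have h3 : (35 : ℝ) * n ≤ 100 * (pos n x : ℝ) := by exact_mod_cast h2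
    unfold lin cl01
    have h4 : (70 : ℝ) ≤ 100 * (2 * (pos n x : ℝ) / n) := by
      rw [mul_div_assoc', le_div_iff₀ hn0]
      linarith
    rw [min_eq_left (by linarith)]
    exact le_max_right _ _
  calc 29 / 100 * (n : ℝ) ≤ ((Icc a (n - a)).card : ℝ) := by
        rw [Nat.card_Icc]
        have h5 : 29 * n ≤ 100 * (n - a + 1 - a) := by omega
        have h6 : (29 : ℝ) * n ≤ 100 * ((n - a + 1 - a : ℕ) : ℝ) := by exact_mod_cast h5
        linarith
    _ = ∑ x ∈ Icc a (n - a), (1 : ℝ) := by simp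
    _ ≤ ∑ x ∈ Icc a (n - a), lin n (2 * (pos n x : ℝ)) := Finset.sum_le_sum h1
    _ ≤ ∑ x ∈ Icc (25 * P) (n - 25 * P), lin n (2 * (pos n x : ℝ)) :=
        Finset.sum_le_sum_of_subset_of_nonneg hsub fun x _ _ => (cl01_range _).1

theorem xi_exists {n P w D : ℕ} {t μ e : ℝ} (h : Prm n P w D t μ e) (N : ℝ)
    (h1 : (n : ℝ) - 243 / 10 * Real.sqrt (P * n) ≤ N) (h2 : N ≤ (n : ℝ) - 239 / 10 * Real.sqrt (P * n)) :
    ∃ ξ : ℝ, 0 ≤ ξ ∧ ξ ≤ 40 * Real.sqrt μ ∧
      ∑ x ∈ Icc (25 * P) (n - 25 * P), Psi n P e ξ (2 * (pos n x : ℝ)) = N := by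
  obtain ⟨c1, c2, c3, c4, -, -, -⟩ := Prm_cons h
  have hP1 : 1 ≤ P := by omega
  have hn6 : 10 ^ 6 ≤ n := by omega
  have hP4 : 10 ^ 4 * P ≤ n := by omega
  have hPr : (1 : ℝ) ≤ P := by exact_mod_cast hP1
  have hPbig : (10 : ℝ) ^ 20 ≤ P := by
    have : 10 ^ 20 ≤ P := by omega
    exact_mod_cast this
  have hnP : (10 : ℝ) ^ 18 * P ≤ n := by exact_mod_cast c3
  have hn0 : (0 : ℝ) < n := by linarith
  obtain ⟨q, hq⟩ : ∃ q, q = Real.sqrt (P * n) := ⟨_, rfl⟩
  rw [← hq] at h1 h2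
  have hq0 : 0 ≤ q := hq ▸ Real.sqrt_nonneg _
  have hqP : (10 : ℝ) ^ 9 * P ≤ q := by
    rw [hq]
    apply Real.le_sqrt_of_sq_le
    calc ((10 : ℝ) ^ 9 * (P : ℝ)) ^ 2 = (P : ℝ) * (10 ^ 18 * (P : ℝ)) := by ring
      _ ≤ (P : ℝ) * (n : ℝ) := by gcongr
  have hqμ : q ≤ Real.sqrt μ * n := by
    rw [hq]
    calc Real.sqrt (P * n) ≤ Real.sqrt (μ * n * n) := by
          apply Real.sqrt_le_sqrt
          have := h.P2
          gcongr
      _ = Real.sqrt μ * n := by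
          rw [mul_assoc, Real.sqrt_mul h.μ0.le, Real.sqrt_mul_self hn0.le]
  obtain ⟨I, hI⟩ : ∃ I, I = Icc (25 * P) (n - 25 * P) := ⟨_, rfl⟩
  obtain ⟨r, hr⟩ : ∃ r : ℕ → ℝ, r = fun x => Real.sqrt (22 * P) * (1 / Real.sqrt (pos n x : ℝ)) :=
    ⟨_, rfl⟩
  have hr0 : ∀ x, 0 ≤ r x := by
    intro x
    rw [hr]
    positivity
  obtain ⟨R, hR⟩ : ∃ R, R = ∑ x ∈ I, r x := ⟨_, rfl⟩
  obtain ⟨W, hW⟩ : ∃ W, W = ∑ x ∈ I, r x * eta n (pos n x) := ⟨_, rfl⟩
  obtain ⟨B, hB⟩ : ∃ B, B = ∑ x ∈ I, Bf n (pos n x) - 65 / 100 * ∑ x ∈ I, eta n (pos n x) :=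
    ⟨_, rfl⟩
  obtain ⟨Λ, hΛ⟩ : ∃ Λ, Λ = ∑ x ∈ I, lin n (2 * (pos n x : ℝ)) := ⟨_, rfl⟩
  -- the formula for the sum
  have hsum : ∀ ξ : ℝ, ∑ x ∈ I, Psi n P e ξ (2 * (pos n x : ℝ)) =
      (I.card : ℝ) - R + 65 / 100 * e * W + e * B - ξ * Λ := by
    intro ξ
    rw [hR, hW, hB, hΛ, Finset.mul_sum, Finset.mul_sum, mul_sub, Finset.mul_sum, Finset.mul_sum,
      Finset.mul_sum, card_eq_sum_ones]
    push_cast
    rw [← Finset.sum_sub_distrib, ← Finset.sum_sub_distrib, ← Finset.sum_add_distrib,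
      ← Finset.sum_add_distrib, ← Finset.sum_sub_distrib]
    refine Finset.sum_congr rfl fun x _ => ?_
    unfold Psi phi
    have e1 : (2 * (pos n x : ℝ)) / 2 = pos n x := by ring
    have e2 : Real.sqrt (44 * P / (2 * (pos n x : ℝ))) = r x := by
      rw [hr]
      have e3 : (44 * (P : ℝ)) / (2 * (pos n x : ℝ)) = (22 * P) * (1 / (pos n x : ℝ)) := by
        rw [show (44 : ℝ) * P = 2 * (22 * P) by ring, mul_div_mul_left _ _ (by norm_num)]
        ring
      rw [e3, Real.sqrt_mul (by positivity)]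
      simp only [one_div, Real.sqrt_inv]
    rw [e1, e2]
    ring
  have hRb : 4 * Real.sqrt 11 * q - 94 * P ≤ R ∧ R ≤ 4 * Real.sqrt 11 * q := by
    have hb := h24_invsum n (25 * P) (by omega) (by omega)
    rw [← hI] at hb
    have e4 : R = Real.sqrt (22 * P) * ∑ x ∈ I, 1 / Real.sqrt (pos n x : ℝ) := by
      rw [hR, hr, Finset.mul_sum]
    have hs : 0 ≤ Real.sqrt (22 * P) := Real.sqrt_nonneg _
    have e5 : Real.sqrt (22 * P) * Real.sqrt ((n : ℝ) / 2) = Real.sqrt 11 * q := by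
      rw [hq, ← Real.sqrt_mul (by positivity), ← Real.sqrt_mul (by norm_num)]
      congr 1
      ring
    have e6 : Real.sqrt (22 * P) * Real.sqrt ((25 * P : ℕ) : ℝ) ≤ 235 / 10 * P := by
      rw [← Real.sqrt_mul (by positivity)]
      apply Real.sqrt_le_iff.mpr
      refine ⟨by positivity, ?_⟩
      push_cast
      nlinarith
    have m1 := mul_le_mul_of_nonneg_left hb.1 hs
    have m2 := mul_le_mul_of_nonneg_left hb.2 hs
    rw [← e4] at m1 m2
    constructor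
    · linarith
    · linarith
  have hK1 : (3316 : ℝ) / 1000 ≤ Real.sqrt 11 := by
    apply Real.le_sqrt_of_sq_le; norm_num
  have hK2 : Real.sqrt 11 ≤ 3317 / 1000 := by
    apply Real.sqrt_le_iff.mpr; constructor <;> norm_num
  have hW0 : 0 ≤ W := by
    rw [hW]
    exact Finset.sum_nonneg fun x _ => mul_nonneg (hr0 x) (h24_eta_range n _).1
  have hWR : W ≤ R := by
    rw [hW, hR]
    refine Finset.sum_le_sum fun x _ => ?_
    exact mul_le_of_le_one_right (hr0 x) (h24_eta_range n _).2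
  have hB6 : |B| ≤ 600 := by
    rw [hB, hI]
    exact h24_bracket hn6 hP4
  have hΛ1 : 29 / 100 * (n : ℝ) ≤ Λ := by
    rw [hΛ, hI]
    exact h24_lin_sum hn6 hP4
  have hcard : (I.card : ℝ) = n - 50 * P + 1 := by
    rw [hI, Nat.card_Icc]
    have e7 : n - 25 * P + 1 - 25 * P + 50 * P = n + 1 := by omega
    have e8 : ((n - 25 * P + 1 - 25 * P : ℕ) : ℝ) + 50 * P = n + 1 := by exact_mod_cast e7
    linarith
  have he0 := h.e0
  have he1 := h.e1
  rw [abs_le] at hB6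
  have heB : -(6 / 10) ≤ e * B ∧ e * B ≤ 6 / 10 := by
    constructor <;> nlinarith [hB6.1, hB6.2]
  have heW : 0 ≤ 65 / 100 * e * W ∧ 65 / 100 * e * W ≤ 1 / 100 * q := by
    constructor
    · positivity
    · have : W ≤ 4 * (3317 / 1000) * q := by nlinarith [hRb.2]
      nlinarith
  obtain ⟨M, hM⟩ : ∃ M, M = (I.card : ℝ) - R + 65 / 100 * e * W + e * B := ⟨_, rfl⟩
  have hR1 : 4 * (3316 / 1000) * q - 94 * P ≤ R := by nlinarith [hRb.1]
  have hR2 : R ≤ 4 * (3317 / 1000) * q := by nlinarith [hRb.2]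
  have hM1 : M ≤ n - 132 / 10 * q := by
    rw [hM, hcard]
    linarith [heB.2, heW.2]
  have hM2 : n - 133 / 10 * q ≤ M := by
    rw [hM, hcard]
    linarith [heB.1, heW.1]
  have hΛ0 : 0 < Λ := by linarith
  refine ⟨(M - N) / Λ, ?_, ?_, ?_⟩
  · apply div_nonneg _ hΛ0.le
    linarith
  · rw [div_le_iff₀ hΛ0]
    have hsq : 0 ≤ Real.sqrt μ := Real.sqrt_nonneg _
    calc M - N ≤ 111 / 10 * q := by linarith
      _ ≤ 111 / 10 * (Real.sqrt μ * n) := by gcongr
      _ ≤ 40 * Real.sqrt μ * (29 / 100 * n) := by nlinarith [mul_nonneg hsq hn0.le]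
      _ ≤ 40 * Real.sqrt μ * Λ := by gcongr
  · rw [← hI, hsum, ← hM]
    field_simp
    ring

end Pool.Agent.GRC
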