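import Pool.Agent.Helper28.GRC.STA
import Pool.Agent.Helper28.GRC.CH1
import Pool.Agent.Helper28.GRC.CH2
import Pool.Agent.Helper28.GRC.BASE
import Pool.Agent.Helper28.GRC.KB
import Pool.Agent.Helper28.GRC.PF3
import Pool.Agent.Helper28.GRC.LPM
import Pool.Agent.Helper73.SEM.LW1

/-!
# GRC-LWG: random labellings of all the main pieces with all loads at most one (ASSEMBLY)

Model: Helper73/SEM/LW4.lean (`laws`).

Proof in words.  `N = ∑_τ (|Q τ| + |F τ|) = |X| - (D+1) A`, `A = ∑ |ST τ|`; `D A ∈ [24√(Pn), 24√(Pn) + D]`, `n - √(Pn)/10 ≤ |X| ≤ n + 1`, so `n - 24.3√(Pn) ≤ N ≤ n - 23.9 √(Pn)`.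
`xi_exists`: `ξ`; `kr_exists`: `k, π, κ`; `base_lawG` for every piece: `L0`, so `BG`; `mm_bounds`, `chX_up`, `chS_up`, `chS_lo`, `q0_*`.
`ρ s = 1 - chS s - difS X q0 s`: hr1: `chS = 0`, `difS q0 = 0`; for `31 n < 100 s`, `s' = n - s < 0.69 n`: `lin n s' = 0`, `eta n (s'/2) = etad n s` (both are `clamp (100 s'/n - 67)`), so
`chS s + difS q0 s ≤ phi(s')(1 - 0.65 e η) + 0.65 e η + 100 t1 + e t = 1 - √(44P/s')(1 - 0.65 e η) + 100 t1 + e t`, and `≥ 1 - √(44P/s')(1 - 0.65 e η) - 100 t1 - 10 e t` if `s + 50P + w ≤ n`; `√(44P/s') ≥ √(44 μ/16)`.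
`star_all` with `I = ⋃ ST τ`, `M c y = (L0 τ).Pr (φ (p c) = y)`, giving `κs`.
`devX x = chX x + slx x + labS q0 x - 1`, `devS s = chS s + sdl s + difS q0 s - 1`.  Hypotheses of `lpMain` (`Dns` from `lc_X`, `lc_S`):
 `devX ≤ 0` off `XR`: `pos x < 25 P`: `chX = 0`, `labS q0 = 0`, `slx ≤ 0.99`; `pos x ≥ 25P`, `pos x < 0.34 n`: `chX + labS q0 + slx ≤ 1 - √(22P/pos)(1 - 0.65 e η) + 100 t1 + 2 e t + √(22P/pos) - (1/20)√(44P/pos) ≤ 1`;
 `x ∈ XR`: `≤ 1 + 100 t1 + 2 e t + 10^5 √μ ≤ 1 + c0 e`.  `devS = 0` for `31 n < 100 s`; `100 s ≤ 31 n`: `n - s ≥ 0.69 n`, `eta = etad = 1`: `≤ 1 + 100 t1 + e t + 10^5 √μ`.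
 Totals: `∑_{x ∈ X}` of the label loads is the number of the vertices `= |X|` (all laws have labels in `X`), the same for the differences and `|S|`.
`q` from `lpMain`; flexible leaf `u`: unit `{u}` with the law `a z = q y z/mm y + (1 - R0 y/mm y) k y z` given the label `y` of `p u` (if `mm y = 0`: `k y z`), `single_UK`; `a z ≤ (31/n)/(ε/4) + 25/w ≤ 50/w`
(if `R0 y ≠ 0` or `q y ≠ 0` then `0.005 n ≤ y ≤ 0.995 n`, `mm y ≥ ε/4`; note `∑_z q y z = R0 y`).  Star `c`: unit `insert c (lf c)` with the law `κs c y`.  `ext_units` for every `τ` with `Y = XC`.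
Loads of the result: label `x`: `∑ (Q) + ∑_y mm y a x + slx x = chX x + labS q x + slx x = 1`; difference `s`: `chS s + difS q s + sdl s = 1`.
-/

set_option autoImplicit false

namespace Pool.Agent.GRC

open Finset Pool.Agent.SEM

/-- geometry of a piece with flexible leaves `F` and stars `ST` (leaves `lf c`) -/
structure PGeo (D : ℕ) (p : ℕ → ℕ) (R Q ex F ST : Finset ℕ) (lf : ℕ → Finset ℕ) (τ : ℕ) : Prop where
  geo : Geo p R Q ex τ
  pF : ∀ u ∈ F, p u ∈ Q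
  iF : Set.InjOn p F
  pS : ∀ c ∈ ST, p c ∈ Q
  hlf : ∀ c ∈ ST, (lf c).card = D ∧ ∀ l ∈ lf c, p l = c
  dF : Disjoint F (Q ∪ R)
  dS : Disjoint ST (Q ∪ R ∪ F)
  dL : ∀ c ∈ ST, Disjoint (lf c) (Q ∪ R ∪ F ∪ ST)

/-- numerical consequences of the parameters -/
theorem h4_num {n P w D : ℕ} {t μ e t1 : ℝ} (h : Prm n P w D t μ e) (ht1 : t1 = 1000 * (t + w / P)) :
    0 < t1 ∧ 100 * t1 ≤ Real.sqrt μ / 1000 ∧ t1 ≤ 1 / 1000 ∧ 0 < Real.sqrt μ ∧ 10 * e * t ≤ Real.sqrt μ / 1000 ∧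
      0 < (P : ℝ) ∧ Real.sqrt μ ≤ 1 / 10 ^ 9 := by
  obtain ⟨h1, h2, h3, h4, h5, h6, h7⟩ := Prm_cons h
  have hsq : 0 < Real.sqrt μ := Real.sqrt_pos.2 h.μ0
  have hPn : 0 < P := by
    have := h.w0
    omega
  have hP : (0:ℝ) < P := by exact_mod_cast hPn
  have hw : (0:ℝ) < w := by exact_mod_cast h.w0
  have hwP : 0 < (w:ℝ) / P := by positivity
  have hD : (10:ℝ) ^ 5 ≤ D := by exact_mod_cast h.D1
  have ht0 := h.t0
  have hs := h.small
  have h8 : 10 ^ 9 * (10:ℝ) ^ 5 * (t + w / P) ≤ Real.sqrt μ := by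
    refine le_trans ?_ hs
    have h9 : 0 ≤ t + w / P := by positivity
    nlinarith
  have h9 : 10 ^ 11 * t1 ≤ Real.sqrt μ := by rw [ht1]; linarith
  refine ⟨by rw [ht1]; positivity, by linarith, by linarith, hsq, ?_, hP, h1⟩
  have he0 := h.e0
  have he1 := h.e1
  have : e * t ≤ 1 * t := by
    apply mul_le_mul_of_nonneg_right _ ht0.le
    linarith
  nlinarith

theorem h4_sqrt {n P w D : ℕ} {t μ e : ℝ} (h : Prm n P w D t μ e) {s : ℝ} (hs : 0 < s) (hs2 : s ≤ n) :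
    Real.sqrt μ ≤ Real.sqrt (44 * P / s) := by
  apply Real.sqrt_le_sqrt
  rw [le_div_iff₀ hs]
  have h1 := h.P1
  have h2 := h.μ0
  nlinarith

theorem h4_sqrt1 {P : ℕ} {s : ℝ} (hP : 0 < (P : ℝ)) (hs : 50 * (P:ℝ) ≤ s) :
    Real.sqrt (44 * P / s) ≤ 1 := by
  rw [Real.sqrt_le_one]
  rw [div_le_one (by linarith)]
  linarith

theorem h4_Nb {n P w D : ℕ} {t μ e : ℝ} (h : Prm n P w D t μ e) {Xc A N : ℕ}
    (h1 : N + (D + 1) * A = Xc) (h2 : Xc ≤ n + 1) (h3 : (n : ℝ) - Real.sqrt (P * n) / 10 ≤ Xc)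
    (h4 : 24 * Real.sqrt (P * n) ≤ D * (A : ℝ)) (h5 : D * (A : ℝ) ≤ 24 * Real.sqrt (P * n) + D) :
    (n : ℝ) - 243 / 10 * Real.sqrt (P * n) ≤ N ∧ (N : ℝ) ≤ (n : ℝ) - 239 / 10 * Real.sqrt (P * n) ∧
      99 / 100 * (n : ℝ) ≤ N ∧ (N : ℝ) ≤ n := by
  obtain ⟨g1, g2, g3, g4, g5, g6, g7⟩ := Prm_cons h
  have hn : (0:ℝ) < n := by exact_mod_cast h.hn
  have hw := h.w0
  have hP1 : 10 ^ 14 ≤ P := by nlinarith
  have hP : (10:ℝ) ^ 14 ≤ P := by exact_mod_cast hP1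
  have hPn : (10:ℝ) ^ 18 * P ≤ n := by exact_mod_cast g3
  obtain ⟨r, hr⟩ : ∃ r : ℝ, r = Real.sqrt (P * n) := ⟨_, rfl⟩
  rw [← hr] at h3 h4 h5 ⊢
  have hr0 : 0 ≤ r := by rw [hr]; positivity
  have hr1 : (P:ℝ) ≤ r := by
    rw [hr]
    apply Real.le_sqrt_of_sq_le
    nlinarith
  have hr2 : r ≤ n / 10 ^ 9 := by
    rw [hr]
    rw [Real.sqrt_le_left (by positivity)]
    have : (n / 10 ^ 9 : ℝ) ^ 2 = n * (n / 10 ^ 18) := by ring
    rw [this]
    have h6 : (P:ℝ) ≤ n / 10 ^ 18 := by rw [le_div_iff₀ (by positivity)]; linarith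
    nlinarith
  have hD : (10:ℝ) ^ 5 ≤ D := by exact_mod_cast h.D1
  have h1' : (N : ℝ) + (D + 1) * A = Xc := by exact_mod_cast h1
  have h2' : (Xc : ℝ) ≤ n + 1 := by exact_mod_cast h2
  have hA0 : (0:ℝ) ≤ A := by positivity
  have hA : (A:ℝ) ≤ r / 1000 + 1 := by
    by_contra hc
    push Not at hc
    nlinarith
  refine ⟨?_, ?_, ?_, ?_⟩ <;> nlinarith

theorem h4_eta_etad {n : ℕ} (hn : 0 < n) {s : ℝ} (hs : 0 ≤ s) : eta n (((n:ℝ) - s) / 2) = etad n s := by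
  unfold eta etad
  have hn' : (0:ℝ) < n := by exact_mod_cast hn
  have h1 : ((n:ℝ) - s) / 2 / n - 1 / 2 = -(s / (2 * n)) := by field_simp; ring
  rw [h1, abs_neg, abs_of_nonneg (by positivity)]
  congr 1
  field_simp
  ring

theorem h4_pos_cast {n x : ℕ} (hx : x ≤ n) : (pos n x : ℝ) = x ∨ (pos n x : ℝ) = n - x := by
  unfold pos
  rcases le_total x (n - x) with h | h
  · left; rw [min_eq_left h]
  · right; rw [min_eq_right h, Nat.cast_sub hx]

theorem h4_pos_le {n x : ℕ} : 2 * pos n x ≤ n := by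
  unfold pos; omega

theorem h4_eta_pos {n x : ℕ} (hn : 0 < n) (hx : x ≤ n) : eta n (pos n x) = eta n x := by
  rcases h4_pos_cast hx with h | h
  · rw [h]
  · rw [h, eta_symm hn]

theorem h4_Bf_pos {n x : ℕ} (hn : 0 < n) (hx : x ≤ n) : Bf n (pos n x) = Bf n x := by
  rcases h4_pos_cast hx with h | h
  · rw [h]
  · rw [h, Bf_symm hn]

theorem h4_mem_XC {n P x : ℕ} {X : Finset ℕ} (hX : X ⊆ range (n + 1)) (hx : x ∈ X) :
    x ∈ XC n P X ↔ 25 * P ≤ pos n x := by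
  have h1 := mem_range.1 (hX hx)
  unfold XC pos
  rw [mem_filter]
  constructor
  · rintro ⟨_, h2, h3⟩; omega
  · intro h2; exact ⟨hx, by omega, by omega⟩

theorem h4_mem_XR {n x : ℕ} {X : Finset ℕ} (hX : X ⊆ range (n + 1)) (hx : x ∈ X) :
    x ∈ XR n X ↔ 34 * n ≤ 100 * pos n x := by
  have h1 := mem_range.1 (hX hx)
  unfold XR pos
  rw [mem_filter]
  constructor
  · rintro ⟨_, h2, h3⟩; omega
  · intro h2; exact ⟨hx, by omega, by omega⟩

theorem h4_lin_zero {n : ℕ} (hn : 0 < n) {s : ℝ} (hs : 100 * s ≤ 69 * n) : lin n s = 0 := by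
  unfold lin cl01
  have hn' : (0:ℝ) < n := by exact_mod_cast hn
  have : 100 * (s / n) - 69 ≤ 0 := by
    have : 100 * (s / n) ≤ 69 := by
      rw [← mul_div_assoc, div_le_iff₀ hn']; exact hs
    linarith
  rw [min_eq_right (by linarith), max_eq_left this]

theorem h4_lin_nonneg {n : ℕ} {s : ℝ} : 0 ≤ lin n s := le_max_left _ _

theorem h4_eta_range {n : ℕ} {s : ℝ} : 0 ≤ eta n s ∧ eta n s ≤ 1 := cl01_range _

theorem h4_etad_range {n : ℕ} {s : ℝ} : 0 ≤ etad n s ∧ etad n s ≤ 1 := cl01_range _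

/-- the label profile plus the label load of the spread leaves -/
theorem h4_labX {n P w D : ℕ} {t μ e ξ t1 : ℝ} (h : Prm n P w D t μ e) (ht1 : t1 = 1000 * (t + w / P))
    (hξ : 0 ≤ ξ) {x : ℕ} (hx : x ≤ n) (hx2 : 25 * P ≤ pos n x) {c l : ℝ}
    (hc : c ≤ Psi n P e ξ (2 * (pos n x : ℝ)) - e * Bf n x + 100 * t1)
    (hl : l ≤ 65 / 100 * e * eta n x + e * t) :
    c + l + Real.sqrt (22 * P / pos n x) - 1 / 20 * Real.sqrt (44 * P / pos n x) ≤ 1 ∧
    c + l ≤ 1 + Real.sqrt μ := by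
  obtain ⟨g1, g2, g3, g4, g5, g6, g7⟩ := h4_num h ht1
  have hn := h.hn
  have hx0 : (0:ℝ) < pos n x := by
    have : (25:ℝ) * P ≤ pos n x := by exact_mod_cast hx2
    linarith
  have hx3 : 2 * (pos n x : ℝ) ≤ n := by exact_mod_cast (h4_pos_le (n := n) (x := x))
  have e1 : Real.sqrt (22 * P / pos n x) = Real.sqrt (44 * P / (2 * (pos n x : ℝ))) := by
    congr 1; field_simp; ring
  have e2 : Real.sqrt (44 * P / pos n x) = Real.sqrt 2 * Real.sqrt (44 * P / (2 * (pos n x : ℝ))) := by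
    rw [← Real.sqrt_mul (by norm_num)]
    congr 1; field_simp
  obtain ⟨r, hr⟩ : ∃ r : ℝ, r = Real.sqrt (44 * P / (2 * (pos n x : ℝ))) := ⟨_, rfl⟩
  have hr1 : Real.sqrt μ ≤ r := by
    rw [hr]; exact h4_sqrt h (by linarith) hx3
  have hr2 : r ≤ 1 := by
    rw [hr]
    apply h4_sqrt1 g6
    have : (25:ℝ) * P ≤ pos n x := by exact_mod_cast hx2
    linarith
  have hs2 : (14:ℝ) / 10 ≤ Real.sqrt 2 := by
    apply Real.le_sqrt_of_sq_le; norm_num
  have hPsi : Psi n P e ξ (2 * (pos n x : ℝ)) ≤ (1 - r) * (1 - 65 / 100 * e * eta n x) + e * Bf n x := by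
    unfold Psi phi
    rw [← hr]
    have e3 : 2 * (pos n x : ℝ) / 2 = pos n x := by ring
    rw [e3, h4_eta_pos hn hx, h4_Bf_pos hn hx]
    have : 0 ≤ ξ * lin n (2 * (pos n x : ℝ)) := mul_nonneg hξ h4_lin_nonneg
    linarith
  obtain ⟨hη0, hη1⟩ := h4_eta_range (n := n) (s := (x:ℝ))
  have he0 := h.e0
  have he1 := h.e1
  have het : e * t ≤ Real.sqrt μ / 1000 := by nlinarith
  have h1 : 65 / 100 * e * eta n x ≤ 1 / 1000 := by nlinarith
  have h1' : 0 ≤ 65 / 100 * e * eta n x := by positivity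
  rw [e1, e2, ← hr]
  obtain ⟨q, hq⟩ : ∃ q : ℝ, q = 65 / 100 * e * eta n x := ⟨_, rfl⟩
  rw [← hq] at hPsi hl h1 h1'
  have hr0 : 0 ≤ r := by linarith
  have h2 : q * r ≤ 1 / 1000 * r := mul_le_mul_of_nonneg_right h1 hr0
  have h3 : 14 / 10 * r ≤ Real.sqrt 2 * r := mul_le_mul_of_nonneg_right hs2 hr0
  constructor
  · nlinarith
  · nlinarith

/-- the difference profile plus the difference load of the spread leaves -/
theorem h4_difS_up {n P w D : ℕ} {t μ e ξ t1 : ℝ} (h : Prm n P w D t μ e) (ht1 : t1 = 1000 * (t + w / P))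
    (hξ : 0 ≤ ξ) {s : ℕ} (hs1 : s + 50 * P ≤ n) {c l : ℝ}
    (hc : c ≤ Psi n P e ξ ((n : ℝ) - s) - e * Bf n (((n : ℝ) - s) / 2) + 100 * t1)
    (hl : l ≤ 65 / 100 * e * etad n s + e * t) :
    c + l ≤ 1 + Real.sqrt μ ∧ 8 / 10 * Real.sqrt (44 * P / ((n : ℝ) - s)) ≤ 1 - c - l := by
  obtain ⟨g1, g2, g3, g4, g5, g6, g7⟩ := h4_num h ht1
  have hn := h.hn
  have hs2 : (s:ℝ) + 50 * P ≤ n := by exact_mod_cast hs1
  have hs0 : (0:ℝ) ≤ s := by positivity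
  obtain ⟨r, hr⟩ : ∃ r : ℝ, r = Real.sqrt (44 * P / ((n : ℝ) - s)) := ⟨_, rfl⟩
  have hr1 : Real.sqrt μ ≤ r := by
    rw [hr]; exact h4_sqrt h (by linarith) (by linarith)
  have hr2 : r ≤ 1 := by
    rw [hr]
    exact h4_sqrt1 g6 (by linarith)
  have hPsi : Psi n P e ξ ((n : ℝ) - s) ≤ (1 - r) * (1 - 65 / 100 * e * etad n s) + e * Bf n (((n : ℝ) - s) / 2) := by
    unfold Psi phi
    rw [← hr, h4_eta_etad hn hs0]
    have : 0 ≤ ξ * lin n ((n : ℝ) - s) := mul_nonneg hξ h4_lin_nonneg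
    linarith
  obtain ⟨hη0, hη1⟩ := h4_etad_range (n := n) (s := (s:ℝ))
  have he0 := h.e0
  have he1 := h.e1
  have het : e * t ≤ Real.sqrt μ / 1000 := by nlinarith
  have h1 : 65 / 100 * e * etad n s ≤ 1 / 1000 := by nlinarith
  have h1' : 0 ≤ 65 / 100 * e * etad n s := by positivity
  rw [← hr]
  obtain ⟨q, hq⟩ : ∃ q : ℝ, q = 65 / 100 * e * etad n s := ⟨_, rfl⟩
  rw [← hq] at hPsi hl h1 h1'
  have hr0 : 0 ≤ r := by linarith
  have h2 : q * r ≤ 1 / 1000 * r := mul_le_mul_of_nonneg_right h1 hr0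
  constructor
  · nlinarith
  · nlinarith

theorem h4_difS_lo {n P w D : ℕ} {t μ e ξ t1 : ℝ} (h : Prm n P w D t μ e) (ht1 : t1 = 1000 * (t + w / P))
    {s : ℕ} (hs1 : s + 50 * P ≤ n) (hs3 : 31 * n < 100 * s) {c l : ℝ}
    (hc : Psi n P e ξ ((n : ℝ) - s) - e * Bf n (((n : ℝ) - s) / 2) - 100 * t1 ≤ c)
    (hl : 65 / 100 * e * etad n s - 10 * e * t ≤ l) :
    1 - c - l ≤ 101 / 100 * Real.sqrt (44 * P / ((n : ℝ) - s)) := by
  obtain ⟨g1, g2, g3, g4, g5, g6, g7⟩ := h4_num h ht1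
  have hn := h.hn
  have hs2 : (s:ℝ) + 50 * P ≤ n := by exact_mod_cast hs1
  have hs0 : (0:ℝ) ≤ s := by positivity
  have hs4 : 31 * (n:ℝ) < 100 * s := by exact_mod_cast hs3
  obtain ⟨r, hr⟩ : ∃ r : ℝ, r = Real.sqrt (44 * P / ((n : ℝ) - s)) := ⟨_, rfl⟩
  have hr1 : Real.sqrt μ ≤ r := by
    rw [hr]; exact h4_sqrt h (by linarith) (by linarith)
  have hPsi : Psi n P e ξ ((n : ℝ) - s) = (1 - r) * (1 - 65 / 100 * e * etad n s) + e * Bf n (((n : ℝ) - s) / 2) := by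
    unfold Psi phi
    rw [← hr, h4_eta_etad hn hs0, h4_lin_zero hn (by linarith)]
    ring
  obtain ⟨hη0, hη1⟩ := h4_etad_range (n := n) (s := (s:ℝ))
  have he0 := h.e0
  have he1 := h.e1
  have h1' : 0 ≤ 65 / 100 * e * etad n s := by positivity
  rw [← hr]
  obtain ⟨q, hq⟩ : ∃ q : ℝ, q = 65 / 100 * e * etad n s := ⟨_, rfl⟩
  rw [← hq] at hPsi hl h1'
  have hr0 : 0 ≤ r := by linarith
  have h2 : 0 ≤ q * r := by positivity
  nlinarith

theorem h4_Pr_eq (L : FL) (P : (ℕ → ℕ) → Prop) [DecidablePred P] :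
    L.Pr P = L.Ex fun φ => if P φ then 1 else 0 := by
  unfold FL.Pr
  congr 1
  funext φ
  congr

theorem h4_Pr_sum (L : FL) (C : Finset ℕ) (g : (ℕ → ℕ) → ℕ) (h : ∀ ω, L.wt ω ≠ 0 → g (L.Φ ω) ∈ C)
    (h1 : L.Ex (fun _ => 1) = 1) : ∑ c ∈ C, L.Pr (fun φ => g φ = c) = 1 := by
  simp_rw [h4_Pr_eq]
  rw [← FL.Ex_sum38]
  refine Eq.trans (L.Ex_congr38 fun ω hω => ?_) h1
  rw [Finset.sum_ite_eq, if_pos (h ω hω)]

theorem h4_Pr_zero (L : FL) (P : (ℕ → ℕ) → Prop) (h : ∀ ω, L.wt ω ≠ 0 → ¬ P (L.Φ ω)) : L.Pr P = 0 := by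
  classical
  rw [h4_Pr_eq]
  unfold FL.Ex
  refine Finset.sum_eq_zero fun ω _ => ?_
  by_cases hw : L.wt ω = 0
  · rw [hw, zero_mul]
  · beta_reduce
    rw [if_neg (h ω hw), mul_zero]

theorem h4_Pr_filter (L : FL) (C : Finset ℕ) (v : ℕ) (Pd : ℕ → Prop) [DecidablePred Pd]
    (h : ∀ ω, L.wt ω ≠ 0 → L.Φ ω v ∈ C) :
    L.Pr (fun φ => Pd (φ v)) = ∑ c ∈ C.filter Pd, L.Pr (fun φ => φ v = c) := by
  rw [h4_Pr_eq]
  rw [L.Ex_label38 h (fun y => if Pd y then 1 else 0)]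
  rw [Finset.sum_filter]
  refine Finset.sum_congr rfl fun y _ => ?_
  split_ifs <;> simp

section tot

variable {n P w D : ℕ} {t μ e ξ t1 κ N : ℝ} {p lab : ℕ → ℕ} {R X S T : Finset ℕ} {Q ex F ST : ℕ → Finset ℕ}
  {k : ℕ → ℕ → ℝ} {π : ℕ → ℝ} {L0 : ℕ → FL}

theorem h4_mm_zero (hB : BG n P w p lab R X S T Q ex F t1 κ k π L0) {y : ℕ} (hy : y ∉ XC n P X) :
    mm p T F L0 y = 0 := by
  unfold mm
  refine Finset.sum_eq_zero fun τ hτ => Finset.sum_eq_zero fun u hu => ?_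
  refine h4_Pr_zero _ _ fun ω hω h => hy ?_
  have := (hB.law τ hτ).xc ω hω (p u) (hB.pF τ hτ u hu)
  rwa [h] at this

theorem h4_R0_zero (h : Prm n P w D t μ e) (hL : Loc n P w t X S) {y : ℕ} (hy : y ∉ XC n P X) :
    R0 n X S e y = 0 := by
  by_cases hyX : y ∈ X
  · obtain ⟨g1, g2, g3, g4, g5, g6, g7⟩ := Prm_cons h
    refine (q0_row h hL).2.2.2 y ?_
    unfold XC at hy
    rw [mem_filter] at hy
    push Not at hy
    have := hy hyX
    by_contra hc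
    push Not at hc
    have := this (by omega)
    omega
  · unfold R0 rowS
    refine Finset.sum_eq_zero fun z _ => ?_
    by_contra hne
    exact hyX ((q0_basic h).1 y z hne).1

theorem h4_sum_mm (hB : BG n P w p lab R X S T Q ex F t1 κ k π L0) :
    ∑ y ∈ X, mm p T F L0 y = ((∑ τ ∈ T, (F τ).card : ℕ) : ℝ) := by
  unfold mm
  rw [Finset.sum_comm]
  push_cast
  refine Finset.sum_congr rfl fun τ hτ => ?_
  rw [Finset.sum_comm, Finset.card_eq_sum_ones]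
  push_cast
  refine Finset.sum_congr rfl fun u hu => ?_
  exact h4_Pr_sum (L0 τ) X (fun φ => φ (p u))
    (fun ω hω => (hB.law τ hτ).law.lbl ω hω _ (hB.pF τ hτ u hu)) (hB.law τ hτ).law.one

theorem h4_sum_mk (h : Prm n P w D t μ e) (hL : Loc n P w t X S)
    (hk : Kr n P w X S e ξ t1 κ N k π)
    (hB : BG n P w p lab R X S T Q ex F t1 κ k π L0) :
    ∑ y ∈ X, ∑ x ∈ X, (mm p T F L0 y - R0 n X S e y) * k y x =
      ((∑ τ ∈ T, (F τ).card : ℕ) : ℝ) - ∑ y ∈ X, rowS X (q0f n X S e) y := by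
  rw [← h4_sum_mm hB, ← Finset.sum_sub_distrib]
  refine Finset.sum_congr rfl fun y _ => ?_
  rw [← Finset.mul_sum]
  by_cases hy : y ∈ XC n P X
  · rw [hk.one y hy, mul_one]; rfl
  · have h1 := h4_mm_zero hB hy
    have h2 := h4_R0_zero h hL hy
    have h3 : rowS X (q0f n X S e) y = 0 := h2
    rw [h1, h2, h3]; ring

theorem h4_tot_chX (h : Prm n P w D t μ e) (hL : Loc n P w t X S)
    (hk : Kr n P w X S e ξ t1 κ N k π)
    (hB : BG n P w p lab R X S T Q ex F t1 κ k π L0) :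
    ∑ x ∈ X, chX n p X S T Q F e k L0 x + ∑ x ∈ X, labS X (q0f n X S e) x =
      ((∑ τ ∈ T, ((Q τ).card + (F τ).card) : ℕ) : ℝ) := by
  rw [h34_sum_labS]
  unfold chX
  rw [Finset.sum_add_distrib]
  have h1 : ∑ x ∈ X, ∑ y ∈ X, (mm p T F L0 y - R0 n X S e y) * k y x =
      ((∑ τ ∈ T, (F τ).card : ℕ) : ℝ) - ∑ y ∈ X, rowS X (q0f n X S e) y := by
    rw [Finset.sum_comm]; exact h4_sum_mk h hL hk hB
  have h2 : ∑ x ∈ X, ∑ τ ∈ T, ∑ v ∈ Q τ, (L0 τ).Pr (fun φ => φ v = x) = ((∑ τ ∈ T, (Q τ).card : ℕ) : ℝ) := by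
    rw [Finset.sum_comm]
    push_cast
    refine Finset.sum_congr rfl fun τ hτ => ?_
    rw [Finset.sum_comm, Finset.card_eq_sum_ones]
    push_cast
    refine Finset.sum_congr rfl fun v hv => ?_
    exact h4_Pr_sum (L0 τ) X (fun φ => φ v)
      (fun ω hω => (hB.law τ hτ).law.lbl ω hω _ hv) (hB.law τ hτ).law.one
  rw [h1, h2, Finset.sum_add_distrib]
  push_cast
  ring

theorem h4_tot_chS (h : Prm n P w D t μ e) (hL : Loc n P w t X S)
    (hk : Kr n P w X S e ξ t1 κ N k π)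
    (hB : BG n P w p lab R X S T Q ex F t1 κ k π L0) :
    ∑ s ∈ S, chS n p X S T Q ex F e k L0 s + ∑ s ∈ S, difS X (q0f n X S e) s =
      ((∑ τ ∈ T, ((Q τ).card + (ex τ).card + (F τ).card) : ℕ) : ℝ) := by
  rw [h34_sum_difS X S _ (q0_basic h).1]
  unfold chS
  rw [Finset.sum_add_distrib]
  have h1 : ∑ s ∈ S, ∑ y ∈ X, ∑ x ∈ X, (if ad y x = s then (mm p T F L0 y - R0 n X S e y) * k y x else 0) =
      ((∑ τ ∈ T, (F τ).card : ℕ) : ℝ) - ∑ y ∈ X, rowS X (q0f n X S e) y := by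
    rw [← h4_sum_mk h hL hk hB]
    rw [Finset.sum_comm]
    refine Finset.sum_congr rfl fun y _ => ?_
    rw [Finset.sum_comm]
    refine Finset.sum_congr rfl fun x _ => ?_
    rw [Finset.sum_ite_eq]
    by_cases hr : k y x = 0
    · simp [hr]
    · rw [if_pos (hk.ksupp y x hr).2.2.1]
  have h2 : ∑ s ∈ S, ∑ τ ∈ T, ∑ i ∈ Q τ ∪ ex τ, (L0 τ).Pr (fun φ => ad (φ i) (φ (p i)) = s) =
      ((∑ τ ∈ T, ((Q τ).card + (ex τ).card) : ℕ) : ℝ) := by
    rw [Finset.sum_comm]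
    push_cast
    refine Finset.sum_congr rfl fun τ hτ => ?_
    rw [Finset.sum_comm]
    have h3 : ((Q τ).card : ℝ) + (ex τ).card = ((Q τ ∪ ex τ).card : ℕ) := by
      rw [Finset.card_union_of_disjoint]
      · push_cast; rfl
      · exact (hB.geo τ hτ).PR.mono_right (hB.geo τ hτ).exR
    rw [h3, Finset.card_eq_sum_ones]
    push_cast
    refine Finset.sum_congr rfl fun v hv => ?_
    exact h4_Pr_sum (L0 τ) S (fun φ => ad (φ v) (φ (p v)))
      (fun ω hω => (hB.law τ hτ).law.df ω hω _ hv) (hB.law τ hτ).law.one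
  rw [h1, h2, Finset.sum_add_distrib, Finset.sum_add_distrib, Finset.sum_add_distrib]
  push_cast
  ring

theorem h4_tot_slx {I : Finset ℕ} {lf : ℕ → Finset ℕ} {M : ℕ → ℕ → ℝ} {κs : ℕ → ℕ → FL}
    (hlf : ∀ c ∈ I, (lf c).card = D)
    (hM1 : ∀ c ∈ I, ∑ y ∈ X, M c y = 1) (hMX : ∀ c ∈ I, ∀ y, M c y ≠ 0 → y ∈ XC n P X)
    (hUK : ∀ c ∈ I, ∀ y ∈ XC n P X, UK p X S (insert c (lf c)) (p c) y (50 / w) (κs c y)) :
    ∑ z ∈ X, slx X I lf M κs z = (D + 1) * (I.card : ℝ) := by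
  unfold slx
  rw [Finset.sum_comm, Finset.card_eq_sum_ones]
  push_cast
  rw [Finset.mul_sum]
  refine Finset.sum_congr rfl fun c hc => ?_
  rw [Finset.sum_comm, mul_one]
  have h1 : ∀ y ∈ X, ∑ z ∈ X, M c y * ((κs c y).Pr (fun φ => φ c = z) + ∑ l ∈ lf c, (κs c y).Pr (fun φ => φ l = z)) =
      M c y * (D + 1) := by
    intro y _
    rw [← Finset.mul_sum]
    by_cases hM : M c y = 0
    · rw [hM]; ring
    congr 1
    have hU := hUK c hc y (hMX c hc y hM)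
    rw [Finset.sum_add_distrib, Finset.sum_comm]
    rw [h4_Pr_sum (κs c y) X (fun φ => φ c) (fun ω hω => hU.lbl ω hω c (mem_insert_self _ _)) hU.one]
    rw [Finset.sum_congr rfl fun l hl => h4_Pr_sum (κs c y) X (fun φ => φ l)
      (fun ω hω => hU.lbl ω hω l (mem_insert_of_mem hl)) hU.one]
    rw [Finset.sum_const, hlf c hc]
    simp; ring
  rw [Finset.sum_congr rfl h1, ← Finset.sum_mul, hM1 c hc, one_mul]

theorem h4_tot_sdl {I : Finset ℕ} {lf : ℕ → Finset ℕ} {M : ℕ → ℕ → ℝ} {κs : ℕ → ℕ → FL}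
    (hlf : ∀ c ∈ I, (lf c).card = D ∧ c ∉ lf c ∧ p c ≠ c ∧ ∀ l ∈ lf c, p l = c)
    (hM1 : ∀ c ∈ I, ∑ y ∈ X, M c y = 1) (hMX : ∀ c ∈ I, ∀ y, M c y ≠ 0 → y ∈ XC n P X)
    (hUK : ∀ c ∈ I, ∀ y ∈ XC n P X, UK p X S (insert c (lf c)) (p c) y (50 / w) (κs c y)) :
    ∑ s ∈ S, sdl X I lf M κs s = (D + 1) * (I.card : ℝ) := by
  unfold sdl
  rw [Finset.sum_comm, Finset.card_eq_sum_ones]
  push_cast
  rw [Finset.mul_sum]
  refine Finset.sum_congr rfl fun c hc => ?_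
  rw [Finset.sum_comm, mul_one]
  have h1 : ∀ y ∈ X, ∑ s ∈ S, M c y * ((κs c y).Pr (fun φ => ad (φ c) y = s) +
      ∑ l ∈ lf c, (κs c y).Pr (fun φ => ad (φ l) (φ c) = s)) = M c y * (D + 1) := by
    intro y _
    rw [← Finset.mul_sum]
    by_cases hM : M c y = 0
    · rw [hM]; ring
    congr 1
    have hU := hUK c hc y (hMX c hc y hM)
    rw [Finset.sum_add_distrib, Finset.sum_comm]
    rw [h4_Pr_sum (κs c y) S (fun φ => ad (φ c) y) (fun ω hω => by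
      have := hU.df ω hω c (mem_insert_self _ _)
      rwa [if_pos rfl] at this) hU.one]
    rw [Finset.sum_congr rfl fun l hl => h4_Pr_sum (κs c y) S (fun φ => ad (φ l) (φ c))
      (fun ω hω => by
        have := hU.df ω hω l (mem_insert_of_mem hl)
        rwa [(hlf c hc).2.2.2 l hl, if_neg (hlf c hc).2.2.1.symm] at this) hU.one]
    rw [Finset.sum_const, (hlf c hc).1]
    simp; ring
  rw [Finset.sum_congr rfl h1, ← Finset.sum_mul, hM1 c hc, one_mul]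

theorem h4_slx_nonneg {I : Finset ℕ} {lf : ℕ → Finset ℕ} {M : ℕ → ℕ → ℝ} {κs : ℕ → ℕ → FL}
    (hM0 : ∀ c ∈ I, ∀ y, 0 ≤ M c y) (hMX : ∀ c ∈ I, ∀ y, M c y ≠ 0 → y ∈ XC n P X)
    (hUK : ∀ c ∈ I, ∀ y ∈ XC n P X, UK p X S (insert c (lf c)) (p c) y (50 / w) (κs c y)) (z : ℕ) :
    0 ≤ slx X I lf M κs z := by
  unfold slx
  refine Finset.sum_nonneg fun c hc => Finset.sum_nonneg fun y _ => ?_
  by_cases hM : M c y = 0
  · rw [hM]; simp
  · have hU := hUK c hc y (hMX c hc y hM)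
    exact mul_nonneg (hM0 c hc y) (add_nonneg (FL.Pr_nonneg38 _ hU.nn _)
      (Finset.sum_nonneg fun l _ => FL.Pr_nonneg38 _ hU.nn _))

theorem h4_sdl_nonneg {I : Finset ℕ} {lf : ℕ → Finset ℕ} {M : ℕ → ℕ → ℝ} {κs : ℕ → ℕ → FL}
    (hM0 : ∀ c ∈ I, ∀ y, 0 ≤ M c y) (hMX : ∀ c ∈ I, ∀ y, M c y ≠ 0 → y ∈ XC n P X)
    (hUK : ∀ c ∈ I, ∀ y ∈ XC n P X, UK p X S (insert c (lf c)) (p c) y (50 / w) (κs c y)) (z : ℕ) :
    0 ≤ sdl X I lf M κs z := by
  unfold sdl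
  refine Finset.sum_nonneg fun c hc => Finset.sum_nonneg fun y _ => ?_
  by_cases hM : M c y = 0
  · rw [hM]; simp
  · have hU := hUK c hc y (hMX c hc y hM)
    exact mul_nonneg (hM0 c hc y) (add_nonneg (FL.Pr_nonneg38 _ hU.nn _)
      (Finset.sum_nonneg fun l _ => FL.Pr_nonneg38 _ hU.nn _))

end tot

instance h4_FL : Nonempty FL := ⟨⟨PUnit, inferInstance, fun _ => 0, fun _ _ => 0⟩⟩

theorem h4_sum_mul_mm {p : ℕ → ℕ} {T X : Finset ℕ} {F : ℕ → Finset ℕ} {L0 : ℕ → FL} (g : ℕ → ℝ) :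
    ∑ τ ∈ T, ∑ u ∈ F τ, ∑ y ∈ X, (L0 τ).Pr (fun φ => φ (p u) = y) * g y = ∑ y ∈ X, mm p T F L0 y * g y := by
  unfold mm
  simp_rw [Finset.sum_mul]
  rw [Finset.sum_comm (s := X)]
  refine Finset.sum_congr rfl fun τ _ => ?_
  rw [Finset.sum_comm]

theorem h4_final {n P w D : ℕ} {p lab : ℕ → ℕ} {R X S T : Finset ℕ} {Q ex F ST lf : ℕ → Finset ℕ}
    {L0 : ℕ → FL} {κf κs : ℕ → ℕ → FL} {af : ℕ → ℕ → ℝ} (hn : 0 < n)
    (hgeo : ∀ τ ∈ T, PGeo D p R (Q τ) (ex τ) (F τ) (ST τ) lf τ)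
    (hlaw : ∀ τ ∈ T, PD n p R lab X S (Q τ) (ex τ) (50 * n / w) (L0 τ))
    (hxc : ∀ τ ∈ T, ∀ ω, (L0 τ).wt ω ≠ 0 → ∀ v ∈ Q τ, (L0 τ).Φ ω v ∈ XC n P X)
    (hκf : ∀ τ ∈ T, ∀ u ∈ F τ, ∀ y ∈ XC n P X, UK p X S {u} (p u) y (50 / w) (κf u y))
    (hκf2 : ∀ τ ∈ T, ∀ u ∈ F τ, ∀ y ∈ XC n P X, ∀ f : ℕ → ℝ,
      (κf u y).Ex (fun φ => f (φ u)) = ∑ z ∈ X, af y z * f z)
    (hκs : ∀ τ ∈ T, ∀ c ∈ ST τ, ∀ y ∈ XC n P X, UK p X S (insert c (lf c)) (p c) y (50 / w) (κs c y)) :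
    ∃ L : ℕ → FL,
      (∀ τ ∈ T, PD n p R lab X S (Q τ ∪ F τ ∪ (ST τ).biUnion (fun c => insert c (lf c))) (ex τ)
        (50 * n / w) (L τ)) ∧
      (∀ x ∈ X, ∑ τ ∈ T, ∑ v ∈ Q τ ∪ F τ ∪ (ST τ).biUnion (fun c => insert c (lf c)),
          (L τ).Pr (fun φ => φ v = x) =
        ∑ τ ∈ T, ∑ v ∈ Q τ, (L0 τ).Pr (fun φ => φ v = x) + ∑ y ∈ X, mm p T F L0 y * af y x +
         ∑ τ ∈ T, ∑ c ∈ ST τ, ∑ y ∈ X, (L0 τ).Pr (fun φ => φ (p c) = y) *
          ((κs c y).Pr (fun φ => φ c = x) + ∑ l ∈ lf c, (κs c y).Pr (fun φ => φ l = x))) ∧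
      (∀ s, ∑ τ ∈ T, ∑ i ∈ Q τ ∪ F τ ∪ (ST τ).biUnion (fun c => insert c (lf c)) ∪ ex τ,
          (L τ).Pr (fun φ => ad (φ i) (φ (p i)) = s) =
        ∑ τ ∈ T, ∑ i ∈ Q τ ∪ ex τ, (L0 τ).Pr (fun φ => ad (φ i) (φ (p i)) = s) +
         ∑ y ∈ X, mm p T F L0 y * (∑ z ∈ X, af y z * if ad z y = s then 1 else 0) +
         ∑ τ ∈ T, ∑ c ∈ ST τ, ∑ y ∈ X, (L0 τ).Pr (fun φ => φ (p c) = y) *
          ((κs c y).Pr (fun φ => ad (φ c) y = s) +
            ∑ l ∈ lf c, (κs c y).Pr (fun φ => ad (φ l) (φ c) = s))) := by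
  have hn0 : (n:ℝ) ≠ 0 := by exact_mod_cast hn.ne'
  have hU : (50 * (n:ℝ) / w) / n = 50 / w := by field_simp
  obtain ⟨W, hW⟩ : ∃ W : ℕ → ℕ → Finset ℕ, ∀ τ i, W τ i = if i ∈ F τ then {i} else insert i (lf i) :=
    ⟨_, fun _ _ => rfl⟩
  obtain ⟨K, hK⟩ : ∃ K : ℕ → ℕ → ℕ → FL, ∀ τ i y, K τ i y = if i ∈ F τ then κf i y else κs i y :=
    ⟨_, fun _ _ _ => rfl⟩
  -- disjointness facts
  have hFS : ∀ τ ∈ T, ∀ c ∈ ST τ, c ∉ F τ := fun τ hτ c hc hcF =>
    Finset.disjoint_left.1 (hgeo τ hτ).dS hc (mem_union_right _ hcF)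
  have hWF : ∀ τ ∈ T, ∀ u ∈ F τ, W τ u = {u} := fun τ _ u hu => by rw [hW, if_pos hu]
  have hWS : ∀ τ ∈ T, ∀ c ∈ ST τ, W τ c = insert c (lf c) := fun τ hτ c hc => by
    rw [hW, if_neg (hFS τ hτ c hc)]
  have hpQ : ∀ τ ∈ T, ∀ v ∈ Q τ, p v ∈ Q τ ∪ R := by
    intro τ hτ v hv
    rw [mem_union]
    by_cases h : v = τ
    · right; rw [h]; exact (hgeo τ hτ).geo.tR
    · left; exact (hgeo τ hτ).geo.st v hv h
  have hcl : ∀ τ ∈ T, ∀ c ∈ ST τ, c ∉ lf c := fun τ hτ c hc h =>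
    Finset.disjoint_left.1 ((hgeo τ hτ).dL c hc) h (mem_union_right _ hc)
  have hFn : ∀ τ ∈ T, ∀ u ∈ F τ, u ∉ Q τ ∪ R := fun τ hτ u hu =>
    Finset.disjoint_left.1 (hgeo τ hτ).dF hu
  have hSn : ∀ τ ∈ T, ∀ u ∈ ST τ, u ∉ Q τ ∪ R := fun τ hτ u hu h =>
    Finset.disjoint_left.1 (hgeo τ hτ).dS hu (mem_union_left _ h)
  have hln : ∀ τ ∈ T, ∀ c ∈ ST τ, ∀ l ∈ lf c, l ∉ Q τ ∪ R ∧ l ∉ F τ ∧ l ∉ ST τ := by
    intro τ hτ c hc l hl
    have := Finset.disjoint_left.1 ((hgeo τ hτ).dL c hc) hl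
    rw [mem_union, mem_union] at this
    push Not at this
    exact ⟨this.1.1, this.1.2, this.2⟩
  have hext : ∀ τ ∈ T, ∃ L : FL,
      PD n p R lab X S (Q τ ∪ (F τ ∪ ST τ).biUnion (W τ)) (ex τ) (50 * n / w) L ∧
      (∀ f : (ℕ → ℕ) → ℝ, (∀ φ ψ : ℕ → ℕ, (∀ j ∈ Q τ ∪ R, φ j = ψ j) → f φ = f ψ) → L.Ex f = (L0 τ).Ex f) ∧
      ∀ i ∈ F τ ∪ ST τ, ∀ f : ℕ → (ℕ → ℕ) → ℝ,
        (∀ y, ∀ φ ψ : ℕ → ℕ, (∀ j ∈ W τ i, φ j = ψ j) → f y φ = f y ψ) →
        L.Ex (fun φ => f (φ (p i)) φ) =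
          (L0 τ).Ex (fun φ => (K τ i (φ (p i))).Ex (fun ψ => f (φ (p i)) ψ)) := by
    intro τ hτ
    refine ext_units (Y := XC n P X) (by positivity) (L0 τ) (hlaw τ hτ) (hgeo τ hτ).geo.PR (hpQ τ hτ)
      (hgeo τ hτ).geo.exR (fun r hr => ((hgeo τ hτ).geo.exP r hr).1) (hxc τ hτ) (F τ ∪ ST τ) p (W τ) (K τ)
      ?_ ?_ ?_ ?_ ?_
    · intro i hi
      rcases mem_union.1 hi with h | h
      · exact (hgeo τ hτ).pF i h
      · exact (hgeo τ hτ).pS i h
    · intro i hi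
      rw [Finset.disjoint_left]
      intro j hj
      rcases mem_union.1 hi with h | h
      · rw [hWF τ hτ i h, mem_singleton] at hj
        rw [hj]; exact hFn τ hτ i h
      · rw [hWS τ hτ i h, mem_insert] at hj
        rcases hj with rfl | hj
        · exact hSn τ hτ _ h
        · exact (hln τ hτ i h j hj).1
    · intro i hi j hj hij
      rw [Finset.disjoint_left]
      intro v hv hv'
      rcases mem_union.1 hi with h | h
      · rw [hWF τ hτ i h, mem_singleton] at hv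
        subst hv
        rcases mem_union.1 hj with h' | h'
        · rw [hWF τ hτ j h', mem_singleton] at hv'
          exact hij hv'
        · rw [hWS τ hτ j h', mem_insert] at hv'
          rcases hv' with hv' | hv'
          · exact hij hv'
          · exact (hln τ hτ j h' v hv').2.1 h
      · rw [hWS τ hτ i h, mem_insert] at hv
        rcases mem_union.1 hj with h' | h'
        · rw [hWF τ hτ j h', mem_singleton] at hv'
          subst hv'
          rcases hv with hv | hv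
          · exact hij hv.symm
          · exact (hln τ hτ i h v hv).2.1 h'
        · rw [hWS τ hτ j h', mem_insert] at hv'
          rcases hv with rfl | hv
          · rcases hv' with hv' | hv'
            · exact hij hv'
            · exact (hln τ hτ j h' _ hv').2.2 h
          · rcases hv' with rfl | hv'
            · exact (hln τ hτ i h _ hv).2.2 h'
            · exact hij (by rw [← ((hgeo τ hτ).hlf i h).2 v hv, ← ((hgeo τ hτ).hlf j h').2 v hv'])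
    · intro i hi v hv
      rcases mem_union.1 hi with h | h
      · rw [hWF τ hτ i h, mem_singleton] at hv
        left; rw [hv]
      · rw [hWS τ hτ i h] at hv ⊢
        rcases mem_insert.1 hv with rfl | hv
        · left; rfl
        · right; rw [((hgeo τ hτ).hlf i h).2 v hv]; exact mem_insert_self _ _
    · intro i hi y hy
      rw [hU]
      rcases mem_union.1 hi with h | h
      · rw [hWF τ hτ i h, hK, if_pos h]; exact hκf τ hτ i h y hy
      · rw [hWS τ hτ i h, hK, if_neg (hFS τ hτ i h)]; exact hκs τ hτ i h y hy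
  choose! L hL hLold hLnew using hext
  have hset : ∀ τ ∈ T, Q τ ∪ (F τ ∪ ST τ).biUnion (W τ) =
      Q τ ∪ F τ ∪ (ST τ).biUnion (fun c => insert c (lf c)) := by
    intro τ hτ
    rw [union_assoc]
    congr 1
    rw [Finset.union_biUnion]
    congr 1
    · ext v
      rw [mem_biUnion]
      constructor
      · rintro ⟨u, hu, hv⟩
        rw [hWF τ hτ u hu, mem_singleton] at hv
        rw [hv]; exact hu
      · intro hv
        exact ⟨v, hv, by rw [hWF τ hτ v hv]; exact mem_singleton_self v⟩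
    · exact Finset.biUnion_congr rfl fun c hc => hWS τ hτ c hc
  have hsum : ∀ τ ∈ T, ∀ g : ℕ → ℝ, ∑ v ∈ Q τ ∪ F τ ∪ (ST τ).biUnion (fun c => insert c (lf c)), g v =
      ∑ v ∈ Q τ, g v + ∑ u ∈ F τ, g u + ∑ c ∈ ST τ, (g c + ∑ l ∈ lf c, g l) := by
    intro τ hτ g
    rw [Finset.sum_union, Finset.sum_union, Finset.sum_biUnion]
    · congr 1
      refine Finset.sum_congr rfl fun c hc => ?_
      rw [Finset.sum_insert (hcl τ hτ c hc)]
    · intro c hc c' hc' hne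
      have h1 : Disjoint (insert c (lf c)) (insert c' (lf c')) := by
        rw [Finset.disjoint_left]
        intro v hv hv'
        rw [mem_insert] at hv hv'
        rcases hv with rfl | hv
        · rcases hv' with hv' | hv'
          · exact hne hv'
          · exact (hln τ hτ c' hc' _ hv').2.2 hc
        · rcases hv' with rfl | hv'
          · exact (hln τ hτ c hc _ hv).2.2 hc'
          · exact hne (by rw [← ((hgeo τ hτ).hlf c hc).2 v hv, ← ((hgeo τ hτ).hlf c' hc').2 v hv'])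
      exact h1
    · rw [Finset.disjoint_right]
      intro v hv hvQ
      exact hFn τ hτ v hv (mem_union_left _ hvQ)
    · rw [Finset.disjoint_right]
      intro v hv hvQ
      rw [mem_biUnion] at hv
      obtain ⟨c, hc, hv⟩ := hv
      rw [mem_insert] at hv
      rcases hv with rfl | hv
      · rcases mem_union.1 hvQ with h | h
        · exact hSn τ hτ _ hc (mem_union_left _ h)
        · exact hFS τ hτ _ hc h
      · rcases mem_union.1 hvQ with h | h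
        · exact (hln τ hτ c hc v hv).1 (mem_union_left _ h)
        · exact (hln τ hτ c hc v hv).2.1 h
  have hsum' : ∀ τ ∈ T, ∀ g : ℕ → ℝ,
      ∑ v ∈ Q τ ∪ F τ ∪ (ST τ).biUnion (fun c => insert c (lf c)) ∪ ex τ, g v =
      ∑ v ∈ Q τ ∪ ex τ, g v + ∑ u ∈ F τ, g u + ∑ c ∈ ST τ, (g c + ∑ l ∈ lf c, g l) := by
    intro τ hτ g
    have hexR := (hgeo τ hτ).geo.exR
    rw [Finset.sum_union, hsum τ hτ, Finset.sum_union]
    · ring
    · exact (hgeo τ hτ).geo.PR.mono_right hexR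
    · rw [Finset.disjoint_left]
      intro v hv hvx
      have hvR := hexR hvx
      rcases mem_union.1 hv with h | h
      · rcases mem_union.1 h with h | h
        · exact Finset.disjoint_left.1 (hgeo τ hτ).geo.PR h hvR
        · exact hFn τ hτ v h (mem_union_right _ hvR)
      · rw [mem_biUnion] at h
        obtain ⟨c, hc, hv⟩ := h
        rw [mem_insert] at hv
        rcases hv with rfl | hv
        · exact hSn τ hτ _ hc (mem_union_right _ hvR)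
        · exact (hln τ hτ c hc v hv).1 (mem_union_right _ hvR)
  -- expansion over the label of the parent
  have hexp : ∀ τ ∈ T, ∀ i ∈ F τ ∪ ST τ, ∀ f : ℕ → (ℕ → ℕ) → ℝ,
      (∀ y, ∀ φ ψ : ℕ → ℕ, (∀ j ∈ W τ i, φ j = ψ j) → f y φ = f y ψ) →
      (L τ).Ex (fun φ => f (φ (p i)) φ) =
        ∑ y ∈ X, (L0 τ).Pr (fun φ => φ (p i) = y) * (K τ i y).Ex (fun ψ => f y ψ) := by
    intro τ hτ i hi f hf
    rw [hLnew τ hτ i hi f hf]
    refine (L0 τ).Ex_label38 (X := X) (w := p i) (fun ω hω => ?_)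
      (fun y => (K τ i y).Ex (fun ψ => f y ψ))
    refine (hlaw τ hτ).lbl ω hω _ ?_
    rcases mem_union.1 hi with h | h
    · exact (hgeo τ hτ).pF i h
    · exact (hgeo τ hτ).pS i h
  have hP0 : ∀ τ ∈ T, ∀ v ∈ Q τ, ∀ y, y ∉ XC n P X → (L0 τ).Pr (fun φ => φ v = y) = 0 := by
    intro τ hτ v hv y hy
    refine h4_Pr_zero _ _ fun ω hω h => hy ?_
    have := hxc τ hτ ω hω v hv
    rwa [h] at this
  -- flexible leaves
  have hflex : ∀ g : ℕ → ℕ → ℝ,
      ∑ τ ∈ T, ∑ u ∈ F τ, (L τ).Ex (fun φ => g (φ (p u)) (φ u)) =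
        ∑ y ∈ X, mm p T F L0 y * (∑ z ∈ X, af y z * g y z) := by
    intro g
    rw [← h4_sum_mul_mm]
    refine Finset.sum_congr rfl fun τ hτ => Finset.sum_congr rfl fun u hu => ?_
    rw [hexp τ hτ u (mem_union_left _ hu) (fun y φ => g y (φ u))
      (fun y φ ψ h => by rw [h u (by rw [hWF τ hτ u hu]; exact mem_singleton_self u)])]
    refine Finset.sum_congr rfl fun y _ => ?_
    by_cases hy : y ∈ XC n P X
    · rw [hK, if_pos hu, hκf2 τ hτ u hu y hy (fun z => g y z)]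
    · rw [hP0 τ hτ _ ((hgeo τ hτ).pF u hu) y hy, zero_mul, zero_mul]
  refine ⟨L, fun τ hτ => ?_, ?_, ?_⟩
  · rw [← hset τ hτ]; exact hL τ hτ
  · intro x hx
    rw [Finset.sum_congr rfl fun τ hτ => hsum τ hτ _, Finset.sum_add_distrib, Finset.sum_add_distrib]
    congr 1
    · congr 1
      · refine Finset.sum_congr rfl fun τ hτ => Finset.sum_congr rfl fun v hv => ?_
        rw [h4_Pr_eq, h4_Pr_eq]
        refine hLold τ hτ _ fun φ ψ h => ?_
        rw [h v (mem_union_left _ hv)]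
      · have h1 := hflex (fun _ z => if z = x then 1 else 0)
        simp_rw [h4_Pr_eq]
        rw [h1]
        refine Finset.sum_congr rfl fun y _ => ?_
        congr 1
        rw [Finset.sum_eq_single x]
        · rw [if_pos rfl, mul_one]
        · intro z _ hz; rw [if_neg hz, mul_zero]
        · intro h; exact absurd hx h
    · refine Finset.sum_congr rfl fun τ hτ => Finset.sum_congr rfl fun c hc => ?_
      have hcm : c ∈ F τ ∪ ST τ := mem_union_right _ hc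
      have hKc : ∀ y, K τ c y = κs c y := fun y => by rw [hK, if_neg (hFS τ hτ c hc)]
      have h1 : ∀ j ∈ insert c (lf c), (L τ).Pr (fun φ => φ j = x) =
          ∑ y ∈ X, (L0 τ).Pr (fun φ => φ (p c) = y) * (κs c y).Pr (fun φ => φ j = x) := by
        intro j hj
        rw [h4_Pr_eq, hexp τ hτ c hcm (fun _ φ => if φ j = x then 1 else 0)
          (fun y φ ψ h => by rw [h j (by rw [hWS τ hτ c hc]; exact hj)])]
        refine Finset.sum_congr rfl fun y _ => ?_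
        rw [hKc, h4_Pr_eq (κs c y)]
      rw [h1 c (mem_insert_self _ _), Finset.sum_congr rfl fun l hl => h1 l (mem_insert_of_mem hl),
        Finset.sum_comm, ← Finset.sum_add_distrib]
      refine Finset.sum_congr rfl fun y _ => ?_
      rw [mul_add, Finset.mul_sum]
  · intro s
    rw [Finset.sum_congr rfl fun τ hτ => hsum' τ hτ _, Finset.sum_add_distrib, Finset.sum_add_distrib]
    congr 1
    · congr 1
      · refine Finset.sum_congr rfl fun τ hτ => Finset.sum_congr rfl fun i hi => ?_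
        rw [h4_Pr_eq, h4_Pr_eq]
        refine hLold τ hτ _ fun φ ψ h => ?_
        have h4 : φ i = ψ i ∧ φ (p i) = ψ (p i) := by
          rcases Finset.mem_union.1 hi with h5 | h5
          · exact ⟨h i (Finset.mem_union_left _ h5), h _ (hpQ τ hτ i h5)⟩
          · exact ⟨h i (Finset.mem_union_right _ ((hgeo τ hτ).geo.exR h5)),
              h _ (Finset.mem_union_left _ ((hgeo τ hτ).geo.exP i h5).1)⟩
        rw [h4.1, h4.2]
      · have h1 := hflex (fun y z => if ad z y = s then 1 else 0)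
        rw [← h1]
        refine Finset.sum_congr rfl fun τ hτ => Finset.sum_congr rfl fun u hu => ?_
        rw [h4_Pr_eq]
    · refine Finset.sum_congr rfl fun τ hτ => Finset.sum_congr rfl fun c hc => ?_
      have hcm : c ∈ F τ ∪ ST τ := mem_union_right _ hc
      have hKc : ∀ y, K τ c y = κs c y := fun y => by rw [hK, if_neg (hFS τ hτ c hc)]
      have h1 : (L τ).Pr (fun φ => ad (φ c) (φ (p c)) = s) =
          ∑ y ∈ X, (L0 τ).Pr (fun φ => φ (p c) = y) * (κs c y).Pr (fun φ => ad (φ c) y = s) := by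
        rw [h4_Pr_eq, hexp τ hτ c hcm (fun y φ => if ad (φ c) y = s then 1 else 0)
          (fun y φ ψ h => by rw [h c (by rw [hWS τ hτ c hc]; exact mem_insert_self _ _)])]
        refine Finset.sum_congr rfl fun y _ => ?_
        rw [hKc, h4_Pr_eq (κs c y)]
      have h2 : ∀ l ∈ lf c, (L τ).Pr (fun φ => ad (φ l) (φ (p l)) = s) =
          ∑ y ∈ X, (L0 τ).Pr (fun φ => φ (p c) = y) * (κs c y).Pr (fun φ => ad (φ l) (φ c) = s) := by
        intro l hl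
        rw [((hgeo τ hτ).hlf c hc).2 l hl]
        rw [h4_Pr_eq, hexp τ hτ c hcm (fun _ φ => if ad (φ l) (φ c) = s then 1 else 0)
          (fun y φ ψ h => by rw [h c (by rw [hWS τ hτ c hc]; exact mem_insert_self _ _),
            h l (by rw [hWS τ hτ c hc]; exact mem_insert_of_mem hl)])]
        refine Finset.sum_congr rfl fun y _ => ?_
        rw [hKc, h4_Pr_eq (κs c y)]
      rw [h1, Finset.sum_congr rfl h2, Finset.sum_comm, ← Finset.sum_add_distrib]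
      refine Finset.sum_congr rfl fun y _ => ?_
      rw [mul_add, Finset.mul_sum]

theorem h4_Dns {n P w D : ℕ} {t μ e : ℝ} {X S : Finset ℕ} (h : Prm n P w D t μ e) (hL : Loc n P w t X S) :
    Dns n X S := by
  obtain ⟨g1, g2, g3, g4, g5, g6, g7⟩ := Prm_cons h
  have hn : (0:ℝ) < n := by exact_mod_cast h.hn
  have hw := h.w0
  have ht := h.t0
  have hsq : Real.sqrt μ ≤ 1 / 10 ^ 9 := g1
  have ht2 : t ≤ 1 / 10 ^ 23 := by
    have : 1 / 10 ^ 14 * Real.sqrt μ ≤ 1 / 10 ^ 14 * (1 / 10 ^ 9) :=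
      mul_le_mul_of_nonneg_left hsq (by positivity)
    have h2 : (1:ℝ) / 10 ^ 14 * (1 / 10 ^ 9) = 1 / 10 ^ 23 := by norm_num
    linarith
  have hwn : (w:ℝ) ≤ n := by
    have : w ≤ n := by omega
    exact_mod_cast this
  refine ⟨hL.X_sub, hL.S_sub, ?_, ?_⟩
  · have h1 := lc_X hL hw ht.le (by omega) (by omega) (a := (n + 99) / 100) (b := 99 * n / 100) (by omega)
      (by right; left; constructor <;> omega)
    have h2 : ((range (n + 1)).filter fun x => n ≤ 100 * x ∧ 100 * x ≤ 99 * n ∧ x ∉ X) ⊆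
        (Icc ((n + 99) / 100) (99 * n / 100)).filter (· ∉ X) := by
      intro x hx
      rw [mem_filter, mem_range] at hx
      rw [mem_filter, mem_Icc]
      refine ⟨⟨by omega, by omega⟩, hx.2.2.2⟩
    have h3 : (((range (n + 1)).filter fun x => n ≤ 100 * x ∧ 100 * x ≤ 99 * n ∧ x ∉ X).card : ℝ) ≤
        t * (((99 * n / 100 : ℕ) : ℝ) - (((n + 99) / 100 : ℕ) : ℝ) + w) :=
      le_trans (by exact_mod_cast card_le_card h2) h1
    have h4 : ((99 * n / 100 : ℕ) : ℝ) ≤ n := by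
      have : 99 * n / 100 ≤ n := by omega
      exact_mod_cast this
    have h5 : (0:ℝ) ≤ (((n + 99) / 100 : ℕ) : ℝ) := by positivity
    have h6 : (10000:ℝ) * ((range (n + 1)).filter fun x => n ≤ 100 * x ∧ 100 * x ≤ 99 * n ∧ x ∉ X).card ≤ n := by
      have h7 : t * (((99 * n / 100 : ℕ) : ℝ) - (((n + 99) / 100 : ℕ) : ℝ) + w) ≤ t * (2 * n) :=
        mul_le_mul_of_nonneg_left (by linarith) ht.le
      have h8 : t * (2 * n) ≤ 1 / 10 ^ 23 * (2 * n) := mul_le_mul_of_nonneg_right ht2 (by positivity)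
      have h9 : (10000:ℝ) * (1 / 10 ^ 23 * (2 * n)) ≤ n := by linarith
      linarith
    exact_mod_cast h6
  · have h1 := lc_S hL hw ht.le (by omega) (by omega) (a := 1) (b := n / 3) le_rfl (by omega)
      (by omega)
    have h2 : ((Icc 1 n).filter fun d => 3 * d ≤ n ∧ d ∉ S) ⊆ (Icc 1 (n / 3)).filter (· ∉ S) := by
      intro x hx
      rw [mem_filter, mem_Icc] at hx
      rw [mem_filter, mem_Icc]
      refine ⟨⟨by omega, by omega⟩, hx.2.2⟩
    have h3 : (((Icc 1 n).filter fun d => 3 * d ≤ n ∧ d ∉ S).card : ℝ) ≤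
        t * (((n / 3 : ℕ) : ℝ) - ((1 : ℕ) : ℝ) + w) :=
      le_trans (by exact_mod_cast card_le_card h2) h1
    have h4 : ((n / 3 : ℕ) : ℝ) ≤ n := by
      have : n / 3 ≤ n := by omega
      exact_mod_cast this
    have h6 : (10000:ℝ) * ((Icc 1 n).filter fun d => 3 * d ≤ n ∧ d ∉ S).card ≤ n := by
      have h7 : t * (((n / 3 : ℕ) : ℝ) - ((1 : ℕ) : ℝ) + w) ≤ t * (2 * n) :=
        mul_le_mul_of_nonneg_left (by push_cast; linarith) ht.le
      have h8 : t * (2 * n) ≤ 1 / 10 ^ 23 * (2 * n) := mul_le_mul_of_nonneg_right ht2 (by positivity)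
      have h9 : (10000:ℝ) * (1 / 10 ^ 23 * (2 * n)) ≤ n := by linarith
      linarith
    exact_mod_cast h6

/-- the law of a flexible leaf given the label of its parent -/
theorem h4_af {n P w D : ℕ} {t μ e ξ t1 κ N ε : ℝ} {X S : Finset ℕ} {k : ℕ → ℕ → ℝ} {π : ℕ → ℝ}
    {m : ℕ → ℝ} {q : ℕ → ℕ → ℝ} (h : Prm n P w D t μ e) (hL : Loc n P w t X S)
    (hk : Kr n P w X S e ξ t1 κ N k π) (hε : 0 < ε) (hwε : 1000 * (w : ℝ) ≤ ε * n)
    (hm : ∀ y, R0 n X S e y ≤ m y) (hm2 : ∀ y ∈ X, 5 * n ≤ 1000 * y → 1000 * y ≤ 995 * n → ε / 4 ≤ m y)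
    (hq1 : AdmS X S q) (hq2 : ∀ y z, 0 ≤ q y z) (hq3 : ∀ y z, q y z ≤ q0f n X S e y z + 30 / n)
    (hq4 : ∀ y ∈ X, rowS X q y = rowS X (q0f n X S e) y)
    (hq5 : ∀ y z, q y z ≠ q0f n X S e y z → 3 * n ≤ 100 * y ∧ 100 * y ≤ 97 * n) :
    ∃ af : ℕ → ℕ → ℝ, (∀ y z, 0 ≤ af y z) ∧ (∀ y z, af y z ≤ 50 / w) ∧
      (∀ y ∈ XC n P X, ∑ z ∈ X, af y z = 1) ∧ (∀ y z, af y z ≠ 0 → ad z y ∈ S) ∧
      (∀ y ∈ X, ∀ z, m y * af y z = q y z + (m y - R0 n X S e y) * k y z) := by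
  have hn : (0:ℝ) < n := by exact_mod_cast h.hn
  have hw : (0:ℝ) < w := by exact_mod_cast h.w0
  obtain ⟨r1, r2, r3, r4⟩ := q0_row h hL
  obtain ⟨b1, b2, b3, b4⟩ := q0_basic h (X := X) (S := S)
  have hm0 : ∀ y, 0 ≤ m y := fun y => (r1 y).trans (hm y)
  have hq0z : ∀ y ∈ X, R0 n X S e y = 0 → ∀ z, q y z = 0 := by
    intro y hy hR z
    by_contra hne
    have hz := (hq1 y z hne).2.1
    have h1 : ∑ z ∈ X, q y z = 0 := (hq4 y hy).trans hR
    rw [Finset.sum_eq_zero_iff_of_nonneg (fun z _ => hq2 y z)] at h1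
    exact hne (h1 z hz)
  refine ⟨fun y z => if m y = 0 then k y z else q y z / m y + (1 - R0 n X S e y / m y) * k y z,
    ?_, ?_, ?_, ?_, ?_⟩
  · intro y z
    dsimp only
    split_ifs with hy
    · exact hk.knn y z
    · have hpos : 0 < m y := lt_of_le_of_ne (hm0 y) (Ne.symm hy)
      have h1 : R0 n X S e y / m y ≤ 1 := by rw [div_le_one hpos]; exact hm y
      exact add_nonneg (div_nonneg (hq2 y z) hpos.le) (mul_nonneg (by linarith) (hk.knn y z))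
  · intro y z
    dsimp only
    have hk2 := hk.up y z
    have hk0 := hk.knn y z
    have h50 : (25:ℝ) / w ≤ 50 / w := by gcongr; norm_num
    split_ifs with hy
    · linarith
    · have hpos : 0 < m y := lt_of_le_of_ne (hm0 y) (Ne.symm hy)
      have h1 : (1 - R0 n X S e y / m y) * k y z ≤ 25 / w := by
        have : 0 ≤ R0 n X S e y / m y := div_nonneg (r1 y) hpos.le
        nlinarith
      have h2 : q y z / m y ≤ 25 / w := by
        by_cases hqz : q y z = 0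
        · rw [hqz, zero_div]; positivity
        · have hyX := (hq1 y z hqz).1
          have hrange : 5 * n ≤ 1000 * y ∧ 1000 * y ≤ 995 * n := by
            by_cases hqq : q y z = q0f n X S e y z
            · have := b4 y z (by rw [← hqq]; exact hqz)
              exact ⟨this.1, this.2.1⟩
            · have := hq5 y z hqq
              constructor <;> omega
          have h3 := hm2 y hyX hrange.1 hrange.2
          have h4 : q y z ≤ 31 / n := by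
            have h5 := hq3 y z
            have h6 := (b2 y z).2
            have h7 : e / n ≤ 1 / n := by
              gcongr
              linarith [h.e1]
            have h8 : (31:ℝ) / n = 1 / n + 30 / n := by ring
            rw [h8]; linarith
          calc q y z / m y ≤ (31 / n) / (ε / 4) := by gcongr
            _ = 124 / (ε * n) := by field_simp; ring
            _ ≤ 124 / (1000 * w) := by gcongr
            _ ≤ 25 / w := by
              rw [div_le_div_iff₀ (by positivity) hw]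
              nlinarith
      have h3 : (50:ℝ) / w = 25 / w + 25 / w := by ring
      rw [h3]
      linarith
  · intro y hy
    have hyX : y ∈ X := (mem_filter.1 hy).1
    dsimp only
    split_ifs with hmy
    · exact hk.one y hy
    · rw [Finset.sum_add_distrib, ← Finset.mul_sum, hk.one y hy, ← Finset.sum_div]
      have h1 : ∑ z ∈ X, q y z = R0 n X S e y := hq4 y hyX
      rw [h1]; ring
  · intro y z haf
    dsimp only at haf
    rw [ad_comm]
    by_cases hkz : k y z = 0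
    · rw [hkz] at haf
      by_cases hqz : q y z = 0
      · rw [hqz] at haf
        simp at haf
      · exact (hq1 y z hqz).2.2
    · exact (hk.ksupp y z hkz).2.2.1
  · intro y hy z
    dsimp only
    split_ifs with hmy
    · have hR : R0 n X S e y = 0 := le_antisymm (hmy ▸ hm y) (r1 y)
      rw [hmy, hR, hq0z y hy hR z]; ring
    · field_simp

theorem lawsG : ∃ c1 : ℝ, 0 < c1 ∧ ∃ n0 : ℕ, ∀ (n P w D : ℕ) (t μ e ε : ℝ) (p lab : ℕ → ℕ) (R X S T : Finset ℕ)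
    (Q ex F ST lf : ℕ → Finset ℕ), n0 ≤ n → Prm n P w D t μ e → Real.sqrt μ ≤ c1 * e → 0 < ε → 4 * e ≤ ε →
    100 * t ≤ ε → 1000 * (w : ℝ) ≤ ε * n → Loc n P w t X S →
    (∀ τ ∈ T, PGeo D p R (Q τ) (ex τ) (F τ) (ST τ) lf τ) →
    (∀ τ ∈ T, ∀ τ' ∈ T, τ ≠ τ' → Disjoint (ST τ) (ST τ')) →
    (∀ τ ∈ T, Ctr n (lab (p τ))) → (∀ τ ∈ T, ∀ r ∈ ex τ, Ctr n (lab r)) →
    (T.card : ℝ) ≤ t * n → (n : ℝ) - Real.sqrt (P * n) / 10 ≤ (X.card : ℝ) →
    ∑ τ ∈ T, ((Q τ).card + (F τ).card + (D + 1) * (ST τ).card) = X.card →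
    ∑ τ ∈ T, ((Q τ).card + (ex τ).card + (F τ).card + (D + 1) * (ST τ).card) = S.card →
    24 * Real.sqrt (P * n) ≤ D * ((∑ τ ∈ T, (ST τ).card : ℕ) : ℝ) →
    D * ((∑ τ ∈ T, (ST τ).card : ℕ) : ℝ) ≤ 24 * Real.sqrt (P * n) + D →
    ε / 2 * n ≤ ((∑ τ ∈ T, (F τ).card : ℕ) : ℝ) →
    ∃ L : ℕ → FL,
      (∀ τ ∈ T, PD n p R lab X S (Q τ ∪ F τ ∪ (ST τ).biUnion (fun c => insert c (lf c))) (ex τ) (50 * n / w) (L τ)) ∧
      (∀ x ∈ X, ∑ τ ∈ T, ∑ v ∈ Q τ ∪ F τ ∪ (ST τ).biUnion (fun c => insert c (lf c)),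
        (L τ).Pr (fun φ => φ v = x) ≤ 1) ∧
      (∀ s ∈ S, ∑ τ ∈ T, ∑ i ∈ Q τ ∪ F τ ∪ (ST τ).biUnion (fun c => insert c (lf c)) ∪ ex τ,
        (L τ).Pr (fun φ => ad (φ i) (φ (p i)) = s) ≤ 1) := by
  obtain ⟨c0, hc0, nL, hlp⟩ := lpMain
  refine ⟨c0 / (2 * 10 ^ 5), by positivity, nL, ?_⟩
  intro n P w D t μ e ε p lab R X S T Q ex F ST lf hn hPr hμe hε heε htε hwε hLoc hgeo hSTd hctr hctrx
    hT hXlo hsX hsS hA1 hA2 hF
  have hn0 := hPr.hn
  have hnr : (0:ℝ) < n := by exact_mod_cast hn0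
  have hXs := hLoc.X_sub
  obtain ⟨G1, G2, G3, G4, G5, G6, G7⟩ := Prm_cons hPr
  -- masses
  obtain ⟨A, hA⟩ : ∃ A : ℕ, A = ∑ τ ∈ T, (ST τ).card := ⟨_, rfl⟩
  obtain ⟨Nn, hNn⟩ : ∃ Nn : ℕ, Nn = ∑ τ ∈ T, ((Q τ).card + (F τ).card) := ⟨_, rfl⟩
  rw [← hA] at hA1 hA2
  have hNA : Nn + (D + 1) * A = X.card := by
    rw [← hsX, hNn, hA, Finset.mul_sum, ← Finset.sum_add_distrib]
  have hXcard : X.card ≤ n + 1 := by
    have := card_le_card hXs; rwa [card_range] at this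
  obtain ⟨hN1, hN2, hN3, hN4⟩ := h4_Nb hPr hNA hXcard hXlo hA1 hA2
  obtain ⟨ξ, hξ0, hξ2, hξN⟩ := xi_exists hPr (Nn : ℝ) hN1 hN2
  obtain ⟨k, π, κ, hk⟩ := kr_exists hPr hLoc hξ0 hξ2 hξN hN3 hN4
  obtain ⟨t1, ht1⟩ : ∃ t1 : ℝ, t1 = 1000 * (t + w / P) := ⟨_, rfl⟩
  rw [← ht1] at hk
  obtain ⟨a1, a2, a3, a4, a5, a6, a7⟩ := h4_num hPr ht1
  have hκ0 := hk.kpos
  have hpi : ∀ x, π x ≤ 1002 / 1000 * κ := by
    intro x
    by_cases hx : π x = 0
    · rw [hx]; positivity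
    · have hxC := hk.psupp x hx
      have hxX : x ∈ X := (mem_filter.1 hxC).1
      have h25 := (h4_mem_XC hXs hxX).1 hxC
      have h1 := hk.piUp x hxC
      have h25' : (25:ℝ) * P ≤ pos n x := by exact_mod_cast h25
      have h2 := Psi_up hPr hξ0 hξ2 (s := 2 * (pos n x : ℝ)) (by linarith)
        (by exact_mod_cast (h4_pos_le (n := n) (x := x)))
      refine h1.trans ?_
      nlinarith
  have hκn : κ ≤ 102 / 100 / n := by
    have h1 := (abs_le.1 hk.kN).2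
    rw [le_div_iff₀ hnr]
    nlinarith
  have hbase : ∀ τ ∈ T, ∃ L : FL, BLaw n P w p lab R X S (Q τ) (ex τ) τ t1 κ k π L := fun τ hτ =>
    base_lawG hk hXs hn0 hPr.w0 a1 a3 (fun x => (hpi x).trans (by linarith)) p lab R (Q τ) (ex τ) τ
      (hgeo τ hτ).geo (hctr τ hτ) (hctrx τ hτ)
  choose! L0 hL0 using hbase
  have hBG : BG n P w p lab R X S T Q ex F t1 κ k π L0 :=
    ⟨fun τ hτ => (hgeo τ hτ).geo, hL0, fun τ hτ => (hgeo τ hτ).pF, fun τ hτ => (hgeo τ hτ).iF⟩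
  have hNr : (Nn : ℝ) = ((∑ τ ∈ T, ((Q τ).card + (F τ).card) : ℕ) : ℝ) := by rw [hNn]
  obtain ⟨m1, m2, m3⟩ := mm_bounds hPr hLoc hξ0 hξ2 ht1 hk hBG hT hNr hN3 hN4 hε heε hF htε
  obtain ⟨x1, x2, x3⟩ := chX_up hPr hLoc hξ0 hξ2 ht1 hk hBG hT hNr hN3 hN4 m1
  obtain ⟨s1, s2, s3⟩ := chS_up hPr hLoc hξ0 hξ2 ht1 hk hBG hT hNr hN3 hN4 m1
  have s4 := chS_lo hPr hLoc hξ0 hξ2 ht1 hk hBG hT hNr hN3 hN4 m1
  obtain ⟨b1, b2, b3, b4⟩ := q0_basic hPr (X := X) (S := S)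
  have ql := q0_lab hPr (X := X) (S := S)
  obtain ⟨d1, d2, d3⟩ := q0_dif hPr hLoc
  have hlab0 : ∀ z, 0 ≤ labS X (q0f n X S e) z := fun z => Finset.sum_nonneg fun y _ => (b2 y z).1
  have hdif0 : ∀ d, 0 ≤ difS X (q0f n X S e) d := fun d =>
    Finset.sum_nonneg fun y _ => Finset.sum_nonneg fun z _ => by
      split_ifs
      · exact (b2 y z).1
      · exact le_rfl
  -- stars
  obtain ⟨I, hI⟩ : ∃ I : Finset ℕ, I = T.biUnion ST := ⟨_, rfl⟩
  have htau : ∀ c ∈ I, ∃ τ ∈ T, c ∈ ST τ := by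
    intro c hc; rw [hI, mem_biUnion] at hc; exact hc
  choose! tau htauT htauS using htau
  have hdisj : (T : Set ℕ).PairwiseDisjoint ST := fun τ hτ τ' hτ' hne => hSTd τ hτ τ' hτ' hne
  have htu : ∀ τ ∈ T, ∀ c ∈ ST τ, c ∈ I ∧ tau c = τ := by
    intro τ hτ c hc
    have hcI : c ∈ I := by rw [hI, mem_biUnion]; exact ⟨τ, hτ, hc⟩
    refine ⟨hcI, ?_⟩
    by_contra hne
    exact Finset.disjoint_left.1 (hSTd _ (htauT c hcI) τ hτ hne) (htauS c hcI) hc
  have hIcard : I.card = A := by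
    rw [hI, hA, card_biUnion hdisj]
  have hsumI : ∀ g : ℕ → ℕ → ℝ, ∑ c ∈ I, g (tau c) c = ∑ τ ∈ T, ∑ c ∈ ST τ, g τ c := by
    intro g
    rw [hI, Finset.sum_biUnion hdisj]
    refine Finset.sum_congr rfl fun τ hτ => Finset.sum_congr rfl fun c hc => ?_
    rw [(htu τ hτ c hc).2]
  obtain ⟨M, hM⟩ : ∃ M : ℕ → ℕ → ℝ, ∀ c y, M c y = (L0 (tau c)).Pr (fun φ => φ (p c) = y) :=
    ⟨_, fun _ _ => rfl⟩
  have hpcQ : ∀ c ∈ I, p c ∈ Q (tau c) := fun c hc => (hgeo _ (htauT c hc)).pS c (htauS c hc)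
  have hlfI : ∀ c ∈ I, (lf c).card = D ∧ c ∉ lf c ∧ p c ≠ c ∧ ∀ l ∈ lf c, p l = c := by
    intro c hc
    have hg := hgeo _ (htauT c hc)
    have hcS := htauS c hc
    refine ⟨(hg.hlf c hcS).1, fun h => ?_, fun h => ?_, (hg.hlf c hcS).2⟩
    · exact Finset.disjoint_left.1 (hg.dL c hcS) h (mem_union_right _ hcS)
    · have h1 := hpcQ c hc
      rw [h] at h1
      exact Finset.disjoint_left.1 hg.dS hcS (mem_union_left _ (mem_union_left _ h1))
  have hM0 : ∀ c ∈ I, ∀ y, 0 ≤ M c y := by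
    intro c hc y
    rw [hM]
    exact FL.Pr_nonneg38 _ (hL0 _ (htauT c hc)).law.nn _
  have hlblI : ∀ c ∈ I, ∀ ω, (L0 (tau c)).wt ω ≠ 0 → (L0 (tau c)).Φ ω (p c) ∈ X := fun c hc ω hω =>
    (hL0 _ (htauT c hc)).law.lbl ω hω _ (hpcQ c hc)
  have hM1 : ∀ c ∈ I, ∑ y ∈ X, M c y = 1 := by
    intro c hc
    simp_rw [hM]
    exact h4_Pr_sum _ X (fun φ => φ (p c)) (hlblI c hc) (hL0 _ (htauT c hc)).law.one
  have hMX : ∀ c ∈ I, ∀ y, M c y ≠ 0 → y ∈ XC n P X := by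
    intro c hc y hne
    by_contra hy
    apply hne
    rw [hM]
    refine h4_Pr_zero _ _ fun ω hω h => hy ?_
    have := (hL0 _ (htauT c hc)).xc ω hω _ (hpcQ c hc)
    rwa [h] at this
  have hMu : ∀ c ∈ I, ∀ y, M c y ≤ 11 / 10 / n := by
    intro c hc y
    rw [hM]
    refine ((hL0 _ (htauT c hc)).mUp _ (hpcQ c hc) y).trans ?_
    have h1 := hpi y
    have h2 : (1 + 8 * t1) * π y ≤ (1 + 8 * t1) * (1002 / 1000 * κ) :=
      mul_le_mul_of_nonneg_left h1 (by linarith)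
    have h3 : (1 + 8 * t1) * (1002 / 1000 * κ) ≤ 108 / 100 / (102 / 100) * κ := by
      have h5 : (1 + 8 * t1) * (1002 / 1000) ≤ 108 / 100 / (102 / 100) := by
        have : (1 + 8 * t1) ≤ 1008 / 1000 := by linarith
        have h6 : (1008:ℝ) / 1000 * (1002 / 1000) ≤ 108 / 100 / (102 / 100) := by norm_num
        nlinarith
      calc (1 + 8 * t1) * (1002 / 1000 * κ) = (1 + 8 * t1) * (1002 / 1000) * κ := by ring
        _ ≤ _ := mul_le_mul_of_nonneg_right h5 hκ0.le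
    have h4 : 108 / 100 / (102 / 100) * κ ≤ 108 / 100 / (102 / 100) * (102 / 100 / n) :=
      mul_le_mul_of_nonneg_left hκn (by positivity)
    have h5 : 108 / 100 / (102 / 100) * (102 / 100 / (n:ℝ)) = 108 / 100 / n := by field_simp
    have h6 : (108:ℝ) / 100 / n ≤ 11 / 10 / n := div_le_div_of_nonneg_right (by norm_num) hnr.le
    linarith
  have hlow : ∀ c ∈ I, 27 / 100 ≤ ∑ y ∈ X.filter (fun y => 10 * y ≤ 3 * n), M c y := by
    intro c hc
    simp_rw [hM]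
    rw [← h4_Pr_filter (L0 (tau c)) X (p c) (fun y => 10 * y ≤ 3 * n) (hlblI c hc)]
    exact (hL0 _ (htauT c hc)).low _ (hpcQ c hc)
  have hhigh : ∀ c ∈ I, 27 / 100 ≤ ∑ y ∈ X.filter (fun y => 7 * n ≤ 10 * y), M c y := by
    intro c hc
    simp_rw [hM]
    rw [← h4_Pr_filter (L0 (tau c)) X (p c) (fun y => 7 * n ≤ 10 * y) (hlblI c hc)]
    exact (hL0 _ (htauT c hc)).high _ (hpcQ c hc)
  obtain ⟨ρ, hρ⟩ : ∃ ρ : ℕ → ℝ, ∀ s, ρ s = 1 - chS n p X S T Q ex F e k L0 s - difS X (q0f n X S e) s :=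
    ⟨_, fun _ => rfl⟩
  have hr1 : ∀ s ∈ S, 31 * n < 100 * s → n < s + 50 * P → ρ s = 1 := by
    intro s hs _ h2
    rw [hρ, s3 s h2, d3 s (by omega)]; ring
  have hr2 : ∀ s ∈ S, 31 * n < 100 * s → s + 50 * P ≤ n →
      8 / 10 * Real.sqrt (44 * P / ((n : ℝ) - s)) ≤ ρ s := by
    intro s hs _ h2
    rw [hρ]
    exact (h4_difS_up hPr ht1 hξ0 h2 (s1 s hs h2) (d1 s)).2
  have hr3 : ∀ s ∈ S, 31 * n < 100 * s → ρ s ≤ 1 := by
    intro s _ _
    rw [hρ]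
    linarith [s2 s, hdif0 s]
  have hr4 : ∀ s ∈ S, 31 * n < 100 * s → s + 51 * P ≤ n →
      ρ s ≤ 101 / 100 * Real.sqrt (44 * P / ((n : ℝ) - s)) := by
    intro s hs h1 h2
    rw [hρ]
    exact h4_difS_lo hPr ht1 (by omega) h1 (s4 s hs (by omega)) (d2 s hs)
  rw [← hIcard] at hA1 hA2
  obtain ⟨κs, hUK, hsd1, hsd2, hsl1, hsl2, hsl3⟩ := star_all hPr hLoc hlfI hM0 hM1 hMX hMu hlow hhigh
    hA1 hA2 hr1 hr2 hr3 hr4
  have hslx0 := fun z => h4_slx_nonneg (lf := lf) hM0 hMX hUK z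
  have hsdl0 := fun z => h4_sdl_nonneg (lf := lf) hM0 hMX hUK z
  -- deviations
  obtain ⟨devX, hdX⟩ : ∃ devX : ℕ → ℝ, ∀ x, devX x = chX n p X S T Q F e k L0 x + slx X I lf M κs x +
      labS X (q0f n X S e) x - 1 := ⟨_, fun _ => rfl⟩
  obtain ⟨devS, hdS⟩ : ∃ devS : ℕ → ℝ, ∀ s, devS s = chS n p X S T Q ex F e k L0 s + sdl X I lf M κs s +
      difS X (q0f n X S e) s - 1 := ⟨_, fun _ => rfl⟩
  have hX1 : ∀ z ∈ X, -1 ≤ devX z := by
    intro z _
    rw [hdX]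
    linarith [x2 z, hslx0 z, hlab0 z]
  have hX2 : ∀ z ∈ X, z ∉ XR n X → devX z ≤ 0 := by
    intro z hz hzr
    have hzn : z ≤ n := by have := mem_range.1 (hXs hz); omega
    rw [h4_mem_XR hXs hz] at hzr
    push Not at hzr
    rw [hdX]
    by_cases h25 : 25 * P ≤ pos n z
    · have h1 := (h4_labX hPr ht1 hξ0 hzn h25 (x1 z ((h4_mem_XC hXs hz).2 h25)) (ql z)).1
      have h2 := hsl2 z hz h25 hzr
      linarith
    · push Not at h25
      have h1 := x3 z (fun h => by have := (h4_mem_XC hXs hz).1 h; omega)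
      have h2 := hsl1 z hz h25
      have h3 : labS X (q0f n X S e) z = 0 := by
        unfold labS
        refine Finset.sum_eq_zero fun y _ => ?_
        by_contra hne
        have := b4 y z hne
        unfold pos at h25
        omega
      rw [h1, h3]; linarith
  have hX3 : ∀ z ∈ XR n X, devX z ≤ c0 * e := by
    intro z hz
    have hzX : z ∈ X := (mem_filter.1 hz).1
    have hzn : z ≤ n := by have := mem_range.1 (hXs hzX); omega
    have h34 := (h4_mem_XR hXs hzX).1 hz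
    have h25 : 25 * P ≤ pos n z := by omega
    rw [hdX]
    have h1 := (h4_labX hPr ht1 hξ0 hzn h25 (x1 z ((h4_mem_XC hXs hzX).2 h25)) (ql z)).2
    have h2 := hsl3 z hzX h34
    have h3 : (2 * 10 ^ 5) * Real.sqrt μ ≤ c0 * e := by
      have h4 := mul_le_mul_of_nonneg_left hμe (show (0:ℝ) ≤ 2 * 10 ^ 5 by positivity)
      have h5 : (2 * 10 ^ 5 : ℝ) * (c0 / (2 * 10 ^ 5) * e) = c0 * e := by field_simp
      linarith
    linarith
  have hX4 : ∑ z ∈ X, devX z = 0 := by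
    simp_rw [hdX]
    rw [Finset.sum_sub_distrib, Finset.sum_add_distrib, Finset.sum_add_distrib,
      h4_tot_slx (w := w) (fun c hc => (hlfI c hc).1) hM1 hMX hUK]
    have h1 := h4_tot_chX hPr hLoc hk hBG
    rw [← hNr] at h1
    have h2 : (Nn:ℝ) + (D + 1) * A = X.card := by exact_mod_cast hNA
    rw [Finset.sum_const, nsmul_eq_mul, mul_one, hIcard]
    linarith
  have hS1 : ∀ d ∈ S, -1 ≤ devS d := by
    intro z _
    rw [hdS]
    linarith [s2 z, hsdl0 z, hdif0 z]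
  have hS2 : ∀ d ∈ S, d ∉ SR n S → devS d = 0 := by
    intro d hd hdr
    have h1 : 31 * n < 100 * d := by
      unfold SR at hdr
      rw [mem_filter] at hdr
      push Not at hdr
      exact hdr hd
    rw [hdS, hsd1 d hd h1, hρ]; ring
  have hS3 : ∀ d ∈ SR n S, devS d ≤ c0 * e := by
    intro d hd
    unfold SR at hd
    rw [mem_filter] at hd
    have h50 : d + 50 * P ≤ n := by omega
    rw [hdS]
    have h1 := (h4_difS_up hPr ht1 hξ0 h50 (s1 d hd.1 h50) (d1 d)).1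
    have h2 := hsd2 d hd.1 hd.2
    have h3 : (2 * 10 ^ 5) * Real.sqrt μ ≤ c0 * e := by
      have h4 := mul_le_mul_of_nonneg_left hμe (show (0:ℝ) ≤ 2 * 10 ^ 5 by positivity)
      have h5 : (2 * 10 ^ 5 : ℝ) * (c0 / (2 * 10 ^ 5) * e) = c0 * e := by field_simp
      linarith
    linarith
  have hS4 : ∑ d ∈ S, devS d = 0 := by
    simp_rw [hdS]
    rw [Finset.sum_sub_distrib, Finset.sum_add_distrib, Finset.sum_add_distrib,
      h4_tot_sdl (w := w) hlfI hM1 hMX hUK]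
    have h1 := h4_tot_chS hPr hLoc hk hBG
    have h2 : ((∑ τ ∈ T, ((Q τ).card + (ex τ).card + (F τ).card) : ℕ) : ℝ) + (D + 1) * A = S.card := by
      rw [← hsS, hA, Finset.sum_add_distrib (g := fun τ => (D + 1) * (ST τ).card), ← Finset.mul_sum]
      push_cast
      ring
    rw [Finset.sum_const, nsmul_eq_mul, mul_one, hIcard]
    linarith
  obtain ⟨q, c1, c2, c3, c4, c5, c6, c7⟩ := hlp n X S e (q0f n X S e) devX devS hn (h4_Dns hPr hLoc) hPr.e0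
    (by linarith [hPr.e1]) b1 (fun y z => (b2 y z).1) b3 hX1 hX2 hX3 hX4 hS1 hS2 hS3 hS4
  obtain ⟨af, af1, af2, af3, af4, af5⟩ := h4_af hPr hLoc hk hε hwε m1 m3 c1 c2 c3 c4 c7
  have hsing : ∀ u y, y ∈ XC n P X → ∃ L : FL, UK p X S {u} (p u) y (50 / w) L ∧
      ∀ f : ℕ → ℝ, L.Ex (fun φ => f (φ u)) = ∑ z ∈ X, af y z * f z := fun u y hy =>
    single_UK rfl (af y) (af1 y) (af2 y) (af3 y hy) (af4 y)
  choose! κf hκf1 hκf2 using hsing
  obtain ⟨L, hL1, hL2, hL3⟩ := h4_final (κs := κs) (κf := κf) (af := af) hn0 hgeo (fun τ hτ => (hL0 τ hτ).law)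
    (fun τ hτ => (hL0 τ hτ).xc) (fun τ _ u _ y hy => hκf1 u y hy) (fun τ _ u _ y hy => hκf2 u y hy)
    (fun τ hτ c hc y hy => hUK c (htu τ hτ c hc).1 y hy)
  refine ⟨L, hL1, ?_, ?_⟩
  · intro x hx
    rw [hL2 x hx]
    have e1 : ∑ y ∈ X, mm p T F L0 y * af y x =
        labS X q x + ∑ y ∈ X, (mm p T F L0 y - R0 n X S e y) * k y x := by
      unfold labS
      rw [← Finset.sum_add_distrib]
      exact Finset.sum_congr rfl fun y hy => af5 y hy x
    have e2 : ∑ τ ∈ T, ∑ c ∈ ST τ, ∑ y ∈ X, (L0 τ).Pr (fun φ => φ (p c) = y) *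
          ((κs c y).Pr (fun φ => φ c = x) + ∑ l ∈ lf c, (κs c y).Pr (fun φ => φ l = x)) =
        slx X I lf M κs x := by
      unfold slx
      simp_rw [hM]
      rw [hsumI (fun τ c => ∑ y ∈ X, (L0 τ).Pr (fun φ => φ (p c) = y) *
          ((κs c y).Pr (fun φ => φ c = x) + ∑ l ∈ lf c, (κs c y).Pr (fun φ => φ l = x)))]
    rw [e1, e2, c5 x hx, hdX]
    unfold chX
    linarith
  · intro s hs
    rw [hL3 s]
    have e1 : ∑ y ∈ X, mm p T F L0 y * (∑ z ∈ X, af y z * if ad z y = s then 1 else 0) =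
        difS X q s + ∑ y ∈ X, ∑ x ∈ X, (if ad y x = s then (mm p T F L0 y - R0 n X S e y) * k y x else 0) := by
      unfold difS
      rw [← Finset.sum_add_distrib]
      refine Finset.sum_congr rfl fun y hy => ?_
      rw [← Finset.sum_add_distrib, Finset.mul_sum]
      refine Finset.sum_congr rfl fun z _ => ?_
      rw [ad_comm z y]
      split_ifs
      · rw [mul_one]; exact af5 y hy z
      · ring
    have e2 : ∑ τ ∈ T, ∑ c ∈ ST τ, ∑ y ∈ X, (L0 τ).Pr (fun φ => φ (p c) = y) *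
          ((κs c y).Pr (fun φ => ad (φ c) y = s) +
            ∑ l ∈ lf c, (κs c y).Pr (fun φ => ad (φ l) (φ c) = s)) =
        sdl X I lf M κs s := by
      unfold sdl
      simp_rw [hM]
      rw [hsumI (fun τ c => ∑ y ∈ X, (L0 τ).Pr (fun φ => φ (p c) = y) *
          ((κs c y).Pr (fun φ => ad (φ c) y = s) +
            ∑ l ∈ lf c, (κs c y).Pr (fun φ => ad (φ l) (φ c) = s)))]
    rw [e1, e2, c6 s hs, hdS]
    unfold chS
    linarith

end Pool.Agent.GRC
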