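import Pool.Agent.Helper28.GRC.BLK

/-!
# GRC-N2B: leaf loads of the ramp stars

`lfH v` = load of the leaves with high coordinate `v` (centre low, `s' = v + centre`), `lfL v` = load of the leaves with low coordinate `v` (centre high).

Proof in words.  Terms with a nonempty set: `s' ∈ [β j, β (j+1))`, `s' - v = x ∈ Z`, `β j ≤ s' ≤ 1.002 β j`.
TYPE A (`β j < 20P` for `ZL`, `< 5P` for `ZH`; fixed zone `(z1, z2]`): `v + z1 < s' ≤ v + z2`, at most `(z2 - z1) + 1` values in all, each with weight `p sg2/|Z| ≤ p/(z2-z1-1)`.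
TYPE B (`Z = Icc (52 β/1000 + 1) (β/10)`): `10 (s'-v) ≤ β ≤ s'`, so `9 s' ≤ 10 v`; `1000 (s'-v) ≥ 52 β ≥ 52 s'/1.002`, so `s' ≥ 1.0547 v`; at most `0.05645 v + 1` values `s'`; `|Z| ≥ 0.048 β - 1 ≥ 0.0505 v - 1`
(`β ≥ s'/1.002 ≥ 1.0526 v`).  So the type B part is `≤ 1.118 p sg2` (max over the `β j` involved).
`lfH`: `v < 0.98 P`: all `s' ≤ v + 0.2P < 20P` (type A), the `s'` in blocks with `100 β < 105 P` are `< 1.0521 P` and `≥ P`: at most `0.0521 P + 1` of them with `p = 1`, the others have `p = 0.55`: total `≤ 0.41 + 0.55 (1+..)`; better: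
`≤ 0.55 + 0.45 · 0.0521/0.13 + small ≤ 0.74`.  `0.98P ≤ v < 18 P`: type A only, `p ≤ 0.55`... (for `v ≥ 0.98 P`, `s' > v + 0.07 P ≥ 1.05 P`, so the block has `100 β ≥ 105 P` or `s' < 1.0521P`; crude bound: at most `0.0021P + 1` values with `p = 1`), and
type B needs `s' ≥ 20P`, `v ≥ 0.9 s'`.  `18 P ≤ v < 25P`: type A has `p = 0.45` (`10P ≤ β < 20P`), type B has `p = 0.45` for `β < 23P`, else `1/2`; if a type A term exists then `v < 20.1 P`, `s' ≤ v/0.9 < 22.4P` in the type B terms:
total `≤ 0.45 + 0.45 · 1.118 + small ≤ 0.954`; otherwise type B only: `≤ 0.56`.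
`lfL`: type A needs `v < 5.01 P`, `p = 0.45` (or `0`); then the type B terms have `s' ≤ 5.6 P`, `p = 0.45`: total `≤ 0.954`.  Otherwise type B only, `p ≤ 0.55`: `≤ 0.62`.
`v ≥ 25 P`: only type B, `β ≥ 23 P`, `p = 1/2`: `≤ 0.559 sg2(β)`: if `β < 51P` for some term then `v ≤ 48.5P` and `√(44P/v) ≥ 0.952`; if all `β ≥ 51P`: `sg2 β ≤ √(44P/(1.0526 v)) ≤ 0.975 √(44P/v)`.
`lf = 0` for `v ≥ 0.655 n`: `s' ≥ 1.0547 v > 0.69 n + 1`.
-/

set_option autoImplicit false

namespace Pool.Agent.GRC

open Finset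

noncomputable def lfH (P J : ℕ) (β : ℕ → ℕ) (v : ℕ) : ℝ :=
  ∑ j ∈ range J, pH P (β j) * sg2 P (β j) *
    (((Ico (β j) (β (j + 1))).filter fun s => v ≤ s ∧ s - v ∈ ZL P (β j)).card : ℝ) / ((ZL P (β j)).card : ℝ)

noncomputable def lfL (P J : ℕ) (β : ℕ → ℕ) (v : ℕ) : ℝ :=
  ∑ j ∈ range J, (1 - pH P (β j)) * sg2 P (β j) *
    (((Ico (β j) (β (j + 1))).filter fun s => v ≤ s ∧ s - v ∈ ZH P (β j)).card : ℝ) / ((ZH P (β j)).card : ℝ)

section aux71

variable {n P J : ℕ} {β : ℕ → ℕ}

theorem Blk.le71 (hβ : Blk n P J β) {i j : ℕ} (hij : i ≤ j) (hj : j ≤ J) : β i ≤ β j := by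
  induction j, hij using Nat.le_induction with
  | base => exact le_rfl
  | succ j hij ih => exact (ih (by omega)).trans (hβ.mono j (by omega)).le

theorem count71 (hβ : Blk n P J β) (I : Finset ℕ) (hI : ∀ j ∈ I, j < J) (F : ℕ → ℕ → Prop)
    [∀ j, DecidablePred (F j)] (T : Finset ℕ)
    (hT : ∀ j ∈ I, ∀ s ∈ Ico (β j) (β (j + 1)), F j s → s ∈ T) :
    ∑ j ∈ I, ((Ico (β j) (β (j + 1))).filter (F j)).card ≤ T.card := by
  rw [← Finset.card_biUnion]
  · apply Finset.card_le_card
    intro s hs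
    rw [Finset.mem_biUnion] at hs
    obtain ⟨j, hj, hs⟩ := hs
    rw [Finset.mem_filter] at hs
    exact hT j hj s hs.1 hs.2
  · intro i hi j hj hij
    change Disjoint _ _
    rw [Finset.disjoint_left]
    intro s hs hs'
    rw [mem_filter, mem_Ico] at hs hs'
    rcases lt_or_gt_of_ne hij with h | h
    · have := hβ.le71 (show i + 1 ≤ j from h) (hI j hj).le
      omega
    · have := hβ.le71 (show j + 1 ≤ i from h) (hI i hi).le
      omega

theorem wsum71 (hβ : Blk n P J β) (I : Finset ℕ) (hI : ∀ j ∈ I, j < J) (F : ℕ → ℕ → Prop)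
    [∀ j, DecidablePred (F j)] (T : Finset ℕ)
    (hT : ∀ j ∈ I, ∀ s ∈ Ico (β j) (β (j + 1)), F j s → s ∈ T) (q z : ℕ → ℝ) {M c : ℝ}
    (hc : 0 < c) (hM : 0 ≤ M)
    (hq : ∀ j ∈ I, ∀ s ∈ Ico (β j) (β (j + 1)), F j s → q j ≤ M ∧ c ≤ z j) :
    ∑ j ∈ I, q j * (((Ico (β j) (β (j + 1))).filter (F j)).card : ℝ) / z j ≤ M * T.card / c := by
  have h1 : ∀ j ∈ I, q j * (((Ico (β j) (β (j + 1))).filter (F j)).card : ℝ) / z j ≤
      M / c * (((Ico (β j) (β (j + 1))).filter (F j)).card : ℝ) := by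
    intro j hj
    rcases Finset.eq_empty_or_nonempty ((Ico (β j) (β (j + 1))).filter (F j)) with h | ⟨s, hs⟩
    · rw [h]; simp
    · rw [Finset.mem_filter] at hs
      obtain ⟨h2, h3⟩ := hq j hj s hs.1 hs.2
      have h4 : (0 : ℝ) ≤ (((Ico (β j) (β (j + 1))).filter (F j)).card : ℝ) := by positivity
      have hz : 0 < z j := lt_of_lt_of_le hc h3
      calc q j * (((Ico (β j) (β (j + 1))).filter (F j)).card : ℝ) / z j
          ≤ M * (((Ico (β j) (β (j + 1))).filter (F j)).card : ℝ) / z j := by gcongr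
        _ ≤ M * (((Ico (β j) (β (j + 1))).filter (F j)).card : ℝ) / c := by gcongr
        _ = M / c * (((Ico (β j) (β (j + 1))).filter (F j)).card : ℝ) := by ring
  refine (Finset.sum_le_sum h1).trans ?_
  rw [← Finset.mul_sum]
  have h5 := count71 hβ I hI F T hT
  have h6 : (∑ j ∈ I, (((Ico (β j) (β (j + 1))).filter (F j)).card : ℝ)) ≤ T.card := by
    exact_mod_cast h5
  calc M / c * ∑ j ∈ I, (((Ico (β j) (β (j + 1))).filter (F j)).card : ℝ)
      ≤ M / c * T.card := mul_le_mul_of_nonneg_left h6 (by positivity)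
    _ = M * T.card / c := by ring

/-- fixed zone below `τ`, proportional zone above -/
structure Dat71 (τ : ℕ) (A : Finset ℕ) (Z : ℕ → Finset ℕ) : Prop where
  ZA : ∀ b, b < τ → Z b = A
  ZB : ∀ b, τ ≤ b → Z b = Icc (52 * b / 1000 + 1) (b / 10)
  Apos : 0 < A.card

theorem Blk.mem71 (hβ : Blk n P J β) {j s : ℕ} (hj : j < J) (hs : s ∈ Ico (β j) (β (j + 1))) :
    β j ≤ s ∧ 1000 * s + 1000 ≤ 1002 * β j ∧ s < β J := by
  rw [mem_Ico] at hs
  have h1 := hβ.up j hj
  have h2 := hβ.le71 (show j + 1 ≤ J from hj) le_rfl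
  omega

theorem memB71 {b s v : ℕ} (h1 : b ≤ s) (h2 : 1000 * s + 1000 ≤ 1002 * b) (hv : v ≤ s)
    (h : s - v ∈ Icc (52 * b / 1000 + 1) (b / 10)) : 1002 * v < 950 * s ∧ 9 * s ≤ 10 * v := by
  rw [mem_Icc] at h
  omega

theorem partA71 (hβ : Blk n P J β) {τ : ℕ} {A : Finset ℕ} {Z : ℕ → Finset ℕ} (D : Dat71 τ A Z)
    (q : ℕ → ℝ) {M : ℝ} (hM : 0 ≤ M) (v : ℕ)
    (hq : ∀ j < J, β j < τ → ∀ s, β j ≤ s → 1000 * s + 1000 ≤ 1002 * β j → v ≤ s → q j ≤ M) :
    ∑ j ∈ (range J).filter (fun j => β j < τ), q j *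
      (((Ico (β j) (β (j + 1))).filter fun s => v ≤ s ∧ s - v ∈ Z (β j)).card : ℝ) /
        ((Z (β j)).card : ℝ) ≤ M := by
  have hc : (0 : ℝ) < A.card := by exact_mod_cast D.Apos
  refine (wsum71 hβ ((range J).filter (fun j => β j < τ))
    (fun j hj => mem_range.1 (mem_filter.1 hj).1) (fun j s => v ≤ s ∧ s - v ∈ Z (β j))
    (A.image (fun x => x + v)) ?_ q (fun j => ((Z (β j)).card : ℝ)) hc hM ?_).trans ?_
  · intro j hj s hs hF
    rw [mem_image]
    rw [D.ZA _ (mem_filter.1 hj).2] at hF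
    exact ⟨s - v, hF.2, by omega⟩
  · intro j hj s hs hF
    have hj' := mem_range.1 (mem_filter.1 hj).1
    obtain ⟨a1, a2, a3⟩ := hβ.mem71 hj' hs
    refine ⟨hq j hj' (mem_filter.1 hj).2 s a1 a2 hF.1, ?_⟩
    rw [D.ZA _ (mem_filter.1 hj).2]
  · rw [div_le_iff₀ hc]
    have : ((A.image (fun x => x + v)).card : ℝ) ≤ A.card := by exact_mod_cast card_image_le
    exact mul_le_mul_of_nonneg_left this hM

theorem cardB71 (b : ℕ) :
    48 / 1000 * (b : ℝ) - 1 ≤ ((Icc (52 * b / 1000 + 1) (b / 10)).card : ℝ) := by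
  rw [Nat.card_Icc]
  have h1 : b / 10 + 1 - (52 * b / 1000 + 1) = b / 10 - 52 * b / 1000 := by omega
  rw [h1, Nat.cast_sub (by omega)]
  have h2 : ((52 * b / 1000 : ℕ) : ℝ) ≤ 52 * b / 1000 := by
    have := Nat.cast_div_le (α := ℝ) (m := 52 * b) (n := 1000)
    push_cast at this; exact this
  have h3 : (b : ℝ) ≤ 10 * ((b / 10 : ℕ) : ℝ) + 9 := by
    have : b ≤ 10 * (b / 10) + 9 := by omega
    exact_mod_cast this
  linarith

theorem partB71 (hβ : Blk n P J β) {τ : ℕ} {A : Finset ℕ} {Z : ℕ → Finset ℕ} (D : Dat71 τ A Z)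
    (q : ℕ → ℝ) {M : ℝ} (hM : 0 ≤ M) {v : ℕ} (hv : 10 ^ 5 ≤ v)
    (hq : ∀ j < J, τ ≤ β j → ∀ s, β j ≤ s → 1000 * s + 1000 ≤ 1002 * β j → s < β J →
      1002 * v < 950 * s → 9 * s ≤ 10 * v → q j ≤ M) :
    ∑ j ∈ (range J).filter (fun j => ¬ β j < τ), q j *
      (((Ico (β j) (β (j + 1))).filter fun s => v ≤ s ∧ s - v ∈ Z (β j)).card : ℝ) /
        ((Z (β j)).card : ℝ) ≤ 1118 / 1000 * M := by
  have hv' : (10 : ℝ) ^ 5 ≤ v := by exact_mod_cast hv
  have hc : (0 : ℝ) < 48 / 950 * v - 1 := by linarith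
  refine (wsum71 hβ ((range J).filter (fun j => ¬ β j < τ))
    (fun j hj => mem_range.1 (mem_filter.1 hj).1) (fun j s => v ≤ s ∧ s - v ∈ Z (β j))
    (Icc (1002 * v / 950 + 1) (10 * v / 9)) ?_ q (fun j => ((Z (β j)).card : ℝ)) hc hM ?_).trans ?_
  · intro j hj s hs hF
    have hj' := mem_range.1 (mem_filter.1 hj).1
    obtain ⟨a1, a2, a3⟩ := hβ.mem71 hj' hs
    rw [D.ZB _ (not_lt.1 (mem_filter.1 hj).2)] at hF
    obtain ⟨b1, b2⟩ := memB71 a1 a2 hF.1 hF.2
    rw [mem_Icc]
    omega
  · intro j hj s hs hF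
    have hj' := mem_range.1 (mem_filter.1 hj).1
    obtain ⟨a1, a2, a3⟩ := hβ.mem71 hj' hs
    have hτ := not_lt.1 (mem_filter.1 hj).2
    rw [D.ZB _ hτ] at hF ⊢
    obtain ⟨b1, b2⟩ := memB71 a1 a2 hF.1 hF.2
    refine ⟨hq j hj' hτ s a1 a2 a3 b1 b2, ?_⟩
    refine le_trans ?_ (cardB71 (β j))
    have h1 : (1000 : ℝ) * v ≤ 950 * β j := by
      have : 1000 * v ≤ 950 * β j := by omega
      exact_mod_cast this
    linarith
  · rw [div_le_iff₀ hc]
    have h2 : ((Icc (1002 * v / 950 + 1) (10 * v / 9)).card : ℝ) ≤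
        (10 / 9 - 1002 / 950) * v + 1 := by
      rw [Nat.card_Icc]
      have h1 : 10 * v / 9 + 1 - (1002 * v / 950 + 1) = 10 * v / 9 - 1002 * v / 950 := by omega
      rw [h1, Nat.cast_sub (by omega)]
      have h3 : ((10 * v / 9 : ℕ) : ℝ) ≤ 10 * v / 9 := by
        have := Nat.cast_div_le (α := ℝ) (m := 10 * v) (n := 9)
        push_cast at this; exact this
      have h4 : (1002 : ℝ) * v ≤ 950 * ((1002 * v / 950 : ℕ) : ℝ) + 949 := by
        have : 1002 * v ≤ 950 * (1002 * v / 950) + 949 := by omega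
        exact_mod_cast this
      linarith
    have h5 : (10 / 9 - 1002 / 950 : ℝ) * v + 1 ≤ 1118 / 1000 * (48 / 950 * v - 1) := by
      linarith
    calc M * ((Icc (1002 * v / 950 + 1) (10 * v / 9)).card : ℝ)
        ≤ M * (1118 / 1000 * (48 / 950 * v - 1)) := mul_le_mul_of_nonneg_left (h2.trans h5) hM
      _ = 1118 / 1000 * M * (48 / 950 * v - 1) := by ring

theorem partB0_71 (hβ : Blk n P J β) {τ : ℕ} {A : Finset ℕ} {Z : ℕ → Finset ℕ} (D : Dat71 τ A Z)
    (q : ℕ → ℝ) {v : ℕ}
    (hq : ∀ j < J, τ ≤ β j → ∀ s, β j ≤ s → 1000 * s + 1000 ≤ 1002 * β j → s < β J →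
      1002 * v < 950 * s → 9 * s ≤ 10 * v → False) :
    ∑ j ∈ (range J).filter (fun j => ¬ β j < τ), q j *
      (((Ico (β j) (β (j + 1))).filter fun s => v ≤ s ∧ s - v ∈ Z (β j)).card : ℝ) /
        ((Z (β j)).card : ℝ) = 0 := by
  refine Finset.sum_eq_zero fun j hj => ?_
  have h0 : ((Ico (β j) (β (j + 1))).filter fun s => v ≤ s ∧ s - v ∈ Z (β j)) = ∅ := by
    rw [Finset.filter_eq_empty_iff]
    intro s hs hF
    have hj' := mem_range.1 (mem_filter.1 hj).1
    obtain ⟨a1, a2, a3⟩ := hβ.mem71 hj' hs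
    have hτ := not_lt.1 (mem_filter.1 hj).2
    rw [D.ZB _ hτ] at hF
    obtain ⟨b1, b2⟩ := memB71 a1 a2 hF.1 hF.2
    exact hq j hj' hτ s a1 a2 a3 b1 b2
  rw [h0]; simp

theorem partA0_71 (hβ : Blk n P J β) {τ : ℕ} {Z : ℕ → Finset ℕ}
    (q : ℕ → ℝ) {v : ℕ} (hq : ∀ j < J, β j < τ → ∀ s, β j ≤ s → 1000 * s + 1000 ≤ 1002 * β j →
      v ≤ s → False) :
    ∑ j ∈ (range J).filter (fun j => β j < τ), q j *
      (((Ico (β j) (β (j + 1))).filter fun s => v ≤ s ∧ s - v ∈ Z (β j)).card : ℝ) /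
        ((Z (β j)).card : ℝ) = 0 := by
  refine Finset.sum_eq_zero fun j hj => ?_
  have h0 : ((Ico (β j) (β (j + 1))).filter fun s => v ≤ s ∧ s - v ∈ Z (β j)) = ∅ := by
    rw [Finset.filter_eq_empty_iff]
    intro s hs hF
    have hj' := mem_range.1 (mem_filter.1 hj).1
    obtain ⟨a1, a2, a3⟩ := hβ.mem71 hj' hs
    exact hq j hj' (mem_filter.1 hj).2 s a1 a2 hF.1
  rw [h0]; simp

theorem sg2_le_one71 {P s : ℕ} (hP : 0 < P) : sg2 P s ≤ 1 := by
  unfold sg2
  split_ifs with h
  · exact le_rfl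
  · have hs : (51 : ℝ) * P ≤ s := by exact_mod_cast not_lt.1 h
    have hP' : (0 : ℝ) < P := by exact_mod_cast hP
    have h1 : (44 * P / s : ℝ) ≤ 1 := by
      rw [div_le_one (by linarith)]
      linarith
    exact (Real.sqrt_le_sqrt h1).trans_eq Real.sqrt_one

theorem sg2_nonneg71 {P s : ℕ} : 0 ≤ sg2 P s := by
  unfold sg2
  split_ifs
  · norm_num
  · exact Real.sqrt_nonneg _

/-- for `v ≥ 25 P` the type B terms have `sg2 ≤ 1.05 √(44P/v)` -/
theorem sg2_far71 {P b s v : ℕ} (hP : 0 < P) (hv : 0 < v) (h2 : 1000 * s + 1000 ≤ 1002 * b)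
    (h3 : 1002 * v < 950 * s) : sg2 P b ≤ 105 / 100 * Real.sqrt (44 * P / v) := by
  have hP' : (0 : ℝ) < P := by exact_mod_cast hP
  have hv' : (0 : ℝ) < v := by exact_mod_cast hv
  have hbv : (1000 : ℝ) * v ≤ 950 * b := by
    have : 1000 * v ≤ 950 * b := by omega
    exact_mod_cast this
  have hb' : (0 : ℝ) < b := by linarith
  unfold sg2
  split_ifs with h
  · have hb : (b : ℝ) < 51 * P := by exact_mod_cast h
    have h4 : Real.sqrt ((100 / 105) ^ 2) ≤ Real.sqrt (44 * P / v) := by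
      apply Real.sqrt_le_sqrt
      rw [le_div_iff₀ hv']
      nlinarith
    rw [Real.sqrt_sq (by norm_num)] at h4
    linarith
  · have h5 : Real.sqrt (44 * P / b) ≤ Real.sqrt (44 * P / v) := by
      apply Real.sqrt_le_sqrt
      apply div_le_div_of_nonneg_left (by positivity) hv'
      linarith
    have h6 := Real.sqrt_nonneg (44 * P / v : ℝ)
    linarith

theorem pH_nonneg71 (P b : ℕ) : 0 ≤ pH P b := by
  unfold pH; split_ifs <;> norm_num

theorem pH_le_one71 (P b : ℕ) : pH P b ≤ 1 := by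
  unfold pH; split_ifs <;> norm_num

theorem dat_ZL71 {P : ℕ} (hP : 10 ^ 6 ≤ P) :
    Dat71 (20 * P) (Icc (7 * P / 100 + 1) (20 * P / 100)) (ZL P) where
  ZA b hb := by unfold ZL; rw [if_pos hb]
  ZB b hb := by unfold ZL; rw [if_neg (not_lt.2 hb)]
  Apos := by rw [Nat.card_Icc]; omega

theorem dat_ZH71 {P : ℕ} (hP : 10 ^ 6 ≤ P) :
    Dat71 (5 * P) (Icc (20 * P / 1000 + 1) (58 * P / 1000)) (ZH P) where
  ZA b hb := by unfold ZH; rw [if_pos hb]
  ZB b hb := by unfold ZH; rw [if_neg (not_lt.2 hb)]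
  Apos := by rw [Nat.card_Icc]; omega

end aux71

theorem lfH_bound {n P J : ℕ} {β : ℕ → ℕ} (hP : 10 ^ 6 ≤ P) (hn : 10 ^ 8 * P ≤ n) (hβ : Blk n P J β) (v : ℕ) :
    lfH P J β v ≤ 955 / 1000 ∧ (25 * P ≤ v → lfH P J β v ≤ 6 / 10 * Real.sqrt (44 * P / v)) ∧
      (655 * n ≤ 1000 * v → lfH P J β v = 0) := by
  have hP0 : 0 < P := by omega
  have hD := dat_ZL71 hP
  have hPR : (10 : ℝ) ^ 6 ≤ P := by exact_mod_cast hP
  have hsplit : lfH P J β v =
      ∑ j ∈ (range J).filter (fun j => β j < 20 * P), pH P (β j) * sg2 P (β j) *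
        (((Ico (β j) (β (j + 1))).filter fun s => v ≤ s ∧ s - v ∈ ZL P (β j)).card : ℝ) /
          ((ZL P (β j)).card : ℝ) +
      ∑ j ∈ (range J).filter (fun j => ¬ β j < 20 * P), pH P (β j) * sg2 P (β j) *
        (((Ico (β j) (β (j + 1))).filter fun s => v ≤ s ∧ s - v ∈ ZL P (β j)).card : ℝ) /
          ((ZL P (β j)).card : ℝ) := by
    unfold lfH
    rw [Finset.sum_filter_add_sum_filter_not]
  have hle : ∀ b : ℕ, pH P b * sg2 P b ≤ pH P b := fun b =>
    mul_le_of_le_one_right (pH_nonneg71 P b) (sg2_le_one71 hP0)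
  refine ⟨?_, fun hv => ?_, fun hv => ?_⟩
  · rw [hsplit]
    by_cases h18 : v < 18 * P
    · rw [partB0_71 hβ hD (fun j => pH P (β j) * sg2 P (β j)) (v := v) ?_]
      · -- type A, refined
        have hc : (0 : ℝ) < 13 / 100 * P - 1 := by linarith
        have hA : ∀ j ∈ (range J).filter (fun j => β j < 20 * P),
            pH P (β j) * sg2 P (β j) *
            (((Ico (β j) (β (j + 1))).filter fun s => v ≤ s ∧ s - v ∈ ZL P (β j)).card : ℝ) /
              ((ZL P (β j)).card : ℝ) ≤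
            55 / 100 * (((Ico (β j) (β (j + 1))).filter fun s => v ≤ s ∧ s - v ∈
              ZL P (β j)).card : ℝ) / ((ZL P (β j)).card : ℝ) +
            (if 100 * β j < 105 * P then 45 / 100 * (((Ico (β j) (β (j + 1))).filter fun s =>
              v ≤ s ∧ s - v ∈ ZL P (β j)).card : ℝ) / ((ZL P (β j)).card : ℝ) else 0) := by
          intro j hj
          have h1 := hle (β j)
          have h2 : (0 : ℝ) ≤ (((Ico (β j) (β (j + 1))).filter fun s => v ≤ s ∧ s - v ∈
              ZL P (β j)).card : ℝ) / ((ZL P (β j)).card : ℝ) := by positivity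
          have h3 : pH P (β j) ≤ 55 / 100 + (if 100 * β j < 105 * P then 45 / 100 else 0) := by
            unfold pH; split_ifs <;> norm_num
          have h4 := mul_le_mul_of_nonneg_right (h1.trans h3) h2
          split_ifs at h4 ⊢ with h5
          · calc _ = pH P (β j) * sg2 P (β j) * ((((Ico (β j) (β (j + 1))).filter fun s =>
                v ≤ s ∧ s - v ∈ ZL P (β j)).card : ℝ) / ((ZL P (β j)).card : ℝ)) := by ring
              _ ≤ _ := h4
              _ = _ := by ring
          · calc _ = pH P (β j) * sg2 P (β j) * ((((Ico (β j) (β (j + 1))).filter fun s =>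
                v ≤ s ∧ s - v ∈ ZL P (β j)).card : ℝ) / ((ZL P (β j)).card : ℝ)) := by ring
              _ ≤ _ := h4
              _ = _ := by ring
        have hA1 := Finset.sum_le_sum hA
        rw [Finset.sum_add_distrib] at hA1
        have hA2 := partA71 hβ hD (fun _ => (55 / 100 : ℝ)) (M := 55 / 100) (by norm_num) v
          (fun _ _ _ _ _ _ _ => le_rfl)
        have hA3 : ∑ j ∈ (range J).filter (fun j => β j < 20 * P),
            (if 100 * β j < 105 * P then 45 / 100 * (((Ico (β j) (β (j + 1))).filter fun s =>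
              v ≤ s ∧ s - v ∈ ZL P (β j)).card : ℝ) / ((ZL P (β j)).card : ℝ) else 0) ≤
            45 / 100 * (41 / 100) := by
          rw [← Finset.sum_filter]
          refine (wsum71 hβ _ (fun j hj => mem_range.1 (mem_filter.1 (mem_filter.1 hj).1).1)
            (fun j s => v ≤ s ∧ s - v ∈ ZL P (β j)) (Icc P (10521 * P / 10000)) ?_
            (fun _ => (45 / 100 : ℝ)) (fun j => ((ZL P (β j)).card : ℝ)) hc
            (M := 45 / 100) (by norm_num) ?_).trans ?_
          · intro j hj s hs hF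
            have hj' := mem_range.1 (mem_filter.1 (mem_filter.1 hj).1).1
            have h5 := (mem_filter.1 hj).2
            obtain ⟨a1, a2, a3⟩ := hβ.mem71 hj' hs
            have h6 := hβ.le71 (Nat.zero_le j) hj'.le
            rw [hβ.b0] at h6
            rw [mem_Icc]
            omega
          · intro j hj s hs hF
            refine ⟨le_rfl, ?_⟩
            have h5 := (mem_filter.1 (mem_filter.1 hj).1).2
            rw [hD.ZA _ h5, Nat.card_Icc]
            have h7 : 20 * P / 100 + 1 - (7 * P / 100 + 1) = 20 * P / 100 - 7 * P / 100 := by omega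
            rw [h7, Nat.cast_sub (by omega)]
            have h8 : ((7 * P / 100 : ℕ) : ℝ) ≤ 7 * P / 100 := by
              have := Nat.cast_div_le (α := ℝ) (m := 7 * P) (n := 100)
              push_cast at this; exact this
            have h9 : (20 : ℝ) * P ≤ 100 * ((20 * P / 100 : ℕ) : ℝ) + 99 := by
              have : 20 * P ≤ 100 * (20 * P / 100) + 99 := by omega
              exact_mod_cast this
            linarith
          · rw [div_le_iff₀ hc, Nat.card_Icc]
            have h10 : ((10521 * P / 10000 + 1 - P : ℕ) : ℝ) ≤ 521 / 10000 * P + 1 := by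
              rw [Nat.cast_sub (by omega)]
              have := Nat.cast_div_le (α := ℝ) (m := 10521 * P) (n := 10000)
              push_cast at this ⊢
              linarith
            nlinarith
        have hA4 : ∑ j ∈ (range J).filter (fun j => β j < 20 * P), (fun _ => (55 / 100 : ℝ)) j *
            (((Ico (β j) (β (j + 1))).filter fun s => v ≤ s ∧ s - v ∈ ZL P (β j)).card : ℝ) /
              ((ZL P (β j)).card : ℝ) ≤ 55 / 100 := hA2
        simp only at hA4
        linarith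
      · intro j _ h1 s h2 _ _ _ h3
        omega
    · have h18' := not_lt.1 h18
      by_cases hex : ∃ j < J, β j < 20 * P ∧ ∃ s, β j ≤ s ∧ 1000 * s + 1000 ≤ 1002 * β j ∧ v ≤ s
      · obtain ⟨j₀, hj₀, hb₀, s₀, c1, c2, c3⟩ := hex
        have hv20 : 1000 * v + 1000 ≤ 20040 * P := by omega
        have hA := partA71 hβ hD (fun j => pH P (β j) * sg2 P (β j)) (M := 45 / 100)
          (by norm_num) v (by
            intro j _ h1 s h2 h3 h4
            refine (hle _).trans ?_
            unfold pH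
            split_ifs with g1 g2 g3
            · omega
            · omega
            · exact le_rfl
            · omega)
        have hB := partB71 hβ hD (fun j => pH P (β j) * sg2 P (β j)) (M := 45 / 100)
          (by norm_num) (v := v) (by omega) (by
            intro j _ h1 s h2 h3 _ h4 h5
            refine (hle _).trans ?_
            unfold pH
            split_ifs with g1 g2 g3
            · omega
            · omega
            · exact le_rfl
            · omega)
        linarith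
      · push Not at hex
        rw [partA0_71 hβ (fun j => pH P (β j) * sg2 P (β j)) (v := v) (by
            intro j h1 h2 s h3 h4 h5
            have := hex j h1 h2 s h3 h4
            omega)]
        have hB := partB71 hβ hD (fun j => pH P (β j) * sg2 P (β j)) (M := 1 / 2)
          (by norm_num) (v := v) (by omega) (by
            intro j _ h1 s h2 h3 _ h4 h5
            refine (hle _).trans ?_
            unfold pH
            split_ifs with g1 g2 g3
            · omega
            · omega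
            · norm_num
            · exact le_rfl)
        linarith
  · rw [hsplit, partA0_71 hβ (fun j => pH P (β j) * sg2 P (β j)) (v := v) (by
            intro j h1 h2 s h3 h4 h5
            omega)]
    have hB := partB71 hβ hD (fun j => pH P (β j) * sg2 P (β j))
      (M := 1 / 2 * (105 / 100 * Real.sqrt (44 * P / v))) (by positivity) (v := v) (by omega) (by
        intro j _ h1 s h2 h3 _ h4 h5
        have h6 := sg2_far71 hP0 (by omega : 0 < v) h3 h4
        have h7 : pH P (β j) = 1 / 2 := by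
          unfold pH
          split_ifs with g1 g2 g3
          · omega
          · omega
          · omega
          · rfl
        rw [h7]
        exact mul_le_mul_of_nonneg_left h6 (by norm_num))
    have h8 := Real.sqrt_nonneg (44 * P / v : ℝ)
    linarith
  · rw [hsplit, partA0_71 hβ (fun j => pH P (β j) * sg2 P (β j)) (v := v) (by
            intro j h1 h2 s h3 h4 h5
            omega),
      partB0_71 hβ hD (fun j => pH P (β j) * sg2 P (β j)) (v := v) (by
        intro j _ h1 s h2 h3 h6 h4 h5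
        rw [hβ.bJ] at h6
        omega)]
    norm_num

theorem lfL_bound {n P J : ℕ} {β : ℕ → ℕ} (hP : 10 ^ 6 ≤ P) (hn : 10 ^ 8 * P ≤ n) (hβ : Blk n P J β) (v : ℕ) :
    lfL P J β v ≤ 955 / 1000 ∧ (25 * P ≤ v → lfL P J β v ≤ 6 / 10 * Real.sqrt (44 * P / v)) ∧
      (655 * n ≤ 1000 * v → lfL P J β v = 0) := by
  have hP0 : 0 < P := by omega
  have hD := dat_ZH71 hP
  have hsplit : lfL P J β v =
      ∑ j ∈ (range J).filter (fun j => β j < 5 * P), (1 - pH P (β j)) * sg2 P (β j) *
        (((Ico (β j) (β (j + 1))).filter fun s => v ≤ s ∧ s - v ∈ ZH P (β j)).card : ℝ) /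
          ((ZH P (β j)).card : ℝ) +
      ∑ j ∈ (range J).filter (fun j => ¬ β j < 5 * P), (1 - pH P (β j)) * sg2 P (β j) *
        (((Ico (β j) (β (j + 1))).filter fun s => v ≤ s ∧ s - v ∈ ZH P (β j)).card : ℝ) /
          ((ZH P (β j)).card : ℝ) := by
    unfold lfL
    rw [Finset.sum_filter_add_sum_filter_not]
  have hle : ∀ b : ℕ, (1 - pH P b) * sg2 P b ≤ 1 - pH P b := fun b =>
    mul_le_of_le_one_right (by linarith [pH_le_one71 P b]) (sg2_le_one71 hP0)
  refine ⟨?_, fun hv => ?_, fun hv => ?_⟩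
  · rw [hsplit]
    have hA := partA71 hβ hD (fun j => (1 - pH P (β j)) * sg2 P (β j)) (M := 45 / 100)
      (by norm_num) v (by
        intro j _ h1 s h2 h3 h4
        refine (hle _).trans ?_
        unfold pH
        split_ifs with g1 g2 g3
        · norm_num
        · norm_num
        · omega
        · omega)
    by_cases hex : ∃ j < J, β j < 5 * P ∧ ∃ s, β j ≤ s ∧ 1000 * s + 1000 ≤ 1002 * β j ∧ v ≤ s
    · obtain ⟨j₀, hj₀, hb₀, s₀, c1, c2, c3⟩ := hex
      have hv5 : 1000 * v + 1000 ≤ 5010 * P := by omega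
      by_cases h45 : 10 ^ 5 ≤ v
      · have hB := partB71 hβ hD (fun j => (1 - pH P (β j)) * sg2 P (β j)) (M := 45 / 100)
          (by norm_num) (v := v) h45 (by
            intro j _ h1 s h2 h3 _ h4 h5
            refine (hle _).trans ?_
            unfold pH
            split_ifs with g1 g2 g3
            · norm_num
            · norm_num
            · omega
            · omega)
        linarith
      · rw [partB0_71 hβ hD (fun j => (1 - pH P (β j)) * sg2 P (β j)) (v := v) (by
          intro j _ h1 s h2 h3 h6 h4 h5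
          omega)]
        linarith
    · push Not at hex
      rw [partA0_71 hβ (fun j => (1 - pH P (β j)) * sg2 P (β j)) (v := v) (by
            intro j h1 h2 s h3 h4 h5
            have := hex j h1 h2 s h3 h4
            omega)]
      by_cases h45 : 10 ^ 5 ≤ v
      · have hB := partB71 hβ hD (fun j => (1 - pH P (β j)) * sg2 P (β j)) (M := 55 / 100)
          (by norm_num) (v := v) h45 (by
            intro j _ h1 s h2 h3 _ h4 h5
            refine (hle _).trans ?_
            unfold pH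
            split_ifs with g1 g2 g3 <;> norm_num)
        linarith
      · rw [partB0_71 hβ hD (fun j => (1 - pH P (β j)) * sg2 P (β j)) (v := v) (by
          intro j _ h1 s h2 h3 h6 h4 h5
          omega)]
        norm_num
  · rw [hsplit, partA0_71 hβ (fun j => (1 - pH P (β j)) * sg2 P (β j)) (v := v) (by
            intro j h1 h2 s h3 h4 h5
            omega)]
    have hB := partB71 hβ hD (fun j => (1 - pH P (β j)) * sg2 P (β j))
      (M := 1 / 2 * (105 / 100 * Real.sqrt (44 * P / v))) (by positivity) (v := v) (by omega) (by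
        intro j _ h1 s h2 h3 _ h4 h5
        have h6 := sg2_far71 hP0 (by omega : 0 < v) h3 h4
        have h7 : 1 - pH P (β j) = 1 / 2 := by
          unfold pH
          split_ifs with g1 g2 g3
          · omega
          · omega
          · omega
          · norm_num
        rw [h7]
        exact mul_le_mul_of_nonneg_left h6 (by norm_num))
    have h8 := Real.sqrt_nonneg (44 * P / v : ℝ)
    linarith
  · rw [hsplit, partA0_71 hβ (fun j => (1 - pH P (β j)) * sg2 P (β j)) (v := v) (by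
            intro j h1 h2 s h3 h4 h5
            omega),
      partB0_71 hβ hD (fun j => (1 - pH P (β j)) * sg2 P (β j)) (v := v) (by
        intro j _ h1 s h2 h3 h6 h4 h5
        rw [hβ.bJ] at h6
        omega)]
    norm_num

end Pool.Agent.GRC
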