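import Pool.Agent.Helper28.GRC.BLK

/-!
# GRC-N2C: centre loads of the ramp stars (times `D`)

Proof in words.  Terms with `x ∈ Z`: type A (fixed zone, `β < 20P`, `|Z| ≥ 0.13P - 1`, resp. `β < 5P`, `|Z| ≥ 0.038 P - 1`): `∑ (β (j+1) - β j) ≤ 20.04 P` resp. `5.01 P`, so the sum is `≤ 20.04/0.1299 ≤ 155`
resp. `≤ 133`.  Type B: `10 x ≤ β j ≤ 1000 x/52`, `∑ (β (j+1) - β j) ≤ 1.002 · 19.24 x - 10 x ≤ 9.28 x`, `|Z| ≥ 0.48 x - 1`, `sg2 (β j) ≤ sg2 (10 x)`: `≤ 20 sg2 (10x)`.  For a given `x` only one type occurs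
(type A: `x ≤ 0.2P` resp. `0.058P`; type B: `x > 1.04 P` resp. `0.26 P`).  For `x ≥ 25P`: `sg2 (10 x) = √(4.4 P/x)`.
`x > 0.07 n`: `10 x ≤ β j < 0.69 n + 1` is impossible.
-/

set_option autoImplicit false

namespace Pool.Agent.GRC

open Finset

noncomputable def cnH (P J : ℕ) (β : ℕ → ℕ) (x : ℕ) : ℝ :=
  ∑ j ∈ range J, pH P (β j) * sg2 P (β j) * ((β (j + 1) : ℝ) - β j) *
    (if x ∈ ZL P (β j) then 1 else 0) / ((ZL P (β j)).card : ℝ)

noncomputable def cnL (P J : ℕ) (β : ℕ → ℕ) (x : ℕ) : ℝ :=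
  ∑ j ∈ range J, (1 - pH P (β j)) * sg2 P (β j) * ((β (j + 1) : ℝ) - β j) *
    (if x ∈ ZH P (β j) then 1 else 0) / ((ZH P (β j)).card : ℝ)

theorem blk_ge_h14 {n P J : ℕ} {β : ℕ → ℕ} (hβ : Blk n P J β) : ∀ j ≤ J, P ≤ β j := by
  intro j
  induction j with
  | zero => intro _; exact hβ.b0.ge
  | succ j ih =>
    intro hj
    have h1 := ih (by omega)
    have h2 := hβ.mono j (by omega)
    omega

theorem blk_lt_h14 {n P J : ℕ} {β : ℕ → ℕ} (hβ : Blk n P J β) :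
    ∀ k j, j + k + 1 = J → β j < β J := by
  intro k
  induction k with
  | zero =>
    intro j hj
    have h2 := hβ.mono j (by omega)
    rw [← hj]
    exact h2
  | succ k ih =>
    intro j hj
    have h1 := ih (j + 1) (by omega)
    have h2 := hβ.mono j (by omega)
    omega

theorem core_h14 {n P J : ℕ} {β : ℕ → ℕ} (hβ : Blk n P J β) (x : ℕ) (w : ℕ → ℝ) (Z : ℕ → Finset ℕ)
    {lo hi K : ℝ} (hlh : lo ≤ 1002 / 1000 * hi) (hK : 0 ≤ K)
    (ht : ∀ b, P ≤ b → x ∈ Z b → lo ≤ b ∧ (b : ℝ) < hi ∧ w b / ((Z b).card : ℝ) ≤ K) :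
    ∑ j ∈ range J, w (β j) * ((β (j + 1) : ℝ) - β j) *
      (if x ∈ Z (β j) then 1 else 0) / ((Z (β j)).card : ℝ) ≤ K * (1002 / 1000 * hi - lo) := by
  set f : ℝ → ℝ := fun t => min (max t lo) (1002 / 1000 * hi) with hf
  have hfm : Monotone f := by
    intro a b hab
    exact min_le_min (max_le_max hab le_rfl) le_rfl
  have hstep : ∀ j ∈ range J, w (β j) * ((β (j + 1) : ℝ) - β j) *
      (if x ∈ Z (β j) then 1 else 0) / ((Z (β j)).card : ℝ) ≤
      K * (f (β (j + 1) : ℝ) - f (β j : ℝ)) := by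
    intro j hj
    rw [mem_range] at hj
    have hm := hβ.mono j hj
    have hu := hβ.up j hj
    have hm' : (β j : ℝ) < β (j + 1) := by exact_mod_cast hm
    have hu' : 1000 * (β (j + 1) : ℝ) ≤ 1002 * β j := by exact_mod_cast hu
    by_cases hx : x ∈ Z (β j)
    · obtain ⟨h1, h2, h3⟩ := ht (β j) (blk_ge_h14 hβ j hj.le) hx
      rw [if_pos hx]
      have e1 : f (β j : ℝ) = β j := by
        rw [hf]
        simp only
        rw [max_eq_left h1, min_eq_left]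
        have : (0 : ℝ) ≤ β j := Nat.cast_nonneg _
        linarith
      have e2 : f (β (j + 1) : ℝ) = β (j + 1) := by
        rw [hf]
        simp only
        rw [max_eq_left (by linarith), min_eq_left]
        linarith
      rw [e1, e2]
      have e3 : w (β j) * ((β (j + 1) : ℝ) - β j) * 1 / ((Z (β j)).card : ℝ) =
          w (β j) / ((Z (β j)).card : ℝ) * ((β (j + 1) : ℝ) - β j) := by
        ring
      rw [e3]
      exact mul_le_mul_of_nonneg_right h3 (by linarith)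
    · rw [if_neg hx, mul_zero, zero_div]
      exact mul_nonneg hK (sub_nonneg.2 (hfm hm'.le))
  refine (sum_le_sum hstep).trans ?_
  rw [← mul_sum]
  refine mul_le_mul_of_nonneg_left ?_ hK
  rw [sum_range_sub (fun j => f (β j : ℝ))]
  have h1 : f (β J : ℝ) ≤ 1002 / 1000 * hi := min_le_right _ _
  have h2 : lo ≤ f (β 0 : ℝ) := le_min (le_max_right _ _) hlh
  linarith

theorem sg2_nonneg_h14 (P s : ℕ) : 0 ≤ sg2 P s := by
  unfold sg2
  split_ifs
  · exact zero_le_one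
  · exact Real.sqrt_nonneg _

theorem sg2_le_one_h14 (P s : ℕ) : sg2 P s ≤ 1 := by
  unfold sg2
  split_ifs with h
  · exact le_rfl
  · rw [Real.sqrt_le_one]
    rcases Nat.eq_zero_or_pos s with h0 | h0
    · rw [h0]; simp
    · have h1 : (0 : ℝ) < s := by exact_mod_cast h0
      rw [div_le_one h1]
      have h2 : 51 * P ≤ s := not_lt.1 h
      have h3 : 51 * (P : ℝ) ≤ s := by exact_mod_cast h2
      have h4 : (0 : ℝ) ≤ P := Nat.cast_nonneg _
      linarith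

theorem pH_nonneg_h14 (P b : ℕ) : 0 ≤ pH P b := by
  unfold pH
  split_ifs <;> norm_num

theorem pH_le_one_h14 (P b : ℕ) : pH P b ≤ 1 := by
  unfold pH
  split_ifs <;> norm_num

/-- case A: only fixed-zone blocks contribute -/
theorem caseA_h14 {n P J : ℕ} {β : ℕ → ℕ} (hP : 10 ^ 6 ≤ P) (hβ : Blk n P J β) (x : ℕ)
    (q : ℕ → ℝ) (hq0 : ∀ b, 0 ≤ q b) (hq1 : ∀ b, q b ≤ 1) (Z : ℕ → Finset ℕ) {T κ : ℝ}
    (hT : 1 ≤ T) (hκ : 1 / 100 ≤ κ) (hTκ : 1002 / 1000 * T - 1 ≤ 199 * κ)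
    (ht : ∀ b, P ≤ b → x ∈ Z b → (b : ℝ) < T * P ∧ κ * P - 1 ≤ ((Z b).card : ℝ)) :
    ∑ j ∈ range J, q (β j) * sg2 P (β j) * ((β (j + 1) : ℝ) - β j) *
      (if x ∈ Z (β j) then 1 else 0) / ((Z (β j)).card : ℝ) ≤ 200 := by
  have hP' : (10 : ℝ) ^ 6 ≤ P := by exact_mod_cast hP
  have hden : 0 < κ * P - 1 := by nlinarith
  have h := core_h14 hβ x (fun b => q b * sg2 P b) Z (lo := (P : ℝ)) (hi := T * P)
    (K := 1 / (κ * P - 1)) (by nlinarith) (by positivity) (by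
      intro b hb hx
      obtain ⟨h1, h2⟩ := ht b hb hx
      refine ⟨by exact_mod_cast hb, h1, ?_⟩
      have h3 : q b * sg2 P b ≤ 1 :=
        mul_le_one₀ (hq1 b) (sg2_nonneg_h14 P b) (sg2_le_one_h14 P b)
      have h4 : 0 ≤ q b * sg2 P b := mul_nonneg (hq0 b) (sg2_nonneg_h14 P b)
      exact div_le_div₀ zero_le_one h3 hden h2)
  refine h.trans ?_
  rw [one_div_mul_eq_div, div_le_iff₀ hden]
  nlinarith

/-- case B: only proportional blocks contribute -/
theorem caseB_h14 {n P J : ℕ} {β : ℕ → ℕ} (hP : 10 ^ 6 ≤ P) (hβ : Blk n P J β) (x : ℕ)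
    (hx1 : 1000 ≤ x)
    (q : ℕ → ℝ) (hq0 : ∀ b, 0 ≤ q b) (hq1 : ∀ b, q b ≤ 1) (Z : ℕ → Finset ℕ)
    (ht : ∀ b, P ≤ b → x ∈ Z b → 10 * x ≤ b ∧ 52 * b < 1000 * x ∧
      48 / 1000 * (b : ℝ) - 1 ≤ ((Z b).card : ℝ)) :
    ∑ j ∈ range J, q (β j) * sg2 P (β j) * ((β (j + 1) : ℝ) - β j) *
      (if x ∈ Z (β j) then 1 else 0) / ((Z (β j)).card : ℝ) ≤ 20 * sg2 P (10 * x) := by
  have hx' : (1000 : ℝ) ≤ x := by exact_mod_cast hx1
  have hden : 0 < 48 / 100 * (x : ℝ) - 1 := by linarith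
  have hs0 := sg2_nonneg_h14 P (10 * x)
  have h := core_h14 hβ x (fun b => q b * sg2 P b) Z (lo := 10 * (x : ℝ)) (hi := 1000 / 52 * (x : ℝ))
    (K := sg2 P (10 * x) / (48 / 100 * (x : ℝ) - 1)) (by linarith) (by positivity) (by
      intro b hb hx
      obtain ⟨h1, h2, h3⟩ := ht b hb hx
      have h1' : 10 * (x : ℝ) ≤ b := by exact_mod_cast h1
      have h2' : 52 * (b : ℝ) < 1000 * x := by exact_mod_cast h2
      refine ⟨h1', by linarith, ?_⟩
      have h4 : q b * sg2 P b ≤ sg2 P (10 * x) := by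
        have h5 := sg2_anti (P := P) (by omega) h1
        have h6 := sg2_nonneg_h14 P b
        have h7 := mul_le_mul_of_nonneg_right (hq1 b) h6
        linarith
      exact div_le_div₀ hs0 h4 hden (by linarith))
  refine h.trans ?_
  rw [div_mul_eq_mul_div, div_le_iff₀ hden]
  have h8 : 1002 / 1000 * (1000 / 52 * (x : ℝ)) - 10 * x ≤ 20 * (48 / 100 * (x : ℝ) - 1) := by
    linarith
  calc sg2 P (10 * x) * (1002 / 1000 * (1000 / 52 * (x : ℝ)) - 10 * x) ≤
      sg2 P (10 * x) * (20 * (48 / 100 * (x : ℝ) - 1)) := mul_le_mul_of_nonneg_left h8 hs0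
    _ = _ := by ring

theorem sg2_big_h14 {P x : ℕ} (hP : 0 < P) (hx : 25 * P ≤ x) :
    20 * sg2 P (10 * x) ≤ 20 * Real.sqrt (44 * P / x) := by
  have h1 : ¬ 10 * x < 51 * P := by omega
  unfold sg2
  rw [if_neg h1]
  refine mul_le_mul_of_nonneg_left (Real.sqrt_le_sqrt ?_) (by norm_num)
  have hx0 : (0 : ℝ) < x := by
    have : 0 < x := by omega
    exact_mod_cast this
  have hP0 : (0 : ℝ) ≤ P := Nat.cast_nonneg _
  push_cast
  apply div_le_div_of_nonneg_left (by positivity) hx0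
  linarith

theorem mem_ZL_h14 {P b x : ℕ} : x ∈ ZL P b ↔
    (b < 20 * P ∧ 7 * P / 100 + 1 ≤ x ∧ x ≤ 20 * P / 100) ∨
      (20 * P ≤ b ∧ 52 * b / 1000 + 1 ≤ x ∧ x ≤ b / 10) := by
  unfold ZL
  split_ifs with h
  · rw [mem_Icc]
    constructor
    · intro h1; exact Or.inl ⟨h, h1⟩
    · rintro (h1 | h1)
      · exact h1.2
      · omega
  · rw [mem_Icc]
    constructor
    · intro h1; exact Or.inr ⟨not_lt.1 h, h1⟩
    · rintro (h1 | h1)
      · omega
      · exact h1.2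

theorem mem_ZH_h14 {P b x : ℕ} : x ∈ ZH P b ↔
    (b < 5 * P ∧ 20 * P / 1000 + 1 ≤ x ∧ x ≤ 58 * P / 1000) ∨
      (5 * P ≤ b ∧ 52 * b / 1000 + 1 ≤ x ∧ x ≤ b / 10) := by
  unfold ZH
  split_ifs with h
  · rw [mem_Icc]
    constructor
    · intro h1; exact Or.inl ⟨h, h1⟩
    · rintro (h1 | h1)
      · exact h1.2
      · omega
  · rw [mem_Icc]
    constructor
    · intro h1; exact Or.inr ⟨not_lt.1 h, h1⟩
    · rintro (h1 | h1)
      · omega
      · exact h1.2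

theorem cnH_bound {n P J : ℕ} {β : ℕ → ℕ} (hP : 10 ^ 6 ≤ P) (hn : 10 ^ 8 * P ≤ n) (hβ : Blk n P J β) (x : ℕ) :
    cnH P J β x ≤ 200 ∧ (25 * P ≤ x → cnH P J β x ≤ 20 * Real.sqrt (44 * P / x)) ∧
      (7 * n < 100 * x → cnH P J β x = 0) := by
  have hB : P < 5 * x → cnH P J β x ≤ 20 * sg2 P (10 * x) := by
    intro hx
    refine caseB_h14 hP hβ x (by omega) (pH P) (pH_nonneg_h14 P) (pH_le_one_h14 P) (ZL P) ?_
    intro b hb hxb
    rcases mem_ZL_h14.1 hxb with h | h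
    · omega
    · exact ⟨by omega, by omega, (ZL_card hP hb).2 h.1⟩
  refine ⟨?_, ?_, ?_⟩
  · by_cases hx : P < 5 * x
    · have h1 := hB hx
      have h2 := sg2_le_one_h14 P (10 * x)
      linarith
    · refine caseA_h14 (T := 20) (κ := 13 / 100) hP hβ x (pH P) (pH_nonneg_h14 P) (pH_le_one_h14 P)
        (ZL P) (by norm_num) (by norm_num) (by norm_num) ?_
      intro b hb hxb
      rcases mem_ZL_h14.1 hxb with h | h
      · exact ⟨by exact_mod_cast h.1, (ZL_card hP hb).1⟩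
      · omega
  · intro hx
    exact (hB (by omega)).trans (sg2_big_h14 (by omega) hx)
  · intro hx
    unfold cnH
    apply sum_eq_zero
    intro j hj
    rw [mem_range] at hj
    have h1 := blk_lt_h14 hβ (J - 1 - j) j (by omega)
    rw [hβ.bJ] at h1
    have hnot : x ∉ ZL P (β j) := by
      intro hxb
      rcases mem_ZL_h14.1 hxb with h | h
      · omega
      · omega
    rw [if_neg hnot, mul_zero, zero_div]

theorem cnL_bound {n P J : ℕ} {β : ℕ → ℕ} (hP : 10 ^ 6 ≤ P) (hn : 10 ^ 8 * P ≤ n) (hβ : Blk n P J β) (x : ℕ) :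
    cnL P J β x ≤ 200 ∧ (25 * P ≤ x → cnL P J β x ≤ 20 * Real.sqrt (44 * P / x)) ∧
      (7 * n < 100 * x → cnL P J β x = 0) := by
  have hq0 : ∀ b, 0 ≤ 1 - pH P b := fun b => by
    have := pH_le_one_h14 P b
    linarith
  have hq1 : ∀ b, 1 - pH P b ≤ 1 := fun b => by
    have := pH_nonneg_h14 P b
    linarith
  have hB : 58 * P < 1000 * x → cnL P J β x ≤ 20 * sg2 P (10 * x) := by
    intro hx
    refine caseB_h14 hP hβ x (by omega) (fun b => 1 - pH P b) hq0 hq1 (ZH P) ?_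
    intro b hb hxb
    rcases mem_ZH_h14.1 hxb with h | h
    · omega
    · exact ⟨by omega, by omega, (ZH_card hP hb).2 h.1⟩
  refine ⟨?_, ?_, ?_⟩
  · by_cases hx : 58 * P < 1000 * x
    · have h1 := hB hx
      have h2 := sg2_le_one_h14 P (10 * x)
      linarith
    · refine caseA_h14 (T := 5) (κ := 38 / 1000) hP hβ x (fun b => 1 - pH P b) hq0 hq1
        (ZH P) (by norm_num) (by norm_num) (by norm_num) ?_
      intro b hb hxb
      rcases mem_ZH_h14.1 hxb with h | h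
      · exact ⟨by exact_mod_cast h.1, (ZH_card hP hb).1⟩
      · omega
  · intro hx
    exact (hB (by omega)).trans (sg2_big_h14 (by omega) hx)
  · intro hx
    unfold cnL
    apply sum_eq_zero
    intro j hj
    rw [mem_range] at hj
    have h1 := blk_lt_h14 hβ (J - 1 - j) j (by omega)
    rw [hβ.bJ] at h1
    have hnot : x ∉ ZH P (β j) := by
      intro hxb
      rcases mem_ZH_h14.1 hxb with h | h
      · omega
      · omega
    rw [if_neg hnot, mul_zero, zero_div]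

end Pool.Agent.GRC
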