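import Pool.Agent.Helper28.GRC.Defs
import Pool.Agent.Helper73.SEM.LW5

/-!
# GRC-PB: codegree and injectivity bounds for the labelling of one piece (differences instead of sums)

Copy of `SEM.piece_bounds` (Helper73/SEM/LW5.lean, please copy and modify that proof) with the value `ad (φ i) (φ (p i)) = |φ i - φ (p i)|` of the edge `i ∈ P ∪ ex` and labels `0..n`.
The only change: for a given label `x` and a given difference `s` there are at most TWO labels `y` with `ad x y = s` (`x + s` and `x - s`), and there are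
`n + 1 ≤ 2 n` labels.  So every `n (U/n)^k` becomes at most `2 · 2n (U/n)^k` (and `n² (U/n)^4` becomes `16 n² (U/n)^4`); the constants `4 K²`, `8 K²` become `100 K²`, `400 K²`.

Details.  Edge of type I: `i ∈ P`, `i ≠ τ` (two random labels); the edges `τ` (value `ad (φ τ) (lab (p τ))`) and `r ∈ ex` (value `ad (lab r) (φ (p r))`) are
determined by one random label up to two possibilities.
* label/difference: `v ∈ P`, edge `i`: type I and `v ∉ {i, p i}`: three labels, one free, two signs: `2 · 2n (U/n)³`; `v ∈ {i, p i}`: `2 (U/n)²`; edge `τ`, `v ≠ τ`: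
  `2 (U/n)²`; edge `τ`, `v = τ`: needs `ad x (lab (p τ)) = s` and has probability `≤ U/n`; the same for the exit.
* two differences `s, s'` on distinct edges `i ≠ j` (the bound does not use `s ≠ s'`): type I, sharing a vertex: `4 · 2n (U/n)³`; disjoint: `4 (2n)² (U/n)⁴`; one of type I and one of the
  determined ones: `2 · 2 · 2n (U/n)³` or `4 (U/n)²`; `τ` and `r`: `4 (U/n)²` (`τ ≠ p r`).  The number of pairs of edges is `≤ (K+1)² ≤ 4 K²`, and `U³ ≤ U⁴`, so `≤ 64 K² U⁴/n²`.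
  The case of one edge with two different differences is empty.
* not injective: two vertices with the same label: `K² · 2n (U/n)²`; two edges with the same difference `s ∈ S ⊆ [1,n]`: sum over `n` values of the previous bound.
-/

set_option autoImplicit false

namespace Pool.Agent.GRC

open Finset Pool.Agent.SEM

section H46

variable {n : ℕ} {p lab : ℕ → ℕ} {R X S P ex : Finset ℕ} {τ K : ℕ} {U : ℝ} {L : FL}

private theorem Pr_mono_h46 (hnn : ∀ ω, 0 ≤ L.wt ω) {E F : (ℕ → ℕ) → Prop}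
    (h : ∀ ω, L.wt ω ≠ 0 → E (L.Φ ω) → F (L.Φ ω)) : L.Pr E ≤ L.Pr F := by
  unfold FL.Pr FL.Ex
  letI := L.fin
  refine Finset.sum_le_sum fun ω _ => ?_
  by_cases hw : L.wt ω = 0
  · rw [hw, zero_mul, zero_mul]
  · refine mul_le_mul_of_nonneg_left ?_ (hnn ω)
    beta_reduce
    by_cases hE : E (L.Φ ω)
    · rw [if_pos hE, if_pos (h ω hw hE)]
    · rw [if_neg hE]
      split_ifs <;> norm_num

private theorem Pr_nonneg_h46 (hnn : ∀ ω, 0 ≤ L.wt ω) (E : (ℕ → ℕ) → Prop) : 0 ≤ L.Pr E := by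
  unfold FL.Pr FL.Ex
  letI := L.fin
  refine Finset.sum_nonneg fun ω _ => mul_nonneg (hnn ω) ?_
  beta_reduce
  split_ifs <;> norm_num

private theorem Pr_zero_h46 (hnn : ∀ ω, 0 ≤ L.wt ω) {E : (ℕ → ℕ) → Prop}
    (h : ∀ ω, L.wt ω ≠ 0 → ¬ E (L.Φ ω)) : L.Pr E ≤ 0 := by
  unfold FL.Pr FL.Ex
  letI := L.fin
  refine Finset.sum_nonpos fun ω _ => ?_
  by_cases hw : L.wt ω = 0
  · rw [hw, zero_mul]
  · beta_reduce
    rw [if_neg (h ω hw), mul_zero]

open Classical in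
private theorem Pr_union_h46 (hnn : ∀ ω, 0 ≤ L.wt ω) {ι : Type*} (s : Finset ι)
    (E : ι → (ℕ → ℕ) → Prop) :
    L.Pr (fun φ => ∃ i ∈ s, E i φ) ≤ ∑ i ∈ s, L.Pr (E i) := by
  unfold FL.Pr FL.Ex
  letI := L.fin
  rw [Finset.sum_comm]
  refine Finset.sum_le_sum fun ω _ => ?_
  rw [← Finset.mul_sum]
  refine mul_le_mul_of_nonneg_left ?_ (hnn ω)
  beta_reduce
  by_cases h : ∃ i ∈ s, E i (L.Φ ω)
  · rw [if_pos h]
    obtain ⟨i, hi, hE⟩ := h
    calc (1 : ℝ) = (if E i (L.Φ ω) then (1:ℝ) else 0) := by rw [if_pos hE]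
      _ ≤ _ := Finset.single_le_sum (f := fun i => if E i (L.Φ ω) then (1:ℝ) else 0)
          (fun j _ => by split_ifs <;> norm_num) hi
  · rw [if_neg h]
    exact Finset.sum_nonneg fun j _ => by split_ifs <;> norm_num

private theorem P1_h46 (hL : PD n p R lab X S P ex U L) {a : ℕ} (ha : a ∈ P)
    {E : (ℕ → ℕ) → Prop} (xa : ℕ)
    (hE : ∀ ω, L.wt ω ≠ 0 → E (L.Φ ω) → L.Φ ω a = xa) : L.Pr E ≤ U / n := by
  have h := hL.joint {a} (Finset.singleton_subset_iff.mpr ha) (fun _ => xa)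
  rw [Finset.card_singleton, pow_one] at h
  refine (Pr_mono_h46 hL.nn fun ω hw hE' => ?_).trans h
  intro v hv
  rw [Finset.mem_singleton.mp hv]
  exact hE ω hw hE'

private theorem P2_h46 (hL : PD n p R lab X S P ex U L) {a b : ℕ} (ha : a ∈ P) (hb : b ∈ P)
    (hab : a ≠ b) {E : (ℕ → ℕ) → Prop} (xa xb : ℕ)
    (hE : ∀ ω, L.wt ω ≠ 0 → E (L.Φ ω) → L.Φ ω a = xa ∧ L.Φ ω b = xb) :
    L.Pr E ≤ (U / n) ^ 2 := by
  have h := hL.joint {a, b} (by
    intro v hv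
    rcases Finset.mem_insert.mp hv with rfl | hv
    · exact ha
    · rw [Finset.mem_singleton.mp hv]; exact hb) (fun v => if v = a then xa else xb)
  rw [Finset.card_pair hab] at h
  refine (Pr_mono_h46 hL.nn fun ω hw hE' => ?_).trans h
  obtain ⟨h1, h2⟩ := hE ω hw hE'
  intro v hv
  rcases Finset.mem_insert.mp hv with rfl | hv
  · rw [if_pos rfl]; exact h1
  · rw [Finset.mem_singleton.mp hv, if_neg hab.symm]; exact h2

private theorem P3_h46 (hL : PD n p R lab X S P ex U L) {a b c : ℕ} (ha : a ∈ P) (hb : b ∈ P)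
    (hc : c ∈ P) (hab : a ≠ b) (hac : a ≠ c) (hbc : b ≠ c) {E : (ℕ → ℕ) → Prop}
    (xa xb xc : ℕ)
    (hE : ∀ ω, L.wt ω ≠ 0 → E (L.Φ ω) →
      L.Φ ω a = xa ∧ L.Φ ω b = xb ∧ L.Φ ω c = xc) :
    L.Pr E ≤ (U / n) ^ 3 := by
  have h := hL.joint {a, b, c} (by
    intro v hv
    rcases Finset.mem_insert.mp hv with rfl | hv
    · exact ha
    rcases Finset.mem_insert.mp hv with rfl | hv
    · exact hb
    · rw [Finset.mem_singleton.mp hv]; exact hc)
    (fun v => if v = a then xa else if v = b then xb else xc)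
  have hcard : ({a, b, c} : Finset ℕ).card = 3 := by
    rw [Finset.card_insert_of_notMem (by simp [hab, hac]),
      Finset.card_pair hbc]
  rw [hcard] at h
  refine (Pr_mono_h46 hL.nn fun ω hw hE' => ?_).trans h
  obtain ⟨h1, h2, h3⟩ := hE ω hw hE'
  intro v hv
  rcases Finset.mem_insert.mp hv with rfl | hv
  · rw [if_pos rfl]; exact h1
  rcases Finset.mem_insert.mp hv with rfl | hv
  · rw [if_neg hab.symm, if_pos rfl]; exact h2
  · rw [Finset.mem_singleton.mp hv, if_neg hac.symm, if_neg hbc.symm]; exact h3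

private theorem P4_h46 (hL : PD n p R lab X S P ex U L) {a b c d : ℕ} (ha : a ∈ P)
    (hb : b ∈ P) (hc : c ∈ P) (hd : d ∈ P) (hab : a ≠ b) (hac : a ≠ c) (had : a ≠ d)
    (hbc : b ≠ c) (hbd : b ≠ d) (hcd : c ≠ d) {E : (ℕ → ℕ) → Prop} (xa xb xc xd : ℕ)
    (hE : ∀ ω, L.wt ω ≠ 0 → E (L.Φ ω) →
      L.Φ ω a = xa ∧ L.Φ ω b = xb ∧ L.Φ ω c = xc ∧ L.Φ ω d = xd) :
    L.Pr E ≤ (U / n) ^ 4 := by
  have h := hL.joint {a, b, c, d} (by
    intro v hv
    rcases Finset.mem_insert.mp hv with rfl | hv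
    · exact ha
    rcases Finset.mem_insert.mp hv with rfl | hv
    · exact hb
    rcases Finset.mem_insert.mp hv with rfl | hv
    · exact hc
    · rw [Finset.mem_singleton.mp hv]; exact hd)
    (fun v => if v = a then xa else if v = b then xb else if v = c then xc else xd)
  have hcard : ({a, b, c, d} : Finset ℕ).card = 4 := by
    rw [Finset.card_insert_of_notMem (by simp [hab, hac, had]),
      Finset.card_insert_of_notMem (by simp [hbc, hbd]), Finset.card_pair hcd]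
  rw [hcard] at h
  refine (Pr_mono_h46 hL.nn fun ω hw hE' => ?_).trans h
  obtain ⟨h1, h2, h3, h4⟩ := hE ω hw hE'
  intro v hv
  rcases Finset.mem_insert.mp hv with rfl | hv
  · rw [if_pos rfl]; exact h1
  rcases Finset.mem_insert.mp hv with rfl | hv
  · rw [if_neg hab.symm, if_pos rfl]; exact h2
  rcases Finset.mem_insert.mp hv with rfl | hv
  · rw [if_neg hac.symm, if_neg hbc.symm, if_pos rfl]; exact h3
  · rw [Finset.mem_singleton.mp hv, if_neg had.symm, if_neg hbd.symm, if_neg hcd.symm]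
    exact h4


private theorem or2_h46 (hnn : ∀ ω, 0 ≤ L.wt ω) {E E1 E2 : (ℕ → ℕ) → Prop}
    (h : ∀ ω, L.wt ω ≠ 0 → E (L.Φ ω) → E1 (L.Φ ω) ∨ E2 (L.Φ ω)) :
    L.Pr E ≤ L.Pr E1 + L.Pr E2 := by
  unfold FL.Pr FL.Ex
  letI := L.fin
  rw [← Finset.sum_add_distrib]
  refine Finset.sum_le_sum fun ω _ => ?_
  rw [← mul_add]
  by_cases hw : L.wt ω = 0
  · rw [hw, zero_mul, zero_mul]
  refine mul_le_mul_of_nonneg_left ?_ (hnn ω)
  beta_reduce
  by_cases hE : E (L.Φ ω)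
  · rw [if_pos hE]
    rcases h ω hw hE with h1 | h1
    · rw [if_pos h1]
      split_ifs <;> norm_num
    · rw [if_pos h1]
      split_ifs <;> norm_num
  · rw [if_neg hE]
    split_ifs <;> norm_num

/-- one vertex, two values -/
private theorem Q1_h46 (hL : PD n p R lab X S P ex U L) {a : ℕ} (ha : a ∈ P)
    {E : (ℕ → ℕ) → Prop} (xa xa' : ℕ)
    (hE : ∀ ω, L.wt ω ≠ 0 → E (L.Φ ω) → L.Φ ω a = xa ∨ L.Φ ω a = xa') :
    L.Pr E ≤ 2 * (U / n) := by
  have h := or2_h46 hL.nn (E := E) (E1 := fun φ => φ a = xa) (E2 := fun φ => φ a = xa') hE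
  have h1 := P1_h46 hL ha (E := fun φ => φ a = xa) xa (fun ω _ h => h)
  have h2 := P1_h46 hL ha (E := fun φ => φ a = xa') xa' (fun ω _ h => h)
  linarith

/-- two vertices, one of them with two values -/
private theorem Q2_h46 (hL : PD n p R lab X S P ex U L) {a b : ℕ} (ha : a ∈ P) (hb : b ∈ P)
    (hab : a ≠ b) {E : (ℕ → ℕ) → Prop} (xa xb xb' : ℕ)
    (hE : ∀ ω, L.wt ω ≠ 0 → E (L.Φ ω) →
      L.Φ ω a = xa ∧ (L.Φ ω b = xb ∨ L.Φ ω b = xb')) :
    L.Pr E ≤ 2 * (U / n) ^ 2 := by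
  have h := or2_h46 hL.nn (E := E) (E1 := fun φ => φ a = xa ∧ φ b = xb)
    (E2 := fun φ => φ a = xa ∧ φ b = xb') (fun ω hw h => by
      obtain ⟨h1, h2 | h2⟩ := hE ω hw h
      · exact Or.inl ⟨h1, h2⟩
      · exact Or.inr ⟨h1, h2⟩)
  have h1 := P2_h46 hL ha hb hab (E := fun φ => φ a = xa ∧ φ b = xb) xa xb (fun ω _ h => h)
  have h2 := P2_h46 hL ha hb hab (E := fun φ => φ a = xa ∧ φ b = xb') xa xb' (fun ω _ h => h)
  linarith

/-- three vertices, one of them with two values -/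
private theorem Q3_h46 (hL : PD n p R lab X S P ex U L) {a b c : ℕ} (ha : a ∈ P) (hb : b ∈ P)
    (hc : c ∈ P) (hab : a ≠ b) (hac : a ≠ c) (hbc : b ≠ c) {E : (ℕ → ℕ) → Prop}
    (xa xb xc xc' : ℕ)
    (hE : ∀ ω, L.wt ω ≠ 0 → E (L.Φ ω) →
      L.Φ ω a = xa ∧ L.Φ ω b = xb ∧ (L.Φ ω c = xc ∨ L.Φ ω c = xc')) :
    L.Pr E ≤ 2 * (U / n) ^ 3 := by
  have h := or2_h46 hL.nn (E := E) (E1 := fun φ => φ a = xa ∧ φ b = xb ∧ φ c = xc)
    (E2 := fun φ => φ a = xa ∧ φ b = xb ∧ φ c = xc') (fun ω hw h => by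
      obtain ⟨h1, h2, h3 | h3⟩ := hE ω hw h
      · exact Or.inl ⟨h1, h2, h3⟩
      · exact Or.inr ⟨h1, h2, h3⟩)
  have h1 := P3_h46 hL ha hb hc hab hac hbc
    (E := fun φ => φ a = xa ∧ φ b = xb ∧ φ c = xc) xa xb xc (fun ω _ h => h)
  have h2 := P3_h46 hL ha hb hc hab hac hbc
    (E := fun φ => φ a = xa ∧ φ b = xb ∧ φ c = xc') xa xb xc' (fun ω _ h => h)
  linarith

/-- two vertices with two values each -/
private theorem R2_h46 (hL : PD n p R lab X S P ex U L) {a b : ℕ} (ha : a ∈ P) (hb : b ∈ P)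
    (hab : a ≠ b) {E : (ℕ → ℕ) → Prop} (xa xa' xb xb' yb yb' : ℕ)
    (hE : ∀ ω, L.wt ω ≠ 0 → E (L.Φ ω) →
      (L.Φ ω a = xa ∧ (L.Φ ω b = xb ∨ L.Φ ω b = xb')) ∨
      (L.Φ ω a = xa' ∧ (L.Φ ω b = yb ∨ L.Φ ω b = yb'))) :
    L.Pr E ≤ 4 * (U / n) ^ 2 := by
  have h := or2_h46 hL.nn (E := E) (E1 := fun φ => φ a = xa ∧ (φ b = xb ∨ φ b = xb'))
    (E2 := fun φ => φ a = xa' ∧ (φ b = yb ∨ φ b = yb')) hE
  have h1 := Q2_h46 hL ha hb hab
    (E := fun φ => φ a = xa ∧ (φ b = xb ∨ φ b = xb')) xa xb xb' (fun ω _ h => h)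
  have h2 := Q2_h46 hL ha hb hab
    (E := fun φ => φ a = xa' ∧ (φ b = yb ∨ φ b = yb')) xa' yb yb' (fun ω _ h => h)
  linarith

/-- three vertices, two of them with two values each -/
private theorem R3_h46 (hL : PD n p R lab X S P ex U L) {a b c : ℕ} (ha : a ∈ P) (hb : b ∈ P)
    (hc : c ∈ P) (hab : a ≠ b) (hac : a ≠ c) (hbc : b ≠ c) {E : (ℕ → ℕ) → Prop}
    (xa xb xb' xc xc' yc yc' : ℕ)
    (hE : ∀ ω, L.wt ω ≠ 0 → E (L.Φ ω) →
      L.Φ ω a = xa ∧ ((L.Φ ω b = xb ∧ (L.Φ ω c = xc ∨ L.Φ ω c = xc')) ∨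
        (L.Φ ω b = xb' ∧ (L.Φ ω c = yc ∨ L.Φ ω c = yc')))) :
    L.Pr E ≤ 4 * (U / n) ^ 3 := by
  have h := or2_h46 hL.nn (E := E)
    (E1 := fun φ => φ a = xa ∧ φ b = xb ∧ (φ c = xc ∨ φ c = xc'))
    (E2 := fun φ => φ a = xa ∧ φ b = xb' ∧ (φ c = yc ∨ φ c = yc')) (fun ω hw h => by
      obtain ⟨h1, h2 | h2⟩ := hE ω hw h
      · exact Or.inl ⟨h1, h2⟩
      · exact Or.inr ⟨h1, h2⟩)
  have h1 := Q3_h46 hL ha hb hc hab hac hbc
    (E := fun φ => φ a = xa ∧ φ b = xb ∧ (φ c = xc ∨ φ c = xc')) xa xb xc xc' (fun ω _ h => h)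
  have h2 := Q3_h46 hL ha hb hc hab hac hbc
    (E := fun φ => φ a = xa ∧ φ b = xb' ∧ (φ c = yc ∨ φ c = yc')) xa xb' yc yc'
    (fun ω _ h => h)
  linarith

/-- four vertices, two of them with two values each -/
private theorem R4_h46 (hL : PD n p R lab X S P ex U L) {a b c d : ℕ} (ha : a ∈ P)
    (hb : b ∈ P) (hc : c ∈ P) (hd : d ∈ P) (hab : a ≠ b) (hac : a ≠ c) (had : a ≠ d)
    (hbc : b ≠ c) (hbd : b ≠ d) (hcd : c ≠ d) {E : (ℕ → ℕ) → Prop} (xa xb xb' xc xd xd' : ℕ)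
    (hE : ∀ ω, L.wt ω ≠ 0 → E (L.Φ ω) →
      L.Φ ω a = xa ∧ (L.Φ ω b = xb ∨ L.Φ ω b = xb') ∧ L.Φ ω c = xc ∧
        (L.Φ ω d = xd ∨ L.Φ ω d = xd')) :
    L.Pr E ≤ 4 * (U / n) ^ 4 := by
  have key : ∀ u v, L.Pr (fun φ => φ a = xa ∧ φ b = u ∧ φ c = xc ∧ φ d = v) ≤ (U / n) ^ 4 :=
    fun u v => P4_h46 hL ha hb hc hd hab hac had hbc hbd hcd xa u xc v (fun ω _ h => h)
  have h := or2_h46 hL.nn (E := E)
    (E1 := fun φ => φ a = xa ∧ φ b = xb ∧ φ c = xc ∧ (φ d = xd ∨ φ d = xd'))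
    (E2 := fun φ => φ a = xa ∧ φ b = xb' ∧ φ c = xc ∧ (φ d = xd ∨ φ d = xd'))
    (fun ω hw h => by
      obtain ⟨h1, h2 | h2, h3, h4⟩ := hE ω hw h
      · exact Or.inl ⟨h1, h2, h3, h4⟩
      · exact Or.inr ⟨h1, h2, h3, h4⟩)
  have hh : ∀ u, L.Pr (fun φ => φ a = xa ∧ φ b = u ∧ φ c = xc ∧ (φ d = xd ∨ φ d = xd')) ≤
      2 * (U / n) ^ 4 := fun u => by
    have h5 := or2_h46 hL.nn
      (E := fun φ => φ a = xa ∧ φ b = u ∧ φ c = xc ∧ (φ d = xd ∨ φ d = xd'))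
      (E1 := fun φ => φ a = xa ∧ φ b = u ∧ φ c = xc ∧ φ d = xd)
      (E2 := fun φ => φ a = xa ∧ φ b = u ∧ φ c = xc ∧ φ d = xd')
      (fun ω hw h => by
        obtain ⟨h1, h2, h3, h4 | h4⟩ := h
        · exact Or.inl ⟨h1, h2, h3, h4⟩
        · exact Or.inr ⟨h1, h2, h3, h4⟩)
    linarith [key u xd, key u xd']
  linarith [hh xb, hh xb']

/-- fix the label of one vertex of `P` -/
private theorem cond_h46 (hL : PD n p R lab X S P ex U L) (hn : 1 ≤ n)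
    (hX : X ⊆ range (n + 1)) {a : ℕ}
    (ha : a ∈ P) {E : (ℕ → ℕ) → Prop} {B : ℝ} (hB : 0 ≤ B)
    (h : ∀ x, L.Pr (fun φ => E φ ∧ φ a = x) ≤ B) : L.Pr E ≤ 2 * n * B := by
  have h1 : L.Pr E ≤ L.Pr (fun φ => ∃ x ∈ X, (E φ ∧ φ a = x)) :=
    Pr_mono_h46 hL.nn fun ω hw hE => ⟨L.Φ ω a, hL.lbl ω hw a ha, hE, rfl⟩
  refine h1.trans ((Pr_union_h46 hL.nn X (fun x φ => E φ ∧ φ a = x)).trans ?_)
  refine (Finset.sum_le_sum fun x _ => h x).trans ?_
  rw [Finset.sum_const, nsmul_eq_mul]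
  refine mul_le_mul_of_nonneg_right ?_ hB
  have := Finset.card_le_card hX
  rw [Finset.card_range] at this
  have h2 : X.card ≤ 2 * n := this.trans (by omega)
  exact_mod_cast h2

private theorem arith_h46 (hn : 1 ≤ n) (hU : 1 ≤ U) :
    (U / n) ^ 2 ≤ U ^ 4 / n ^ 2 ∧ 2 * (n : ℝ) * (4 * (U / n) ^ 3) ≤ 8 * (U ^ 4 / n ^ 2) ∧
      2 * (n : ℝ) * (2 * n * (4 * (U / n) ^ 4)) ≤ 16 * (U ^ 4 / n ^ 2) ∧
      U / n ≤ U ^ 4 / n ∧
      2 * (n : ℝ) * (2 * (U / n) ^ 2) ≤ 4 * (U ^ 4 / n) ∧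
      2 * (n : ℝ) * (2 * (U / n) ^ 3) ≤ 4 * (U ^ 4 / n ^ 2) ∧
      2 * (n : ℝ) * ((U / n) ^ 2) ≤ 2 * (U ^ 4 / n) := by
  have hn0 : (0 : ℝ) < n := by exact_mod_cast hn
  have hU0 : 0 < U := by linarith
  have h24 : U ^ 2 ≤ U ^ 4 := pow_le_pow_right₀ hU (by norm_num)
  have h34 : U ^ 3 ≤ U ^ 4 := pow_le_pow_right₀ hU (by norm_num)
  have h14 : U ≤ U ^ 4 := by
    calc U = U ^ 1 := (pow_one U).symm
      _ ≤ U ^ 4 := pow_le_pow_right₀ hU (by norm_num)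
  have e3 : (n : ℝ) * (U / n) ^ 3 ≤ U ^ 4 / n ^ 2 := by
    have : (n : ℝ) * (U / n) ^ 3 = U ^ 3 / n ^ 2 := by field_simp
    rw [this]
    exact div_le_div_of_nonneg_right h34 (by positivity)
  have e4 : (n : ℝ) * (n * (U / n) ^ 4) = U ^ 4 / n ^ 2 := by field_simp
  have e2 : (n : ℝ) * (U / n) ^ 2 ≤ U ^ 4 / n := by
    have : (n : ℝ) * (U / n) ^ 2 = U ^ 2 / n := by field_simp
    rw [this]
    exact div_le_div_of_nonneg_right h24 hn0.le
  refine ⟨?_, by linarith, by linarith, ?_, by linarith, by linarith, by linarith⟩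
  · rw [div_pow]
    exact div_le_div_of_nonneg_right h24 (by positivity)
  · exact div_le_div_of_nonneg_right h14 hn0.le

/-- the two kinds of edges -/
private theorem kinds_h46 (hG : Geo p R P ex τ) (hL : PD n p R lab X S P ex U L) {i : ℕ}
    (hi : i ∈ P ∪ ex) :
    (i ∈ P ∧ i ≠ τ ∧ p i ∈ P ∧ p i < i) ∨
      (i = τ ∧ ∀ ω, ad (L.Φ ω i) (L.Φ ω (p i)) = ad (L.Φ ω τ) (lab (p τ))) ∨
      (i ∈ ex ∧ i ∉ P ∧ p i ∈ P ∧ p i ≠ τ ∧
        ∀ ω, ad (L.Φ ω i) (L.Φ ω (p i)) = ad (L.Φ ω (p i)) (lab i)) := by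
  rcases Finset.mem_union.mp hi with hi | hi
  · by_cases hτ : i = τ
    · right; left
      refine ⟨hτ, fun ω => ?_⟩
      rw [hτ, hL.onR ω _ hG.tR]
    · left
      exact ⟨hi, hτ, hG.st i hi hτ, hG.lt i hi⟩
  · right; right
    refine ⟨hi, ?_, (hG.exP i hi).1, (hG.exP i hi).2, fun ω => ?_⟩
    · intro hP
      exact Finset.disjoint_left.mp hG.PR hP (hG.exR hi)
    · rw [hL.onR ω _ (hG.exR hi), ad_comm]

private theorem ad1_h46 {x y s : ℕ} (h : ad x y = s) : y = x + s ∨ y = x - s := by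
  unfold ad at h; omega

private theorem ad2_h46 {x y s : ℕ} (h : ad x y = s) : x = y + s ∨ x = y - s := by
  unfold ad at h; omega

/-- one difference -/
private theorem sum1_h46 (hn : 1 ≤ n) (hX : X ⊆ range (n + 1)) (hU : 1 ≤ U)
    (hG : Geo p R P ex τ)
    (hL : PD n p R lab X S P ex U L) {i : ℕ} (hi : i ∈ P ∪ ex) (s : ℕ) :
    L.Pr (fun φ => ad (φ i) (φ (p i)) = s) ≤ 4 * (U ^ 4 / n) := by
  obtain ⟨-, -, -, ha4, ha5, -, -⟩ := arith_h46 (n := n) hn hU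
  have hn0 : (0 : ℝ) < n := by exact_mod_cast hn
  have hU0 : 0 < U := by linarith
  have hA : (0:ℝ) ≤ U ^ 4 / n := by positivity
  rcases kinds_h46 hG hL hi with ⟨hiP, -, hpP, hlt⟩ | ⟨-, hsum⟩ | ⟨-, -, hpP, -, hsum⟩
  · refine (cond_h46 hL hn hX hiP (B := 2 * (U / n) ^ 2) (by positivity) fun x => ?_).trans ha5
    refine Q2_h46 hL hiP hpP hlt.ne' x (x + s) (x - s) fun ω _ hE => ?_
    obtain ⟨h1, h2⟩ := hE
    rw [h2] at h1
    exact ⟨h2, ad1_h46 h1⟩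
  · refine (Q1_h46 hL hG.tP (lab (p τ) + s) (lab (p τ) - s) fun ω _ hE => ?_).trans
      (by linarith)
    rw [hsum ω] at hE
    exact ad2_h46 hE
  · refine (Q1_h46 hL hpP (lab i + s) (lab i - s) fun ω _ hE => ?_).trans (by linarith)
    rw [hsum ω] at hE
    exact ad2_h46 hE

private theorem swap_h46 (hnn : ∀ ω, 0 ≤ L.wt ω) {E F : (ℕ → ℕ) → Prop} :
    L.Pr (fun φ => E φ ∧ F φ) ≤ L.Pr (fun φ => F φ ∧ E φ) :=
  Pr_mono_h46 hnn fun _ _ h => ⟨h.2, h.1⟩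

/-- an inner edge and a determined edge -/
private theorem inner_det_h46 (hn : 1 ≤ n) (hX : X ⊆ range (n + 1)) (hU : 1 ≤ U)
    (hL : PD n p R lab X S P ex U L) {i j w c : ℕ} (hiP : i ∈ P) (hpP : p i ∈ P)
    (hlt : p i < i) (hw : w ∈ P)
    (hsum : ∀ ω, ad (L.Φ ω j) (L.Φ ω (p j)) = ad (L.Φ ω w) c) (s s' : ℕ) :
    L.Pr (fun φ => ad (φ i) (φ (p i)) = s ∧ ad (φ j) (φ (p j)) = s') ≤
      16 * (U ^ 4 / n ^ 2) := by
  obtain ⟨ha1, ha2, -, -, -, -, -⟩ := arith_h46 (n := n) hn hU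
  have hn0 : (0 : ℝ) < n := by exact_mod_cast hn
  have hU0 : 0 < U := by linarith
  have hB : (0:ℝ) ≤ U ^ 4 / n ^ 2 := by positivity
  by_cases h1 : w = i
  · refine (R2_h46 hL hiP hpP hlt.ne' (c + s') (c - s') (c + s' + s) (c + s' - s)
      (c - s' + s) (c - s' - s) fun ω _ hE => ?_).trans (by linarith)
    obtain ⟨h2, h3⟩ := hE
    rw [hsum ω, h1] at h3
    rcases ad2_h46 h3 with h4 | h4
    · left
      rw [h4] at h2
      exact ⟨h4, ad1_h46 h2⟩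
    · right
      rw [h4] at h2
      exact ⟨h4, ad1_h46 h2⟩
  by_cases h2 : w = p i
  · refine (R2_h46 hL hpP hiP hlt.ne (c + s') (c - s') (c + s' + s) (c + s' - s)
      (c - s' + s) (c - s' - s) fun ω _ hE => ?_).trans (by linarith)
    obtain ⟨h3, h4⟩ := hE
    rw [hsum ω, h2] at h4
    rcases ad2_h46 h4 with h5 | h5
    · left
      rw [h5] at h3
      exact ⟨h5, ad2_h46 h3⟩
    · right
      rw [h5] at h3
      exact ⟨h5, ad2_h46 h3⟩
  · refine (cond_h46 hL hn hX hiP (B := 4 * (U / n) ^ 3) (by positivity) fun x => ?_).trans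
      (ha2.trans (by linarith))
    refine R3_h46 hL hiP hpP hw hlt.ne' (Ne.symm h1) (Ne.symm h2) x (x + s) (x - s)
      (c + s') (c - s') (c + s') (c - s') fun ω _ hE => ?_
    obtain ⟨⟨h3, h4⟩, h5⟩ := hE
    rw [hsum ω] at h4
    rw [h5] at h3
    refine ⟨h5, ?_⟩
    rcases ad1_h46 h3 with h6 | h6
    · exact Or.inl ⟨h6, ad2_h46 h4⟩
    · exact Or.inr ⟨h6, ad2_h46 h4⟩

/-- two inner edges -/
private theorem inner_inner_h46 (hn : 1 ≤ n) (hX : X ⊆ range (n + 1)) (hU : 1 ≤ U)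
    (hL : PD n p R lab X S P ex U L) {i j : ℕ} (hiP : i ∈ P) (hpP : p i ∈ P)
    (hlt : p i < i) (hjP : j ∈ P) (hqP : p j ∈ P) (hlt' : p j < j) (hij : i ≠ j)
    (s s' : ℕ) :
    L.Pr (fun φ => ad (φ i) (φ (p i)) = s ∧ ad (φ j) (φ (p j)) = s') ≤
      16 * (U ^ 4 / n ^ 2) := by
  obtain ⟨ha1, ha2, ha3, -, -, -, -⟩ := arith_h46 (n := n) hn hU
  have hn0 : (0 : ℝ) < n := by exact_mod_cast hn
  have hU0 : 0 < U := by linarith
  have hB : (0:ℝ) ≤ U ^ 4 / n ^ 2 := by positivity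
  -- a common vertex `c`, the other ends `a`, `b`
  have key : ∀ a b c, a ∈ P → b ∈ P → c ∈ P → c ≠ a → c ≠ b → a ≠ b →
      ∀ E : (ℕ → ℕ) → Prop, (∀ φ : ℕ → ℕ, E φ → ad (φ a) (φ c) = s ∧ ad (φ b) (φ c) = s') →
      L.Pr E ≤ 16 * (U ^ 4 / n ^ 2) := by
    intro a b c ha hb hc hca hcb hab E hE
    refine (cond_h46 hL hn hX hc (B := 4 * (U / n) ^ 3) (by positivity) fun x => ?_).trans
      (ha2.trans (by linarith))
    refine R3_h46 hL hc ha hb hca hcb hab x (x + s) (x - s)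
      (x + s') (x - s') (x + s') (x - s') fun ω _ hE' => ?_
    obtain ⟨h1, h2⟩ := hE'
    obtain ⟨h3, h4⟩ := hE _ h1
    rw [h2] at h3 h4
    refine ⟨h2, ?_⟩
    rcases ad2_h46 h3 with h6 | h6
    · exact Or.inl ⟨h6, ad2_h46 h4⟩
    · exact Or.inr ⟨h6, ad2_h46 h4⟩
  by_cases h1 : p i = j
  · refine key i (p j) j hiP hqP hjP (Ne.symm hij) hlt'.ne' (by omega) _ fun φ hE => ?_
    obtain ⟨h3, h4⟩ := hE
    rw [h1] at h3
    exact ⟨h3, (ad_comm _ _).trans h4⟩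
  by_cases h2 : p j = i
  · refine key (p i) j i hpP hjP hiP hlt.ne' hij (by omega) _ fun φ hE => ?_
    obtain ⟨h3, h4⟩ := hE
    rw [h2] at h4
    exact ⟨(ad_comm _ _).trans h3, h4⟩
  by_cases h3 : p i = p j
  · refine key i j (p i) hiP hjP hpP hlt.ne (by omega) hij _ fun φ hE => ?_
    obtain ⟨h4, h5⟩ := hE
    rw [← h3] at h5
    exact ⟨h4, h5⟩
  · refine (cond_h46 hL hn hX hiP (B := 2 * n * (4 * (U / n) ^ 4)) (by positivity)
      fun x => ?_).trans ha3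
    refine cond_h46 hL hn hX hjP (B := 4 * (U / n) ^ 4) (by positivity) fun y => ?_
    refine R4_h46 hL hiP hpP hjP hqP hlt.ne' hij (Ne.symm h2) h1 h3 hlt'.ne' x (x + s)
      (x - s) y (y + s') (y - s') fun ω _ hE => ?_
    obtain ⟨⟨⟨h4, h5⟩, h6⟩, h7⟩ := hE
    rw [h6] at h4
    rw [h7] at h5
    exact ⟨h6, ad1_h46 h4, h7, ad1_h46 h5⟩

/-- two differences -/
private theorem sum2_h46 (hn : 1 ≤ n) (hX : X ⊆ range (n + 1)) (hU : 1 ≤ U)
    (hG : Geo p R P ex τ)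
    (hL : PD n p R lab X S P ex U L) {i j : ℕ} (hi : i ∈ P ∪ ex) (hj : j ∈ P ∪ ex)
    (hij : i ≠ j) (s s' : ℕ) :
    L.Pr (fun φ => ad (φ i) (φ (p i)) = s ∧ ad (φ j) (φ (p j)) = s') ≤
      16 * (U ^ 4 / n ^ 2) := by
  obtain ⟨ha1, -, -, -, -, -, -⟩ := arith_h46 (n := n) hn hU
  have hn0 : (0 : ℝ) < n := by exact_mod_cast hn
  have hU0 : 0 < U := by linarith
  have hB : (0:ℝ) ≤ U ^ 4 / n ^ 2 := by positivity
  rcases kinds_h46 hG hL hi with ⟨hiP, -, hpP, hlt⟩ | ⟨hiτ, hsum⟩ | ⟨hie, -, hpP, hpτ, hsum⟩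
  · rcases kinds_h46 hG hL hj with ⟨hjP, -, hqP, hlt'⟩ | ⟨-, hsum'⟩ | ⟨-, -, hqP, -, hsum'⟩
    · exact inner_inner_h46 hn hX hU hL hiP hpP hlt hjP hqP hlt' hij s s'
    · exact inner_det_h46 hn hX hU hL hiP hpP hlt hG.tP hsum' s s'
    · exact inner_det_h46 hn hX hU hL hiP hpP hlt hqP hsum' s s'
  · rcases kinds_h46 hG hL hj with ⟨hjP, -, hqP, hlt'⟩ | ⟨hjτ, hsum'⟩ |
      ⟨-, -, hqP, hqτ, hsum'⟩
    · exact (swap_h46 hL.nn).trans
        (inner_det_h46 hn hX hU hL hjP hqP hlt' hG.tP hsum s' s)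
    · exact absurd (hiτ.trans hjτ.symm) hij
    · refine (R2_h46 hL hG.tP hqP (Ne.symm hqτ) (lab (p τ) + s) (lab (p τ) - s)
        (lab j + s') (lab j - s') (lab j + s') (lab j - s') fun ω _ hE => ?_).trans
        (by linarith)
      obtain ⟨h1, h2⟩ := hE
      rw [hsum ω] at h1
      rw [hsum' ω] at h2
      rcases ad2_h46 h1 with h6 | h6
      · exact Or.inl ⟨h6, ad2_h46 h2⟩
      · exact Or.inr ⟨h6, ad2_h46 h2⟩
  · rcases kinds_h46 hG hL hj with ⟨hjP, -, hqP, hlt'⟩ | ⟨hjτ, hsum'⟩ |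
      ⟨hje, -, hqP, hqτ, hsum'⟩
    · exact (swap_h46 hL.nn).trans
        (inner_det_h46 hn hX hU hL hjP hqP hlt' hpP hsum s' s)
    · refine (R2_h46 hL hpP hG.tP hpτ (lab i + s) (lab i - s)
        (lab (p τ) + s') (lab (p τ) - s') (lab (p τ) + s') (lab (p τ) - s')
        fun ω _ hE => ?_).trans (by linarith)
      obtain ⟨h1, h2⟩ := hE
      rw [hsum ω] at h1
      rw [hsum' ω] at h2
      rcases ad2_h46 h1 with h6 | h6
      · exact Or.inl ⟨h6, ad2_h46 h2⟩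
      · exact Or.inr ⟨h6, ad2_h46 h2⟩
    · exact absurd (Finset.card_le_one.mp hG.ex1 i hie j hje) hij

/-- a label and the difference of a determined edge -/
private theorem lab_det_h46 (hn : 1 ≤ n) (hU : 1 ≤ U)
    (hL : PD n p R lab X S P ex U L) {v i w c : ℕ} (hv : v ∈ P) (hw : w ∈ P)
    (hsum : ∀ ω, ad (L.Φ ω i) (L.Φ ω (p i)) = ad (L.Φ ω w) c) (x s : ℕ) :
    L.Pr (fun φ => φ v = x ∧ ad (φ i) (φ (p i)) = s) ≤
      4 * (U ^ 4 / n ^ 2) + if v = w ∧ ad x c = s then U / n else 0 := by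
  obtain ⟨ha1, ha2, -, -, -, -, -⟩ := arith_h46 (n := n) hn hU
  have hn0 : (0 : ℝ) < n := by exact_mod_cast hn
  have hU0 : 0 < U := by linarith
  have hB : (0:ℝ) ≤ U ^ 4 / n ^ 2 := by positivity
  by_cases h1 : v = w
  · by_cases h2 : ad x c = s
    · rw [if_pos ⟨h1, h2⟩]
      have := P1_h46 hL hv (E := fun φ => φ v = x ∧ ad (φ i) (φ (p i)) = s) x
        (fun ω _ hE => hE.1)
      linarith
    · rw [if_neg (fun h => h2 h.2), add_zero]
      refine (Pr_zero_h46 hL.nn fun ω _ hE => h2 ?_).trans (by linarith)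
      obtain ⟨h3, h4⟩ := hE
      rw [hsum ω, ← h1, h3] at h4
      exact h4
  · rw [if_neg (fun h => h1 h.1), add_zero]
    refine (Q2_h46 hL hv hw h1 x (c + s) (c - s) fun ω _ hE => ?_).trans (by linarith)
    obtain ⟨h3, h4⟩ := hE
    rw [hsum ω] at h4
    exact ⟨h3, ad2_h46 h4⟩

/-- a label and a difference -/
private theorem lab_sum_h46 (hn : 1 ≤ n) (hX : X ⊆ range (n + 1)) (hU : 1 ≤ U)
    (hG : Geo p R P ex τ) (hL : PD n p R lab X S P ex U L) {v i : ℕ} (hv : v ∈ P)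
    (hi : i ∈ P ∪ ex) (x s : ℕ) :
    L.Pr (fun φ => φ v = x ∧ ad (φ i) (φ (p i)) = s) ≤ 4 * (U ^ 4 / n ^ 2) +
      (if i = τ ∧ v = τ then (if ad x (lab (p τ)) = s then U / n else 0) else 0) +
      (if i ∈ ex ∧ v = p i then (if ad x (lab i) = s then U / n else 0) else 0) := by
  obtain ⟨ha1, -, -, -, -, ha6, -⟩ := arith_h46 (n := n) hn hU
  have hn0 : (0 : ℝ) < n := by exact_mod_cast hn
  have hU0 : 0 < U := by linarith
  have hu : (0:ℝ) ≤ U / n := by positivity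
  have hB : (0:ℝ) ≤ U ^ 4 / n ^ 2 := by positivity
  rcases kinds_h46 hG hL hi with ⟨hiP, hiτ, hpP, hlt⟩ | ⟨hiτ, hsum⟩ |
    ⟨hie, hiP, hpP, hpτ, hsum⟩
  · rw [if_neg (fun h => hiτ h.1)]
    have hnex : ¬ (i ∈ ex ∧ v = p i) := fun h =>
      Finset.disjoint_left.mp hG.PR hiP (hG.exR h.1)
    rw [if_neg hnex, add_zero, add_zero]
    by_cases h1 : v = i
    · refine (Q2_h46 hL hiP hpP hlt.ne' x (x + s) (x - s) fun ω _ hE => ?_).trans
        (by linarith)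
      obtain ⟨h3, h4⟩ := hE
      rw [h1] at h3
      rw [h3] at h4
      exact ⟨h3, ad1_h46 h4⟩
    by_cases h2 : v = p i
    · refine (Q2_h46 hL hpP hiP hlt.ne x (x + s) (x - s) fun ω _ hE => ?_).trans
        (by linarith)
      obtain ⟨h3, h4⟩ := hE
      rw [h2] at h3
      rw [h3] at h4
      exact ⟨h3, ad2_h46 h4⟩
    · refine (cond_h46 hL hn hX hiP (B := 2 * (U / n) ^ 3) (by positivity)
        fun y => ?_).trans ha6
      refine Q3_h46 hL hv hiP hpP h1 h2 hlt.ne' x y (y + s) (y - s)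
        fun ω _ hE => ?_
      obtain ⟨⟨h3, h4⟩, h5⟩ := hE
      rw [h5] at h4
      exact ⟨h3, h5, ad1_h46 h4⟩
  · have h := lab_det_h46 hn hU hL hv hG.tP hsum x s
    refine h.trans ?_
    have h3 : (if v = τ ∧ ad x (lab (p τ)) = s then U / (n:ℝ) else 0) ≤
        (if i = τ ∧ v = τ then (if ad x (lab (p τ)) = s then U / n else 0) else 0) := by
      by_cases ha : v = τ ∧ ad x (lab (p τ)) = s
      · rw [if_pos ha, if_pos ⟨hiτ, ha.1⟩, if_pos ha.2]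
      · rw [if_neg ha]
        split_ifs <;> first | exact le_rfl | exact hu
    have h4 : (0:ℝ) ≤ (if i ∈ ex ∧ v = p i then
        (if ad x (lab i) = s then U / n else 0) else 0) := by
      split_ifs <;> first | exact le_rfl | exact hu
    linarith
  · have h := lab_det_h46 hn hU hL hv hpP hsum x s
    refine h.trans ?_
    have h3 : (if v = p i ∧ ad x (lab i) = s then U / (n:ℝ) else 0) ≤
        (if i ∈ ex ∧ v = p i then (if ad x (lab i) = s then U / n else 0) else 0) := by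
      by_cases ha : v = p i ∧ ad x (lab i) = s
      · rw [if_pos ha, if_pos ⟨hie, ha.1⟩, if_pos ha.2]
      · rw [if_neg ha]
        split_ifs <;> first | exact le_rfl | exact hu
    have h4 : (0:ℝ) ≤ (if i = τ ∧ v = τ then (if ad x (lab (p τ)) = s then U / n else 0)
        else 0) := by
      split_ifs <;> first | exact le_rfl | exact hu
    linarith

end H46

theorem piece_bounds {n : ℕ} {p lab : ℕ → ℕ} {R X S P ex : Finset ℕ} {τ K : ℕ} {U : ℝ} {L : FL}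
    (hn : 1 ≤ n) (hX : X ⊆ range (n + 1)) (hS : S ⊆ Icc 1 n) (hU : 1 ≤ U) (hK : P.card ≤ K) (hK1 : 1 ≤ K)
    (hG : Geo p R P ex τ) (hL : PD n p R lab X S P ex U L) :
    (∀ x, L.Pr (fun φ => ∃ v ∈ P, φ v = x) ≤ 100 * K ^ 2 * U ^ 4 / n) ∧
    (∀ s, L.Pr (fun φ => ∃ i ∈ P ∪ ex, ad (φ i) (φ (p i)) = s) ≤ 100 * K ^ 2 * U ^ 4 / n) ∧
    (∀ x x', x ≠ x' → L.Pr (fun φ => (∃ v ∈ P, φ v = x) ∧ ∃ v ∈ P, φ v = x') ≤
      100 * K ^ 2 * U ^ 4 / n ^ 2) ∧
    (∀ x s, L.Pr (fun φ => (∃ v ∈ P, φ v = x) ∧ ∃ i ∈ P ∪ ex, ad (φ i) (φ (p i)) = s) ≤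
      100 * K ^ 2 * U ^ 4 / n ^ 2 + (if ad x (lab (p τ)) = s then U / n else 0) +
        ∑ r ∈ ex, if ad x (lab r) = s then U / n else 0) ∧
    (∀ s s', s ≠ s' → L.Pr (fun φ => (∃ i ∈ P ∪ ex, ad (φ i) (φ (p i)) = s) ∧
      ∃ i ∈ P ∪ ex, ad (φ i) (φ (p i)) = s') ≤ 100 * K ^ 2 * U ^ 4 / n ^ 2) ∧
    (L.Pr (fun φ => ¬ (Set.InjOn φ P ∧ Set.InjOn (fun i => ad (φ i) (φ (p i))) (P ∪ ex : Finset ℕ))) ≤
      400 * K ^ 2 * U ^ 4 / n) := by
  obtain ⟨ha1, ha2, ha3, ha4, ha5, ha6, ha7⟩ := arith_h46 (n := n) hn hU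
  have hn0 : (0 : ℝ) < n := by exact_mod_cast hn
  have hU0 : 0 < U := by linarith
  have hK0 : (1 : ℝ) ≤ K := by exact_mod_cast hK1
  have hPc : (P.card : ℝ) ≤ K := by exact_mod_cast hK
  have hec : ((P ∪ ex).card : ℝ) ≤ 2 * K := by
    have h1 := Finset.card_union_le P ex
    have h2 := hG.ex1
    have h3 : (P ∪ ex).card ≤ 2 * K := by omega
    exact_mod_cast h3
  have hU4 : (0:ℝ) < U ^ 4 := by positivity
  have hA : (0:ℝ) ≤ U ^ 4 / n := by positivity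
  have hB : (0:ℝ) ≤ U ^ 4 / n ^ 2 := by positivity
  have hKK : (K:ℝ) ≤ K ^ 2 := by nlinarith
  refine ⟨?_, ?_, ?_, ?_, ?_, ?_⟩
  · intro x
    refine (Pr_union_h46 hL.nn P (fun v φ => φ v = x)).trans ?_
    refine (Finset.sum_le_sum fun v hv =>
      (P1_h46 hL hv (E := fun φ => φ v = x) x (fun ω _ h => h)).trans ha4).trans ?_
    rw [Finset.sum_const, nsmul_eq_mul]
    calc (P.card : ℝ) * (U ^ 4 / n) ≤ (100 * K ^ 2) * (U ^ 4 / n) :=
          mul_le_mul_of_nonneg_right (by nlinarith) hA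
      _ = 100 * K ^ 2 * U ^ 4 / n := by ring
  · intro s
    refine (Pr_union_h46 hL.nn (P ∪ ex) (fun i φ => ad (φ i) (φ (p i)) = s)).trans ?_
    refine (Finset.sum_le_sum fun i hi => sum1_h46 hn hX hU hG hL hi s).trans ?_
    rw [Finset.sum_const, nsmul_eq_mul]
    calc ((P ∪ ex).card : ℝ) * (4 * (U ^ 4 / n)) = (4 * (P ∪ ex).card) * (U ^ 4 / n) := by ring
      _ ≤ (100 * K ^ 2) * (U ^ 4 / n) :=
          mul_le_mul_of_nonneg_right (by nlinarith) hA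
      _ = 100 * K ^ 2 * U ^ 4 / n := by ring
  · intro x x' hxx
    have h1 : L.Pr (fun φ => (∃ v ∈ P, φ v = x) ∧ ∃ v ∈ P, φ v = x') ≤
        L.Pr (fun φ => ∃ q ∈ P ×ˢ P, (φ q.1 = x ∧ φ q.2 = x')) := by
      refine Pr_mono_h46 hL.nn fun ω _ hE => ?_
      obtain ⟨⟨v, hv, h2⟩, w, hw, h3⟩ := hE
      exact ⟨(v, w), Finset.mem_product.mpr ⟨hv, hw⟩, h2, h3⟩
    refine h1.trans ((Pr_union_h46 hL.nn (P ×ˢ P)
      (fun q φ => φ q.1 = x ∧ φ q.2 = x')).trans ?_)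
    refine (Finset.sum_le_sum (g := fun _ => U ^ 4 / (n:ℝ) ^ 2) fun q hq => ?_).trans ?_
    · obtain ⟨hq1, hq2⟩ := Finset.mem_product.mp hq
      by_cases h : q.1 = q.2
      · refine (Pr_zero_h46 hL.nn fun ω _ hE => hxx ?_).trans hB
        rw [← hE.1, ← hE.2, h]
      · exact (P2_h46 hL hq1 hq2 h x x' (fun ω _ hE => hE)).trans ha1
    · rw [Finset.sum_const, nsmul_eq_mul, Finset.card_product, Nat.cast_mul]
      have h2 : (P.card : ℝ) * P.card ≤ 4 * K ^ 2 := by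
        have := mul_le_mul hPc hPc (Nat.cast_nonneg _) (by linarith)
        nlinarith
      calc (P.card : ℝ) * P.card * (U ^ 4 / n ^ 2) ≤ (100 * K ^ 2) * (U ^ 4 / n ^ 2) :=
            mul_le_mul_of_nonneg_right (by nlinarith) hB
        _ = 100 * K ^ 2 * U ^ 4 / n ^ 2 := by ring
  · intro x s
    have h1 : L.Pr (fun φ => (∃ v ∈ P, φ v = x) ∧ ∃ i ∈ P ∪ ex, ad (φ i) (φ (p i)) = s) ≤
        L.Pr (fun φ => ∃ q ∈ P ×ˢ (P ∪ ex), (φ q.1 = x ∧ ad (φ q.2) (φ (p q.2)) = s)) := by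
      refine Pr_mono_h46 hL.nn fun ω _ hE => ?_
      obtain ⟨⟨v, hv, h2⟩, w, hw, h3⟩ := hE
      exact ⟨(v, w), Finset.mem_product.mpr ⟨hv, hw⟩, h2, h3⟩
    refine h1.trans ((Pr_union_h46 hL.nn (P ×ˢ (P ∪ ex))
      (fun q φ => φ q.1 = x ∧ ad (φ q.2) (φ (p q.2)) = s)).trans ?_)
    refine (Finset.sum_le_sum fun q hq => lab_sum_h46 hn hX hU hG hL
      (Finset.mem_product.mp hq).1 (Finset.mem_product.mp hq).2 x s).trans ?_
    rw [Finset.sum_add_distrib, Finset.sum_add_distrib]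
    have hS1 : ∑ q ∈ P ×ˢ (P ∪ ex), 4 * (U ^ 4 / (n:ℝ) ^ 2) ≤ 100 * K ^ 2 * U ^ 4 / n ^ 2 := by
      rw [Finset.sum_const, nsmul_eq_mul, Finset.card_product, Nat.cast_mul]
      have h2 : (P.card : ℝ) * (P ∪ ex).card ≤ 4 * K ^ 2 := by
        have := mul_le_mul hPc hec (Nat.cast_nonneg _) (by linarith)
        nlinarith
      calc (P.card : ℝ) * (P ∪ ex).card * (4 * (U ^ 4 / n ^ 2))
          = (4 * (P.card * (P ∪ ex).card)) * (U ^ 4 / n ^ 2) := by ring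
        _ ≤ (100 * K ^ 2) * (U ^ 4 / n ^ 2) :=
            mul_le_mul_of_nonneg_right (by nlinarith) hB
        _ = 100 * K ^ 2 * U ^ 4 / n ^ 2 := by ring
    have hS2 : ∑ q ∈ P ×ˢ (P ∪ ex), (if q.2 = τ ∧ q.1 = τ then
        (if ad x (lab (p τ)) = s then U / (n:ℝ) else 0) else 0) ≤
        (if ad x (lab (p τ)) = s then U / n else 0) := by
      rw [Finset.sum_eq_single_of_mem (τ, τ) (Finset.mem_product.mpr
        ⟨hG.tP, Finset.mem_union_left _ hG.tP⟩)]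
      · rw [if_pos ⟨rfl, rfl⟩]
      · intro q _ hq
        rw [if_neg]
        rintro ⟨h2, h3⟩
        exact hq (Prod.ext h3 h2)
    have hS3 : ∑ q ∈ P ×ˢ (P ∪ ex), (if q.2 ∈ ex ∧ q.1 = p q.2 then
        (if ad x (lab q.2) = s then U / (n:ℝ) else 0) else 0) ≤
        ∑ r ∈ ex, if ad x (lab r) = s then U / (n:ℝ) else 0 := by
      rw [Finset.sum_product_right]
      rw [← Finset.sum_subset (Finset.subset_union_right : ex ⊆ P ∪ ex)]
      · refine Finset.sum_le_sum fun r hr => ?_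
        rw [Finset.sum_eq_single_of_mem (p r) (hG.exP r hr).1]
        · beta_reduce
          rw [if_pos ⟨hr, rfl⟩]
        · intro v _ hv
          beta_reduce
          rw [if_neg (fun h => hv h.2)]
      · intro r _ hr
        refine Finset.sum_eq_zero fun v _ => ?_
        beta_reduce
        rw [if_neg (fun h => hr h.1)]
    linarith
  · intro s s' hss
    have h1 : L.Pr (fun φ => (∃ i ∈ P ∪ ex, ad (φ i) (φ (p i)) = s) ∧
        ∃ i ∈ P ∪ ex, ad (φ i) (φ (p i)) = s') ≤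
        L.Pr (fun φ => ∃ q ∈ (P ∪ ex) ×ˢ (P ∪ ex),
          (ad (φ q.1) (φ (p q.1)) = s ∧ ad (φ q.2) (φ (p q.2)) = s')) := by
      refine Pr_mono_h46 hL.nn fun ω _ hE => ?_
      obtain ⟨⟨v, hv, h2⟩, w, hw, h3⟩ := hE
      exact ⟨(v, w), Finset.mem_product.mpr ⟨hv, hw⟩, h2, h3⟩
    refine h1.trans ((Pr_union_h46 hL.nn ((P ∪ ex) ×ˢ (P ∪ ex))
      (fun q φ => ad (φ q.1) (φ (p q.1)) = s ∧ ad (φ q.2) (φ (p q.2)) = s')).trans ?_)
    refine (Finset.sum_le_sum (g := fun _ => 16 * (U ^ 4 / (n:ℝ) ^ 2)) fun q hq => ?_).trans ?_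
    · obtain ⟨hq1, hq2⟩ := Finset.mem_product.mp hq
      by_cases h : q.1 = q.2
      · refine (Pr_zero_h46 hL.nn fun ω _ hE => hss ?_).trans (by linarith)
        rw [← hE.1, ← hE.2, h]
      · exact sum2_h46 hn hX hU hG hL hq1 hq2 h s s'
    · rw [Finset.sum_const, nsmul_eq_mul, Finset.card_product, Nat.cast_mul]
      have h2 : ((P ∪ ex).card : ℝ) * (P ∪ ex).card ≤ 4 * K ^ 2 := by
        have := mul_le_mul hec hec (Nat.cast_nonneg _) (by linarith)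
        nlinarith
      calc ((P ∪ ex).card : ℝ) * (P ∪ ex).card * (16 * (U ^ 4 / n ^ 2))
          = (16 * ((P ∪ ex).card * (P ∪ ex).card)) * (U ^ 4 / n ^ 2) := by ring
        _ ≤ (100 * K ^ 2) * (U ^ 4 / n ^ 2) :=
            mul_le_mul_of_nonneg_right (by nlinarith) hB
        _ = 100 * K ^ 2 * U ^ 4 / n ^ 2 := by ring
  · -- not injective
    have h1 : L.Pr (fun φ => ¬ (Set.InjOn φ P ∧
        Set.InjOn (fun i => ad (φ i) (φ (p i))) (P ∪ ex : Finset ℕ))) ≤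
        L.Pr (fun φ => ∃ b ∈ (Finset.univ : Finset Bool), (if b then
          (∃ q ∈ (P ×ˢ P).filter (fun q => q.1 ≠ q.2), φ q.1 = φ q.2) else
          ∃ q ∈ ((P ∪ ex) ×ˢ (P ∪ ex)).filter (fun q => q.1 ≠ q.2),
            ad (φ q.1) (φ (p q.1)) = ad (φ q.2) (φ (p q.2)))) := by
      refine Pr_mono_h46 hL.nn fun ω _ hE => ?_
      rw [not_and_or] at hE
      rcases hE with hE | hE
      · refine ⟨true, Finset.mem_univ _, ?_⟩
        simp only [if_true]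
        unfold Set.InjOn at hE
        push Not at hE
        obtain ⟨a, ha, b, hb, hab, hne⟩ := hE
        exact ⟨(a, b), Finset.mem_filter.mpr ⟨Finset.mem_product.mpr
          ⟨Finset.mem_coe.mp ha, Finset.mem_coe.mp hb⟩, hne⟩, hab⟩
      · refine ⟨false, Finset.mem_univ _, ?_⟩
        simp only [Bool.false_eq_true, if_false]
        unfold Set.InjOn at hE
        push Not at hE
        obtain ⟨a, ha, b, hb, hab, hne⟩ := hE
        exact ⟨(a, b), Finset.mem_filter.mpr ⟨Finset.mem_product.mpr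
          ⟨Finset.mem_coe.mp ha, Finset.mem_coe.mp hb⟩, hne⟩, hab⟩
    refine h1.trans ((Pr_union_h46 hL.nn (Finset.univ : Finset Bool) _).trans ?_)
    rw [Fintype.sum_bool]
    have hT : L.Pr (fun φ => if true = true then
        (∃ q ∈ (P ×ˢ P).filter (fun q => q.1 ≠ q.2), φ q.1 = φ q.2) else
          ∃ q ∈ ((P ∪ ex) ×ˢ (P ∪ ex)).filter (fun q => q.1 ≠ q.2),
            ad (φ q.1) (φ (p q.1)) = ad (φ q.2) (φ (p q.2))) ≤ 100 * K ^ 2 * U ^ 4 / n := by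
      simp only [if_true]
      refine (Pr_union_h46 hL.nn _ (fun (q : ℕ × ℕ) φ => φ q.1 = φ q.2)).trans ?_
      refine (Finset.sum_le_sum (g := fun _ => 2 * (U ^ 4 / (n:ℝ))) fun q hq => ?_).trans ?_
      · obtain ⟨hq0, hne⟩ := Finset.mem_filter.mp hq
        obtain ⟨hq1, hq2⟩ := Finset.mem_product.mp hq0
        refine (cond_h46 hL hn hX hq1 (B := (U / n) ^ 2) (by positivity) fun x => ?_).trans ha7
        refine P2_h46 hL hq1 hq2 hne x x fun ω _ hE => ?_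
        exact ⟨hE.2, hE.1 ▸ hE.2⟩
      · rw [Finset.sum_const, nsmul_eq_mul]
        have h2 : (((P ×ˢ P).filter (fun q => q.1 ≠ q.2)).card : ℝ) ≤ 4 * K ^ 2 := by
          have h3 : (((P ×ˢ P).filter (fun q => q.1 ≠ q.2)).card : ℝ) ≤ P.card * P.card := by
            have := Finset.card_filter_le (P ×ˢ P) (fun q => q.1 ≠ q.2)
            rw [Finset.card_product] at this
            exact_mod_cast this
          have := mul_le_mul hPc hPc (Nat.cast_nonneg _) (by linarith)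
          nlinarith
        calc (((P ×ˢ P).filter (fun q => q.1 ≠ q.2)).card : ℝ) * (2 * (U ^ 4 / n))
            = (2 * ((P ×ˢ P).filter (fun q => q.1 ≠ q.2)).card) * (U ^ 4 / n) := by ring
          _ ≤ (100 * K ^ 2) * (U ^ 4 / n) := mul_le_mul_of_nonneg_right (by nlinarith) hA
          _ = 100 * K ^ 2 * U ^ 4 / n := by ring
    have hF : L.Pr (fun φ => if false = true then
        (∃ q ∈ (P ×ˢ P).filter (fun q => q.1 ≠ q.2), φ q.1 = φ q.2) else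
          ∃ q ∈ ((P ∪ ex) ×ˢ (P ∪ ex)).filter (fun q => q.1 ≠ q.2),
            ad (φ q.1) (φ (p q.1)) = ad (φ q.2) (φ (p q.2))) ≤ 100 * K ^ 2 * U ^ 4 / n := by
      simp only [Bool.false_eq_true, if_false]
      refine (Pr_union_h46 hL.nn _
        (fun (q : ℕ × ℕ) φ => ad (φ q.1) (φ (p q.1)) = ad (φ q.2) (φ (p q.2)))).trans ?_
      refine (Finset.sum_le_sum (g := fun _ => 16 * (U ^ 4 / (n:ℝ))) fun q hq => ?_).trans ?_
      · obtain ⟨hq0, hne⟩ := Finset.mem_filter.mp hq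
        obtain ⟨hq1, hq2⟩ := Finset.mem_product.mp hq0
        have h3 : L.Pr (fun φ => ad (φ q.1) (φ (p q.1)) = ad (φ q.2) (φ (p q.2))) ≤
            L.Pr (fun φ => ∃ s ∈ S, (ad (φ q.1) (φ (p q.1)) = s ∧ ad (φ q.2) (φ (p q.2)) = s)) :=
          Pr_mono_h46 hL.nn fun ω hw hE => ⟨_, hL.df ω hw q.1 hq1, rfl, hE.symm⟩
        refine h3.trans ((Pr_union_h46 hL.nn S
          (fun s φ => ad (φ q.1) (φ (p q.1)) = s ∧ ad (φ q.2) (φ (p q.2)) = s)).trans ?_)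
        refine (Finset.sum_le_sum fun s _ =>
          sum2_h46 hn hX hU hG hL hq1 hq2 hne s s).trans ?_
        rw [Finset.sum_const, nsmul_eq_mul]
        have h4 : (S.card : ℝ) ≤ n := by
          have := Finset.card_le_card hS
          rw [Nat.card_Icc] at this
          have h5 : S.card ≤ n := this.trans (by omega)
          exact_mod_cast h5
        calc (S.card : ℝ) * (16 * (U ^ 4 / n ^ 2)) ≤ n * (16 * (U ^ 4 / n ^ 2)) :=
              mul_le_mul_of_nonneg_right h4 (by linarith)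
          _ = 16 * (U ^ 4 / n) := by field_simp
      · rw [Finset.sum_const, nsmul_eq_mul]
        have h2 : ((((P ∪ ex) ×ˢ (P ∪ ex)).filter (fun q => q.1 ≠ q.2)).card : ℝ) ≤
            4 * K ^ 2 := by
          have h3 : ((((P ∪ ex) ×ˢ (P ∪ ex)).filter (fun q => q.1 ≠ q.2)).card : ℝ) ≤
              (P ∪ ex).card * (P ∪ ex).card := by
            have := Finset.card_filter_le ((P ∪ ex) ×ˢ (P ∪ ex)) (fun q => q.1 ≠ q.2)
            rw [Finset.card_product] at this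
            exact_mod_cast this
          have := mul_le_mul hec hec (Nat.cast_nonneg _) (by linarith)
          nlinarith
        calc ((((P ∪ ex) ×ˢ (P ∪ ex)).filter (fun q => q.1 ≠ q.2)).card : ℝ) * (16 * (U ^ 4 / n))
            = (16 * (((P ∪ ex) ×ˢ (P ∪ ex)).filter (fun q => q.1 ≠ q.2)).card) * (U ^ 4 / n) := by
              ring
          _ ≤ (100 * K ^ 2) * (U ^ 4 / n) := mul_le_mul_of_nonneg_right (by nlinarith) hA
          _ = 100 * K ^ 2 * U ^ 4 / n := by ring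
    have hKp : (0:ℝ) ≤ 200 * K ^ 2 * U ^ 4 / n := by positivity
    calc _ ≤ 100 * (K:ℝ) ^ 2 * U ^ 4 / n + 100 * K ^ 2 * U ^ 4 / n := add_le_add hT hF
      _ = 400 * K ^ 2 * U ^ 4 / n - 200 * K ^ 2 * U ^ 4 / n := by ring
      _ ≤ 400 * K ^ 2 * U ^ 4 / n := by linarith

end Pool.Agent.GRC
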