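import Pool.Agent.Helper28.GRC.Prof

/-!
# GRC-PF1: facts on the profile functions `eta`, `etad`, `Bf`

All are elementary.  `cl01` is 1-Lipschitz.  `Bf_lip`: `|Bf y - Bf y'| ≤ (1/n) ∑_z eta z · 100 |y-y'|/n` and `∑_z eta z ≤ 0.33 n + 1`.
`labm`, `etas`: Riemann sums of piecewise linear functions with Lipschitz constants `100/n`, `200/n`: the error of a Riemann sum with step 1 of a function with Lipschitz constant `L` over an interval of
length `n` is `≤ L n/2 + (boundary)`; the integrals are `2 (0.32 + 0.005) n = 0.65 n` and `(0.32 + 0.005) n = 0.325 n` (one can also sum the arithmetic progressions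
directly: count of the integers where the function is 1 up to an error 1, and the two linear ramps).  For `labm` note `[z - 0.33 n, z + 0.33 n] ⊆ [0, n]`.
`Bf_zero`: if `y ≤ 0.005 n` then `z ≥ 0.335 n` has `|y-z| ≥ 0.33 n`.  `Bf_le`: `∑_z eta z ≤ 0.325 n + 300`, `n ≥ 10^6`.
-/

set_option autoImplicit false

namespace Pool.Agent.GRC

open Finset

theorem cl01_range (x : ℝ) : 0 ≤ cl01 x ∧ cl01 x ≤ 1 := by
  unfold cl01
  exact ⟨le_max_left _ _, max_le zero_le_one (min_le_left _ _)⟩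

theorem cl01_lip (x y : ℝ) : |cl01 x - cl01 y| ≤ |x - y| := by
  unfold cl01
  have h1 : |max 0 (min 1 x) - max 0 (min 1 y)| ≤ |min 1 x - min 1 y| := by
    have := abs_max_sub_max_le_max 0 (min 1 x) 0 (min 1 y)
    simpa using this
  have h2 : |min 1 x - min 1 y| ≤ |x - y| := by
    have := abs_min_sub_min_le_max 1 x 1 y
    simpa using this
  exact h1.trans h2

private theorem cl01_zero {x : ℝ} (h : x ≤ 0) : cl01 x = 0 := by
  unfold cl01
  rw [max_eq_left ((min_le_right _ _).trans h)]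

private theorem cl01_one {x : ℝ} (h : 1 ≤ x) : cl01 x = 1 := by
  unfold cl01
  rw [min_eq_left h, max_eq_right zero_le_one]

private theorem cl01_mid {x : ℝ} (h0 : 0 ≤ x) (h1 : x ≤ 1) : cl01 x = x := by
  unfold cl01
  rw [min_eq_right h1, max_eq_right h0]

private theorem pf1_div {n : ℕ} (hn : 0 < n) (z : ℝ) : |z / n - 1 / 2| = |z - n / 2| / n := by
  have hn0 : (0 : ℝ) < n := by exact_mod_cast hn
  have : z / n - 1 / 2 = (z - n / 2) / n := by field_simp
  rw [this, abs_div, abs_of_pos hn0]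

theorem eta_zero {n : ℕ} (hn : 0 < n) {z : ℝ} (h : 165 * (n : ℝ) ≤ 1000 * |z - n / 2|) : eta n z = 0 := by
  have hn0 : (0 : ℝ) < n := by exact_mod_cast hn
  unfold eta
  apply cl01_zero
  rw [pf1_div hn]
  have : 165 / 1000 ≤ |z - n / 2| / n := by
    rw [le_div_iff₀ hn0]
    linarith
  linarith

theorem eta_one {n : ℕ} (hn : 0 < n) {z : ℝ} (h : 100 * |z - n / 2| ≤ 16 * (n : ℝ)) : eta n z = 1 := by
  have hn0 : (0 : ℝ) < n := by exact_mod_cast hn
  unfold eta
  apply cl01_one
  rw [pf1_div hn]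
  have : |z - n / 2| / n ≤ 16 / 100 := by
    rw [div_le_iff₀ hn0]
    linarith
  linarith

theorem eta_lip {n : ℕ} (hn : 0 < n) (z z' : ℝ) : |eta n z - eta n z'| ≤ 200 * |z - z'| / n := by
  have hn0 : (0 : ℝ) < n := by exact_mod_cast hn
  unfold eta
  refine (cl01_lip _ _).trans ?_
  have h1 : (33 - 200 * |z / n - 1 / 2|) - (33 - 200 * |z' / n - 1 / 2|) =
      200 * (|z' / n - 1 / 2| - |z / n - 1 / 2|) := by ring
  have h2 : |(|z' / n - 1 / 2| - |z / n - 1 / 2|)| ≤ |z - z'| / n := by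
    refine (abs_abs_sub_abs_le_abs_sub _ _).trans ?_
    have : z' / n - 1 / 2 - (z / n - 1 / 2) = (z' - z) / n := by ring
    rw [this, abs_div, abs_of_pos hn0, abs_sub_comm]
  rw [h1, abs_mul, abs_of_pos (by norm_num : (0 : ℝ) < 200)]
  calc 200 * |(|z' / n - 1 / 2| - |z / n - 1 / 2|)| ≤ 200 * (|z - z'| / n) :=
      mul_le_mul_of_nonneg_left h2 (by norm_num)
    _ = 200 * |z - z'| / n := by ring

theorem eta_symm {n : ℕ} (hn : 0 < n) (z : ℝ) : eta n (n - z) = eta n z := by
  have hn0 : (0 : ℝ) < n := by exact_mod_cast hn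
  unfold eta
  have : |((n : ℝ) - z) / n - 1 / 2| = |z / n - 1 / 2| := by
    have h1 : ((n : ℝ) - z) / n - 1 / 2 = -(z / n - 1 / 2) := by
      field_simp
      ring
    rw [h1, abs_neg]
  rw [this]

theorem etad_zero {n : ℕ} (hn : 0 < n) {d : ℝ} (h : 33 * (n : ℝ) ≤ 100 * d) : etad n d = 0 := by
  have hn0 : (0 : ℝ) < n := by exact_mod_cast hn
  unfold etad
  apply cl01_zero
  have : 33 / 100 ≤ d / n := by
    rw [le_div_iff₀ hn0]
    linarith
  linarith

theorem etad_one {n : ℕ} (hn : 0 < n) {d : ℝ} (h : 100 * d ≤ 32 * (n : ℝ)) : etad n d = 1 := by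
  have hn0 : (0 : ℝ) < n := by exact_mod_cast hn
  unfold etad
  apply cl01_one
  have : d / n ≤ 32 / 100 := by
    rw [div_le_iff₀ hn0]
    linarith
  linarith

theorem etad_lip {n : ℕ} (hn : 0 < n) (d d' : ℝ) : |etad n d - etad n d'| ≤ 100 * |d - d'| / n := by
  have hn0 : (0 : ℝ) < n := by exact_mod_cast hn
  unfold etad
  refine (cl01_lip _ _).trans (le_of_eq ?_)
  have h1 : (33 - 100 * (d / n)) - (33 - 100 * (d' / n)) = -(100 * (d - d') / n) := by ring
  rw [h1, abs_neg, abs_div, abs_mul, abs_of_pos hn0, abs_of_pos (by norm_num : (0 : ℝ) < 100)]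

/-- the primitive of `cl01` -/
private noncomputable def prim (x : ℝ) : ℝ := if x ≤ 0 then 0 else if x ≤ 1 then x ^ 2 / 2 else x - 1 / 2

private theorem prim_sub (x y : ℝ) : prim x + cl01 x * (y - x) ≤ prim y := by
  unfold prim
  rcases le_or_gt x 0 with hx | hx
  · rw [cl01_zero hx, if_pos hx]
    split_ifs <;> nlinarith
  · rcases le_or_gt x 1 with hx1 | hx1
    · rw [cl01_mid hx.le hx1, if_neg (not_le.2 hx), if_pos hx1]
      split_ifs with h1 h2
      · nlinarith
      · nlinarith [sq_nonneg (x - y)]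
      · nlinarith [sq_nonneg (x - 1), mul_nonneg (sub_nonneg.2 hx1) (sub_nonneg.2 (not_le.1 h2).le)]
    · rw [cl01_one hx1.le, if_neg (not_le.2 hx), if_neg (not_le.2 hx1)]
      split_ifs with h1 h2
      · nlinarith
      · nlinarith [sq_nonneg (y - 1)]
      · linarith

/-- Riemann sums of `cl01` along an arithmetic progression -/
private theorem ramp {h b : ℝ} (hh : 0 < h) (hb : b ≤ 0) (N : ℕ) (hN : 1 ≤ b + h * N) :
    ∑ y ∈ range N, cl01 (b + h * y) ≤ (b + h * N - 1 / 2) / h ∧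
    (b + h * N - 1 / 2) / h ≤ ∑ y ∈ range N, cl01 (b + h * y) + 1 := by
  have h1 : ∀ M : ℕ, h * ∑ y ∈ range M, cl01 (b + h * y) ≤ prim (b + h * M) - prim b := by
    intro M
    induction M with
    | zero => simp
    | succ M ih =>
      rw [sum_range_succ, mul_add]
      have := prim_sub (b + h * M) (b + h * (M + 1 : ℕ))
      have h3 : b + h * (M + 1 : ℕ) - (b + h * M) = h := by push_cast; ring
      rw [h3] at this
      linarith
  have h2 : ∀ M : ℕ, prim (b + h * M) - prim b ≤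
      h * (∑ y ∈ range M, cl01 (b + h * y) + cl01 (b + h * M) - cl01 b) := by
    intro M
    induction M with
    | zero => simp
    | succ M ih =>
      rw [sum_range_succ]
      have := prim_sub (b + h * (M + 1 : ℕ)) (b + h * M)
      have h3 : b + h * M - (b + h * (M + 1 : ℕ)) = -h := by push_cast; ring
      rw [h3] at this
      linarith
  have hb0 : prim b = 0 := by unfold prim; rw [if_pos hb]
  have hN0 : prim (b + h * N) = b + h * N - 1 / 2 := by
    unfold prim
    rw [if_neg (by linarith)]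
    split_ifs with h3
    · have : b + h * N = 1 := le_antisymm h3 hN
      rw [this]; norm_num
    · rfl
  have hc0 : cl01 b = 0 := cl01_zero hb
  have hc1 : cl01 (b + h * N) = 1 := cl01_one hN
  have e1 := h1 N
  have e2 := h2 N
  rw [hb0, hN0] at e1 e2
  rw [hc0, hc1] at e2
  constructor
  · rw [le_div_iff₀ hh]
    linarith
  · rw [div_le_iff₀ hh]
    linarith

/-- a symmetric trapezoid is a sum of two ramps -/
private theorem tent {a : ℝ} (ha : 1 ≤ a) (u : ℝ) : cl01 (a - |u|) = cl01 (a - u) + cl01 (a + u) - 1 := by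
  rcases le_total 0 u with h | h
  · rw [abs_of_nonneg h, cl01_one (by linarith : 1 ≤ a + u)]
    ring
  · rw [abs_of_nonpos h, cl01_one (by linarith : 1 ≤ a - u)]
    ring_nf

/-- sum of a symmetric trapezoid with centre `c` -/
private theorem tent_sum {n : ℕ} {h a c : ℝ} (hh : 0 < h) (ha : 1 ≤ a) (h1 : a ≤ h * c)
    (h2 : a ≤ h * (n - c)) :
    |∑ y ∈ range (n + 1), cl01 (a - |h * (y - c)|) - (2 * a - 1) / h| ≤ 2 := by
  have e1 : ∑ y ∈ range (n + 1), cl01 (a - |h * (y - c)|) =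
      ∑ y ∈ range (n + 1), cl01 ((a - h * (n - c)) + h * y) +
      ∑ y ∈ range (n + 1), cl01 ((a - h * c) + h * y) - (n + 1) := by
    have e2 : ∑ y ∈ range (n + 1), cl01 ((a - h * (n - c)) + h * y) =
        ∑ y ∈ range (n + 1), cl01 (a - h * (y - c)) := by
      rw [← sum_range_reflect]
      refine sum_congr rfl fun y hy => ?_
      have hy' := mem_range.1 hy
      have : ((n + 1 - 1 - y : ℕ) : ℝ) = n - y := by
        rw [Nat.add_sub_cancel, Nat.cast_sub (by omega)]
      rw [this]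
      congr 1
      ring
    have e3 : ((n : ℝ) + 1) = ∑ y ∈ range (n + 1), (1 : ℝ) := by
      rw [sum_const, card_range, nsmul_eq_mul, mul_one]
      push_cast
      ring
    rw [e2, e3, ← sum_add_distrib, ← sum_sub_distrib]
    refine sum_congr rfl fun y _ => ?_
    rw [tent ha]
    congr 2
    congr 1
    ring
  have hN : ((n + 1 : ℕ) : ℝ) = n + 1 := by push_cast; ring
  obtain ⟨a1, a2⟩ := ramp (b := a - h * (n - c)) hh (by linarith) (n + 1) (by rw [hN]; nlinarith)
  obtain ⟨b1, b2⟩ := ramp (b := a - h * c) hh (by linarith) (n + 1) (by rw [hN]; nlinarith)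
  rw [hN] at a1 a2 b1 b2
  have e4 : (a - h * (n - c) + h * ((n : ℝ) + 1) - 1 / 2) / h = (a - 1 / 2) / h + c + 1 := by
    field_simp
    ring
  have e5 : (a - h * c + h * ((n : ℝ) + 1) - 1 / 2) / h = (a - 1 / 2) / h + n - c + 1 := by
    field_simp
    ring
  have e6 : (2 * a - 1) / h = 2 * ((a - 1 / 2) / h) := by ring
  rw [e4] at a1 a2
  rw [e5] at b1 b2
  rw [e1, e6, abs_le]
  constructor <;> linarith

theorem labm {n : ℕ} (hn : 10 ^ 6 ≤ n) {z : ℝ} (h1 : 335 * (n : ℝ) ≤ 1000 * z) (h2 : 1000 * z ≤ 665 * (n : ℝ)) :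
    |(∑ y ∈ range (n + 1), etad n |(y : ℝ) - z|) / n - 65 / 100| ≤ 300 / n := by
  have hn0 : (0 : ℝ) < n := by
    have : 0 < n := by omega
    exact_mod_cast this
  have hc : (100 : ℝ) / n * n = 100 := by field_simp
  have e1 : ∑ y ∈ range (n + 1), etad n |(y : ℝ) - z| =
      ∑ y ∈ range (n + 1), cl01 (33 - |100 / n * (y - z)|) := by
    refine sum_congr rfl fun y _ => ?_
    unfold etad
    rw [abs_mul, abs_of_pos (by positivity : (0 : ℝ) < 100 / n)]
    congr 1
    ring
  have hk : ∀ x : ℝ, 33 * (n : ℝ) ≤ 100 * x → 33 ≤ 100 / n * x := by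
    intro x hx
    have : 100 / n * x = (100 * x) / n := by ring
    rw [this, le_div_iff₀ hn0]
    exact hx
  have e2 := tent_sum (n := n) (h := 100 / n) (a := 33) (c := z) (by positivity) (by norm_num)
    (hk _ (by linarith)) (hk _ (by linarith))
  rw [← e1] at e2
  have e3 : (2 * 33 - 1) / (100 / (n : ℝ)) = 65 / 100 * n := by field_simp; norm_num
  rw [e3] at e2
  have e4 : (∑ y ∈ range (n + 1), etad n |(y : ℝ) - z|) / n - 65 / 100 =
      (∑ y ∈ range (n + 1), etad n |(y : ℝ) - z| - 65 / 100 * n) / n := by field_simp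
  rw [e4, abs_div, abs_of_pos hn0]
  exact div_le_div_of_nonneg_right (e2.trans (by norm_num)) hn0.le

theorem etas {n : ℕ} (hn : 10 ^ 6 ≤ n) :
    |(∑ z ∈ range (n + 1), eta n z) / n - 325 / 1000| ≤ 300 / n := by
  have hn0 : (0 : ℝ) < n := by
    have : 0 < n := by omega
    exact_mod_cast this
  have e1 : ∑ y ∈ range (n + 1), eta n y =
      ∑ y ∈ range (n + 1), cl01 (33 - |(200 : ℝ) / n * ((y : ℝ) - n / 2)|) := by
    refine sum_congr rfl fun y _ => ?_
    unfold eta
    have : 200 / (n : ℝ) * (y - n / 2) = 200 * (y / n - 1 / 2) := by field_simp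
    rw [this, abs_mul, abs_of_pos (by norm_num : (0 : ℝ) < 200)]
  have hk : 33 ≤ 200 / (n : ℝ) * (n / 2) := by
    have : 200 / (n : ℝ) * (n / 2) = 100 := by field_simp; norm_num
    rw [this]; norm_num
  have e2 := tent_sum (n := n) (h := 200 / n) (a := 33) (c := n / 2) (by positivity) (by norm_num)
    hk (by have : (n : ℝ) - n / 2 = n / 2 := by ring
           rw [this]; exact hk)
  rw [← e1] at e2
  have e3 : (2 * 33 - 1) / (200 / (n : ℝ)) = 325 / 1000 * n := by field_simp; norm_num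
  rw [e3] at e2
  have e4 : (∑ y ∈ range (n + 1), eta n y) / n - 325 / 1000 =
      (∑ y ∈ range (n + 1), eta n y - 325 / 1000 * n) / n := by field_simp
  rw [e4, abs_div, abs_of_pos hn0]
  exact div_le_div_of_nonneg_right (e2.trans (by norm_num)) hn0.le

private theorem eta_range (n : ℕ) (z : ℝ) : 0 ≤ eta n z ∧ eta n z ≤ 1 := cl01_range _

private theorem etad_range (n : ℕ) (z : ℝ) : 0 ≤ etad n z ∧ etad n z ≤ 1 := cl01_range _

theorem Bf_nonneg (n : ℕ) (y : ℝ) : 0 ≤ Bf n y := by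
  unfold Bf
  exact div_nonneg (sum_nonneg fun z _ => mul_nonneg (eta_range _ _).1 (etad_range _ _).1)
    (Nat.cast_nonneg _)

private theorem etas_le {n : ℕ} (hn : 10 ^ 6 ≤ n) : (∑ z ∈ range (n + 1), eta n z) / n ≤ 33 / 100 := by
  have hn0 : (10 ^ 6 : ℝ) ≤ n := by exact_mod_cast hn
  have h1 := (abs_le.1 (etas hn)).2
  have h2 : (300 : ℝ) / n ≤ 5 / 1000 := by
    rw [div_le_iff₀ (by linarith)]
    linarith
  linarith

theorem Bf_le {n : ℕ} (hn : 10 ^ 6 ≤ n) (y : ℝ) : Bf n y ≤ 33 / 100 := by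
  refine le_trans ?_ (etas_le hn)
  unfold Bf
  refine div_le_div_of_nonneg_right (sum_le_sum fun z _ => ?_) (Nat.cast_nonneg _)
  exact mul_le_of_le_one_right (eta_range _ _).1 (etad_range _ _).2

theorem Bf_zero {n : ℕ} (hn : 10 ^ 6 ≤ n) {y : ℝ} (h : 1000 * y ≤ 5 * (n : ℝ) ∨ 995 * (n : ℝ) ≤ 1000 * y) :
    Bf n y = 0 := by
  have hn1 : 0 < n := by omega
  unfold Bf
  rw [sum_eq_zero, zero_div]
  intro z _
  rcases le_or_gt (165 * (n : ℝ)) (1000 * |(z : ℝ) - n / 2|) with h1 | h1
  · rw [eta_zero hn1 h1, zero_mul]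
  · have h2 : |(z : ℝ) - n / 2| < 165 / 1000 * n := by linarith
    rw [abs_lt] at h2
    rw [etad_zero hn1, mul_zero]
    rcases h with h | h
    · have := neg_abs_le (y - z)
      linarith [h2.1]
    · have := le_abs_self (y - z)
      linarith [h2.2]

theorem Bf_symm {n : ℕ} (hn : 0 < n) (y : ℝ) : Bf n (n - y) = Bf n y := by
  unfold Bf
  congr 1
  rw [← sum_range_reflect]
  refine sum_congr rfl fun z hz => ?_
  have hz' := mem_range.1 hz
  have : ((n + 1 - 1 - z : ℕ) : ℝ) = n - z := by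
    rw [Nat.add_sub_cancel, Nat.cast_sub (by omega)]
  rw [this, eta_symm hn]
  congr 2
  rw [abs_sub_comm]
  congr 1
  ring

theorem Bf_lip {n : ℕ} (hn : 10 ^ 6 ≤ n) (y y' : ℝ) : |Bf n y - Bf n y'| ≤ 50 * |y - y'| / n := by
  have hn1 : 0 < n := by omega
  have hn0 : (0 : ℝ) < n := by exact_mod_cast hn1
  have h1 : Bf n y - Bf n y' = (∑ z ∈ range (n + 1), eta n z * (etad n |y - z| - etad n |y' - z|)) / n := by
    unfold Bf
    rw [← sub_div, ← sum_sub_distrib]
    congr 1
    exact sum_congr rfl fun z _ => by ring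
  rw [h1, abs_div, abs_of_pos hn0]
  have h2 : |∑ z ∈ range (n + 1), eta n z * (etad n |y - z| - etad n |y' - z|)| ≤
      (∑ z ∈ range (n + 1), eta n z) * (100 * |y - y'| / n) := by
    rw [sum_mul]
    refine (abs_sum_le_sum_abs _ _).trans (sum_le_sum fun z _ => ?_)
    rw [abs_mul, abs_of_nonneg (eta_range _ _).1]
    refine mul_le_mul_of_nonneg_left ?_ (eta_range _ _).1
    refine (etad_lip hn1 _ _).trans ?_
    refine div_le_div_of_nonneg_right ?_ hn0.le
    refine mul_le_mul_of_nonneg_left ?_ (by norm_num)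
    refine (abs_abs_sub_abs_le_abs_sub _ _).trans (le_of_eq ?_)
    congr 1
    ring
  calc |∑ z ∈ range (n + 1), eta n z * (etad n |y - z| - etad n |y' - z|)| / n
      ≤ ((∑ z ∈ range (n + 1), eta n z) * (100 * |y - y'| / n)) / n :=
        div_le_div_of_nonneg_right h2 hn0.le
    _ = ((∑ z ∈ range (n + 1), eta n z) / n) * (100 * |y - y'| / n) := by ring
    _ ≤ (33 / 100) * (100 * |y - y'| / n) :=
        mul_le_mul_of_nonneg_right (etas_le hn) (by positivity)
    _ = 33 * |y - y'| / n := by ring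
    _ ≤ 50 * |y - y'| / n := by
        refine div_le_div_of_nonneg_right ?_ hn0.le
        have := abs_nonneg (y - y')
        linarith

end Pool.Agent.GRC
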