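import Pool.Agent.Helper28.GRC.Prof

/-!
# GRC: parent form of a connected graph with `m` vertices and `m - 1 + g` edges (definitions)

Vertices `0..m-1`, spanning tree `p` (root 0), extra edges `(ea j, eb j)`, `j < g`.  Label scale `n`, `n + 1 = m + g` (`n` edges).
Edge indices: `i ∈ Ico 1 m` (tree edge `(i, p i)`) and `m + j`, `j < g` (extra edge).
-/

set_option autoImplicit false

namespace Pool.Agent.GRC

open Finset Pool.Agent.SEM

/-- the value of the edge with index `i` -/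
def dv (m : ℕ) (p ea eb f : ℕ → ℕ) (i : ℕ) : ℕ :=
  if i < m then ad (f i) (f (p i)) else ad (f (ea (i - m))) (f (eb (i - m)))

/-- graceful labelling of the graph in parent form (`m` vertices, `m - 1 + g` edges) -/
def IsGrG (m g : ℕ) (p ea eb : ℕ → ℕ) : Prop :=
  ∃ f : ℕ → ℕ, (∀ i, i < m → f i + 1 ≤ m + g) ∧ Set.InjOn f (range m) ∧
    Set.InjOn (dv m p ea eb f) (Ico 1 (m + g))

/-- parent form with a special path `c - w - 0`: `c` is a star with `D` leaves -/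
structure PForm (m g D : ℕ) (p ea eb : ℕ → ℕ) (w c : ℕ) : Prop where
  par : Par m p
  hw : 0 < w ∧ w < m ∧ p w = 0
  hc : 0 < c ∧ c < m ∧ p c = w
  st : StarD m p D c
  ext : ∀ j < g, eb j < ea j ∧ ea j < m ∧ p (ea j) ≠ eb j
  exi : ∀ i < g, ∀ j < g, ea i = ea j → eb i = eb j → i = j
  av : ∀ j < g, ∀ v ∈ ({0, w, c} : Finset ℕ) ∪ chl m p c, ea j ≠ v ∧ eb j ≠ v

/-- the forced separating vertices -/
def Fset (m g : ℕ) (p ea eb : ℕ → ℕ) (w c : ℕ) : Finset ℕ :=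
  ({0, w, c} ∪ chl m p 0 ∪ chl m p w ∪ chl m p c) ∪ ((range g).image ea ∪ (range g).image eb)

/-- indices of the edges inside `R` -/
def EI (m g : ℕ) (p : ℕ → ℕ) (R : Finset ℕ) : Finset ℕ :=
  (Ico 1 (m + g)).filter fun i => m ≤ i ∨ (i ∈ R ∧ p i ∈ R)

/-- `R` together with the deterministic stars -/
def Rpl (m : ℕ) (p : ℕ → ℕ) (R DL DH : Finset ℕ) : Finset ℕ :=
  R ∪ (DL ∪ DH) ∪ (DL ∪ DH).biUnion (chl m p)

/-- properties of the labels of `Rp = Rpl m p R DL DH` (`n + 1 = m + g`, `τw` = bound for the windows) -/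
structure LabP (m g n P w : ℕ) (τw : ℝ) (p ea eb : ℕ → ℕ) (R Rp Sp : Finset ℕ) (lab : ℕ → ℕ) : Prop where
  le : ∀ r ∈ Rp, lab r ≤ n
  inj : Set.InjOn lab Rp
  dInj : Set.InjOn (dv m p ea eb lab) (EI m g p Rp)
  dR : ∀ i ∈ EI m g p Rp, 1 ≤ dv m p ea eb lab i ∧ dv m p ea eb lab i ≤ n
  cov : ∀ s, n < s + P → s ≤ n → s ∈ (EI m g p Rp).image (dv m p ea eb lab)
  ctr : ∀ r ∈ R, ((∃ v, 0 < v ∧ v < m ∧ v ∉ Rp ∧ p v = r) ∨ (0 < r ∧ p r ∉ Rp)) →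
    45 * n < 100 * lab r ∧ 100 * lab r < 55 * n
  mid : ∀ v ∈ Sp, 4992 * n ≤ 10000 * lab (p v) ∧ 10000 * lab (p v) ≤ 5008 * n
  out : ∀ r ∈ Rp, 100 * lab r < 7 * P ∨ (20 * P < 100 * lab r ∧ 100 * lab r < 99 * P) ∨
    (45 * n < 100 * lab r ∧ 100 * lab r < 55 * n) ∨ (1000 * (n - lab r) < 17 * P) ∨
      (58 * P < 1000 * (n - lab r) ∧ 4 * (n - lab r) < P)
  dout : ∀ i ∈ EI m g p Rp, 10 * dv m p ea eb lab i ≤ n ∨
    (519 * n ≤ 1000 * dv m p ea eb lab i ∧ 1000 * dv m p ea eb lab i ≤ 551 * n) ∨ n < dv m p ea eb lab i + P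
  wX : ∀ a, FreeW n P a (a + w) → (((Rp.filter fun r => a ≤ lab r ∧ lab r ≤ a + w).card : ℝ)) ≤ τw
  wS : ∀ a, a + w + P ≤ n →
    ((((EI m g p Rp).filter fun i => a ≤ dv m p ea eb lab i ∧ dv m p ea eb lab i ≤ a + w).card : ℝ)) ≤ τw

end Pool.Agent.GRC
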