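import Pool.Agent.Helper28.GRC.Defs
import Pool.Agent.Helper73.SEM.LW5

/-!
# GRC: profile functions, parameters, kernels (definitions only)

`P ~ μ n` differences at the top (`s' = n - s < P`) are covered deterministically; `w` = width of the kernel, `t` = density of missing labels/differences in every window of length `w`.
-/

set_option autoImplicit false

namespace Pool.Agent.GRC

open Finset Pool.Agent.SEM

noncomputable def cl01 (x : ℝ) : ℝ := max 0 (min 1 x)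

/-- label profile of the spread leaves: 1 on `[.34 n, .66 n]`, 0 outside `[.335 n, .665 n]` -/
noncomputable def eta (n : ℕ) (z : ℝ) : ℝ := cl01 (33 - 200 * |z / n - 1 / 2|)

/-- difference profile of the spread leaves: 1 for `d ≤ .32 n`, 0 for `d ≥ .33 n` -/
noncomputable def etad (n : ℕ) (d : ℝ) : ℝ := cl01 (33 - 100 * (d / n))

noncomputable def Bf (n : ℕ) (y : ℝ) : ℝ := (∑ z ∈ range (n + 1), eta n z * etad n |y - z|) / n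

/-- density of the chain at `s' ≥ 50 P` -/
noncomputable def phi (P : ℕ) (s : ℝ) : ℝ := 1 - Real.sqrt (44 * P / s)

noncomputable def lin (n : ℕ) (s : ℝ) : ℝ := cl01 (100 * (s / n) - 69)

/-- target profile of the chain: load of the label `x` is `Psi (2 pos x)`, load of the difference `d` is `Psi (n - d)` -/
noncomputable def Psi (n P : ℕ) (e ξ s : ℝ) : ℝ :=
  phi P s * (1 - 65 / 100 * e * eta n (s / 2)) + e * Bf n (s / 2) - ξ * lin n s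

/-- distance to the nearer end -/
def pos (n x : ℕ) : ℕ := min x (n - x)

/-- labels of the chain -/
def XC (n P : ℕ) (X : Finset ℕ) : Finset ℕ := X.filter fun x => 25 * P ≤ x ∧ x + 25 * P ≤ n

/-- parameters -/
structure Prm (n P w D : ℕ) (t μ e : ℝ) : Prop where
  hn : 0 < n
  μ0 : 0 < μ
  e0 : 0 < e
  e1 : e ≤ 1 / 1000
  P1 : μ * n ≤ 16 * P
  P2 : (P : ℝ) ≤ μ * n
  D1 : 10 ^ 5 ≤ D
  t0 : 0 < t
  tw : 1 ≤ t * w
  w0 : 0 < w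
  small : 10 ^ 9 * D * (t + w / P) ≤ Real.sqrt μ
  μe : 10 ^ 6 * Real.sqrt μ ≤ e

/-- the interval `[a,b]` of labels is in the free region -/
def FreeW (n P a b : ℕ) : Prop :=
  (7 * P ≤ 100 * a ∧ 100 * b ≤ 20 * P) ∨ (99 * P ≤ 100 * a ∧ 4 * b + P ≤ 4 * n) ∨
    (1000 * n ≤ 1000 * a + 58 * P ∧ 1000 * b + 20 * P ≤ 1000 * n)

/-- few labels and differences are missing in every window -/
structure Loc (n P w : ℕ) (t : ℝ) (X S : Finset ℕ) : Prop where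
  X_sub : X ⊆ range (n + 1)
  S_sub : S ⊆ Icc 1 n
  S_le : ∀ s ∈ S, s + P ≤ n
  locX : ∀ a, FreeW n P a (a + w) → (((Icc a (a + w)).filter (· ∉ X)).card : ℝ) ≤ t * w
  locS : ∀ a, 1 ≤ a → a + w + P ≤ n → (((Icc a (a + w)).filter (· ∉ S)).card : ℝ) ≤ t * w

/-- difference marginal of the chain -/
noncomputable def Dl (X : Finset ℕ) (k : ℕ → ℕ → ℝ) (π : ℕ → ℝ) (s : ℕ) : ℝ :=
  ∑ x ∈ X, ∑ y ∈ X, if ad x y = s then π x * k x y else 0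

/-- central labels -/
def Ctr (n c : ℕ) : Prop := 45 * n ≤ 100 * c ∧ 100 * c ≤ 55 * n

/-- the chain kernel -/
structure Kr (n P w : ℕ) (X S : Finset ℕ) (e ξ t1 κ N : ℝ) (k : ℕ → ℕ → ℝ) (π : ℕ → ℝ) : Prop where
  knn : ∀ x y, 0 ≤ k x y
  pnn : ∀ x, 0 ≤ π x
  psupp : ∀ x, π x ≠ 0 → x ∈ XC n P X
  ksupp : ∀ x y, k x y ≠ 0 → x ∈ XC n P X ∧ y ∈ XC n P X ∧ ad x y ∈ S ∧ n ≤ x + y + w ∧ x + y ≤ n + w
  one : ∀ x ∈ XC n P X, ∑ y ∈ X, k x y = 1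
  up : ∀ x y, k x y ≤ 25 / w
  tot : ∑ x ∈ X, π x = 1
  piUp : ∀ x ∈ XC n P X, π x ≤ κ * (Psi n P e ξ (2 * (pos n x : ℝ)) + t1)
  piLo : ∀ x ∈ X, 25 * P + w ≤ x → x + 25 * P + w ≤ n → κ * (Psi n P e ξ (2 * (pos n x : ℝ)) - t1) ≤ π x
  rev : ∀ x y, π x * k x y = π y * k y x
  DUp : ∀ s, s + 50 * P ≤ n → Dl X k π s ≤ κ * (Psi n P e ξ ((n : ℝ) - s) + t1)
  DLo : ∀ s ∈ S, s + 50 * P + w ≤ n → κ * (Psi n P e ξ ((n : ℝ) - s) - t1) ≤ Dl X k π s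
  DZ : ∀ s, n < s + 50 * P → Dl X k π s = 0
  kpos : 0 < κ
  kN : |N * κ - 1| ≤ t1
  clZ : ∀ c, Ctr n c → ∑ x ∈ X.filter (fun x => ad c x ∉ S), π x ≤ t1
  clB : ∀ c, Ctr n c → ∀ x ∈ XC n P X, ∑ y ∈ X.filter (fun y => ad c y ∉ S), k x y ≤ t1
  clD : ∀ c, Ctr n c → ∀ s, ∑ x ∈ X.filter (fun x => ad c x ∉ S), ∑ y ∈ X,
    (if ad x y = s then π x * k x y else 0) ≤ t1 * κ
  low : 28 / 100 ≤ ∑ x ∈ X.filter (fun x => 10 * x ≤ 3 * n), π x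
  high : 28 / 100 ≤ ∑ x ∈ X.filter (fun x => 7 * n ≤ 10 * x), π x

/-- base law of the spread leaves -/
noncomputable def q0f (n : ℕ) (X S : Finset ℕ) (e : ℝ) (y z : ℕ) : ℝ :=
  open Classical in if y ∈ X ∧ z ∈ X ∧ ad y z ∈ S then e / n * eta n z * etad n (ad y z) else 0

/-- expected number of spread leaves whose parent has label `y` -/
noncomputable def R0 (n : ℕ) (X S : Finset ℕ) (e : ℝ) (y : ℕ) : ℝ := rowS X (q0f n X S e) y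

/-- `v` is the top of the piece or the parent of its exit -/
def Exc (p : ℕ → ℕ) (ex : Finset ℕ) (τ v : ℕ) : Prop := v = τ ∨ ∃ r ∈ ex, p r = v

/-- properties of the base law of one piece (`Q` = chain vertices) -/
structure BLaw (n P w : ℕ) (p lab : ℕ → ℕ) (R X S Q ex : Finset ℕ) (τ : ℕ) (t1 κ : ℝ) (k : ℕ → ℕ → ℝ)
    (π : ℕ → ℝ) (L : FL) : Prop where
  law : PD n p R lab X S Q ex (50 * n / w) L
  xc : ∀ ω, L.wt ω ≠ 0 → ∀ v ∈ Q, L.Φ ω v ∈ XC n P X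
  mUp : ∀ v ∈ Q, ∀ x, L.Pr (fun φ => φ v = x) ≤ (1 + 8 * t1) * π x
  mLo : ∀ v ∈ Q, ¬ Exc p ex τ v → ∀ x, (1 - 8 * t1) * π x ≤ L.Pr (fun φ => φ v = x)
  eUp : ∀ i ∈ Q, i ≠ τ → ∀ s, L.Pr (fun φ => ad (φ i) (φ (p i)) = s) ≤ (1 + 8 * t1) * Dl X k π s
  eLo : ∀ i ∈ Q, ¬ Exc p ex τ i → ∀ s,
    (1 - 8 * t1) * Dl X k π s - 8 * t1 * κ ≤ L.Pr (fun φ => ad (φ i) (φ (p i)) = s)
  eTop : ∀ i ∈ insert τ ex, ∀ s, L.Pr (fun φ => ad (φ i) (φ (p i)) = s) ≤ 5 * κ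
  eTop0 : ∀ i ∈ insert τ ex, ∀ s, 56 * n < 100 * s → L.Pr (fun φ => ad (φ i) (φ (p i)) = s) = 0
  low : ∀ v ∈ Q, 27 / 100 ≤ L.Pr (fun φ => 10 * φ v ≤ 3 * n)
  high : ∀ v ∈ Q, 27 / 100 ≤ L.Pr (fun φ => 7 * n ≤ 10 * φ v)

/-- base laws for all the pieces; `F τ` = flexible leaves of the piece `τ` (with parents in `Q τ`) -/
structure BG (n P w : ℕ) (p lab : ℕ → ℕ) (R X S T : Finset ℕ) (Q ex F : ℕ → Finset ℕ) (t1 κ : ℝ)
    (k : ℕ → ℕ → ℝ) (π : ℕ → ℝ) (L0 : ℕ → FL) : Prop where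
  geo : ∀ τ ∈ T, Geo p R (Q τ) (ex τ) τ
  law : ∀ τ ∈ T, BLaw n P w p lab R X S (Q τ) (ex τ) τ t1 κ k π (L0 τ)
  pF : ∀ τ ∈ T, ∀ u ∈ F τ, p u ∈ Q τ
  iF : ∀ τ ∈ T, Set.InjOn p (F τ)

/-- expected number of flexible leaves whose parent has label `y` -/
noncomputable def mm (p : ℕ → ℕ) (T : Finset ℕ) (F : ℕ → Finset ℕ) (L0 : ℕ → FL) (y : ℕ) : ℝ :=
  ∑ τ ∈ T, ∑ u ∈ F τ, (L0 τ).Pr (fun φ => φ (p u) = y)

/-- label load of the chain vertices and of the non-spread part of the flexible leaves -/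
noncomputable def chX (n : ℕ) (p : ℕ → ℕ) (X S T : Finset ℕ) (Q F : ℕ → Finset ℕ) (e : ℝ)
    (k : ℕ → ℕ → ℝ) (L0 : ℕ → FL) (x : ℕ) : ℝ :=
  ∑ τ ∈ T, ∑ v ∈ Q τ, (L0 τ).Pr (fun φ => φ v = x) +
    ∑ y ∈ X, (mm p T F L0 y - R0 n X S e y) * k y x

/-- difference load of the edges of the chain and of the non-spread part of the flexible leaves -/
noncomputable def chS (n : ℕ) (p : ℕ → ℕ) (X S T : Finset ℕ) (Q ex F : ℕ → Finset ℕ) (e : ℝ)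
    (k : ℕ → ℕ → ℝ) (L0 : ℕ → FL) (s : ℕ) : ℝ :=
  ∑ τ ∈ T, ∑ i ∈ Q τ ∪ ex τ, (L0 τ).Pr (fun φ => ad (φ i) (φ (p i)) = s) +
    ∑ y ∈ X, ∑ x ∈ X, if ad y x = s then (mm p T F L0 y - R0 n X S e y) * k y x else 0

end Pool.Agent.GRC
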