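import Pool.Agent.Helper28.GRC.LC
import Pool.Agent.Helper28.GRC.PF2

/-!
# GRC-Q0M: marginals of the base law of the spread leaves

Proof in words (`1/n ≤ t/10^9`; `eta, etad ∈ [0,1]`).
* `labS z = (e/n) eta z ∑_{y ∈ X, ad y z ∈ S} etad (ad y z) ≤ (e/n) eta z ∑_{y ≤ n} etad |y-z| ≤ e eta z (0.65 + 300/n)` (`labm`; if `eta z = 0` trivial); it vanishes if `eta z = 0`.
* `difS d = ∑_{y,z : ad y z = d} (e/n) eta z etad d ≤ 2 (e/n) etad d ∑_z eta z ≤ e etad d (0.65 + 600/n)`; for `d ∈ S`: `= (e/n) etad d ∑_{z ∈ X} eta z (1_X(z+d) + 1_X(z-d))`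
  and, when `etad d ≠ 0` and `eta z ≠ 0`, the labels `z ± d` are in `[0.005 n, 0.995 n]`, which is in the free region, so at most `4 t (n + w)` terms are missing.
* `R0 y = (e/n) ∑_{z ∈ X, ad y z ∈ S} eta z etad (ad y z)`: upper bound `e Bf y`; lower bound for `y ∈ X`: the missing `z ∈ [0.335n, 0.665n]` number at most `t n` (not in `X`) plus
  `2 t (n + w) + 1` (`lc_ad`, only `ad y z ≤ 0.33 n` matters).
-/

set_option autoImplicit false

namespace Pool.Agent.GRC

open Finset

theorem ad_cast67 (y z : ℕ) : ((ad y z : ℕ) : ℝ) = |(y : ℝ) - z| := by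
  unfold ad
  rcases le_total y z with h | h
  · have h1 : (y : ℝ) ≤ z := by exact_mod_cast h
    rw [Nat.sub_eq_zero_of_le h, zero_add, Nat.cast_sub h, abs_of_nonpos (by linarith)]
    ring
  · have h1 : (z : ℝ) ≤ y := by exact_mod_cast h
    rw [Nat.sub_eq_zero_of_le h, add_zero, Nat.cast_sub h, abs_of_nonneg (by linarith)]

theorem q0f_eq67 {n : ℕ} {X S : Finset ℕ} {e : ℝ} {y z : ℕ} (hy : y ∈ X) (hz : z ∈ X)
    (hs : ad y z ∈ S) : q0f n X S e y z = e / n * eta n z * etad n (ad y z) := by
  unfold q0f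
  exact if_pos ⟨hy, hz, hs⟩

theorem q0f_zero67 {n : ℕ} {X S : Finset ℕ} {e : ℝ} {y z : ℕ}
    (h : ¬ (y ∈ X ∧ z ∈ X ∧ ad y z ∈ S)) : q0f n X S e y z = 0 := by
  unfold q0f
  exact if_neg h

theorem eta_rg67 (n : ℕ) (z : ℝ) : 0 ≤ eta n z ∧ eta n z ≤ 1 := cl01_range _

theorem etad_rg67 (n : ℕ) (z : ℝ) : 0 ≤ etad n z ∧ etad n z ≤ 1 := cl01_range _

theorem q0f_nonneg67 {n : ℕ} {X S : Finset ℕ} {e : ℝ} (he : 0 ≤ e) (y z : ℕ) :
    0 ≤ q0f n X S e y z := by
  by_cases h : y ∈ X ∧ z ∈ X ∧ ad y z ∈ S
  · rw [q0f_eq67 h.1 h.2.1 h.2.2]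
    have h1 := (eta_rg67 n z).1
    have h2 := (etad_rg67 n (ad y z)).1
    positivity
  · rw [q0f_zero67 h]

theorem q0f_le67 {n : ℕ} {X S : Finset ℕ} {e : ℝ} (he : 0 ≤ e) (y z : ℕ) :
    q0f n X S e y z ≤ e / n * (eta n z * etad n (ad y z)) := by
  by_cases h : y ∈ X ∧ z ∈ X ∧ ad y z ∈ S
  · rw [q0f_eq67 h.1 h.2.1 h.2.2, mul_assoc]
  · rw [q0f_zero67 h]
    have h1 := (eta_rg67 n z).1
    have h2 := (etad_rg67 n (ad y z)).1
    positivity

theorem eta_ne67 {n : ℕ} (hn : 0 < n) {z : ℕ} (h : eta n z ≠ 0) :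
    335 * n < 1000 * z ∧ 1000 * z < 665 * n := by
  have h1 : ¬ (165 * (n : ℝ) ≤ 1000 * |(z : ℝ) - n / 2|) := fun h1 => h (eta_zero hn h1)
  rw [not_le] at h1
  have h2 : |(z : ℝ) - n / 2| < 165 * (n : ℝ) / 1000 := by
    rw [lt_div_iff₀ (by norm_num)]; linarith
  rw [abs_lt] at h2
  constructor
  · have : (335 * n : ℝ) < 1000 * z := by linarith [h2.1]
    exact_mod_cast this
  · have : (1000 * z : ℝ) < 665 * n := by linarith [h2.2]
    exact_mod_cast this

theorem etad_ne67 {n : ℕ} (hn : 0 < n) {d : ℕ} (h : etad n d ≠ 0) : 100 * d < 33 * n := by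
  have h1 : ¬ (33 * (n : ℝ) ≤ 100 * (d : ℝ)) := fun h1 => h (etad_zero hn h1)
  rw [not_le] at h1
  exact_mod_cast h1

theorem q0f_ne67 {n : ℕ} {X S : Finset ℕ} {e : ℝ} {y z : ℕ}
    (h : q0f n X S e y z ≠ 0) : (y ∈ X ∧ z ∈ X ∧ ad y z ∈ S) ∧ eta n z ≠ 0 ∧
      etad n (ad y z) ≠ 0 := by
  by_cases h1 : y ∈ X ∧ z ∈ X ∧ ad y z ∈ S
  · refine ⟨h1, ?_, ?_⟩
    · intro h2
      apply h
      rw [q0f_eq67 h1.1 h1.2.1 h1.2.2, h2]
      ring
    · intro h2
      apply h
      rw [q0f_eq67 h1.1 h1.2.1 h1.2.2, h2]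
      ring
  · exact absurd (q0f_zero67 h1) h

theorem sumle67 (A B : Finset ℕ) (f g : ℕ → ℝ) (h1 : ∀ x ∈ A, f x ≤ g x)
    (h2 : ∀ x ∈ A, f x ≠ 0 → x ∈ B) (hg : ∀ x ∈ B, 0 ≤ g x) :
    ∑ x ∈ A, f x ≤ ∑ x ∈ B, g x := by
  classical
  rw [← Finset.sum_filter_ne_zero]
  calc ∑ x ∈ A.filter (fun x => f x ≠ 0), f x ≤ ∑ x ∈ A.filter (fun x => f x ≠ 0), g x :=
        Finset.sum_le_sum fun x hx => h1 x (mem_filter.1 hx).1
    _ ≤ ∑ x ∈ B, g x := by
        apply Finset.sum_le_sum_of_subset_of_nonneg
        · intro x hx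
          rw [mem_filter] at hx
          exact h2 x hx.1 hx.2
        · intro x hx _
          exact hg x hx

theorem cons67 {n P w D : ℕ} {t μ e : ℝ} (h : Prm n P w D t μ e) :
    0 < n ∧ 10 ^ 6 ≤ n ∧ 0 < e ∧ 0 < t ∧ w ≤ n ∧ 10 ^ 6 * w ≤ P ∧ 10000 * P ≤ n ∧
      1 / (n : ℝ) ≤ t / 10 ^ 9 ∧ 0 < w := by
  obtain ⟨h1, h2, h3, h4, h5, h6, h7⟩ := Prm_cons h
  refine ⟨h.hn, by omega, h.e0, h.t0, by omega, by omega, by omega, h7, h.w0⟩

/-- pointwise lower bound of `q0 (f z) z` summed over the labels -/
theorem lower67 (n : ℕ) (c : ℝ) (hc : 0 ≤ c) (q g : ℕ → ℝ) (A B : ℕ → Prop) [DecidablePred A]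
    [DecidablePred B] (hg : ∀ z, g z ≤ 1) (hq : ∀ z, 0 ≤ q z)
    (h : ∀ z ∈ range (n + 1), ¬ A z → ¬ B z → c * g z ≤ q z) :
    c * (∑ z ∈ range (n + 1), g z - ((range (n + 1)).filter A).card -
      ((range (n + 1)).filter B).card) ≤ ∑ z ∈ range (n + 1), q z := by
  have e1 : (((range (n + 1)).filter A).card : ℝ) = ∑ z ∈ range (n + 1), if A z then 1 else 0 := by
    rw [Finset.sum_ite, Finset.sum_const_zero, add_zero, Finset.sum_const, nsmul_eq_mul, mul_one]
  have e2 : (((range (n + 1)).filter B).card : ℝ) = ∑ z ∈ range (n + 1), if B z then 1 else 0 := by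
    rw [Finset.sum_ite, Finset.sum_const_zero, add_zero, Finset.sum_const, nsmul_eq_mul, mul_one]
  rw [e1, e2, ← Finset.sum_sub_distrib, ← Finset.sum_sub_distrib, Finset.mul_sum]
  apply Finset.sum_le_sum
  intro z hz
  have h1 := hg z
  have h2 := hq z
  by_cases hA : A z
  · rw [if_pos hA]
    have : (0 : ℝ) ≤ if B z then 1 else 0 := by split_ifs <;> norm_num
    have : g z - 1 - (if B z then 1 else 0) ≤ 0 := by linarith
    nlinarith
  · rw [if_neg hA]
    by_cases hB : B z
    · rw [if_pos hB]
      have : g z - 0 - 1 ≤ 0 := by linarith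
      nlinarith
    · rw [if_neg hB, sub_zero, sub_zero]
      exact h z hz hA hB

/-- few labels of `[n/200, 199 n/200]` are missing -/
theorem missX67 {n P w D : ℕ} {t μ e : ℝ} {X S : Finset ℕ} (h : Prm n P w D t μ e)
    (hL : Loc n P w t X S) :
    ((((Icc (n / 200 + 1) (199 * n / 200)).filter (· ∉ X)).card : ℕ) : ℝ) ≤ t * (n + w) := by
  obtain ⟨h1, h2, h3, h4, h5, h6, h7, h8, h9⟩ := cons67 h
  have hab : n / 200 + 1 ≤ 199 * n / 200 := by omega
  have hf : FreeW n P (n / 200 + 1) (199 * n / 200) := by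
    right; left
    constructor <;> omega
  refine (lc_X hL h9 h4.le h6 (by omega) hab hf).trans ?_
  apply mul_le_mul_of_nonneg_left _ h4.le
  have h10 : ((199 * n / 200 : ℕ) : ℝ) ≤ n := by
    have : 199 * n / 200 ≤ n := by omega
    exact_mod_cast this
  have h11 : (0 : ℝ) ≤ ((n / 200 + 1 : ℕ) : ℝ) := Nat.cast_nonneg _
  linarith

/-- few shifted labels are missing -/
theorem missI67 {n P w D : ℕ} {t μ e : ℝ} {X S : Finset ℕ} (h : Prm n P w D t μ e)
    (hL : Loc n P w t X S) (f : ℕ → ℕ) (A : ℕ → Prop) [DecidablePred A]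
    (hinj : ∀ z z', A z → A z' → f z = f z' → z = z')
    (hA : ∀ z, A z → f z ∉ X ∧ n < 200 * f z ∧ 200 * f z ≤ 199 * n) :
    ((((range (n + 1)).filter A).card : ℕ) : ℝ) ≤ t * (n + w) := by
  refine le_trans ?_ (missX67 h hL)
  have : ((range (n + 1)).filter A).card ≤
      ((Icc (n / 200 + 1) (199 * n / 200)).filter (· ∉ X)).card := by
    apply Finset.card_le_card_of_injOn f
    · intro z hz
      have hz' := (mem_filter.1 (mem_coe.1 hz)).2
      obtain ⟨g1, g2, g3⟩ := hA z hz'
      apply mem_coe.2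
      rw [mem_filter, mem_Icc]
      refine ⟨⟨by omega, by omega⟩, g1⟩
    · intro z hz z' hz' hzz
      exact hinj z z' (mem_filter.1 (mem_coe.1 hz)).2 (mem_filter.1 (mem_coe.1 hz')).2 hzz
  exact_mod_cast this

theorem q0_basic {n P w D : ℕ} {t μ e : ℝ} {X S : Finset ℕ} (h : Prm n P w D t μ e) :
    AdmS X S (q0f n X S e) ∧ (∀ y z, 0 ≤ q0f n X S e y z ∧ q0f n X S e y z ≤ e / n) ∧
      (∀ y z, Rg n X S y z → e / (2 * n) ≤ q0f n X S e y z) ∧
      (∀ y z, q0f n X S e y z ≠ 0 → 5 * n ≤ 1000 * y ∧ 1000 * y ≤ 995 * n ∧ 335 * n ≤ 1000 * z ∧ 1000 * z ≤ 665 * n) := by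
  obtain ⟨h1, h2, h3, h4, h5, h6, h7, h8, h9⟩ := cons67 h
  have hn : (0 : ℝ) < n := by exact_mod_cast h1
  refine ⟨fun y z hq => (q0f_ne67 hq).1, fun y z => ⟨q0f_nonneg67 h3.le y z, ?_⟩, ?_, ?_⟩
  · refine (q0f_le67 h3.le y z).trans ?_
    have g1 := eta_rg67 n z
    have g2 := etad_rg67 n (ad y z)
    have g3 : eta n z * etad n (ad y z) ≤ 1 := mul_le_one₀ g1.2 g2.1 g2.2
    calc e / n * (eta n z * etad n (ad y z)) ≤ e / n * 1 := by gcongr
      _ = e / n := mul_one _
  · intro y z hr
    obtain ⟨g1, g2, g3, g4, g5, g6⟩ := hr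
    rw [q0f_eq67 g1 g2 g3, eta_one h1, etad_one h1, mul_one, mul_one]
    · apply div_le_div_of_nonneg_left h3.le hn
      linarith
    · have : (100 * (ad y z) : ℝ) ≤ 31 * n := by exact_mod_cast g6
      linarith
    · have g4' : (34 * n : ℝ) ≤ 100 * z := by exact_mod_cast g4
      have g5' : (100 * z : ℝ) ≤ 66 * n := by exact_mod_cast g5
      have : |(z : ℝ) - n / 2| ≤ 16 * (n : ℝ) / 100 := by
        rw [abs_le]
        constructor <;> linarith
      linarith
  · intro y z hq
    obtain ⟨_, g1, g2⟩ := q0f_ne67 hq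
    obtain ⟨k1, k2⟩ := eta_ne67 h1 g1
    have k3 := etad_ne67 h1 g2
    unfold ad at k3
    refine ⟨?_, ?_, ?_, ?_⟩ <;> omega

theorem q0_lab {n P w D : ℕ} {t μ e : ℝ} {X S : Finset ℕ} (h : Prm n P w D t μ e) (z : ℕ) :
    labS X (q0f n X S e) z ≤ 65 / 100 * e * eta n z + e * t := by
  obtain ⟨h1, h2, h3, h4, h5, h6, h7, h8, h9⟩ := cons67 h
  have hn : (0 : ℝ) < n := by exact_mod_cast h1
  have g1 := eta_rg67 n z
  have key : labS X (q0f n X S e) z ≤
      e * eta n z * ((∑ y ∈ range (n + 1), etad n |(y : ℝ) - z|) / n) := by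
    have k1 : labS X (q0f n X S e) z ≤
        ∑ y ∈ range (n + 1), e / n * (eta n z * etad n (ad y z)) := by
      unfold labS
      apply sumle67
      · intro y _
        exact q0f_le67 h3.le y z
      · intro y _ hq
        have := (q0_basic h).2.2.2 y z hq
        rw [mem_range]
        omega
      · intro y _
        have g2 := etad_rg67 n (ad y z)
        have := g1.1
        have := g2.1
        positivity
    refine k1.trans (le_of_eq ?_)
    rw [mul_div_assoc', Finset.mul_sum, Finset.sum_div]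
    refine Finset.sum_congr rfl fun y _ => ?_
    rw [ad_cast67]
    ring
  by_cases hz : eta n z = 0
  · rw [hz, mul_zero, zero_mul] at key
    rw [hz, mul_zero, zero_add]
    have : 0 ≤ e * t := by positivity
    linarith
  · obtain ⟨k1, k2⟩ := eta_ne67 h1 hz
    have k1' : 335 * (n : ℝ) ≤ 1000 * (z : ℝ) := by
      have : 335 * n ≤ 1000 * z := k1.le
      exact_mod_cast this
    have k2' : 1000 * (z : ℝ) ≤ 665 * (n : ℝ) := by
      have : 1000 * z ≤ 665 * n := k2.le
      exact_mod_cast this
    have k3 := (abs_le.1 (labm h2 k1' k2')).2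
    have k4 : (∑ y ∈ range (n + 1), etad n |(y : ℝ) - z|) / n ≤ 65 / 100 + 300 / n := by linarith
    have k5 : 300 / (n : ℝ) ≤ t := by
      have : 300 / (n : ℝ) = 300 * (1 / n) := by ring
      rw [this]
      linarith
    calc labS X (q0f n X S e) z ≤ e * eta n z * (65 / 100 + 300 / n) := by
          refine key.trans ?_
          apply mul_le_mul_of_nonneg_left k4
          exact mul_nonneg h3.le g1.1
      _ = 65 / 100 * e * eta n z + e * eta n z * (300 / n) := by ring
      _ ≤ 65 / 100 * e * eta n z + e * t := by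
          have : e * eta n z * (300 / n) ≤ e * 1 * t := by
            apply mul_le_mul _ k5 (by positivity) (by positivity)
            exact mul_le_mul_of_nonneg_left g1.2 h3.le
          linarith

theorem q0_dif {n P w D : ℕ} {t μ e : ℝ} {X S : Finset ℕ} (h : Prm n P w D t μ e) (hL : Loc n P w t X S) :
    (∀ d, difS X (q0f n X S e) d ≤ 65 / 100 * e * etad n d + e * t) ∧
      (∀ d ∈ S, 65 / 100 * e * etad n d - 10 * e * t ≤ difS X (q0f n X S e) d) ∧
      (∀ d, 33 * n ≤ 100 * d → difS X (q0f n X S e) d = 0) := by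
  classical
  obtain ⟨h1, h2, h3, h4, h5, h6, h7, h8, h9⟩ := cons67 h
  have hn : (0 : ℝ) < n := by exact_mod_cast h1
  have het := abs_le.1 (etas h2)
  have k5 : 600 / (n : ℝ) ≤ t := by
    have : 600 / (n : ℝ) = 600 * (1 / n) := by ring
    rw [this]
    linarith
  have hsw : ∀ d, difS X (q0f n X S e) d =
      ∑ z ∈ X, ∑ y ∈ X.filter (fun y => ad y z = d), q0f n X S e y z := by
    intro d
    unfold difS
    rw [Finset.sum_comm]
    refine Finset.sum_congr rfl fun z _ => ?_
    rw [Finset.sum_filter]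
  have hnn : ∀ d, 0 ≤ difS X (q0f n X S e) d := by
    intro d
    rw [hsw]
    exact Finset.sum_nonneg fun z _ => Finset.sum_nonneg fun y _ => q0f_nonneg67 h3.le y z
  have hup : ∀ d, difS X (q0f n X S e) d ≤ 65 / 100 * e * etad n d + e * t := by
    intro d
    have gd := etad_rg67 n d
    have k1 : difS X (q0f n X S e) d ≤
        ∑ z ∈ range (n + 1), 2 * (e / n * (eta n z * etad n d)) := by
      rw [hsw]
      refine le_trans (Finset.sum_le_sum (g := fun z : ℕ => 2 * (e / n * (eta n z * etad n d)))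
        fun z _ => ?_) ?_
      · have k2 : (X.filter (fun y => ad y z = d)).card ≤ 2 := by
          refine le_trans (Finset.card_le_card (t := {z + d, z - d}) ?_) Finset.card_le_two
          intro y hy
          have := (mem_filter.1 hy).2
          unfold ad at this
          rw [mem_insert, mem_singleton]
          omega
        have k3 : ∀ y ∈ X.filter (fun y => ad y z = d),
            q0f n X S e y z ≤ e / n * (eta n z * etad n d) := by
          intro y hy
          have := q0f_le67 (n := n) (X := X) (S := S) h3.le y z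
          rw [(mem_filter.1 hy).2] at this
          exact this
        refine (Finset.sum_le_card_nsmul _ _ _ k3).trans ?_
        rw [nsmul_eq_mul]
        have k4 : ((X.filter (fun y => ad y z = d)).card : ℝ) ≤ 2 := by exact_mod_cast k2
        have g1 := (eta_rg67 n z).1
        have := gd.1
        exact mul_le_mul_of_nonneg_right k4 (by positivity)
      · apply Finset.sum_le_sum_of_subset_of_nonneg hL.X_sub
        intro z _ _
        have g1 := (eta_rg67 n z).1
        have := gd.1
        positivity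
    have k2 : ∑ z ∈ range (n + 1), 2 * (e / n * (eta n z * etad n d)) =
        2 * e * etad n d * ((∑ z ∈ range (n + 1), eta n z) / n) := by
      rw [mul_div_assoc', Finset.mul_sum, Finset.sum_div]
      refine Finset.sum_congr rfl fun y _ => ?_
      ring
    rw [k2] at k1
    have k3 : (∑ z ∈ range (n + 1), eta n z) / n ≤ 325 / 1000 + 300 / n := by linarith [het.2]
    have k4 : 2 * e * etad n d * ((∑ z ∈ range (n + 1), eta n z) / n) ≤
        2 * e * etad n d * (325 / 1000 + 300 / n) := by
      apply mul_le_mul_of_nonneg_left k3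
      have := gd.1
      positivity
    have k6 : e * etad n d * (600 / n) ≤ e * 1 * t := by
      apply mul_le_mul _ k5 (by positivity) (by positivity)
      exact mul_le_mul_of_nonneg_left gd.2 h3.le
    have k7 : 2 * e * etad n d * (325 / 1000 + 300 / n) =
        65 / 100 * e * etad n d + e * etad n d * (600 / n) := by ring
    linarith
  refine ⟨hup, ?_, ?_⟩
  · intro d hd
    by_cases hed : etad n d = 0
    · rw [hed, mul_zero]
      have := hnn d
      have : 0 ≤ 10 * e * t := by positivity
      linarith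
    · have kd := etad_ne67 h1 hed
      have gd := etad_rg67 n d
      have hd1 : 1 ≤ d := (mem_Icc.1 (hL.S_sub hd)).1
      -- lower bound by two sums
      have k1 : ∑ z ∈ range (n + 1), (q0f n X S e (z + d) z + if d ≤ z then
          q0f n X S e (z - d) z else 0) ≤ difS X (q0f n X S e) d := by
        rw [hsw]
        have k2 : ∑ z ∈ range (n + 1), (q0f n X S e (z + d) z + if d ≤ z then
            q0f n X S e (z - d) z else 0) = ∑ z ∈ X, (q0f n X S e (z + d) z + if d ≤ z then
            q0f n X S e (z - d) z else 0) := by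
          symm
          apply Finset.sum_subset hL.X_sub
          intro z _ hz
          rw [q0f_zero67 (by tauto), q0f_zero67 (by tauto)]
          simp
        rw [k2]
        apply Finset.sum_le_sum
        intro z hz
        have k3 : q0f n X S e (z + d) z ≤ ∑ y ∈ (X.filter (fun y => ad y z = d)).filter
            (fun y => z < y), q0f n X S e y z := by
          by_cases hzd : z + d ∈ X
          · exact Finset.single_le_sum (f := fun y => q0f n X S e y z)
              (fun y _ => q0f_nonneg67 h3.le y z) (by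
                rw [mem_filter, mem_filter]
                refine ⟨⟨hzd, ?_⟩, by omega⟩
                unfold ad; omega)
          · rw [q0f_zero67 (by tauto)]
            exact Finset.sum_nonneg fun y _ => q0f_nonneg67 h3.le y z
        have k4 : (if d ≤ z then q0f n X S e (z - d) z else 0) ≤
            ∑ y ∈ (X.filter (fun y => ad y z = d)).filter
            (fun y => ¬ z < y), q0f n X S e y z := by
          split_ifs with hdz
          · by_cases hzd : z - d ∈ X
            · exact Finset.single_le_sum (f := fun y => q0f n X S e y z)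
                (fun y _ => q0f_nonneg67 h3.le y z) (by
                  rw [mem_filter, mem_filter]
                  refine ⟨⟨hzd, ?_⟩, by omega⟩
                  unfold ad; omega)
            · rw [q0f_zero67 (by tauto)]
              exact Finset.sum_nonneg fun y _ => q0f_nonneg67 h3.le y z
          · exact Finset.sum_nonneg fun y _ => q0f_nonneg67 h3.le y z
        rw [← Finset.sum_filter_add_sum_filter_not (X.filter (fun y => ad y z = d))
          (fun y => z < y)]
        linarith
      rw [Finset.sum_add_distrib] at k1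
      have hc : 0 ≤ e / n := by positivity
      have hg1 : ∀ z : ℕ, eta n z * etad n d ≤ 1 := fun z =>
        mul_le_one₀ (eta_rg67 n z).2 gd.1 gd.2
      have l1 := lower67 n (e / n) hc (fun z => q0f n X S e (z + d) z)
        (fun z => eta n z * etad n d) (fun z : ℕ => eta n z ≠ 0 ∧ z ∉ X)
        (fun z : ℕ => eta n z ≠ 0 ∧ z + d ∉ X) hg1 (fun z => q0f_nonneg67 h3.le _ _) (by
          intro z _ hA hB
          by_cases hz : eta n z = 0
          · simp only [hz, zero_mul, mul_zero]
            exact q0f_nonneg67 h3.le _ _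
          · have hzX : z ∈ X := by by_contra hc'; exact hA ⟨hz, hc'⟩
            have hzX' : z + d ∈ X := by by_contra hc'; exact hB ⟨hz, hc'⟩
            have had : ad (z + d) z = d := by unfold ad; omega
            rw [q0f_eq67 hzX' hzX (by rw [had]; exact hd), had]
            exact le_of_eq (by ring))
      have l2 := lower67 n (e / n) hc (fun z => if d ≤ z then q0f n X S e (z - d) z else 0)
        (fun z => eta n z * etad n d) (fun z : ℕ => eta n z ≠ 0 ∧ z ∉ X)
        (fun z : ℕ => eta n z ≠ 0 ∧ z - d ∉ X) hg1 (fun z => by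
          split_ifs
          · exact q0f_nonneg67 h3.le _ _
          · exact le_rfl) (by
          intro z _ hA hB
          by_cases hz : eta n z = 0
          · simp only [hz, zero_mul, mul_zero]
            split_ifs
            · exact q0f_nonneg67 h3.le _ _
            · exact le_rfl
          · have hzX : z ∈ X := by by_contra hc'; exact hA ⟨hz, hc'⟩
            have hzX' : z - d ∈ X := by by_contra hc'; exact hB ⟨hz, hc'⟩
            obtain ⟨m1, m2⟩ := eta_ne67 h1 hz
            have hdz : d ≤ z := by omega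
            have had : ad (z - d) z = d := by unfold ad; omega
            rw [if_pos hdz, q0f_eq67 hzX' hzX (by rw [had]; exact hd), had]
            exact le_of_eq (by ring))
      have m0 : ((((range (n + 1)).filter (fun z : ℕ => eta n z ≠ 0 ∧ z ∉ X)).card : ℕ) : ℝ) ≤
          t * (n + w) := by
        apply missI67 h hL (fun z => z)
        · intro z z' _ _ hzz; exact hzz
        · intro z hz
          obtain ⟨m1, m2⟩ := eta_ne67 h1 hz.1
          exact ⟨hz.2, by omega, by omega⟩
      have m1 : ((((range (n + 1)).filter (fun z : ℕ => eta n z ≠ 0 ∧ z + d ∉ X)).card : ℕ) : ℝ) ≤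
          t * (n + w) := by
        apply missI67 h hL (fun z => z + d)
        · intro z z' _ _ hzz
          omega
        · intro z hz
          obtain ⟨m1, m2⟩ := eta_ne67 h1 hz.1
          exact ⟨hz.2, by omega, by omega⟩
      have m2 : ((((range (n + 1)).filter (fun z : ℕ => eta n z ≠ 0 ∧ z - d ∉ X)).card : ℕ) : ℝ) ≤
          t * (n + w) := by
        apply missI67 h hL (fun z => z - d)
        · intro z z' hz hz' hzz
          obtain ⟨m1, m2⟩ := eta_ne67 h1 hz.1
          obtain ⟨m1', m2'⟩ := eta_ne67 h1 hz'.1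
          omega
        · intro z hz
          obtain ⟨m1, m2⟩ := eta_ne67 h1 hz.1
          exact ⟨hz.2, by omega, by omega⟩
      have hsum : ∑ z ∈ range (n + 1), eta n z * etad n d =
          etad n d * ∑ z ∈ range (n + 1), eta n z := by
        rw [Finset.mul_sum]
        refine Finset.sum_congr rfl fun z _ => by ring
      rw [hsum] at l1 l2
      have hSn : (325 / 1000 - 300 / n) * n ≤ ∑ z ∈ range (n + 1), eta n z := by
        have : 325 / 1000 - 300 / (n : ℝ) ≤ (∑ z ∈ range (n + 1), eta n z) / n := by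
          linarith [het.1]
        rwa [le_div_iff₀ hn] at this
      have hwn : (w : ℝ) ≤ n := by exact_mod_cast h5
      have hfin : e / n * (etad n d * ((325 / 1000 - 300 / n) * n) - t * (n + w) - t * (n + w)) ≤
          e / n * (etad n d * (∑ z ∈ range (n + 1), eta n z) -
            (((range (n + 1)).filter (fun z : ℕ => eta n z ≠ 0 ∧ z ∉ X)).card : ℕ) -
            (((range (n + 1)).filter (fun z : ℕ => eta n z ≠ 0 ∧ z + d ∉ X)).card : ℕ)) := by
        apply mul_le_mul_of_nonneg_left _ hc
        have := mul_le_mul_of_nonneg_left hSn gd.1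
        linarith
      have hfin2 : e / n * (etad n d * ((325 / 1000 - 300 / n) * n) - t * (n + w) - t * (n + w)) ≤
          e / n * (etad n d * (∑ z ∈ range (n + 1), eta n z) -
            (((range (n + 1)).filter (fun z : ℕ => eta n z ≠ 0 ∧ z ∉ X)).card : ℕ) -
            (((range (n + 1)).filter (fun z : ℕ => eta n z ≠ 0 ∧ z - d ∉ X)).card : ℕ)) := by
        apply mul_le_mul_of_nonneg_left _ hc
        have := mul_le_mul_of_nonneg_left hSn gd.1
        linarith
      have heq : e / n * (etad n d * ((325 / 1000 - 300 / n) * n) - t * (n + w) - t * (n + w)) =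
          325 / 1000 * e * etad n d - e * etad n d * (300 / n) - 2 * e * t * (1 + w / n) := by
        field_simp
        ring
      have hb1 : e * etad n d * (300 / n) ≤ e * 1 * t := by
        apply mul_le_mul _ _ (by positivity) (by positivity)
        · exact mul_le_mul_of_nonneg_left gd.2 h3.le
        · refine le_trans ?_ k5
          apply div_le_div_of_nonneg_right (by norm_num) hn.le
      have hb2 : (w : ℝ) / n ≤ 1 := by
        rw [div_le_one hn]; exact hwn
      have hb3 : 2 * e * t * (1 + w / n) ≤ 2 * e * t * 2 := by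
        apply mul_le_mul_of_nonneg_left _ (by positivity)
        linarith
      linarith
  · intro d hd
    apply le_antisymm _ (hnn d)
    rw [hsw]
    apply Finset.sum_nonpos
    intro z _
    apply Finset.sum_nonpos
    intro y hy
    refine (q0f_le67 h3.le y z).trans (le_of_eq ?_)
    rw [(mem_filter.1 hy).2, etad_zero h1 (by exact_mod_cast hd)]
    ring

theorem q0_row {n P w D : ℕ} {t μ e : ℝ} {X S : Finset ℕ} (h : Prm n P w D t μ e) (hL : Loc n P w t X S) :
    (∀ y, 0 ≤ R0 n X S e y) ∧ (∀ y, R0 n X S e y ≤ e * Bf n y) ∧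
      (∀ y ∈ X, e * Bf n y - 10 * e * t ≤ R0 n X S e y) ∧
      (∀ y, 1000 * y ≤ 5 * n ∨ 995 * n ≤ 1000 * y → R0 n X S e y = 0) := by
  classical
  obtain ⟨h1, h2, h3, h4, h5, h6, h7, h8, h9⟩ := cons67 h
  have hn : (0 : ℝ) < n := by exact_mod_cast h1
  have hnn : ∀ y, 0 ≤ R0 n X S e y := fun y =>
    Finset.sum_nonneg fun z _ => q0f_nonneg67 h3.le y z
  have hBf : ∀ y : ℕ, e * Bf n y = ∑ z ∈ range (n + 1), e / n * (eta n z * etad n (ad y z)) := by
    intro y
    unfold Bf
    rw [mul_div_assoc', Finset.mul_sum, Finset.sum_div]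
    refine Finset.sum_congr rfl fun z _ => ?_
    rw [ad_cast67]
    ring
  have hup : ∀ y, R0 n X S e y ≤ e * Bf n y := by
    intro y
    rw [hBf]
    unfold R0 rowS
    apply sumle67
    · intro z _
      exact q0f_le67 h3.le y z
    · intro z hz _
      exact hL.X_sub hz
    · intro z _
      have := (eta_rg67 n z).1
      have := (etad_rg67 n (ad y z)).1
      positivity
  refine ⟨hnn, hup, ?_, ?_⟩
  · intro y hy
    have hc : 0 ≤ e / n := by positivity
    have hR : R0 n X S e y = ∑ z ∈ range (n + 1), q0f n X S e y z := by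
      unfold R0 rowS
      apply Finset.sum_subset hL.X_sub
      intro z _ hz
      rw [q0f_zero67 (by tauto)]
    have l1 := lower67 n (e / n) hc (fun z => q0f n X S e y z)
      (fun z => eta n z * etad n (ad y z)) (fun z : ℕ => eta n z ≠ 0 ∧ z ∉ X)
      (fun z => ad y z ∉ S ∧ ad y z + P ≤ n)
      (fun z => mul_le_one₀ (eta_rg67 n z).2 (etad_rg67 n _).1 (etad_rg67 n _).2)
      (fun z => q0f_nonneg67 h3.le _ _) (by
        intro z _ hA hB
        by_cases hz : eta n z = 0
        · simp only [hz, zero_mul, mul_zero]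
          exact q0f_nonneg67 h3.le _ _
        · by_cases hd : etad n (ad y z) = 0
          · simp only [hd, mul_zero]
            exact q0f_nonneg67 h3.le _ _
          · have hzX : z ∈ X := by by_contra hc'; exact hA ⟨hz, hc'⟩
            have hk := etad_ne67 h1 hd
            have hS : ad y z ∈ S := by
              by_contra hc'
              exact hB ⟨hc', by omega⟩
            rw [q0f_eq67 hy hzX hS, mul_assoc])
    have m0 : ((((range (n + 1)).filter (fun z : ℕ => eta n z ≠ 0 ∧ z ∉ X)).card : ℕ) : ℝ) ≤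
        t * (n + w) := by
      apply missI67 h hL (fun z => z)
      · intro z z' _ _ hzz; exact hzz
      · intro z hz
        obtain ⟨m1, m2⟩ := eta_ne67 h1 hz.1
        exact ⟨hz.2, by omega, by omega⟩
    have m1 : ((((range (n + 1)).filter (fun z => ad y z ∉ S ∧ ad y z + P ≤ n)).card : ℕ) : ℝ) ≤
        2 * t * (n + w) + 1 := by
      have := lc_ad hL h9 h4.le h6 (by omega) y (Nat.zero_le n)
      have hI : (Icc 0 n : Finset ℕ) = range (n + 1) := by
        ext x; simp only [mem_Icc, mem_range]; omega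
      rw [hI] at this
      simpa using this
    have hsum : e * Bf n y = e / n * ∑ z ∈ range (n + 1), eta n z * etad n (ad y z) := by
      rw [hBf, Finset.mul_sum]
    have hwn : (w : ℝ) ≤ n := by exact_mod_cast h5
    have hb : e / n * (t * (n + w) + (2 * t * (n + w) + 1)) ≤ 10 * e * t := by
      have e1 : e / n * (t * (n + w) + (2 * t * (n + w) + 1)) =
          3 * e * t * (1 + w / n) + e * (1 / n) := by
        field_simp
        ring
      rw [e1]
      have hb2 : (w : ℝ) / n ≤ 1 := by
        rw [div_le_one hn]; exact hwn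
      have hb3 : 3 * e * t * (1 + w / n) ≤ 3 * e * t * 2 := by
        apply mul_le_mul_of_nonneg_left _ (by positivity)
        linarith
      have hb4 : e * (1 / (n : ℝ)) ≤ e * t := by
        apply mul_le_mul_of_nonneg_left _ h3.le
        linarith
      have : 0 ≤ e * t := by positivity
      linarith
    have hl : e / n * (∑ z ∈ range (n + 1), eta n z * etad n (ad y z) - t * (n + w) -
        (2 * t * (n + w) + 1)) ≤ R0 n X S e y := by
      rw [hR]
      refine le_trans ?_ l1
      apply mul_le_mul_of_nonneg_left _ hc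
      linarith
    have hexp : e / n * (∑ z ∈ range (n + 1), eta n z * etad n (ad y z) - t * (n + w) -
        (2 * t * (n + w) + 1)) = e * Bf n y - e / n * (t * (n + w) + (2 * t * (n + w) + 1)) := by
      rw [hsum]
      ring
    linarith
  · intro y hy
    apply le_antisymm _ (hnn y)
    refine (hup y).trans (le_of_eq ?_)
    rw [Bf_zero h2, mul_zero]
    rcases hy with hy | hy
    · left; exact_mod_cast hy
    · right; exact_mod_cast hy

end Pool.Agent.GRC
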