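import Pool.Agent.Helper28.GRC.STA5
import Pool.Agent.Helper28.GRC.N2B
import Pool.Agent.Helper28.GRC.N2C

set_option autoImplicit false

namespace Pool.Agent.GRC

open Finset Pool.Agent.SEM

theorem sta82_N_ex {n P J : ℕ} {S : Finset ℕ} {β : ℕ → ℕ} {ρ q : ℕ → ℝ} {DM as : ℝ} (hβ : Blk n P J β)
    (hDM : 0 < DM) (hW : ∀ j < J, 0 < ∑ d ∈ sta82_Bd n S β j, ρ d) {j s : ℕ} (hj : j < J)
    (hs : s ∈ sta82_Bd n S β j) :
    DM * sta82N J (fun j => q j * (∑ d ∈ sta82_Bd n S β j, ρ d) / DM) as (sta82_Bd n S β) (sta82_Bb n S) ρ s =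
      q j * ρ s := by
  unfold sta82N
  have h1 : s ∉ sta82_Bb n S := by
    have := (sta82_Bd_big hβ hj hs).2
    unfold sta82_Bb
    rw [mem_filter]
    omega
  rw [if_neg h1, mul_zero, add_zero, Finset.sum_eq_single j]
  · rw [if_pos hs]
    have := hW j hj
    field_simp
  · intro i hi hij
    rw [if_neg, mul_zero]
    intro hsi
    exact hij (sta82_uniq hβ (mem_range.1 hi) hj hsi hs)
  · intro hj'
    exact absurd (mem_range.2 hj) hj'

theorem sta82_N_low {n P J : ℕ} {S : Finset ℕ} {β : ℕ → ℕ} {ρ a : ℕ → ℝ} {as : ℝ} (hβ : Blk n P J β)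
    (hn : 0 < n) (has1 : as ≤ 1) (hc : (n : ℝ) / 51 ≤ ((sta82_Bb n S).card : ℝ)) {s : ℕ}
    (hs : 100 * s ≤ 31 * n) : sta82N J a as (sta82_Bd n S β) (sta82_Bb n S) ρ s ≤ 51 / n := by
  unfold sta82N
  have hnR : (0 : ℝ) < n := by exact_mod_cast hn
  rw [Finset.sum_eq_zero, zero_add]
  · split_ifs
    · have h1 : 1 / ((sta82_Bb n S).card : ℝ) ≤ 51 / n := by
        rw [div_le_div_iff₀ (lt_of_lt_of_le (by positivity) hc) hnR]
        rw [div_le_iff₀ (by norm_num)] at hc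
        linarith
      have h2 : 0 ≤ 1 / ((sta82_Bb n S).card : ℝ) := by positivity
      nlinarith
    · rw [mul_zero]; positivity
  · intro j hj
    rw [if_neg, mul_zero]
    intro hsj
    have := (sta82_Bd_big hβ (mem_range.1 hj) hsj).2
    omega

theorem sta82_zb_le {θ : ℝ} (hθ1 : θ ≤ 1 / 10 ^ 6) {n m : ℕ} (hn : 0 < n) (hm : n ≤ 100 * m) :
    1 / ((1 - θ) * (m : ℝ)) ≤ 102 / n := by
  have h0 : (0 : ℝ) < 1 - θ := by norm_num at hθ1 ⊢; linarith
  have hnR : (0 : ℝ) < n := by exact_mod_cast hn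
  have hmR : (n : ℝ) ≤ 100 * m := by exact_mod_cast hm
  have hm0 : (0 : ℝ) < m := by linarith
  rw [div_le_div_iff₀ (by positivity) hnR]
  have h2 : 101 / 100 ≤ 102 / 100 * (1 - θ) := by norm_num at hθ1 ⊢; linarith
  nlinarith

theorem sta82_classL {n P w D J : ℕ} {t μ e : ℝ} {X S : Finset ℕ} {p : ℕ → ℕ} {β : ℕ → ℕ} {ρ : ℕ → ℝ} {DM : ℝ}
    (h : Prm n P w D t μ e) (hL : Loc n P w t X S) (hβ : Blk n P J β)
    (hr1 : ∀ s ∈ S, 31 * n < 100 * s → n < s + 50 * P → ρ s = 1)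
    (hr2 : ∀ s ∈ S, 31 * n < 100 * s → s + 50 * P ≤ n → 8 / 10 * Real.sqrt (44 * P / ((n : ℝ) - s)) ≤ ρ s)
    (hr3 : ∀ s ∈ S, 31 * n < 100 * s → ρ s ≤ 1)
    (hr4 : ∀ s ∈ S, 31 * n < 100 * s → s + 51 * P ≤ n → ρ s ≤ 101 / 100 * Real.sqrt (44 * P / ((n : ℝ) - s)))
    (hDM : 57 / 10 * Real.sqrt (P * n) ≤ DM) (hDM0 : 0 < DM) :
    ∃ K N Q : ℕ → ℝ, (∀ (Lf : Finset ℕ) (c y : ℕ), Lf.card = D → c ≠ p c → c ∉ Lf → (∀ l ∈ Lf, p l = c) →
        10 * y ≤ 3 * n → ∃ L : FL, Sta82L p X S Lf c y (50 / w) K N Q L) ∧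
      (∀ x, 0 ≤ K x) ∧ (∀ A : Finset ℕ, ∑ x ∈ A, K x ≤ 1001 / 1000) ∧
      (∀ j < J, ∀ s ∈ sta82_Bd n S β j, DM * N s = pH P (β j) * ρ s) ∧
      (∀ s, 100 * s ≤ 31 * n → N s ≤ 51 / n) ∧
      (∀ x, 7 * n < 100 * x → K x = 0) ∧
      (∀ z, DM * K z ≤ 102 / 100 * cnH P J β z +
        DM * (if 6 * n < 100 * z + 100 ∧ 100 * z ≤ 7 * n then 102 / (n : ℝ) else 0)) ∧
      (∀ z, z ≤ n → DM * Q z ≤ 102 / 100 * lfH P J β (n - z) +
        DM * (if 34 * n ≤ 100 * z ∧ 100 * z ≤ 66 * n then 102 / (n : ℝ) else 0)) := by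
  classical
  obtain ⟨-, hwP, hPn, hw9, -, -, -⟩ := Prm_cons h
  have hP6 : 10 ^ 6 ≤ P := by omega
  have hP : 0 < P := by omega
  have hn : 0 < n := h.hn
  have hnR : (0 : ℝ) < n := by exact_mod_cast hn
  obtain ⟨hθ0, hθ1⟩ := sta82_theta h
  set θ : ℝ := 10 * ((D : ℝ) + 2) * t with hθ
  have hθ2 : θ ≤ 1 / 2 := by norm_num at hθ1 ⊢; linarith
  have hSn : ∀ s ∈ S, s ≤ n := fun s hs => by have := hL.S_le s hs; omega
  have hρ0 : ∀ j < J, ∀ d ∈ sta82_Bd n S β j, 0 ≤ ρ d := fun j hj d hd =>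
    le_trans (by positivity) (sta82_rho_lo hβ hP hr1 hr2 hj hd)
  have hW : ∀ j < J, 0 < ∑ d ∈ sta82_Bd n S β j, ρ d := fun j hj =>
    lt_of_lt_of_le (by positivity) (sta82_W_lo h hL hβ hr1 hr2 hj)
  have hq0 : ∀ b, 0 ≤ pH P b := fun b => by unfold pH; split_ifs <;> norm_num
  have hq1 : ∀ b, pH P b ≤ 1 := fun b => by unfold pH; split_ifs <;> norm_num
  have hq2 : ∀ b, 23 * P ≤ b → pH P b ≤ 1 / 2 := fun b hb => by
    unfold pH
    rw [if_neg (by omega), if_neg (by omega), if_neg (by omega)]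
  have hmass := sta82_mass h hβ hr3 hr4 hSn (fun j => pH P (β j)) (fun j _ => hq0 _) (fun j _ => hq1 _)
    (fun j _ hb => hq2 _ hb)
  set a : ℕ → ℝ := fun j => pH P (β j) * (∑ d ∈ sta82_Bd n S β j, ρ d) / DM with ha
  have hsumA : ∑ j ∈ range J, a j = (∑ j ∈ range J, pH P (β j) * ∑ d ∈ sta82_Bd n S β j, ρ d) / DM := by
    rw [Finset.sum_div]
  have hA1 : ∑ j ∈ range J, a j ≤ 1 := by
    rw [hsumA, div_le_one hDM0]; linarith
  have ha0 : ∀ j < J, 0 ≤ a j := fun j hj => by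
    have := hW j hj
    have := hq0 (β j)
    rw [ha]; positivity
  have hA0 : 0 ≤ ∑ j ∈ range J, a j := Finset.sum_nonneg fun j hj => ha0 j (mem_range.1 hj)
  set as : ℝ := 1 - ∑ j ∈ range J, a j with has
  have has0 : 0 ≤ as := by linarith
  have has1 : as ≤ 1 := by linarith
  have hsum1 : ∑ j ∈ range J, a j + as = 1 := by rw [has]; ring
  have hcb := (sta82_Bb_card h hL).1
  have hBb0 : 0 < (sta82_Bb n S).card := by
    have : (0 : ℝ) < ((sta82_Bb n S).card : ℝ) := lt_of_lt_of_le (by positivity) hcb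
    exact_mod_cast this
  have hzb : 1 / ((1 - θ) * ((Icc (6 * n / 100) (7 * n / 100)).card : ℝ)) ≤ 102 / n := by
    apply sta82_zb_le hθ1 hn
    rw [Nat.card_Icc]; omega
  have hZn : ∀ j < J, ∀ x ∈ ZL P (β j), 100 * x ≤ 7 * n := by
    intro j hj x hx
    have := sta82_le hβ hj.le
    unfold ZL at hx
    split_ifs at hx with hc
    · rw [mem_Icc] at hx; omega
    · rw [mem_Icc] at hx; omega
  refine ⟨sta82K θ J a as (fun j => ZL P (β j)) (Icc (6 * n / 100) (7 * n / 100)),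
    sta82N J a as (sta82_Bd n S β) (sta82_Bb n S) ρ,
    sta82Q θ J a as (fun j => ZL P (β j)) (Icc (6 * n / 100) (7 * n / 100)) (sta82_Bd n S β) (sta82_Bb n S) ρ
      (fun x d => x + d), ?_, ?_, ?_, ?_, ?_, ?_, ?_, ?_⟩
  · intro Lf c y hLf hc hcL hLp hy
    exact sta82_mix2 (p := p) (X := X) (S := S) (Lf := Lf) (c := c) (y := y) (fun x d => x + d) hc hcL hLp hθ0 hθ2 J a as
      (fun j => ZL P (β j)) (Icc (6 * n / 100) (7 * n / 100)) (sta82_Bd n S β) (sta82_Bb n S) ρ ha0 has0 hsum1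
      (fun j hj _ => sta82_OKL h hL hβ hLf hr1 hr2 hr3 hj hy) (sta82_OKbL h hL hLf hy)
  · exact fun x => sta82K_nn hθ1 ha0 has0 x
  · exact fun A => sta82K_tot hθ1 ha0 has0 hsum1 A
  · exact fun j hj s hs => sta82_N_ex hβ hDM0 hW hj hs
  · exact fun s hs => sta82_N_low hβ hn has1 hcb hs
  · intro x hx
    apply sta82K_zero
    · intro j hj hxj
      have := hZn j hj x hxj
      omega
    · rw [mem_Icc]; omega
  · intro z
    refine (sta82_K_le hβ hP hr3 hr4 hSn (fun j _ => hq0 (β j)) hθ1 hDM0 has1 (fun j => ZL P (β j))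
      (Icc (6 * n / 100) (7 * n / 100)) z).trans ?_
    unfold cnH
    apply add_le_add le_rfl
    apply mul_le_mul_of_nonneg_left _ hDM0.le
    by_cases hz : z ∈ Icc (6 * n / 100) (7 * n / 100)
    · rw [if_pos hz, if_pos]
      · exact hzb
      · rw [mem_Icc] at hz; omega
    · rw [if_neg hz]; split_ifs <;> positivity
  · intro z hz
    unfold lfH
    refine sta82_Q_le hβ hP hr3 hr4 hSn (fun j _ => hq0 (β j)) hθ1 hDM0 hρ0 hW has0 has1 (fun j => ZL P (β j))
      (Icc (6 * n / 100) (7 * n / 100)) (sta82_Bb n S) (fun x d => x + d) z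
      (fun j s => n - z ≤ s ∧ s - (n - z) ∈ ZL P (β j)) ?_ _ ?_ ?_
    · intro j hj _ d hd
      have hdn := (hSn d (sta82_Bd_big hβ hj hd).1)
      have hc1 : ((ZL P (β j)).filter fun x => x + d = z).card ≤ 1 := by
        rw [Finset.card_le_one]
        intro x hx x' hx'
        rw [mem_filter] at hx hx'
        omega
      split_ifs with hE
      · exact_mod_cast hc1
      · have : ((ZL P (β j)).filter fun x => x + d = z) = ∅ := by
          rw [Finset.filter_eq_empty_iff]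
          intro x hx hxd
          apply hE
          refine ⟨by omega, ?_⟩
          have : n - d - (n - z) = x := by omega
          rw [this]; exact hx
        rw [this]; simp
    · by_cases hzr : 34 * n ≤ 100 * z ∧ 100 * z ≤ 66 * n
      · rw [if_pos hzr]
        refine sta82_bulk_le hθ1 hBb0 hzb ?_
        intro d _
        rw [Finset.card_le_one]
        intro x hx x' hx'
        rw [mem_filter] at hx hx'
        omega
      · rw [if_neg hzr]
        apply le_of_eq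
        apply Finset.sum_eq_zero
        intro d hd
        have : ((Icc (6 * n / 100) (7 * n / 100)).filter fun x => x + d = z) = ∅ := by
          rw [Finset.filter_eq_empty_iff]
          intro x hx hxd
          unfold sta82_Bb at hd
          rw [mem_filter] at hd
          rw [mem_Icc] at hx
          apply hzr
          omega
        rw [this]; simp
    · split_ifs <;> positivity

theorem sta82_ZH_mem {n P b x : ℕ} (hx : x ≤ n) (hP : 58 * P ≤ n) (hb : b ≤ n) (hn : 100 ≤ n) :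
    (x ∈ sta82_ZH n P b ↔ n - x ∈ ZH P b) := by
  unfold sta82_ZH ZH
  split_ifs with hc
  · rw [mem_Icc, mem_Icc]; omega
  · rw [mem_Icc, mem_Icc]; omega

theorem sta82_ZH_card {n P b : ℕ} (hP0 : 10 ^ 6 ≤ P) (hPb : P ≤ b) (hP : 58 * P ≤ n) (hb : b ≤ n) :
    (sta82_ZH n P b).card = (ZH P b).card := by
  unfold sta82_ZH ZH
  split_ifs with hc
  · rw [Nat.card_Icc, Nat.card_Icc]; omega
  · rw [Nat.card_Icc, Nat.card_Icc]; omega

theorem sta82_ZH_le {n P b x : ℕ} (hx : x ∈ sta82_ZH n P b) : x ≤ n := by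
  unfold sta82_ZH at hx
  split_ifs at hx with hc
  · rw [mem_Icc] at hx; omega
  · rw [mem_Icc] at hx; omega

theorem sta82_classH {n P w D J : ℕ} {t μ e : ℝ} {X S : Finset ℕ} {p : ℕ → ℕ} {β : ℕ → ℕ} {ρ : ℕ → ℝ} {DM : ℝ}
    (h : Prm n P w D t μ e) (hL : Loc n P w t X S) (hβ : Blk n P J β)
    (hr1 : ∀ s ∈ S, 31 * n < 100 * s → n < s + 50 * P → ρ s = 1)
    (hr2 : ∀ s ∈ S, 31 * n < 100 * s → s + 50 * P ≤ n → 8 / 10 * Real.sqrt (44 * P / ((n : ℝ) - s)) ≤ ρ s)
    (hr3 : ∀ s ∈ S, 31 * n < 100 * s → ρ s ≤ 1)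
    (hr4 : ∀ s ∈ S, 31 * n < 100 * s → s + 51 * P ≤ n → ρ s ≤ 101 / 100 * Real.sqrt (44 * P / ((n : ℝ) - s)))
    (hDM : 57 / 10 * Real.sqrt (P * n) ≤ DM) (hDM0 : 0 < DM) :
    ∃ K N Q : ℕ → ℝ, (∀ (Lf : Finset ℕ) (c y : ℕ), Lf.card = D → c ≠ p c → c ∉ Lf → (∀ l ∈ Lf, p l = c) →
        y ≤ n → 7 * n ≤ 10 * y → ∃ L : FL, Sta82L p X S Lf c y (50 / w) K N Q L) ∧
      (∀ x, 0 ≤ K x) ∧ (∀ A : Finset ℕ, ∑ x ∈ A, K x ≤ 1001 / 1000) ∧
      (∀ j < J, ∀ s ∈ sta82_Bd n S β j, DM * N s = (1 - pH P (β j)) * ρ s) ∧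
      (∀ s, 100 * s ≤ 31 * n → N s ≤ 51 / n) ∧
      (∀ x, 100 * x < 93 * n ∨ n < x → K x = 0) ∧
      (∀ z, z ≤ n → DM * K z ≤ 102 / 100 * cnL P J β (n - z) +
        DM * (if 93 * n ≤ 100 * z ∧ 100 * z ≤ 94 * n + 100 then 102 / (n : ℝ) else 0)) ∧
      (∀ z, z ≤ n → DM * Q z ≤ 102 / 100 * lfL P J β z +
        DM * (if 34 * n ≤ 100 * z ∧ 100 * z ≤ 66 * n then 102 / (n : ℝ) else 0)) := by
  classical
  obtain ⟨-, hwP, hPn, hw9, -, -, -⟩ := Prm_cons h
  have hP6 : 10 ^ 6 ≤ P := by omega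
  have hP : 0 < P := by omega
  have hn : 0 < n := h.hn
  have hnR : (0 : ℝ) < n := by exact_mod_cast hn
  obtain ⟨hθ0, hθ1⟩ := sta82_theta h
  set θ : ℝ := 10 * ((D : ℝ) + 2) * t with hθ
  have hθ2 : θ ≤ 1 / 2 := by norm_num at hθ1 ⊢; linarith
  have hSn : ∀ s ∈ S, s ≤ n := fun s hs => by have := hL.S_le s hs; omega
  have hρ0 : ∀ j < J, ∀ d ∈ sta82_Bd n S β j, 0 ≤ ρ d := fun j hj d hd =>
    le_trans (by positivity) (sta82_rho_lo hβ hP hr1 hr2 hj hd)
  have hW : ∀ j < J, 0 < ∑ d ∈ sta82_Bd n S β j, ρ d := fun j hj =>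
    lt_of_lt_of_le (by positivity) (sta82_W_lo h hL hβ hr1 hr2 hj)
  have hq0 : ∀ b, 0 ≤ 1 - pH P b := fun b => by unfold pH; split_ifs <;> norm_num
  have hq1 : ∀ b, 1 - pH P b ≤ 1 := fun b => by unfold pH; split_ifs <;> norm_num
  have hq2 : ∀ b, 23 * P ≤ b → 1 - pH P b ≤ 1 / 2 := fun b hb => by
    unfold pH
    rw [if_neg (by omega), if_neg (by omega), if_neg (by omega)]
    norm_num
  have hq3 : ∀ b, 1 - pH P b ≠ 0 → 105 * P ≤ 100 * b := fun b hb => by
    by_contra hc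
    apply hb
    unfold pH
    rw [if_pos (by omega)]
    norm_num
  have hmass := sta82_mass h hβ hr3 hr4 hSn (fun j => 1 - pH P (β j)) (fun j _ => hq0 _) (fun j _ => hq1 _)
    (fun j _ hb => hq2 _ hb)
  set a : ℕ → ℝ := fun j => (1 - pH P (β j)) * (∑ d ∈ sta82_Bd n S β j, ρ d) / DM with ha
  have hsumA : ∑ j ∈ range J, a j = (∑ j ∈ range J, (1 - pH P (β j)) * ∑ d ∈ sta82_Bd n S β j, ρ d) / DM := by
    rw [Finset.sum_div]
  have hA1 : ∑ j ∈ range J, a j ≤ 1 := by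
    rw [hsumA, div_le_one hDM0]; linarith
  have ha0 : ∀ j < J, 0 ≤ a j := fun j hj => by
    have := hW j hj
    have := hq0 (β j)
    rw [ha]; positivity
  have ha3 : ∀ j < J, a j ≠ 0 → 105 * P ≤ 100 * β j := fun j hj hne => by
    apply hq3
    intro h0
    apply hne
    rw [ha]
    simp [h0]
  have hA0 : 0 ≤ ∑ j ∈ range J, a j := Finset.sum_nonneg fun j hj => ha0 j (mem_range.1 hj)
  set as : ℝ := 1 - ∑ j ∈ range J, a j with has
  have has0 : 0 ≤ as := by linarith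
  have has1 : as ≤ 1 := by linarith
  have hsum1 : ∑ j ∈ range J, a j + as = 1 := by rw [has]; ring
  have hcb := (sta82_Bb_card h hL).1
  have hBb0 : 0 < (sta82_Bb n S).card := by
    have : (0 : ℝ) < ((sta82_Bb n S).card : ℝ) := lt_of_lt_of_le (by positivity) hcb
    exact_mod_cast this
  have hzb : 1 / ((1 - θ) * ((Icc (n - 7 * n / 100) (n - 6 * n / 100)).card : ℝ)) ≤ 102 / n := by
    apply sta82_zb_le hθ1 hn
    rw [Nat.card_Icc]; omega
  have hbn : ∀ j < J, β j ≤ n := fun j hj => by have := sta82_le hβ hj.le; omega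
  have hPn58 : 58 * P ≤ n := by omega
  have hZn : ∀ j < J, ∀ x ∈ sta82_ZH n P (β j), 93 * n ≤ 100 * x ∧ x ≤ n := by
    intro j hj x hx
    have := sta82_le hβ hj.le
    have := sta82_ge hβ hj.le
    refine ⟨?_, sta82_ZH_le hx⟩
    unfold sta82_ZH at hx
    split_ifs at hx with hc
    · rw [mem_Icc] at hx; omega
    · rw [mem_Icc] at hx; omega
  refine ⟨sta82K θ J a as (fun j => sta82_ZH n P (β j)) (Icc (n - 7 * n / 100) (n - 6 * n / 100)),
    sta82N J a as (sta82_Bd n S β) (sta82_Bb n S) ρ,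
    sta82Q θ J a as (fun j => sta82_ZH n P (β j)) (Icc (n - 7 * n / 100) (n - 6 * n / 100)) (sta82_Bd n S β)
      (sta82_Bb n S) ρ (fun x d => x - d), ?_, ?_, ?_, ?_, ?_, ?_, ?_, ?_⟩
  · intro Lf c y hLf hc hcL hLp hy hy2
    exact sta82_mix2 (p := p) (X := X) (S := S) (Lf := Lf) (c := c) (y := y) (fun x d => x - d) hc hcL hLp hθ0 hθ2 J a as
      (fun j => sta82_ZH n P (β j)) (Icc (n - 7 * n / 100) (n - 6 * n / 100)) (sta82_Bd n S β) (sta82_Bb n S) ρ ha0 has0
      hsum1 (fun j hj hne => sta82_OKH h hL hβ hLf hr1 hr2 hr3 hj (ha3 j hj hne) hy hy2) (sta82_OKbH h hL hLf hy hy2)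
  · exact fun x => sta82K_nn hθ1 ha0 has0 x
  · exact fun A => sta82K_tot hθ1 ha0 has0 hsum1 A
  · exact fun j hj s hs => sta82_N_ex (q := fun j => 1 - pH P (β j)) hβ hDM0 hW hj hs
  · exact fun s hs => sta82_N_low hβ hn has1 hcb hs
  · intro x hx
    apply sta82K_zero
    · intro j hj hxj
      have := hZn j hj x hxj
      omega
    · rw [mem_Icc]; omega
  · intro z hz
    refine (sta82_K_le (q := fun j => 1 - pH P (β j)) hβ hP hr3 hr4 hSn (fun j _ => hq0 (β j)) hθ1 hDM0 has1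
      (fun j => sta82_ZH n P (β j)) (Icc (n - 7 * n / 100) (n - 6 * n / 100)) z).trans ?_
    unfold cnL
    apply add_le_add
    · apply mul_le_mul_of_nonneg_left _ (by norm_num)
      apply le_of_eq
      refine Finset.sum_congr rfl fun j hj => ?_
      rw [mem_range] at hj
      rw [sta82_ZH_card hP6 (sta82_ge hβ hj.le) hPn58 (hbn j hj)]
      congr 2
      exact if_congr (sta82_ZH_mem hz hPn58 (hbn j hj) (by omega)) rfl rfl
    · apply mul_le_mul_of_nonneg_left _ hDM0.le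
      by_cases hzz : z ∈ Icc (n - 7 * n / 100) (n - 6 * n / 100)
      · rw [if_pos hzz, if_pos]
        · exact hzb
        · rw [mem_Icc] at hzz; omega
      · rw [if_neg hzz]; split_ifs <;> positivity
  · intro z hz
    have hQ := sta82_Q_le (q := fun j => 1 - pH P (β j)) hβ hP hr3 hr4 hSn (fun j _ => hq0 (β j)) hθ1 hDM0 hρ0 hW has0 has1
      (fun j => sta82_ZH n P (β j))
      (Icc (n - 7 * n / 100) (n - 6 * n / 100)) (sta82_Bb n S) (fun x d => x - d) z
      (fun j s => z ≤ s ∧ s - z ∈ ZH P (β j)) ?_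
      (if 34 * n ≤ 100 * z ∧ 100 * z ≤ 66 * n then 102 / (n : ℝ) else 0) ?_ ?_
    · refine hQ.trans ?_
      apply add_le_add _ le_rfl
      apply mul_le_mul_of_nonneg_left _ (by norm_num)
      unfold lfL
      apply le_of_eq
      refine Finset.sum_congr rfl fun j hj => ?_
      rw [mem_range] at hj
      rw [sta82_ZH_card hP6 (sta82_ge hβ hj.le) hPn58 (hbn j hj)]
    · intro j hj hne d hd
      have hb3 := hq3 _ hne
      have hdn := (hSn d (sta82_Bd_big hβ hj hd).1)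
      have hge := sta82_ge hβ hj.le
      have hd2 : β j ≤ n - d := by
        unfold sta82_Bd at hd
        exact (mem_filter.1 hd).2.1
      have hdx : ∀ x ∈ sta82_ZH n P (β j), d ≤ x := by
        intro x hx
        unfold sta82_ZH at hx
        split_ifs at hx with hc
        · rw [mem_Icc] at hx; omega
        · rw [mem_Icc] at hx; omega
      have hc1 : ((sta82_ZH n P (β j)).filter fun x => x - d = z).card ≤ 1 := by
        rw [Finset.card_le_one]
        intro x hx x' hx'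
        rw [mem_filter] at hx hx'
        have := hdx x hx.1
        have := hdx x' hx'.1
        omega
      split_ifs with hE
      · exact_mod_cast hc1
      · have : ((sta82_ZH n P (β j)).filter fun x => x - d = z) = ∅ := by
          rw [Finset.filter_eq_empty_iff]
          intro x hx hxd
          apply hE
          have h1 := hdx x hx
          have h2 := (hZn j hj x hx).2
          refine ⟨by omega, ?_⟩
          have h3 : n - d - z = n - x := by omega
          rw [h3]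
          exact (sta82_ZH_mem h2 hPn58 (hbn j hj) (by omega)).1 hx
        rw [this]; simp
    · by_cases hzr : 34 * n ≤ 100 * z ∧ 100 * z ≤ 66 * n
      · rw [if_pos hzr]
        refine sta82_bulk_le hθ1 hBb0 hzb ?_
        intro d hd
        unfold sta82_Bb at hd
        rw [mem_filter] at hd
        rw [Finset.card_le_one]
        intro x hx x' hx'
        rw [mem_filter, mem_Icc] at hx hx'
        omega
      · rw [if_neg hzr]
        apply le_of_eq
        apply Finset.sum_eq_zero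
        intro d hd
        have : ((Icc (n - 7 * n / 100) (n - 6 * n / 100)).filter fun x => x - d = z) = ∅ := by
          rw [Finset.filter_eq_empty_iff]
          intro x hx hxd
          unfold sta82_Bb at hd
          rw [mem_filter] at hd
          rw [mem_Icc] at hx
          apply hzr
          omega
        rw [this]; simp
    · split_ifs <;> positivity

theorem sta82_classC {n P w D : ℕ} {t μ e : ℝ} {X S : Finset ℕ} {p : ℕ → ℕ}
    (h : Prm n P w D t μ e) (hL : Loc n P w t X S) :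
    ∃ K N Q : ℕ → ℝ, (∀ (Lf : Finset ℕ) (c y : ℕ), Lf.card = D → c ≠ p c → c ∉ Lf → (∀ l ∈ Lf, p l = c) →
        3 * n < 10 * y → 10 * y < 7 * n → ∃ L : FL, Sta82L p X S Lf c y (50 / w) K N Q L) ∧
      (∀ x, 0 ≤ K x) ∧ (∀ A : Finset ℕ, ∑ x ∈ A, K x ≤ 1001 / 1000) ∧
      (∀ s, 31 * n < 100 * s → N s = 0) ∧
      (∀ s, N s ≤ 51 / n) ∧
      (∀ x, K x ≠ 0 → 39 * n < 100 * x ∧ 100 * x ≤ 50 * n) ∧
      (∀ z, K z ≤ (if 34 * n ≤ 100 * z ∧ 100 * z ≤ 66 * n then 102 / (n : ℝ) else 0)) ∧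
      (∀ z, Q z ≤ (if 34 * n ≤ 100 * z ∧ 100 * z ≤ 66 * n then 102 / (n : ℝ) else 0)) := by
  classical
  obtain ⟨-, hwP, hPn, hw9, -, -, -⟩ := Prm_cons h
  have hn : 0 < n := h.hn
  have hnR : (0 : ℝ) < n := by exact_mod_cast hn
  obtain ⟨hθ0, hθ1⟩ := sta82_theta h
  set θ : ℝ := 10 * ((D : ℝ) + 2) * t with hθ
  have hθ2 : θ ≤ 1 / 2 := by norm_num at hθ1 ⊢; linarith
  have hcb := (sta82_Bb_card h hL).2
  have hBb0 : 0 < (sta82_Bc n S).card := by
    have : (0 : ℝ) < ((sta82_Bc n S).card : ℝ) := lt_of_lt_of_le (by positivity) hcb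
    exact_mod_cast this
  have hzb : 1 / ((1 - θ) * ((Icc (4 * n / 10) (5 * n / 10)).card : ℝ)) ≤ 102 / n := by
    apply sta82_zb_le hθ1 hn
    rw [Nat.card_Icc]; omega
  refine ⟨sta82K θ 0 (fun _ => 0) 1 (fun _ => ∅) (Icc (4 * n / 10) (5 * n / 10)),
    sta82N 0 (fun _ => 0) 1 (fun _ => ∅) (sta82_Bc n S) (fun _ => 1),
    sta82Q θ 0 (fun _ => 0) 1 (fun _ => ∅) (Icc (4 * n / 10) (5 * n / 10)) (fun _ => ∅)
      (sta82_Bc n S) (fun _ => 1) (fun x d => x + d), ?_, ?_, ?_, ?_, ?_, ?_, ?_, ?_⟩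
  · intro Lf c y hLf hc hcL hLp hy hy2
    exact sta82_mix2 (p := p) (X := X) (S := S) (Lf := Lf) (c := c) (y := y) (fun x d => x + d) hc hcL hLp hθ0 hθ2 0
      (fun _ => 0) 1 (fun _ => ∅) (Icc (4 * n / 10) (5 * n / 10)) (fun _ => ∅) (sta82_Bc n S) (fun _ => 1)
      (fun j hj => absurd hj (Nat.not_lt_zero j)) zero_le_one (by simp)
      (fun j hj => absurd hj (Nat.not_lt_zero j)) (sta82_OKc h hL hLf hy hy2)
  · exact fun x => sta82K_nn hθ1 (fun j hj => absurd hj (Nat.not_lt_zero j)) zero_le_one x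
  · exact fun A => sta82K_tot hθ1 (fun j hj => absurd hj (Nat.not_lt_zero j)) zero_le_one (by simp) A
  · intro s hs
    unfold sta82N
    rw [if_neg]
    · simp
    · unfold sta82_Bc
      rw [mem_filter]; omega
  · intro s
    unfold sta82N
    rw [Finset.range_zero, Finset.sum_empty, zero_add, one_mul]
    split_ifs
    · rw [div_le_div_iff₀ (lt_of_lt_of_le (by positivity) hcb) hnR]
      rw [div_le_iff₀ (by norm_num)] at hcb
      linarith
    · positivity
  · intro x hx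
    by_contra hc
    apply hx
    apply sta82K_zero
    · exact fun j hj => absurd hj (Nat.not_lt_zero j)
    · rw [mem_Icc]; omega
  · intro z
    unfold sta82K
    rw [Finset.range_zero, Finset.sum_empty, zero_add, one_mul]
    by_cases hz : z ∈ Icc (4 * n / 10) (5 * n / 10)
    · rw [if_pos hz, if_pos]
      · exact hzb
      · rw [mem_Icc] at hz; omega
    · rw [if_neg hz]; split_ifs <;> positivity
  · intro z
    unfold sta82Q
    rw [Finset.range_zero, Finset.sum_empty, zero_add, one_mul]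
    by_cases hzr : 34 * n ≤ 100 * z ∧ 100 * z ≤ 66 * n
    · rw [if_pos hzr]
      refine sta82_bulk_le hθ1 hBb0 hzb ?_
      intro d _
      rw [Finset.card_le_one]
      intro x hx x' hx'
      rw [mem_filter] at hx hx'
      omega
    · rw [if_neg hzr]
      apply le_of_eq
      apply Finset.sum_eq_zero
      intro d hd
      have : ((Icc (4 * n / 10) (5 * n / 10)).filter fun x => x + d = z) = ∅ := by
        rw [Finset.filter_eq_empty_iff]
        intro x hx hxd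
        unfold sta82_Bc at hd
        rw [mem_filter] at hd
        rw [mem_Icc] at hx
        apply hzr
        omega
      rw [this]; simp

end Pool.Agent.GRC
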