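import Pool.Agent.Helper28.GRC.STU
import Pool.Agent.Helper28.GRC.LC
import Pool.Agent.Helper28.GRC.PF2
import Pool.Agent.Helper28.GRC.N2B
import Pool.Agent.Helper28.GRC.N2C
import Pool.Agent.Helper28.GRC.STA6

/-!
# GRC-STA: the laws of all the ramp stars and their loads

`M c y` = probability that the parent of the star `c` has label `y`; `ρ s` = the load which the leaves of the stars have to give to the difference `s`, `100 s > 31 n`.

Proof in words.  Blocks `Blk n P J β` (`blk_exists`), `Bd j = {s ∈ S : β j ≤ n - s < β (j+1)}`, `W j = ∑_{Bd j} ρ`; the sets `Bd j` partition `{s ∈ S : 100 s > 31 n}`.  Class of the parent label `y`: L if `10 y ≤ 3 n`, H if `7 n ≤ 10 y`, else C.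
`M_L = ∑_c ∑_{y ∈ L} M c y ≥ 0.27 |I|`, `D M_L ≥ 6.48 √(Pn)`, the same for H.
* L: with probability `a j = pH P (β j) W j/(D M_L)`: `starU` with `Z = ZL P (β j)`, `g x d = x + d`, differences `Bd j`, law `ρ`; with the remaining probability (`∑ a j ≤ 1`, see below): BULK: `Z = Icc (6n/100) (7n/100)`,
  `g x d = x + d`, `Bd = {s ∈ S : 29 n < 100 s ≤ 31 n}`, `ρ = 1`.
* H: the same mirrored with `1 - pH`, `Z = {n - j : j ∈ ZH P (β j)}`, `g x d = x - d`; bulk `Z = {n - j : j ∈ Icc (6n/100) (7n/100)}`.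
* C: `Z = Icc (4n/10) (5n/10)`, `g x d = x + d`, `Bd = {s ∈ S : 100 s ≤ 5 n}`, `ρ = 1`.
(if `W j = 0` the block is skipped: `W j > 0` always, see below.)  Mix with `mix_FL`.
ADMISSIBLE: `θ = 10 (D+2) t`: the `x ∈ Z` not in `X`: `≤ t(|Z| + 2w)`; `ad x y ∉ S`: `≤ 2t(|Z|+2w) + 1` (`lc_ad`; `ad x y ≤ 0.3 n + 1`); `x + d ∉ X`: `≤ t(|Z|+2w)` for each of the `≤ D` values `d`: the labels `x + d`, `x ∈ ZL`, form an interval
of labels with high coordinates `s' - x ≥ P - 0.2 P`, and `≤ 0.7 n` (free region); mirrored: low coordinates `s' - x ≥ 1.05 P - 0.058 P ≥ 0.99 P` (if `100 β < 105 P` the probability is `0`).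
`u = 50/w`: `ρ d/W j ≤ 5000/P` (`ρ` is constant on the block up to a factor 1.4, `|Bd j| ≥ 0.9 β j/3000`), `2/|Z| ≤ 60/P`.
MASSES: `ρ s ≤ 1.01 sg2 (n - s)`, `∑ W j ≤ 1.01 · 11.1 √(Pn)` (`sg_sum`); `∑ pH W j ≤ ½ ∑ W j + P ≤ 5.7 √(Pn) ≤ D M_L`; the same for `1 - pH`.
DIFFERENCES: for `s ∈ Bd j` the leaves give `D M_L a_L j ρ s/W j + D M_H a_H j ρ s/W j = (pH + 1 - pH) ρ s = ρ s`; the tops have `ad (φ c) y ≤ 0.301 n`, `0` for `100 s > 31 n`.
For `100 s ≤ 31 n`: leaves: bulk `≤ D |I| · 51/n`, C `≤ D |I| 21/n`; tops: `∑_c ∑_x ∑_{y = x ± s} M c y κ(x) ≤ 2 · 1.1/n · |I| · 3.1` (`∑_x sup_y κ(x) ≤ 1.02` in each class); all `≤ 10^5 √μ`.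
LABELS: leaves of the blocks: `Pr (leaf = z)` summed: `≤ (1/(1-θ)) ∑_j pH ∑_{d ∈ Bd j, z - d ∈ ZL} ρ d/|ZL| ≤ 1.01 (1+2θ) lfH (n - z)`, similarly `lfL z`; centres `≤ 1.01 (1+2θ) cnH z/D`, `cnL (n-z)/D`;
bulk: leaves in `[0.35 n, 0.38 n]` or mirrored, centres `≤ |I| · 101/n ≤ 2500 √(P/n)/D` on `[0.06 n, 0.07 n]` and mirrored; C: labels in `[0.4n, 0.55n]`.  For `z < 0.34 n`: high coordinate `n - z ≥ 0.66 n` has `lfH = 0`.
-/

set_option autoImplicit false

namespace Pool.Agent.GRC

open Finset Pool.Agent.SEM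

/-- difference load of the stars -/
noncomputable def sdl (X I : Finset ℕ) (lf : ℕ → Finset ℕ) (M : ℕ → ℕ → ℝ) (κs : ℕ → ℕ → FL) (s : ℕ) : ℝ :=
  ∑ c ∈ I, ∑ y ∈ X, M c y * ((κs c y).Pr (fun φ => ad (φ c) y = s) +
    ∑ l ∈ lf c, (κs c y).Pr (fun φ => ad (φ l) (φ c) = s))

/-- label load of the stars -/
noncomputable def slx (X I : Finset ℕ) (lf : ℕ → Finset ℕ) (M : ℕ → ℕ → ℝ) (κs : ℕ → ℕ → FL) (z : ℕ) : ℝ :=
  ∑ c ∈ I, ∑ y ∈ X, M c y * ((κs c y).Pr (fun φ => φ c = z) + ∑ l ∈ lf c, (κs c y).Pr (fun φ => φ l = z))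


theorem sta82_root {P n : ℕ} (hn : 0 < n) : Real.sqrt ((P : ℝ) * n) / n = Real.sqrt ((P : ℝ) / n) := by
  have hnR : (0 : ℝ) < n := by exact_mod_cast hn
  rw [Real.sqrt_mul (by positivity), Real.sqrt_div (by positivity), div_eq_div_iff hnR.ne' (Real.sqrt_pos.2 hnR).ne']
  rw [mul_assoc, Real.mul_self_sqrt hnR.le]

theorem sta82_shift (K : ℕ → ℝ) (C : ℝ) (hC : ∀ A : Finset ℕ, ∑ x ∈ A, K x ≤ C) (X : Finset ℕ)
    (s : ℕ) : ∑ y ∈ X, (K (y + s) + if s ≤ y then K (y - s) else 0) ≤ 2 * C := by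
  classical
  rw [Finset.sum_add_distrib]
  have h1 : ∑ y ∈ X, K (y + s) ≤ C := by
    rw [← Finset.sum_image (s := X) (g := fun y => y + s) (f := K)]
    · exact hC _
    · intro a _ b _ hab
      simp only at hab
      omega
  have h2 : ∑ y ∈ X, (if s ≤ y then K (y - s) else 0) ≤ C := by
    rw [← Finset.sum_filter, ← Finset.sum_image (s := X.filter fun y => s ≤ y) (g := fun y => y - s) (f := K)]
    · exact hC _
    · intro a ha b hb hab
      rw [Finset.mem_coe, mem_filter] at ha hb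
      simp only at hab
      omega
  linarith

theorem star_all {n P w D : ℕ} {t μ e : ℝ} {X S I : Finset ℕ} {p : ℕ → ℕ} {lf : ℕ → Finset ℕ}
    {M : ℕ → ℕ → ℝ} {ρ : ℕ → ℝ} (h : Prm n P w D t μ e) (hL : Loc n P w t X S)
    (hlf : ∀ c ∈ I, (lf c).card = D ∧ c ∉ lf c ∧ p c ≠ c ∧ ∀ l ∈ lf c, p l = c)
    (hM0 : ∀ c ∈ I, ∀ y, 0 ≤ M c y) (hM1 : ∀ c ∈ I, ∑ y ∈ X, M c y = 1)
    (hMX : ∀ c ∈ I, ∀ y, M c y ≠ 0 → y ∈ XC n P X) (hMu : ∀ c ∈ I, ∀ y, M c y ≤ 11 / 10 / n)
    (hlow : ∀ c ∈ I, 27 / 100 ≤ ∑ y ∈ X.filter (fun y => 10 * y ≤ 3 * n), M c y)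
    (hhigh : ∀ c ∈ I, 27 / 100 ≤ ∑ y ∈ X.filter (fun y => 7 * n ≤ 10 * y), M c y)
    (hI1 : 24 * Real.sqrt (P * n) ≤ D * (I.card : ℝ)) (hI2 : D * (I.card : ℝ) ≤ 24 * Real.sqrt (P * n) + D)
    (hr1 : ∀ s ∈ S, 31 * n < 100 * s → n < s + 50 * P → ρ s = 1)
    (hr2 : ∀ s ∈ S, 31 * n < 100 * s → s + 50 * P ≤ n → 8 / 10 * Real.sqrt (44 * P / ((n : ℝ) - s)) ≤ ρ s)
    (hr3 : ∀ s ∈ S, 31 * n < 100 * s → ρ s ≤ 1)
    (hr4 : ∀ s ∈ S, 31 * n < 100 * s → s + 51 * P ≤ n → ρ s ≤ 101 / 100 * Real.sqrt (44 * P / ((n : ℝ) - s))) :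
    ∃ κs : ℕ → ℕ → FL, (∀ c ∈ I, ∀ y ∈ XC n P X, UK p X S (insert c (lf c)) (p c) y (50 / w) (κs c y)) ∧
      (∀ s ∈ S, 31 * n < 100 * s → sdl X I lf M κs s = ρ s) ∧
      (∀ s ∈ S, 100 * s ≤ 31 * n → sdl X I lf M κs s ≤ 10 ^ 5 * Real.sqrt μ) ∧
      (∀ z ∈ X, pos n z < 25 * P → slx X I lf M κs z ≤ 99 / 100) ∧
      (∀ z ∈ X, 25 * P ≤ pos n z → 100 * pos n z < 34 * n → slx X I lf M κs z ≤
        Real.sqrt (22 * P / pos n z) - 1 / 20 * Real.sqrt (44 * P / pos n z)) ∧
      (∀ z ∈ X, 34 * n ≤ 100 * pos n z → slx X I lf M κs z ≤ 10 ^ 5 * Real.sqrt μ) := by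
  classical
  obtain ⟨hμ9, hwP, hPn, hw9, -, hDP, -⟩ := Prm_cons h
  have hP6 : 10 ^ 6 ≤ P := by omega
  have hP : 0 < P := by omega
  have hPn8 : 10 ^ 8 * P ≤ n := by omega
  have hn : 0 < n := h.hn
  have hnR : (0 : ℝ) < n := by exact_mod_cast hn
  have hPR : (0 : ℝ) < P := by exact_mod_cast hP
  have hD5 : (10 : ℝ) ^ 5 ≤ D := by exact_mod_cast h.D1
  have hD0 : (0 : ℝ) < D := by linarith [show (0 : ℝ) < 10 ^ 5 by norm_num]
  obtain ⟨J, β, hβ⟩ := blk_exists hP6 (show 100 * P ≤ n by omega)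
  set R : ℝ := Real.sqrt (P * n) with hR
  have hR0 : 0 < R := Real.sqrt_pos.2 (by positivity)
  set mL : ℕ → ℝ := fun c => ∑ y ∈ X.filter (fun y => 10 * y ≤ 3 * n), M c y with hmL
  set mH : ℕ → ℝ := fun c => ∑ y ∈ X.filter (fun y => 7 * n ≤ 10 * y), M c y with hmH
  set mC : ℕ → ℝ := fun c => ∑ y ∈ X.filter (fun y => 3 * n < 10 * y ∧ 10 * y < 7 * n), M c y with hmC
  set ML : ℝ := ∑ c ∈ I, mL c with hML
  set MH : ℝ := ∑ c ∈ I, mH c with hMH
  set MC : ℝ := ∑ c ∈ I, mC c with hMC
  have hsplit : ∀ c (A B C : ℝ), ∑ y ∈ X, M c y * (if 10 * y ≤ 3 * n then A else if 7 * n ≤ 10 * y then B else C) =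
      A * mL c + B * mH c + C * mC c := by
    intro c A B C
    rw [hmL, hmH, hmC]
    simp only
    rw [Finset.sum_filter, Finset.sum_filter, Finset.sum_filter, Finset.mul_sum, Finset.mul_sum, Finset.mul_sum,
      ← Finset.sum_add_distrib, ← Finset.sum_add_distrib]
    refine Finset.sum_congr rfl fun y _ => ?_
    by_cases h1 : 10 * y ≤ 3 * n
    · rw [if_pos h1, if_pos h1, if_neg (by omega), if_neg (by omega)]; ring
    · by_cases h2 : 7 * n ≤ 10 * y
      · rw [if_neg h1, if_pos h2, if_neg h1, if_pos h2, if_neg (by omega)]; ring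
      · rw [if_neg h1, if_neg h2, if_neg h1, if_neg h2, if_pos (by omega)]; ring
  have hm1 : ∀ c ∈ I, mL c + mH c + mC c = 1 := by
    intro c hc
    have := hsplit c 1 1 1
    rw [← hM1 c hc]
    simp only [ite_self, mul_one, one_mul] at this
    exact this.symm
  have hmL0 : ∀ c ∈ I, 0 ≤ mL c := fun c hc => Finset.sum_nonneg fun y _ => hM0 c hc y
  have hmH0 : ∀ c ∈ I, 0 ≤ mH c := fun c hc => Finset.sum_nonneg fun y _ => hM0 c hc y
  have hmC0 : ∀ c ∈ I, 0 ≤ mC c := fun c hc => Finset.sum_nonneg fun y _ => hM0 c hc y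
  have hML1 : 27 / 100 * (I.card : ℝ) ≤ ML := by
    rw [hML]
    calc 27 / 100 * (I.card : ℝ) = ∑ c ∈ I, (27 / 100 : ℝ) := by rw [Finset.sum_const, nsmul_eq_mul]; ring
      _ ≤ _ := Finset.sum_le_sum hlow
  have hMH1 : 27 / 100 * (I.card : ℝ) ≤ MH := by
    rw [hMH]
    calc 27 / 100 * (I.card : ℝ) = ∑ c ∈ I, (27 / 100 : ℝ) := by rw [Finset.sum_const, nsmul_eq_mul]; ring
      _ ≤ _ := Finset.sum_le_sum hhigh
  have hMsum : ML + MH + MC = I.card := by
    rw [hML, hMH, hMC, ← Finset.sum_add_distrib, ← Finset.sum_add_distrib, Finset.sum_congr rfl hm1]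
    simp
  have hMC0 : 0 ≤ MC := Finset.sum_nonneg hmC0
  have hMH0 : 0 ≤ MH := Finset.sum_nonneg hmH0
  have hML0 : 0 ≤ ML := Finset.sum_nonneg hmL0
  have hDL : 648 / 100 * R ≤ D * ML := by
    have := mul_le_mul_of_nonneg_left hML1 hD0.le
    linarith
  have hDH : 648 / 100 * R ≤ D * MH := by
    have := mul_le_mul_of_nonneg_left hMH1 hD0.le
    linarith
  have hPnR : (10 : ℝ) ^ 18 * P ≤ n := by exact_mod_cast hPn
  have hPle : (P : ℝ) ≤ R := by
    rw [hR]
    apply Real.le_sqrt_of_sq_le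
    nlinarith
  have hDI : D * (I.card : ℝ) ≤ 25 * R := by
    have : (D : ℝ) ≤ R := by
      have : (1 : ℝ) / 10 ^ 9 * P ≤ P := by
        norm_num; linarith
      linarith
    linarith
  obtain ⟨KL, NL, QL, L1, L2, L3, L4, L5, L6, L7, L8⟩ := sta82_classL (p := p) h hL hβ hr1 hr2 hr3 hr4
    (DM := D * ML) (by linarith) (by linarith)
  obtain ⟨KH, NH, QH, H1, H2, H3, H4, H5, H6, H7, H8⟩ := sta82_classH (p := p) h hL hβ hr1 hr2 hr3 hr4
    (DM := D * MH) (by linarith) (by linarith)
  obtain ⟨KC, NC, QC, C1, C2, C3, C4, C5, C6, C7, C8⟩ := sta82_classC (p := p) h hL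
  -- the laws
  have key : ∀ c y : ℕ, ∃ L : FL, c ∈ I → y ∈ XC n P X → Sta82L p X S (lf c) c y (50 / w)
      (if 10 * y ≤ 3 * n then KL else if 7 * n ≤ 10 * y then KH else KC)
      (if 10 * y ≤ 3 * n then NL else if 7 * n ≤ 10 * y then NH else NC)
      (if 10 * y ≤ 3 * n then QL else if 7 * n ≤ 10 * y then QH else QC) L := by
    intro c y
    by_cases hc : c ∈ I ∧ y ∈ XC n P X
    · obtain ⟨hc, hy⟩ := hc
      obtain ⟨a1, a2, a3, a4⟩ := hlf c hc
      have hyn : y ≤ n := by
        unfold XC at hy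
        rw [mem_filter] at hy
        omega
      by_cases h1 : 10 * y ≤ 3 * n
      · obtain ⟨L, hLL⟩ := L1 (lf c) c y a1 (Ne.symm a3) a2 a4 h1
        refine ⟨L, fun _ _ => ?_⟩
        rw [if_pos h1, if_pos h1, if_pos h1]; exact hLL
      · by_cases h2 : 7 * n ≤ 10 * y
        · obtain ⟨L, hLL⟩ := H1 (lf c) c y a1 (Ne.symm a3) a2 a4 hyn h2
          refine ⟨L, fun _ _ => ?_⟩
          rw [if_neg h1, if_neg h1, if_neg h1, if_pos h2, if_pos h2, if_pos h2]; exact hLL
        · obtain ⟨L, hLL⟩ := C1 (lf c) c y a1 (Ne.symm a3) a2 a4 (by omega) (by omega)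
          refine ⟨L, fun _ _ => ?_⟩
          rw [if_neg h1, if_neg h1, if_neg h1, if_neg h2, if_neg h2, if_neg h2]; exact hLL
    · exact ⟨⟨Empty, inferInstance, fun _ => 0, fun _ _ => 0⟩, fun h1 h2 => absurd ⟨h1, h2⟩ hc⟩
  choose κs hκ using key
  -- leaf differences
  have hleaf : ∀ c ∈ I, ∀ y ∈ XC n P X, ∀ s, ∑ l ∈ lf c, (κs c y).Pr (fun φ => ad (φ l) (φ c) = s) =
      D * (if 10 * y ≤ 3 * n then NL s else if 7 * n ≤ 10 * y then NH s else NC s) := by
    intro c hc y hy s
    rw [Finset.sum_congr rfl fun l hl => (hκ c y hc hy).2.2.1 l hl s, Finset.sum_const, nsmul_eq_mul, (hlf c hc).1]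
    congr 1
    split_ifs <;> rfl
  have hleafz : ∀ c ∈ I, ∀ y ∈ XC n P X, ∀ z, ∑ l ∈ lf c, (κs c y).Pr (fun φ => φ l = z) ≤
      D * (if 10 * y ≤ 3 * n then QL z else if 7 * n ≤ 10 * y then QH z else QC z) := by
    intro c hc y hy z
    calc ∑ l ∈ lf c, (κs c y).Pr (fun φ => φ l = z) ≤ ∑ l ∈ lf c,
          (if 10 * y ≤ 3 * n then QL else if 7 * n ≤ 10 * y then QH else QC) z :=
          Finset.sum_le_sum fun l hl => (hκ c y hc hy).2.2.2 l hl z
      _ = _ := by
          rw [Finset.sum_const, nsmul_eq_mul, (hlf c hc).1]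
          congr 1
          split_ifs <;> rfl
  have hcen : ∀ c ∈ I, ∀ y ∈ XC n P X, ∀ z, (κs c y).Pr (fun φ => φ c = z) ≤
      (if 10 * y ≤ 3 * n then KL z else if 7 * n ≤ 10 * y then KH z else KC z) := by
    intro c hc y hy z
    refine ((hκ c y hc hy).2.1 z).trans (le_of_eq ?_)
    split_ifs <;> rfl
  have hXCy : ∀ y ∈ XC n P X, 25 * P ≤ y ∧ y + 25 * P ≤ n := by
    intro y hy
    unfold XC at hy
    rw [mem_filter] at hy
    exact hy.2
  -- top differences
  have htop0 : ∀ c ∈ I, ∀ y ∈ XC n P X, ∀ s, 31 * n < 100 * s → (κs c y).Pr (fun φ => ad (φ c) y = s) = 0 := by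
    intro c hc y hy s hs
    have hnn := (hκ c y hc hy).1.nn
    apply le_antisymm _ (FL.Pr_nonneg38 _ hnn _)
    refine (sta82_top _ hnn c y s).trans ?_
    have hyy := hXCy y hy
    have e1 := hcen c hc y hy (y + s)
    have e2 := hcen c hc y hy (y - s)
    by_cases h1 : 10 * y ≤ 3 * n
    · rw [if_pos h1, L6 _ (by omega)] at e1
      rw [if_neg (show ¬ s ≤ y by omega)]; linarith
    · by_cases h2 : 7 * n ≤ 10 * y
      · rw [if_neg h1, if_pos h2, H6 _ (by omega)] at e1
        by_cases h3 : s ≤ y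
        · rw [if_neg h1, if_pos h2, H6 _ (by omega)] at e2
          rw [if_pos h3]; linarith
        · rw [if_neg h3]; linarith
      · have f1 : KC (y + s) = 0 := by
          by_contra hne
          have := C6 _ hne
          omega
        rw [if_neg h1, if_neg h2, f1] at e1
        by_cases h3 : s ≤ y
        · have f2 : KC (y - s) = 0 := by
            by_contra hne
            have := C6 _ hne
            omega
          rw [if_neg h1, if_neg h2, f2] at e2
          rw [if_pos h3]; linarith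
        · rw [if_neg h3]; linarith
  have hM00 : ∀ c ∈ I, ∀ y, M c y ≠ 0 → y ∈ XC n P X := hMX
  refine ⟨κs, fun c hc y hy => (hκ c y hc hy).1, ?_, ?_, ?_⟩
  · -- exact differences
    intro s hs h31
    obtain ⟨j, hj, hsj⟩ := sta82_exists hβ (fun s hs => hL.S_le s hs) hs h31
    have e0 : sdl X I lf M κs s = ∑ c ∈ I, D * (NL s * mL c + NH s * mH c + NC s * mC c) := by
      unfold sdl
      refine Finset.sum_congr rfl fun c hc => ?_
      rw [← hsplit c (NL s) (NH s) (NC s), Finset.mul_sum]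
      refine Finset.sum_congr rfl fun y _ => ?_
      by_cases hMy : M c y = 0
      · rw [hMy]; ring
      · have hy := hM00 c hc y hMy
        rw [htop0 c hc y hy s h31, hleaf c hc y hy s]
        ring
    rw [e0, ← Finset.mul_sum, Finset.sum_add_distrib, Finset.sum_add_distrib, ← Finset.mul_sum, ← Finset.mul_sum,
      ← Finset.mul_sum, C4 s h31]
    have e1 := L4 j hj s hsj
    have e2 := H4 j hj s hsj
    rw [← hML, ← hMH, ← hMC]
    linarith
  · -- other differences
    intro s hs h31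
    have hcst : ∀ c ∈ I, ∑ y ∈ X, M c y * ((κs c y).Pr (fun φ => ad (φ c) y = s) +
        ∑ l ∈ lf c, (κs c y).Pr (fun φ => ad (φ l) (φ c) = s)) ≤ 7 / n + D * (51 / n) := by
      intro c hc
      have e1 : ∀ y ∈ X, M c y * ((κs c y).Pr (fun φ => ad (φ c) y = s) +
          ∑ l ∈ lf c, (κs c y).Pr (fun φ => ad (φ l) (φ c) = s)) ≤
          11 / 10 / n * ((KL (y + s) + KH (y + s) + KC (y + s)) +
            (if s ≤ y then (KL (y - s) + KH (y - s) + KC (y - s)) else 0)) + M c y * (D * (51 / n)) := by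
        intro y _
        have f1 : ∀ x, 0 ≤ KL x + KH x + KC x := fun x => by linarith [L2 x, H2 x, C2 x]
        have f2 : 0 ≤ (if s ≤ y then (KL (y - s) + KH (y - s) + KC (y - s)) else 0) := by
          split_ifs
          · exact f1 _
          · exact le_rfl
        by_cases hMy : M c y = 0
        · rw [hMy]
          have : 0 ≤ 11 / 10 / n * ((KL (y + s) + KH (y + s) + KC (y + s)) +
            (if s ≤ y then (KL (y - s) + KH (y - s) + KC (y - s)) else 0)) := by
            have := f1 (y + s)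
            positivity
          linarith
        · have hy := hM00 c hc y hMy
          have hnn := (hκ c y hc hy).1.nn
          have g1 := sta82_top _ hnn c y s
          have g2 := hcen c hc y hy (y + s)
          have g3 := hcen c hc y hy (y - s)
          have g4 : (if 10 * y ≤ 3 * n then KL (y + s) else if 7 * n ≤ 10 * y then KH (y + s) else KC (y + s)) ≤
              KL (y + s) + KH (y + s) + KC (y + s) := by
            have := L2 (y + s); have := H2 (y + s); have := C2 (y + s)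
            split_ifs <;> linarith
          have g5 : (if 10 * y ≤ 3 * n then KL (y - s) else if 7 * n ≤ 10 * y then KH (y - s) else KC (y - s)) ≤
              KL (y - s) + KH (y - s) + KC (y - s) := by
            have := L2 (y - s); have := H2 (y - s); have := C2 (y - s)
            split_ifs <;> linarith
          have g6 : (κs c y).Pr (fun φ => ad (φ c) y = s) ≤ (KL (y + s) + KH (y + s) + KC (y + s)) +
              (if s ≤ y then (KL (y - s) + KH (y - s) + KC (y - s)) else 0) := by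
            refine g1.trans ?_
            apply add_le_add (by linarith)
            split_ifs
            · linarith
            · exact le_rfl
          have g7 : ∑ l ∈ lf c, (κs c y).Pr (fun φ => ad (φ l) (φ c) = s) ≤ D * (51 / n) := by
            rw [hleaf c hc y hy s]
            apply mul_le_mul_of_nonneg_left _ hD0.le
            split_ifs
            · exact L5 s h31
            · exact H5 s h31
            · exact C5 s
          have g8 := hM0 c hc y
          have g9 := hMu c hc y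
          rw [mul_add]
          apply add_le_add
          · calc M c y * (κs c y).Pr (fun φ => ad (φ c) y = s) ≤ M c y * ((KL (y + s) + KH (y + s) + KC (y + s)) +
                (if s ≤ y then (KL (y - s) + KH (y - s) + KC (y - s)) else 0)) := mul_le_mul_of_nonneg_left g6 g8
              _ ≤ _ := by
                apply mul_le_mul_of_nonneg_right g9
                have := f1 (y + s)
                linarith
          · exact mul_le_mul_of_nonneg_left g7 g8
      refine (Finset.sum_le_sum e1).trans ?_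
      rw [Finset.sum_add_distrib, ← Finset.mul_sum, ← Finset.sum_mul, hM1 c hc, one_mul]
      have e2 := sta82_shift (fun x => KL x + KH x + KC x) (3003 / 1000)
        (fun A => by
          rw [Finset.sum_add_distrib, Finset.sum_add_distrib]
          linarith [L3 A, H3 A, C3 A]) X s
      have e3 : 11 / 10 / (n : ℝ) * ∑ y ∈ X, ((KL (y + s) + KH (y + s) + KC (y + s)) +
            (if s ≤ y then (KL (y - s) + KH (y - s) + KC (y - s)) else 0)) ≤
            11 / 10 / (n : ℝ) * (2 * (3003 / 1000)) := mul_le_mul_of_nonneg_left e2 (by positivity)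
      have e4 : 11 / 10 / (n : ℝ) * (2 * (3003 / 1000)) ≤ 7 / n := by
        rw [div_mul_eq_mul_div]
        exact div_le_div_of_nonneg_right (by norm_num) hnR.le
      linarith
    have e5 : sdl X I lf M κs s ≤ ∑ c ∈ I, (7 / (n : ℝ) + D * (51 / n)) := Finset.sum_le_sum hcst
    rw [Finset.sum_const, nsmul_eq_mul] at e5
    have hr : R / n = Real.sqrt ((P : ℝ) / n) := sta82_root hn
    have hrμ : Real.sqrt ((P : ℝ) / n) ≤ Real.sqrt μ := by
      apply Real.sqrt_le_sqrt
      rw [div_le_iff₀ hnR]; exact h.P2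
    have e6 : (I.card : ℝ) * (7 / (n : ℝ) + D * (51 / n)) ≤ 58 * 25 * (R / n) := by
      have i0 : (0 : ℝ) ≤ I.card := Nat.cast_nonneg _
      have i1 : (I.card : ℝ) ≤ D * I.card := by
        have : (1 : ℝ) ≤ D := by linarith [show (1 : ℝ) ≤ 10 ^ 5 by norm_num]
        nlinarith
      have i2 : (I.card : ℝ) * (7 / (n : ℝ) + D * (51 / n)) = (7 * I.card + 51 * (D * I.card)) / n := by
        field_simp
      rw [i2, ← mul_div_assoc]
      apply div_le_div_of_nonneg_right _ hnR.le
      linarith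
    rw [hr] at e6
    have hs0 := Real.sqrt_nonneg μ
    linarith
  · -- labels
    have hlab : ∀ z, slx X I lf M κs z ≤ (ML * KL z + (D * ML) * QL z) + (MH * KH z + (D * MH) * QH z) +
        (MC * KC z + (D * MC) * QC z) := by
      intro z
      have e1 : slx X I lf M κs z ≤ ∑ c ∈ I, ((KL z + D * QL z) * mL c + (KH z + D * QH z) * mH c +
          (KC z + D * QC z) * mC c) := by
        unfold slx
        refine Finset.sum_le_sum fun c hc => ?_
        rw [← hsplit c]
        refine Finset.sum_le_sum fun y _ => ?_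
        by_cases hMy : M c y = 0
        · rw [hMy, zero_mul, zero_mul]
        · have hy := hM00 c hc y hMy
          apply mul_le_mul_of_nonneg_left _ (hM0 c hc y)
          have g1 := hcen c hc y hy z
          have g2 := hleafz c hc y hy z
          split_ifs at g1 g2 ⊢ <;> linarith
      refine e1.trans (le_of_eq ?_)
      rw [Finset.sum_add_distrib, Finset.sum_add_distrib, ← Finset.mul_sum, ← Finset.mul_sum, ← Finset.mul_sum,
        ← hML, ← hMH, ← hMC]
      ring
    have hr : R / n = Real.sqrt ((P : ℝ) / n) := sta82_root hn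
    set r : ℝ := Real.sqrt ((P : ℝ) / n) with hrdef
    have hr0 : 0 ≤ r := Real.sqrt_nonneg _
    have hrμ : r ≤ Real.sqrt μ := by
      apply Real.sqrt_le_sqrt
      rw [div_le_iff₀ hnR]; exact h.P2
    have hDMle : ∀ m : ℝ, m ≤ I.card → (D * m) * (102 / (n : ℝ)) ≤ 2550 * r := by
      intro m hm
      have : D * m ≤ 25 * R := (mul_le_mul_of_nonneg_left hm hD0.le).trans hDI
      calc (D * m) * (102 / (n : ℝ)) ≤ (25 * R) * (102 / (n : ℝ)) := mul_le_mul_of_nonneg_right this (by positivity)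
        _ = 2550 * (R / n) := by ring
        _ = 2550 * r := by rw [hr]
    have hMle : ∀ m : ℝ, m ≤ I.card → m * (102 / (n : ℝ)) ≤ 2550 / 10 ^ 5 * r := by
      intro m hm
      have h1 := hDMle m hm
      have h2 : m * (102 / (n : ℝ)) = (D * m) * (102 / (n : ℝ)) / D := by field_simp
      rw [h2, div_le_iff₀ hD0]
      have h3 : 2550 * r ≤ 2550 / 10 ^ 5 * r * D := by nlinarith
      linarith
    have hMLI : ML ≤ I.card := by linarith
    have hMHI : MH ≤ I.card := by linarith
    have hMCI : MC ≤ I.card := by linarith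
    have hdiv : ∀ m K B : ℝ, (D * m) * K ≤ B → m * K ≤ B / D := by
      intro m K B hB
      rw [le_div_iff₀ hD0]; linarith
    -- values in the three regions
    have hzX : ∀ z ∈ X, z ≤ n := fun z hz => by
      have := hL.X_sub hz
      rw [mem_range] at this; omega
    have hCout : ∀ z, ¬ (34 * n ≤ 100 * z ∧ 100 * z ≤ 66 * n) → MC * KC z + (D * MC) * QC z ≤ 0 := by
      intro z hz
      have h1 := C7 z
      have h2 := C8 z
      rw [if_neg hz] at h1 h2
      have h3 : MC * KC z ≤ MC * 0 := mul_le_mul_of_nonneg_left h1 hMC0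
      have h4 : (D * MC) * QC z ≤ (D * MC) * 0 := mul_le_mul_of_nonneg_left h2 (by positivity)
      linarith
    have hinv5 : (1 : ℝ) / D ≤ 1 / 10 ^ 5 := one_div_le_one_div_of_le (by norm_num) hD5
    refine ⟨?_, ?_, ?_⟩
    · intro z hz hp
      refine (hlab z).trans ?_
      have hzn := hzX z hz
      have hC := hCout z (by unfold pos at hp; omega)
      have hL7 := L7 z
      have hL8 := L8 z hzn
      have hH7 := H7 z hzn
      have hH8 := H8 z hzn
      rw [if_neg (by unfold pos at hp; omega), mul_zero, add_zero] at hL7 hL8 hH7 hH8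
      rcases Nat.lt_or_ge z (25 * P) with hlo | hlo
      · rw [(lfH_bound hP6 hPn8 hβ (n - z)).2.2 (by omega), mul_zero] at hL8
        rw [(cnL_bound hP6 hPn8 hβ (n - z)).2.2 (by omega), mul_zero] at hH7
        have hc := (cnH_bound hP6 hPn8 hβ z).1
        have hl := (lfL_bound hP6 hPn8 hβ z).1
        have h1 := hdiv _ _ _ hL7
        have h2 := hdiv _ _ _ hH7
        have h3 : 102 / 100 * cnH P J β z / D ≤ 204 / 10 ^ 5 := by
          rw [div_le_iff₀ hD0]
          have : (204 : ℝ) / 10 ^ 5 * 10 ^ 5 ≤ 204 / 10 ^ 5 * D := mul_le_mul_of_nonneg_left hD5 (by norm_num)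
          linarith
        rw [zero_div] at h2
        norm_num at h3
        linarith
      · have hlo' : n - z < 25 * P := by unfold pos at hp; omega
        rw [(lfL_bound hP6 hPn8 hβ z).2.2 (by omega), mul_zero] at hH8
        rw [(cnH_bound hP6 hPn8 hβ z).2.2 (by omega), mul_zero] at hL7
        have hc := (cnL_bound hP6 hPn8 hβ (n - z)).1
        have hl := (lfH_bound hP6 hPn8 hβ (n - z)).1
        have h1 := hdiv _ _ _ hL7
        have h2 := hdiv _ _ _ hH7
        have h3 : 102 / 100 * cnL P J β (n - z) / D ≤ 204 / 10 ^ 5 := by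
          rw [div_le_iff₀ hD0]
          have : (204 : ℝ) / 10 ^ 5 * 10 ^ 5 ≤ 204 / 10 ^ 5 * D := mul_le_mul_of_nonneg_left hD5 (by norm_num)
          linarith
        rw [zero_div] at h1
        norm_num at h3
        linarith
    · intro z hz hp1 hp2
      refine (hlab z).trans ?_
      have hzn := hzX z hz
      have hC := hCout z (by unfold pos at hp2; omega)
      have hL7 := L7 z
      have hL8 := L8 z hzn
      have hH7 := H7 z hzn
      have hH8 := H8 z hzn
      rw [if_neg (by unfold pos at hp2; omega), mul_zero, add_zero] at hL8 hH8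
      have hpos : (0 : ℝ) < (pos n z : ℝ) := by
        have : 0 < pos n z := by omega
        exact_mod_cast this
      set q : ℝ := Real.sqrt (44 * P / (pos n z : ℝ)) with hq
      have hq0 : 0 ≤ q := Real.sqrt_nonneg _
      have hrq : 11 * r ≤ q := by
        have e1 : 11 * r = Real.sqrt (121 * (P / n)) := by
          rw [Real.sqrt_mul (by norm_num), show (121 : ℝ) = 11 ^ 2 by norm_num, Real.sqrt_sq (by norm_num)]
        rw [e1, hq]
        apply Real.sqrt_le_sqrt
        rw [← mul_div_assoc, div_le_div_iff₀ hnR hpos]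
        have e2 : 100 * (pos n z : ℝ) ≤ 34 * n := by
          have : 100 * pos n z ≤ 34 * n := hp2.le
          exact_mod_cast this
        nlinarith
      have h22 : 707 / 1000 * q ≤ Real.sqrt (22 * P / (pos n z : ℝ)) := by
        have e1 : 707 / 1000 * q = Real.sqrt ((707 / 1000) ^ 2 * (44 * P / (pos n z : ℝ))) := by
          rw [Real.sqrt_mul (by norm_num), Real.sqrt_sq (by norm_num)]
        rw [e1]
        apply Real.sqrt_le_sqrt
        rw [← mul_div_assoc]
        apply div_le_div_of_nonneg_right _ hpos.le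
        nlinarith
      have hbulk : ∀ m : ℝ, 0 ≤ m → m ≤ I.card → ∀ (Q : Prop) [Decidable Q], (D * m) * (if Q then 102 / (n : ℝ) else 0) ≤
          2550 * r := by
        intro m hm0 hm Q _
        split_ifs
        · exact hDMle m hm
        · rw [mul_zero]; positivity
      have hfin : ∀ c : ℝ, c ≤ 20 * q → (102 / 100 * c + 2550 * r) / D ≤ 5 / 1000 * q := by
        intro c hc
        rw [div_le_iff₀ hD0]
        have : (5 : ℝ) / 1000 * q * 10 ^ 5 ≤ 5 / 1000 * q * D := mul_le_mul_of_nonneg_left hD5 (by positivity)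
        norm_num at this
        linarith
      rcases Nat.lt_or_ge (2 * z) n with hlo | hlo
      · have hpz : pos n z = z := by unfold pos; omega
        rw [(lfH_bound hP6 hPn8 hβ (n - z)).2.2 (by omega), mul_zero] at hL8
        rw [(cnL_bound hP6 hPn8 hβ (n - z)).2.2 (by omega), mul_zero, if_neg (by omega), mul_zero, add_zero] at hH7
        have hc := (cnH_bound hP6 hPn8 hβ z).2.1 (by omega)
        have hl := (lfL_bound hP6 hPn8 hβ z).2.1 (by omega)
        rw [hpz] at hq
        rw [← hq] at hc hl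
        have h1 := hdiv _ _ _ (hL7.trans (add_le_add le_rfl (hbulk ML hML0 hMLI _)))
        have h2 := hdiv _ _ _ hH7
        have h3 := hfin _ hc
        rw [zero_div] at h2
        linarith
      · have hpz : pos n z = n - z := by unfold pos; omega
        rw [(lfL_bound hP6 hPn8 hβ z).2.2 (by omega), mul_zero] at hH8
        rw [(cnH_bound hP6 hPn8 hβ z).2.2 (by omega), mul_zero, if_neg (by omega), mul_zero, add_zero] at hL7
        have hc := (cnL_bound hP6 hPn8 hβ (n - z)).2.1 (by omega)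
        have hl := (lfH_bound hP6 hPn8 hβ (n - z)).2.1 (by omega)
        rw [hpz] at hq
        rw [← hq] at hc hl
        have h1 := hdiv _ _ _ hL7
        have h2 := hdiv _ _ _ (hH7.trans (add_le_add le_rfl (hbulk MH hMH0 hMHI _)))
        have h3 := hfin _ hc
        rw [zero_div] at h1
        linarith
    · intro z hz hp
      refine (hlab z).trans ?_
      have hzn := hzX z hz
      have hz1 : 34 * n ≤ 100 * z := by unfold pos at hp; omega
      have hz2 : 34 * n ≤ 100 * (n - z) := by unfold pos at hp; omega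
      have hL7 := L7 z
      have hL8 := L8 z hzn
      have hH7 := H7 z hzn
      have hH8 := H8 z hzn
      rw [(cnH_bound hP6 hPn8 hβ z).2.2 (by omega), mul_zero, if_neg (by omega), mul_zero, add_zero] at hL7
      rw [(cnL_bound hP6 hPn8 hβ (n - z)).2.2 (by omega), mul_zero, if_neg (by omega), mul_zero, add_zero] at hH7
      rw [if_pos (by omega)] at hL8 hH8
      have hsq : ∀ v : ℕ, 34 * n ≤ 100 * v → Real.sqrt (44 * P / (v : ℝ)) ≤ 12 * r := by
        intro v hv
        have e1 : 12 * r = Real.sqrt (144 * (P / n)) := by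
          rw [Real.sqrt_mul (by norm_num), show (144 : ℝ) = 12 ^ 2 by norm_num, Real.sqrt_sq (by norm_num)]
        rw [e1]
        apply Real.sqrt_le_sqrt
        have e2 : 34 * (n : ℝ) ≤ 100 * v := by exact_mod_cast hv
        rw [← mul_div_assoc, div_le_div_iff₀ (by linarith) hnR]
        nlinarith
      have hl1 := (lfL_bound hP6 hPn8 hβ z).2.1 (by omega)
      have hl2 := (lfH_bound hP6 hPn8 hβ (n - z)).2.1 (by omega)
      have hl3 := hsq z hz1
      have hl4 := hsq (n - z) hz2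
      have h1 := hdiv _ _ _ hL7
      have h2 := hdiv _ _ _ hH7
      rw [zero_div] at h1 h2
      have h3 := hDMle ML hMLI
      have h4 := hDMle MH hMHI
      have h5 := hDMle MC hMCI
      have h6 := hMle MC hMCI
      have h7 := C7 z
      have h8 := C8 z
      rw [if_pos (by omega)] at h7 h8
      have h9 : MC * KC z ≤ MC * (102 / n) := mul_le_mul_of_nonneg_left h7 hMC0
      have h10 : (D * MC) * QC z ≤ (D * MC) * (102 / n) := mul_le_mul_of_nonneg_left h8 (by positivity)
      norm_num at h6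
      linarith

end Pool.Agent.GRC
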