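import Pool.Agent.Helper28.GRC.STU

set_option autoImplicit false

namespace Pool.Agent.GRC

open Finset Pool.Agent.SEM

/-- hypotheses of `starU` -/
structure Sta82OK (X S Z Bd Lf : Finset ℕ) (y : ℕ) (ρ : ℕ → ℝ) (g : ℕ → ℕ → ℕ) (θ u : ℝ) : Prop where
  hg : ∀ x ∈ Z, ∀ d ∈ Bd, ad (g x d) x = d
  hBd : Bd ⊆ S
  hρ : ∀ d ∈ Bd, 0 ≤ ρ d
  hW : 0 < ∑ d ∈ Bd, ρ d
  hZ : 0 < Z.card
  hadm : ∀ D' ⊆ Bd, D'.card ≤ Lf.card → (1 - θ) * (Z.card : ℝ) ≤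
      ((Z.filter fun x => x ∈ X ∧ ad x y ∈ S ∧ ∀ d ∈ D', g x d ∈ X).card : ℝ)
  hu1 : ∀ d ∈ Bd, ρ d / (∑ d ∈ Bd, ρ d) ≤ u / 2
  hu2 : 2 / (Z.card : ℝ) ≤ u

theorem sta82_mix {p : ℕ → ℕ} {X S Lf : Finset ℕ} {c v y : ℕ} {θ u : ℝ} (g : ℕ → ℕ → ℕ)
    (hcv : p c = v) (hc : c ≠ v) (hcL : c ∉ Lf) (hLf : ∀ l ∈ Lf, p l = c) (hθ : 0 ≤ θ) (hθ1 : θ ≤ 1 / 2)
    (J : Finset ℕ) (a : ℕ → ℝ) (Z Bd : ℕ → Finset ℕ) (ρ : ℕ → ℕ → ℝ)
    (ha : ∀ j ∈ J, 0 ≤ a j) (ha1 : ∑ j ∈ J, a j = 1)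
    (hOK : ∀ j ∈ J, a j ≠ 0 → Sta82OK X S (Z j) (Bd j) Lf y (ρ j) g θ u) :
    ∃ L : FL, UK p X S (insert c Lf) v y u L ∧
      (∀ x, L.Pr (fun φ => φ c = x) ≤ ∑ j ∈ J, a j * (if x ∈ Z j then 1 / ((1 - θ) * ((Z j).card : ℝ)) else 0)) ∧
      (∀ l ∈ Lf, ∀ s, L.Pr (fun φ => ad (φ l) (φ c) = s) =
        ∑ j ∈ J, a j * (if s ∈ Bd j then ρ j s / (∑ d ∈ Bd j, ρ j d) else 0)) ∧
      (∀ l ∈ Lf, ∀ z, L.Pr (fun φ => φ l = z) ≤ ∑ j ∈ J, a j * (∑ d ∈ Bd j, ρ j d / (∑ d ∈ Bd j, ρ j d) *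
        (((Z j).filter fun x => g x d = z).card : ℝ) / ((1 - θ) * ((Z j).card : ℝ)))) := by
  classical
  have key : ∀ j : ℕ, ∃ L : FL, (j ∈ J ∧ a j ≠ 0) → (UK p X S (insert c Lf) v y u L ∧
      (∀ x, L.Pr (fun φ => φ c = x) ≤ if x ∈ Z j then 1 / ((1 - θ) * ((Z j).card : ℝ)) else 0) ∧
      (∀ l ∈ Lf, ∀ s, L.Pr (fun φ => ad (φ l) (φ c) = s) =
        if s ∈ Bd j then ρ j s / (∑ d ∈ Bd j, ρ j d) else 0) ∧
      (∀ l ∈ Lf, ∀ z, L.Pr (fun φ => φ l = z) ≤ ∑ d ∈ Bd j, ρ j d / (∑ d ∈ Bd j, ρ j d) *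
        (((Z j).filter fun x => g x d = z).card : ℝ) / ((1 - θ) * ((Z j).card : ℝ)))) := by
    intro j
    by_cases hj : j ∈ J ∧ a j ≠ 0
    · have h := hOK j hj.1 hj.2
      obtain ⟨L, h1, h2, h3, h4⟩ := starU (p := p) (v := v) (y := y) g h.hg hcv hc hcL hLf h.hBd h.hρ h.hW h.hZ hθ hθ1
        h.hadm h.hu1 h.hu2
      exact ⟨L, fun _ => ⟨h1, h2, h3, h4⟩⟩
    · exact ⟨⟨Empty, inferInstance, fun _ => 0, fun _ _ => 0⟩, fun h => absurd h hj⟩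
  choose L hL using key
  set J' := J.filter (fun j => a j ≠ 0) with hJ'
  have hL' : ∀ j ∈ J', _ := fun j hj => hL j (by rw [hJ', mem_filter] at hj; exact hj)
  have hsum : ∀ t : ℕ → ℝ, ∑ j ∈ J', a j * t j = ∑ j ∈ J, a j * t j := by
    intro t
    rw [hJ', Finset.sum_filter]
    refine Finset.sum_congr rfl fun j _ => ?_
    by_cases h0 : a j = 0
    · rw [if_neg (by simpa using h0), h0, zero_mul]
    · rw [if_pos h0]
  have ha' : ∀ j ∈ J', 0 ≤ a j := fun j hj => ha j (Finset.mem_of_mem_filter j hj)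
  have ha1' : ∑ j ∈ J', a j = 1 := by
    have := hsum (fun _ => 1)
    simpa [ha1] using this
  obtain ⟨M, hM1, hM2, hM3⟩ := mix_FL J' a L ha' ha1' (fun j hj => (hL' j hj).1.nn)
  have hPr : ∀ Q : (ℕ → ℕ) → Prop, M.Pr Q = ∑ j ∈ J', a j * (L j).Pr Q := by
    intro Q
    unfold FL.Pr
    exact hM1 _
  refine ⟨M, ⟨hM2, ?_, ?_, ?_, ?_⟩, ?_, ?_, ?_⟩
  · rw [hM1]
    refine Eq.trans ?_ ha1'
    refine Finset.sum_congr rfl fun j hj => ?_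
    rw [(hL' j hj).1.one, mul_one]
  · intro ω hω j hj
    obtain ⟨i, hi, -, ω', hω', he⟩ := hM3 ω hω
    rw [he]
    exact (hL' i hi).1.lbl ω' hω' j hj
  · intro ω hω j hj
    obtain ⟨i, hi, -, ω', hω', he⟩ := hM3 ω hω
    rw [he]
    exact (hL' i hi).1.df ω' hω' j hj
  · intro A hA x
    rw [hPr]
    calc ∑ j ∈ J', a j * (L j).Pr (fun φ => ∀ v ∈ A, φ v = x v) ≤ ∑ j ∈ J', a j * u ^ A.card :=
          Finset.sum_le_sum fun j hj => mul_le_mul_of_nonneg_left ((hL' j hj).1.joint A hA x) (ha' j hj)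
      _ = u ^ A.card := by rw [← Finset.sum_mul, ha1', one_mul]
  · intro x
    rw [hPr, ← hsum]
    exact Finset.sum_le_sum fun j hj => mul_le_mul_of_nonneg_left ((hL' j hj).2.1 x) (ha' j hj)
  · intro l hl s
    rw [hPr, ← hsum]
    exact Finset.sum_congr rfl fun j hj => by rw [(hL' j hj).2.2.1 l hl s]
  · intro l hl z
    rw [hPr, ← hsum]
    exact Finset.sum_le_sum fun j hj => mul_le_mul_of_nonneg_left ((hL' j hj).2.2.2 l hl z) (ha' j hj)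

/-- the top difference -/
theorem sta82_top (L : FL) (hn : ∀ ω, 0 ≤ L.wt ω) (c y s : ℕ) :
    L.Pr (fun φ => ad (φ c) y = s) ≤ L.Pr (fun φ => φ c = y + s) +
      (if s ≤ y then L.Pr (fun φ => φ c = y - s) else 0) := by
  classical
  by_cases hs : s ≤ y
  · rw [if_pos hs]
    unfold FL.Pr
    rw [← FL.Ex_add38]
    refine L.Ex_mono38 hn fun ω _ => ?_
    by_cases h : ad (L.Φ ω c) y = s
    · rw [if_pos h]
      have h' : L.Φ ω c = y + s ∨ L.Φ ω c = y - s := by unfold ad at h; omega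
      rcases h' with h' | h'
      · rw [if_pos h']; split_ifs <;> norm_num
      · rw [if_pos h']; split_ifs <;> norm_num
    · rw [if_neg h]; split_ifs <;> norm_num
  · rw [if_neg hs, add_zero]
    refine L.Pr_mono38 hn fun ω _ h => ?_
    unfold ad at h; omega

end Pool.Agent.GRC
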