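import Pool.Agent.Helper28.GRC.LC
import Pool.Agent.Helper28.GRC.PF2

set_option autoImplicit false

namespace Pool.Agent.GRC

open Finset Pool.Agent.SEM

theorem sta82_adm {n P w D : ℕ} {t μ e : ℝ} {X S : Finset ℕ} (h : Prm n P w D t μ e)
    (hL : Loc n P w t X S) {a b y : ℕ} (hab : a ≤ b) (hlen : P ≤ 60 * (b - a)) (hf : FreeW n P a b)
    (hy : ∀ x ∈ Icc a b, ad x y + P ≤ n) (g : ℕ → ℕ → ℕ) {Bd : Finset ℕ}
    (hg : ∀ d ∈ Bd, ∃ a' b' : ℕ, FreeW n P a' b' ∧ a' ≤ b' ∧ b' - a' = b - a ∧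
      (∀ x ∈ Icc a b, g x d ∈ Icc a' b') ∧ ∀ x ∈ Icc a b, ∀ x' ∈ Icc a b, g x d = g x' d → x = x') :
    ∀ D' ⊆ Bd, D'.card ≤ D → (1 - 10 * (D + 2) * t) * ((Icc a b).card : ℝ) ≤
      (((Icc a b).filter fun x => x ∈ X ∧ ad x y ∈ S ∧ ∀ d ∈ D', g x d ∈ X).card : ℝ) := by
  classical
  intro D' hD' hc
  obtain ⟨-, hwP, hPn, hw9, -, -, -⟩ := Prm_cons h
  have hwP' : 10 ^ 6 * w ≤ P := le_trans (Nat.mul_le_mul_right w (by norm_num)) hwP
  have hPn' : 100 * P ≤ n := le_trans (Nat.mul_le_mul_right P (by norm_num)) hPn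
  have hw := h.w0
  have ht := h.t0
  have htw := h.tw
  have h1 := lc_X hL hw ht.le hwP' hPn' hab hf
  have h2 := lc_ad hL hw ht.le hwP' hPn' y hab
  set T : ℝ := t * ((b : ℝ) - a + w) with hT
  -- the bad sets
  have hsub : Icc a b ⊆ ((Icc a b).filter fun x => x ∈ X ∧ ad x y ∈ S ∧ ∀ d ∈ D', g x d ∈ X) ∪
      (((Icc a b).filter (· ∉ X)) ∪ (((Icc a b).filter fun x => ad y x ∉ S ∧ ad y x + P ≤ n) ∪
        D'.biUnion fun d => (Icc a b).filter fun x => g x d ∉ X)) := by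
    intro x hx
    rw [mem_union, mem_union, mem_union, mem_filter, mem_filter, mem_filter, mem_biUnion]
    by_cases hx1 : x ∈ X
    · by_cases hx2 : ad x y ∈ S
      · by_cases hx3 : ∀ d ∈ D', g x d ∈ X
        · exact Or.inl ⟨hx, hx1, hx2, hx3⟩
        · push Not at hx3
          obtain ⟨d, hd, hdx⟩ := hx3
          exact Or.inr (Or.inr (Or.inr ⟨d, hd, mem_filter.2 ⟨hx, hdx⟩⟩))
      · refine Or.inr (Or.inr (Or.inl ⟨hx, ?_, ?_⟩))
        · rw [ad_comm]; exact hx2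
        · rw [ad_comm]; exact hy x hx
    · exact Or.inr (Or.inl ⟨hx, hx1⟩)
  have hd : ∀ d ∈ D', ((((Icc a b).filter fun x => g x d ∉ X).card : ℕ) : ℝ) ≤ T := by
    intro d hd
    obtain ⟨a', b', hf', hab', hlen', hin, hinj⟩ := hg d (hD' hd)
    have h3 := lc_X hL hw ht.le hwP' hPn' hab' hf'
    have h4 : ((Icc a b).filter fun x => g x d ∉ X).card ≤ ((Icc a' b').filter (· ∉ X)).card := by
      refine Finset.card_le_card_of_injOn (fun x => g x d) ?_ ?_
      · intro x hx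
        rw [Finset.mem_coe, mem_filter] at hx
        exact Finset.mem_coe.2 (mem_filter.2 ⟨hin x hx.1, hx.2⟩)
      · intro x hx x' hx' hxx
        rw [Finset.mem_coe, mem_filter] at hx hx'
        exact hinj x hx.1 x' hx'.1 hxx
    have h5 : (b' : ℝ) - a' = b - a := by
      rw [← Nat.cast_sub hab', ← Nat.cast_sub hab, hlen']
    rw [h5] at h3
    exact le_trans (by exact_mod_cast h4) h3
  have hcard : ((Icc a b).card : ℝ) ≤
      (((Icc a b).filter fun x => x ∈ X ∧ ad x y ∈ S ∧ ∀ d ∈ D', g x d ∈ X).card : ℝ) +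
        (T + ((2 * T + 1) + D * T)) := by
    have e1 := (Finset.card_le_card hsub).trans (Finset.card_union_le _ _)
    have e2 := Finset.card_union_le ((Icc a b).filter (· ∉ X))
      (((Icc a b).filter fun x => ad y x ∉ S ∧ ad y x + P ≤ n) ∪
        D'.biUnion fun d => (Icc a b).filter fun x => g x d ∉ X)
    have e3 := Finset.card_union_le ((Icc a b).filter fun x => ad y x ∉ S ∧ ad y x + P ≤ n)
      (D'.biUnion fun d => (Icc a b).filter fun x => g x d ∉ X)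
    have e4 : (D'.biUnion fun d => (Icc a b).filter fun x => g x d ∉ X).card ≤
        ∑ d ∈ D', ((Icc a b).filter fun x => g x d ∉ X).card := Finset.card_biUnion_le
    have e5 : (∑ d ∈ D', (((Icc a b).filter fun x => g x d ∉ X).card : ℝ)) ≤ D * T := by
      have hT0 : 0 ≤ T := by
        have : (0 : ℝ) ≤ (b : ℝ) - a := by
          rw [← Nat.cast_sub hab]; exact Nat.cast_nonneg _
        positivity
      calc (∑ d ∈ D', (((Icc a b).filter fun x => g x d ∉ X).card : ℝ)) ≤ ∑ d ∈ D', T :=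
            Finset.sum_le_sum hd
        _ = D'.card * T := by rw [Finset.sum_const, nsmul_eq_mul]
        _ ≤ D * T := mul_le_mul_of_nonneg_right (by exact_mod_cast hc) hT0
    have e6 : ((Icc a b).card : ℝ) ≤
      (((Icc a b).filter fun x => x ∈ X ∧ ad x y ∈ S ∧ ∀ d ∈ D', g x d ∈ X).card : ℝ) +
        ((((Icc a b).filter (· ∉ X)).card : ℝ) +
          ((((Icc a b).filter fun x => ad y x ∉ S ∧ ad y x + P ≤ n).card : ℝ) +
            (∑ d ∈ D', (((Icc a b).filter fun x => g x d ∉ X).card : ℝ)))) := by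
      exact_mod_cast e1.trans (Nat.add_le_add_left (e2.trans (Nat.add_le_add_left (e3.trans (Nat.add_le_add_left e4 _)) _)) _)
    linarith [h1, h2, e5, e6]
  have hbase : 1 * (1 : ℝ) ≤ 1 := by norm_num
  have hwr : 10 ^ 14 * (w : ℝ) ≤ P := by exact_mod_cast hwP
  have hlr : (P : ℝ) ≤ 60 * ((b : ℝ) - a) := by
    rw [← Nat.cast_sub hab]; exact_mod_cast hlen
  have hcc : ((Icc a b).card : ℝ) = (b : ℝ) - a + 1 := by
    rw [Nat.card_Icc, Nat.cast_sub (by omega)]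
    push_cast; ring
  have hw0 : (0 : ℝ) < w := by exact_mod_cast hw
  set ℓ : ℝ := (b : ℝ) - a with hℓ
  have hwl : (w : ℝ) ≤ ℓ / 10 := by linarith
  have hℓ0 : 0 < ℓ := by linarith
  have htl : 1 ≤ t * ℓ := by
    have : t * w ≤ t * ℓ := mul_le_mul_of_nonneg_left (by linarith) ht.le
    linarith
  have hTl : T ≤ 11 / 10 * (t * ℓ) := by
    rw [hT]
    have : t * w ≤ t * (ℓ / 10) := mul_le_mul_of_nonneg_left hwl ht.le
    nlinarith
  have hD0 : (0 : ℝ) ≤ D := Nat.cast_nonneg _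
  have hfin : T + ((2 * T + 1) + D * T) ≤ 10 * (D + 2) * t * (ℓ + 1) := by
    have hDT : (D : ℝ) * T ≤ D * (11 / 10 * (t * ℓ)) := mul_le_mul_of_nonneg_left hTl hD0
    have hDt : 0 ≤ (D : ℝ) * (t * ℓ) := by positivity
    have hDt' : 0 ≤ 10 * ((D : ℝ) + 2) * t := by positivity
    nlinarith
  rw [hcc] at hcard ⊢
  nlinarith [hcard, hfin]

end Pool.Agent.GRC
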