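import Pool.Agent.Helper28.GRC.LC
import Pool.Agent.Helper28.GRC.PF2
import Pool.Agent.Helper28.GRC.BLK

set_option autoImplicit false

namespace Pool.Agent.GRC

open Finset Pool.Agent.SEM

/-- differences of the block `j` -/
def sta82_Bd (n : ℕ) (S : Finset ℕ) (β : ℕ → ℕ) (j : ℕ) : Finset ℕ :=
  S.filter fun s => β j ≤ n - s ∧ n - s < β (j + 1)

theorem sta82_mono {n P J : ℕ} {β : ℕ → ℕ} (hβ : Blk n P J β) {i j : ℕ} (hij : i ≤ j) (hj : j ≤ J) :
    β i ≤ β j := by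
  induction j with
  | zero => have : i = 0 := by omega
            subst this; exact le_rfl
  | succ k ih =>
    rcases Nat.lt_or_ge i (k + 1) with h | h
    · exact (ih (by omega) (by omega)).trans (hβ.mono k (by omega)).le
    · have : i = k + 1 := by omega
      subst this; exact le_rfl

theorem sta82_ge {n P J : ℕ} {β : ℕ → ℕ} (hβ : Blk n P J β) {j : ℕ} (hj : j ≤ J) : P ≤ β j := by
  have := sta82_mono hβ (Nat.zero_le j) hj
  rwa [hβ.b0] at this

theorem sta82_le {n P J : ℕ} {β : ℕ → ℕ} (hβ : Blk n P J β) {j : ℕ} (hj : j ≤ J) :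
    β j ≤ (69 * n + 99) / 100 := by
  have := sta82_mono hβ hj le_rfl
  rwa [hβ.bJ] at this

theorem sta82_Bd_big {n P J : ℕ} {β : ℕ → ℕ} (hβ : Blk n P J β) {S : Finset ℕ} {j s : ℕ} (hj : j < J)
    (hs : s ∈ sta82_Bd n S β j) : s ∈ S ∧ 31 * n < 100 * s := by
  unfold sta82_Bd at hs
  rw [mem_filter] at hs
  have h1 := sta82_le hβ (show j + 1 ≤ J by omega)
  refine ⟨hs.1, ?_⟩
  have := hs.2.2
  omega

theorem sta82_exists {n P J : ℕ} {β : ℕ → ℕ} (hβ : Blk n P J β) {S : Finset ℕ}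
    (hS : ∀ s ∈ S, s + P ≤ n) {s : ℕ} (hs : s ∈ S) (h31 : 31 * n < 100 * s) :
    ∃ j < J, s ∈ sta82_Bd n S β j := by
  classical
  have h0 : β 0 ≤ n - s := by rw [hβ.b0]; have := hS s hs; omega
  have hJ : n - s < β J := by rw [hβ.bJ]; have := hS s hs; omega
  have hex : ∃ k, n - s < β k := ⟨J, hJ⟩
  have hk := Nat.find_spec hex
  have hmin : ∀ m < Nat.find hex, ¬ n - s < β m := fun m hm => Nat.find_min hex hm
  have hkJ : Nat.find hex ≤ J := Nat.find_min' hex hJ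
  set k := Nat.find hex with hkdef
  rcases Nat.eq_zero_or_pos k with hk0 | hk0
  · rw [hk0] at hk; omega
  · refine ⟨k - 1, by omega, ?_⟩
    unfold sta82_Bd
    rw [mem_filter]
    have h1 := hmin (k - 1) (by omega)
    have h2 : k - 1 + 1 = k := by omega
    rw [h2]
    exact ⟨hs, by omega, hk⟩

theorem sta82_uniq {n P J : ℕ} {β : ℕ → ℕ} (hβ : Blk n P J β) {S : Finset ℕ} {i j s : ℕ} (hi : i < J)
    (hj : j < J) (hsi : s ∈ sta82_Bd n S β i) (hsj : s ∈ sta82_Bd n S β j) : i = j := by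
  unfold sta82_Bd at hsi hsj
  rw [mem_filter] at hsi hsj
  by_contra hne
  rcases Nat.lt_or_gt_of_ne hne with h | h
  · have := sta82_mono hβ (show i + 1 ≤ j by omega) (by omega)
    omega
  · have := sta82_mono hβ (show j + 1 ≤ i by omega) (by omega)
    omega

theorem sta82_Bd_card {n P w D J : ℕ} {t μ e : ℝ} {X S : Finset ℕ} {β : ℕ → ℕ} (h : Prm n P w D t μ e)
    (hL : Loc n P w t X S) (hβ : Blk n P J β) {j : ℕ} (hj : j < J) :
    99 / 100 * ((β (j + 1) : ℝ) - β j) ≤ ((sta82_Bd n S β j).card : ℝ) := by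
  classical
  obtain ⟨hμ, hwP, hPn, hw9, ht9, -, -⟩ := Prm_cons h
  have hwP' : 10 ^ 6 * w ≤ P := le_trans (Nat.mul_le_mul_right w (by norm_num)) hwP
  have hPn' : 100 * P ≤ n := le_trans (Nat.mul_le_mul_right P (by norm_num)) hPn
  have hPj := sta82_ge hβ hj.le
  have hle := sta82_le hβ (show j + 1 ≤ J by omega)
  have hlt := hβ.mono j hj
  have hgap := hβ.gap j hj
  have hn := h.hn
  have h1 := lc_S hL h.w0 h.t0.le hwP' hPn' (a := n - β (j + 1) + 1) (b := n - β j) (by omega) (by omega)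
    (by omega)
  have hsub : (Icc (n - β (j + 1) + 1) (n - β j)) ⊆ sta82_Bd n S β j ∪
      (Icc (n - β (j + 1) + 1) (n - β j)).filter (· ∉ S) := by
    intro s hs
    rw [mem_union]
    by_cases hsS : s ∈ S
    · left
      rw [mem_Icc] at hs
      unfold sta82_Bd
      rw [mem_filter]
      exact ⟨hsS, by omega, by omega⟩
    · right
      exact mem_filter.2 ⟨hs, hsS⟩
  have h2 := (Finset.card_le_card hsub).trans (Finset.card_union_le _ _)
  rw [Nat.card_Icc] at h2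
  have h3 : ((n - β j + 1 - (n - β (j + 1) + 1) : ℕ) : ℝ) = (β (j + 1) : ℝ) - β j := by
    have : n - β j + 1 - (n - β (j + 1) + 1) = β (j + 1) - β j := by omega
    rw [this, Nat.cast_sub hlt.le]
  have h4 : ((n - β j + 1 - (n - β (j + 1) + 1) : ℕ) : ℝ) ≤ ((sta82_Bd n S β j).card : ℝ) +
      (((Icc (n - β (j + 1) + 1) (n - β j)).filter (· ∉ S)).card : ℝ) := by exact_mod_cast h2
  rw [h3] at h4
  have h5 : ((n - β j : ℕ) : ℝ) - ((n - β (j + 1) + 1 : ℕ) : ℝ) = (β (j + 1) : ℝ) - β j - 1 := by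
    rw [Nat.cast_sub (by omega)]
    push_cast
    rw [Nat.cast_sub (by omega)]
    ring
  rw [h5] at h1
  have hgapR : (β j : ℝ) ≤ 3000 * ((β (j + 1) : ℝ) - β j) := by
    rw [← Nat.cast_sub hlt.le]; exact_mod_cast hgap
  have hPR : (P : ℝ) ≤ β j := by exact_mod_cast hPj
  have hwR : 10 ^ 14 * (w : ℝ) ≤ P := by exact_mod_cast hwP
  have ht1 : t ≤ 1 / 1000 := by
    have : (1 : ℝ) / 10 ^ 14 * Real.sqrt μ ≤ 1 / 10 ^ 14 * (1 / 10 ^ 9) := by gcongr
    linarith [show (1 : ℝ) / 10 ^ 14 * (1 / 10 ^ 9) ≤ 1 / 1000 by norm_num]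
  have hw0 : (0 : ℝ) ≤ w := Nat.cast_nonneg _
  set δ : ℝ := (β (j + 1) : ℝ) - β j with hδ
  have hδ0 : 0 ≤ δ := by
    have : (β j : ℝ) ≤ β (j + 1) := by exact_mod_cast hlt.le
    rw [hδ]; linarith
  have h6 : t * (δ - 1 + w) ≤ 1 / 1000 * (δ + δ) := by
    calc t * (δ - 1 + w) ≤ t * (δ + δ) := by
          apply mul_le_mul_of_nonneg_left _ h.t0.le
          linarith
      _ ≤ 1 / 1000 * (δ + δ) := mul_le_mul_of_nonneg_right ht1 (by linarith)
  linarith

theorem sta82_self_le_sqrt {x : ℝ} (h0 : 0 ≤ x) (h1 : x ≤ 1) : x ≤ Real.sqrt x := by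
  have h2 : Real.sqrt x ≤ 1 := by
    rw [← Real.sqrt_one]; exact Real.sqrt_le_sqrt h1
  have h3 := Real.mul_self_sqrt h0
  nlinarith [Real.sqrt_nonneg x]

theorem sta82_rho_lo {n P J : ℕ} {β : ℕ → ℕ} {S : Finset ℕ} {ρ : ℕ → ℝ} (hβ : Blk n P J β) (hP : 0 < P)
    (hr1 : ∀ s ∈ S, 31 * n < 100 * s → n < s + 50 * P → ρ s = 1)
    (hr2 : ∀ s ∈ S, 31 * n < 100 * s → s + 50 * P ≤ n → 8 / 10 * Real.sqrt (44 * P / ((n : ℝ) - s)) ≤ ρ s)
    {j s : ℕ} (hj : j < J) (hs : s ∈ sta82_Bd n S β j) : (P : ℝ) / β j ≤ ρ s := by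
  obtain ⟨hsS, h31⟩ := sta82_Bd_big hβ hj hs
  have hPj := sta82_ge hβ hj.le
  have hPR : (0 : ℝ) < P := by exact_mod_cast hP
  have hPj' : (P : ℝ) ≤ β j := by exact_mod_cast hPj
  rcases Nat.lt_or_ge n (s + 50 * P) with hc | hc
  · rw [hr1 s hsS h31 hc]
    rw [div_le_one (by linarith)]; exact hPj'
  · refine le_trans ?_ (hr2 s hsS h31 hc)
    unfold sta82_Bd at hs
    rw [mem_filter] at hs
    have hup := hβ.up j hj
    have hm : 1000 * ((n : ℝ) - s) ≤ 1002 * β j := by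
      rw [← Nat.cast_sub (by omega)]
      have : 1000 * (n - s) ≤ 1002 * β j := by omega
      exact_mod_cast this
    have hm2 : 50 * (P : ℝ) ≤ (n : ℝ) - s := by
      rw [← Nat.cast_sub (by omega)]
      have : 50 * P ≤ n - s := by omega
      exact_mod_cast this
    have hpos : (0 : ℝ) < (n : ℝ) - s := by linarith
    have h1 : 44 * (P : ℝ) / ((n : ℝ) - s) ≤ Real.sqrt (44 * P / ((n : ℝ) - s)) := by
      apply sta82_self_le_sqrt (by positivity)
      rw [div_le_one hpos]; linarith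
    have h2 : (P : ℝ) / β j ≤ 8 / 10 * (44 * (P : ℝ) / ((n : ℝ) - s)) := by
      rw [← mul_div_assoc, div_le_div_iff₀ (by linarith) hpos]
      nlinarith
    linarith

theorem sta82_rho_up {n P J : ℕ} {β : ℕ → ℕ} {S : Finset ℕ} {ρ : ℕ → ℝ} (hβ : Blk n P J β)
    (hr3 : ∀ s ∈ S, 31 * n < 100 * s → ρ s ≤ 1)
    (hr4 : ∀ s ∈ S, 31 * n < 100 * s → s + 51 * P ≤ n → ρ s ≤ 101 / 100 * Real.sqrt (44 * P / ((n : ℝ) - s)))
    (hSn : ∀ s ∈ S, s ≤ n)
    {j s : ℕ} (hj : j < J) (hs : s ∈ sta82_Bd n S β j) : ρ s ≤ 101 / 100 * sg2 P (n - s) := by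
  obtain ⟨hsS, h31⟩ := sta82_Bd_big hβ hj hs
  unfold sg2
  have hsn := hSn s hsS
  split_ifs with hc
  · have := hr3 s hsS h31; linarith
  · rw [Nat.cast_sub hsn]
    exact hr4 s hsS h31 (by omega)

theorem sta82_sg_le {P s : ℕ} : sg2 P s ≤ 1 := by
  unfold sg2
  split_ifs with hc
  · exact le_rfl
  · rw [Real.sqrt_le_one]
    rcases Nat.eq_zero_or_pos P with h | h
    · subst h; simp
    · have h1 : (51 : ℝ) * P ≤ s := by
        have : 51 * P ≤ s := by omega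
        exact_mod_cast this
      have h2 : (0 : ℝ) < P := by exact_mod_cast h
      rw [div_le_one (by linarith)]
      linarith

theorem sta82_sg_nn {P s : ℕ} : 0 ≤ sg2 P s := by
  unfold sg2
  split_ifs
  · norm_num
  · exact Real.sqrt_nonneg _

theorem sta82_sum_blocks {n P J : ℕ} {β : ℕ → ℕ} (hβ : Blk n P J β) (f : ℕ → ℝ) {m : ℕ} (hm : m ≤ J) :
    ∑ j ∈ range m, ∑ s ∈ Ico (β j) (β (j + 1)), f s = ∑ s ∈ Ico (β 0) (β m), f s := by
  induction m with
  | zero => simp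
  | succ k ih =>
    rw [Finset.sum_range_succ, ih (by omega), Finset.sum_Ico_consecutive]
    · exact sta82_mono hβ (Nat.zero_le k) (by omega)
    · exact (hβ.mono k (by omega)).le

theorem sta82_W_lo {n P w D J : ℕ} {t μ e : ℝ} {X S : Finset ℕ} {β : ℕ → ℕ} {ρ : ℕ → ℝ} (h : Prm n P w D t μ e)
    (hL : Loc n P w t X S) (hβ : Blk n P J β)
    (hr1 : ∀ s ∈ S, 31 * n < 100 * s → n < s + 50 * P → ρ s = 1)
    (hr2 : ∀ s ∈ S, 31 * n < 100 * s → s + 50 * P ≤ n → 8 / 10 * Real.sqrt (44 * P / ((n : ℝ) - s)) ≤ ρ s)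
    {j : ℕ} (hj : j < J) : (P : ℝ) / 5000 ≤ ∑ s ∈ sta82_Bd n S β j, ρ s := by
  obtain ⟨-, hwP, -, -, -, -, -⟩ := Prm_cons h
  have hP : 0 < P := by have := h.w0; omega
  have hPR : (0 : ℝ) < P := by exact_mod_cast hP
  have hPj : (P : ℝ) ≤ β j := by exact_mod_cast sta82_ge hβ hj.le
  have h1 := sta82_Bd_card h hL hβ hj
  have hgap : (β j : ℝ) ≤ 3000 * ((β (j + 1) : ℝ) - β j) := by
    rw [← Nat.cast_sub (hβ.mono j hj).le]; exact_mod_cast hβ.gap j hj
  calc (P : ℝ) / 5000 ≤ (99 / 100 * (β j / 3000)) * (P / β j) := by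
        rw [mul_div_assoc', div_le_div_iff₀ (by norm_num) (by linarith)]
        nlinarith
    _ ≤ ((sta82_Bd n S β j).card : ℝ) * (P / β j) := by
        apply mul_le_mul_of_nonneg_right _ (by positivity)
        linarith
    _ = ∑ s ∈ sta82_Bd n S β j, (P : ℝ) / β j := by rw [Finset.sum_const, nsmul_eq_mul]
    _ ≤ _ := Finset.sum_le_sum fun s hs => sta82_rho_lo hβ hP hr1 hr2 hj hs

theorem sta82_sum_Bd_le {n J P : ℕ} {S : Finset ℕ} {β : ℕ → ℕ} {ρ : ℕ → ℝ} (hβ : Blk n P J β)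
    (hr3 : ∀ s ∈ S, 31 * n < 100 * s → ρ s ≤ 1)
    (hr4 : ∀ s ∈ S, 31 * n < 100 * s → s + 51 * P ≤ n → ρ s ≤ 101 / 100 * Real.sqrt (44 * P / ((n : ℝ) - s)))
    (hSn : ∀ s ∈ S, s ≤ n) {j : ℕ} (hj : j < J) (f : ℕ → ℝ) (hf : ∀ s, 0 ≤ f s) :
    ∑ s ∈ sta82_Bd n S β j, ρ s * f (n - s) ≤
      101 / 100 * ∑ s ∈ Ico (β j) (β (j + 1)), sg2 P s * f s := by
  classical
  calc ∑ s ∈ sta82_Bd n S β j, ρ s * f (n - s)
      ≤ ∑ s ∈ sta82_Bd n S β j, 101 / 100 * (sg2 P (n - s) * f (n - s)) := by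
        refine Finset.sum_le_sum fun s hs => ?_
        rw [← mul_assoc]
        exact mul_le_mul_of_nonneg_right (sta82_rho_up hβ hr3 hr4 hSn hj hs) (hf _)
    _ = ∑ m ∈ (sta82_Bd n S β j).image (fun s => n - s), 101 / 100 * (sg2 P m * f m) := by
        rw [Finset.sum_image]
        intro s hs s' hs' hss
        have h1 := hSn s (by unfold sta82_Bd at hs; exact (mem_filter.1 hs).1)
        have h2 := hSn s' (by unfold sta82_Bd at hs'; exact (mem_filter.1 hs').1)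
        simp only at hss
        omega
    _ ≤ ∑ m ∈ Ico (β j) (β (j + 1)), 101 / 100 * (sg2 P m * f m) := by
        apply Finset.sum_le_sum_of_subset_of_nonneg
        · intro m hm
          rw [mem_image] at hm
          obtain ⟨s, hs, rfl⟩ := hm
          unfold sta82_Bd at hs
          rw [mem_filter] at hs
          exact mem_Ico.2 hs.2
        · intro m _ _
          have := mul_nonneg (sta82_sg_nn (P := P) (s := m)) (hf m)
          positivity
    _ = _ := by rw [Finset.mul_sum]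

theorem sta82_W_up {n J P : ℕ} {S : Finset ℕ} {β : ℕ → ℕ} {ρ : ℕ → ℝ} (hβ : Blk n P J β) (hP : 0 < P)
    (hr3 : ∀ s ∈ S, 31 * n < 100 * s → ρ s ≤ 1)
    (hr4 : ∀ s ∈ S, 31 * n < 100 * s → s + 51 * P ≤ n → ρ s ≤ 101 / 100 * Real.sqrt (44 * P / ((n : ℝ) - s)))
    (hSn : ∀ s ∈ S, s ≤ n) {j : ℕ} (hj : j < J) (f : ℕ → ℝ) (hf : ∀ s, 0 ≤ f s) :
    ∑ s ∈ sta82_Bd n S β j, ρ s * f (n - s) ≤
      101 / 100 * (sg2 P (β j) * ∑ s ∈ Ico (β j) (β (j + 1)), f s) := by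
  refine (sta82_sum_Bd_le hβ hr3 hr4 hSn hj f hf).trans ?_
  rw [Finset.mul_sum (s := Ico (β j) (β (j + 1))) (a := sg2 P (β j))]
  gcongr with s hs
  · exact hf s
  · exact sg2_anti hP (mem_Ico.1 hs).1

theorem sta82_mass {n P w D J : ℕ} {t μ e : ℝ} {S : Finset ℕ} {β : ℕ → ℕ} {ρ : ℕ → ℝ} (h : Prm n P w D t μ e)
    (hβ : Blk n P J β)
    (hr3 : ∀ s ∈ S, 31 * n < 100 * s → ρ s ≤ 1)
    (hr4 : ∀ s ∈ S, 31 * n < 100 * s → s + 51 * P ≤ n → ρ s ≤ 101 / 100 * Real.sqrt (44 * P / ((n : ℝ) - s)))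
    (hSn : ∀ s ∈ S, s ≤ n) (q : ℕ → ℝ) (hq0 : ∀ j < J, 0 ≤ q j) (hq1 : ∀ j < J, q j ≤ 1)
    (hq2 : ∀ j < J, 23 * P ≤ β j → q j ≤ 1 / 2) :
    ∑ j ∈ range J, q j * ∑ s ∈ sta82_Bd n S β j, ρ s ≤ 57 / 10 * Real.sqrt (P * n) := by
  obtain ⟨-, hwP, hPn, hw9, -, -, -⟩ := Prm_cons h
  have hP6 : 10 ^ 6 ≤ P := by omega
  have hP : 0 < P := by omega
  have hPn8 : 10 ^ 8 * P ≤ n := by omega
  have hPR : (0 : ℝ) < P := by exact_mod_cast hP
  have hstep : ∀ j ∈ range J, q j * ∑ s ∈ sta82_Bd n S β j, ρ s ≤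
      ∑ s ∈ Ico (β j) (β (j + 1)), 101 / 100 * (1 / 2 * sg2 P s + if s < 24 * P then 1 / 2 else 0) := by
    intro j hj
    rw [mem_range] at hj
    have h1 := sta82_sum_Bd_le hβ hr3 hr4 hSn hj (fun _ => 1) (fun _ => zero_le_one)
    simp only [mul_one] at h1
    calc q j * ∑ s ∈ sta82_Bd n S β j, ρ s ≤ q j * (101 / 100 * ∑ s ∈ Ico (β j) (β (j + 1)), sg2 P s) :=
          mul_le_mul_of_nonneg_left h1 (hq0 j hj)
      _ = ∑ s ∈ Ico (β j) (β (j + 1)), 101 / 100 * (q j * sg2 P s) := by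
          rw [Finset.mul_sum, Finset.mul_sum]
          exact Finset.sum_congr rfl fun s _ => by ring
      _ ≤ _ := by
          refine Finset.sum_le_sum fun s hs => ?_
          rw [mem_Ico] at hs
          have hup := hβ.up j hj
          have h2 := sta82_sg_le (P := P) (s := s)
          have h3 := sta82_sg_nn (P := P) (s := s)
          have h4 := hq1 j hj
          have h5 := hq0 j hj
          split_ifs with hc
          · nlinarith
          · have h6 := hq2 j hj (by omega)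
            nlinarith
  have h2 := Finset.sum_le_sum hstep
  rw [sta82_sum_blocks hβ _ le_rfl, hβ.b0, hβ.bJ, ← Finset.mul_sum, Finset.sum_add_distrib,
    ← Finset.mul_sum] at h2
  have h3 := sg_sum hP6 hPn8
  have h4 : ∑ s ∈ Ico P ((69 * n + 99) / 100), (if s < 24 * P then (1 / 2 : ℝ) else 0) ≤ 12 * P := by
    rw [← Finset.sum_filter, Finset.sum_const, nsmul_eq_mul]
    have h5 : ((Ico P ((69 * n + 99) / 100)).filter fun s => s < 24 * P).card ≤ 24 * P := by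
      calc ((Ico P ((69 * n + 99) / 100)).filter fun s => s < 24 * P).card ≤ (range (24 * P)).card := by
            apply Finset.card_le_card
            intro s hs
            rw [mem_filter] at hs
            exact mem_range.2 hs.2
        _ = 24 * P := card_range _
    have h6 : ((((Ico P ((69 * n + 99) / 100)).filter fun s => s < 24 * P).card : ℕ) : ℝ) ≤ 24 * P := by
      exact_mod_cast h5
    linarith
  have h5 : (P : ℝ) ≤ 1 / 10 ^ 9 * Real.sqrt (P * n) := by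
    have hPn' : (10 : ℝ) ^ 18 * P ≤ n := by exact_mod_cast hPn
    have : (10 ^ 9 * (P : ℝ)) ≤ Real.sqrt (P * n) := by
      apply Real.le_sqrt_of_sq_le
      nlinarith
    linarith
  have h6 := Real.sqrt_nonneg ((P : ℝ) * n)
  linarith

end Pool.Agent.GRC
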