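import Pool.Agent.Helper28.GRC.STA1
import Pool.Agent.Helper28.GRC.STA2
import Pool.Agent.Helper28.GRC.STA3

set_option autoImplicit false

namespace Pool.Agent.GRC

open Finset Pool.Agent.SEM

theorem sta82_theta {n P w D : ℕ} {t μ e : ℝ} (h : Prm n P w D t μ e) :
    0 ≤ 10 * ((D : ℝ) + 2) * t ∧ 10 * ((D : ℝ) + 2) * t ≤ 1 / 10 ^ 6 := by
  obtain ⟨hμ, -, -, -, -, -, -⟩ := Prm_cons h
  have ht := h.t0
  have hD : (10 : ℝ) ^ 5 ≤ D := by exact_mod_cast h.D1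
  have hs := h.small
  have hwP : (0 : ℝ) ≤ w / P := by positivity
  have h1 : (10 : ℝ) ^ 9 * D * t ≤ 10 ^ 9 * D * (t + w / P) := by
    apply mul_le_mul_of_nonneg_left _ (by positivity)
    linarith
  have h2 : (D : ℝ) * t ≤ 1 / 10 ^ 18 := by
    have : (10 : ℝ) ^ 9 * D * t ≤ 1 / 10 ^ 9 := by linarith
    have h3 : (10 : ℝ) ^ 9 * (D * t) ≤ 1 / 10 ^ 9 := by linarith
    have h4 : (D : ℝ) * t ≤ (1 / 10 ^ 9) / 10 ^ 9 := by
      rw [le_div_iff₀ (by positivity)]; linarith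
    refine h4.trans (by norm_num)
  refine ⟨by positivity, ?_⟩
  have h5 : t ≤ D * t := by nlinarith
  nlinarith

theorem sta82_w_le {n P w D : ℕ} {t μ e : ℝ} (h : Prm n P w D t μ e) {A c : ℝ} (_hc : 0 < c)
    (hA : (P : ℝ) / 10000 ≤ A) (hcc : c * 10 ^ 4 ≤ 25 * 10 ^ 14) : c / A ≤ 25 / w := by
  obtain ⟨-, hwP, -, -, -, -, -⟩ := Prm_cons h
  have hw : (0 : ℝ) < w := by exact_mod_cast h.w0
  have hwR : (10 : ℝ) ^ 14 * w ≤ P := by exact_mod_cast hwP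
  have hP : (0 : ℝ) < P := by nlinarith
  have hA0 : 0 < A := lt_of_lt_of_le (by positivity) hA
  rw [div_le_div_iff₀ hA0 hw]
  nlinarith

theorem sta82_S_card {n P w D : ℕ} {t μ e : ℝ} {X S : Finset ℕ} (h : Prm n P w D t μ e)
    (hL : Loc n P w t X S) {a b : ℕ} (ha : 1 ≤ a) (hab : a ≤ b) (hb : b + P ≤ n) (hlen : P ≤ 60 * (b - a)) :
    999 / 1000 * ((b : ℝ) - a) ≤ ((S.filter fun s => a ≤ s ∧ s ≤ b).card : ℝ) := by
  classical
  obtain ⟨hμ, hwP, hPn, hw9, ht9, -, -⟩ := Prm_cons h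
  have hwP' : 10 ^ 6 * w ≤ P := le_trans (Nat.mul_le_mul_right w (by norm_num)) hwP
  have hPn' : 100 * P ≤ n := le_trans (Nat.mul_le_mul_right P (by norm_num)) hPn
  have h1 := lc_S hL h.w0 h.t0.le hwP' hPn' ha hab hb
  have hsub : Icc a b ⊆ (S.filter fun s => a ≤ s ∧ s ≤ b) ∪ (Icc a b).filter (· ∉ S) := by
    intro s hs
    rw [mem_union]
    by_cases hsS : s ∈ S
    · left
      rw [mem_Icc] at hs
      exact mem_filter.2 ⟨hsS, hs⟩
    · right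
      exact mem_filter.2 ⟨hs, hsS⟩
  have h2 := (Finset.card_le_card hsub).trans (Finset.card_union_le _ _)
  rw [Nat.card_Icc] at h2
  have h3 : ((b + 1 - a : ℕ) : ℝ) = (b : ℝ) - a + 1 := by
    rw [Nat.cast_sub (by omega)]; push_cast; ring
  have h4 : ((b + 1 - a : ℕ) : ℝ) ≤ ((S.filter fun s => a ≤ s ∧ s ≤ b).card : ℝ) +
      (((Icc a b).filter (· ∉ S)).card : ℝ) := by exact_mod_cast h2
  rw [h3] at h4
  have hlr : (P : ℝ) ≤ 60 * ((b : ℝ) - a) := by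
    rw [← Nat.cast_sub hab]; exact_mod_cast hlen
  have hwR : 10 ^ 14 * (w : ℝ) ≤ P := by exact_mod_cast hwP
  have ht1 : t ≤ 1 / 10000 := by
    have : (1 : ℝ) / 10 ^ 14 * Real.sqrt μ ≤ 1 / 10 ^ 14 * (1 / 10 ^ 9) := by gcongr
    linarith [show (1 : ℝ) / 10 ^ 14 * (1 / 10 ^ 9) ≤ 1 / 10000 by norm_num]
  have hw0 : (0 : ℝ) ≤ w := Nat.cast_nonneg _
  set δ : ℝ := (b : ℝ) - a with hδ
  have hδ0 : 0 ≤ δ := by linarith [(Nat.cast_nonneg P : (0 : ℝ) ≤ P)]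
  have h6 : t * (δ + w) ≤ 1 / 10000 * (δ + δ) := by
    calc t * (δ + w) ≤ t * (δ + δ) := by
          apply mul_le_mul_of_nonneg_left _ h.t0.le
          linarith
      _ ≤ 1 / 10000 * (δ + δ) := mul_le_mul_of_nonneg_right ht1 (by linarith)
  linarith

theorem sta82_icc_card {a b : ℕ} (hab : a ≤ b) : ((Icc a b).card : ℝ) = (b : ℝ) - a + 1 := by
  rw [Nat.card_Icc, Nat.cast_sub (by omega)]
  push_cast; ring

/-- generic OK lemma, zone an interval -/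
theorem sta82_OK {n P w D : ℕ} {t μ e : ℝ} {X S Bd Lf : Finset ℕ} {a b y : ℕ} {ρ : ℕ → ℝ} {g : ℕ → ℕ → ℕ}
    (h : Prm n P w D t μ e) (hL : Loc n P w t X S) (hLf : Lf.card = D) (hab : a ≤ b)
    (hlen : P ≤ 60 * (b - a)) (hf : FreeW n P a b) (hy : ∀ x ∈ Icc a b, ad x y + P ≤ n)
    (hgg : ∀ x ∈ Icc a b, ∀ d ∈ Bd, ad (g x d) x = d)
    (hBd : Bd ⊆ S) (hρ : ∀ d ∈ Bd, 0 ≤ ρ d) (hρ1 : ∀ d ∈ Bd, ρ d ≤ 1) (hW : (P : ℝ) / 5000 ≤ ∑ d ∈ Bd, ρ d)
    (hg : ∀ d ∈ Bd, ∃ a' b' : ℕ, FreeW n P a' b' ∧ a' ≤ b' ∧ b' - a' = b - a ∧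
      (∀ x ∈ Icc a b, g x d ∈ Icc a' b') ∧ ∀ x ∈ Icc a b, ∀ x' ∈ Icc a b, g x d = g x' d → x = x') :
    Sta82OK X S (Icc a b) Bd Lf y ρ g (10 * ((D : ℝ) + 2) * t) (50 / w) := by
  obtain ⟨-, hwP, -, -, -, -, -⟩ := Prm_cons h
  have hw : (0 : ℝ) < w := by exact_mod_cast h.w0
  have hwR : (10 : ℝ) ^ 14 * w ≤ P := by exact_mod_cast hwP
  have hP : (0 : ℝ) < P := by nlinarith
  have hlr : (P : ℝ) ≤ 60 * ((b : ℝ) - a) := by
    rw [← Nat.cast_sub hab]; exact_mod_cast hlen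
  have h50 : (50 : ℝ) / w / 2 = 25 / w := by ring
  refine ⟨hgg, hBd, hρ, lt_of_lt_of_le (by positivity) hW, ?_, ?_, ?_, ?_⟩
  · rw [Nat.card_Icc]; omega
  · intro D' hD' hc
    exact sta82_adm h hL hab hlen hf hy g hg D' hD' (by rw [← hLf]; exact hc)
  · intro d hd
    rw [h50]
    refine le_trans ?_ (sta82_w_le h (A := ∑ d ∈ Bd, ρ d) (c := 1) (by norm_num) (by linarith) (by norm_num))
    apply div_le_div_of_nonneg_right (hρ1 d hd)
    exact le_trans (by positivity) hW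
  · refine le_trans (sta82_w_le h (A := ((Icc a b).card : ℝ)) (c := 2) (by norm_num) ?_ (by norm_num)) ?_
    · rw [sta82_icc_card hab]; linarith
    · apply div_le_div_of_nonneg_right (by norm_num) hw.le

theorem sta82_OKL {n P w D J : ℕ} {t μ e : ℝ} {X S Lf : Finset ℕ} {y j : ℕ} {β : ℕ → ℕ} {ρ : ℕ → ℝ}
    (h : Prm n P w D t μ e) (hL : Loc n P w t X S) (hβ : Blk n P J β) (hLf : Lf.card = D)
    (hr1 : ∀ s ∈ S, 31 * n < 100 * s → n < s + 50 * P → ρ s = 1)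
    (hr2 : ∀ s ∈ S, 31 * n < 100 * s → s + 50 * P ≤ n → 8 / 10 * Real.sqrt (44 * P / ((n : ℝ) - s)) ≤ ρ s)
    (hr3 : ∀ s ∈ S, 31 * n < 100 * s → ρ s ≤ 1)
    (hj : j < J) (hy2 : 10 * y ≤ 3 * n) :
    Sta82OK X S (ZL P (β j)) (sta82_Bd n S β j) Lf y ρ (fun x d => x + d) (10 * ((D : ℝ) + 2) * t) (50 / w) := by
  obtain ⟨-, hwP, hPn, hw9, -, -, -⟩ := Prm_cons h
  have hP0 : 10 ^ 6 ≤ P := by omega
  have hPj := sta82_ge hβ hj.le
  have hEj := sta82_le hβ (show j + 1 ≤ J by omega)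
  have hlt := hβ.mono j hj
  have hbig : ∀ d ∈ sta82_Bd n S β j, d ∈ S ∧ d + P ≤ n ∧ β j ≤ n - d ∧ n - d < β (j + 1) := by
    intro d hd
    unfold sta82_Bd at hd
    rw [mem_filter] at hd
    exact ⟨hd.1, hL.S_le d hd.1, hd.2.1, hd.2.2⟩
  have hρ0 : ∀ d ∈ sta82_Bd n S β j, 0 ≤ ρ d := fun d hd =>
    le_trans (by positivity) (sta82_rho_lo hβ (by omega) hr1 hr2 hj hd)
  have hρ1 : ∀ d ∈ sta82_Bd n S β j, ρ d ≤ 1 := fun d hd => by
    obtain ⟨h1, h2⟩ := sta82_Bd_big hβ hj hd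
    exact hr3 d h1 h2
  have hW := sta82_W_lo h hL hβ hr1 hr2 hj
  unfold ZL
  split_ifs with hc
  · refine sta82_OK h hL hLf (by omega) (by omega) (Or.inl ⟨by omega, by omega⟩) ?_ ?_ ?_ hρ0 hρ1 hW ?_
    · intro x hx
      rw [mem_Icc] at hx
      unfold ad; omega
    · intro x hx d hd
      unfold ad; omega
    · intro d hd; exact (hbig d hd).1
    · intro d hd
      obtain ⟨-, h1, h2, h3⟩ := hbig d hd
      refine ⟨7 * P / 100 + 1 + d, 20 * P / 100 + d, Or.inr (Or.inl ⟨by omega, by omega⟩), by omega, by omega, ?_, ?_⟩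
      · intro x hx
        rw [mem_Icc] at hx ⊢
        constructor <;> omega
      · intro x hx x' hx' hxx
        omega
  · refine sta82_OK h hL hLf (by omega) (by omega) (Or.inr (Or.inl ⟨by omega, by omega⟩)) ?_ ?_ ?_ hρ0 hρ1 hW ?_
    · intro x hx
      rw [mem_Icc] at hx
      unfold ad; omega
    · intro x hx d hd
      unfold ad; omega
    · intro d hd; exact (hbig d hd).1
    · intro d hd
      obtain ⟨-, h1, h2, h3⟩ := hbig d hd
      refine ⟨52 * β j / 1000 + 1 + d, β j / 10 + d, Or.inr (Or.inl ⟨by omega, by omega⟩), by omega, by omega, ?_, ?_⟩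
      · intro x hx
        rw [mem_Icc] at hx ⊢
        constructor <;> omega
      · intro x hx x' hx' hxx
        omega

/-- zone of the high centres, as labels -/
def sta82_ZH (n P b : ℕ) : Finset ℕ :=
  if b < 5 * P then Icc (n - 58 * P / 1000) (n - (20 * P / 1000 + 1)) else Icc (n - b / 10) (n - (52 * b / 1000 + 1))

theorem sta82_OKH {n P w D J : ℕ} {t μ e : ℝ} {X S Lf : Finset ℕ} {y j : ℕ} {β : ℕ → ℕ} {ρ : ℕ → ℝ}
    (h : Prm n P w D t μ e) (hL : Loc n P w t X S) (hβ : Blk n P J β) (hLf : Lf.card = D)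
    (hr1 : ∀ s ∈ S, 31 * n < 100 * s → n < s + 50 * P → ρ s = 1)
    (hr2 : ∀ s ∈ S, 31 * n < 100 * s → s + 50 * P ≤ n → 8 / 10 * Real.sqrt (44 * P / ((n : ℝ) - s)) ≤ ρ s)
    (hr3 : ∀ s ∈ S, 31 * n < 100 * s → ρ s ≤ 1)
    (hj : j < J) (hbj : 105 * P ≤ 100 * β j) (hy : y ≤ n) (hy2 : 7 * n ≤ 10 * y) :
    Sta82OK X S (sta82_ZH n P (β j)) (sta82_Bd n S β j) Lf y ρ (fun x d => x - d)
      (10 * ((D : ℝ) + 2) * t) (50 / w) := by
  obtain ⟨-, hwP, hPn, hw9, -, -, -⟩ := Prm_cons h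
  have hP0 : 10 ^ 6 ≤ P := by omega
  have hPj := sta82_ge hβ hj.le
  have hEj := sta82_le hβ (show j + 1 ≤ J by omega)
  have hlt := hβ.mono j hj
  have hbig : ∀ d ∈ sta82_Bd n S β j, d ∈ S ∧ d + P ≤ n ∧ β j ≤ n - d ∧ n - d < β (j + 1) := by
    intro d hd
    unfold sta82_Bd at hd
    rw [mem_filter] at hd
    exact ⟨hd.1, hL.S_le d hd.1, hd.2.1, hd.2.2⟩
  have hρ0 : ∀ d ∈ sta82_Bd n S β j, 0 ≤ ρ d := fun d hd =>
    le_trans (by positivity) (sta82_rho_lo hβ (by omega) hr1 hr2 hj hd)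
  have hρ1 : ∀ d ∈ sta82_Bd n S β j, ρ d ≤ 1 := fun d hd => by
    obtain ⟨h1, h2⟩ := sta82_Bd_big hβ hj hd
    exact hr3 d h1 h2
  have hW := sta82_W_lo h hL hβ hr1 hr2 hj
  unfold sta82_ZH
  split_ifs with hc
  · refine sta82_OK h hL hLf (by omega) (by omega) (Or.inr (Or.inr ⟨by omega, by omega⟩)) ?_ ?_ ?_ hρ0 hρ1 hW ?_
    · intro x hx
      rw [mem_Icc] at hx
      unfold ad; omega
    · intro x hx d hd
      obtain ⟨-, h1, h2, h3⟩ := hbig d hd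
      rw [mem_Icc] at hx
      unfold ad; omega
    · intro d hd; exact (hbig d hd).1
    · intro d hd
      obtain ⟨-, h1, h2, h3⟩ := hbig d hd
      refine ⟨n - 58 * P / 1000 - d, n - (20 * P / 1000 + 1) - d, Or.inr (Or.inl ⟨by omega, by omega⟩), by omega,
        by omega, ?_, ?_⟩
      · intro x hx
        rw [mem_Icc] at hx ⊢
        constructor <;> omega
      · intro x hx x' hx' hxx
        rw [mem_Icc] at hx hx'
        omega
  · refine sta82_OK h hL hLf (by omega) (by omega) (Or.inr (Or.inl ⟨by omega, by omega⟩)) ?_ ?_ ?_ hρ0 hρ1 hW ?_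
    · intro x hx
      rw [mem_Icc] at hx
      unfold ad; omega
    · intro x hx d hd
      obtain ⟨-, h1, h2, h3⟩ := hbig d hd
      rw [mem_Icc] at hx
      unfold ad; omega
    · intro d hd; exact (hbig d hd).1
    · intro d hd
      obtain ⟨-, h1, h2, h3⟩ := hbig d hd
      refine ⟨n - β j / 10 - d, n - (52 * β j / 1000 + 1) - d, Or.inr (Or.inl ⟨by omega, by omega⟩), by omega,
        by omega, ?_, ?_⟩
      · intro x hx
        rw [mem_Icc] at hx ⊢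
        constructor <;> omega
      · intro x hx x' hx' hxx
        rw [mem_Icc] at hx hx'
        omega

/-- bulk differences -/
def sta82_Bb (n : ℕ) (S : Finset ℕ) : Finset ℕ := S.filter fun s => 29 * n / 100 + 1 ≤ s ∧ s ≤ 31 * n / 100

/-- central differences -/
def sta82_Bc (n : ℕ) (S : Finset ℕ) : Finset ℕ := S.filter fun s => 1 ≤ s ∧ s ≤ 5 * n / 100

theorem sta82_Bb_card {n P w D : ℕ} {t μ e : ℝ} {X S : Finset ℕ} (h : Prm n P w D t μ e)
    (hL : Loc n P w t X S) : (n : ℝ) / 51 ≤ ((sta82_Bb n S).card : ℝ) ∧ (n : ℝ) / 21 ≤ ((sta82_Bc n S).card : ℝ) := by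
  obtain ⟨-, hwP, hPn, hw9, -, -, -⟩ := Prm_cons h
  have hn6 : 10 ^ 6 ≤ n := by omega
  have hnR : (10 : ℝ) ^ 6 ≤ n := by exact_mod_cast hn6
  constructor
  · have h1 := sta82_S_card h hL (a := 29 * n / 100 + 1) (b := 31 * n / 100) (by omega) (by omega) (by omega)
      (by omega)
    refine le_trans ?_ h1
    have h2 : (n : ℝ) * 2 ≤ 100 * (((31 * n / 100 : ℕ) : ℝ) - ((29 * n / 100 + 1 : ℕ) : ℝ)) + 300 := by
      rw [← Nat.cast_sub (by omega)]
      have : n * 2 ≤ 100 * (31 * n / 100 - (29 * n / 100 + 1)) + 300 := by omega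
      exact_mod_cast this
    linarith
  · have h1 := sta82_S_card h hL (a := 1) (b := 5 * n / 100) (by omega) (by omega) (by omega) (by omega)
    refine le_trans ?_ h1
    have h2 : (n : ℝ) * 5 ≤ 100 * (((5 * n / 100 : ℕ) : ℝ) - ((1 : ℕ) : ℝ)) + 300 := by
      rw [← Nat.cast_sub (by omega)]
      have : n * 5 ≤ 100 * (5 * n / 100 - 1) + 300 := by omega
      exact_mod_cast this
    linarith

theorem sta82_OKbL {n P w D : ℕ} {t μ e : ℝ} {X S Lf : Finset ℕ} {y : ℕ}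
    (h : Prm n P w D t μ e) (hL : Loc n P w t X S) (hLf : Lf.card = D) (hy2 : 10 * y ≤ 3 * n) :
    Sta82OK X S (Icc (6 * n / 100) (7 * n / 100)) (sta82_Bb n S) Lf y (fun _ => 1) (fun x d => x + d)
      (10 * ((D : ℝ) + 2) * t) (50 / w) := by
  obtain ⟨-, hwP, hPn, hw9, -, -, -⟩ := Prm_cons h
  have hP0 : 10 ^ 6 ≤ P := by omega
  have hPR : (10 : ℝ) ^ 18 * P ≤ n := by exact_mod_cast hPn
  have hc := (sta82_Bb_card h hL).1
  have hbig : ∀ d ∈ sta82_Bb n S, d ∈ S ∧ 29 * n / 100 + 1 ≤ d ∧ d ≤ 31 * n / 100 := by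
    intro d hd
    unfold sta82_Bb at hd
    rw [mem_filter] at hd
    exact hd
  refine sta82_OK h hL hLf (by omega) (by omega) (Or.inr (Or.inl ⟨by omega, by omega⟩)) ?_ ?_ ?_
    (fun _ _ => zero_le_one) (fun _ _ => le_rfl) ?_ ?_
  · intro x hx
    rw [mem_Icc] at hx
    unfold ad; omega
  · intro x hx d hd
    unfold ad; omega
  · intro d hd; exact (hbig d hd).1
  · rw [Finset.sum_const, nsmul_eq_mul, mul_one]
    refine le_trans ?_ hc
    have : (0 : ℝ) ≤ P := Nat.cast_nonneg _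
    linarith
  · intro d hd
    obtain ⟨-, h1, h2⟩ := hbig d hd
    refine ⟨6 * n / 100 + d, 7 * n / 100 + d, Or.inr (Or.inl ⟨by omega, by omega⟩), by omega, by omega, ?_, ?_⟩
    · intro x hx
      rw [mem_Icc] at hx ⊢
      constructor <;> omega
    · intro x hx x' hx' hxx
      omega

theorem sta82_OKbH {n P w D : ℕ} {t μ e : ℝ} {X S Lf : Finset ℕ} {y : ℕ}
    (h : Prm n P w D t μ e) (hL : Loc n P w t X S) (hLf : Lf.card = D) (hy : y ≤ n) (hy2 : 7 * n ≤ 10 * y) :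
    Sta82OK X S (Icc (n - 7 * n / 100) (n - 6 * n / 100)) (sta82_Bb n S) Lf y (fun _ => 1) (fun x d => x - d)
      (10 * ((D : ℝ) + 2) * t) (50 / w) := by
  obtain ⟨-, hwP, hPn, hw9, -, -, -⟩ := Prm_cons h
  have hP0 : 10 ^ 6 ≤ P := by omega
  have hPR : (10 : ℝ) ^ 18 * P ≤ n := by exact_mod_cast hPn
  have hc := (sta82_Bb_card h hL).1
  have hbig : ∀ d ∈ sta82_Bb n S, d ∈ S ∧ 29 * n / 100 + 1 ≤ d ∧ d ≤ 31 * n / 100 := by
    intro d hd
    unfold sta82_Bb at hd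
    rw [mem_filter] at hd
    exact hd
  refine sta82_OK h hL hLf (by omega) (by omega) (Or.inr (Or.inl ⟨by omega, by omega⟩)) ?_ ?_ ?_
    (fun _ _ => zero_le_one) (fun _ _ => le_rfl) ?_ ?_
  · intro x hx
    rw [mem_Icc] at hx
    unfold ad; omega
  · intro x hx d hd
    obtain ⟨-, h1, h2⟩ := hbig d hd
    rw [mem_Icc] at hx
    unfold ad; omega
  · intro d hd; exact (hbig d hd).1
  · rw [Finset.sum_const, nsmul_eq_mul, mul_one]
    refine le_trans ?_ hc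
    have : (0 : ℝ) ≤ P := Nat.cast_nonneg _
    linarith
  · intro d hd
    obtain ⟨-, h1, h2⟩ := hbig d hd
    refine ⟨n - 7 * n / 100 - d, n - 6 * n / 100 - d, Or.inr (Or.inl ⟨by omega, by omega⟩), by omega, by omega, ?_, ?_⟩
    · intro x hx
      rw [mem_Icc] at hx ⊢
      constructor <;> omega
    · intro x hx x' hx' hxx
      rw [mem_Icc] at hx hx'
      omega

theorem sta82_OKc {n P w D : ℕ} {t μ e : ℝ} {X S Lf : Finset ℕ} {y : ℕ}
    (h : Prm n P w D t μ e) (hL : Loc n P w t X S) (hLf : Lf.card = D) (hy1 : 3 * n < 10 * y)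
    (hy2 : 10 * y < 7 * n) :
    Sta82OK X S (Icc (4 * n / 10) (5 * n / 10)) (sta82_Bc n S) Lf y (fun _ => 1) (fun x d => x + d)
      (10 * ((D : ℝ) + 2) * t) (50 / w) := by
  obtain ⟨-, hwP, hPn, hw9, -, -, -⟩ := Prm_cons h
  have hP0 : 10 ^ 6 ≤ P := by omega
  have hPR : (10 : ℝ) ^ 18 * P ≤ n := by exact_mod_cast hPn
  have hc := (sta82_Bb_card h hL).2
  have hbig : ∀ d ∈ sta82_Bc n S, d ∈ S ∧ 1 ≤ d ∧ d ≤ 5 * n / 100 := by
    intro d hd
    unfold sta82_Bc at hd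
    rw [mem_filter] at hd
    exact hd
  refine sta82_OK h hL hLf (by omega) (by omega) (Or.inr (Or.inl ⟨by omega, by omega⟩)) ?_ ?_ ?_
    (fun _ _ => zero_le_one) (fun _ _ => le_rfl) ?_ ?_
  · intro x hx
    rw [mem_Icc] at hx
    unfold ad; omega
  · intro x hx d hd
    unfold ad; omega
  · intro d hd; exact (hbig d hd).1
  · rw [Finset.sum_const, nsmul_eq_mul, mul_one]
    refine le_trans ?_ hc
    have : (0 : ℝ) ≤ P := Nat.cast_nonneg _
    linarith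
  · intro d hd
    obtain ⟨-, h1, h2⟩ := hbig d hd
    refine ⟨4 * n / 10 + d, 5 * n / 10 + d, Or.inr (Or.inl ⟨by omega, by omega⟩), by omega, by omega, ?_, ?_⟩
    · intro x hx
      rw [mem_Icc] at hx ⊢
      constructor <;> omega
    · intro x hx x' hx' hxx
      omega

end Pool.Agent.GRC
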