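import Pool.Agent.Helper28.GRC.STA4

set_option autoImplicit false

namespace Pool.Agent.GRC

open Finset Pool.Agent.SEM

/-- bound for the law of the centre -/
noncomputable def sta82K (θ : ℝ) (J : ℕ) (a : ℕ → ℝ) (as : ℝ) (Z : ℕ → Finset ℕ) (Zb : Finset ℕ) (x : ℕ) : ℝ :=
  ∑ j ∈ range J, a j * (if x ∈ Z j then 1 / ((1 - θ) * ((Z j).card : ℝ)) else 0) +
    as * (if x ∈ Zb then 1 / ((1 - θ) * (Zb.card : ℝ)) else 0)

/-- law of the differences of the leaves -/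
noncomputable def sta82N (J : ℕ) (a : ℕ → ℝ) (as : ℝ) (Bd : ℕ → Finset ℕ) (Bb : Finset ℕ) (ρ : ℕ → ℝ) (s : ℕ) : ℝ :=
  ∑ j ∈ range J, a j * (if s ∈ Bd j then ρ s / (∑ d ∈ Bd j, ρ d) else 0) +
    as * (if s ∈ Bb then 1 / (Bb.card : ℝ) else 0)

/-- bound for the law of the labels of the leaves -/
noncomputable def sta82Q (θ : ℝ) (J : ℕ) (a : ℕ → ℝ) (as : ℝ) (Z : ℕ → Finset ℕ) (Zb : Finset ℕ)
    (Bd : ℕ → Finset ℕ) (Bb : Finset ℕ) (ρ : ℕ → ℝ) (g : ℕ → ℕ → ℕ) (z : ℕ) : ℝ :=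
  ∑ j ∈ range J, a j * (∑ d ∈ Bd j, ρ d / (∑ d ∈ Bd j, ρ d) *
      (((Z j).filter fun x => g x d = z).card : ℝ) / ((1 - θ) * ((Z j).card : ℝ))) +
    as * (∑ d ∈ Bb, 1 / (Bb.card : ℝ) * ((Zb.filter fun x => g x d = z).card : ℝ) / ((1 - θ) * (Zb.card : ℝ)))

/-- one law of the class -/
def Sta82L (p : ℕ → ℕ) (X S Lf : Finset ℕ) (c y : ℕ) (u : ℝ) (K N Q : ℕ → ℝ) (L : FL) : Prop :=
  UK p X S (insert c Lf) (p c) y u L ∧ (∀ x, L.Pr (fun φ => φ c = x) ≤ K x) ∧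
    (∀ l ∈ Lf, ∀ s, L.Pr (fun φ => ad (φ l) (φ c) = s) = N s) ∧ ∀ l ∈ Lf, ∀ z, L.Pr (fun φ => φ l = z) ≤ Q z

theorem sta82_mix2 {p : ℕ → ℕ} {X S Lf : Finset ℕ} {c y : ℕ} {θ u : ℝ} (g : ℕ → ℕ → ℕ)
    (hc : c ≠ p c) (hcL : c ∉ Lf) (hLf : ∀ l ∈ Lf, p l = c) (hθ : 0 ≤ θ) (hθ1 : θ ≤ 1 / 2)
    (J : ℕ) (a : ℕ → ℝ) (as : ℝ) (Z : ℕ → Finset ℕ) (Zb : Finset ℕ) (Bd : ℕ → Finset ℕ) (Bb : Finset ℕ)
    (ρ : ℕ → ℝ) (ha : ∀ j < J, 0 ≤ a j) (has : 0 ≤ as) (ha1 : ∑ j ∈ range J, a j + as = 1)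
    (hOK : ∀ j < J, a j ≠ 0 → Sta82OK X S (Z j) (Bd j) Lf y ρ g θ u)
    (hOKb : Sta82OK X S Zb Bb Lf y (fun _ => 1) g θ u) :
    ∃ L : FL, Sta82L p X S Lf c y u (sta82K θ J a as Z Zb) (sta82N J a as Bd Bb ρ)
      (sta82Q θ J a as Z Zb Bd Bb ρ g) L := by
  classical
  obtain ⟨L, h1, h2, h3, h4⟩ := sta82_mix (p := p) (X := X) (S := S) (Lf := Lf) (c := c) (v := p c) (y := y) g rfl hc
    hcL hLf hθ hθ1 (range (J + 1)) (fun j => if j < J then a j else as) (fun j => if j < J then Z j else Zb)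
    (fun j => if j < J then Bd j else Bb) (fun j => if j < J then ρ else fun _ => 1)
    (by intro j _; split_ifs with hj; exacts [ha j hj, has])
    (by
      rw [Finset.sum_range_succ]
      simp only [lt_irrefl, if_false]
      rw [← ha1]
      congr 1
      exact Finset.sum_congr rfl fun j hj => by rw [if_pos (mem_range.1 hj)])
    (by
      intro j _ hj0
      by_cases hj : j < J
      · simp only [if_pos hj] at hj0 ⊢
        exact hOK j hj hj0
      · simp only [if_neg hj]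
        exact hOKb)
  refine ⟨L, h1, ?_, ?_, ?_⟩
  · intro x
    refine (h2 x).trans (le_of_eq ?_)
    rw [Finset.sum_range_succ]
    unfold sta82K
    simp only [lt_irrefl, if_false]
    congr 1
    exact Finset.sum_congr rfl fun j hj => by simp only [if_pos (mem_range.1 hj)]
  · intro l hl s
    refine (h3 l hl s).trans ?_
    rw [Finset.sum_range_succ]
    unfold sta82N
    simp only [lt_irrefl, if_false, Finset.sum_const, nsmul_eq_mul, mul_one]
    congr 1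
    exact Finset.sum_congr rfl fun j hj => by simp only [if_pos (mem_range.1 hj)]
  · intro l hl z
    refine (h4 l hl z).trans (le_of_eq ?_)
    rw [Finset.sum_range_succ]
    unfold sta82Q
    simp only [lt_irrefl, if_false, Finset.sum_const (1 : ℝ), nsmul_eq_mul, mul_one]
    congr 1
    exact Finset.sum_congr rfl fun j hj => by simp only [if_pos (mem_range.1 hj)]

theorem sta82_ind_le {θ : ℝ} (hθ1 : θ ≤ 1 / 10 ^ 6) (Z A : Finset ℕ) :
    ∑ x ∈ A, (if x ∈ Z then 1 / ((1 - θ) * (Z.card : ℝ)) else 0) ≤ 1001 / 1000 := by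
  classical
  have h0 : (0 : ℝ) < 1 - θ := by norm_num at hθ1 ⊢; linarith
  rw [← Finset.sum_filter, Finset.sum_const, nsmul_eq_mul]
  rcases Nat.eq_zero_or_pos Z.card with hz | hz
  · rw [hz]; norm_num
  · have hZ : (0 : ℝ) < Z.card := by exact_mod_cast hz
    have h1 : ((A.filter fun x => x ∈ Z).card : ℝ) ≤ Z.card := by
      have : (A.filter fun x => x ∈ Z).card ≤ Z.card := by
        apply Finset.card_le_card
        intro x hx
        exact (mem_filter.1 hx).2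
      exact_mod_cast this
    rw [mul_one_div, div_le_iff₀ (by positivity)]
    have h2 : 1 ≤ 1001 / 1000 * (1 - θ) := by norm_num at hθ1 ⊢; linarith
    nlinarith

theorem sta82K_nn {θ : ℝ} (hθ1 : θ ≤ 1 / 10 ^ 6) {J : ℕ} {a : ℕ → ℝ} {as : ℝ} {Z : ℕ → Finset ℕ}
    {Zb : Finset ℕ} (ha : ∀ j < J, 0 ≤ a j) (has : 0 ≤ as) (x : ℕ) : 0 ≤ sta82K θ J a as Z Zb x := by
  have h0 : (0 : ℝ) < 1 - θ := by norm_num at hθ1 ⊢; linarith
  unfold sta82K
  apply add_nonneg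
  · refine Finset.sum_nonneg fun j hj => mul_nonneg (ha j (mem_range.1 hj)) ?_
    split_ifs
    · positivity
    · exact le_rfl
  · refine mul_nonneg has ?_
    split_ifs
    · positivity
    · exact le_rfl

theorem sta82K_tot {θ : ℝ} (hθ1 : θ ≤ 1 / 10 ^ 6) {J : ℕ} {a : ℕ → ℝ} {as : ℝ} {Z : ℕ → Finset ℕ}
    {Zb : Finset ℕ} (ha : ∀ j < J, 0 ≤ a j) (has : 0 ≤ as) (ha1 : ∑ j ∈ range J, a j + as = 1)
    (A : Finset ℕ) : ∑ x ∈ A, sta82K θ J a as Z Zb x ≤ 1001 / 1000 := by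
  unfold sta82K
  rw [Finset.sum_add_distrib, Finset.sum_comm, ← Finset.mul_sum]
  have h1 : ∑ j ∈ range J, ∑ x ∈ A, a j * (if x ∈ Z j then 1 / ((1 - θ) * ((Z j).card : ℝ)) else 0) ≤
      ∑ j ∈ range J, a j * (1001 / 1000) := by
    refine Finset.sum_le_sum fun j hj => ?_
    rw [← Finset.mul_sum]
    exact mul_le_mul_of_nonneg_left (sta82_ind_le hθ1 _ _) (ha j (mem_range.1 hj))
  have h2 := mul_le_mul_of_nonneg_left (sta82_ind_le hθ1 Zb A) has
  rw [← Finset.sum_mul] at h1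
  calc _ ≤ (∑ j ∈ range J, a j) * (1001 / 1000) + as * (1001 / 1000) := add_le_add h1 h2
    _ = 1001 / 1000 := by rw [← add_mul, ha1, one_mul]

theorem sta82K_zero {θ : ℝ} {J : ℕ} {a : ℕ → ℝ} {as : ℝ} {Z : ℕ → Finset ℕ} {Zb : Finset ℕ} {x : ℕ}
    (h1 : ∀ j < J, x ∉ Z j) (h2 : x ∉ Zb) : sta82K θ J a as Z Zb x = 0 := by
  unfold sta82K
  rw [if_neg h2, mul_zero, add_zero]
  exact Finset.sum_eq_zero fun j hj => by rw [if_neg (h1 j (mem_range.1 hj)), mul_zero]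

/-- data of a class: mass `m`, shares `q` -/
theorem sta82_K_le {n P J : ℕ} {S : Finset ℕ} {β : ℕ → ℕ} {ρ q : ℕ → ℝ} {θ DM as : ℝ} (hβ : Blk n P J β)
    (hP : 0 < P) (hr3 : ∀ s ∈ S, 31 * n < 100 * s → ρ s ≤ 1)
    (hr4 : ∀ s ∈ S, 31 * n < 100 * s → s + 51 * P ≤ n → ρ s ≤ 101 / 100 * Real.sqrt (44 * P / ((n : ℝ) - s)))
    (hSn : ∀ s ∈ S, s ≤ n) (hq0 : ∀ j < J, 0 ≤ q j) (hθ1 : θ ≤ 1 / 10 ^ 6) (hDM : 0 < DM)
    (has1 : as ≤ 1) (Z : ℕ → Finset ℕ) (Zb : Finset ℕ) (x : ℕ) :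
    DM * sta82K θ J (fun j => q j * (∑ d ∈ sta82_Bd n S β j, ρ d) / DM) as Z Zb x ≤
      102 / 100 * (∑ j ∈ range J, q j * sg2 P (β j) * ((β (j + 1) : ℝ) - β j) *
        (if x ∈ Z j then 1 else 0) / ((Z j).card : ℝ)) +
      DM * (if x ∈ Zb then 1 / ((1 - θ) * (Zb.card : ℝ)) else 0) := by
  have h0 : (0 : ℝ) < 1 - θ := by norm_num at hθ1 ⊢; linarith
  unfold sta82K
  rw [mul_add, Finset.mul_sum, Finset.mul_sum]
  apply add_le_add
  · refine Finset.sum_le_sum fun j hj => ?_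
    rw [mem_range] at hj
    have h1 := sta82_W_up hβ hP hr3 hr4 hSn hj (fun _ => 1) (fun _ => zero_le_one)
    simp only [mul_one, Finset.sum_const, nsmul_eq_mul, Nat.card_Ico] at h1
    rw [Nat.cast_sub (hβ.mono j hj).le] at h1
    have e1 : DM * (q j * (∑ d ∈ sta82_Bd n S β j, ρ d) / DM *
        (if x ∈ Z j then 1 / ((1 - θ) * ((Z j).card : ℝ)) else 0)) =
        q j * (∑ d ∈ sta82_Bd n S β j, ρ d) * (if x ∈ Z j then 1 / ((1 - θ) * ((Z j).card : ℝ)) else 0) := by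
      field_simp
    rw [e1]
    by_cases hx : x ∈ Z j
    · rw [if_pos hx, if_pos hx]
      have hZ : (0 : ℝ) < (Z j).card := by
        have : 0 < (Z j).card := Finset.card_pos.2 ⟨x, hx⟩
        exact_mod_cast this
      have e2 : q j * (∑ d ∈ sta82_Bd n S β j, ρ d) * (1 / ((1 - θ) * ((Z j).card : ℝ))) ≤
          q j * (101 / 100 * (sg2 P (β j) * ((β (j + 1) : ℝ) - β j))) * (1 / ((1 - θ) * ((Z j).card : ℝ))) := by
        apply mul_le_mul_of_nonneg_right _ (by positivity)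
        exact mul_le_mul_of_nonneg_left h1 (hq0 j hj)
      refine e2.trans ?_
      have hs0 := sta82_sg_nn (P := P) (s := β j)
      have hb0 : (0 : ℝ) ≤ (β (j + 1) : ℝ) - β j := by
        have : (β j : ℝ) ≤ β (j + 1) := by exact_mod_cast (hβ.mono j hj).le
        linarith
      have hA : 0 ≤ q j * sg2 P (β j) * ((β (j + 1) : ℝ) - β j) := by
        have := hq0 j hj
        positivity
      rw [mul_one, mul_one_div, div_le_iff₀ (by positivity)]
      have e3 : 102 / 100 * (q j * sg2 P (β j) * ((β (j + 1) : ℝ) - β j) / ((Z j).card : ℝ)) *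
          ((1 - θ) * ((Z j).card : ℝ)) = 102 / 100 * (1 - θ) * (q j * sg2 P (β j) * ((β (j + 1) : ℝ) - β j)) := by
        field_simp
      rw [e3]
      have e4 : 101 / 100 ≤ 102 / 100 * (1 - θ) := by norm_num at hθ1 ⊢; linarith
      nlinarith
    · rw [if_neg hx, if_neg hx]
      simp
  · have e5 : (0 : ℝ) ≤ (if x ∈ Zb then 1 / ((1 - θ) * (Zb.card : ℝ)) else 0) := by
      split_ifs
      · positivity
      · exact le_rfl
    have e6 : as * (if x ∈ Zb then 1 / ((1 - θ) * (Zb.card : ℝ)) else 0) ≤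
        1 * (if x ∈ Zb then 1 / ((1 - θ) * (Zb.card : ℝ)) else 0) := mul_le_mul_of_nonneg_right has1 e5
    rw [one_mul] at e6
    exact mul_le_mul_of_nonneg_left e6 hDM.le

theorem sta82_Q_le {n P J : ℕ} {S : Finset ℕ} {β : ℕ → ℕ} {ρ q : ℕ → ℝ} {θ DM as : ℝ} (hβ : Blk n P J β)
    (hP : 0 < P) (hr3 : ∀ s ∈ S, 31 * n < 100 * s → ρ s ≤ 1)
    (hr4 : ∀ s ∈ S, 31 * n < 100 * s → s + 51 * P ≤ n → ρ s ≤ 101 / 100 * Real.sqrt (44 * P / ((n : ℝ) - s)))
    (hSn : ∀ s ∈ S, s ≤ n) (hq0 : ∀ j < J, 0 ≤ q j) (hθ1 : θ ≤ 1 / 10 ^ 6) (hDM : 0 < DM)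
    (hρ0 : ∀ j < J, ∀ d ∈ sta82_Bd n S β j, 0 ≤ ρ d)
    (hW : ∀ j < J, 0 < ∑ d ∈ sta82_Bd n S β j, ρ d)
    (has0 : 0 ≤ as) (has1 : as ≤ 1) (Z : ℕ → Finset ℕ) (Zb Bb : Finset ℕ) (g : ℕ → ℕ → ℕ) (z : ℕ) (E : ℕ → ℕ → Prop)
    [∀ j, DecidablePred (E j)]
    (hE : ∀ j < J, q j ≠ 0 → ∀ d ∈ sta82_Bd n S β j,
      (((Z j).filter fun x => g x d = z).card : ℝ) ≤ if E j (n - d) then 1 else 0)
    (B : ℝ) (hB : ∑ d ∈ Bb, 1 / (Bb.card : ℝ) * ((Zb.filter fun x => g x d = z).card : ℝ) / ((1 - θ) * (Zb.card : ℝ)) ≤ B)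
    (hB0 : 0 ≤ B) :
    DM * sta82Q θ J (fun j => q j * (∑ d ∈ sta82_Bd n S β j, ρ d) / DM) as Z Zb (sta82_Bd n S β) Bb ρ g z ≤
      102 / 100 * (∑ j ∈ range J, q j * sg2 P (β j) *
        (((Ico (β j) (β (j + 1))).filter (E j)).card : ℝ) / ((Z j).card : ℝ)) + DM * B := by
  have h0 : (0 : ℝ) < 1 - θ := by norm_num at hθ1 ⊢; linarith
  unfold sta82Q
  rw [mul_add, Finset.mul_sum (range J) _ DM, Finset.mul_sum (range J) _ (102 / 100)]
  apply add_le_add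
  · refine Finset.sum_le_sum fun j hj => ?_
    rw [mem_range] at hj
    have hWj := hW j hj
    set W := ∑ d ∈ sta82_Bd n S β j, ρ d with hWdef
    by_cases hqj : q j = 0
    · simp [hqj]
    have h1 := sta82_W_up hβ hP hr3 hr4 hSn hj (fun m => if E j m then (1 : ℝ) else 0)
      (fun m => by split_ifs <;> norm_num)
    have e0 : ∑ s ∈ Ico (β j) (β (j + 1)), (if E j s then (1 : ℝ) else 0) =
        (((Ico (β j) (β (j + 1))).filter (E j)).card : ℝ) := by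
      rw [← Finset.sum_filter, Finset.sum_const, nsmul_eq_mul, mul_one]
    rw [e0] at h1
    have e1 : DM * (q j * W / DM * ∑ d ∈ sta82_Bd n S β j, ρ d / W *
        (((Z j).filter fun x => g x d = z).card : ℝ) / ((1 - θ) * ((Z j).card : ℝ))) =
        q j * ((∑ d ∈ sta82_Bd n S β j, ρ d * (((Z j).filter fun x => g x d = z).card : ℝ)) /
          ((1 - θ) * ((Z j).card : ℝ))) := by
      have : ∑ d ∈ sta82_Bd n S β j, ρ d / W *
        (((Z j).filter fun x => g x d = z).card : ℝ) / ((1 - θ) * ((Z j).card : ℝ)) =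
        (∑ d ∈ sta82_Bd n S β j, ρ d * (((Z j).filter fun x => g x d = z).card : ℝ)) /
          ((1 - θ) * ((Z j).card : ℝ)) / W := by
        rw [Finset.sum_div, Finset.sum_div]
        refine Finset.sum_congr rfl fun d _ => ?_
        ring
      rw [this]
      field_simp
    rw [e1]
    have e2 : ∑ d ∈ sta82_Bd n S β j, ρ d * (((Z j).filter fun x => g x d = z).card : ℝ) ≤
        101 / 100 * (sg2 P (β j) * (((Ico (β j) (β (j + 1))).filter (E j)).card : ℝ)) := by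
      refine le_trans (Finset.sum_le_sum fun d hd => ?_) h1
      exact mul_le_mul_of_nonneg_left (hE j hj hqj d hd) (hρ0 j hj d hd)
    rcases Nat.eq_zero_or_pos (Z j).card with hz | hz
    · rw [hz]; simp
    · have hZ : (0 : ℝ) < (Z j).card := by exact_mod_cast hz
      have hs0 := sta82_sg_nn (P := P) (s := β j)
      have hq := hq0 j hj
      calc q j * ((∑ d ∈ sta82_Bd n S β j, ρ d * (((Z j).filter fun x => g x d = z).card : ℝ)) /
          ((1 - θ) * ((Z j).card : ℝ))) ≤ q j * ((101 / 100 * (sg2 P (β j) *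
            (((Ico (β j) (β (j + 1))).filter (E j)).card : ℝ))) / ((1 - θ) * ((Z j).card : ℝ))) := by
            apply mul_le_mul_of_nonneg_left _ hq
            exact div_le_div_of_nonneg_right e2 (by positivity)
        _ ≤ _ := by
            rw [← mul_div_assoc, div_le_iff₀ (by positivity)]
            have e3 : 102 / 100 * (q j * sg2 P (β j) * (((Ico (β j) (β (j + 1))).filter (E j)).card : ℝ) /
              ((Z j).card : ℝ)) * ((1 - θ) * ((Z j).card : ℝ)) = 102 / 100 * (1 - θ) *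
                (q j * sg2 P (β j) * (((Ico (β j) (β (j + 1))).filter (E j)).card : ℝ)) := by
              field_simp
            rw [e3]
            have e4 : 101 / 100 ≤ 102 / 100 * (1 - θ) := by norm_num at hθ1 ⊢; linarith
            have hA : 0 ≤ q j * sg2 P (β j) * (((Ico (β j) (β (j + 1))).filter (E j)).card : ℝ) := by positivity
            nlinarith
  · apply mul_le_mul_of_nonneg_left _ hDM.le
    calc as * _ ≤ as * B := mul_le_mul_of_nonneg_left hB has0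
      _ ≤ 1 * B := mul_le_mul_of_nonneg_right has1 hB0
      _ = B := one_mul B

/-- bulk leaf labels -/
theorem sta82_bulk_le {θ C : ℝ} (hθ1 : θ ≤ 1 / 10 ^ 6) {Zb Bb : Finset ℕ} {g : ℕ → ℕ → ℕ} {z : ℕ}
    (hB : 0 < Bb.card) (h1 : 1 / ((1 - θ) * (Zb.card : ℝ)) ≤ C)
    (hg : ∀ d ∈ Bb, (Zb.filter fun x => g x d = z).card ≤ 1) :
    ∑ d ∈ Bb, 1 / (Bb.card : ℝ) * ((Zb.filter fun x => g x d = z).card : ℝ) / ((1 - θ) * (Zb.card : ℝ)) ≤ C := by
  have h0 : (0 : ℝ) < 1 - θ := by norm_num at hθ1 ⊢; linarith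
  have hBR : (0 : ℝ) < Bb.card := by exact_mod_cast hB
  calc ∑ d ∈ Bb, 1 / (Bb.card : ℝ) * ((Zb.filter fun x => g x d = z).card : ℝ) / ((1 - θ) * (Zb.card : ℝ))
      ≤ ∑ d ∈ Bb, 1 / (Bb.card : ℝ) * C := by
        refine Finset.sum_le_sum fun d hd => ?_
        rw [mul_div_assoc]
        apply mul_le_mul_of_nonneg_left _ (by positivity)
        refine le_trans ?_ h1
        apply div_le_div_of_nonneg_right _ (by positivity)
        exact_mod_cast hg d hd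
    _ = C := by
        rw [Finset.sum_const, nsmul_eq_mul]
        field_simp

end Pool.Agent.GRC
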