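import Pool.Agent.Helper28.GRC.EXT

/-!
# GRC-STU: the law of one star with given zone and given set of differences

The centre `c` (parent `v`, label `y`) has leaves `Lf`.  Choose the differences `d l`, `l ∈ Lf`, independently with law `ρ/W` on `Bd`; then the centre uniformly in
`Adm d = {x ∈ Z : x ∈ X, ad x y ∈ S, g x (d l) ∈ X for all l}` (`|Adm d| ≥ (1-θ)|Z| > 0`); the leaf `l` gets the label `g x (d l)` (`g x d = x + d` or `x - d`).

Proof in words.  `Ω = (Lf → Bd) × Z` (subtypes), weight `∏ ρ (d l)/W · 1(x ∈ Adm d)/|Adm d|`.  Differences: `ad (g x d) x = d`, so the law of `ad (φ l) (φ c)` is `ρ/W` exactly (the sum over `x` gives 1).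
Centre: `1/|Adm d| ≤ 1/((1-θ)|Z|)`.  Leaf label: `∑_d ρ d/W · #{x ∈ Z : g x d = z}/((1-θ)|Z|)`.  JOINT: `A ∋ c`: the labels of `A` determine `x` and the `d l`, `l ∈ A`: `≤ (2/|Z|) (u/2)^(|A|-1)`, `2/|Z| ≤ u`;
`c ∉ A ≠ ∅`: sum over `x ∈ Z`: `≤ |Z| · 1/((1-θ)|Z|) · (u/2)^|A| ≤ 2 (u/2)^|A| ≤ u^|A|`.
-/

set_option autoImplicit false

namespace Pool.Agent.GRC

open Finset Pool.Agent.SEM

theorem h34_piSum {ι β : Type} [Fintype ι] [DecidableEq ι] [Fintype β] (a : ι → β → ℝ) :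
    ∑ d : ι → β, ∏ l, a l (d l) = ∏ l, ∑ b, a l b := by
  rw [Finset.prod_univ_sum, Fintype.piFinset_univ]

/-- expectation of a function of one coordinate -/
theorem h34_pi_one {ι β : Type} [Fintype ι] [DecidableEq ι] [Fintype β] (q : β → ℝ)
    (hq : ∑ b, q b = 1) (l0 : ι) (F : β → ℝ) :
    ∑ d : ι → β, (∏ l, q (d l)) * F (d l0) = ∑ b, q b * F b := by
  have h1 : ∀ d : ι → β, (∏ l, q (d l)) * F (d l0) =
      ∏ l, (q (d l) * if l = l0 then F (d l) else 1) := by
    intro d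
    rw [Finset.prod_mul_distrib, Finset.prod_ite_eq' Finset.univ l0 (fun l => F (d l))]
    simp
  simp only [h1]
  rw [h34_piSum (fun l b => q b * if l = l0 then F b else 1)]
  have h2 : ∀ l : ι, ∑ b, (q b * if l = l0 then F b else 1) =
      if l = l0 then ∑ b, q b * F b else 1 := by
    intro l
    split_ifs with h
    · rfl
    · simpa using hq
  simp only [h2]
  rw [Finset.prod_ite_eq' Finset.univ l0 (fun _ => ∑ b, q b * F b)]
  simp

/-- joint bound for several coordinates -/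
theorem h34_pi_joint {ι β : Type} [Fintype ι] [DecidableEq ι] [Fintype β] (q : β → ℝ)
    (hq0 : ∀ b, 0 ≤ q b) (hq : ∑ b, q b = 1) (B : Finset ι) (T : ι → β → Prop)
    [∀ l b, Decidable (T l b)] (w : ℝ) (hw : ∀ b, q b ≤ w) (hw0 : 0 ≤ w)
    (hT : ∀ l ∈ B, ∀ b b', T l b → T l b' → b = b') :
    ∑ d : ι → β, (∏ l, q (d l)) * (if ∀ l ∈ B, T l (d l) then 1 else 0) ≤ w ^ B.card := by
  have h1 : ∀ d : ι → β, (∏ l, q (d l)) * (if ∀ l ∈ B, T l (d l) then (1:ℝ) else 0) =
      ∏ l, (q (d l) * if l ∈ B then (if T l (d l) then 1 else 0) else 1) := by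
    intro d
    rw [Finset.prod_mul_distrib]
    congr 1
    split_ifs with h
    · symm
      refine Finset.prod_eq_one fun l _ => ?_
      split_ifs with h1 h2
      · rfl
      · exact absurd (h l h1) h2
      · rfl
    · push Not at h
      obtain ⟨l, hl, hl'⟩ := h
      symm
      refine Finset.prod_eq_zero (Finset.mem_univ l) ?_
      rw [if_pos hl, if_neg hl']
  simp only [h1]
  rw [h34_piSum (fun l b => q b * if l ∈ B then (if T l b then 1 else 0) else 1)]
  have h2 : ∀ l : ι, ∑ b, (q b * if l ∈ B then (if T l b then (1:ℝ) else 0) else 1) ≤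
      if l ∈ B then w else 1 := by
    intro l
    split_ifs with h
    · by_cases hex : ∃ b, T l b
      · obtain ⟨b0, hb0⟩ := hex
        rw [Finset.sum_eq_single b0]
        · rw [if_pos hb0, mul_one]; exact hw b0
        · intro b _ hb
          rw [if_neg (fun h' => hb (hT l h b b0 h' hb0)), mul_zero]
        · intro h'; exact absurd (Finset.mem_univ b0) h'
      · push Not at hex
        refine le_of_eq_of_le (Finset.sum_eq_zero fun b _ => ?_) hw0
        rw [if_neg (hex b), mul_zero]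
    · simp only [mul_one]; exact hq.le
  have h3 : ∀ l : ι, 0 ≤ ∑ b, (q b * if l ∈ B then (if T l b then (1:ℝ) else 0) else 1) := by
    intro l
    refine Finset.sum_nonneg fun b _ => mul_nonneg (hq0 b) ?_
    split_ifs <;> norm_num
  calc ∏ l, ∑ b, (q b * if l ∈ B then (if T l b then (1:ℝ) else 0) else 1)
      ≤ ∏ l, (if l ∈ B then w else 1) := Finset.prod_le_prod (fun l _ => h3 l) fun l _ => h2 l
    _ = w ^ B.card := by
        rw [Finset.prod_ite_mem]
        simp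

/-- admissible positions of the centre -/
def h34Adm (X S Z : Finset ℕ) (y : ℕ) (g : ℕ → ℕ → ℕ) (D' : Finset ℕ) : Finset ℕ :=
  Z.filter fun x => x ∈ X ∧ ad x y ∈ S ∧ ∀ d ∈ D', g x d ∈ X

noncomputable def h34kap (X S Z : Finset ℕ) (y : ℕ) (g : ℕ → ℕ → ℕ) (D' : Finset ℕ) (x : ℕ) : ℝ :=
  if x ∈ h34Adm X S Z y g D' then 1 / ((h34Adm X S Z y g D').card : ℝ) else 0

def h34img {Bd Lf : Finset ℕ} (d : ↥Lf → ↥Bd) : Finset ℕ := univ.image fun l => (d l : ℕ)

def h34Phi {Bd Lf : Finset ℕ} (c : ℕ) (g : ℕ → ℕ → ℕ) (d : ↥Lf → ↥Bd) (x : ℕ) (j : ℕ) : ℕ :=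
  if j = c then x else if h : j ∈ Lf then g x (d ⟨j, h⟩) else 0

noncomputable def h34Star (X S Z Bd Lf : Finset ℕ) (c y : ℕ) (ρ : ℕ → ℝ) (g : ℕ → ℕ → ℕ) : FL where
  Ω := (↥Lf → ↥Bd) × ↥Z
  fin := inferInstance
  wt := fun ω => (∏ l, ρ (ω.1 l) / ∑ d ∈ Bd, ρ d) * h34kap X S Z y g (h34img ω.1) ω.2
  Φ := fun ω => h34Phi c g ω.1 ω.2

theorem h34Star_Ex (X S Z Bd Lf : Finset ℕ) (c y : ℕ) (ρ : ℕ → ℝ) (g : ℕ → ℕ → ℕ)
    (F : (ℕ → ℕ) → ℝ) : (h34Star X S Z Bd Lf c y ρ g).Ex F =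
    ∑ d : ↥Lf → ↥Bd, (∏ l, ρ (d l) / ∑ d ∈ Bd, ρ d) *
      ∑ x ∈ Z, h34kap X S Z y g (h34img d) x * F (h34Phi c g d x) := by
  unfold FL.Ex h34Star
  simp only []
  rw [Fintype.sum_prod_type]
  refine Finset.sum_congr rfl fun d _ => ?_
  rw [← Finset.sum_coe_sort Z (fun x => h34kap X S Z y g (h34img d) x * F (h34Phi c g d x)),
    Finset.mul_sum]
  refine Finset.sum_congr rfl fun x _ => ?_
  ring

theorem starU {p : ℕ → ℕ} {X S Z Bd Lf : Finset ℕ} {c v y : ℕ} {ρ : ℕ → ℝ} {θ u : ℝ} (g : ℕ → ℕ → ℕ)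
    (hg : ∀ x ∈ Z, ∀ d ∈ Bd, ad (g x d) x = d) (hcv : p c = v) (hc : c ≠ v) (hcL : c ∉ Lf)
    (hLf : ∀ l ∈ Lf, p l = c) (hBd : Bd ⊆ S) (hρ : ∀ d ∈ Bd, 0 ≤ ρ d) (hW : 0 < ∑ d ∈ Bd, ρ d)
    (hZ : 0 < Z.card) (hθ : 0 ≤ θ) (hθ1 : θ ≤ 1 / 2)
    (hadm : ∀ D' ⊆ Bd, D'.card ≤ Lf.card → (1 - θ) * (Z.card : ℝ) ≤
      ((Z.filter fun x => x ∈ X ∧ ad x y ∈ S ∧ ∀ d ∈ D', g x d ∈ X).card : ℝ))
    (hu1 : ∀ d ∈ Bd, ρ d / (∑ d ∈ Bd, ρ d) ≤ u / 2) (hu2 : 2 / (Z.card : ℝ) ≤ u) :
    ∃ L : FL, UK p X S (insert c Lf) v y u L ∧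
      (∀ x, L.Pr (fun φ => φ c = x) ≤ if x ∈ Z then 1 / ((1 - θ) * (Z.card : ℝ)) else 0) ∧
      (∀ l ∈ Lf, ∀ s, L.Pr (fun φ => ad (φ l) (φ c) = s) = if s ∈ Bd then ρ s / (∑ d ∈ Bd, ρ d) else 0) ∧
      (∀ l ∈ Lf, ∀ z, L.Pr (fun φ => φ l = z) ≤ ∑ d ∈ Bd, ρ d / (∑ d ∈ Bd, ρ d) *
        ((Z.filter fun x => g x d = z).card : ℝ) / ((1 - θ) * (Z.card : ℝ))) := by
  classical
  obtain ⟨W, hWd⟩ : ∃ W : ℝ, W = ∑ d ∈ Bd, ρ d := ⟨_, rfl⟩
  have hZr : (0:ℝ) < Z.card := by exact_mod_cast hZ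
  have h1θ : 0 < 1 - θ := by linarith
  obtain ⟨K, hK⟩ : ∃ K : ℝ, K = 1 / ((1 - θ) * (Z.card : ℝ)) := ⟨_, rfl⟩
  have hKpos : 0 < K := by rw [hK]; positivity
  have hKZ : K * Z.card ≤ 2 := by
    rw [hK, div_mul_eq_mul_div, one_mul, div_le_iff₀ (by positivity)]
    nlinarith
  have hKu : K ≤ u := by
    refine le_trans ?_ hu2
    rw [le_div_iff₀ hZr]; exact hKZ
  have hu0 : 0 ≤ u := hKpos.le.trans hKu
  -- the one-coordinate law
  obtain ⟨q, hq⟩ : ∃ q : ↥Bd → ℝ, ∀ b, q b = ρ b / W := ⟨_, fun _ => rfl⟩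
  have hq0 : ∀ b, 0 ≤ q b := fun b => by
    rw [hq]; exact div_nonneg (hρ b b.2) (by rw [hWd]; exact hW.le)
  have hq1 : ∑ b, q b = 1 := by
    simp only [hq]
    rw [← Finset.sum_div, Finset.sum_coe_sort Bd ρ, ← hWd, div_self]
    rw [hWd]; exact hW.ne'
  have hP0 : ∀ d : ↥Lf → ↥Bd, 0 ≤ ∏ l, q (d l) := fun d => Finset.prod_nonneg fun l _ => hq0 _
  have hP1 : ∑ d : ↥Lf → ↥Bd, ∏ l, q (d l) = 1 := by
    rw [h34_piSum (fun _ b => q b)]
    exact Finset.prod_eq_one fun _ _ => hq1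
  -- cards
  have hcard : ∀ d : ↥Lf → ↥Bd, (1 - θ) * (Z.card : ℝ) ≤ ((h34Adm X S Z y g (h34img d)).card : ℝ) := by
    intro d
    refine hadm _ ?_ ?_
    · intro s hs
      unfold h34img at hs
      simp only [mem_image, mem_univ, true_and] at hs
      obtain ⟨l, rfl⟩ := hs
      exact (d l).2
    · unfold h34img
      refine Finset.card_image_le.trans ?_
      simp
  have hkpos : ∀ d : ↥Lf → ↥Bd, (0:ℝ) < ((h34Adm X S Z y g (h34img d)).card : ℝ) := fun d =>
    lt_of_lt_of_le (by positivity) (hcard d)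
  have hk0 : ∀ (d : ↥Lf → ↥Bd) x, 0 ≤ h34kap X S Z y g (h34img d) x := by
    intro d x
    unfold h34kap
    split_ifs
    · exact (by have := hkpos d; positivity)
    · exact le_rfl
  have hkK : ∀ (d : ↥Lf → ↥Bd) x, h34kap X S Z y g (h34img d) x ≤ K := by
    intro d x
    unfold h34kap
    split_ifs
    · rw [hK]
      exact one_div_le_one_div_of_le (by positivity) (hcard d)
    · exact hKpos.le
  have hk1 : ∀ (d : ↥Lf → ↥Bd), ∑ x ∈ Z, h34kap X S Z y g (h34img d) x = 1 := by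
    intro d
    unfold h34kap
    rw [← Finset.sum_filter]
    have h1 : Z.filter (fun x => x ∈ h34Adm X S Z y g (h34img d)) = h34Adm X S Z y g (h34img d) := by
      ext x; simp only [mem_filter]
      constructor
      · exact fun h => h.2
      · exact fun h => ⟨(Finset.mem_filter.1 h).1, h⟩
    rw [h1, Finset.sum_const, nsmul_eq_mul, mul_one_div, div_self (hkpos d).ne']
  have hEx : ∀ F : (ℕ → ℕ) → ℝ, (h34Star X S Z Bd Lf c y ρ g).Ex F =
      ∑ d : ↥Lf → ↥Bd, (∏ l, q (d l)) *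
        ∑ x ∈ Z, h34kap X S Z y g (h34img d) x * F (h34Phi c g d x) := by
    intro F
    rw [h34Star_Ex, ← hWd]
    simp only [hq]
  have hPr : ∀ (P : (ℕ → ℕ) → Prop) [DecidablePred P], (h34Star X S Z Bd Lf c y ρ g).Pr P =
      ∑ d : ↥Lf → ↥Bd, (∏ l, q (d l)) *
        ∑ x ∈ Z, h34kap X S Z y g (h34img d) x * (if P (h34Phi c g d x) then (1:ℝ) else 0) := by
    intro P _
    unfold FL.Pr
    rw [hEx]
    refine Finset.sum_congr rfl fun d _ => ?_
    congr 1
    refine Finset.sum_congr rfl fun x _ => ?_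
    congr 1
    by_cases h : P (h34Phi c g d x)
    · rw [if_pos h, if_pos h]
    · rw [if_neg h, if_neg h]
  have hPhic : ∀ (d : ↥Lf → ↥Bd) x, h34Phi c g d x c = x := by
    intro d x; unfold h34Phi; rw [if_pos rfl]
  have hPhil : ∀ (d : ↥Lf → ↥Bd) x (l : ↥Lf), h34Phi c g d x l = g x (d l) := by
    intro d x l; unfold h34Phi
    rw [if_neg (fun h => hcL (by rw [← h]; exact l.2)), dif_pos l.2]
  have hginj : ∀ x ∈ Z, ∀ z, ∀ b b' : ↥Bd, g x b = z → g x b' = z → b = b' := by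
    intro x hx z b b' h1 h2
    apply Subtype.ext
    rw [← hg x hx b b.2, ← hg x hx b' b'.2, h1, h2]
  refine ⟨h34Star X S Z Bd Lf c y ρ g, ⟨?_, ?_, ?_, ?_, ?_⟩, ?_, ?_, ?_⟩
  · rintro ⟨d, x⟩
    show 0 ≤ (∏ l, ρ (d l) / ∑ d ∈ Bd, ρ d) * h34kap X S Z y g (h34img d) x
    have := hP0 d
    simp only [hq, hWd] at this
    exact mul_nonneg this (hk0 d x)
  · rw [hEx]
    simp only [mul_one, hk1]
    exact hP1
  · rintro ⟨d, x⟩ hω j hj
    have hω' : (∏ l, ρ (d l) / ∑ d ∈ Bd, ρ d) * h34kap X S Z y g (h34img d) x ≠ 0 := hω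
    have hk : h34kap X S Z y g (h34img d) x ≠ 0 := right_ne_zero_of_mul hω'
    have hx : (x:ℕ) ∈ h34Adm X S Z y g (h34img d) := by
      by_contra h; exact hk (by unfold h34kap; rw [if_neg h])
    have hx' := (Finset.mem_filter.1 hx).2
    show h34Phi c g d x j ∈ X
    rcases Finset.mem_insert.1 hj with rfl | hj
    · rw [hPhic]; exact hx'.1
    · rw [hPhil d x ⟨j, hj⟩]
      exact hx'.2.2 _ (Finset.mem_image.2 ⟨⟨j, hj⟩, mem_univ _, rfl⟩)
  · rintro ⟨d, x⟩ hω j hj
    have hω' : (∏ l, ρ (d l) / ∑ d ∈ Bd, ρ d) * h34kap X S Z y g (h34img d) x ≠ 0 := hω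
    have hk : h34kap X S Z y g (h34img d) x ≠ 0 := right_ne_zero_of_mul hω'
    have hx : (x:ℕ) ∈ h34Adm X S Z y g (h34img d) := by
      by_contra h; exact hk (by unfold h34kap; rw [if_neg h])
    have hx' := (Finset.mem_filter.1 hx).2
    show ad (h34Phi c g d x j) (if p j = v then y else h34Phi c g d x (p j)) ∈ S
    rcases Finset.mem_insert.1 hj with rfl | hj
    · rw [hPhic, if_pos hcv]; exact hx'.2.1
    · rw [hLf j hj, if_neg hc, hPhic, hPhil d x ⟨j, hj⟩, hg x x.2 _ (d ⟨j, hj⟩).2]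
      exact hBd (d ⟨j, hj⟩).2
  · -- joint
    intro A hA z
    have hPrA : (h34Star X S Z Bd Lf c y ρ g).Pr (fun φ => ∀ j ∈ A, φ j = z j) =
      ∑ d : ↥Lf → ↥Bd, (∏ l, q (d l)) *
        ∑ x ∈ Z, h34kap X S Z y g (h34img d) x *
          (if ∀ j ∈ A, h34Phi c g d x j = z j then (1:ℝ) else 0) := hPr _
    rw [hPrA]
    clear hPrA
    obtain ⟨B, hB⟩ : ∃ B : Finset ↥Lf, B = univ.filter fun l : ↥Lf => (l:ℕ) ∈ A := ⟨_, rfl⟩
    have hBcard : B.card = (A.erase c).card := by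
      rw [hB, ← Finset.card_map (Function.Embedding.subtype _)]
      congr 1
      ext j
      simp only [mem_map, mem_filter, mem_univ, true_and, Function.Embedding.coe_subtype, mem_erase]
      constructor
      · rintro ⟨l, hl, rfl⟩
        exact ⟨fun h => hcL (by rw [← h]; exact l.2), hl⟩
      · rintro ⟨h1, h2⟩
        have h3 : j ∈ Lf := by
          rcases Finset.mem_insert.1 (hA h2) with h | h
          · exact absurd h h1
          · exact h
        exact ⟨⟨j, h3⟩, h2, rfl⟩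
    have hjb : ∀ x ∈ Z, ∑ d : ↥Lf → ↥Bd, (∏ l, q (d l)) *
        (if ∀ l ∈ B, g x (d l) = z l then (1:ℝ) else 0) ≤ (u / 2) ^ (A.erase c).card := by
      intro x hx
      rw [← hBcard]
      refine h34_pi_joint q hq0 hq1 B (fun l b => g x b = z l) (u / 2) ?_ (by positivity) ?_
      · intro b; rw [hq, hWd]; exact hu1 b b.2
      · intro l _ b b' h1 h2; exact hginj x hx _ b b' h1 h2
    have himp : ∀ (d : ↥Lf → ↥Bd) x, (∀ j ∈ A, h34Phi c g d x j = z j) → ∀ l ∈ B, g x (d l) = z l := by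
      intro d x h l hl
      rw [← hPhil d x l]
      apply h
      rw [hB] at hl
      exact (Finset.mem_filter.1 hl).2
    by_cases hcA : c ∈ A
    · -- the centre is fixed
      have hcardA : A.card = (A.erase c).card + 1 := (Finset.card_erase_add_one hcA).symm
      by_cases hz : z c ∈ Z
      · calc ∑ d : ↥Lf → ↥Bd, (∏ l, q (d l)) * ∑ x ∈ Z, h34kap X S Z y g (h34img d) x *
              (if ∀ j ∈ A, h34Phi c g d x j = z j then (1:ℝ) else 0)
            ≤ ∑ d : ↥Lf → ↥Bd, (∏ l, q (d l)) *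
              (K * if ∀ l ∈ B, g (z c) (d l) = z l then (1:ℝ) else 0) := by
              refine Finset.sum_le_sum fun d _ => mul_le_mul_of_nonneg_left ?_ (hP0 d)
              rw [Finset.sum_eq_single (z c)]
              · refine mul_le_mul (hkK d _) ?_ (by split_ifs <;> norm_num) hKpos.le
                by_cases h : ∀ j ∈ A, h34Phi c g d (z c) j = z j
                · rw [if_pos h, if_pos (himp d _ h)]
                · rw [if_neg h]; split_ifs <;> norm_num
              · intro x _ hx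
                rw [if_neg, mul_zero]
                intro h
                exact hx (by rw [← h c hcA, hPhic])
              · intro h; exact absurd hz h
          _ = K * ∑ d : ↥Lf → ↥Bd, (∏ l, q (d l)) *
              (if ∀ l ∈ B, g (z c) (d l) = z l then (1:ℝ) else 0) := by
              rw [Finset.mul_sum]
              exact Finset.sum_congr rfl fun d _ => by ring
          _ ≤ u * (u / 2) ^ (A.erase c).card := by
              refine mul_le_mul hKu (hjb _ hz) (Finset.sum_nonneg fun d _ => ?_) hu0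
              exact mul_nonneg (hP0 d) (by split_ifs <;> norm_num)
          _ ≤ u * u ^ (A.erase c).card := by gcongr; linarith
          _ = u ^ A.card := by rw [hcardA, pow_succ]; ring
      · refine le_of_eq_of_le (Finset.sum_eq_zero fun d _ => ?_) (by positivity)
        rw [Finset.sum_eq_zero, mul_zero]
        intro x hx
        rw [if_neg, mul_zero]
        intro h
        exact hz (by rw [← h c hcA, hPhic]; exact hx)
    · rw [Finset.erase_eq_of_notMem hcA] at hjb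
      rcases Finset.eq_empty_or_nonempty A with rfl | hne
      · simp only [notMem_empty, false_imp_iff, implies_true, if_true, mul_one, hk1, card_empty,
          pow_zero]
        exact hP1.le
      · calc ∑ d : ↥Lf → ↥Bd, (∏ l, q (d l)) * ∑ x ∈ Z, h34kap X S Z y g (h34img d) x *
              (if ∀ j ∈ A, h34Phi c g d x j = z j then (1:ℝ) else 0)
            ≤ ∑ d : ↥Lf → ↥Bd, (∏ l, q (d l)) * ∑ x ∈ Z, K *
              (if ∀ l ∈ B, g x (d l) = z l then (1:ℝ) else 0) := by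
              refine Finset.sum_le_sum fun d _ => mul_le_mul_of_nonneg_left ?_ (hP0 d)
              refine Finset.sum_le_sum fun x _ => ?_
              refine mul_le_mul (hkK d _) ?_ (by split_ifs <;> norm_num) hKpos.le
              by_cases h : ∀ j ∈ A, h34Phi c g d x j = z j
              · rw [if_pos h, if_pos (himp d _ h)]
              · rw [if_neg h]; split_ifs <;> norm_num
          _ = K * ∑ x ∈ Z, ∑ d : ↥Lf → ↥Bd, (∏ l, q (d l)) *
              (if ∀ l ∈ B, g x (d l) = z l then (1:ℝ) else 0) := by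
              simp only [Finset.mul_sum]
              rw [Finset.sum_comm]
              exact Finset.sum_congr rfl fun x _ => Finset.sum_congr rfl fun d _ => by ring
          _ ≤ K * ∑ x ∈ Z, (u / 2) ^ A.card := by
              gcongr with x hx
              exact hjb x hx
          _ = (K * Z.card) * (u / 2) ^ A.card := by
              rw [Finset.sum_const, nsmul_eq_mul]; ring
          _ ≤ 2 * (u / 2) ^ A.card := by gcongr
          _ ≤ u ^ A.card := by
              obtain ⟨k, hk⟩ : ∃ k, A.card = k + 1 :=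
                ⟨A.card - 1, by have := Finset.card_pos.2 hne; omega⟩
              rw [hk, pow_succ, pow_succ]
              have : (u / 2) ^ k ≤ u ^ k := by gcongr; linarith
              nlinarith
  · intro x
    have hPrA : (h34Star X S Z Bd Lf c y ρ g).Pr (fun φ => φ c = x) =
      ∑ d : ↥Lf → ↥Bd, (∏ l, q (d l)) *
        ∑ x' ∈ Z, h34kap X S Z y g (h34img d) x' *
          (if h34Phi c g d x' c = x then (1:ℝ) else 0) := hPr _
    rw [hPrA, ← hK]
    clear hPrA
    split_ifs with hx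
    · calc ∑ d : ↥Lf → ↥Bd, (∏ l, q (d l)) * ∑ x' ∈ Z, h34kap X S Z y g (h34img d) x' *
            (if h34Phi c g d x' c = x then (1:ℝ) else 0)
          ≤ ∑ d : ↥Lf → ↥Bd, (∏ l, q (d l)) * K := by
            refine Finset.sum_le_sum fun d _ => mul_le_mul_of_nonneg_left ?_ (hP0 d)
            rw [Finset.sum_eq_single x]
            · rw [hPhic, if_pos rfl, mul_one]; exact hkK d x
            · intro x' _ hx'
              rw [hPhic, if_neg hx', mul_zero]
            · intro h; exact absurd hx h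
        _ = K := by rw [← Finset.sum_mul, hP1, one_mul]
    · refine le_of_eq (Finset.sum_eq_zero fun d _ => ?_)
      rw [Finset.sum_eq_zero, mul_zero]
      intro x' hx'
      rw [hPhic, if_neg (fun h => hx (by rw [← h]; exact hx')), mul_zero]
  · intro l hl s
    have hPrA : (h34Star X S Z Bd Lf c y ρ g).Pr (fun φ => ad (φ l) (φ c) = s) =
      ∑ d : ↥Lf → ↥Bd, (∏ l, q (d l)) *
        ∑ x ∈ Z, h34kap X S Z y g (h34img d) x *
          (if ad (h34Phi c g d x l) (h34Phi c g d x c) = s then (1:ℝ) else 0) := hPr _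
    rw [hPrA, ← hWd]
    clear hPrA
    have h1 : ∀ d : ↥Lf → ↥Bd, ∑ x ∈ Z, h34kap X S Z y g (h34img d) x *
        (if ad (h34Phi c g d x l) (h34Phi c g d x c) = s then (1:ℝ) else 0) =
        if ((d ⟨l, hl⟩ : ↥Bd) : ℕ) = s then 1 else 0 := by
      intro d
      have h2 : ∀ x ∈ Z, h34kap X S Z y g (h34img d) x *
          (if ad (h34Phi c g d x l) (h34Phi c g d x c) = s then (1:ℝ) else 0) =
          h34kap X S Z y g (h34img d) x * (if ((d ⟨l, hl⟩ : ↥Bd) : ℕ) = s then 1 else 0) := by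
        intro x hx
        rw [hPhic, hPhil d x ⟨l, hl⟩, hg x hx _ (d ⟨l, hl⟩).2]
      rw [Finset.sum_congr rfl h2, ← Finset.sum_mul, hk1, one_mul]
    simp only [h1]
    have h5 := h34_pi_one q hq1 (⟨l, hl⟩ : ↥Lf) (fun b : ↥Bd => if (b:ℕ) = s then (1:ℝ) else 0)
    refine h5.trans ?_
    simp only [hq]
    rw [Finset.sum_coe_sort Bd (fun b => ρ b / W * if b = s then (1:ℝ) else 0)]
    simp only [mul_ite, mul_one, mul_zero]
    rw [Finset.sum_ite_eq' Bd s (fun b => ρ b / W)]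
  · intro l hl z
    have hPrA : (h34Star X S Z Bd Lf c y ρ g).Pr (fun φ => φ l = z) =
      ∑ d : ↥Lf → ↥Bd, (∏ l, q (d l)) *
        ∑ x ∈ Z, h34kap X S Z y g (h34img d) x *
          (if h34Phi c g d x l = z then (1:ℝ) else 0) := hPr _
    rw [hPrA, ← hWd]
    clear hPrA
    have h6 := h34_pi_one q hq1 (⟨l, hl⟩ : ↥Lf)
      (fun b : ↥Bd => K * ((Z.filter fun x => g x b = z).card : ℝ))
    calc ∑ d : ↥Lf → ↥Bd, (∏ l, q (d l)) * ∑ x ∈ Z, h34kap X S Z y g (h34img d) x *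
          (if h34Phi c g d x l = z then (1:ℝ) else 0)
        ≤ ∑ d : ↥Lf → ↥Bd, (∏ l, q (d l)) *
          (K * ((Z.filter fun x => g x (d ⟨l, hl⟩) = z).card : ℝ)) := by
          refine Finset.sum_le_sum fun d _ => mul_le_mul_of_nonneg_left ?_ (hP0 d)
          calc ∑ x ∈ Z, h34kap X S Z y g (h34img d) x * (if h34Phi c g d x l = z then (1:ℝ) else 0)
              ≤ ∑ x ∈ Z, K * (if g x (d ⟨l, hl⟩) = z then (1:ℝ) else 0) := by
                refine Finset.sum_le_sum fun x _ => ?_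
                rw [hPhil d x ⟨l, hl⟩]
                exact mul_le_mul_of_nonneg_right (hkK d x) (by split_ifs <;> norm_num)
            _ = K * ((Z.filter fun x => g x (d ⟨l, hl⟩) = z).card : ℝ) := by
                rw [← Finset.mul_sum, Finset.card_filter]; push_cast; rfl
      _ = ∑ b : ↥Bd, q b * (K * ((Z.filter fun x => g x b = z).card : ℝ)) := h6
      _ = ∑ d ∈ Bd, ρ d / W * (K * ((Z.filter fun x => g x d = z).card : ℝ)) := by
          simp only [hq]
          rw [Finset.sum_coe_sort Bd (fun b => ρ b / W * (K * ((Z.filter fun x => g x b = z).card : ℝ)))]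
      _ ≤ _ := by
          refine le_of_eq (Finset.sum_congr rfl fun d _ => ?_)
          rw [hK]; ring

end Pool.Agent.GRC
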