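import Pool.Agent.Helper28.GRC.Defs
import Pool.Agent.Helper73.SEM.T2

/-!
# GRC-T2: cutting a tree into small pieces with at most one exit, with a forced set `F ⊆ R`

Copy of `SEM.cut` (Helper73/SEM/T2.lean, its general lemmas `T2_rec`, `T2_top`, `T2_sum`, `T2_istop`, `T2_refine`, `T2_piece`, `T2_total` can be used) with one more reason for marking.
FIRST PASS, bottom up: mark `v` iff `v = 0` or `K < s v` or `2 ≤ h v` or `v ∈ F` (`s v` = 1 + the sum of `s w` over the unmarked children, `h v` = number of exits).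
Counting: at most `n/K` vertices are marked with `K < s v`, at most `|R₀|/2` with `2 ≤ h v`, so `|R₀| ≤ 1 + n/K + |F| + |R₀|/2`.
SECOND PASS as in SEM: add `v ∉ R₀` with `p v ∈ R₀` which has a marked child; `|R| ≤ 2 |R₀|`.
If all the children of `v` are childless, `|chl v| < K`, `v ≠ 0`, `v ∉ F` and no child is in `F`, then `s v ≤ K`, `h v = 0`, so `v` and its children are not marked, and they are not added in
the second pass (no marked child).
Proved by helper32.
-/

set_option autoImplicit false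

namespace Pool.Agent.GRC

open Finset Pool.Agent.SEM

theorem cutF (n : ℕ) (p : ℕ → ℕ) (K : ℕ) (F : Finset ℕ) (hp : Par n p) (hn : 0 < n) (hK : 2 ≤ K)
    (hF : F ⊆ range n) :
    ∃ (R : Finset ℕ) (top : ℕ → ℕ), Dec n p K R top ∧ F ⊆ R ∧ R.card * K ≤ 4 * n + 4 * K + 4 * K * F.card ∧
      ∀ v, 0 < v → v < n → v ∉ F → (∀ u ∈ chl n p v, u ∉ F ∧ chl n p u = ∅) → (chl n p v).card < K →
        v ∉ R ∧ ∀ u ∈ chl n p v, u ∉ R := by
  classical
  -- the recursion
  obtain ⟨sh, hsh⟩ := T2_rec (α := ℕ × ℕ) n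
    (fun v g => (1 + ∑ w ∈ (chl n p v).filter
        (fun w => ¬ (w = 0 ∨ K < (g w).1 ∨ 2 ≤ (g w).2 ∨ w ∈ F)), (g w).1,
      ((chl n p v).filter (fun w => w = 0 ∨ K < (g w).1 ∨ 2 ≤ (g w).2 ∨ w ∈ F)).card +
      ∑ w ∈ (chl n p v).filter
        (fun w => ¬ (w = 0 ∨ K < (g w).1 ∨ 2 ≤ (g w).2 ∨ w ∈ F)), (g w).2)) (by
      intro v g g' hgg
      have hc : ∀ w ∈ chl n p v, g w = g' w := by
        intro w hw
        simp only [chl, mem_filter, mem_range] at hw
        apply hgg w _ hw.1
        have := hp w hw.2.1 hw.1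
        omega
      have e1 : (chl n p v).filter (fun w => w = 0 ∨ K < (g w).1 ∨ 2 ≤ (g w).2 ∨ w ∈ F) =
          (chl n p v).filter (fun w => w = 0 ∨ K < (g' w).1 ∨ 2 ≤ (g' w).2 ∨ w ∈ F) :=
        Finset.filter_congr fun w hw => by rw [hc w hw]
      have e2 : (chl n p v).filter (fun w => ¬ (w = 0 ∨ K < (g w).1 ∨ 2 ≤ (g w).2 ∨ w ∈ F)) =
          (chl n p v).filter (fun w => ¬ (w = 0 ∨ K < (g' w).1 ∨ 2 ≤ (g' w).2 ∨ w ∈ F)) :=
        Finset.filter_congr fun w hw => by rw [hc w hw]
      have e3 : ∑ w ∈ (chl n p v).filter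
          (fun w => ¬ (w = 0 ∨ K < (g' w).1 ∨ 2 ≤ (g' w).2 ∨ w ∈ F)), (g w).1 =
          ∑ w ∈ (chl n p v).filter
          (fun w => ¬ (w = 0 ∨ K < (g' w).1 ∨ 2 ≤ (g' w).2 ∨ w ∈ F)), (g' w).1 :=
        Finset.sum_congr rfl fun w hw => by rw [hc w (mem_filter.1 hw).1]
      have e4 : ∑ w ∈ (chl n p v).filter
          (fun w => ¬ (w = 0 ∨ K < (g' w).1 ∨ 2 ≤ (g' w).2 ∨ w ∈ F)), (g w).2 =
          ∑ w ∈ (chl n p v).filter
          (fun w => ¬ (w = 0 ∨ K < (g' w).1 ∨ 2 ≤ (g' w).2 ∨ w ∈ F)), (g' w).2 :=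
        Finset.sum_congr rfl fun w hw => by rw [hc w (mem_filter.1 hw).1]
      simp only [e1, e2, e3, e4])
  set s : ℕ → ℕ := fun v => (sh v).1 with hs
  set h : ℕ → ℕ := fun v => (sh v).2 with hh
  set R₀ : Finset ℕ := (range n).filter (fun w => w = 0 ∨ K < s w ∨ 2 ≤ h w ∨ w ∈ F) with hR₀
  have hR₀s : R₀ ⊆ range n := filter_subset _ _
  have h0 : 0 ∈ R₀ := by
    rw [hR₀, mem_filter, mem_range]; exact ⟨hn, Or.inl rfl⟩
  have hmem : ∀ w, w < n → (w ∈ R₀ ↔ (w = 0 ∨ K < (sh w).1 ∨ 2 ≤ (sh w).2 ∨ w ∈ F)) := by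
    intro w hw
    rw [hR₀, mem_filter, mem_range]
    exact ⟨fun x => x.2, fun x => ⟨hw, x⟩⟩
  have hchl : ∀ v w, w ∈ chl n p v → w < n := by
    intro v w hw
    simp only [chl, mem_filter, mem_range] at hw
    exact hw.1
  have hsrec : ∀ v, v < n → s v = 1 + ∑ w ∈ (chl n p v).filter (fun w => w ∉ R₀), s w := by
    intro v hv
    have := hsh v hv
    have h1 : s v = 1 + ∑ w ∈ (chl n p v).filter
        (fun w => ¬ (w = 0 ∨ K < (sh w).1 ∨ 2 ≤ (sh w).2 ∨ w ∈ F)), (sh w).1 := by
      show (sh v).1 = _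
      rw [this]
    rw [h1]
    congr 1
    refine Finset.sum_congr ?_ fun _ _ => rfl
    exact Finset.filter_congr fun w hw => by rw [hmem w (hchl v w hw)]
  have hhrec : ∀ v, v < n → h v = ((chl n p v).filter (fun w => w ∈ R₀)).card +
      ∑ w ∈ (chl n p v).filter (fun w => w ∉ R₀), h w := by
    intro v hv
    have := hsh v hv
    have h1 : h v = ((chl n p v).filter (fun w => w = 0 ∨ K < (sh w).1 ∨ 2 ≤ (sh w).2 ∨ w ∈ F)).card +
        ∑ w ∈ (chl n p v).filter
        (fun w => ¬ (w = 0 ∨ K < (sh w).1 ∨ 2 ≤ (sh w).2 ∨ w ∈ F)), (sh w).2 := by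
      show (sh v).2 = _
      rw [this]
    rw [h1]
    congr 1
    · congr 1
      exact Finset.filter_congr fun w hw => by rw [hmem w (hchl v w hw)]
    · refine Finset.sum_congr ?_ fun _ _ => rfl
      exact Finset.filter_congr fun w hw => by rw [hmem w (hchl v w hw)]
  -- totals
  have htots : ∑ v ∈ R₀, s v = n := by
    rw [T2_total n p R₀ hp h0 hR₀s s (fun _ => 1) hsrec]
    simp
  have hexit : ∑ v ∈ range n, ((chl n p v).filter (fun w => w ∈ R₀)).card = R₀.card - 1 := by
    rw [← Finset.card_erase_of_mem h0]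
    rw [Finset.card_eq_sum_card_fiberwise (s := R₀.erase 0) (t := range n) (f := p)]
    · refine Finset.sum_congr rfl fun v hv => ?_
      congr 1
      ext w
      simp only [chl, mem_filter, mem_range, mem_erase]
      constructor
      · rintro ⟨⟨h1, h2, h3⟩, h4⟩
        exact ⟨⟨by omega, h4⟩, h3⟩
      · rintro ⟨⟨h1, h2⟩, h3⟩
        exact ⟨⟨mem_range.1 (hR₀s h2), by omega, h3⟩, h2⟩
    · intro w hw
      have hw' : w ∈ R₀.erase 0 := hw
      rw [mem_erase] at hw'
      have h1 := mem_range.1 (hR₀s hw'.2)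
      have := hp w (by omega) h1
      simp only [coe_range, Set.mem_Iio]
      omega
  have htoth : ∑ v ∈ R₀, h v = R₀.card - 1 := by
    rw [T2_total n p R₀ hp h0 hR₀s h (fun v => ((chl n p v).filter (fun w => w ∈ R₀)).card)
      hhrec, hexit]
  -- counting
  have hcard : R₀.card * K + K ≤ 2 * n + 2 * K + 2 * K * F.card := by
    set a := (R₀.filter (fun v => K < s v)).card with ha
    set b := (R₀.filter (fun v => 2 ≤ h v)).card with hb
    have h1 : a * K ≤ n := by
      calc a * K = ∑ v ∈ R₀.filter (fun v => K < s v), K := by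
            rw [Finset.sum_const, smul_eq_mul]
        _ ≤ ∑ v ∈ R₀.filter (fun v => K < s v), s v :=
            Finset.sum_le_sum fun v hv => (mem_filter.1 hv).2.le
        _ ≤ ∑ v ∈ R₀, s v := Finset.sum_le_sum_of_subset (filter_subset _ _)
        _ = n := htots
    have h2 : b * 2 ≤ R₀.card - 1 := by
      calc b * 2 = ∑ v ∈ R₀.filter (fun v => 2 ≤ h v), 2 := by
            rw [Finset.sum_const, smul_eq_mul]
        _ ≤ ∑ v ∈ R₀.filter (fun v => 2 ≤ h v), h v :=
            Finset.sum_le_sum fun v hv => (mem_filter.1 hv).2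
        _ ≤ ∑ v ∈ R₀, h v := Finset.sum_le_sum_of_subset (filter_subset _ _)
        _ = R₀.card - 1 := htoth
    have h3 : R₀.card ≤ 1 + a + b + F.card := by
      have : R₀ ⊆ (({0} ∪ R₀.filter (fun v => K < s v)) ∪ R₀.filter (fun v => 2 ≤ h v)) ∪ F := by
        intro v hv
        have h4 := (mem_filter.1 hv).2
        simp only [mem_union, mem_singleton, mem_filter]
        rcases h4 with h4 | h4 | h4 | h4
        · exact Or.inl (Or.inl (Or.inl h4))
        · exact Or.inl (Or.inl (Or.inr ⟨hv, h4⟩))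
        · exact Or.inl (Or.inr ⟨hv, h4⟩)
        · exact Or.inr h4
      calc R₀.card ≤ _ := Finset.card_le_card this
        _ ≤ (({0} ∪ R₀.filter (fun v => K < s v)) ∪ R₀.filter (fun v => 2 ≤ h v)).card + F.card :=
            Finset.card_union_le _ _
        _ ≤ (({0} ∪ R₀.filter (fun v => K < s v)).card + b) + F.card := by
            gcongr; exact Finset.card_union_le _ _
        _ ≤ ((({0} : Finset ℕ).card + a) + b) + F.card := by
            gcongr; exact Finset.card_union_le _ _
        _ = 1 + a + b + F.card := by simp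
    have h5 : R₀.card ≤ 2 * a + 1 + 2 * F.card := by omega
    nlinarith [Nat.mul_le_mul_right K h5]
  -- second pass
  set A : Finset ℕ := (range n).filter (fun v => v ∉ R₀ ∧ p v ∈ R₀ ∧ ∃ r ∈ R₀, 0 < r ∧ p r = v)
    with hA
  have hAcard : A.card ≤ R₀.card := by
    calc A.card ≤ (R₀.image p).card := by
          apply Finset.card_le_card
          intro v hv
          obtain ⟨r, hr, _, hrv⟩ := (mem_filter.1 hv).2.2.2
          exact mem_image.2 ⟨r, hr, hrv⟩
      _ ≤ R₀.card := Finset.card_image_le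
  set R := R₀ ∪ A with hRdef
  have hRR : R₀ ⊆ R := subset_union_left
  obtain ⟨top₀, ht₀⟩ := T2_top n p R₀ hp h0
  obtain ⟨top, ht⟩ := T2_top n p R hp (hRR h0)
  have href := T2_refine n p R₀ R top₀ top hp h0 hRR ht₀ ht
  have htop₀ := T2_istop n p R₀ top₀ hp h0 ht₀
  -- sizes
  have hsize₀ : ∀ t, ((range n).filter fun v => v ∉ R₀ ∧ top₀ v = t).card ≤ K := by
    intro t
    rcases Finset.eq_empty_or_nonempty ((range n).filter fun v => v ∉ R₀ ∧ top₀ v = t) with
      he | ⟨v, hv⟩
    · rw [he]; simp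
    · rw [mem_filter, mem_range] at hv
      obtain ⟨hv1, hv2, hv3⟩ := hv
      obtain ⟨k1, k2, k3, k4⟩ := htop₀ v hv1 hv2
      rw [hv3] at k1 k2 k3
      have := T2_piece n p R₀ top₀ hp h0 ht₀ s (fun _ => 1) hsrec t k1 k2 k3
      rw [Finset.sum_const, smul_eq_mul, mul_one] at this
      rw [← this]
      by_contra hc
      apply k2
      rw [hmem t k1]
      right; left
      exact not_le.1 hc
  have hexit₀ : ∀ r ∈ R₀, ∀ r' ∈ R₀, 0 < r → 0 < r' → p r ∉ R₀ → p r' ∉ R₀ →
      top₀ (p r) = top₀ (p r') → r = r' := by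
    intro r hr r' hr' hr0 hr'0 hpr hpr' htt
    have hrn := mem_range.1 (hR₀s hr)
    have hr'n := mem_range.1 (hR₀s hr')
    have hprn : p r < n := by have := hp r hr0 hrn; omega
    have hpr'n : p r' < n := by have := hp r' hr'0 hr'n; omega
    obtain ⟨k1, k2, k3, k4⟩ := htop₀ (p r) hprn hpr
    have h1 := T2_piece n p R₀ top₀ hp h0 ht₀ h
      (fun v => ((chl n p v).filter (fun w => w ∈ R₀)).card) hhrec (top₀ (p r)) k1 k2 k3
    have h2 : h (top₀ (p r)) ≤ 1 := by
      by_contra hc
      apply k2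
      rw [hmem _ k1]
      right; right; left
      have : 2 ≤ h (top₀ (p r)) := by omega
      exact this
    by_contra hne
    set P := (range n).filter (fun v => v ∉ R₀ ∧ top₀ v = top₀ (p r)) with hP
    have h3 : ∑ v ∈ P, ((chl n p v).filter (fun w => w ∈ R₀)).card =
        (P.biUnion fun v => (chl n p v).filter (fun w => w ∈ R₀)).card := by
      rw [Finset.card_biUnion]
      intro v hv w hw hvw
      rw [Function.onFun, Finset.disjoint_left]
      intro x hx hx'
      simp only [chl, mem_filter] at hx hx'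
      exact hvw (hx.1.2.2.symm.trans hx'.1.2.2)
    have h4 : ({r, r'} : Finset ℕ) ⊆ P.biUnion fun v => (chl n p v).filter (fun w => w ∈ R₀) := by
      intro x hx
      rw [mem_insert, mem_singleton] at hx
      rw [mem_biUnion]
      rcases hx with rfl | rfl
      · refine ⟨p x, ?_, ?_⟩
        · rw [hP, mem_filter, mem_range]; exact ⟨hprn, hpr, rfl⟩
        · simp only [chl, mem_filter, mem_range]
          exact ⟨⟨hrn, hr0, trivial⟩, hr⟩
      · refine ⟨p x, ?_, ?_⟩
        · rw [hP, mem_filter, mem_range]; exact ⟨hpr'n, hpr', htt.symm⟩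
        · simp only [chl, mem_filter, mem_range]
          exact ⟨⟨hr'n, hr'0, trivial⟩, hr'⟩
    have h5 := Finset.card_le_card h4
    rw [Finset.card_pair hne, ← h3, ← h1] at h5
    omega
  have hnotA : ∀ r ∈ R, 0 < r → p r ∉ R → r ∈ R₀ := by
    intro r hr _ hpr
    rw [hRdef, mem_union] at hr
    rcases hr with hr | hr
    · exact hr
    · exfalso
      apply hpr
      exact hRR (mem_filter.1 hr).2.2.1
  have hFR₀ : F ⊆ R₀ := by
    intro v hv
    rw [hR₀, mem_filter]
    exact ⟨hF hv, Or.inr (Or.inr (Or.inr hv))⟩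
  refine ⟨R, top, ?_, hFR₀.trans hRR, ?_, ?_⟩
  · refine ⟨?_, hRR h0, ?_, ?_, ?_, ?_, ?_⟩
    · rw [hRdef]; exact union_subset hR₀s (filter_subset _ _)
    · intro v hv hvR h; exact (ht v hv hvR).1 h
    · intro v hv hvR h; exact (ht v hv hvR).2 h
    · intro t
      refine le_trans (Finset.card_le_card ?_) (hsize₀ (top₀ t))
      intro v hv
      rw [mem_filter, mem_range] at hv ⊢
      refine ⟨hv.1, fun hh => hv.2.1 (hRR hh), ?_⟩
      rw [href v hv.1 hv.2.1, hv.2.2]
    · intro r hr r' hr' hr0 hr'0 hpr hpr' htt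
      have hrR := hnotA r hr hr0 hpr
      have hr'R := hnotA r' hr' hr'0 hpr'
      have hrn := mem_range.1 (hR₀s hrR)
      have hr'n := mem_range.1 (hR₀s hr'R)
      have hprn : p r < n := by have := hp r hr0 hrn; omega
      have hpr'n : p r' < n := by have := hp r' hr'0 hr'n; omega
      refine hexit₀ r hrR r' hr'R hr0 hr'0 (fun hh => hpr (hRR hh)) (fun hh => hpr' (hRR hh)) ?_
      rw [href (p r) hprn hpr, href (p r') hpr'n hpr', htt]
    · intro r hr hr0 hpr
      have hrR := hnotA r hr hr0 hpr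
      have hrn := mem_range.1 (hR₀s hrR)
      have hprr := hp r hr0 hrn
      have hprn : p r < n := by omega
      have hpr₀ : p r ∉ R₀ := fun hh => hpr (hRR hh)
      have hpr0 : 0 < p r := by
        rcases Nat.eq_zero_or_pos (p r) with h | h
        · rw [h] at hpr₀; exact absurd h0 hpr₀
        · exact h
      have hpp := hp (p r) hpr0 hprn
      have hprA : p r ∉ A := fun hh => hpr (by rw [hRdef]; exact mem_union_right _ hh)
      have hppR₀ : p (p r) ∉ R₀ := by
        intro hh
        apply hprA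
        rw [hA, mem_filter, mem_range]
        exact ⟨hprn, hpr₀, hh, r, hrR, hr0, rfl⟩
      intro hpp2
      rw [hRdef, mem_union] at hpp2
      rcases hpp2 with hpp2 | hpp2
      · exact hppR₀ hpp2
      · rw [hA, mem_filter, mem_range] at hpp2
        obtain ⟨g1, g2, g3, r₁, hr₁, hr₁0, hr₁p⟩ := hpp2
        have e1 : top₀ (p r) = p (p r) := by
          rw [(ht₀ (p r) hprn hpr₀).2 hppR₀, (ht₀ (p (p r)) g1 g2).1 g3]
        have e2 : top₀ (p r₁) = p (p r) := by
          rw [hr₁p, (ht₀ (p (p r)) g1 g2).1 g3]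
        have e3 : r = r₁ := hexit₀ r hrR r₁ hr₁ hr0 hr₁0 hpr₀ (by rw [hr₁p]; exact g2)
          (e1.trans e2.symm)
        rw [← e3] at hr₁p
        omega
  · have : R.card ≤ R₀.card + R₀.card := by
      calc R.card ≤ R₀.card + A.card := Finset.card_union_le _ _
        _ ≤ _ := by omega
    nlinarith [Nat.mul_le_mul_right K this]
  · intro v hv0 hvn hvF hch hcK
    have hu1 : ∀ u ∈ chl n p v, s u = 1 ∧ h u = 0 ∧ u ∉ R₀ := by
      intro u hu
      obtain ⟨huF, hu'⟩ := hch u hu
      simp only [chl, mem_filter, mem_range] at hu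
      obtain ⟨hun, hu0, hpu⟩ := hu
      have hsu : s u = 1 := by rw [hsrec u hun, hu']; simp
      have hhu : h u = 0 := by rw [hhrec u hun, hu']; simp
      refine ⟨hsu, hhu, ?_⟩
      rw [hR₀, mem_filter]
      rintro ⟨_, h1 | h1 | h1 | h1⟩
      · omega
      · rw [hsu] at h1; omega
      · rw [hhu] at h1; omega
      · exact huF h1
    have hf1 : (chl n p v).filter (fun w => w ∉ R₀) = chl n p v :=
      Finset.filter_true_of_mem fun u hu => (hu1 u hu).2.2
    have hf2 : (chl n p v).filter (fun w => w ∈ R₀) = ∅ :=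
      Finset.filter_false_of_mem fun u hu => (hu1 u hu).2.2
    have hsv : s v = 1 + (chl n p v).card := by
      rw [hsrec v hvn, hf1, Finset.sum_congr rfl fun u hu => (hu1 u hu).1]
      simp
    have hhv : h v = 0 := by
      rw [hhrec v hvn, hf1, hf2, Finset.sum_congr rfl fun u hu => (hu1 u hu).2.1]
      simp
    have hvR : v ∉ R₀ := by
      rw [hR₀, mem_filter]
      rintro ⟨_, h1 | h1 | h1 | h1⟩
      · omega
      · rw [hsv] at h1; omega
      · rw [hhv] at h1; omega
      · exact hvF h1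
    constructor
    · intro hh
      rw [hRdef, mem_union] at hh
      rcases hh with hh | hh
      · exact hvR hh
      · obtain ⟨r, hr, hr0, hrv⟩ := (mem_filter.1 hh).2.2.2
        have : r ∈ chl n p v := by
          simp only [chl, mem_filter]
          exact ⟨hR₀s hr, hr0, hrv⟩
        exact (hu1 r this).2.2 hr
    · intro u hu hh
      rw [hRdef, mem_union] at hh
      rcases hh with hh | hh
      · exact (hu1 u hu).2.2 hh
      · obtain ⟨r, hr, hr0, hrv⟩ := (mem_filter.1 hh).2.2.2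
        have : r ∈ chl n p u := by
          simp only [chl, mem_filter]
          exact ⟨hR₀s hr, hr0, hrv⟩
        rw [(hch u hu).2] at this
        simp at this

end Pool.Agent.GRC
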