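import Pool.Agent.Helper28.GRC.GRM

/-!
# GRC-UGP: the sufficient condition for unicyclic graphs on arbitrary vertex types
-/

set_option autoImplicit false

namespace Pool.Agent.GRC

open Finset

open Classical in
/-- `G` has a graceful labelling: an injective labelling of the vertices by `0, ..., q` (`q` is the number of edges) such that different edges
have different label differences -/
def Graceful {V : Type} [Fintype V] (G : SimpleGraph V) : Prop :=
  ∃ f : V → ℕ, Function.Injective f ∧ (∀ v, f v ≤ G.edgeFinset.card) ∧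
    ∀ u v u' v' : V, G.Adj u v → G.Adj u' v' →
      Int.natAbs ((f u : ℤ) - (f v : ℤ)) = Int.natAbs ((f u' : ℤ) - (f v' : ℤ)) → s(u, v) = s(u', v')

open Classical in
/-- `G` is unicyclic: connected with as many edges as vertices -/
def Unicyclic {V : Type} [Fintype V] (G : SimpleGraph V) : Prop :=
  G.Connected ∧ G.edgeFinset.card = Fintype.card V

open Classical in
/-- transfer along an isomorphism -/
theorem graceful_of_iso {V W : Type} [Fintype V] [Fintype W] {G : SimpleGraph V} {H : SimpleGraph W}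
    (e : G ≃g H) (h : Graceful H) : Graceful G := by
  obtain ⟨f, h1, h2, h3⟩ := h
  have hcard : G.edgeFinset.card = H.edgeFinset.card := SimpleGraph.Iso.card_edgeFinset_eq e
  refine ⟨fun v => f (e v), fun a b hab => e.injective (h1 hab), fun v => ?_, ?_⟩
  · rw [hcard]
    exact h2 (e v)
  · intro u v u' v' huv huv' hd
    have h4 := h3 (e u) (e v) (e u') (e v') (e.map_rel_iff.2 huv) (e.map_rel_iff.2 huv') hd
    have h5 : Sym2.map e s(u, v) = Sym2.map e s(u', v') := by
      simpa using h4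
    exact Sym2.map.injective e.injective h5

theorem card_filter_iso {V W : Type} [Fintype V] [Fintype W] (e : V ≃ W) {P : V → Prop} {Q : W → Prop}
    {_ : DecidablePred P} {_ : DecidablePred Q}
    (h : ∀ v, P v ↔ Q (e v)) : (univ.filter P).card = (univ.filter Q).card :=
  Finset.card_equiv e (by intro v; simp [h])

open Classical in
theorem degree_iso {V W : Type} [Fintype V] [Fintype W] {G : SimpleGraph V} {H : SimpleGraph W}
    (e : G ≃g H) (v : V) : G.degree v = H.degree (e v) :=
  (SimpleGraph.Iso.degree_eq e v).symm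

open Classical in
/-- Part 1. -/
theorem unicyclic_part1 (D : ℕ) (hD : 10 ^ 5 ≤ D) (ε : ℝ) (hε : 0 < ε) :
    ∃ η : ℝ, 0 < η ∧ ∀ Λ : ℕ, ∃ δ : ℝ, 0 < δ ∧ ∃ n₀ : ℕ, ∀ (V : Type) [Fintype V] (G : SimpleGraph V),
      n₀ ≤ Fintype.card V → Unicyclic G → (∀ v, (G.degree v : ℝ) ≤ δ * Fintype.card V) →
      ((∑ v ∈ univ.filter (fun v => Λ < G.degree v), G.degree v : ℕ) : ℝ) ≤ η * Fintype.card V →
      ε * Fintype.card V ≤ ((univ.filter fun u => G.degree u = 1 ∧ ∃ v, G.Adj u v ∧ G.degree v = 2).card : ℝ) →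
      ε * Fintype.card V ≤ ((univ.filter fun c => G.degree c = D + 1 ∧
        (univ.filter fun u => G.Adj c u ∧ G.degree u = 1).card = D).card : ℝ) →
      Graceful G := by
  obtain ⟨η, hη, h⟩ := grc_fin D 1 hD (min ε 1) (by positivity) (min_le_right _ _)
  refine ⟨η, hη, fun Λ => ?_⟩
  obtain ⟨δ, hδ, n₀, h⟩ := h Λ
  refine ⟨δ, hδ, n₀, ?_⟩
  intro V _ G hn hG hdeg htail hpend hstar
  obtain ⟨m, hm⟩ : ∃ m, m = Fintype.card V := ⟨_, rfl⟩
  obtain ⟨e0⟩ : Nonempty (V ≃ Fin m) := by rw [hm]; exact ⟨Fintype.equivFin V⟩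
  rw [← hm] at hn hdeg htail hpend hstar
  obtain ⟨H, ⟨e⟩⟩ : ∃ H : SimpleGraph (Fin m), Nonempty (G ≃g H) :=
    ⟨_, ⟨SimpleGraph.Iso.map e0 G⟩⟩
  have hadj : ∀ u v, G.Adj u v ↔ H.Adj (e u) (e v) := fun u v => e.map_rel_iff.symm
  have hcard : G.edgeFinset.card = H.edgeFinset.card := SimpleGraph.Iso.card_edgeFinset_eq e
  have hm0 : (0 : ℝ) ≤ m := Nat.cast_nonneg m
  have hmin : min ε 1 * (m : ℝ) ≤ ε * m := mul_le_mul_of_nonneg_right (min_le_left _ _) hm0
  have hleaf : ∀ u, (G.degree u = 1 ∧ ∃ v, G.Adj u v ∧ G.degree v = 2) ↔ PL2 H (e u) := by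
    intro u
    unfold PL2
    rw [degree_iso e u]
    constructor
    · rintro ⟨h1, v, h2, h3⟩
      exact ⟨h1, e v, (hadj u v).1 h2, by rw [← degree_iso e v]; exact h3⟩
    · rintro ⟨h1, v, h2, h3⟩
      obtain ⟨v, rfl⟩ := e.surjective v
      exact ⟨h1, v, (hadj u v).2 h2, by rw [degree_iso e v]; exact h3⟩
  have hst : ∀ c, (G.degree c = D + 1 ∧ (univ.filter fun u => G.Adj c u ∧ G.degree u = 1).card = D) ↔
      StG H D (e c) := by
    intro c
    unfold StG
    have h1 : (univ.filter fun u => G.Adj c u ∧ G.degree u = 1).card =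
        (univ.filter fun u => H.Adj (e c) u ∧ H.degree u = 1).card := by
      refine card_filter_iso e.toEquiv fun u => ?_
      rw [hadj c u, degree_iso e u]
      exact Iff.rfl
    rw [degree_iso e c, h1]
  apply graceful_of_iso e
  unfold Graceful
  refine h m H hn (e.connected_iff.1 hG.1) (by rw [← hcard, hG.2, hm]) ?_ ?_ ?_ ?_
  · intro v
    obtain ⟨v, rfl⟩ := e.surjective v
    rw [← degree_iso e v]
    exact hdeg v
  · have h1 : ∑ v ∈ univ.filter (fun v => Λ < H.degree v), H.degree v =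
        ∑ v ∈ univ.filter (fun v => Λ < G.degree v), G.degree v := by
      symm
      refine Finset.sum_equiv e.toEquiv ?_ ?_
      · intro v
        simp only [mem_filter, mem_univ, true_and]
        rw [degree_iso e v]
        exact Iff.rfl
      · intro v _
        exact degree_iso e v
    rw [h1]
    exact htail
  · refine (hmin.trans hpend).trans (le_of_eq ?_)
    exact congrArg Nat.cast (card_filter_iso e.toEquiv hleaf)
  · refine (hmin.trans hstar).trans (le_of_eq ?_)
    exact congrArg Nat.cast (card_filter_iso e.toEquiv hst)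

end Pool.Agent.GRC
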