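import Pool.Agent.Helper28.GRC.PForm

/-!
# GRC-UN (definitions): graphs with `m` vertices and `m - 1 + g` edges, numbering along a spanning tree
-/

set_option autoImplicit false

namespace Pool.Agent.GRC

open Finset Pool.Agent.SEM

section
variable {m : ℕ}

open Classical in
/-- `u` is a leaf whose neighbour has degree 2 -/
def PL2 (G : SimpleGraph (Fin m)) (u : Fin m) : Prop := G.degree u = 1 ∧ ∃ v, G.Adj u v ∧ G.degree v = 2

open Classical in
/-- `c` has degree `D + 1` and exactly `D` leaf neighbours -/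
def StG (G : SimpleGraph (Fin m)) (D : ℕ) (c : Fin m) : Prop :=
  G.degree c = D + 1 ∧ (univ.filter fun u => G.Adj c u ∧ G.degree u = 1).card = D

/-- all the edges at `x` are in the tree `T` -/
def AllT (G T : SimpleGraph (Fin m)) (x : Fin m) : Prop := ∀ v, G.Adj x v → T.Adj x v

open Classical in
/-- the pendant path of the leaf `u` is attached at `x`, with `x` near `w`, `w'`, `c` or an end of an extra edge -/
def BadP (G T : SimpleGraph (Fin m)) (c w w' u : Fin m) : Prop :=
  ∃ v x, G.Adj u v ∧ G.degree v = 2 ∧ G.Adj v x ∧ x ≠ u ∧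
    (x = w ∨ x = w' ∨ x = c ∨ G.Adj w x ∨ G.Adj w' x ∨ G.Adj c x ∨ ¬ AllT G T x)

/-- numbering `E` of the vertices along the spanning tree `T` with root `r`, extra edges `(ea j, eb j)` -/
structure NumG (g : ℕ) (G T : SimpleGraph (Fin m)) (r : Fin m) (E : Fin m → ℕ) (p ea eb : ℕ → ℕ) : Prop where
  par : Par m p
  root : E r = 0
  lt : ∀ v, E v < m
  inj : Function.Injective E
  surj : ∀ i, i < m → ∃ v, E v = i
  adjT : ∀ u v, T.Adj u v ↔ (0 < E v ∧ p (E v) = E u) ∨ (0 < E u ∧ p (E u) = E v)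
  ex1 : ∀ j < g, ∃ u v, G.Adj u v ∧ ¬ T.Adj u v ∧ E u = ea j ∧ E v = eb j ∧ eb j < ea j
  ex2 : ∀ u v, G.Adj u v → ¬ T.Adj u v → E v < E u → ∃ j < g, ea j = E u ∧ eb j = E v
  exi : ∀ i < g, ∀ j < g, ea i = ea j → eb i = eb j → i = j

end

end Pool.Agent.GRC
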